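import Mathlib

/-! Bundle of small proof modules (one section per former module). -/

section

/-!
# The shuffle ring

`Sh I K` is the ring of all functions on the words `List I` with the shuffle product.
-/

set_option autoImplicit false

namespace Pool.Agent.E487.Hopf

variable {I K : Type*} [Field K]

/-- functions on words -/
def Sh (I K : Type*) : Type _ := List I → K

instance : AddCommGroup (Sh I K) := inferInstanceAs (AddCommGroup (List I → K))
instance : Module K (Sh I K) := inferInstanceAs (Module K (List I → K))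

namespace Sh

omit [Field K] in
theorem ext' {f g : Sh I K} (h : ∀ w, f w = g w) : f = g := funext h

@[simp] theorem add_apply (f g : Sh I K) (w : List I) : (f + g) w = f w + g w := rfl
@[simp] theorem sub_apply (f g : Sh I K) (w : List I) : (f - g) w = f w - g w := rfl
@[simp] theorem neg_apply (f : Sh I K) (w : List I) : (-f) w = -(f w) := rfl
@[simp] theorem zero_apply (w : List I) : (0 : Sh I K) w = 0 := rfl
@[simp] theorem smul_apply (c : K) (f : Sh I K) (w : List I) : (c • f) w = c * f w := rfl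

/-- deletion of the first letter -/
def L (i : I) : Sh I K →ₗ[K] Sh I K where
  toFun f := fun w => f (i :: w)
  map_add' _ _ := rfl
  map_smul' _ _ := rfl

/-- deletion of the last letter -/
def R (i : I) : Sh I K →ₗ[K] Sh I K where
  toFun f := fun w => f (w ++ [i])
  map_add' _ _ := rfl
  map_smul' _ _ := rfl

theorem L_apply (i : I) (f : Sh I K) (w : List I) : L i f w = f (i :: w) := rfl
theorem R_apply (i : I) (f : Sh I K) (w : List I) : R i f w = f (w ++ [i]) := rfl

theorem L_R (i j : I) (f : Sh I K) : L i (R j f) = R j (L i f) := rfl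

/-- the value of the shuffle product -/
def sm : List I → Sh I K → Sh I K → K
  | [], f, g => f [] * g []
  | i :: w, f, g => sm w (L i f) g + sm w f (L i g)

theorem sm_add_left (w : List I) (f f' g : Sh I K) : sm w (f + f') g = sm w f g + sm w f' g := by
  induction w generalizing f f' g with
  | nil => simp only [sm, add_apply]; ring
  | cons i w ih => simp only [sm, map_add, ih]; ring

theorem sm_smul_left (w : List I) (c : K) (f g : Sh I K) : sm w (c • f) g = c * sm w f g := by
  induction w generalizing f g with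
  | nil => simp only [sm, smul_apply]; ring
  | cons i w ih => simp only [sm, map_smul, ih]; ring

theorem sm_comm (w : List I) (f g : Sh I K) : sm w f g = sm w g f := by
  induction w generalizing f g with
  | nil => simp only [sm]; ring
  | cons i w ih => simp only [sm]; rw [ih (L i f) g, ih f (L i g)]; ring

instance : Mul (Sh I K) := ⟨fun f g => fun w => sm w f g⟩

theorem mul_apply (f g : Sh I K) (w : List I) : (f * g) w = sm w f g := rfl

theorem mul_nil (f g : Sh I K) : (f * g) [] = f [] * g [] := rfl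

theorem L_mul (i : I) (f g : Sh I K) : L i (f * g) = L i f * g + f * L i g := rfl

theorem mul_cons (f g : Sh I K) (i : I) (w : List I) :
    (f * g) (i :: w) = (L i f * g) w + (f * L i g) w := rfl

instance : One (Sh I K) := ⟨fun w => if w.isEmpty then 1 else 0⟩

theorem one_nil : (1 : Sh I K) [] = 1 := rfl
theorem one_cons (i : I) (w : List I) : (1 : Sh I K) (i :: w) = 0 := rfl
theorem L_one (i : I) : L i (1 : Sh I K) = 0 := rfl

theorem sm_zero_left (w : List I) (g : Sh I K) : sm w 0 g = 0 := by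
  have := sm_smul_left w 0 0 g
  simpa using this

theorem sm_one (w : List I) (g : Sh I K) : sm w 1 g = g w := by
  induction w generalizing g with
  | nil => simp [sm, one_nil]
  | cons i w ih => simp only [sm, L_one, sm_zero_left, ih, zero_add]; rfl

theorem sm_assoc (w : List I) (f g h : Sh I K) : sm w (f * g) h = sm w f (g * h) := by
  induction w generalizing f g h with
  | nil => simp only [sm, mul_nil]; ring
  | cons i w ih =>
    simp only [sm, L_mul]
    rw [sm_add_left, sm_comm w f (L i g * h + g * L i h), sm_add_left, ih, ih, ih,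
      sm_comm w (L i g * h) f, sm_comm w (g * L i h) f]
    ring

instance : CommRing (Sh I K) :=
  { (inferInstance : AddCommGroup (Sh I K)) with
    mul := (· * ·)
    one := 1
    mul_assoc := fun f g h => ext' fun w => sm_assoc w f g h
    one_mul := fun f => ext' fun w => sm_one w f
    mul_one := fun f => ext' fun w => (sm_comm w f 1).trans (sm_one w f)
    left_distrib := fun f g h => ext' fun w => by
      change sm w f (g + h) = sm w f g + sm w f h
      rw [sm_comm, sm_add_left, sm_comm w g, sm_comm w h]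
    right_distrib := fun f g h => ext' fun w => sm_add_left w f g h
    zero_mul := fun f => ext' fun w => sm_zero_left w f
    mul_zero := fun f => ext' fun w => (sm_comm w f 0).trans (sm_zero_left w f)
    mul_comm := fun f g => ext' fun w => sm_comm w f g
    natCast := fun n => n • (1 : Sh I K)
    natCast_zero := zero_smul ℕ (1 : Sh I K)
    natCast_succ := fun n => by
      change (n + 1) • (1 : Sh I K) = n • (1 : Sh I K) + 1
      rw [add_smul, one_smul]
    intCast := fun n => n • (1 : Sh I K)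
    intCast_ofNat := fun n => by
      change (n : ℤ) • (1 : Sh I K) = n • (1 : Sh I K)
      rw [natCast_zsmul]
    intCast_negSucc := fun n => by
      change Int.negSucc n • (1 : Sh I K) = -((n + 1) • (1 : Sh I K))
      rw [negSucc_zsmul] }

instance : Algebra K (Sh I K) :=
  Algebra.ofModule (fun c f g => ext' fun w => sm_smul_left w c f g)
    (fun c f g => ext' fun w => by
      change sm w f (c • g) = c * sm w f g
      rw [sm_comm, sm_smul_left, sm_comm])

theorem R_mul (j : I) (f g : Sh I K) : R j (f * g) = R j f * g + f * R j g := by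
  apply ext'
  intro w
  induction w generalizing f g with
  | nil =>
    change sm [j] f g = sm [] (R j f) g + sm [] f (R j g)
    simp only [sm]
    rfl
  | cons i w ih =>
    have h1 := ih (L i f) g
    have h2 := ih f (L i g)
    have e : R j (f * g) (i :: w) = R j (L i f * g) w + R j (f * L i g) w := rfl
    rw [e, h1, h2, add_apply, add_apply, add_apply, mul_cons, mul_cons, L_R, L_R]
    ring

theorem algebraMap_apply (c : K) (w : List I) :
    (algebraMap K (Sh I K) c) w = c * (1 : Sh I K) w := by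
  rw [Algebra.algebraMap_eq_smul_one]; rfl

/-- homogeneous of degree `n` -/
def Hom (n : ℕ) (f : Sh I K) : Prop := ∀ w : List I, f w ≠ 0 → w.length = n

/-- homogeneous component -/
def comp (n : ℕ) : Sh I K →ₗ[K] Sh I K where
  toFun f := fun w => if w.length = n then f w else 0
  map_add' f g := ext' fun w => by
    change (if w.length = n then f w + g w else 0) =
      (if w.length = n then f w else 0) + (if w.length = n then g w else 0)
    split_ifs
    · rfl
    · rw [add_zero]
  map_smul' c f := ext' fun w => by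
    change (if w.length = n then c * f w else 0) = c * (if w.length = n then f w else 0)
    split_ifs
    · rfl
    · rw [mul_zero]

theorem comp_apply (n : ℕ) (f : Sh I K) (w : List I) :
    comp n f w = if w.length = n then f w else 0 := rfl

theorem comp_hom (n : ℕ) (f : Sh I K) : Hom n (comp n f) := by
  intro w hw
  rw [comp_apply] at hw
  by_contra h
  exact hw (if_neg h)

theorem comp_of_hom {n : ℕ} {f : Sh I K} (h : Hom n f) : comp n f = f := by
  apply ext'
  intro w
  rw [comp_apply]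
  split_ifs with h1
  · rfl
  · by_contra h2
    exact h1 (h w (Ne.symm h2))

theorem comp_of_hom_ne {m n : ℕ} {f : Sh I K} (h : Hom m f) (hmn : m ≠ n) : comp n f = 0 := by
  apply ext'
  intro w
  rw [comp_apply, zero_apply]
  split_ifs with h1
  · by_contra h2
    exact hmn ((h w h2).symm.trans h1)
  · rfl

theorem exists_of_mul_ne {f g : Sh I K} {w : List I} (h : (f * g) w ≠ 0) :
    ∃ u v : List I, f u ≠ 0 ∧ g v ≠ 0 ∧ u.length + v.length = w.length := by
  induction w generalizing f g with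
  | nil =>
    rw [mul_nil] at h
    exact ⟨[], [], left_ne_zero_of_mul h, right_ne_zero_of_mul h, rfl⟩
  | cons i w ih =>
    rw [mul_cons] at h
    rcases ne_or_eq ((L i f * g) w) 0 with h1 | h1
    · obtain ⟨u, v, hu, hv, huv⟩ := ih h1
      exact ⟨i :: u, v, hu, hv, by simp only [List.length_cons]; omega⟩
    · rw [h1, zero_add] at h
      obtain ⟨u, v, hu, hv, huv⟩ := ih h
      exact ⟨u, i :: v, hu, hv, by simp only [List.length_cons]; omega⟩

theorem Hom.mul {a b : ℕ} {f g : Sh I K} (hf : Hom a f) (hg : Hom b g) : Hom (a + b) (f * g) := by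
  intro w hw
  obtain ⟨u, v, hu, hv, huv⟩ := exists_of_mul_ne hw
  rw [← huv, hf u hu, hg v hv]

/-- deletion of a final word -/
def RW (v : List I) : Sh I K →ₗ[K] Sh I K where
  toFun f := fun w => f (w ++ v)
  map_add' _ _ := rfl
  map_smul' _ _ := rfl

theorem RW_apply (v : List I) (f : Sh I K) (w : List I) : RW v f w = f (w ++ v) := rfl

theorem RW_nil (f : Sh I K) : RW [] f = f := ext' fun w => by rw [RW_apply, List.append_nil]

theorem RW_snoc (v : List I) (j : I) (f : Sh I K) : RW (v ++ [j]) f = RW v (R j f) :=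
  ext' fun w => by rw [RW_apply, RW_apply, R_apply, List.append_assoc]

theorem RW_cons (v : List I) (j : I) (f : Sh I K) : RW (j :: v) f = R j (RW v f) :=
  ext' fun w => by rw [RW_apply, R_apply, RW_apply, List.append_assoc]; rfl

/-- deletion of an initial word -/
def LW (v : List I) : Sh I K →ₗ[K] Sh I K where
  toFun f := fun w => f (v ++ w)
  map_add' _ _ := rfl
  map_smul' _ _ := rfl

theorem LW_apply (v : List I) (f : Sh I K) (w : List I) : LW v f w = f (v ++ w) := rfl

theorem LW_cons (v : List I) (j : I) (f : Sh I K) : LW (j :: v) f = LW v (L j f) := rfl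

end Sh

end Pool.Agent.E487.Hopf

end

section

/-! MP_e487d8_al, all symmetrizable types: the abstract interface between the representation
theory of KLR algebras and the combinatorial part of the proof (notes 2394-2396, 2412).

`S` is the set of simple modules up to isomorphism and grading shift, `O` the Grothendieck ring at
`q = 1` with rational coefficients, `K` the graded Grothendieck ring over the Laurent polynomials
(not commutative). Everything comes in a left and a right (primed) version; `Sys2.op` exchanges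
them. There are no R-matrices. -/

set_option autoImplicit false

namespace Pool.Agent.KLSAbs

open scoped LaurentPolynomial

/-- the simple module `X` is adapted to the word `w`: taking away successively the
maximal powers of the letters of `w` from `X` gives the trivial module -/
def AdP {I S : Type} (E : I → S → S) (one : S) : List I → S → Prop
  | [], X => X = one
  | i :: w, X => AdP E one w (E i X)

/-- all powers of `C` are simple -/
def PSR {S O : Type} [CommRing O] (b : S → O) (C : S) : Prop := ∀ n : ℕ, ∃ Z, b C ^ n = b Z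

/-- `C^n ∘ X` is simple for all `n` -/
def PSC {S O : Type} [CommRing O] (b : S → O) (C X : S) : Prop :=
  ∀ n : ℕ, ∃ Z, b C ^ n * b X = b Z

/-- for every simple `X` some simple quotient of some `C^n ∘ X` strongly commutes with `C` -/
def PDag {S O : Type} [CommRing O] (b : S → O) (Hd : S → S → S → Prop) (C : S) : Prop :=
  ∀ X, ∃ (n : ℕ) (T Z : S), b C ^ n = b T ∧ Hd T X Z ∧ PSC b C Z

/-- the coefficient of `q^n Z` in `V` -/
noncomputable def cfK {S K : Type} [Ring K] [Algebra ℤ[T;T⁻¹] K]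
    (gb : Module.Basis S ℤ[T;T⁻¹] K) (V : K) (Z : S) (n : ℤ) : ℤ := (gb.repr V Z).coeff n

/-- `∑ a_j wt_j` -/
def sumW {I : Type} (a : I → ℤ) (w : I →₀ ℕ) : ℤ := w.sum fun j n => a j * (n : ℤ)

/-- the interface -/
structure Sys2 (I S O K : Type) [DecidableEq I] [CommRing O] [Algebra ℚ O] [Ring K]
    [Algebra ℤ[T;T⁻¹] K] where
  /-- the symmetric form `(α_i, α_j)` -/
  A : I → I → ℤ
  /-- the Cartan integers `⟨h_i, α_j⟩` -/
  car : I → I → ℤ
  /-- `(α_i, α_i) / 2` -/
  dg : I → ℕ
  dg_pos : ∀ i, 0 < dg i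
  A_car : ∀ i j, A i j = dg i * car i j
  A_symm : ∀ i j, A i j = A j i
  car_diag : ∀ i, car i i = 2
  car_nonpos : ∀ i j, i ≠ j → car i j ≤ 0
  /-- the classes of the simple modules -/
  b : Module.Basis S ℚ O
  /-- the multiplicities in the convolution product of two simple modules -/
  co : S → S → S →₀ ℕ
  b_mul : ∀ X Y, b X * b Y = (co X Y).sum fun Z n => (n : ℚ) • b Z
  /-- the trivial module -/
  one : S
  b_one : b one = 1
  /-- the weight -/
  wt : S → I →₀ ℕ
  wt_co : ∀ X Y Z, co X Y Z ≠ 0 → wt Z = wt X + wt Y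
  wt_zero : ∀ X, wt X = 0 → X = one
  /-- the one dimensional module `L(i)` -/
  lt : I → S
  wt_lt : ∀ i, wt (lt i) = Finsupp.single i 1
  /-- the module `L(i^n)` -/
  lt_pow : ∀ i, PSR b (lt i)
  /-- the classes of the simple modules, in some degree, in the graded Grothendieck ring -/
  gb : Module.Basis S ℤ[T;T⁻¹] K
  gb_one : gb one = 1
  gb_pos : ∀ X Y Z n, 0 ≤ cfK gb (gb X * gb Y) Z n
  /-- `q = 1` -/
  ev : K →+* O
  ev_gb : ∀ X, ev (gb X) = b X
  ev_T : ∀ (n : ℤ) (V : K), ev ((LaurentPolynomial.T n : ℤ[T;T⁻¹]) • V) = ev V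
  /-- `dim M / (ht M)!` -/
  chi : O →ₐ[ℚ] ℚ
  chi_pos : ∀ X, 0 < chi (b X)
  /-- `ε_i` -/
  eps : I → S → ℕ
  /-- `e_i^max` -/
  E : I → S → S
  eps_E : ∀ i X, eps i (E i X) = 0
  E_of_eps : ∀ i X, eps i X = 0 → E i X = X
  eps_inj : ∀ i X Y, eps i X = eps i Y → E i X = E i Y → X = Y
  eps_surj : ∀ i a X, eps i X = 0 → ∃ Y, eps i Y = a ∧ E i Y = X
  wt_E : ∀ i X, wt X = wt (E i X) + Finsupp.single i (eps i X)
  eps_co : ∀ i X Y Z, co X Y Z ≠ 0 → eps i Z ≤ eps i X + eps i Y
  co_E : ∀ i X Y Z, eps i Z = eps i X + eps i Y → co X Y Z = co (E i X) (E i Y) (E i Z)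
  /-- a simple module with a word `i_1^{a_1} ... i_m^{a_m}` is adapted -/
  Ad_E : ∀ i w X, AdP E one w X → AdP E one w (E i X)
  ex_eps : ∀ X, X ≠ one → ∃ i, eps i X ≠ 0
  /-- `ε*_i`, at the right end -/
  eps' : I → S → ℕ
  /-- `e*_i^max` -/
  E' : I → S → S
  eps_E' : ∀ i X, eps' i (E' i X) = 0
  E_of_eps' : ∀ i X, eps' i X = 0 → E' i X = X
  eps_inj' : ∀ i X Y, eps' i X = eps' i Y → E' i X = E' i Y → X = Y
  eps_surj' : ∀ i a X, eps' i X = 0 → ∃ Y, eps' i Y = a ∧ E' i Y = X
  wt_E' : ∀ i X, wt X = wt (E' i X) + Finsupp.single i (eps' i X)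
  eps_co' : ∀ i X Y Z, co X Y Z ≠ 0 → eps' i Z ≤ eps' i X + eps' i Y
  co_E' : ∀ i X Y Z, eps' i Z = eps' i X + eps' i Y →
    co X Y Z = co (E' i X) (E' i Y) (E' i Z)
  Ad_E' : ∀ i w X, AdP E' one w X → AdP E' one w (E' i X)
  ex_eps' : ∀ X, X ≠ one → ∃ i, eps' i X ≠ 0
  /-- adapted = some word `i_1^{a_1} ... i_m^{a_m}` in the character -/
  ad_mirror : ∀ w X, AdP E one w X ↔ AdP E' one w.reverse X
  ad_co : ∀ w X Y Z, co X Y Z ≠ 0 → AdP E one w Z → AdP E one w X
  /-- `e_i` at `q = 1` -/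
  de : I → O →ₗ[ℚ] O
  de_mul : ∀ i x y, de i (x * y) = de i x * y + x * de i y
  de_pos : ∀ i X Y, 0 ≤ b.repr (de i (b X)) Y
  de_top : ∀ i X, ((de i) ^ eps i X) (b X) = ((eps i X).factorial : ℚ) • b (E i X)
  de_zero : ∀ i X, eps i X = 0 → de i (b X) = 0
  /-- `e*_i` at `q = 1` -/
  de' : I → O →ₗ[ℚ] O
  de_mul' : ∀ i x y, de' i (x * y) = de' i x * y + x * de' i y
  de_pos' : ∀ i X Y, 0 ≤ b.repr (de' i (b X)) Y
  de_top' : ∀ i X, ((de' i) ^ eps' i X) (b X) = ((eps' i X).factorial : ℚ) • b (E' i X)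
  de_zero' : ∀ i X, eps' i X = 0 → de' i (b X) = 0
  de_comm : ∀ i j x, de i (de' j x) = de' j (de i x)
  /-- the string formula for the degree of `C ∘ Y → Y ∘ C` -/
  lam_E : ∀ i C Y Z a, b C * b Y = b Z →
    gb Y * gb C = (LaurentPolynomial.T a : ℤ[T;T⁻¹]) • (gb C * gb Y) →
    gb (E i Y) * gb (E i C) = (LaurentPolynomial.T (a - (eps i Y : ℤ) * sumW (A i) (wt (E i C)) +
      (eps i C : ℤ) * sumW (A i) (wt (E i Y))) : ℤ[T;T⁻¹]) • (gb (E i C) * gb (E i Y))
  lam_E' : ∀ i C Y Z a, b C * b Y = b Z →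
    gb C * gb Y = (LaurentPolynomial.T a : ℤ[T;T⁻¹]) • (gb Y * gb C) →
    gb (E' i C) * gb (E' i Y) =
      (LaurentPolynomial.T (a - (eps' i Y : ℤ) * sumW (A i) (wt (E' i C)) +
      (eps' i C : ℤ) * sumW (A i) (wt (E' i Y))) : ℤ[T;T⁻¹]) • (gb (E' i Y) * gb (E' i C))
  /-- `d_i(X) = ε_i + ε*_i - ⟨h_i, wt X⟩` -/
  d_nonneg : ∀ i X, sumW (car i) (wt X) ≤ (eps i X : ℤ) + eps' i X
  cm_lt : ∀ i X, (∃ Z, b (lt i) * b X = b Z) ↔ sumW (car i) (wt X) = (eps i X : ℤ) + eps' i X
  d_f : ∀ i X Y, eps i Y = eps i X + 1 → E i Y = E i X →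
    sumW (car i) (wt X) < (eps i X : ℤ) + eps' i X → eps' i Y ≤ eps' i X
  d_f' : ∀ i X Y, eps' i Y = eps' i X + 1 → E' i Y = E' i X →
    sumW (car i) (wt X) < (eps i X : ℤ) + eps' i X → eps i Y ≤ eps i X
  /-- `Z` is a simple quotient of `X ∘ Y` (= a simple submodule of `Y ∘ X`) -/
  Hd : S → S → S → Prop
  hd_ex : ∀ X Y, ∃ Z, Hd X Y Z
  hd_co : ∀ X Y Z, Hd X Y Z → co X Y Z ≠ 0
  hd_eps : ∀ i X Y Z, Hd X Y Z → eps i X ≤ eps i Z
  hd_eps' : ∀ i X Y Z, Hd X Y Z → eps' i Y ≤ eps' i Z
  hd_as : ∀ A B C AB W Z, b A * b B = b AB → Hd B C W → Hd A W Z → Hd AB C Z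
  hd_as' : ∀ A B C BC W Z, b B * b C = b BC → Hd A B W → Hd W C Z → Hd A BC Z
  /-- (S2) -/
  s2 : ∀ X Y T, (∀ Z, Hd X Y Z → Z = T) → (∀ Z, Hd Y X Z → Z = T) → co X Y T = 1 →
    ∃ Z, b X * b Y = b Z
  /-- the quotients of `L(i^m) ∘ W` -/
  hd_lt : ∀ i m L W Z, b (lt i) ^ m = b L →
    (Hd L W Z ↔ eps i Z = eps i W + m ∧ E i Z = E i W)
  hd_lt' : ∀ i m L W Z, b (lt i) ^ m = b L →
    (Hd W L Z ↔ eps' i Z = eps' i W + m ∧ E' i Z = E' i W)
  /-- `X ∘ Y ≅ Y ∘ X` -/
  IC : S → S → Prop
  ic_refl : ∀ X, IC X X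
  ic_symm : ∀ X Y, IC X Y → IC Y X
  ic_cm : ∀ X Y Z, b X * b Y = b Z → IC X Y
  ic_mul : ∀ X A B AB, b A * b B = b AB → IC X A → IC X B → IC X AB
  ic_hd : ∀ X Y Z, IC X Y → Hd X Y Z → Hd Y X Z
  /-- quotients of `C ∘ X` if `L(i) ∘ C ≅ C ∘ L(i)` -/
  hd_ic : ∀ i C X Z, IC (lt i) C → Hd C X Z →
    eps i Z = eps i C + eps i X ∧ Hd (E i C) (E i X) (E i Z)
  hd_ic' : ∀ i C X Z, IC (lt i) C → Hd X C Z →
    eps' i Z = eps' i C + eps' i X ∧ Hd (E' i X) (E' i C) (E' i Z)
  /-- `X ∘ Y` has exactly one maximal submodule, with quotient `Z` -/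
  Hd1 : S → S → S → Prop
  hd1_hd : ∀ X Y Z, Hd1 X Y Z → Hd X Y Z
  hd1_eq : ∀ X Y Z Z', Hd1 X Y Z → Hd X Y Z' → Z' = Z
  /-- K1 -/
  k1 : ∀ C X T n, PSR b C → PDag b Hd C → b C ^ n = b T → ∃ Z, Hd1 T X Z
  k1' : ∀ C X T n, PSR b C → PDag b (fun X Y => Hd Y X) C → b C ^ n = b T → ∃ Z, Hd1 X T Z
  /-- K4 -/
  k4 : ∀ C X Y T Z n, PSR b C → PDag b Hd C → b C ^ n = b T → Hd T X Z → Hd T Y Z → X = Y
  k4' : ∀ C X Y T Z n, PSR b C → PDag b (fun X Y => Hd Y X) C → b C ^ n = b T →
    Hd X T Z → Hd Y T Z → X = Y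
  /-- (DS) -/
  ds : ∀ T B C Z Z', Hd T B Z → Hd C Z Z' → (¬ ∃ W, b C * b Z = b W) →
    ∃ (B' Y : S) (Q : S →₀ ℕ), co C B B' ≠ 0 ∧ Hd T B' Y ∧
      co C Z = Finsupp.single Z' 1 + Finsupp.single Y 1 + Q
  ds' : ∀ T B C Z Z', Hd B T Z → Hd Z C Z' → (¬ ∃ W, b C * b Z = b W) →
    ∃ (B' Y : S) (Q : S →₀ ℕ), co C B B' ≠ 0 ∧ Hd B' T Y ∧
      co C Z = Finsupp.single Z' 1 + Finsupp.single Y 1 + Q
  /-- (LBF) `F₀ = f_i^c k`, `F = f_i^(a+c) k`, `Y = f_i^(a+c) (y ∘ k)`, `g = f_i^a y` commutes
  with `L(i)` -/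
  lbf : ∀ i y k yk g F F₀ Y a c, eps i y = 0 → eps i k = 0 → b y * b k = b yk →
    eps i g = a → E i g = y → IC (lt i) g → eps i F₀ = c → E i F₀ = k →
    eps i F = a + c → E i F = k → eps i Y = a + c → E i Y = yk →
    ∃ Q : S →₀ ℕ, b Y + b y * b (lt i) ^ a * b F₀ =
      b y * b F + b g * b F₀ + Q.sum fun Z n => (n : ℚ) • b Z
  lbf' : ∀ i y k yk g F F₀ Y a c, eps' i y = 0 → eps' i k = 0 → b y * b k = b yk →
    eps' i g = a → E' i g = y → IC (lt i) g → eps' i F₀ = c → E' i F₀ = k →
    eps' i F = a + c → E' i F = k → eps' i Y = a + c → E' i Y = yk →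
    ∃ Q : S →₀ ℕ, b Y + b y * b (lt i) ^ a * b F₀ =
      b y * b F + b g * b F₀ + Q.sum fun Z n => (n : ℚ) • b Z
  /-- (HD) -/
  hd_deg : ∀ B, ∃ P : K, (∀ Z n, 0 ≤ cfK gb P Z n) ∧ ∀ X Z, Hd1 X B Z → ∃ s D' : ℤ,
    cfK gb (gb X * gb B) Z s ≠ 0 ∧ cfK gb (P * gb X) Z (s + D') ≠ 0 ∧
    ∀ W n, cfK gb (gb X * gb B) W n ≠ 0 → ∃ e : ℕ, cfK gb (P * gb X) W (n + D' - e) ≠ 0
  hd_deg' : ∀ B, ∃ P : K, (∀ Z n, 0 ≤ cfK gb P Z n) ∧ ∀ X Z, Hd1 B X Z → ∃ s D' : ℤ,
    cfK gb (gb B * gb X) Z s ≠ 0 ∧ cfK gb (gb X * P) Z (s + D') ≠ 0 ∧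
    ∀ W n, cfK gb (gb B * gb X) W n ≠ 0 → ∃ e : ℕ, cfK gb (gb X * P) W (n + D' - e) ≠ 0

end Pool.Agent.KLSAbs

end

section

/-!
# MP_e487d8_al, block SPAN: the root lattice, affine actions of the Weyl group, reduced words

`A` is a symmetrizable generalized Cartan matrix on `I`, `(α_i, α_j) = d i * A i j`; the root
lattice is `I →₀ ℤ`. Port of `Span/Weyl.lean`.
-/

set_option autoImplicit false

namespace Pool.Agent.KLT

variable {I : Type*}

/-- symmetrizable generalized Cartan matrix -/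
structure SymGCM (d : I → ℤ) (A : I → I → ℤ) : Prop where
  diag : ∀ i, A i i = 2
  pos : ∀ i, 0 < d i
  symm : ∀ i j, d i * A i j = d j * A j i
  off : ∀ i j, i ≠ j → A i j ≤ 0

/-- `⟨h_i, β⟩` -/
noncomputable def pair (A : I → I → ℤ) (i : I) (β : I →₀ ℤ) : ℤ := β.sum fun j n => n * A i j

/-- `(δ, β)` -/
noncomputable def bil (d : I → ℤ) (A : I → I → ℤ) (δ β : I →₀ ℤ) : ℤ :=
  δ.sum fun j n => n * (d j * pair A j β)

/-- `(Λ, β)` for a dominant weight given by its values on the coroots -/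
noncomputable def lam (d : I → ℤ) (Λ : I → ℤ) (β : I →₀ ℤ) : ℤ := β.sum fun j n => n * (d j * Λ j)

/-- simple root -/
noncomputable def al (i : I) : I →₀ ℤ := Finsupp.single i 1

/-- the simple reflection on the root lattice -/
noncomputable def sr (A : I → I → ℤ) (i : I) (β : I →₀ ℤ) : I →₀ ℤ := β - pair A i β • al i

/-- the simple reflection on `Λ - Q`, written on `β` -/
noncomputable def sL (A : I → I → ℤ) (Λ : I → ℤ) (i : I) (β : I →₀ ℤ) : I →₀ ℤ :=
  β + (Λ i - pair A i β) • al i

/-- the product of the simple reflections of a word -/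
noncomputable def act (A : I → I → ℤ) : List I → (I →₀ ℤ) → (I →₀ ℤ)
  | [], β => β
  | i :: w, β => sr A i (act A w β)

/-- the same for the action on `Λ - Q` -/
noncomputable def aff (A : I → I → ℤ) (Λ : I → ℤ) : List I → (I →₀ ℤ) → (I →₀ ℤ)
  | [], β => β
  | i :: w, β => sL A Λ i (aff A Λ w β)

/-- reduced word: no shorter word has the same product of simple reflections -/
def Reduced (A : I → I → ℤ) (w : List I) : Prop :=
  ∀ w' : List I, (∀ β, act A w' β = act A w β) → w.length ≤ w'.length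

section lin

variable (d : I → ℤ) (A : I → I → ℤ) (Λ : I → ℤ)

theorem pair_add (i : I) (β γ : I →₀ ℤ) : pair A i (β + γ) = pair A i β + pair A i γ := by
  unfold pair
  rw [Finsupp.sum_add_index' (fun _ => by ring) (fun _ _ _ => by ring)]

theorem pair_smul (i : I) (c : ℤ) (β : I →₀ ℤ) : pair A i (c • β) = c * pair A i β := by
  unfold pair
  rw [Finsupp.sum_smul_index' (fun _ => by ring), Finsupp.mul_sum]
  apply Finsupp.sum_congr
  intro j _
  rw [smul_eq_mul]; ring

theorem pair_zero (i : I) : pair A i 0 = 0 := by simp [pair]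

theorem pair_al (i j : I) : pair A i (al j) = A i j := by
  simp [pair, al]

theorem lam_add (β γ : I →₀ ℤ) : lam d Λ (β + γ) = lam d Λ β + lam d Λ γ := by
  unfold lam
  rw [Finsupp.sum_add_index' (fun _ => by ring) (fun _ _ _ => by ring)]

theorem lam_smul (c : ℤ) (β : I →₀ ℤ) : lam d Λ (c • β) = c * lam d Λ β := by
  unfold lam
  rw [Finsupp.sum_smul_index' (fun _ => by ring), Finsupp.mul_sum]
  apply Finsupp.sum_congr
  intro j _
  rw [smul_eq_mul]; ring

theorem lam_zero : lam d Λ 0 = 0 := by simp [lam]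

theorem lam_al (i : I) : lam d Λ (al i) = d i * Λ i := by simp [lam, al]

theorem bil_add_left (δ δ' β : I →₀ ℤ) : bil d A (δ + δ') β = bil d A δ β + bil d A δ' β := by
  unfold bil
  rw [Finsupp.sum_add_index' (fun _ => by ring) (fun _ _ _ => by ring)]

theorem bil_smul_left (c : ℤ) (δ β : I →₀ ℤ) : bil d A (c • δ) β = c * bil d A δ β := by
  unfold bil
  rw [Finsupp.sum_smul_index' (fun _ => by ring), Finsupp.mul_sum]
  apply Finsupp.sum_congr
  intro j _
  rw [smul_eq_mul]; ring

theorem bil_zero_left (β : I →₀ ℤ) : bil d A 0 β = 0 := by simp [bil]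

theorem bil_al_left (i : I) (β : I →₀ ℤ) : bil d A (al i) β = d i * pair A i β := by
  simp [bil, al]

variable {d A}

theorem bil_symm (hA : SymGCM d A) (δ β : I →₀ ℤ) : bil d A δ β = bil d A β δ := by
  classical
  induction δ using Finsupp.induction_linear with
  | zero =>
    rw [bil_zero_left]
    unfold bil
    simp [pair_zero]
  | add f g hf hg =>
    rw [bil_add_left, hf, hg]
    unfold bil
    rw [← Finsupp.sum_add]
    apply Finsupp.sum_congr
    intro j _
    rw [pair_add]; ring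
  | single i n =>
    have e : (Finsupp.single i n : I →₀ ℤ) = n • al i := by simp [al]
    rw [e, bil_smul_left, bil_al_left]
    unfold bil pair
    rw [Finsupp.mul_sum, Finsupp.mul_sum]
    apply Finsupp.sum_congr
    intro j _
    have : (n • al i).sum (fun k m => m * A j k) = n * A j i := by
      have := pair_smul A j n (al i)
      rw [pair_al] at this
      exact this
    rw [this]
    have h2 := hA.symm i j
    linear_combination n * β j * h2

theorem bil_add_right (hA : SymGCM d A) (δ β β' : I →₀ ℤ) :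
    bil d A δ (β + β') = bil d A δ β + bil d A δ β' := by
  rw [bil_symm hA, bil_add_left, bil_symm hA β, bil_symm hA β']

theorem bil_smul_right (hA : SymGCM d A) (c : ℤ) (δ β : I →₀ ℤ) :
    bil d A δ (c • β) = c * bil d A δ β := by
  rw [bil_symm hA, bil_smul_left, bil_symm hA β]

theorem bil_al_right (hA : SymGCM d A) (i : I) (β : I →₀ ℤ) :
    bil d A β (al i) = d i * pair A i β := by
  rw [bil_symm hA, bil_al_left]

end lin

section act

variable {d : I → ℤ} {A : I → I → ℤ} {Λ : I → ℤ}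

theorem sr_add (i : I) (β γ : I →₀ ℤ) : sr A i (β + γ) = sr A i β + sr A i γ := by
  unfold sr
  rw [pair_add, add_smul]
  abel

theorem sr_smul (i : I) (c : ℤ) (β : I →₀ ℤ) : sr A i (c • β) = c • sr A i β := by
  unfold sr
  rw [pair_smul, smul_sub, smul_smul]

theorem act_add (w : List I) (β γ : I →₀ ℤ) : act A w (β + γ) = act A w β + act A w γ := by
  induction w with
  | nil => rfl
  | cons i w ih => simp only [act]; rw [ih, sr_add]

theorem act_smul (w : List I) (c : ℤ) (β : I →₀ ℤ) : act A w (c • β) = c • act A w β := by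
  induction w with
  | nil => rfl
  | cons i w ih => simp only [act]; rw [ih, sr_smul]

theorem act_append (v w : List I) (β : I →₀ ℤ) : act A (v ++ w) β = act A v (act A w β) := by
  induction v with
  | nil => rfl
  | cons i v ih => simp only [List.cons_append, act]; rw [ih]

theorem aff_append (v w : List I) (β : I →₀ ℤ) :
    aff A Λ (v ++ w) β = aff A Λ v (aff A Λ w β) := by
  induction v with
  | nil => rfl
  | cons i v ih => simp only [List.cons_append, aff]; rw [ih]

theorem sL_add (i : I) (β γ : I →₀ ℤ) : sL A Λ i (β + γ) = sL A Λ i β + sr A i γ := by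
  unfold sL sr
  rw [pair_add]
  have : (Λ i - (pair A i β + pair A i γ)) • al i =
      (Λ i - pair A i β) • al i - pair A i γ • al i := by
    rw [← sub_smul]; congr 1; ring
  rw [this]
  abel

theorem aff_add (w : List I) (β γ : I →₀ ℤ) : aff A Λ w (β + γ) = aff A Λ w β + act A w γ := by
  induction w with
  | nil => rfl
  | cons i w ih => simp only [aff, act]; rw [ih, sL_add]

theorem sr_sr (hA : SymGCM d A) (i : I) (β : I →₀ ℤ) : sr A i (sr A i β) = β := by
  have h : pair A i (sr A i β) = - pair A i β := by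
    unfold sr
    rw [sub_eq_add_neg, pair_add, ← neg_smul, pair_smul, pair_al, hA.diag]
    ring
  unfold sr at h ⊢
  rw [h]
  rw [neg_smul]
  abel

theorem sL_sL (hA : SymGCM d A) (i : I) (β : I →₀ ℤ) : sL A Λ i (sL A Λ i β) = β := by
  have h : Λ i - pair A i (sL A Λ i β) = - (Λ i - pair A i β) := by
    unfold sL
    rw [pair_add, pair_smul, pair_al, hA.diag]
    ring
  have e : sL A Λ i (sL A Λ i β) =
      sL A Λ i β + (Λ i - pair A i (sL A Λ i β)) • al i := rfl
  rw [e, h]
  unfold sL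
  rw [neg_smul]
  abel

theorem act_reverse (hA : SymGCM d A) (w : List I) (β : I →₀ ℤ) :
    act A w.reverse (act A w β) = β := by
  induction w generalizing β with
  | nil => rfl
  | cons i w ih =>
    rw [List.reverse_cons, act_append]
    simp only [act]
    rw [sr_sr hA, ih]

theorem act_reverse' (hA : SymGCM d A) (w : List I) (β : I →₀ ℤ) :
    act A w (act A w.reverse β) = β := by
  have := act_reverse hA w.reverse β
  rwa [List.reverse_reverse] at this

theorem aff_reverse (hA : SymGCM d A) (w : List I) (β : I →₀ ℤ) :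
    aff A Λ w.reverse (aff A Λ w β) = β := by
  induction w generalizing β with
  | nil => rfl
  | cons i w ih =>
    rw [List.reverse_cons, aff_append]
    simp only [aff]
    rw [sL_sL hA, ih]

theorem aff_reverse' (hA : SymGCM d A) (w : List I) (β : I →₀ ℤ) :
    aff A Λ w (aff A Λ w.reverse β) = β := by
  have := aff_reverse (Λ := Λ) hA w.reverse β
  rwa [List.reverse_reverse] at this

/-- `⟨δ, Λ - β⟩` -/
noncomputable def HH (d : I → ℤ) (A : I → I → ℤ) (Λ : I → ℤ) (δ β : I →₀ ℤ) : ℤ := lam d Λ δ - bil d A δ β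

theorem sr_eq (i : I) (β : I →₀ ℤ) : sr A i β = β + (- pair A i β) • al i := by
  unfold sr
  rw [neg_smul, sub_eq_add_neg]

theorem HH_step (hA : SymGCM d A) (i : I) (δ β : I →₀ ℤ) :
    HH d A Λ (sr A i δ) (sL A Λ i β) = HH d A Λ δ β := by
  rw [sr_eq]
  unfold HH sL
  rw [lam_add, lam_smul, lam_al, bil_add_left, bil_smul_left,
    bil_add_right hA, bil_add_right hA, bil_smul_right hA, bil_smul_right hA, bil_al_right hA,
    bil_al_left, bil_al_left, pair_al, hA.diag]
  ring

theorem HH_word (hA : SymGCM d A) (w : List I) (δ β : I →₀ ℤ) :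
    HH d A Λ (act A w δ) (aff A Λ w β) = HH d A Λ δ β := by
  induction w with
  | nil => rfl
  | cons i w ih => simp only [act, aff]; rw [HH_step hA, ih]

theorem bil_step (hA : SymGCM d A) (i : I) (δ β : I →₀ ℤ) :
    bil d A (sr A i δ) (sr A i β) = bil d A δ β := by
  unfold sr
  rw [sub_eq_add_neg, ← neg_smul, sub_eq_add_neg, ← neg_smul, bil_add_left, bil_smul_left,
    bil_add_right hA, bil_add_right hA, bil_smul_right hA, bil_smul_right hA, bil_al_right hA,
    bil_al_right hA, bil_al_left, pair_al, hA.diag]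
  ring

theorem bil_word (hA : SymGCM d A) (w : List I) (δ β : I →₀ ℤ) :
    bil d A (act A w δ) (act A w β) = bil d A δ β := by
  induction w with
  | nil => rfl
  | cons i w ih => simp only [act]; rw [bil_step hA, ih]

/-- the value of the affine action of a reflection at `0` -/
theorem aff_refl (hA : SymGCM d A) (v : List I) (i : I) :
    d i • aff A Λ (v ++ i :: v.reverse) 0 = lam d Λ (act A v (al i)) • act A v (al i) := by
  rw [aff_append]
  simp only [aff]
  set b := aff A Λ v.reverse 0 with hb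
  have h1 : aff A Λ v b = 0 := by rw [hb]; exact aff_reverse' hA v 0
  have h2 : sL A Λ i b = b + (Λ i - pair A i b) • al i := rfl
  rw [h2, aff_add, h1, zero_add, act_smul, smul_smul]
  congr 1
  have h3 := HH_word (Λ := Λ) hA v (al i) b
  rw [h1] at h3
  unfold HH at h3
  rw [lam_al, bil_al_left] at h3
  have h4 : bil d A (act A v (al i)) 0 = 0 := by
    rw [bil_symm hA, bil_zero_left]
  rw [h4] at h3
  linarith

/-- `g β = (β, β) - 2 (Λ, β)` -/
noncomputable def gg (d : I → ℤ) (A : I → I → ℤ) (Λ : I → ℤ) (β : I →₀ ℤ) : ℤ :=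
  bil d A β β - 2 * lam d Λ β

theorem gg_sL (hA : SymGCM d A) (i : I) (β : I →₀ ℤ) : gg d A Λ (sL A Λ i β) = gg d A Λ β := by
  unfold gg sL
  rw [lam_add, lam_smul, lam_al, bil_add_left, bil_smul_left, bil_add_right hA,
    bil_add_right hA, bil_smul_right hA, bil_smul_right hA, bil_al_right hA, bil_al_left,
    bil_al_right hA, pair_al, hA.diag]
  ring

theorem gg_aff (hA : SymGCM d A) (w : List I) (β : I →₀ ℤ) :
    gg d A Λ (aff A Λ w β) = gg d A Λ β := by
  induction w with
  | nil => rfl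
  | cons i w ih => simp only [aff]; rw [gg_sL hA, ih]

theorem gg_sub_al (hA : SymGCM d A) (i : I) (β : I →₀ ℤ) :
    gg d A Λ (β - al i) = gg d A Λ β + 2 * (d i * (Λ i - pair A i β)) + 2 * d i := by
  unfold gg
  have e : β - al i = β + (-1 : ℤ) • al i := by rw [neg_smul, one_smul]; abel
  rw [e, lam_add, lam_smul, lam_al, bil_add_left, bil_smul_left, bil_add_right hA,
    bil_add_right hA, bil_smul_right hA, bil_smul_right hA, bil_al_right hA, bil_al_left,
    bil_al_right hA, pair_al, hA.diag]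
  ring

end act

section exch

variable {d : I → ℤ} {A : I → I → ℤ}

/-- sign coherence of real roots -/
def Sign (A : I → I → ℤ) : Prop :=
  ∀ (v : List I) (i : I), 0 ≤ act A v (al i) ∨ act A v (al i) ≤ 0

theorem refl_conj (hA : SymGCM d A) (v : List I) (i j : I) (h : act A v (al i) = al j)
    (β : I →₀ ℤ) : act A v (sr A i (act A v.reverse β)) = sr A j β := by
  have h1 : sr A i (act A v.reverse β) =
      act A v.reverse β + (- pair A i (act A v.reverse β)) • al i := by
    unfold sr
    rw [neg_smul]; abel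
  rw [h1, act_add, act_smul, act_reverse' hA, h]
  have h3 : d i = d j := by
    have h4 := bil_word hA v (al i) (al i)
    rw [h, bil_al_left, bil_al_left, pair_al, pair_al, hA.diag, hA.diag] at h4
    linarith
  have h2 : pair A i (act A v.reverse β) = pair A j β := by
    have := bil_word hA v (al i) (act A v.reverse β)
    rw [act_reverse' hA, h, bil_al_left, bil_al_left, h3] at this
    exact (mul_left_cancel₀ (hA.pos j).ne' this).symm
  rw [h2]
  unfold sr
  rw [neg_smul]; abel

theorem nonneg_al (i : I) : 0 ≤ al i := by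
  intro j
  unfold al
  simp only [Finsupp.coe_zero, Pi.zero_apply]
  classical
  rw [Finsupp.single_apply]
  split_ifs <;> norm_num

theorem root_simple (hA : SymGCM d A) (v : List I) (i j : I) (h0 : 0 ≤ act A v (al i))
    (h1 : sr A j (act A v (al i)) ≤ 0) : act A v (al i) = al j := by
  classical
  set γ := act A v (al i) with hγ
  have h2 : γ = γ j • al j := by
    ext m
    by_cases hm : m = j
    · subst hm
      simp [al]
    · have e1 : (sr A j γ) m = γ m := by
        unfold sr al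
        simp [Ne.symm hm]
      have e2 : (sr A j γ) m ≤ 0 := h1 m
      have e3 : 0 ≤ γ m := h0 m
      have e4 : γ m = 0 := by rw [e1] at e2; exact le_antisymm e2 e3
      rw [e4]
      simp [al, Ne.symm hm]
  have h3 : (1 : ℤ) = γ j * (act A v.reverse (al j)) i := by
    have h4 : act A v.reverse γ = al i := by rw [hγ, act_reverse hA]
    rw [h2, act_smul] at h4
    have h5 := DFunLike.congr_fun h4 i
    rw [Finsupp.smul_apply, smul_eq_mul] at h5
    have h6 : (al i : I →₀ ℤ) i = 1 := by simp [al]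
    rw [h6] at h5
    exact h5.symm
  have h5 : 0 ≤ γ j := h0 j
  have h6 : γ j = 1 := Int.eq_one_of_mul_eq_one_right h5 h3.symm
  rw [h2, h6, one_smul]

theorem exch_aux (hA : SymGCM d A) (hS : Sign A) (i : I) (u : List I)
    (hu : ¬ 0 ≤ act A u.reverse (al i)) :
    ∃ (p : List I) (j : I) (q : List I), u = p ++ j :: q ∧ act A p.reverse (al i) = al j := by
  induction u using List.reverseRecOn with
  | nil => exact absurd (nonneg_al i) hu
  | append_singleton u j ih =>
    by_cases h : 0 ≤ act A u.reverse (al i)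
    · refine ⟨u, j, [], rfl, ?_⟩
      rw [List.reverse_append] at hu
      simp only [List.reverse_cons, List.reverse_nil, List.nil_append, List.singleton_append,
        act] at hu
      have h2 : sr A j (act A u.reverse (al i)) ≤ 0 := by
        rcases hS (j :: u.reverse) i with h3 | h3
        · exact absurd h3 hu
        · exact h3
      exact root_simple hA u.reverse i j h h2
    · obtain ⟨p, j', q, hq, hp⟩ := ih h
      refine ⟨p, j', q ++ [j], ?_, hp⟩
      rw [hq]
      simp

theorem reduced_pos (hA : SymGCM d A) (hS : Sign A) (i : I) (u : List I)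
    (hr : Reduced A (i :: u)) : 0 ≤ act A u.reverse (al i) := by
  by_contra hu
  obtain ⟨p, j, q, rfl, hp⟩ := exch_aux hA hS i u hu
  have key : ∀ β, act A (p ++ q) β = act A (i :: (p ++ j :: q)) β := by
    intro β
    have h1 := refl_conj hA p.reverse i j hp (act A q β)
    rw [List.reverse_reverse] at h1
    simp only [act]
    rw [act_append, act_append]
    simp only [act]
    rw [← h1, act_reverse' hA, sr_sr hA]
  have := hr _ key
  simp at this

theorem reduced_tail {i : I} {u : List I} (hr : Reduced A (i :: u)) : Reduced A u := by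
  intro w' h
  have := hr (i :: w') (fun β => by simp only [act]; rw [h])
  simpa using this

theorem reduced_prefix {u v : List I} (hr : Reduced A (u ++ v)) : Reduced A u := by
  intro w' h
  have := hr (w' ++ v) (fun β => by rw [act_append, act_append, h])
  simpa using this

theorem reduced_suffix (hA : SymGCM d A) {u v : List I} (hr : Reduced A (u ++ v)) :
    Reduced A v := by
  intro w' h
  have := hr (u ++ w') (fun β => by rw [act_append, act_append, h])
  simpa using this

/-- the reflection in the word `v`, if `v` moves `α_j` to `α_a` -/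
theorem sr_act (hA : SymGCM d A) (v : List I) (j a : I) (h : act A v (al j) = al a)
    (β : I →₀ ℤ) : sr A a (act A v β) = act A v (sr A j β) := by
  have h1 := refl_conj hA v j a h (act A v β)
  rw [act_reverse hA] at h1
  exact h1.symm

theorem d_eq (hA : SymGCM d A) (v : List I) (j a : I) (h : act A v (al j) = al a) : d j = d a := by
  have h4 := bil_word hA v (al j) (al j)
  rw [h, bil_al_left, bil_al_left, pair_al, pair_al, hA.diag, hA.diag] at h4
  linarith

theorem sL_aff (hA : SymGCM d A) (Λ : I → ℤ) (v : List I) (j a : I) (h : act A v (al j) = al a)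
    (β : I →₀ ℤ) : sL A Λ a (aff A Λ v β) = aff A Λ v (sL A Λ j β) := by
  have h1 := HH_word (Λ := Λ) hA v (al j) β
  rw [h] at h1
  unfold HH at h1
  rw [lam_al, lam_al, bil_al_left, bil_al_left, d_eq hA v j a h] at h1
  have h2 : Λ a - pair A a (aff A Λ v β) = Λ j - pair A j β := by
    have h3 : d a * (Λ a - pair A a (aff A Λ v β)) = d a * (Λ j - pair A j β) := by linarith
    exact mul_left_cancel₀ (hA.pos a).ne' h3
  unfold sL
  rw [aff_add, act_smul, h, h2]

theorem act_neg (v : List I) (β : I →₀ ℤ) : act A v (-β) = - act A v β := by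
  have h := act_smul (A := A) v (-1) β
  rwa [neg_smul, one_smul, neg_smul, one_smul] at h

theorem al_ne (i : I) : (al i : I →₀ ℤ) ≠ 0 := by
  intro h
  have := DFunLike.congr_fun h i
  simp [al] at this

theorem act_ne (hA : SymGCM d A) (v : List I) {β : I →₀ ℤ} (h : β ≠ 0) : act A v β ≠ 0 := by
  intro h1
  apply h
  rw [← act_reverse hA v β, h1]
  have := act_smul (A := A) v.reverse 0 (0 : I →₀ ℤ)
  simpa using this

theorem sr_al (hA : SymGCM d A) (j : I) : sr A j (al j) = - al j := by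
  unfold sr
  rw [pair_al, hA.diag, two_smul]
  abel

theorem exch_word (hA : SymGCM d A) (hS : Sign A) (w : List I) (j : I)
    (h : ¬ 0 ≤ act A w (al j)) : ∃ (u : List I) (a : I) (v : List I), w = u ++ a :: v ∧
      act A v (al j) = al a := by
  obtain ⟨p, a, q, hq, hp⟩ := exch_aux hA hS j w.reverse (by rwa [List.reverse_reverse])
  refine ⟨q.reverse, a, p.reverse, ?_, hp⟩
  rw [← List.reverse_reverse w, hq]
  simp

theorem reduced_snoc (hA : SymGCM d A) (hS : Sign A) {w : List I} (hr : Reduced A w) {j : I}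
    (h : 0 ≤ act A w (al j)) : Reduced A (w ++ [j]) := by
  intro w' hw'
  have h1 : ¬ 0 ≤ act A w' (al j) := by
    intro h2
    rw [hw', act_append] at h2
    simp only [act] at h2
    rw [sr_al hA, act_neg] at h2
    have h3 : act A w (al j) = 0 := le_antisymm (neg_nonneg.1 h2) h
    exact act_ne hA w (al_ne j) h3
  obtain ⟨u, a, v, rfl, hv⟩ := exch_word hA hS w' j h1
  have h2 : ∀ β, act A (u ++ v) β = act A w β := by
    intro β
    have h3 := hw' (sr A j β)
    rw [act_append, act_append] at h3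
    simp only [act] at h3
    rw [sr_act hA v j a hv, sr_sr hA, act_append] at *
    exact h3
  have h3 := hr _ h2
  simp only [List.length_append, List.length_cons, List.length_nil] at h3 ⊢
  omega

/-- the exchange property at the right end of a reduced word -/
theorem exch (hA : SymGCM d A) (hS : Sign A) {w : List I} (hr : Reduced A w) {j : I}
    (h : ¬ Reduced A (w ++ [j])) : ∃ (u : List I) (a : I) (v : List I), w = u ++ a :: v ∧
      Reduced A (a :: v) ∧ Reduced A (v ++ [j]) ∧
      (∀ β, act A (a :: v) β = act A (v ++ [j]) β) ∧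
      ∀ (Λ : I → ℤ) (β : I →₀ ℤ), aff A Λ (a :: v) β = aff A Λ (v ++ [j]) β := by
  have h1 : ¬ 0 ≤ act A w (al j) := fun h2 => h (reduced_snoc hA hS hr h2)
  obtain ⟨u, a, v, rfl, hv⟩ := exch_word hA hS w j h1
  have h2 : Reduced A (a :: v) := reduced_suffix hA hr
  have h3 : ∀ β, act A (a :: v) β = act A (v ++ [j]) β := by
    intro β
    rw [act_append]
    exact sr_act hA v j a hv β
  refine ⟨u, a, v, rfl, h2, ?_, h3, fun Λ β => ?_⟩
  · intro w' hw'
    have h4 := h2 w' (fun β => by rw [hw', h3])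
    simpa using h4
  · rw [aff_append]
    exact sL_aff hA Λ v j a hv β

end exch

end Pool.Agent.KLT

end

section

/-! MP_e487d8_al, part 3 (freeness), abstract interface. `S` = simple modules of the KLR algebras of
a symmetrizable Cartan matrix up to isomorphism and shift, `O` = Grothendieck ring at `q = 1` with
rational coefficients, `br` = its Poisson bracket (the derivative at `q = 1` of `Y * X - X * Y` in
the graded Grothendieck ring). Everything comes in a left and a right (primed) version, `Pre.op`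
exchanges them. -/

set_option autoImplicit false

namespace Pool.Agent.KLT

open Pool.Agent.KLSAbs (AdP)

/-- the interface -/
structure Pre (I S O : Type) [DecidableEq I] [CommRing O] [Algebra ℚ O] where
  /-- the symmetrizable Cartan matrix `⟨h_i, α_j⟩` -/
  A : I → I → ℤ
  d : I → ℤ
  hA : SymGCM d A
  /-- the classes of the simple modules -/
  b : Module.Basis S ℚ O
  /-- the multiplicities in the convolution product of two simple modules -/
  co : S → S → S →₀ ℕ
  b_mul : ∀ X Y, b X * b Y = (co X Y).sum fun Z n => (n : ℚ) • b Z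
  one : S
  b_one : b one = 1
  /-- the weight -/
  wt : S → I →₀ ℕ
  wt_co : ∀ X Y Z, co X Y Z ≠ 0 → wt Z = wt X + wt Y
  wt_zero : ∀ X, wt X = 0 → X = one
  /-- the one dimensional module `L(i)` -/
  lt : I → S
  wt_lt : ∀ i, wt (lt i) = Finsupp.single i 1
  lt_pow : ∀ i (n : ℕ), ∃ Z, b (lt i) ^ n = b Z
  /-- `ε_i` -/
  eps : I → S → ℕ
  /-- `e_i^max` -/
  E : I → S → S
  eps_E : ∀ i X, eps i (E i X) = 0
  E_of_eps : ∀ i X, eps i X = 0 → E i X = X
  eps_inj : ∀ i X Y, eps i X = eps i Y → E i X = E i Y → X = Y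
  eps_surj : ∀ i a X, eps i X = 0 → ∃ Y, eps i Y = a ∧ E i Y = X
  wt_E : ∀ i X, wt X = wt (E i X) + Finsupp.single i (eps i X)
  eps_co : ∀ i X Y Z, co X Y Z ≠ 0 → eps i Z ≤ eps i X + eps i Y
  co_E : ∀ i X Y Z, eps i Z = eps i X + eps i Y → co X Y Z = co (E i X) (E i Y) (E i Z)
  Ad_E : ∀ i w X, AdP E one w X → AdP E one w (E i X)
  ex_eps : ∀ X, X ≠ one → ∃ i, eps i X ≠ 0
  /-- `ε*_i`, at the right end -/
  eps' : I → S → ℕ
  E' : I → S → S
  eps_E' : ∀ i X, eps' i (E' i X) = 0
  E_of_eps' : ∀ i X, eps' i X = 0 → E' i X = X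
  eps_inj' : ∀ i X Y, eps' i X = eps' i Y → E' i X = E' i Y → X = Y
  eps_surj' : ∀ i a X, eps' i X = 0 → ∃ Y, eps' i Y = a ∧ E' i Y = X
  wt_E' : ∀ i X, wt X = wt (E' i X) + Finsupp.single i (eps' i X)
  eps_co' : ∀ i X Y Z, co X Y Z ≠ 0 → eps' i Z ≤ eps' i X + eps' i Y
  co_E' : ∀ i X Y Z, eps' i Z = eps' i X + eps' i Y → co X Y Z = co (E' i X) (E' i Y) (E' i Z)
  Ad_E' : ∀ i w X, AdP E' one w X → AdP E' one w (E' i X)
  ex_eps' : ∀ X, X ≠ one → ∃ i, eps' i X ≠ 0
  /-- adapted = some word `i_1^{a_1} ... i_m^{a_m}` in the character -/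
  ad_mirror : ∀ w X, AdP E one w X ↔ AdP E' one w.reverse X
  ad_co : ∀ w X Y Z, co X Y Z ≠ 0 → AdP E one w Z → AdP E one w X
  /-- `ε_i + ε*_i - ⟨h_i, wt X⟩ ≥ 0` -/
  d_nonneg : ∀ i X, pair A i ((wt X).mapRange (fun n : ℕ => (n : ℤ)) Nat.cast_zero) ≤
    (eps i X : ℤ) + eps' i X
  cm_lt : ∀ i X, (∃ Z, b (lt i) * b X = b Z) ↔
    pair A i ((wt X).mapRange (fun n : ℕ => (n : ℤ)) Nat.cast_zero) = (eps i X : ℤ) + eps' i X
  d_f : ∀ i X Y, eps i Y = eps i X + 1 → E i Y = E i X →
    pair A i ((wt X).mapRange (fun n : ℕ => (n : ℤ)) Nat.cast_zero) <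
      (eps i X : ℤ) + eps' i X → eps' i Y ≤ eps' i X
  d_f' : ∀ i X Y, eps' i Y = eps' i X + 1 → E' i Y = E' i X →
    pair A i ((wt X).mapRange (fun n : ℕ => (n : ℤ)) Nat.cast_zero) <
      (eps i X : ℤ) + eps' i X → eps i Y ≤ eps i X
  /-- `Z` is a simple quotient of `X ∘ Y` (= a simple submodule of `Y ∘ X`) -/
  Hd : S → S → S → Prop
  hd_ex : ∀ X Y, ∃ Z, Hd X Y Z
  hd_co : ∀ X Y Z, Hd X Y Z → co X Y Z ≠ 0
  hd_eps : ∀ i X Y Z, Hd X Y Z → eps i X ≤ eps i Z
  hd_eps' : ∀ i X Y Z, Hd X Y Z → eps' i Y ≤ eps' i Z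
  hd_as : ∀ A B C AB W Z, b A * b B = b AB → Hd B C W → Hd A W Z → Hd AB C Z
  hd_as' : ∀ A B C BC W Z, b B * b C = b BC → Hd A B W → Hd W C Z → Hd A BC Z
  /-- (S2) -/
  s2 : ∀ X Y T, (∀ Z, Hd X Y Z → Z = T) → (∀ Z, Hd Y X Z → Z = T) → co X Y T = 1 →
    ∃ Z, b X * b Y = b Z
  /-- the quotients of `L(i^m) ∘ W` -/
  hd_lt : ∀ i m L W Z, b (lt i) ^ m = b L →
    (Hd L W Z ↔ eps i Z = eps i W + m ∧ E i Z = E i W)
  hd_lt' : ∀ i m L W Z, b (lt i) ^ m = b L →
    (Hd W L Z ↔ eps' i Z = eps' i W + m ∧ E' i Z = E' i W)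
  /-- quotients of `C ∘ X` if `L(i) ∘ C` is simple -/
  hd_ic : ∀ i C X Z, (∃ W, b (lt i) * b C = b W) → Hd C X Z →
    eps i Z = eps i C + eps i X ∧ Hd (E i C) (E i X) (E i Z)
  hd_ic' : ∀ i C X Z, (∃ W, b (lt i) * b C = b W) → Hd X C Z →
    eps' i Z = eps' i C + eps' i X ∧ Hd (E' i X) (E' i C) (E' i Z)
  /-- the Poisson bracket -/
  br : O →ₗ[ℚ] O →ₗ[ℚ] O
  br_anti : ∀ x y, br x y = - br y x
  br_mul : ∀ x y z, br x (y * z) = br x y * z + y * br x z
  br_supp : ∀ X Y Z, co X Y Z = 0 → b.repr (br (b X) (b Y)) Z = 0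
  /-- the degree of the isomorphism `X ∘ Y → Y ∘ X` of simple modules -/
  lam : S → S → ℤ
  br_lam : ∀ X Y Z, b X * b Y = b Z → br (b X) (b Y) = (lam X Y : ℚ) • b Z
  lam_E : ∀ i C Y Z, b C * b Y = b Z → lam C Y = lam (E i C) (E i Y) +
    d i * ((eps i Y : ℤ) *
        pair A i ((wt (E i C)).mapRange (fun n : ℕ => (n : ℤ)) Nat.cast_zero) -
      (eps i C : ℤ) * pair A i ((wt (E i Y)).mapRange (fun n : ℕ => (n : ℤ)) Nat.cast_zero))
  lam_E' : ∀ i C Y Z, b C * b Y = b Z → - lam C Y = - lam (E' i C) (E' i Y) +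
    d i * ((eps' i Y : ℤ) *
        pair A i ((wt (E' i C)).mapRange (fun n : ℕ => (n : ℤ)) Nat.cast_zero) -
      (eps' i C : ℤ) * pair A i ((wt (E' i Y)).mapRange (fun n : ℕ => (n : ℤ)) Nat.cast_zero))

namespace Pre

variable {I S O : Type} [DecidableEq I] [CommRing O] [Algebra ℚ O]

theorem co_symm (D : Pre I S O) (X Y : S) : D.co X Y = D.co Y X := by
  have h3 := D.b_mul X Y
  rw [mul_comm, D.b_mul Y X] at h3
  have h4 : ∀ f : S →₀ ℕ, (f.sum fun Z n => (n : ℚ) • D.b Z) =
      D.b.repr.symm (f.mapRange (fun n : ℕ => (n : ℚ)) Nat.cast_zero) := by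
    intro f
    rw [Module.Basis.repr_symm_apply, Finsupp.linearCombination_apply,
      Finsupp.sum_mapRange_index (by simp)]
  rw [h4, h4] at h3
  have h5 := D.b.repr.symm.injective h3
  exact (Finsupp.mapRange_injective _ Nat.cast_zero Nat.cast_injective h5).symm

omit [DecidableEq I] in
theorem AdP_rev_rev {E E' : I → S → S} {one : S}
    (h : ∀ w X, AdP E one w X ↔ AdP E' one w.reverse X) (w : List I) (X : S) :
    AdP E' one w X ↔ AdP E one w.reverse X := by
  rw [h w.reverse X, List.reverse_reverse]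

/-- left and right exchanged -/
noncomputable def op (D : Pre I S O) : Pre I S O where
  A := D.A
  d := D.d
  hA := D.hA
  b := D.b
  co := D.co
  b_mul := D.b_mul
  one := D.one
  b_one := D.b_one
  wt := D.wt
  wt_co := D.wt_co
  wt_zero := D.wt_zero
  lt := D.lt
  wt_lt := D.wt_lt
  lt_pow := D.lt_pow
  eps := D.eps'
  E := D.E'
  eps_E := D.eps_E'
  E_of_eps := D.E_of_eps'
  eps_inj := D.eps_inj'
  eps_surj := D.eps_surj'
  wt_E := D.wt_E'
  eps_co := D.eps_co'
  co_E := D.co_E'
  Ad_E := D.Ad_E'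
  ex_eps := D.ex_eps'
  eps' := D.eps
  E' := D.E
  eps_E' := D.eps_E
  E_of_eps' := D.E_of_eps
  eps_inj' := D.eps_inj
  eps_surj' := D.eps_surj
  wt_E' := D.wt_E
  eps_co' := D.eps_co
  co_E' := D.co_E
  Ad_E' := D.Ad_E
  ex_eps' := D.ex_eps
  ad_mirror := AdP_rev_rev D.ad_mirror
  ad_co w X Y Z h hZ := by
    rw [AdP_rev_rev D.ad_mirror] at hZ ⊢
    exact D.ad_co _ X Y Z h hZ
  d_nonneg i X := by rw [add_comm]; exact D.d_nonneg i X
  cm_lt i X := by rw [add_comm]; exact D.cm_lt i X
  d_f i X Y h1 h2 h3 := D.d_f' i X Y h1 h2 (by rwa [add_comm])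
  d_f' i X Y h1 h2 h3 := D.d_f i X Y h1 h2 (by rwa [add_comm])
  Hd X Y Z := D.Hd Y X Z
  hd_ex X Y := D.hd_ex Y X
  hd_co X Y Z h := by rw [co_symm]; exact D.hd_co Y X Z h
  hd_eps i X Y Z h := D.hd_eps' i Y X Z h
  hd_eps' i X Y Z h := D.hd_eps i Y X Z h
  hd_as A B C AB W Z h h1 h2 := D.hd_as' C B A AB W Z (by rw [mul_comm]; exact h) h1 h2
  hd_as' A B C BC W Z h h1 h2 := D.hd_as C B A BC W Z (by rw [mul_comm]; exact h) h1 h2
  s2 X Y T h1 h2 h3 := D.s2 X Y T h2 h1 h3
  hd_lt := D.hd_lt'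
  hd_lt' := D.hd_lt
  hd_ic := D.hd_ic'
  hd_ic' := D.hd_ic
  br := - D.br
  br_anti x y := by
    simp only [LinearMap.neg_apply]
    rw [D.br_anti x y]
  br_mul x y z := by
    simp only [LinearMap.neg_apply]
    rw [D.br_mul x y z]; ring
  br_supp X Y Z h := by
    simp only [LinearMap.neg_apply, map_neg, Finsupp.neg_apply]
    rw [D.br_supp X Y Z h, neg_zero]
  lam X Y := - D.lam X Y
  br_lam X Y Z h := by
    simp only [LinearMap.neg_apply]
    rw [D.br_lam X Y Z h]
    push_cast
    rw [neg_smul]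
  lam_E := D.lam_E'
  lam_E' i C Y Z h := by
    rw [neg_neg, neg_neg]
    exact D.lam_E i C Y Z h

variable (D : Pre I S O)

theorem op_op : D.op.op = D := by
  cases D
  simp [op]
  refine LinearMap.ext fun x => LinearMap.ext fun y => ?_
  rw [LinearMap.neg_apply, LinearMap.neg_apply, LinearMap.neg_apply, LinearMap.neg_apply, neg_neg]

/-- adapted -/
def Ad (w : List I) (X : S) : Prop := AdP D.E D.one w X

theorem op_Ad (w : List I) (X : S) : D.op.Ad w.reverse X ↔ D.Ad w X := (D.ad_mirror w X).symm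

/-- integral weight -/
noncomputable def wtz (X : S) : I →₀ ℤ :=
  (D.wt X).mapRange (fun n : ℕ => (n : ℤ)) Nat.cast_zero

/-- what remains of `X` after taking away its string along the word -/
def tail : List I → S → S
  | [], X => X
  | i :: w, X => tail w (D.E i X)

/-- `X ∘ Y` is simple -/
def Cm (X Y : S) : Prop := ∃ Z, D.b X * D.b Y = D.b Z

/-- all powers are simple -/
def SR (C : S) : Prop := ∀ n : ℕ, ∃ T, D.b C ^ n = D.b T

/-- strongly commuting: all `C^n ∘ X` are simple -/
def SC (C X : S) : Prop := ∀ n : ℕ, ∃ T, D.b C ^ n * D.b X = D.b T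

/-- span of the basis elements with the property `p` -/
def SS (p : S → Prop) : Submodule ℚ O := Submodule.span ℚ (D.b '' {X | p X})

/-- the ideal of the non adapted modules -/
def Id (w : List I) : Submodule ℚ O := D.SS fun X => ¬ D.Ad w X

/-- vectors for a word -/
abbrev V (w : List I) : Type := Fin w.length → ℚ

/-- a vector from the first entry and the others -/
def cn (i : I) (w : List I) : ℚ × V w →ₗ[ℚ] V (i :: w) where
  toFun v := (Fin.cons v.1 v.2 : Fin (w.length + 1) → ℚ)
  map_add' x y := by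
    funext k
    refine Fin.cases ?_ (fun k => ?_) (k : Fin (w.length + 1)) <;> rfl
  map_smul' c x := by
    funext k
    refine Fin.cases ?_ (fun k => ?_) (k : Fin (w.length + 1)) <;> rfl

/-- the string of `X` along the word -/
def str : (w : List I) → S → V w
  | [], _ => 0
  | i :: w, X => cn i w ((D.eps i X : ℚ), str w (D.E i X))

/-- a family of adapted simple modules closed under convolution, as a submonoid of `O` -/
structure Fam (w : List I) (N : Submonoid O) : Prop where
  spl : ∀ x ∈ N, ∃ X, D.b X = x ∧ D.Ad w X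

/-- maximal families -/
def Mx (w : List I) (N : Submonoid O) : Prop :=
  D.Fam w N ∧ ∀ N', D.Fam w N' → N ≤ N' → N' = N

/-- span of the strings -/
def sp (w : List I) (N : Submonoid O) : Submodule ℚ (V w) :=
  Submodule.span ℚ {v | ∃ X, D.b X ∈ N ∧ D.str w X = v}

/-- `z` is a product of members of the family `N` whose strings span -/
def Full (w : List I) (N : Submonoid O) (z : S) : Prop :=
  ∃ s : Multiset S, (∀ X ∈ s, D.b X ∈ N) ∧ (s.map D.b).prod = D.b z ∧
    Submodule.span ℚ {v | ∃ X ∈ s, D.str w X = v} = ⊤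

/-- `z` is a generic member of the family (the same for `D.op`) -/
structure Gen (w : List I) (N : Submonoid O) (z : S) : Prop where
  mem : D.b z ∈ N
  cent : ∀ X, D.Ad w X → D.SC z X → D.b X ∈ N
  dvd : ∀ y, D.b y ∈ N → ∃ (k K : ℕ) (y' : S), 0 < k ∧ D.b y' ∈ N ∧
    D.b y ^ k * D.b y' = D.b z ^ K

/-- the results of parts 1 and 2 which are used in part 3 -/
structure Inp : Prop where
  /-- `C^n ∘ X` has only one simple quotient -/
  K1 : ∀ w, Reduced D.A w → ∀ C, D.Ad w C → D.SR C → ∀ (n : ℕ) T, D.b C ^ n = D.b T →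
    ∀ X Z Z', D.Hd T X Z → D.Hd T X Z' → Z = Z'
  K4 : ∀ w, Reduced D.A w → ∀ C, D.Ad w C → D.SR C → ∀ (n : ℕ) T, D.b C ^ n = D.b T →
    ∀ X Y Z, D.Hd T X Z → D.Hd T Y Z → X = Y
  /-- for large `n` all constituents of `C^n ∘ X` strongly commute with `C` -/
  ST : ∀ w, Reduced D.A w → ∀ C, D.Ad w C → D.SR C → ∀ X, ∃ n₀ : ℕ, ∀ n ≥ n₀, ∀ Z,
    D.b.repr (D.b C ^ n * D.b X) Z ≠ 0 → D.SC C Z
  K3 : ∀ w, Reduced D.A w → ∀ C, D.Ad w C → D.SR C → ∀ (n : ℕ) T, D.b C ^ n = D.b T →
    ∀ X Z Q, D.Hd T X Z → D.SC C Z → D.co T X Q ≠ 0 → D.SC C Q → D.lam C Q ≤ D.lam C Z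
  /-- Theorem A -/
  thmA : ∀ w, Reduced D.A w → ∀ N, D.Fam w N → ∀ z, D.Full w N z → ∀ X Y, D.Ad w X → D.SC z X →
    D.Ad w Y → D.SC z Y → ∃ Z, D.b X * D.b Y = D.b Z ∧ D.SC z Z
  /-- maximal families have full rank -/
  full : ∀ w, Reduced D.A w → ∀ N, D.Mx w N → D.sp w N = ⊤

end Pre

end Pool.Agent.KLT

end
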