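import Pool.Agent.Work.MP_e487d8_al.Bd.B01

/-! Bundle of small proof modules (one section per former module). -/

section

/-!
# Primitive functionals give derivations of a graded sub-bialgebra of the shuffle ring
-/

set_option autoImplicit false

namespace Pool.Agent.E487.Hopf

open Sh

variable {I K : Type*} [Field K]

/-- graded sub-bialgebra of the shuffle ring, consisting of functions with finite support -/
structure SubBi (A : Subalgebra K (Sh I K)) : Prop where
  hL : ∀ f ∈ A, ∀ i, L i f ∈ A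
  hR : ∀ f ∈ A, ∀ i, R i f ∈ A
  hgr : ∀ f ∈ A, ∀ n, comp n f ∈ A
  hfin : ∀ f ∈ A, {w : List I | f w ≠ 0}.Finite

/-- the homogeneous part of degree `n` -/
def An (A : Subalgebra K (Sh I K)) (n : ℕ) : Submodule K (Sh I K) where
  carrier := {f | f ∈ A ∧ Hom n f}
  add_mem' := by
    rintro f g ⟨hf, hf'⟩ ⟨hg, hg'⟩
    refine ⟨A.add_mem hf hg, fun w hw => ?_⟩
    rcases ne_or_eq (f w) 0 with h | h
    · exact hf' w h
    · rw [Sh.add_apply, h, zero_add] at hw
      exact hg' w hw
  zero_mem' := ⟨A.zero_mem, fun w hw => absurd rfl hw⟩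
  smul_mem' := by
    rintro c f ⟨hf, hf'⟩
    refine ⟨A.smul_mem hf c, fun w hw => hf' w ?_⟩
    rw [Sh.smul_apply] at hw
    exact right_ne_zero_of_mul hw

theorem mem_An {A : Subalgebra K (Sh I K)} {n : ℕ} {f : Sh I K} :
    f ∈ An A n ↔ f ∈ A ∧ Hom n f := Iff.rfl

/-- decomposable elements of degree `n` -/
def M2 (A : Subalgebra K (Sh I K)) (n : ℕ) : Submodule K (Sh I K) :=
  Submodule.span K {h | ∃ a b : ℕ, ∃ f g : Sh I K, 1 ≤ a ∧ 1 ≤ b ∧ a + b = n ∧ f ∈ An A a ∧
    g ∈ An A b ∧ h = f * g}

theorem M2_le (A : Subalgebra K (Sh I K)) (n : ℕ) : M2 A n ≤ An A n := by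
  rw [M2, Submodule.span_le]
  rintro h ⟨a, b, f, g, -, -, hab, hf, hg, rfl⟩
  exact ⟨A.mul_mem hf.1 hg.1, hab ▸ hf.2.mul hg.2⟩

theorem L_comp_succ (i : I) (n : ℕ) (f : Sh I K) : L i (comp (n + 1) f) = comp n (L i f) := by
  apply ext'
  intro w
  rw [Sh.L_apply, comp_apply, comp_apply, Sh.L_apply, List.length_cons]
  simp only [Nat.add_right_cancel_iff]

theorem L_comp_zero (i : I) (f : Sh I K) : L i (comp 0 f) = 0 := by
  apply ext'
  intro w
  rw [Sh.L_apply, comp_apply, List.length_cons, if_neg (Nat.succ_ne_zero _)]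
  rfl

theorem mul_expand (w : List I) (f g : Sh I K) :
    (f * g) w = ∑ x ∈ Finset.HasAntidiagonal.antidiagonal w.length, (comp x.1 f * comp x.2 g) w := by
  induction w generalizing f g with
  | nil =>
    rw [List.length_nil, Finset.Nat.antidiagonal_zero, Finset.sum_singleton, mul_nil, mul_nil,
      comp_apply, comp_apply]
    rfl
  | cons i w ih =>
    have e1 : ∀ x : ℕ × ℕ, (comp x.1 f * comp x.2 g) (i :: w) =
        (L i (comp x.1 f) * comp x.2 g) w + (comp x.1 f * L i (comp x.2 g)) w := fun x => rfl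
    rw [mul_cons, ih, ih, List.length_cons, Finset.sum_congr rfl (fun x _ => e1 x),
      Finset.sum_add_distrib]
    congr 1
    · rw [Finset.Nat.sum_antidiagonal_succ (f := fun x : ℕ × ℕ => (L i (comp x.1 f) * comp x.2 g) w)]
      simp only [L_comp_zero, L_comp_succ, zero_mul]
      rw [Sh.zero_apply, zero_add]
    · rw [Finset.Nat.sum_antidiagonal_succ' (f := fun x : ℕ × ℕ => (comp x.1 f * L i (comp x.2 g)) w)]
      simp only [L_comp_zero, L_comp_succ, mul_zero]
      rw [Sh.zero_apply, zero_add]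

theorem sum_apply {ι : Type*} (s : Finset ι) (F : ι → Sh I K) (w : List I) :
    (∑ x ∈ s, F x) w = ∑ x ∈ s, F x w := by
  classical
  induction s using Finset.induction_on with
  | empty => rfl
  | insert a s ha ih => rw [Finset.sum_insert ha, Finset.sum_insert ha, Sh.add_apply, ih]

theorem comp_mul (n : ℕ) (f g : Sh I K) :
    comp n (f * g) = ∑ x ∈ Finset.HasAntidiagonal.antidiagonal n, comp x.1 f * comp x.2 g := by
  apply ext'
  intro w
  rw [sum_apply, comp_apply]
  split_ifs with h
  · rw [mul_expand w f g, h]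
  · symm
    apply Finset.sum_eq_zero
    intro x hx
    by_contra hne
    have := ((comp_hom x.1 f).mul (comp_hom x.2 g)) w hne
    rw [Finset.HasAntidiagonal.mem_antidiagonal] at hx
    exact h (this.trans hx)

theorem comp_zero (f : Sh I K) : comp 0 f = f [] • (1 : Sh I K) := by
  apply ext'
  intro w
  rw [comp_apply, Sh.smul_apply]
  cases w with
  | nil => rw [one_nil, mul_one]; rfl
  | cons i w => rw [one_cons, mul_zero, List.length_cons, if_neg (Nat.succ_ne_zero _)]

/-- modulo decomposables -/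
theorem comp_mul_mod {A : Subalgebra K (Sh I K)} (hA : SubBi A) {n : ℕ} (hn : 1 ≤ n)
    {f g : Sh I K} (hf : f ∈ A) (hg : g ∈ A) :
    comp n (f * g) - (g [] • comp n f + f [] • comp n g) ∈ M2 A n := by
  obtain ⟨m, rfl⟩ : ∃ m, n = m + 1 := ⟨n - 1, by omega⟩
  rw [comp_mul, Finset.Nat.sum_antidiagonal_succ
    (f := fun x : ℕ × ℕ => comp x.1 f * comp x.2 g), comp_zero, smul_mul_assoc, one_mul]
  cases m with
  | zero =>
    rw [Finset.Nat.antidiagonal_zero, Finset.sum_singleton]
    simp only
    rw [comp_zero g, mul_smul_comm, mul_one]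
    simp only [zero_add]
    rw [add_comm (f [] • comp 1 g), sub_self]
    exact Submodule.zero_mem _
  | succ m =>
    rw [Finset.Nat.sum_antidiagonal_succ'
      (f := fun x : ℕ × ℕ => comp (x.1 + 1) f * comp x.2 g), comp_zero g, mul_smul_comm, mul_one]
    have e : f [] • comp (m + 1 + 1) g + (g [] • comp (m + 1 + 1) f +
        ∑ x ∈ Finset.HasAntidiagonal.antidiagonal m, comp (x.1 + 1) f * comp (x.2 + 1) g) -
        (g [] • comp (m + 1 + 1) f + f [] • comp (m + 1 + 1) g) =
        ∑ x ∈ Finset.HasAntidiagonal.antidiagonal m, comp (x.1 + 1) f * comp (x.2 + 1) g := by abel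
    rw [e]
    apply Submodule.sum_mem
    intro x hx
    rw [Finset.HasAntidiagonal.mem_antidiagonal] at hx
    exact Submodule.subset_span ⟨x.1 + 1, x.2 + 1, _, _, by omega, by omega, by omega,
      ⟨hA.hgr f hf _, comp_hom _ _⟩, ⟨hA.hgr g hg _, comp_hom _ _⟩, rfl⟩

/-- the operator given by a linear functional of degree `n` -/
def Dop (n : ℕ) (φ : Sh I K →ₗ[K] K) : Sh I K →ₗ[K] Sh I K where
  toFun y := fun w => φ (comp n (RW w y))
  map_add' f g := ext' fun w => by
    change φ (comp n (RW w (f + g))) = φ (comp n (RW w f)) + φ (comp n (RW w g))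
    rw [map_add, map_add, map_add]
  map_smul' c f := ext' fun w => by
    change φ (comp n (RW w (c • f))) = c * φ (comp n (RW w f))
    rw [map_smul, map_smul, map_smul, smul_eq_mul]

theorem Dop_apply (n : ℕ) (φ : Sh I K →ₗ[K] K) (y : Sh I K) (w : List I) :
    Dop n φ y w = φ (comp n (RW w y)) := rfl

theorem R_Dop (n : ℕ) (φ : Sh I K →ₗ[K] K) (j : I) (y : Sh I K) :
    R j (Dop n φ y) = Dop n φ (R j y) := by
  apply ext'
  intro w
  rw [Sh.R_apply, Dop_apply, Dop_apply, RW_snoc]

theorem comp_RW_of_hom {n d : ℕ} {y : Sh I K} (hy : Hom d y) (w : List I) (h : n + w.length ≠ d) :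
    comp n (RW w y) = 0 := by
  apply ext'
  intro u
  rw [comp_apply, Sh.zero_apply]
  split_ifs with h1
  · by_contra h2
    have := hy _ h2
    rw [List.length_append] at this
    omega
  · rfl

theorem Dop_low {n d : ℕ} (φ : Sh I K →ₗ[K] K) {y : Sh I K} (hy : Hom d y) (h : d < n) :
    Dop n φ y = 0 := by
  apply ext'
  intro w
  rw [Dop_apply, comp_RW_of_hom hy w (by omega), map_zero]
  rfl

theorem Dop_top {n : ℕ} (φ : Sh I K →ₗ[K] K) {y : Sh I K} (hy : Hom n y) :
    Dop n φ y = φ y • (1 : Sh I K) := by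
  apply ext'
  intro w
  rw [Dop_apply, Sh.smul_apply]
  cases w with
  | nil => rw [RW_nil, comp_of_hom hy, one_nil, mul_one]
  | cons i w =>
    rw [comp_RW_of_hom hy _ (by rw [List.length_cons]; omega), map_zero, one_cons, mul_zero]

/-- Leibniz rule for primitive functionals -/
theorem Dop_mul {A : Subalgebra K (Sh I K)} (hA : SubBi A) {n : ℕ} (hn : 1 ≤ n)
    (φ : Sh I K →ₗ[K] K) (hφ : ∀ h ∈ M2 A n, φ h = 0) {y z : Sh I K} (hy : y ∈ A) (hz : z ∈ A) :
    Dop n φ (y * z) = y * Dop n φ z + z * Dop n φ y := by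
  apply ext'
  intro w
  induction w using List.reverseRecOn generalizing y z with
  | nil =>
    rw [Sh.add_apply, mul_nil, mul_nil, Dop_apply, Dop_apply, Dop_apply, RW_nil, RW_nil, RW_nil]
    have h := hφ _ (comp_mul_mod hA hn hy hz)
    rw [map_sub, sub_eq_zero] at h
    rw [h, map_add, map_smul, map_smul, smul_eq_mul, smul_eq_mul]
    ring
  | append_singleton w j ih =>
    change R j (Dop n φ (y * z)) w = R j (y * Dop n φ z + z * Dop n φ y) w
    rw [R_Dop, Sh.R_mul, map_add, map_add (R j), Sh.R_mul, Sh.R_mul, R_Dop, R_Dop, Sh.add_apply,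
      ih (hA.hR y hy j) hz, ih hy (hA.hR z hz j)]
    simp only [Sh.add_apply]
    ring

/-- the operator preserves the subalgebra -/
theorem Dop_mem {A : Subalgebra K (Sh I K)} (hA : SubBi A) (n : ℕ) (φ : Sh I K →ₗ[K] K)
    {y : Sh I K} (hy : y ∈ A) : Dop n φ y ∈ A := by
  classical
  have hLW : ∀ (v : List I) (f : Sh I K), f ∈ A → LW v f ∈ A := by
    intro v
    induction v with
    | nil => intro f hf; exact hf
    | cons i v ih => intro f hf; rw [LW_cons]; exact ih _ (hA.hL f hf i)
  let S : Finset (List I) := ((hA.hfin y hy).toFinset.image (List.take n)).filter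
    (fun u => u.length = n)
  let dl : List I → Sh I K := fun u => fun w => if w = u then 1 else 0
  have hRW : ∀ w : List I, comp n (RW w y) = ∑ u ∈ S, y (u ++ w) • dl u := by
    intro w
    apply ext'
    intro v
    rw [sum_apply, comp_apply]
    have e1 : ∀ u ∈ S, (y (u ++ w) • dl u) v = if v = u then y (u ++ w) else 0 := by
      intro u _
      rw [Sh.smul_apply]
      change y (u ++ w) * (if v = u then 1 else 0) = _
      split_ifs <;> ring
    rw [Finset.sum_congr rfl e1]
    rw [Finset.sum_ite_eq S v (fun u => y (u ++ w))]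
    by_cases hv : v ∈ S
    · have : v.length = n := (Finset.mem_filter.1 hv).2
      rw [if_pos this, if_pos hv]; rfl
    · rw [if_neg hv]
      split_ifs with h1
      · by_contra h2
        apply hv
        rw [Finset.mem_filter]
        refine ⟨Finset.mem_image.2 ⟨v ++ w, ?_, ?_⟩, h1⟩
        · rw [Set.Finite.mem_toFinset]; exact h2
        · rw [← h1, List.take_left]
      · rfl
  have hD : Dop n φ y = ∑ u ∈ S, φ (dl u) • LW u y := by
    apply ext'
    intro w
    rw [sum_apply, Dop_apply, hRW w, map_sum]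
    refine Finset.sum_congr rfl fun u _ => ?_
    rw [map_smul, Sh.smul_apply, LW_apply, smul_eq_mul, mul_comm]
  rw [hD]
  exact A.sum_mem fun u _ => A.smul_mem (hLW u y hy) _

end Pool.Agent.E487.Hopf

end

section

/-!
# A graded sub-bialgebra of the shuffle ring is a polynomial ring (characteristic zero)
-/

set_option autoImplicit false

namespace Pool.Agent.E487.Hopf

open Sh MvPolynomial

variable {I K : Type} [Field K]

/-! ### an abstract criterion for algebraic independence -/

theorem totalDegree_pderiv_lt {J : Type} (P : MvPolynomial J K) (j : J) (h : pderiv j P ≠ 0) :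
    (pderiv j P).totalDegree < P.totalDegree := by
  have hex : (pderiv j P).support.Nonempty := by
    rw [Finset.nonempty_iff_ne_empty]
    intro h1
    exact h (MvPolynomial.support_eq_empty.1 h1)
  obtain ⟨m, hm, hmd⟩ : ∃ m ∈ (pderiv j P).support, (pderiv j P).totalDegree =
      m.sum fun _ e => e := by
    rw [MvPolynomial.totalDegree]
    obtain ⟨m, hm, h2⟩ := Finset.exists_mem_eq_sup _ hex (fun s : J →₀ ℕ => s.sum fun _ e => e)
    exact ⟨m, hm, h2⟩
  rw [hmd]
  rw [mem_support_iff, coeff_pderiv] at hm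
  have h3 : m + Finsupp.single j 1 ∈ P.support := mem_support_iff.2 (left_ne_zero_of_mul hm)
  have h4 := MvPolynomial.le_totalDegree h3
  rw [Finsupp.sum_add_index' (fun _ => rfl) (fun _ _ _ => rfl), Finsupp.sum_single_index rfl] at h4
  omega

theorem pderiv_ne_zero [CharZero K] {J : Type} {P : MvPolynomial J K} {j : J} (h : j ∈ P.vars) :
    pderiv j P ≠ 0 := by
  rw [MvPolynomial.mem_vars_iff_mem_support] at h
  obtain ⟨d, hd, hj⟩ := h
  have hdj : d j ≠ 0 := by rwa [Finsupp.mem_support_iff] at hj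
  intro h0
  have h1 := coeff_pderiv (i := j) P (d - Finsupp.single j 1)
  have h2 : d - Finsupp.single j 1 + Finsupp.single j 1 = d := by
    apply tsub_add_cancel_of_le
    rw [Finsupp.single_le_iff]
    omega
  rw [h0, h2, coeff_zero] at h1
  have h3 : coeff d P ≠ 0 := mem_support_iff.1 hd
  have h4 : (((d - Finsupp.single j 1 : J →₀ ℕ) j : ℕ) : K) + 1 ≠ 0 :=
    Nat.cast_add_one_ne_zero _
  exact (mul_ne_zero h3 h4) h1.symm

theorem der_aeval {B J : Type} [CommRing B] [Algebra K B] (x : J → B) (D : Derivation K B B)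
    (P : MvPolynomial J K) (j : J) (h1 : D (x j) = 1) (h2 : ∀ l ∈ P.vars, l ≠ j → D (x l) = 0) :
    D (aeval x P) = aeval x (pderiv j P) := by
  classical
  let alg : Algebra (MvPolynomial J K) B := (aeval x).toAlgebra
  have halg : ∀ Q : MvPolynomial J K, algebraMap (MvPolynomial J K) B Q = aeval x Q := fun _ => rfl
  have : IsScalarTower K (MvPolynomial J K) B := IsScalarTower.of_algebraMap_eq (fun c => by
    rw [halg, MvPolynomial.algebraMap_eq, aeval_C])
  let D1 : Derivation K (MvPolynomial J K) B := D.compAlgebraMap (MvPolynomial J K)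
  let D2 : Derivation K (MvPolynomial J K) B :=
    (Algebra.linearMap (MvPolynomial J K) B).compDer (pderiv j)
  have e1 : ∀ Q, D1 Q = D (aeval x Q) := fun _ => rfl
  have e2 : ∀ Q, D2 Q = aeval x (pderiv j Q) := fun _ => rfl
  rw [← e1, ← e2]
  apply derivation_eq_of_forall_mem_vars
  intro l hl
  rw [e1, e2, aeval_X, pderiv_X]
  by_cases hlj : l = j
  · subst hlj
    rw [Pi.single_eq_same, map_one, h1]
  · rw [Pi.single_eq_of_ne hlj, map_zero, h2 l hl hlj]

theorem algebraicIndependent_of_der [CharZero K] {B J : Type} [CommRing B] [Nontrivial B]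
    [Algebra K B] (x : J → B) (dg : J → ℕ)
    (H : ∀ j : J, ∃ D : Derivation K B B, D (x j) = 1 ∧ ∀ l, dg l ≤ dg j → l ≠ j → D (x l) = 0) :
    AlgebraicIndependent K x := by
  rw [algebraicIndependent_iff]
  have key : ∀ N : ℕ, ∀ P : MvPolynomial J K, P.totalDegree ≤ N → aeval x P = 0 → P = 0 := by
    intro N
    induction N with
    | zero =>
      intro P hP h0
      rw [Nat.le_zero, MvPolynomial.totalDegree_eq_zero_iff_eq_C] at hP
      rw [hP, aeval_C] at h0
      rw [hP, (FaithfulSMul.algebraMap_injective K B) (h0.trans (map_zero _).symm), C_0]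
    | succ N ih =>
      intro P hP h0
      by_cases hv : P.vars = ∅
      · rw [MvPolynomial.vars_eq_empty_iff_eq_C] at hv
        rw [hv, aeval_C] at h0
        rw [hv, (FaithfulSMul.algebraMap_injective K B) (h0.trans (map_zero _).symm), C_0]
      · obtain ⟨j, hj, hmax⟩ := Finset.exists_max_image P.vars dg
          (Finset.nonempty_iff_ne_empty.2 hv)
        obtain ⟨D, hD1, hD2⟩ := H j
        have h1 := der_aeval x D P j hD1 (fun l hl hlj => hD2 l (hmax l hl) hlj)
        rw [h0, map_zero] at h1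
        have h2 := pderiv_ne_zero hj
        have h3 := totalDegree_pderiv_lt P j h2
        exact absurd (ih _ (by omega) h1.symm) h2
  intro P hP
  exact key _ P le_rfl hP

/-! ### the shuffle ring -/

instance : Nontrivial (Sh I K) := ⟨⟨1, 0, fun h => one_ne_zero (congrFun h [] : (1 : K) = 0)⟩⟩

theorem algebraMap_nil (c : K) : (algebraMap K (Sh I K) c) [] = c := by
  rw [Sh.algebraMap_apply, one_nil, mul_one]

variable {A : Subalgebra K (Sh I K)}

/-- the derivation of `A` given by a primitive functional -/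
noncomputable def Dder (hA : SubBi A) {n : ℕ} (hn : 1 ≤ n) (φ : Sh I K →ₗ[K] K)
    (hφ : ∀ h ∈ M2 A n, φ h = 0) : Derivation K A A :=
  Derivation.mk'
    { toFun := fun y => ⟨Dop n φ y, Dop_mem hA n φ y.2⟩
      map_add' := fun y z => Subtype.ext (map_add (Dop n φ) (y : Sh I K) z)
      map_smul' := fun c y => Subtype.ext (map_smul (Dop n φ) c (y : Sh I K)) }
    (fun y z => Subtype.ext (Dop_mul hA hn φ hφ y.2 z.2))

theorem Dder_coe (hA : SubBi A) {n : ℕ} (hn : 1 ≤ n) (φ : Sh I K →ₗ[K] K)
    (hφ : ∀ h ∈ M2 A n, φ h = 0) (y : A) :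
    ((Dder hA hn φ hφ y : A) : Sh I K) = Dop n φ (y : Sh I K) := rfl

/-- indecomposables -/
abbrev Qn (A : Subalgebra K (Sh I K)) (n : ℕ) : Type :=
  An A n ⧸ (M2 A n).comap (An A n).subtype

/-- the index set of the generators -/
abbrev JJ (A : Subalgebra K (Sh I K)) : Type :=
  Σ n : ℕ, Module.Basis.ofVectorSpaceIndex K (Qn A (n + 1))

/-- a lift of a basis vector -/
noncomputable def gen0 (A : Subalgebra K (Sh I K)) (j : JJ A) : An A (j.1 + 1) :=
  ((Submodule.mkQ_surjective ((M2 A (j.1 + 1)).comap (An A (j.1 + 1)).subtype))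
    (Module.Basis.ofVectorSpace K (Qn A (j.1 + 1)) j.2)).choose

theorem gen0_spec (A : Subalgebra K (Sh I K)) (j : JJ A) :
    ((M2 A (j.1 + 1)).comap (An A (j.1 + 1)).subtype).mkQ (gen0 A j) =
      Module.Basis.ofVectorSpace K (Qn A (j.1 + 1)) j.2 :=
  ((Submodule.mkQ_surjective ((M2 A (j.1 + 1)).comap (An A (j.1 + 1)).subtype))
    (Module.Basis.ofVectorSpace K (Qn A (j.1 + 1)) j.2)).choose_spec

/-- the generators -/
noncomputable def gen (A : Subalgebra K (Sh I K)) (j : JJ A) : A := ⟨(gen0 A j : Sh I K), (gen0 A j).2.1⟩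

theorem gen_indep [CharZero K] (hA : SubBi A) : AlgebraicIndependent K (gen A) := by
  classical
  apply algebraicIndependent_of_der (gen A) (fun j => j.1)
  rintro ⟨n, j⟩
  -- the coordinate functional
  obtain ⟨φ, hφ⟩ := LinearMap.exists_extend
    (((Module.Basis.ofVectorSpace K (Qn A (n + 1))).coord j).comp
      ((M2 A (n + 1)).comap (An A (n + 1)).subtype).mkQ)
  have hφ' : ∀ y : An A (n + 1), φ (y : Sh I K) = (Module.Basis.ofVectorSpace K (Qn A (n + 1))).coord j
      (((M2 A (n + 1)).comap (An A (n + 1)).subtype).mkQ y) := fun y =>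
    LinearMap.congr_fun hφ y
  have hM2 : ∀ h ∈ M2 A (n + 1), φ h = 0 := by
    intro h hh
    have h1 := hφ' ⟨h, M2_le A _ hh⟩
    have h2 : ((M2 A (n + 1)).comap (An A (n + 1)).subtype).mkQ ⟨h, M2_le A _ hh⟩ = 0 := by
      rw [Submodule.mkQ_apply, Submodule.Quotient.mk_eq_zero]
      exact hh
    rw [h2, map_zero] at h1
    exact h1
  have hval : ∀ l : Module.Basis.ofVectorSpaceIndex K (Qn A (n + 1)),
      φ (gen0 A ⟨n, l⟩ : Sh I K) = if l = j then 1 else 0 := by
    intro l
    rw [hφ' (gen0 A ⟨n, l⟩), gen0_spec A ⟨n, l⟩, Module.Basis.coord_apply, Module.Basis.repr_self,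
      Finsupp.single_apply]
  refine ⟨Dder hA (Nat.le_add_left 1 n) φ hM2, ?_, ?_⟩
  · apply Subtype.ext
    rw [Dder_coe]
    change Dop (n + 1) φ (gen0 A ⟨n, j⟩ : Sh I K) = 1
    rw [Dop_top φ (gen0 A ⟨n, j⟩).2.2, hval, if_pos rfl, one_smul]
  · rintro ⟨m, l⟩ hml hne
    apply Subtype.ext
    rw [Dder_coe]
    change Dop (n + 1) φ (gen0 A ⟨m, l⟩ : Sh I K) = 0
    simp only at hml
    rcases hml.lt_or_eq with h | h
    · exact Dop_low φ (gen0 A ⟨m, l⟩).2.2 (by simp only; omega)
    · subst h
      rw [Dop_top φ (gen0 A ⟨m, l⟩).2.2, hval, if_neg (fun hlj => hne (congrArg (Sigma.mk m) hlj)),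
        zero_smul]

theorem gen_span (hA : SubBi A) : Algebra.adjoin K (Set.range (gen A)) = ⊤ := by
  have key : ∀ n : ℕ, ∀ f : Sh I K, ∀ hf : f ∈ An A n,
      (⟨f, hf.1⟩ : A) ∈ Algebra.adjoin K (Set.range (gen A)) := by
    intro n
    induction n using Nat.strong_induction_on with
    | _ n ih =>
      intro f hf
      rcases Nat.eq_zero_or_pos n with rfl | hn
      · have h1 : (⟨f, hf.1⟩ : A) = algebraMap K A (f []) := by
          apply Subtype.ext
          change f = algebraMap K (Sh I K) (f [])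
          rw [Algebra.algebraMap_eq_smul_one, ← comp_zero, comp_of_hom hf.2]
        rw [h1]
        exact Subalgebra.algebraMap_mem _ _
      · obtain ⟨m, rfl⟩ : ∃ m, n = m + 1 := ⟨n - 1, by omega⟩
        -- expand modulo decomposables
        have hM : ∀ h : Sh I K, ∀ hh : h ∈ M2 A (m + 1),
            (⟨h, (M2_le A _ hh).1⟩ : A) ∈ Algebra.adjoin K (Set.range (gen A)) := by
          have hle : M2 A (m + 1) ≤ (Subalgebra.toSubmodule
              (Algebra.adjoin K (Set.range (gen A)))).map A.val.toLinearMap := by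
            rw [M2, Submodule.span_le]
            rintro _ ⟨a, b, f, g, ha, hb, hab, hf, hg, rfl⟩
            refine ⟨(⟨f, hf.1⟩ : A) * ⟨g, hg.1⟩, ?_, rfl⟩
            exact Subalgebra.mul_mem _ (ih a (by omega) f hf) (ih b (by omega) g hg)
          intro h hh
          obtain ⟨y, hy, hy'⟩ := hle hh
          have : (⟨h, (M2_le A _ hh).1⟩ : A) = y := Subtype.ext hy'.symm
          rw [this]
          exact hy
        let q := ((M2 A (m + 1)).comap (An A (m + 1)).subtype).mkQ ⟨f, hf⟩
        let c := (Module.Basis.ofVectorSpace K (Qn A (m + 1))).repr q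
        let g : An A (m + 1) := c.sum fun l a => a • gen0 A ⟨m, l⟩
        have hg : ((M2 A (m + 1)).comap (An A (m + 1)).subtype).mkQ g = q := by
          change ((M2 A (m + 1)).comap (An A (m + 1)).subtype).mkQ
            (c.sum fun l a => a • gen0 A ⟨m, l⟩) = q
          rw [map_finsuppSum]
          conv_rhs => rw [← (Module.Basis.ofVectorSpace K (Qn A (m + 1))).linearCombination_repr q]
          rw [Finsupp.linearCombination_apply]
          apply Finsupp.sum_congr
          intro l _
          rw [map_smul, gen0_spec A ⟨m, l⟩]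
        have hdiff : f - (g : Sh I K) ∈ M2 A (m + 1) := by
          have h1 : ((M2 A (m + 1)).comap (An A (m + 1)).subtype).mkQ (⟨f, hf⟩ - g) = 0 := by
            rw [map_sub, hg, sub_self]
          rw [Submodule.mkQ_apply, Submodule.Quotient.mk_eq_zero] at h1
          exact h1
        have hgm : (⟨(g : Sh I K), g.2.1⟩ : A) ∈ Algebra.adjoin K (Set.range (gen A)) := by
          have e : (⟨(g : Sh I K), g.2.1⟩ : A) = c.sum fun l a => a • gen A ⟨m, l⟩ := by
            apply Subtype.ext
            change ((c.sum fun l a => a • gen0 A ⟨m, l⟩ : An A (m + 1)) : Sh I K) =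
              A.val (c.sum fun l a => a • gen A ⟨m, l⟩)
            rw [map_finsuppSum]
            change (An A (m + 1)).subtype (c.sum fun l a => a • gen0 A ⟨m, l⟩) = _
            rw [map_finsuppSum]
            rfl
          rw [e]
          exact Subalgebra.sum_mem _ fun l _ =>
            Subalgebra.smul_mem _ (Algebra.subset_adjoin (Set.mem_range_self _)) _
        have e : (⟨f, hf.1⟩ : A) = ⟨(g : Sh I K), g.2.1⟩ + ⟨f - g, (M2_le A _ hdiff).1⟩ := by
          apply Subtype.ext
          change f = (g : Sh I K) + (f - g)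
          abel
        rw [e]
        exact Subalgebra.add_mem _ hgm (hM _ hdiff)
  rw [eq_top_iff]
  rintro ⟨f, hf⟩ -
  -- finite sum of components
  obtain ⟨N, hN⟩ : ∃ N : ℕ, ∀ w : List I, f w ≠ 0 → w.length < N := by
    obtain ⟨N, hN⟩ := ((hA.hfin f hf).image List.length).bddAbove
    exact ⟨N + 1, fun w hw => Nat.lt_succ_of_le (hN ⟨w, hw, rfl⟩)⟩
  have e : (⟨f, hf⟩ : A) = ∑ n ∈ Finset.range N, (⟨comp n f, hA.hgr f hf n⟩ : A) := by
    apply Subtype.ext
    have h1 : ((∑ n ∈ Finset.range N, (⟨comp n f, hA.hgr f hf n⟩ : A) : A) : Sh I K) =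
        ∑ n ∈ Finset.range N, comp n f := by
      change A.val (∑ n ∈ Finset.range N, (⟨comp n f, hA.hgr f hf n⟩ : A)) = _
      rw [map_sum]
      rfl
    rw [h1]
    apply ext'
    intro w
    rw [sum_apply]
    simp only [comp_apply]
    rw [Finset.sum_ite_eq (Finset.range N) w.length (fun _ => f w)]
    by_cases hw : f w = 0
    · change f w = _
      rw [hw, ite_self]
    · rw [if_pos (Finset.mem_range.2 (hN w hw))]
  rw [e]
  exact Subalgebra.sum_mem _ fun n _ =>
    key n (comp n f) (mem_An.2 ⟨hA.hgr f hf n, comp_hom n f⟩)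

/-- a graded sub-bialgebra of the shuffle ring is a polynomial ring -/
theorem exists_algEquiv [CharZero K] (hA : SubBi A) : Nonempty (MvPolynomial (JJ A) K ≃ₐ[K] A) := by
  have h1 := (gen_indep hA).aevalEquiv
  rw [gen_span hA] at h1
  exact ⟨h1.trans Subalgebra.topEquiv⟩

theorem isDomain [CharZero K] (hA : SubBi A) : IsDomain A := by
  obtain ⟨e⟩ := exists_algEquiv hA
  exact e.symm.toRingEquiv.toMulEquiv.isDomain (MvPolynomial (JJ A) K)

theorem ufd [CharZero K] (hA : SubBi A) : UniqueFactorizationMonoid A := by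
  obtain ⟨e⟩ := exists_algEquiv hA
  exact e.toRingEquiv.toMulEquiv.uniqueFactorizationMonoid inferInstance

end Pool.Agent.E487.Hopf

end
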