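import Pool.Agent.Work.MP_e487d8_al.Bd.B01
import Pool.Agent.Work.MP_e487d8_al.Y.Alg.Basic

/-! Bundle of small proof modules (one section per former module). -/

section

/-! MP_e487d8_al, abstract part: the opposite system. -/

set_option autoImplicit false

namespace Pool.Agent.KLSAbs

open scoped LaurentPolynomial
open MulOpposite

variable {I S O K : Type} [DecidableEq I] [CommRing O] [Algebra ℚ O] [Ring K]
  [Algebra ℤ[T;T⁻¹] K]

/-- the basis of the opposite ring -/
noncomputable def opB (gb : Module.Basis S ℤ[T;T⁻¹] K) : Module.Basis S ℤ[T;T⁻¹] Kᵐᵒᵖ :=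
  gb.map (opLinearEquiv ℤ[T;T⁻¹])

theorem opB_apply (gb : Module.Basis S ℤ[T;T⁻¹] K) (X : S) : opB gb X = op (gb X) := rfl

theorem cfK_op (gb : Module.Basis S ℤ[T;T⁻¹] K) (V : K) (Z : S) (n : ℤ) :
    cfK (opB gb) (op V) Z n = cfK gb V Z n := rfl

theorem AdP_rev_rev {E E' : I → S → S} {one : S}
    (h : ∀ w X, AdP E one w X ↔ AdP E' one w.reverse X) (w : List I) (X : S) :
    AdP E' one w X ↔ AdP E one w.reverse X := by
  rw [h w.reverse X, List.reverse_reverse]

/-- left and right exchanged -/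
noncomputable def Sys2.op (D : Sys2 I S O K) : Sys2 I S O Kᵐᵒᵖ where
  A := D.A
  car := D.car
  dg := D.dg
  dg_pos := D.dg_pos
  A_car := D.A_car
  A_symm := D.A_symm
  car_diag := D.car_diag
  car_nonpos := D.car_nonpos
  b := D.b
  co := D.co
  b_mul := D.b_mul
  one := D.one
  b_one := D.b_one
  wt := D.wt
  wt_co := D.wt_co
  wt_zero := D.wt_zero
  lt := D.lt
  wt_lt := D.wt_lt
  lt_pow := D.lt_pow
  gb := opB D.gb
  gb_one := by rw [opB_apply, D.gb_one]; rfl
  gb_pos X Y Z n := by
    rw [opB_apply, opB_apply, ← op_mul, cfK_op]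
    exact D.gb_pos Y X Z n
  ev := D.ev.fromOpposite fun x y => Commute.all _ _
  ev_gb X := by
    rw [opB_apply]
    exact D.ev_gb X
  ev_T n V := by
    induction V with
    | _ V => exact D.ev_T n V
  chi := D.chi
  chi_pos := D.chi_pos
  eps := D.eps'
  E := D.E'
  eps_E := D.eps_E'
  E_of_eps := D.E_of_eps'
  eps_inj := D.eps_inj'
  eps_surj := D.eps_surj'
  wt_E := D.wt_E'
  eps_co := D.eps_co'
  co_E := D.co_E'
  Ad_E := D.Ad_E'
  ex_eps := D.ex_eps'
  eps' := D.eps
  E' := D.E
  eps_E' := D.eps_E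
  E_of_eps' := D.E_of_eps
  eps_inj' := D.eps_inj
  eps_surj' := D.eps_surj
  wt_E' := D.wt_E
  eps_co' := D.eps_co
  co_E' := D.co_E
  Ad_E' := D.Ad_E
  ex_eps' := D.ex_eps
  ad_mirror := AdP_rev_rev D.ad_mirror
  ad_co w X Y Z h hZ := by
    rw [AdP_rev_rev D.ad_mirror] at hZ ⊢
    exact D.ad_co _ X Y Z h hZ
  de := D.de'
  de_mul := D.de_mul'
  de_pos := D.de_pos'
  de_top := D.de_top'
  de_zero := D.de_zero'
  de' := D.de
  de_mul' := D.de_mul
  de_pos' := D.de_pos
  de_top' := D.de_top
  de_zero' := D.de_zero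
  de_comm i j x := (D.de_comm j i x).symm
  lam_E i C Y Z a h h1 := by
    have h2 : D.gb C * D.gb Y = (LaurentPolynomial.T a : ℤ[T;T⁻¹]) • (D.gb Y * D.gb C) :=
      op_injective h1
    exact congrArg MulOpposite.op (D.lam_E' i C Y Z a h h2)
  lam_E' i C Y Z a h h1 := by
    have h2 : D.gb Y * D.gb C = (LaurentPolynomial.T a : ℤ[T;T⁻¹]) • (D.gb C * D.gb Y) :=
      op_injective h1
    exact congrArg MulOpposite.op (D.lam_E i C Y Z a h h2)
  d_nonneg i X := by rw [add_comm]; exact D.d_nonneg i X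
  cm_lt i X := by rw [add_comm]; exact D.cm_lt i X
  d_f i X Y h1 h2 h3 := D.d_f' i X Y h1 h2 (by rwa [add_comm])
  d_f' i X Y h1 h2 h3 := D.d_f i X Y h1 h2 (by rwa [add_comm])
  Hd X Y Z := D.Hd Y X Z
  hd_ex X Y := D.hd_ex Y X
  hd_co X Y Z h := by
    have h1 := D.hd_co Y X Z h
    have h2 : D.co X Y = D.co Y X := by
      have h3 := D.b_mul X Y
      rw [mul_comm, D.b_mul Y X] at h3
      have h4 : ∀ f : S →₀ ℕ, (f.sum fun Z n => (n : ℚ) • D.b Z) =
          D.b.repr.symm (f.mapRange (fun n : ℕ => (n : ℚ)) Nat.cast_zero) := by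
        intro f
        rw [Module.Basis.repr_symm_apply, Finsupp.linearCombination_apply,
          Finsupp.sum_mapRange_index (by simp)]
      rw [h4, h4] at h3
      have h5 := D.b.repr.symm.injective h3
      exact (Finsupp.mapRange_injective _ Nat.cast_zero Nat.cast_injective h5).symm
    rwa [h2]
  hd_eps i X Y Z h := D.hd_eps' i Y X Z h
  hd_eps' i X Y Z h := D.hd_eps i Y X Z h
  hd_as A B C AB W Z h h1 h2 := D.hd_as' C B A AB W Z (by rw [mul_comm]; exact h) h1 h2
  hd_as' A B C BC W Z h h1 h2 := D.hd_as C B A BC W Z (by rw [mul_comm]; exact h) h1 h2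
  s2 X Y T h1 h2 h3 := D.s2 X Y T h2 h1 h3
  hd_lt := D.hd_lt'
  hd_lt' := D.hd_lt
  IC := D.IC
  ic_refl := D.ic_refl
  ic_symm := D.ic_symm
  ic_cm := D.ic_cm
  ic_mul := D.ic_mul
  ic_hd X Y Z h h1 := D.ic_hd Y X Z (D.ic_symm X Y h) h1
  hd_ic := D.hd_ic'
  hd_ic' := D.hd_ic
  Hd1 X Y Z := D.Hd1 Y X Z
  hd1_hd X Y Z h := D.hd1_hd Y X Z h
  hd1_eq X Y Z Z' h := D.hd1_eq Y X Z Z' h
  k1 := D.k1'
  k1' := D.k1
  k4 := D.k4'
  k4' := D.k4
  ds := D.ds'
  ds' := D.ds
  lbf := D.lbf'
  lbf' := D.lbf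
  hd_deg B := by
    obtain ⟨P, h1, h2⟩ := D.hd_deg' B
    exact ⟨MulOpposite.op P, h1, h2⟩
  hd_deg' B := by
    obtain ⟨P, h1, h2⟩ := D.hd_deg B
    exact ⟨MulOpposite.op P, h1, h2⟩

end Pool.Agent.KLSAbs

end

section

/-! MP_e487d8_al, abstract part: positive elements of the Grothendieck ring at `q = 1`. -/

set_option autoImplicit false

namespace Pool.Agent.KLSAbs

open scoped LaurentPolynomial

variable {I S O K : Type} [DecidableEq I] [CommRing O] [Algebra ℚ O] [Ring K]
  [Algebra ℤ[T;T⁻¹] K] (s : Sys2 I S O K)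

namespace Sys2

/-- all coefficients are nonnegative -/
def Ps (x : O) : Prop := ∀ Z, 0 ≤ s.b.repr x Z

/-- the number of constituents -/
noncomputable def len (x : O) : ℚ := (s.b.repr x).sum fun _ c => c

/-- `X` is a constituent of `x` -/
def Sp (x : O) (X : S) : Prop := s.b.repr x X ≠ 0

/-- `G ∘ C^n` has bounded length -/
def ST (C : S) : Prop := ∀ G, ∃ B : ℚ, ∀ n : ℕ, s.len (s.b C ^ n * s.b G) ≤ B

theorem repr_mul (X Y Z : S) : s.b.repr (s.b X * s.b Y) Z = (s.co X Y Z : ℚ) := by
  classical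
  rw [s.b_mul, Finsupp.sum, map_sum, Finsupp.finsetSum_apply]
  simp only [map_smul, Module.Basis.repr_self, Finsupp.smul_apply, Finsupp.single_apply,
    smul_eq_mul, mul_ite, mul_one, mul_zero]
  rw [Finset.sum_ite_eq' (s.co X Y).support Z fun W => ((s.co X Y W : ℕ) : ℚ)]
  by_cases h : Z ∈ (s.co X Y).support
  · rw [if_pos h]
  · rw [if_neg h]
    rw [Finsupp.notMem_support_iff] at h
    rw [h]; simp

theorem repr_b (X Z : S) [Decidable (X = Z)] : s.b.repr (s.b X) Z = if X = Z then 1 else 0 := by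
  classical
  rw [Module.Basis.repr_self, Finsupp.single_apply]

theorem b_inj {X Y : S} (h : s.b X = s.b Y) : X = Y := s.b.injective h

theorem b_ne_zero (X : S) : s.b X ≠ 0 := by
  intro h
  have h1 := s.chi_pos X
  rw [h, map_zero] at h1
  exact lt_irrefl _ h1

theorem expand (x : O) : x = ∑ Z ∈ (s.b.repr x).support, s.b.repr x Z • s.b Z := by
  conv_lhs => rw [← s.b.linearCombination_repr x]
  rfl

/-- a property of elements from the basis -/
theorem ind {p : O → Prop} (x : O) (hx : s.Ps x) (h0 : p 0) (ha : ∀ x y, p x → p y → p (x + y))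
    (hb : ∀ (c : ℚ) Z, 0 ≤ c → p (c • s.b Z)) : p x := by
  classical
  rw [s.expand x]
  have : ∀ T : Finset S, p (∑ Z ∈ T, s.b.repr x Z • s.b Z) := by
    intro T
    induction T using Finset.induction_on with
    | empty => simpa using h0
    | insert a T ha' ih => rw [Finset.sum_insert ha']; exact ha _ _ (hb _ _ (hx a)) ih
  exact this _

variable {s}

theorem ps_b (X : S) : s.Ps (s.b X) := by
  classical
  intro Z
  rw [s.repr_b]
  split_ifs <;> norm_num

theorem Ps.zero : s.Ps 0 := fun Z => by rw [map_zero]; exact le_rfl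

theorem Ps.one : s.Ps 1 := by rw [← s.b_one]; exact ps_b _

theorem Ps.add {x y : O} (hx : s.Ps x) (hy : s.Ps y) : s.Ps (x + y) := fun Z => by
  rw [map_add, Finsupp.add_apply]; exact add_nonneg (hx Z) (hy Z)

theorem Ps.smul {c : ℚ} {x : O} (hc : 0 ≤ c) (hx : s.Ps x) : s.Ps (c • x) := fun Z => by
  rw [map_smul, Finsupp.smul_apply, smul_eq_mul]; exact mul_nonneg hc (hx Z)

theorem Ps.sum {ι : Type*} {T : Finset ι} {f : ι → O} (h : ∀ k ∈ T, s.Ps (f k)) :
    s.Ps (∑ k ∈ T, f k) := by
  classical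
  induction T using Finset.induction_on with
  | empty => exact Ps.zero
  | insert a T ha ih =>
    rw [Finset.sum_insert ha]
    exact (h a (Finset.mem_insert_self a T)).add
      (ih fun k hk => h k (Finset.mem_insert_of_mem hk))

theorem Ps.mul {x y : O} (hx : s.Ps x) (hy : s.Ps y) : s.Ps (x * y) := by
  refine s.ind (p := fun x => s.Ps (x * y)) x hx (by rw [zero_mul]; exact Ps.zero)
    (fun a b ha hb => by rw [add_mul]; exact ha.add hb) (fun c X hc => ?_)
  refine s.ind (p := fun y => s.Ps (c • s.b X * y)) y hy (by rw [mul_zero]; exact Ps.zero)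
    (fun a b ha hb => by rw [mul_add]; exact ha.add hb) (fun c' Y hc' => ?_)
  rw [smul_mul_smul_comm]
  refine Ps.smul (mul_nonneg hc hc') fun Z => ?_
  rw [s.repr_mul]
  exact Nat.cast_nonneg _

theorem Ps.pow {x : O} (hx : s.Ps x) (n : ℕ) : s.Ps (x ^ n) := by
  induction n with
  | zero => rw [pow_zero]; exact Ps.one
  | succ n ih => rw [pow_succ]; exact ih.mul hx

theorem Ps.de {x : O} (hx : s.Ps x) (i : I) : s.Ps (s.de i x) := by
  refine s.ind (p := fun x => s.Ps (s.de i x)) x hx (by rw [map_zero]; exact Ps.zero)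
    (fun a b ha hb => by rw [map_add]; exact ha.add hb) (fun c X hc => ?_)
  rw [map_smul]
  exact Ps.smul hc fun Z => s.de_pos i X Z

theorem Ps.de_pow {x : O} (hx : s.Ps x) (i : I) (n : ℕ) : s.Ps ((s.de i ^ n) x) := by
  induction n with
  | zero => rw [pow_zero]; exact hx
  | succ n ih => rw [pow_succ']; exact ih.de i

theorem Ps.chi {x : O} (hx : s.Ps x) : 0 ≤ s.chi x := by
  refine s.ind (p := fun x => 0 ≤ s.chi x) x hx (by rw [map_zero])
    (fun a b ha hb => by rw [map_add]; exact add_nonneg ha hb) (fun c X hc => ?_)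
  rw [map_smul, smul_eq_mul]
  exact mul_nonneg hc (s.chi_pos X).le

/-- the sum of two positive elements is zero only if both are zero -/
theorem Ps.eq_zero_of_add {x y : O} (hx : s.Ps x) (hy : s.Ps y) (h : x + y = 0) : x = 0 := by
  apply s.b.repr.injective
  rw [map_zero]
  ext Z
  have h1 := congrArg (fun z => s.b.repr z Z) h
  simp only [map_add, Finsupp.add_apply, map_zero, Finsupp.zero_apply] at h1
  have h2 := hx Z
  have h3 := hy Z
  rw [Finsupp.zero_apply]
  linarith

theorem Ps.sub_smul {x : O} (hx : s.Ps x) (Z : S) {c : ℚ} (hc : c ≤ s.b.repr x Z) :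
    s.Ps (x - c • s.b Z) := by
  classical
  intro W
  rw [map_sub, Finsupp.sub_apply, map_smul, Finsupp.smul_apply, s.repr_b]
  split_ifs with h
  · rw [← h, smul_eq_mul, mul_one]; linarith
  · rw [smul_zero, sub_zero]; exact hx W

theorem Sp.add_left {x y : O} {Z : S} (hx : s.Ps x) (hy : s.Ps y) (h : s.Sp x Z) :
    s.Sp (x + y) Z := by
  unfold Sp at *
  rw [map_add, Finsupp.add_apply]
  have h1 := hx Z
  have h2 := hy Z
  intro h3
  apply h
  linarith

theorem Sp.add_right {x y : O} {Z : S} (hx : s.Ps x) (hy : s.Ps y) (h : s.Sp y Z) :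
    s.Sp (x + y) Z := by
  rw [add_comm]; exact h.add_left hy hx

theorem Sp.of_add {x y : O} {Z : S} (h : s.Sp (x + y) Z) : s.Sp x Z ∨ s.Sp y Z := by
  unfold Sp at *
  by_contra h1
  push Not at h1
  apply h
  rw [map_add, Finsupp.add_apply, h1.1, h1.2, add_zero]

/-- constituents of products of constituents -/
theorem Sp.mul {x y : O} {X Y Z : S} (hx : s.Ps x) (hy : s.Ps y) (hX : s.Sp x X)
    (hY : s.Sp y Y) (h : s.Sp (s.b X * s.b Y) Z) : s.Sp (x * y) Z := by
  have h1 : s.Ps (x - s.b.repr x X • s.b X) := hx.sub_smul X le_rfl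
  have h2 : s.Ps (y - s.b.repr y Y • s.b Y) := hy.sub_smul Y le_rfl
  have hcx : 0 ≤ s.b.repr x X := hx X
  have hcy : 0 ≤ s.b.repr y Y := hy Y
  have e : x * y = (s.b.repr x X * s.b.repr y Y) • (s.b X * s.b Y) +
      ((s.b.repr x X • s.b X) * (y - s.b.repr y Y • s.b Y) +
        (x - s.b.repr x X • s.b X) * y) := by
    rw [mul_sub, sub_mul, smul_mul_smul_comm]
    ring
  rw [e]
  refine Sp.add_left (Ps.smul (mul_nonneg hcx hcy) ((ps_b X).mul (ps_b Y)))
    (((ps_b X).smul hcx).mul h2 |>.add (h1.mul hy)) ?_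
  unfold Sp
  rw [map_smul, Finsupp.smul_apply, smul_eq_mul]
  exact mul_ne_zero (mul_ne_zero hX hY) h

/-- a constituent of a product comes from constituents of the factors -/
theorem Sp.of_mul {x y : O} {Z : S} (h : s.Sp (x * y) Z) :
    ∃ X Y, s.Sp x X ∧ s.Sp y Y ∧ s.co X Y Z ≠ 0 := by
  classical
  by_contra hne
  push Not at hne
  apply h
  rw [s.expand x, s.expand y, Finset.sum_mul_sum, map_sum, Finsupp.finsetSum_apply]
  refine Finset.sum_eq_zero fun X hX => ?_
  rw [map_sum, Finsupp.finsetSum_apply]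
  refine Finset.sum_eq_zero fun Y hY => ?_
  rw [Finsupp.mem_support_iff] at hX hY
  rw [smul_mul_smul_comm, map_smul, Finsupp.smul_apply, s.repr_mul, hne X Y hX hY]
  simp

/-- `E_i` is multiplicative on simple products -/
theorem E_mul (i : I) {X Y Z : S} (h : s.b X * s.b Y = s.b Z) :
    s.eps i Z = s.eps i X + s.eps i Y ∧ s.b (s.E i X) * s.b (s.E i Y) = s.b (s.E i Z) := by
  classical
  have hco : ∀ W, s.co X Y W ≠ 0 → W = Z := by
    intro W hW
    by_contra hne
    have h1 := s.repr_mul X Y W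
    rw [h, s.repr_b, if_neg (Ne.symm hne)] at h1
    exact hW (by exact_mod_cast h1.symm)
  have hco1 : s.co X Y Z = 1 := by
    have h1 := s.repr_mul X Y Z
    rw [h, s.repr_b, if_pos rfl] at h1
    exact_mod_cast h1.symm
  -- every constituent of `E X ∘ E Y` is `E Z`
  have key : ∀ W, s.co (s.E i X) (s.E i Y) W ≠ 0 → s.eps i Z = s.eps i X + s.eps i Y ∧
      W = s.E i Z := by
    intro W hW
    have h1 := s.eps_co i _ _ _ hW
    rw [s.eps_E, s.eps_E] at h1
    obtain ⟨Y', h2, h3⟩ := s.eps_surj i (s.eps i X + s.eps i Y) W (by omega)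
    have h4 := s.co_E i X Y Y' h2
    rw [h3] at h4
    have h5 := hco Y' (by rw [h4]; exact hW)
    rw [← h5]
    exact ⟨h2, h3.symm⟩
  have hne : ∃ W, s.co (s.E i X) (s.E i Y) W ≠ 0 := by
    by_contra h0
    push Not at h0
    have h1 : s.b (s.E i X) * s.b (s.E i Y) = 0 := by
      apply s.b.repr.injective
      rw [map_zero]
      ext W
      rw [s.repr_mul, h0 W]
      simp
    have h2 := congrArg s.chi h1
    rw [map_mul, map_zero] at h2
    exact (mul_pos (s.chi_pos _) (s.chi_pos _)).ne' h2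
  obtain ⟨W, hW⟩ := hne
  obtain ⟨h1, _⟩ := key W hW
  refine ⟨h1, ?_⟩
  apply s.b.repr.injective
  ext W
  rw [s.repr_mul, s.repr_b]
  by_cases hWZ : s.E i Z = W
  · rw [if_pos hWZ, ← hWZ, ← s.co_E i X Y Z h1, hco1]
    simp
  · rw [if_neg hWZ]
    have : s.co (s.E i X) (s.E i Y) W = 0 := by
      by_contra h2
      exact hWZ (key W h2).2.symm
    rw [this]
    simp

theorem E_pow (i : I) {C T : S} {n : ℕ} (h : s.b C ^ n = s.b T) (hSR : PSR s.b C) :
    s.eps i T = n * s.eps i C ∧ s.b (s.E i C) ^ n = s.b (s.E i T) := by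
  induction n generalizing T with
  | zero =>
    rw [pow_zero, ← s.b_one] at h
    have h1 := s.b_inj h
    have h2 : s.eps i s.one = 0 := by
      have h3 := s.wt_E i s.one
      have h4 : s.wt s.one = 0 := by
        have h5 : s.co s.one s.one s.one ≠ 0 := by
          have h6 := s.repr_mul s.one s.one s.one
          classical
          rw [s.b_one, one_mul, ← s.b_one, s.repr_b, if_pos rfl] at h6
          intro h7
          rw [h7] at h6
          norm_num at h6
        have h6 := s.wt_co _ _ _ h5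
        have h7 : s.wt s.one + 0 = s.wt s.one + s.wt s.one := by rw [add_zero]; exact h6
        exact (add_left_cancel h7).symm
      rw [h4] at h3
      have h5 := congrArg (fun f => f i) h3
      simp only [Finsupp.add_apply, Finsupp.single_eq_same, Finsupp.zero_apply] at h5
      omega
    rw [← h1, h2, zero_mul]
    refine ⟨rfl, ?_⟩
    rw [pow_zero, s.E_of_eps i _ h2, s.b_one]
  | succ n ih =>
    obtain ⟨T', hT'⟩ := hSR n
    obtain ⟨h1, h2⟩ := ih hT'
    rw [pow_succ, hT'] at h
    obtain ⟨h3, h4⟩ := E_mul i h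
    refine ⟨by rw [h3, h1]; ring, ?_⟩
    rw [pow_succ, h2, h4]

theorem psr_E (i : I) {C : S} (hSR : PSR s.b C) : PSR s.b (s.E i C) := fun n => by
  obtain ⟨T, hT⟩ := hSR n
  exact ⟨_, (E_pow i hT hSR).2⟩

/-- `e_i` is locally nilpotent -/
theorem de_pow_b (i : I) (X : S) {n : ℕ} (hn : s.eps i X < n) : (s.de i ^ n) (s.b X) = 0 := by
  obtain ⟨k, rfl⟩ := Nat.exists_eq_add_of_lt hn
  rw [show s.eps i X + k + 1 = k + 1 + s.eps i X by omega, pow_add, Module.End.mul_apply,
    s.de_top, map_smul, pow_succ, Module.End.mul_apply, s.de_zero i _ (s.eps_E i X), map_zero,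
    smul_zero]

end Sys2

end Pool.Agent.KLSAbs

end

section

/-! MP_e487d8_al: ring lemmas for shift and truncation. -/

set_option autoImplicit false

namespace Pool.Agent.KLS

variable {K I : Type} [Field K] [Fintype I] [DecidableEq I] (D : Datum K I)

namespace Datum

theorem e_E (k : ℕ) (i : I) : D.e k i * D.E k = D.e k i := by
  unfold E
  rw [Finset.mul_sum]
  simp [e_mul_e]

theorem E_e (k l : ℕ) (i : I) : D.E k * D.e l i = D.e l i * D.E k := by
  unfold E
  rw [Finset.mul_sum, Finset.sum_mul]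
  exact Finset.sum_congr rfl fun j _ => D.e_comm k l j i

theorem E_x (k l : ℕ) : D.E k * D.x l = D.x l * D.E k := by
  unfold E
  rw [Finset.mul_sum, Finset.sum_mul]
  exact Finset.sum_congr rfl fun j _ => (D.x_e l k j).symm

theorem E_t (k l : ℕ) : D.E k * D.t l = D.t l * D.E k := by
  by_cases h : k = l
  · subst h
    rw [D.t_E]
    conv_rhs => rw [← D.t_E' k]
    unfold E
    rw [Finset.mul_sum, Finset.sum_mul]
    exact Finset.sum_congr rfl fun j _ => (D.t_e1 k j).symm
  by_cases h' : k = l + 1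
  · subst h'
    rw [D.t_E']
    conv_rhs => rw [← D.t_E l]
    unfold E
    rw [Finset.mul_sum, Finset.sum_mul]
    exact Finset.sum_congr rfl fun j _ => (D.t_e0 l j).symm
  · unfold E
    rw [Finset.mul_sum, Finset.sum_mul]
    exact Finset.sum_congr rfl fun j _ => (D.t_e l k j h h').symm

/-- `E k` is central -/
theorem E_comm (k : ℕ) (a : KLRAlg D) : D.E k * a = a * D.E k := by
  induction a using KLRAlg.induction with
  | hs r => exact (Algebra.commutes r _).symm
  | he l i => exact D.E_e k l i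
  | hx l => exact D.E_x k l
  | ht l => exact D.E_t k l
  | hadd a b ha hb => rw [mul_add, add_mul, ha, hb]
  | hmul a b ha hb => rw [← mul_assoc, ha, mul_assoc, hb, mul_assoc]

theorem shn_E (m k : ℕ) : D.shn m (D.E k) = D.E (m + k) := by
  unfold E
  rw [map_sum]
  simp

theorem shn_dl (m k : ℕ) : D.shn m (D.dl k) = D.dl (m + k) := by
  unfold dl
  rw [map_sum]
  simp [add_assoc]

theorem tr_E (m k : ℕ) : D.tr m (D.E k) = if k < m then D.E k else 0 := by
  unfold E
  rw [map_sum]
  split_ifs with h <;> simp [tr_e, h]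

theorem tr_tr {m p : ℕ} (h : m ≤ p) (a : KLRAlg D) : D.tr p (D.tr m a) = D.tr m a := by
  have h' : (D.tr p).comp (D.tr m) = D.tr m := by
    apply hom_ext
    · intro k i
      simp only [AlgHom.comp_apply, tr_e]
      split_ifs with h1
      · rw [tr_e, if_pos (by omega)]
      · exact map_zero _
    · intro k
      simp only [AlgHom.comp_apply, tr_x]
      split_ifs with h1
      · rw [tr_x, if_pos (by omega)]
      · exact map_zero _
    · intro k
      simp only [AlgHom.comp_apply, tr_t]
      split_ifs with h1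
      · rw [tr_t, if_pos (by omega)]
      · exact map_zero _
  exact DFunLike.congr_fun h' a

theorem tr_tr' {m p : ℕ} (h : m ≤ p) (a : KLRAlg D) : D.tr m (D.tr p a) = D.tr m a := by
  have h' : (D.tr m).comp (D.tr p) = D.tr m := by
    apply hom_ext
    · intro k i
      simp only [AlgHom.comp_apply, tr_e]
      split_ifs with h1 h2 h2
      · rw [tr_e, if_pos h2]
      · rw [tr_e, if_neg h2]
      · omega
      · exact map_zero _
    · intro k
      simp only [AlgHom.comp_apply, tr_x]
      split_ifs with h1 h2 h2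
      · rw [tr_x, if_pos h2]
      · rw [tr_x, if_neg h2]
      · omega
      · exact map_zero _
    · intro k
      simp only [AlgHom.comp_apply, tr_t]
      split_ifs with h1 h2 h2
      · rw [tr_t, if_pos h2]
      · rw [tr_t, if_neg h2]
      · omega
      · exact map_zero _
  exact DFunLike.congr_fun h' a

theorem tr_shn (m n : ℕ) (a : KLRAlg D) : D.tr (m + n) (D.shn m a) = D.shn m (D.tr n a) := by
  have h' : (D.tr (m + n)).comp (D.shn m) = (D.shn m).comp (D.tr n) := by
    apply hom_ext
    · intro k i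
      simp only [AlgHom.comp_apply, tr_e, shn_e]
      by_cases h : k < n
      · rw [if_pos (by omega), if_pos h, shn_e]
      · rw [if_neg (by omega), if_neg h, map_zero]
    · intro k
      simp only [AlgHom.comp_apply, tr_x, shn_x]
      by_cases h : k < n
      · rw [if_pos (by omega), if_pos h, shn_x]
      · rw [if_neg (by omega), if_neg h, map_zero]
    · intro k
      simp only [AlgHom.comp_apply, tr_t, shn_t]
      by_cases h : k + 1 < n
      · rw [if_pos (by omega), if_pos h, shn_t]
      · rw [if_neg (by omega), if_neg h, map_zero]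
  exact DFunLike.congr_fun h' a

/-- the first `m` strands commute with the strands from `m'` on, `m ≤ m'` -/
theorem tr_mul_shn {m m' : ℕ} (h : m ≤ m') (a b : KLRAlg D) :
    D.tr m a * D.shn m' b = D.shn m' b * D.tr m a := by
  induction b using KLRAlg.induction with
  | hs r => rw [AlgHom.commutes]; exact (Algebra.commutes r _).symm
  | hadd b c hb hc => rw [map_add, mul_add, add_mul, hb, hc]
  | hmul b c hb hc => rw [map_mul, ← mul_assoc, hb, mul_assoc, hc, mul_assoc]
  | he l j =>
    rw [shn_e]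
    induction a using KLRAlg.induction with
    | hs r => rw [AlgHom.commutes]; exact Algebra.commutes r _
    | hadd b c hb hc => rw [map_add, mul_add, add_mul, hb, hc]
    | hmul b c hb hc => rw [map_mul, mul_assoc, hc, ← mul_assoc, hb, mul_assoc]
    | he k i =>
      rw [tr_e]; split_ifs with h1
      · exact D.e_comm _ _ _ _
      · simp
    | hx k =>
      rw [tr_x]; split_ifs with h1
      · exact D.x_e _ _ _
      · simp
    | ht k =>
      rw [tr_t]; split_ifs with h1
      · exact D.t_e _ _ _ (by omega) (by omega)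
      · simp
  | hx l =>
    rw [shn_x]
    induction a using KLRAlg.induction with
    | hs r => rw [AlgHom.commutes]; exact Algebra.commutes r _
    | hadd b c hb hc => rw [map_add, mul_add, add_mul, hb, hc]
    | hmul b c hb hc => rw [map_mul, mul_assoc, hc, ← mul_assoc, hb, mul_assoc]
    | he k i =>
      rw [tr_e]; split_ifs with h1
      · exact (D.x_e _ _ _).symm
      · simp
    | hx k =>
      rw [tr_x]; split_ifs with h1
      · exact D.x_comm _ _
      · simp
    | ht k =>
      rw [tr_t]; split_ifs with h1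
      · exact D.t_x _ _ (by omega) (by omega)
      · simp
  | ht l =>
    rw [shn_t]
    induction a using KLRAlg.induction with
    | hs r => rw [AlgHom.commutes]; exact Algebra.commutes r _
    | hadd b c hb hc => rw [map_add, mul_add, add_mul, hb, hc]
    | hmul b c hb hc => rw [map_mul, mul_assoc, hc, ← mul_assoc, hb, mul_assoc]
    | he k i =>
      rw [tr_e]; split_ifs with h1
      · exact (D.t_e _ _ _ (by omega) (by omega)).symm
      · simp
    | hx k =>
      rw [tr_x]; split_ifs with h1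
      · exact (D.t_x _ _ (by omega) (by omega)).symm
      · simp
    | ht k =>
      rw [tr_t]; split_ifs with h1
      · exact D.t_far _ _ (by omega)
      · simp

end Datum

namespace IsStrand

variable {D} {n : ℕ} {M : Type*} [AddCommGroup M] [Module (KLRAlg D) M]

theorem E_smul_zero (h : IsStrand D n M) {k : ℕ} (hk : n ≤ k) (u : M) : D.E k • u = 0 := by
  unfold Datum.E
  rw [Finset.sum_smul]
  exact Finset.sum_eq_zero fun i _ => h.zero k hk i u

theorem x_smul_zero (h : IsStrand D n M) {k : ℕ} (hk : n ≤ k) (u : M) : D.x k • u = 0 := by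
  rw [← D.x_E, mul_smul, h.E_smul_zero hk, smul_zero]

theorem t_smul_zero (h : IsStrand D n M) {k : ℕ} (hk : n ≤ k + 1) (u : M) : D.t k • u = 0 := by
  rw [← D.t_E', mul_smul, h.E_smul_zero hk, smul_zero]

/-- on a module with `n` strands the truncation to `n` strands acts trivially -/
theorem tr_smul (h : IsStrand D n M) {m : ℕ} (hm : n ≤ m) (a : KLRAlg D) (u : M) :
    D.tr m a • u = a • u := by
  induction a using KLRAlg.induction generalizing u with
  | hs r => rw [AlgHom.commutes]
  | hadd b c hb hc => rw [map_add, add_smul, add_smul, hb, hc]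
  | hmul b c hb hc => rw [map_mul, mul_smul, mul_smul, hb, hc]
  | he k i =>
    rw [D.tr_e]; split_ifs with h1
    · rfl
    · rw [h.zero k (by omega), zero_smul]
  | hx k =>
    rw [D.tr_x]; split_ifs with h1
    · rfl
    · rw [h.x_smul_zero (by omega), zero_smul]
  | ht k =>
    rw [D.tr_t]; split_ifs with h1
    · rfl
    · rw [h.t_smul_zero (by omega), zero_smul]

end IsStrand

end Pool.Agent.KLS

end

section

/-! MP_e487d8_al: the convolution product (induction product) of KLR modules. -/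

set_option autoImplicit false

open scoped TensorProduct

namespace Pool.Agent.KLS

variable {K I : Type} [Field K] [Fintype I] [DecidableEq I]

section
variable (D : Datum K I) (m : ℕ) {M N P : Type} [AddCommGroup M] [Module K M]
  [Module (KLRAlg D) M] [AddCommGroup N] [Module K N] [Module (KLRAlg D) N]
  [AddCommGroup P] [Module K P] [Module (KLRAlg D) P]

/-- A bilinear map is balanced when the first `m` strands act on the first factor and the strands
`m, m + 1, ...` act on the second factor. -/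
structure Balanced (β : M →ₗ[K] N →ₗ[K] P) : Prop where
  left : ∀ (a : KLRAlg D) (u : M) (v : N), D.tr m a • β u v = β (a • u) v
  right : ∀ (a : KLRAlg D) (u : M) (v : N), D.shn m a • β u v = β u (a • v)

end

section
variable (D : Datum K I) (m : ℕ) (M N : Type) [AddCommGroup M] [Module K M] [Module (KLRAlg D) M]
  [AddCommGroup N] [Module K N] [Module (KLRAlg D) N]

/-- the relations defining the convolution product -/
noncomputable def convRel : Submodule (KLRAlg D) (KLRAlg D ⊗[K] (M ⊗[K] N)) :=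
  Submodule.span (KLRAlg D)
    ({z | ∃ (a : KLRAlg D) (u : M) (v : N), z = D.tr m a ⊗ₜ (u ⊗ₜ v) - 1 ⊗ₜ ((a • u) ⊗ₜ v)} ∪
     {z | ∃ (a : KLRAlg D) (u : M) (v : N), z = D.shn m a ⊗ₜ (u ⊗ₜ v) - 1 ⊗ₜ (u ⊗ₜ (a • v))})

/-- the convolution product `M ∘ N = R(m+n) ⊗_{R(m) ⊗ R(n)} (M ⊗ N)`, where `M` has `m` strands -/
def Conv : Type := (KLRAlg D ⊗[K] (M ⊗[K] N)) ⧸ convRel D m M N

noncomputable instance : AddCommGroup (Conv D m M N) :=
  inferInstanceAs (AddCommGroup ((KLRAlg D ⊗[K] (M ⊗[K] N)) ⧸ convRel D m M N))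
noncomputable instance : Module K (Conv D m M N) :=
  inferInstanceAs (Module K ((KLRAlg D ⊗[K] (M ⊗[K] N)) ⧸ convRel D m M N))
noncomputable instance : Module (KLRAlg D) (Conv D m M N) :=
  inferInstanceAs (Module (KLRAlg D) ((KLRAlg D ⊗[K] (M ⊗[K] N)) ⧸ convRel D m M N))
instance : IsScalarTower K (KLRAlg D) (Conv D m M N) :=
  inferInstanceAs (IsScalarTower K (KLRAlg D) ((KLRAlg D ⊗[K] (M ⊗[K] N)) ⧸ convRel D m M N))

end

namespace Conv

variable {D : Datum K I} {m : ℕ} {M N P : Type} [AddCommGroup M] [Module K M]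
  [Module (KLRAlg D) M] [AddCommGroup N] [Module K N] [Module (KLRAlg D) N]
  [AddCommGroup P] [Module K P] [Module (KLRAlg D) P] [IsScalarTower K (KLRAlg D) P]

variable (D m M N) in
/-- the quotient map -/
noncomputable def quot : (KLRAlg D ⊗[K] (M ⊗[K] N)) →ₗ[KLRAlg D] Conv D m M N :=
  (convRel D m M N).mkQ

variable (D m M N) in
theorem quot_surjective : Function.Surjective (quot D m M N) := Submodule.mkQ_surjective _

variable (D m M N) in
/-- the universal balanced map -/
noncomputable def mk : M →ₗ[K] N →ₗ[K] Conv D m M N :=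
  TensorProduct.curry (((quot D m M N).restrictScalars K).comp
    (TensorProduct.mk K (KLRAlg D) (M ⊗[K] N) 1))

theorem quot_tmul (a : KLRAlg D) (u : M) (v : N) :
    quot D m M N (a ⊗ₜ (u ⊗ₜ v)) = a • mk D m M N u v := by
  have h : (a ⊗ₜ (u ⊗ₜ v) : KLRAlg D ⊗[K] (M ⊗[K] N)) = a • ((1 : KLRAlg D) ⊗ₜ (u ⊗ₜ v)) := by
    rw [TensorProduct.smul_tmul', smul_eq_mul, mul_one]
  rw [h, map_smul]
  rfl

theorem balanced_mk : Balanced D m (mk D m M N) where
  left a u v := by
    rw [← quot_tmul, ← one_smul (KLRAlg D) (mk D m M N (a • u) v), ← quot_tmul, ← sub_eq_zero,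
      ← map_sub]
    exact (Submodule.Quotient.mk_eq_zero _).2 (Submodule.subset_span (Or.inl ⟨a, u, v, rfl⟩))
  right a u v := by
    rw [← quot_tmul, ← one_smul (KLRAlg D) (mk D m M N u (a • v)), ← quot_tmul, ← sub_eq_zero,
      ← map_sub]
    exact (Submodule.Quotient.mk_eq_zero _).2 (Submodule.subset_span (Or.inr ⟨a, u, v, rfl⟩))

theorem tr_smul_mk (a : KLRAlg D) (u : M) (v : N) :
    D.tr m a • mk D m M N u v = mk D m M N (a • u) v := balanced_mk.left a u v
theorem shn_smul_mk (a : KLRAlg D) (u : M) (v : N) :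
    D.shn m a • mk D m M N u v = mk D m M N u (a • v) := balanced_mk.right a u v

/-- the elements `a • mk u v` span the convolution product -/
theorem induction {p : Conv D m M N → Prop} (z : Conv D m M N) (h0 : p 0)
    (h : ∀ (a : KLRAlg D) (u : M) (v : N), p (a • mk D m M N u v))
    (hadd : ∀ y z, p y → p z → p (y + z)) : p z := by
  obtain ⟨z, rfl⟩ := quot_surjective D m M N z
  induction z using TensorProduct.induction_on with
  | zero => rwa [map_zero]
  | tmul a w =>
    induction w using TensorProduct.induction_on with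
    | zero => rwa [TensorProduct.tmul_zero, map_zero]
    | tmul u v => rw [quot_tmul]; exact h a u v
    | add w w' hw hw' => rw [TensorProduct.tmul_add, map_add]; exact hadd _ _ hw hw'
  | add w w' hw hw' => rw [map_add]; exact hadd _ _ hw hw'

omit [Module K P] [IsScalarTower K (KLRAlg D) P] in
theorem hom_ext {f g : Conv D m M N →ₗ[KLRAlg D] P}
    (h : ∀ u v, f (mk D m M N u v) = g (mk D m M N u v)) : f = g := by
  ext z
  induction z using Conv.induction with
  | h0 => simp
  | h a u v => rw [map_smul, map_smul, h]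
  | hadd y z hy hz => rw [map_add, map_add, hy, hz]

/-- auxiliary map -/
noncomputable def liftAux (β : M →ₗ[K] N →ₗ[K] P) :
    (KLRAlg D ⊗[K] (M ⊗[K] N)) →ₗ[KLRAlg D] P :=
  TensorProduct.AlgebraTensorModule.lift
    (LinearMap.toSpanSingleton (KLRAlg D) ((M ⊗[K] N) →ₗ[K] P) (TensorProduct.lift β))

omit [Module (KLRAlg D) M] [Module (KLRAlg D) N] in
theorem liftAux_tmul (β : M →ₗ[K] N →ₗ[K] P) (a : KLRAlg D) (u : M) (v : N) :
    liftAux β (a ⊗ₜ (u ⊗ₜ v)) = a • β u v := by
  simp [liftAux]

/-- universal property of the convolution product -/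
noncomputable def lift (β : M →ₗ[K] N →ₗ[K] P) (hβ : Balanced D m β) :
    Conv D m M N →ₗ[KLRAlg D] P :=
  Submodule.liftQ _ (liftAux β) (by
    rw [convRel, Submodule.span_le]
    rintro z (⟨a, u, v, rfl⟩ | ⟨a, u, v, rfl⟩)
    · simp [liftAux_tmul, hβ.left]
    · simp [liftAux_tmul, hβ.right])

@[simp] theorem lift_mk (β : M →ₗ[K] N →ₗ[K] P) (hβ : Balanced D m β) (u : M) (v : N) :
    lift β hβ (mk D m M N u v) = β u v := by
  have h : lift β hβ (quot D m M N (1 ⊗ₜ (u ⊗ₜ v))) = liftAux β (1 ⊗ₜ (u ⊗ₜ v)) :=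
    Submodule.liftQ_apply _ _ _
  rw [quot_tmul, liftAux_tmul, one_smul, one_smul] at h
  exact h

end Conv

end Pool.Agent.KLS

end
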