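import Pool.Agent.Work.MP_e487d8_al.Bd.B03

/-! Bundle of small proof modules (one section per former module). -/

section

/-! MP_e487d8_al, RMAT block: coloured vectors in modules over the KLR algebra. -/

set_option autoImplicit false

namespace Pool.Agent.KLS

variable {K I : Type} [Field K] [Fintype I] [DecidableEq I]

namespace Datum

variable (D : Datum K I)

theorem E_idem (k : ℕ) : D.E k * D.E k = D.E k := by
  nth_rw 1 [E]
  rw [Finset.sum_mul]
  exact Finset.sum_congr rfl fun j _ => D.e_E k j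

end Datum

section col

variable {D : Datum K I} {M : Type*} [AddCommGroup M] [Module (KLRAlg D) M]

/-- the vector `v` has the colour `i` at the strand `k` -/
def Col (D : Datum K I) {M : Type*} [AddCommGroup M] [Module (KLRAlg D) M] (k : ℕ) (i : I)
    (v : M) : Prop := D.e k i • v = v

namespace Col

theorem add {k : ℕ} {i : I} {v w : M} (h : Col D k i v) (h' : Col D k i w) :
    Col D k i (v + w) := by
  rw [Col] at *
  rw [smul_add, h, h']

theorem sub {k : ℕ} {i : I} {v w : M} (h : Col D k i v) (h' : Col D k i w) :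
    Col D k i (v - w) := by
  rw [Col] at *
  rw [smul_sub, h, h']

theorem neg {k : ℕ} {i : I} {v : M} (h : Col D k i v) : Col D k i (-v) := by
  rw [Col] at *
  rw [smul_neg, h]

theorem zero {k : ℕ} {i : I} : Col D k i (0 : M) := by
  rw [Col, smul_zero]

theorem x {k : ℕ} {i : I} {v : M} (h : Col D k i v) (l : ℕ) : Col D k i (D.x l • v) := by
  rw [Col] at *
  rw [← mul_smul, ← D.x_e, mul_smul, h]

theorem t0 {k : ℕ} {i : I} {v : M} (h : Col D k i v) : Col D (k + 1) i (D.t k • v) := by
  rw [Col] at *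
  rw [← mul_smul, ← D.t_e0, mul_smul, h]

theorem t1 {k : ℕ} {i : I} {v : M} (h : Col D (k + 1) i v) : Col D k i (D.t k • v) := by
  rw [Col] at *
  rw [← mul_smul, ← D.t_e1, mul_smul, h]

theorem t {k l : ℕ} {i : I} {v : M} (h : Col D l i v) (h1 : l ≠ k) (h2 : l ≠ k + 1) :
    Col D l i (D.t k • v) := by
  rw [Col] at *
  rw [← mul_smul, ← D.t_e k l i h1 h2, mul_smul, h]

theorem e {k l : ℕ} {i j : I} {v : M} (h : Col D k i v) : Col D k i (D.e l j • v) := by
  rw [Col] at *
  rw [← mul_smul, D.e_comm, mul_smul, h]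

theorem e_ne {k : ℕ} {i j : I} {v : M} (h : Col D k i v) (hij : j ≠ i) : D.e k j • v = 0 := by
  rw [Col] at h
  rw [← h, ← mul_smul, D.e_mul_e_ne k hij, zero_smul]

theorem mk_e (k : ℕ) (i : I) (v : M) : Col D k i (D.e k i • v) := by
  rw [Col, ← mul_smul, D.e_idem]

theorem E {k : ℕ} {i : I} {v : M} (h : Col D k i v) : D.E k • v = v := by
  rw [Col] at h
  rw [← h, ← mul_smul, D.E_comm, D.e_E]

end Col

theorem dl_eq {k : ℕ} {i : I} {v : M} (h : Col D k i v) (h' : Col D (k + 1) i v) :
    D.dl k • v = v := by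
  rw [Datum.dl, Finset.sum_smul, Finset.sum_eq_single i]
  · rw [mul_smul, h', h]
  · intro j _ hj
    rw [mul_smul, h'.e_ne hj, smul_zero]
  · intro h
    exact absurd (Finset.mem_univ i) h

theorem dl_ne {k : ℕ} {i j : I} {v : M} (h : Col D k i v) (h' : Col D (k + 1) j v) (hij : i ≠ j) :
    D.dl k • v = 0 := by
  rw [Datum.dl, Finset.sum_smul]
  refine Finset.sum_eq_zero fun l _ => ?_
  rw [mul_smul]
  by_cases hl : l = j
  · rw [hl, h', h.e_ne (Ne.symm hij)]
  · rw [h'.e_ne hl, smul_zero]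

theorem tx0_ne {k : ℕ} {i j : I} {v : M} (h : Col D k i v) (h' : Col D (k + 1) j v)
    (hij : i ≠ j) : D.x (k + 1) • D.t k • v = D.t k • D.x k • v := by
  rw [← mul_smul (D.t k), D.t_x0, sub_smul, dl_ne h h' hij, sub_zero, mul_smul]

theorem tx1_ne {k : ℕ} {i j : I} {v : M} (h : Col D k i v) (h' : Col D (k + 1) j v)
    (hij : i ≠ j) : D.x k • D.t k • v = D.t k • D.x (k + 1) • v := by
  rw [← mul_smul (D.t k), D.t_x1, add_smul, dl_ne h h' hij, add_zero, mul_smul]

theorem tx0_eq {k : ℕ} {i : I} {v : M} (h : Col D k i v) (h' : Col D (k + 1) i v) :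
    D.x (k + 1) • D.t k • v = D.t k • D.x k • v + v := by
  rw [← mul_smul (D.t k), D.t_x0, sub_smul, dl_eq h h', mul_smul, sub_add_cancel]

theorem tx1_eq {k : ℕ} {i : I} {v : M} (h : Col D k i v) (h' : Col D (k + 1) i v) :
    D.x k • D.t k • v = D.t k • D.x (k + 1) • v - v := by
  rw [← mul_smul (D.t k), D.t_x1, add_smul, dl_eq h h', mul_smul, add_sub_cancel_right]

theorem tx_far {k l : ℕ} (h : l ≠ k) (h' : l ≠ k + 1) (v : M) :
    D.x l • D.t k • v = D.t k • D.x l • v := by
  rw [← mul_smul, ← D.t_x k l h h', mul_smul]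

theorem xx_smul (k l : ℕ) (v : M) : D.x l • D.x k • v = D.x k • D.x l • v := by
  rw [← mul_smul, D.x_comm, mul_smul]

theorem tt_ne {k : ℕ} {i j : I} {v : M} (h : Col D k i v) (h' : Col D (k + 1) j v)
    (hij : i ≠ j) : D.t k • D.t k • v =
      D.QE i j (D.x k) (D.x (k + 1)) • v := by
  rw [← mul_smul, D.t_t, Finset.sum_smul, Finset.sum_eq_single i]
  · rw [Finset.sum_smul, Finset.sum_eq_single j]
    · rw [if_neg hij, mul_smul, mul_smul, h', h]
    · intro l _ hl
      by_cases hil : i = l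
      · rw [if_pos hil, zero_smul]
      · rw [if_neg hil, mul_smul, mul_smul, h'.e_ne hl, smul_zero, smul_zero]
    · intro h
      exact absurd (Finset.mem_univ j) h
  · intro l _ hl
    rw [Finset.sum_smul]
    refine Finset.sum_eq_zero fun l' _ => ?_
    by_cases hil : l = l'
    · rw [if_pos hil, zero_smul]
    · rw [if_neg hil, mul_smul, D.e_comm, mul_smul, h.e_ne hl, smul_zero,
        smul_zero]
  · intro h
    exact absurd (Finset.mem_univ i) h

theorem tt_eq {k : ℕ} {i : I} {v : M} (h : Col D k i v) (h' : Col D (k + 1) i v) :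
    D.t k • D.t k • v = 0 := by
  rw [← mul_smul, D.t_t, Finset.sum_smul]
  refine Finset.sum_eq_zero fun l _ => ?_
  rw [Finset.sum_smul]
  refine Finset.sum_eq_zero fun l' _ => ?_
  by_cases hil : l = l'
  · rw [if_pos hil, zero_smul]
  · rw [if_neg hil, mul_smul, mul_smul]
    by_cases hl' : l' = i
    · have hl : l ≠ i := fun hh => hil (hh.trans hl'.symm)
      rw [hl', h', h.e_ne hl, smul_zero]
    · rw [h'.e_ne hl', smul_zero, smul_zero]

/-- the correction term of the braid relation -/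
noncomputable def bterm (D : Datum K I) (k : ℕ) (i j : I) : KLRAlg D :=
  D.QD i j (D.x k) (D.x (k + 2)) (D.x (k + 1))

theorem braid_ne {k : ℕ} {i j : I} {v : M} (h : Col D k i v) (h' : Col D (k + 1) j v)
    (h'' : Col D (k + 2) i v) (hij : i ≠ j) :
    D.t (k + 1) • D.t k • D.t (k + 1) • v = D.t k • D.t (k + 1) • D.t k • v +
      bterm D k i j • v := by
  have hb : (D.t (k + 1) * D.t k * D.t (k + 1) - D.t k * D.t (k + 1) * D.t k) • v =
      bterm D k i j • v := by
    rw [D.t_braid, Finset.sum_smul, Finset.sum_eq_single i]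
    · rw [Finset.sum_smul, Finset.sum_eq_single j]
      · rw [if_neg hij, mul_smul, mul_smul, h'', mul_smul, h', h]
        rfl
      · intro l _ hl
        by_cases hil : i = l
        · rw [if_pos hil, zero_smul]
        · rw [if_neg hil, mul_smul, mul_smul, h'', mul_smul, h'.e_ne hl,
            smul_zero, smul_zero]
      · intro h
        exact absurd (Finset.mem_univ j) h
    · intro l _ hl
      rw [Finset.sum_smul]
      refine Finset.sum_eq_zero fun l' _ => ?_
      by_cases hil : l = l'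
      · rw [if_pos hil, zero_smul]
      · rw [if_neg hil, mul_smul, mul_smul, h''.e_ne hl, smul_zero, smul_zero]
    · intro h
      exact absurd (Finset.mem_univ i) h
  rw [sub_smul, sub_eq_iff_eq_add, mul_smul, mul_smul, mul_smul, mul_smul] at hb
  rw [hb, add_comm]

theorem braid_eq {k : ℕ} {i j l : I} {v : M} (h : Col D k i v) (h' : Col D (k + 1) j v)
    (h'' : Col D (k + 2) l v) (hij : i = j ∨ i ≠ l) :
    D.t (k + 1) • D.t k • D.t (k + 1) • v = D.t k • D.t (k + 1) • D.t k • v := by
  have hb : (D.t (k + 1) * D.t k * D.t (k + 1) - D.t k * D.t (k + 1) * D.t k) • v = 0 := by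
    rw [D.t_braid, Finset.sum_smul]
    refine Finset.sum_eq_zero fun a _ => ?_
    rw [Finset.sum_smul]
    refine Finset.sum_eq_zero fun b _ => ?_
    by_cases hab : a = b
    · rw [if_pos hab, zero_smul]
    · rw [if_neg hab, mul_smul, mul_smul]
      by_cases hal : a = l
      · rw [hal, h'', mul_smul]
        by_cases hbj : b = j
        · rw [hbj, h']
          have hli : l ≠ i := by
            rcases hij with h1 | h1
            · rw [h1]
              exact fun hh => hab (hal.trans (hh.trans hbj.symm))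
            · exact Ne.symm h1
          rw [h.e_ne hli, smul_zero]
        · rw [h'.e_ne hbj, smul_zero, smul_zero]
      · rw [h''.e_ne hal, smul_zero, smul_zero]
  rw [sub_smul, sub_eq_zero, mul_smul, mul_smul, mul_smul, mul_smul] at hb
  exact hb

end col

end Pool.Agent.KLS

end

section

/-! MP_e487d8_al, RMAT block: the intertwiners `phi k`. -/

set_option autoImplicit false

namespace Pool.Agent.KLS

variable {K I : Type} [Field K] [Fintype I] [DecidableEq I]

namespace Datum

variable (D : Datum K I)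

/-- the intertwiner -/
noncomputable def phi (k : ℕ) : KLRAlg D :=
  D.t k * (1 - D.dl k) + (D.t k * (D.x k - D.x (k + 1)) + 1) * D.dl k

/-- the square of the intertwiner -/
noncomputable def QQ (k l : ℕ) : KLRAlg D :=
  ∑ i, ∑ j, (if i = j then 1 else D.QE i j (D.x k) (D.x l)) * (D.e k i * D.e l j)

theorem dl_E (k : ℕ) : D.dl k * D.E k = D.dl k := by
  unfold dl
  rw [Finset.sum_mul]
  refine Finset.sum_congr rfl fun i _ => ?_
  rw [mul_assoc, ← D.E_comm, ← mul_assoc, D.e_E]

theorem dl_E' (k : ℕ) : D.dl k * D.E (k + 1) = D.dl k := by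
  unfold dl
  rw [Finset.sum_mul]
  refine Finset.sum_congr rfl fun i _ => ?_
  rw [mul_assoc, D.e_E]

theorem phi_E (k : ℕ) : D.phi k * D.E k = D.phi k := by
  unfold phi
  rw [add_mul, mul_assoc _ (1 - D.dl k), mul_assoc _ (D.dl k), sub_mul, one_mul, D.dl_E,
    mul_sub, D.t_E, mul_sub (D.t k) 1, mul_one]

theorem phi_E' (k : ℕ) : D.phi k * D.E (k + 1) = D.phi k := by
  unfold phi
  rw [add_mul, mul_assoc _ (1 - D.dl k), mul_assoc _ (D.dl k), sub_mul, one_mul, D.dl_E',
    mul_sub, D.t_E', mul_sub (D.t k) 1, mul_one]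

theorem QQ_E (k l : ℕ) : D.QQ k l * D.E k = D.QQ k l := by
  unfold QQ
  rw [Finset.sum_mul]
  refine Finset.sum_congr rfl fun i _ => ?_
  rw [Finset.sum_mul]
  refine Finset.sum_congr rfl fun j _ => ?_
  rw [mul_assoc, mul_assoc (D.e k i), ← D.E_comm, ← mul_assoc (D.e k i), D.e_E]

theorem QQ_E' (k l : ℕ) : D.QQ k l * D.E l = D.QQ k l := by
  unfold QQ
  rw [Finset.sum_mul]
  refine Finset.sum_congr rfl fun i _ => ?_
  rw [Finset.sum_mul]
  refine Finset.sum_congr rfl fun j _ => ?_
  rw [mul_assoc, mul_assoc (D.e k i), D.e_E]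

end Datum

section vec

variable {D : Datum K I} {M : Type*} [AddCommGroup M] [Module (KLRAlg D) M]

theorem phi_ne {k : ℕ} {i j : I} {v : M} (h : Col D k i v) (h' : Col D (k + 1) j v)
    (hij : i ≠ j) : D.phi k • v = D.t k • v := by
  rw [Datum.phi, add_smul, mul_smul, mul_smul, dl_ne h h' hij, smul_zero, add_zero, sub_smul,
    dl_ne h h' hij, sub_zero, one_smul]

theorem phi_eq {k : ℕ} {i : I} {v : M} (h : Col D k i v) (h' : Col D (k + 1) i v) :
    D.phi k • v = D.t k • D.x k • v - D.t k • D.x (k + 1) • v + v := by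
  rw [Datum.phi, add_smul, mul_smul, mul_smul, dl_eq h h', sub_smul, dl_eq h h', one_smul,
    sub_self, smul_zero, zero_add, add_smul, one_smul, mul_smul, sub_smul, smul_sub]

theorem QQ_ne {k l : ℕ} {i j : I} {v : M} (h : Col D k i v) (h' : Col D l j v)
    (hij : i ≠ j) : D.QQ k l • v = D.QE i j (D.x k) (D.x l) • v := by
  rw [Datum.QQ, Finset.sum_smul, Finset.sum_eq_single i]
  · rw [Finset.sum_smul, Finset.sum_eq_single j]
    · rw [if_neg hij, mul_smul, mul_smul, h', h]
    · intro a _ ha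
      rw [mul_smul, mul_smul, h'.e_ne ha, smul_zero, smul_zero]
    · intro h
      exact absurd (Finset.mem_univ j) h
  · intro a _ ha
    rw [Finset.sum_smul]
    refine Finset.sum_eq_zero fun b _ => ?_
    rw [mul_smul, D.e_comm, mul_smul, h.e_ne ha, smul_zero, smul_zero]
  · intro h
    exact absurd (Finset.mem_univ i) h

theorem QQ_eq {k l : ℕ} {i : I} {v : M} (h : Col D k i v) (h' : Col D l i v) :
    D.QQ k l • v = v := by
  rw [Datum.QQ, Finset.sum_smul, Finset.sum_eq_single i]
  · rw [Finset.sum_smul, Finset.sum_eq_single i]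
    · rw [if_pos rfl, one_mul, mul_smul, h', h]
    · intro a _ ha
      rw [mul_smul, mul_smul, h'.e_ne ha, smul_zero, smul_zero]
    · intro h
      exact absurd (Finset.mem_univ i) h
  · intro a _ ha
    rw [Finset.sum_smul]
    refine Finset.sum_eq_zero fun b _ => ?_
    rw [mul_smul, D.e_comm, mul_smul, h.e_ne ha, smul_zero, smul_zero]
  · intro h
    exact absurd (Finset.mem_univ i) h

/-- two elements of the algebra which agree on coloured vectors (two strands) are equal -/
theorem ext_col2 {a b : KLRAlg D} {k l : ℕ} (ha : a * D.E k = a) (ha' : a * D.E l = a)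
    (hb : b * D.E k = b) (hb' : b * D.E l = b)
    (h : ∀ (i j : I) (v : KLRAlg D), Col D k i v → Col D l j v → a * v = b * v) : a = b := by
  have hc : ∀ c : KLRAlg D, c * D.E k = c → c * D.E l = c →
      c = ∑ i, ∑ j, c * (D.e k i * D.e l j) := by
    intro c h1 h2
    calc c = c * (D.E k * D.E l) := by rw [← mul_assoc, h1, h2]
      _ = _ := by
        rw [Datum.E, Datum.E, Finset.sum_mul, Finset.mul_sum]
        refine Finset.sum_congr rfl fun i _ => ?_
        rw [Finset.mul_sum, Finset.mul_sum]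
  rw [hc a ha ha', hc b hb hb']
  refine Finset.sum_congr rfl fun i _ => Finset.sum_congr rfl fun j _ => ?_
  refine h i j _ ?_ ?_
  · rw [Col, smul_eq_mul, ← mul_assoc, D.e_idem]
  · rw [Col, smul_eq_mul, ← mul_assoc, D.e_comm, mul_assoc, D.e_idem]

/-- two elements of the algebra which agree on coloured vectors (three strands) are equal -/
theorem ext_col3 {a b : KLRAlg D} {k l m : ℕ} (ha : a * D.E k = a) (ha' : a * D.E l = a)
    (ha'' : a * D.E m = a) (hb : b * D.E k = b) (hb' : b * D.E l = b) (hb'' : b * D.E m = b)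
    (h : ∀ (i j r : I) (v : KLRAlg D), Col D k i v → Col D l j v → Col D m r v →
      a * v = b * v) : a = b := by
  have hc : ∀ c : KLRAlg D, c * D.E m = c → c = ∑ r, c * D.e m r := by
    intro c h1
    rw [← Finset.mul_sum]
    exact h1.symm
  rw [hc a ha'', hc b hb'']
  refine Finset.sum_congr rfl fun r _ => ?_
  have hE : ∀ (c : KLRAlg D) (n : ℕ), c * D.E n = c → c * D.e m r * D.E n = c * D.e m r := by
    intro c n hn
    rw [mul_assoc, ← D.E_comm, ← mul_assoc, hn]
  refine ext_col2 (k := k) (l := l) (hE a k ha) (hE a l ha') (hE b k hb) (hE b l hb') ?_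
  intro i j v hi hj
  rw [mul_assoc, mul_assoc]
  refine h i j r _ ?_ ?_ ?_
  · rw [Col, smul_eq_mul, ← mul_assoc, D.e_comm, mul_assoc]
    rw [Col, smul_eq_mul] at hi
    rw [hi]
  · rw [Col, smul_eq_mul, ← mul_assoc, D.e_comm, mul_assoc]
    rw [Col, smul_eq_mul] at hj
    rw [hj]
  · rw [Col, smul_eq_mul, ← mul_assoc, D.e_idem]

theorem Col.phi0 {k : ℕ} {i j : I} {v : M} (h : Col D k i v) (h' : Col D (k + 1) j v) :
    Col D (k + 1) i (D.phi k • v) := by
  by_cases hij : i = j
  · subst hij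
    rw [phi_eq h h']
    exact (((h.x k).t0).sub ((h.x (k + 1)).t0)).add h'
  · rw [phi_ne h h' hij]
    exact h.t0

theorem Col.phi1 {k : ℕ} {i j : I} {v : M} (h : Col D k i v) (h' : Col D (k + 1) j v) :
    Col D k j (D.phi k • v) := by
  by_cases hij : i = j
  · subst hij
    rw [phi_eq h h']
    exact (((h'.x k).t1).sub ((h'.x (k + 1)).t1)).add h
  · rw [phi_ne h h' hij]
    exact h'.t1

theorem phi_x0_smul {k : ℕ} {i j : I} {v : M} (h : Col D k i v) (h' : Col D (k + 1) j v) :
    D.phi k • D.x k • v = D.x (k + 1) • D.phi k • v := by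
  by_cases hij : i = j
  · subst hij
    rw [phi_eq h h', phi_eq (h.x k) (h'.x k), smul_add, smul_sub, tx0_eq (h.x k) (h'.x k),
      tx0_eq (h.x (k + 1)) (h'.x (k + 1)), xx_smul k (k + 1)]
    abel
  · rw [phi_ne h h' hij, phi_ne (h.x k) (h'.x k) hij, tx0_ne h h' hij]

theorem phi_x1_smul {k : ℕ} {i j : I} {v : M} (h : Col D k i v) (h' : Col D (k + 1) j v) :
    D.phi k • D.x (k + 1) • v = D.x k • D.phi k • v := by
  by_cases hij : i = j
  · subst hij
    rw [phi_eq h h', phi_eq (h.x (k + 1)) (h'.x (k + 1)), smul_add, smul_sub,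
      tx1_eq (h.x k) (h'.x k), tx1_eq (h.x (k + 1)) (h'.x (k + 1)), xx_smul k (k + 1)]
    abel
  · rw [phi_ne h h' hij, phi_ne (h.x (k + 1)) (h'.x (k + 1)) hij, tx1_ne h h' hij]

theorem phi_phi_smul {k : ℕ} {i j : I} {v : M} (h : Col D k i v) (h' : Col D (k + 1) j v) :
    D.phi k • D.phi k • v = D.QQ k (k + 1) • v := by
  by_cases hij : i = j
  · subst hij
    rw [QQ_eq h h', phi_eq (h.phi0 h' |> fun _ => h.phi1 h') (h.phi0 h'),
      ← phi_x1_smul h h', ← phi_x0_smul h h', phi_eq (h.x (k + 1)) (h'.x (k + 1)),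
      phi_eq (h.x k) (h'.x k), phi_eq h h']
    simp only [smul_add, smul_sub]
    rw [tt_eq ((h.x (k + 1)).x k) ((h'.x (k + 1)).x k),
      tt_eq ((h.x (k + 1)).x (k + 1)) ((h'.x (k + 1)).x (k + 1)),
      tt_eq ((h.x k).x k) ((h'.x k).x k), tt_eq ((h.x k).x (k + 1)) ((h'.x k).x (k + 1))]
    abel
  · rw [QQ_ne h h' hij, phi_ne h h' hij, phi_ne h'.t1 h.t0 (Ne.symm hij), tt_ne h h' hij]

end vec

end Pool.Agent.KLS

end
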