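import Mathlib
import Pool.Agent.Work.MP_e487d8_al.Bd.B01
import Pool.Agent.Work.MP_e487d8_al.Bd.B03
import Pool.Agent.Work.MP_e487d8_al.Y.Conv.Api

/-! Bundle of small proof modules (one section per former module). -/

section

/-! MP_e487d8_al, block Fin: shuffles of words, supports of shuffle products, iterated deletion of
a first letter. -/

set_option autoImplicit false

namespace Pool.Agent.E487.Hopf

variable {I : Type}

/-- `w` is a shuffle of `u` and `v` -/
inductive IsSh : List I → List I → List I → Prop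
  | nil : IsSh [] [] []
  | left {w u v : List I} (i : I) : IsSh w u v → IsSh (i :: w) (i :: u) v
  | right {w u v : List I} (i : I) : IsSh w u v → IsSh (i :: w) u (i :: v)

namespace IsSh

theorem symm {w u v : List I} (h : IsSh w u v) : IsSh w v u := by
  induction h with
  | nil => exact IsSh.nil
  | left i _ ih => exact ih.right i
  | right i _ ih => exact ih.left i

theorem nil_left (v : List I) : IsSh v [] v := by
  induction v with
  | nil => exact IsSh.nil
  | cons i v ih => exact ih.right i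

theorem append (u v : List I) : IsSh (u ++ v) u v := by
  induction u with
  | nil => exact nil_left v
  | cons i u ih => exact ih.left i

theorem count [DecidableEq I] {w u v : List I} (h : IsSh w u v) (i : I) :
    w.count i = u.count i + v.count i := by
  induction h with
  | nil => rfl
  | left j _ ih => rw [List.count_cons, List.count_cons, ih]; omega
  | right j _ ih => rw [List.count_cons, List.count_cons, ih]; omega

theorem length {w u v : List I} (h : IsSh w u v) : w.length = u.length + v.length := by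
  induction h with
  | nil => rfl
  | left j _ ih => rw [List.length_cons, List.length_cons, ih]; omega
  | right j _ ih => rw [List.length_cons, List.length_cons, ih]; omega

theorem of_nil {u v : List I} (h : IsSh [] u v) : u = [] ∧ v = [] := by
  cases h; exact ⟨rfl, rfl⟩

/-- shuffles which begin with `i^a` -/
theorem of_replicate (i : I) : ∀ (a : ℕ) {w u v : List I}, IsSh (List.replicate a i ++ w) u v →
    ∃ p q u' v', p + q = a ∧ u = List.replicate p i ++ u' ∧ v = List.replicate q i ++ v' ∧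
      IsSh w u' v' := by
  intro a
  induction a with
  | zero => intro w u v h; exact ⟨0, 0, u, v, rfl, rfl, rfl, h⟩
  | succ a ih =>
    intro w u v h
    rw [List.replicate_succ, List.cons_append] at h
    cases h with
    | left _ h =>
      obtain ⟨p, q, u', v', h1, h2, h3, h4⟩ := ih h
      exact ⟨p + 1, q, u', v', by omega, by rw [h2]; rfl, h3, h4⟩
    | right _ h =>
      obtain ⟨p, q, u', v', h1, h2, h3, h4⟩ := ih h
      exact ⟨p, q + 1, u', v', by omega, h2, by rw [h3]; rfl, h4⟩

/-- shuffles of reversed words -/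
theorem snoc_left {w u v : List I} (h : IsSh w u v) (i : I) : IsSh (w ++ [i]) (u ++ [i]) v := by
  induction h with
  | nil => exact IsSh.nil.left i
  | left j _ ih => exact ih.left j
  | right j _ ih => exact ih.right j

theorem snoc_right {w u v : List I} (h : IsSh w u v) (i : I) : IsSh (w ++ [i]) u (v ++ [i]) :=
  (h.symm.snoc_left i).symm

theorem reverse {w u v : List I} (h : IsSh w u v) : IsSh w.reverse u.reverse v.reverse := by
  induction h with
  | nil => exact IsSh.nil
  | left j _ ih => rw [List.reverse_cons, List.reverse_cons]; exact ih.snoc_left j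
  | right j _ ih => rw [List.reverse_cons, List.reverse_cons]; exact ih.snoc_right j

end IsSh

namespace Sh

theorem mul_nonneg {f g : Sh I ℚ} (hf : ∀ w, 0 ≤ f w) (hg : ∀ w, 0 ≤ g w) (w : List I) :
    0 ≤ (f * g) w := by
  induction w generalizing f g with
  | nil => rw [mul_nil]; exact _root_.mul_nonneg (hf _) (hg _)
  | cons i w ih =>
    rw [mul_cons]
    exact add_nonneg (ih (fun w => hf _) hg) (ih hf (fun w => hg _))

/-- lower bound from one shuffle -/
theorem le_mul {f g : Sh I ℚ} (hf : ∀ w, 0 ≤ f w) (hg : ∀ w, 0 ≤ g w) {w u v : List I}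
    (h : IsSh w u v) : f u * g v ≤ (f * g) w := by
  induction h generalizing f g with
  | nil => rw [mul_nil]
  | left i _ ih =>
    rw [mul_cons]
    have h1 := ih (f := L i f) (g := g) (fun w => hf _) hg
    have h2 := mul_nonneg (f := f) (g := L i g) hf (fun w => hg _)
    exact le_trans h1 (le_add_of_nonneg_right (h2 _))
  | right i _ ih =>
    rw [mul_cons]
    have h1 := ih (f := f) (g := L i g) hf (fun w => hg _)
    have h2 := mul_nonneg (f := L i f) (g := g) (fun w => hf _) hg
    exact le_trans h1 (le_add_of_nonneg_left (h2 _))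

theorem exists_sh_of_mul_ne {f g : Sh I ℚ} {w : List I} (h : (f * g) w ≠ 0) :
    ∃ u v, IsSh w u v ∧ f u ≠ 0 ∧ g v ≠ 0 := by
  induction w generalizing f g with
  | nil =>
    rw [mul_nil] at h
    exact ⟨[], [], IsSh.nil, left_ne_zero_of_mul h, right_ne_zero_of_mul h⟩
  | cons i w ih =>
    rw [mul_cons] at h
    rcases ne_or_eq ((L i f * g) w) 0 with h1 | h1
    · obtain ⟨u, v, h2, hu, hv⟩ := ih h1
      exact ⟨i :: u, v, h2.left i, hu, hv⟩
    · rw [h1, zero_add] at h
      obtain ⟨u, v, h2, hu, hv⟩ := ih h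
      exact ⟨u, i :: v, h2.right i, hu, hv⟩

theorem mul_ne_iff {f g : Sh I ℚ} (hf : ∀ w, 0 ≤ f w) (hg : ∀ w, 0 ≤ g w) {w : List I} :
    (f * g) w ≠ 0 ↔ ∃ u v, IsSh w u v ∧ f u ≠ 0 ∧ g v ≠ 0 := by
  refine ⟨exists_sh_of_mul_ne, ?_⟩
  rintro ⟨u, v, h1, h2, h3⟩
  have h4 := le_mul hf hg h1
  have h5 : 0 < f u * g v := mul_pos (lt_of_le_of_ne (hf u) (Ne.symm h2))
    (lt_of_le_of_ne (hg v) (Ne.symm h3))
  exact (lt_of_lt_of_le h5 h4).ne'

/-- `f ↦ f (i^a ++ ·)` -/
def Lp (i : I) (a : ℕ) (f : Sh I ℚ) : Sh I ℚ := fun w => f (List.replicate a i ++ w)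

theorem Lp_zero (i : I) (f : Sh I ℚ) : Lp i 0 f = f := rfl

theorem Lp_succ (i : I) (a : ℕ) (f : Sh I ℚ) : Lp i (a + 1) f = Lp i a (L i f) := by
  apply ext'
  intro w
  show f (List.replicate (a + 1) i ++ w) = f (i :: (List.replicate a i ++ w))
  rw [List.replicate_succ, List.cons_append]

theorem Lp_add (i : I) (a : ℕ) (f g : Sh I ℚ) : Lp i a (f + g) = Lp i a f + Lp i a g := rfl

theorem Lp_of_L_zero {i : I} {f : Sh I ℚ} (h : L i f = 0) (a : ℕ) (g : Sh I ℚ) :
    Lp i a (f * g) = f * Lp i a g := by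
  induction a generalizing g with
  | zero => rfl
  | succ a ih => rw [Lp_succ, L_mul, h, zero_mul, zero_add, ih, Lp_succ]

/-- the top coefficient of a product -/
theorem Lp_mul (i : I) : ∀ (n a b : ℕ) (f g : Sh I ℚ), a + b = n → Lp i (a + 1) f = 0 →
    Lp i (b + 1) g = 0 → Lp i n (f * g) = (n.choose a : ℚ) • (Lp i a f * Lp i b g) := by
  intro n
  induction n with
  | zero =>
    intro a b f g hab _ _
    have ha : a = 0 := by omega
    have hb : b = 0 := by omega
    subst ha hb
    rw [Lp_zero, Lp_zero, Lp_zero]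
    simp
  | succ n ih =>
    intro a b f g hab hf hg
    rcases Nat.eq_zero_or_pos a with ha | ha
    · subst ha
      have hb : b = n + 1 := by omega
      subst hb
      rw [Lp_of_L_zero (by rw [zero_add, Lp_succ, Lp_zero] at hf; exact hf), Lp_zero,
        Nat.choose_zero_right, Nat.cast_one, one_smul]
    · rcases Nat.eq_zero_or_pos b with hb | hb
      · subst hb
        have ha : a = n + 1 := by omega
        subst ha
        rw [mul_comm f g, Lp_of_L_zero (by rw [zero_add, Lp_succ, Lp_zero] at hg; exact hg),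
          Lp_zero, Nat.choose_self, Nat.cast_one, one_smul, mul_comm]
      · obtain ⟨a, rfl⟩ : ∃ a', a = a' + 1 := ⟨a - 1, by omega⟩
        obtain ⟨b, rfl⟩ : ∃ b', b = b' + 1 := ⟨b - 1, by omega⟩
        rw [Lp_succ, L_mul, Lp_add, ih a (b + 1) (L i f) g (by omega) (by rw [← Lp_succ]; exact hf)
          hg, ih (a + 1) b f (L i g) (by omega) hf (by rw [← Lp_succ]; exact hg), ← Lp_succ,
          ← Lp_succ, ← add_smul, Nat.choose_succ_succ, Nat.cast_add]

end Sh

end Pool.Agent.E487.Hopf

end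

section

/-! MP_e487d8_al: the quantum shuffle algebra over the Laurent polynomials. `B` is the symmetric
form on the simple roots. -/

set_option autoImplicit false

open Pool.Agent.E487.Hopf

open scoped LaurentPolynomial

namespace Pool.Agent.KLS

/-- functions on words with values in the Laurent polynomials -/
def QSh {I : Type} (_B : I → I → ℤ) : Type := List I → ℤ[T;T⁻¹]

namespace QSh

variable {I : Type} {B : I → I → ℤ}

noncomputable instance : AddCommGroup (QSh B) := inferInstanceAs (AddCommGroup (List I → ℤ[T;T⁻¹]))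
noncomputable instance : Module ℤ[T;T⁻¹] (QSh B) :=
  inferInstanceAs (Module ℤ[T;T⁻¹] (List I → ℤ[T;T⁻¹]))

theorem ext' {f g : QSh B} (h : ∀ w, f w = g w) : f = g := funext h

@[simp] theorem add_apply (f g : QSh B) (w : List I) : (f + g) w = f w + g w := rfl
@[simp] theorem sub_apply (f g : QSh B) (w : List I) : (f - g) w = f w - g w := rfl
@[simp] theorem neg_apply (f : QSh B) (w : List I) : (-f) w = -(f w) := rfl
@[simp] theorem zero_apply (w : List I) : (0 : QSh B) w = 0 := rfl
@[simp] theorem smul_apply (c : ℤ[T;T⁻¹]) (f : QSh B) (w : List I) : (c • f) w = c * f w := rfl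

/-- the power `T^n` -/
noncomputable abbrev tt (n : ℤ) : ℤ[T;T⁻¹] := LaurentPolynomial.T n

theorem tt_add (m n : ℤ) : tt (m + n) = tt m * tt n := LaurentPolynomial.T_add m n

theorem tt_zero : tt 0 = 1 := LaurentPolynomial.T_zero

/-- `(i, ν)` -/
def bw (B : I → I → ℤ) (i : I) (ν : List I) : ℤ := (ν.map (B i)).sum

@[simp] theorem bw_nil (i : I) : bw B i [] = 0 := rfl

@[simp] theorem bw_cons (i j : I) (ν : List I) : bw B i (j :: ν) = B i j + bw B i ν := by
  simp [bw]

theorem bw_append (i : I) (μ ν : List I) : bw B i (μ ++ ν) = bw B i μ + bw B i ν := by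
  simp [bw]

theorem bw_reverse (i : I) (ν : List I) : bw B i ν.reverse = bw B i ν := by
  simp [bw, List.sum_reverse]

/-- deletion of the first letter -/
def L (i : I) : QSh B →ₗ[ℤ[T;T⁻¹]] QSh B where
  toFun f := fun w => f (i :: w)
  map_add' _ _ := rfl
  map_smul' _ _ := rfl

/-- deletion of the last letter -/
def R (i : I) : QSh B →ₗ[ℤ[T;T⁻¹]] QSh B where
  toFun f := fun w => f (w ++ [i])
  map_add' _ _ := rfl
  map_smul' _ _ := rfl

/-- the torus operator -/
noncomputable def Kk (i : I) : QSh B →ₗ[ℤ[T;T⁻¹]] QSh B where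
  toFun f := fun w => tt (-(bw B i w)) * f w
  map_add' f g := ext' fun w => by simp only [add_apply]; ring
  map_smul' c f := ext' fun w => by simp only [smul_apply, RingHom.id_apply]; ring

theorem L_apply (i : I) (f : QSh B) (w : List I) : L i f w = f (i :: w) := rfl
theorem R_apply (i : I) (f : QSh B) (w : List I) : R i f w = f (w ++ [i]) := rfl
theorem Kk_apply (i : I) (f : QSh B) (w : List I) : Kk i f w = tt (-(bw B i w)) * f w := rfl

theorem L_R (i j : I) (f : QSh B) : L i (R j f) = R j (L i f) := rfl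

theorem L_Kk (i j : I) (f : QSh B) : L j (Kk i f) = tt (-(B i j)) • Kk i (L j f) := by
  apply ext'
  intro w
  rw [L_apply, Kk_apply, smul_apply, Kk_apply, L_apply, bw_cons, neg_add, tt_add]
  ring

theorem R_Kk (i j : I) (f : QSh B) : R j (Kk i f) = tt (-(B i j)) • Kk i (R j f) := by
  apply ext'
  intro w
  rw [R_apply, Kk_apply, smul_apply, Kk_apply, R_apply, bw_append, neg_add, tt_add, bw_cons,
    bw_nil, add_zero]
  ring

theorem Kk_Kk (i j : I) (f : QSh B) : Kk i (Kk j f) = Kk j (Kk i f) := by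
  apply ext'
  intro w
  simp only [Kk_apply]
  ring

/-- the value of the quantum shuffle product -/
noncomputable def sm : List I → QSh B → QSh B → ℤ[T;T⁻¹]
  | [], f, g => f [] * g []
  | i :: w, f, g => sm w (L i f) g + sm w (Kk i f) (L i g)

theorem sm_add_left (w : List I) (f f' g : QSh B) : sm w (f + f') g = sm w f g + sm w f' g := by
  induction w generalizing f f' g with
  | nil => simp only [sm, add_apply]; ring
  | cons i w ih => simp only [sm, map_add, ih]; ring

theorem sm_add_right (w : List I) (f g g' : QSh B) : sm w f (g + g') = sm w f g + sm w f g' := by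
  induction w generalizing f g g' with
  | nil => simp only [sm, add_apply]; ring
  | cons i w ih => simp only [sm, map_add, ih]; ring

theorem sm_smul_left (w : List I) (c : ℤ[T;T⁻¹]) (f g : QSh B) :
    sm w (c • f) g = c * sm w f g := by
  induction w generalizing f g with
  | nil => simp only [sm, smul_apply]; ring
  | cons i w ih => simp only [sm, map_smul, ih]; ring

theorem sm_smul_right (w : List I) (c : ℤ[T;T⁻¹]) (f g : QSh B) :
    sm w f (c • g) = c * sm w f g := by
  induction w generalizing f g with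
  | nil => simp only [sm, smul_apply]; ring
  | cons i w ih => simp only [sm, map_smul, ih]; ring

theorem sm_zero_left (w : List I) (g : QSh B) : sm w 0 g = 0 := by
  have := sm_smul_left w 0 0 g
  simpa using this

theorem sm_zero_right (w : List I) (g : QSh B) : sm w g 0 = 0 := by
  have := sm_smul_right w 0 g 0
  simpa using this

noncomputable instance : Mul (QSh B) := ⟨fun f g => fun w => sm w f g⟩

theorem mul_apply (f g : QSh B) (w : List I) : (f * g) w = sm w f g := rfl

theorem mul_nil (f g : QSh B) : (f * g) [] = f [] * g [] := rfl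

theorem mul_cons (f g : QSh B) (i : I) (w : List I) :
    (f * g) (i :: w) = (L i f * g) w + (Kk i f * L i g) w := rfl

theorem L_mul (i : I) (f g : QSh B) : L i (f * g) = L i f * g + Kk i f * L i g := rfl

noncomputable instance : One (QSh B) := ⟨fun w => if w.isEmpty then 1 else 0⟩

theorem one_apply (w : List I) : (1 : QSh B) w = if w.isEmpty then 1 else 0 := rfl
theorem one_nil : (1 : QSh B) [] = 1 := rfl
theorem one_cons (i : I) (w : List I) : (1 : QSh B) (i :: w) = 0 := rfl
theorem L_one (i : I) : L i (1 : QSh B) = 0 := rfl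

theorem Kk_one (i : I) : Kk i (1 : QSh B) = 1 := by
  apply ext'
  intro w
  cases w with
  | nil => rw [Kk_apply, bw_nil, neg_zero, tt_zero, one_mul]
  | cons j w => rw [Kk_apply, one_cons, mul_zero]

theorem sm_one (w : List I) (g : QSh B) : sm w 1 g = g w := by
  induction w generalizing g with
  | nil => simp [sm, one_nil]
  | cons i w ih => simp only [sm, L_one, sm_zero_left, Kk_one, ih, zero_add]; rfl

theorem sm_one_right (w : List I) (g : QSh B) : sm w g 1 = g w := by
  induction w generalizing g with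
  | nil => simp [sm, one_nil]
  | cons i w ih => simp only [sm, L_one, sm_zero_right, ih, add_zero]; rfl

theorem sm_Kk (i : I) (w : List I) (f g : QSh B) :
    sm w (Kk i f) (Kk i g) = tt (-(bw B i w)) * sm w f g := by
  induction w generalizing f g with
  | nil => simp only [sm, Kk_apply, bw_nil, neg_zero, tt_zero]; ring
  | cons j w ih =>
    simp only [sm, L_Kk, sm_smul_left, sm_smul_right]
    rw [ih, Kk_Kk, ih, bw_cons, neg_add, tt_add]
    ring

theorem Kk_mul (i : I) (f g : QSh B) : Kk i (f * g) = Kk i f * Kk i g :=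
  ext' fun w => (sm_Kk i w f g).symm

theorem sm_assoc (w : List I) (f g h : QSh B) : sm w (f * g) h = sm w f (g * h) := by
  induction w generalizing f g h with
  | nil => simp only [sm, mul_nil]; ring
  | cons i w ih =>
    simp only [sm, L_mul, sm_add_left, sm_add_right, Kk_mul, ih]
    ring

noncomputable instance : Ring (QSh B) :=
  { (inferInstance : AddCommGroup (QSh B)) with
    mul := (· * ·)
    one := 1
    mul_assoc := fun f g h => ext' fun w => sm_assoc w f g h
    one_mul := fun f => ext' fun w => sm_one w f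
    mul_one := fun f => ext' fun w => sm_one_right w f
    left_distrib := fun f g h => ext' fun w => sm_add_right w f g h
    right_distrib := fun f g h => ext' fun w => sm_add_left w f g h
    zero_mul := fun f => ext' fun w => sm_zero_left w f
    mul_zero := fun f => ext' fun w => sm_zero_right w f
    natCast := fun n => n • (1 : QSh B)
    natCast_zero := zero_smul ℕ (1 : QSh B)
    natCast_succ := fun n => by
      change (n + 1) • (1 : QSh B) = n • (1 : QSh B) + 1
      rw [add_smul, one_smul]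
    intCast := fun n => n • (1 : QSh B)
    intCast_ofNat := fun n => by
      change (n : ℤ) • (1 : QSh B) = n • (1 : QSh B)
      rw [natCast_zsmul]
    intCast_negSucc := fun n => by
      change Int.negSucc n • (1 : QSh B) = -((n + 1) • (1 : QSh B))
      rw [negSucc_zsmul] }

noncomputable instance : Algebra ℤ[T;T⁻¹] (QSh B) :=
  Algebra.ofModule (fun c f g => ext' fun w => sm_smul_left w c f g)
    (fun c f g => ext' fun w => sm_smul_right w c f g)

theorem R_mul (hB : ∀ i j, B i j = B j i) (j : I) (f g : QSh B) :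
    R j (f * g) = f * R j g + R j f * Kk j g := by
  apply ext'
  intro w
  induction w generalizing f g with
  | nil =>
    change sm [j] f g = sm [] f (R j g) + sm [] (R j f) (Kk j g)
    simp only [sm, Kk_apply, bw_nil, neg_zero, tt_zero, one_mul]
    change f [j] * g [] + f [] * g [j] = f [] * g [j] + f [j] * g []
    ring
  | cons i w ih =>
    have h1 := ih (L i f) g
    have h2 := ih (Kk i f) (L i g)
    have e : R j (f * g) (i :: w) = R j (L i f * g) w + R j (Kk i f * L i g) w := rfl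
    rw [e, h1, h2, add_apply, add_apply, add_apply, mul_cons, mul_cons, L_R, L_R, R_Kk, L_Kk,
      smul_mul_assoc, mul_smul_comm, hB i j]
    ring

/-! ### reversal -/

/-- reversal of all words -/
def rv : QSh B →ₗ[ℤ[T;T⁻¹]] QSh B where
  toFun f := fun w => f w.reverse
  map_add' _ _ := rfl
  map_smul' _ _ := rfl

theorem rv_apply (f : QSh B) (w : List I) : rv f w = f w.reverse := rfl

theorem rv_rv (f : QSh B) : rv (rv f) = f := by
  apply ext'
  intro w
  rw [rv_apply, rv_apply, List.reverse_reverse]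

theorem L_rv (i : I) (f : QSh B) : L i (rv f) = rv (R i f) := by
  apply ext'
  intro w
  rw [L_apply, rv_apply, rv_apply, R_apply, List.reverse_cons]

theorem Kk_rv (i : I) (f : QSh B) : Kk i (rv f) = rv (Kk i f) := by
  apply ext'
  intro w
  rw [Kk_apply, rv_apply, rv_apply, Kk_apply, bw_reverse]

theorem rv_mul (hB : ∀ i j, B i j = B j i) (f g : QSh B) : rv (f * g) = rv g * rv f := by
  apply ext'
  intro w
  induction w generalizing f g with
  | nil =>
    change sm [] f g = sm [] (rv g) (rv f)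
    simp only [sm, rv_apply, List.reverse_nil]
    ring
  | cons i w ih =>
    have e : rv (f * g) (i :: w) = rv (R i (f * g)) w := by
      rw [← L_rv, L_apply]
    rw [e, R_mul hB, map_add, add_apply, ih, ih, mul_cons, L_rv, L_rv, Kk_rv]

/-! ### evaluation at `T = 1` -/

/-- `T = 1` -/
noncomputable def ev1 : ℤ[T;T⁻¹] →+* ℚ :=
  LaurentPolynomial.eval₂ (Int.castRingHom ℚ) 1

theorem ev1_tt (n : ℤ) : ev1 (tt n) = 1 := by
  simp [ev1]

/-- `T = 1` -/
noncomputable def ev : QSh B →+* Sh I ℚ where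
  toFun f := fun w => ev1 (f w)
  map_zero' := Sh.ext' fun w => by rw [zero_apply, map_zero]; rfl
  map_one' := Sh.ext' fun w => by
    cases w with
    | nil => rw [one_nil, map_one]; rfl
    | cons i w => rw [one_cons, map_zero]; rfl
  map_add' f g := Sh.ext' fun w => by rw [add_apply, map_add]; rfl
  map_mul' f g := Sh.ext' fun w => by
    induction w generalizing f g with
    | nil => rw [mul_nil, map_mul]; rfl
    | cons i w ih =>
      have h1 : (fun w => ev1 (Kk i f w) : Sh I ℚ) = fun w => ev1 (f w) := by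
        apply Sh.ext'
        intro w
        change ev1 (Kk i f w) = ev1 (f w)
        rw [Kk_apply, map_mul, ev1_tt, one_mul]
      rw [mul_cons, map_add, ih, ih, Sh.mul_cons, h1]
      rfl

theorem ev_apply (f : QSh B) (w : List I) : ev f w = ev1 (f w) := rfl

theorem ev_smul (c : ℤ[T;T⁻¹]) (f : QSh B) : ev (c • f) = ev1 c • ev f :=
  Sh.ext' fun w => by rw [ev_apply, smul_apply, map_mul]; rfl

/-! ### powers of `L i` -/

/-- quantum integers -/
noncomputable def qn (z : ℤ[T;T⁻¹]) (n : ℕ) : ℤ[T;T⁻¹] := ∑ k ∈ Finset.range n, z ^ k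

/-- quantum factorials -/
noncomputable def qf (z : ℤ[T;T⁻¹]) : ℕ → ℤ[T;T⁻¹]
  | 0 => 1
  | n + 1 => qn z (n + 1) * qf z n

theorem qn_succ (z : ℤ[T;T⁻¹]) (n : ℕ) : qn z (n + 1) = qn z n + z ^ n :=
  Finset.sum_range_succ _ _

theorem qn_add (z : ℤ[T;T⁻¹]) (m n : ℕ) : qn z (m + n) = qn z m + z ^ m * qn z n := by
  induction n with
  | zero => simp [qn]
  | succ n ih => rw [← add_assoc, qn_succ, ih, qn_succ, pow_add]; ring

/-- the Gauss binomial coefficient -/
noncomputable def gc (z : ℤ[T;T⁻¹]) : ℕ → ℕ → ℤ[T;T⁻¹]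
  | 0, _ => 1
  | _ + 1, 0 => 1
  | p + 1, q + 1 => z ^ (q + 1) * gc z p (q + 1) + gc z (p + 1) q

theorem gc_zero_left (z : ℤ[T;T⁻¹]) (q : ℕ) : gc z 0 q = 1 := by rw [gc]

theorem gc_zero_right (z : ℤ[T;T⁻¹]) (p : ℕ) : gc z p 0 = 1 := by
  cases p <;> rw [gc]

theorem gc_succ (z : ℤ[T;T⁻¹]) (p q : ℕ) :
    gc z (p + 1) (q + 1) = z ^ (q + 1) * gc z p (q + 1) + gc z (p + 1) q := by rw [gc]

theorem gc_qf (z : ℤ[T;T⁻¹]) : ∀ n p q : ℕ, p + q = n → gc z p q * (qf z p * qf z q) = qf z n := by
  intro n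
  induction n with
  | zero =>
    intro p q h
    obtain ⟨rfl, rfl⟩ : p = 0 ∧ q = 0 := by omega
    rw [gc_zero_left, qf]; ring
  | succ n ih =>
    intro p q h
    cases p with
    | zero =>
      obtain rfl : q = n + 1 := by omega
      rw [gc_zero_left, qf]; simp
    | succ p =>
      cases q with
      | zero =>
        obtain rfl : p = n := by omega
        rw [gc_zero_right]
        simp [qf]
      | succ q =>
        have h1 := ih p (q + 1) (by omega)
        have h2 := ih (p + 1) q (by omega)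
        have h3 : qn z (n + 1) = qn z (q + 1) + z ^ (q + 1) * qn z (p + 1) := by
          rw [← qn_add]; congr 1; omega
        rw [gc_succ]
        have e1 : qf z (p + 1) = qn z (p + 1) * qf z p := rfl
        have e2 : qf z (q + 1) = qn z (q + 1) * qf z q := rfl
        have e3 : qf z (n + 1) = qn z (n + 1) * qf z n := rfl
        calc (z ^ (q + 1) * gc z p (q + 1) + gc z (p + 1) q) * (qf z (p + 1) * qf z (q + 1))
            = z ^ (q + 1) * qn z (p + 1) * (gc z p (q + 1) * (qf z p * qf z (q + 1))) +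
              qn z (q + 1) * (gc z (p + 1) q * (qf z (p + 1) * qf z q)) := by
                rw [e1, e2]; ring
          _ = qf z (n + 1) := by rw [h1, h2, e3, h3]; ring

theorem ev1_qn (n m : ℕ) (z : ℤ[T;T⁻¹]) (hz : ev1 z = 1) : ev1 (qn z n) = n := by
  unfold qn
  rw [map_sum]
  simp [hz]

theorem qf_ne (z : ℤ[T;T⁻¹]) (hz : ev1 z = 1) (n : ℕ) : qf z n ≠ 0 := by
  have h : ev1 (qf z n) = (n.factorial : ℚ) := by
    induction n with
    | zero => rw [qf, map_one]; simp
    | succ n ih =>
      rw [qf, map_mul, ih, ev1_qn (n + 1) 0 z hz, Nat.factorial_succ]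
      push_cast; ring
  intro h0
  rw [h0, map_zero] at h
  exact Nat.cast_ne_zero.2 (Nat.factorial_ne_zero n) h.symm

theorem gc_ne (z : ℤ[T;T⁻¹]) (hz : ev1 z = 1) (p q : ℕ) : gc z p q ≠ 0 := by
  intro h
  have h1 := gc_qf z (p + q) p q rfl
  rw [h, zero_mul] at h1
  exact qf_ne z hz _ h1.symm

theorem gc_symm (z : ℤ[T;T⁻¹]) (hz : ev1 z = 1) (p q : ℕ) : gc z p q = gc z q p := by
  have h1 := gc_qf z (p + q) p q rfl
  have h2 := gc_qf z (p + q) q p (add_comm q p)
  rw [← h2, mul_comm (qf z q)] at h1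
  exact mul_right_cancel₀ (mul_ne_zero (qf_ne z hz p) (qf_ne z hz q)) h1

theorem L_Kk_pow (i : I) (q : ℕ) (f : QSh B) :
    L i ((Kk i ^ q) f) = tt (-(B i i)) ^ q • (Kk i ^ q) (L i f) := by
  induction q generalizing f with
  | zero => simp
  | succ q ih =>
    rw [pow_succ, Module.End.mul_apply, ih, L_Kk, map_smul, smul_smul, Module.End.mul_apply,
      pow_succ]

/-- the quantum Leibniz rule -/
theorem L_pow_mul (i : I) (n : ℕ) (f g : QSh B) : (L i ^ n) (f * g) =
    ∑ k ∈ Finset.range (n + 1), gc (tt (-(B i i))) k (n - k) •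
      (((Kk i ^ (n - k)) ((L i ^ k) f)) * ((L i ^ (n - k)) g)) := by
  induction n with
  | zero => simp [gc_zero_left]
  | succ n ih =>
    rw [pow_succ', Module.End.mul_apply, ih, map_sum]
    set z := tt (-(B i i)) with hz
    have h1 : ∀ k : ℕ, L i (gc z k (n - k) •
        (((Kk i ^ (n - k)) ((L i ^ k) f)) * ((L i ^ (n - k)) g))) =
        (z ^ (n - k) * gc z k (n - k)) •
          (((Kk i ^ (n - k)) ((L i ^ (k + 1)) f)) * ((L i ^ (n - k)) g)) +
        gc z k (n - k) •
          (((Kk i ^ (n - k + 1)) ((L i ^ k) f)) * ((L i ^ (n - k + 1)) g)) := by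
      intro k
      rw [map_smul, L_mul, L_Kk_pow, smul_add, smul_mul_assoc, smul_smul,
        mul_comm (gc z k (n - k)), pow_succ' (L i) k, Module.End.mul_apply,
        pow_succ' (Kk i) (n - k), Module.End.mul_apply, pow_succ' (L i) (n - k),
        Module.End.mul_apply]
    rw [Finset.sum_congr rfl fun k _ => h1 k, Finset.sum_add_distrib]
    rw [Finset.sum_range_succ' (fun k => gc z k (n + 1 - k) •
      ((Kk i ^ (n + 1 - k)) ((L i ^ k) f) * (L i ^ (n + 1 - k)) g)) (n + 1)]
    rw [Finset.sum_range_succ' (fun k => gc z k (n - k) •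
      ((Kk i ^ (n - k + 1)) ((L i ^ k) f) * (L i ^ (n - k + 1)) g)) n]
    rw [Finset.sum_range_succ (fun k => (z ^ (n - k) * gc z k (n - k)) •
      ((Kk i ^ (n - k)) ((L i ^ (k + 1)) f) * (L i ^ (n - k)) g)) n]
    rw [Finset.sum_range_succ (fun k => gc z (k + 1) (n + 1 - (k + 1)) •
      ((Kk i ^ (n + 1 - (k + 1))) ((L i ^ (k + 1)) f) * (L i ^ (n + 1 - (k + 1))) g)) n]
    have h2 : ∀ k ∈ Finset.range n, gc z (k + 1) (n + 1 - (k + 1)) •
        ((Kk i ^ (n + 1 - (k + 1))) ((L i ^ (k + 1)) f) * (L i ^ (n + 1 - (k + 1))) g) =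
        (z ^ (n - k) * gc z k (n - k)) •
          ((Kk i ^ (n - k)) ((L i ^ (k + 1)) f) * (L i ^ (n - k)) g) +
        gc z (k + 1) (n - (k + 1)) •
          ((Kk i ^ (n - (k + 1) + 1)) ((L i ^ (k + 1)) f) * (L i ^ (n - (k + 1) + 1)) g) := by
      intro k hk
      have hk' : k < n := Finset.mem_range.1 hk
      obtain ⟨m, hm⟩ : ∃ m, n = k + 1 + m := ⟨n - (k + 1), by omega⟩
      have e1 : n + 1 - (k + 1) = m + 1 := by omega
      have e2 : n - k = m + 1 := by omega
      have e3 : n - (k + 1) = m := by omega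
      rw [e1, e2, e3, ← add_smul, gc_succ]
    rw [Finset.sum_congr rfl h2, Finset.sum_add_distrib]
    have e4 : n + 1 - (n + 1) = 0 := by omega
    have e5 : n - n = 0 := by omega
    have e6 : n + 1 - 0 = n + 1 := by omega
    have e7 : n - 0 + 1 = n + 1 := by omega
    have e8 : n - 0 = n := by omega
    rw [e4, e5, e6, e7, e8]
    simp only [gc_zero_left, gc_zero_right, pow_zero, one_mul, one_smul, Module.End.one_apply]
    abel

/-- the top term -/
theorem L_pow_mul_top (i : I) {b c : ℕ} {f g : QSh B} (hf : ∀ n, b < n → (L i ^ n) f = 0)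
    (hg : ∀ n, c < n → (L i ^ n) g = 0) : (L i ^ (b + c)) (f * g) =
    gc (tt (-(B i i))) b c • (((Kk i ^ c) ((L i ^ b) f)) * ((L i ^ c) g)) := by
  rw [L_pow_mul, Finset.sum_eq_single b]
  · rw [Nat.add_sub_cancel_left]
  · intro k hk hne
    have hk' := Finset.mem_range.1 hk
    by_cases hp : b < k
    · rw [hf k hp, map_zero, zero_mul, smul_zero]
    · rw [hg (b + c - k) (by omega), mul_zero, smul_zero]
  · intro h
    exact absurd (Finset.mem_range.2 (by omega)) h

end QSh

end Pool.Agent.KLS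

end

section

/-! MP_e487d8_al, abstract part: from bounded length for `E_i C` to `PDag C` (notes 2394 section 3
and 2412 (S1)): statements. -/

set_option autoImplicit false

namespace Pool.Agent.KLSAbs

open scoped LaurentPolynomial

variable {I S O K : Type} [DecidableEq I] [CommRing O] [Algebra ℚ O] [Ring K]
  [Algebra ℤ[T;T⁻¹] K]

namespace Sys2

variable (s : Sys2 I S O K)

/-- `ph x = ∑ σ^n chi (e_i^(n) x)` -/
def IsPh (i : I) (σ : ℚ) (ph : O →ₐ[ℚ] ℚ) : Prop := ∀ (x : O) (N : ℕ), (s.de i ^ N) x = 0 →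
  ph x = ∑ n ∈ Finset.range N, σ ^ n * s.chi ((s.de i ^ n) x) / (n.factorial : ℚ)

/-- PH: the mass functionals exist -/
def St_PH : Prop := ∀ (i : I) (σ : ℚ), ∃ ph, s.IsPh i σ ph

/-- PHP: they are positive -/
def St_PHP : Prop := ∀ (i : I) (σ : ℚ) (ph : O →ₐ[ℚ] ℚ), 0 ≤ σ → s.IsPh i σ ph →
  (∀ x, s.Ps x → 0 ≤ ph x) ∧ (∀ X, 0 < ph (s.b X)) ∧
  ∀ X, s.eps i X = 0 → ph (s.b X) = s.chi (s.b X)

/-- LB1: `ph (f_i^(m+1) k) ≥ σ ph (f_i^m k)` -/
def St_LB1 : Prop := ∀ (i : I) (σ : ℚ) (ph : O →ₐ[ℚ] ℚ), 0 ≤ σ → s.IsPh i σ ph →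
  ∀ (F F' : S) (m : ℕ), s.eps i F = m → s.eps i F' = m + 1 → s.E i F' = s.E i F →
  σ * ph (s.b F) ≤ ph (s.b F')

/-- GI: some `f_i^a y` commutes with `L(i)` -/
def St_GI : Prop := ∀ (i : I) (y : S), s.eps i y = 0 → ∃ (a : ℕ) (g : S), s.eps i g = a ∧
  s.E i g = y ∧ s.IC (s.lt i) g

/-- LBP: `ph (f_i^N (y ∘ k)) ≥ (1/2) chi(y) ph (f_i^N k)` for `σ` large -/
def St_LBP : Prop := ∀ (i : I) (y : S), s.eps i y = 0 → ∃ (a : ℕ) (σ₀ : ℚ), 1 ≤ σ₀ ∧
  ∀ (σ : ℚ) (ph : O →ₐ[ℚ] ℚ), σ₀ ≤ σ → s.IsPh i σ ph → ∀ (k yk F Y : S) (N : ℕ),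
  s.eps i k = 0 → s.b y * s.b k = s.b yk → a ≤ N → s.eps i F = N → s.E i F = k →
  s.eps i Y = N → s.E i Y = yk → s.chi (s.b y) * ph (s.b F) ≤ 2 * ph (s.b Y)

/-- DEF: the constituents of `e_i^(m) (C^n ∘ B)`, `m ≥ n ε_i(C)` -/
def St_DEF : Prop := ∀ (i : I) (C B : S), ∃ X : O, s.Ps X ∧ ∀ (n m : ℕ) (Z : S),
  s.eps i B ≤ n → n * s.eps i C ≤ m →
  s.Sp ((s.de i ^ m) (s.b C ^ n * s.b B)) Z →
  s.Sp (s.b (s.E i C) ^ (n - s.eps i B) * X) Z

/-- STS: the structure of `C^n ∘ G` for large `n` if the length is bounded -/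
def St_STS : Prop := ∀ C : S, PSR s.b C → s.ST C → ∀ G : S, ∃ (n₀ : ℕ) (Q : Finset S),
  (∀ X ∈ Q, PSC s.b C X) ∧ ∀ (n : ℕ) (Z : S), n₀ ≤ n → s.Sp (s.b C ^ n * s.b G) Z →
  ∃ X ∈ Q, s.b C ^ (n - n₀) * s.b X = s.b Z

/-- lower bounds for the quotients of `C^n ∘ B` -/
def ULB (i : I) (C : S) : Prop := ∀ B : S, ∃ σ₀ : ℚ, 1 ≤ σ₀ ∧ ∀ (σ : ℚ) (ph : O →ₐ[ℚ] ℚ),
  σ₀ ≤ σ → s.IsPh i σ ph → ∃ κ : ℚ, 0 < κ ∧ ∀ (n : ℕ) (T Y : S), s.b C ^ n = s.b T →
  s.Hd T B Y → κ * ph (s.b C) ^ n ≤ ph (s.b Y)

/-- YFORM: the quotients of `C^n ∘ B` are `f_i^(n a + u) (y ∘ C'^n')`, `y` in a finite set, `n - n'`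
bounded, `n` large -/
def St_YFORM : Prop := ∀ (i : I) (C B : S), PSR s.b C → 0 < s.eps i C → s.ST (s.E i C) →
  ∃ (n₀ : ℕ) (Q : Finset S), (∀ y ∈ Q, s.eps i y = 0) ∧ ∀ (n : ℕ) (T Y : S), n₀ ≤ n →
  s.b C ^ n = s.b T → s.Hd T B Y → ∃ (y k : S) (n' : ℕ), y ∈ Q ∧ n' ≤ n ∧ n ≤ n' + n₀ ∧
    s.b (s.E i C) ^ n' = s.b k ∧ s.b y * s.b k = s.b (s.E i Y) ∧
    n * s.eps i C ≤ s.eps i Y ∧ s.eps i Y ≤ n * s.eps i C + s.eps i B

/-- ULB -/
def St_ULB : Prop := ∀ (i : I) (C : S), PSR s.b C → 0 < s.eps i C → s.ST (s.E i C) → s.ULB i C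

/-- DAG -/
def St_DAG : Prop := ∀ (i : I) (C : S), PSR s.b C → s.ULB i C → PDag s.b s.Hd C

/-- DAG0 -/
def St_DAG0 : Prop := ∀ C : S, PSR s.b C → s.ST C → PDag s.b s.Hd C

end Sys2

end Pool.Agent.KLSAbs

end

section

/-! MP_e487d8_al, part 3: the Poisson bracket of the Grothendieck ring at `q = 1`. -/

set_option autoImplicit false

namespace Pool.Agent.KLT

open Pool.Agent.KLSAbs
open scoped LaurentPolynomial

namespace Bra

/-- value at `1` -/
noncomputable def e1 : ℤ[T;T⁻¹] →+ ℚ where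
  toFun f := f.coeff.sum fun _ a => (a : ℚ)
  map_zero' := by simp
  map_add' f g := by
    rw [AddMonoidAlgebra.coeff_add]
    exact Finsupp.sum_add_index' (fun _ => by simp) (fun _ _ _ => by push_cast; ring)

/-- derivative at `1` -/
noncomputable def d1 : ℤ[T;T⁻¹] →+ ℚ where
  toFun f := f.coeff.sum fun n a => (n : ℚ) * (a : ℚ)
  map_zero' := by simp
  map_add' f g := by
    rw [AddMonoidAlgebra.coeff_add]
    exact Finsupp.sum_add_index' (fun _ => by simp) (fun _ _ _ => by push_cast; ring)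

theorem e1_single (n a : ℤ) : e1 (.single n a) = a := by
  show ((AddMonoidAlgebra.single n a : ℤ[T;T⁻¹]).coeff.sum fun _ a => (a : ℚ)) = a
  rw [AddMonoidAlgebra.coeff_single, Finsupp.sum_single_index (by simp)]

theorem d1_single (n a : ℤ) : d1 (.single n a) = n * a := by
  show ((AddMonoidAlgebra.single n a : ℤ[T;T⁻¹]).coeff.sum fun n a => (n : ℚ) * (a : ℚ)) = n * a
  rw [AddMonoidAlgebra.coeff_single, Finsupp.sum_single_index (by simp)]

theorem e1_CT (n a : ℤ) : e1 (LaurentPolynomial.C a * LaurentPolynomial.T n) = a := by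
  rw [← LaurentPolynomial.single_eq_C_mul_T, e1_single]

theorem d1_CT (n a : ℤ) : d1 (LaurentPolynomial.C a * LaurentPolynomial.T n) = n * a := by
  rw [← LaurentPolynomial.single_eq_C_mul_T, d1_single]

theorem e1_T (n : ℤ) : e1 (LaurentPolynomial.T n) = 1 := by
  rw [LaurentPolynomial.T, e1_single, Int.cast_one]

theorem d1_T (n : ℤ) : d1 (LaurentPolynomial.T n) = n := by
  rw [LaurentPolynomial.T, d1_single, Int.cast_one, mul_one]

theorem e1_mul (f g : ℤ[T;T⁻¹]) : e1 (f * g) = e1 f * e1 g := by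
  induction f using LaurentPolynomial.induction_on' with
  | add f f' hf hf' => rw [add_mul, map_add, map_add, hf, hf', add_mul]
  | C_mul_T n a =>
    induction g using LaurentPolynomial.induction_on' with
    | add g g' hg hg' => rw [mul_add, map_add, map_add, hg, hg', mul_add]
    | C_mul_T m c =>
      rw [← LaurentPolynomial.single_eq_C_mul_T, ← LaurentPolynomial.single_eq_C_mul_T,
        AddMonoidAlgebra.single_mul_single, e1_single, e1_single, e1_single]
      push_cast; ring

theorem d1_mul (f g : ℤ[T;T⁻¹]) : d1 (f * g) = d1 f * e1 g + e1 f * d1 g := by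
  induction f using LaurentPolynomial.induction_on' with
  | add f f' hf hf' => rw [add_mul, map_add, map_add, map_add, hf, hf']; ring
  | C_mul_T n a =>
    induction g using LaurentPolynomial.induction_on' with
    | add g g' hg hg' => rw [mul_add, map_add, map_add, map_add, hg, hg']; ring
    | C_mul_T m c =>
      rw [← LaurentPolynomial.single_eq_C_mul_T, ← LaurentPolynomial.single_eq_C_mul_T,
        AddMonoidAlgebra.single_mul_single, d1_single, d1_single, d1_single, e1_single, e1_single]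
      push_cast; ring

theorem T_sub_one (n : ℤ) : ∃ g : ℤ[T;T⁻¹],
    LaurentPolynomial.T n - 1 = (LaurentPolynomial.T 1 - 1) * g := by
  induction n using Int.induction_on with
  | zero => exact ⟨0, by simp⟩
  | succ n ih =>
    obtain ⟨g, hg⟩ := ih
    refine ⟨g * LaurentPolynomial.T 1 + 1, ?_⟩
    rw [LaurentPolynomial.T_add, mul_add, ← mul_assoc, ← hg]
    ring
  | pred n ih =>
    obtain ⟨g, hg⟩ := ih
    refine ⟨g - LaurentPolynomial.T (-(n : ℤ) - 1), ?_⟩
    have h : (LaurentPolynomial.T (-(n : ℤ)) : ℤ[T;T⁻¹]) =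
        LaurentPolynomial.T 1 * LaurentPolynomial.T (-(n : ℤ) - 1) := by
      rw [← LaurentPolynomial.T_add]
      congr 1
      ring
    rw [mul_sub, ← hg, h]
    ring

/-- divisibility by `T - 1` -/
theorem div {f : ℤ[T;T⁻¹]} (h : e1 f = 0) : ∃ g, f = (LaurentPolynomial.T 1 - 1) * g := by
  have key : ∀ f : ℤ[T;T⁻¹], ∃ (c : ℤ) (g : ℤ[T;T⁻¹]), e1 f = c ∧
      f = LaurentPolynomial.C c + (LaurentPolynomial.T 1 - 1) * g := by
    intro f
    induction f using LaurentPolynomial.induction_on' with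
    | add f f' hf hf' =>
      obtain ⟨c, g, h1, h2⟩ := hf
      obtain ⟨c', g', h1', h2'⟩ := hf'
      refine ⟨c + c', g + g', by rw [map_add, h1, h1']; push_cast; ring, ?_⟩
      rw [map_add]
      linear_combination h2 + h2'
    | C_mul_T n a =>
      obtain ⟨g, hg⟩ := T_sub_one n
      refine ⟨a, LaurentPolynomial.C a * g, e1_CT n a, ?_⟩
      linear_combination LaurentPolynomial.C a * hg
  obtain ⟨c, g, h1, h2⟩ := key f
  rw [h] at h1
  have h3 : c = 0 := by exact_mod_cast h1.symm
  rw [h3, map_zero, zero_add] at h2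
  exact ⟨g, h2⟩

theorem eq_zero_of_nonneg {f : ℤ[T;T⁻¹]} (h : ∀ n, 0 ≤ f.coeff n) (h1 : e1 f = 0) : f = 0 := by
  have h2 : ∑ n ∈ f.coeff.support, ((f.coeff n : ℤ) : ℚ) = 0 := h1
  have h3 : ∀ n ∈ f.coeff.support, (0 : ℚ) ≤ ((f.coeff n : ℤ) : ℚ) := fun n _ => by
    exact_mod_cast h n
  have h4 := (Finset.sum_eq_zero_iff_of_nonneg h3).1 h2
  refine LaurentPolynomial.ext fun n => ?_
  by_cases hn : n ∈ f.coeff.support
  · have := h4 n hn
    exact_mod_cast this
  · rw [Finsupp.notMem_support_iff.1 hn]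
    rfl

theorem eq_T_of_nonneg {f : ℤ[T;T⁻¹]} (h : ∀ n, 0 ≤ f.coeff n) (h1 : e1 f = 1) :
    ∃ s : ℤ, f = LaurentPolynomial.T s := by
  have h2 : ∑ n ∈ f.coeff.support, f.coeff n = 1 := by
    have : ∑ n ∈ f.coeff.support, ((f.coeff n : ℤ) : ℚ) = 1 := h1
    exact_mod_cast this
  have hpos : ∀ n ∈ f.coeff.support, 1 ≤ f.coeff n := fun n hn => by
    have := h n
    have h3 := Finsupp.mem_support_iff.1 hn
    omega
  have h3 : f.coeff.support.Nonempty := by
    rw [Finset.nonempty_iff_ne_empty]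
    intro h4
    rw [h4, Finset.sum_empty] at h2
    exact zero_ne_one h2
  obtain ⟨s, hs⟩ := h3
  refine ⟨s, ?_⟩
  have h5 : ∀ n ∈ f.coeff.support, n = s := by
    intro n hn
    by_contra hne
    have h6 : f.coeff n + f.coeff s ≤ ∑ n ∈ f.coeff.support, f.coeff n := by
      rw [← Finset.sum_pair hne]
      refine Finset.sum_le_sum_of_subset_of_nonneg ?_ (fun m _ _ => h m)
      intro m hm
      rw [Finset.mem_insert, Finset.mem_singleton] at hm
      rcases hm with rfl | rfl
      · exact hn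
      · exact hs
    have h7 := hpos n hn
    have h8 := hpos s hs
    omega
  have h6 : f.coeff.support = {s} := Finset.eq_singleton_iff_unique_mem.2 ⟨hs, h5⟩
  rw [h6, Finset.sum_singleton] at h2
  refine LaurentPolynomial.ext fun n => ?_
  rw [LaurentPolynomial.T_apply]
  split_ifs with h7
  · rw [← h7, h2]
  · by_contra h8
    exact h7 (h5 n (Finsupp.mem_support_iff.2 h8)).symm

end Bra

open Bra

variable {I S O K : Type} [DecidableEq I] [CommRing O] [Algebra ℚ O] [Ring K]
  [Algebra ℤ[T;T⁻¹] K] (D : Sys2 I S O K)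

namespace S2

theorem eq_sum (V : K) : V = ∑ Z ∈ (D.gb.repr V).support, D.gb.repr V Z • D.gb Z := by
  conv_lhs => rw [← D.gb.linearCombination_repr V]
  rw [Finsupp.linearCombination_apply, Finsupp.sum]

theorem ev_smul (f : ℤ[T;T⁻¹]) (V : K) : D.ev (f • V) = e1 f • D.ev V := by
  induction f using LaurentPolynomial.induction_on' with
  | add f g hf hg => rw [add_smul, map_add, hf, hg, map_add, add_smul]
  | C_mul_T n a =>
    rw [e1_CT, ← LaurentPolynomial.smul_eq_C_mul, smul_assoc, map_zsmul, D.ev_T,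
      Int.cast_smul_eq_zsmul]

theorem ev_repr (V : K) (Z : S) : D.b.repr (D.ev V) Z = e1 (D.gb.repr V Z) := by
  classical
  have h : ∀ X ∈ (D.gb.repr V).support, D.b.repr (D.ev (D.gb.repr V X • D.gb X)) Z =
      if X = Z then e1 (D.gb.repr V Z) else 0 := by
    intro X _
    rw [ev_smul, D.ev_gb, map_smul, Module.Basis.repr_self, Finsupp.smul_apply,
      Finsupp.single_apply]
    by_cases h : X = Z
    · rw [if_pos h, if_pos h, smul_eq_mul, mul_one, h]
    · rw [if_neg h, if_neg h, smul_zero]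
  conv_lhs => rw [eq_sum D V]
  rw [map_sum, map_sum, Finsupp.finsetSum_apply, Finset.sum_congr rfl h, Finset.sum_ite_eq']
  split_ifs with h1
  · rfl
  · rw [Finsupp.notMem_support_iff.1 h1, map_zero]

/-- the derivative at `T = 1` of the coefficients -/
noncomputable def dl : K →+ O where
  toFun V := (D.gb.repr V).sum fun Z f => d1 f • D.b Z
  map_zero' := by simp
  map_add' U V := by
    rw [map_add]
    exact Finsupp.sum_add_index' (fun _ => by simp) (fun _ _ _ => by rw [map_add, add_smul])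

theorem dl_b (f : ℤ[T;T⁻¹]) (Z : S) : dl D (f • D.gb Z) = d1 f • D.b Z := by
  show ((D.gb.repr (f • D.gb Z)).sum fun Z f => d1 f • D.b Z) = _
  rw [map_smul, Module.Basis.repr_self, Finsupp.smul_single, smul_eq_mul, mul_one,
    Finsupp.sum_single_index (by simp)]

theorem dl_repr (V : K) (Z : S) : D.b.repr (dl D V) Z = d1 (D.gb.repr V Z) := by
  classical
  have h : ∀ X ∈ (D.gb.repr V).support, D.b.repr (dl D (D.gb.repr V X • D.gb X)) Z =
      if X = Z then d1 (D.gb.repr V Z) else 0 := by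
    intro X _
    rw [dl_b, map_smul, Module.Basis.repr_self, Finsupp.smul_apply, Finsupp.single_apply]
    by_cases h : X = Z
    · rw [if_pos h, if_pos h, smul_eq_mul, mul_one, h]
    · rw [if_neg h, if_neg h, smul_zero]
  conv_lhs => rw [eq_sum D V]
  rw [map_sum, map_sum, Finsupp.finsetSum_apply, Finset.sum_congr rfl h, Finset.sum_ite_eq']
  split_ifs with h1
  · rfl
  · rw [Finsupp.notMem_support_iff.1 h1, map_zero]

theorem dl_smul (f : ℤ[T;T⁻¹]) (V : K) : dl D (f • V) = e1 f • dl D V + d1 f • D.ev V := by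
  refine D.b.repr.injective (Finsupp.ext fun Z => ?_)
  have h1 : D.b.repr (e1 f • dl D V + d1 f • D.ev V) Z =
      e1 f * d1 (D.gb.repr V Z) + d1 f * e1 (D.gb.repr V Z) := by
    rw [map_add, Finsupp.add_apply, map_smul, map_smul, Finsupp.smul_apply, Finsupp.smul_apply,
      dl_repr, ev_repr, smul_eq_mul, smul_eq_mul]
  rw [h1, dl_repr, map_smul, Finsupp.smul_apply, smul_eq_mul, d1_mul]
  ring

theorem div {U : K} (hU : D.ev U = 0) :
    ∃ U', U = ((LaurentPolynomial.T 1 : ℤ[T;T⁻¹]) - 1) • U' := by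
  classical
  have h1 : ∀ Z, e1 (D.gb.repr U Z) = 0 := by
    intro Z
    rw [← ev_repr, hU, map_zero, Finsupp.zero_apply]
  choose g hg using fun Z => Bra.div (h1 Z)
  refine ⟨∑ Z ∈ (D.gb.repr U).support, g Z • D.gb Z, ?_⟩
  rw [Finset.smul_sum]
  conv_lhs => rw [eq_sum D U]
  refine Finset.sum_congr rfl fun Z _ => ?_
  rw [← mul_smul, ← hg]

theorem e1_T1 : e1 ((LaurentPolynomial.T 1 : ℤ[T;T⁻¹]) - 1) = 0 := by
  rw [← LaurentPolynomial.T_zero, map_sub, e1_T, e1_T, sub_self]

theorem d1_T1 : d1 ((LaurentPolynomial.T 1 : ℤ[T;T⁻¹]) - 1) = 1 := by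
  rw [← LaurentPolynomial.T_zero, map_sub, d1_T, d1_T]
  norm_num

theorem dl_T1 (V : K) : dl D (((LaurentPolynomial.T 1 : ℤ[T;T⁻¹]) - 1) • V) = D.ev V := by
  rw [dl_smul, e1_T1, d1_T1, zero_smul, one_smul, zero_add]

theorem dl_mul_left {U : K} (hU : D.ev U = 0) (V : K) :
    dl D (U * V) = dl D U * D.ev V := by
  obtain ⟨U', rfl⟩ := div D hU
  rw [smul_mul_assoc, dl_T1, dl_T1, map_mul]

theorem dl_mul_right {U : K} (hU : D.ev U = 0) (V : K) :
    dl D (V * U) = D.ev V * dl D U := by
  obtain ⟨U', rfl⟩ := div D hU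
  rw [mul_smul_comm, dl_T1, dl_T1, map_mul]

theorem ev_comm (U V : K) : D.ev (V * U - U * V) = 0 := by
  rw [map_sub, map_mul, map_mul, mul_comm, sub_self]

/-- the Poisson bracket -/
noncomputable def br : O →ₗ[ℚ] O →ₗ[ℚ] O :=
  D.b.constr ℚ fun X => D.b.constr ℚ fun Y => dl D (D.gb Y * D.gb X - D.gb X * D.gb Y)

theorem br_b (X Y : S) :
    br D (D.b X) (D.b Y) = dl D (D.gb Y * D.gb X - D.gb X * D.gb Y) := by
  rw [br, Module.Basis.constr_basis, Module.Basis.constr_basis]

theorem br_ev (U V : K) : br D (D.ev U) (D.ev V) = dl D (V * U - U * V) := by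
  have key : ∀ X : S, ∀ V : K, br D (D.b X) (D.ev V) = dl D (V * D.gb X - D.gb X * V) := by
    intro X V
    conv_lhs => rw [eq_sum D V]
    conv_rhs => rw [eq_sum D V]
    rw [map_sum, map_sum, Finset.sum_mul, Finset.mul_sum, ← Finset.sum_sub_distrib, map_sum]
    refine Finset.sum_congr rfl fun Y _ => ?_
    rw [ev_smul, D.ev_gb, map_smul, br_b, smul_mul_assoc, mul_smul_comm, ← smul_sub, dl_smul,
      ev_comm, smul_zero, add_zero]
  conv_lhs => rw [eq_sum D U]
  conv_rhs => rw [eq_sum D U]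
  rw [map_sum, map_sum, LinearMap.sum_apply, Finset.sum_mul, Finset.mul_sum,
    ← Finset.sum_sub_distrib, map_sum]
  refine Finset.sum_congr rfl fun X _ => ?_
  rw [ev_smul, D.ev_gb, map_smul, LinearMap.smul_apply, key, smul_mul_assoc, mul_smul_comm,
    ← smul_sub, dl_smul, ev_comm, smul_zero, add_zero]

theorem br_anti (x y : O) : br D x y = - br D y x := by
  have h : br D = - (br D).flip := by
    refine D.b.ext fun X => D.b.ext fun Y => ?_
    rw [LinearMap.neg_apply, LinearMap.neg_apply, LinearMap.flip_apply, br_b, br_b, ← map_neg,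
      neg_sub]
  conv_lhs => rw [h]
  rfl

theorem br_mul (x y z : O) : br D x (y * z) = br D x y * z + y * br D x z := by
  have h1 : ∀ X Y Z, br D (D.b X) (D.b Y * D.b Z) =
      br D (D.b X) (D.b Y) * D.b Z + D.b Y * br D (D.b X) (D.b Z) := by
    intro X Y Z
    have e1 : D.b Y * D.b Z = D.ev (D.gb Y * D.gb Z) := by rw [map_mul, D.ev_gb, D.ev_gb]
    have e2 : D.b X = D.ev (D.gb X) := (D.ev_gb X).symm
    have e3 : D.gb Y * D.gb Z * D.gb X - D.gb X * (D.gb Y * D.gb Z) =
        (D.gb Y * D.gb X - D.gb X * D.gb Y) * D.gb Z +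
          D.gb Y * (D.gb Z * D.gb X - D.gb X * D.gb Z) := by
      noncomm_ring
    rw [br_b, br_b, e1, e2, br_ev, e3, map_add, dl_mul_left D (ev_comm D _ _),
      dl_mul_right D (ev_comm D _ _), D.ev_gb, D.ev_gb]
  have hl : ∀ X Y, (br D (D.b X)) ∘ₗ LinearMap.mulLeft ℚ (D.b Y) =
      LinearMap.mulLeft ℚ (br D (D.b X) (D.b Y)) + LinearMap.mulLeft ℚ (D.b Y) ∘ₗ br D (D.b X) :=
    fun X Y => D.b.ext fun Z => h1 X Y Z
  have h2 : ∀ X Y z, br D (D.b X) (D.b Y * z) =
      br D (D.b X) (D.b Y) * z + D.b Y * br D (D.b X) z := fun X Y z =>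
    LinearMap.congr_fun (hl X Y) z
  have hl2 : ∀ X z, (br D (D.b X)) ∘ₗ LinearMap.mulRight ℚ z =
      LinearMap.mulRight ℚ z ∘ₗ br D (D.b X) + LinearMap.mulRight ℚ (br D (D.b X) z) :=
    fun X z => D.b.ext fun Y => h2 X Y z
  have h3 : ∀ X y z, br D (D.b X) (y * z) = br D (D.b X) y * z + y * br D (D.b X) z :=
    fun X y z => LinearMap.congr_fun (hl2 X z) y
  have hl3 : (br D).flip (y * z) =
      LinearMap.mulRight ℚ z ∘ₗ (br D).flip y + LinearMap.mulLeft ℚ y ∘ₗ (br D).flip z :=
    D.b.ext fun X => h3 X y z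
  exact LinearMap.congr_fun hl3 x

theorem repr_co (X Y Z : S) : D.b.repr (D.b X * D.b Y) Z = (D.co X Y Z : ℚ) := by
  classical
  rw [D.b_mul, Finsupp.sum, map_sum, Finsupp.finsetSum_apply]
  simp only [map_smul, Module.Basis.repr_self, Finsupp.smul_apply, Finsupp.single_apply,
    smul_eq_mul, mul_ite, mul_one, mul_zero]
  rw [Finset.sum_ite_eq' (D.co X Y).support Z fun W => ((D.co X Y W : ℕ) : ℚ)]
  by_cases h : Z ∈ (D.co X Y).support
  · rw [if_pos h]
  · rw [if_neg h]
    rw [Finsupp.notMem_support_iff] at h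
    rw [h]; simp

theorem e1_co (X Y Z : S) : e1 (D.gb.repr (D.gb X * D.gb Y) Z) = (D.co X Y Z : ℚ) := by
  rw [← ev_repr, map_mul, D.ev_gb, D.ev_gb, repr_co]

theorem repr_zero {X Y Z : S} (h : D.co X Y Z = 0) : D.gb.repr (D.gb X * D.gb Y) Z = 0 := by
  refine eq_zero_of_nonneg (fun n => D.gb_pos X Y Z n) ?_
  rw [e1_co, h, Nat.cast_zero]

theorem br_supp (X Y Z : S) (h : D.co X Y Z = 0) :
    D.b.repr (br D (D.b X) (D.b Y)) Z = 0 := by
  have h2 : D.co Y X Z = 0 := by
    have h3 := repr_co D X Y Z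
    rw [mul_comm, repr_co, h] at h3
    exact_mod_cast h3
  rw [br_b, dl_repr, map_sub, Finsupp.sub_apply, repr_zero D h, repr_zero D h2, sub_zero,
    map_zero]

theorem simple_gb {X Y Z : S} (h : D.b X * D.b Y = D.b Z) :
    ∃ s : ℤ, D.gb X * D.gb Y = (LaurentPolynomial.T s : ℤ[T;T⁻¹]) • D.gb Z := by
  classical
  have h1 : e1 (D.gb.repr (D.gb X * D.gb Y) Z) = 1 := by
    rw [← ev_repr, map_mul, D.ev_gb, D.ev_gb, h, Module.Basis.repr_self, Finsupp.single_eq_same]
  obtain ⟨s, hs⟩ := eq_T_of_nonneg (fun n => D.gb_pos X Y Z n) h1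
  refine ⟨s, D.gb.repr.injective (Finsupp.ext fun W => ?_)⟩
  rw [map_smul, Module.Basis.repr_self, Finsupp.smul_apply, Finsupp.single_apply]
  by_cases hW : Z = W
  · rw [if_pos hW, ← hW, hs, smul_eq_mul, mul_one]
  · rw [if_neg hW, smul_zero]
    refine eq_zero_of_nonneg (fun n => D.gb_pos X Y W n) ?_
    rw [← ev_repr, map_mul, D.ev_gb, D.ev_gb, h, Module.Basis.repr_self, Finsupp.single_apply,
      if_neg hW]

/-- `Y C = T^a C Y` -/
def Rel (C Y : S) (a : ℤ) : Prop :=
  D.gb Y * D.gb C = (LaurentPolynomial.T a : ℤ[T;T⁻¹]) • (D.gb C * D.gb Y)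

theorem ex_rel {C Y Z : S} (h : D.b C * D.b Y = D.b Z) : ∃ a, Rel D C Y a := by
  obtain ⟨s, hs⟩ := simple_gb D h
  obtain ⟨t, ht⟩ := simple_gb D (X := Y) (Y := C) (Z := Z) (by rw [mul_comm]; exact h)
  refine ⟨t - s, ?_⟩
  unfold Rel
  rw [hs, ht, smul_smul, ← LaurentPolynomial.T_add, sub_add_cancel]

theorem br_rel {C Y : S} {a : ℤ} (h : Rel D C Y a) :
    br D (D.b C) (D.b Y) = (a : ℚ) • (D.b C * D.b Y) := by
  have h1 : D.gb Y * D.gb C - D.gb C * D.gb Y =
      ((LaurentPolynomial.T a : ℤ[T;T⁻¹]) - 1) • (D.gb C * D.gb Y) := by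
    rw [sub_smul, one_smul, h]
  have h2 : e1 ((LaurentPolynomial.T a : ℤ[T;T⁻¹]) - 1) = 0 := by
    rw [← LaurentPolynomial.T_zero, map_sub, e1_T, e1_T, sub_self]
  have h3 : d1 ((LaurentPolynomial.T a : ℤ[T;T⁻¹]) - 1) = a := by
    rw [← LaurentPolynomial.T_zero, map_sub, d1_T, d1_T]
    simp
  rw [br_b, h1, dl_smul, h2, h3, zero_smul, zero_add, map_mul, D.ev_gb, D.ev_gb]

theorem mul_ne (C Y : S) : D.b C * D.b Y ≠ 0 := by
  intro h
  have h1 := congrArg D.chi h
  rw [map_mul, map_zero] at h1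
  exact (mul_pos (D.chi_pos C) (D.chi_pos Y)).ne' h1

theorem rel_unique {C Y : S} {a a' : ℤ} (h : Rel D C Y a) (h' : Rel D C Y a') : a = a' := by
  have h1 := br_rel D h
  rw [br_rel D h'] at h1
  have h2 : ((a : ℚ) - a') • (D.b C * D.b Y) = 0 := by rw [sub_smul, h1, sub_self]
  rcases smul_eq_zero.1 h2 with h3 | h3
  · have h4 : (a : ℚ) = a' := sub_eq_zero.1 h3
    exact_mod_cast h4
  · exact absurd h3 (mul_ne D C Y)

theorem rel_symm {C Y : S} {a : ℤ} (h : Rel D C Y a) : Rel D Y C (-a) := by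
  unfold Rel at h ⊢
  rw [h, smul_smul, ← LaurentPolynomial.T_add, neg_add_cancel, LaurentPolynomial.T_zero, one_smul]

/-- the degree of `C ∘ Y → Y ∘ C` -/
noncomputable def lam (C Y : S) : ℤ := open Classical in
  if h : ∃ a, Rel D C Y a then h.choose else 0

theorem lam_of_rel {C Y : S} {a : ℤ} (h : Rel D C Y a) : lam D C Y = a := by
  classical
  have h1 : ∃ a, Rel D C Y a := ⟨a, h⟩
  rw [lam, dif_pos h1]
  exact rel_unique D h1.choose_spec h

theorem rel_lam {C Y Z : S} (h : D.b C * D.b Y = D.b Z) : Rel D C Y (lam D C Y) := by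
  obtain ⟨a, ha⟩ := ex_rel D h
  rw [lam_of_rel D ha]
  exact ha

theorem br_lam (X Y Z : S) (h : D.b X * D.b Y = D.b Z) :
    br D (D.b X) (D.b Y) = (lam D X Y : ℚ) • D.b Z := by
  rw [br_rel D (rel_lam D h), h]

theorem sumW_pair (a : I → I → ℤ) (i : I) (w : I →₀ ℕ) :
    sumW (a i) w = pair a i (w.mapRange (fun n : ℕ => (n : ℤ)) Nat.cast_zero) := by
  unfold sumW pair
  rw [Finsupp.sum_mapRange_index (by simp)]
  exact Finsupp.sum_congr fun j _ => mul_comm _ _

theorem sumW_A (i : I) (w : I →₀ ℕ) : sumW (D.A i) w =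
    D.dg i * pair D.car i (w.mapRange (fun n : ℕ => (n : ℤ)) Nat.cast_zero) := by
  rw [← sumW_pair]
  unfold sumW
  rw [Finsupp.mul_sum]
  refine Finsupp.sum_congr fun j _ => ?_
  rw [D.A_car, mul_assoc]

theorem lam_E (i : I) (C Y Z : S) (h : D.b C * D.b Y = D.b Z) :
    lam D C Y = lam D (D.E i C) (D.E i Y) +
    (D.dg i : ℤ) * ((D.eps i Y : ℤ) *
        pair D.car i ((D.wt (D.E i C)).mapRange (fun n : ℕ => (n : ℤ)) Nat.cast_zero) -
      (D.eps i C : ℤ) *
        pair D.car i ((D.wt (D.E i Y)).mapRange (fun n : ℕ => (n : ℤ)) Nat.cast_zero)) := by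
  have h1 := D.lam_E i C Y Z (lam D C Y) h (rel_lam D h)
  rw [lam_of_rel D (C := D.E i C) (Y := D.E i Y) h1, sumW_A, sumW_A]
  ring

theorem lam_E' (i : I) (C Y Z : S) (h : D.b C * D.b Y = D.b Z) :
    - lam D C Y = - lam D (D.E' i C) (D.E' i Y) +
    (D.dg i : ℤ) * ((D.eps' i Y : ℤ) *
        pair D.car i ((D.wt (D.E' i C)).mapRange (fun n : ℕ => (n : ℤ)) Nat.cast_zero) -
      (D.eps' i C : ℤ) *
        pair D.car i ((D.wt (D.E' i Y)).mapRange (fun n : ℕ => (n : ℤ)) Nat.cast_zero)) := by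
  have h1 := D.lam_E' i C Y Z (-lam D C Y) h (rel_symm D (rel_lam D h))
  have h2 := rel_symm D (C := D.E' i Y) (Y := D.E' i C) h1
  rw [lam_of_rel D h2, sumW_A, sumW_A]
  ring

end S2

/-- the system for part 3 -/
noncomputable def toPre : Pre I S O where
  A := D.car
  d i := D.dg i
  hA := ⟨D.car_diag, fun i => by exact_mod_cast D.dg_pos i, fun i j => by
    rw [← D.A_car, ← D.A_car, D.A_symm], D.car_nonpos⟩
  b := D.b
  co := D.co
  b_mul := D.b_mul
  one := D.one
  b_one := D.b_one
  wt := D.wt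
  wt_co := D.wt_co
  wt_zero := D.wt_zero
  lt := D.lt
  wt_lt := D.wt_lt
  lt_pow := D.lt_pow
  eps := D.eps
  E := D.E
  eps_E := D.eps_E
  E_of_eps := D.E_of_eps
  eps_inj := D.eps_inj
  eps_surj := D.eps_surj
  wt_E := D.wt_E
  eps_co := D.eps_co
  co_E := D.co_E
  Ad_E := D.Ad_E
  ex_eps := D.ex_eps
  eps' := D.eps'
  E' := D.E'
  eps_E' := D.eps_E'
  E_of_eps' := D.E_of_eps'
  eps_inj' := D.eps_inj'
  eps_surj' := D.eps_surj'
  wt_E' := D.wt_E'
  eps_co' := D.eps_co'
  co_E' := D.co_E'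
  Ad_E' := D.Ad_E'
  ex_eps' := D.ex_eps'
  ad_mirror := D.ad_mirror
  ad_co := D.ad_co
  d_nonneg i X := by rw [← S2.sumW_pair]; exact D.d_nonneg i X
  cm_lt i X := by rw [← S2.sumW_pair]; exact D.cm_lt i X
  d_f i X Y h1 h2 h3 := by
    rw [← S2.sumW_pair] at h3
    exact D.d_f i X Y h1 h2 h3
  d_f' i X Y h1 h2 h3 := by
    rw [← S2.sumW_pair] at h3
    exact D.d_f' i X Y h1 h2 h3
  Hd := D.Hd
  hd_ex := D.hd_ex
  hd_co := D.hd_co
  hd_eps := D.hd_eps
  hd_eps' := D.hd_eps'
  hd_as := D.hd_as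
  hd_as' := D.hd_as'
  s2 := D.s2
  hd_lt := D.hd_lt
  hd_lt' := D.hd_lt'
  hd_ic i C X Z h := D.hd_ic i C X Z (by
    obtain ⟨W, hW⟩ := h
    exact D.ic_cm _ _ W hW)
  hd_ic' i C X Z h := D.hd_ic' i C X Z (by
    obtain ⟨W, hW⟩ := h
    exact D.ic_cm _ _ W hW)
  br := S2.br D
  br_anti := S2.br_anti D
  br_mul := S2.br_mul D
  br_supp := S2.br_supp D
  lam := S2.lam D
  br_lam := S2.br_lam D
  lam_E := S2.lam_E D
  lam_E' := S2.lam_E' D

theorem op_dl (V : K) : S2.dl D.op (MulOpposite.op V) = S2.dl D V := rfl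

theorem op_br : S2.br D.op = - S2.br D := by
  refine D.b.ext fun X => D.b.ext fun Y => ?_
  have h1 := S2.br_b D.op X Y
  have h2 := S2.br_b D X Y
  have h3 : D.op.gb Y * D.op.gb X - D.op.gb X * D.op.gb Y =
      MulOpposite.op (D.gb X * D.gb Y - D.gb Y * D.gb X) := rfl
  rw [h3, op_dl] at h1
  rw [LinearMap.neg_apply, LinearMap.neg_apply, h2, ← map_neg, neg_sub]
  exact h1

theorem op_rel {C Y : S} {a : ℤ} (h : S2.Rel D C Y a) : S2.Rel D.op C Y (-a) := by
  have h1 := S2.rel_symm D h
  exact congrArg MulOpposite.op h1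

theorem op_lam (C Y : S) : S2.lam D.op C Y = - S2.lam D C Y := by
  classical
  by_cases h : ∃ a, S2.Rel D C Y a
  · obtain ⟨a, ha⟩ := h
    rw [S2.lam_of_rel D ha, S2.lam_of_rel D.op (op_rel D ha)]
  · have h1 : ¬ ∃ a, S2.Rel D.op C Y a := by
      rintro ⟨a, ha⟩
      refine h ⟨-a, ?_⟩
      have h2 := S2.rel_symm D.op ha
      exact MulOpposite.op_injective h2
    rw [S2.lam, dif_neg h1, S2.lam, dif_neg h, neg_zero]

theorem toPre_op : toPre D.op = (toPre D).op := by
  have h1 := op_br D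
  have h2 : S2.lam D.op = fun C Y => - S2.lam D C Y := by
    funext C Y
    exact op_lam D C Y
  unfold toPre Pre.op
  simp only [h1, h2]
  rfl

end Pool.Agent.KLT

end

section

/-! MP_e487d8_al, PBW block: definitions and statements.

Goal: `S_basis D`. Spanning: `S_W1`, `S_W2`, `S_W3` (commutation modulo lower terms in the algebra),
then `S_stable`. Independence: for a `Loc` (two commuting actions `r1`, `r2` of the KLR algebra on
`P` such that the dots of the first action minus the dots of the second action are invertible) the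
KLR algebra acts on the functions `List Bool → P` (`S_rels`); independence is a triangular argument
in the first letter (`S_ind`). The general case is a deformation argument. -/

set_option autoImplicit false

open scoped TensorProduct

namespace Pool.Agent.KLS

variable {K I : Type} [Field K] [Fintype I] [DecidableEq I]

namespace Pbw

/-! ### spanning -/

section span

variable (D : Datum K I)

/-- error terms: linear span of the products `shn 1 a * tr m b`, and zero if `m = 0` -/
noncomputable def W (m : ℕ) : Submodule K (KLRAlg D) :=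
  Submodule.span K {z | 0 < m ∧ ∃ a b : KLRAlg D, z = D.shn 1 a * D.tr m b}

/-- the action `r` is an action of `n` strands -/
structure StrandHom (n : ℕ) {V : Type} [AddCommGroup V] [Module K V]
    (r : KLRAlg D →ₐ[K] Module.End K V) : Prop where
  one : ∀ k, k < n → r (D.E k) = 1
  zero : ∀ k, n ≤ k → ∀ i, r (D.e k i) = 0

/-- `Z + ∑_w tw w • β(p)`, the sum over the shuffles of `m` and `n` strands -/
def shSpan (m n : ℕ) {U P : Type} [AddCommGroup U] [Module K U] [AddCommGroup P] [Module K P]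
    (r : KLRAlg D →ₐ[K] Module.End K P) (Z : Submodule K P) (β : U →ₗ[K] P) : Submodule K P :=
  Z ⊔ Submodule.span K
    {y | ∃ (w : List Bool) (p : U), w.count false = m ∧ w.count true = n ∧ y = r (D.tw w) (β p)}

def S_W1 : Prop := ∀ (m : ℕ) (a : KLRAlg D),
  D.shn 1 (D.tr m a) * D.chain m - D.chain m * D.tr m a ∈ W D m

def S_W2 : Prop := ∀ m : ℕ, D.x 0 * D.chain m - D.chain m * D.x m ∈ W D m

def S_W3 : Prop := ∀ m : ℕ,
  D.t 0 * (D.shn 1 (D.chain m) * D.chain m) - D.shn 1 (D.chain m) * D.chain m * D.t m ∈ W D m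

/-- `∑_w tw w • β(p)` is stable under the KLR algebra if `β` is balanced modulo the stable
subspace `Z` -/
def S_stable : Prop := ∀ (m n : ℕ) (U P : Type) [AddCommGroup U] [Module K U] [AddCommGroup P]
  [Module K P] (r1 r2 : KLRAlg D →ₐ[K] Module.End K U) (r : KLRAlg D →ₐ[K] Module.End K P)
  (Z : Submodule K P) (β : U →ₗ[K] P), StrandHom D m r1 → StrandHom D n r2 →
  (∀ a, ∀ z ∈ Z, r a z ∈ Z) →
  (∀ a p, r (D.tr m a) (β p) - β (r1 a p) ∈ Z) →
  (∀ a p, r (D.shn m a) (β p) - β (r2 a p) ∈ Z) →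
  ∀ a, ∀ y ∈ shSpan D m n r Z β, r a y ∈ shSpan D m n r Z β

end span

/-! ### the localised module -/

/-- two commuting actions of the KLR algebra on `P` such that `x i - y j` is invertible where the
strands `i` (of the first action) and `j` (of the second action) exist, with inverse `v i j` -/
structure Loc (D : Datum K I) (P : Type) [AddCommGroup P] [Module K P] where
  r1 : KLRAlg D →ₐ[K] Module.End K P
  r2 : KLRAlg D →ₐ[K] Module.End K P
  v : ℕ → ℕ → Module.End K P
  comm : ∀ a b, r1 a * r2 b = r2 b * r1 a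
  v_mul : ∀ i j, v i j * (r1 (D.x i) - r2 (D.x j)) = r1 (D.E i) * r2 (D.E j)
  mul_v : ∀ i j, (r1 (D.x i) - r2 (D.x j)) * v i j = r1 (D.E i) * r2 (D.E j)
  v_E : ∀ i j, v i j * (r1 (D.E i) * r2 (D.E j)) = v i j

namespace Loc

variable {D : Datum K I} {P : Type} [AddCommGroup P] [Module K P] (d : Loc D P)

/-- forget the first strand of the first action -/
noncomputable def shF : Loc D P where
  r1 := d.r1.comp (D.shn 1)
  r2 := d.r2
  v i j := d.v (1 + i) j
  comm a b := d.comm _ b
  v_mul i j := by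
    simp only [AlgHom.comp_apply, Datum.shn_x, D.shn_E]
    exact d.v_mul (1 + i) j
  mul_v i j := by
    simp only [AlgHom.comp_apply, Datum.shn_x, D.shn_E]
    exact d.mul_v (1 + i) j
  v_E i j := by
    simp only [AlgHom.comp_apply, D.shn_E]
    exact d.v_E (1 + i) j

/-- forget the first strand of the second action -/
noncomputable def shT : Loc D P where
  r1 := d.r1
  r2 := d.r2.comp (D.shn 1)
  v i j := d.v i (1 + j)
  comm a b := d.comm a _
  v_mul i j := by
    simp only [AlgHom.comp_apply, Datum.shn_x, D.shn_E]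
    exact d.v_mul i (1 + j)
  mul_v i j := by
    simp only [AlgHom.comp_apply, Datum.shn_x, D.shn_E]
    exact d.mul_v i (1 + j)
  v_E i j := by
    simp only [AlgHom.comp_apply, D.shn_E]
    exact d.v_E i (1 + j)

/-- exchange the two actions -/
noncomputable def swap : Loc D P where
  r1 := d.r2
  r2 := d.r1
  v i j := -d.v j i
  comm a b := (d.comm b a).symm
  v_mul i j := by
    have h := d.v_mul j i
    rw [← d.comm (D.E j) (D.E i), ← h, neg_mul, ← mul_neg, neg_sub]
  mul_v i j := by
    have h := d.mul_v j i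
    rw [← d.comm (D.E j) (D.E i), ← h, mul_neg, ← neg_mul, neg_sub]
  v_E i j := by
    rw [← d.comm (D.E j) (D.E i), neg_mul, d.v_E j i]

/-- the strands `i` and `j` have the same colour -/
noncomputable def dd (i j : ℕ) : Module.End K P := ∑ c, d.r1 (D.e i c) * d.r2 (D.e j c)

/-- `1 / (x i - y j)` on equal colours -/
noncomputable def A (i j : ℕ) : Module.End K P := d.v i j * d.dd i j

/-- the strands `i` and `j` have different colours -/
noncomputable def nn (i j : ℕ) : Module.End K P :=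
  ∑ c, ∑ c', if c = c' then 0 else d.r1 (D.e i c) * d.r2 (D.e j c')

/-- `Q(x i, y j)` on different colours -/
noncomputable def qq (i j : ℕ) : Module.End K P :=
  ∑ c, ∑ c', if c = c' then 0 else
    D.QE c c' (d.r1 (D.x i)) (d.r2 (D.x j)) * (d.r1 (D.e i c) * d.r2 (D.e j c'))

/-- tail of a function on words -/
def tl (b : Bool) : (List Bool → P) →ₗ[K] (List Bool → P) where
  toFun f := fun w => f (b :: w)
  map_add' _ _ := rfl
  map_smul' _ _ := rfl

/-- act by `g` on the words with first letter `false` and by `h` on the words with first letter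
`true`, leaving the first letter fixed -/
def glue (g h : Module.End K (List Bool → P)) : Module.End K (List Bool → P) where
  toFun f := fun w => match w with
    | [] => 0
    | false :: w => g (tl (K := K) false f) w
    | true :: w => h (tl (K := K) true f) w
  map_add' f f' := by
    funext w
    match w with
    | [] => simp
    | false :: w => simp
    | true :: w => simp
  map_smul' r f := by
    funext w
    match w with
    | [] => simp
    | false :: w => simp
    | true :: w => simp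

/-- act by `g` on all values -/
def post (g : Module.End K P) : Module.End K (List Bool → P) where
  toFun f := fun w => g (f w)
  map_add' f f' := by funext w; simp
  map_smul' r f := by funext w; simp

/-- the crossing of the first two strands -/
noncomputable def T0 : Module.End K (List Bool → P) where
  toFun f := fun w => match w with
    | [] => 0
    | [_] => 0
    | false :: false :: w => d.r1 (D.t 0) (f (false :: false :: w))
    | true :: true :: w => d.r2 (D.t 0) (f (true :: true :: w))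
    | false :: true :: w =>
        (d.A 0 0 + d.qq 0 0) (f (true :: false :: w)) - d.A 0 0 (f (false :: true :: w))
    | true :: false :: w =>
        d.A 0 0 (f (true :: false :: w)) + (d.nn 0 0 - d.A 0 0) (f (false :: true :: w))
  map_add' f f' := by
    funext w
    match w with
    | [] => simp
    | [_] => simp
    | false :: false :: w => simp
    | true :: true :: w => simp
    | false :: true :: w => simp only [Pi.add_apply, map_add]; abel
    | true :: false :: w => simp only [Pi.add_apply, map_add]; abel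
  map_smul' r f := by
    funext w
    match w with
    | [] => simp
    | [_] => simp
    | false :: false :: w => simp
    | true :: true :: w => simp
    | false :: true :: w => simp only [Pi.smul_apply, map_smul, RingHom.id_apply, smul_sub]
    | true :: false :: w => simp only [Pi.smul_apply, map_smul, RingHom.id_apply, smul_add]

/-- the action of `e k i` on the functions on words -/
noncomputable def opE : ℕ → I → Loc D P → Module.End K (List Bool → P)
  | 0, i, d => glue (post (d.r1 (D.e 0 i))) (post (d.r2 (D.e 0 i)))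
  | k + 1, i, d => glue (opE k i d.shF) (opE k i d.shT)

/-- the action of `x k` on the functions on words -/
noncomputable def opX : ℕ → Loc D P → Module.End K (List Bool → P)
  | 0, d => glue (post (d.r1 (D.x 0))) (post (d.r2 (D.x 0)))
  | k + 1, d => glue (opX k d.shF) (opX k d.shT)

/-- the action of `t k` on the functions on words -/
noncomputable def opT : ℕ → Loc D P → Module.End K (List Bool → P)
  | 0, d => d.T0
  | k + 1, d => glue (opT k d.shF) (opT k d.shT)

/-- the function supported on the word `false ^ m true ^ n` with value `p` -/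
def iota (m n : ℕ) : P →ₗ[K] (List Bool → P) where
  toFun p := fun w => if w = List.replicate m false ++ List.replicate n true then p else 0
  map_add' p p' := by
    funext w
    simp only [Pi.add_apply]
    split_ifs <;> simp
  map_smul' r p := by
    funext w
    simp only [Pi.smul_apply, RingHom.id_apply]
    split_ifs <;> simp

end Loc

/-- the operators `opE`, `opX`, `opT` satisfy the KLR relations -/
def S_rels (D : Datum K I) : Prop :=
  ∀ (P : Type) [AddCommGroup P] [Module K P] (d : Loc D P),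
    Rels D (fun k i => Loc.opE k i d) (fun k => Loc.opX k d) (fun k => Loc.opT k d)

/-! the KLR relations one by one (for all `Loc`) -/

/-- relations between the `e` and the `x` -/
def S_rE (D : Datum K I) : Prop :=
  ∀ (P : Type) [AddCommGroup P] [Module K P] (d : Loc D P),
    (∀ k i j, Loc.opE k i d * Loc.opE k j d = if i = j then Loc.opE k i d else 0) ∧
    (∀ k l i j, Loc.opE k i d * Loc.opE l j d = Loc.opE l j d * Loc.opE k i d) ∧
    (∀ k l, Loc.opX k d * Loc.opX l d = Loc.opX l d * Loc.opX k d) ∧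
    (∀ k l i, Loc.opX k d * Loc.opE l i d = Loc.opE l i d * Loc.opX k d) ∧
    (∀ k, Loc.opX k d * ∑ i, Loc.opE k i d = Loc.opX k d)

/-- commutation of `t` with `e`, and distant commutation -/
def S_rT (D : Datum K I) : Prop :=
  ∀ (P : Type) [AddCommGroup P] [Module K P] (d : Loc D P),
    (∀ k, Loc.opT k d * ∑ i, Loc.opE k i d = Loc.opT k d) ∧
    (∀ k, Loc.opT k d * ∑ i, Loc.opE (k + 1) i d = Loc.opT k d) ∧
    (∀ k i, Loc.opT k d * Loc.opE k i d = Loc.opE (k + 1) i d * Loc.opT k d) ∧
    (∀ k i, Loc.opT k d * Loc.opE (k + 1) i d = Loc.opE k i d * Loc.opT k d) ∧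
    (∀ k l i, l ≠ k → l ≠ k + 1 → Loc.opT k d * Loc.opE l i d = Loc.opE l i d * Loc.opT k d) ∧
    (∀ k l, l ≠ k → l ≠ k + 1 → Loc.opT k d * Loc.opX l d = Loc.opX l d * Loc.opT k d) ∧
    (∀ k l, k + 1 < l → Loc.opT k d * Loc.opT l d = Loc.opT l d * Loc.opT k d)

/-- the relations of `t k` with `x k`, `x (k + 1)`, and the square of `t k` -/
def S_rQ (D : Datum K I) : Prop :=
  ∀ (P : Type) [AddCommGroup P] [Module K P] (d : Loc D P),
    (∀ k, Loc.opT k d * Loc.opX k d =
      Loc.opX (k + 1) d * Loc.opT k d - ∑ i, Loc.opE k i d * Loc.opE (k + 1) i d) ∧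
    (∀ k, Loc.opT k d * Loc.opX (k + 1) d =
      Loc.opX k d * Loc.opT k d + ∑ i, Loc.opE k i d * Loc.opE (k + 1) i d) ∧
    (∀ k, Loc.opT k d * Loc.opT k d = ∑ i, ∑ j, if i = j then 0 else
      D.QE i j (Loc.opX k d) (Loc.opX (k + 1) d) *
        (Loc.opE k i d * Loc.opE (k + 1) j d))

/-- the braid relation -/
def S_rB (D : Datum K I) : Prop :=
  ∀ (P : Type) [AddCommGroup P] [Module K P] (d : Loc D P) (k : ℕ),
    Loc.opT (k + 1) d * Loc.opT k d * Loc.opT (k + 1) d -
      Loc.opT k d * Loc.opT (k + 1) d * Loc.opT k d =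
    ∑ i, ∑ j, if i = j then 0 else
      D.QD i j (Loc.opX k d) (Loc.opX (k + 2) d) (Loc.opX (k + 1) d) *
        (Loc.opE k i d * Loc.opE (k + 1) j d * Loc.opE (k + 2) i d)

theorem rels_of {D : Datum K I} (hE : S_rE D) (hT : S_rT D) (hQ : S_rQ D) (hB : S_rB D) :
    S_rels D := by
  intro P _ _ d
  obtain ⟨h1, h2, h3, h4, h5⟩ := hE P d
  obtain ⟨g1, g2, g3, g4, g5, g6, g7⟩ := hT P d
  obtain ⟨f1, f2, f3⟩ := hQ P d
  exact ⟨h1, h2, h3, h4, h5, g1, g2, g3, g4, g5, g6, f1, f2, f3, g7, hB P d⟩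

/-- the action of the KLR algebra on the functions on words -/
noncomputable def rV {D : Datum K I} (h : S_rels D) {P : Type} [AddCommGroup P] [Module K P]
    (d : Loc D P) : KLRAlg D →ₐ[K] Module.End K (List Bool → P) := liftHom (h P d)

/-- recursion for `rV` -/
def S_rV (D : Datum K I) : Prop := ∀ (h : S_rels D) (P : Type) [AddCommGroup P] [Module K P]
  (d : Loc D P) (a : KLRAlg D) (f : List Bool → P) (w : List Bool),
    (rV h d (D.shn 1 a) f (false :: w) = rV h d.shF a (Loc.tl (K := K) false f) w) ∧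
    (rV h d (D.shn 1 a) f (true :: w) = rV h d.shT a (Loc.tl (K := K) true f) w) ∧
    (f [] = 0 → rV h d a f [] = 0)

/-- `iota` is balanced -/
def S_bal (D : Datum K I) : Prop := ∀ (h : S_rels D) (P : Type) [AddCommGroup P] [Module K P]
  (d : Loc D P) (m n : ℕ), StrandHom D m d.r1 → StrandHom D n d.r2 → ∀ (a : KLRAlg D) (p : P),
    rV h d (D.tr m a) (Loc.iota (K := K) m n p) = Loc.iota (K := K) m n (d.r1 a p) ∧
    rV h d (D.shn m a) (Loc.iota (K := K) m n p) = Loc.iota (K := K) m n (d.r2 a p)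

/-- independence of the `tw w (iota p_w)` -/
def S_ind (D : Datum K I) : Prop := ∀ (h : S_rels D) (P : Type) [AddCommGroup P] [Module K P]
  (d : Loc D P) (m n : ℕ), StrandHom D m d.r1 → StrandHom D n d.r2 →
    ∀ (S : Finset (List Bool)), (∀ w ∈ S, w.count false = m ∧ w.count true = n) →
    ∀ p : List Bool → P, ∑ w ∈ S, rV h d (D.tw w) (Loc.iota (K := K) m n (p w)) = 0 →
    ∀ w ∈ S, p w = 0

/-! ### localisation and regular modules -/

/-- the operator `∏_(i < m) ∏_(j < n) (x_i - y_j)` for two actions -/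
noncomputable def zz (D : Datum K I) (m n : ℕ) {U : Type} [AddCommGroup U] [Module K U]
    (r1 r2 : KLRAlg D →ₐ[K] Module.End K U) : Module.End K U :=
  ((List.range m).map fun i =>
    ((List.range n).map fun j => r1 (D.x i) - r2 (D.x j)).prod).prod

/-- if `zz` is injective then two commuting actions of strands on `U` embed in a `Loc` -/
def S_loc (D : Datum K I) : Prop :=
  ∀ (m n : ℕ) (U : Type) [AddCommGroup U] [Module K U] (r1 r2 : KLRAlg D →ₐ[K] Module.End K U),
    (∀ a b, r1 a * r2 b = r2 b * r1 a) → StrandHom D m r1 → StrandHom D n r2 →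
    Function.Injective (zz D m n r1 r2) →
    ∃ (P : Type) (_ : AddCommGroup P) (_ : Module K P) (d : Loc D P) (j : U →ₗ[K] P),
      Function.Injective j ∧ StrandHom D m d.r1 ∧ StrandHom D n d.r2 ∧
      (∀ a u, d.r1 a (j u) = j (r1 a u)) ∧ (∀ a u, d.r2 a (j u) = j (r2 a u))

section act

variable (D : Datum K I) (M N : Type) [AddCommGroup M] [Module K M] [Module (KLRAlg D) M]
  [IsScalarTower K (KLRAlg D) M] [AddCommGroup N] [Module K N] [Module (KLRAlg D) N]
  [IsScalarTower K (KLRAlg D) N]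

/-- the action on the first factor -/
noncomputable def act1 : KLRAlg D →ₐ[K] Module.End K (M ⊗[K] N) :=
  (Module.End.rTensorAlgHom K M N).comp (Algebra.lsmul K K M)

/-- the action on the second factor -/
noncomputable def act2 : KLRAlg D →ₐ[K] Module.End K (M ⊗[K] N) :=
  (Module.End.lTensorAlgHom K N M).comp (Algebra.lsmul K K N)

/-- `∏_(i < m) ∏_(j < n) (x_i - y_j)` is injective on `M ⊗ N` -/
def ZInj (m n : ℕ) : Prop := Function.Injective (zz D m n (act1 D M N) (act2 D M N))

end act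

/-- independence if `zz` is injective -/
def S_locInj (D : Datum K I) : Prop :=
  ∀ (m n : ℕ) (M N : Type) [AddCommGroup M] [Module K M] [Module (KLRAlg D) M]
    [IsScalarTower K (KLRAlg D) M]
    [AddCommGroup N] [Module K N] [Module (KLRAlg D) N] [IsScalarTower K (KLRAlg D) N],
    IsStrand D m M → IsStrand D n N → ZInj D M N m n → Function.Injective (convSum D m n M N)

/-- surjectivity -/
def S_convSurj (D : Datum K I) : Prop :=
  ∀ (m n : ℕ) (M N : Type) [AddCommGroup M] [Module K M] [Module (KLRAlg D) M]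
    [IsScalarTower K (KLRAlg D) M]
    [AddCommGroup N] [Module K N] [Module (KLRAlg D) N] [IsScalarTower K (KLRAlg D) N],
    IsStrand D m M → IsStrand D n N → Function.Surjective (convSum D m n M N)

/-! regular modules -/

/-- the (two-sided) ideal of the elements killing all modules with `n` strands -/
noncomputable def Jn (D : Datum K I) (n : ℕ) : Submodule (KLRAlg D) (KLRAlg D) :=
  Submodule.span (KLRAlg D)
    ({a | ∃ k i, n ≤ k ∧ a = D.e k i} ∪ {a | ∃ k, k < n ∧ a = 1 - D.E k})

/-- the algebra `R(n)` as a module over itself -/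
def Reg (D : Datum K I) (n : ℕ) : Type := KLRAlg D ⧸ Jn D n

noncomputable instance (D : Datum K I) (n : ℕ) : AddCommGroup (Reg D n) :=
  inferInstanceAs (AddCommGroup (KLRAlg D ⧸ Jn D n))
noncomputable instance (D : Datum K I) (n : ℕ) : Module K (Reg D n) :=
  inferInstanceAs (Module K (KLRAlg D ⧸ Jn D n))
noncomputable instance (D : Datum K I) (n : ℕ) : Module (KLRAlg D) (Reg D n) :=
  inferInstanceAs (Module (KLRAlg D) (KLRAlg D ⧸ Jn D n))
instance (D : Datum K I) (n : ℕ) : IsScalarTower K (KLRAlg D) (Reg D n) :=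
  inferInstanceAs (IsScalarTower K (KLRAlg D) (KLRAlg D ⧸ Jn D n))

/-- the class of `a` -/
noncomputable def Reg.mk (D : Datum K I) (n : ℕ) : KLRAlg D →ₗ[KLRAlg D] Reg D n :=
  (Jn D n).mkQ

/-- the regular module has `n` strands, it is free on one generator among the modules with `n`
strands, and right multiplication is defined -/
def S_reg (D : Datum K I) : Prop := ∀ n : ℕ, IsStrand D n (Reg D n) ∧
  (∀ (M : Type) [AddCommGroup M] [Module (KLRAlg D) M], IsStrand D n M → ∀ u : M,
    ∃ f : Reg D n →ₗ[KLRAlg D] M, ∀ a, f (Reg.mk D n a) = a • u) ∧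
  ∀ b : KLRAlg D, ∃ f : Reg D n →ₗ[KLRAlg D] Reg D n, ∀ a, f (Reg.mk D n a) = Reg.mk D n (a * b)

/-- `R(n + 1)` is induced from `R(n) ⊗ R(1)` -/
def S_regSucc (D : Datum K I) : Prop := ∀ n : ℕ,
  ∃ f : Reg D (n + 1) ≃ₗ[KLRAlg D] Conv D n (Reg D n) (Reg D 1),
    f (Reg.mk D (n + 1) 1) = Conv.mk D n (Reg D n) (Reg D 1) (Reg.mk D n 1) (Reg.mk D 1 1)

/-- `∏_(i < m) (X_i - y)` is injective on `V ⊗ R(1)` -/
def S_z1 (D : Datum K I) : Prop := ∀ (m : ℕ) (V : Type) [AddCommGroup V] [Module K V]
  (X : ℕ → Module.End K V), (∀ i j, X i * X j = X j * X i) →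
  Function.Injective (((List.range m).map fun i =>
    (X i).rTensor (Reg D 1) - (Algebra.lsmul K K (Reg D 1) (D.x 0)).lTensor V).prod)

/-- `∏_(i < m) ∏_(j < n) (X_i - y_j)` is injective on `V ⊗ R(n)` -/
def S_zn (D : Datum K I) : Prop := ∀ (m n : ℕ) (V : Type) [AddCommGroup V] [Module K V]
  (X : ℕ → Module.End K V), (∀ i j, X i * X j = X j * X i) →
  Function.Injective (((List.range m).map fun i => ((List.range n).map fun j =>
    (X i).rTensor (Reg D n) - (Algebra.lsmul K K (Reg D n) (D.x j)).lTensor V).prod).prod)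

end Pbw

end Pool.Agent.KLS

end
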