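import Pool.Agent.Work.MP_e487d8_al.Bd.B05
import Pool.Agent.Work.MP_e487d8_al.Bd.B03

/-! Bundle of small proof modules (one section per former module). -/

section

/-! MP_e487d8_al, block DG, item DAG: the lower bounds ULB give PDag. -/

set_option autoImplicit false

namespace Pool.Agent.KLSAbs

open scoped LaurentPolynomial

variable {I S O K : Type} [DecidableEq I] [CommRing O] [Algebra ℚ O] [Ring K]
  [Algebra ℤ[T;T⁻¹] K] (s : Sys2 I S O K)

namespace XGDAG

/-- a common lower bound -/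
theorem exists_common {P : S → ℚ → Prop} (hmono : ∀ x κ κ', κ' ≤ κ → P x κ → P x κ')
    (T : Finset S) (h : ∀ x ∈ T, ∃ κ : ℚ, 0 < κ ∧ P x κ) :
    ∃ κ : ℚ, 0 < κ ∧ ∀ x ∈ T, P x κ := by
  classical
  induction T using Finset.induction_on with
  | empty => exact ⟨1, one_pos, by simp⟩
  | insert a T ha ih =>
    obtain ⟨κ₁, h1, h2⟩ := ih fun x hx => h x (Finset.mem_insert_of_mem hx)
    obtain ⟨κ₂, h3, h4⟩ := h a (Finset.mem_insert_self a T)
    refine ⟨min κ₁ κ₂, lt_min h1 h3, fun x hx => ?_⟩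
    rcases Finset.mem_insert.1 hx with rfl | hx
    · exact hmono _ _ _ (min_le_right _ _) h4
    · exact hmono _ _ _ (min_le_left _ _) (h2 x hx)

/-- the functional on multiplicity vectors -/
noncomputable def Fi (ph : O →ₐ[ℚ] ℚ) (f : S →₀ ℕ) : ℚ := f.sum fun W n => (n : ℚ) * ph (s.b W)

theorem Fi_add (ph : O →ₐ[ℚ] ℚ) (f g : S →₀ ℕ) : Fi s ph (f + g) = Fi s ph f + Fi s ph g := by
  classical
  unfold Fi
  exact Finsupp.sum_add_index' (fun _ => by simp) (fun _ _ _ => by push_cast; ring)

theorem Fi_single (ph : O →ₐ[ℚ] ℚ) (W : S) : Fi s ph (Finsupp.single W 1) = ph (s.b W) := by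
  unfold Fi
  rw [Finsupp.sum_single_index (by simp)]
  simp

theorem Fi_nonneg (ph : O →ₐ[ℚ] ℚ) (hp : ∀ X, 0 < ph (s.b X)) (f : S →₀ ℕ) :
    0 ≤ Fi s ph f := by
  unfold Fi
  exact Finset.sum_nonneg fun W _ => mul_nonneg (Nat.cast_nonneg _) (hp W).le

theorem Fi_co (ph : O →ₐ[ℚ] ℚ) (X Y : S) :
    Fi s ph (s.co X Y) = ph (s.b X) * ph (s.b Y) := by
  rw [← map_mul, s.b_mul, Fi, Finsupp.sum, Finsupp.sum, map_sum]
  exact Finset.sum_congr rfl fun W _ => by rw [map_smul, smul_eq_mul]

theorem ph_two (ph : O →ₐ[ℚ] ℚ) (hp : ∀ X, 0 < ph (s.b X)) {C Z Z' Y : S} {Q : S →₀ ℕ}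
    (h : s.co C Z = Finsupp.single Z' 1 + Finsupp.single Y 1 + Q) :
    ph (s.b Z') + ph (s.b Y) ≤ ph (s.b C) * ph (s.b Z) := by
  rw [← Fi_co, h, Fi_add, Fi_add, Fi_single, Fi_single]
  linarith [Fi_nonneg s ph hp Q]

theorem ph_one (ph : O →ₐ[ℚ] ℚ) (hp : ∀ X, 0 < ph (s.b X)) {C Z Z' : S}
    (h : s.co C Z Z' ≠ 0) : ph (s.b Z') ≤ ph (s.b C) * ph (s.b Z) := by
  classical
  have h1 : s.co C Z = Finsupp.single Z' 1 + (s.co C Z - Finsupp.single Z' 1) := by
    rw [add_tsub_cancel_of_le]
    rw [Finsupp.single_le_iff]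
    omega
  rw [← Fi_co, h1, Fi_add, Fi_single]
  linarith [Fi_nonneg s ph hp (s.co C Z - Finsupp.single Z' 1)]

theorem eq_of_co {X Y Z W : S} (h : s.b X * s.b Y = s.b Z) (hW : s.co X Y W ≠ 0) : W = Z := by
  classical
  by_contra hne
  have h1 := s.repr_mul X Y W
  rw [h, s.repr_b, if_neg (Ne.symm hne)] at h1
  exact hW (by exact_mod_cast h1.symm)

end XGDAG

open XGDAG in
theorem Sys2.I_DAG (s : Sys2 I S O K) (h0 : s.St_PH) (h1 : s.St_PHP) : s.St_DAG := by
  classical
  intro i C hC hU B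
  choose σ₀ hσ₁ hσ₂ using hU
  set σ : ℚ := (∑ B' ∈ (s.co C B).support, σ₀ B') + 1 with hσ
  have hσ0 : 0 ≤ σ := by
    have : (0 : ℚ) ≤ ∑ B' ∈ (s.co C B).support, σ₀ B' :=
      Finset.sum_nonneg fun x _ => by linarith [hσ₁ x]
    linarith
  have hσle : ∀ B' ∈ (s.co C B).support, σ₀ B' ≤ σ := by
    intro B' hB'
    have := Finset.single_le_sum (f := σ₀) (fun x _ => by linarith [hσ₁ x]) hB'
    linarith
  obtain ⟨ph, hph⟩ := h0 i σ
  obtain ⟨-, hp, -⟩ := h1 i σ ph hσ0 hph
  -- the common constant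
  obtain ⟨κ, hκ, hκ2⟩ := exists_common
    (P := fun B' κ => ∀ (n : ℕ) (T Y : S), s.b C ^ n = s.b T → s.Hd T B' Y →
      κ * ph (s.b C) ^ n ≤ ph (s.b Y))
    (fun x κ κ' hle h n T Y h1 h2 => le_trans
      (mul_le_mul_of_nonneg_right hle (pow_nonneg (hp C).le n)) (h n T Y h1 h2))
    (s.co C B).support (fun B' hB' => hσ₂ B' σ ph (hσle B' hB') hph)
  -- the chain
  choose nx hnx using fun Z => s.hd_ex C Z
  set Z : ℕ → S := fun n => nx^[n] B with hZ
  have hZ0 : Z 0 = B := rfl
  have hZs : ∀ n, s.Hd C (Z n) (Z (n + 1)) := by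
    intro n
    have : Z (n + 1) = nx (Z n) := by
      simp only [hZ, Function.iterate_succ_apply']
    rw [this]
    exact hnx _
  choose T hT using hC
  have hTs : ∀ n, s.b C * s.b (T n) = s.b (T (n + 1)) := by
    intro n
    rw [← hT, ← hT, pow_succ']
  have hHd : ∀ n, s.Hd (T n) B (Z n) := by
    intro n
    induction n with
    | zero =>
      have e1 : T 0 = s.one := by
        apply s.b_inj
        rw [← hT, pow_zero, s.b_one]
      obtain ⟨W, hW⟩ := s.hd_ex s.one B
      have e2 : W = B := eq_of_co s (by rw [s.b_one, one_mul]) (s.hd_co _ _ _ hW)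
      rw [e1, hZ0]
      rw [e2] at hW
      exact hW
    | succ n ih => exact s.hd_as C (T n) B (T (n + 1)) (Z n) (Z (n + 1)) (hTs n) ih (hZs n)
  set c : ℚ := ph (s.b C) with hc
  have hc0 : 0 < c := hp C
  set m : ℕ → ℚ := fun n => ph (s.b (Z n)) / c ^ n with hm
  have hm0 : ∀ n, 0 ≤ m n := fun n => div_nonneg (hp _).le (pow_nonneg hc0.le n)
  have hmono : ∀ n, m (n + 1) ≤ m n := by
    intro n
    have e := ph_one s ph hp (s.hd_co _ _ _ (hZs n))
    simp only [hm]
    rw [div_le_div_iff₀ (pow_pos hc0 _) (pow_pos hc0 _), pow_succ]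
    calc ph (s.b (Z (n + 1))) * c ^ n ≤ (c * ph (s.b (Z n))) * c ^ n :=
          mul_le_mul_of_nonneg_right e (pow_nonneg hc0.le n)
      _ = ph (s.b (Z n)) * (c ^ n * c) := by ring
  have hanti : ∀ a b, a ≤ b → m b ≤ m a := fun a b hab => antitone_nat_of_succ_le hmono hab
  have hdrop : ∀ n, (¬ ∃ W, s.b C * s.b (Z n) = s.b W) → m (n + 1) ≤ m n - κ / c := by
    intro n hn
    obtain ⟨B', Y, Q, hB', hY, hQ⟩ := s.ds (T n) B C (Z n) (Z (n + 1)) (hHd n) (hZs n) hn
    have e := ph_two s ph hp hQ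
    have e2 := hκ2 B' (Finsupp.mem_support_iff.2 hB') n (T n) Y (hT n) hY
    have e3 : ph (s.b (Z (n + 1))) + κ * c ^ n ≤ c * ph (s.b (Z n)) := by linarith
    have e4 : m n - κ / c = (c * ph (s.b (Z n)) - κ * c ^ n) / c ^ (n + 1) := by
      simp only [hm]
      have : c ≠ 0 := hc0.ne'
      field_simp
      ring
    rw [e4]
    simp only [hm]
    exact div_le_div_of_nonneg_right (by linarith) (pow_nonneg hc0.le _)
  -- only finitely many drops
  have hfin : ∃ n₀, ∀ n, n₀ ≤ n → ∃ W, s.b C * s.b (Z n) = s.b W := by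
    by_contra hne
    push Not at hne
    have hk : ∀ k : ℕ, ∃ n, m n ≤ m 0 - k * (κ / c) := by
      intro k
      induction k with
      | zero => exact ⟨0, by simp⟩
      | succ k ih =>
        obtain ⟨n, hn⟩ := ih
        obtain ⟨n', h2, h3⟩ := hne n
        refine ⟨n' + 1, ?_⟩
        have h4 := hdrop n' (by push Not; exact h3)
        have h5 := hanti n n' h2
        push_cast
        linarith
    obtain ⟨k, hk'⟩ := exists_nat_gt (m 0 / (κ / c))
    obtain ⟨n, hn⟩ := hk k
    have hκc : 0 < κ / c := div_pos hκ hc0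
    rw [div_lt_iff₀ hκc] at hk'
    linarith [hm0 n]
  obtain ⟨n₀, hn₀⟩ := hfin
  have hstep : ∀ n, n₀ ≤ n → s.b C * s.b (Z n) = s.b (Z (n + 1)) := by
    intro n hn
    obtain ⟨W, hW⟩ := hn₀ n hn
    rw [eq_of_co s hW (s.hd_co _ _ _ (hZs n))]
    exact hW
  refine ⟨n₀, T n₀, Z n₀, hT n₀, hHd n₀, fun k => ⟨Z (n₀ + k), ?_⟩⟩
  induction k with
  | zero => rw [pow_zero, one_mul, add_zero]
  | succ k ih => rw [pow_succ', mul_assoc, ih, hstep _ (by omega), add_assoc]

end Pool.Agent.KLSAbs

end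

section

/-! MP_e487d8_al, abstract part: bounded length for `C` implies `PDag C`. -/

set_option autoImplicit false

namespace Pool.Agent.KLSAbs

open scoped LaurentPolynomial

variable {I S O K : Type} [DecidableEq I] [CommRing O] [Algebra ℚ O] [Ring K]
  [Algebra ℤ[T;T⁻¹] K]

theorem Sys2.I_DAG0 (s : Sys2 I S O K) (h : s.St_STS) : s.St_DAG0 := by
  intro C hC hST X
  obtain ⟨n₀, Q, hQ, hZ⟩ := h C hC hST X
  obtain ⟨T, hT⟩ := hC n₀
  obtain ⟨Z, hd⟩ := s.hd_ex T X
  have h1 : s.Sp (s.b C ^ n₀ * s.b X) Z := by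
    rw [hT]
    unfold Sys2.Sp
    rw [s.repr_mul]
    exact Nat.cast_ne_zero.2 (s.hd_co T X Z hd)
  obtain ⟨X', hX', h2⟩ := hZ n₀ Z le_rfl h1
  rw [Nat.sub_self, pow_zero, one_mul] at h2
  have h3 : X' = Z := s.b_inj h2
  exact ⟨n₀, T, Z, hT, hd, h3 ▸ hQ X' hX'⟩

end Pool.Agent.KLSAbs

end

section

/-! MP_e487d8_al, abstract part: DEF, the constituents of `e_i^(m) (C^n ∘ B)` for `m ≥ n ε_i(C)`. -/

set_option autoImplicit false

namespace Pool.Agent.KLSAbs

open scoped LaurentPolynomial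

variable {I S O K : Type} [DecidableEq I] [CommRing O] [Algebra ℚ O] [Ring K]
  [Algebra ℤ[T;T⁻¹] K]

namespace Sys2

namespace XGDEF

variable {s : Sys2 I S O K}

/-- Leibniz rule for supports. -/
theorem leib (i : I) (m : ℕ) : ∀ (x y : O) (Z : S), s.Sp ((s.de i ^ m) (x * y)) Z →
    ∃ p q, p + q = m ∧ s.Sp ((s.de i ^ p) x * (s.de i ^ q) y) Z := by
  induction m with
  | zero =>
    intro x y Z h
    exact ⟨0, 0, rfl, h⟩
  | succ m ih =>
    intro x y Z h
    rw [pow_succ, Module.End.mul_apply, s.de_mul, map_add] at h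
    rcases h.of_add with h | h
    · obtain ⟨p, q, hpq, h1⟩ := ih _ _ _ h
      refine ⟨p + 1, q, by omega, ?_⟩
      rw [pow_succ, Module.End.mul_apply]
      exact h1
    · obtain ⟨p, q, hpq, h1⟩ := ih _ _ _ h
      refine ⟨p, q + 1, by omega, ?_⟩
      rw [pow_succ (s.de i) q, Module.End.mul_apply]
      exact h1

theorem sp_co {X Y Z : S} (h : s.co X Y Z ≠ 0) : s.Sp (s.b X * s.b Y) Z := by
  unfold Sp
  rw [s.repr_mul]
  exact_mod_cast h

/-- Replacing the second factor. -/
theorem sp_mul_right {x y y' : O} {Z : S} (hx : s.Ps x) (hy : s.Ps y')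
    (h : ∀ Y, s.Sp y Y → s.Sp y' Y) (hZ : s.Sp (x * y) Z) : s.Sp (x * y') Z := by
  obtain ⟨X, Y, h1, h2, h3⟩ := hZ.of_mul
  exact Sp.mul hx hy h1 (h Y h2) (sp_co h3)

theorem sp_sum {ι : Type*} {T : Finset ι} {f : ι → O} (h : ∀ k ∈ T, s.Ps (f k)) {k : ι}
    (hk : k ∈ T) {Z : S} (hZ : s.Sp (f k) Z) : s.Sp (∑ j ∈ T, f j) Z := by
  classical
  rw [← Finset.add_sum_erase T f hk]
  exact hZ.add_left (h k hk) (Ps.sum fun j hj => h j (Finset.mem_of_mem_erase hj))

/-- the sum of the lower derivatives -/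
noncomputable def Lo (s : Sys2 I S O K) (i : I) (C : S) : O :=
  ∑ j ∈ Finset.range (s.eps i C), (s.de i ^ j) (s.b C)

/-- the sum of all derivatives -/
noncomputable def Al (s : Sys2 I S O K) (i : I) (B : S) : O :=
  ∑ j ∈ Finset.range (s.eps i B + 1), (s.de i ^ j) (s.b B)

theorem ps_Lo (i : I) (C : S) : s.Ps (Lo s i C) := Ps.sum fun j _ => (ps_b C).de_pow i j

theorem ps_Al (i : I) (B : S) : s.Ps (Al s i B) := Ps.sum fun j _ => (ps_b B).de_pow i j

theorem main (i : I) (C B : S) (n : ℕ) : ∀ (m : ℕ) (Z : S),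
    s.Sp ((s.de i ^ m) (s.b C ^ n * s.b B)) Z → ∃ r, r ≤ n ∧
      m + r ≤ n * s.eps i C + s.eps i B ∧
      s.Sp (s.b (s.E i C) ^ (n - r) * (Lo s i C ^ r * Al s i B)) Z := by
  induction n with
  | zero =>
    intro m Z h
    rw [pow_zero, one_mul] at h
    have hm : m ≤ s.eps i B := by
      by_contra hne
      push Not at hne
      apply h
      rw [de_pow_b i B hne, map_zero, Finsupp.zero_apply]
    refine ⟨0, le_rfl, by omega, ?_⟩
    rw [Nat.sub_zero, pow_zero, pow_zero, one_mul, one_mul]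
    exact sp_sum (f := fun j => (s.de i ^ j) (s.b B)) (fun j _ => (ps_b B).de_pow i j)
      (Finset.mem_range.2 (by omega)) h
  | succ n ih =>
    intro m Z h
    rw [pow_succ', mul_assoc] at h
    obtain ⟨p, q, hpq, h1⟩ := leib i m _ _ _ h
    obtain ⟨X, Y, hX, hY, hco⟩ := h1.of_mul
    obtain ⟨r, hr1, hr2, hr3⟩ := ih q Y hY
    have hps : s.Ps (s.b (s.E i C) ^ (n - r) * (Lo s i C ^ r * Al s i B)) :=
      ((ps_b _).pow _).mul (((ps_Lo i C).pow _).mul (ps_Al i B))
    have hp : p ≤ s.eps i C := by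
      by_contra hne
      push Not at hne
      apply hX
      rw [de_pow_b i C hne, map_zero, Finsupp.zero_apply]
    rcases hp.lt_or_eq with hlt | heq
    · refine ⟨r + 1, by omega, by rw [Nat.add_mul]; omega, ?_⟩
      have hL : s.Sp (Lo s i C) X := by
        exact sp_sum (f := fun j => (s.de i ^ j) (s.b C)) (fun j _ => (ps_b C).de_pow i j)
          (Finset.mem_range.2 hlt) hX
      have h2 := Sp.mul (ps_Lo i C) hps hL hr3 (sp_co hco)
      have e : Lo s i C * (s.b (s.E i C) ^ (n - r) * (Lo s i C ^ r * Al s i B)) =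
          s.b (s.E i C) ^ (n + 1 - (r + 1)) * (Lo s i C ^ (r + 1) * Al s i B) := by
        rw [Nat.add_sub_add_right]
        ring
      rw [e] at h2
      exact h2
    · refine ⟨r, by omega, by rw [Nat.add_mul]; omega, ?_⟩
      have hC : s.Sp (s.b (s.E i C)) X := by
        rw [heq, s.de_top] at hX
        unfold Sp at hX ⊢
        rw [map_smul, Finsupp.smul_apply] at hX
        intro h0
        rw [h0] at hX
        exact hX (smul_zero _)
      have h2 := Sp.mul (ps_b _) hps hC hr3 (sp_co hco)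
      have e : s.b (s.E i C) * (s.b (s.E i C) ^ (n - r) * (Lo s i C ^ r * Al s i B)) =
          s.b (s.E i C) ^ (n + 1 - r) * (Lo s i C ^ r * Al s i B) := by
        rw [Nat.succ_sub hr1, pow_succ]
        ring
      rw [e] at h2
      exact h2

end XGDEF

open XGDEF in
theorem I_DEF (s : Sys2 I S O K) : s.St_DEF := by
  intro i C B
  set t := s.eps i B with ht
  have hps : ∀ r, s.Ps (s.b (s.E i C) ^ (t - r) * (Lo s i C ^ r * Al s i B)) := fun r =>
    ((ps_b _).pow _).mul (((ps_Lo i C).pow _).mul (ps_Al i B))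
  refine ⟨∑ r ∈ Finset.range (t + 1), s.b (s.E i C) ^ (t - r) * (Lo s i C ^ r * Al s i B),
    Ps.sum fun r _ => hps r, ?_⟩
  intro n m Z hn hm hZ
  obtain ⟨r, hr1, hr2, hr3⟩ := main i C B n m Z hZ
  have hrt : r ≤ t := by omega
  have e : s.b (s.E i C) ^ (n - r) * (Lo s i C ^ r * Al s i B) =
      s.b (s.E i C) ^ (n - t) * (s.b (s.E i C) ^ (t - r) * (Lo s i C ^ r * Al s i B)) := by
    rw [← mul_assoc (s.b (s.E i C) ^ (n - t)), ← pow_add]
    congr 2
    omega
  rw [e] at hr3
  refine sp_mul_right ((ps_b _).pow _) (Ps.sum fun r _ => hps r) (fun Y hY => ?_) hr3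
  exact sp_sum (f := fun r => s.b (s.E i C) ^ (t - r) * (Lo s i C ^ r * Al s i B))
    (fun r _ => hps r) (Finset.mem_range.2 (by omega)) hY

end Sys2

end Pool.Agent.KLSAbs

end

section

/-! MP_e487d8_al, abstract part, GI: some `f_i^a y` commutes with `L(i)`. -/

set_option autoImplicit false

namespace Pool.Agent.KLSAbs

open scoped LaurentPolynomial

variable {I S O K : Type} [DecidableEq I] [CommRing O] [Algebra ℚ O] [Ring K]
  [Algebra ℤ[T;T⁻¹] K]

namespace XGGI

omit [DecidableEq I] in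
theorem sumW_add (a : I → ℤ) (v w : I →₀ ℕ) : sumW a (v + w) = sumW a v + sumW a w := by
  classical
  unfold sumW
  rw [Finsupp.sum_add_index']
  · intro j
    simp
  · intro j m n
    push_cast
    ring

theorem sumW_single (a : I → ℤ) (i : I) (n : ℕ) :
    sumW a (Finsupp.single i n) = a i * n := by
  unfold sumW
  rw [Finsupp.sum_single_index]
  simp

variable (s : Sys2 I S O K)

/-- the weight sum in terms of `E i X` -/
theorem sumW_wt (i : I) (X : S) :
    sumW (s.car i) (s.wt X) = sumW (s.car i) (s.wt (s.E i X)) + 2 * s.eps i X := by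
  conv_lhs => rw [s.wt_E i X]
  rw [sumW_add, sumW_single, s.car_diag]

/-- the induction -/
theorem aux (i : I) (y : S) (N : ℕ) : ∀ X : S, s.E i X = y →
    (s.eps i X : ℤ) + s.eps' i X - sumW (s.car i) (s.wt X) ≤ N →
    ∃ g : S, s.E i g = y ∧ s.IC (s.lt i) g := by
  induction N with
  | zero =>
    intro X hX h
    have h1 := s.d_nonneg i X
    obtain ⟨Z, hZ⟩ := (s.cm_lt i X).2 (by push_cast at h; linarith)
    exact ⟨X, hX, s.ic_cm _ _ Z hZ⟩
  | succ N ih =>
    intro X hX h
    by_cases h0 : sumW (s.car i) (s.wt X) = (s.eps i X : ℤ) + s.eps' i X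
    · obtain ⟨Z, hZ⟩ := (s.cm_lt i X).2 h0
      exact ⟨X, hX, s.ic_cm _ _ Z hZ⟩
    · have h1 := s.d_nonneg i X
      have hlt : sumW (s.car i) (s.wt X) < (s.eps i X : ℤ) + s.eps' i X := lt_of_le_of_ne h1 h0
      obtain ⟨Y, hY1, hY2⟩ := s.eps_surj i (s.eps i X + 1) (s.E i X) (s.eps_E i X)
      have h2 := s.d_f i X Y hY1 hY2 hlt
      have h3 := sumW_wt s i Y
      have h4 := sumW_wt s i X
      refine ih Y (hY2.trans hX) ?_
      rw [hY2, hY1] at h3
      rw [hY1]
      have h5 : (s.eps' i Y : ℤ) ≤ s.eps' i X := by exact_mod_cast h2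
      push_cast at h3 h ⊢
      linarith

end XGGI

theorem Sys2.I_GI (s : Sys2 I S O K) : s.St_GI := by
  intro i y _
  obtain ⟨X, _, hX⟩ := s.eps_surj i 0 y ‹_›
  obtain ⟨g, hg, hic⟩ := XGGI.aux s i y
    ((s.eps i X : ℤ) + s.eps' i X - sumW (s.car i) (s.wt X)).toNat X hX (Int.self_le_toNat _)
  exact ⟨_, g, rfl, hg, hic⟩

end Pool.Agent.KLSAbs

end

section

/-! MP_e487d8_al, abstract part, item LB1. -/

set_option autoImplicit false

namespace Pool.Agent.KLSAbs

open scoped LaurentPolynomial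

variable {I S O K : Type} [DecidableEq I] [CommRing O] [Algebra ℚ O] [Ring K]
  [Algebra ℤ[T;T⁻¹] K]

namespace XGLB1

open Sys2

variable {s : Sys2 I S O K}

/-- the constituents of `x` are killed by `e_i^n` if `x` is -/
theorem eps_lt {x : O} (hx : s.Ps x) (i : I) (n : ℕ) (h : (s.de i ^ n) x = 0) (Z : S)
    (hZ : s.Sp x Z) : s.eps i Z < n := by
  by_contra hlt
  rw [not_lt] at hlt
  have h1 : s.Ps (x - s.b.repr x Z • s.b Z) := hx.sub_smul Z le_rfl
  have h2 : s.Ps (s.b.repr x Z • s.b Z) := Ps.smul (hx Z) (ps_b Z)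
  have h3 : (s.de i ^ n) (s.b.repr x Z • s.b Z) +
      (s.de i ^ n) (x - s.b.repr x Z • s.b Z) = 0 := by
    rw [← map_add, add_sub_cancel, h]
  have h4 := Ps.eq_zero_of_add (h2.de_pow i n) (h1.de_pow i n) h3
  rw [map_smul] at h4
  have h5 : (s.de i ^ n) (s.b Z) = 0 := (smul_eq_zero.1 h4).resolve_left hZ
  obtain ⟨k, hk⟩ := Nat.exists_eq_add_of_le hlt
  have h6 := s.de_top i Z
  rw [hk, add_comm n k, pow_add, Module.End.mul_apply, h5, map_zero] at h6
  have h7 := (smul_eq_zero.1 h6.symm).resolve_left (by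
    exact_mod_cast Nat.factorial_ne_zero _)
  exact s.b_ne_zero _ h7

/-- the coefficient of `F` in `e_i F'` -/
theorem coeff (i : I) (F F' : S) (m : ℕ) (hF : s.eps i F = m) (hF' : s.eps i F' = m + 1)
    (hE : s.E i F' = s.E i F) : s.b.repr (s.de i (s.b F')) F = (m : ℚ) + 1 := by
  classical
  set x := s.de i (s.b F') with hxdef
  have hx : s.Ps x := (ps_b F').de i
  have hm : (s.de i ^ m) x = ((m + 1).factorial : ℚ) • s.b (s.E i F) := by
    have h1 := s.de_top i F'
    rw [hF', pow_succ, Module.End.mul_apply, hE] at h1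
    exact h1
  have hm1 : (s.de i ^ (m + 1)) x = 0 := by
    have h1 := de_pow_b (s := s) i F' (n := m + 1 + 1) (by omega)
    rw [pow_succ, Module.End.mul_apply] at h1
    exact h1
  have hsum : s.b.repr ((s.de i ^ m) x) (s.E i F) = s.b.repr x F * (m.factorial : ℚ) := by
    conv_lhs => rw [s.expand x]
    rw [map_sum, map_sum, Finsupp.finsetSum_apply]
    have hterm : ∀ Z, s.Sp x Z → Z ≠ F →
        s.b.repr ((s.de i ^ m) (s.b.repr x Z • s.b Z)) (s.E i F) = 0 := by
      intro Z hZ hne
      have h1 := eps_lt hx i (m + 1) hm1 Z hZ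
      rw [map_smul, map_smul, Finsupp.smul_apply]
      rcases (Nat.lt_succ_iff.1 h1).lt_or_eq with h2 | h2
      · rw [de_pow_b i Z h2, map_zero, Finsupp.zero_apply, smul_zero]
      · have h3 := s.de_top i Z
        rw [h2] at h3
        rw [h3, map_smul, Finsupp.smul_apply, s.repr_b, if_neg, smul_zero, smul_zero]
        intro h4
        exact hne (s.eps_inj i Z F (by rw [h2, hF]) h4)
    rw [Finset.sum_eq_single F]
    · have h3 := s.de_top i F
      rw [hF] at h3
      rw [map_smul, map_smul, Finsupp.smul_apply, h3, map_smul, Finsupp.smul_apply, s.repr_b,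
        if_pos rfl, smul_eq_mul, smul_eq_mul, mul_one]
    · intro Z hZ hne
      exact hterm Z (Finsupp.mem_support_iff.1 hZ) hne
    · intro hF0
      rw [Finsupp.notMem_support_iff] at hF0
      rw [hF0, zero_smul, map_zero, map_zero, Finsupp.zero_apply]
  rw [hm, map_smul, Finsupp.smul_apply, s.repr_b, if_pos rfl, smul_eq_mul, mul_one,
    Nat.factorial_succ, Nat.cast_mul] at hsum
  have hfac : (m.factorial : ℚ) ≠ 0 := by exact_mod_cast Nat.factorial_ne_zero _
  have := mul_right_cancel₀ hfac hsum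
  rw [← this]
  push_cast
  rfl

end XGLB1

open XGLB1 in
theorem Sys2.I_LB1 (s : Sys2 I S O K) : s.St_LB1 := by
  intro i σ ph hσ hph F F' m hF hF' hE
  have hc := coeff i F F' m hF hF' hE
  set x := s.de i (s.b F') with hxdef
  have hx : s.Ps x := (ps_b F').de i
  have hy : s.Ps (x - ((m : ℚ) + 1) • s.b F) := hx.sub_smul F hc.ge
  have hj : ∀ j : ℕ, ((m : ℚ) + 1) * s.chi ((s.de i ^ j) (s.b F)) ≤ s.chi ((s.de i ^ j) x) := by
    intro j
    have h1 := (hy.de_pow i j).chi
    rw [map_sub, map_sub, map_smul, map_smul, smul_eq_mul] at h1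
    linarith
  have h1 := hph (s.b F') (m + 1 + 1) (de_pow_b i F' (by omega))
  have h2 := hph (s.b F) (m + 1) (de_pow_b i F (by omega))
  rw [Finset.sum_range_succ'] at h1
  rw [h1, h2, Finset.mul_sum]
  have h0 : 0 ≤ σ ^ 0 * s.chi ((s.de i ^ 0) (s.b F')) / ((Nat.factorial 0 : ℕ) : ℚ) := by
    have h3 := ((ps_b (s := s) F').de_pow i 0).chi
    rw [pow_zero, one_mul]
    exact div_nonneg h3 (Nat.cast_nonneg _)
  refine le_trans (Finset.sum_le_sum ?_) (le_add_of_nonneg_right h0)
  intro j hjm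
  rw [Finset.mem_range] at hjm
  have h4 : (s.de i ^ (j + 1)) (s.b F') = (s.de i ^ j) x := by
    rw [pow_succ, Module.End.mul_apply]
  rw [h4, Nat.factorial_succ, Nat.cast_mul]
  have hfac : (0 : ℚ) < (j.factorial : ℚ) := by exact_mod_cast Nat.factorial_pos _
  have h5 : 0 ≤ s.chi ((s.de i ^ j) (s.b F)) := ((ps_b F).de_pow i j).chi
  have h6 : (((j + 1 : ℕ) : ℚ)) * s.chi ((s.de i ^ j) (s.b F)) ≤ s.chi ((s.de i ^ j) x) := by
    refine le_trans (mul_le_mul_of_nonneg_right ?_ h5) (hj j)
    have : j ≤ m := by omega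
    push_cast
    have h7 : (j : ℚ) ≤ m := by exact_mod_cast this
    linarith
  have h8 : (0 : ℚ) < ((j + 1 : ℕ) : ℚ) := by positivity
  have e1 : σ * (σ ^ j * s.chi ((s.de i ^ j) (s.b F)) / (j.factorial : ℚ)) =
      σ ^ (j + 1) * (((j + 1 : ℕ) : ℚ) * s.chi ((s.de i ^ j) (s.b F))) /
        (((j + 1 : ℕ) : ℚ) * (j.factorial : ℚ)) := by
    field_simp
    ring
  rw [e1]
  exact div_le_div_of_nonneg_right (mul_le_mul_of_nonneg_left h6 (pow_nonneg hσ _)) (by positivity)

end Pool.Agent.KLSAbs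

end

section

/-! MP_e487d8_al, abstract part: (LBP). -/

set_option autoImplicit false

namespace Pool.Agent.KLSAbs

open scoped LaurentPolynomial

variable {I S O K : Type} [DecidableEq I] [CommRing O] [Algebra ℚ O] [Ring K]
  [Algebra ℤ[T;T⁻¹] K]

namespace XGLBP

theorem wt_one (s : Sys2 I S O K) : s.wt s.one = 0 := by
  classical
  have h5 : s.co s.one s.one s.one ≠ 0 := by
    have h6 := s.repr_mul s.one s.one s.one
    rw [s.b_one, one_mul, ← s.b_one, s.repr_b, if_pos rfl] at h6
    intro h7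
    rw [h7] at h6
    norm_num at h6
  have h6 := s.wt_co _ _ _ h5
  have h7 : s.wt s.one + 0 = s.wt s.one + s.wt s.one := by rw [add_zero]; exact h6
  exact (add_left_cancel h7).symm

theorem eps_lt (s : Sys2 I S O K) (i : I) : s.eps i (s.lt i) = 1 ∧ s.E i (s.lt i) = s.one := by
  classical
  have hne : s.lt i ≠ s.one := by
    intro h
    have h1 := s.wt_lt i
    rw [h, wt_one] at h1
    have h2 := congrArg (fun f => f i) h1
    simp at h2
  obtain ⟨j, hj⟩ := s.ex_eps _ hne
  have hji : j = i := by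
    by_contra hji
    have h1 := s.wt_E j (s.lt i)
    rw [s.wt_lt] at h1
    have h2 := congrArg (fun f => f j) h1
    simp only [Finsupp.add_apply, Finsupp.single_eq_same] at h2
    rw [Finsupp.single_eq_of_ne hji] at h2
    omega
  subst hji
  have h1 := s.wt_E j (s.lt j)
  rw [s.wt_lt] at h1
  have h2 := congrArg (fun f => f j) h1
  simp only [Finsupp.add_apply, Finsupp.single_eq_same] at h2
  have h3 : s.eps j (s.lt j) = 1 := by omega
  refine ⟨h3, ?_⟩
  rw [h3] at h1
  apply s.wt_zero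
  have h4 : 0 + Finsupp.single j 1 = s.wt (s.E j (s.lt j)) + Finsupp.single j 1 := by
    rw [zero_add]; exact h1
  exact (add_right_cancel h4).symm

theorem de_lt (s : Sys2 I S O K) (i : I) : s.de i (s.b (s.lt i)) = 1 := by
  have h := s.de_top i (s.lt i)
  obtain ⟨h1, h2⟩ := eps_lt s i
  rw [h1, h2, pow_one, s.b_one, Nat.factorial_one, Nat.cast_one, one_smul] at h
  exact h

theorem de_mul_pow (s : Sys2 I S O K) (i : I) (x : O) (hx : s.de i x = 0) (m : ℕ) :
    s.de i (x * s.b (s.lt i) ^ (m + 1)) = ((m : ℚ) + 1) • (x * s.b (s.lt i) ^ m) := by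
  induction m with
  | zero =>
    rw [zero_add, pow_one, pow_zero, s.de_mul, hx, de_lt, zero_mul, zero_add, Nat.cast_zero,
      zero_add, one_smul]
  | succ m ih =>
    rw [pow_succ _ (m + 1), ← mul_assoc, s.de_mul, ih, de_lt, mul_one, smul_mul_assoc, mul_assoc,
      ← pow_succ, Nat.cast_succ, add_smul ((m : ℚ) + 1) 1, one_smul]

theorem de_pow_mul_pow (s : Sys2 I S O K) (i : I) (x : O) (hx : s.de i x = 0) (m : ℕ) :
    (s.de i ^ m) (x * s.b (s.lt i) ^ m) = (m.factorial : ℚ) • x := by
  induction m with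
  | zero => simp
  | succ m ih =>
    rw [pow_succ, Module.End.mul_apply, de_mul_pow s i x hx, map_smul, ih, smul_smul,
      Nat.factorial_succ, Nat.cast_mul, Nat.cast_succ]

/-- LB1, several times -/
theorem lb_iter (s : Sys2 I S O K) (h2 : s.St_LB1) (i : I) (σ : ℚ) (ph : O →ₐ[ℚ] ℚ) (hσ : 0 ≤ σ)
    (hph : s.IsPh i σ ph) (F₀ : S) (c : ℕ) (hF₀ : s.eps i F₀ = c) (a : ℕ) :
    ∀ F : S, s.eps i F = a + c → s.E i F = s.E i F₀ → σ ^ a * ph (s.b F₀) ≤ ph (s.b F) := by
  induction a with
  | zero =>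
    intro F hF hE
    have : F = F₀ := s.eps_inj i F F₀ (by rw [hF, hF₀, zero_add]) hE
    rw [this, pow_zero, one_mul]
  | succ a ih =>
    intro F hF hE
    obtain ⟨F', hF', hE'⟩ := s.eps_surj i (a + c) (s.E i F₀) (s.eps_E i F₀)
    have h3 := ih F' hF' hE'
    have h4 := h2 i σ ph hσ hph F' F (a + c) hF' (by rw [hF]; omega) (by rw [hE, hE'])
    calc σ ^ (a + 1) * ph (s.b F₀) = σ * (σ ^ a * ph (s.b F₀)) := by ring
      _ ≤ σ * ph (s.b F') := mul_le_mul_of_nonneg_left h3 hσ
      _ ≤ ph (s.b F) := h4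

/-- the error term -/
theorem err (s : Sys2 I S O K) (i : I) (x : O) (a : ℕ) (hx : (s.de i ^ a) x = 0) (σ : ℚ)
    (ph : O →ₐ[ℚ] ℚ) (hσ : 1 ≤ σ) (hph : s.IsPh i σ ph) :
    σ * |ph x| ≤ (∑ n ∈ Finset.range a, |s.chi ((s.de i ^ n) x)| / (n.factorial : ℚ)) * σ ^ a := by
  rw [hph x a hx]
  have hσ0 : 0 ≤ σ := le_trans zero_le_one hσ
  calc σ * |∑ n ∈ Finset.range a, σ ^ n * s.chi ((s.de i ^ n) x) / (n.factorial : ℚ)|
      ≤ σ * ∑ n ∈ Finset.range a, |σ ^ n * s.chi ((s.de i ^ n) x) / (n.factorial : ℚ)| :=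
        mul_le_mul_of_nonneg_left (Finset.abs_sum_le_sum_abs _ _) hσ0
    _ = ∑ n ∈ Finset.range a, σ * |σ ^ n * s.chi ((s.de i ^ n) x) / (n.factorial : ℚ)| :=
        Finset.mul_sum _ _ _
    _ ≤ ∑ n ∈ Finset.range a, |s.chi ((s.de i ^ n) x)| / (n.factorial : ℚ) * σ ^ a := by
        refine Finset.sum_le_sum fun n hn => ?_
        have hn' : n + 1 ≤ a := Finset.mem_range.1 hn
        have h1 : σ ^ (n + 1) ≤ σ ^ a := pow_le_pow_right₀ hσ hn'
        rw [abs_div, abs_mul, abs_of_nonneg (pow_nonneg hσ0 n), abs_of_nonneg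
          (Nat.cast_nonneg (α := ℚ) n.factorial)]
        have h2 : 0 ≤ |s.chi ((s.de i ^ n) x)| / (n.factorial : ℚ) := by positivity
        calc σ * (σ ^ n * |s.chi ((s.de i ^ n) x)| / (n.factorial : ℚ))
            = |s.chi ((s.de i ^ n) x)| / (n.factorial : ℚ) * σ ^ (n + 1) := by ring
          _ ≤ |s.chi ((s.de i ^ n) x)| / (n.factorial : ℚ) * σ ^ a :=
              mul_le_mul_of_nonneg_left h1 h2
    _ = (∑ n ∈ Finset.range a, |s.chi ((s.de i ^ n) x)| / (n.factorial : ℚ)) * σ ^ a :=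
        (Finset.sum_mul _ _ _).symm

/-- the arithmetic at the end -/
theorem arith {σ c e F₀ F Y C sa : ℚ} (hσ : 0 < σ) (hF₀ : 0 ≤ F₀) (hC : 0 ≤ C)
    (hσC : 2 * C ≤ σ * c) (hF : 0 ≤ F) (h1 : sa * F₀ ≤ F) (h2 : σ * |e| ≤ C * sa)
    (h3 : c * F - e * F₀ ≤ Y) : c * F ≤ 2 * Y := by
  have h4 : e * F₀ ≤ |e| * F₀ := mul_le_mul_of_nonneg_right (le_abs_self e) hF₀
  have h5 : σ * (|e| * F₀) ≤ C * F := by
    calc σ * (|e| * F₀) = (σ * |e|) * F₀ := by ring
      _ ≤ (C * sa) * F₀ := mul_le_mul_of_nonneg_right h2 hF₀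
      _ = C * (sa * F₀) := by ring
      _ ≤ C * F := mul_le_mul_of_nonneg_left h1 hC
  have h6 : σ * (2 * (|e| * F₀)) ≤ σ * (c * F) := by
    calc σ * (2 * (|e| * F₀)) = 2 * (σ * (|e| * F₀)) := by ring
      _ ≤ 2 * (C * F) := by linarith
      _ = (2 * C) * F := by ring
      _ ≤ (σ * c) * F := mul_le_mul_of_nonneg_right hσC hF
      _ = σ * (c * F) := by ring
  have h7 := le_of_mul_le_mul_left h6 hσ
  linarith

theorem ps_sum (s : Sys2 I S O K) (Q : S →₀ ℕ) : s.Ps (Q.sum fun Z n => (n : ℚ) • s.b Z) := by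
  rw [Finsupp.sum]
  exact Sys2.Ps.sum fun Z _ => Sys2.Ps.smul (Nat.cast_nonneg _) (Sys2.ps_b Z)

end XGLBP

theorem Sys2.I_LBP (s : Sys2 I S O K) (h1 : s.St_PHP) (h2 : s.St_LB1) (h3 : s.St_GI) :
    s.St_LBP := by
  intro i y hy
  obtain ⟨a, g, hga, hgE, hIC⟩ := h3 i y hy
  have hQ : (s.de i ^ a) (s.b y * s.b (s.lt i) ^ a - s.b g) = 0 := by
    rw [map_sub, XGLBP.de_pow_mul_pow s i (s.b y) (s.de_zero i y hy) a]
    have h4 := s.de_top i g
    rw [hga, hgE] at h4
    rw [h4, sub_self]
  have hC : 0 ≤ ∑ n ∈ Finset.range a, |s.chi ((s.de i ^ n)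
      (s.b y * s.b (s.lt i) ^ a - s.b g))| / (n.factorial : ℚ) :=
    Finset.sum_nonneg fun n _ => by positivity
  have hchi := s.chi_pos y
  refine ⟨a, max 1 (2 * (∑ n ∈ Finset.range a, |s.chi ((s.de i ^ n)
      (s.b y * s.b (s.lt i) ^ a - s.b g))| / (n.factorial : ℚ)) / s.chi (s.b y)),
      le_max_left _ _, ?_⟩
  intro σ ph hσ hph k yk F Y N hk hyk haN hF hFE hY hYE
  have hσ1 : 1 ≤ σ := le_trans (le_max_left _ _) hσ
  have hσ0 : 0 ≤ σ := le_trans zero_le_one hσ1
  have hσ2 := le_trans (le_max_right _ _) hσ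
  rw [div_le_iff₀ hchi] at hσ2
  obtain ⟨hP1, hP2, hP3⟩ := h1 i σ ph hσ0 hph
  obtain ⟨F₀, hF₀, hF₀E⟩ := s.eps_surj i (N - a) k hk
  obtain ⟨Q, hQe⟩ := s.lbf i y k yk g F F₀ Y a (N - a) hy hk hyk hga hgE hIC hF₀ hF₀E
    (by rw [hF]; omega) hFE (by rw [hY]; omega) hYE
  have h5 := XGLBP.lb_iter s h2 i σ ph hσ0 hph F₀ (N - a) hF₀ a F (by rw [hF]; omega)
    (by rw [hFE, hF₀E])
  have h6 := XGLBP.err s i _ a hQ σ ph hσ1 hph
  have h7 := congrArg ph hQe
  have h8 := hP1 _ (XGLBP.ps_sum s Q)
  refine XGLBP.arith (c := s.chi (s.b y)) (lt_of_lt_of_le zero_lt_one hσ1) (hP2 F₀).le hC hσ2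
    (hP2 F).le h5 h6 ?_
  rw [← hP3 y hy]
  simp only [map_add, map_mul, map_pow, map_sub] at h7 h8 ⊢
  linarith

end Pool.Agent.KLSAbs

end

section

/-! MP_e487d8_al, abstract part, block DG: the mass functionals exist. -/

set_option autoImplicit false

namespace Pool.Agent.KLSAbs

open scoped LaurentPolynomial

variable {I S O K : Type} [DecidableEq I] [CommRing O] [Algebra ℚ O] [Ring K]
  [Algebra ℤ[T;T⁻¹] K]

namespace XGPH

open Finset

variable (s : Sys2 I S O K) (i : I)

/-- `e_i` is locally nilpotent -/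
theorem nil (x : O) : ∃ N, ∀ n, N ≤ n → (s.de i ^ n) x = 0 := by
  refine ⟨(s.b.repr x).support.sup (s.eps i) + 1, fun n hn => ?_⟩
  rw [s.expand x, map_sum]
  refine Finset.sum_eq_zero fun Z hZ => ?_
  have h1 : s.eps i Z ≤ (s.b.repr x).support.sup (s.eps i) := Finset.le_sup hZ
  rw [map_smul, Sys2.de_pow_b i Z (by omega), smul_zero]

/-- a bound for the nilpotency order -/
noncomputable def nb (x : O) : ℕ := (nil s i x).choose

theorem nb_spec (x : O) {n : ℕ} (hn : nb s i x ≤ n) : (s.de i ^ n) x = 0 :=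
  (nil s i x).choose_spec n hn

theorem pow_zero_of_le {x : O} {N n : ℕ} (h : (s.de i ^ N) x = 0) (hn : N ≤ n) :
    (s.de i ^ n) x = 0 := by
  obtain ⟨k, rfl⟩ := Nat.exists_eq_add_of_le hn
  rw [add_comm, pow_add, Module.End.mul_apply, h, map_zero]

/-- the coefficients -/
noncomputable def u (n : ℕ) (x : O) : ℚ := s.chi ((s.de i ^ n) x) / (n.factorial : ℚ)

/-- the polynomial `∑ u_n(x) X^n` -/
noncomputable def pl (x : O) : Polynomial ℚ :=
  ∑ n ∈ range (nb s i x), Polynomial.monomial n (u s i n x)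

theorem coeff_sum_monomial (N : ℕ) (f : ℕ → ℚ) (hf : ∀ n, N ≤ n → f n = 0) (n : ℕ) :
    (∑ k ∈ range N, Polynomial.monomial k (f k)).coeff n = f n := by
  rw [Polynomial.finsetSum_coeff]
  simp only [Polynomial.coeff_monomial]
  rw [Finset.sum_ite_eq']
  split_ifs with h
  · rfl
  · rw [hf n (by simpa using h)]

theorem coeff_pl (x : O) (n : ℕ) : (pl s i x).coeff n = u s i n x :=
  coeff_sum_monomial _ _ (fun n hn => by rw [u, nb_spec s i x hn, map_zero, zero_div]) n

theorem pl_eq {x : O} {N : ℕ} (h : (s.de i ^ N) x = 0) :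
    pl s i x = ∑ n ∈ range N, Polynomial.monomial n (u s i n x) := by
  ext n
  rw [coeff_pl, coeff_sum_monomial _ _ (fun n hn => by
    rw [u, pow_zero_of_le s i h hn, map_zero, zero_div])]

/-- Leibniz rule -/
theorem leib (x y : O) (n : ℕ) : (s.de i ^ n) (x * y) =
    ∑ kl ∈ antidiagonal n, n.choose kl.1 • ((s.de i ^ kl.1) x * (s.de i ^ kl.2) y) := by
  induction n with
  | zero => simp
  | succ n ih =>
    rw [Finset.sum_antidiagonal_choose_succ_nsmul
      (fun k l => (s.de i ^ k) x * (s.de i ^ l) y) n, pow_succ', Module.End.mul_apply, ih,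
      map_sum, ← Finset.sum_add_distrib]
    refine Finset.sum_congr rfl fun kl hkl => ?_
    replace hkl := Finset.HasAntidiagonal.mem_antidiagonal.1 hkl
    rw [map_nsmul, s.de_mul, Nat.choose_symm_of_eq_add hkl.symm, ← smul_add, pow_succ' _ kl.1,
      pow_succ' _ kl.2, Module.End.mul_apply, Module.End.mul_apply, add_comm]

theorem u_mul (x y : O) (n : ℕ) : u s i n (x * y) =
    ∑ kl ∈ antidiagonal n, u s i kl.1 x * u s i kl.2 y := by
  unfold u
  rw [leib, map_sum, Finset.sum_div]
  refine Finset.sum_congr rfl fun kl hkl => ?_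
  replace hkl := Finset.HasAntidiagonal.mem_antidiagonal.1 hkl
  have h1 := Nat.add_choose_mul_factorial_mul_factorial kl.1 kl.2
  rw [hkl, ← Nat.choose_symm_of_eq_add hkl.symm] at h1
  have h2 : (n.factorial : ℚ) = n.choose kl.1 * kl.1.factorial * kl.2.factorial := by
    rw [← h1]; push_cast; ring
  have h3 : (kl.1.factorial : ℚ) ≠ 0 := by positivity
  have h4 : (kl.2.factorial : ℚ) ≠ 0 := by positivity
  have h5 : (n.choose kl.1 : ℚ) ≠ 0 := by
    have := Nat.choose_pos (n := n) (k := kl.1) (by omega)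
    positivity
  rw [map_nsmul, map_mul, nsmul_eq_mul, h2]
  field_simp

theorem de_one : s.de i 1 = 0 := by
  have h := s.de_mul i 1 1
  rw [mul_one, mul_one, one_mul] at h
  have h1 : s.de i 1 + 0 = s.de i 1 + s.de i 1 := by rw [add_zero]; exact h
  exact (add_left_cancel h1).symm

theorem u_one (n : ℕ) : u s i n 1 = if n = 0 then 1 else 0 := by
  unfold u
  rcases n with _ | n
  · simp
  · rw [pow_succ, Module.End.mul_apply, de_one, map_zero, map_zero, zero_div, if_neg (by omega)]

/-- `x ↦ ∑ u_n(x) X^n` as a homomorphism of algebras -/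
noncomputable def P : O →ₐ[ℚ] Polynomial ℚ :=
  AlgHom.ofLinearMap
    { toFun := pl s i
      map_add' := fun x y => by
        ext n
        rw [Polynomial.coeff_add, coeff_pl, coeff_pl, coeff_pl, u, u, u, map_add, map_add,
          add_div]
      map_smul' := fun c x => by
        ext n
        rw [RingHom.id_apply, Polynomial.coeff_smul, coeff_pl, coeff_pl, u, u, map_smul,
          map_smul, smul_div_assoc] }
    (by
      ext n
      change (pl s i 1).coeff n = _
      rw [coeff_pl, u_one, Polynomial.coeff_one])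
    (fun x y => by
      ext n
      change (pl s i (x * y)).coeff n = (pl s i x * pl s i y).coeff n
      rw [coeff_pl, Polynomial.coeff_mul, u_mul]
      exact Finset.sum_congr rfl fun kl _ => by rw [coeff_pl, coeff_pl])

theorem P_apply (x : O) : P s i x = pl s i x := rfl

end XGPH

open XGPH in
theorem Sys2.I_PH (s : Sys2 I S O K) : s.St_PH := by
  intro i σ
  refine ⟨(Polynomial.aeval σ).comp (P s i), fun x N hN => ?_⟩
  rw [AlgHom.comp_apply, P_apply, pl_eq s i hN, map_sum]
  refine Finset.sum_congr rfl fun n _ => ?_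
  rw [Polynomial.aeval_monomial, u, Algebra.algebraMap_self, RingHom.id_apply]
  ring

end Pool.Agent.KLSAbs

end

section

/-! MP_e487d8_al, abstract part: the mass functionals are positive. -/

set_option autoImplicit false

namespace Pool.Agent.KLSAbs

open scoped LaurentPolynomial

variable {I S O K : Type} [DecidableEq I] [CommRing O] [Algebra ℚ O] [Ring K]
  [Algebra ℤ[T;T⁻¹] K]

namespace XGPHP

variable (s : Sys2 I S O K)

theorem term_nonneg {i : I} {σ : ℚ} (hσ : 0 ≤ σ) (X : S) (n : ℕ) :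
    0 ≤ σ ^ n * s.chi ((s.de i ^ n) (s.b X)) / (n.factorial : ℚ) :=
  div_nonneg (mul_nonneg (pow_nonneg hσ n) (Sys2.Ps.chi (Sys2.Ps.de_pow (Sys2.ps_b X) i n)))
    (Nat.cast_nonneg _)

theorem pos {i : I} {σ : ℚ} {ph : O →ₐ[ℚ] ℚ} (hσ : 0 ≤ σ) (h : s.IsPh i σ ph) (X : S) :
    0 < ph (s.b X) := by
  rw [h (s.b X) (s.eps i X + 1) (Sys2.de_pow_b i X (Nat.lt_succ_self _))]
  refine Finset.sum_pos' (fun n _ => term_nonneg s hσ X n) ⟨0, Finset.mem_range.2 (by omega), ?_⟩
  have h1 := s.chi_pos X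
  simpa using h1

end XGPHP

theorem Sys2.I_PHP (s : Sys2 I S O K) : s.St_PHP := by
  intro i σ ph hσ h
  refine ⟨fun x hx => ?_, XGPHP.pos s hσ h, fun X hX => ?_⟩
  · refine s.ind (p := fun x => 0 ≤ ph x) x hx (by rw [map_zero])
      (fun a b ha hb => by rw [map_add]; exact add_nonneg ha hb) (fun c Z hc => ?_)
    rw [map_smul, smul_eq_mul]
    exact mul_nonneg hc (XGPHP.pos s hσ h Z).le
  · rw [h (s.b X) 1 (by rw [pow_one]; exact s.de_zero i X hX)]
    simp

end Pool.Agent.KLSAbs

end

section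

/-! MP_e487d8_al, abstract part: the structure of `C^n ∘ G` for large `n` if the length is
bounded. -/

set_option autoImplicit false

namespace Pool.Agent.KLSAbs

open scoped LaurentPolynomial

variable {I S O K : Type} [DecidableEq I] [CommRing O] [Algebra ℚ O] [Ring K]
  [Algebra ℤ[T;T⁻¹] K] (s : Sys2 I S O K)

namespace XGSTS

/-- natural coefficients -/
def Nt (x : O) : Prop := ∀ Z, ∃ n : ℕ, s.b.repr x Z = n

/-- the length as a linear map -/
noncomputable def lenL : O →ₗ[ℚ] ℚ :=
  (Finsupp.linearCombination ℚ (fun _ : S => (1 : ℚ))).comp s.b.repr.toLinearMap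

theorem len_eq (x : O) : s.len x = lenL s x := by
  unfold Sys2.len lenL
  rw [LinearMap.comp_apply, Finsupp.linearCombination_apply]
  simp

variable {s}

theorem Nt.ps {x : O} (hx : Nt s x) : s.Ps x := fun Z => by
  obtain ⟨n, hn⟩ := hx Z
  rw [hn]; exact Nat.cast_nonneg _

theorem nt_b (X : S) : Nt s (s.b X) := by
  classical
  intro Z
  rw [s.repr_b]
  split_ifs
  · exact ⟨1, by norm_num⟩
  · exact ⟨0, by norm_num⟩

theorem Nt.zero : Nt s 0 := fun Z => ⟨0, by rw [map_zero]; simp⟩

theorem Nt.add {x y : O} (hx : Nt s x) (hy : Nt s y) : Nt s (x + y) := fun Z => by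
  obtain ⟨n, hn⟩ := hx Z
  obtain ⟨m, hm⟩ := hy Z
  exact ⟨n + m, by rw [map_add, Finsupp.add_apply, hn, hm]; push_cast; ring⟩

theorem Nt.smul {x : O} (n : ℕ) (hx : Nt s x) : Nt s ((n : ℚ) • x) := fun Z => by
  obtain ⟨m, hm⟩ := hx Z
  exact ⟨n * m, by rw [map_smul, Finsupp.smul_apply, hm, smul_eq_mul]; push_cast; ring⟩

theorem Nt.sum {T : Finset S} {f : S → O} (h : ∀ k ∈ T, Nt s (f k)) :
    Nt s (∑ k ∈ T, f k) := by
  classical
  induction T using Finset.induction_on with
  | empty => exact Nt.zero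
  | insert a T ha ih =>
    rw [Finset.sum_insert ha]
    exact (h a (Finset.mem_insert_self a T)).add
      (ih fun k hk => h k (Finset.mem_insert_of_mem hk))

theorem nt_bb (X Y : S) : Nt s (s.b X * s.b Y) := fun Z => ⟨s.co X Y Z, s.repr_mul X Y Z⟩

theorem nt_bmul (X : S) {y : O} (hy : Nt s y) : Nt s (s.b X * y) := by
  rw [s.expand y, Finset.mul_sum]
  refine Nt.sum fun Z _ => ?_
  obtain ⟨n, hn⟩ := hy Z
  rw [hn, mul_smul_comm]
  exact (nt_bb X Z).smul n

theorem nt_pow (C G : S) (n : ℕ) : Nt s (s.b C ^ n * s.b G) := by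
  induction n with
  | zero => rw [pow_zero, one_mul]; exact nt_b G
  | succ n ih => rw [pow_succ', mul_assoc]; exact nt_bmul C ih

theorem lenL_b (X : S) : lenL s (s.b X) = 1 := by
  unfold lenL
  rw [LinearMap.comp_apply]
  simp

theorem lenL_expand (x : O) : lenL s x = ∑ Z ∈ (s.b.repr x).support, s.b.repr x Z := by
  conv_lhs => rw [s.expand x]
  rw [map_sum]
  refine Finset.sum_congr rfl fun Z _ => ?_
  rw [map_smul, lenL_b, smul_eq_mul, mul_one]

theorem lenL_nonneg {x : O} (hx : s.Ps x) : 0 ≤ lenL s x := by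
  rw [lenL_expand]
  exact Finset.sum_nonneg fun Z _ => hx Z

theorem lenL_nat {x : O} (hx : Nt s x) : ∃ n : ℕ, lenL s x = n := by
  choose f hf using hx
  refine ⟨∑ Z ∈ (s.b.repr x).support, f Z, ?_⟩
  rw [lenL_expand]
  push_cast
  exact Finset.sum_congr rfl fun Z _ => hf Z

theorem eq_zero_of_lenL {x : O} (hx : s.Ps x) (h : lenL s x = 0) : x = 0 := by
  rw [lenL_expand, Finset.sum_eq_zero_iff_of_nonneg (fun Z _ => hx Z)] at h
  apply s.b.repr.injective
  rw [map_zero]
  ext Z
  rw [Finsupp.zero_apply]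
  by_contra h1
  exact h1 (h Z (Finsupp.mem_support_iff.mpr h1))

theorem one_le_lenL {x : O} (hx : Nt s x) (h : x ≠ 0) : 1 ≤ lenL s x := by
  obtain ⟨n, hn⟩ := lenL_nat hx
  rw [hn]
  rcases Nat.eq_zero_or_pos n with h0 | h0
  · exfalso
    rw [h0] at hn
    exact h (eq_zero_of_lenL hx.ps (by rw [hn]; norm_num))
  · exact_mod_cast h0

theorem mul_ne (X Y : S) : s.b X * s.b Y ≠ 0 := by
  intro h
  have h2 := congrArg s.chi h
  rw [map_mul, map_zero] at h2
  exact (mul_pos (s.chi_pos _) (s.chi_pos _)).ne' h2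

theorem lenL_bmul (C : S) (x : O) :
    lenL s (s.b C * x) = ∑ Z ∈ (s.b.repr x).support, s.b.repr x Z * lenL s (s.b C * s.b Z) := by
  conv_lhs => rw [s.expand x]
  rw [Finset.mul_sum, map_sum]
  refine Finset.sum_congr rfl fun Z _ => ?_
  rw [mul_smul_comm, map_smul, smul_eq_mul]

theorem lenL_mono (C : S) {x : O} (hx : s.Ps x) : lenL s x ≤ lenL s (s.b C * x) := by
  rw [lenL_bmul, lenL_expand]
  refine Finset.sum_le_sum fun Z _ => ?_
  have h1 := one_le_lenL (nt_bb (s := s) C Z) (mul_ne C Z)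
  have h2 := hx Z
  nlinarith

theorem eq_b_of_lenL {x : O} (hx : Nt s x) (h : lenL s x = 1) : ∃ Z, x = s.b Z := by
  have hne : x ≠ 0 := by
    rintro rfl
    rw [map_zero] at h
    norm_num at h
  have h0 : ∃ Z, s.b.repr x Z ≠ 0 := by
    by_contra h1
    push Not at h1
    apply hne
    apply s.b.repr.injective
    rw [map_zero]
    ext Z
    rw [h1 Z, Finsupp.zero_apply]
  obtain ⟨Z, hZ⟩ := h0
  refine ⟨Z, ?_⟩
  have h1 : (1 : ℚ) ≤ s.b.repr x Z := by
    obtain ⟨n, hn⟩ := hx Z
    rw [hn] at hZ ⊢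
    have : n ≠ 0 := by
      rintro rfl
      exact hZ (by norm_num)
    exact_mod_cast Nat.one_le_iff_ne_zero.mpr this
  have h2 := hx.ps.sub_smul Z h1
  rw [one_smul] at h2
  have h3 : lenL s (x - s.b Z) = 0 := by rw [map_sub, h, lenL_b, sub_self]
  exact sub_eq_zero.mp (eq_zero_of_lenL h2 h3)

theorem simple_of_eq (C : S) {x : O} (hx : s.Ps x) (h : lenL s (s.b C * x) = lenL s x) (Z : S)
    (hZ : s.Sp x Z) : ∃ Z', s.b C * s.b Z = s.b Z' := by
  rw [lenL_bmul, lenL_expand] at h
  have h1 : ∑ W ∈ (s.b.repr x).support, s.b.repr x W * (lenL s (s.b C * s.b W) - 1) = 0 := by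
    have e : ∀ W ∈ (s.b.repr x).support, s.b.repr x W * (lenL s (s.b C * s.b W) - 1) =
        s.b.repr x W * lenL s (s.b C * s.b W) - s.b.repr x W := fun W _ => by ring
    rw [Finset.sum_congr rfl e, Finset.sum_sub_distrib, h, sub_self]
  rw [Finset.sum_eq_zero_iff_of_nonneg] at h1
  · have h2 := h1 Z (Finsupp.mem_support_iff.mpr hZ)
    have h3 : lenL s (s.b C * s.b Z) = 1 := by
      rcases mul_eq_zero.mp h2 with h4 | h4
      · exact absurd h4 hZ
      · linarith
    exact eq_b_of_lenL (nt_bb C Z) h3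
  · intro W _
    have h2 := one_le_lenL (nt_bb (s := s) C W) (mul_ne C W)
    exact mul_nonneg (hx W) (by linarith)

/-- the length is constant from some point on -/
theorem stab (C G : S) (hST : s.ST C) : ∃ n₀ : ℕ, ∀ n, n₀ ≤ n →
    lenL s (s.b C * (s.b C ^ n * s.b G)) = lenL s (s.b C ^ n * s.b G) := by
  obtain ⟨B, hB⟩ := hST G
  choose g hg using fun n => lenL_nat (nt_pow (s := s) C G n)
  have hmono : Monotone g := by
    refine monotone_nat_of_le_succ fun n => ?_
    have h1 := lenL_mono C (nt_pow (s := s) C G n).ps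
    rw [← mul_assoc, ← pow_succ', hg, hg] at h1
    exact_mod_cast h1
  have hbd : ∀ n, g n ≤ ⌊B⌋₊ := by
    intro n
    have h1 := hB n
    rw [len_eq, hg] at h1
    exact Nat.le_floor h1
  have hmem : sSup (Set.range g) ∈ Set.range g :=
    Nat.sSup_mem (Set.range_nonempty g) ⟨⌊B⌋₊, by rintro _ ⟨n, rfl⟩; exact hbd n⟩
  obtain ⟨n₀, h0⟩ := hmem
  have hmax : ∀ n, g n ≤ g n₀ := by
    intro n
    rw [h0]
    exact le_csSup ⟨⌊B⌋₊, by rintro _ ⟨n, rfl⟩; exact hbd n⟩ ⟨n, rfl⟩
  refine ⟨n₀, fun n hn => ?_⟩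
  rw [← mul_assoc, ← pow_succ', hg, hg]
  have h1 : g n = g n₀ := le_antisymm (hmax n) (hmono hn)
  have h2 : g (n + 1) = g n₀ := le_antisymm (hmax _) (hmono (by omega))
  rw [h1, h2]

end XGSTS

open XGSTS in
/-- **STS** -/
theorem Sys2.I_STS (s : Sys2 I S O K) : s.St_STS := by
  classical
  intro C _ hST G
  obtain ⟨n₀, h0⟩ := stab C G hST
  have key : ∀ k : ℕ, (∀ X ∈ (s.b.repr (s.b C ^ n₀ * s.b G)).support, ∃ Z,
      s.b C ^ k * s.b X = s.b Z ∧ s.Sp (s.b C ^ (n₀ + k) * s.b G) Z) ∧
      (∀ Z, s.Sp (s.b C ^ (n₀ + k) * s.b G) Z →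
        ∃ X ∈ (s.b.repr (s.b C ^ n₀ * s.b G)).support, s.b C ^ k * s.b X = s.b Z) := by
    intro k
    induction k with
    | zero =>
      refine ⟨fun X hX => ⟨X, by rw [pow_zero, one_mul], Finsupp.mem_support_iff.mp hX⟩,
        fun Z hZ => ⟨Z, Finsupp.mem_support_iff.mpr hZ, by rw [pow_zero, one_mul]⟩⟩
    | succ k ih =>
      have hps : s.Ps (s.b C ^ (n₀ + k) * s.b G) := (nt_pow C G _).ps
      have hs : ∀ Z, s.Sp (s.b C ^ (n₀ + k) * s.b G) Z → ∃ Z', s.b C * s.b Z = s.b Z' :=
        fun Z hZ => simple_of_eq C hps (h0 (n₀ + k) (by omega)) Z hZ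
      have e : s.b C ^ (n₀ + (k + 1)) * s.b G = s.b C * (s.b C ^ (n₀ + k) * s.b G) := by
        rw [← add_assoc, pow_succ', mul_assoc]
      constructor
      · intro X hX
        obtain ⟨Z, h1, h2⟩ := ih.1 X hX
        obtain ⟨Z', h3⟩ := hs Z h2
        refine ⟨Z', by rw [pow_succ', mul_assoc, h1, h3], ?_⟩
        rw [e]
        refine Sys2.Sp.mul (X := C) (Y := Z) (Sys2.ps_b C) hps ?_ h2 ?_
        · unfold Sys2.Sp
          rw [s.repr_b, if_pos rfl]; norm_num
        · unfold Sys2.Sp
          rw [h3, s.repr_b, if_pos rfl]; norm_num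
      · intro Z' hZ'
        rw [e] at hZ'
        obtain ⟨X1, Y1, h1, h2, h3⟩ := Sys2.Sp.of_mul hZ'
        have h4 : X1 = C := by
          by_contra hne
          apply h1
          rw [s.repr_b, if_neg (Ne.symm hne)]
        subst h4
        obtain ⟨X, hX, h5⟩ := ih.2 Y1 h2
        obtain ⟨Z'', h6⟩ := hs Y1 h2
        have h7 : Z'' = Z' := by
          by_contra hne
          have h8 := s.repr_mul X1 Y1 Z'
          rw [h6, s.repr_b, if_neg hne] at h8
          exact h3 (by exact_mod_cast h8.symm)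
        subst h7
        exact ⟨X, hX, by rw [pow_succ', mul_assoc, h5, h6]⟩
  refine ⟨n₀, (s.b.repr (s.b C ^ n₀ * s.b G)).support, fun X hX k => ?_, fun n Z hn hZ => ?_⟩
  · obtain ⟨Z, h1, -⟩ := (key k).1 X hX
    exact ⟨Z, h1⟩
  · obtain ⟨k, rfl⟩ := Nat.exists_eq_add_of_le hn
    rw [show n₀ + k - n₀ = k by omega]
    exact (key k).2 Z hZ

end Pool.Agent.KLSAbs

end

section

/-! MP_e487d8_al, abstract part: ULB. -/

set_option autoImplicit false

namespace Pool.Agent.KLSAbs

open scoped LaurentPolynomial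

variable {I S O K : Type} [DecidableEq I] [CommRing O] [Algebra ℚ O] [Ring K]
  [Algebra ℤ[T;T⁻¹] K]

namespace XGULB

theorem fin_low {α : Type} (U : Finset α) (f : α → ℚ) (h : ∀ y ∈ U, 0 < f y) :
    ∃ κ : ℚ, 0 < κ ∧ ∀ y ∈ U, κ ≤ f y := by
  classical
  induction U using Finset.induction_on with
  | empty => exact ⟨1, one_pos, fun y hy => absurd hy (Finset.notMem_empty y)⟩
  | insert a U _ ih =>
    obtain ⟨κ, h1, h2⟩ := ih fun y hy => h y (Finset.mem_insert_of_mem hy)
    refine ⟨min κ (f a), lt_min h1 (h a (Finset.mem_insert_self a U)), fun y hy => ?_⟩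
    rcases Finset.mem_insert.1 hy with rfl | hy
    · exact min_le_right _ _
    · exact (min_le_left _ _).trans (h2 y hy)

theorem pow_low (p : ℚ) (hp : 0 < p) (n₀ : ℕ) : ∃ κ : ℚ, 0 < κ ∧ ∀ j, j ≤ n₀ → κ * p ^ j ≤ 1 := by
  refine ⟨((1 + p) ^ n₀)⁻¹, by positivity, fun j hj => ?_⟩
  have h1 : p ^ j ≤ (1 + p) ^ n₀ :=
    (pow_le_pow_left₀ hp.le (by linarith) j).trans (pow_le_pow_right₀ (by linarith) hj)
  calc ((1 + p) ^ n₀)⁻¹ * p ^ j ≤ ((1 + p) ^ n₀)⁻¹ * (1 + p) ^ n₀ :=
        mul_le_mul_of_nonneg_left h1 (by positivity)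
    _ = 1 := inv_mul_cancel₀ (by positivity)

variable (s : Sys2 I S O K)

/-- uniform constants for the finite set `Q` -/
theorem unif (h3 : s.St_LBP) (i : I) (Q : Finset S) (hQ : ∀ y ∈ Q, s.eps i y = 0) :
    ∃ (a : ℕ) (σ₀ : ℚ), 1 ≤ σ₀ ∧ ∀ y ∈ Q,
      ∀ (σ : ℚ) (ph : O →ₐ[ℚ] ℚ), σ₀ ≤ σ → s.IsPh i σ ph → ∀ (k yk F Y : S) (N : ℕ),
      s.eps i k = 0 → s.b y * s.b k = s.b yk → a ≤ N → s.eps i F = N → s.E i F = k →
      s.eps i Y = N → s.E i Y = yk → s.chi (s.b y) * ph (s.b F) ≤ 2 * ph (s.b Y) := by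
  classical
  induction Q using Finset.induction_on with
  | empty => exact ⟨0, 1, le_rfl, fun y hy => absurd hy (Finset.notMem_empty y)⟩
  | insert x U _ ih =>
    obtain ⟨a, σ₀, h0, h⟩ := ih fun y hy => hQ y (Finset.mem_insert_of_mem hy)
    obtain ⟨a', σ', h0', h'⟩ := h3 i x (hQ x (Finset.mem_insert_self x U))
    refine ⟨max a a', max σ₀ σ', h0.trans (le_max_left _ _), fun y hy => ?_⟩
    intro σ ph hσ hph k yk F Y N e1 e2 e3 e4 e5 e6 e7
    rcases Finset.mem_insert.1 hy with rfl | hy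
    · exact h' σ ph ((le_max_right _ _).trans hσ) hph k yk F Y N e1 e2
        ((le_max_right _ _).trans e3) e4 e5 e6 e7
    · exact h y hy σ ph ((le_max_left _ _).trans hσ) hph k yk F Y N e1 e2
        ((le_max_left _ _).trans e3) e4 e5 e6 e7

/-- `ph` grows along a string -/
theorem mono (h1 : s.St_PHP) (h2 : s.St_LB1) (i : I) (σ : ℚ) (ph : O →ₐ[ℚ] ℚ) (hσ : 1 ≤ σ)
    (hph : s.IsPh i σ ph) (d : ℕ) : ∀ F F' : S, s.eps i F' = s.eps i F + d →
    s.E i F' = s.E i F → ph (s.b F) ≤ ph (s.b F') := by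
  have h0 : (0 : ℚ) ≤ σ := by linarith
  induction d with
  | zero =>
    intro F F' e1 e2
    rw [s.eps_inj i F' F e1 e2]
  | succ d ih =>
    intro F F' e1 e2
    obtain ⟨F'', e3, e4⟩ := s.eps_surj i (s.eps i F + d) (s.E i F) (s.eps_E i F)
    have e5 := ih F F'' e3 e4
    have e6 := h2 i σ ph h0 hph F'' F' (s.eps i F + d) e3 (by rw [e1]; ring) (by rw [e2, e4])
    have e7 := (h1 i σ ph h0 hph).2.1 F''
    have e8 : ph (s.b F'') ≤ σ * ph (s.b F'') := by nlinarith
    linarith

/-- finitely many exponents -/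
theorem small (h1 : s.St_PHP) (i : I) (σ : ℚ) (ph : O →ₐ[ℚ] ℚ) (hσ : 0 ≤ σ)
    (hph : s.IsPh i σ ph) (B C : S) (n : ℕ) : ∃ κ : ℚ, 0 < κ ∧ ∀ T Y : S, s.b C ^ n = s.b T →
      s.Hd T B Y → κ * ph (s.b C) ^ n ≤ ph (s.b Y) := by
  classical
  have hp := (h1 i σ ph hσ hph).2.1
  by_cases h : ∃ T, s.b C ^ n = s.b T
  · obtain ⟨T, hT⟩ := h
    obtain ⟨κ, k1, k2⟩ := fin_low (s.co T B).support (fun Y => ph (s.b Y) / ph (s.b C) ^ n)
      (fun Y _ => div_pos (hp Y) (pow_pos (hp C) n))
    refine ⟨κ, k1, fun T' Y hT' hY => ?_⟩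
    have e1 : T' = T := s.b_inj (by rw [← hT, hT'])
    rw [e1] at hY
    have e2 := k2 Y (Finsupp.mem_support_iff.2 (s.hd_co T B Y hY))
    rwa [le_div_iff₀ (pow_pos (hp C) n)] at e2
  · exact ⟨1, one_pos, fun T Y hT _ => absurd ⟨T, hT⟩ h⟩

theorem small_all (h1 : s.St_PHP) (i : I) (σ : ℚ) (ph : O →ₐ[ℚ] ℚ) (hσ : 0 ≤ σ)
    (hph : s.IsPh i σ ph) (B C : S) (n₁ : ℕ) : ∃ κ : ℚ, 0 < κ ∧ ∀ n, n < n₁ → ∀ T Y : S,
      s.b C ^ n = s.b T → s.Hd T B Y → κ * ph (s.b C) ^ n ≤ ph (s.b Y) := by
  have hp := (h1 i σ ph hσ hph).2.1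
  induction n₁ with
  | zero => exact ⟨1, one_pos, fun n hn => absurd hn (Nat.not_lt_zero n)⟩
  | succ n₁ ih =>
    obtain ⟨κ, k1, k2⟩ := ih
    obtain ⟨κ', k3, k4⟩ := small s h1 i σ ph hσ hph B C n₁
    refine ⟨min κ κ', lt_min k1 k3, fun n hn T Y hT hY => ?_⟩
    have hpn : 0 ≤ ph (s.b C) ^ n := (pow_pos (hp C) n).le
    rcases Nat.lt_succ_iff_lt_or_eq.1 hn with hn | rfl
    · exact (mul_le_mul_of_nonneg_right (min_le_left _ _) hpn).trans (k2 n hn T Y hT hY)
    · exact (mul_le_mul_of_nonneg_right (min_le_right _ _) hpn).trans (k4 T Y hT hY)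

end XGULB

open XGULB in
theorem Sys2.I_ULB (s : Sys2 I S O K) (h1 : s.St_PHP) (h2 : s.St_LB1) (h3 : s.St_LBP)
    (h4 : s.St_YFORM) : s.St_ULB := by
  intro i C hSR hpos hST B
  obtain ⟨n₀, Q, hQ, hY⟩ := h4 i C B hSR hpos hST
  obtain ⟨a, σ₀, hσ₀, hun⟩ := unif s h3 i Q hQ
  refine ⟨σ₀, hσ₀, fun σ ph hσ hph => ?_⟩
  have hσ1 : 1 ≤ σ := hσ₀.trans hσ
  have hσ0 : 0 ≤ σ := by linarith
  have hp := (h1 i σ ph hσ0 hph).2.1
  obtain ⟨c, c1, c2⟩ := fin_low Q (fun y => s.chi (s.b y)) (fun y _ => s.chi_pos y)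
  obtain ⟨κ', k1, k2⟩ := pow_low (ph (s.b C)) (hp C) n₀
  obtain ⟨κ'', k3, k4⟩ := small_all s h1 i σ ph hσ0 hph B C (max n₀ a)
  refine ⟨min (c * κ' / 2) κ'', lt_min (by positivity) k3, fun n T Y hT hH => ?_⟩
  have hpn : 0 < ph (s.b C) ^ n := pow_pos (hp C) n
  rcases Nat.lt_or_ge n (max n₀ a) with hn | hn
  · exact (mul_le_mul_of_nonneg_right (min_le_right _ _) hpn.le).trans (k4 n hn T Y hT hH)
  · refine (mul_le_mul_of_nonneg_right (min_le_left _ _) hpn.le).trans ?_
    obtain ⟨y, k, n', hy, hn', hn'', hk, hyk, hN, -⟩ :=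
      hY n T Y ((le_max_left _ _).trans hn) hT hH
    have hk0 : s.eps i k = 0 := by
      have := (Sys2.E_mul i hyk).1
      rw [s.eps_E] at this
      omega
    obtain ⟨F, hF1, hF2⟩ := s.eps_surj i (s.eps i Y) k hk0
    have hN' : a ≤ s.eps i Y := by
      have e1 : a ≤ n := (le_max_right _ _).trans hn
      have e2 : n ≤ n * s.eps i C := Nat.le_mul_of_pos_right n hpos
      exact e1.trans (e2.trans hN)
    have e1 := hun y hy σ ph hσ hph k (s.E i Y) F Y (s.eps i Y) hk0 hyk hN' hF1 hF2 rfl rfl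
    obtain ⟨T', hT'⟩ := hSR n'
    obtain ⟨e2, e3⟩ := Sys2.E_pow i hT' hSR
    have e4 : s.E i T' = k := s.b_inj (by rw [← e3, hk])
    have e5 : ph (s.b T') ≤ ph (s.b F) := by
      refine mono s h1 h2 i σ ph hσ1 hph (s.eps i Y - n' * s.eps i C) T' F ?_ ?_
      · rw [hF1, e2]
        have : n' * s.eps i C ≤ n * s.eps i C := Nat.mul_le_mul_right _ hn'
        omega
      · rw [hF2, e4]
    rw [← hT', map_pow] at e5
    have e6 : κ' * ph (s.b C) ^ n ≤ ph (s.b C) ^ n' := by
      have e7 := k2 (n - n') (by omega)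
      have e8 : ph (s.b C) ^ n = ph (s.b C) ^ (n - n') * ph (s.b C) ^ n' := by
        rw [← pow_add]
        congr 1
        omega
      rw [e8, ← mul_assoc]
      have e9 : 0 < ph (s.b C) ^ n' := pow_pos (hp C) n'
      nlinarith
    have e10 := c2 y hy
    have e11 : 0 < ph (s.b C) ^ n' := pow_pos (hp C) n'
    calc c * κ' / 2 * ph (s.b C) ^ n = c * (κ' * ph (s.b C) ^ n) / 2 := by ring
      _ ≤ c * ph (s.b C) ^ n' / 2 := by
          have := mul_le_mul_of_nonneg_left e6 c1.le
          linarith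
      _ ≤ s.chi (s.b y) * ph (s.b C) ^ n' / 2 := by
          have := mul_le_mul_of_nonneg_right e10 e11.le
          linarith
      _ ≤ s.chi (s.b y) * ph (s.b F) / 2 := by
          have := mul_le_mul_of_nonneg_left e5 (s.chi_pos y).le
          linarith
      _ ≤ ph (s.b Y) := by linarith

end Pool.Agent.KLSAbs

end

section

/-! MP_e487d8_al, abstract part: the quotients of `C^n ∘ B` for large `n`, if the length of
`E_i(C)^n ∘ G` is bounded. -/

set_option autoImplicit false

namespace Pool.Agent.KLSAbs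

open scoped LaurentPolynomial

variable {I S O K : Type} [DecidableEq I] [CommRing O] [Algebra ℚ O] [Ring K]
  [Algebra ℤ[T;T⁻¹] K]

namespace XGYFORM

variable {s : Sys2 I S O K}

/-- a constituent of a product of simples -/
theorem sp_co {X Y Z : S} (h : s.co X Y Z ≠ 0) : s.Sp (s.b X * s.b Y) Z := by
  unfold Sys2.Sp
  rw [s.repr_mul]
  exact_mod_cast h

theorem sp_b (X : S) : s.Sp (s.b X) X := by
  classical
  unfold Sys2.Sp
  rw [s.repr_b, if_pos rfl]
  exact one_ne_zero

/-- `E_i(Y)` is a constituent of `e_i^m x` if `Y` is one of `x`, `m = ε_i(Y)` -/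
theorem sp_de {x : O} {Y : S} (i : I) (hx : s.Ps x) (h : s.Sp x Y) :
    s.Sp ((s.de i ^ s.eps i Y) x) (s.E i Y) := by
  classical
  have h1 : s.Ps (x - s.b.repr x Y • s.b Y) := hx.sub_smul Y le_rfl
  have hc : 0 ≤ s.b.repr x Y := hx Y
  have e : (s.de i ^ s.eps i Y) x =
      s.b.repr x Y • ((s.eps i Y).factorial : ℚ) • s.b (s.E i Y) +
        (s.de i ^ s.eps i Y) (x - s.b.repr x Y • s.b Y) := by
    rw [map_sub, map_smul, s.de_top]
    abel
  rw [e]
  refine Sys2.Sp.add_left
    (Sys2.Ps.smul hc (Sys2.Ps.smul (Nat.cast_nonneg _) (Sys2.ps_b _))) (h1.de_pow i _) ?_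
  unfold Sys2.Sp
  rw [map_smul, map_smul, Finsupp.smul_apply, Finsupp.smul_apply, smul_eq_mul, smul_eq_mul,
    s.repr_b, if_pos rfl, mul_one]
  exact mul_ne_zero h (by exact_mod_cast Nat.factorial_ne_zero _)

/-- a constituent of `x y` is a constituent of `x ∘ G` for a constituent `G` of `y` -/
theorem sp_right {x y : O} {Z : S} (hx : s.Ps x) (h : s.Sp (x * y) Z) :
    ∃ G, s.Sp y G ∧ s.Sp (x * s.b G) Z := by
  obtain ⟨X, Y, h1, h2, h3⟩ := h.of_mul
  exact ⟨Y, h2, Sys2.Sp.mul hx (Sys2.ps_b Y) h1 (sp_b Y) (sp_co h3)⟩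

end XGYFORM

open XGYFORM in
/-- YFORM -/
theorem Sys2.I_YFORM (s : Sys2 I S O K) (h1 : s.St_DEF) (h2 : s.St_STS) : s.St_YFORM := by
  classical
  intro i C B hSR ha hST
  obtain ⟨X, hX, hdef⟩ := h1 i C B
  have hSR' : PSR s.b (s.E i C) := Sys2.psr_E i hSR
  choose m Q hQ hm using h2 (s.E i C) hSR' hST
  refine ⟨s.eps i B + (s.b.repr X).support.sup m,
    ((s.b.repr X).support.biUnion Q).filter fun y => s.eps i y = 0,
    fun y hy => (Finset.mem_filter.1 hy).2, fun n T Y hn hT hY => ?_⟩
  have hco : s.co T B Y ≠ 0 := s.hd_co _ _ _ hY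
  obtain ⟨hT1, hT2⟩ := Sys2.E_pow i hT hSR
  have hlo : n * s.eps i C ≤ s.eps i Y := by
    rw [← hT1]; exact s.hd_eps i _ _ _ hY
  have hhi : s.eps i Y ≤ n * s.eps i C + s.eps i B := by
    rw [← hT1]; exact s.eps_co i _ _ _ hco
  have hsp : s.Sp ((s.de i ^ s.eps i Y) (s.b C ^ n * s.b B)) (s.E i Y) := by
    rw [hT]
    exact sp_de i ((Sys2.ps_b T).mul (Sys2.ps_b B)) (sp_co hco)
  have h3 := hdef n (s.eps i Y) (s.E i Y) (by omega) hlo hsp
  obtain ⟨G, hG, h4⟩ := sp_right ((Sys2.ps_b (s.E i C)).pow _) h3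
  have hGs : G ∈ (s.b.repr X).support := Finsupp.mem_support_iff.2 hG
  have hmG : m G ≤ (s.b.repr X).support.sup m := Finset.le_sup hGs
  obtain ⟨y, hy, h5⟩ := hm G (n - s.eps i B) (s.E i Y) (by omega) h4
  obtain ⟨k, hk⟩ := hSR' (n - s.eps i B - m G)
  rw [hk] at h5
  have h6 := (Sys2.E_mul i h5).1
  rw [s.eps_E] at h6
  refine ⟨y, k, n - s.eps i B - m G, ?_, by omega, by omega, hk, ?_, hlo, hhi⟩
  · refine Finset.mem_filter.2 ⟨Finset.mem_biUnion.2 ⟨G, hGs, hy⟩, by omega⟩
  · rw [mul_comm]; exact h5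

end Pool.Agent.KLSAbs

end

section

/-! MP_e487d8_al: the regular module `Reg D n`. -/

set_option autoImplicit false

namespace Pool.Agent.KLS

variable {K I : Type} [Field K] [Fintype I] [DecidableEq I]

namespace Pbw

namespace IReg

variable (D : Datum K I) (n : ℕ)

theorem e_mem {k : ℕ} (hk : n ≤ k) (i : I) : D.e k i ∈ Jn D n :=
  Submodule.subset_span (Or.inl ⟨k, i, hk, rfl⟩)

theorem one_sub_mem {k : ℕ} (hk : k < n) : 1 - D.E k ∈ Jn D n :=
  Submodule.subset_span (Or.inr ⟨k, hk, rfl⟩)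

theorem E_mem {k : ℕ} (hk : n ≤ k) : D.E k ∈ Jn D n := by
  unfold Datum.E
  exact Submodule.sum_mem _ fun i _ => e_mem D n hk i

theorem e_mul (k : ℕ) (i : I) (b : KLRAlg D) : D.e k i * b = D.e k i * b * D.E k := by
  rw [mul_assoc, ← D.E_comm k b, ← mul_assoc, D.e_E]

theorem e_mul_mem {k : ℕ} (hk : n ≤ k) (i : I) (b : KLRAlg D) : D.e k i * b ∈ Jn D n := by
  rw [e_mul]
  exact Submodule.smul_mem (Jn D n) (D.e k i * b) (E_mem D n hk)

theorem one_sub_mul_mem {k : ℕ} (hk : k < n) (b : KLRAlg D) : (1 - D.E k) * b ∈ Jn D n := by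
  have h : (1 - D.E k) * b = b * (1 - D.E k) := by
    rw [sub_mul, mul_sub, one_mul, mul_one, D.E_comm]
  rw [h]
  exact Submodule.smul_mem (Jn D n) b (one_sub_mem D n hk)

theorem mul_mem (a : KLRAlg D) (ha : a ∈ Jn D n) (b : KLRAlg D) : a * b ∈ Jn D n := by
  unfold Jn at ha
  induction ha using Submodule.span_induction with
  | mem x hx =>
    rcases hx with ⟨k, i, hk, rfl⟩ | ⟨k, hk, rfl⟩
    · exact e_mul_mem D n hk i b
    · exact one_sub_mul_mem D n hk b
  | zero =>
    rw [zero_mul]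
    exact Submodule.zero_mem _
  | add x y _ _ hx hy =>
    rw [add_mul]
    exact Submodule.add_mem _ hx hy
  | smul c x _ hx =>
    rw [smul_eq_mul, mul_assoc]
    exact Submodule.smul_mem (Jn D n) c hx

theorem mk_surjective (u : Reg D n) : ∃ a, Reg.mk D n a = u :=
  Submodule.mkQ_surjective (Jn D n) u

theorem mk_eq_zero {a : KLRAlg D} (ha : a ∈ Jn D n) : Reg.mk D n a = 0 :=
  (Submodule.Quotient.mk_eq_zero (Jn D n)).2 ha

theorem strand : IsStrand D n (Reg D n) where
  one k hk u := by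
    obtain ⟨a, rfl⟩ := mk_surjective D n u
    rw [← map_smul, smul_eq_mul, ← sub_eq_zero, ← map_sub]
    refine mk_eq_zero D n ?_
    have h : D.E k * a - a = -((1 - D.E k) * a) := by
      rw [sub_mul, one_mul, neg_sub]
    rw [h]
    exact Submodule.neg_mem _ (one_sub_mul_mem D n hk a)
  zero k hk i u := by
    obtain ⟨a, rfl⟩ := mk_surjective D n u
    rw [← map_smul, smul_eq_mul]
    exact mk_eq_zero D n (e_mul_mem D n hk i a)

end IReg

/-- REG -/
theorem prf_reg (D : Datum K I) : S_reg D := by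
  intro n
  refine ⟨IReg.strand D n, ?_, ?_⟩
  · intro M _ _ hM u
    have hle : Jn D n ≤ LinearMap.ker (LinearMap.toSpanSingleton (KLRAlg D) M u) := by
      unfold Jn
      rw [Submodule.span_le]
      rintro x (⟨k, i, hk, rfl⟩ | ⟨k, hk, rfl⟩)
      · rw [SetLike.mem_coe, LinearMap.mem_ker, LinearMap.toSpanSingleton_apply]
        exact hM.zero k hk i u
      · rw [SetLike.mem_coe, LinearMap.mem_ker, LinearMap.toSpanSingleton_apply, sub_smul,
          one_smul, hM.one k hk u, sub_self]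
    exact ⟨(Jn D n).liftQ _ hle, fun a => rfl⟩
  · intro b
    have hle : Jn D n ≤ LinearMap.ker ((Reg.mk D n) ∘ₗ
        (LinearMap.toSpanSingleton (KLRAlg D) (KLRAlg D) b)) := by
      intro a ha
      rw [LinearMap.mem_ker, LinearMap.comp_apply, LinearMap.toSpanSingleton_apply, smul_eq_mul]
      exact IReg.mk_eq_zero D n (IReg.mul_mem D n a ha b)
    exact ⟨(Jn D n).liftQ _ hle, fun a => rfl⟩

end Pbw

end Pool.Agent.KLS

end

section

/-! MP_e487d8_al, PBW block: `R(n + 1)` is induced from `R(n) ⊗ R(1)`. -/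

set_option autoImplicit false

open scoped TensorProduct

namespace Pool.Agent.KLS

variable {K I : Type} [Field K] [Fintype I] [DecidableEq I]

namespace Pbw

namespace REGS

variable {D : Datum K I}

theorem mk_surj (n : ℕ) : Function.Surjective (Reg.mk D n) := Submodule.mkQ_surjective _

theorem mk_eq_zero {n : ℕ} {a : KLRAlg D} : Reg.mk D n a = 0 ↔ a ∈ Jn D n :=
  Submodule.Quotient.mk_eq_zero _

theorem mk_eq {n : ℕ} {a b : KLRAlg D} : Reg.mk D n a = Reg.mk D n b ↔ a - b ∈ Jn D n := by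
  rw [← mk_eq_zero, map_sub, sub_eq_zero]

theorem mul_mem {n : ℕ} (c : KLRAlg D) {a : KLRAlg D} (h : a ∈ Jn D n) : c * a ∈ Jn D n :=
  (Jn D n).smul_mem c h

theorem mem_left (n : ℕ) {a : KLRAlg D} (ha : a ∈ Jn D n) (b : KLRAlg D) :
    D.tr n a * D.shn n b ∈ Jn D (n + 1) := by
  induction ha using Submodule.span_induction with
  | mem g hg =>
    rcases hg with ⟨k, i, hk, rfl⟩ | ⟨k, hk, rfl⟩
    · rw [D.tr_e, if_neg (by omega), zero_mul]
      exact Submodule.zero_mem _
    · rw [map_sub, map_one, D.tr_E, if_pos hk, sub_mul, one_mul, D.E_comm k]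
      have h1 : D.shn n b - D.shn n b * D.E k = D.shn n b * (1 - D.E k) := by
        rw [mul_sub, mul_one]
      rw [h1]
      exact mul_mem _ (Submodule.subset_span (Or.inr ⟨k, by omega, rfl⟩))
  | zero => rw [map_zero, zero_mul]; exact Submodule.zero_mem _
  | add x y _ _ hx hy => rw [map_add, add_mul]; exact Submodule.add_mem _ hx hy
  | smul c x _ hx =>
    rw [smul_eq_mul, map_mul, mul_assoc]
    exact mul_mem _ hx

theorem mem_right (n : ℕ) (a : KLRAlg D) {b : KLRAlg D} (hb : b ∈ Jn D 1) :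
    D.tr n a * D.shn n b ∈ Jn D (n + 1) := by
  induction hb using Submodule.span_induction with
  | mem g hg =>
    rcases hg with ⟨k, i, hk, rfl⟩ | ⟨k, hk, rfl⟩
    · rw [D.shn_e]
      exact mul_mem _ (Submodule.subset_span (Or.inl ⟨n + k, i, by omega, rfl⟩))
    · rw [map_sub, map_one, D.shn_E]
      exact mul_mem _ (Submodule.subset_span (Or.inr ⟨n + k, by omega, rfl⟩))
  | zero => rw [map_zero, mul_zero]; exact Submodule.zero_mem _
  | add x y _ _ hx hy => rw [map_add, mul_add]; exact Submodule.add_mem _ hx hy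
  | smul c x _ hx =>
    rw [smul_eq_mul, map_mul, ← mul_assoc, D.tr_mul_shn le_rfl, mul_assoc]
    exact mul_mem _ hx

theorem wd (n : ℕ) {a a' b b' : KLRAlg D} (ha : Reg.mk D n a = Reg.mk D n a')
    (hb : Reg.mk D 1 b = Reg.mk D 1 b') :
    Reg.mk D (n + 1) (D.tr n a * D.shn n b) = Reg.mk D (n + 1) (D.tr n a' * D.shn n b') := by
  rw [mk_eq] at ha hb ⊢
  have h1 := mem_left n ha b
  have h2 := mem_right n a' hb
  have h3 := Submodule.add_mem _ h1 h2
  rw [map_sub, map_sub, sub_mul, mul_sub] at h3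
  have h4 : D.tr n a * D.shn n b - D.tr n a' * D.shn n b' =
    D.tr n a * D.shn n b - D.tr n a' * D.shn n b +
      (D.tr n a' * D.shn n b - D.tr n a' * D.shn n b') := by abel
  rw [h4]; exact h3

/-- a representative -/
noncomputable def rep (n : ℕ) (u : Reg D n) : KLRAlg D := Classical.choose (mk_surj n u)

theorem mk_rep (n : ℕ) (u : Reg D n) : Reg.mk D n (rep n u) = u :=
  Classical.choose_spec (mk_surj n u)

/-- the class is `K`-linear -/
theorem mk_smulK (n : ℕ) (r : K) (a : KLRAlg D) : Reg.mk D n (r • a) = r • Reg.mk D n a := by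
  rw [← algebraMap_smul (KLRAlg D) r a, map_smul, algebraMap_smul]

variable (D) in
/-- the product map -/
noncomputable def beta (n : ℕ) : Reg D n →ₗ[K] Reg D 1 →ₗ[K] Reg D (n + 1) :=
  LinearMap.mk₂ K (fun u v => Reg.mk D (n + 1) (D.tr n (rep n u) * D.shn n (rep 1 v)))
    (fun u u' v => by
      rw [← map_add, ← add_mul, ← map_add]
      exact wd n (by rw [map_add, mk_rep, mk_rep, mk_rep]) rfl)
    (fun r u v => by
      rw [← mk_smulK, ← smul_mul_assoc, ← map_smul]
      exact wd n (by rw [mk_smulK, mk_rep, mk_rep]) rfl)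
    (fun u v v' => by
      rw [← map_add, ← mul_add, ← map_add]
      exact wd n rfl (by rw [map_add, mk_rep, mk_rep, mk_rep]))
    (fun r u v => by
      rw [← mk_smulK, ← mul_smul_comm, ← map_smul]
      exact wd n rfl (by rw [mk_smulK, mk_rep, mk_rep]))

theorem beta_mk (n : ℕ) (a b : KLRAlg D) :
    beta D n (Reg.mk D n a) (Reg.mk D 1 b) = Reg.mk D (n + 1) (D.tr n a * D.shn n b) := by
  show Reg.mk D (n + 1) (D.tr n (rep n _) * D.shn n (rep 1 _)) = _
  exact wd n (mk_rep _ _) (mk_rep _ _)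

theorem smul_mk (n : ℕ) (c a : KLRAlg D) : c • Reg.mk D n a = Reg.mk D n (c * a) := by
  rw [← map_smul, smul_eq_mul]

theorem beta_bal (n : ℕ) : Balanced D n (beta D n) where
  left c u v := by
    obtain ⟨a, rfl⟩ := mk_surj n u
    obtain ⟨b, rfl⟩ := mk_surj 1 v
    rw [smul_mk, beta_mk, beta_mk, smul_mk, map_mul (D.tr n), mul_assoc]
  right c u v := by
    obtain ⟨a, rfl⟩ := mk_surj n u
    obtain ⟨b, rfl⟩ := mk_surj 1 v
    rw [smul_mk, beta_mk, beta_mk, smul_mk, map_mul (D.shn n),
      ← mul_assoc, ← mul_assoc, D.tr_mul_shn le_rfl]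

end REGS

open REGS in
theorem prf_regSucc (D : Datum K I) (hreg : S_reg D) : S_regSucc D := by
  intro n
  have hs : IsStrand D (n + 1) (Conv D n (Reg D n) (Reg D 1)) :=
    Conv.isStrand (hreg n).1 (hreg 1).1
  obtain ⟨f, hf⟩ := (hreg (n + 1)).2.1 _ hs
    (Conv.mk D n (Reg D n) (Reg D 1) (Reg.mk D n 1) (Reg.mk D 1 1))
  have hg := Conv.lift_mk (beta D n) (beta_bal n)
  set g := Conv.lift (beta D n) (beta_bal n) with hgdef
  refine ⟨LinearEquiv.ofLinearMap f g ?_ ?_, ?_⟩
  · refine Conv.hom_ext fun u v => ?_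
    obtain ⟨a, rfl⟩ := mk_surj n u
    obtain ⟨b, rfl⟩ := mk_surj 1 v
    rw [LinearMap.comp_apply, hg, beta_mk, hf, LinearMap.id_apply, mul_smul,
      Conv.shn_smul_mk, Conv.tr_smul_mk, ← map_smul, ← map_smul, smul_eq_mul, smul_eq_mul,
      mul_one, mul_one]
  · refine LinearMap.ext fun x => ?_
    obtain ⟨a, rfl⟩ := mk_surj (n + 1) x
    rw [LinearMap.comp_apply, hf, map_smul, hg, beta_mk, map_one, map_one, mul_one,
      LinearMap.id_apply, ← map_smul, smul_eq_mul, mul_one]
  · rw [LinearEquiv.coe_ofLinearMap, hf, one_smul]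

end Pbw

end Pool.Agent.KLS

end

section

/-! MP_e487d8_al, PBW block: the shuffle sums are surjective. -/

set_option autoImplicit false

open scoped TensorProduct

namespace Pool.Agent.KLS

variable {K I : Type} [Field K] [Fintype I] [DecidableEq I]

namespace Pbw

namespace XSURJ

section act

variable (D : Datum K I) (M N : Type) [AddCommGroup M] [Module K M] [Module (KLRAlg D) M]
  [IsScalarTower K (KLRAlg D) M] [AddCommGroup N] [Module K N] [Module (KLRAlg D) N]
  [IsScalarTower K (KLRAlg D) N]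

theorem act1_tmul (a : KLRAlg D) (u : M) (v : N) : act1 D M N a (u ⊗ₜ v) = (a • u) ⊗ₜ v := rfl

theorem act2_tmul (a : KLRAlg D) (u : M) (v : N) : act2 D M N a (u ⊗ₜ v) = u ⊗ₜ (a • v) := rfl

theorem act1_strand {m : ℕ} (h : IsStrand D m M) : StrandHom D m (act1 D M N) where
  one k hk := by
    apply TensorProduct.ext'
    intro u v
    rw [act1_tmul, h.one k hk]
    rfl
  zero k hk i := by
    apply TensorProduct.ext'
    intro u v
    rw [act1_tmul, h.zero k hk, TensorProduct.zero_tmul]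
    rfl

theorem act2_strand {n : ℕ} (h : IsStrand D n N) : StrandHom D n (act2 D M N) where
  one k hk := by
    apply TensorProduct.ext'
    intro u v
    rw [act2_tmul, h.one k hk]
    rfl
  zero k hk i := by
    apply TensorProduct.ext'
    intro u v
    rw [act2_tmul, h.zero k hk, TensorProduct.tmul_zero]
    rfl

end act

section sum

variable {D : Datum K I} {m n : ℕ} {U U' V : Type} [AddCommGroup U] [Module K U]
  [AddCommGroup U'] [Module K U'] [AddCommGroup V] [Module K V]

/-- the sum over the shuffles -/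
noncomputable def shSum (m n : ℕ) (r : KLRAlg D →ₐ[K] Module.End K V) (β : U →ₗ[K] V) :
    (Shf m n →₀ U) →ₗ[K] V :=
  Finsupp.lsum K fun w => (r (D.tw w.1)).comp β

theorem shSum_single (r : KLRAlg D →ₐ[K] Module.End K V) (β : U →ₗ[K] V) (w : Shf m n) (p : U) :
    shSum m n r β (Finsupp.single w p) = r (D.tw w.1) (β p) := by
  simp [shSum]

theorem shSpan_le (r : KLRAlg D →ₐ[K] Module.End K V) (β : U →ₗ[K] V) :
    shSpan D m n r ⊥ β ≤ LinearMap.range (shSum m n r β) := by
  unfold shSpan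
  refine sup_le bot_le (Submodule.span_le.2 ?_)
  rintro y ⟨w, p, h1, h2, rfl⟩
  exact ⟨Finsupp.single ⟨w, h1, h2⟩ p, shSum_single r β _ p⟩

theorem tw_true (D : Datum K I) (n : ℕ) : D.tw (List.replicate n true) = 1 := by
  induction n with
  | zero => rfl
  | succ n ih =>
    rw [List.replicate_succ]
    show D.shn 1 (D.tw (List.replicate n true)) * D.chain ((List.replicate n true).count false) = 1
    rw [ih, map_one, one_mul, List.count_replicate]
    rfl

theorem tw_word (D : Datum K I) (m n : ℕ) :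
    D.tw (List.replicate m false ++ List.replicate n true) = 1 := by
  induction m with
  | zero => exact tw_true D n
  | succ m ih =>
    rw [List.replicate_succ, List.cons_append]
    show D.shn 1 (D.tw (List.replicate m false ++ List.replicate n true)) = 1
    rw [ih, map_one]

theorem mem_shSpan (r : KLRAlg D →ₐ[K] Module.End K V) (β : U →ₗ[K] V) (p : U) :
    β p ∈ shSpan D m n r ⊥ β := by
  unfold shSpan
  refine Submodule.mem_sup_right (Submodule.subset_span
    ⟨List.replicate m false ++ List.replicate n true, p, ?_, ?_, ?_⟩)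
  · simp [List.count_append, List.count_replicate]
  · simp [List.count_append, List.count_replicate]
  · rw [tw_word, map_one]
    rfl

end sum

end XSURJ

open XSURJ

theorem prf_convSurj (D : Datum K I) (hs : S_stable D) : S_convSurj D := by
  intro m n M N _ _ _ _ _ _ _ _ hM hN
  have hst := hs m n (M ⊗[K] N) (Conv D m M N) (act1 D M N) (act2 D M N)
    (Algebra.lsmul K K (Conv D m M N)) ⊥ (TensorProduct.lift (Conv.mk D m M N))
    (act1_strand D M N hM) (act2_strand D M N hN)
    (by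
      intro a y hy
      rw [Submodule.mem_bot] at hy ⊢
      rw [hy, map_zero])
    (by
      intro a p
      rw [Submodule.mem_bot, sub_eq_zero]
      induction p using TensorProduct.induction_on with
      | zero => simp only [map_zero]
      | tmul u v =>
        rw [act1_tmul, TensorProduct.lift.tmul, TensorProduct.lift.tmul]
        exact Conv.tr_smul_mk a u v
      | add p q hp hq => simp only [map_add, hp, hq])
    (by
      intro a p
      rw [Submodule.mem_bot, sub_eq_zero]
      induction p using TensorProduct.induction_on with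
      | zero => simp only [map_zero]
      | tmul u v =>
        rw [act2_tmul, TensorProduct.lift.tmul, TensorProduct.lift.tmul]
        exact Conv.shn_smul_mk a u v
      | add p q hp hq => simp only [map_add, hp, hq])
  intro y
  have hy : y ∈ shSpan D m n (Algebra.lsmul K K (Conv D m M N)) ⊥
      (TensorProduct.lift (Conv.mk D m M N)) := by
    induction y using Conv.induction with
    | h0 => exact Submodule.zero_mem _
    | hadd y z hy hz => exact Submodule.add_mem _ hy hz
    | h a u v =>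
      have h1 := mem_shSpan (D := D) (m := m) (n := n) (Algebra.lsmul K K (Conv D m M N))
        (TensorProduct.lift (Conv.mk D m M N)) (u ⊗ₜ v)
      have h2 := hst a _ h1
      rw [TensorProduct.lift.tmul] at h2
      exact h2
  obtain ⟨g, hg⟩ := shSpan_le _ _ hy
  exact ⟨g, hg⟩

end Pbw

end Pool.Agent.KLS

end

section

/-! MP_e487d8_al, PBW block: `∏_(i < m) (X_i - y)` is injective on `V ⊗ R(1)` (`prf_z1`). -/

set_option autoImplicit false
set_option linter.unusedSectionVars false

open scoped TensorProduct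

namespace Pool.Agent.KLS

variable {K I : Type} [Field K] [Fintype I] [DecidableEq I]

namespace Pbw

namespace Z1

section ops

variable (K)

/-- the idempotent of colour `i` -/
noncomputable def oe (i : I) : Module.End K ((I × ℕ) →₀ K) :=
  Finsupp.linearCombination K (fun p : I × ℕ => if p.1 = i then Finsupp.single p (1 : K) else 0)

variable (I) in
/-- the dot -/
noncomputable def ox : Module.End K ((I × ℕ) →₀ K) :=
  Finsupp.lmapDomain K K (fun p : I × ℕ => (p.1, p.2 + 1))

theorem oe_single (i : I) (p : I × ℕ) (c : K) :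
    oe K i (Finsupp.single p c) = if p.1 = i then Finsupp.single p c else 0 := by
  rw [oe, Finsupp.linearCombination_single]
  split_ifs <;> simp

theorem ox_single (p : I × ℕ) (c : K) :
    ox K I (Finsupp.single p c) = Finsupp.single (p.1, p.2 + 1) c := by
  rw [ox, Finsupp.lmapDomain_apply, Finsupp.mapDomain_single]

theorem oe_mul (i j : I) : oe K i * oe K j = if i = j then oe K i else 0 := by
  refine Finsupp.lhom_ext fun p c => ?_
  rw [Module.End.mul_apply, oe_single]
  by_cases h : p.1 = j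
  · rw [if_pos h, oe_single]
    by_cases h2 : i = j
    · rw [if_pos h2, oe_single]
    · rw [if_neg h2, if_neg (fun h3 => h2 (h3.symm.trans h)), LinearMap.zero_apply]
  · rw [if_neg h, map_zero]
    by_cases h2 : i = j
    · rw [if_pos h2, oe_single, if_neg (fun h3 => h (h3.trans h2))]
    · rw [if_neg h2, LinearMap.zero_apply]

theorem ox_oe (i : I) : ox K I * oe K i = oe K i * ox K I := by
  refine Finsupp.lhom_ext fun p c => ?_
  rw [Module.End.mul_apply, Module.End.mul_apply, oe_single, ox_single, oe_single]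
  by_cases h : p.1 = i
  · rw [if_pos h, if_pos h, ox_single]
  · rw [if_neg h, if_neg h, map_zero]

theorem sum_oe : ∑ i : I, oe K i = 1 := by
  refine Finsupp.lhom_ext fun p c => ?_
  rw [LinearMap.sum_apply, Module.End.one_apply]
  simp only [oe_single]
  rw [Finset.sum_ite_eq, if_pos (Finset.mem_univ _)]

theorem ox_apply (f : (I × ℕ) →₀ K) (i : I) (n : ℕ) : ox K I f (i, n + 1) = f (i, n) := by
  rw [ox, Finsupp.lmapDomain_apply]
  have hinj : Function.Injective (fun p : I × ℕ => (p.1, p.2 + 1)) := by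
    rintro ⟨i, n⟩ ⟨j, m⟩ h
    simp only [Prod.mk.injEq, Nat.add_right_cancel_iff] at h
    exact Prod.ext h.1 h.2
  exact Finsupp.mapDomain_apply hinj f (i, n)

end ops

/-- the KLR relations -/
theorem rl (D : Datum K I) : Rels D (B := Module.End K ((I × ℕ) →₀ K))
    (fun k i => if k = 0 then oe K i else 0) (fun k => if k = 0 then ox K I else 0)
    (fun _ => 0) where
  ee k i j := by
    by_cases h : k = 0
    · simp only [if_pos h]; exact oe_mul K i j
    · simp only [if_neg h, mul_zero, ite_self]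
  ee_comm k l i j := by
    by_cases h : k = 0
    · by_cases h' : l = 0
      · simp only [if_pos h, if_pos h']
        rw [oe_mul, oe_mul]
        by_cases h2 : i = j
        · rw [h2]
        · rw [if_neg h2, if_neg (Ne.symm h2)]
      · simp only [if_neg h', mul_zero, zero_mul]
    · simp only [if_neg h, mul_zero, zero_mul]
  xx k l := by
    by_cases h : k = 0
    · by_cases h' : l = 0
      · simp only [if_pos h, if_pos h']
      · simp only [if_neg h', mul_zero, zero_mul]
    · simp only [if_neg h, mul_zero, zero_mul]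
  xe k l i := by
    by_cases h : k = 0
    · by_cases h' : l = 0
      · simp only [if_pos h, if_pos h']; exact ox_oe K i
      · simp only [if_neg h', mul_zero, zero_mul]
    · simp only [if_neg h, mul_zero, zero_mul]
  xE k := by
    by_cases h : k = 0
    · simp only [if_pos h]; rw [sum_oe, mul_one]
    · simp only [if_neg h, zero_mul]
  tE k := by rw [zero_mul]
  tE' k := by rw [zero_mul]
  te0 k i := by rw [zero_mul, mul_zero]
  te1 k i := by rw [zero_mul, mul_zero]
  te k l i h h' := by rw [zero_mul, mul_zero]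
  tx k l h h' := by rw [zero_mul, mul_zero]
  tx0 k := by simp
  tx1 k := by simp
  tt k := by simp
  far k l h := by rw [zero_mul]
  braid k := by simp

/-- the representation -/
noncomputable def rep (D : Datum K I) : KLRAlg D →ₐ[K] Module.End K ((I × ℕ) →₀ K) :=
  liftHom (rl D)

/-- the sum of the free modules with one strand over the polynomial ring -/
@[nolint unusedArguments]
def PP (_D : Datum K I) : Type := (I × ℕ) →₀ K

section

variable (D : Datum K I)

noncomputable instance : AddCommGroup (PP D) := inferInstanceAs (AddCommGroup ((I × ℕ) →₀ K))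
noncomputable instance : Module K (PP D) := inferInstanceAs (Module K ((I × ℕ) →₀ K))
noncomputable instance : Module (KLRAlg D) (PP D) :=
  Module.compHom ((I × ℕ) →₀ K) (rep D).toRingHom

/-- the identity map -/
noncomputable def mk : ((I × ℕ) →₀ K) ≃ₗ[K] PP D := LinearEquiv.refl K _

theorem smul_mk (a : KLRAlg D) (p : (I × ℕ) →₀ K) : a • mk D p = mk D (rep D a p) := rfl

instance : IsScalarTower K (KLRAlg D) (PP D) where
  smul_assoc c a p := by
    obtain ⟨p, rfl⟩ := (mk D).surjective p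
    rw [smul_mk, smul_mk, map_smul (rep D) c a, LinearMap.smul_apply, map_smul]

theorem rep_e0 (i : I) : rep D (D.e 0 i) = oe K i := by
  rw [rep, liftHom_e, if_pos rfl]

theorem rep_x0 : rep D (D.x 0) = ox K I := by
  rw [rep, liftHom_x, if_pos rfl]

theorem strand : IsStrand D 1 (PP D) where
  one k hk p := by
    obtain ⟨p, rfl⟩ := (mk D).surjective p
    obtain rfl : k = 0 := by omega
    rw [smul_mk, Datum.E, map_sum]
    simp only [rep_e0]
    rw [sum_oe, Module.End.one_apply]
  zero k hk i p := by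
    obtain ⟨p, rfl⟩ := (mk D).surjective p
    rw [smul_mk, rep, liftHom_e, if_neg (by omega), LinearMap.zero_apply, map_zero]

/-- the inverse map -/
noncomputable def g : PP D →ₗ[K] Reg D 1 :=
  (Finsupp.linearCombination K (fun p : I × ℕ => Reg.mk D 1 (D.x 0 ^ p.2 * D.e 0 p.1))) ∘ₗ
    (mk D).symm.toLinearMap

theorem g_single (p : I × ℕ) (c : K) :
    g D (mk D (Finsupp.single p c)) = c • Reg.mk D 1 (D.x 0 ^ p.2 * D.e 0 p.1) := by
  rw [g, LinearMap.comp_apply, LinearEquiv.coe_coe, LinearEquiv.symm_apply_apply,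
    Finsupp.linearCombination_single]

theorem g_smul (hR : IsStrand D 1 (Reg D 1)) (a : KLRAlg D) (p : PP D) :
    g D (a • p) = a • g D p := by
  induction a using KLRAlg.induction generalizing p with
  | hs r => rw [algebraMap_smul, algebraMap_smul, map_smul]
  | hadd b c hb hc => rw [add_smul, add_smul, map_add, hb, hc]
  | hmul b c hb hc => rw [mul_smul, mul_smul, hb, hc]
  | he k i =>
    by_cases h : k = 0
    · subst h
      obtain ⟨p, rfl⟩ := (mk D).surjective p
      induction p using Finsupp.induction_linear with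
      | zero => rw [map_zero, smul_zero, map_zero, smul_zero]
      | add p q hp hq => rw [map_add, smul_add, map_add, map_add, smul_add, hp, hq]
      | single p c =>
        rw [smul_mk, rep_e0, oe_single, g_single, smul_comm (D.e 0 i) c, ← map_smul (Reg.mk D 1),
          smul_eq_mul, ← mul_assoc,
          show D.e 0 i * D.x 0 ^ p.2 = D.x 0 ^ p.2 * D.e 0 i from
            (Commute.pow_right (D.x_e 0 0 i).symm p.2 : Commute (D.e 0 i) (D.x 0 ^ p.2)),
          mul_assoc, D.e_mul_e]
        by_cases h2 : p.1 = i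
        · rw [if_pos h2, if_pos h2.symm, g_single, h2]
        · rw [if_neg h2, if_neg (Ne.symm h2), map_zero, map_zero, mul_zero, map_zero, smul_zero]
    · rw [(strand D).zero k (by omega), map_zero, hR.zero k (by omega)]
  | hx k =>
    by_cases h : k = 0
    · subst h
      obtain ⟨p, rfl⟩ := (mk D).surjective p
      induction p using Finsupp.induction_linear with
      | zero => rw [map_zero, smul_zero, map_zero, smul_zero]
      | add p q hp hq => rw [map_add, smul_add, map_add, map_add, smul_add, hp, hq]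
      | single p c =>
        rw [smul_mk, rep_x0, ox_single, g_single, g_single, smul_comm (D.x 0) c,
          ← map_smul (Reg.mk D 1), smul_eq_mul, ← mul_assoc, ← pow_succ']
    · rw [(strand D).x_smul_zero (by omega), map_zero, hR.x_smul_zero (by omega)]
  | ht k => rw [(strand D).t_smul_zero (by omega), map_zero, hR.t_smul_zero (by omega)]

/-- `R(1)` embeds in `PP` -/
theorem embed (hreg : S_reg D) : ∃ f : Reg D 1 →ₗ[KLRAlg D] PP D, Function.Injective f := by
  obtain ⟨hR, h2, -⟩ := hreg 1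
  obtain ⟨f, hf⟩ := h2 (PP D) (strand D) (∑ i : I, mk D (Finsupp.single (i, 0) 1))
  refine ⟨f, Function.LeftInverse.injective (g := g D) fun r => ?_⟩
  obtain ⟨a, rfl⟩ : ∃ a, Reg.mk D 1 a = r := Submodule.mkQ_surjective _ r
  rw [hf, g_smul D hR, map_sum]
  simp only [g_single, one_smul, pow_zero, one_mul]
  rw [← map_sum, ← Datum.E, ← mul_one (D.E 0), ← smul_eq_mul, map_smul, hR.one 0 (by omega),
    ← map_smul, smul_eq_mul, mul_one]

end

section tensor

variable (V : Type) [AddCommGroup V] [Module K V]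

/-- the coefficients -/
noncomputable def Ph : V ⊗[K] ((I × ℕ) →₀ K) ≃ₗ[K] (I × ℕ →₀ V) :=
  TensorProduct.finsuppScalarRight K K V (I × ℕ)

variable {V}

theorem Ph_tmul (v : V) (p : (I × ℕ) →₀ K) (q : I × ℕ) : Ph (K := K) V (v ⊗ₜ p) q = p q • v :=
  TensorProduct.finsuppScalarRight_apply_tmul_apply v p q

theorem Ph_op (X : Module.End K V) (z : V ⊗[K] ((I × ℕ) →₀ K)) (i : I) (n : ℕ) :
    Ph V ((X.rTensor ((I × ℕ) →₀ K) - (ox K I).lTensor V) z) (i, n + 1) =
      X (Ph V z (i, n + 1)) - Ph V z (i, n) := by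
  induction z using TensorProduct.induction_on with
  | zero => simp
  | tmul v p =>
    rw [LinearMap.sub_apply, LinearMap.rTensor_tmul, LinearMap.lTensor_tmul, map_sub,
      Finsupp.sub_apply, Ph_tmul, Ph_tmul, Ph_tmul, Ph_tmul, ox_apply, map_smul]
  | add y z hy hz =>
    rw [map_add, map_add, Finsupp.add_apply, hy, hz, map_add, Finsupp.add_apply,
      Finsupp.add_apply, map_add]
    abel

theorem inj_P (X : Module.End K V) :
    Function.Injective (X.rTensor ((I × ℕ) →₀ K) - (ox K I).lTensor V) := by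
  rw [injective_iff_map_eq_zero]
  intro z hz
  have h1 : ∀ i n, Ph V z (i, n) = X (Ph V z (i, n + 1)) := by
    intro i n
    have h := Ph_op X z i n
    rw [hz, map_zero, Finsupp.zero_apply] at h
    exact (sub_eq_zero.1 h.symm).symm
  have h2 : ∀ k i n, Ph V z (i, n) = (X ^ k) (Ph V z (i, n + k)) := by
    intro k
    induction k with
    | zero => intro i n; rw [pow_zero, Module.End.one_apply, add_zero]
    | succ k ih =>
      intro i n
      rw [h1 i n, ih i (n + 1), pow_succ', Module.End.mul_apply]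
      congr 3
      rw [show n + 1 + k = n + (k + 1) by omega]
  have h3 : Ph V z = 0 := by
    ext ⟨i, n⟩
    obtain ⟨N, hN⟩ : ∃ N, N = (Ph V z).support.sup Prod.snd := ⟨_, rfl⟩
    rw [h2 (N + 1) i n]
    have h4 : Ph V z (i, n + (N + 1)) = 0 := by
      by_contra h5
      have h6 : (i, n + (N + 1)).2 ≤ (Ph V z).support.sup Prod.snd :=
        Finset.le_sup (f := Prod.snd) (Finsupp.mem_support_iff.2 h5)
      rw [← hN] at h6
      simp only at h6
      omega
    rw [h4, map_zero, Finsupp.zero_apply]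
  exact (Ph V).injective (h3.trans (map_zero _).symm)

theorem inj_R (D : Datum K I) (hreg : S_reg D) (X : Module.End K V) :
    Function.Injective
      (X.rTensor (Reg D 1) - (Algebra.lsmul K K (Reg D 1) (D.x 0)).lTensor V) := by
  obtain ⟨f, hf⟩ := embed D hreg
  obtain ⟨j, hj⟩ : ∃ j : Reg D 1 →ₗ[K] ((I × ℕ) →₀ K),
      j = (mk D).symm.toLinearMap ∘ₗ f.restrictScalars K := ⟨_, rfl⟩
  have hji : Function.Injective j := by
    rw [hj]
    exact (mk D).symm.injective.comp hf
  have hjx : ∀ r, j (D.x 0 • r) = ox K I (j r) := by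
    intro r
    have h1 : j (D.x 0 • r) = (mk D).symm (f (D.x 0 • r)) := by rw [hj]; rfl
    have h2 : j r = (mk D).symm (f r) := by rw [hj]; rfl
    rw [h1, h2, map_smul]
    obtain ⟨p, hp⟩ := (mk D).surjective (f r)
    rw [← hp, smul_mk, rep_x0, LinearEquiv.symm_apply_apply, LinearEquiv.symm_apply_apply]
  have hT : Function.Injective (j.lTensor V) := Module.Flat.lTensor_preserves_injective_linearMap j hji
  have hc : ∀ z, j.lTensor V ((X.rTensor (Reg D 1) -
      (Algebra.lsmul K K (Reg D 1) (D.x 0)).lTensor V) z) =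
      (X.rTensor ((I × ℕ) →₀ K) - (ox K I).lTensor V) (j.lTensor V z) := by
    intro z
    induction z using TensorProduct.induction_on with
    | zero => simp
    | tmul v r =>
      rw [LinearMap.sub_apply, LinearMap.sub_apply, map_sub, LinearMap.rTensor_tmul,
        LinearMap.lTensor_tmul, LinearMap.lTensor_tmul, LinearMap.lTensor_tmul,
        LinearMap.lTensor_tmul, LinearMap.rTensor_tmul, LinearMap.lTensor_tmul,
        Algebra.lsmul_coe, hjx]
    | add y z hy hz => rw [map_add, map_add, hy, hz, map_add, map_add]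
  intro y z hyz
  exact hT (inj_P X (by rw [← hc, ← hc, hyz]))

end tensor

theorem inj_prod {W : Type} [AddCommGroup W] [Module K W] (l : List (Module.End K W))
    (h : ∀ a ∈ l, Function.Injective a) : Function.Injective l.prod := by
  induction l with
  | nil => rw [List.prod_nil]; exact fun _ _ h => h
  | cons a l ih =>
    rw [List.prod_cons, Module.End.mul_eq_comp, LinearMap.coe_comp]
    exact (h a (List.mem_cons_self ..)).comp (ih fun b hb => h b (List.mem_cons_of_mem _ hb))

end Z1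

theorem prf_z1 (D : Datum K I) (hreg : S_reg D) : S_z1 D := by
  intro m V _ _ X _
  refine Z1.inj_prod _ fun a ha => ?_
  obtain ⟨i, -, rfl⟩ := List.mem_map.1 ha
  exact Z1.inj_R D hreg (X i)

end Pbw

end Pool.Agent.KLS

end

section

/-! MP_e487d8_al, PBW block: spanning by shuffles. -/

set_option autoImplicit false

namespace Pool.Agent.KLS

variable {K I : Type} [Field K] [Fintype I] [DecidableEq I]

namespace Pbw

namespace Stable

variable (D : Datum K I)

theorem tr_chain (m : ℕ) : D.tr (m + 1) (D.chain m) = D.chain m := by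
  induction m with
  | zero => exact map_one _
  | succ m ih =>
    have h : D.chain (m + 1) = D.chain m * D.t m := rfl
    have h1 : D.tr (m + 1 + 1) (D.chain m) = D.chain m := by
      rw [← ih, D.tr_tr (by omega)]
    rw [h, map_mul, h1, D.tr_t, if_pos (by omega)]

theorem e_chain (m : ℕ) (i : I) : D.e 0 i * D.chain m = D.chain m * D.e m i := by
  induction m with
  | zero => simp [Datum.chain]
  | succ m ih =>
    have h : D.chain (m + 1) = D.chain m * D.t m := rfl
    rw [h, ← mul_assoc, ih, mul_assoc, mul_assoc, D.t_e1]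

theorem chain_succ (m : ℕ) : D.chain (m + 1) = D.t 0 * D.shn 1 (D.chain m) := by
  induction m with
  | zero => simp [Datum.chain]
  | succ m ih =>
    have h' : D.chain (m + 1) = D.chain m * D.t m := rfl
    calc D.chain (m + 1 + 1) = D.chain (m + 1) * D.t (m + 1) := rfl
      _ = D.t 0 * D.shn 1 (D.chain m) * D.t (m + 1) := by rw [ih]
      _ = D.t 0 * D.shn 1 (D.chain (m + 1)) := by
        rw [h', map_mul, D.shn_t, mul_assoc, add_comm 1 m]

theorem tw_true {w : List Bool} (h : w.count false = 0) : D.tw w = 1 := by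
  induction w with
  | nil => rfl
  | cons b w ih =>
    cases b with
    | false => simp at h
    | true =>
      rw [List.count_cons_of_ne (by simp)] at h
      have h1 : D.tw (true :: w) = D.shn 1 (D.tw w) * D.chain (w.count false) := rfl
      rw [h1, ih h, h, map_one, one_mul]
      rfl

theorem tw_false {w : List Bool} (h : w.count true = 0) : D.tw w = 1 := by
  induction w with
  | nil => rfl
  | cons b w ih =>
    cases b with
    | true => simp at h
    | false =>
      rw [List.count_cons_of_ne (by simp)] at h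
      have h1 : D.tw (false :: w) = D.shn 1 (D.tw w) := rfl
      rw [h1, ih h, map_one]

theorem tw_rep (m n : ℕ) : D.tw (List.replicate m false ++ List.replicate n true) = 1 := by
  induction m with
  | zero =>
    apply tw_true
    simp [List.count_replicate]
  | succ m ih =>
    have h1 : D.tw (List.replicate (m + 1) false ++ List.replicate n true) =
      D.shn 1 (D.tw (List.replicate m false ++ List.replicate n true)) := rfl
    rw [h1, ih, map_one]

theorem comm1 {g : KLRAlg D} (hg : D.tr 1 g = g) (b : KLRAlg D) :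
    g * D.shn 1 b = D.shn 1 b * g := by
  have h := D.tr_mul_shn (le_refl 1) g b
  rwa [hg] at h

variable {D}
variable {m n : ℕ} {U P : Type} [AddCommGroup U] [Module K U] [AddCommGroup P] [Module K P]
  {r1 r2 : KLRAlg D →ₐ[K] Module.End K U} {r : KLRAlg D →ₐ[K] Module.End K P}
  {Z : Submodule K P} {β : U →ₗ[K] P}

theorem mem_Z {z : P} (hz : z ∈ Z) : z ∈ shSpan D m n r Z β :=
  (le_sup_left : Z ≤ shSpan D m n r Z β) hz

theorem mem_w {w : List Bool} (h : w.count false = m) (h' : w.count true = n) (p : U) :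
    r (D.tw w) (β p) ∈ shSpan D m n r Z β :=
  (le_sup_right : _ ≤ shSpan D m n r Z β) (Submodule.subset_span ⟨w, p, h, h', rfl⟩)

theorem mem_beta (p : U) : β p ∈ shSpan D m n r Z β := by
  have h := mem_w (D := D) (m := m) (n := n) (r := r) (Z := Z) (β := β)
    (w := List.replicate m false ++ List.replicate n true)
    (by simp [List.count_replicate]) (by simp [List.count_replicate]) p
  rw [tw_rep, map_one] at h
  exact h

/-- to show that an operator maps the span to a submodule it is enough to look at the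
generators -/
theorem ind {X : Submodule K P} {f : Module.End K P} (hZ : ∀ z ∈ Z, f z ∈ X)
    (hw : ∀ (w : List Bool) (p : U), w.count false = m → w.count true = n →
      f (r (D.tw w) (β p)) ∈ X) : ∀ y ∈ shSpan D m n r Z β, f y ∈ X := by
  have h : shSpan D m n r Z β ≤ X.comap f := by
    refine sup_le (fun z hz => hZ z hz) ?_
    rw [Submodule.span_le]
    rintro y ⟨w, p, h1, h2, rfl⟩
    exact hw w p h1 h2
  exact fun y hy => h hy

theorem mul_app (r : KLRAlg D →ₐ[K] Module.End K P) (a b : KLRAlg D) (y : P) :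
    r (a * b) y = r a (r b y) := by
  rw [map_mul]
  rfl

end Stable

open Stable

theorem stable_zero_left (D : Datum K I) (n : ℕ) (U P : Type) [AddCommGroup U] [Module K U]
    [AddCommGroup P] [Module K P] (r2 : KLRAlg D →ₐ[K] Module.End K U)
    (r : KLRAlg D →ₐ[K] Module.End K P)
    (Z : Submodule K P) (β : U →ₗ[K] P)
    (hZ : ∀ a, ∀ z ∈ Z, r a z ∈ Z)
    (hr : ∀ a p, r (D.shn 0 a) (β p) - β (r2 a p) ∈ Z) :
    ∀ a, ∀ y ∈ shSpan D 0 n r Z β, r a y ∈ shSpan D 0 n r Z β := by
  intro a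
  apply ind
  · exact fun z hz => mem_Z (hZ a z hz)
  · intro w p h1 h2
    rw [tw_true D h1, map_one]
    have h := hr a p
    rw [D.shn_zero] at h
    have h3 : r a (β p) = (r a (β p) - β (r2 a p)) + β (r2 a p) := by abel
    change r a (β p) ∈ _
    rw [h3]
    exact add_mem (mem_Z h) (mem_beta _)

/-- the strands from `m` on act on `β p` as on the second factor -/
theorem stable_zero_right (D : Datum K I) (m : ℕ) (U P : Type) [AddCommGroup U] [Module K U]
    [AddCommGroup P] [Module K P] (r1 r2 : KLRAlg D →ₐ[K] Module.End K U)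
    (r : KLRAlg D →ₐ[K] Module.End K P)
    (Z : Submodule K P) (β : U →ₗ[K] P) (h2 : StrandHom D 0 r2)
    (hZ : ∀ a, ∀ z ∈ Z, r a z ∈ Z)
    (hl : ∀ a p, r (D.tr m a) (β p) - β (r1 a p) ∈ Z)
    (hr : ∀ a p, r (D.shn m a) (β p) - β (r2 a p) ∈ Z) :
    ∀ a, ∀ y ∈ shSpan D m 0 r Z β, r a y ∈ shSpan D m 0 r Z β := by
  have hgen : ∀ g : KLRAlg D, (∀ p, r g (β p) ∈ shSpan D m 0 r Z β) →
      ∀ y ∈ shSpan D m 0 r Z β, r g y ∈ shSpan D m 0 r Z β := by
    intro g hg
    apply ind
    · exact fun z hz => mem_Z (hZ g z hz)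
    · intro w p _ h4
      rw [tw_false D h4, map_one]
      exact hg p
  have htr : ∀ g : KLRAlg D, D.tr m g = g → ∀ p, r g (β p) ∈ shSpan D m 0 r Z β := by
    intro g hg p
    have h := hl g p
    rw [hg] at h
    have h3 : r g (β p) = (r g (β p) - β (r1 g p)) + β (r1 g p) := by abel
    rw [h3]
    exact add_mem (mem_Z h) (mem_beta _)
  have he : ∀ k, m ≤ k → ∀ i p, r (D.e k i) (β p) ∈ Z := by
    intro k hk i p
    have h := hr (D.e (k - m) i) p
    rw [D.shn_e, h2.zero _ (by omega), show m + (k - m) = k by omega] at h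
    simpa using h
  have hE : ∀ k, m ≤ k → ∀ p, r (D.E k) (β p) ∈ Z := by
    intro k hk p
    unfold Datum.E
    rw [map_sum, LinearMap.sum_apply]
    exact sum_mem fun i _ => he k hk i p
  intro a
  induction a using KLRAlg.induction with
  | hs c =>
    intro y hy
    rw [AlgHom.commutes, Module.algebraMap_end_apply]
    exact Submodule.smul_mem _ _ hy
  | hadd a b ha hb =>
    intro y hy
    rw [map_add]
    exact add_mem (ha y hy) (hb y hy)
  | hmul a b ha hb =>
    intro y hy
    rw [mul_app]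
    exact ha _ (hb y hy)
  | he k i =>
    apply hgen
    intro p
    by_cases hk : k < m
    · exact htr _ (by rw [D.tr_e, if_pos hk]) p
    · exact mem_Z (he k (by omega) i p)
  | hx k =>
    apply hgen
    intro p
    by_cases hk : k < m
    · exact htr _ (by rw [D.tr_x, if_pos hk]) p
    · rw [← D.x_E, mul_app]
      exact mem_Z (hZ _ _ (hE k (by omega) p))
  | ht k =>
    apply hgen
    intro p
    by_cases hk : k + 1 < m
    · exact htr _ (by rw [D.tr_t, if_pos hk]) p
    · rw [← D.t_E', mul_app]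
      exact mem_Z (hZ _ _ (hE (k + 1) (by omega) p))

/-- the statement for `m` and `n` -/
def St (D : Datum K I) (m n : ℕ) : Prop := ∀ (U P : Type) [AddCommGroup U] [Module K U]
  [AddCommGroup P] [Module K P] (r1 r2 : KLRAlg D →ₐ[K] Module.End K U)
  (r : KLRAlg D →ₐ[K] Module.End K P)
  (Z : Submodule K P) (β : U →ₗ[K] P), StrandHom D m r1 → StrandHom D n r2 →
  (∀ a, ∀ z ∈ Z, r a z ∈ Z) →
  (∀ a p, r (D.tr m a) (β p) - β (r1 a p) ∈ Z) →
  (∀ a p, r (D.shn m a) (β p) - β (r2 a p) ∈ Z) →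
  ∀ a, ∀ y ∈ shSpan D m n r Z β, r a y ∈ shSpan D m n r Z β

theorem StrandHom.shift {D : Datum K I} {n : ℕ} {V : Type} [AddCommGroup V] [Module K V]
    {r : KLRAlg D →ₐ[K] Module.End K V} (h : StrandHom D (n + 1) r) :
    StrandHom D n (r.comp (D.shn 1)) where
  one k hk := by
    rw [AlgHom.comp_apply, D.shn_E]
    exact h.one (1 + k) (by omega)
  zero k hk i := by
    rw [AlgHom.comp_apply, D.shn_e]
    exact h.zero (1 + k) (by omega) i

section step

variable {D : Datum K I} {m n : ℕ} {U P : Type} [AddCommGroup U] [Module K U] [AddCommGroup P]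
  [Module K P] {r1 r2 : KLRAlg D →ₐ[K] Module.End K U} {r : KLRAlg D →ₐ[K] Module.End K P}
  {Z : Submodule K P} {β : U →ₗ[K] P}

/-- step F -/
theorem stepF (ih : St D m n) (h1 : StrandHom D (m + 1) r1) (h2 : StrandHom D n r2)
    (hZ : ∀ a, ∀ z ∈ Z, r a z ∈ Z)
    (hl : ∀ a p, r (D.tr (m + 1) a) (β p) - β (r1 a p) ∈ Z)
    (hr : ∀ a p, r (D.shn (m + 1) a) (β p) - β (r2 a p) ∈ Z) :
    ∀ a, ∀ y ∈ shSpan D m n (r.comp (D.shn 1)) Z β,
      r (D.shn 1 a) y ∈ shSpan D m n (r.comp (D.shn 1)) Z β := by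
  refine ih U P (r1.comp (D.shn 1)) r2 (r.comp (D.shn 1)) Z β h1.shift h2
    (fun a z hz => hZ _ z hz) ?_ ?_
  · intro a p
    have h := hl (D.shn 1 a) p
    rw [show m + 1 = 1 + m by omega, D.tr_shn] at h
    exact h
  · intro a p
    have h := hr a p
    rw [show m + 1 = 1 + m by omega, ← D.shn_shn] at h
    exact h

theorem W_mem {X : Submodule K P} (hX : ∀ a, ∀ y ∈ X, r (D.shn 1 a) y ∈ X) (hZX : Z ≤ X)
    (hβ : ∀ p, β p ∈ X) (hl : ∀ a p, r (D.tr m a) (β p) - β (r1 a p) ∈ Z)
    {w : KLRAlg D} (hw : w ∈ W D m) (p : U) : r w (β p) ∈ X := by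
  have h : W D m ≤ Submodule.comap ((LinearMap.applyₗ (β p)).comp r.toLinearMap) X := by
    unfold W
    rw [Submodule.span_le]
    rintro z ⟨_, a, b, rfl⟩
    change r (D.shn 1 a * D.tr m b) (β p) ∈ X
    rw [mul_app]
    apply hX
    have h3 : r (D.tr m b) (β p) = (r (D.tr m b) (β p) - β (r1 b p)) + β (r1 b p) := by abel
    rw [h3]
    exact add_mem (hZX (hl b p)) (hβ _)
  exact h hw

/-- step T -/
theorem stepT (hW1 : S_W1 D) (ih : St D (m + 1) n) (h1 : StrandHom D (m + 1) r1)
    (h2 : StrandHom D (n + 1) r2)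
    (hZ : ∀ a, ∀ z ∈ Z, r a z ∈ Z)
    (hl : ∀ a p, r (D.tr (m + 1) a) (β p) - β (r1 a p) ∈ Z)
    (hr : ∀ a p, r (D.shn (m + 1) a) (β p) - β (r2 a p) ∈ Z)
    {X : Submodule K P} (hX : ∀ a, ∀ y ∈ X, r (D.shn 1 a) y ∈ X) (hZX : Z ≤ X)
    (hβ : ∀ p, β p ∈ X) :
    ∀ a, ∀ y ∈ shSpan D (m + 1) n (r.comp (D.shn 1)) X (r (D.chain (m + 1)) ∘ₗ β),
      r (D.shn 1 a) y ∈
        shSpan D (m + 1) n (r.comp (D.shn 1)) X (r (D.chain (m + 1)) ∘ₗ β) := by
  refine ih U P r1 (r2.comp (D.shn 1)) (r.comp (D.shn 1)) X _ h1 h2.shift hX ?_ ?_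
  · intro a p
    have hw := W_mem hX hZX hβ hl (hW1 (m + 1) a) p
    have h3 := hZX (hZ (D.chain (m + 1)) _ (hl a p))
    rw [map_sub, LinearMap.sub_apply, mul_app, mul_app] at hw
    rw [map_sub] at h3
    have h4 := add_mem hw h3
    rw [sub_add_sub_cancel] at h4
    exact h4
  · intro a p
    have h3 := hZX (hZ (D.chain (m + 1)) _ (hr (D.shn 1 a) p))
    rw [map_sub, ← mul_app] at h3
    have h5 : D.chain (m + 1) * D.shn (m + 1) (D.shn 1 a) =
        D.shn 1 (D.shn (m + 1) a) * D.chain (m + 1) := by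
      rw [D.shn_shn, D.shn_shn, ← tr_chain D (m + 1), D.tr_mul_shn (le_refl _),
        show 1 + (m + 1) = m + 1 + 1 by omega]
    rw [h5, mul_app] at h3
    exact h3

/-- the span decomposed by the first letter -/
theorem split_span : shSpan D (m + 1) (n + 1) r Z β =
    shSpan D (m + 1) n (r.comp (D.shn 1)) (shSpan D m (n + 1) (r.comp (D.shn 1)) Z β)
      (r (D.chain (m + 1)) ∘ₗ β) := by
  apply le_antisymm
  · refine sup_le (fun z hz => mem_Z (mem_Z hz)) ?_
    rw [Submodule.span_le]
    rintro y ⟨w, p, h1, h2, rfl⟩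
    match w with
    | [] => simp at h1
    | false :: w =>
      rw [List.count_cons_self] at h1
      rw [List.count_cons_of_ne (by simp)] at h2
      exact mem_Z (mem_w (r := r.comp (D.shn 1)) (w := w) (by omega) h2 p)
    | true :: w =>
      rw [List.count_cons_self] at h2
      rw [List.count_cons_of_ne (by simp)] at h1
      have h3 := mem_w (D := D) (m := m + 1) (n := n) (r := r.comp (D.shn 1)) (w := w)
        (Z := shSpan D m (n + 1) (r.comp (D.shn 1)) Z β)
        (β := r (D.chain (m + 1)) ∘ₗ β) h1 (by omega) p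
      have h4 : D.tw (true :: w) = D.shn 1 (D.tw w) * D.chain (w.count false) := rfl
      change r (D.tw (true :: w)) (β p) ∈ _
      rw [h4, h1, mul_app]
      exact h3
  · refine sup_le (sup_le (fun z hz => mem_Z hz) ?_) ?_
    · rw [Submodule.span_le]
      rintro y ⟨w, p, h1, h2, rfl⟩
      have h4 : D.tw (false :: w) = D.shn 1 (D.tw w) := rfl
      have h3 := mem_w (D := D) (m := m + 1) (n := n + 1) (r := r) (w := false :: w)
        (Z := Z) (β := β) (by rw [List.count_cons_self, h1])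
        (by rw [List.count_cons_of_ne (by simp), h2]) p
      rw [h4] at h3
      exact h3
    · rw [Submodule.span_le]
      rintro y ⟨w, p, h1, h2, rfl⟩
      have h4 : D.tw (true :: w) = D.shn 1 (D.tw w) * D.chain (w.count false) := rfl
      have h3 := mem_w (D := D) (m := m + 1) (n := n + 1) (r := r) (w := true :: w)
        (Z := Z) (β := β) (by rw [List.count_cons_of_ne (by simp), h1])
        (by rw [List.count_cons_self, h2]) p
      rw [h4, h1, mul_app] at h3
      exact h3

theorem stable_step (hW1 : S_W1 D) (hW2 : S_W2 D) (hW3 : S_W3 D) (ihF : St D m (n + 1))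
    (ihT : St D (m + 1) n) : St D (m + 1) (n + 1) := by
  intro U P _ _ _ _ r1 r2 r Z β h1 h2 hZ hl hr
  have F := stepF ihF h1 h2 hZ hl hr
  have T := stepT hW1 ihT h1 h2 hZ hl hr F (fun z hz => mem_Z hz) (fun p => mem_beta p)
  rw [← split_span] at T
  have hXF : shSpan D m (n + 1) (r.comp (D.shn 1)) Z β ≤ shSpan D (m + 1) (n + 1) r Z β := by
    rw [split_span]
    exact fun z hz => mem_Z hz
  have hW : ∀ w ∈ W D (m + 1), ∀ p, r w (β p) ∈ shSpan D m (n + 1) (r.comp (D.shn 1)) Z β :=
    fun w hw p => W_mem F (fun z hz => mem_Z hz) (fun p => mem_beta p) hl hw p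
  -- an element which acts on `β p` as on the first or the second factor
  have hact : ∀ g : KLRAlg D, (D.tr (m + 1) g = g ∨ ∃ g', D.shn (m + 1) g' = g) → ∀ p, ∃ p',
      r g (β p) - β p' ∈ Z := by
    rintro g (hg | ⟨g', rfl⟩) p
    · refine ⟨r1 g p, ?_⟩
      have h := hl g p
      rwa [hg] at h
    · exact ⟨_, hr g' p⟩
  have hY : ∀ (g : KLRAlg D), (D.tr (m + 1) g = g ∨ ∃ g', D.shn (m + 1) g' = g) →
      ∀ (w : List Bool) (p : U), w.count false = m + 1 → w.count true = n + 1 →
      r (D.tw w) (r g (β p)) ∈ shSpan D (m + 1) (n + 1) r Z β := by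
    intro g hg w p h3 h4
    obtain ⟨p', hp⟩ := hact g hg p
    have h5 : r g (β p) = (r g (β p) - β p') + β p' := by abel
    rw [h5, map_add]
    exact add_mem (mem_Z (hZ _ _ hp)) (mem_w h3 h4 p')
  have hF : ∀ (g : KLRAlg D), D.tr (m + 1) g = g → (∀ b, g * D.shn 1 b = D.shn 1 b * g) →
      ∀ y ∈ shSpan D m (n + 1) (r.comp (D.shn 1)) Z β,
        r g y ∈ shSpan D m (n + 1) (r.comp (D.shn 1)) Z β := by
    intro g hg hc
    apply ind
    · exact fun z hz => mem_Z (hZ g z hz)
    · intro w p h3 h4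
      change r g (r (D.shn 1 (D.tw w)) (β p)) ∈ _
      rw [← mul_app, hc, mul_app]
      apply F
      obtain ⟨p', hp⟩ := hact g (Or.inl hg) p
      have h5 : r g (β p) = (r g (β p) - β p') + β p' := by abel
      rw [h5]
      exact add_mem (mem_Z hp) (mem_beta p')
  have tre : ∀ i, D.tr (m + 1) (D.e 0 i) = D.e 0 i := fun i => by rw [D.tr_e, if_pos (by omega)]
  have trx : D.tr (m + 1) (D.x 0) = D.x 0 := by rw [D.tr_x, if_pos (by omega)]
  have ce : ∀ i b, D.e 0 i * D.shn 1 b = D.shn 1 b * D.e 0 i := fun i b =>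
    comm1 D (by rw [D.tr_e, if_pos (by omega)]) b
  have cx : ∀ b, D.x 0 * D.shn 1 b = D.shn 1 b * D.x 0 := fun b =>
    comm1 D (by rw [D.tr_x, if_pos (by omega)]) b
  -- `t 0 * t 0` on the first part
  have htt : ∀ y ∈ shSpan D m (n + 1) (r.comp (D.shn 1)) Z β,
      r (D.t 0 * D.t 0) y ∈ shSpan D m (n + 1) (r.comp (D.shn 1)) Z β := by
    intro y hy
    have hx0 : ∀ (q : ℕ), ∀ y ∈ shSpan D m (n + 1) (r.comp (D.shn 1)) Z β,
        r (D.x 0 ^ q) y ∈ shSpan D m (n + 1) (r.comp (D.shn 1)) Z β := by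
      intro q
      induction q with
      | zero => intro y hy; rw [pow_zero, map_one]; exact hy
      | succ q ihq => intro y hy; rw [pow_succ, mul_app]; exact ihq _ (hF _ trx cx y hy)
    have hx1 : ∀ (q : ℕ), ∀ y ∈ shSpan D m (n + 1) (r.comp (D.shn 1)) Z β,
        r (D.x (0 + 1) ^ q) y ∈ shSpan D m (n + 1) (r.comp (D.shn 1)) Z β := by
      intro q
      induction q with
      | zero => intro y hy; rw [pow_zero, map_one]; exact hy
      | succ q ihq =>
        intro y hy
        rw [pow_succ, mul_app]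
        refine ihq _ ?_
        have h := F (D.x 0) y hy
        rw [D.shn_x] at h
        exact h
    have hx2 : ∀ i j, ∀ y ∈ shSpan D m (n + 1) (r.comp (D.shn 1)) Z β,
        r (D.QE i j (D.x 0) (D.x (0 + 1))) y ∈ shSpan D m (n + 1) (r.comp (D.shn 1)) Z β := by
      intro i j y hy
      unfold Datum.QE
      rw [map_sum, LinearMap.sum_apply]
      refine sum_mem fun p _ => ?_
      rw [map_sum, LinearMap.sum_apply]
      refine sum_mem fun q _ => ?_
      rw [map_smul, LinearMap.smul_apply, mul_app]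
      exact Submodule.smul_mem _ _ (hx0 _ _ (hx1 _ _ hy))
    rw [D.t_t, map_sum, LinearMap.sum_apply]
    refine sum_mem fun i _ => ?_
    rw [map_sum, LinearMap.sum_apply]
    refine sum_mem fun j _ => ?_
    split_ifs with hij
    · rw [map_zero]; exact zero_mem _
    · rw [mul_app, mul_app]
      refine hx2 _ _ _ (hF _ (tre i) (ce i) _ ?_)
      have h := F (D.e 0 j) y hy
      rw [D.shn_e] at h
      exact h
  intro a
  induction a using KLRAlg.induction with
  | hs c =>
    intro y hy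
    rw [AlgHom.commutes, Module.algebraMap_end_apply]
    exact Submodule.smul_mem _ _ hy
  | hadd a b ha hb =>
    intro y hy
    rw [map_add]
    exact add_mem (ha y hy) (hb y hy)
  | hmul a b ha hb =>
    intro y hy
    rw [mul_app]
    exact ha _ (hb y hy)
  | he k i =>
    rcases k with _ | k
    · apply ind
      · exact fun z hz => mem_Z (hZ _ z hz)
      · intro w p h3 h4
        match w with
        | [] => simp at h3
        | false :: w =>
          have h5 : D.tw (false :: w) = D.shn 1 (D.tw w) := rfl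
          rw [h5, ← mul_app, ce, mul_app, ← h5]
          exact hY _ (Or.inl (tre i)) _ p h3 h4
        | true :: w =>
          have h5 : D.tw (true :: w) = D.shn 1 (D.tw w) * D.chain (w.count false) := rfl
          have h6 : w.count false = m + 1 := by
            rwa [List.count_cons_of_ne (by simp)] at h3
          have h7 : D.e 0 i * D.tw (true :: w) = D.tw (true :: w) * D.e (m + 1) i := by
            rw [h5, h6, ← mul_assoc, ce, mul_assoc, e_chain, mul_assoc]
          rw [← mul_app, h7, mul_app]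
          exact hY _ (Or.inr ⟨D.e 0 i, by rw [D.shn_e, add_zero]⟩) _ p h3 h4
    · intro y hy
      have h := T (D.e k i) y hy
      rw [D.shn_e, add_comm 1 k] at h
      exact h
  | hx k =>
    rcases k with _ | k
    · apply ind
      · exact fun z hz => mem_Z (hZ _ z hz)
      · intro w p h3 h4
        match w with
        | [] => simp at h3
        | false :: w =>
          have h5 : D.tw (false :: w) = D.shn 1 (D.tw w) := rfl
          rw [h5, ← mul_app, cx, mul_app, ← h5]
          exact hY _ (Or.inl trx) _ p h3 h4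
        | true :: w =>
          have h5 : D.tw (true :: w) = D.shn 1 (D.tw w) * D.chain (w.count false) := rfl
          have h6 : w.count false = m + 1 := by
            rwa [List.count_cons_of_ne (by simp)] at h3
          have h7 : D.x 0 * D.tw (true :: w) = D.tw (true :: w) * D.x (m + 1) +
              D.shn 1 (D.tw w) * (D.x 0 * D.chain (m + 1) - D.chain (m + 1) * D.x (m + 1)) := by
            rw [h5, h6, ← mul_assoc, cx, mul_sub, mul_assoc, mul_assoc, add_sub_cancel]
          rw [← mul_app, h7, map_add, LinearMap.add_apply, mul_app, mul_app]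
          refine add_mem (hY _ (Or.inr ⟨D.x 0, by rw [D.shn_x, add_zero]⟩) _ p h3 h4) ?_
          exact hXF (F _ _ (hW _ (hW2 (m + 1)) p))
    · intro y hy
      have h := T (D.x k) y hy
      rw [D.shn_x, add_comm 1 k] at h
      exact h
  | ht k =>
    rcases k with _ | k
    · apply ind
      · exact fun z hz => mem_Z (hZ _ z hz)
      · intro w p h3 h4
        match w with
        | [] => simp at h3
        | [false] => simp at h4
        | [true] => simp at h3
        | false :: false :: w =>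
          have h5 : D.tw (false :: false :: w) = D.shn 1 (D.shn 1 (D.tw w)) := rfl
          have h6 : D.t 0 * D.tw (false :: false :: w) =
              D.tw (false :: false :: w) * D.t 0 := by
            rw [h5, D.shn_shn]
            have h := D.tr_mul_shn (le_refl 2) (D.t 0) (D.tw w)
            rwa [D.tr_t, if_pos (by omega)] at h
          rw [← mul_app, h6, mul_app]
          refine hY _ (Or.inl ?_) _ p h3 h4
          rw [List.count_cons_self, List.count_cons_self] at h3
          rw [D.tr_t, if_pos (by omega)]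
        | false :: true :: w =>
          have h5 : D.tw (false :: true :: w) =
              D.shn 1 (D.shn 1 (D.tw w) * D.chain (w.count false)) := rfl
          have h6 : w.count false = m := by
            rw [List.count_cons_self, List.count_cons_of_ne (by simp)] at h3
            omega
          have h7 : D.t 0 * D.tw (false :: true :: w) = D.tw (true :: false :: w) := by
            have h8 : D.tw (true :: false :: w) =
              D.shn 1 (D.shn 1 (D.tw w)) * D.chain ((false :: w).count false) := rfl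
            rw [h5, h8, List.count_cons_self, h6, chain_succ, map_mul, ← mul_assoc, ← mul_assoc]
            congr 1
            rw [D.shn_shn]
            have h := D.tr_mul_shn (le_refl 2) (D.t 0) (D.tw w)
            rwa [D.tr_t, if_pos (by omega)] at h
          rw [← mul_app, h7]
          apply mem_w
          · rw [List.count_cons_of_ne (by simp), List.count_cons_self, h6]
          · rw [List.count_cons_of_ne (by simp), List.count_cons_self] at h4
            rw [List.count_cons_self, List.count_cons_of_ne (by simp), h4]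
        | true :: false :: w =>
          have h8 : D.tw (true :: false :: w) =
              D.shn 1 (D.shn 1 (D.tw w)) * D.chain ((false :: w).count false) := rfl
          have h6 : (false :: w).count false = m + 1 := by
            rwa [List.count_cons_of_ne (by simp)] at h3
          have h7 : D.t 0 * D.tw (true :: false :: w) =
              D.shn 1 (D.shn 1 (D.tw w)) * (D.t 0 * D.t 0 * D.shn 1 (D.chain m)) := by
            have h9 : D.t 0 * D.shn 1 (D.shn 1 (D.tw w)) = D.shn 1 (D.shn 1 (D.tw w)) * D.t 0 := by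
              rw [D.shn_shn]
              have h := D.tr_mul_shn (le_refl 2) (D.t 0) (D.tw w)
              rwa [D.tr_t, if_pos (by omega)] at h
            rw [h8, h6, chain_succ, ← mul_assoc (D.t 0) (D.shn 1 (D.shn 1 (D.tw w))), h9]
            simp only [mul_assoc]
          rw [← mul_app, h7, mul_app, mul_app]
          exact hXF (F _ _ (htt _ (F _ _ (mem_beta p))))
        | true :: true :: w =>
          have h6 : w.count false = m + 1 := by
            rwa [List.count_cons_of_ne (by simp), List.count_cons_of_ne (by simp)] at h3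
          have h8 : D.tw (true :: true :: w) =
              D.shn 1 (D.shn 1 (D.tw w)) * (D.shn 1 (D.chain (m + 1)) * D.chain (m + 1)) := by
            have h8 : D.tw (true :: true :: w) = D.shn 1 (D.shn 1 (D.tw w) *
                D.chain (w.count false)) * D.chain ((true :: w).count false) := rfl
            rw [h8, List.count_cons_of_ne (by simp), h6, map_mul, mul_assoc]
          have h7 : D.t 0 * D.tw (true :: true :: w) = D.tw (true :: true :: w) * D.t (m + 1) +
              D.shn 1 (D.shn 1 (D.tw w)) * (D.t 0 * (D.shn 1 (D.chain (m + 1)) *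
                D.chain (m + 1)) - D.shn 1 (D.chain (m + 1)) * D.chain (m + 1) *
                D.t (m + 1)) := by
            have h9 : D.t 0 * D.shn 1 (D.shn 1 (D.tw w)) = D.shn 1 (D.shn 1 (D.tw w)) * D.t 0 := by
              rw [D.shn_shn]
              have h := D.tr_mul_shn (le_refl 2) (D.t 0) (D.tw w)
              rwa [D.tr_t, if_pos (by omega)] at h
            rw [h8, ← mul_assoc, h9, mul_sub, mul_assoc, mul_assoc (D.shn 1 (D.shn 1 (D.tw w))),
              add_sub_cancel]
          rw [← mul_app, h7, map_add, LinearMap.add_apply, mul_app, mul_app]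
          refine add_mem (hY _ (Or.inr ⟨D.t 0, by rw [D.shn_t, add_zero]⟩) _ p h3 h4) ?_
          exact hXF (F _ _ (hW _ (hW3 (m + 1)) p))
    · intro y hy
      have h := T (D.t k) y hy
      rw [D.shn_t, add_comm 1 k] at h
      exact h

end step

/-- `∑_w tw w • β(p)` is stable under the KLR algebra -/
theorem prf_stable (D : Datum K I) (h1 : S_W1 D) (h2 : S_W2 D) (h3 : S_W3 D) : S_stable D := by
  have h : ∀ m n, St D m n := by
    intro m
    induction m with
    | zero =>
      intro n U P _ _ _ _ r1 r2 r Z β _ _ hZ _ hr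
      exact stable_zero_left D n U P r2 r Z β hZ hr
    | succ m ihm =>
      intro n
      induction n with
      | zero =>
        intro U P _ _ _ _ r1 r2 r Z β _ hs2 hZ hl hr
        exact stable_zero_right D (m + 1) U P r1 r2 r Z β hs2 hZ hl hr
      | succ n ihn => exact stable_step h1 h2 h3 (ihm (n + 1)) ihn
  exact h

end Pbw

end Pool.Agent.KLS

end

section

/-! MP_e487d8_al, PBW block: commutation of `chain m` modulo the error terms `W m`. -/

set_option autoImplicit false

namespace Pool.Agent.KLS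

variable {K I : Type} [Field K] [Fintype I] [DecidableEq I] (D : Datum K I)

namespace Pbw

namespace WX

theorem mem_gen {m : ℕ} (hm : 0 < m) (a b : KLRAlg D) : D.shn 1 a * D.tr m b ∈ W D m :=
  Submodule.subset_span ⟨hm, a, b, rfl⟩

theorem mono (m : ℕ) : W D m ≤ W D (m + 1) := by
  unfold W
  refine Submodule.span_le.2 ?_
  rintro z ⟨hm, a, b, rfl⟩
  have h := mem_gen D (m := m + 1) (Nat.succ_pos m) a (D.tr m b)
  rw [D.tr_tr (Nat.le_succ m)] at h
  exact h

theorem shn_mul {m : ℕ} (c : KLRAlg D) {z : KLRAlg D} (hz : z ∈ W D m) :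
    D.shn 1 c * z ∈ W D m := by
  unfold W at hz
  induction hz using Submodule.span_induction with
  | mem z hz =>
    obtain ⟨hm, a, b, rfl⟩ := hz
    rw [← mul_assoc, ← map_mul]
    exact mem_gen D hm _ _
  | zero => rw [mul_zero]; exact Submodule.zero_mem _
  | add x y _ _ hx hy => rw [mul_add]; exact Submodule.add_mem _ hx hy
  | smul r x _ hx => rw [mul_smul_comm]; exact Submodule.smul_mem _ r hx

/-- the elements which multiply `W m` from the right into itself -/
noncomputable def stab (m : ℕ) : Subalgebra K (KLRAlg D) where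
  carrier := {z | ∀ w ∈ W D m, w * z ∈ W D m}
  mul_mem' := by
    intro a b ha hb w hw
    rw [← mul_assoc]
    exact hb _ (ha w hw)
  add_mem' := by
    intro a b ha hb w hw
    rw [mul_add]
    exact Submodule.add_mem _ (ha w hw) (hb w hw)
  algebraMap_mem' := by
    intro r w hw
    rw [← Algebra.commutes, ← Algebra.smul_def]
    exact Submodule.smul_mem _ r hw

theorem stab_tr (m : ℕ) (c : KLRAlg D) : D.tr m c ∈ stab D m := by
  intro w hw
  unfold W at hw
  induction hw using Submodule.span_induction with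
  | mem z hz =>
    obtain ⟨hm, a, b, rfl⟩ := hz
    rw [mul_assoc, ← map_mul]
    exact mem_gen D hm _ _
  | zero => rw [zero_mul]; exact Submodule.zero_mem _
  | add x y _ _ hx hy => rw [add_mul]; exact Submodule.add_mem _ hx hy
  | smul r x _ hx => rw [smul_mul_assoc]; exact Submodule.smul_mem _ r hx

theorem stab_shn (m : ℕ) (c : KLRAlg D) : D.shn m c ∈ stab D m := by
  intro w hw
  unfold W at hw
  induction hw using Submodule.span_induction with
  | mem z hz =>
    obtain ⟨hm, a, b, rfl⟩ := hz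
    rw [mul_assoc, D.tr_mul_shn le_rfl, ← mul_assoc]
    obtain ⟨n, rfl⟩ : ∃ n, m = 1 + n := ⟨m - 1, by omega⟩
    rw [← D.shn_shn 1 n c, ← map_mul]
    exact mem_gen D hm _ _
  | zero => rw [zero_mul]; exact Submodule.zero_mem _
  | add x y _ _ hx hy => rw [add_mul]; exact Submodule.add_mem _ hx hy
  | smul r x _ hx => rw [smul_mul_assoc]; exact Submodule.smul_mem _ r hx

theorem stab_x (m k : ℕ) : D.x k ∈ stab D m := by
  by_cases h : k < m
  · have := stab_tr D m (D.x k)
    rwa [D.tr_x, if_pos h] at this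
  · have := stab_shn D m (D.x (k - m))
    rwa [D.shn_x, show m + (k - m) = k by omega] at this

theorem stab_e (m k : ℕ) (i : I) : D.e k i ∈ stab D m := by
  by_cases h : k < m
  · have := stab_tr D m (D.e k i)
    rwa [D.tr_e, if_pos h] at this
  · have := stab_shn D m (D.e (k - m) i)
    rwa [D.shn_e, show m + (k - m) = k by omega] at this

/-- the error of the braid relation -/
noncomputable def Qb (k : ℕ) : KLRAlg D :=
  ∑ i, ∑ j, if i = j then 0 else
      D.QD i j (D.x k) (D.x (k + 2)) (D.x (k + 1)) *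
        (D.e k i * D.e (k + 1) j * D.e (k + 2) i)

theorem braid (k : ℕ) :
    D.t (k + 1) * D.t k * D.t (k + 1) - D.t k * D.t (k + 1) * D.t k = Qb D k := D.t_braid k

theorem stab_Qb (m k : ℕ) : Qb D k ∈ stab D m := by
  unfold Qb
  refine Subalgebra.sum_mem _ fun i _ => Subalgebra.sum_mem _ fun j _ => ?_
  split_ifs
  · exact Subalgebra.zero_mem _
  · refine Subalgebra.mul_mem _ ?_ ?_
    · unfold Datum.QD
      refine Subalgebra.sum_mem _ fun p _ => Subalgebra.sum_mem _ fun q _ =>
        Subalgebra.smul_mem _ (Subalgebra.mul_mem _ (Subalgebra.sum_mem _ fun r _ =>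
          Subalgebra.mul_mem _ ?_ ?_) ?_) _
      · exact Subalgebra.pow_mem _ (stab_x D m _) _
      · exact Subalgebra.pow_mem _ (stab_x D m _) _
      · exact Subalgebra.pow_mem _ (stab_x D m _) _
    · exact Subalgebra.mul_mem _ (Subalgebra.mul_mem _ (stab_e D m _ _) (stab_e D m _ _))
        (stab_e D m _ _)

theorem mul_t {m : ℕ} {w : KLRAlg D} (hw : w ∈ W D m) : w * D.t m ∈ W D (m + 1) := by
  have h := stab_shn D m (D.t 0) w hw
  rw [D.shn_t, Nat.add_zero] at h
  exact mono D m h

theorem chain_succ (m : ℕ) : D.chain (m + 1) = D.chain m * D.t m := rfl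

theorem tr_chain (m n : ℕ) (h : m < n) : D.tr n (D.chain m) = D.chain m := by
  induction m with
  | zero => exact map_one _
  | succ m ih => rw [chain_succ, map_mul, ih (by omega), D.tr_t, if_pos h]

/-- `chain m` commutes with the strands from `m + 1` on -/
theorem chain_shn (m : ℕ) (c : KLRAlg D) :
    D.chain m * D.shn (m + 1) c = D.shn (m + 1) c * D.chain m := by
  have h := D.tr_mul_shn (le_refl (m + 1)) (D.chain m) c
  rwa [tr_chain D m (m + 1) (Nat.lt_succ_self m)] at h

theorem chain_t (m : ℕ) : D.chain m * D.t (m + 1) = D.t (m + 1) * D.chain m := by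
  have h := chain_shn D m (D.t 0)
  rwa [D.shn_t, Nat.add_zero] at h

theorem chain_x (m : ℕ) : D.chain m * D.x (m + 1) = D.x (m + 1) * D.chain m := by
  have h := chain_shn D m (D.x 0)
  rwa [D.shn_x, Nat.add_zero] at h

theorem chain_e (m : ℕ) (i : I) : D.chain m * D.e (m + 1) i = D.e (m + 1) i * D.chain m := by
  have h := chain_shn D m (D.e 0 i)
  rwa [D.shn_e, Nat.add_zero] at h

theorem chain_mem (m n : ℕ) (h : m < n) : D.chain m ∈ W D n := by
  have := mem_gen D (m := n) (by omega) 1 (D.chain m)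
  rwa [tr_chain D m n h, map_one, one_mul] at this

theorem chain_dl (m : ℕ) : D.chain m * D.dl m ∈ W D (m + 1) := by
  refine (?_ : D.dl m ∈ stab D (m + 1)) _ (chain_mem D m (m + 1) (Nat.lt_succ_self m))
  unfold Datum.dl
  exact Subalgebra.sum_mem _ fun i _ => Subalgebra.mul_mem _ (stab_e D _ _ _) (stab_e D _ _ _)

/-- `e` -/
theorem err_e (m k : ℕ) (i : I) (h : k < m) : D.e (k + 1) i * D.chain m = D.chain m * D.e k i := by
  induction m with
  | zero => omega
  | succ m ih =>
    rw [chain_succ]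
    rcases Nat.lt_succ_iff_lt_or_eq.1 h with h | h
    · rw [← mul_assoc, ih h, mul_assoc, mul_assoc, D.t_e m k i (by omega) (by omega)]
    · subst h
      rw [← mul_assoc, ← chain_e, mul_assoc, mul_assoc, D.t_e0]

/-- `x` -/
theorem err_x (m k : ℕ) (h : k < m) :
    D.x (k + 1) * D.chain m - D.chain m * D.x k ∈ W D m := by
  induction m with
  | zero => omega
  | succ m ih =>
    rw [chain_succ]
    rcases Nat.lt_succ_iff_lt_or_eq.1 h with h | h
    · have h1 := mul_t D (ih h)
      have h2 : (D.x (k + 1) * D.chain m - D.chain m * D.x k) * D.t m =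
          D.x (k + 1) * (D.chain m * D.t m) - D.chain m * D.t m * D.x k := by
        rw [sub_mul, mul_assoc, mul_assoc, mul_assoc, D.t_x m k (by omega) (by omega)]
      rwa [h2] at h1
    · subst h
      have h1 := chain_dl D k
      have h2 : D.chain k * D.dl k =
          D.x (k + 1) * (D.chain k * D.t k) - D.chain k * D.t k * D.x k := by
        rw [← mul_assoc, ← chain_x, mul_assoc, mul_assoc, D.t_x0, ← mul_sub]
        congr 1
        abel
      rwa [h2] at h1

/-- `t` -/
theorem err_t (m k : ℕ) (h : k + 1 < m) :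
    D.t (k + 1) * D.chain m - D.chain m * D.t k ∈ W D m := by
  induction m with
  | zero => omega
  | succ m ih =>
    rcases Nat.lt_succ_iff_lt_or_eq.1 h with h | h
    · rw [chain_succ]
      have h1 := mul_t D (ih h)
      have h2 : (D.t (k + 1) * D.chain m - D.chain m * D.t k) * D.t m =
          D.t (k + 1) * (D.chain m * D.t m) - D.chain m * D.t m * D.t k := by
        rw [sub_mul, mul_assoc, mul_assoc, mul_assoc, D.t_far k m h]
      rwa [h2] at h1
    · subst h
      have h1 : D.chain k * Qb D k ∈ W D (k + 1 + 1) :=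
        stab_Qb D (k + 1 + 1) k _ (chain_mem D k (k + 1 + 1) (by omega))
      have h2 : D.chain k * Qb D k =
          D.t (k + 1) * D.chain (k + 1 + 1) - D.chain (k + 1 + 1) * D.t k := by
        rw [chain_succ, chain_succ, ← braid, mul_sub]
        congr 1
        · rw [← mul_assoc, ← mul_assoc, ← mul_assoc, ← mul_assoc, chain_t]
        · simp only [mul_assoc]
      rwa [h2] at h1

end WX

open WX

theorem prf_W1 : S_W1 D := by
  intro m a
  induction a using KLRAlg.induction with
  | hs r =>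
    rw [AlgHom.commutes, AlgHom.commutes, Algebra.commutes, sub_self]
    exact Submodule.zero_mem _
  | hadd a b ha hb =>
    have h : D.shn 1 (D.tr m (a + b)) * D.chain m - D.chain m * D.tr m (a + b) =
        (D.shn 1 (D.tr m a) * D.chain m - D.chain m * D.tr m a) +
          (D.shn 1 (D.tr m b) * D.chain m - D.chain m * D.tr m b) := by
      simp only [map_add, add_mul, mul_add]
      abel
    rw [h]
    exact Submodule.add_mem _ ha hb
  | hmul a b ha hb =>
    have h : D.shn 1 (D.tr m (a * b)) * D.chain m - D.chain m * D.tr m (a * b) =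
        D.shn 1 (D.tr m a) * (D.shn 1 (D.tr m b) * D.chain m - D.chain m * D.tr m b) +
          (D.shn 1 (D.tr m a) * D.chain m - D.chain m * D.tr m a) * D.tr m b := by
      simp only [map_mul]
      noncomm_ring
    rw [h]
    exact Submodule.add_mem _ (shn_mul D _ hb) (stab_tr D m b _ ha)
  | he k i =>
    rw [D.tr_e]
    split_ifs with h
    · rw [D.shn_e, add_comm 1 k, err_e D m k i h, sub_self]
      exact Submodule.zero_mem _
    · simp
  | hx k =>
    rw [D.tr_x]
    split_ifs with h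
    · rw [D.shn_x, add_comm 1 k]
      exact err_x D m k h
    · simp
  | ht k =>
    rw [D.tr_t]
    split_ifs with h
    · rw [D.shn_t, add_comm 1 k]
      exact err_t D m k h
    · simp

theorem prf_W2 : S_W2 D := by
  intro m
  induction m with
  | zero =>
    have h : D.x 0 * D.chain 0 - D.chain 0 * D.x 0 = 0 := by
      show D.x 0 * 1 - 1 * D.x 0 = 0
      rw [mul_one, one_mul, sub_self]
    rw [h]
    exact Submodule.zero_mem _
  | succ m ih =>
    have h : D.x 0 * D.chain (m + 1) - D.chain (m + 1) * D.x (m + 1) =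
        (D.x 0 * D.chain m - D.chain m * D.x m) * D.t m - D.chain m * D.dl m := by
      rw [chain_succ, mul_assoc (D.chain m), D.t_x1, mul_add, sub_mul]
      simp only [mul_assoc]
      abel
    rw [h]
    exact Submodule.sub_mem _ (mul_t D ih) (chain_dl D m)

theorem prf_W3 : S_W3 D := by
  intro m
  induction m with
  | zero =>
    have h : D.t 0 * (D.shn 1 (D.chain 0) * D.chain 0) - D.shn 1 (D.chain 0) * D.chain 0 * D.t 0
        = 0 := by
      show D.t 0 * (D.shn 1 1 * 1) - D.shn 1 1 * 1 * D.t 0 = 0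
      rw [map_one, one_mul, mul_one, one_mul, sub_self]
    rw [h]
    exact Submodule.zero_mem _
  | succ m ih =>
    set Z := D.shn 1 (D.chain m) * D.chain m with hZ
    have hZs : D.shn 1 (D.chain (m + 1)) * D.chain (m + 1) = Z * D.t (m + 1) * D.t m := by
      rw [chain_succ, map_mul, D.shn_t, add_comm 1 m, hZ]
      calc D.shn 1 (D.chain m) * D.t (m + 1) * (D.chain m * D.t m)
          = D.shn 1 (D.chain m) * (D.t (m + 1) * D.chain m) * D.t m := by simp only [mul_assoc]
        _ = _ := by rw [← chain_t]; simp only [mul_assoc]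
    rw [hZs]
    have h : D.t 0 * (Z * D.t (m + 1) * D.t m) - Z * D.t (m + 1) * D.t m * D.t (m + 1) =
        (D.t 0 * Z - Z * D.t m) * (D.t (m + 1) * D.t m) - Z * Qb D m := by
      rw [← braid]
      noncomm_ring
    rw [h]
    refine Submodule.sub_mem _ ?_ ?_
    · refine mono D m ?_
      have h1 : D.t (m + 1) * D.t m = D.shn m (D.t 1 * D.t 0) := by
        rw [map_mul, D.shn_t, D.shn_t]
        rfl
      rw [h1]
      exact stab_shn D m _ _ ih
    · refine stab_Qb D (m + 1) m _ ?_
      have := mem_gen D (m := m + 1) (Nat.succ_pos m) (D.chain m) (D.chain m)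
      rwa [tr_chain D m (m + 1) (Nat.lt_succ_self m)] at this

end Pbw

end Pool.Agent.KLS

end
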