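import Pool.Agent.Work.MP_e487d8_al.Bd.B03
import Pool.Agent.Work.MP_e487d8_al.Y.Conv.Api

/-! Bundle of small proof modules (one section per former module). -/

section

/-! MP_e487d8_al: the grading of the KLR algebra, in the form of the twisted action on
`ℤ →₀ M` (`e` of degree `0`, `x k e_i` of degree `2 d_i`, `t e_i e_j` of degree `-d_i A i j`). -/

set_option autoImplicit false

namespace Pool.Agent.KLS

variable {K I : Type} [Field K] [Fintype I] [DecidableEq I]

/-- the degree of the dot on a strand of colour `i` -/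
def Datum.xdeg (D : Datum K I) (i : I) : ℤ := 2 * D.d i

/-- the form `(α_i, α_j)` -/
def Datum.fm (D : Datum K I) (i j : I) : ℤ := D.d i * D.A i j

omit [Fintype I] [DecidableEq I] in
theorem Datum.fm_symm (D : Datum K I) (i j : I) : D.fm i j = D.fm j i := D.symm i j

omit [Fintype I] [DecidableEq I] in
theorem Datum.fm_diag (D : Datum K I) (i : I) : D.fm i i = D.xdeg i := by
  rw [Datum.fm, D.diag, Datum.xdeg]; ring

omit [Fintype I] [DecidableEq I] in
theorem Datum.Q_deg (D : Datum K I) {i j : I} (h : i ≠ j) {p q : ℕ} (hQ : D.Q i j p q ≠ 0) :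
    (p : ℤ) * D.xdeg i + q * D.xdeg j = - 2 * D.fm i j := by
  have h1 := D.Q_hom i j p q h hQ
  rw [Datum.xdeg, Datum.xdeg, Datum.fm]
  linear_combination 2 * h1

section psi

variable (D : Datum K I) (M : Type) [AddCommGroup M] [Module K M] [Module (KLRAlg D) M]
  [IsScalarTower K (KLRAlg D) M]

/-- the element `a` acts and the degree is raised by `s` -/
noncomputable def psi (s : ℤ) : KLRAlg D →ₗ[K] Module.End K (ℤ →₀ M) where
  toFun a := Finsupp.lsum K fun d => (Finsupp.lsingle (d + s)).comp (Algebra.lsmul K K M a)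
  map_add' a b := by
    ext d u : 2
    simp
  map_smul' r a := by
    ext d u : 2
    simp

variable {D M}

@[simp] theorem psi_single (s : ℤ) (a : KLRAlg D) (d : ℤ) (u : M) :
    psi D M s a (Finsupp.single d u) = Finsupp.single (d + s) (a • u) := by
  simp [psi]

theorem psi_mul (s s' : ℤ) (a b : KLRAlg D) :
    psi D M s a * psi D M s' b = psi D M (s' + s) (a * b) := by
  ext d u : 2
  simp [mul_smul, add_assoc]

theorem psi_one : psi D M 0 1 = 1 := by
  ext d u : 2
  simp

theorem psi_pow (s : ℤ) (a : KLRAlg D) (n : ℕ) :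
    psi D M s a ^ n = psi D M (n * s) (a ^ n) := by
  induction n with
  | zero => simp [psi_one]
  | succ n ih =>
    rw [pow_succ, ih, psi_mul, pow_succ]
    congr 2
    push_cast
    ring

variable (D M)

/-- the dot with its degrees -/
noncomputable def psiX (k : ℕ) : Module.End K (ℤ →₀ M) :=
  ∑ i, psi D M (D.xdeg i) (D.x k * D.e k i)

/-- the crossing with its degrees -/
noncomputable def psiT (k : ℕ) : Module.End K (ℤ →₀ M) :=
  ∑ i, ∑ j, psi D M (-D.fm i j) (D.t k * (D.e k i * D.e (k + 1) j))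

variable {D M}

theorem psiX_mul_psi (k : ℕ) (s : ℤ) (i : I) (y : KLRAlg D) (hy : D.e k i * y = y) :
    psiX D M k * psi D M s y = psi D M (s + D.xdeg i) (D.x k * y) := by
  unfold psiX
  simp only [Finset.sum_mul, psi_mul]
  rw [Finset.sum_eq_single i]
  · rw [mul_assoc, hy]
  · intro j _ hj
    have : D.x k * D.e k j * y = 0 := by
      rw [← hy, mul_assoc, ← mul_assoc (D.e k j), D.e_mul_e_ne k hj, zero_mul, mul_zero]
    rw [this, map_zero]
  · simp

theorem e_x_left {k l : ℕ} {i : I} {y : KLRAlg D} (hy : D.e l i * y = y) :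
    D.e l i * (D.x k * y) = D.x k * y := by
  rw [← mul_assoc, ← D.x_e, mul_assoc, hy]

theorem e_xpow_left {k l : ℕ} {i : I} {y : KLRAlg D} (hy : D.e l i * y = y) (n : ℕ) :
    D.e l i * (D.x k ^ n * y) = D.x k ^ n * y := by
  induction n with
  | zero => rwa [pow_zero, one_mul]
  | succ n ih => rw [pow_succ', mul_assoc]; exact e_x_left ih

theorem psiX_pow_mul_psi (k : ℕ) (s : ℤ) (i : I) (y : KLRAlg D) (hy : D.e k i * y = y) (n : ℕ) :
    psiX D M k ^ n * psi D M s y = psi D M (s + n * D.xdeg i) (D.x k ^ n * y) := by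
  induction n with
  | zero => rw [pow_zero, pow_zero, one_mul, one_mul, Nat.cast_zero, zero_mul, add_zero]
  | succ n ih =>
    rw [pow_succ', mul_assoc, ih, psiX_mul_psi k _ i _ (e_xpow_left hy n), pow_succ', mul_assoc]
    congr 2
    push_cast
    ring

theorem psiT_mul_psi (k : ℕ) (s : ℤ) (i j : I) (y : KLRAlg D)
    (hy : D.e k i * D.e (k + 1) j * y = y) :
    psiT D M k * psi D M s y = psi D M (s - D.fm i j) (D.t k * y) := by
  unfold psiT
  simp only [Finset.sum_mul, psi_mul]
  rw [Finset.sum_eq_single i, Finset.sum_eq_single j]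
  · rw [mul_assoc, hy, sub_eq_add_neg]
  · intro j' _ hj
    rw [← hy]
    have : D.t k * (D.e k i * D.e (k + 1) j') * (D.e k i * D.e (k + 1) j * y) = 0 := by
      have h1 : D.e (k + 1) j' * (D.e k i * D.e (k + 1) j * y) = 0 := by
        rw [← mul_assoc, ← mul_assoc, D.e_comm (k + 1) k j' i, mul_assoc (D.e k i),
          D.e_mul_e_ne (k + 1) hj]
        simp
      rw [mul_assoc, mul_assoc (D.e k i), h1]
      simp
    rw [this, map_zero]
  · simp
  · intro i' _ hi
    apply Finset.sum_eq_zero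
    intro j' _
    rw [← hy]
    have : D.t k * (D.e k i' * D.e (k + 1) j') * (D.e k i * D.e (k + 1) j * y) = 0 := by
      have h1 : D.e k i' * (D.e k i * D.e (k + 1) j * y) = 0 := by
        rw [← mul_assoc, ← mul_assoc, D.e_mul_e_ne k hi]
        simp
      rw [D.e_comm k (k + 1) i' j', mul_assoc, mul_assoc (D.e (k + 1) j'), h1]
      simp
    rw [this, map_zero]
  · simp

theorem e_sum_two (k : ℕ) (y : KLRAlg D) (h0 : D.E k * y = y) (h1 : D.E (k + 1) * y = y) :
    ∑ i, ∑ j, D.e k i * D.e (k + 1) j * y = y := by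
  have : ∑ i, ∑ j, D.e k i * D.e (k + 1) j * y = D.E k * (D.E (k + 1) * y) := by
    unfold Datum.E
    simp only [Finset.sum_mul, Finset.mul_sum, mul_assoc]
    rw [Finset.sum_comm]
  rw [this, h1, h0]

theorem psi_E_comm (s : ℤ) (a : KLRAlg D) (l : ℕ) :
    psi D M s a * psi D M 0 (D.E l) = psi D M 0 (D.E l) * psi D M s a := by
  rw [psi_mul, psi_mul, D.E_comm, zero_add, add_zero]

theorem psiT_E_comm (k l : ℕ) :
    psiT D M k * psi D M 0 (D.E l) = psi D M 0 (D.E l) * psiT D M k := by
  unfold psiT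
  simp only [Finset.sum_mul, Finset.mul_sum, psi_E_comm]

theorem psiT_E (k : ℕ) : psiT D M k * psi D M 0 (D.E k) = psiT D M k := by
  unfold psiT
  simp only [Finset.sum_mul, psi_mul, zero_add]
  refine Finset.sum_congr rfl fun i _ => Finset.sum_congr rfl fun j _ => ?_
  rw [← D.E_comm, ← mul_assoc, D.E_comm, D.t_E]

theorem psiT_E' (k : ℕ) : psiT D M k * psi D M 0 (D.E (k + 1)) = psiT D M k := by
  unfold psiT
  simp only [Finset.sum_mul, psi_mul, zero_add]
  refine Finset.sum_congr rfl fun i _ => Finset.sum_congr rfl fun j _ => ?_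
  rw [← D.E_comm, ← mul_assoc, D.E_comm, D.t_E']

theorem psiT_e0 (k : ℕ) (i : I) :
    psiT D M k * psi D M 0 (D.e k i) = psi D M 0 (D.e (k + 1) i) * psiT D M k := by
  unfold psiT
  simp only [Finset.sum_mul, Finset.mul_sum, psi_mul, zero_add, add_zero]
  refine Finset.sum_congr rfl fun a _ => Finset.sum_congr rfl fun b _ => ?_
  rw [← mul_assoc (D.e (k + 1) i), ← D.t_e0, mul_assoc, mul_assoc, mul_assoc, D.e_comm (k + 1) k,
    ← mul_assoc (D.e k a), D.e_comm k k a i, mul_assoc]

theorem psiT_e1 (k : ℕ) (i : I) :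
    psiT D M k * psi D M 0 (D.e (k + 1) i) = psi D M 0 (D.e k i) * psiT D M k := by
  unfold psiT
  simp only [Finset.sum_mul, Finset.mul_sum, psi_mul, zero_add, add_zero]
  refine Finset.sum_congr rfl fun a _ => Finset.sum_congr rfl fun b _ => ?_
  rw [← mul_assoc (D.e k i), ← D.t_e1, mul_assoc, mul_assoc, mul_assoc,
    D.e_comm (k + 1) (k + 1) b i, ← mul_assoc (D.e k a), D.e_comm k (k + 1) a i, mul_assoc]

theorem psiT_e (k l : ℕ) (i : I) (h : l ≠ k) (h' : l ≠ k + 1) :
    psiT D M k * psi D M 0 (D.e l i) = psi D M 0 (D.e l i) * psiT D M k := by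
  unfold psiT
  simp only [Finset.sum_mul, Finset.mul_sum, psi_mul, zero_add, add_zero]
  refine Finset.sum_congr rfl fun a _ => Finset.sum_congr rfl fun b _ => ?_
  rw [← mul_assoc (D.e l i), ← D.t_e k l i h h', mul_assoc, mul_assoc, mul_assoc,
    D.e_comm (k + 1) l b i, ← mul_assoc (D.e k a), D.e_comm k l a i, mul_assoc]

/-- comparison on the words of length two -/
theorem eq_of_two (k : ℕ) {F G : Module.End K (ℤ →₀ M)}
    (hF : F * psi D M 0 (D.E k * D.E (k + 1)) = F) (hG : G * psi D M 0 (D.E k * D.E (k + 1)) = G)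
    (h : ∀ a b, F * psi D M 0 (D.e k a * D.e (k + 1) b) = G * psi D M 0 (D.e k a * D.e (k + 1) b)) :
    F = G := by
  rw [← hF, ← hG]
  unfold Datum.E
  simp only [Finset.sum_mul, Finset.mul_sum, map_sum]
  exact Finset.sum_congr rfl fun i _ => Finset.sum_congr rfl fun j _ => h j i

/-- comparison on the words of length three -/
theorem eq_of_three (k : ℕ) {F G : Module.End K (ℤ →₀ M)}
    (hF : F * psi D M 0 (D.E k * D.E (k + 1) * D.E (k + 2)) = F)
    (hG : G * psi D M 0 (D.E k * D.E (k + 1) * D.E (k + 2)) = G)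
    (h : ∀ a b c, F * psi D M 0 (D.e k a * D.e (k + 1) b * D.e (k + 2) c) =
      G * psi D M 0 (D.e k a * D.e (k + 1) b * D.e (k + 2) c)) :
    F = G := by
  rw [← hF, ← hG]
  unfold Datum.E
  simp only [Finset.sum_mul, Finset.mul_sum, map_sum]
  exact Finset.sum_congr rfl fun i _ => Finset.sum_congr rfl fun j _ =>
    Finset.sum_congr rfl fun l _ => h l j i

theorem ee_idem (k : ℕ) (a b : I) :
    D.e k a * D.e (k + 1) b * (D.e k a * D.e (k + 1) b) = D.e k a * D.e (k + 1) b := by
  rw [mul_assoc, ← mul_assoc (D.e (k + 1) b), D.e_comm (k + 1) k b a, mul_assoc (D.e k a),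
    D.e_idem, ← mul_assoc, D.e_idem]

theorem ee_ne (k : ℕ) (i j a b : I) (h : ¬ (i = a ∧ j = b)) :
    D.e k i * D.e (k + 1) j * (D.e k a * D.e (k + 1) b) = 0 := by
  by_cases hi : i = a
  · have hj : j ≠ b := fun hj => h ⟨hi, hj⟩
    rw [D.e_comm k (k + 1) a b, mul_assoc, ← mul_assoc (D.e (k + 1) j), D.e_mul_e_ne _ hj]
    simp
  · rw [D.e_comm k (k + 1) i j, mul_assoc, ← mul_assoc (D.e k i), D.e_mul_e_ne _ hi]
    simp

theorem eee_ne (k : ℕ) (i j l a b c : I) (h : ¬ (i = a ∧ j = b ∧ l = c)) :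
    D.e k i * D.e (k + 1) j * D.e (k + 2) l * (D.e k a * D.e (k + 1) b * D.e (k + 2) c) = 0 := by
  have h1 : D.e k i * D.e (k + 1) j * D.e (k + 2) l * (D.e k a * D.e (k + 1) b * D.e (k + 2) c) =
      D.e k i * D.e (k + 1) j * (D.e k a * D.e (k + 1) b) * (D.e (k + 2) l * D.e (k + 2) c) := by
    rw [mul_assoc (D.e k i * D.e (k + 1) j), mul_assoc (D.e k i * D.e (k + 1) j),
      ← mul_assoc (D.e (k + 2) l), ← mul_assoc (D.e (k + 2) l) (D.e k a),
      D.e_comm (k + 2) k l a, mul_assoc (D.e k a) (D.e (k + 2) l), D.e_comm (k + 2) (k + 1) l b]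
    simp only [mul_assoc]
  rw [h1]
  by_cases h2 : i = a ∧ j = b
  · have hl : l ≠ c := fun hl => h ⟨h2.1, h2.2, hl⟩
    rw [D.e_mul_e_ne _ hl, mul_zero]
  · rw [ee_ne k i j a b h2, zero_mul]

theorem psi_EE (k : ℕ) :
    psi D M 0 (D.E k * D.E (k + 1)) = psi D M 0 (D.E k) * psi D M 0 (D.E (k + 1)) := by
  rw [psi_mul, add_zero]

theorem psi_EEE (k : ℕ) :
    psi D M 0 (D.E k * D.E (k + 1) * D.E (k + 2)) =
      psi D M 0 (D.E k) * psi D M 0 (D.E (k + 1)) * psi D M 0 (D.E (k + 2)) := by
  rw [psi_mul, psi_mul, add_zero, add_zero]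

theorem psiT_EE (k : ℕ) : psiT D M k * psi D M 0 (D.E k * D.E (k + 1)) = psiT D M k := by
  rw [psi_EE, ← mul_assoc, psiT_E, psiT_E']

theorem psi_EE_comm (s : ℤ) (a : KLRAlg D) (k : ℕ) :
    psi D M s a * psi D M 0 (D.E k * D.E (k + 1)) =
      psi D M 0 (D.E k * D.E (k + 1)) * psi D M s a := by
  rw [psi_EE, ← mul_assoc, psi_E_comm, mul_assoc, psi_E_comm, mul_assoc]

theorem ee_EE (k : ℕ) (i j : I) :
    D.e k i * D.e (k + 1) j * (D.E k * D.E (k + 1)) = D.e k i * D.e (k + 1) j := by
  rw [mul_assoc, ← mul_assoc (D.e (k + 1) j), ← D.E_comm k (D.e (k + 1) j), mul_assoc (D.E k),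
    D.e_E, ← mul_assoc, D.e_E]

theorem x_ee (l k : ℕ) (a b : I) :
    D.x l * (D.e k a * D.e (k + 1) b) = D.e k a * D.e (k + 1) b * D.x l := by
  rw [← mul_assoc, D.x_e, mul_assoc, D.x_e, mul_assoc]

theorem ee_x_ee (l k : ℕ) (a b : I) :
    D.e k a * D.e (k + 1) b * (D.x l * (D.e k a * D.e (k + 1) b)) =
      D.x l * (D.e k a * D.e (k + 1) b) := by
  rw [x_ee, ← mul_assoc, ee_idem]

theorem psiX_E_comm (k l : ℕ) :
    psiX D M k * psi D M 0 (D.E l) = psi D M 0 (D.E l) * psiX D M k := by
  unfold psiX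
  simp only [Finset.sum_mul, Finset.mul_sum, psi_E_comm]

theorem psiX_EE_comm (l k : ℕ) :
    psiX D M l * psi D M 0 (D.E k * D.E (k + 1)) =
      psi D M 0 (D.E k * D.E (k + 1)) * psiX D M l := by
  rw [psi_EE, ← mul_assoc, psiX_E_comm, mul_assoc, psiX_E_comm, mul_assoc]

theorem ee_l (k : ℕ) (a b : I) : D.e k a * (D.e k a * D.e (k + 1) b) = D.e k a * D.e (k + 1) b := by
  rw [← mul_assoc, D.e_idem]

theorem ee_r (k : ℕ) (a b : I) :
    D.e (k + 1) b * (D.e k a * D.e (k + 1) b) = D.e k a * D.e (k + 1) b := by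
  rw [← mul_assoc, D.e_comm (k + 1) k, mul_assoc, D.e_idem]

theorem psi_x_tx0 (k : ℕ) : psiT D M k * psiX D M k =
    psiX D M (k + 1) * psiT D M k - ∑ i, psi D M 0 (D.e k i) * psi D M 0 (D.e (k + 1) i) := by
  have hd : ∑ i, psi D M 0 (D.e k i) * psi D M 0 (D.e (k + 1) i) = psi D M 0 (D.dl k) := by
    unfold Datum.dl
    simp only [psi_mul, map_sum, add_zero]
  have hdE : D.dl k * (D.E k * D.E (k + 1)) = D.dl k := by
    unfold Datum.dl
    rw [Finset.sum_mul]
    refine Finset.sum_congr rfl fun i _ => ?_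
    rw [ee_EE]
  rw [hd]
  refine eq_of_two (D := D) k ?_ ?_ ?_
  · rw [mul_assoc, psiX_EE_comm, ← mul_assoc, psiT_EE]
  · rw [sub_mul, mul_assoc, psiT_EE, psi_mul, hdE, add_zero]
  · intro a b
    have h5 : D.e (k + 1) a * (D.t k * (D.e k a * D.e (k + 1) b)) =
        D.t k * (D.e k a * D.e (k + 1) b) := by
      rw [← mul_assoc, ← D.t_e0, mul_assoc, ee_l]
    rw [mul_assoc, psiX_mul_psi k _ a _ (ee_l k a b), psiT_mul_psi k _ a b _ (ee_x_ee _ k a b),
      sub_mul, mul_assoc, psiT_mul_psi k _ a b _ (ee_idem k a b), psiX_mul_psi (k + 1) _ a _ h5,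
      psi_mul, ← mul_assoc, D.t_x0, sub_mul, map_sub, mul_assoc]
    congr 1
    · congr 2
      ring
    · by_cases hab : a = b
      · subst hab
        rw [D.fm_diag]
        congr 2
        ring
      · have : D.dl k * (D.e k a * D.e (k + 1) b) = 0 := by
          unfold Datum.dl
          rw [Finset.sum_mul]
          refine Finset.sum_eq_zero fun i _ => ee_ne k i i a b fun h => hab ?_
          rw [← h.1, ← h.2]
        rw [this, map_zero, map_zero]

theorem psi_x_tx1 (k : ℕ) : psiT D M k * psiX D M (k + 1) =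
    psiX D M k * psiT D M k + ∑ i, psi D M 0 (D.e k i) * psi D M 0 (D.e (k + 1) i) := by
  have hd : ∑ i, psi D M 0 (D.e k i) * psi D M 0 (D.e (k + 1) i) = psi D M 0 (D.dl k) := by
    unfold Datum.dl
    simp only [psi_mul, map_sum, add_zero]
  have hdE : D.dl k * (D.E k * D.E (k + 1)) = D.dl k := by
    unfold Datum.dl
    rw [Finset.sum_mul]
    refine Finset.sum_congr rfl fun i _ => ?_
    rw [ee_EE]
  rw [hd]
  refine eq_of_two (D := D) k ?_ ?_ ?_
  · rw [mul_assoc, psiX_EE_comm, ← mul_assoc, psiT_EE]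
  · rw [add_mul, mul_assoc, psiT_EE, psi_mul, hdE, add_zero]
  · intro a b
    have h5 : D.e k b * (D.t k * (D.e k a * D.e (k + 1) b)) =
        D.t k * (D.e k a * D.e (k + 1) b) := by
      rw [← mul_assoc, ← D.t_e1, mul_assoc, ee_r]
    rw [mul_assoc, psiX_mul_psi (k + 1) _ b _ (ee_r k a b),
      psiT_mul_psi k _ a b _ (ee_x_ee _ k a b),
      add_mul, mul_assoc, psiT_mul_psi k _ a b _ (ee_idem k a b), psiX_mul_psi k _ b _ h5,
      psi_mul, ← mul_assoc, D.t_x1, add_mul, map_add, mul_assoc]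
    congr 1
    · congr 2
      ring
    · by_cases hab : a = b
      · subst hab
        rw [D.fm_diag]
        congr 2
        ring
      · have : D.dl k * (D.e k a * D.e (k + 1) b) = 0 := by
          unfold Datum.dl
          rw [Finset.sum_mul]
          refine Finset.sum_eq_zero fun i _ => ee_ne k i i a b fun h => hab ?_
          rw [← h.1, ← h.2]
        rw [this, map_zero, map_zero]

theorem t_ee (k : ℕ) (a b : I) :
    D.t k * (D.e k a * D.e (k + 1) b) = D.e k b * D.e (k + 1) a * D.t k := by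
  rw [← mul_assoc, D.t_e0, mul_assoc, D.t_e1, ← mul_assoc, D.e_comm (k + 1) k a b]

theorem QE_mul_psi (k l : ℕ) (i j : I) (s : ℤ) (y : KLRAlg D) (hi : D.e k i * y = y)
    (hj : D.e l j * y = y) (hij : i ≠ j) :
    D.QE i j (psiX D M k) (psiX D M l) * psi D M s y =
      psi D M (s - 2 * D.fm i j) (D.QE i j (D.x k) (D.x l) * y) := by
  unfold Datum.QE
  simp only [Finset.sum_mul, map_sum]
  refine Finset.sum_congr rfl fun p _ => Finset.sum_congr rfl fun q _ => ?_
  by_cases hQ : D.Q i j p q = 0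
  · rw [hQ, zero_smul, zero_smul, zero_mul, zero_mul, map_zero]
  · rw [smul_mul_assoc, smul_mul_assoc, map_smul, mul_assoc, psiX_pow_mul_psi l _ j _ hj,
      psiX_pow_mul_psi k _ i _ (e_xpow_left hi q), mul_assoc]
    congr 3
    have := D.Q_deg hij hQ
    linarith

theorem QD_mul_psi (k l : ℕ) (m : ℕ) (i j : I) (s : ℤ) (y : KLRAlg D) (hi : D.e k i * y = y)
    (hi' : D.e l i * y = y) (hj : D.e m j * y = y) (hij : i ≠ j) :
    D.QD i j (psiX D M k) (psiX D M l) (psiX D M m) * psi D M s y =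
      psi D M (s - 2 * D.fm i j - D.xdeg i) (D.QD i j (D.x k) (D.x l) (D.x m) * y) := by
  unfold Datum.QD
  simp only [Finset.sum_mul, map_sum]
  refine Finset.sum_congr rfl fun p _ => Finset.sum_congr rfl fun q _ => ?_
  by_cases hQ : D.Q i j p q = 0
  · rw [hQ, zero_smul, zero_smul, zero_mul, zero_mul, map_zero]
  · rw [smul_mul_assoc, smul_mul_assoc, map_smul]
    congr 1
    simp only [Finset.sum_mul, map_sum]
    refine Finset.sum_congr rfl fun r hr => ?_
    rw [mul_assoc, mul_assoc, psiX_pow_mul_psi m _ j _ hj,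
      psiX_pow_mul_psi l _ i _ (e_xpow_left hi' q),
      psiX_pow_mul_psi k _ i _ (e_xpow_left (e_xpow_left hi q) _), mul_assoc, mul_assoc]
    congr 2
    have h1 := D.Q_deg hij hQ
    have h2 : ((p - 1 - r : ℕ) : ℤ) = p - 1 - r := by
      have := Finset.mem_range.1 hr
      omega
    rw [h2]
    linear_combination h1

theorem psi_tt (k : ℕ) : psiT D M k * psiT D M k = ∑ i, ∑ j, if i = j then 0 else
    D.QE i j (psiX D M k) (psiX D M (k + 1)) *
      (psi D M 0 (D.e k i) * psi D M 0 (D.e (k + 1) j)) := by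
  simp only [psi_mul]
  refine eq_of_two (D := D) k ?_ ?_ ?_
  · rw [mul_assoc, psiT_EE]
  · simp only [Finset.sum_mul]
    refine Finset.sum_congr rfl fun i _ => Finset.sum_congr rfl fun j _ => ?_
    split_ifs with h
    · simp
    · rw [mul_assoc, psi_mul, zero_add, ee_EE]
  · intro a b
    rw [mul_assoc, psiT_mul_psi k _ a b _ (ee_idem k a b), psiT_mul_psi k _ b a]
    · rw [← mul_assoc, D.t_t, Finset.sum_mul, Finset.sum_mul, map_sum]
      refine Finset.sum_congr rfl fun i _ => ?_
      rw [Finset.sum_mul, Finset.sum_mul, map_sum]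
      refine Finset.sum_congr rfl fun j _ => ?_
      split_ifs with h
      · simp
      · rw [mul_assoc (D.QE i j (D.x k) (D.x (k + 1))),
          mul_assoc (D.QE i j (psiX D M k) (psiX D M (k + 1))), psi_mul]
        by_cases h2 : i = a ∧ j = b
        · obtain ⟨rfl, rfl⟩ := h2
          rw [ee_idem, QE_mul_psi k (k + 1) i j _ _ (ee_l k i j) (ee_r k i j) h, D.fm_symm j i]
          congr 2
          ring
        · rw [ee_ne k i j a b h2]
          simp
    · rw [t_ee, ← mul_assoc, ee_idem]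

theorem psiT_comm (k : ℕ) (s : ℤ) (y : KLRAlg D)
    (h : ∀ i j, D.t k * (D.e k i * D.e (k + 1) j) * y = y * (D.t k * (D.e k i * D.e (k + 1) j))) :
    psiT D M k * psi D M s y = psi D M s y * psiT D M k := by
  unfold psiT
  simp only [Finset.sum_mul, Finset.mul_sum, psi_mul]
  refine Finset.sum_congr rfl fun a _ => Finset.sum_congr rfl fun b _ => ?_
  rw [h, add_comm]

theorem psiT_x (k l : ℕ) (h : l ≠ k) (h' : l ≠ k + 1) :
    psiT D M k * psiX D M l = psiX D M l * psiT D M k := by
  unfold psiX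
  rw [Finset.mul_sum, Finset.sum_mul]
  refine Finset.sum_congr rfl fun i _ => ?_
  apply psiT_comm
  intro a b
  have h1 : Commute (D.t k) (D.x l * D.e l i) :=
    Commute.mul_right (D.t_x k l h h') (D.t_e k l i h h')
  have h2 : Commute (D.e k a * D.e (k + 1) b) (D.x l * D.e l i) := by
    refine Commute.mul_left (Commute.mul_right ?_ (D.e_comm _ _ _ _))
      (Commute.mul_right ?_ (D.e_comm _ _ _ _))
    · exact (D.x_e l k a).symm
    · exact (D.x_e l (k + 1) b).symm
  exact (h1.mul_left h2).eq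

theorem psiX_x (k l : ℕ) : psiX D M k * psiX D M l = psiX D M l * psiX D M k := by
  unfold psiX
  simp only [Finset.sum_mul, Finset.mul_sum, psi_mul]
  rw [Finset.sum_comm]
  refine Finset.sum_congr rfl fun i _ => Finset.sum_congr rfl fun j _ => ?_
  have h1 : Commute (D.x k * D.e k i) (D.x l * D.e l j) :=
    Commute.mul_left (Commute.mul_right (D.x_comm k l) (D.x_e k l j))
      (Commute.mul_right (D.x_e l k i).symm (D.e_comm k l i j))
  rw [h1.eq, add_comm]

theorem psiX_e (k l : ℕ) (i : I) :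
    psiX D M k * psi D M 0 (D.e l i) = psi D M 0 (D.e l i) * psiX D M k := by
  unfold psiX
  simp only [Finset.sum_mul, Finset.mul_sum, psi_mul]
  refine Finset.sum_congr rfl fun j _ => ?_
  have h1 : Commute (D.x k * D.e k j) (D.e l i) :=
    Commute.mul_left (D.x_e k l i) (D.e_comm k l j i)
  rw [h1.eq, add_comm]

theorem psiX_E (k : ℕ) : psiX D M k * psi D M 0 (D.E k) = psiX D M k := by
  unfold psiX
  simp only [Finset.sum_mul, psi_mul, zero_add]
  refine Finset.sum_congr rfl fun i _ => ?_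
  rw [mul_assoc, D.e_E]

theorem psi_far (k l : ℕ) (h : k + 1 < l) : psiT D M k * psiT D M l = psiT D M l * psiT D M k := by
  conv_lhs => rw [psiT.eq_1 D M l]
  conv_rhs => rw [psiT.eq_1 D M l]
  rw [Finset.mul_sum, Finset.sum_mul]
  refine Finset.sum_congr rfl fun a _ => ?_
  rw [Finset.mul_sum, Finset.sum_mul]
  refine Finset.sum_congr rfl fun b _ => ?_
  apply psiT_comm
  intro i j
  have h1 : D.e k i * D.e (k + 1) j * D.t l = D.t l * (D.e k i * D.e (k + 1) j) := by
    rw [mul_assoc, ← D.t_e l (k + 1) j (by omega) (by omega), ← mul_assoc,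
      ← D.t_e l k i (by omega) (by omega), mul_assoc]
  have h2 : D.e l a * D.e (l + 1) b * D.t k = D.t k * (D.e l a * D.e (l + 1) b) := by
    rw [mul_assoc, ← D.t_e k (l + 1) b (by omega) (by omega), ← mul_assoc,
      ← D.t_e k l a (by omega) (by omega), mul_assoc]
  have h3 : D.e k i * D.e (k + 1) j * (D.e l a * D.e (l + 1) b) =
      D.e l a * D.e (l + 1) b * (D.e k i * D.e (k + 1) j) := by
    rw [mul_assoc, ← mul_assoc (D.e (k + 1) j), D.e_comm (k + 1) l j a, mul_assoc (D.e l a),
      ← mul_assoc (D.e k i), D.e_comm k l i a, D.e_comm (k + 1) (l + 1) j b, mul_assoc (D.e l a),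
      ← mul_assoc (D.e k i), D.e_comm k (l + 1) i b]
    simp only [mul_assoc]
  calc D.t k * (D.e k i * D.e (k + 1) j) * (D.t l * (D.e l a * D.e (l + 1) b))
      = D.t k * (D.e k i * D.e (k + 1) j * D.t l) * (D.e l a * D.e (l + 1) b) := by
        simp only [mul_assoc]
    _ = D.t k * D.t l * (D.e k i * D.e (k + 1) j * (D.e l a * D.e (l + 1) b)) := by
        rw [h1]; simp only [mul_assoc]
    _ = D.t l * (D.t k * (D.e l a * D.e (l + 1) b)) * (D.e k i * D.e (k + 1) j) := by
        rw [h3, D.t_far k l h]; simp only [mul_assoc]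
    _ = D.t l * (D.e l a * D.e (l + 1) b) * (D.t k * (D.e k i * D.e (k + 1) j)) := by
        rw [← h2]; simp only [mul_assoc]

theorem eee_idem (k : ℕ) (a b c : I) :
    D.e k a * D.e (k + 1) b * D.e (k + 2) c * (D.e k a * D.e (k + 1) b * D.e (k + 2) c) =
      D.e k a * D.e (k + 1) b * D.e (k + 2) c := by
  have h1 : D.e k a * D.e (k + 1) b * D.e (k + 2) c * (D.e k a * D.e (k + 1) b * D.e (k + 2) c) =
      D.e k a * D.e (k + 1) b * (D.e k a * D.e (k + 1) b) * (D.e (k + 2) c * D.e (k + 2) c) := by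
    rw [mul_assoc (D.e k a * D.e (k + 1) b), mul_assoc (D.e k a * D.e (k + 1) b),
      ← mul_assoc (D.e (k + 2) c), ← mul_assoc (D.e (k + 2) c) (D.e k a),
      D.e_comm (k + 2) k c a, mul_assoc (D.e k a) (D.e (k + 2) c), D.e_comm (k + 2) (k + 1) c b]
    simp only [mul_assoc]
  rw [h1, ee_idem, D.e_idem]

/-- the first crossing changes the word -/
theorem t_eee0 (k : ℕ) (a b c : I) :
    D.t k * (D.e k a * D.e (k + 1) b * D.e (k + 2) c) =
      D.e k b * D.e (k + 1) a * D.e (k + 2) c * D.t k := by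
  rw [← mul_assoc, t_ee, mul_assoc, D.t_e k (k + 2) c (by omega) (by omega), ← mul_assoc]

theorem t_eee1 (k : ℕ) (a b c : I) :
    D.t (k + 1) * (D.e k a * D.e (k + 1) b * D.e (k + 2) c) =
      D.e k a * D.e (k + 1) c * D.e (k + 2) b * D.t (k + 1) := by
  rw [mul_assoc (D.e k a), ← mul_assoc, D.t_e (k + 1) k a (by omega) (by omega), mul_assoc,
    t_ee (k + 1) b c, ← mul_assoc, ← mul_assoc]

theorem eee_EEE (k : ℕ) (a b c : I) :
    D.e k a * D.e (k + 1) b * D.e (k + 2) c * (D.E k * D.E (k + 1) * D.E (k + 2)) =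
      D.e k a * D.e (k + 1) b * D.e (k + 2) c := by
  have hc : D.e (k + 2) c * (D.E k * D.E (k + 1)) = D.E k * D.E (k + 1) * D.e (k + 2) c := by
    rw [mul_assoc, D.E_comm (k + 1), ← mul_assoc, ← mul_assoc, D.E_comm k]
  rw [← mul_assoc, mul_assoc (D.e k a * D.e (k + 1) b), hc, ← mul_assoc (D.e k a * D.e (k + 1) b),
    ee_EE, mul_assoc, D.e_E]

/-- `y` has the left word `a b c` -/
def LW (D : Datum K I) (k : ℕ) (a b c : I) (y : KLRAlg D) : Prop :=
  D.e k a * D.e (k + 1) b * D.e (k + 2) c * y = y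

theorem LW.one {k : ℕ} {a b c : I} : LW D k a b c (D.e k a * D.e (k + 1) b * D.e (k + 2) c) :=
  eee_idem k a b c

theorem LW.t0 {k : ℕ} {a b c : I} {y : KLRAlg D} (h : LW D k a b c y) :
    LW D k b a c (D.t k * y) := by
  unfold LW at *
  rw [← mul_assoc, ← t_eee0, mul_assoc, h]

theorem LW.t1 {k : ℕ} {a b c : I} {y : KLRAlg D} (h : LW D k a b c y) :
    LW D k a c b (D.t (k + 1) * y) := by
  unfold LW at *
  rw [← mul_assoc, ← t_eee1, mul_assoc, h]

theorem LW.left {k : ℕ} {a b c : I} {y : KLRAlg D} (h : LW D k a b c y) :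
    D.e k a * D.e (k + 1) b * y = y := by
  unfold LW at h
  conv_lhs => rw [← h]
  rw [← mul_assoc, ← mul_assoc (D.e k a * D.e (k + 1) b), ee_idem, h]

theorem LW.right {k : ℕ} {a b c : I} {y : KLRAlg D} (h : LW D k a b c y) :
    D.e (k + 1) b * D.e (k + 1 + 1) c * y = y := by
  unfold LW at h
  conv_lhs => rw [← h]
  have h1 : D.e (k + 1) b * D.e (k + 1 + 1) c * (D.e k a * D.e (k + 1) b * D.e (k + 2) c) =
      D.e k a * D.e (k + 1) b * D.e (k + 2) c := by
    rw [mul_assoc (D.e k a), ← mul_assoc, mul_assoc (D.e (k + 1) b), D.e_comm (k + 1 + 1) k c a,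
      ← mul_assoc (D.e (k + 1) b), D.e_comm (k + 1) k b a, mul_assoc (D.e k a), mul_assoc (D.e k a),
      ee_idem (k + 1) b c]
  rw [← mul_assoc, h1, h]

theorem psiT_three0 {k : ℕ} {a b c : I} {y : KLRAlg D} (h : LW D k a b c y) :
    psiT D M (k + 1) * psiT D M k * psiT D M (k + 1) * psi D M 0 y =
      psi D M (0 - D.fm b c - D.fm a c - D.fm a b) (D.t (k + 1) * (D.t k * (D.t (k + 1) * y))) := by
  rw [mul_assoc, psiT_mul_psi (k + 1) 0 b c _ h.right, mul_assoc, psiT_mul_psi k _ a c _ h.t1.left,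
    psiT_mul_psi (k + 1) _ a b _ h.t1.t0.right]

theorem psiT_three1 {k : ℕ} {a b c : I} {y : KLRAlg D} (h : LW D k a b c y) :
    psiT D M k * psiT D M (k + 1) * psiT D M k * psi D M 0 y =
      psi D M (0 - D.fm b c - D.fm a c - D.fm a b) (D.t k * (D.t (k + 1) * (D.t k * y))) := by
  rw [mul_assoc, psiT_mul_psi k 0 a b _ h.left, mul_assoc,
    psiT_mul_psi (k + 1) _ a c _ h.t0.right, psiT_mul_psi k _ b c _ h.t0.t1.left]
  congr 1
  ring_nf

theorem psi_braid (k : ℕ) :
    psiT D M (k + 1) * psiT D M k * psiT D M (k + 1) -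
      psiT D M k * psiT D M (k + 1) * psiT D M k =
    ∑ i, ∑ j, if i = j then 0 else
      D.QD i j (psiX D M k) (psiX D M (k + 2)) (psiX D M (k + 1)) *
          (psi D M 0 (D.e k i) * psi D M 0 (D.e (k + 1) j) * psi D M 0 (D.e (k + 2) i)) := by
  simp only [psi_mul]
  have hz0 : psiT D M k * psi D M 0 (D.E k) = psiT D M k := psiT_E k
  have hz1 : psiT D M k * psi D M 0 (D.E (k + 1)) = psiT D M k := psiT_E' k
  have hz2 : psiT D M k * psi D M 0 (D.E (k + 2)) = psi D M 0 (D.E (k + 2)) * psiT D M k :=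
    psiT_E_comm k (k + 2)
  have hw0 : psiT D M (k + 1) * psi D M 0 (D.E k) = psi D M 0 (D.E k) * psiT D M (k + 1) :=
    psiT_E_comm (k + 1) k
  have hw1 : psiT D M (k + 1) * psi D M 0 (D.E (k + 1)) = psiT D M (k + 1) := psiT_E (k + 1)
  have hw2 : psiT D M (k + 1) * psi D M 0 (D.E (k + 2)) = psiT D M (k + 1) := psiT_E' (k + 1)
  refine eq_of_three (D := D) k ?_ ?_ ?_
  · rw [psi_EEE, sub_mul]
    congr 1
    · calc psiT D M (k + 1) * psiT D M k * psiT D M (k + 1) *
            (psi D M 0 (D.E k) * psi D M 0 (D.E (k + 1)) * psi D M 0 (D.E (k + 2)))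
          = psiT D M (k + 1) * psiT D M k * (psiT D M (k + 1) * psi D M 0 (D.E k)) *
              psi D M 0 (D.E (k + 1)) * psi D M 0 (D.E (k + 2)) := by simp only [mul_assoc]
        _ = psiT D M (k + 1) * (psiT D M k * psi D M 0 (D.E k)) *
              (psiT D M (k + 1) * psi D M 0 (D.E (k + 1))) * psi D M 0 (D.E (k + 2)) := by
            rw [hw0]; simp only [mul_assoc]
        _ = psiT D M (k + 1) * psiT D M k * (psiT D M (k + 1) * psi D M 0 (D.E (k + 2))) := by
            rw [hz0, hw1]; simp only [mul_assoc]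
        _ = _ := by rw [hw2]
    · calc psiT D M k * psiT D M (k + 1) * psiT D M k *
            (psi D M 0 (D.E k) * psi D M 0 (D.E (k + 1)) * psi D M 0 (D.E (k + 2)))
          = psiT D M k * psiT D M (k + 1) * (psiT D M k * psi D M 0 (D.E k)) *
              psi D M 0 (D.E (k + 1)) * psi D M 0 (D.E (k + 2)) := by simp only [mul_assoc]
        _ = psiT D M k * psiT D M (k + 1) * (psiT D M k * psi D M 0 (D.E (k + 1))) *
              psi D M 0 (D.E (k + 2)) := by
            rw [hz0]; simp only [mul_assoc]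
        _ = psiT D M k * psiT D M (k + 1) * (psiT D M k * psi D M 0 (D.E (k + 2))) := by
            rw [hz1]; simp only [mul_assoc]
        _ = psiT D M k * (psiT D M (k + 1) * psi D M 0 (D.E (k + 2))) * psiT D M k := by
            rw [hz2]; simp only [mul_assoc]
        _ = _ := by rw [hw2]
  · simp only [Finset.sum_mul]
    refine Finset.sum_congr rfl fun i _ => Finset.sum_congr rfl fun j _ => ?_
    split_ifs with h
    · simp
    · rw [mul_assoc, psi_mul, eee_EEE, zero_add]
  · intro a b c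
    have h3 := @LW.one K I _ _ _ D k a b c
    rw [sub_mul, psiT_three0 h3, psiT_three1 h3, ← map_sub]
    have hb : D.t (k + 1) * (D.t k * (D.t (k + 1) * (D.e k a * D.e (k + 1) b * D.e (k + 2) c))) -
        D.t k * (D.t (k + 1) * (D.t k * (D.e k a * D.e (k + 1) b * D.e (k + 2) c))) =
        (D.t (k + 1) * D.t k * D.t (k + 1) - D.t k * D.t (k + 1) * D.t k) *
          (D.e k a * D.e (k + 1) b * D.e (k + 2) c) := by
      rw [sub_mul]; simp only [mul_assoc]
    rw [hb, D.t_braid, Finset.sum_mul, Finset.sum_mul, map_sum]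
    refine Finset.sum_congr rfl fun i _ => ?_
    rw [Finset.sum_mul, Finset.sum_mul, map_sum]
    refine Finset.sum_congr rfl fun j _ => ?_
    split_ifs with h
    · simp
    · rw [mul_assoc (D.QD i j (D.x k) (D.x (k + 2)) (D.x (k + 1))),
        mul_assoc (D.QD i j (psiX D M k) (psiX D M (k + 2)) (psiX D M (k + 1))), psi_mul]
      by_cases h2 : i = a ∧ j = b ∧ i = c
      · obtain ⟨rfl, rfl, rfl⟩ := h2
        have e0 : D.e k i * (D.e k i * D.e (k + 1) j * D.e (k + 2) i) =
            D.e k i * D.e (k + 1) j * D.e (k + 2) i := by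
          rw [← mul_assoc, ← mul_assoc, D.e_idem]
        have e1 : D.e (k + 1) j * (D.e k i * D.e (k + 1) j * D.e (k + 2) i) =
            D.e k i * D.e (k + 1) j * D.e (k + 2) i := by
          rw [← mul_assoc, ee_r]
        have e2 : D.e (k + 2) i * (D.e k i * D.e (k + 1) j * D.e (k + 2) i) =
            D.e k i * D.e (k + 1) j * D.e (k + 2) i := by
          have h5 : Commute (D.e (k + 2) i) (D.e k i * D.e (k + 1) j) :=
            Commute.mul_right (D.e_comm _ _ _ _) (D.e_comm _ _ _ _)
          rw [← mul_assoc, h5.eq, mul_assoc, D.e_idem]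
        rw [eee_idem, QD_mul_psi k (k + 2) (k + 1) i j _ _ e0 e2 e1 h, D.fm_diag, D.fm_symm j i]
        congr 2
        ring
      · rw [eee_ne k i j i a b c h2]
        simp

/-- the relations of the KLR algebra hold for the operators with degrees -/
theorem psi_rels : Rels D (fun k i => psi D M 0 (D.e k i)) (psiX D M) (psiT D M) where
  ee k i j := by
    rw [psi_mul, D.e_mul_e, add_zero]
    split_ifs <;> simp
  ee_comm k l i j := by rw [psi_mul, psi_mul, D.e_comm]
  xx := psiX_x
  xe := psiX_e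
  xE k := by
    have : ∑ i, psi D M 0 (D.e k i) = psi D M 0 (D.E k) := by
      unfold Datum.E; rw [map_sum]
    rw [this, psiX_E]
  tE k := by
    have : ∑ i, psi D M 0 (D.e k i) = psi D M 0 (D.E k) := by
      unfold Datum.E; rw [map_sum]
    rw [this, psiT_E]
  tE' k := by
    have : ∑ i, psi D M 0 (D.e (k + 1) i) = psi D M 0 (D.E (k + 1)) := by
      unfold Datum.E; rw [map_sum]
    rw [this, psiT_E']
  te0 := psiT_e0
  te1 := psiT_e1
  te := psiT_e
  tx := psiT_x
  tx0 := psi_x_tx0
  tx1 := psi_x_tx1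
  tt := psi_tt
  far := psi_far
  braid := psi_braid

end psi

end Pool.Agent.KLS

end

section

/-! MP_e487d8_al: gradings of KLR modules. -/

set_option autoImplicit false
set_option linter.unusedSectionVars false

namespace Pool.Agent.KLS

variable {K I : Type} [Field K] [Fintype I] [DecidableEq I]

/-- a `K`-linear map which commutes with the generators is linear over the KLR algebra -/
theorem smul_of_gens {D : Datum K I} {P Q : Type*} [AddCommGroup P] [Module K P]
    [Module (KLRAlg D) P] [IsScalarTower K (KLRAlg D) P] [AddCommGroup Q] [Module K Q]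
    [Module (KLRAlg D) Q] [IsScalarTower K (KLRAlg D) Q] (f : P →ₗ[K] Q)
    (he : ∀ k i u, f (D.e k i • u) = D.e k i • f u) (hx : ∀ k u, f (D.x k • u) = D.x k • f u)
    (ht : ∀ k u, f (D.t k • u) = D.t k • f u) (a : KLRAlg D) (u : P) : f (a • u) = a • f u := by
  induction a using KLRAlg.induction generalizing u with
  | hs r => rw [algebraMap_smul, algebraMap_smul, map_smul]
  | he k i => exact he k i u
  | hx k => exact hx k u
  | ht k => exact ht k u
  | hadd a b ha hb => rw [add_smul, add_smul, map_add, ha, hb]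
  | hmul a b ha hb => rw [mul_smul, mul_smul, ha, hb]

/-- a `K`-linear map which commutes with the generators as a linear map over the KLR algebra -/
def ofGens {D : Datum K I} {P Q : Type*} [AddCommGroup P] [Module K P]
    [Module (KLRAlg D) P] [IsScalarTower K (KLRAlg D) P] [AddCommGroup Q] [Module K Q]
    [Module (KLRAlg D) Q] [IsScalarTower K (KLRAlg D) Q] (f : P →ₗ[K] Q)
    (he : ∀ k i u, f (D.e k i • u) = D.e k i • f u) (hx : ∀ k u, f (D.x k • u) = D.x k • f u)
    (ht : ∀ k u, f (D.t k • u) = D.t k • f u) : P →ₗ[KLRAlg D] Q where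
  toFun := f
  map_add' := f.map_add
  map_smul' := smul_of_gens f he hx ht

@[simp] theorem ofGens_apply {D : Datum K I} {P Q : Type*} [AddCommGroup P] [Module K P]
    [Module (KLRAlg D) P] [IsScalarTower K (KLRAlg D) P] [AddCommGroup Q] [Module K Q]
    [Module (KLRAlg D) Q] [IsScalarTower K (KLRAlg D) Q] (f : P →ₗ[K] Q)
    (he : ∀ k i u, f (D.e k i • u) = D.e k i • f u) (hx : ∀ k u, f (D.x k • u) = D.x k • f u)
    (ht : ∀ k u, f (D.t k • u) = D.t k • f u) (u : P) : ofGens f he hx ht u = f u := rfl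

/-- `M ⊗ K[q, q⁻¹]` with the twisted action: `e` has degree `0`, `x` has degree `2`, `t e_i e_j` has
degree `-A i j` -/
@[nolint unusedArguments]
def Lau (_D : Datum K I) (M : Type) [AddCommGroup M] : Type := ℤ →₀ M

section

variable (D : Datum K I) (M : Type) [AddCommGroup M] [Module K M] [Module (KLRAlg D) M]
  [IsScalarTower K (KLRAlg D) M]

noncomputable instance : AddCommGroup (Lau D M) := inferInstanceAs (AddCommGroup (ℤ →₀ M))
noncomputable instance : Module K (Lau D M) := inferInstanceAs (Module K (ℤ →₀ M))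

/-- the twisted action -/
noncomputable def psiHom : KLRAlg D →ₐ[K] Module.End K (ℤ →₀ M) :=
  liftHom (psi_rels (D := D) (M := M))

noncomputable instance : Module (KLRAlg D) (Lau D M) :=
  Module.compHom (ℤ →₀ M) (psiHom D M : KLRAlg D →+* Module.End K (ℤ →₀ M))

instance : IsScalarTower K (KLRAlg D) (Lau D M) where
  smul_assoc r a z := by
    have h : psiHom D M (r • a) = r • psiHom D M a := map_smul _ _ _
    exact congrArg (fun F : Module.End K (ℤ →₀ M) => F z) h

end

namespace Lau

section Klin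

variable (D : Datum K I) {M N P : Type} [AddCommGroup M] [Module K M] [AddCommGroup N] [Module K N]
  [AddCommGroup P] [Module K P]

/-- the element `u` in degree `d` -/
noncomputable def sg (d : ℤ) : M →ₗ[K] Lau D M := (Finsupp.lsingle d : M →ₗ[K] (ℤ →₀ M))

/-- the component of degree `d` -/
noncomputable def co (d : ℤ) : Lau D M →ₗ[K] M := (Finsupp.lapply d : (ℤ →₀ M) →ₗ[K] M)

/-- linear map given on the components -/
noncomputable def lift (g : ℤ → M →ₗ[K] P) : Lau D M →ₗ[K] P :=
  (Finsupp.lsum K g : (ℤ →₀ M) →ₗ[K] P)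

variable {D}

@[simp] theorem lift_sg (g : ℤ → M →ₗ[K] P) (d : ℤ) (u : M) : lift D g (sg D d u) = g d u := by
  change (Finsupp.lsum K g : (ℤ →₀ M) →ₗ[K] P) (Finsupp.single d u) = _
  simp

theorem co_sg (d d' : ℤ) (u : M) : co D d (sg D d' u) = if d' = d then u else 0 := by
  change (Finsupp.single d' u) d = _
  rw [Finsupp.single_apply]

theorem induction {p : Lau D M → Prop} (z : Lau D M) (h0 : p 0) (h : ∀ d (u : M), p (sg D d u))
    (hadd : ∀ y z, p y → p z → p (y + z)) : p z :=
  Finsupp.induction_linear z h0 hadd h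

theorem ext_co {y z : Lau D M} (h : ∀ d, co D d y = co D d z) : y = z := Finsupp.ext h

theorem co_fin (z : Lau D M) : ∃ S : Finset ℤ, ∀ d, d ∉ S → co D d z = 0 :=
  ⟨Finsupp.support (z : ℤ →₀ M), fun _ hd => Finsupp.notMem_support_iff.1 hd⟩

theorem sum_co (z : Lau D M) (S : Finset ℤ) (hS : ∀ d, d ∉ S → co D d z = 0) :
    ∑ d ∈ S, sg D d (co D d z) = z := by
  apply ext_co
  intro d
  rw [map_sum]
  simp only [co_sg]
  by_cases hd : d ∈ S
  · rw [Finset.sum_eq_single d]
    · simp
    · intro b _ hb; rw [if_neg hb]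
    · intro h; exact absurd hd h
  · rw [hS d hd]
    refine Finset.sum_eq_zero fun b hb => ?_
    rw [if_neg]
    rintro rfl
    exact hd hb

theorem hom_extK {f g : Lau D M →ₗ[K] P} (h : ∀ d (u : M), f (sg D d u) = g (sg D d u)) : f = g := by
  apply LinearMap.ext
  intro z
  induction z using Lau.induction with
  | h0 => simp
  | h d u => exact h d u
  | hadd y z hy hz => rw [map_add, map_add, hy, hz]

theorem sg_injective (d : ℤ) : Function.Injective (sg D d : M →ₗ[K] Lau D M) := by
  intro u v h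
  have := congrArg (co D d) h
  simpa [co_sg] using this

/-- auxiliary map -/
noncomputable def cvA (b : M →ₗ[K] N →ₗ[K] P) (p : ℤ) : M →ₗ[K] Lau D N →ₗ[K] Lau D P where
  toFun u := lift D (fun q => (sg D (p + q)).comp (b u))
  map_add' u u' := by apply hom_extK; intro d v; simp
  map_smul' r u := by apply hom_extK; intro d v; simp

/-- convolution of families with the bilinear map `b` -/
noncomputable def cv (b : M →ₗ[K] N →ₗ[K] P) : Lau D M →ₗ[K] Lau D N →ₗ[K] Lau D P :=
  lift D (cvA b)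

@[simp] theorem cv_sg (b : M →ₗ[K] N →ₗ[K] P) (p q : ℤ) (u : M) (v : N) :
    cv b (sg D p u) (sg D q v) = sg D (p + q) (b u v) := by
  unfold cv
  rw [lift_sg]
  exact lift_sg _ _ _

/-- two bilinear maps on families agree if they agree on homogeneous elements -/
theorem bil_ext {f g : Lau D M →ₗ[K] Lau D N →ₗ[K] P}
    (h : ∀ p q (u : M) (v : N), f (sg D p u) (sg D q v) = g (sg D p u) (sg D q v)) (y : Lau D M)
    (z : Lau D N) : f y z = g y z := by
  have : f = g := by
    apply hom_extK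
    intro p u
    apply hom_extK
    intro q v
    exact h p q u v
  rw [this]

end Klin

variable {D : Datum K I} {M N P : Type} [AddCommGroup M] [Module K M] [Module (KLRAlg D) M]
  [IsScalarTower K (KLRAlg D) M] [AddCommGroup N] [Module K N] [Module (KLRAlg D) N]
  [IsScalarTower K (KLRAlg D) N] [AddCommGroup P] [Module K P] [Module (KLRAlg D) P]
  [IsScalarTower K (KLRAlg D) P]

theorem hom_ext {f g : Lau D M →ₗ[KLRAlg D] P} (h : ∀ d (u : M), f (sg D d u) = g (sg D d u)) :
    f = g := by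
  apply LinearMap.ext
  intro z
  induction z using Lau.induction with
  | h0 => simp
  | h d u => exact h d u
  | hadd y z hy hz => rw [map_add, map_add, hy, hz]

theorem e_sg (k : ℕ) (i : I) (d : ℤ) (u : M) : D.e k i • sg D d u = sg D d (D.e k i • u) := by
  change psiHom D M (D.e k i) (Finsupp.single d u) = Finsupp.single d _
  rw [psiHom, liftHom_e, psi_single, add_zero]

theorem x_sg (k : ℕ) (d : ℤ) (u : M) : D.x k • sg D d u =
    ∑ i, sg D (d + D.xdeg i) ((D.x k * D.e k i) • u) := by
  change psiHom D M (D.x k) (Finsupp.single d u) = _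
  rw [psiHom, liftHom_x, psiX]
  simp only [LinearMap.sum_apply, psi_single]
  rfl

theorem x_e_sg (k : ℕ) (i : I) (d : ℤ) (u : M) : (D.x k * D.e k i) • sg D d u =
    sg D (d + D.xdeg i) ((D.x k * D.e k i) • u) := by
  rw [mul_smul, e_sg, x_sg, Finset.sum_eq_single i]
  · rw [← mul_smul, mul_assoc, D.e_idem]
  · intro j _ hj
    rw [← mul_smul, mul_assoc, D.e_mul_e_ne k hj, mul_zero, zero_smul, map_zero]
  · simp

theorem t_sg (k : ℕ) (d : ℤ) (u : M) : D.t k • sg D d u =
    ∑ i, ∑ j, sg D (d - D.fm i j) ((D.t k * (D.e k i * D.e (k + 1) j)) • u) := by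
  change psiHom D M (D.t k) (Finsupp.single d u) = _
  rw [psiHom, liftHom_t, psiT]
  simp only [LinearMap.sum_apply, psi_single]
  rfl

theorem t_ee_sg (k : ℕ) (i j : I) (d : ℤ) (u : M) :
    (D.t k * (D.e k i * D.e (k + 1) j)) • sg D d u =
      sg D (d - D.fm i j) ((D.t k * (D.e k i * D.e (k + 1) j)) • u) := by
  rw [mul_smul, mul_smul, e_sg, e_sg, ← mul_smul, t_sg]
  rw [Finset.sum_eq_single i, Finset.sum_eq_single j]
  · rw [← mul_smul, mul_assoc, ee_idem]
  · intro j' _ hj
    rw [← mul_smul, mul_assoc, ee_ne k i j' i j (fun h => hj h.2), mul_zero, zero_smul, map_zero]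
  · simp
  · intro i' _ hi
    refine Finset.sum_eq_zero fun j' _ => ?_
    rw [← mul_smul, mul_assoc, ee_ne k i' j' i j (fun h => hi h.1), mul_zero, zero_smul, map_zero]
  · simp

/-- criterion for linearity of a map out of `Lau D M` -/
noncomputable def liftR (g : ℤ → M →ₗ[K] P)
    (he : ∀ k i d u, g d (D.e k i • u) = D.e k i • g d u)
    (hx : ∀ k d u, ∑ i, g (d + D.xdeg i) ((D.x k * D.e k i) • u) = D.x k • g d u)
    (ht : ∀ k d u, ∑ i, ∑ j, g (d - D.fm i j) ((D.t k * (D.e k i * D.e (k + 1) j)) • u) =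
      D.t k • g d u) : Lau D M →ₗ[KLRAlg D] P :=
  ofGens (lift D g)
    (fun k i z => by
      induction z using Lau.induction with
      | h0 => simp
      | h d u => rw [e_sg, lift_sg, lift_sg, he]
      | hadd y z hy hz => rw [smul_add, map_add, map_add, smul_add, hy, hz])
    (fun k z => by
      induction z using Lau.induction with
      | h0 => simp
      | h d u =>
        rw [x_sg, lift_sg, map_sum, ← hx]
        exact Finset.sum_congr rfl fun i _ => lift_sg _ _ _
      | hadd y z hy hz => rw [smul_add, map_add, map_add, smul_add, hy, hz])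
    (fun k z => by
      induction z using Lau.induction with
      | h0 => simp
      | h d u =>
        rw [t_sg, lift_sg, map_sum, ← ht]
        refine Finset.sum_congr rfl fun i _ => ?_
        rw [map_sum]
        exact Finset.sum_congr rfl fun j _ => lift_sg _ _ _
      | hadd y z hy hz => rw [smul_add, map_add, map_add, smul_add, hy, hz])

@[simp] theorem liftR_sg (g : ℤ → M →ₗ[K] P) (he hx ht) (d : ℤ) (u : M) :
    liftR (D := D) g he hx ht (sg D d u) = g d u := by
  unfold liftR
  rw [ofGens_apply, lift_sg]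

/-- the crossing is the sum of its homogeneous parts -/
theorem t_smul_sum (k : ℕ) (u : P) :
    ∑ i, ∑ j, (D.t k * (D.e k i * D.e (k + 1) j)) • u = D.t k • u := by
  have h1 : ∑ i, ∑ j, D.t k * (D.e k i * D.e (k + 1) j) = D.t k := by
    simp only [← Finset.mul_sum]
    have h2 : ∑ i, D.e k i * ∑ j, D.e (k + 1) j = D.E k * D.E (k + 1) := by
      unfold Datum.E; rw [Finset.sum_mul]
    rw [h2, ← mul_assoc, D.t_E, D.t_E']
  conv_rhs => rw [← h1]
  simp only [Finset.sum_smul]

/-- the dot is the sum of its homogeneous parts -/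
theorem x_smul_sum (k : ℕ) (u : P) : ∑ i, (D.x k * D.e k i) • u = D.x k • u := by
  have h1 : ∑ i, D.x k * D.e k i = D.x k := by
    rw [← Finset.mul_sum]
    exact D.x_E k
  conv_rhs => rw [← h1]
  rw [Finset.sum_smul]

/-- functoriality -/
noncomputable def map (f : M →ₗ[KLRAlg D] P) : Lau D M →ₗ[KLRAlg D] Lau D P :=
  liftR (fun d => (sg D d).comp (Conv.toK f))
    (fun k i d u => by simp [e_sg]) (fun k d u => by simp [x_sg])
    (fun k d u => by simp [t_sg])

@[simp] theorem map_sg (f : M →ₗ[KLRAlg D] P) (d : ℤ) (u : M) :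
    map f (sg D d u) = sg D d (f u) := by
  unfold map
  rw [liftR_sg]
  rfl

theorem co_map (f : M →ₗ[KLRAlg D] P) (d : ℤ) (z : Lau D M) : co D d (map f z) = f (co D d z) := by
  induction z using Lau.induction with
  | h0 => simp
  | h d' u => rw [map_sg, co_sg, co_sg]; split_ifs <;> simp
  | hadd y z hy hz => rw [map_add, map_add, map_add, map_add, hy, hz]

variable (D M) in
/-- sum of the components -/
noncomputable def tot : Lau D M →ₗ[KLRAlg D] M :=
  liftR (fun _ => LinearMap.id) (fun _ _ _ _ => rfl) (fun k _ u => x_smul_sum k u)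
    (fun k _ u => t_smul_sum k u)

@[simp] theorem tot_sg (d : ℤ) (u : M) : tot D M (sg D d u) = u := by
  unfold tot
  rw [liftR_sg]
  rfl

variable (D M) in
/-- the diagonal map -/
noncomputable def dg : Lau D M →ₗ[KLRAlg D] Lau D (Lau D M) :=
  liftR (fun d => (sg D d).comp (sg D d)) (fun k i d u => by simp [e_sg])
    (fun k d u => by
      simp only [LinearMap.comp_apply]
      rw [x_sg]
      refine Finset.sum_congr rfl fun i _ => ?_
      rw [x_e_sg])
    (fun k d u => by
      simp only [LinearMap.comp_apply]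
      rw [t_sg]
      refine Finset.sum_congr rfl fun i _ => Finset.sum_congr rfl fun j _ => ?_
      rw [t_ee_sg])

@[simp] theorem dg_sg (d : ℤ) (u : M) : dg D M (sg D d u) = sg D d (sg D d u) := by
  unfold dg
  rw [liftR_sg]
  rfl

variable (D M) in
/-- the shift of the degrees by `s` -/
noncomputable def shift (s : ℤ) : Lau D M →ₗ[KLRAlg D] Lau D M :=
  liftR (fun d => sg D (d + s)) (fun k i d u => by simp [e_sg])
    (fun k d u => by
      rw [x_sg]
      refine Finset.sum_congr rfl fun i _ => ?_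
      rw [add_right_comm])
    (fun k d u => by
      rw [t_sg]
      refine Finset.sum_congr rfl fun i _ => Finset.sum_congr rfl fun j _ => ?_
      rw [add_sub_right_comm])

@[simp] theorem shift_sg (s d : ℤ) (u : M) : shift D M s (sg D d u) = sg D (d + s) u := by
  unfold shift
  rw [liftR_sg]

theorem co_shift (s d : ℤ) (z : Lau D M) : co D (d + s) (shift D M s z) = co D d z := by
  induction z using Lau.induction with
  | h0 => simp
  | h d' u =>
    rw [shift_sg, co_sg, co_sg]
    by_cases h : d' = d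
    · simp [h]
    · rw [if_neg h, if_neg (fun h' => h (by linarith))]
  | hadd y z hy hz => rw [map_add, map_add, map_add, hy, hz]

theorem map_shift (f : M →ₗ[KLRAlg D] P) (s : ℤ) (z : Lau D M) :
    map f (shift D M s z) = shift D P s (map f z) := by
  induction z using Lau.induction with
  | h0 => simp
  | h d u => simp
  | hadd y z hy hz => rw [map_add, map_add, map_add, map_add, hy, hz]

theorem shift_shift (s s' : ℤ) (z : Lau D M) :
    shift D M s (shift D M s' z) = shift D M (s' + s) z := by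
  induction z using Lau.induction with
  | h0 => simp
  | h d u => simp [add_assoc]
  | hadd y z hy hz => rw [map_add, map_add, map_add, hy, hz]

theorem shift_zero (z : Lau D M) : shift D M 0 z = z := by
  induction z using Lau.induction with
  | h0 => simp
  | h d u => simp
  | hadd y z hy hz => rw [map_add, hy, hz]

theorem tot_map (f : M →ₗ[KLRAlg D] P) (z : Lau D M) : tot D P (map f z) = f (tot D M z) := by
  induction z using Lau.induction with
  | h0 => simp
  | h d u => simp
  | hadd y z hy hz => rw [map_add, map_add, map_add, map_add, hy, hz]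

theorem tot_shift (s : ℤ) (z : Lau D M) : tot D M (shift D M s z) = tot D M z := by
  induction z using Lau.induction with
  | h0 => simp
  | h d u => simp
  | hadd y z hy hz => rw [map_add, map_add, map_add, hy, hz]

theorem map_map (f : M →ₗ[KLRAlg D] N) (g : N →ₗ[KLRAlg D] P) (z : Lau D M) :
    map g (map f z) = map (g.comp f) z := by
  induction z using Lau.induction with
  | h0 => simp
  | h d u => simp
  | hadd y z hy hz => rw [map_add, map_add, map_add, hy, hz]

theorem map_dg (f : M →ₗ[KLRAlg D] P) (z : Lau D M) : map (map f) (dg D M z) = dg D P (map f z) := by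
  induction z using Lau.induction with
  | h0 => simp
  | h d u => simp
  | hadd y z hy hz => rw [map_add, map_add, map_add, map_add, hy, hz]

theorem co_dg (d : ℤ) (z : Lau D M) : co D d (dg D M z) = sg D d (co D d z) := by
  induction z using Lau.induction with
  | h0 => simp
  | h d' u =>
    rw [dg_sg, co_sg, co_sg]
    split_ifs with h
    · rw [h]
    · simp
  | hadd y z hy hz => rw [map_add, map_add, map_add, map_add, hy, hz]

end Lau

/-! ### gradings -/

/-- a grading of the module `M`: the map which sends an element to the family of its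
homogeneous components -/
structure Grd (D : Datum K I) (M : Type) [AddCommGroup M] [Module K M] [Module (KLRAlg D) M]
    [IsScalarTower K (KLRAlg D) M] where
  rho : M →ₗ[KLRAlg D] Lau D M
  tot : ∀ u, Lau.tot D M (rho u) = u
  dg : ∀ u, Lau.map rho (rho u) = Lau.dg D M (rho u)

namespace Grd

variable {D : Datum K I} {M N P : Type} [AddCommGroup M] [Module K M] [Module (KLRAlg D) M]
  [IsScalarTower K (KLRAlg D) M] [AddCommGroup N] [Module K N] [Module (KLRAlg D) N]
  [IsScalarTower K (KLRAlg D) N] [AddCommGroup P] [Module K P] [Module (KLRAlg D) P]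
  [IsScalarTower K (KLRAlg D) P]

/-- the homogeneous component of degree `d` -/
noncomputable def pr (g : Grd D M) (d : ℤ) : M →ₗ[K] M := (Lau.co D d).comp (Conv.toK g.rho)

theorem pr_apply (g : Grd D M) (d : ℤ) (u : M) : g.pr d u = Lau.co D d (g.rho u) := rfl

theorem rho_pr (g : Grd D M) (d : ℤ) (u : M) : g.rho (g.pr d u) = Lau.sg D d (g.pr d u) := by
  rw [pr_apply, ← Lau.co_map, g.dg, Lau.co_dg]

theorem pr_pr (g : Grd D M) (d d' : ℤ) (u : M) :
    g.pr d (g.pr d' u) = if d' = d then g.pr d' u else 0 := by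
  rw [pr_apply g d, rho_pr, Lau.co_sg]

/-- homogeneous of degree `d` -/
def Hm (g : Grd D M) (d : ℤ) (u : M) : Prop := g.rho u = Lau.sg D d u

theorem hm_pr (g : Grd D M) (d : ℤ) (u : M) : g.Hm d (g.pr d u) := g.rho_pr d u

theorem Hm.pr_eq {g : Grd D M} {d : ℤ} {u : M} (h : g.Hm d u) (d' : ℤ) :
    g.pr d' u = if d = d' then u else 0 := by
  rw [pr_apply, h, Lau.co_sg]

theorem hm_iff {g : Grd D M} {d : ℤ} {u : M} : g.Hm d u ↔ g.pr d u = u := by
  constructor
  · intro h; rw [h.pr_eq, if_pos rfl]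
  · intro h; rw [← h]; exact g.hm_pr d u

theorem Hm.zero {g : Grd D M} {d : ℤ} : g.Hm d 0 := by unfold Hm; simp
theorem Hm.add {g : Grd D M} {d : ℤ} {u v : M} (hu : g.Hm d u) (hv : g.Hm d v) :
    g.Hm d (u + v) := by
  unfold Hm at *; rw [map_add, map_add, hu, hv]
theorem Hm.e {g : Grd D M} {d : ℤ} {u : M} (h : g.Hm d u) (k : ℕ) (i : I) :
    g.Hm d (D.e k i • u) := by
  unfold Hm at *; rw [map_smul, h, Lau.e_sg]
theorem Hm.x {g : Grd D M} {d : ℤ} {u : M} (h : g.Hm d u) (k : ℕ) (i : I) :
    g.Hm (d + D.xdeg i) ((D.x k * D.e k i) • u) := by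
  unfold Hm at *; rw [map_smul, h, Lau.x_e_sg]
theorem Hm.t {g : Grd D M} {d : ℤ} {u : M} (h : g.Hm d u) (k : ℕ) (i j : I) :
    g.Hm (d - D.fm i j) ((D.t k * (D.e k i * D.e (k + 1) j)) • u) := by
  unfold Hm at *; rw [map_smul, h, Lau.t_ee_sg]

end Grd

/-- the homomorphism `f` is homogeneous of degree `s` -/
def HomDeg {D : Datum K I} {M N : Type} [AddCommGroup M] [Module K M] [Module (KLRAlg D) M]
    [IsScalarTower K (KLRAlg D) M] [AddCommGroup N] [Module K N] [Module (KLRAlg D) N]
    [IsScalarTower K (KLRAlg D) N] (g : Grd D M) (h : Grd D N) (s : ℤ) (f : M →ₗ[KLRAlg D] N) :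
    Prop :=
  ∀ u, h.rho (f u) = Lau.shift D N s (Lau.map f (g.rho u))

end Pool.Agent.KLS

end
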