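import Pool.Agent.Work.MP_e487d8_al.Bd.B09
import Pool.Agent.Work.MP_e487d8_al.Bd.B01

/-! Bundle of small proof modules (one section per former module). -/

section

/-! MP_e487d8_al, block CRY: the spaces `e(i^a) M`, the common kernel of the first `a` dots on
them, and the number `ε_i(M)`. -/

set_option autoImplicit false

open scoped TensorProduct

namespace Pool.Agent.KLS

variable {K I : Type} [Field K] [Fintype I] [DecidableEq I]

section

variable (D : Datum K I) (i : I) (a : ℕ) {M : Type} [AddCommGroup M] [Module (KLRAlg D) M]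

/-- `u` lies in `e(i^a) M` -/
def IsEw (u : M) : Prop := ∀ k < a, D.e k i • u = u

/-- `u` lies in `e(i^a) M` and is killed by the first `a` dots -/
def IsKr (u : M) : Prop := ∀ k < a, D.e k i • u = u ∧ D.x k • u = 0

variable (M) in
/-- `ε_i(M)`: the largest `a` with `e(i^a) M ≠ 0` -/
noncomputable def eps : ℕ := sSup {a | ∃ u : M, u ≠ 0 ∧ IsEw D i a u}

end

section

variable {D : Datum K I} {i : I} {a n : ℕ} {M : Type} [AddCommGroup M] [Module (KLRAlg D) M]

theorem IsKr.isEw {u : M} (h : IsKr D i a u) : IsEw D i a u := fun k hk => (h k hk).1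

theorem isEw_zero : IsEw D i a (0 : M) := fun _ _ => smul_zero _
theorem isKr_zero : IsKr D i a (0 : M) := fun _ _ => ⟨smul_zero _, smul_zero _⟩
theorem isKr_nil (u : M) : IsKr D i 0 u := fun k hk => absurd hk (by omega)
theorem isEw_nil (u : M) : IsEw D i 0 u := fun k hk => absurd hk (by omega)

theorem IsEw.add {u v : M} (hu : IsEw D i a u) (hv : IsEw D i a v) : IsEw D i a (u + v) :=
  fun k hk => by rw [smul_add, hu k hk, hv k hk]

theorem IsEw.sub {u v : M} (hu : IsEw D i a u) (hv : IsEw D i a v) : IsEw D i a (u - v) :=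
  fun k hk => by rw [smul_sub, hu k hk, hv k hk]

theorem IsEw.mono {b : ℕ} {u : M} (hu : IsEw D i a u) (h : b ≤ a) : IsEw D i b u :=
  fun k hk => hu k (by omega)

theorem IsKr.mono {b : ℕ} {u : M} (hu : IsKr D i a u) (h : b ≤ a) : IsKr D i b u :=
  fun k hk => hu k (by omega)

theorem IsEw.x_smul {u : M} (hu : IsEw D i a u) (l : ℕ) : IsEw D i a (D.x l • u) :=
  fun k hk => by rw [← mul_smul, ← D.x_e, mul_smul, hu k hk]

theorem IsEw.shn_smul {u : M} (hu : IsEw D i a u) (b : KLRAlg D) : IsEw D i a (D.shn a b • u) :=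
  fun k hk => by
    have h1 := D.tr_mul_shn (le_refl a) (D.e k i) b
    rw [D.tr_e, if_pos hk] at h1
    rw [← mul_smul, h1, mul_smul, hu k hk]

theorem IsKr.add {u v : M} (hu : IsKr D i a u) (hv : IsKr D i a v) : IsKr D i a (u + v) :=
  fun k hk => ⟨by rw [smul_add, (hu k hk).1, (hv k hk).1],
    by rw [smul_add, (hu k hk).2, (hv k hk).2, add_zero]⟩

theorem IsKr.shn_smul {u : M} (hu : IsKr D i a u) (b : KLRAlg D) : IsKr D i a (D.shn a b • u) := by
  intro k hk
  have h1 := D.tr_mul_shn (le_refl a) (D.e k i) b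
  have h2 := D.tr_mul_shn (le_refl a) (D.x k) b
  rw [D.tr_e, if_pos hk] at h1
  rw [D.tr_x, if_pos hk] at h2
  constructor
  · rw [← mul_smul, h1, mul_smul, (hu k hk).1]
  · rw [← mul_smul, h2, mul_smul, (hu k hk).2, smul_zero]

variable (D i a M) in
/-- the common kernel of the first `a` dots on `e(i^a) M`, an `(n - a)`-strand module -/
def Kr : Submodule (KLRAlg D) (Tw (D.shn a) M) where
  carrier := {u | IsKr D i a (M := M) u}
  zero_mem' := isKr_zero (M := M)
  add_mem' := fun hu hv => IsKr.add (M := M) hu hv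
  smul_mem' := fun b _ hu => IsKr.shn_smul (M := M) hu b

theorem IsEw.map {N : Type} [AddCommGroup N] [Module (KLRAlg D) N] {u : M} (hu : IsEw D i a u)
    (f : M →ₗ[KLRAlg D] N) : IsEw D i a (f u) :=
  fun k hk => by rw [← map_smul, hu k hk]

theorem IsKr.map {N : Type} [AddCommGroup N] [Module (KLRAlg D) N] {u : M} (hu : IsKr D i a u)
    (f : M →ₗ[KLRAlg D] N) : IsKr D i a (f u) :=
  fun k hk => ⟨by rw [← map_smul, (hu k hk).1], by rw [← map_smul, (hu k hk).2, map_zero]⟩

variable (D i a) in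
/-- the idempotent `e(i^a)` -/
noncomputable def ew : KLRAlg D := ((List.range a).map fun k => D.e k i).prod

theorem ew_zero : ew D i 0 = 1 := rfl

theorem ew_succ : ew D i (a + 1) = ew D i a * D.e a i := by
  unfold ew
  rw [List.range_succ, List.map_append, List.prod_append]
  simp

theorem ew_comm_e (l : ℕ) (j : I) : ew D i a * D.e l j = D.e l j * ew D i a := by
  induction a with
  | zero => rw [ew_zero, one_mul, mul_one]
  | succ a ih => rw [ew_succ, mul_assoc, D.e_comm a l, ← mul_assoc, ih, mul_assoc]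

theorem ew_comm_x (l : ℕ) : ew D i a * D.x l = D.x l * ew D i a := by
  induction a with
  | zero => rw [ew_zero, one_mul, mul_one]
  | succ a ih => rw [ew_succ, mul_assoc, ← D.x_e, ← mul_assoc, ih, mul_assoc]

/-- `e(i^a) u` lies in `e(i^a) M` -/
theorem isEw_ew (u : M) : IsEw D i a (ew D i a • u) := by
  induction a with
  | zero => exact isEw_nil _
  | succ a ih =>
    intro k hk
    rw [ew_succ]
    by_cases h : k = a
    · subst h
      rw [← mul_smul, ← mul_assoc, ← ew_comm_e, mul_assoc, D.e_idem]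
    · rw [ew_comm_e, mul_smul, ← mul_smul (D.e k i), D.e_comm, mul_smul, ih k (by omega)]

theorem IsEw.ew_smul {u : M} (hu : IsEw D i a u) : ew D i a • u = u := by
  induction a with
  | zero => rw [ew_zero, one_smul]
  | succ a ih => rw [ew_succ, mul_smul, hu a (by omega), ih (hu.mono (by omega))]

/-- a nonzero vector of `e(i^a) M` can be multiplied by dots into the common kernel -/
theorem exists_isKr (hM : Nilp D M) {u : M} (hu : u ≠ 0) (he : IsEw D i a u) :
    ∃ c : KLRAlg D, c • u ≠ 0 ∧ IsKr D i a (c • u) ∧ ∀ l j, D.e l j * c = c * D.e l j := by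
  have key : ∀ b : ℕ, ∃ c : KLRAlg D, c • u ≠ 0 ∧ (∀ k < b, D.x k • c • u = 0) ∧
      ∀ l j, D.e l j * c = c * D.e l j := by
    intro b
    induction b with
    | zero => exact ⟨1, by rwa [one_smul], fun k hk => absurd hk (by omega), by simp⟩
    | succ b ih =>
      obtain ⟨c, h1, h2, h3⟩ := ih
      classical
      have hex : ∃ N : ℕ, D.x b ^ N • c • u = 0 := by
        obtain ⟨N, hN⟩ := hM b
        exact ⟨N, hN _⟩
      have hpos : Nat.find hex ≠ 0 := by
        intro h0
        have h4 := Nat.find_spec hex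
        rw [h0, pow_zero, one_smul] at h4
        exact h1 h4
      obtain ⟨r, hr⟩ := Nat.exists_eq_succ_of_ne_zero hpos
      refine ⟨D.x b ^ r * c, ?_, ?_, ?_⟩
      · rw [mul_smul]
        exact Nat.find_min hex (by omega)
      · intro k hk
        by_cases h : k = b
        · subst h
          rw [mul_smul, ← mul_smul, ← pow_succ', ← Nat.succ_eq_add_one, ← hr]
          exact Nat.find_spec hex
        · rw [mul_smul, ← mul_smul, ← D.x_pow_x, mul_smul, h2 k (by omega), smul_zero]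
      · intro l j
        rw [← mul_assoc, ← D.x_pow_e, mul_assoc, h3, mul_assoc]
  obtain ⟨c, h1, h2, h3⟩ := key a
  refine ⟨c, h1, fun k hk => ⟨?_, h2 k hk⟩, h3⟩
  rw [← mul_smul, h3, mul_smul, he k hk]

/-! ### `ε_i` -/

theorem isEw_eq_zero (hM : IsStrand D n M) (h : n < a) {u : M} (hu : IsEw D i a u) : u = 0 := by
  rw [← hu n h, hM.zero n le_rfl]

theorem eps_bdd (hM : IsStrand D n M) :
    BddAbove {a : ℕ | ∃ u : M, u ≠ 0 ∧ IsEw D i a u} := by
  refine ⟨n, ?_⟩
  rintro a ⟨u, hu, h⟩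
  by_contra hn
  exact hu (isEw_eq_zero hM (by omega) h)

theorem le_eps (hM : IsStrand D n M) {u : M} (hu : u ≠ 0) (h : IsEw D i a u) : a ≤ eps D i M :=
  le_csSup (eps_bdd hM) ⟨u, hu, h⟩

theorem eq_zero_of_eps_lt (hM : IsStrand D n M) (h : eps D i M < a) {u : M} (hu : IsEw D i a u) :
    u = 0 := by
  by_contra h1
  exact absurd (le_eps hM h1 hu) (by omega)

theorem exists_eps (hM : IsStrand D n M) [Nontrivial M] :
    ∃ u : M, u ≠ 0 ∧ IsEw D i (eps D i M) u := by
  obtain ⟨u, hu⟩ := exists_ne (0 : M)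
  have h := Nat.sSup_mem (s := {a : ℕ | ∃ u : M, u ≠ 0 ∧ IsEw D i a u}) ⟨0, u, hu, isEw_nil u⟩
    (eps_bdd hM)
  exact h

theorem eps_le (hM : IsStrand D n M) : eps D i M ≤ n := by
  by_cases hne : Nontrivial M
  · obtain ⟨u, hu, h⟩ := exists_eps (i := i) hM
    by_contra h1
    exact hu (isEw_eq_zero hM (by omega) h)
  · rw [not_nontrivial_iff_subsingleton] at hne
    have : {a | ∃ u : M, u ≠ 0 ∧ IsEw D i a u} = ∅ := by
      rw [Set.eq_empty_iff_forall_notMem]
      rintro a ⟨u, hu, _⟩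
      exact hu (Subsingleton.elim _ _)
    unfold eps
    rw [this, csSup_empty]
    exact Nat.zero_le _

theorem eps_eq (hM : IsStrand D n M) {u : M} (hu : u ≠ 0) (h : IsEw D i a u)
    (h' : ∀ v : M, IsEw D i (a + 1) v → v = 0) : eps D i M = a := by
  have h1 := le_eps hM hu h
  have : Nontrivial M := ⟨⟨u, 0, hu⟩⟩
  obtain ⟨v, hv, h2⟩ := exists_eps (i := i) hM
  by_contra h3
  exact hv (h' v (h2.mono (by omega)))

theorem eps_congr {N : Type} [AddCommGroup N] [Module (KLRAlg D) N] (f : M ≃ₗ[KLRAlg D] N) :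
    eps D i M = eps D i N := by
  unfold eps
  congr 1
  ext a
  constructor
  · rintro ⟨u, hu, h⟩
    exact ⟨f u, fun h1 => hu (f.injective (h1.trans (map_zero f).symm)),
      fun k hk => by rw [← map_smul, h k hk]⟩
  · rintro ⟨u, hu, h⟩
    exact ⟨f.symm u, fun h1 => hu (f.symm.injective (h1.trans (map_zero f.symm).symm)),
      fun k hk => by rw [← map_smul, h k hk]⟩

end

/-! ### the module structure of `Kr` -/

section

variable {D : Datum K I} {i : I} {a n : ℕ} {M : Type} [AddCommGroup M] [Module (KLRAlg D) M]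

/-- the inclusion `Kr → M` on elements -/
def Kr.val (u : Kr D i a M) : M := u.1

theorem Kr.val_isKr (u : Kr D i a M) : IsKr D i a (Kr.val u) := u.2

theorem Kr.val_smul (b : KLRAlg D) (u : Kr D i a M) : Kr.val (b • u) = D.shn a b • Kr.val u := rfl
theorem Kr.val_add (u v : Kr D i a M) : Kr.val (u + v) = Kr.val u + Kr.val v := rfl
theorem Kr.val_zero : Kr.val (0 : Kr D i a M) = 0 := rfl

theorem Kr.val_injective : Function.Injective (Kr.val : Kr D i a M → M) :=
  fun _ _ h => Subtype.ext h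

/-- element of `Kr` -/
def Kr.of (u : M) (hu : IsKr D i a u) : Kr D i a M := ⟨u, hu⟩

theorem Kr.val_of (u : M) (hu : IsKr D i a u) : Kr.val (Kr.of u hu) = u := rfl

theorem Kr.isStrand (hM : IsStrand D n M) : IsStrand D (n - a) (Kr D i a M) where
  one k hk u := by
    apply Kr.val_injective
    rw [Kr.val_smul, D.shn_E, hM.one (a + k) (by omega)]
  zero k hk j u := by
    apply Kr.val_injective
    rw [Kr.val_smul, D.shn_e, hM.zero (a + k) (by omega), Kr.val_zero]

theorem Kr.nilp (hM : Nilp D M) : Nilp D (Kr D i a M) := by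
  intro k
  obtain ⟨N, hN⟩ := hM (a + k)
  refine ⟨N, fun u => ?_⟩
  apply Kr.val_injective
  rw [Kr.val_smul, map_pow, D.shn_x, hN, Kr.val_zero]

variable [Module K M] [IsScalarTower K (KLRAlg D) M]

/-- the inclusion `Kr → M` as a linear map -/
def Kr.valₗ (D : Datum K I) (i : I) (a : ℕ) (M : Type) [AddCommGroup M] [Module (KLRAlg D) M]
    [Module K M] [IsScalarTower K (KLRAlg D) M] : Kr D i a M →ₗ[K] M where
  toFun := Kr.val
  map_add' := Kr.val_add
  map_smul' _ _ := rfl

theorem Kr.valₗ_apply (u : Kr D i a M) : Kr.valₗ D i a M u = Kr.val u := rfl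

theorem Kr.fd [FiniteDimensional K M] : FiniteDimensional K (Kr D i a M) :=
  FiniteDimensional.of_injective (Kr.valₗ D i a M) Kr.val_injective

theorem Kr.fdMod (hM : FdMod D n M) : FdMod D (n - a) (Kr D i a M) where
  strand := Kr.isStrand hM.strand
  fd := by
    have := hM.fd
    exact Kr.fd
  nilp := Kr.nilp hM.nilp

end

end Pool.Agent.KLS

end

section

/-! MP_e487d8_al, RMAT block: the block intertwiners `Ph n m`. -/

set_option autoImplicit false

namespace Pool.Agent.KLS

variable {K I : Type} [Field K] [Fintype I] [DecidableEq I]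

namespace Datum

variable (D : Datum K I)

theorem mul_E_of {a b : KLRAlg D} {k : ℕ} (h : a * D.E k = a) : a * b * D.E k = a * b := by
  rw [mul_assoc, ← D.E_comm, ← mul_assoc, h]

theorem mul_E_of' {a b : KLRAlg D} {k : ℕ} (h : b * D.E k = b) : a * b * D.E k = a * b := by
  rw [mul_assoc, h]

theorem phi_x0 (k : ℕ) : D.phi k * D.x k = D.x (k + 1) * D.phi k := by
  refine ext_col2 (k := k) (l := k + 1) (D.mul_E_of (D.phi_E k)) (D.mul_E_of (D.phi_E' k))
    (D.mul_E_of' (D.phi_E k)) (D.mul_E_of' (D.phi_E' k)) fun i j v h h' => ?_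
  rw [mul_assoc, mul_assoc]
  exact phi_x0_smul h h'

theorem phi_x1 (k : ℕ) : D.phi k * D.x (k + 1) = D.x k * D.phi k := by
  refine ext_col2 (k := k) (l := k + 1) (D.mul_E_of (D.phi_E k)) (D.mul_E_of (D.phi_E' k))
    (D.mul_E_of' (D.phi_E k)) (D.mul_E_of' (D.phi_E' k)) fun i j v h h' => ?_
  rw [mul_assoc, mul_assoc]
  exact phi_x1_smul h h'

theorem phi_phi (k : ℕ) : D.phi k * D.phi k = D.QQ k (k + 1) := by
  refine ext_col2 (k := k) (l := k + 1) (D.mul_E_of (D.phi_E k)) (D.mul_E_of (D.phi_E' k))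
    (D.QQ_E k (k + 1)) (D.QQ_E' k (k + 1)) fun i j v h h' => ?_
  rw [mul_assoc]
  exact phi_phi_smul h h'

theorem dl_comm_e (k l : ℕ) (i : I) : D.dl k * D.e l i = D.e l i * D.dl k := by
  unfold dl
  rw [Finset.sum_mul, Finset.mul_sum]
  refine Finset.sum_congr rfl fun j _ => ?_
  rw [mul_assoc, D.e_comm (k + 1) l, ← mul_assoc, D.e_comm k l, mul_assoc]

theorem dl_comm_x (k l : ℕ) : D.dl k * D.x l = D.x l * D.dl k := by
  unfold dl
  rw [Finset.sum_mul, Finset.mul_sum]
  refine Finset.sum_congr rfl fun j _ => ?_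
  rw [mul_assoc, ← D.x_e, ← mul_assoc, ← D.x_e, mul_assoc]

theorem dl_comm_t (k l : ℕ) (h : k ≠ l) (h1 : k + 1 ≠ l) (h2 : k ≠ l + 1) :
    D.dl k * D.t l = D.t l * D.dl k := by
  unfold dl
  rw [Finset.sum_mul, Finset.mul_sum]
  refine Finset.sum_congr rfl fun j _ => ?_
  rw [mul_assoc, ← D.t_e l (k + 1) j (by omega) (by omega), ← mul_assoc,
    ← D.t_e l k j (by omega) (by omega), mul_assoc]

theorem phi_x (k l : ℕ) (h : l ≠ k) (h' : l ≠ k + 1) : D.phi k * D.x l = D.x l * D.phi k := by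
  have h1 : Commute (D.t k) (D.x l) := D.t_x k l h h'
  have h2 : Commute (D.dl k) (D.x l) := D.dl_comm_x k l
  have h3 : Commute (D.x k) (D.x l) := D.x_comm k l
  have h4 : Commute (D.x (k + 1)) (D.x l) := D.x_comm (k + 1) l
  have h5 : Commute (1 : KLRAlg D) (D.x l) := Commute.one_left _
  exact ((h1.mul_left (h5.sub_left h2)).add_left
    (((h1.mul_left (h3.sub_left h4)).add_left h5).mul_left h2)).eq

theorem phi_t (k l : ℕ) (h : k ≠ l) (h1 : k + 1 ≠ l) (h2 : k ≠ l + 1) :
    D.phi k * D.t l = D.t l * D.phi k := by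
  have h0 : Commute (D.t k) (D.t l) := by
    rcases Nat.lt_or_gt_of_ne h with h3 | h3
    · exact D.t_far k l (by omega)
    · exact (D.t_far l k (by omega)).symm
  have h3 : Commute (D.dl k) (D.t l) := D.dl_comm_t k l h h1 h2
  have h4 : Commute (D.x k) (D.t l) := (D.t_x l k (by omega) (by omega)).symm
  have h5 : Commute (D.x (k + 1)) (D.t l) := (D.t_x l (k + 1) (by omega) (by omega)).symm
  have h6 : Commute (1 : KLRAlg D) (D.t l) := Commute.one_left _
  exact ((h0.mul_left (h6.sub_left h3)).add_left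
    (((h0.mul_left (h4.sub_left h5)).add_left h6).mul_left h3)).eq

theorem phi_e (k l : ℕ) (i : I) (h : l ≠ k) (h' : l ≠ k + 1) :
    D.phi k * D.e l i = D.e l i * D.phi k := by
  have h1 : Commute (D.t k) (D.e l i) := D.t_e k l i h h'
  have h2 : Commute (D.dl k) (D.e l i) := D.dl_comm_e k l i
  have h3 : Commute (D.x k) (D.e l i) := D.x_e k l i
  have h4 : Commute (D.x (k + 1)) (D.e l i) := D.x_e (k + 1) l i
  have h5 : Commute (1 : KLRAlg D) (D.e l i) := Commute.one_left _
  exact ((h1.mul_left (h5.sub_left h2)).add_left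
    (((h1.mul_left (h3.sub_left h4)).add_left h5).mul_left h2)).eq

theorem phi_e0 (k : ℕ) (i : I) : D.phi k * D.e k i = D.e (k + 1) i * D.phi k := by
  refine ext_col2 (k := k) (l := k + 1) (D.mul_E_of (D.phi_E k)) (D.mul_E_of (D.phi_E' k))
    (D.mul_E_of' (D.phi_E k)) (D.mul_E_of' (D.phi_E' k)) fun a b v h h' => ?_
  rw [mul_assoc, mul_assoc]
  change D.phi k • D.e k i • v = D.e (k + 1) i • D.phi k • v
  by_cases hi : i = a
  · subst hi
    rw [h, h.phi0 h']
  · rw [h.e_ne hi, (h.phi0 h').e_ne hi, smul_zero]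

theorem phi_e1 (k : ℕ) (i : I) : D.phi k * D.e (k + 1) i = D.e k i * D.phi k := by
  refine ext_col2 (k := k) (l := k + 1) (D.mul_E_of (D.phi_E k)) (D.mul_E_of (D.phi_E' k))
    (D.mul_E_of' (D.phi_E k)) (D.mul_E_of' (D.phi_E' k)) fun a b v h h' => ?_
  rw [mul_assoc, mul_assoc]
  change D.phi k • D.e (k + 1) i • v = D.e k i • D.phi k • v
  by_cases hi : i = b
  · subst hi
    rw [h', h.phi1 h']
  · rw [h'.e_ne hi, (h.phi1 h').e_ne hi, smul_zero]

theorem phi_phi_t (k : ℕ) :
    D.phi (k + 1) * D.phi k * D.t (k + 1) = D.t k * D.phi (k + 1) * D.phi k := by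
  have a0 : D.phi (k + 1) * D.phi k * D.E k = D.phi (k + 1) * D.phi k := D.mul_E_of' (D.phi_E k)
  have a1 : D.phi (k + 1) * D.phi k * D.E (k + 1) = D.phi (k + 1) * D.phi k :=
    D.mul_E_of' (D.phi_E' k)
  have a2 : D.phi (k + 1) * D.phi k * D.E (k + 2) = D.phi (k + 1) * D.phi k :=
    D.mul_E_of (D.phi_E' (k + 1))
  rw [mul_assoc (D.t k)]
  refine ext_col3 (k := k) (l := k + 1) (m := k + 2) (D.mul_E_of a0) (D.mul_E_of a1)
    (D.mul_E_of a2) (D.mul_E_of' a0) (D.mul_E_of' a1) (D.mul_E_of' a2)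
    fun i j l v h h' h'' => ?_
  simp only [mul_assoc]
  exact KLS.phi_phi_t ⟨h, h', h''⟩

theorem phi_phi_t' (k : ℕ) :
    D.phi k * D.phi (k + 1) * D.t k = D.t (k + 1) * D.phi k * D.phi (k + 1) := by
  have a0 : D.phi k * D.phi (k + 1) * D.E k = D.phi k * D.phi (k + 1) := D.mul_E_of (D.phi_E k)
  have a1 : D.phi k * D.phi (k + 1) * D.E (k + 1) = D.phi k * D.phi (k + 1) :=
    D.mul_E_of (D.phi_E' k)
  have a2 : D.phi k * D.phi (k + 1) * D.E (k + 2) = D.phi k * D.phi (k + 1) :=
    D.mul_E_of' (D.phi_E' (k + 1))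
  rw [mul_assoc (D.t (k + 1))]
  refine ext_col3 (k := k) (l := k + 1) (m := k + 2) (D.mul_E_of a0) (D.mul_E_of a1)
    (D.mul_E_of a2) (D.mul_E_of' a0) (D.mul_E_of' a1) (D.mul_E_of' a2)
    fun i j l v h h' h'' => ?_
  simp only [mul_assoc]
  exact KLS.phi_phi_t' ⟨h, h', h''⟩

theorem shn_phi (m k : ℕ) : D.shn m (D.phi k) = D.phi (m + k) := by
  simp only [phi, map_add, map_mul, map_sub, map_one, shn_t, shn_x, shn_dl, add_assoc]

theorem shn_QQ (m k l : ℕ) : D.shn m (D.QQ k l) = D.QQ (m + k) (m + l) := by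
  simp only [QQ, map_sum, map_mul, apply_ite (D.shn m), map_one, map_QE, shn_x, shn_e]

theorem phi_far (k l : ℕ) (h : k + 1 < l) : D.phi k * D.phi l = D.phi l * D.phi k := by
  have h0 : Commute (D.phi k) (D.t l) := D.phi_t k l (by omega) (by omega) (by omega)
  have h4 : Commute (D.phi k) (D.x l) := D.phi_x k l (by omega) (by omega)
  have h5 : Commute (D.phi k) (D.x (l + 1)) := D.phi_x k (l + 1) (by omega) (by omega)
  have h6 : Commute (D.phi k) (1 : KLRAlg D) := Commute.one_right _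
  have h3 : Commute (D.phi k) (D.dl l) := by
    unfold dl
    refine Commute.sum_right _ _ _ fun i _ => ?_
    have h7 : Commute (D.phi k) (D.e l i) := D.phi_e k l i (by omega) (by omega)
    have h8 : Commute (D.phi k) (D.e (l + 1) i) := D.phi_e k (l + 1) i (by omega) (by omega)
    exact h7.mul_right h8
  exact ((h0.mul_right (h6.sub_right h3)).add_right
    (((h0.mul_right (h4.sub_right h5)).add_right h6).mul_right h3)).eq

theorem tr_phi (m k : ℕ) (h : k + 1 < m) : D.tr m (D.phi k) = D.phi k := by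
  have hdl : D.tr m (D.dl k) = D.dl k := by
    unfold dl
    rw [map_sum]
    refine Finset.sum_congr rfl fun i _ => ?_
    rw [map_mul, tr_e, tr_e, if_pos (by omega), if_pos h]
  simp only [phi, map_add, map_mul, map_sub, map_one, tr_t, tr_x, hdl, h, if_true,
    show k < m by omega]

/-! ### one strand past a block -/

/-- moves the strand `m` to the front -/
noncomputable def Cp : ℕ → KLRAlg D
  | 0 => 1
  | m + 1 => Cp m * D.phi m

theorem Cp_zero : D.Cp 0 = 1 := rfl
theorem Cp_succ (m : ℕ) : D.Cp (m + 1) = D.Cp m * D.phi m := rfl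

theorem tr_Cp {m p : ℕ} (h : m < p) : D.tr p (D.Cp m) = D.Cp m := by
  induction m with
  | zero => rw [Cp_zero, map_one]
  | succ m ih => rw [Cp_succ, map_mul, ih (by omega), D.tr_phi p m h]

theorem Cp_far {m l : ℕ} (h : m < l) : D.Cp m * D.phi l = D.phi l * D.Cp m := by
  induction m with
  | zero => rw [Cp_zero, one_mul, mul_one]
  | succ m ih =>
    rw [Cp_succ, mul_assoc, D.phi_far m l (by omega), ← mul_assoc, ih (by omega), mul_assoc]

theorem Cp_x_top (m : ℕ) : D.Cp m * D.x m = D.x 0 * D.Cp m := by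
  induction m with
  | zero => rw [Cp_zero, one_mul, mul_one]
  | succ m ih => rw [Cp_succ, mul_assoc, D.phi_x1, ← mul_assoc, ih, mul_assoc]

theorem Cp_e_top (m : ℕ) (i : I) : D.Cp m * D.e m i = D.e 0 i * D.Cp m := by
  induction m with
  | zero => rw [Cp_zero, one_mul, mul_one]
  | succ m ih => rw [Cp_succ, mul_assoc, D.phi_e1, ← mul_assoc, ih, mul_assoc]

theorem Cp_shn (m : ℕ) (a : KLRAlg D) :
    D.Cp m * D.shn (m + 1) a = D.shn (m + 1) a * D.Cp m := by
  rw [← D.tr_Cp (Nat.lt_succ_self m)]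
  exact D.tr_mul_shn le_rfl _ _

theorem Cp_x (m k : ℕ) (h : k < m) : D.Cp m * D.x k = D.x (k + 1) * D.Cp m := by
  induction m with
  | zero => omega
  | succ m ih =>
    rw [Cp_succ, mul_assoc]
    rcases Nat.lt_succ_iff_lt_or_eq.1 h with h1 | h1
    · rw [D.phi_x m k (by omega) (by omega), ← mul_assoc, ih h1, mul_assoc]
    · subst h1
      rw [D.phi_x0, ← mul_assoc]
      have h2 := D.Cp_shn k (D.x 0)
      rw [D.shn_x, add_zero] at h2
      rw [h2, mul_assoc]

theorem Cp_e (m k : ℕ) (i : I) (h : k < m) : D.Cp m * D.e k i = D.e (k + 1) i * D.Cp m := by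
  induction m with
  | zero => omega
  | succ m ih =>
    rw [Cp_succ, mul_assoc]
    rcases Nat.lt_succ_iff_lt_or_eq.1 h with h1 | h1
    · rw [D.phi_e m k i (by omega) (by omega), ← mul_assoc, ih h1, mul_assoc]
    · subst h1
      rw [D.phi_e0, ← mul_assoc]
      have h2 := D.Cp_shn k (D.e 0 i)
      rw [D.shn_e, add_zero] at h2
      rw [h2, mul_assoc]

theorem Cp_t (m k : ℕ) (h : k + 1 < m) : D.Cp m * D.t k = D.t (k + 1) * D.Cp m := by
  induction m with
  | zero => omega
  | succ m ih =>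
    rw [Cp_succ, mul_assoc]
    by_cases h1 : k + 1 < m
    · rw [D.phi_t m k (by omega) (by omega) (by omega), ← mul_assoc, ih h1, mul_assoc]
    · have h2 : m = k + 1 := by omega
      subst h2
      have h3 := D.Cp_shn k (D.t 0)
      rw [D.shn_t, add_zero] at h3
      rw [Cp_succ, mul_assoc, ← mul_assoc (D.phi k), D.phi_phi_t', ← mul_assoc, ← mul_assoc, h3,
        mul_assoc, mul_assoc, mul_assoc]

/-- the strands of the block move by one -/
theorem Cp_tr (m : ℕ) (a : KLRAlg D) : D.Cp m * D.tr m a = D.shn 1 (D.tr m a) * D.Cp m := by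
  induction a using KLRAlg.induction with
  | hs r => rw [AlgHom.commutes, AlgHom.commutes]; exact (Algebra.commutes r _).symm
  | hadd b c hb hc => rw [map_add, map_add, mul_add, add_mul, hb, hc]
  | hmul b c hb hc => rw [map_mul, map_mul, ← mul_assoc, hb, mul_assoc, hc, mul_assoc]
  | he k i =>
    rw [tr_e]; split_ifs with h
    · rw [shn_e, add_comm 1 k]; exact D.Cp_e m k i h
    · simp
  | hx k =>
    rw [tr_x]; split_ifs with h
    · rw [shn_x, add_comm 1 k]; exact D.Cp_x m k h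
    · simp
  | ht k =>
    rw [tr_t]; split_ifs with h
    · rw [shn_t, add_comm 1 k]; exact D.Cp_t m k h
    · simp

theorem t_Cp_Cp (m : ℕ) :
    D.t 0 * (D.shn 1 (D.Cp m) * D.Cp m) = D.shn 1 (D.Cp m) * D.Cp m * D.t m := by
  induction m with
  | zero => rw [Cp_zero, map_one, one_mul, mul_one, one_mul]
  | succ m ih =>
    have h1 : D.shn 1 (D.Cp (m + 1)) * D.Cp (m + 1) =
        D.shn 1 (D.Cp m) * D.Cp m * (D.phi (m + 1) * D.phi m) := by
      rw [Cp_succ, map_mul, shn_phi, add_comm 1 m, mul_assoc, ← mul_assoc (D.phi (m + 1)),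
        ← D.Cp_far (Nat.lt_succ_self m)]
      simp only [mul_assoc]
    rw [h1, mul_assoc _ _ (D.t (m + 1)), D.phi_phi_t, mul_assoc (D.t m), ← mul_assoc _ (D.t m),
      ← ih]
    simp only [mul_assoc]

theorem Cp_add (n l : ℕ) : D.Cp (n + l) = D.Cp n * D.shn n (D.Cp l) := by
  induction l with
  | zero => rw [Cp_zero, map_one, mul_one, add_zero]
  | succ l ih => rw [← add_assoc, Cp_succ, ih, Cp_succ, map_mul, shn_phi, mul_assoc]

/-! ### block past block -/

/-- moves `m` strands, which sit behind `n` strands, to the front -/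
noncomputable def Ph (n : ℕ) : ℕ → KLRAlg D
  | 0 => 1
  | m + 1 => D.shn 1 (Ph n m) * D.Cp n

theorem Ph_zero (n : ℕ) : D.Ph n 0 = 1 := rfl
theorem Ph_succ (n m : ℕ) : D.Ph n (m + 1) = D.shn 1 (D.Ph n m) * D.Cp n := rfl

theorem tr_Ph (n m : ℕ) : D.tr (n + m) (D.Ph n m) = D.Ph n m := by
  induction m with
  | zero => rw [Ph_zero, map_one]
  | succ m ih =>
    rw [Ph_succ, map_mul, D.tr_Cp (by omega), show n + (m + 1) = 1 + (n + m) by omega, D.tr_shn,
      ih]

/-- the first block -/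
theorem Ph_tr (n m : ℕ) (b : KLRAlg D) :
    D.shn m (D.tr n b) * D.Ph n m = D.Ph n m * D.tr n b := by
  induction m with
  | zero => rw [Ph_zero, shn_zero, one_mul, mul_one]
  | succ m ih =>
    rw [Ph_succ, add_comm m 1, ← D.shn_shn, ← mul_assoc, ← map_mul, ih, map_mul, mul_assoc,
      ← D.Cp_tr, mul_assoc]

theorem Ph_x (n m k : ℕ) (h : k < m) : D.x k * D.Ph n m = D.Ph n m * D.x (n + k) := by
  induction m generalizing k with
  | zero => omega
  | succ m ih =>
    rw [Ph_succ, ← mul_assoc]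
    cases k with
    | zero =>
      have h1 := D.tr_mul_shn (m := 1) (m' := 1) le_rfl (D.x 0) (D.Ph n m)
      rw [tr_x, if_pos (by omega)] at h1
      rw [h1, mul_assoc, ← D.Cp_x_top, add_zero, mul_assoc]
    | succ k =>
      have h1 : D.x (k + 1) * D.shn 1 (D.Ph n m) = D.shn 1 (D.Ph n m) * D.x (n + (k + 1)) := by
        have h2 := congrArg (D.shn 1) (ih k (by omega))
        rw [map_mul, map_mul, shn_x, shn_x] at h2
        rw [add_comm k 1, h2]
        congr 2
        omega
      have h3 := D.Cp_shn n (D.x k)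
      rw [D.shn_x] at h3
      rw [h1, mul_assoc, show n + (k + 1) = n + 1 + k by omega, ← h3, mul_assoc]

theorem Ph_e (n m k : ℕ) (i : I) (h : k < m) : D.e k i * D.Ph n m = D.Ph n m * D.e (n + k) i := by
  induction m generalizing k with
  | zero => omega
  | succ m ih =>
    rw [Ph_succ, ← mul_assoc]
    cases k with
    | zero =>
      have h1 := D.tr_mul_shn (m := 1) (m' := 1) le_rfl (D.e 0 i) (D.Ph n m)
      rw [tr_e, if_pos (by omega)] at h1
      rw [h1, mul_assoc, ← D.Cp_e_top, add_zero, mul_assoc]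
    | succ k =>
      have h1 : D.e (k + 1) i * D.shn 1 (D.Ph n m) =
          D.shn 1 (D.Ph n m) * D.e (n + (k + 1)) i := by
        have h2 := congrArg (D.shn 1) (ih k (by omega))
        rw [map_mul, map_mul, shn_e, shn_e] at h2
        rw [add_comm k 1, h2]
        congr 2
        omega
      have h3 := D.Cp_shn n (D.e k i)
      rw [D.shn_e] at h3
      rw [h1, mul_assoc, show n + (k + 1) = n + 1 + k by omega, ← h3, mul_assoc]

theorem Ph_t (n m k : ℕ) (h : k + 1 < m) : D.t k * D.Ph n m = D.Ph n m * D.t (n + k) := by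
  induction m generalizing k with
  | zero => omega
  | succ m ih =>
    cases k with
    | zero =>
      obtain ⟨m', rfl⟩ : ∃ m', m = m' + 1 := ⟨m - 1, by omega⟩
      have h1 := D.tr_mul_shn (m := 2) (m' := 2) le_rfl (D.t 0) (D.Ph n m')
      rw [tr_t, if_pos (by omega)] at h1
      rw [Ph_succ, Ph_succ, map_mul, shn_shn, mul_assoc, ← mul_assoc (D.t 0), h1, mul_assoc,
        D.t_Cp_Cp, add_zero]
      simp only [mul_assoc]
    | succ k =>
      rw [Ph_succ, ← mul_assoc]
      have h1 : D.t (k + 1) * D.shn 1 (D.Ph n m) = D.shn 1 (D.Ph n m) * D.t (n + (k + 1)) := by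
        have h2 := congrArg (D.shn 1) (ih k (by omega))
        rw [map_mul, map_mul, shn_t, shn_t] at h2
        rw [add_comm k 1, h2]
        congr 2
        omega
      have h3 := D.Cp_shn n (D.t k)
      rw [D.shn_t] at h3
      rw [h1, mul_assoc, show n + (k + 1) = n + 1 + k by omega, ← h3, mul_assoc]

/-- the second block -/
theorem tr_mul_Ph (n m : ℕ) (a : KLRAlg D) :
    D.tr m a * D.Ph n m = D.Ph n m * D.shn n (D.tr m a) := by
  induction a using KLRAlg.induction with
  | hs r => rw [AlgHom.commutes, AlgHom.commutes]; exact Algebra.commutes r _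
  | hadd b c hb hc => rw [map_add, map_add, mul_add, add_mul, hb, hc]
  | hmul b c hb hc => rw [map_mul, map_mul, mul_assoc, hc, ← mul_assoc, hb, mul_assoc]
  | he k i =>
    rw [tr_e]; split_ifs with h
    · rw [shn_e]; exact D.Ph_e n m k i h
    · simp
  | hx k =>
    rw [tr_x]; split_ifs with h
    · rw [shn_x]; exact D.Ph_x n m k h
    · simp
  | ht k =>
    rw [tr_t]; split_ifs with h
    · rw [shn_t]; exact D.Ph_t n m k h
    · simp

/-- the hexagon -/
theorem Ph_add (n l m : ℕ) : D.Ph (n + l) m = D.Ph n m * D.shn n (D.Ph l m) := by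
  induction m with
  | zero => rw [Ph_zero, Ph_zero, Ph_zero, map_one, mul_one]
  | succ m ih =>
    rw [Ph_succ, ih, Cp_add, map_mul, D.shn_shn, Ph_succ, Ph_succ, map_mul, D.shn_shn]
    have h := D.Cp_shn n (D.Ph l m)
    calc _ = D.shn 1 (D.Ph n m) * (D.shn (1 + n) (D.Ph l m) * D.Cp n) * D.shn n (D.Cp l) := by
          simp only [mul_assoc]
      _ = _ := by
          rw [add_comm 1 n, ← h]
          simp only [mul_assoc]

/-! ### the square -/

/-- `∏ k < m, QQ k l` -/
noncomputable def QP1 (l : ℕ) : ℕ → KLRAlg D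
  | 0 => 1
  | m + 1 => D.QQ m l * QP1 l m

/-- `∏ k < m, p ≤ l < p + n, QQ k l` -/
noncomputable def QP (m : ℕ) : ℕ → ℕ → KLRAlg D
  | _, 0 => 1
  | p, n + 1 => D.QP1 p m * QP m (p + 1) n

theorem QQ_comm_phi {a k l : ℕ} (h1 : a ≠ k) (h2 : a ≠ k + 1) (h3 : l ≠ k) (h4 : l ≠ k + 1) :
    D.QQ a l * D.phi k = D.phi k * D.QQ a l := by
  have h : Commute (D.phi k) (D.QQ a l) := by
    unfold QQ
    refine Commute.sum_right _ _ _ fun i _ => Commute.sum_right _ _ _ fun j _ => ?_
    have e1 : Commute (D.phi k) (D.e a i) := D.phi_e k a i h1 h2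
    have e2 : Commute (D.phi k) (D.e l j) := D.phi_e k l j h3 h4
    have e3 : Commute (D.phi k) (D.x a) := D.phi_x k a h1 h2
    have e4 : Commute (D.phi k) (D.x l) := D.phi_x k l h3 h4
    refine Commute.mul_right ?_ (e1.mul_right e2)
    split_ifs
    · exact Commute.one_right _
    · exact Datum.commute_QE e3 e4
  exact h.eq.symm

/-- replacing the strand in `QQ a k` -/
theorem phi_QQ {a k : ℕ} (h1 : a ≠ k) (h2 : a ≠ k + 1) :
    D.QQ a k * D.phi k = D.phi k * D.QQ a (k + 1) := by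
  unfold QQ
  simp only [Finset.sum_mul, Finset.mul_sum]
  refine Finset.sum_congr rfl fun i _ => Finset.sum_congr rfl fun j _ => ?_
  have e1 : D.e a i * D.phi k = D.phi k * D.e a i := (D.phi_e k a i h1 h2).symm
  have e2 : D.e k j * D.phi k = D.phi k * D.e (k + 1) j := (D.phi_e1 k j).symm
  have e4 : D.phi k * D.QE i j (D.x a) (D.x (k + 1)) = D.QE i j (D.x a) (D.x k) * D.phi k :=
    Datum.QE_semi (D.phi_x k a h1 h2) (D.phi_x1 k)
  rw [mul_assoc, mul_assoc, e2, ← mul_assoc (D.e a i), e1, mul_assoc, ← mul_assoc _ (D.phi k)]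
  split_ifs
  · rw [one_mul, one_mul]
  · rw [← e4, mul_assoc]

theorem QP1_phi (m l : ℕ) (k : ℕ) (h : m ≤ k) (h3 : l ≠ k) (h4 : l ≠ k + 1) :
    D.QP1 l m * D.phi k = D.phi k * D.QP1 l m := by
  induction m with
  | zero => rw [QP1, one_mul, mul_one]
  | succ m ih =>
    rw [QP1, mul_assoc, ih (by omega), ← mul_assoc,
      D.QQ_comm_phi (by omega) (by omega) h3 h4, mul_assoc]

theorem QP1_phi' (m k : ℕ) (h : m ≤ k) :
    D.QP1 k m * D.phi k = D.phi k * D.QP1 (k + 1) m := by
  induction m with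
  | zero => rw [QP1, QP1, one_mul, mul_one]
  | succ m ih =>
    rw [QP1, QP1, mul_assoc, ih (by omega), ← mul_assoc, D.phi_QQ (by omega) (by omega),
      mul_assoc]

theorem Ph_one_succ (m : ℕ) : D.Ph 1 (m + 1) = D.phi m * D.Ph 1 m := by
  induction m with
  | zero => rw [Ph_succ, Ph_zero, map_one, one_mul, mul_one, Cp_succ, Cp_zero, one_mul]
  | succ m ih =>
    rw [Ph_succ, ih, map_mul, shn_phi, mul_assoc, ← Ph_succ, add_comm 1 m, ih]

theorem Ph_one_Cp (m : ℕ) : D.Ph 1 m * D.Cp m = D.QP1 m m := by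
  induction m with
  | zero => rw [Ph_zero, Cp_zero, QP1, one_mul]
  | succ m ih =>
    rw [Ph_one_succ, Cp_succ, mul_assoc, ← mul_assoc (D.Ph 1 m), ih, D.QP1_phi' m m le_rfl,
      ← mul_assoc, D.phi_phi, QP1]

theorem QQ_Cp {m k l : ℕ} (h : k < m) (h' : m ≤ l) :
    D.QQ (k + 1) (l + 1) * D.Cp m = D.Cp m * D.QQ k (l + 1) := by
  unfold QQ
  simp only [Finset.sum_mul, Finset.mul_sum]
  refine Finset.sum_congr rfl fun i _ => Finset.sum_congr rfl fun j _ => ?_
  have f2 := D.Cp_shn m (D.e (l - m) j)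
  have f3 := D.Cp_shn m (D.x (l - m))
  rw [D.shn_e, show m + 1 + (l - m) = l + 1 by omega] at f2
  rw [D.shn_x, show m + 1 + (l - m) = l + 1 by omega] at f3
  have e1 : D.e (k + 1) i * D.Cp m = D.Cp m * D.e k i := (D.Cp_e m k i h).symm
  have e4 : D.Cp m * D.QE i j (D.x k) (D.x (l + 1)) =
      D.QE i j (D.x (k + 1)) (D.x (l + 1)) * D.Cp m := Datum.QE_semi (D.Cp_x m k h) f3
  rw [mul_assoc, mul_assoc, ← f2, ← mul_assoc (D.e (k + 1) i), e1, mul_assoc,
    ← mul_assoc _ (D.Cp m)]
  split_ifs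
  · rw [one_mul, one_mul]
  · rw [← e4, mul_assoc]

theorem shn_QP1_Cp {m l r : ℕ} (h : r ≤ m) (h' : m ≤ l) :
    D.shn 1 (D.QP1 l r) * D.Cp m = D.Cp m * D.QP1 (l + 1) r := by
  induction r with
  | zero => rw [QP1, QP1, map_one, one_mul, mul_one]
  | succ r ih =>
    rw [QP1, QP1, map_mul, mul_assoc, ih (by omega), shn_QQ, ← mul_assoc, add_comm 1 r,
      add_comm 1 l, D.QQ_Cp (by omega) h', mul_assoc]

theorem shn_QP_Cp {m n p : ℕ} (h : m ≤ p) :
    D.shn 1 (D.QP m p n) * D.Cp m = D.Cp m * D.QP m (p + 1) n := by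
  induction n generalizing p with
  | zero => rw [QP, QP, map_one, one_mul, mul_one]
  | succ n ih =>
    rw [QP, QP, map_mul, mul_assoc, ih (by omega), ← mul_assoc, D.shn_QP1_Cp le_rfl h, mul_assoc]

/-- the square of the block intertwiner -/
theorem Ph_mul_Ph (m n : ℕ) : D.Ph n m * D.Ph m n = D.QP m m n := by
  induction n with
  | zero =>
    have h : ∀ m : ℕ, D.Ph 0 m = 1 := by
      intro m
      induction m with
      | zero => rfl
      | succ m ih => rw [Ph_succ, ih, map_one, Cp_zero, one_mul]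
    rw [h, Ph_zero, QP, one_mul]
  | succ n ih =>
    rw [add_comm n 1, D.Ph_add, add_comm 1 n, Ph_succ, mul_assoc, ← mul_assoc (D.shn 1 (D.Ph n m)),
      ← map_mul, ih, D.shn_QP_Cp le_rfl, ← mul_assoc, D.Ph_one_Cp, QP]

end Datum

end Pool.Agent.KLS

end
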