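import Mathlib
import Pool.Agent.Work.MP_e487d8_al.Bd.B03
import Pool.Agent.Work.MP_e487d8_al.Bd.B08

/-! Bundle of small proof modules (one section per former module). -/

section

/-! MP_e487d8_al, PBW block: the formal braid identity for two strands of one kind and one strand
of the other kind. -/

set_option autoImplicit false
set_option linter.unusedSimpArgs false

namespace Pool.Agent.KLS

namespace Pbw

/-- the elements of the ring describing the crossings: `t` is the crossing of the two strands of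
the same kind, `A0, k0, l0` (`A1, k1, l1`) describe the crossing of the strand `0` (`1`) with the
strand of the other kind -/
structure Cross {B : Type*} [Ring B] (t A0 A1 k0 k1 l0 l1 th th' : B) : Prop where
  tA0 : t * A0 = A1 * t + A0 * A1
  tA1 : t * A1 = A0 * t - A0 * A1
  AA : A1 * A0 = A0 * A1
  tk0 : t * k0 = k1 * t - th
  tk1 : t * k1 = k0 * t + th
  tl0 : t * l0 = l1 * t - th'
  tl1 : t * l1 = l0 * t + th'
  kA0 : k0 * A0 = 0
  kA1 : k1 * A1 = 0
  lA0 : l0 * A0 = 0
  lA1 : l1 * A1 = 0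
  Ak0 : A0 * k0 = 0
  Ak1 : A1 * k1 = 0
  Al0 : A0 * l0 = 0
  Al1 : A1 * l1 = 0
  kA01 : k0 * A1 = A1 * k0
  kA10 : k1 * A0 = A0 * k1
  lA01 : l0 * A1 = A1 * l0
  lA10 : l1 * A0 = A0 * l1
  kk : k1 * k0 = k0 * k1
  ll : l1 * l0 = l0 * l1
  lk : l1 * k0 = k0 * l1
  thA0 : th * A0 = 0
  thA1 : th * A1 = 0
  Ath0 : A0 * th = 0
  Ath1 : A1 * th = 0
  thA0' : th' * A0 = 0
  thA1' : th' * A1 = 0
  Ath0' : A0 * th' = 0
  Ath1' : A1 * th' = 0
  thk : th * k1 = k1 * th
  thl : th' * l1 = l1 * th'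

namespace Cross

variable {B : Type*} [Ring B] {t A0 A1 k0 k1 l0 l1 th th' : B}

theorem assoc {a b c : B} (h : a * b = c) (x : B) : a * (b * x) = c * x := by
  rw [← mul_assoc, h]

section
variable (h : Cross t A0 A1 k0 k1 l0 l1 th th')
include h

theorem x0 : A0 * (A1 * k0) = 0 := by rw [← h.kA01, ← mul_assoc, h.Ak0, zero_mul]
theorem x0' (y : B) : A0 * (A1 * (k0 * y)) = 0 := by
  rw [← mul_assoc A1, ← mul_assoc A0, h.x0, zero_mul]

/-- diagonal entry 1 -/
theorem e11 : -((A1 + k1) * A0 * (l1 - A1)) + A1 * t * A1 + t * A1 * t =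
    A0 * (t * t - k1 * l1) := by
  simp only [mul_add, add_mul, mul_sub, sub_mul, mul_neg, neg_mul, mul_assoc, h.tA0,
    assoc h.tA0, h.tA1,
    assoc h.tA1, h.AA, assoc h.AA, h.tk0, assoc h.tk0, h.tk1, assoc h.tk1, h.tl0, assoc h.tl0,
    h.tl1, assoc h.tl1, h.kA0, assoc h.kA0, h.kA1, assoc h.kA1, h.lA0, assoc h.lA0, h.lA1,
    assoc h.lA1, h.Ak0, assoc h.Ak0, h.Ak1, assoc h.Ak1, h.Al0, assoc h.Al0, h.Al1,
    assoc h.Al1, h.kA01, assoc h.kA01, h.kA10, assoc h.kA10, h.lA01, assoc h.lA01, h.lA10,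
    assoc h.lA10, h.kk, assoc h.kk, h.ll, assoc h.ll, h.lk, assoc h.lk, h.thA0, assoc h.thA0,
    h.thA1, assoc h.thA1, h.Ath0, assoc h.Ath0, h.Ath1, assoc h.Ath1, h.thA0', assoc h.thA0',
    h.thA1', assoc h.thA1', h.Ath0', assoc h.Ath0', h.Ath1', assoc h.Ath1', h.thk, assoc h.thk,
    h.thl, assoc h.thl, h.x0, h.x0', mul_zero, zero_mul]
  abel

/-- off diagonal entry -/
theorem e12 : -((A1 + k1) * A0 * A1) - A1 * t * (A1 + k1) + t * (A1 + k1) * A0 = 0 := by
  simp only [mul_add, add_mul, mul_sub, sub_mul, mul_neg, neg_mul, mul_assoc, h.tA0,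
    assoc h.tA0, h.tA1,
    assoc h.tA1, h.AA, assoc h.AA, h.tk0, assoc h.tk0, h.tk1, assoc h.tk1, h.tl0, assoc h.tl0,
    h.tl1, assoc h.tl1, h.kA0, assoc h.kA0, h.kA1, assoc h.kA1, h.lA0, assoc h.lA0, h.lA1,
    assoc h.lA1, h.Ak0, assoc h.Ak0, h.Ak1, assoc h.Ak1, h.Al0, assoc h.Al0, h.Al1,
    assoc h.Al1, h.kA01, assoc h.kA01, h.kA10, assoc h.kA10, h.lA01, assoc h.lA01, h.lA10,
    assoc h.lA10, h.kk, assoc h.kk, h.ll, assoc h.ll, h.lk, assoc h.lk, h.thA0, assoc h.thA0,
    h.thA1, assoc h.thA1, h.Ath0, assoc h.Ath0, h.Ath1, assoc h.Ath1, h.thA0', assoc h.thA0',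
    h.thA1', assoc h.thA1', h.Ath0', assoc h.Ath0', h.Ath1', assoc h.Ath1', h.thk, assoc h.thk,
    h.thl, assoc h.thl, h.x0, h.x0', mul_zero, zero_mul]
  abel

/-- off diagonal entry -/
theorem e13 : (A1 + k1) * (A0 + k0) * t - t * ((A1 + k1) * (A0 + k0)) = 0 := by
  simp only [mul_add, add_mul, mul_sub, sub_mul, mul_neg, neg_mul, mul_assoc, h.tA0,
    assoc h.tA0, h.tA1,
    assoc h.tA1, h.AA, assoc h.AA, h.tk0, assoc h.tk0, h.tk1, assoc h.tk1, h.tl0, assoc h.tl0,
    h.tl1, assoc h.tl1, h.kA0, assoc h.kA0, h.kA1, assoc h.kA1, h.lA0, assoc h.lA0, h.lA1,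
    assoc h.lA1, h.Ak0, assoc h.Ak0, h.Ak1, assoc h.Ak1, h.Al0, assoc h.Al0, h.Al1,
    assoc h.Al1, h.kA01, assoc h.kA01, h.kA10, assoc h.kA10, h.lA01, assoc h.lA01, h.lA10,
    assoc h.lA10, h.kk, assoc h.kk, h.ll, assoc h.ll, h.lk, assoc h.lk, h.thA0, assoc h.thA0,
    h.thA1, assoc h.thA1, h.Ath0, assoc h.Ath0, h.Ath1, assoc h.Ath1, h.thA0', assoc h.thA0',
    h.thA1', assoc h.thA1', h.Ath0', assoc h.Ath0', h.Ath1', assoc h.Ath1', h.thk, assoc h.thk,
    h.thl, assoc h.thl, h.x0, h.x0', mul_zero, zero_mul]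
  abel

/-- off diagonal entry -/
theorem e21 : -(A1 * A0 * (l1 - A1)) - (l1 - A1) * t * A1 + A0 * (l1 - A1) * t = 0 := by
  simp only [mul_add, add_mul, mul_sub, sub_mul, mul_neg, neg_mul, mul_assoc, h.tA0,
    assoc h.tA0, h.tA1,
    assoc h.tA1, h.AA, assoc h.AA, h.tk0, assoc h.tk0, h.tk1, assoc h.tk1, h.tl0, assoc h.tl0,
    h.tl1, assoc h.tl1, h.kA0, assoc h.kA0, h.kA1, assoc h.kA1, h.lA0, assoc h.lA0, h.lA1,
    assoc h.lA1, h.Ak0, assoc h.Ak0, h.Ak1, assoc h.Ak1, h.Al0, assoc h.Al0, h.Al1,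
    assoc h.Al1, h.kA01, assoc h.kA01, h.kA10, assoc h.kA10, h.lA01, assoc h.lA01, h.lA10,
    assoc h.lA10, h.kk, assoc h.kk, h.ll, assoc h.ll, h.lk, assoc h.lk, h.thA0, assoc h.thA0,
    h.thA1, assoc h.thA1, h.Ath0, assoc h.Ath0, h.Ath1, assoc h.Ath1, h.thA0', assoc h.thA0',
    h.thA1', assoc h.thA1', h.Ath0', assoc h.Ath0', h.Ath1', assoc h.Ath1', h.thk, assoc h.thk,
    h.thl, assoc h.thl, h.x0, h.x0', mul_zero, zero_mul]
  abel

/-- diagonal entry 2 -/
theorem e22 : -(A1 * A0 * A1) + (l1 - A1) * t * (A1 + k1) - (A0 + k0) * t * (l0 - A0) - A0 * A1 * A0 =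
    l1 * th + k0 * th' := by
  simp only [mul_add, add_mul, mul_sub, sub_mul, mul_neg, neg_mul, mul_assoc, h.tA0,
    assoc h.tA0, h.tA1,
    assoc h.tA1, h.AA, assoc h.AA, h.tk0, assoc h.tk0, h.tk1, assoc h.tk1, h.tl0, assoc h.tl0,
    h.tl1, assoc h.tl1, h.kA0, assoc h.kA0, h.kA1, assoc h.kA1, h.lA0, assoc h.lA0, h.lA1,
    assoc h.lA1, h.Ak0, assoc h.Ak0, h.Ak1, assoc h.Ak1, h.Al0, assoc h.Al0, h.Al1,
    assoc h.Al1, h.kA01, assoc h.kA01, h.kA10, assoc h.kA10, h.lA01, assoc h.lA01, h.lA10,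
    assoc h.lA10, h.kk, assoc h.kk, h.ll, assoc h.ll, h.lk, assoc h.lk, h.thA0, assoc h.thA0,
    h.thA1, assoc h.thA1, h.Ath0, assoc h.Ath0, h.Ath1, assoc h.Ath1, h.thA0', assoc h.thA0',
    h.thA1', assoc h.thA1', h.Ath0', assoc h.Ath0', h.Ath1', assoc h.Ath1', h.thk, assoc h.thk,
    h.thl, assoc h.thl, h.x0, h.x0', mul_zero, zero_mul]
  abel

/-- off diagonal entry -/
theorem e23 : A1 * (A0 + k0) * t - (A0 + k0) * t * A0 + A0 * A1 * (A0 + k0) = 0 := by
  simp only [mul_add, add_mul, mul_sub, sub_mul, mul_neg, neg_mul, mul_assoc, h.tA0,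
    assoc h.tA0, h.tA1,
    assoc h.tA1, h.AA, assoc h.AA, h.tk0, assoc h.tk0, h.tk1, assoc h.tk1, h.tl0, assoc h.tl0,
    h.tl1, assoc h.tl1, h.kA0, assoc h.kA0, h.kA1, assoc h.kA1, h.lA0, assoc h.lA0, h.lA1,
    assoc h.lA1, h.Ak0, assoc h.Ak0, h.Ak1, assoc h.Ak1, h.Al0, assoc h.Al0, h.Al1,
    assoc h.Al1, h.kA01, assoc h.kA01, h.kA10, assoc h.kA10, h.lA01, assoc h.lA01, h.lA10,
    assoc h.lA10, h.kk, assoc h.kk, h.ll, assoc h.ll, h.lk, assoc h.lk, h.thA0, assoc h.thA0,
    h.thA1, assoc h.thA1, h.Ath0, assoc h.Ath0, h.Ath1, assoc h.Ath1, h.thA0', assoc h.thA0',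
    h.thA1', assoc h.thA1', h.Ath0', assoc h.Ath0', h.Ath1', assoc h.Ath1', h.thk, assoc h.thk,
    h.thl, assoc h.thl, h.x0, h.x0', mul_zero, zero_mul]
  abel

/-- off diagonal entry -/
theorem e31 : t * (l0 - A0) * (l1 - A1) - (l0 - A0) * (l1 - A1) * t = 0 := by
  simp only [mul_add, add_mul, mul_sub, sub_mul, mul_neg, neg_mul, mul_assoc, h.tA0,
    assoc h.tA0, h.tA1,
    assoc h.tA1, h.AA, assoc h.AA, h.tk0, assoc h.tk0, h.tk1, assoc h.tk1, h.tl0, assoc h.tl0,
    h.tl1, assoc h.tl1, h.kA0, assoc h.kA0, h.kA1, assoc h.kA1, h.lA0, assoc h.lA0, h.lA1,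
    assoc h.lA1, h.Ak0, assoc h.Ak0, h.Ak1, assoc h.Ak1, h.Al0, assoc h.Al0, h.Al1,
    assoc h.Al1, h.kA01, assoc h.kA01, h.kA10, assoc h.kA10, h.lA01, assoc h.lA01, h.lA10,
    assoc h.lA10, h.kk, assoc h.kk, h.ll, assoc h.ll, h.lk, assoc h.lk, h.thA0, assoc h.thA0,
    h.thA1, assoc h.thA1, h.Ath0, assoc h.Ath0, h.Ath1, assoc h.Ath1, h.thA0', assoc h.thA0',
    h.thA1', assoc h.thA1', h.Ath0', assoc h.Ath0', h.Ath1', assoc h.Ath1', h.thk, assoc h.thk,
    h.thl, assoc h.thl, h.x0, h.x0', mul_zero, zero_mul]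
  abel

/-- off diagonal entry -/
theorem e32 : t * (l0 - A0) * A1 - A0 * t * (l0 - A0) + (l0 - A0) * A1 * A0 = 0 := by
  simp only [mul_add, add_mul, mul_sub, sub_mul, mul_neg, neg_mul, mul_assoc, h.tA0,
    assoc h.tA0, h.tA1,
    assoc h.tA1, h.AA, assoc h.AA, h.tk0, assoc h.tk0, h.tk1, assoc h.tk1, h.tl0, assoc h.tl0,
    h.tl1, assoc h.tl1, h.kA0, assoc h.kA0, h.kA1, assoc h.kA1, h.lA0, assoc h.lA0, h.lA1,
    assoc h.lA1, h.Ak0, assoc h.Ak0, h.Ak1, assoc h.Ak1, h.Al0, assoc h.Al0, h.Al1,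
    assoc h.Al1, h.kA01, assoc h.kA01, h.kA10, assoc h.kA10, h.lA01, assoc h.lA01, h.lA10,
    assoc h.lA10, h.kk, assoc h.kk, h.ll, assoc h.ll, h.lk, assoc h.lk, h.thA0, assoc h.thA0,
    h.thA1, assoc h.thA1, h.Ath0, assoc h.Ath0, h.Ath1, assoc h.Ath1, h.thA0', assoc h.thA0',
    h.thA1', assoc h.thA1', h.Ath0', assoc h.Ath0', h.Ath1', assoc h.Ath1', h.thk, assoc h.thk,
    h.thl, assoc h.thl, h.x0, h.x0', mul_zero, zero_mul]
  abel

/-- diagonal entry 3 -/
theorem e33 : t * A0 * t - A0 * t * A0 - (l0 - A0) * A1 * (A0 + k0) = A1 * (t * t - l0 * k0) := by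
  simp only [mul_add, add_mul, mul_sub, sub_mul, mul_neg, neg_mul, mul_assoc, h.tA0,
    assoc h.tA0, h.tA1,
    assoc h.tA1, h.AA, assoc h.AA, h.tk0, assoc h.tk0, h.tk1, assoc h.tk1, h.tl0, assoc h.tl0,
    h.tl1, assoc h.tl1, h.kA0, assoc h.kA0, h.kA1, assoc h.kA1, h.lA0, assoc h.lA0, h.lA1,
    assoc h.lA1, h.Ak0, assoc h.Ak0, h.Ak1, assoc h.Ak1, h.Al0, assoc h.Al0, h.Al1,
    assoc h.Al1, h.kA01, assoc h.kA01, h.kA10, assoc h.kA10, h.lA01, assoc h.lA01, h.lA10,
    assoc h.lA10, h.kk, assoc h.kk, h.ll, assoc h.ll, h.lk, assoc h.lk, h.thA0, assoc h.thA0,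
    h.thA1, assoc h.thA1, h.Ath0, assoc h.Ath0, h.Ath1, assoc h.Ath1, h.thA0', assoc h.thA0',
    h.thA1', assoc h.thA1', h.Ath0', assoc h.Ath0', h.Ath1', assoc h.Ath1', h.thk, assoc h.thk,
    h.thl, assoc h.thl, h.x0, h.x0', mul_zero, zero_mul]
  abel

end

end Cross

end Pbw

end Pool.Agent.KLS

end

section

/-!
# MP_e487d8_al, block SPAN: the root lattice, affine actions of the Weyl group, reduced words

`A` is a symmetric generalized Cartan matrix on `I`; the root lattice is `I →₀ ℤ`.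
-/

set_option autoImplicit false

namespace Pool.Agent.Work.MP_e487d8_al.Span

variable {I : Type*}

/-- symmetric generalized Cartan matrix -/
structure SymGCM (A : I → I → ℤ) : Prop where
  diag : ∀ i, A i i = 2
  symm : ∀ i j, A i j = A j i
  off : ∀ i j, i ≠ j → A i j ≤ 0

/-- `(α_i, β)` -/
noncomputable def pair (A : I → I → ℤ) (i : I) (β : I →₀ ℤ) : ℤ := β.sum fun j n => n * A i j

/-- `(δ, β)` -/
noncomputable def bil (A : I → I → ℤ) (δ β : I →₀ ℤ) : ℤ := δ.sum fun j n => n * pair A j β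

/-- `(Λ, β)` for a dominant weight given by its values on the coroots -/
noncomputable def lam (Λ : I → ℤ) (β : I →₀ ℤ) : ℤ := β.sum fun j n => n * Λ j

/-- simple root -/
noncomputable def al (i : I) : I →₀ ℤ := Finsupp.single i 1

/-- the simple reflection on the root lattice -/
noncomputable def sr (A : I → I → ℤ) (i : I) (β : I →₀ ℤ) : I →₀ ℤ := β - pair A i β • al i

/-- the simple reflection on `Λ - Q`, written on `β` -/
noncomputable def sL (A : I → I → ℤ) (Λ : I → ℤ) (i : I) (β : I →₀ ℤ) : I →₀ ℤ :=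
  β + (Λ i - pair A i β) • al i

/-- the product of the simple reflections of a word -/
noncomputable def act (A : I → I → ℤ) : List I → (I →₀ ℤ) → (I →₀ ℤ)
  | [], β => β
  | i :: w, β => sr A i (act A w β)

/-- the same for the action on `Λ - Q` -/
noncomputable def aff (A : I → I → ℤ) (Λ : I → ℤ) : List I → (I →₀ ℤ) → (I →₀ ℤ)
  | [], β => β
  | i :: w, β => sL A Λ i (aff A Λ w β)

/-- reduced word: no shorter word has the same product of simple reflections -/
def Reduced (A : I → I → ℤ) (w : List I) : Prop :=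
  ∀ w' : List I, (∀ β, act A w' β = act A w β) → w.length ≤ w'.length

section lin

variable (A : I → I → ℤ) (Λ : I → ℤ)

theorem pair_add (i : I) (β γ : I →₀ ℤ) : pair A i (β + γ) = pair A i β + pair A i γ := by
  unfold pair
  rw [Finsupp.sum_add_index' (fun _ => by ring) (fun _ _ _ => by ring)]

theorem pair_smul (i : I) (c : ℤ) (β : I →₀ ℤ) : pair A i (c • β) = c * pair A i β := by
  unfold pair
  rw [Finsupp.sum_smul_index' (fun _ => by ring), Finsupp.mul_sum]
  apply Finsupp.sum_congr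
  intro j _
  rw [smul_eq_mul]; ring

theorem pair_zero (i : I) : pair A i 0 = 0 := by simp [pair]

theorem pair_al (i j : I) : pair A i (al j) = A i j := by
  simp [pair, al]

theorem lam_add (β γ : I →₀ ℤ) : lam Λ (β + γ) = lam Λ β + lam Λ γ := by
  unfold lam
  rw [Finsupp.sum_add_index' (fun _ => by ring) (fun _ _ _ => by ring)]

theorem lam_smul (c : ℤ) (β : I →₀ ℤ) : lam Λ (c • β) = c * lam Λ β := by
  unfold lam
  rw [Finsupp.sum_smul_index' (fun _ => by ring), Finsupp.mul_sum]
  apply Finsupp.sum_congr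
  intro j _
  rw [smul_eq_mul]; ring

theorem lam_zero : lam Λ 0 = 0 := by simp [lam]

theorem lam_al (i : I) : lam Λ (al i) = Λ i := by simp [lam, al]

theorem bil_add_left (δ δ' β : I →₀ ℤ) : bil A (δ + δ') β = bil A δ β + bil A δ' β := by
  unfold bil
  rw [Finsupp.sum_add_index' (fun _ => by ring) (fun _ _ _ => by ring)]

theorem bil_smul_left (c : ℤ) (δ β : I →₀ ℤ) : bil A (c • δ) β = c * bil A δ β := by
  unfold bil
  rw [Finsupp.sum_smul_index' (fun _ => by ring), Finsupp.mul_sum]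
  apply Finsupp.sum_congr
  intro j _
  rw [smul_eq_mul]; ring

theorem bil_zero_left (β : I →₀ ℤ) : bil A 0 β = 0 := by simp [bil]

theorem bil_al_left (i : I) (β : I →₀ ℤ) : bil A (al i) β = pair A i β := by
  simp [bil, al]

variable {A}

theorem bil_symm (hA : SymGCM A) (δ β : I →₀ ℤ) : bil A δ β = bil A β δ := by
  classical
  induction δ using Finsupp.induction_linear with
  | zero =>
    rw [bil_zero_left]
    unfold bil
    simp [pair_zero]
  | add f g hf hg =>
    rw [bil_add_left, hf, hg]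
    unfold bil
    rw [← Finsupp.sum_add]
    apply Finsupp.sum_congr
    intro j _
    rw [pair_add]; ring
  | single i n =>
    have e : (Finsupp.single i n : I →₀ ℤ) = n • al i := by simp [al]
    rw [e, bil_smul_left, bil_al_left]
    unfold bil pair
    rw [Finsupp.mul_sum]
    apply Finsupp.sum_congr
    intro j _
    have : (n • al i).sum (fun k m => m * A j k) = n * A j i := by
      have := pair_smul A j n (al i)
      rw [pair_al] at this
      exact this
    rw [this, hA.symm i j]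
    ring

theorem bil_add_right (hA : SymGCM A) (δ β β' : I →₀ ℤ) :
    bil A δ (β + β') = bil A δ β + bil A δ β' := by
  rw [bil_symm hA, bil_add_left, bil_symm hA β, bil_symm hA β']

theorem bil_smul_right (hA : SymGCM A) (c : ℤ) (δ β : I →₀ ℤ) :
    bil A δ (c • β) = c * bil A δ β := by
  rw [bil_symm hA, bil_smul_left, bil_symm hA β]

theorem bil_al_right (hA : SymGCM A) (i : I) (β : I →₀ ℤ) : bil A β (al i) = pair A i β := by
  rw [bil_symm hA, bil_al_left]

end lin

section act

variable {A : I → I → ℤ} {Λ : I → ℤ}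

theorem sr_add (i : I) (β γ : I →₀ ℤ) : sr A i (β + γ) = sr A i β + sr A i γ := by
  unfold sr
  rw [pair_add, add_smul]
  abel

theorem sr_smul (i : I) (c : ℤ) (β : I →₀ ℤ) : sr A i (c • β) = c • sr A i β := by
  unfold sr
  rw [pair_smul, smul_sub, smul_smul]

theorem act_add (w : List I) (β γ : I →₀ ℤ) : act A w (β + γ) = act A w β + act A w γ := by
  induction w with
  | nil => rfl
  | cons i w ih => simp only [act]; rw [ih, sr_add]

theorem act_smul (w : List I) (c : ℤ) (β : I →₀ ℤ) : act A w (c • β) = c • act A w β := by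
  induction w with
  | nil => rfl
  | cons i w ih => simp only [act]; rw [ih, sr_smul]

theorem act_append (v w : List I) (β : I →₀ ℤ) : act A (v ++ w) β = act A v (act A w β) := by
  induction v with
  | nil => rfl
  | cons i v ih => simp only [List.cons_append, act]; rw [ih]

theorem aff_append (v w : List I) (β : I →₀ ℤ) :
    aff A Λ (v ++ w) β = aff A Λ v (aff A Λ w β) := by
  induction v with
  | nil => rfl
  | cons i v ih => simp only [List.cons_append, aff]; rw [ih]

theorem sL_add (i : I) (β γ : I →₀ ℤ) : sL A Λ i (β + γ) = sL A Λ i β + sr A i γ := by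
  unfold sL sr
  rw [pair_add]
  have : (Λ i - (pair A i β + pair A i γ)) • al i =
      (Λ i - pair A i β) • al i - pair A i γ • al i := by
    rw [← sub_smul]; congr 1; ring
  rw [this]
  abel

theorem aff_add (w : List I) (β γ : I →₀ ℤ) : aff A Λ w (β + γ) = aff A Λ w β + act A w γ := by
  induction w with
  | nil => rfl
  | cons i w ih => simp only [aff, act]; rw [ih, sL_add]

theorem sr_sr (hA : SymGCM A) (i : I) (β : I →₀ ℤ) : sr A i (sr A i β) = β := by
  have h : pair A i (sr A i β) = - pair A i β := by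
    unfold sr
    rw [sub_eq_add_neg, pair_add, ← neg_smul, pair_smul, pair_al, hA.diag]
    ring
  unfold sr at h ⊢
  rw [h]
  rw [neg_smul]
  abel

theorem sL_sL (hA : SymGCM A) (i : I) (β : I →₀ ℤ) : sL A Λ i (sL A Λ i β) = β := by
  have h : Λ i - pair A i (sL A Λ i β) = - (Λ i - pair A i β) := by
    unfold sL
    rw [pair_add, pair_smul, pair_al, hA.diag]
    ring
  have e : sL A Λ i (sL A Λ i β) =
      sL A Λ i β + (Λ i - pair A i (sL A Λ i β)) • al i := rfl
  rw [e, h]
  unfold sL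
  rw [neg_smul]
  abel

theorem act_reverse (hA : SymGCM A) (w : List I) (β : I →₀ ℤ) :
    act A w.reverse (act A w β) = β := by
  induction w generalizing β with
  | nil => rfl
  | cons i w ih =>
    rw [List.reverse_cons, act_append]
    simp only [act]
    rw [sr_sr hA, ih]

theorem act_reverse' (hA : SymGCM A) (w : List I) (β : I →₀ ℤ) :
    act A w (act A w.reverse β) = β := by
  have := act_reverse hA w.reverse β
  rwa [List.reverse_reverse] at this

theorem aff_reverse (hA : SymGCM A) (w : List I) (β : I →₀ ℤ) :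
    aff A Λ w.reverse (aff A Λ w β) = β := by
  induction w generalizing β with
  | nil => rfl
  | cons i w ih =>
    rw [List.reverse_cons, aff_append]
    simp only [aff]
    rw [sL_sL hA, ih]

theorem aff_reverse' (hA : SymGCM A) (w : List I) (β : I →₀ ℤ) :
    aff A Λ w (aff A Λ w.reverse β) = β := by
  have := aff_reverse (Λ := Λ) hA w.reverse β
  rwa [List.reverse_reverse] at this

/-- `⟨δ, Λ - β⟩` -/
noncomputable def HH (A : I → I → ℤ) (Λ : I → ℤ) (δ β : I →₀ ℤ) : ℤ := lam Λ δ - bil A δ β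

theorem sr_eq (i : I) (β : I →₀ ℤ) : sr A i β = β + (- pair A i β) • al i := by
  unfold sr
  rw [neg_smul, sub_eq_add_neg]

theorem HH_step (hA : SymGCM A) (i : I) (δ β : I →₀ ℤ) :
    HH A Λ (sr A i δ) (sL A Λ i β) = HH A Λ δ β := by
  rw [sr_eq]
  unfold HH sL
  rw [lam_add, lam_smul, lam_al, bil_add_left, bil_smul_left,
    bil_add_right hA, bil_add_right hA, bil_smul_right hA, bil_smul_right hA, bil_al_right hA,
    bil_al_left, bil_al_left, pair_al, hA.diag]
  ring

theorem HH_word (hA : SymGCM A) (w : List I) (δ β : I →₀ ℤ) :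
    HH A Λ (act A w δ) (aff A Λ w β) = HH A Λ δ β := by
  induction w with
  | nil => rfl
  | cons i w ih => simp only [act, aff]; rw [HH_step hA, ih]

theorem bil_step (hA : SymGCM A) (i : I) (δ β : I →₀ ℤ) :
    bil A (sr A i δ) (sr A i β) = bil A δ β := by
  unfold sr
  rw [sub_eq_add_neg, ← neg_smul, sub_eq_add_neg, ← neg_smul, bil_add_left, bil_smul_left,
    bil_add_right hA, bil_add_right hA, bil_smul_right hA, bil_smul_right hA, bil_al_right hA,
    bil_al_right hA, bil_al_left, pair_al, hA.diag]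
  ring

theorem bil_word (hA : SymGCM A) (w : List I) (δ β : I →₀ ℤ) :
    bil A (act A w δ) (act A w β) = bil A δ β := by
  induction w with
  | nil => rfl
  | cons i w ih => simp only [act]; rw [bil_step hA, ih]

/-- the value of the affine action of a reflection at `0` -/
theorem aff_refl (hA : SymGCM A) (v : List I) (i : I) :
    aff A Λ (v ++ i :: v.reverse) 0 = lam Λ (act A v (al i)) • act A v (al i) := by
  rw [aff_append]
  simp only [aff]
  set b := aff A Λ v.reverse 0 with hb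
  have h1 : aff A Λ v b = 0 := by rw [hb]; exact aff_reverse' hA v 0
  have h2 : sL A Λ i b = b + (Λ i - pair A i b) • al i := rfl
  rw [h2, aff_add, h1, zero_add, act_smul]
  congr 1
  have h3 := HH_word (Λ := Λ) hA v (al i) b
  rw [h1] at h3
  unfold HH at h3
  rw [lam_al, bil_al_left] at h3
  have h4 : bil A (act A v (al i)) 0 = 0 := by
    rw [bil_symm hA, bil_zero_left]
  rw [h4] at h3
  linarith

/-- `g β = (β, β) - 2 (Λ, β)` -/
noncomputable def gg (A : I → I → ℤ) (Λ : I → ℤ) (β : I →₀ ℤ) : ℤ := bil A β β - 2 * lam Λ β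

theorem gg_sL (hA : SymGCM A) (i : I) (β : I →₀ ℤ) : gg A Λ (sL A Λ i β) = gg A Λ β := by
  unfold gg sL
  rw [lam_add, lam_smul, lam_al, bil_add_left, bil_smul_left, bil_add_right hA,
    bil_add_right hA, bil_smul_right hA, bil_smul_right hA, bil_al_right hA, bil_al_left,
    bil_al_right hA, pair_al, hA.diag]
  ring

theorem gg_aff (hA : SymGCM A) (w : List I) (β : I →₀ ℤ) :
    gg A Λ (aff A Λ w β) = gg A Λ β := by
  induction w with
  | nil => rfl
  | cons i w ih => simp only [aff]; rw [gg_sL hA, ih]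

theorem gg_sub_al (hA : SymGCM A) (i : I) (β : I →₀ ℤ) :
    gg A Λ (β - al i) = gg A Λ β + 2 * (Λ i - pair A i β) + 2 := by
  unfold gg
  have e : β - al i = β + (-1 : ℤ) • al i := by rw [neg_smul, one_smul]; abel
  rw [e, lam_add, lam_smul, lam_al, bil_add_left, bil_smul_left, bil_add_right hA,
    bil_add_right hA, bil_smul_right hA, bil_smul_right hA, bil_al_right hA, bil_al_left,
    bil_al_right hA, pair_al, hA.diag]
  ring

end act

section exch

variable {A : I → I → ℤ}

/-- sign coherence of real roots -/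
def Sign (A : I → I → ℤ) : Prop :=
  ∀ (v : List I) (i : I), 0 ≤ act A v (al i) ∨ act A v (al i) ≤ 0

theorem refl_conj (hA : SymGCM A) (v : List I) (i j : I) (h : act A v (al i) = al j)
    (β : I →₀ ℤ) : act A v (sr A i (act A v.reverse β)) = sr A j β := by
  have h1 : sr A i (act A v.reverse β) =
      act A v.reverse β + (- pair A i (act A v.reverse β)) • al i := by
    unfold sr
    rw [neg_smul]; abel
  rw [h1, act_add, act_smul, act_reverse' hA, h]
  have h2 : pair A i (act A v.reverse β) = pair A j β := by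
    have := bil_word hA v (al i) (act A v.reverse β)
    rw [act_reverse' hA, h, bil_al_left, bil_al_left] at this
    exact this.symm
  rw [h2]
  unfold sr
  rw [neg_smul]; abel

theorem nonneg_al (i : I) : 0 ≤ al i := by
  intro j
  unfold al
  simp only [Finsupp.coe_zero, Pi.zero_apply]
  classical
  rw [Finsupp.single_apply]
  split_ifs <;> norm_num

theorem root_simple (hA : SymGCM A) (v : List I) (i j : I) (h0 : 0 ≤ act A v (al i))
    (h1 : sr A j (act A v (al i)) ≤ 0) : act A v (al i) = al j := by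
  classical
  set γ := act A v (al i) with hγ
  have h2 : γ = γ j • al j := by
    ext m
    by_cases hm : m = j
    · subst hm
      simp [al]
    · have e1 : (sr A j γ) m = γ m := by
        unfold sr al
        simp [Ne.symm hm]
      have e2 : (sr A j γ) m ≤ 0 := h1 m
      have e3 : 0 ≤ γ m := h0 m
      have e4 : γ m = 0 := by rw [e1] at e2; exact le_antisymm e2 e3
      rw [e4]
      simp [al, Ne.symm hm]
  have h3 : bil A γ γ = 2 := by
    rw [hγ, bil_word hA, bil_al_left, pair_al, hA.diag]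
  rw [h2, bil_smul_left, bil_smul_right hA, bil_al_left, pair_al, hA.diag] at h3
  have h4 : γ j * γ j = 1 := by linarith
  have h5 : 0 ≤ γ j := h0 j
  have h6 : γ j = 1 := by nlinarith
  rw [h2, h6, one_smul]

theorem exch_aux (hA : SymGCM A) (hS : Sign A) (i : I) (u : List I)
    (hu : ¬ 0 ≤ act A u.reverse (al i)) :
    ∃ (p : List I) (j : I) (q : List I), u = p ++ j :: q ∧ act A p.reverse (al i) = al j := by
  induction u using List.reverseRecOn with
  | nil => exact absurd (nonneg_al i) hu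
  | append_singleton u j ih =>
    by_cases h : 0 ≤ act A u.reverse (al i)
    · refine ⟨u, j, [], rfl, ?_⟩
      rw [List.reverse_append] at hu
      simp only [List.reverse_cons, List.reverse_nil, List.nil_append, List.singleton_append,
        act] at hu
      have h2 : sr A j (act A u.reverse (al i)) ≤ 0 := by
        rcases hS (j :: u.reverse) i with h3 | h3
        · exact absurd h3 hu
        · exact h3
      exact root_simple hA u.reverse i j h h2
    · obtain ⟨p, j', q, hq, hp⟩ := ih h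
      refine ⟨p, j', q ++ [j], ?_, hp⟩
      rw [hq]
      simp

theorem reduced_pos (hA : SymGCM A) (hS : Sign A) (i : I) (u : List I)
    (hr : Reduced A (i :: u)) : 0 ≤ act A u.reverse (al i) := by
  by_contra hu
  obtain ⟨p, j, q, rfl, hp⟩ := exch_aux hA hS i u hu
  have key : ∀ β, act A (p ++ q) β = act A (i :: (p ++ j :: q)) β := by
    intro β
    have h1 := refl_conj hA p.reverse i j hp (act A q β)
    rw [List.reverse_reverse] at h1
    simp only [act]
    rw [act_append, act_append]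
    simp only [act]
    rw [← h1, act_reverse' hA, sr_sr hA]
  have := hr _ key
  simp at this

theorem reduced_tail {i : I} {u : List I} (hr : Reduced A (i :: u)) : Reduced A u := by
  intro w' h
  have := hr (i :: w') (fun β => by simp only [act]; rw [h])
  simpa using this

theorem reduced_prefix {u v : List I} (hr : Reduced A (u ++ v)) : Reduced A u := by
  intro w' h
  have := hr (w' ++ v) (fun β => by rw [act_append, act_append, h])
  simpa using this

end exch

end Pool.Agent.Work.MP_e487d8_al.Span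

end

section

/-!
# MP_e487d8_al, block SPAN: existence of simples with triangular strings for reduced words

`CrysData` lists the facts on simple modules which are used.
-/

set_option autoImplicit false

namespace Pool.Agent.Work.MP_e487d8_al.Span

variable {I : Type*}

/-- the facts on simple modules (up to shift) which are needed -/
structure CrysData (I : Type*) (A : I → I → ℤ) where
  S : Type*
  one : S
  wt : S → I →₀ ℤ
  eps : I → S → ℕ
  epss : I → S → ℕ
  f : I → S → S
  e : I → S → S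
  wt_one : wt one = 0
  wt_nonneg : ∀ M, 0 ≤ wt M
  epss_one : ∀ i, epss i one = 0
  wt_f : ∀ i M, wt (f i M) = wt M + al i
  f_e : ∀ i M, 0 < eps i M → f i (e i M) = M
  eps_f : ∀ i M, eps i (f i M) = eps i M + 1
  e_f : ∀ i M, e i (f i M) = M
  epss_f : ∀ i M, epss i (f i M) ≤ epss i M + 1
  epss_f_ne : ∀ i j M, i ≠ j → epss j (f i M) ≤ epss j M
  epss_e : ∀ i j M, 0 < eps i M → epss j (e i M) ≤ epss j M
  d_nonneg : ∀ i M, pair A i (wt M) ≤ (eps i M : ℤ) + epss i M
  epss_f_lt : ∀ i M, pair A i (wt M) < (eps i M : ℤ) + epss i M → epss i (f i M) ≤ epss i M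

namespace CrysData

variable {A : I → I → ℤ} (D : CrysData I A)

/-- `e_i^max` -/
def emax (i : I) (M : D.S) : D.S := (D.e i)^[D.eps i M] M

/-- the string of `M` along the word `w` -/
def str : List I → D.S → List ℕ
  | [], _ => []
  | i :: w, M => D.eps i M :: str w (D.emax i M)

/-- `M` is adapted to the word `w` -/
def Adapted : List I → D.S → Prop
  | [], M => M = D.one
  | i :: w, M => Adapted w (D.emax i M)

/-- the crystal `B(Λ)` -/
def BL (Λ : I → ℤ) (M : D.S) : Prop := ∀ j, (D.epss j M : ℤ) ≤ Λ j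

variable {D}

theorem BL_f {Λ : I → ℤ} {M : D.S} (i : I) (h : D.BL Λ M)
    (hp : 0 < (D.eps i M : ℤ) + Λ i - pair A i (D.wt M)) : D.BL Λ (D.f i M) := by
  intro j
  by_cases hj : i = j
  · subst hj
    by_cases hd : pair A i (D.wt M) < (D.eps i M : ℤ) + D.epss i M
    · have := D.epss_f_lt i M hd
      have h2 := h i
      have : (D.epss i (D.f i M) : ℤ) ≤ D.epss i M := by exact_mod_cast this
      linarith
    · have h1 := D.epss_f i M
      have h1' : (D.epss i (D.f i M) : ℤ) ≤ D.epss i M + 1 := by exact_mod_cast h1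
      push Not at hd
      linarith
  · have h1 := D.epss_f_ne i j M hj
    have h1' : (D.epss j (D.f i M) : ℤ) ≤ D.epss j M := by exact_mod_cast h1
    exact le_trans h1' (h j)

theorem BL_e {Λ : I → ℤ} {M : D.S} (i : I) (h : D.BL Λ M) (hp : 0 < D.eps i M) :
    D.BL Λ (D.e i M) := by
  intro j
  have h1 := D.epss_e i j M hp
  have h1' : (D.epss j (D.e i M) : ℤ) ≤ D.epss j M := by exact_mod_cast h1
  exact le_trans h1' (h j)

theorem phi_nonneg {Λ : I → ℤ} {M : D.S} (i : I) (h : D.BL Λ M) :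
    0 ≤ (D.eps i M : ℤ) + Λ i - pair A i (D.wt M) := by
  have h1 := D.d_nonneg i M
  have h2 := h i
  linarith

/-- iterating `f_i` -/
theorem BL_f_iter (hA : SymGCM A) {Λ : I → ℤ} (i : I) (n : ℕ) :
    ∀ {M : D.S}, D.BL Λ M → (n : ℤ) ≤ (D.eps i M : ℤ) + Λ i - pair A i (D.wt M) →
      D.BL Λ ((D.f i)^[n] M) ∧ D.wt ((D.f i)^[n] M) = D.wt M + (n : ℤ) • al i := by
  induction n with
  | zero =>
    intro M h _
    refine ⟨h, ?_⟩
    simp
  | succ n ih =>
    intro M h hn
    have h0 : 0 < (D.eps i M : ℤ) + Λ i - pair A i (D.wt M) := by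
      push_cast at hn
      have : (0 : ℤ) ≤ n := Int.natCast_nonneg n
      linarith
    have h1 := BL_f i h h0
    have h2 : (n : ℤ) ≤ (D.eps i (D.f i M) : ℤ) + Λ i - pair A i (D.wt (D.f i M)) := by
      rw [D.eps_f, D.wt_f, pair_add, pair_al, hA.diag]
      push_cast at hn ⊢
      linarith
    obtain ⟨h3, h4⟩ := ih h1 h2
    rw [Function.iterate_succ_apply]
    refine ⟨h3, ?_⟩
    rw [h4, D.wt_f]
    push_cast
    rw [add_smul, one_smul]
    abel

theorem eps_f_iter (i : I) (n : ℕ) (M : D.S) : D.eps i ((D.f i)^[n] M) = D.eps i M + n := by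
  induction n generalizing M with
  | zero => rfl
  | succ n ih =>
    rw [Function.iterate_succ_apply, ih, D.eps_f]
    ring

theorem e_f_iter (i : I) (n : ℕ) (M : D.S) : (D.e i)^[n] ((D.f i)^[n] M) = M := by
  induction n generalizing M with
  | zero => rfl
  | succ n ih =>
    rw [Function.iterate_succ_apply, Function.iterate_succ_apply', D.e_f, ih]

theorem wt_e (i : I) (M : D.S) (h : 0 < D.eps i M) : D.wt (D.e i M) = D.wt M - al i := by
  have h1 := D.wt_f i (D.e i M)
  rw [D.f_e i M h] at h1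
  rw [h1]; abel

theorem eps_e (i : I) (M : D.S) (h : 0 < D.eps i M) : D.eps i (D.e i M) + 1 = D.eps i M := by
  have h1 := D.eps_f i (D.e i M)
  rw [D.f_e i M h] at h1
  exact h1.symm

/-- iterating `e_i` -/
theorem BL_e_iter {Λ : I → ℤ} (i : I) (n : ℕ) :
    ∀ {M : D.S}, D.BL Λ M → n ≤ D.eps i M →
      D.BL Λ ((D.e i)^[n] M) ∧ D.wt ((D.e i)^[n] M) = D.wt M - (n : ℤ) • al i := by
  induction n with
  | zero =>
    intro M h _
    refine ⟨h, ?_⟩
    simp
  | succ n ih =>
    intro M h hn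
    have h0 : 0 < D.eps i M := by omega
    have h1 := BL_e i h h0
    have h2 := eps_e i M h0
    obtain ⟨h3, h4⟩ := ih h1 (by omega)
    rw [Function.iterate_succ_apply]
    refine ⟨h3, ?_⟩
    rw [h4, wt_e i M h0]
    push_cast
    rw [add_smul, one_smul]
    abel

/-- the weights of `B(Λ)` -/
def WtL (D : CrysData I A) (Λ : I → ℤ) (β : I →₀ ℤ) : Prop := ∃ M : D.S, D.BL Λ M ∧ D.wt M = β

theorem WtL_sL (hA : SymGCM A) {Λ : I → ℤ} {β : I →₀ ℤ} (i : I) (h : WtL D Λ β) :
    WtL D Λ (sL A Λ i β) := by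
  obtain ⟨M, hM, rfl⟩ := h
  rcases le_total 0 (Λ i - pair A i (D.wt M)) with h0 | h0
  · obtain ⟨n, hn⟩ := Int.eq_ofNat_of_zero_le h0
    obtain ⟨h1, h2⟩ := BL_f_iter hA i n hM (by
      have : (0 : ℤ) ≤ D.eps i M := Int.natCast_nonneg _
      linarith)
    refine ⟨_, h1, ?_⟩
    rw [h2]
    unfold sL
    rw [hn]
  · have h0' : 0 ≤ -(Λ i - pair A i (D.wt M)) := by linarith
    obtain ⟨n, hn⟩ := Int.eq_ofNat_of_zero_le h0'
    have hp := phi_nonneg i hM
    have hn' : n ≤ D.eps i M := by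
      have : (n : ℤ) ≤ D.eps i M := by linarith
      exact_mod_cast this
    obtain ⟨h1, h2⟩ := BL_e_iter i n hM hn'
    refine ⟨_, h1, ?_⟩
    rw [h2]
    unfold sL
    have : Λ i - pair A i (D.wt M) = -(n : ℤ) := by linarith
    rw [this, neg_smul, sub_eq_add_neg]

theorem WtL_zero {Λ : I → ℤ} (hΛ : ∀ j, 0 ≤ Λ j) : WtL D Λ 0 := by
  refine ⟨D.one, fun j => ?_, D.wt_one⟩
  rw [D.epss_one]
  exact_mod_cast hΛ j

theorem WtL_aff (hA : SymGCM A) {Λ : I → ℤ} (hΛ : ∀ j, 0 ≤ Λ j) (w : List I) :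
    WtL D Λ (aff A Λ w 0) := by
  induction w with
  | nil => exact WtL_zero hΛ
  | cons i w ih => exact WtL_sL hA i ih

theorem WtL_nonneg {Λ : I → ℤ} {β : I →₀ ℤ} (h : WtL D Λ β) : 0 ≤ β := by
  obtain ⟨M, _, rfl⟩ := h
  exact D.wt_nonneg M

/-- sign coherence of real roots -/
theorem sign (D : CrysData I A) (hA : SymGCM A) : Sign A := by
  classical
  intro v i
  set γ := act A v (al i) with hγ
  by_cases h : ∃ j, 0 < γ j
  · left
    obtain ⟨j, hj⟩ := h
    set Λ : I → ℤ := fun k => if k = j then 1 else 0 with hΛ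
    have h0 : ∀ k, 0 ≤ Λ k := by intro k; rw [hΛ]; simp only; split_ifs <;> norm_num
    have h1 := WtL_nonneg (WtL_aff (D := D) hA h0 (v ++ i :: v.reverse))
    rw [aff_refl hA, ← hγ] at h1
    have h2 : lam Λ γ = γ j := by
      unfold lam
      rw [hΛ]
      simp only [mul_ite, mul_one, mul_zero]
      rw [Finsupp.sum_ite_eq']
      split_ifs with h3
      · rfl
      · exact (Finsupp.notMem_support_iff.1 h3).symm
    rw [h2] at h1
    intro k
    have h3 := h1 k
    simp only [Finsupp.coe_zero, Pi.zero_apply, Finsupp.coe_smul, Pi.smul_apply,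
      smul_eq_mul] at h3 ⊢
    exact nonneg_of_mul_nonneg_right h3 hj
  · right
    push Not at h
    intro k
    exact h k

/-- the height -/
noncomputable def ht (β : I →₀ ℤ) : ℤ := lam (fun _ => 1) β

theorem lam_nonneg {Λ : I → ℤ} {β : I →₀ ℤ} (hΛ : ∀ j, 0 ≤ Λ j) (hβ : 0 ≤ β) : 0 ≤ lam Λ β := by
  unfold lam
  apply Finset.sum_nonneg
  intro j _
  exact mul_nonneg (hβ j) (hΛ j)

theorem gg_nonpos (hA : SymGCM A) {Λ : I → ℤ} (hΛ : ∀ j, 0 ≤ Λ j) :
    ∀ (n : ℕ) (β : I →₀ ℤ), ht β ≤ n → WtL D Λ β → gg A Λ β ≤ 0 := by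
  intro n
  induction n using Nat.strong_induction_on with
  | _ n ih =>
    intro β hn hβ
    by_cases h : ∀ i, 0 ≤ Λ i - pair A i β
    · have hb := WtL_nonneg hβ
      have e : gg A Λ β = -(β.sum fun j m => m * (Λ j - pair A j β)) - lam Λ β := by
        unfold gg bil lam
        simp only [Finsupp.sum, ← Finset.sum_neg_distrib, Finset.mul_sum, ← Finset.sum_sub_distrib]
        apply Finset.sum_congr rfl
        intro j _
        ring
      have h1 := lam_nonneg hΛ hb
      have h2 : 0 ≤ β.sum fun j m => m * (Λ j - pair A j β) := by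
        apply Finset.sum_nonneg
        intro j _
        exact mul_nonneg (hb j) (h j)
      rw [e]; linarith
    · push Not at h
      obtain ⟨i, hi⟩ := h
      rw [← gg_sL hA i β]
      have hw := WtL_sL hA i hβ
      have hht : ht (sL A Λ i β) = ht β + (Λ i - pair A i β) := by
        unfold ht sL
        rw [lam_add, lam_smul, lam_al]
        ring
      have hpos : 0 ≤ ht (sL A Λ i β) := lam_nonneg (fun _ => by norm_num) (WtL_nonneg hw)
      have hn0 : 0 < n := by
        rcases Nat.eq_zero_or_pos n with h0 | h0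
        · subst h0
          exfalso
          rw [hht] at hpos
          push_cast at hn
          linarith
        · exact h0
      apply ih (n - 1) (by omega) _ _ hw
      rw [hht]
      push_cast [Nat.cast_sub hn0]
      linarith

theorem gg_nonpos' (hA : SymGCM A) {Λ : I → ℤ} (hΛ : ∀ j, 0 ≤ Λ j) {β : I →₀ ℤ}
    (h : WtL D Λ β) : gg A Λ β ≤ 0 := by
  have hpos : 0 ≤ ht β := lam_nonneg (fun _ => by norm_num) (WtL_nonneg h)
  obtain ⟨n, hn⟩ := Int.eq_ofNat_of_zero_le hpos
  exact gg_nonpos hA hΛ n β (by rw [hn]) h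

/-- the extremal simples -/
theorem extremal (hA : SymGCM A) : ∀ (w : List I), Reduced A w →
    ∃ M : D.S, D.BL (fun _ => 1) M ∧ D.wt M = aff A (fun _ => 1) w 0 ∧
      ∀ w' : List I, ∃ l : List ℕ, l.length = w.length ∧
        D.str (w ++ w') M = l ++ D.str w' D.one ∧
        (w ≠ [] → l.getLast? = some 1) ∧ (D.Adapted (w ++ w') M ↔ D.Adapted w' D.one) := by
  have hΛ : ∀ j : I, (0 : ℤ) ≤ (fun _ : I => (1 : ℤ)) j := fun _ => by norm_num
  have hS := sign D hA
  intro w
  induction w with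
  | nil =>
    intro _
    refine ⟨D.one, fun j => ?_, D.wt_one, fun w' => ⟨[], rfl, rfl, fun h => absurd rfl h, Iff.rfl⟩⟩
    rw [D.epss_one]
    norm_num
  | cons i u ih =>
    intro hr
    obtain ⟨M, hM1, hM2, hM3⟩ := ih (reduced_tail hr)
    set Λ : I → ℤ := fun _ => 1 with hΛd
    have hpos := reduced_pos hA hS i u hr
    have hn : Λ i - pair A i (D.wt M) = lam Λ (act A u.reverse (al i)) := by
      have h1 := HH_word (Λ := Λ) hA u.reverse (al i) (aff A Λ u 0)
      rw [aff_reverse hA] at h1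
      unfold HH at h1
      rw [lam_al, bil_al_left, bil_symm hA _ 0, bil_zero_left] at h1
      rw [hM2]
      linarith
    have hn0 : 0 ≤ Λ i - pair A i (D.wt M) := by
      rw [hn]
      exact lam_nonneg hΛ hpos
    obtain ⟨n, hn'⟩ := Int.eq_ofNat_of_zero_le hn0
    -- `eps_i M = 0`
    have heps : D.eps i M = 0 := by
      by_contra h0
      have h0' : 0 < D.eps i M := Nat.pos_of_ne_zero h0
      have h1 : WtL D Λ (D.wt M - al i) := ⟨D.e i M, BL_e i hM1 h0', wt_e i M h0'⟩
      have h2 := gg_nonpos' hA hΛ h1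
      rw [gg_sub_al hA, hM2, gg_aff hA] at h2
      have h3 : gg A Λ 0 = 0 := by
        unfold gg
        rw [bil_zero_left, lam_zero]
        ring
      rw [h3, ← hM2] at h2
      linarith
    obtain ⟨h1, h2⟩ := BL_f_iter hA i n hM1 (by rw [heps]; push_cast; linarith)
    have he : D.eps i ((D.f i)^[n] M) = n := by rw [eps_f_iter, heps]; ring
    have hem : D.emax i ((D.f i)^[n] M) = M := by
      unfold CrysData.emax
      rw [he, e_f_iter]
    refine ⟨(D.f i)^[n] M, h1, ?_, fun w' => ?_⟩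
    · rw [h2, ← hn']
      simp only [aff]
      rw [← hM2]
      rfl
    · obtain ⟨l, hl1, hl2, hl3, hl4⟩ := hM3 w'
      refine ⟨n :: l, by simp [hl1], ?_, ?_, ?_⟩
      · simp only [List.cons_append, CrysData.str]
        rw [he, hem, hl2]
      · intro _
        by_cases hu : u = []
        · subst hu
          have hl0 : l = [] := List.length_eq_zero_iff.1 (by simpa using hl1)
          subst hl0
          have h5 : D.wt M = 0 := by rw [hM2]; rfl
          rw [h5, pair_zero] at hn'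
          have h6 : n = 1 := by
            have : (n : ℤ) = 1 := by rw [← hn', hΛd]; norm_num
            exact_mod_cast this
          simp [h6]
        · have h5 := hl3 hu
          have hl0 : l ≠ [] := by
            intro h6; rw [h6] at h5; simp at h5
          obtain ⟨b, l', rfl⟩ := List.exists_cons_of_ne_nil hl0
          rw [List.getLast?_cons_cons]
          exact h5
      · simp only [List.cons_append, CrysData.Adapted]
        rw [hem]
        exact hl4

end CrysData

end Pool.Agent.Work.MP_e487d8_al.Span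

end

section

/-! MP_e487d8_al: graded modules, adapted modules, stably irreducible families.

All modules are finite dimensional graded modules over the KLR algebra (quiver Hecke algebra) of a
symmetrisable generalised Cartan matrix. -/

set_option autoImplicit false

namespace Pool.Agent.KLS

variable {K I : Type} [Field K] [Fintype I] [DecidableEq I]

/-- A finite dimensional graded module over `R(n) = ⊕_{|β| = n} R(β)`. The idempotents `e(ν)` have
degree `0`, the dot `x_k` on a strand of colour `i` has degree `(α_i, α_i) = 2 d i` and the crossing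
`t_k` of a strand of colour `i` and a strand of colour `j` has degree `-(α_i, α_j)`. -/
structure GMod (D : Datum K I) : Type 1 where
  /-- the number of strands -/
  n : ℕ
  M : Type
  [acg : AddCommGroup M]
  [modK : Module K M]
  [modR : Module (KLRAlg D) M]
  [tow : IsScalarTower K (KLRAlg D) M]
  strand : IsStrand D n M
  fd : FiniteDimensional K M
  /-- the homogeneous vectors of degree `d` -/
  gr : ℤ → Submodule K M
  internal : DirectSum.IsInternal gr
  e_mem : ∀ k i d u, u ∈ gr d → D.e k i • u ∈ gr d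
  x_mem : ∀ k i d u, u ∈ gr d → D.x k • D.e k i • u ∈ gr (d + 2 * D.d i)
  t_mem : ∀ k i j d u, u ∈ gr d → D.t k • D.e k i • D.e (k + 1) j • u ∈ gr (d - D.d i * D.A i j)

attribute [instance] GMod.acg GMod.modK GMod.modR GMod.tow

namespace GMod

variable {D : Datum K I}

/-- a graded submodule: it is generated by homogeneous vectors -/
def IsGraded (X : GMod D) (N : Submodule (KLRAlg D) X.M) : Prop :=
  N ≤ Submodule.span (KLRAlg D) {v | v ∈ N ∧ ∃ d, v ∈ X.gr d}

/-- irreducible graded module -/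
structure Irr (X : GMod D) : Prop where
  nontrivial : Nontrivial X.M
  simple : ∀ N : Submodule (KLRAlg D) X.M, X.IsGraded N → N = ⊥ ∨ N = ⊤

/-- isomorphic up to a shift of the grading -/
def ShiftIso (X Y : GMod D) : Prop :=
  ∃ (s : ℤ) (f : X.M ≃ₗ[KLRAlg D] Y.M), ∀ d u, u ∈ X.gr d → f u ∈ Y.gr (d + s)

/-- `Z` is isomorphic up to a shift of the grading to the convolution product `X ∘ Y`, in which
the class of `u ⊗ v` has the degree `deg u + deg v` -/
def IsConv (X Y Z : GMod D) : Prop :=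
  ∃ (s : ℤ) (f : Conv D X.n X.M Y.M ≃ₗ[KLRAlg D] Z.M), ∀ a b u v, u ∈ X.gr a → v ∈ Y.gr b →
    f (Conv.mk D X.n X.M Y.M u v) ∈ Z.gr (a + b + s)

end GMod

/-- the word `i_1^{a_1} i_2^{a_2} ... i_m^{a_m}` -/
def powWord {I : Type} : List I → List ℕ → List I
  | i :: w, a :: as => List.replicate a i ++ powWord w as
  | _, _ => []

variable {D : Datum K I}

/-- `X` is adapted to the word `w = i_1 i_2 ... i_m`: the Feigin homomorphism
`Ψ_w(f) = ∑_a f(θ_{i_1}^{(a_1)} ⋯ θ_{i_m}^{(a_m)}) t_1^{a_1} ⋯ t_m^{a_m}` does not kill the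
character of `X`, that is, `e(i_1^{a_1} ⋯ i_m^{a_m}) X ≠ 0` for some `a_1, ..., a_m` -/
def GMod.Adapted (w : List I) (X : GMod D) : Prop :=
  ∃ a : List ℕ, a.length = w.length ∧ (powWord w a).length = X.n ∧
    ∃ u : X.M, D.eW (powWord w a) • u ≠ 0

end Pool.Agent.KLS

end
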