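import Pool.Agent.Work.MP_e487d8_al.Bd.B03
import Pool.Agent.Work.MP_e487d8_al.Bd.B04
import Pool.Agent.Work.MP_e487d8_al.Bd.B11
import Pool.Agent.Work.MP_e487d8_al.Y.Mod.Word
import Pool.Agent.Work.MP_e487d8_al.Y.Conv.KZ

/-! Bundle of small proof modules (one section per former module). -/

section

/-! MP_e487d8_al: the mirror endomorphism `D.mir m` of the KLR algebra (reversal of the first `m`
strands, `0` on the other strands). -/

set_option autoImplicit false

namespace Pool.Agent.KLS

variable {K I : Type} [Field K] [Fintype I] [DecidableEq I] (D : Datum K I)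

namespace Datum

/-! ### the idempotents `dl k` -/

theorem e_dl (k l : ℕ) (i : I) : D.e l i * D.dl k = D.dl k * D.e l i := by
  unfold dl
  rw [Finset.mul_sum, Finset.sum_mul]
  refine Finset.sum_congr rfl fun j _ => ?_
  rw [← mul_assoc, D.e_comm l k, mul_assoc, D.e_comm l (k + 1), mul_assoc]

theorem x_dl' (k l : ℕ) : D.x l * D.dl k = D.dl k * D.x l := by
  unfold dl
  rw [Finset.mul_sum, Finset.sum_mul]
  refine Finset.sum_congr rfl fun j _ => ?_
  rw [← mul_assoc, D.x_e, mul_assoc, D.x_e, mul_assoc]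

theorem dl_mul_ee (k : ℕ) (i j : I) : D.dl k * (D.e k i * D.e (k + 1) j) =
    if i = j then D.e k i * D.e (k + 1) j else 0 := by
  unfold dl
  rw [Finset.sum_mul, Finset.sum_eq_single i]
  · rw [mul_assoc, ← mul_assoc (D.e (k + 1) i), D.e_comm (k + 1) k, mul_assoc, ← mul_assoc,
      D.e_idem, D.e_mul_e]
    split_ifs with h
    · rw [h]
    · rw [mul_zero]
  · intro l _ hl
    rw [mul_assoc, ← mul_assoc (D.e (k + 1) l), D.e_comm (k + 1) k, mul_assoc, ← mul_assoc,
      D.e_mul_e_ne k hl, zero_mul]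
  · intro h
    exact absurd (Finset.mem_univ i) h

theorem dl_idem (k : ℕ) : D.dl k * D.dl k = D.dl k := by
  conv_lhs => rw [dl, Finset.mul_sum]
  unfold dl
  refine Finset.sum_congr rfl fun i _ => ?_
  have h := D.dl_mul_ee k i i
  rwa [if_pos rfl] at h

theorem dl_comm (k l : ℕ) : D.dl k * D.dl l = D.dl l * D.dl k := by
  change (∑ i, D.e k i * D.e (k + 1) i) * D.dl l = D.dl l * (∑ i, D.e k i * D.e (k + 1) i)
  rw [Finset.sum_mul, Finset.mul_sum]
  refine Finset.sum_congr rfl fun i _ => ?_
  rw [mul_assoc, D.e_dl l (k + 1), ← mul_assoc, D.e_dl l k, mul_assoc]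

theorem t_dl (k : ℕ) : D.t k * D.dl k = D.dl k * D.t k := by
  unfold dl
  rw [Finset.mul_sum, Finset.sum_mul]
  refine Finset.sum_congr rfl fun j _ => ?_
  rw [← mul_assoc, D.t_e0, mul_assoc, D.t_e1, ← mul_assoc, D.e_comm (k + 1) k]

theorem t_dl_far (k l : ℕ) (h : k + 1 < l ∨ l + 1 < k) : D.t k * D.dl l = D.dl l * D.t k := by
  unfold dl
  rw [Finset.mul_sum, Finset.sum_mul]
  refine Finset.sum_congr rfl fun j _ => ?_
  rw [← mul_assoc, D.t_e k l j (by omega) (by omega), mul_assoc,
    D.t_e k (l + 1) j (by omega) (by omega), mul_assoc]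

/-- the sign `-1` on equal colours -/
noncomputable def sgn (k : ℕ) : KLRAlg D := 1 - 2 * D.dl k

theorem sgn_comm_of {k : ℕ} {a : KLRAlg D} (h : a * D.dl k = D.dl k * a) :
    a * D.sgn k = D.sgn k * a := by
  unfold sgn
  simp only [two_mul, mul_sub, sub_mul, mul_one, one_mul, mul_add, add_mul, h]

theorem sgn_sq (k : ℕ) : D.sgn k * D.sgn k = 1 := by
  unfold sgn
  have h := D.dl_idem k
  have : (1 - 2 * D.dl k) * (1 - 2 * D.dl k) = 1 - 4 * D.dl k + 4 * (D.dl k * D.dl k) := by
    noncomm_ring
  rw [this, h]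
  noncomm_ring

theorem dl_sgn (k : ℕ) : D.dl k * D.sgn k = - D.dl k := by
  unfold sgn
  have h := D.dl_idem k
  have : D.dl k * (1 - 2 * D.dl k) = D.dl k - 2 * (D.dl k * D.dl k) := by
    noncomm_ring
  rw [this, h]
  noncomm_ring

theorem sgn_mul_ee (k : ℕ) (i j : I) : D.sgn k * (D.e k i * D.e (k + 1) j) =
    if i = j then -(D.e k i * D.e (k + 1) j) else D.e k i * D.e (k + 1) j := by
  unfold sgn
  rw [sub_mul, mul_assoc, dl_mul_ee, one_mul]
  split_ifs
  · noncomm_ring
  · rw [mul_zero, sub_zero]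

/-- the mirrored crossing -/
noncomputable def ts (k : ℕ) : KLRAlg D := D.t k * D.sgn k

theorem ts_e (k l : ℕ) (i : I) (h : l ≠ k) (h' : l ≠ k + 1) :
    D.ts k * D.e l i = D.e l i * D.ts k := by
  unfold ts
  rw [mul_assoc, ← D.sgn_comm_of (D.e_dl k l i), ← mul_assoc, D.t_e k l i h h', mul_assoc]

theorem ts_e0 (k : ℕ) (i : I) : D.ts k * D.e k i = D.e (k + 1) i * D.ts k := by
  unfold ts
  rw [mul_assoc, ← D.sgn_comm_of (D.e_dl k k i), ← mul_assoc, D.t_e0, mul_assoc]

theorem ts_e1 (k : ℕ) (i : I) : D.ts k * D.e (k + 1) i = D.e k i * D.ts k := by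
  unfold ts
  rw [mul_assoc, ← D.sgn_comm_of (D.e_dl k (k + 1) i), ← mul_assoc, D.t_e1, mul_assoc]

theorem ts_E (k : ℕ) : D.ts k * D.E k = D.ts k := by
  unfold ts
  rw [mul_assoc, ← D.E_comm, ← mul_assoc, D.t_E]

theorem ts_E' (k : ℕ) : D.ts k * D.E (k + 1) = D.ts k := by
  unfold ts
  rw [mul_assoc, ← D.E_comm, ← mul_assoc, D.t_E']

theorem ts_x (k l : ℕ) (h : l ≠ k) (h' : l ≠ k + 1) :
    D.ts k * D.x l = D.x l * D.ts k := by
  unfold ts
  rw [mul_assoc, ← D.sgn_comm_of (D.x_dl' k l), ← mul_assoc, D.t_x k l h h', mul_assoc]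

theorem ts_x1 (k : ℕ) : D.ts k * D.x (k + 1) = D.x k * D.ts k - D.dl k := by
  unfold ts
  rw [mul_assoc, ← D.sgn_comm_of (D.x_dl' k (k + 1)), ← mul_assoc, D.t_x1, add_mul, mul_assoc,
    D.dl_sgn, sub_eq_add_neg]

theorem ts_x0 (k : ℕ) : D.ts k * D.x k = D.x (k + 1) * D.ts k + D.dl k := by
  unfold ts
  rw [mul_assoc, ← D.sgn_comm_of (D.x_dl' k k), ← mul_assoc, D.t_x0, sub_mul, mul_assoc,
    D.dl_sgn, sub_neg_eq_add]

theorem ts_ts (k : ℕ) : D.ts k * D.ts k = D.t k * D.t k := by
  unfold ts
  rw [mul_assoc, ← mul_assoc (D.sgn k), ← D.sgn_comm_of (D.t_dl k), mul_assoc, D.sgn_sq, mul_one]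

theorem ts_far (k l : ℕ) (h : k + 1 < l) : D.ts k * D.ts l = D.ts l * D.ts k := by
  unfold ts
  have h1 : D.t l * D.sgn k = D.sgn k * D.t l := D.sgn_comm_of (D.t_dl_far l k (Or.inr h))
  have h2 : D.t k * D.sgn l = D.sgn l * D.t k := D.sgn_comm_of (D.t_dl_far k l (Or.inl h))
  have h3 : D.sgn k * D.sgn l = D.sgn l * D.sgn k := by
    apply D.sgn_comm_of
    exact (D.sgn_comm_of (D.dl_comm l k)).symm
  rw [mul_assoc, ← mul_assoc (D.sgn k), ← h1, mul_assoc (D.t l), h3, ← mul_assoc, ← mul_assoc,
    D.t_far k l h, mul_assoc (D.t l), h2]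
  simp only [mul_assoc]

/-! ### the braid relation -/

/-- the idempotent of three neighbouring strands -/
noncomputable def e3 (a : ℕ) (i j l : I) : KLRAlg D := D.e a i * D.e (a + 1) j * D.e (a + 2) l

theorem sum_e3 (a : ℕ) : ∑ i, ∑ j, ∑ l, D.e3 a i j l = D.E a * D.E (a + 1) * D.E (a + 2) := by
  unfold e3 E
  rw [Finset.sum_mul_sum, Finset.sum_mul]
  refine Finset.sum_congr rfl fun i _ => ?_
  rw [Finset.sum_mul]
  refine Finset.sum_congr rfl fun j _ => ?_
  rw [Finset.mul_sum]

theorem t_e3 (a : ℕ) (i j l : I) : D.t a * D.e3 a i j l = D.e3 a j i l * D.t a := by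
  unfold e3
  rw [← mul_assoc, ← mul_assoc, D.t_e0, mul_assoc (D.e (a + 1) i), D.t_e1, ← mul_assoc,
    D.e_comm (a + 1) a i j, mul_assoc, D.t_e a (a + 2) l (by omega) (by omega), ← mul_assoc]

theorem t_e3' (a : ℕ) (i j l : I) : D.t (a + 1) * D.e3 a i j l = D.e3 a i l j * D.t (a + 1) := by
  unfold e3
  rw [← mul_assoc, ← mul_assoc, D.t_e (a + 1) a i (by omega) (by omega),
    mul_assoc (D.e a i), D.t_e0, mul_assoc (D.e a i), mul_assoc (D.e (a + 1 + 1) j), D.t_e1,
    ← mul_assoc (D.e (a + 1 + 1) j), D.e_comm (a + 1 + 1) (a + 1) j l]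
  simp only [mul_assoc]

/-- sign -/
def sg (i j : I) : ℤ := if i = j then -1 else 1

theorem ts_mul_ee (k : ℕ) (i j : I) : D.ts k * (D.e k i * D.e (k + 1) j) =
    sg i j • (D.t k * (D.e k i * D.e (k + 1) j)) := by
  unfold ts sg
  rw [mul_assoc, D.sgn_mul_ee]
  split_ifs
  · rw [mul_neg, neg_one_smul]
  · rw [one_smul]

theorem ts_e3 (a : ℕ) (i j l : I) : D.ts a * D.e3 a i j l = sg i j • (D.t a * D.e3 a i j l) := by
  unfold e3
  rw [← mul_assoc, D.ts_mul_ee, smul_mul_assoc, mul_assoc (D.t a)]

theorem ts_e3' (a : ℕ) (i j l : I) :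
    D.ts (a + 1) * D.e3 a i j l = sg j l • (D.t (a + 1) * D.e3 a i j l) := by
  have h : D.e3 a i j l = D.e (a + 1) j * D.e (a + 1 + 1) l * D.e a i := by
    unfold e3
    rw [D.e_comm a (a + 1), mul_assoc, D.e_comm a (a + 2), mul_assoc]
  rw [h, ← mul_assoc, D.ts_mul_ee, smul_mul_assoc, mul_assoc (D.t (a + 1))]

theorem ts_word1 (a : ℕ) (i j l : I) : D.ts a * D.ts (a + 1) * D.ts a * D.e3 a i j l =
    (sg i j * sg i l * sg j l) • (D.t a * D.t (a + 1) * D.t a * D.e3 a i j l) := by
  have h1 : D.t a * D.t (a + 1) * D.t a * D.e3 a i j l =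
      D.t a * D.e3 a j l i * (D.t (a + 1) * D.t a) := by
    rw [mul_assoc, D.t_e3, mul_assoc, ← mul_assoc (D.t (a + 1)), D.t_e3']
    simp only [mul_assoc]
  rw [mul_assoc, D.ts_e3, D.t_e3, mul_smul_comm, mul_assoc, ← mul_assoc (D.ts (a + 1)), D.ts_e3',
    D.t_e3', smul_mul_assoc, mul_smul_comm, mul_assoc (D.e3 a j l i), ← mul_assoc (D.ts a), D.ts_e3,
    smul_mul_assoc, smul_smul, smul_smul, h1]

theorem ts_word2 (a : ℕ) (i j l : I) : D.ts (a + 1) * D.ts a * D.ts (a + 1) * D.e3 a i j l =
    (sg i j * sg i l * sg j l) • (D.t (a + 1) * D.t a * D.t (a + 1) * D.e3 a i j l) := by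
  have h1 : D.t (a + 1) * D.t a * D.t (a + 1) * D.e3 a i j l =
      D.t (a + 1) * D.e3 a l i j * (D.t a * D.t (a + 1)) := by
    rw [mul_assoc, D.t_e3', mul_assoc, ← mul_assoc (D.t a), D.t_e3]
    simp only [mul_assoc]
  rw [mul_assoc, D.ts_e3', D.t_e3', mul_smul_comm, mul_assoc, ← mul_assoc (D.ts a), D.ts_e3,
    D.t_e3, smul_mul_assoc, mul_smul_comm, mul_assoc (D.e3 a l i j), ← mul_assoc (D.ts (a + 1)),
    D.ts_e3', smul_mul_assoc, smul_smul, smul_smul, h1,
    show sg j l * sg i l * sg i j = sg i j * sg i l * sg j l by ring]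

/-- the right hand side of the braid relation -/
noncomputable def br (a : ℕ) : KLRAlg D := ∑ i, ∑ j, if i = j then 0 else
      D.QD i j (D.x a) (D.x (a + 2)) (D.x (a + 1)) * D.e3 a i j i

theorem t_braid' (a : ℕ) :
    D.t (a + 1) * D.t a * D.t (a + 1) - D.t a * D.t (a + 1) * D.t a = D.br a := D.t_braid a

theorem e3_mul_e3 (a : ℕ) (i j l i' j' l' : I) : D.e3 a i j l * D.e3 a i' j' l' =
    if i = i' ∧ j = j' ∧ l = l' then D.e3 a i j l else 0 := by
  have h : D.e3 a i j l * D.e3 a i' j' l' = (D.e a i * D.e a i') * (D.e (a + 1) j * D.e (a + 1) j') *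
      (D.e (a + 2) l * D.e (a + 2) l') := by
    unfold e3
    rw [mul_assoc (D.e a i * D.e (a + 1) j), ← mul_assoc (D.e (a + 2) l) (D.e a i' * D.e (a + 1) j'),
      ← mul_assoc (D.e (a + 2) l) (D.e a i'), D.e_comm (a + 2) a l i', mul_assoc (D.e a i'),
      D.e_comm (a + 2) (a + 1) l j', mul_assoc (D.e a i), ← mul_assoc (D.e (a + 1) j),
      ← mul_assoc (D.e (a + 1) j) (D.e a i'), D.e_comm (a + 1) a j i']
    simp only [mul_assoc]
  rw [h, D.e_mul_e, D.e_mul_e, D.e_mul_e]
  unfold e3
  by_cases h1 : i = i' <;> by_cases h2 : j = j' <;> by_cases h3 : l = l' <;> simp [h1, h2, h3]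

theorem br_e3 (a : ℕ) (i j l : I) : D.br a * D.e3 a i j l =
    if i = l ∧ i ≠ j then D.QD i j (D.x a) (D.x (a + 2)) (D.x (a + 1)) *
      D.e3 a i j i else 0 := by
  unfold br
  rw [Finset.sum_mul, Finset.sum_eq_single i]
  · rw [Finset.sum_mul, Finset.sum_eq_single j]
    · by_cases h : i = j
      · rw [if_pos h, zero_mul, if_neg (by simp [h])]
      · rw [if_neg h, mul_assoc, e3_mul_e3]
        by_cases h' : i = l
        · subst h'
          rw [if_pos ⟨rfl, rfl, rfl⟩, if_pos ⟨rfl, h⟩]
        · rw [if_neg (by simp [h']), if_neg (by simp [h']), mul_zero]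
    · intro j' _ hj'
      split_ifs
      · rw [zero_mul]
      · rw [mul_assoc, e3_mul_e3, if_neg (by simp [hj']), mul_zero]
    · intro h
      exact absurd (Finset.mem_univ j) h
  · intro i' _ hi'
    rw [Finset.sum_mul]
    refine Finset.sum_eq_zero fun j' _ => ?_
    split_ifs
    · rw [zero_mul]
    · rw [mul_assoc, e3_mul_e3, if_neg (by simp [hi']), mul_zero]
  · intro h
    exact absurd (Finset.mem_univ i) h

theorem br_E (a : ℕ) : D.br a * (D.E a * D.E (a + 1) * D.E (a + 2)) = D.br a := by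
  rw [← t_braid']
  have h1 : D.t (a + 1) * (D.E a * D.E (a + 1) * D.E (a + 2)) = D.E a * D.t (a + 1) := by
    rw [mul_assoc, D.E_comm a, D.E_comm a, ← mul_assoc, ← mul_assoc, D.t_E,
      show a + 2 = (a + 1) + 1 from rfl, D.t_E']
  have h2 : D.t a * (D.E a * D.E (a + 1) * D.E (a + 2)) = D.E (a + 2) * D.t a := by
    rw [← mul_assoc, ← mul_assoc, D.t_E, D.t_E', D.E_comm]
  rw [sub_mul, mul_assoc, h1, mul_assoc (D.t (a + 1)), ← mul_assoc (D.t a), ← D.E_comm a (D.t a),
    D.E_comm a (D.t a), D.t_E, mul_assoc (D.t a * D.t (a + 1)), h2, mul_assoc (D.t a),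
    ← mul_assoc (D.t (a + 1)) (D.E (a + 2)), show a + 2 = (a + 1) + 1 from rfl, D.t_E']
  simp only [mul_assoc]

theorem ts_E3 (a : ℕ) :
    (D.ts a * D.ts (a + 1) * D.ts a - D.ts (a + 1) * D.ts a * D.ts (a + 1)) *
      (D.E a * D.E (a + 1) * D.E (a + 2)) =
    D.ts a * D.ts (a + 1) * D.ts a - D.ts (a + 1) * D.ts a * D.ts (a + 1) := by
  have h1 : D.ts (a + 1) * (D.E a * D.E (a + 1) * D.E (a + 2)) = D.E a * D.ts (a + 1) := by
    rw [mul_assoc, D.E_comm a, D.E_comm a, ← mul_assoc, ← mul_assoc, D.ts_E,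
      show a + 2 = (a + 1) + 1 from rfl, D.ts_E']
  have h2 : D.ts a * (D.E a * D.E (a + 1) * D.E (a + 2)) = D.E (a + 2) * D.ts a := by
    rw [← mul_assoc, ← mul_assoc, D.ts_E, D.ts_E', D.E_comm]
  rw [sub_mul, mul_assoc (D.ts (a + 1) * D.ts a), h1, mul_assoc (D.ts (a + 1)),
    ← mul_assoc (D.ts a) (D.E a), D.ts_E, mul_assoc (D.ts a * D.ts (a + 1)), h2,
    mul_assoc (D.ts a), ← mul_assoc (D.ts (a + 1)) (D.E (a + 2)),
    show a + 2 = (a + 1) + 1 from rfl, D.ts_E']
  simp only [mul_assoc]

theorem ts_braid (a : ℕ) :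
    D.ts a * D.ts (a + 1) * D.ts a - D.ts (a + 1) * D.ts a * D.ts (a + 1) = D.br a := by
  rw [← D.ts_E3, ← D.br_E, ← sum_e3]
  simp only [Finset.mul_sum]
  refine Finset.sum_congr rfl fun i _ => Finset.sum_congr rfl fun j _ =>
    Finset.sum_congr rfl fun l _ => ?_
  rw [sub_mul, ts_word1, ts_word2, ← smul_sub, ← sub_mul]
  have h : D.t a * D.t (a + 1) * D.t a - D.t (a + 1) * D.t a * D.t (a + 1) = - D.br a := by
    rw [← t_braid', neg_sub]
  rw [h, neg_mul, br_e3]
  split_ifs with h1
  · obtain ⟨rfl, h2⟩ := h1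
    rw [show sg i j * sg i i * sg j i = -1 by
      unfold sg
      rw [if_neg h2, if_pos rfl, if_neg (Ne.symm h2)]
      rfl, smul_neg, neg_smul, neg_neg, one_smul]
  · rw [neg_zero, smul_zero]

/-- the mirror endomorphism -/
noncomputable def mir (m : ℕ) : KLRAlg D →ₐ[K] KLRAlg D :=
  liftHom (D := D) (e := fun k i => if k < m then D.e (m - 1 - k) i else 0)
    (x := fun k => if k < m then D.x (m - 1 - k) else 0)
    (t := fun k => if k + 1 < m then D.ts (m - 2 - k) else 0)
    { ee := by
        intro k i j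
        by_cases h : k < m
        · simp only [h, if_true]; exact D.rels.ee _ i j
        · simp [h]
      ee_comm := by
        intro k l i j
        by_cases h : k < m <;> by_cases h' : l < m <;> simp [h, h', D.e_comm _ _ i j]
      xx := by
        intro k l
        by_cases h : k < m <;> by_cases h' : l < m <;> simp [h, h', D.x_comm (m - 1 - k) _]
      xe := by
        intro k l i
        by_cases h : k < m <;> by_cases h' : l < m <;> simp [h, h', D.x_e]
      xE := by
        intro k
        by_cases h : k < m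
        · simp only [h, if_true]; exact D.rels.xE _
        · simp [h]
      tE := by
        intro k
        by_cases h : k + 1 < m
        · have h' : k < m := by omega
          obtain ⟨a, ha1, ha2⟩ : ∃ a, m - 2 - k = a ∧ m - 1 - k = a + 1 := ⟨_, rfl, by omega⟩
          simp only [h, h', if_true, ha1, ha2]
          exact D.ts_E' a
        · simp [h]
      tE' := by
        intro k
        by_cases h : k + 1 < m
        · obtain ⟨a, ha1, ha2⟩ : ∃ a, m - 2 - k = a ∧ m - 1 - (k + 1) = a := ⟨_, rfl, by omega⟩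
          simp only [h, if_true, ha1, ha2]
          exact D.ts_E a
        · simp [h]
      te0 := by
        intro k i
        by_cases h : k + 1 < m
        · have h' : k < m := by omega
          obtain ⟨a, ha1, ha2, ha3⟩ : ∃ a, m - 2 - k = a ∧ m - 1 - k = a + 1 ∧
            m - 1 - (k + 1) = a := ⟨_, rfl, by omega, by omega⟩
          simp only [h, h', if_true, ha1, ha2, ha3]
          exact D.ts_e1 a i
        · simp [h]
      te1 := by
        intro k i
        by_cases h : k + 1 < m
        · have h' : k < m := by omega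
          obtain ⟨a, ha1, ha2, ha3⟩ : ∃ a, m - 2 - k = a ∧ m - 1 - k = a + 1 ∧
            m - 1 - (k + 1) = a := ⟨_, rfl, by omega, by omega⟩
          simp only [h, h', if_true, ha1, ha2, ha3]
          exact D.ts_e0 a i
        · simp [h]
      te := by
        intro k l i h1 h2
        by_cases h : k + 1 < m
        · by_cases h' : l < m
          · simp only [h, h', if_true]
            exact D.ts_e _ _ i (by omega) (by omega)
          · simp [h']
        · simp [h]
      tx := by
        intro k l h1 h2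
        by_cases h : k + 1 < m
        · by_cases h' : l < m
          · simp only [h, h', if_true]
            exact D.ts_x _ _ (by omega) (by omega)
          · simp [h']
        · simp [h]
      tx0 := by
        intro k
        by_cases h : k + 1 < m
        · have h' : k < m := by omega
          obtain ⟨a, ha1, ha2, ha3⟩ : ∃ a, m - 2 - k = a ∧ m - 1 - k = a + 1 ∧
            m - 1 - (k + 1) = a := ⟨_, rfl, by omega, by omega⟩
          simp only [h, h', if_true, ha1, ha2, ha3]
          rw [D.ts_x1]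
          congr 1
          unfold dl
          exact Finset.sum_congr rfl fun i _ => D.e_comm _ _ _ _
        · simp [h]
      tx1 := by
        intro k
        by_cases h : k + 1 < m
        · have h' : k < m := by omega
          obtain ⟨a, ha1, ha2, ha3⟩ : ∃ a, m - 2 - k = a ∧ m - 1 - k = a + 1 ∧
            m - 1 - (k + 1) = a := ⟨_, rfl, by omega, by omega⟩
          simp only [h, h', if_true, ha1, ha2, ha3]
          rw [D.ts_x0]
          congr 1
          unfold dl
          exact Finset.sum_congr rfl fun i _ => D.e_comm _ _ _ _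
        · simp [h]
      tt := by
        intro k
        by_cases h : k + 1 < m
        · have h' : k < m := by omega
          obtain ⟨a, ha1, ha2, ha3⟩ : ∃ a, m - 2 - k = a ∧ m - 1 - k = a + 1 ∧
            m - 1 - (k + 1) = a := ⟨_, rfl, by omega, by omega⟩
          simp only [h, h', if_true, ha1, ha2, ha3]
          rw [D.ts_ts, D.t_t, Finset.sum_comm]
          refine Finset.sum_congr rfl fun i _ => Finset.sum_congr rfl fun j _ => ?_
          by_cases hij : i = j
          · rw [if_pos hij, if_pos hij.symm]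
          · rw [if_neg hij, if_neg (Ne.symm hij), D.e_comm (a + 1) a i j,
              D.QE_symm hij (D.x_comm (a + 1) a)]
        · simp [h]
      far := by
        intro k l h1
        by_cases h : l + 1 < m
        · have h' : k + 1 < m := by omega
          simp only [h, h', if_true]
          exact (D.ts_far _ _ (by omega)).symm
        · simp [h]
      braid := by
        intro k
        by_cases h : k + 2 < m
        · have h' : k < m := by omega
          have h'' : k + 1 < m := by omega
          obtain ⟨a, ha1, ha2, ha3, ha4, ha5⟩ : ∃ a, m - 2 - k = a + 1 ∧ m - 2 - (k + 1) = a ∧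
            m - 1 - k = a + 2 ∧ m - 1 - (k + 1) = a + 1 ∧ m - 1 - (k + 2) = a :=
              ⟨m - 3 - k, by omega, by omega, by omega, by omega, by omega⟩
          simp only [h, h', h'', if_true, ha1, ha2, ha3, ha4, ha5]
          rw [D.ts_braid]
          unfold br
          refine Finset.sum_congr rfl fun i _ => Finset.sum_congr rfl fun j _ => ?_
          by_cases hij : i = j
          · rw [if_pos hij, if_pos hij]
          · rw [if_neg hij, if_neg hij]
            have h6 : D.e (a + 2) i * D.e (a + 1) j * D.e a i = D.e3 a i j i := by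
              unfold e3
              rw [mul_assoc, D.e_comm (a + 1) a, ← mul_assoc, D.e_comm (a + 2) a, mul_assoc,
                D.e_comm (a + 2) (a + 1), ← mul_assoc]
            rw [h6, D.QD_swap (D.x_comm (a + 2) a)]
        · simp [h] }

theorem mir_e (m k : ℕ) (i : I) : D.mir m (D.e k i) = if k < m then D.e (m - 1 - k) i else 0 :=
  liftHom_e _ k i
theorem mir_x (m k : ℕ) : D.mir m (D.x k) = if k < m then D.x (m - 1 - k) else 0 := liftHom_x _ k
theorem mir_t (m k : ℕ) : D.mir m (D.t k) = if k + 1 < m then D.ts (m - 2 - k) else 0 :=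
  liftHom_t _ k

theorem mir_dl (m k : ℕ) : D.mir m (D.dl k) = if k + 1 < m then D.dl (m - 2 - k) else 0 := by
  unfold dl
  rw [map_sum]
  by_cases h : k + 1 < m
  · rw [if_pos h]
    refine Finset.sum_congr rfl fun i _ => ?_
    rw [map_mul, mir_e, mir_e, if_pos (by omega), if_pos h, D.e_comm,
      show m - 1 - (k + 1) = m - 2 - k by omega, show m - 1 - k = m - 2 - k + 1 by omega]
  · rw [if_neg h]
    refine Finset.sum_eq_zero fun i _ => ?_
    rw [map_mul, mir_e D m (k + 1), if_neg h, mul_zero]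

theorem mir_E (m k : ℕ) : D.mir m (D.E k) = if k < m then D.E (m - 1 - k) else 0 := by
  unfold E
  rw [map_sum]
  by_cases h : k < m
  · rw [if_pos h]
    exact Finset.sum_congr rfl fun i _ => by rw [mir_e, if_pos h]
  · rw [if_neg h]
    exact Finset.sum_eq_zero fun i _ => by rw [mir_e, if_neg h]

theorem mir_ts (m k : ℕ) : D.mir m (D.ts k) = if k + 1 < m then D.t (m - 2 - k) else 0 := by
  unfold ts sgn
  rw [map_mul, map_sub, map_one, map_mul, mir_dl, mir_t]
  split_ifs with h
  · rw [show D.mir m 2 = 2 from map_ofNat _ 2]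
    have h1 : D.ts (m - 2 - k) * (1 - 2 * D.dl (m - 2 - k)) =
        D.t (m - 2 - k) * (D.sgn (m - 2 - k) * D.sgn (m - 2 - k)) := by
      unfold ts
      rw [mul_assoc]
      rfl
    rw [h1, D.sgn_sq, mul_one]
  · rw [zero_mul]

/-- the mirror endomorphism is an involution on the first `m` strands -/
theorem mir_mir (m : ℕ) (a : KLRAlg D) : D.mir m (D.mir m a) = D.tr m a := by
  have h : (D.mir m).comp (D.mir m) = D.tr m := by
    apply hom_ext
    · intro k i
      rw [AlgHom.comp_apply, mir_e, tr_e]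
      split_ifs with h
      · rw [mir_e, if_pos (by omega), show m - 1 - (m - 1 - k) = k by omega]
      · exact map_zero _
    · intro k
      rw [AlgHom.comp_apply, mir_x, tr_x]
      split_ifs with h
      · rw [mir_x, if_pos (by omega), show m - 1 - (m - 1 - k) = k by omega]
      · exact map_zero _
    · intro k
      rw [AlgHom.comp_apply, mir_t, tr_t]
      split_ifs with h
      · rw [mir_ts, if_pos (by omega), show m - 2 - (m - 2 - k) = k by omega]
      · exact map_zero _
  exact DFunLike.congr_fun h a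

theorem shn_ts (m k : ℕ) : D.shn m (D.ts k) = D.ts (m + k) := by
  unfold ts sgn
  rw [map_mul, map_sub, map_one, map_mul, shn_dl, shn_t, show D.shn m 2 = 2 from map_ofNat _ 2]

theorem tr_ts (m k : ℕ) : D.tr m (D.ts k) = if k + 1 < m then D.ts k else 0 := by
  unfold ts
  rw [map_mul, tr_t]
  split_ifs with h
  · congr 1
    unfold sgn dl
    rw [map_sub, map_one, map_mul, map_sum, show D.tr m 2 = 2 from map_ofNat _ 2]
    congr 2
    refine Finset.sum_congr rfl fun i _ => ?_
    rw [map_mul, tr_e, tr_e, if_pos (by omega), if_pos h]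
  · rw [zero_mul]

/-- the mirror of the first `n` strands out of `m + n` strands -/
theorem mir_tr (m n : ℕ) (a : KLRAlg D) : D.mir (m + n) (D.tr n a) = D.shn m (D.mir n a) := by
  have h : (D.mir (m + n)).comp (D.tr n) = (D.shn m).comp (D.mir n) := by
    apply hom_ext
    · intro k i
      rw [AlgHom.comp_apply, AlgHom.comp_apply, tr_e, mir_e]
      split_ifs with h
      · rw [mir_e, if_pos (by omega), shn_e, show m + n - 1 - k = m + (n - 1 - k) by omega]
      · rw [map_zero, map_zero]
    · intro k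
      rw [AlgHom.comp_apply, AlgHom.comp_apply, tr_x, mir_x]
      split_ifs with h
      · rw [mir_x, if_pos (by omega), shn_x, show m + n - 1 - k = m + (n - 1 - k) by omega]
      · rw [map_zero, map_zero]
    · intro k
      rw [AlgHom.comp_apply, AlgHom.comp_apply, tr_t, mir_t]
      split_ifs with h
      · rw [mir_t, if_pos (by omega), shn_ts, show m + n - 2 - k = m + (n - 2 - k) by omega]
      · rw [map_zero, map_zero]
  exact DFunLike.congr_fun h a

/-- the mirror of the last `m` strands out of `m + n` strands -/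
theorem mir_shn (m n : ℕ) (a : KLRAlg D) : D.mir (m + n) (D.shn n a) = D.mir m a := by
  have h : (D.mir (m + n)).comp (D.shn n) = D.mir m := by
    apply hom_ext
    · intro k i
      rw [AlgHom.comp_apply, shn_e, mir_e, mir_e]
      by_cases h : k < m
      · rw [if_pos h, if_pos (by omega), show m + n - 1 - (n + k) = m - 1 - k by omega]
      · rw [if_neg h, if_neg (by omega)]
    · intro k
      rw [AlgHom.comp_apply, shn_x, mir_x, mir_x]
      by_cases h : k < m
      · rw [if_pos h, if_pos (by omega), show m + n - 1 - (n + k) = m - 1 - k by omega]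
      · rw [if_neg h, if_neg (by omega)]
    · intro k
      rw [AlgHom.comp_apply, shn_t, mir_t, mir_t]
      by_cases h : k + 1 < m
      · rw [if_pos h, if_pos (by omega), show m + n - 2 - (n + k) = m - 2 - k by omega]
      · rw [if_neg h, if_neg (by omega)]
  exact DFunLike.congr_fun h a

theorem tr_mir (m : ℕ) (a : KLRAlg D) : D.tr m (D.mir m a) = D.mir m a := by
  have h : (D.tr m).comp (D.mir m) = D.mir m := by
    apply hom_ext
    · intro k i
      rw [AlgHom.comp_apply, mir_e]
      split_ifs with h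
      · rw [tr_e, if_pos (by omega)]
      · exact map_zero _
    · intro k
      rw [AlgHom.comp_apply, mir_x]
      split_ifs with h
      · rw [tr_x, if_pos (by omega)]
      · exact map_zero _
    · intro k
      rw [AlgHom.comp_apply, mir_t]
      split_ifs with h
      · rw [tr_ts, if_pos (by omega)]
      · exact map_zero _
  exact DFunLike.congr_fun h a

end Datum

end Pool.Agent.KLS

end

section

/-! MP_e487d8_al: modules given by operators (`St.Mod`) and modules over `KLRAlg D`. -/

set_option autoImplicit false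

namespace Pool.Agent.KLS.St

variable {K I : Type} [Field K] [Fintype I] [DecidableEq I] {D : Datum K I}

section QEnd

variable {M : Type*} [AddCommGroup M] [Module K M]

theorem QE_apply (i j : I) (f g : Module.End K M) (v : M) :
    (D.QE i j f g) v = ∑ p ∈ Finset.range (D.nq i j + 1), ∑ q ∈ Finset.range (D.nq j i + 1),
      D.Q i j p q • f^[p] (g^[q] v) := by
  unfold Datum.QE
  rw [LinearMap.sum_apply]
  refine Finset.sum_congr rfl fun p _ => ?_
  rw [LinearMap.sum_apply]
  refine Finset.sum_congr rfl fun q _ => ?_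
  rw [LinearMap.smul_apply, Module.End.mul_apply, Module.End.pow_apply, Module.End.pow_apply]

theorem QD_apply (i j : I) (f h g : Module.End K M) (v : M) :
    (D.QD i j f h g) v = ∑ p ∈ Finset.range (D.nq i j + 1), ∑ q ∈ Finset.range (D.nq j i + 1),
      D.Q i j p q • ∑ r ∈ Finset.range p, f^[r] (h^[p - 1 - r] (g^[q] v)) := by
  unfold Datum.QD
  rw [LinearMap.sum_apply]
  refine Finset.sum_congr rfl fun p _ => ?_
  rw [LinearMap.sum_apply]
  refine Finset.sum_congr rfl fun q _ => ?_
  rw [LinearMap.smul_apply, Module.End.mul_apply, Module.End.pow_apply, LinearMap.sum_apply]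
  congr 1
  refine Finset.sum_congr rfl fun r _ => ?_
  rw [Module.End.mul_apply, Module.End.pow_apply, Module.End.pow_apply]

end QEnd

namespace Mod

variable (X : Mod D)

/-- the operator `e k i` -/
def eL (k : ℕ) (i : I) : Module.End K X.M := IsLinearMap.mk' (X.e k i) (X.e_lin k i)
/-- the operator `x k` -/
def xL (k : ℕ) : Module.End K X.M := IsLinearMap.mk' (X.x k) (X.x_lin k)
/-- the operator `t k` -/
def tL (k : ℕ) : Module.End K X.M := IsLinearMap.mk' (X.t k) (X.t_lin k)

theorem eL_apply (k : ℕ) (i : I) (u : X.M) : X.eL k i u = X.e k i u := rfl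
theorem xL_apply (k : ℕ) (u : X.M) : X.xL k u = X.x k u := rfl
theorem tL_apply (k : ℕ) (u : X.M) : X.tL k u = X.t k u := rfl

theorem e_zero (k : ℕ) (i : I) : X.e k i 0 = 0 := (X.eL k i).map_zero
theorem x_zero (k : ℕ) : X.x k 0 = 0 := (X.xL k).map_zero
theorem t_zero (k : ℕ) : X.t k 0 = 0 := (X.tL k).map_zero

theorem e_idem (k : ℕ) (i : I) (u : X.M) : X.e k i (X.e k i u) = X.e k i u := by
  rw [X.ee, if_pos rfl]

theorem e_ne {k : ℕ} {i j : I} {u : X.M} (h : X.e k i u = u) (hij : j ≠ i) : X.e k j u = 0 := by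
  rw [← h, X.ee, if_neg hij]

theorem ext1 {k : ℕ} (h : k < X.n) {f g : Module.End K X.M}
    (hc : ∀ i v, X.e k i v = v → f v = g v) : f = g := by
  ext u
  rw [← X.sum_e k u h, map_sum, map_sum]
  exact Finset.sum_congr rfl fun i _ => hc i _ (X.e_idem k i u)

theorem ext2 {k : ℕ} (h : k + 1 < X.n) {f g : Module.End K X.M}
    (hc : ∀ i j v, X.e k i v = v → X.e (k + 1) j v = v → f v = g v) : f = g := by
  refine X.ext1 (k := k) (by omega) fun i v hi => ?_
  rw [← X.sum_e (k + 1) v h, map_sum, map_sum]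
  refine Finset.sum_congr rfl fun j _ => hc i j _ ?_ (X.e_idem _ j v)
  rw [X.ee_comm, hi]

theorem ext3 {k : ℕ} (h : k + 2 < X.n) {f g : Module.End K X.M}
    (hc : ∀ i j l v, X.e k i v = v → X.e (k + 1) j v = v → X.e (k + 2) l v = v → f v = g v) :
    f = g := by
  refine X.ext2 (k := k) (by omega) fun i j v hi hj => ?_
  rw [← X.sum_e (k + 2) v h, map_sum, map_sum]
  refine Finset.sum_congr rfl fun l _ => hc i j l _ ?_ ?_ (X.e_idem _ l v)
  · rw [X.ee_comm, hi]
  · rw [X.ee_comm, hj]

theorem sum_apply (f : I → Module.End K X.M) (u : X.M) : (∑ i, f i) u = ∑ i, f i u :=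
  LinearMap.sum_apply _ _ _

theorem dl_apply {k : ℕ} {i j : I} {v : X.M} (h : X.e k i v = v) (h' : X.e (k + 1) j v = v) :
    (∑ i, X.eL k i * X.eL (k + 1) i) v = if i = j then v else 0 := by
  rw [X.sum_apply, Finset.sum_eq_single j]
  · change X.e k j (X.e (k + 1) j v) = _
    rw [h']
    split_ifs with hij
    · rw [← hij, h]
    · exact X.e_ne h (Ne.symm hij)
  · intro l _ hl
    change X.e k l (X.e (k + 1) l v) = _
    rw [X.e_ne h' hl, X.e_zero]
  · intro hh
    exact absurd (Finset.mem_univ j) hh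

theorem dl_zero {k : ℕ} (h : X.n ≤ k + 1) : (∑ i, X.eL k i * X.eL (k + 1) i) = 0 := by
  refine Finset.sum_eq_zero fun i _ => LinearMap.ext fun u => ?_
  change X.e k i (X.e (k + 1) i u) = 0
  rw [X.e_out _ _ _ h, X.e_zero]

theorem tL_zero {k : ℕ} (h : X.n ≤ k + 1) : X.tL k = 0 :=
  LinearMap.ext fun u => X.t_out k u h

theorem rels : Rels D X.eL X.xL X.tL where
  ee k i j := by
    ext u
    change X.e k i (X.e k j u) = _
    rw [X.ee]
    split_ifs <;> rfl
  ee_comm k l i j := LinearMap.ext fun u => X.ee_comm k l i j u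
  xx k l := LinearMap.ext fun u => X.xx k l u
  xe k l i := LinearMap.ext fun u => X.xe k l i u
  xE k := by
    ext u
    change X.x k ((∑ i, X.eL k i) u) = X.x k u
    rw [X.sum_apply]
    by_cases h : k < X.n
    · exact congrArg _ (X.sum_e k u h)
    · rw [X.x_out k _ (by omega), X.x_out k _ (by omega)]
  tE k := by
    ext u
    change X.t k ((∑ i, X.eL k i) u) = X.t k u
    rw [X.sum_apply]
    by_cases h : k < X.n
    · exact congrArg _ (X.sum_e k u h)
    · rw [X.t_out k _ (by omega), X.t_out k _ (by omega)]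
  tE' k := by
    ext u
    change X.t k ((∑ i, X.eL (k + 1) i) u) = X.t k u
    rw [X.sum_apply]
    by_cases h : k + 1 < X.n
    · exact congrArg _ (X.sum_e (k + 1) u h)
    · rw [X.t_out k _ (by omega), X.t_out k _ (by omega)]
  te0 k i := LinearMap.ext fun u => X.te0 k i u
  te1 k i := LinearMap.ext fun u => X.te1 k i u
  te k l i h h' := LinearMap.ext fun u => X.te k l i u h h'
  tx k l h h' := LinearMap.ext fun u => X.tx k l u h h'
  tx0 k := by
    by_cases hk : k + 1 < X.n
    · refine X.ext2 hk fun i j v h h' => ?_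
      rw [LinearMap.sub_apply, X.dl_apply h h', ← X.tx0 k i j v h h']
      change X.t k (X.x k v) = X.x (k + 1) (X.t k v) - _
      abel
    · rw [X.tL_zero (by omega), X.dl_zero (by omega), zero_mul, mul_zero, sub_zero]
  tx1 k := by
    by_cases hk : k + 1 < X.n
    · refine X.ext2 hk fun i j v h h' => ?_
      rw [LinearMap.add_apply, X.dl_apply h h', ← X.tx1 k i j v h h']
      change X.t k (X.x (k + 1) v) = X.x k (X.t k v) + _
      abel
    · rw [X.tL_zero (by omega), X.dl_zero (by omega), zero_mul, mul_zero, add_zero]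
  tt k := by
    by_cases hk : k + 1 < X.n
    · refine X.ext2 hk fun i j v h h' => ?_
      change X.t k (X.t k v) = _
      rw [X.tt k i j v h h', X.sum_apply, Finset.sum_eq_single i]
      · rw [X.sum_apply, Finset.sum_eq_single j]
        · split_ifs with hij
          · rfl
          · change _ = (D.QE i j (X.xL k) (X.xL (k + 1))) (X.e k i (X.e (k + 1) j v))
            rw [h', h, QE_apply]
            rfl
        · intro l _ hl
          split_ifs with hil
          · rfl
          · change (D.QE i l (X.xL k) (X.xL (k + 1))) (X.e k i (X.e (k + 1) l v)) = 0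
            rw [X.e_ne h' hl, X.e_zero, map_zero]
        · intro hh
          exact absurd (Finset.mem_univ j) hh
      · intro l _ hl
        rw [X.sum_apply]
        refine Finset.sum_eq_zero fun l' _ => ?_
        split_ifs with hil
        · rfl
        · change (D.QE l l' (X.xL k) (X.xL (k + 1))) (X.e k l (X.e (k + 1) l' v)) = 0
          rw [X.ee_comm, X.e_ne h hl, X.e_zero, map_zero]
      · intro hh
        exact absurd (Finset.mem_univ i) hh
    · rw [X.tL_zero (by omega), zero_mul]
      symm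
      refine Finset.sum_eq_zero fun i _ => Finset.sum_eq_zero fun j _ => ?_
      split_ifs
      · rfl
      · ext v
        change (D.QE i j (X.xL k) (X.xL (k + 1))) (X.e k i (X.e (k + 1) j v)) = 0
        rw [X.e_out (k + 1) _ _ (by omega), X.e_zero, map_zero]
  far k l h := LinearMap.ext fun u => X.far k l u h
  braid k := by
    by_cases hk : k + 2 < X.n
    · refine X.ext3 hk fun i j l v h h' h'' => ?_
      change X.t (k + 1) (X.t k (X.t (k + 1) v)) - X.t k (X.t (k + 1) (X.t k v)) = _
      rw [X.braid k i j l v h h' h'', X.sum_apply, Finset.sum_eq_single i]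
      · rw [X.sum_apply, Finset.sum_eq_single j]
        · by_cases hij : i = j
          · rw [if_neg (fun hh => hh.2 hij), if_pos hij]
            rfl
          · rw [if_neg hij]
            change _ = (D.QD i j (X.xL k) (X.xL (k + 2)) (X.xL (k + 1)))
              (X.e k i (X.e (k + 1) j (X.e (k + 2) i v)))
            by_cases hil : i = l
            · rw [if_pos ⟨hil, hij⟩, hil, h'', h', ← hil, h, QD_apply]
              rfl
            · rw [if_neg (fun hh => hil hh.1), X.e_ne h'' hil, X.e_zero, X.e_zero, map_zero]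
        · intro b _ hb
          split_ifs with hil
          · rfl
          · change (D.QD i b (X.xL k) (X.xL (k + 2)) (X.xL (k + 1)))
              (X.e k i (X.e (k + 1) b (X.e (k + 2) i v))) = 0
            rw [X.ee_comm (k + 1) (k + 2), X.e_ne h' hb, X.e_zero, X.e_zero, map_zero]
        · intro hh
          exact absurd (Finset.mem_univ j) hh
      · intro a _ ha
        rw [X.sum_apply]
        refine Finset.sum_eq_zero fun b _ => ?_
        split_ifs with hil
        · rfl
        · change (D.QD a b (X.xL k) (X.xL (k + 2)) (X.xL (k + 1)))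
            (X.e k a (X.e (k + 1) b (X.e (k + 2) a v))) = 0
          rw [X.ee_comm k (k + 1), X.ee_comm k (k + 2), X.e_ne h ha, X.e_zero, X.e_zero, map_zero]
      · intro hh
        exact absurd (Finset.mem_univ i) hh
    · rw [X.tL_zero (k := k + 1) (by omega), zero_mul, zero_mul, mul_zero, zero_mul, sub_zero]
      symm
      refine Finset.sum_eq_zero fun i _ => Finset.sum_eq_zero fun j _ => ?_
      split_ifs
      · rfl
      · ext v
        change (D.QD i j (X.xL k) (X.xL (k + 2)) (X.xL (k + 1)))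
            (X.e k i (X.e (k + 1) j (X.e (k + 2) i v))) = 0
        rw [X.e_out (k + 2) _ _ (by omega), X.e_zero, X.e_zero, map_zero]

/-- the action of the KLR algebra -/
noncomputable def act : KLRAlg D →ₐ[K] Module.End K X.M := liftHom X.rels

theorem act_e (k : ℕ) (i : I) (u : X.M) : X.act (D.e k i) u = X.e k i u := by
  rw [act, liftHom_e]
  rfl

theorem act_x (k : ℕ) (u : X.M) : X.act (D.x k) u = X.x k u := by
  rw [act, liftHom_x]
  rfl

theorem act_t (k : ℕ) (u : X.M) : X.act (D.t k) u = X.t k u := by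
  rw [act, liftHom_t]
  rfl

theorem act_sum_e (k : ℕ) (u : X.M) : X.act (D.E k) u = ∑ i, X.e k i u := by
  unfold Datum.E
  rw [map_sum, X.sum_apply]
  exact Finset.sum_congr rfl fun i _ => X.act_e k i u

end Mod

/-- the graded module over `KLRAlg D` -/
noncomputable def GMod.toG (X : GMod D) : KLS.GMod D where
  n := X.n
  M := X.M
  modR := Module.compHom X.M (X.act : KLRAlg D →+* Module.End K X.M)
  tow :=
    letI : Module (KLRAlg D) X.M := Module.compHom X.M (X.act : KLRAlg D →+* Module.End K X.M)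
    { smul_assoc := fun r a u => by
        change X.act (r • a) u = r • X.act a u
        rw [map_smul]
        rfl }
  strand :=
    letI : Module (KLRAlg D) X.M := Module.compHom X.M (X.act : KLRAlg D →+* Module.End K X.M)
    { one := fun k hk u => by
        change X.act (D.E k) u = u
        rw [X.act_sum_e, X.sum_e k u hk]
      zero := fun k hk i u => by
        change X.act (D.e k i) u = 0
        rw [X.act_e, X.e_out k i u hk] }
  fd := X.fin
  gr := X.gr
  internal := X.internal
  e_mem k i d u hu := by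
    change X.act (D.e k i) u ∈ X.gr d
    rw [X.act_e]
    exact X.e_gr k i d u hu
  x_mem k i d u hu := by
    change X.act (D.x k) (X.act (D.e k i) u) ∈ X.gr (d + 2 * D.d i)
    rw [X.act_x, X.act_e]
    exact X.x_gr k i d _ (X.e_gr _ _ _ _ hu) (X.e_idem _ _ _)
  t_mem k i j d u hu := by
    change X.act (D.t k) (X.act (D.e k i) (X.act (D.e (k + 1) j) u)) ∈ X.gr (d - D.d i * D.A i j)
    rw [X.act_t, X.act_e, X.act_e]
    refine X.t_gr k i j d _ (X.e_gr _ _ _ _ (X.e_gr _ _ _ _ hu)) (X.e_idem _ _ _) ?_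
    rw [X.ee_comm, X.e_idem]

namespace GMod

variable (X Y Z : GMod D)

theorem toG_n : X.toG.n = X.n := rfl
theorem toG_smul (a : KLRAlg D) (u : X.M) :
    (HSMul.hSMul (α := KLRAlg D) (β := X.toG.M) a u : X.toG.M) = X.act a u := rfl
theorem toG_e (k : ℕ) (i : I) (u : X.M) :
    (HSMul.hSMul (α := KLRAlg D) (β := X.toG.M) (D.e k i) u : X.toG.M) = X.e k i u :=
  X.act_e k i u
theorem toG_x (k : ℕ) (u : X.M) :
    (HSMul.hSMul (α := KLRAlg D) (β := X.toG.M) (D.x k) u : X.toG.M) = X.x k u :=
  X.act_x k u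
theorem toG_t (k : ℕ) (u : X.M) :
    (HSMul.hSMul (α := KLRAlg D) (β := X.toG.M) (D.t k) u : X.toG.M) = X.t k u :=
  X.act_t k u

end GMod

section ofM

variable {n : ℕ} {M : Type} [AddCommGroup M] [Module K M] [Module (KLRAlg D) M]
  [IsScalarTower K (KLRAlg D) M]

theorem lin_smul (a : KLRAlg D) : IsLinearMap K fun u : M => a • u where
  map_add u v := smul_add a u v
  map_smul r u := smul_comm a r u

omit [Module K M] [IsScalarTower K (KLRAlg D) M] in
theorem pow_smul_iter (a : KLRAlg D) (q : ℕ) (v : M) :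
    (fun v : M => a • v)^[q] v = a ^ q • v := by
  induction q with
  | zero => rw [pow_zero, one_smul]; rfl
  | succ q ih => rw [Function.iterate_succ_apply', ih, pow_succ', mul_smul]

theorem QE_smul (i j : I) (a b : KLRAlg D) (v : M) : D.QE i j a b • v =
    ∑ p ∈ Finset.range (D.nq i j + 1), ∑ q ∈ Finset.range (D.nq j i + 1),
      D.Q i j p q • (fun v : M => a • v)^[p] ((fun v : M => b • v)^[q] v) := by
  unfold Datum.QE
  rw [Finset.sum_smul]
  refine Finset.sum_congr rfl fun p _ => ?_
  rw [Finset.sum_smul]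
  refine Finset.sum_congr rfl fun q _ => ?_
  rw [pow_smul_iter, pow_smul_iter, smul_assoc, mul_smul]

theorem QD_smul (i j : I) (a c b : KLRAlg D) (v : M) : D.QD i j a c b • v =
    ∑ p ∈ Finset.range (D.nq i j + 1), ∑ q ∈ Finset.range (D.nq j i + 1),
      D.Q i j p q • ∑ r ∈ Finset.range p, (fun v : M => a • v)^[r]
        ((fun v : M => c • v)^[p - 1 - r] ((fun v : M => b • v)^[q] v)) := by
  unfold Datum.QD
  rw [Finset.sum_smul]
  refine Finset.sum_congr rfl fun p _ => ?_
  rw [Finset.sum_smul]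
  refine Finset.sum_congr rfl fun q _ => ?_
  rw [smul_assoc, mul_smul, Finset.sum_smul]
  congr 1
  refine Finset.sum_congr rfl fun r _ => ?_
  rw [pow_smul_iter, pow_smul_iter, pow_smul_iter, mul_smul]

/-- the operators of a module over `KLRAlg D` with `n` strands -/
noncomputable def ofM (h : IsStrand D n M) : Mod D where
  n := n
  M := M
  e k i u := D.e k i • u
  x k u := D.x k • u
  t k u := D.t k • u
  e_lin k i := lin_smul _
  x_lin k := lin_smul _
  t_lin k := lin_smul _
  sum_e k u hk := by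
    rw [← Finset.sum_smul]
    exact h.one k hk u
  e_out k i u hk := h.zero k hk i u
  x_out k u hk := h.x_smul_zero hk u
  t_out k u hk := h.t_smul_zero hk u
  ee k i j u := by
    rw [← mul_smul]
    split_ifs with hij
    · rw [hij, D.e_idem]
    · rw [D.e_mul_e_ne k hij, zero_smul]
  ee_comm k l i j u := by rw [← mul_smul, D.e_comm, mul_smul]
  xx k l u := by rw [← mul_smul, D.x_comm, mul_smul]
  xe k l i u := by rw [← mul_smul, D.x_e, mul_smul]
  te0 k i u := by rw [← mul_smul, D.t_e0, mul_smul]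
  te1 k i u := by rw [← mul_smul, D.t_e1, mul_smul]
  te k l i u h1 h2 := by rw [← mul_smul, D.t_e k l i h1 h2, mul_smul]
  tx k l u h1 h2 := by rw [← mul_smul, D.t_x k l h1 h2, mul_smul]
  tx0 k i j u h1 h2 := by
    split_ifs with hij
    · subst hij
      rw [tx0_eq h1 h2]
      abel
    · rw [tx0_ne h1 h2 hij, sub_self]
  tx1 k i j u h1 h2 := by
    split_ifs with hij
    · subst hij
      rw [tx1_eq h1 h2]
      abel
    · rw [tx1_ne h1 h2 hij, sub_self]
  tt k i j u h1 h2 := by
    split_ifs with hij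
    · subst hij
      exact tt_eq h1 h2
    · rw [tt_ne h1 h2 hij, QE_smul]
  far k l u hkl := by rw [← mul_smul, D.t_far k l hkl, mul_smul]
  braid k i j l u h1 h2 h3 := by
    split_ifs with hij
    · obtain ⟨rfl, hij⟩ := hij
      rw [braid_ne h1 h2 h3 hij, add_sub_cancel_left, bterm, QD_smul]
    · rw [braid_eq h1 h2 h3, sub_self]
      by_cases hil : i = l
      · left
        by_contra hh
        exact hij ⟨hil, hh⟩
      · exact Or.inr hil

end ofM

theorem t_mem' (X : KLS.GMod D) (k : ℕ) (i j : I) (d : ℤ) (u : X.M) (hu : u ∈ X.gr d)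
    (h1 : D.e k i • u = u) (h2 : D.e (k + 1) j • u = u) :
    D.t k • u ∈ X.gr (d - D.d i * D.A i j) := by
  have h := X.t_mem k i j d u hu
  rwa [h2, h1] at h

theorem x_mem' (X : KLS.GMod D) (k : ℕ) (i : I) (d : ℤ) (u : X.M) (hu : u ∈ X.gr d)
    (h1 : D.e k i • u = u) : D.x k • u ∈ X.gr (d + 2 * D.d i) := by
  have h := X.x_mem k i d u hu
  rwa [h1] at h

/-- the operators of a graded module over `KLRAlg D` -/
noncomputable def ofG (X : KLS.GMod D) : GMod D where
  toMod := ofM X.strand
  fin := X.fd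
  gr := X.gr
  internal := X.internal
  e_gr := X.e_mem
  x_gr k i d u hu h1 := x_mem' X k i d u hu h1
  t_gr k i j d u hu h1 h2 := t_mem' X k i j d u hu h1 h2

end Pool.Agent.KLS.St

end

section

/-! MP_e487d8_al: mirrored modules, `(M ∘ N)^mir = N^mir ∘ M^mir`. -/

set_option autoImplicit false

namespace Pool.Agent.KLS

variable {K I : Type} [Field K] [Fintype I] [DecidableEq I] {D : Datum K I}

namespace Tw

variable (f : KLRAlg D →ₐ[K] KLRAlg D) {M N P : Type} [AddCommGroup M] [Module K M]
  [Module (KLRAlg D) M] [AddCommGroup N] [Module K N] [Module (KLRAlg D) N]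
  [AddCommGroup P] [Module K P] [Module (KLRAlg D) P]

/-- functoriality of the twist -/
noncomputable def map (g : M →ₗ[KLRAlg D] N) : Tw f M →ₗ[KLRAlg D] Tw f N where
  toFun u := mk f (g ((mk f).symm u))
  map_add' u v := by rw [map_add, map_add, map_add]
  map_smul' a u := by
    obtain ⟨u, rfl⟩ := (mk f).surjective u
    rw [smul_mk, LinearEquiv.symm_apply_apply, LinearEquiv.symm_apply_apply, map_smul, ← smul_mk]
    rfl

@[simp] theorem map_mk (g : M →ₗ[KLRAlg D] N) (u : M) : map f g (mk f u) = mk f (g u) := rfl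

theorem map_injective {g : M →ₗ[KLRAlg D] N} (h : Function.Injective g) :
    Function.Injective (map f g) := h

theorem map_surjective {g : M →ₗ[KLRAlg D] N} (h : Function.Surjective g) :
    Function.Surjective (map f g) := h

end Tw

/-- the mirror of a module with `n` strands -/
abbrev Mir (D : Datum K I) (n : ℕ) (M : Type) : Type := Tw (D.mir n) M

namespace Mir

variable {n m : ℕ} {M N : Type} [AddCommGroup M] [Module K M]
  [Module (KLRAlg D) M] [IsScalarTower K (KLRAlg D) M]
  [AddCommGroup N] [Module K N] [Module (KLRAlg D) N] [IsScalarTower K (KLRAlg D) N]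

omit [IsScalarTower K (KLRAlg D) M] in
theorem isStrand (h : IsStrand D n M) : IsStrand D n (Mir D n M) where
  one k hk u := by
    obtain ⟨u, rfl⟩ := (Tw.mk (D.mir n)).surjective u
    rw [Tw.smul_mk, D.mir_E, if_pos hk, h.one _ (by omega)]
  zero k hk i u := by
    obtain ⟨u, rfl⟩ := (Tw.mk (D.mir n)).surjective u
    rw [Tw.smul_mk, D.mir_e, if_neg (by omega), zero_smul, map_zero]

omit [IsScalarTower K (KLRAlg D) M] in
theorem nilp (hn : Nilp D M) : Nilp D (Mir D n M) := by
  intro k
  obtain ⟨r, hr⟩ := hn (n - 1 - k)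
  refine ⟨r + 1, fun u => ?_⟩
  obtain ⟨u, rfl⟩ := (Tw.mk (D.mir n)).surjective u
  rw [Tw.smul_mk, map_pow, D.mir_x]
  split_ifs with hk
  · rw [pow_succ', mul_smul, hr, smul_zero, map_zero]
  · rw [zero_pow (Nat.succ_ne_zero r), zero_smul, map_zero]

omit [IsScalarTower K (KLRAlg D) M] in
theorem fdMod (h : FdMod D n M) : FdMod D n (Mir D n M) where
  strand := isStrand h.strand
  fd := by have := h.fd; infer_instance
  nilp := nilp h.nilp

/-- the mirror of the mirror is the module itself -/
noncomputable def mirMir (h : IsStrand D n M) : M ≃ₗ[KLRAlg D] Mir D n (Mir D n M) where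
  toFun u := Tw.mk (D.mir n) (Tw.mk (D.mir n) u)
  map_add' u v := rfl
  map_smul' a u := by
    rw [Tw.smul_mk, Tw.smul_mk, D.mir_mir, h.tr_smul le_rfl]
    rfl
  invFun u := (Tw.mk (D.mir n)).symm ((Tw.mk (D.mir n)).symm u)
  left_inv u := rfl
  right_inv u := rfl

/-- submodules of the mirror -/
noncomputable def subEquiv (h : IsStrand D n M) :
    Submodule (KLRAlg D) M ≃o Submodule (KLRAlg D) (Mir D n M) where
  toFun S :=
    { carrier := {u | (Tw.mk (D.mir n)).symm u ∈ S}
      add_mem' := fun {u v} hu hv => S.add_mem hu hv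
      zero_mem' := S.zero_mem
      smul_mem' := fun a u hu => S.smul_mem (D.mir n a) hu }
  invFun S :=
    { carrier := {u | Tw.mk (D.mir n) u ∈ S}
      add_mem' := fun {u v} hu hv => S.add_mem hu hv
      zero_mem' := S.zero_mem
      smul_mem' := fun a u hu => by
        have h1 : D.mir n a • Tw.mk (D.mir n) u ∈ S := S.smul_mem (D.mir n a) hu
        rw [Tw.smul_mk, D.mir_mir, h.tr_smul le_rfl] at h1
        exact h1 }
  left_inv S := by ext; rfl
  right_inv S := by ext; rfl
  map_rel_iff' := Iff.rfl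

omit [IsScalarTower K (KLRAlg D) M] in
theorem mem_subEquiv (h : IsStrand D n M) (S : Submodule (KLRAlg D) M) (u : M) :
    Tw.mk (D.mir n) u ∈ subEquiv h S ↔ u ∈ S := Iff.rfl

omit [IsScalarTower K (KLRAlg D) M] in
theorem isSimple (h : IsStrand D n M) (hs : IsSimpleModule (KLRAlg D) M) :
    IsSimpleModule (KLRAlg D) (Mir D n M) := by
  rw [isSimpleModule_iff] at hs ⊢
  exact (subEquiv h).isSimpleOrder_iff.1 hs

omit [IsScalarTower K (KLRAlg D) M] in
theorem smp (h : Smp D n M) : Smp D n (Mir D n M) where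
  strand := isStrand h.strand
  fd := by have := h.fd; infer_instance
  nilp := nilp h.nilp
  simple := isSimple h.strand h.simple

/-- the bilinear map of `convMir` -/
noncomputable def bil (D : Datum K I) (m n : ℕ) (M N : Type) [AddCommGroup M] [Module K M]
    [Module (KLRAlg D) M] [AddCommGroup N] [Module K N] [Module (KLRAlg D) N] :
    Mir D n N →ₗ[K] Mir D m M →ₗ[K] Mir D (m + n) (Conv D m M N) :=
  LinearMap.mk₂ K (fun v u => Tw.mk (D.mir (m + n)) (Conv.mk D m M N
      ((Tw.mk (D.mir m)).symm u) ((Tw.mk (D.mir n)).symm v)))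
    (by intro u u' v; rw [map_add, map_add, map_add])
    (by intro r u v; rw [map_smul, map_smul, map_smul])
    (by intro u v v'; rw [map_add, map_add, LinearMap.add_apply, map_add])
    (by intro r u v; rw [map_smul, map_smul, LinearMap.smul_apply, map_smul])

omit [IsScalarTower K (KLRAlg D) M] [IsScalarTower K (KLRAlg D) N] in
theorem bil_apply (u : M) (v : N) :
    bil D m n M N (Tw.mk (D.mir n) v) (Tw.mk (D.mir m) u) =
      Tw.mk (D.mir (m + n)) (Conv.mk D m M N u v) := rfl

omit [IsScalarTower K (KLRAlg D) M] [IsScalarTower K (KLRAlg D) N] in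
theorem balanced_bil : Balanced D n (bil D m n M N) where
  left a v u := by
    obtain ⟨u, rfl⟩ := (Tw.mk (D.mir m)).surjective u
    obtain ⟨v, rfl⟩ := (Tw.mk (D.mir n)).surjective v
    rw [bil_apply, Tw.smul_mk, D.mir_tr, Conv.shn_smul_mk, Tw.smul_mk, bil_apply]
  right a v u := by
    obtain ⟨u, rfl⟩ := (Tw.mk (D.mir m)).surjective u
    obtain ⟨v, rfl⟩ := (Tw.mk (D.mir n)).surjective v
    rw [bil_apply, Tw.smul_mk, D.mir_shn, ← D.tr_mir, Conv.tr_smul_mk, Tw.smul_mk, bil_apply]

/-- `N^mir ∘ M^mir → (M ∘ N)^mir` -/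
noncomputable def convMirHom (D : Datum K I) (m n : ℕ) (M N : Type) [AddCommGroup M] [Module K M]
    [Module (KLRAlg D) M] [IsScalarTower K (KLRAlg D) M] [AddCommGroup N] [Module K N]
    [Module (KLRAlg D) N] [IsScalarTower K (KLRAlg D) N] :
    Conv D n (Mir D n N) (Mir D m M) →ₗ[KLRAlg D] Mir D (m + n) (Conv D m M N) :=
  Conv.lift (bil D m n M N) balanced_bil

theorem convMirHom_mk (u : M) (v : N) :
    convMirHom D m n M N (Conv.mk D n (Mir D n N) (Mir D m M) (Tw.mk (D.mir n) v)
      (Tw.mk (D.mir m) u)) = Tw.mk (D.mir (m + n)) (Conv.mk D m M N u v) := by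
  unfold convMirHom
  rw [Conv.lift_mk, bil_apply]

/-- the inverse bilinear map -/
noncomputable def bil' (D : Datum K I) (m n : ℕ) (M N : Type) [AddCommGroup M] [Module K M]
    [Module (KLRAlg D) M] [AddCommGroup N] [Module K N] [Module (KLRAlg D) N] :
    M →ₗ[K] N →ₗ[K] Mir D (m + n) (Conv D n (Mir D n N) (Mir D m M)) :=
  LinearMap.mk₂ K (fun u v => Tw.mk (D.mir (m + n)) (Conv.mk D n (Mir D n N) (Mir D m M)
      (Tw.mk (D.mir n) v) (Tw.mk (D.mir m) u)))
    (by intro u u' v; rw [map_add, map_add, map_add])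
    (by intro r u v; rw [map_smul, map_smul, map_smul])
    (by intro u v v'; rw [map_add, map_add, LinearMap.add_apply, map_add])
    (by intro r u v; rw [map_smul, map_smul, LinearMap.smul_apply, map_smul])

omit [IsScalarTower K (KLRAlg D) M] [IsScalarTower K (KLRAlg D) N] in
theorem balanced_bil' (hM : IsStrand D m M) (hN : IsStrand D n N) :
    Balanced D m (bil' D m n M N) where
  left a u v := by
    unfold bil'
    rw [LinearMap.mk₂_apply, LinearMap.mk₂_apply, Tw.smul_mk]
    have h1 : D.mir (m + n) (D.tr m a) = D.shn n (D.mir m a) := by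
      rw [Nat.add_comm m n, D.mir_tr]
    rw [h1, Conv.shn_smul_mk, Tw.smul_mk, D.mir_mir, hM.tr_smul le_rfl]
  right a u v := by
    unfold bil'
    rw [LinearMap.mk₂_apply, LinearMap.mk₂_apply, Tw.smul_mk]
    have h1 : D.mir (m + n) (D.shn m a) = D.mir n a := by
      rw [Nat.add_comm m n, D.mir_shn]
    rw [h1, ← D.tr_mir, Conv.tr_smul_mk, Tw.smul_mk, D.mir_mir, hN.tr_smul le_rfl]

/-- `M ∘ N → (N^mir ∘ M^mir)^mir` -/
noncomputable def convMirInv (hM : IsStrand D m M) (hN : IsStrand D n N) :
    Conv D m M N →ₗ[KLRAlg D] Mir D (m + n) (Conv D n (Mir D n N) (Mir D m M)) :=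
  Conv.lift (bil' D m n M N) (balanced_bil' hM hN)

omit [IsScalarTower K (KLRAlg D) M] [IsScalarTower K (KLRAlg D) N] in
theorem convMirInv_mk (hM : IsStrand D m M) (hN : IsStrand D n N) (u : M) (v : N) :
    convMirInv hM hN (Conv.mk D m M N u v) = Tw.mk (D.mir (m + n))
      (Conv.mk D n (Mir D n N) (Mir D m M) (Tw.mk (D.mir n) v) (Tw.mk (D.mir m) u)) := by
  unfold convMirInv
  rw [Conv.lift_mk]
  rfl

/-- `N^mir ∘ M^mir = (M ∘ N)^mir` -/
theorem convMirHom_bijective (hM : IsStrand D m M) (hN : IsStrand D n N) :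
    Function.Bijective (convMirHom D m n M N) := by
  have hc : IsStrand D (m + n) (Conv D n (Mir D n N) (Mir D m M)) := by
    rw [Nat.add_comm]
    exact Conv.isStrand (isStrand hN) (isStrand hM)
  have hc' : IsStrand D (m + n) (Conv D m M N) := Conv.isStrand hM hN
  have h1 : (Tw.map (D.mir (m + n)) (convMirHom D m n M N)).comp (convMirInv hM hN) =
      (mirMir hc').toLinearMap := by
    apply Conv.hom_ext
    intro u v
    rw [LinearMap.comp_apply, convMirInv_mk, Tw.map_mk, convMirHom_mk]
    rfl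
  have h2 : (Tw.map (D.mir (m + n)) (convMirInv hM hN)).comp (convMirHom D m n M N) =
      (mirMir hc).toLinearMap := by
    apply Conv.hom_ext
    intro v u
    obtain ⟨u, rfl⟩ := (Tw.mk (D.mir m)).surjective u
    obtain ⟨v, rfl⟩ := (Tw.mk (D.mir n)).surjective v
    rw [LinearMap.comp_apply, convMirHom_mk, Tw.map_mk, convMirInv_mk]
    rfl
  constructor
  · intro y z hyz
    have h3 := congrArg (Tw.map (D.mir (m + n)) (convMirInv hM hN)) hyz
    rw [← LinearMap.comp_apply, ← LinearMap.comp_apply, h2] at h3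
    exact (mirMir hc).injective h3
  · intro z
    obtain ⟨z, rfl⟩ := (Tw.mk (D.mir (m + n))).surjective z
    refine ⟨(Tw.mk (D.mir (m + n))).symm (convMirInv hM hN z), ?_⟩
    exact LinearMap.congr_fun h1 z

/-- `N^mir ∘ M^mir = (M ∘ N)^mir` -/
noncomputable def convMir (hM : IsStrand D m M) (hN : IsStrand D n N) :
    Conv D n (Mir D n N) (Mir D m M) ≃ₗ[KLRAlg D] Mir D (m + n) (Conv D m M N) :=
  LinearEquiv.ofBijective _ (convMirHom_bijective hM hN)

theorem convMir_mk (hM : IsStrand D m M) (hN : IsStrand D n N) (u : M) (v : N) :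
    convMir hM hN (Conv.mk D n (Mir D n N) (Mir D m M) (Tw.mk (D.mir n) v)
      (Tw.mk (D.mir m) u)) = Tw.mk (D.mir (m + n)) (Conv.mk D m M N u v) := convMirHom_mk u v

end Mir

end Pool.Agent.KLS

end
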