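import Pool.Agent.Work.MP_e487d8_al.Bd.B13
import Pool.Agent.Work.MP_e487d8_al.Bd.B06
import Pool.Agent.Work.MP_e487d8_al.Y.Conv.Exact
import Pool.Agent.Work.MP_e487d8_al.Y.Mod.Word
import Pool.Agent.Work.MP_e487d8_al.Y.Conv.K0
import Pool.Agent.Work.MP_e487d8_al.Y.Conv.Fin

/-! Bundle of small proof modules (one section per former module). -/

section

/-! MP_e487d8_al, module side, item DUCHR: the character of the dual module. -/

set_option autoImplicit false
set_option linter.unusedSectionVars false

namespace Pool.Agent.KLS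

variable {K I : Type} [Field K] [Fintype I] [DecidableEq I] (D : Datum K I)

namespace XDUCHR

theorem an_x_pow (k N : ℕ) : D.an (D.x k ^ N) = D.x k ^ N := by
  induction N with
  | zero => rw [pow_zero, D.an_one]
  | succ N ih => rw [pow_succ, D.an_mul, ih, D.an_x, ← pow_succ', ← pow_succ]

theorem wordSp_du (M : Type) [AddCommGroup M] [Module K M] [Module (KLRAlg D) M]
    [IsScalarTower K (KLRAlg D) M] (ν : List I) :
    wordSp D (Du D M) ν = (LinearMap.range
      (Algebra.lsmul K K M (D.eW ν)).dualMap).map (Du.mk D M).toLinearMap := by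
  ext φ
  constructor
  · rintro ⟨ψ, rfl⟩
    refine ⟨(Algebra.lsmul K K M (D.eW ν)).dualMap ((Du.mk D M).symm ψ), ⟨_, rfl⟩, ?_⟩
    refine Du.ext fun u => ?_
    change Du.ev ψ (D.eW ν • u) = Du.ev (D.eW ν • ψ) u
    rw [Du.ev_smul, D.an_eW]
  · rintro ⟨_, ⟨ψ, rfl⟩, rfl⟩
    refine ⟨Du.mk D M ψ, Du.ext fun u => ?_⟩
    change Du.ev (D.eW ν • Du.mk D M ψ) u = Du.ev (Du.mk D M ψ) (D.eW ν • u)
    rw [Du.ev_smul, D.an_eW]

end XDUCHR

theorem Mo.I_DUCHR : StDuChr D := by
  intro n M _ _ _ _ hM
  haveI := hM.fd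
  refine ⟨⟨Du.isStrand hM.strand, inferInstance, fun k => ?_⟩, fun ν => ?_⟩
  · obtain ⟨N, hN⟩ := hM.nilp k
    refine ⟨N, fun φ => Du.ext fun u => ?_⟩
    rw [Du.ev_smul, XDUCHR.an_x_pow, hN, map_zero, Du.ev_zero]
  · unfold chr
    split_ifs
    · rw [XDUCHR.wordSp_du, LinearEquiv.finrank_map_eq,
        LinearMap.finrank_range_dualMap_eq_finrank_range]
      rfl
    · rfl

end Pool.Agent.KLS

end

section

/-! MP_e487d8_al, module side: the dual of a convolution product. -/

set_option autoImplicit false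
set_option linter.unusedSectionVars false

open scoped TensorProduct

namespace Pool.Agent.KLS

variable {K I : Type} [Field K] [Fintype I] [DecidableEq I]

namespace XDUCONV

section

variable {M N : Type} [AddCommGroup M] [Module K M] [AddCommGroup N] [Module K N]

/-- the product of two functionals -/
noncomputable def pr (f : M →ₗ[K] K) (g : N →ₗ[K] K) : M ⊗[K] N →ₗ[K] K :=
  LinearMap.mul' K K ∘ₗ TensorProduct.map f g

theorem pr_tmul (f : M →ₗ[K] K) (g : N →ₗ[K] K) (u : M) (v : N) :
    pr f g (u ⊗ₜ v) = f u * g v := rfl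

theorem pr_add_left (f f' : M →ₗ[K] K) (g : N →ₗ[K] K) (t : M ⊗[K] N) :
    pr (f + f') g t = pr f g t + pr f' g t := by
  unfold pr
  rw [TensorProduct.map_add_left, LinearMap.comp_add, LinearMap.add_apply]

theorem pr_add_right (f : M →ₗ[K] K) (g g' : N →ₗ[K] K) (t : M ⊗[K] N) :
    pr f (g + g') t = pr f g t + pr f g' t := by
  unfold pr
  rw [TensorProduct.map_add_right, LinearMap.comp_add, LinearMap.add_apply]

theorem pr_smul_left (r : K) (f : M →ₗ[K] K) (g : N →ₗ[K] K) (t : M ⊗[K] N) :
    pr (r • f) g t = r • pr f g t := by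
  unfold pr
  rw [TensorProduct.map_smul_left, LinearMap.comp_smul, LinearMap.smul_apply]

theorem pr_smul_right (r : K) (f : M →ₗ[K] K) (g : N →ₗ[K] K) (t : M ⊗[K] N) :
    pr f (r • g) t = r • pr f g t := by
  unfold pr
  rw [TensorProduct.map_smul_right, LinearMap.comp_smul, LinearMap.smul_apply]

theorem pr_comp (f : M →ₗ[K] K) (g : N →ₗ[K] K) (a : M →ₗ[K] M) (b : N →ₗ[K] N)
    (t : M ⊗[K] N) : pr (f ∘ₗ a) (g ∘ₗ b) t = pr f g (TensorProduct.map a b t) := by
  unfold pr
  rw [TensorProduct.map_comp]
  rfl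

/-- the products of functionals separate points -/
theorem pr_sep [FiniteDimensional K M] [FiniteDimensional K N] (t : M ⊗[K] N)
    (h : ∀ (f : M →ₗ[K] K) (g : N →ₗ[K] K), pr f g t = 0) : t = 0 := by
  rw [← Module.forall_dual_apply_eq_zero_iff K]
  intro φ
  obtain ⟨x, rfl⟩ := (TensorProduct.dualDistribEquiv K M N).surjective φ
  induction x using TensorProduct.induction_on with
  | zero => rw [map_zero, LinearMap.zero_apply]
  | add x y hx hy => rw [map_add, LinearMap.add_apply, hx, hy, add_zero]
  | tmul f g =>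
    have h1 : (TensorProduct.dualDistribEquiv K M N) (f ⊗ₜ g) = pr f g := by
      refine TensorProduct.ext' fun u v => ?_
      rw [pr_tmul]
      rfl
    rw [h1]
    exact h f g

end

section

variable {D : Datum K I} {m n : ℕ} {M N : Type} [AddCommGroup M] [Module K M]
  [Module (KLRAlg D) M] [IsScalarTower K (KLRAlg D) M] [AddCommGroup N] [Module K N]
  [Module (KLRAlg D) N] [IsScalarTower K (KLRAlg D) N]

/-- the functional on the convolution product given by two functionals -/
noncomputable def fn (hb : S_basis D) (hM : IsStrand D m M) (hN : IsStrand D n N)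
    (g : Du D N) (f : Du D M) : Du D (Conv D m M N) :=
  Du.mk D _ ((pr (Du.ev f) (Du.ev g)).comp (Conv.Tp hb hM hN))

theorem ev_fn (hb : S_basis D) (hM : IsStrand D m M) (hN : IsStrand D n N)
    (g : Du D N) (f : Du D M) (z : Conv D m M N) :
    Du.ev (fn hb hM hN g f) z = pr (Du.ev f) (Du.ev g) (Conv.Tp hb hM hN z) := rfl

/-- the bilinear map -/
noncomputable def bet (hb : S_basis D) (hM : IsStrand D m M) (hN : IsStrand D n N) :
    Du D N →ₗ[K] Du D M →ₗ[K] Du D (Conv D m M N) :=
  LinearMap.mk₂ K (fn hb hM hN)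
    (fun g g' f => Du.ext fun _ => pr_add_right (Du.ev f) (Du.ev g) (Du.ev g') _)
    (fun r g f => Du.ext fun _ => pr_smul_right r (Du.ev f) (Du.ev g) _)
    (fun g f f' => Du.ext fun _ => pr_add_left (Du.ev f) (Du.ev f') (Du.ev g) _)
    (fun r g f => Du.ext fun _ => pr_smul_left r (Du.ev f) (Du.ev g) _)

theorem bet_apply (hb : S_basis D) (hM : IsStrand D m M) (hN : IsStrand D n N)
    (g : Du D N) (f : Du D M) : bet hb hM hN g f = fn hb hM hN g f := rfl

theorem bet_bal (h1 : StTpTr D) (h2 : StTpShn D) (hb : S_basis D) (hM : IsStrand D m M)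
    (hN : IsStrand D n N) : Balanced D n (bet hb hM hN) where
  left a g f := by
    refine Du.ext fun z => ?_
    rw [Du.ev_smul, bet_apply, bet_apply, ev_fn, ev_fn, D.an_tr, h1]
    have e1 : Du.ev (a • g) = (Du.ev g).comp (Algebra.lsmul K K N (D.an a)) := rfl
    rw [e1]
    exact (pr_comp (Du.ev f) (Du.ev g) LinearMap.id (Algebra.lsmul K K N (D.an a)) _).symm
  right a g f := by
    refine Du.ext fun z => ?_
    rw [Du.ev_smul, bet_apply, bet_apply, ev_fn, ev_fn, D.an_shn, h2]
    have e1 : Du.ev (a • f) = (Du.ev f).comp (Algebra.lsmul K K M (D.an a)) := rfl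
    rw [e1]
    exact (pr_comp (Du.ev f) (Du.ev g) (Algebra.lsmul K K M (D.an a)) LinearMap.id _).symm

end

end XDUCONV

open XDUCONV in
/-- the dual of a convolution product -/
theorem Mo.I_DUCONV (D : Datum K I) (h1 : StTpTr D) (h2 : StTpShn D) (h3 : StTpNd D) :
    StDuConv D := by
  intro hb m n M N _ _ _ _ _ _ _ _ hM hN _ _
  have _ : FiniteDimensional K (Conv D m M N) := Conv.finiteDimensional hb hM hN
  have _ : FiniteDimensional K (Conv D n (Du D N) (Du D M)) :=
    Conv.finiteDimensional hb (Du.isStrand hN) (Du.isStrand hM)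
  set T : Conv D n (Du D N) (Du D M) →ₗ[KLRAlg D] Du D (Conv D m M N) :=
    Conv.lift (bet hb hM hN) (bet_bal h1 h2 hb hM hN) with hT
  have hTm : ∀ (a : KLRAlg D) (g : Du D N) (f : Du D M),
      T (a • Conv.mk D n (Du D N) (Du D M) g f) = a • fn hb hM hN g f := by
    intro a g f
    rw [map_smul, hT, Conv.lift_mk, bet_apply]
  have hsur : Function.Surjective (Conv.toK T) := by
    rw [← LinearMap.range_eq_top]
    by_contra hne
    obtain ⟨F, hF0, hF⟩ := Submodule.exists_dual_map_eq_bot_of_lt_top
      (lt_of_le_of_ne le_top hne) inferInstance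
    obtain ⟨z, rfl⟩ := (Module.evalEquiv K (Conv D m M N)).surjective F
    have hz : z = 0 := by
      refine h3 hb m n M N hM hN z fun a => pr_sep _ fun f g => ?_
      have h4 : Du.ev (T (D.an a • Conv.mk D n (Du D N) (Du D M) (Du.mk D N g) (Du.mk D M f))) z
          = 0 := by
        have h5 := Submodule.mem_map_of_mem
          (f := (Module.evalEquiv K (Conv D m M N)) z) (LinearMap.mem_range_self (Conv.toK T)
          (D.an a • Conv.mk D n (Du D N) (Du D M) (Du.mk D N g) (Du.mk D M f)))
        exact (Submodule.mem_bot K).1 (hF.le h5)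
      rw [hTm, Du.ev_smul, D.an_an, ev_fn] at h4
      exact h4
    exact hF0 ((congrArg _ hz).trans (map_zero _))
  have hfr : Module.finrank K (Conv D n (Du D N) (Du D M)) =
      Module.finrank K (Du D (Conv D m M N)) := by
    have e1 : Module.finrank K (Du D (Conv D m M N)) = Module.finrank K (Conv D m M N) :=
      Subspace.dual_finrank_eq
    have e2 : Module.finrank K (Du D M) = Module.finrank K M := Subspace.dual_finrank_eq
    have e3 : Module.finrank K (Du D N) = Module.finrank K N := Subspace.dual_finrank_eq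
    rw [e1, Conv.finrank hb (Du.isStrand hN) (Du.isStrand hM), Conv.finrank hb hM hN, e2, e3,
      Nat.add_comm n m, ← Nat.choose_symm_add, mul_comm (Module.finrank K N)]
  have hinj : Function.Injective (Conv.toK T) :=
    (LinearMap.injective_iff_surjective_of_finrank_eq_finrank hfr).2 hsur
  exact ⟨LinearEquiv.ofBijective T ⟨hinj, hsur⟩⟩

end Pool.Agent.KLS

end

section

/-! MP_e487d8_al, module side: a simple module is isomorphic to its dual. -/

set_option autoImplicit false

namespace Pool.Agent.KLS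

variable {K I : Type} [Field K] [Fintype I] [DecidableEq I] (D : Datum K I)

theorem Mo.I_DUISO (h1 : StDuChr D) (h2 : StDuSmp D) : StDuIso D := by
  intro Lp hC X
  let X' : SMod D := { n := X.n, M := Du D X.M, smp := h2 X.n X.M X.smp }
  have h : X'.ch = X.ch := funext fun ν => (h1 X.n X.M X.smp.toFdMod).2 ν
  exact SMod.iso_of_ch hC X.n (rfl : X'.n = X.n) h

end Pool.Agent.KLS

end

section

/-! MP_e487d8_al, item DUSMP: the dual of a simple module is simple. -/

set_option autoImplicit false
set_option linter.unusedSectionVars false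

namespace Pool.Agent.KLS

variable {K I : Type} [Field K] [Fintype I] [DecidableEq I] (D : Datum K I)

namespace XDUSMP

variable {M : Type} [AddCommGroup M] [Module K M] [Module (KLRAlg D) M]
  [IsScalarTower K (KLRAlg D) M] [FiniteDimensional K M]

/-- restriction of `u` (as a functional on the dual) to a submodule of the dual -/
noncomputable def res (P : Submodule (KLRAlg D) (Du D M)) : M →ₗ[KLRAlg D] Du D P :=
  (Du.map P.subtype).comp (Du.dd (D := D) (M := M)).toLinearMap

theorem ev_res (P : Submodule (KLRAlg D) (Du D M)) (u : M) (φ : P) :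
    Du.ev (res D P u) φ = Du.ev φ.1 u := rfl

theorem eq_top (P : Submodule (KLRAlg D) (Du D M)) (h : Function.Injective (res D P)) :
    P = ⊤ := by
  by_contra hP
  have h1 : P.restrictScalars K < ⊤ := by
    refine lt_top_iff_ne_top.2 fun h2 => hP ?_
    rwa [Submodule.restrictScalars_eq_top_iff] at h2
  obtain ⟨f, hf, hPf⟩ := Submodule.exists_le_ker_of_lt_top _ h1
  refine hf ?_
  obtain ⟨u, hu⟩ := (Du.dd (D := D) (M := M)).surjective (Du.mk D (Du D M) f)
  have h3 : res D P u = 0 := by
    refine Du.ext fun φ => ?_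
    have h4 : Du.ev (Du.dd (D := D) u) φ.1 = f φ.1 := by
      rw [hu]
      rfl
    rw [ev_res, Du.ev_zero, ← Du.ev_dd (D := D), h4]
    exact hPf φ.2
  have h5 : u = 0 := h (by rw [h3, map_zero])
  have h6 : Du.mk D (Du D M) f = 0 := by rw [← hu, h5, map_zero]
  exact (Du.mk D (Du D M)).injective (by rw [h6, map_zero])

end XDUSMP

theorem Mo.I_DUSMP (h : StDuChr D) : StDuSmp D := by
  intro n M _ _ _ _ hM
  have := hM.fd
  have := hM.simple
  refine { (h n M hM.toFdMod).1 with simple := ?_ }
  have hnt : Nontrivial M := IsSimpleModule.nontrivial (KLRAlg D) M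
  have : Nontrivial (Du D M) := by
    obtain ⟨u, hu⟩ := exists_ne (0 : M)
    by_contra hc
    rw [not_nontrivial_iff_subsingleton] at hc
    refine hu ((Module.forall_dual_apply_eq_zero_iff K u).1 fun f => ?_)
    have h1 : Du.mk D M f = 0 := Subsingleton.elim _ _
    have h2 : f = 0 := (Du.mk D M).injective (by rw [h1, map_zero])
    rw [h2, LinearMap.zero_apply]
  rw [isSimpleModule_iff]
  refine { toNontrivial := ?_, eq_bot_or_eq_top := fun P => ?_ }
  · exact (Submodule.nontrivial_iff (KLRAlg D)).2 inferInstance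
  · by_cases hP : P = ⊥
    · exact Or.inl hP
    · refine Or.inr (XDUSMP.eq_top D P ?_)
      rcases LinearMap.injective_or_eq_zero (XDUSMP.res D P) with h1 | h1
      · exact h1
      · exfalso
        refine hP ((Submodule.eq_bot_iff P).2 fun φ hφ => ?_)
        refine Du.ext fun u => ?_
        rw [Du.ev_zero, ← XDUSMP.ev_res D P u ⟨φ, hφ⟩, h1, LinearMap.zero_apply, Du.ev_zero]

end Pool.Agent.KLS

end

section

/-! MP_e487d8_al, module side: RHO. -/

set_option autoImplicit false
set_option linter.unusedSectionVars false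

open scoped TensorProduct

namespace Pool.Agent.KLS

variable {K I : Type} [Field K] [Fintype I] [DecidableEq I]

namespace XRHO

variable {D : Datum K I}

theorem strandTw {n : ℕ} {M : Type} [AddCommGroup M] [Module K M] [Module (KLRAlg D) M]
    [IsScalarTower K (KLRAlg D) M] (h : IsStrand D (n + 1) M) :
    IsStrand D n (Tw (D.shn 1) M) where
  one k hk u := by
    obtain ⟨u, rfl⟩ := (Tw.mk (D.shn 1)).surjective u
    rw [Tw.smul_mk, D.shn_E, h.one _ (by omega)]
  zero k hk i u := by
    obtain ⟨u, rfl⟩ := (Tw.mk (D.shn 1)).surjective u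
    rw [Tw.smul_mk, D.shn_e, h.zero _ (by omega), map_zero]

/-- add a first letter `true` -/
def consT {m n : ℕ} (w : Shf m n) : Shf m (n + 1) := ⟨true :: w.1, by
  rw [List.count_cons_self, List.count_cons_of_ne (by decide), w.2.1, w.2.2]; exact ⟨rfl, rfl⟩⟩

theorem consT_injective {m n : ℕ} : Function.Injective (consT (m := m) (n := n)) := by
  intro w w' h
  have h1 := congrArg Subtype.val h
  exact Subtype.ext (List.cons.inj h1).2

section

variable {m n : ℕ} {M N : Type} [AddCommGroup M] [Module K M] [Module (KLRAlg D) M]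
  [IsScalarTower K (KLRAlg D) M] [AddCommGroup N] [Module K N] [Module (KLRAlg D) N]
  [IsScalarTower K (KLRAlg D) N]

/-- bilinear map for `phi` -/
noncomputable def bphi (D : Datum K I) (m : ℕ) (M N : Type) [AddCommGroup M] [Module K M]
    [Module (KLRAlg D) M] [IsScalarTower K (KLRAlg D) M] [AddCommGroup N] [Module K N]
    [Module (KLRAlg D) N] [IsScalarTower K (KLRAlg D) N] :
    Tw (D.shn 1) M →ₗ[K] N →ₗ[K] Tw (D.shn 1) (Conv D (m + 1) M N) :=
  ((Conv.mk D (m + 1) M N).compr₂ (Tw.mk (D.shn 1)).toLinearMap).comp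
    (Tw.mk (D.shn 1)).symm.toLinearMap

theorem bphi_apply (u : M) (v : N) : bphi D m M N (Tw.mk (D.shn 1) u) v =
    Tw.mk (D.shn 1) (Conv.mk D (m + 1) M N u v) := rfl

theorem bphi_balanced : Balanced D m (bphi D m M N) where
  left a u v := by
    obtain ⟨u, rfl⟩ := (Tw.mk (D.shn 1)).surjective u
    rw [Tw.smul_mk, bphi_apply, bphi_apply, Tw.smul_mk, ← D.tr_shn, add_comm 1 m,
      Conv.tr_smul_mk]
  right a u v := by
    obtain ⟨u, rfl⟩ := (Tw.mk (D.shn 1)).surjective u
    rw [bphi_apply, bphi_apply, Tw.smul_mk, D.shn_shn, add_comm 1 m, Conv.shn_smul_mk]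

/-- `mk u v ↦ mk u v`, without the first strand of `M` -/
noncomputable def phi (D : Datum K I) (m : ℕ) (M N : Type) [AddCommGroup M] [Module K M]
    [Module (KLRAlg D) M] [IsScalarTower K (KLRAlg D) M] [AddCommGroup N] [Module K N]
    [Module (KLRAlg D) N] [IsScalarTower K (KLRAlg D) N] :
    Conv D m (Tw (D.shn 1) M) N →ₗ[KLRAlg D] Tw (D.shn 1) (Conv D (m + 1) M N) :=
  Conv.lift (bphi D m M N) bphi_balanced

theorem phi_mk (u : M) (v : N) : phi D m M N (Conv.mk D m (Tw (D.shn 1) M) N
    (Tw.mk (D.shn 1) u) v) = Tw.mk (D.shn 1) (Conv.mk D (m + 1) M N u v) := by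
  unfold phi
  rw [Conv.lift_mk, bphi_apply]

/-- the coefficients of `true :: w` vanish on the elements `shn 1 a • mk u v` -/
theorem cf_true_shn (hb : S_basis D) (hM : IsStrand D m M) (hN : IsStrand D n N) (hm : 0 < m)
    (w : List Bool) (a : KLRAlg D) (u : M) (v : N) :
    Conv.cf hb hM hN (true :: w) (D.shn 1 a • Conv.mk D m M N u v) = 0 := by
  obtain ⟨m, rfl⟩ : ∃ m', m = m' + 1 := ⟨m - 1, by omega⟩
  have key : ∀ z : Conv D m (Tw (D.shn 1) M) N,
      Conv.cf hb hM hN (true :: w) ((Tw.mk (D.shn 1)).symm (phi D m M N z)) = 0 := by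
    intro z
    induction z using Conv.ind_tw hb (strandTw hM) hN with
    | h0 => simp only [map_zero]
    | hadd y z hy hz => rw [map_add, map_add, map_add, hy, hz, add_zero]
    | h w' u v =>
      obtain ⟨u, rfl⟩ := (Tw.mk (D.shn 1)).surjective u
      rw [map_smul, phi_mk, Tw.smul_mk, LinearEquiv.symm_apply_apply]
      let w'' : Shf (m + 1) n := ⟨false :: w'.1, by
        rw [List.count_cons_self, List.count_cons_of_ne (by decide), w'.2.1, w'.2.2]
        exact ⟨rfl, rfl⟩⟩
      have h1 := Conv.cf_tw hb hM hN w'' (true :: w) u v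
      rw [if_neg (fun h => Bool.noConfusion (List.cons.inj h).1)] at h1
      exact h1
  have h2 := key (a • Conv.mk D m (Tw (D.shn 1) M) N (Tw.mk (D.shn 1) u) v)
  rw [map_smul, phi_mk, Tw.smul_mk, LinearEquiv.symm_apply_apply] at h2
  exact h2

/-- the submodule generated by the elements `mk u v` (and zero if `m = 0`) -/
noncomputable def FF (D : Datum K I) (m : ℕ) (M N : Type) [AddCommGroup M] [Module K M]
    [Module (KLRAlg D) M] [IsScalarTower K (KLRAlg D) M] [AddCommGroup N] [Module K N]
    [Module (KLRAlg D) N] [IsScalarTower K (KLRAlg D) N] :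
    Submodule (KLRAlg D) (Tw (D.shn 1) (Conv D m M N)) :=
  Submodule.span (KLRAlg D)
    {z | 0 < m ∧ ∃ (u : M) (v : N), z = Tw.mk (D.shn 1) (Conv.mk D m M N u v)}

theorem shn_mem (hm : 0 < m) (a : KLRAlg D) (u : M) (v : N) :
    Tw.mk (D.shn 1) (D.shn 1 a • Conv.mk D m M N u v) ∈ FF D m M N := by
  rw [← Tw.smul_mk]
  exact Submodule.smul_mem _ a (Submodule.subset_span ⟨hm, u, v, rfl⟩)

/-- `W m • mk u v` lies in `FF` -/
theorem W_mem {c : KLRAlg D} (hc : c ∈ Pbw.W D m) (u : M) (v : N) :
    Tw.mk (D.shn 1) (c • Conv.mk D m M N u v) ∈ FF D m M N := by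
  unfold Pbw.W at hc
  induction hc using Submodule.span_induction with
  | mem z hz =>
    obtain ⟨hm, a, b, rfl⟩ := hz
    rw [mul_smul, Conv.tr_smul_mk]
    exact shn_mem hm a _ v
  | zero => rw [zero_smul, map_zero]; exact Submodule.zero_mem _
  | add x y _ _ hx hy => rw [add_smul, map_add]; exact Submodule.add_mem _ hx hy
  | smul r x _ hx =>
    rw [smul_assoc, map_smul, ← algebraMap_smul (KLRAlg D) r]
    exact Submodule.smul_mem _ _ hx

/-- bilinear map for `sig` -/
noncomputable def bsig (D : Datum K I) (m : ℕ) (M N : Type) [AddCommGroup M] [Module K M]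
    [Module (KLRAlg D) M] [IsScalarTower K (KLRAlg D) M] [AddCommGroup N] [Module K N]
    [Module (KLRAlg D) N] [IsScalarTower K (KLRAlg D) N] :
    M →ₗ[K] Tw (D.shn 1) N →ₗ[K] (Tw (D.shn 1) (Conv D m M N) ⧸ FF D m M N) :=
  LinearMap.mk₂ K (fun u v => (FF D m M N).mkQ (Tw.mk (D.shn 1)
    (D.chain m • Conv.mk D m M N u ((Tw.mk (D.shn 1)).symm v))))
    (by
      intro u u' v
      rw [map_add, LinearMap.add_apply, smul_add, map_add, map_add])
    (by
      intro r u v
      rw [map_smul (Conv.mk D m M N), LinearMap.smul_apply, smul_comm (D.chain m) r,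
        map_smul (Tw.mk (D.shn 1))]
      rfl)
    (by
      intro u v v'
      rw [map_add, map_add, smul_add, map_add, map_add])
    (by
      intro r u v
      rw [map_smul (Tw.mk (D.shn 1)).symm, map_smul (Conv.mk D m M N u),
        smul_comm (D.chain m) r, map_smul (Tw.mk (D.shn 1))]
      rfl)

theorem bsig_apply (u : M) (v : N) : bsig D m M N u (Tw.mk (D.shn 1) v) =
    (FF D m M N).mkQ (Tw.mk (D.shn 1) (D.chain m • Conv.mk D m M N u v)) := rfl

theorem bsig_balanced : Balanced D m (bsig D m M N) where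
  left a u v := by
    obtain ⟨v, rfl⟩ := (Tw.mk (D.shn 1)).surjective v
    rw [bsig_apply, bsig_apply, ← map_smul, Tw.smul_mk, ← sub_eq_zero, ← map_sub, ← map_sub,
      ← Conv.tr_smul_mk, ← mul_smul, ← mul_smul, ← sub_smul]
    exact (Submodule.Quotient.mk_eq_zero _).2 (W_mem (Pbw.prf_W1 D m a) u v)
  right a u v := by
    obtain ⟨v, rfl⟩ := (Tw.mk (D.shn 1)).surjective v
    rw [Tw.smul_mk, bsig_apply, bsig_apply, ← map_smul, Tw.smul_mk, ← Conv.shn_smul_mk,
      D.shn_shn, D.shn_shn, ← mul_smul, ← mul_smul, add_comm 1 m, ← Pbw.WX.chain_shn]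

/-- `mk u v ↦ chain m • mk u v` -/
noncomputable def sig (D : Datum K I) (m : ℕ) (M N : Type) [AddCommGroup M] [Module K M]
    [Module (KLRAlg D) M] [IsScalarTower K (KLRAlg D) M] [AddCommGroup N] [Module K N]
    [Module (KLRAlg D) N] [IsScalarTower K (KLRAlg D) N] :
    Conv D m M (Tw (D.shn 1) N) →ₗ[KLRAlg D] (Tw (D.shn 1) (Conv D m M N) ⧸ FF D m M N) :=
  Conv.lift (bsig D m M N) bsig_balanced

theorem sig_mk (u : M) (v : N) : sig D m M N (Conv.mk D m M (Tw (D.shn 1) N) u
    (Tw.mk (D.shn 1) v)) =
    (FF D m M N).mkQ (Tw.mk (D.shn 1) (D.chain m • Conv.mk D m M N u v)) := by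
  unfold sig
  rw [Conv.lift_mk, bsig_apply]

theorem sig_tw (w : Shf m n) (u : M) (v : N) :
    sig D m M N (D.tw w.1 • Conv.mk D m M (Tw (D.shn 1) N) u (Tw.mk (D.shn 1) v)) =
    (FF D m M N).mkQ (Tw.mk (D.shn 1) (D.tw (consT w).1 • Conv.mk D m M N u v)) := by
  rw [map_smul, sig_mk, ← map_smul, Tw.smul_mk, ← mul_smul]
  have h : D.tw (consT w).1 = D.shn 1 (D.tw w.1) * D.chain (w.1.count false) := rfl
  rw [h, w.2.1]

variable (hb : S_basis D) (hM : IsStrand D m M) (hN : IsStrand D (n + 1) N)

/-- the map `rho` -/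
noncomputable def rho : Conv D m M N →ₗ[K] Conv D m M (Tw (D.shn 1) N) :=
  (convSum D m n M (Tw (D.shn 1) N)).comp
    ((Finsupp.mapRange.linearMap
      ((Tw.mk (D.shn 1) : N ≃ₗ[K] Tw (D.shn 1) N).toLinearMap.lTensor M)).comp
      ((Finsupp.lcomapDomain consT consT_injective).comp (Conv.csE hb hM hN).toLinearMap))

theorem cf_rho (hN' : IsStrand D n (Tw (D.shn 1) N)) (w : List Bool) (z : Conv D m M N) :
    Conv.cf hb hM hN' w (rho hb hM hN z) =
      (Tw.mk (D.shn 1) : N ≃ₗ[K] Tw (D.shn 1) N).toLinearMap.lTensor M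
        (Conv.cf hb hM hN (true :: w) z) := by
  by_cases h : w.count false = m ∧ w.count true = n
  · obtain ⟨w, rfl⟩ : ∃ w1 : Shf m n, w1.1 = w := ⟨⟨w, h⟩, rfl⟩
    rw [Conv.cf_shf]
    have h1 : Conv.cf hb hM hN (true :: w.1) z = Conv.csE hb hM hN z (consT w) :=
      Conv.cf_shf hb hM hN (consT w) z
    rw [h1]
    have h2 : Conv.csE hb hM hN' (rho hb hM hN z) = Finsupp.mapRange.linearMap
      ((Tw.mk (D.shn 1) : N ≃ₗ[K] Tw (D.shn 1) N).toLinearMap.lTensor M)
      (Finsupp.lcomapDomain (R := K) consT consT_injective (Conv.csE hb hM hN z)) :=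
      LinearEquiv.symm_apply_apply _ _
    rw [h2]
    rfl
  · rw [Conv.cf_out hb hM hN' h, Conv.cf_out hb hM hN, map_zero]
    rintro ⟨h1, h2⟩
    rw [List.count_cons_of_ne (by decide)] at h1
    rw [List.count_cons_self] at h2
    exact h ⟨h1, by omega⟩

theorem rho_tw_true (w : Shf m n) (u : M) (v : N) :
    rho hb hM hN (D.tw (consT w).1 • Conv.mk D m M N u v) =
      D.tw w.1 • Conv.mk D m M (Tw (D.shn 1) N) u (Tw.mk (D.shn 1) v) := by
  have hN' : IsStrand D n (Tw (D.shn 1) N) := strandTw hN
  refine Conv.cf_ext hb hM hN' fun w' => ?_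
  rw [cf_rho, Conv.cf_tw, Conv.cf_tw]
  by_cases h : w' = w.1
  · have h1 : true :: w' = (consT w).1 := congrArg (List.cons true) h
    rw [if_pos h, if_pos h1]
    rfl
  · have h1 : ¬ true :: w' = (consT w).1 := fun h1 => h (List.cons.inj h1).2
    rw [if_neg h, if_neg h1, map_zero]

theorem rho_shn (hm : 0 < m) (a : KLRAlg D) (u : M) (v : N) :
    rho hb hM hN (D.shn 1 a • Conv.mk D m M N u v) = 0 := by
  have hN' : IsStrand D n (Tw (D.shn 1) N) := strandTw hN
  refine Conv.cf_ext hb hM hN' fun w' => ?_
  rw [cf_rho, cf_true_shn hb hM hN hm, map_zero, map_zero]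

/-- `rho` vanishes on `FF` -/
theorem rho_FF (z : Tw (D.shn 1) (Conv D m M N)) (hz : z ∈ FF D m M N) :
    rho hb hM hN ((Tw.mk (D.shn 1)).symm z) = 0 := by
  have key : ∀ a : KLRAlg D, rho hb hM hN ((Tw.mk (D.shn 1)).symm (a • z)) = 0 := by
    unfold FF at hz
    induction hz using Submodule.span_induction with
    | mem z hz =>
      obtain ⟨hm, u, v, rfl⟩ := hz
      intro a
      rw [Tw.smul_mk, LinearEquiv.symm_apply_apply]
      exact rho_shn hb hM hN hm a u v
    | zero => intro a; simp only [smul_zero, map_zero]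
    | add x y _ _ hx hy => intro a; rw [smul_add, map_add, map_add, hx, hy, add_zero]
    | smul b x _ hx => intro a; rw [← mul_smul]; exact hx _
  have h := key 1
  rwa [one_smul] at h

/-- `sig (rho z)` is the class of `z` -/
theorem sig_rho (z : Conv D m M N) :
    sig D m M N (rho hb hM hN z) = (FF D m M N).mkQ (Tw.mk (D.shn 1) z) := by
  induction z using Conv.ind_tw hb hM hN with
  | h0 => simp only [map_zero]
  | hadd y z hy hz => rw [map_add, map_add, map_add, map_add, hy, hz]
  | h w u v =>
    obtain ⟨w, hw1, hw2⟩ := w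
    match w, hw1, hw2 with
    | [], hw1, hw2 => simp at hw2
    | true :: w, hw1, hw2 =>
      rw [List.count_cons_of_ne (by decide)] at hw1
      rw [List.count_cons_self] at hw2
      have h1 := rho_tw_true hb hM hN (⟨w, hw1, by omega⟩ : Shf m n) u v
      have h2 := sig_tw (D := D) (M := M) (N := N) (⟨w, hw1, by omega⟩ : Shf m n) u v
      change sig D m M N (rho hb hM hN (D.tw (consT (⟨w, hw1, by omega⟩ : Shf m n)).1 •
        Conv.mk D m M N u v)) = _
      rw [h1, h2]
      rfl
    | false :: w, hw1, hw2 =>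
      have hm : 0 < m := by
        rw [List.count_cons_self] at hw1
        omega
      change sig D m M N (rho hb hM hN (D.shn 1 (D.tw w) • Conv.mk D m M N u v)) =
        (FF D m M N).mkQ (Tw.mk (D.shn 1) (D.shn 1 (D.tw w) • Conv.mk D m M N u v))
      rw [rho_shn hb hM hN hm, map_zero]
      exact ((Submodule.Quotient.mk_eq_zero _).2 (shn_mem hm _ u v)).symm

include hb hM hN in
theorem sig_injective : Function.Injective (sig D m M N) := by
  have hN' : IsStrand D n (Tw (D.shn 1) N) := strandTw hN
  have key : ∀ c : Conv D m M (Tw (D.shn 1) N), ∃ z : Conv D m M N,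
      sig D m M N c = (FF D m M N).mkQ (Tw.mk (D.shn 1) z) ∧ rho hb hM hN z = c := by
    intro c
    induction c using Conv.ind_tw hb hM hN' with
    | h0 => exact ⟨0, by simp only [map_zero], map_zero _⟩
    | hadd y z hy hz =>
      obtain ⟨y', hy1, hy2⟩ := hy
      obtain ⟨z', hz1, hz2⟩ := hz
      exact ⟨y' + z', by rw [map_add, map_add, map_add, hy1, hz1], by rw [map_add, hy2, hz2]⟩
    | h w u v =>
      obtain ⟨v, rfl⟩ := (Tw.mk (D.shn 1)).surjective v
      exact ⟨D.tw (consT w).1 • Conv.mk D m M N u v, sig_tw w u v, rho_tw_true hb hM hN w u v⟩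
  rw [injective_iff_map_eq_zero]
  intro c hc
  obtain ⟨z, hz1, hz2⟩ := key c
  rw [hc] at hz1
  have h1 := rho_FF hb hM hN _ ((Submodule.Quotient.mk_eq_zero _).1 hz1.symm)
  rw [LinearEquiv.symm_apply_apply] at h1
  rw [← hz2, h1]

theorem rho_smul (a : KLRAlg D) (z : Conv D m M N) :
    rho hb hM hN (D.shn 1 a • z) = a • rho hb hM hN z := by
  apply sig_injective hb hM hN
  rw [sig_rho, map_smul (sig D m M N), sig_rho, ← map_smul, Tw.smul_mk]

end

end XRHO

theorem Mo.I_RHO (D : Datum K I) : StRho D := by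
  intro hb m n M N _ _ _ _ _ _ _ _ hM hN hN'
  exact ⟨XRHO.rho hb hM hN, XRHO.rho_smul hb hM hN, XRHO.cf_rho hb hM hN hN'⟩

end Pool.Agent.KLS

end

section

/-! MP_e487d8_al, module side, item SWAP: the quotients of `X ∘ Y` are the submodules of
`Y ∘ X`. -/

set_option autoImplicit false
set_option linter.unusedSectionVars false

namespace Pool.Agent.KLS

variable {K I : Type} [Field K] [Fintype I] [DecidableEq I] (D : Datum K I)

theorem Mo.I_SWAP (h1 : StDuConv D) (h2 : StDuIso D) : StSwap D := by
  intro hb Lp hC X Y Z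
  obtain ⟨dX⟩ := h2 Lp hC X
  obtain ⟨dY⟩ := h2 Lp hC Y
  obtain ⟨dZ⟩ := h2 Lp hC Z
  have hX := X.smp.strand
  have hY := Y.smp.strand
  haveI hXf := X.smp.fd
  haveI hYf := Y.smp.fd
  constructor
  · rintro ⟨f, hf⟩
    obtain ⟨e⟩ := h1 hb X.n Y.n X.M Y.M hX hY hXf hYf
    refine ⟨(Conv.map (rfl : Y.n = Y.n) dY.toLinearMap dX.toLinearMap) ∘ₗ e.symm.toLinearMap ∘ₗ
      (Du.map f) ∘ₗ dZ.symm.toLinearMap, ?_⟩
    have h3 : Function.Injective
        (Conv.map (rfl : Y.n = Y.n) dY.toLinearMap dX.toLinearMap) :=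
      Conv.map_injective hb rfl (Du.isStrand hY) (Du.isStrand hX) hY hX _ _ dY.injective
        dX.injective
    exact h3.comp (e.symm.injective.comp ((Du.map_injective hf).comp dZ.symm.injective))
  · rintro ⟨g, hg⟩
    obtain ⟨e⟩ := h1 hb Y.n X.n Y.M X.M hY hX hYf hXf
    refine ⟨dZ.toLinearMap ∘ₗ (Du.map g) ∘ₗ e.toLinearMap ∘ₗ
      (Conv.map (rfl : X.n = X.n) dX.symm.toLinearMap dY.symm.toLinearMap), ?_⟩
    have h3 : Function.Surjective
        (Conv.map (rfl : X.n = X.n) dX.symm.toLinearMap dY.symm.toLinearMap) :=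
      Conv.map_surjective rfl _ _ dX.symm.surjective dY.symm.surjective
    exact dZ.surjective.comp ((Du.map_surjective hg).comp (e.surjective.comp h3))

end Pool.Agent.KLS

end

section

/-! MP_e487d8_al, module side, item T0: the first crossing on the coefficients of
`true :: true :: w`. -/

set_option autoImplicit false
set_option linter.unusedSectionVars false

open scoped TensorProduct

namespace Pool.Agent.KLS

variable {K I : Type} [Field K] [Fintype I] [DecidableEq I] {D : Datum K I}

namespace XT0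

section

variable {m n : ℕ} {M N : Type} [AddCommGroup M] [Module K M] [Module (KLRAlg D) M]
  [IsScalarTower K (KLRAlg D) M] [AddCommGroup N] [Module K N] [Module (KLRAlg D) N]
  [IsScalarTower K (KLRAlg D) N]

theorem strand_tw (hM : IsStrand D (m + 1) M) : IsStrand D m (Tw (D.shn 1) M) where
  one k hk u := by
    obtain ⟨u, rfl⟩ := (Tw.mk (D.shn 1)).surjective u
    rw [Tw.smul_mk, D.shn_E, hM.one (1 + k) (by omega)]
  zero k hk i u := by
    obtain ⟨u, rfl⟩ := (Tw.mk (D.shn 1)).surjective u
    rw [Tw.smul_mk, D.shn_e, hM.zero (1 + k) (by omega), map_zero]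

/-- the elements without coefficients at `true :: w` -/
noncomputable def phi (m : ℕ) : Conv D m (Tw (D.shn 1) M) N →ₗ[KLRAlg D]
    Tw (D.shn 1) (Conv D (m + 1) M N) :=
  Conv.lift (LinearMap.mk₂ K
    (fun (u : Tw (D.shn 1) M) (v : N) => Tw.mk (D.shn 1)
      (Conv.mk D (m + 1) M N ((Tw.mk (D.shn 1)).symm u) v))
    (by intro u u' v; rw [map_add, map_add, LinearMap.add_apply, map_add])
    (by intro r u v; rw [map_smul, map_smul, LinearMap.smul_apply, map_smul])
    (by intro u v v'; rw [map_add, map_add])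
    (by intro r u v; rw [map_smul, map_smul]))
    { left := fun a u v => by
        obtain ⟨u, rfl⟩ := (Tw.mk (D.shn 1)).surjective u
        simp only [LinearMap.mk₂_apply]
        rw [Tw.smul_mk, Tw.smul_mk, LinearEquiv.symm_apply_apply, LinearEquiv.symm_apply_apply,
          ← D.tr_shn, Nat.add_comm 1 m, Conv.tr_smul_mk]
      right := fun a u v => by
        simp only [LinearMap.mk₂_apply]
        rw [Tw.smul_mk, D.shn_shn, Nat.add_comm 1 m, Conv.shn_smul_mk] }

theorem phi_mk (u : M) (v : N) : phi m (Conv.mk D m (Tw (D.shn 1) M) N (Tw.mk (D.shn 1) u) v) =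
    Tw.mk (D.shn 1) (Conv.mk D (m + 1) M N u v) := by
  unfold phi
  rw [Conv.lift_mk]
  rfl

/-- the elements `shn 1 a • mk u v` have no coefficients at `true :: w` -/
theorem cf_shn (hb : S_basis D) (hM : IsStrand D m M) (hN : IsStrand D n N) (hm : 0 < m)
    (w : List Bool) (a : KLRAlg D) (u : M) (v : N) :
    Conv.cf hb hM hN (true :: w) (D.shn 1 a • Conv.mk D m M N u v) = 0 := by
  obtain ⟨m, rfl⟩ : ∃ p, m = p + 1 := ⟨m - 1, by omega⟩
  have key : ∀ z : Conv D m (Tw (D.shn 1) M) N,
      Conv.cf hb hM hN (true :: w) ((Tw.mk (D.shn 1)).symm (phi m z)) = 0 := by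
    intro z
    refine Conv.ind_tw (p := fun z => Conv.cf hb hM hN (true :: w)
      ((Tw.mk (D.shn 1)).symm (phi m z)) = 0) hb (strand_tw hM) hN z ?_ ?_ ?_
    · show Conv.cf hb hM hN (true :: w) ((Tw.mk (D.shn 1)).symm (phi m 0)) = 0
      rw [map_zero, map_zero, map_zero]
    · intro w' u v
      obtain ⟨u, rfl⟩ := (Tw.mk (D.shn 1)).surjective u
      show Conv.cf hb hM hN (true :: w) ((Tw.mk (D.shn 1)).symm
        (phi m (D.tw w'.1 • Conv.mk D m (Tw (D.shn 1) M) N (Tw.mk (D.shn 1) u) v))) = 0
      rw [map_smul, phi_mk, Tw.smul_mk, LinearEquiv.symm_apply_apply]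
      have h1 : (false :: w'.1).count false = m + 1 ∧ (false :: w'.1).count true = n := by
        rw [List.count_cons_self, List.count_cons_of_ne (by simp)]
        exact ⟨by rw [w'.2.1], w'.2.2⟩
      have h2 := Conv.cf_tw hb hM hN (⟨false :: w'.1, h1⟩ : Shf (m + 1) n) (true :: w) u v
      rw [if_neg (by simp)] at h2
      exact h2
    · intro y z hy hz
      show Conv.cf hb hM hN (true :: w) ((Tw.mk (D.shn 1)).symm (phi m (y + z))) = 0
      rw [map_add, map_add, map_add, hy, hz, add_zero]
  have h3 := key (a • Conv.mk D m (Tw (D.shn 1) M) N (Tw.mk (D.shn 1) u) v)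
  rwa [map_smul, phi_mk, Tw.smul_mk, LinearEquiv.symm_apply_apply] at h3

/-- the elements of `W` -/
theorem cf_W (hb : S_basis D) (hM : IsStrand D m M) (hN : IsStrand D n N)
    (w : List Bool) (a z : KLRAlg D) (hz : z ∈ Pbw.W D m) (u : M) (v : N) :
    Conv.cf hb hM hN (true :: w) ((D.shn 1 a * z) • Conv.mk D m M N u v) = 0 := by
  unfold Pbw.W at hz
  induction hz using Submodule.span_induction with
  | mem z hz =>
    obtain ⟨hm, b, c, rfl⟩ := hz
    rw [← mul_assoc, ← map_mul, mul_smul, Conv.tr_smul_mk]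
    exact cf_shn hb hM hN hm w _ _ _
  | zero => rw [mul_zero, zero_smul, map_zero]
  | add x y _ _ hx hy => rw [mul_add, add_smul, map_add, hx, hy, add_zero]
  | smul r x _ hx => rw [mul_smul_comm, smul_assoc, map_smul, hx, smul_zero]

theorem comm2 (a : KLRAlg D) : D.t 0 * D.shn 1 (D.shn 1 a) = D.shn 1 (D.shn 1 a) * D.t 0 := by
  have h := D.tr_mul_shn (le_refl 2) (D.t 0) a
  rw [D.tr_t, if_pos (by omega)] at h
  rw [D.shn_shn]
  exact h

theorem comm1x (a : KLRAlg D) : D.x 0 * D.shn 1 a = D.shn 1 a * D.x 0 :=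
  Pbw.Stable.comm1 D (by rw [D.tr_x, if_pos (by omega)]) a

theorem comm1e (i : I) (a : KLRAlg D) : D.e 0 i * D.shn 1 a = D.shn 1 a * D.e 0 i :=
  Pbw.Stable.comm1 D (by rw [D.tr_e, if_pos (by omega)]) a

/-- the elements which map the span of `shn 1 a • mk u v` to itself -/
def Ok (m : ℕ) (M N : Type) [AddCommGroup M] [Module K M] [Module (KLRAlg D) M]
    [AddCommGroup N] [Module K N] [Module (KLRAlg D) N] (z : KLRAlg D) : Prop :=
  ∀ y ∈ Submodule.span K {y : Conv D m M N | ∃ a u v, y = D.shn 1 a • Conv.mk D m M N u v},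
    z • y ∈ Submodule.span K {y : Conv D m M N | ∃ a u v, y = D.shn 1 a • Conv.mk D m M N u v}

theorem Ok.of {z : KLRAlg D} (h : ∀ (a : KLRAlg D) (u : M) (v : N), ∃ (b : KLRAlg D) (u' : M),
    z • D.shn 1 a • Conv.mk D m M N u v = D.shn 1 b • Conv.mk D m M N u' v) : Ok m M N z := by
  intro y hy
  induction hy using Submodule.span_induction with
  | mem y hy =>
    obtain ⟨a, u, v, rfl⟩ := hy
    obtain ⟨b, u', h1⟩ := h a u v
    rw [h1]
    exact Submodule.subset_span ⟨b, u', v, rfl⟩
  | zero => rw [smul_zero]; exact Submodule.zero_mem _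
  | add x y _ _ hx hy => rw [smul_add]; exact Submodule.add_mem _ hx hy
  | smul r x _ hx => rw [smul_algebra_smul_comm]; exact Submodule.smul_mem _ r hx

theorem Ok.mul {z z' : KLRAlg D} (h : Ok m M N z) (h' : Ok m M N z') : Ok m M N (z * z') := by
  intro y hy
  rw [mul_smul]
  exact h _ (h' _ hy)

theorem Ok.sub {z z' : KLRAlg D} (h : Ok m M N z) (h' : Ok m M N z') : Ok m M N (z - z') := by
  intro y hy
  rw [sub_smul]
  exact Submodule.sub_mem _ (h _ hy) (h' _ hy)

theorem Ok.sum {ι : Type} (s : Finset ι) {f : ι → KLRAlg D} (h : ∀ i ∈ s, Ok m M N (f i)) :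
    Ok m M N (∑ i ∈ s, f i) := by
  intro y hy
  rw [Finset.sum_smul]
  exact Submodule.sum_mem _ fun i hi => h i hi _ hy

theorem Ok.smul (r : K) {z : KLRAlg D} (h : Ok m M N z) : Ok m M N (r • z) := by
  intro y hy
  rw [smul_assoc]
  exact Submodule.smul_mem _ r (h _ hy)

theorem Ok.zero : Ok m M N (0 : KLRAlg D) := by
  intro y _
  rw [zero_smul]
  exact Submodule.zero_mem _

theorem Ok.one : Ok m M N (1 : KLRAlg D) := by
  intro y hy
  rw [one_smul]
  exact hy

theorem Ok.pow {z : KLRAlg D} (h : Ok m M N z) (p : ℕ) : Ok m M N (z ^ p) := by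
  induction p with
  | zero => rw [pow_zero]; exact Ok.one
  | succ p ih => rw [pow_succ]; exact ih.mul h

theorem Ok.shn (b : KLRAlg D) : Ok m M N (D.shn 1 b) :=
  Ok.of fun a u v => ⟨b * a, u, by rw [map_mul, mul_smul]⟩

theorem Ok.x0 (hm : 0 < m) : Ok m M N (D.x 0) :=
  Ok.of fun a u v => ⟨a, D.x 0 • u, by
    rw [← mul_smul, comm1x, mul_smul, ← Conv.tr_smul_mk, D.tr_x, if_pos hm]⟩

theorem Ok.e0 (hm : 0 < m) (i : I) : Ok m M N (D.e 0 i) :=
  Ok.of fun a u v => ⟨a, D.e 0 i • u, by
    rw [← mul_smul, comm1e, mul_smul, ← Conv.tr_smul_mk, D.tr_e, if_pos hm]⟩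

theorem Ok.tt (hm : 0 < m) : Ok m M N (D.t 0 * D.t 0) := by
  rw [D.t_t]
  refine Ok.sum _ fun i _ => Ok.sum _ fun j _ => ?_
  split_ifs
  · exact Ok.zero
  · have hx1 : Ok m M N (D.x (0 + 1)) := by
      have h := Ok.shn (m := m) (M := M) (N := N) (D.x 0)
      rwa [D.shn_x] at h
    have he1 : Ok m M N (D.e (0 + 1) j) := by
      have h := Ok.shn (m := m) (M := M) (N := N) (D.e 0 j)
      rwa [D.shn_e] at h
    refine Ok.mul ?_ ((Ok.e0 hm i).mul he1)
    unfold Datum.QE
    exact Ok.sum _ fun p _ => Ok.sum _ fun q _ => Ok.smul _ (((Ok.x0 hm).pow _).mul (hx1.pow _))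

theorem cf_span (hb : S_basis D) (hM : IsStrand D m M) (hN : IsStrand D n N) (hm : 0 < m)
    (w : List Bool) {y : Conv D m M N} (hy : y ∈ Submodule.span K
      {y : Conv D m M N | ∃ a u v, y = D.shn 1 a • Conv.mk D m M N u v}) :
    Conv.cf hb hM hN (true :: w) y = 0 := by
  induction hy using Submodule.span_induction with
  | mem y hy =>
    obtain ⟨a, u, v, rfl⟩ := hy
    exact cf_shn hb hM hN hm w a u v
  | zero => rw [map_zero]
  | add x y _ _ hx hy => rw [map_add, hx, hy, add_zero]
  | smul r x _ hx => rw [map_smul, hx, smul_zero]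

end

end XT0

open XT0

variable (D)

theorem Mo.I_T0 : StT0 D := by
  intro hb m n M N _ _ _ _ _ _ _ _ hM hN w z
  by_cases hw : (true :: true :: w).count false = m ∧ (true :: true :: w).count true = n
  swap
  · rw [Conv.cf_out hb hM hN hw, Conv.cf_out hb hM hN hw, map_zero]
  have hn : 2 ≤ n := by
    rw [← hw.2, List.count_cons_self, List.count_cons_self]
    omega
  refine Conv.ind_tw (p := fun z => Conv.cf hb hM hN (true :: true :: w) (D.t 0 • z) =
    aR D M N (D.t 0) (Conv.cf hb hM hN (true :: true :: w) z)) hb hM hN z ?_ ?_ ?_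
  · show Conv.cf hb hM hN (true :: true :: w) (D.t 0 • 0) =
      aR D M N (D.t 0) (Conv.cf hb hM hN (true :: true :: w) 0)
    rw [smul_zero, map_zero, map_zero]
  swap
  · intro y z hy hz
    show Conv.cf hb hM hN (true :: true :: w) (D.t 0 • (y + z)) =
      aR D M N (D.t 0) (Conv.cf hb hM hN (true :: true :: w) (y + z))
    rw [smul_add, map_add, map_add, map_add, hy, hz]
  rintro ⟨w0, h0, h1⟩ u v
  have hc := Conv.cf_tw hb hM hN ⟨w0, h0, h1⟩
  match w0, h0, h1, hc with
  | [], h0, h1, _ => simp at h1; omega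
  | [b], h0, h1, _ =>
    have : [b].count true ≤ 1 := List.count_le_length
    omega
  | false :: false :: w1, h0, h1, hc =>
    have hm : 2 ≤ m := by
      rw [← h0, List.count_cons_self, List.count_cons_self]
      omega
    have e1 : D.tw (false :: false :: w1) = D.shn 1 (D.shn 1 (D.tw w1)) := rfl
    have e2 : D.t 0 • D.tw (false :: false :: w1) • Conv.mk D m M N u v =
        D.tw (false :: false :: w1) • Conv.mk D m M N (D.t 0 • u) v := by
      rw [e1, ← mul_smul, comm2, mul_smul, ← Conv.tr_smul_mk (D.t 0), D.tr_t, if_pos (by omega)]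
    rw [e2, hc, hc, if_neg (by simp), if_neg (by simp), map_zero]
  | false :: true :: w1, h0, h1, hc =>
    rw [hc, if_neg (by simp), map_zero]
    have e1 : D.tw (false :: true :: w1) =
        D.shn 1 (D.shn 1 (D.tw w1) * D.chain (w1.count false)) := rfl
    have e2 : D.tw (true :: false :: w1) =
        D.shn 1 (D.shn 1 (D.tw w1)) * D.chain ((false :: w1).count false) := rfl
    have e3 : D.t 0 • D.tw (false :: true :: w1) • Conv.mk D m M N u v =
        D.tw (true :: false :: w1) • Conv.mk D m M N u v := by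
      rw [e1, e2, ← mul_smul, map_mul, ← mul_assoc, comm2, mul_assoc, List.count_cons_self,
        Pbw.Stable.chain_succ]
    have h2 : (true :: false :: w1).count false = m ∧ (true :: false :: w1).count true = n := by
      rw [List.count_cons_self, List.count_cons_of_ne (by simp)] at h0
      rw [List.count_cons_of_ne (by simp), List.count_cons_self] at h1
      rw [List.count_cons_of_ne (by simp), List.count_cons_self, List.count_cons_self,
        List.count_cons_of_ne (by simp)]
      exact ⟨h0, h1⟩
    have hc2 := Conv.cf_tw hb hM hN ⟨true :: false :: w1, h2⟩ (true :: true :: w) u v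
    rw [e3]
    rw [if_neg (by simp)] at hc2
    exact hc2
  | true :: false :: w1, h0, h1, hc =>
    rw [hc, if_neg (by simp), map_zero]
    have hm : 0 < m := by
      rw [← h0, List.count_cons_of_ne (by simp), List.count_cons_self]
      omega
    have e2 : D.tw (true :: false :: w1) =
        D.shn 1 (D.shn 1 (D.tw w1)) * D.chain ((false :: w1).count false) := rfl
    have e3 : D.t 0 • D.tw (true :: false :: w1) • Conv.mk D m M N u v =
        D.shn 1 (D.shn 1 (D.tw w1)) • (D.t 0 * D.t 0) •
          D.shn 1 (D.chain (w1.count false)) • Conv.mk D m M N u v := by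
      rw [e2, List.count_cons_self, Pbw.Stable.chain_succ, ← mul_smul, ← mul_smul, ← mul_smul,
        ← mul_assoc, ← mul_assoc, comm2]
      simp only [mul_assoc]
    rw [e3]
    exact cf_span hb hM hN hm _ (Ok.shn _ _ (Ok.tt hm _ (Submodule.subset_span ⟨_, u, v, rfl⟩)))
  | true :: true :: w1, h0, h1, hc =>
    have hcm : w1.count false = m := by
      rw [List.count_cons_of_ne (by simp), List.count_cons_of_ne (by simp)] at h0
      exact h0
    have e1 : D.tw (true :: true :: w1) = D.shn 1 (D.shn 1 (D.tw w1) *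
        D.chain (w1.count false)) * D.chain ((true :: w1).count false) := rfl
    rw [List.count_cons_of_ne (by simp), hcm, map_mul, mul_assoc] at e1
    set Z := D.shn 1 (D.chain m) * D.chain m with hZ
    have hW := Pbw.prf_W3 D m
    rw [← hZ] at hW
    have e2 : D.t 0 • D.tw (true :: true :: w1) • Conv.mk D m M N u v =
        D.tw (true :: true :: w1) • Conv.mk D m M N u (D.t 0 • v) +
          (D.shn 1 (D.shn 1 (D.tw w1)) * (D.t 0 * Z - Z * D.t m)) • Conv.mk D m M N u v := by
      have e3 : D.t m • Conv.mk D m M N u v = Conv.mk D m M N u (D.t 0 • v) := by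
        rw [← Conv.shn_smul_mk, D.shn_t, Nat.add_zero]
      rw [← e3, e1, ← mul_smul, ← mul_smul, ← add_smul, ← mul_assoc, comm2]
      congr 1
      noncomm_ring
    rw [e2, map_add, cf_W hb hM hN _ _ _ hW, add_zero, hc, hc]
    split_ifs
    · unfold aR
      rw [LinearMap.lTensor_tmul]
      rfl
    · rw [map_zero]

end Pool.Agent.KLS

end

section

/-! MP_e487d8_al, module side, item TK: the crossing `t k` on the coefficients of
`false^k true false w`, if the coefficients of `false^j true ..`, `j ≤ k`, vanish. -/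

set_option autoImplicit false
set_option linter.unusedSectionVars false

open scoped TensorProduct

namespace Pool.Agent.KLS

variable {K I : Type} [Field K] [Fintype I] [DecidableEq I] {D : Datum K I}

namespace XTK

theorem cases_word (k : ℕ) (w0 : List Bool) :
    (∃ j ≤ k, ∃ w', w0 = List.replicate j false ++ true :: w') ∨
    (∃ w', w0 = List.replicate (k + 1) false ++ w') ∨ w0.count true = 0 := by
  induction k generalizing w0 with
  | zero =>
    match w0 with
    | [] => exact Or.inr (Or.inr rfl)
    | true :: w => exact Or.inl ⟨0, le_refl 0, w, rfl⟩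
    | false :: w => exact Or.inr (Or.inl ⟨w, rfl⟩)
  | succ k ih =>
    match w0 with
    | [] => exact Or.inr (Or.inr rfl)
    | true :: w => exact Or.inl ⟨0, Nat.zero_le _, w, rfl⟩
    | false :: w =>
      rcases ih w with ⟨j, hj, w', h⟩ | ⟨w', h⟩ | h
      · refine Or.inl ⟨j + 1, by omega, w', ?_⟩
        rw [h, List.replicate_succ, List.cons_append]
      · refine Or.inr (Or.inl ⟨w', ?_⟩)
        rw [h, List.replicate_succ (n := k + 1), List.cons_append]
      · refine Or.inr (Or.inr ?_)
        rw [List.count_cons_of_ne (by simp), h]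

theorem count_false_rep (k : ℕ) (w : List Bool) :
    (List.replicate k false ++ w).count false = k + w.count false := by
  rw [List.count_append, List.count_replicate_self]

theorem count_true_rep (k : ℕ) (w : List Bool) :
    (List.replicate k false ++ w).count true = w.count true := by
  rw [List.count_append, List.count_replicate, if_neg (by simp), Nat.zero_add]

/-- `t k` commutes with the strands from `k + 2` on -/
theorem comm (k : ℕ) (a : KLRAlg D) : D.t k * D.shn (k + 2) a = D.shn (k + 2) a * D.t k := by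
  have h := D.tr_mul_shn (le_refl (k + 2)) (D.t k) a
  rwa [D.tr_t, if_pos (by omega)] at h

/-- the case `false^(k+1) true w` -/
theorem mul_tw (k : ℕ) (w : List Bool) :
    D.t k * D.tw (List.replicate (k + 1) false ++ true :: w) =
      D.tw (List.replicate k false ++ true :: false :: w) := by
  rw [D.tw_false_append, D.tw_false_append]
  have e1 : D.tw (true :: w) = D.shn 1 (D.tw w) * D.chain (w.count false) := rfl
  have e2 : D.tw (true :: false :: w) =
      D.shn 1 (D.shn 1 (D.tw w)) * D.chain ((false :: w).count false) := rfl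
  rw [e1, e2, List.count_cons_self, Pbw.Stable.chain_succ, map_mul, map_mul, map_mul,
    D.shn_shn, D.shn_shn, D.shn_shn, D.shn_shn, D.shn_t, ← mul_assoc]
  have e3 : k + 1 + 1 = k + 2 := rfl
  have e4 : k + (1 + 1) = k + 2 := rfl
  rw [e3, e4, comm, mul_assoc]
  rfl

section

variable {m n : ℕ} {M N : Type} [AddCommGroup M] [Module K M] [Module (KLRAlg D) M]
  [IsScalarTower K (KLRAlg D) M] [AddCommGroup N] [Module K N] [Module (KLRAlg D) N]
  [IsScalarTower K (KLRAlg D) N]

/-- the statement for one summand -/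
theorem cf_mk (hb : S_basis D) (hM : IsStrand D m M) (hN : IsStrand D n N) (k : ℕ)
    (w : List Bool) (hw : (List.replicate k false ++ true :: false :: w).count true = n)
    (w0 : Shf m n)
    (h0 : ¬ ∃ j ≤ k, ∃ w', w0.1 = List.replicate j false ++ true :: w') (u : M) (v : N) :
    Conv.cf hb hM hN (List.replicate k false ++ true :: false :: w)
        (D.t k • D.tw w0.1 • Conv.mk D m M N u v) =
      Conv.cf hb hM hN (List.replicate (k + 1) false ++ true :: w)
        (D.tw w0.1 • Conv.mk D m M N u v) := by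
  have hn : 1 ≤ n := by
    rw [← hw, count_true_rep, List.count_cons_self]
    omega
  rcases cases_word k w0.1 with h | ⟨w', h⟩ | h
  · exact absurd h h0
  swap
  · exfalso
    have h1 := w0.2.2
    omega
  obtain ⟨w0, hf, ht⟩ := w0
  simp only at h h0
  subst h
  have hc := Conv.cf_tw hb hM hN ⟨_, hf, ht⟩
  match w', hf, ht, hc with
  | [], hf, ht, _ =>
    exfalso
    rw [count_true_rep, List.count_nil] at ht
    omega
  | true :: w1, hf, ht, hc =>
    have h2 : (List.replicate k false ++ true :: false :: w1).count false = m ∧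
        (List.replicate k false ++ true :: false :: w1).count true = n := by
      rw [count_false_rep, List.count_cons_of_ne (by simp)] at hf
      rw [count_true_rep, List.count_cons_self] at ht
      rw [count_false_rep, count_true_rep, List.count_cons_of_ne (by simp), List.count_cons_self,
        List.count_cons_self, List.count_cons_of_ne (by simp)]
      exact ⟨by omega, ht⟩
    have hc2 := Conv.cf_tw hb hM hN ⟨_, h2⟩ (List.replicate k false ++ true :: false :: w) u v
    rw [← mul_smul, mul_tw, hc]
    refine Eq.trans hc2 ?_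
    by_cases h : w = w1
    · subst h
      rw [if_pos rfl, if_pos rfl]
    · rw [if_neg (fun h1 => h ?_), if_neg (fun h1 => h ?_)]
      · have h3 := List.append_cancel_left h1
        simpa using h3
      · have h3 := List.append_cancel_left h1
        simpa using h3
  | false :: w1, hf, ht, hc =>
    have hm : k + 2 ≤ m := by
      rw [← hf, count_false_rep, List.count_cons_self]
      omega
    have e0 : List.replicate (k + 1) false ++ false :: w1 =
        List.replicate (k + 2) false ++ w1 := by
      rw [List.replicate_succ' (n := k + 1), List.append_assoc]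
      rfl
    have e2 : D.t k • D.tw (List.replicate (k + 1) false ++ false :: w1) •
        Conv.mk D m M N u v = D.tw (List.replicate (k + 1) false ++ false :: w1) •
          Conv.mk D m M N (D.t k • u) v := by
      rw [e0, D.tw_false_append, ← mul_smul, comm, mul_smul, ← Conv.tr_smul_mk (D.t k), D.tr_t,
        if_pos (by omega)]
    rw [e2, hc, hc, if_neg, if_neg]
    · intro h1
      have h3 := List.append_cancel_left h1
      simp at h3
    · intro h1
      have e5 : List.replicate (k + 1) false ++ false :: w1 =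
          List.replicate k false ++ false :: false :: w1 := by
        rw [List.replicate_succ', List.append_assoc]
        rfl
      have h3 := List.append_cancel_left (h1.trans e5)
      simp at h3

end

end XTK

open XTK

variable (D)

theorem Mo.I_TK : StTk D := by
  intro hb m n M N _ _ _ _ _ _ _ _ hM hN k z hz w
  by_cases hw : (List.replicate k false ++ true :: false :: w).count false = m ∧
      (List.replicate k false ++ true :: false :: w).count true = n
  swap
  · rw [Conv.cf_out hb hM hN hw, Conv.cf_out hb hM hN]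
    intro h
    apply hw
    rw [count_false_rep, count_true_rep, List.count_cons_of_ne (by simp),
      List.count_cons_self] at h
    rw [count_false_rep, count_true_rep, List.count_cons_of_ne (by simp), List.count_cons_self,
      List.count_cons_self, List.count_cons_of_ne (by simp)]
    exact ⟨by omega, h.2⟩
  have key : ∀ (w0 : Shf m n)
      (_ : ¬ ∃ j ≤ k, ∃ w', w0.1 = List.replicate j false ++ true :: w') (s : M ⊗[K] N),
      Conv.cf hb hM hN (List.replicate k false ++ true :: false :: w)
          (D.t k • convSum D m n M N (Finsupp.single w0 s)) =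
        Conv.cf hb hM hN (List.replicate (k + 1) false ++ true :: w)
          (convSum D m n M N (Finsupp.single w0 s)) := by
    intro w0 h0 s
    induction s using TensorProduct.induction_on with
    | zero => rw [Finsupp.single_zero, map_zero, smul_zero, map_zero, map_zero]
    | tmul u v =>
      rw [convSum_single]
      exact cf_mk hb hM hN k w hw.2 w0 h0 u v
    | add s t hs ht => rw [Finsupp.single_add, map_add, smul_add, map_add, map_add, hs, ht]
  have e1 : z = (Conv.csE hb hM hN z).sum fun w0 s => convSum D m n M N (Finsupp.single w0 s) := by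
    rw [← map_finsuppSum, Finsupp.sum_single]
    exact ((Conv.csE hb hM hN).symm_apply_apply z).symm
  have e2 : D.t k • z = (Conv.csE hb hM hN z).sum fun w0 s =>
      D.t k • convSum D m n M N (Finsupp.single w0 s) := by
    conv_lhs => rw [e1]
    rw [Finsupp.smul_sum]
  rw [e2, map_finsuppSum]
  conv_rhs => rw [e1, map_finsuppSum]
  refine Finset.sum_congr rfl fun w0 h0 => key w0 ?_ _
  rintro ⟨j, hj, w', h⟩
  have h1 := hz j hj w'
  rw [← h, Conv.cf_shf] at h1
  exact (Finsupp.mem_support_iff.1 h0) h1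

end Pool.Agent.KLS

end

section

/-! MP_e487d8_al, module side: the top coefficient is non degenerate. -/

set_option autoImplicit false
set_option linter.unusedSectionVars false

open scoped TensorProduct

namespace Pool.Agent.KLS

variable {K I : Type} [Field K] [Fintype I] [DecidableEq I] (D : Datum K I)

namespace XTPND

theorem twStrand {n : ℕ} {N : Type} [AddCommGroup N] [Module K N] [Module (KLRAlg D) N]
    [IsScalarTower K (KLRAlg D) N] (hN : IsStrand D (n + 1) N) :
    IsStrand D n (Tw (D.shn 1) N) where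
  one := fun k hk v => by
    obtain ⟨v, rfl⟩ := (Tw.mk (D.shn 1)).surjective v
    rw [Tw.smul_mk, D.shn_E, hN.one (1 + k) (by omega)]
  zero := fun k hk j v => by
    obtain ⟨v, rfl⟩ := (Tw.mk (D.shn 1)).surjective v
    rw [Tw.smul_mk, D.shn_e, hN.zero (1 + k) (by omega), map_zero]

theorem eq_replicate : ∀ (w : List Bool), w.count true = 0 → w = List.replicate (w.count false) false
  | [], _ => rfl
  | true :: w, h => by simp at h
  | false :: w, h => by
    have h1 : w.count true = 0 := by simpa using h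
    have h2 := eq_replicate w h1
    rw [List.count_cons_self, List.replicate_succ, ← h2]

theorem exists_first : ∀ (w : List Bool), 0 < w.count true →
    ∃ (k : ℕ) (w' : List Bool), w = List.replicate k false ++ true :: w'
  | [], h => by simp at h
  | true :: w, _ => ⟨0, w, rfl⟩
  | false :: w, h => by
    have h1 : 0 < w.count true := by simpa using h
    obtain ⟨k, w', h2⟩ := exists_first w h1
    exact ⟨k + 1, w', by rw [List.replicate_succ, List.cons_append, ← h2]⟩

end XTPND

theorem Mo.I_TPND (hR : StRho D) (hT : StTk D) : StTpNd D := by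
  intro hb m n
  induction n with
  | zero =>
    intro M N _ _ _ _ _ _ _ _ hM hN z hz
    apply Conv.cf_ext hb hM hN
    intro w
    rw [map_zero]
    by_cases h : w.count false = m ∧ w.count true = 0
    · have h1 := XTPND.eq_replicate w h.2
      rw [h.1] at h1
      have h2 := hz 1
      rw [one_smul] at h2
      rw [h1]
      exact h2
    · exact Conv.cf_out hb hM hN h z
  | succ n ih =>
    intro M N _ _ _ _ _ _ _ _ hM hN z hz
    have hN' := XTPND.twStrand D hN
    obtain ⟨ρ, h1, h2⟩ := hR hb m n M N hM hN hN'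
    have hinj : Function.Injective
        ((Tw.mk (D.shn 1) : N ≃ₗ[K] Tw (D.shn 1) N).toLinearMap.lTensor M) :=
      (LinearEquiv.lTensor M (Tw.mk (D.shn 1) : N ≃ₗ[K] Tw (D.shn 1) N)).injective
    have P0 : ∀ (b : KLRAlg D) (w : List Bool), Conv.cf hb hM hN (true :: w) (b • z) = 0 := by
      intro b
      have h3 : ρ (b • z) = 0 := by
        apply ih M (Tw (D.shn 1) N) hM hN'
        intro a
        have h4 : Conv.Tp hb hM hN' (a • ρ (b • z)) =
            (Tw.mk (D.shn 1) : N ≃ₗ[K] Tw (D.shn 1) N).toLinearMap.lTensor M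
              (Conv.Tp hb hM hN ((D.shn 1 a * b) • z)) := by
          rw [← h1, ← mul_smul]
          exact h2 (List.replicate n true ++ List.replicate m false) _
        rw [h4, hz, map_zero]
      intro w
      apply hinj
      rw [← h2, h3, map_zero, map_zero]
    have P : ∀ (k : ℕ) (b : KLRAlg D) (w : List Bool),
        Conv.cf hb hM hN (List.replicate k false ++ true :: w) (b • z) = 0 := by
      intro k
      induction k using Nat.strong_induction_on with
      | _ k IH =>
        cases k with
        | zero => exact P0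
        | succ k =>
          intro b w
          have h5 := hT hb m (n + 1) M N hM hN k (b • z)
            (fun j hj w' => IH j (by omega) b w') w
          rw [← h5, ← mul_smul]
          exact IH k (by omega) (D.t k * b) (false :: w)
    apply Conv.cf_ext hb hM hN
    intro w
    rw [map_zero]
    by_cases h : w.count false = m ∧ w.count true = n + 1
    · obtain ⟨k, w', rfl⟩ := XTPND.exists_first w (by omega)
      have h6 := P k 1 w'
      rw [one_smul] at h6
      exact h6
    · exact Conv.cf_out hb hM hN h z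

end Pool.Agent.KLS

end

section

/-! MP_e487d8_al, module side, item TPSHN: the top coefficient and the last strands. -/

set_option autoImplicit false
set_option linter.unusedSectionVars false

open scoped TensorProduct

namespace Pool.Agent.KLS

variable {K I : Type} [Field K] [Fintype I] [DecidableEq I] (D : Datum K I)

namespace XTPSHN

variable {D}

theorem strandTw {n : ℕ} {M : Type} [AddCommGroup M] [Module K M] [Module (KLRAlg D) M]
    [IsScalarTower K (KLRAlg D) M] (hM : IsStrand D (n + 1) M) :
    IsStrand D n (Tw (D.shn 1) M) where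
  one k hk v := by
    obtain ⟨v, rfl⟩ := (Tw.mk (D.shn 1)).surjective v
    rw [Tw.smul_mk, D.shn_E, hM.one (1 + k) (by omega)]
  zero k hk j v := by
    obtain ⟨v, rfl⟩ := (Tw.mk (D.shn 1)).surjective v
    rw [Tw.smul_mk, D.shn_e, hM.zero (1 + k) (by omega), map_zero]

theorem aL_tmul (M N : Type) [AddCommGroup M] [Module K M] [AddCommGroup N]
    [Module K N] [Module (KLRAlg D) M] [IsScalarTower K (KLRAlg D) M] (a : KLRAlg D) (u : M)
    (v : N) : aL D M N a (u ⊗ₜ v) = (a • u) ⊗ₜ v := rfl

/-- the case `n = 0` -/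
theorem zero (hb : S_basis D) (m : ℕ) (M N : Type)
    [AddCommGroup M] [Module K M] [Module (KLRAlg D) M] [IsScalarTower K (KLRAlg D) M]
    [AddCommGroup N] [Module K N] [Module (KLRAlg D) N] [IsScalarTower K (KLRAlg D) N]
    (hM : IsStrand D m M) (hN : IsStrand D 0 N) (a : KLRAlg D) (z : Conv D m M N) :
    Conv.Tp hb hM hN (D.shn 0 a • z) = aL D M N a (Conv.Tp hb hM hN z) := by
  have hw : ∀ w : Shf m 0, w = Shf.one m 0 := by
    rintro ⟨w, h1, h2⟩
    apply Subtype.ext
    change w = List.replicate m false ++ List.replicate 0 true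
    rw [List.replicate_zero, List.append_nil]
    rw [List.eq_replicate_iff]
    refine ⟨?_, ?_⟩
    · have h3 := List.count_false_add_count_true w
      omega
    · intro b hb'
      cases b
      · rfl
      · exact absurd (List.count_pos_iff.2 hb') (by omega)
  have key : ∀ (u : M) (v : N), Conv.Tp hb hM hN (Conv.mk D m M N u v) = u ⊗ₜ v := by
    intro u v
    have h1 := Conv.cf_tw hb hM hN (Shf.one m 0) (List.replicate 0 true ++ List.replicate m false)
      u v
    rw [D.tw_one, one_smul] at h1
    unfold Conv.Tp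
    rw [h1, if_pos]
    change List.replicate 0 true ++ List.replicate m false =
      List.replicate m false ++ List.replicate 0 true
    rw [List.replicate_zero, List.append_nil, List.nil_append]
  rw [D.shn_zero]
  induction z using Conv.ind_tw hb hM hN with
  | h0 => rw [smul_zero, map_zero, map_zero]
  | h w u v =>
    rw [hw w, D.tw_one, one_smul, key, aL_tmul]
    have h1 := Conv.tr_smul_mk (D := D) (m := m) a u v
    rw [(Conv.isStrand hM hN).tr_smul (m := m) (by omega)] at h1
    rw [h1, key]
  | hadd y z hy hz => rw [smul_add, map_add, map_add, map_add, hy, hz]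

end XTPSHN

open XTPSHN in
theorem Mo.I_TPSHN (hR : StRho D) : StTpShn D := by
  intro hb m n M N _ _ _ _ _ _ _ _ hM hN a z
  induction n generalizing N with
  | zero => exact XTPSHN.zero hb m M N hM hN a z
  | succ n ih =>
    have hN' : IsStrand D n (Tw (D.shn 1) N) := strandTw hN
    obtain ⟨ρ, h1, h2⟩ := hR hb m n M N hM hN hN'
    have h3 : ∀ z : Conv D m M N, Conv.Tp hb hM hN' (ρ z) =
        (Tw.mk (D.shn 1) : N ≃ₗ[K] Tw (D.shn 1) N).toLinearMap.lTensor M
          (Conv.Tp hb hM hN z) := fun z => h2 _ z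
    have hinj : Function.Injective
        ((Tw.mk (D.shn 1) : N ≃ₗ[K] Tw (D.shn 1) N).toLinearMap.lTensor M) :=
      (LinearEquiv.lTensor M (Tw.mk (D.shn 1) : N ≃ₗ[K] Tw (D.shn 1) N)).injective
    have h4 : ∀ t : M ⊗[K] N, aL D M (Tw (D.shn 1) N) a
        ((Tw.mk (D.shn 1) : N ≃ₗ[K] Tw (D.shn 1) N).toLinearMap.lTensor M t) =
        (Tw.mk (D.shn 1) : N ≃ₗ[K] Tw (D.shn 1) N).toLinearMap.lTensor M (aL D M N a t) := by
      intro t
      induction t using TensorProduct.induction_on with
      | zero => rw [map_zero, map_zero, map_zero, map_zero]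
      | tmul u v => rfl
      | add s t hs ht => rw [map_add, map_add, map_add, map_add, hs, ht]
    apply hinj
    rw [← h3, ← h4, ← h3, show n + 1 = 1 + n by omega, ← D.shn_shn, h1]
    exact ih (Tw (D.shn 1) N) hN' (ρ z)

end Pool.Agent.KLS

end

section

/-! MP_e487d8_al, module side, item TPTR: the top coefficient and the first strands. -/

set_option autoImplicit false
set_option linter.unusedSectionVars false

open scoped TensorProduct

namespace Pool.Agent.KLS

variable {K I : Type} [Field K] [Fintype I] [DecidableEq I] (D : Datum K I)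

namespace XTPTR

section

variable (M N : Type) [AddCommGroup M] [Module K M] [AddCommGroup N] [Module K N]
  [Module (KLRAlg D) N] [IsScalarTower K (KLRAlg D) N]

theorem aR_tmul (a : KLRAlg D) (u : M) (v : N) :
    aR D M N a (u ⊗ₜ[K] v) = u ⊗ₜ[K] (a • v) := by
  unfold aR
  rw [LinearMap.lTensor_tmul]
  rfl

theorem aR_mul (a b : KLRAlg D) (y : M ⊗[K] N) :
    aR D M N (a * b) y = aR D M N a (aR D M N b y) := by
  induction y using TensorProduct.induction_on with
  | zero => rw [map_zero, map_zero, map_zero]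
  | tmul u v => rw [aR_tmul, aR_tmul, aR_tmul, mul_smul]
  | add y z hy hz => rw [map_add, hy, hz, map_add, map_add]

theorem aR_add (a b : KLRAlg D) (y : M ⊗[K] N) :
    aR D M N (a + b) y = aR D M N a y + aR D M N b y := by
  induction y using TensorProduct.induction_on with
  | zero => rw [map_zero, map_zero, map_zero, add_zero]
  | tmul u v => rw [aR_tmul, aR_tmul, aR_tmul, add_smul, TensorProduct.tmul_add]
  | add y z hy hz => rw [map_add, hy, hz, map_add, map_add]; abel

theorem aR_algebraMap (r : K) (y : M ⊗[K] N) :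
    aR D M N (algebraMap K _ r) y = r • y := by
  induction y using TensorProduct.induction_on with
  | zero => rw [map_zero, smul_zero]
  | tmul u v => rw [aR_tmul, algebraMap_smul, TensorProduct.tmul_smul]
  | add y z hy hz => rw [map_add, hy, hz, smul_add]

theorem aR_zero {a : KLRAlg D} (h : ∀ v : N, a • v = 0) (y : M ⊗[K] N) :
    aR D M N a y = 0 := by
  induction y using TensorProduct.induction_on with
  | zero => rw [map_zero]
  | tmul u v => rw [aR_tmul, h, TensorProduct.tmul_zero]
  | add y z hy hz => rw [map_add, hy, hz, add_zero]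

theorem aR_shn (b : KLRAlg D) (y : M ⊗[K] N) :
    aR D M (Tw (D.shn 1) N) b
        ((Tw.mk (D.shn 1) : N ≃ₗ[K] Tw (D.shn 1) N).toLinearMap.lTensor M y) =
      (Tw.mk (D.shn 1) : N ≃ₗ[K] Tw (D.shn 1) N).toLinearMap.lTensor M
        (aR D M N (D.shn 1 b) y) := by
  induction y using TensorProduct.induction_on with
  | zero => rw [map_zero, map_zero, map_zero, map_zero]
  | tmul u v =>
    rw [LinearMap.lTensor_tmul, aR_tmul, aR_tmul, LinearMap.lTensor_tmul]
    rfl
  | add y z hy hz => rw [map_add, map_add, hy, hz, map_add, map_add]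

theorem mk_injective : Function.Injective
    ((Tw.mk (D.shn 1) : N ≃ₗ[K] Tw (D.shn 1) N).toLinearMap.lTensor M) :=
  (LinearEquiv.lTensor M (Tw.mk (D.shn 1) : N ≃ₗ[K] Tw (D.shn 1) N)).injective

theorem isStrand_tw {n : ℕ} (hN : IsStrand D (n + 1) N) : IsStrand D n (Tw (D.shn 1) N) where
  one k hk u := by
    obtain ⟨u, rfl⟩ := (Tw.mk (D.shn 1)).surjective u
    rw [Tw.smul_mk, D.shn_E, hN.one (1 + k) (by omega)]
  zero k hk i u := by
    obtain ⟨u, rfl⟩ := (Tw.mk (D.shn 1)).surjective u
    rw [Tw.smul_mk, D.shn_e, hN.zero (1 + k) (by omega), map_zero]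

end

/-- the induction step -/
theorem step (hR : StRho D) (hb : S_basis D) (m n : ℕ) (M N : Type)
    [AddCommGroup M] [Module K M] [Module (KLRAlg D) M] [IsScalarTower K (KLRAlg D) M]
    [AddCommGroup N] [Module K N] [Module (KLRAlg D) N] [IsScalarTower K (KLRAlg D) N]
    (hM : IsStrand D m M) (hN : IsStrand D (n + 1) N)
    (ih : ∀ (hN' : IsStrand D n (Tw (D.shn 1) N)) (b : KLRAlg D)
      (z : Conv D m M (Tw (D.shn 1) N)),
      Conv.Tp hb hM hN' (D.tr n b • z) = aR D M (Tw (D.shn 1) N) b (Conv.Tp hb hM hN' z))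
    (b : KLRAlg D) (z : Conv D m M N) :
    Conv.Tp hb hM hN (D.tr (n + 1) (D.shn 1 b) • z) =
      aR D M N (D.shn 1 b) (Conv.Tp hb hM hN z) := by
  have hN' := isStrand_tw D N hN
  obtain ⟨ρ, h1, h2⟩ := hR hb m n M N hM hN hN'
  apply mk_injective D M N
  have h3 : D.tr (n + 1) (D.shn 1 b) = D.shn 1 (D.tr n b) := by
    rw [add_comm n 1, D.tr_shn]
  have h4 : ∀ y : Conv D m M N, Conv.Tp hb hM hN' (ρ y) =
      (Tw.mk (D.shn 1) : N ≃ₗ[K] Tw (D.shn 1) N).toLinearMap.lTensor M
        (Conv.Tp hb hM hN y) := fun y => h2 _ y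
  rw [← h4, h3, h1, ih hN', h4, aR_shn]

theorem main (hR : StRho D) (hX : StX0 D) (hT : StT0 D) (hb : S_basis D) (n : ℕ) :
    ∀ (m : ℕ) (M N : Type)
    [AddCommGroup M] [Module K M] [Module (KLRAlg D) M] [IsScalarTower K (KLRAlg D) M]
    [AddCommGroup N] [Module K N] [Module (KLRAlg D) N] [IsScalarTower K (KLRAlg D) N]
    (hM : IsStrand D m M) (hN : IsStrand D n N) (a : KLRAlg D) (z : Conv D m M N),
    Conv.Tp hb hM hN (D.tr n a • z) = aR D M N a (Conv.Tp hb hM hN z) := by
  induction n with
  | zero =>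
    intro m M N _ _ _ _ _ _ _ _ hM hN a
    induction a using KLRAlg.induction with
    | hs r =>
      intro z
      rw [AlgHom.commutes, algebraMap_smul, map_smul, aR_algebraMap]
    | he k i =>
      intro z
      rw [D.tr_e, if_neg (by omega), zero_smul, map_zero,
        aR_zero D M N (fun v => hN.zero k (by omega) i v)]
    | hx k =>
      intro z
      rw [D.tr_x, if_neg (by omega), zero_smul, map_zero,
        aR_zero D M N (fun v => hN.x_smul_zero (by omega) v)]
    | ht k =>
      intro z
      rw [D.tr_t, if_neg (by omega), zero_smul, map_zero,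
        aR_zero D M N (fun v => hN.t_smul_zero (by omega) v)]
    | hadd a b ha hb' =>
      intro z
      rw [map_add, add_smul, map_add, ha, hb', aR_add]
    | hmul a b ha hb' =>
      intro z
      rw [map_mul, mul_smul, ha, hb', aR_mul]
  | succ n ih =>
    intro m M N _ _ _ _ _ _ _ _ hM hN a
    have hs : ∀ (b : KLRAlg D) (z : Conv D m M N),
        Conv.Tp hb hM hN (D.tr (n + 1) (D.shn 1 b) • z) =
          aR D M N (D.shn 1 b) (Conv.Tp hb hM hN z) := fun b z =>
      step D hR hb m n M N hM hN (fun hN' => ih m M (Tw (D.shn 1) N) hM hN') b z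
    have htp : Conv.Tp hb hM hN = Conv.cf hb hM hN
        (true :: (List.replicate n true ++ List.replicate m false)) := rfl
    induction a using KLRAlg.induction with
    | hs r =>
      intro z
      rw [AlgHom.commutes, algebraMap_smul, map_smul, aR_algebraMap]
    | he k i =>
      intro z
      rcases k with _ | k
      · rw [D.tr_e, if_pos (by omega), htp]
        exact (hX hb m (n + 1) M N hM hN _ z).2 i
      · have h := hs (D.e k i) z
        rw [D.shn_e, add_comm 1 k] at h
        exact h
    | hx k =>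
      intro z
      rcases k with _ | k
      · rw [D.tr_x, if_pos (by omega), htp]
        exact (hX hb m (n + 1) M N hM hN _ z).1
      · have h := hs (D.x k) z
        rw [D.shn_x, add_comm 1 k] at h
        exact h
    | ht k =>
      intro z
      rcases k with _ | k
      · rcases n with _ | n
        · rw [D.tr_t, if_neg (by omega), zero_smul, map_zero,
            aR_zero D M N (fun v => hN.t_smul_zero (by omega) v)]
        · rw [D.tr_t, if_pos (by omega), htp]
          exact hT hb m (n + 1 + 1) M N hM hN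
            (List.replicate n true ++ List.replicate m false) z
      · have h := hs (D.t k) z
        rw [D.shn_t, add_comm 1 k] at h
        exact h
    | hadd a b ha hb' =>
      intro z
      rw [map_add, add_smul, map_add, ha, hb', aR_add]
    | hmul a b ha hb' =>
      intro z
      rw [map_mul, mul_smul, ha, hb', aR_mul]

end XTPTR

theorem Mo.I_TPTR (hR : StRho D) (hX : StX0 D) (hT : StT0 D) : StTpTr D :=
  fun hb m n M N _ _ _ _ _ _ _ _ hM hN a z => XTPTR.main D hR hX hT hb n m M N hM hN a z

end Pool.Agent.KLS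

end

section

/-! MP_e487d8_al, module side, item X0: the first dot and the first idempotent on the coefficients
of the shuffles which start with `true`. -/

set_option autoImplicit false
set_option linter.unusedSectionVars false

open scoped TensorProduct

namespace Pool.Agent.KLS

variable {K I : Type} [Field K] [Fintype I] [DecidableEq I]

namespace XX0

section

variable {D : Datum K I} {m n : ℕ} {M N : Type}
  [AddCommGroup M] [Module K M] [Module (KLRAlg D) M] [IsScalarTower K (KLRAlg D) M]
  [AddCommGroup N] [Module K N] [Module (KLRAlg D) N] [IsScalarTower K (KLRAlg D) N]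

theorem isStrand_tw (hM : IsStrand D (m + 1) M) : IsStrand D m (Tw (D.shn 1) M) where
  one k hk u := by
    obtain ⟨u, rfl⟩ := (Tw.mk (D.shn 1)).surjective u
    rw [Tw.smul_mk, D.shn_E, hM.one (1 + k) (by omega)]
  zero k hk i u := by
    obtain ⟨u, rfl⟩ := (Tw.mk (D.shn 1)).surjective u
    rw [Tw.smul_mk, D.shn_e, hM.zero (1 + k) (by omega), map_zero]

/-- the bilinear map behind `Phi` -/
noncomputable def beta (D : Datum K I) (m : ℕ) (M N : Type)
    [AddCommGroup M] [Module K M] [Module (KLRAlg D) M] [IsScalarTower K (KLRAlg D) M]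
    [AddCommGroup N] [Module K N] [Module (KLRAlg D) N] [IsScalarTower K (KLRAlg D) N] :
    Tw (D.shn 1) M →ₗ[K] N →ₗ[K] Tw (D.shn 1) (Conv D (m + 1) M N) :=
  (Conv.mk D (m + 1) M N).compr₂ (Tw.mk (D.shn 1)).toLinearMap ∘ₗ
    (Tw.mk (D.shn 1) : M ≃ₗ[K] Tw (D.shn 1) M).symm.toLinearMap

theorem beta_mk (u : M) (v : N) :
    beta D m M N (Tw.mk (D.shn 1) u) v = Tw.mk (D.shn 1) (Conv.mk D (m + 1) M N u v) := rfl

theorem beta_balanced : Balanced D m (beta D m M N) where
  left a u v := by
    obtain ⟨u, rfl⟩ := (Tw.mk (D.shn 1)).surjective u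
    rw [Tw.smul_mk, beta_mk, beta_mk, Tw.smul_mk, ← D.tr_shn, Nat.add_comm 1 m,
      Conv.tr_smul_mk]
  right a u v := by
    obtain ⟨u, rfl⟩ := (Tw.mk (D.shn 1)).surjective u
    rw [beta_mk, beta_mk, Tw.smul_mk, D.shn_shn, Nat.add_comm 1 m, Conv.shn_smul_mk]

/-- the strands `1, 2, ...` of `M ∘ N` when `M` has a first strand -/
noncomputable def Phi (D : Datum K I) (m : ℕ) (M N : Type)
    [AddCommGroup M] [Module K M] [Module (KLRAlg D) M] [IsScalarTower K (KLRAlg D) M]
    [AddCommGroup N] [Module K N] [Module (KLRAlg D) N] [IsScalarTower K (KLRAlg D) N] :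
    Conv D m (Tw (D.shn 1) M) N →ₗ[KLRAlg D] Tw (D.shn 1) (Conv D (m + 1) M N) :=
  Conv.lift (beta D m M N) beta_balanced

theorem Phi_mk (u : M) (v : N) :
    Phi D m M N (Conv.mk D m _ N (Tw.mk (D.shn 1) u) v) =
      Tw.mk (D.shn 1) (Conv.mk D (m + 1) M N u v) := by
  unfold Phi
  rw [Conv.lift_mk, beta_mk]

/-- the coefficients at `true :: w` vanish on the image of the strands `1, 2, ...` -/
theorem cf_Phi (hb : S_basis D) (hM : IsStrand D (m + 1) M) (hN : IsStrand D n N)
    (w : List Bool) (y : Conv D m (Tw (D.shn 1) M) N) :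
    Conv.cf hb hM hN (true :: w) ((Tw.mk (D.shn 1)).symm (Phi D m M N y)) = 0 := by
  induction y using Conv.ind_tw hb (isStrand_tw hM) hN with
  | h0 => rw [map_zero, map_zero, map_zero]
  | hadd y z hy hz => rw [map_add, map_add, map_add, hy, hz, add_zero]
  | h w' u v =>
    obtain ⟨u, rfl⟩ := (Tw.mk (D.shn 1)).surjective u
    rw [map_smul, Phi_mk, Tw.smul_mk, LinearEquiv.symm_apply_apply]
    have hw : (false :: w'.1).count false = m + 1 ∧ (false :: w'.1).count true = n := by
      rw [List.count_cons_self, List.count_cons_of_ne (by decide), w'.2.1, w'.2.2]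
      exact ⟨rfl, rfl⟩
    have h1 := Conv.cf_tw hb hM hN ⟨false :: w'.1, hw⟩ (true :: w) u v
    rw [if_neg (by simp)] at h1
    exact h1

theorem cf_shn (hb : S_basis D) (hM : IsStrand D (m + 1) M) (hN : IsStrand D n N)
    (w : List Bool) (a : KLRAlg D) (u : M) (v : N) :
    Conv.cf hb hM hN (true :: w) (D.shn 1 a • Conv.mk D (m + 1) M N u v) = 0 := by
  have h := cf_Phi hb hM hN w (a • Conv.mk D m _ N (Tw.mk (D.shn 1) u) v)
  rw [map_smul, Phi_mk, Tw.smul_mk, LinearEquiv.symm_apply_apply] at h
  exact h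

/-- error terms have no coefficients at `true :: w` -/
theorem cf_W (hb : S_basis D) (hM : IsStrand D m M) (hN : IsStrand D n N)
    (w : List Bool) (c : KLRAlg D) {z : KLRAlg D} (hz : z ∈ Pbw.W D m) (u : M) (v : N) :
    Conv.cf hb hM hN (true :: w) (D.shn 1 c • z • Conv.mk D m M N u v) = 0 := by
  unfold Pbw.W at hz
  induction hz using Submodule.span_induction with
  | mem z hz =>
    obtain ⟨hm, a, b, rfl⟩ := hz
    obtain ⟨m, rfl⟩ : ∃ q, m = q + 1 := ⟨m - 1, by omega⟩
    rw [mul_smul, Conv.tr_smul_mk, ← mul_smul, ← map_mul]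
    exact cf_shn hb hM hN w _ _ _
  | zero => rw [zero_smul, smul_zero, map_zero]
  | add x y _ _ hx hy => rw [add_smul, smul_add, map_add, hx, hy, add_zero]
  | smul r x _ hx =>
    rw [smul_assoc, smul_algebra_smul_comm, map_smul, hx, smul_zero]

theorem x0_shn (D : Datum K I) (a : KLRAlg D) : D.x 0 * D.shn 1 a = D.shn 1 a * D.x 0 := by
  have h := D.tr_mul_shn (le_refl 1) (D.x 0) a
  rwa [D.tr_x, if_pos Nat.zero_lt_one] at h

end

end XX0

open XX0

theorem Mo.I_X0 (D : Datum K I) : StX0 D := by
  intro hb m n M N _ _ _ _ _ _ _ _ hM hN w z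
  induction z using Conv.ind_tw hb hM hN with
  | h0 =>
    refine ⟨?_, fun i => ?_⟩
    · rw [smul_zero, map_zero, map_zero]
    · rw [smul_zero, map_zero, map_zero]
  | hadd y z hy hz =>
    refine ⟨?_, fun i => ?_⟩
    · rw [smul_add, map_add, map_add, map_add, hy.1, hz.1]
    · rw [smul_add, map_add, map_add, map_add, hy.2 i, hz.2 i]
  | h w0 u v =>
    obtain ⟨w0, hw0⟩ := w0
    match w0, hw0 with
    | [], hw0 =>
      have h1 : m = 0 := by rw [← hw0.1, List.count_nil]
      have h2 : n = 0 := by rw [← hw0.2, List.count_nil]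
      have hS : IsStrand D (m + n) (Conv D m M N) := Conv.isStrand hM hN
      have h3 := Conv.cf_tw hb hM hN ⟨[], hw0⟩ (true :: w) u v
      rw [if_neg (by simp)] at h3
      rw [h3]
      refine ⟨?_, fun i => ?_⟩
      · rw [hS.x_smul_zero (by omega), map_zero, map_zero]
      · rw [hS.zero 0 (by omega), map_zero, map_zero]
    | false :: w1, hw0 =>
      have h30 := Conv.cf_tw hb hM hN ⟨false :: w1, hw0⟩ (true :: w) u v
      rw [if_neg (by simp)] at h30
      rw [h30]
      have hm : 0 < m := by
        rw [← hw0.1, List.count_cons_self]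
        omega
      refine ⟨?_, fun i => ?_⟩
      · have h1 : D.x 0 • D.tw (false :: w1) • Conv.mk D m M N u v =
            D.tw (false :: w1) • Conv.mk D m M N (D.x 0 • u) v := by
          have h2 := Conv.tr_smul_mk (D := D) (m := m) (D.x 0) u v
          rw [D.tr_x, if_pos hm] at h2
          rw [← h2, ← mul_smul, ← mul_smul]
          congr 1
          exact x0_shn D _
        have h3 := Conv.cf_tw hb hM hN ⟨false :: w1, hw0⟩ (true :: w) (D.x 0 • u) v
        rw [if_neg (by simp)] at h3
        rw [map_zero]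
        change Conv.cf hb hM hN (true :: w) (D.x 0 • D.tw (false :: w1) • Conv.mk D m M N u v) = 0
        rw [h1]
        exact h3
      · have h1 : D.e 0 i • D.tw (false :: w1) • Conv.mk D m M N u v =
            D.tw (false :: w1) • Conv.mk D m M N (D.e 0 i • u) v := by
          have h2 := Conv.tr_smul_mk (D := D) (m := m) (D.e 0 i) u v
          rw [D.tr_e, if_pos hm] at h2
          rw [← h2, ← mul_smul, ← mul_smul]
          congr 1
          exact D.e0_shn i _
        have h3 := Conv.cf_tw hb hM hN ⟨false :: w1, hw0⟩ (true :: w) (D.e 0 i • u) v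
        rw [if_neg (by simp)] at h3
        rw [map_zero]
        change Conv.cf hb hM hN (true :: w) (D.e 0 i • D.tw (false :: w1) • Conv.mk D m M N u v) = 0
        rw [h1]
        exact h3
    | true :: w1, hw0 =>
      have hc : w1.count false = m := by
        rw [← hw0.1, List.count_cons_of_ne (by decide)]
      have htw : D.tw (true :: w1) = D.shn 1 (D.tw w1) * D.chain m := by
        rw [Datum.tw, hc]
      have hcf : ∀ v' : N, Conv.cf hb hM hN (true :: w)
          (D.shn 1 (D.tw w1) • D.chain m • Conv.mk D m M N u v') =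
          if true :: w = true :: w1 then u ⊗ₜ v' else 0 := by
        intro v'
        have h3 := Conv.cf_tw hb hM hN ⟨true :: w1, hw0⟩ (true :: w) u v'
        rw [← h3]
        change _ = Conv.cf hb hM hN (true :: w) (D.tw (true :: w1) • Conv.mk D m M N u v')
        rw [htw, mul_smul]
      change Conv.cf hb hM hN (true :: w) (D.x 0 • D.tw (true :: w1) • Conv.mk D m M N u v) =
        aR D M N (D.x 0) (Conv.cf hb hM hN (true :: w)
          (D.tw (true :: w1) • Conv.mk D m M N u v)) ∧
        ∀ i, Conv.cf hb hM hN (true :: w) (D.e 0 i • D.tw (true :: w1) • Conv.mk D m M N u v) =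
        aR D M N (D.e 0 i) (Conv.cf hb hM hN (true :: w)
          (D.tw (true :: w1) • Conv.mk D m M N u v))
      rw [htw, mul_smul, hcf v]
      refine ⟨?_, fun i => ?_⟩
      · have h1 : D.x 0 • D.shn 1 (D.tw w1) • D.chain m • Conv.mk D m M N u v =
            D.shn 1 (D.tw w1) • D.chain m • Conv.mk D m M N u (D.x 0 • v) +
            D.shn 1 (D.tw w1) • (D.x 0 * D.chain m - D.chain m * D.x m) •
              Conv.mk D m M N u v := by
          have h2 := Conv.shn_smul_mk (D := D) (m := m) (D.x 0) u v
          rw [D.shn_x, Nat.add_zero] at h2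
          rw [← h2, ← smul_add, ← mul_smul, ← mul_smul, ← mul_smul, ← add_smul, add_sub_cancel,
            ← mul_smul, x0_shn, mul_assoc]
        rw [h1, map_add, cf_W hb hM hN w _ (Pbw.prf_W2 D m), add_zero, hcf]
        split_ifs
        · rfl
        · rw [map_zero]
      · have h1 : D.e 0 i • D.shn 1 (D.tw w1) • D.chain m • Conv.mk D m M N u v =
            D.shn 1 (D.tw w1) • D.chain m • Conv.mk D m M N u (D.e 0 i • v) := by
          have h2 := Conv.shn_smul_mk (D := D) (m := m) (D.e 0 i) u v
          rw [D.shn_e, Nat.add_zero] at h2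
          rw [← h2, ← mul_smul, ← mul_smul, ← mul_smul, ← mul_smul, D.e0_shn, mul_assoc,
            D.e0_chain, mul_assoc]
        rw [h1, hcf]
        split_ifs
        · rfl
        · rw [map_zero]

end Pool.Agent.KLS

end
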