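import Pool.Agent.Work.MP_e487d8_al.Bd.B10
import Pool.Agent.Work.MP_e487d8_al.Y.Conv.Api
import Pool.Agent.Work.MP_e487d8_al.Bd.B08
import Pool.Agent.Work.MP_e487d8_al.Y.Conv.Fin

/-! Bundle of small proof modules (one section per former module). -/

section

/-! MP_e487d8_al, RMAT block: one strand past a block, the leading coefficient of the product
`φ_k φ_{k+1} ⋯ φ_{n-1}` with respect to the elements `t_j ⋯ t_{n-1}`. -/

set_option autoImplicit false

namespace Pool.Agent.KLS

variable {K I : Type} [Field K] [Fintype I] [DecidableEq I]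

namespace Datum

variable (D : Datum K I)

/-- `t_k t_{k+1} ⋯ t_{k+l-1}` -/
noncomputable def cc (k : ℕ) : ℕ → KLRAlg D
  | 0 => 1
  | l + 1 => cc k l * D.t (k + l)

/-- `φ_k φ_{k+1} ⋯ φ_{k+l-1}` -/
noncomputable def pc (k : ℕ) : ℕ → KLRAlg D
  | 0 => 1
  | l + 1 => pc k l * D.phi (k + l)

/-- the strands `k` and `n` have the same colour -/
noncomputable def dn (k n : ℕ) : KLRAlg D := ∑ i, D.e k i * D.e n i

/-- one factor of the leading coefficient -/
noncomputable def g1 (n k : ℕ) : KLRAlg D := (1 - D.dn k n) + (D.x k - D.x n) * D.dn k n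

/-- the leading coefficient -/
noncomputable def gg (n k : ℕ) : ℕ → KLRAlg D
  | 0 => 1
  | l + 1 => D.g1 n k * gg n (k + 1) l

theorem cc_zero (k : ℕ) : D.cc k 0 = 1 := rfl
theorem cc_succ (k l : ℕ) : D.cc k (l + 1) = D.cc k l * D.t (k + l) := rfl
theorem pc_zero (k : ℕ) : D.pc k 0 = 1 := rfl
theorem pc_succ (k l : ℕ) : D.pc k (l + 1) = D.pc k l * D.phi (k + l) := rfl
theorem gg_zero (n k : ℕ) : D.gg n k 0 = 1 := rfl
theorem gg_succ (n k l : ℕ) : D.gg n k (l + 1) = D.g1 n k * D.gg n (k + 1) l := rfl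

theorem cc_succ' (k l : ℕ) : D.cc k (l + 1) = D.t k * D.cc (k + 1) l := by
  induction l with
  | zero => rw [cc_succ, cc_zero, cc_zero, one_mul, mul_one, add_zero]
  | succ l ih => rw [cc_succ, ih, cc_succ, mul_assoc, show k + (l + 1) = k + 1 + l by omega]

theorem pc_succ' (k l : ℕ) : D.pc k (l + 1) = D.phi k * D.pc (k + 1) l := by
  induction l with
  | zero => rw [pc_succ, pc_zero, pc_zero, one_mul, mul_one, add_zero]
  | succ l ih => rw [pc_succ, ih, pc_succ, mul_assoc, show k + (l + 1) = k + 1 + l by omega]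

theorem cc_chain (n : ℕ) : D.cc 0 n = D.chain n := by
  induction n with
  | zero => rfl
  | succ n ih => rw [cc_succ, ih, zero_add]; rfl

theorem pc_Cp (n : ℕ) : D.pc 0 n = D.Cp n := by
  induction n with
  | zero => rfl
  | succ n ih => rw [pc_succ, ih, zero_add]; rfl

/-- `a` commutes with `cc k l` if it commutes with the factors -/
theorem comm_cc {a : KLRAlg D} {k : ℕ} (h : ∀ j, k ≤ j → a * D.t j = D.t j * a) (l : ℕ) :
    a * D.cc k l = D.cc k l * a := by
  induction l with
  | zero => rw [cc_zero, mul_one, one_mul]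
  | succ l ih => rw [cc_succ, ← mul_assoc, ih, mul_assoc, h _ (by omega), mul_assoc]

theorem x_cc {j k : ℕ} (h : j < k) (l : ℕ) : D.x j * D.cc k l = D.cc k l * D.x j :=
  D.comm_cc (fun r hr => (D.t_x r j (by omega) (by omega)).symm) l

theorem e_cc {j k : ℕ} (i : I) (h : j < k) (l : ℕ) : D.e j i * D.cc k l = D.cc k l * D.e j i :=
  D.comm_cc (fun r hr => (D.t_e r j i (by omega) (by omega)).symm) l

theorem t_cc {j k : ℕ} (h : j + 1 < k) (l : ℕ) : D.t j * D.cc k l = D.cc k l * D.t j :=
  D.comm_cc (fun r hr => D.t_far j r (by omega)) l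

theorem e_cc_top (k l : ℕ) (i : I) : D.e k i * D.cc k l = D.cc k l * D.e (k + l) i := by
  induction l with
  | zero => rw [cc_zero, one_mul, mul_one, add_zero]
  | succ l ih =>
    rw [cc_succ, ← mul_assoc, ih, mul_assoc, ← D.t_e1, mul_assoc]
    rfl

theorem dl_cc (k l : ℕ) : D.dl k * D.cc (k + 1) l = D.cc (k + 1) l * D.dn k (k + 1 + l) := by
  unfold dl dn
  rw [Finset.sum_mul, Finset.mul_sum]
  refine Finset.sum_congr rfl fun i _ => ?_
  rw [mul_assoc, e_cc_top, ← mul_assoc, D.e_cc i (Nat.lt_succ_self k), mul_assoc]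

end Datum

section vec

variable {D : Datum K I} {P : Type} [AddCommGroup P] [Module K P] [Module (KLRAlg D) P]
  [IsScalarTower K (KLRAlg D) P]

/-- a space of vectors of `X ∘ W` of the form `∑ mk u v` (`n` strands and one more strand) -/
structure Flat (D : Datum K I) (n : ℕ) {P : Type} [AddCommGroup P] [Module K P]
    [Module (KLRAlg D) P] (Q : Submodule K P) : Prop where
  x : ∀ j ≤ n, ∀ z ∈ Q, D.x j • z ∈ Q
  e : ∀ j ≤ n, ∀ i, ∀ z ∈ Q, D.e j i • z ∈ Q
  t : ∀ j, j + 1 < n → ∀ z ∈ Q, D.t j • z ∈ Q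

/-- the lower terms -/
def Low (D : Datum K I) (n : ℕ) {P : Type} [AddCommGroup P] [Module K P]
    [Module (KLRAlg D) P] (Q : Submodule K P) (k : ℕ) : Submodule K P :=
  Submodule.span K {y | ∃ j l z, k < j ∧ j + l = n ∧ z ∈ Q ∧ y = D.cc j l • z}

variable {n : ℕ} {Q : Submodule K P}

omit [IsScalarTower K (KLRAlg D) P] in
theorem Low.mem {k j l : ℕ} (hk : k < j) (hj : j + l = n) {z : P} (hz : z ∈ Q) :
    D.cc j l • z ∈ Low D n Q k := Submodule.subset_span ⟨j, l, z, hk, hj, hz, rfl⟩

omit [IsScalarTower K (KLRAlg D) P] in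
theorem Low.mono {k k' : ℕ} (h : k ≤ k') : Low D n Q k' ≤ Low D n Q k := by
  refine Submodule.span_mono ?_
  rintro y ⟨j, l, z, h1, h2, h3, h4⟩
  exact ⟨j, l, z, by omega, h2, h3, h4⟩

theorem Low.smul {k : ℕ} {a : KLRAlg D} (h : ∀ j l z, k < j → j + l = n → z ∈ Q →
    a • D.cc j l • z ∈ Low D n Q k) {y : P} (hy : y ∈ Low D n Q k) : a • y ∈ Low D n Q k := by
  induction hy using Submodule.span_induction with
  | mem y hy =>
    obtain ⟨j, l, z, h1, h2, h3, rfl⟩ := hy
    exact h j l z h1 h2 h3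
  | zero => rw [smul_zero]; exact Submodule.zero_mem _
  | add y z _ _ hy hz => rw [smul_add]; exact Submodule.add_mem _ hy hz
  | smul c y _ hy => rw [smul_comm]; exact Submodule.smul_mem _ _ hy

theorem Low.smul_of_comm {k : ℕ} {a : KLRAlg D} (h : ∀ j l, k < j → a * D.cc j l = D.cc j l * a)
    (h' : ∀ z ∈ Q, k < n → a • z ∈ Q) {y : P} (hy : y ∈ Low D n Q k) : a • y ∈ Low D n Q k := by
  refine Low.smul (fun j l z h1 h2 h3 => ?_) hy
  rw [← mul_smul, h j l h1, mul_smul]
  exact Low.mem h1 h2 (h' z h3 (by omega))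

variable (hQ : Flat D n Q)

include hQ

theorem Low.x {k j : ℕ} (hj : j ≤ k) {y : P} (hy : y ∈ Low D n Q k) :
    D.x j • y ∈ Low D n Q k :=
  Low.smul_of_comm (fun r l hr => D.x_cc (by omega) l) (fun z hz hk => hQ.x j (by omega) z hz) hy

theorem Low.e {k j : ℕ} (i : I) (hj : j ≤ k) {y : P} (hy : y ∈ Low D n Q k) :
    D.e j i • y ∈ Low D n Q k :=
  Low.smul_of_comm (fun r l hr => D.e_cc i (by omega) l) (fun z hz hk => hQ.e j (by omega) i z hz) hy

theorem Low.t {k j : ℕ} (hj : j + 1 ≤ k) {y : P} (hy : y ∈ Low D n Q k) :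
    D.t j • y ∈ Low D n Q k :=
  Low.smul_of_comm (fun r l hr => D.t_cc (by omega) l) (fun z hz hk => hQ.t j (by omega) z hz) hy

theorem Low.dl {k : ℕ} {y : P} (hy : y ∈ Low D n Q (k + 1)) : D.dl k • y ∈ Low D n Q (k + 1) := by
  unfold Datum.dl
  rw [Finset.sum_smul]
  refine Submodule.sum_mem _ fun i _ => ?_
  rw [mul_smul]
  exact Low.e hQ i (by omega) (Low.e hQ i (by omega) hy)

theorem Low.phi {k : ℕ} {y : P} (hy : y ∈ Low D n Q (k + 1)) :
    D.phi k • y ∈ Low D n Q (k + 1) := by
  unfold Datum.phi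
  rw [add_smul, mul_smul, sub_smul, one_smul, mul_smul, add_smul, one_smul, mul_smul, sub_smul]
  have h1 := Low.dl hQ hy
  refine Submodule.add_mem _ (Low.t hQ le_rfl (Submodule.sub_mem _ hy h1))
    (Submodule.add_mem _ (Low.t hQ le_rfl (Submodule.sub_mem _ (Low.x hQ (by omega) h1)
      (Low.x hQ (by omega) h1))) h1)

omit [IsScalarTower K (KLRAlg D) P] in
theorem Flat.dn {k : ℕ} (hk : k ≤ n) {z : P} (hz : z ∈ Q) : D.dn k n • z ∈ Q := by
  unfold Datum.dn
  rw [Finset.sum_smul]
  refine Submodule.sum_mem _ fun i _ => ?_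
  rw [mul_smul]
  exact hQ.e k hk i _ (hQ.e n le_rfl i z hz)

omit [IsScalarTower K (KLRAlg D) P] in
theorem Flat.g1 {k : ℕ} (hk : k ≤ n) {z : P} (hz : z ∈ Q) : D.g1 n k • z ∈ Q := by
  unfold Datum.g1
  have h1 := hQ.dn hk hz
  rw [add_smul, sub_smul, one_smul, mul_smul, sub_smul]
  exact Submodule.add_mem _ (Submodule.sub_mem _ hz h1)
    (Submodule.sub_mem _ (hQ.x k hk _ h1) (hQ.x n le_rfl _ h1))

omit [IsScalarTower K (KLRAlg D) P] in
theorem Flat.gg {k l : ℕ} (h : k + l = n) {z : P} (hz : z ∈ Q) : D.gg n k l • z ∈ Q := by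
  induction l generalizing k with
  | zero => rw [Datum.gg_zero, one_smul]; exact hz
  | succ l ih =>
    rw [Datum.gg_succ, mul_smul]
    exact hQ.g1 (by omega) (ih (by omega))

theorem Low.x_cc : ∀ (l k : ℕ) (z : P), k + l = n → z ∈ Q →
    D.x k • D.cc k l • z - D.cc k l • D.x n • z ∈ Low D n Q k := by
  intro l
  induction l with
  | zero =>
    intro k z hk hz
    have hk' : k = n := by omega
    subst hk'
    rw [Datum.cc_zero, one_smul, one_smul, sub_self]
    exact Submodule.zero_mem _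
  | succ l ih =>
    intro k z hk hz
    have h1 := ih (k + 1) z (by omega) hz
    have h2 : D.x k * D.t k = D.t k * D.x (k + 1) - D.dl k := by
      rw [D.t_x1, add_sub_cancel_right]
    rw [Datum.cc_succ', mul_smul, mul_smul, ← mul_smul (D.x k), h2, sub_smul, mul_smul,
      ← mul_smul (D.dl k), D.dl_cc, show k + 1 + l = n by omega, mul_smul]
    have h3 : D.t k • D.x (k + 1) • D.cc (k + 1) l • z - D.cc (k + 1) l • D.dn k n • z -
        D.t k • D.cc (k + 1) l • D.x n • z =
        D.t k • (D.x (k + 1) • D.cc (k + 1) l • z - D.cc (k + 1) l • D.x n • z) -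
          D.cc (k + 1) l • D.dn k n • z := by
      rw [smul_sub]
      abel
    rw [h3]
    exact Submodule.sub_mem _ (Low.mono (Nat.le_succ k) (Low.t hQ le_rfl h1))
      (Low.mem (Nat.lt_succ_self k) (by omega) (hQ.dn (by omega) hz))

/-- the leading coefficient of `φ_k ⋯ φ_{n-1}` -/
theorem Low.pc : ∀ (l k : ℕ) (z : P), k + l = n → z ∈ Q →
    D.pc k l • z - D.cc k l • D.gg n k l • z ∈ Low D n Q k := by
  intro l
  induction l with
  | zero =>
    intro k z hk hz
    rw [Datum.pc_zero, Datum.cc_zero, Datum.gg_zero, one_smul, one_smul, sub_self]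
    exact Submodule.zero_mem _
  | succ l ih =>
    intro k z hk hz
    have h1 := ih (k + 1) z (by omega) hz
    set y := D.gg n (k + 1) l • z with hy
    have hyQ : y ∈ Q := hQ.gg (by omega) hz
    set lo := D.pc (k + 1) l • z - D.cc (k + 1) l • y with hlo
    have h2 : D.pc (k + 1) l • z = D.cc (k + 1) l • y + lo := by rw [hlo]; abel
    rw [Datum.pc_succ', mul_smul, h2, smul_add, Datum.gg_succ, mul_smul, ← hy]
    have hdQ := hQ.dn (k := k) (by omega) hyQ
    set d := D.dn k n • y with hd
    have h4 := Low.x_cc hQ l (k + 1) d (by omega) hdQ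
    set lo' := D.x (k + 1) • D.cc (k + 1) l • d - D.cc (k + 1) l • D.x n • d with hlo'
    have h5 : D.x (k + 1) • D.cc (k + 1) l • d = D.cc (k + 1) l • D.x n • d + lo' := by
      rw [hlo']; abel
    have h6 : D.dl k • D.cc (k + 1) l • y = D.cc (k + 1) l • d := by
      rw [← mul_smul, D.dl_cc, show k + 1 + l = n by omega, mul_smul]
    have h7 : D.x k • D.cc (k + 1) l • d = D.cc (k + 1) l • D.x k • d := by
      rw [← mul_smul, D.x_cc (Nat.lt_succ_self k), mul_smul]
    have h3 : D.phi k • D.cc (k + 1) l • y = D.cc k (l + 1) • D.g1 n k • y - D.t k • lo' +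
        D.cc (k + 1) l • d := by
      unfold Datum.phi Datum.g1
      rw [add_smul, mul_smul, sub_smul, one_smul, mul_smul, add_smul, one_smul, mul_smul,
        sub_smul, h6, h7, h5, Datum.cc_succ', add_smul, sub_smul, one_smul, mul_smul, mul_smul,
        ← hd, sub_smul]
      simp only [smul_add, smul_sub]
      abel
    rw [h3]
    have h8 : D.cc k (l + 1) • D.g1 n k • y - D.t k • lo' + D.cc (k + 1) l • d + D.phi k • lo -
        D.cc k (l + 1) • D.g1 n k • y = D.cc (k + 1) l • d + D.phi k • lo - D.t k • lo' := by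
      abel
    rw [h8]
    exact Submodule.sub_mem _ (Submodule.add_mem _
      (Low.mem (Nat.lt_succ_self k) (by omega) hdQ)
      (Low.mono (Nat.le_succ k) (Low.phi hQ h1)))
      (Low.mono (Nat.le_succ k) (Low.t hQ le_rfl h4))

omit hQ in
/-- the lower terms are killed by `e 0 i` if `e 0 i` kills `Q` -/
theorem Low.e_zero {i : I} (h : ∀ z ∈ Q, D.e 0 i • z = 0) {y : P} (hy : y ∈ Low D n Q 0) :
    D.e 0 i • y = 0 := by
  induction hy using Submodule.span_induction with
  | mem y hy =>
    obtain ⟨j, l, z, h1, h2, h3, rfl⟩ := hy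
    rw [← mul_smul, D.e_cc i h1, mul_smul, h z h3, smul_zero]
  | zero => rw [smul_zero]
  | add y z _ _ hy hz => rw [smul_add, hy, hz, add_zero]
  | smul c y _ hy => rw [smul_comm, hy, smul_zero]

/-- the value of the product of intertwiners -/
theorem Low.Cp_smul {i : I} (h : ∀ z ∈ Q, D.e 0 i • z = 0) {z : P} (hz : z ∈ Q)
    (hi : D.e n i • z = z) (hi' : D.e n i • D.gg n 0 n • z = D.gg n 0 n • z) :
    D.Cp n • z = D.chain n • D.gg n 0 n • z := by
  have h1 := Low.pc hQ n 0 z (zero_add n) hz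
  rw [D.pc_Cp, D.cc_chain] at h1
  have h2 := Low.e_zero h h1
  rw [smul_sub, ← mul_smul, ← D.Cp_e_top, mul_smul, hi, ← mul_smul, ← D.cc_chain, D.e_cc_top,
    mul_smul, zero_add, hi', D.cc_chain, sub_eq_zero] at h2
  exact h2

end vec

end Pool.Agent.KLS

end

section

/-! MP_e487d8_al, RMAT block: the R-matrix `M ∘ N → N ∘ M`, naturality, hexagon. -/

set_option autoImplicit false

namespace Pool.Agent.KLS

variable {K I : Type} [Field K] [Fintype I] [DecidableEq I] {D : Datum K I}

/-- on a module with `n + m` strands the strands from `m` on form a module with `n` strands -/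
theorem IsStrand.shn_tr_smul {n m : ℕ} {P : Type} [AddCommGroup P] [Module (KLRAlg D) P]
    (h : IsStrand D (n + m) P) (b : KLRAlg D) (z : P) :
    D.shn m b • z = D.shn m (D.tr n b) • z := by
  rw [← D.tr_shn, h.tr_smul (by omega)]

namespace Conv

variable {m n l : ℕ} {M N L M' N' : Type}
  [AddCommGroup M] [Module K M] [Module (KLRAlg D) M] [IsScalarTower K (KLRAlg D) M]
  [AddCommGroup N] [Module K N] [Module (KLRAlg D) N] [IsScalarTower K (KLRAlg D) N]
  [AddCommGroup L] [Module K L] [Module (KLRAlg D) L] [IsScalarTower K (KLRAlg D) L]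
  [AddCommGroup M'] [Module K M'] [Module (KLRAlg D) M'] [IsScalarTower K (KLRAlg D) M']
  [AddCommGroup N'] [Module K N'] [Module (KLRAlg D) N'] [IsScalarTower K (KLRAlg D) N']

/-- the bilinear map defining the R-matrix -/
noncomputable def RmB (D : Datum K I) (m n : ℕ) (M N : Type)
    [AddCommGroup M] [Module K M] [Module (KLRAlg D) M] [IsScalarTower K (KLRAlg D) M]
    [AddCommGroup N] [Module K N] [Module (KLRAlg D) N] [IsScalarTower K (KLRAlg D) N] :
    M →ₗ[K] N →ₗ[K] Conv D n N M :=
  LinearMap.mk₂ K (fun u v => D.Ph n m • mk D n N M v u)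
    (by intro u u' v; rw [map_add, smul_add])
    (by intro r u v; rw [map_smul, smul_comm])
    (by intro u v v'; rw [map_add, LinearMap.add_apply, smul_add])
    (by intro r u v; rw [map_smul, LinearMap.smul_apply, smul_comm])

theorem balanced_RmB (hM : IsStrand D m M) (hN : IsStrand D n N) :
    Balanced D m (RmB D m n M N) where
  left a u v := by
    simp only [RmB, LinearMap.mk₂_apply]
    rw [← mul_smul, D.tr_mul_Ph, mul_smul, shn_smul_mk, hM.tr_smul le_rfl]
  right a u v := by
    simp only [RmB, LinearMap.mk₂_apply]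
    rw [(isStrand hN hM).shn_tr_smul, ← mul_smul, D.Ph_tr, mul_smul, tr_smul_mk]

/-- the R-matrix -/
noncomputable def Rm (hM : IsStrand D m M) (hN : IsStrand D n N) :
    Conv D m M N →ₗ[KLRAlg D] Conv D n N M :=
  lift (RmB D m n M N) (balanced_RmB hM hN)

@[simp] theorem Rm_mk (hM : IsStrand D m M) (hN : IsStrand D n N) (u : M) (v : N) :
    Rm hM hN (mk D m M N u v) = D.Ph n m • mk D n N M v u := by
  unfold Rm
  rw [lift_mk]
  rfl

/-- naturality -/
theorem Rm_map (hM : IsStrand D m M) (hN : IsStrand D n N) (hM' : IsStrand D m M')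
    (hN' : IsStrand D n N') (f : M →ₗ[KLRAlg D] M') (g : N →ₗ[KLRAlg D] N') :
    (map (rfl : n = n) g f) ∘ₗ (Rm hM hN) = (Rm hM' hN') ∘ₗ (map (rfl : m = m) f g) := by
  apply hom_ext
  intro u v
  simp

/-- the hexagon -/
theorem Rm_hex (hM : IsStrand D m M) (hN : IsStrand D n N) (hL : IsStrand D l L) :
    (assoc D n l N L M).toLinearMap ∘ₗ (Rm hM (isStrand hN hL)) =
      (map (rfl : n = n) (LinearMap.id : N →ₗ[KLRAlg D] N) (Rm hM hL)) ∘ₗ
        (assoc D n m N M L).toLinearMap ∘ₗ
          (map (Nat.add_comm m n) (Rm hM hN) (LinearMap.id : L →ₗ[KLRAlg D] L)) ∘ₗ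
            (assoc D m n M N L).symm.toLinearMap := by
  apply hom_ext₃'
  intro u v w
  simp only [LinearMap.comp_apply, LinearEquiv.coe_coe, assoc_symm_mk, map_mk, Rm_mk, map_smul,
    LinearMap.id_apply]
  have h1 : mk D (n + m) (Conv D n N M) L (D.Ph n m • mk D n N M v u) w =
      D.Ph n m • mk D (n + m) (Conv D n N M) L (mk D n N M v u) w := by
    rw [← tr_smul_mk, D.tr_Ph]
  rw [h1, map_smul, map_smul, assoc_mk, assoc_mk, map_mk, Rm_mk, LinearMap.id_apply,
    ← shn_smul_mk, D.Ph_add, mul_smul]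

/-- the square of the R-matrix on a pure vector -/
theorem Rm_Rm_mk (hM : IsStrand D m M) (hN : IsStrand D n N) (u : M) (v : N) :
    Rm hN hM (Rm hM hN (mk D m M N u v)) = D.QP m m n • mk D m M N u v := by
  rw [Rm_mk, map_smul, Rm_mk, ← mul_smul, D.Ph_mul_Ph]

end Conv

end Pool.Agent.KLS

end

section

/-! MP_e487d8_al, block CRY: the basis of `L(i) ∘ Y` and the space `Kr i 1 (L(i) ∘ Y)`. -/

set_option autoImplicit false

open scoped TensorProduct

namespace Pool.Agent.KLS

variable {K I : Type} [Field K] [Fintype I] [DecidableEq I]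

/-- `t (p - 1) * ... * t 1 * t 0`: moves the strand number `0` to the position `p` -/
noncomputable def Datum.lc (D : Datum K I) : ℕ → KLRAlg D
  | 0 => 1
  | p + 1 => D.shn 1 (D.lc p) * D.t 0

/-- the shuffle moving the only strand of the first factor to the position `p` -/
def shw (n p : ℕ) (h : p ≤ n) : Shf 1 n :=
  ⟨List.replicate p true ++ false :: List.replicate (n - p) true, by
    rw [List.count_append, List.count_append, List.count_cons_self,
      List.count_cons_of_ne (by decide)]
    simp only [List.count_replicate_self, List.count_replicate]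
    constructor
    · simp
    · omega⟩

theorem Datum.tw_shw (D : Datum K I) (n p : ℕ) (h : p ≤ n) : D.tw (shw n p h).1 = D.lc p := by
  have h0 : ∀ q, (List.replicate q true).count false = 0 := by
    intro q; simp [List.count_replicate]
  have hr : ∀ q, D.tw (List.replicate q true) = 1 := by
    intro q
    have := D.tw_append_true [] q
    rwa [List.nil_append] at this
  change D.tw (List.replicate p true ++ false :: List.replicate (n - p) true) = D.lc p
  generalize n - p = q
  induction p with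
  | zero =>
    rw [List.replicate_zero, List.nil_append, Datum.tw, hr, map_one]
    rfl
  | succ p ih =>
    rw [List.replicate_succ, List.cons_append, Datum.tw, ih (by omega), Datum.lc,
      List.count_append, List.count_cons_self, h0, h0]
    simp [Datum.chain]

theorem shw_surj (n : ℕ) (w : Shf 1 n) : ∃ p, ∃ h : p ≤ n, w = shw n p h := by
  obtain ⟨w, hw⟩ := w
  have key : ∀ (w : List Bool) (n : ℕ), w.count false = 1 → w.count true = n →
      ∃ p ≤ n, w = List.replicate p true ++ false :: List.replicate (n - p) true := by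
    intro w
    induction w with
    | nil => intro n h1; simp at h1
    | cons b w ih =>
      intro n h1 h2
      cases b with
      | false =>
        rw [List.count_cons_self] at h1
        rw [List.count_cons_of_ne (by decide)] at h2
        refine ⟨0, Nat.zero_le _, ?_⟩
        rw [List.replicate_zero, List.nil_append, Nat.sub_zero]
        congr 1
        rw [List.eq_replicate_iff]
        have h3 : w.count false = 0 := by omega
        have h4 := length_eq_count w
        refine ⟨by omega, ?_⟩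
        intro b hb
        cases b with
        | true => rfl
        | false => exact absurd hb (List.count_eq_zero.1 h3)
      | true =>
        rw [List.count_cons_of_ne (by decide)] at h1
        rw [List.count_cons_self] at h2
        obtain ⟨p, hp, h3⟩ := ih (n - 1) h1 (by omega)
        refine ⟨p + 1, by omega, ?_⟩
        rw [h3, List.replicate_succ, List.cons_append]
        congr 4
        omega
  obtain ⟨p, hp, h3⟩ := key w n hw.1 hw.2
  exact ⟨p, hp, Subtype.ext h3⟩

theorem shw_inj {n p q : ℕ} (hp : p ≤ n) (hq : q ≤ n) (h : shw n p hp = shw n q hq) : p = q := by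
  have h1 := congrArg Subtype.val h
  change List.replicate p true ++ false :: List.replicate (n - p) true =
    List.replicate q true ++ false :: List.replicate (n - q) true at h1
  have key : ∀ (p q : ℕ) (u v : List Bool),
      List.replicate p true ++ false :: u = List.replicate q true ++ false :: v → p = q := by
    intro p
    induction p with
    | zero =>
      intro q u v h
      cases q with
      | zero => rfl
      | succ q =>
        rw [List.replicate_zero, List.nil_append, List.replicate_succ, List.cons_append] at h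
        simp at h
    | succ p ih =>
      intro q u v h
      cases q with
      | zero =>
        rw [List.replicate_zero, List.nil_append, List.replicate_succ, List.cons_append] at h
        simp at h
      | succ q =>
        rw [List.replicate_succ, List.replicate_succ, List.cons_append, List.cons_append,
          List.cons.injEq] at h
        rw [ih q u v h.2]
  exact key _ _ _ _ h1

section

variable {D : Datum K I} {i : I} {n : ℕ} {Y : Type} [AddCommGroup Y] [Module K Y]
  [Module (KLRAlg D) Y] [IsScalarTower K (KLRAlg D) Y]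

/-- `mk one y` in `L(i) ∘ Y` -/
noncomputable def lk (D : Datum K I) (i : I) (Y : Type) [AddCommGroup Y] [Module K Y]
    [Module (KLRAlg D) Y] : Y →ₗ[K] Conv D 1 (Lt D i) Y := Conv.mk D 1 (Lt D i) Y (Lt.one D i)

omit [IsScalarTower K (KLRAlg D) Y] in
theorem mk_eq_lk (u : Lt D i) (y : Y) : ∃ c : K, u = c • Lt.one D i ∧
    Conv.mk D 1 (Lt D i) Y u y = c • lk D i Y y := by
  obtain ⟨c, hc⟩ := Lt.exists_eq D i u
  refine ⟨c, hc, ?_⟩
  rw [hc, map_smul, LinearMap.smul_apply]
  rfl

omit [IsScalarTower K (KLRAlg D) Y] in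
theorem shn_smul_lk (b : KLRAlg D) (y : Y) : D.shn 1 b • lk D i Y y = lk D i Y (b • y) :=
  Conv.shn_smul_mk b _ _

omit [IsScalarTower K (KLRAlg D) Y] in
theorem e_smul_lk (y : Y) : D.e 0 i • lk D i Y y = lk D i Y y := by
  have h := Conv.tr_smul_mk (D := D) (m := 1) (D.e 0 i) (Lt.one D i) y
  rwa [D.tr_e, if_pos (by omega), Lt.e_smul] at h

omit [IsScalarTower K (KLRAlg D) Y] in
theorem e_smul_lk_ne {j : I} (hj : j ≠ i) (y : Y) : D.e 0 j • lk D i Y y = 0 := by
  have h := Conv.tr_smul_mk (D := D) (m := 1) (D.e 0 j) (Lt.one D i) y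
  rwa [D.tr_e, if_pos (by omega), Lt.e_smul_ne D i hj, map_zero, LinearMap.zero_apply] at h

omit [IsScalarTower K (KLRAlg D) Y] in
theorem x_smul_lk (y : Y) : D.x 0 • lk D i Y y = 0 := by
  have h := Conv.tr_smul_mk (D := D) (m := 1) (D.x 0) (Lt.one D i) y
  rwa [D.tr_x, if_pos (by omega), Lt.x_smul, map_zero, LinearMap.zero_apply] at h

omit [IsScalarTower K (KLRAlg D) Y] in
theorem dl_smul_lk (y : Y) : D.dl 0 • lk D i Y y = lk D i Y (D.e 0 i • y) := by
  unfold Datum.dl
  rw [Finset.sum_smul, Finset.sum_eq_single i]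
  · rw [D.e_comm, mul_smul, e_smul_lk, ← shn_smul_lk, D.shn_e]
  · intro j _ hj
    rw [D.e_comm, mul_smul, e_smul_lk_ne hj, smul_zero]
  · intro h
    exact absurd (Finset.mem_univ i) h

theorem lk_injective (hb : S_basis D) (hY : IsStrand D n Y) : Function.Injective (lk D i Y) := by
  rw [← LinearMap.ker_eq_bot, LinearMap.ker_eq_bot']
  intro y hy
  exact (Conv.mk_eq_zero hb (Lt.isStrand D i) hY hy).resolve_left (Lt.one_ne_zero D i)

/-- spanning -/
theorem exists_sum_lc (hb : S_basis D) (hY : IsStrand D n Y) (z : Conv D 1 (Lt D i) Y) :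
    ∃ y : ℕ → Y, z = ∑ p ∈ Finset.range (n + 1), D.lc p • lk D i Y (y p) := by
  obtain ⟨f, rfl⟩ := (hb 1 n (Lt D i) Y (Lt.isStrand D i) hY).2 z
  induction f using Finsupp.induction_linear with
  | zero => exact ⟨0, by simp⟩
  | add f g hf hg =>
    obtain ⟨y, hy⟩ := hf
    obtain ⟨y', hy'⟩ := hg
    refine ⟨y + y', ?_⟩
    rw [map_add, hy, hy', ← Finset.sum_add_distrib]
    refine Finset.sum_congr rfl fun p _ => ?_
    rw [Pi.add_apply, map_add, smul_add]
  | single w t =>
    obtain ⟨p, hp, rfl⟩ := shw_surj n w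
    induction t using TensorProduct.induction_on with
    | zero => exact ⟨0, by simp⟩
    | add t t' ht ht' =>
      obtain ⟨y, hy⟩ := ht
      obtain ⟨y', hy'⟩ := ht'
      refine ⟨y + y', ?_⟩
      rw [Finsupp.single_add, map_add, hy, hy', ← Finset.sum_add_distrib]
      refine Finset.sum_congr rfl fun p _ => ?_
      rw [Pi.add_apply, map_add, smul_add]
    | tmul u v =>
      obtain ⟨c, -, hc⟩ := mk_eq_lk u v
      refine ⟨fun q => if q = p then c • v else 0, ?_⟩
      rw [convSum_single, D.tw_shw, hc, Finset.sum_eq_single p]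
      · simp only [if_true, map_smul]
      · intro q _ hq
        simp only [hq, if_false, map_zero, smul_zero]
      · intro h
        exact absurd (Finset.mem_range.2 (by omega)) h

/-- independence -/
theorem lc_indep (hb : S_basis D) (hY : IsStrand D n Y) (y : ℕ → Y)
    (h : ∑ p ∈ Finset.range (n + 1), D.lc p • lk D i Y (y p) = 0) : ∀ p ≤ n, y p = 0 := by
  classical
  have h1 : convSum D 1 n (Lt D i) Y (∑ p ∈ (Finset.range (n + 1)).attach,
      Finsupp.single (shw n p.1 (by have := Finset.mem_range.1 p.2; omega))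
        (Lt.one D i ⊗ₜ[K] y p.1)) = 0 := by
    rw [map_sum, ← h, ← Finset.sum_attach (Finset.range (n + 1))]
    refine Finset.sum_congr rfl fun p _ => ?_
    rw [convSum_single, D.tw_shw]
    rfl
  have h2 := (hb 1 n (Lt D i) Y (Lt.isStrand D i) hY).1 (h1.trans (map_zero _).symm)
  intro p hp
  have h3 := DFunLike.congr_fun h2 (shw n p hp)
  rw [Finsupp.finsetSum_apply, Finset.sum_eq_single ⟨p, Finset.mem_range.2 (by omega)⟩] at h3
  · rw [Finsupp.single_eq_same, Finsupp.zero_apply] at h3
    have h4 := congrArg (TensorProduct.lid K Y ∘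
      ((Lt.of D i).symm.toLinearMap.rTensor Y)) h3
    simp only [Function.comp_apply, LinearMap.rTensor_tmul, LinearEquiv.coe_coe,
      TensorProduct.lid_tmul, map_zero] at h4
    have h5 : (Lt.of D i).symm (Lt.one D i) = 1 := (Lt.of D i).symm_apply_apply 1
    rwa [h5, one_smul] at h4
  · intro q _ hq
    rw [Finsupp.single_eq_of_ne]
    intro h4
    exact hq (Subtype.ext (shw_inj _ _ h4.symm))
  · intro h4
    exact absurd (Finset.mem_attach _ _) h4

theorem lc_unique (hb : S_basis D) (hY : IsStrand D n Y) (y y' : ℕ → Y)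
    (h : ∑ p ∈ Finset.range (n + 1), D.lc p • lk D i Y (y p) =
      ∑ p ∈ Finset.range (n + 1), D.lc p • lk D i Y (y' p)) : ∀ p ≤ n, y p = y' p := by
  intro p hp
  rw [← sub_eq_zero]
  refine lc_indep (i := i) hb hY (fun p => y p - y' p) ?_ p hp
  rw [← sub_eq_zero, ← Finset.sum_sub_distrib] at h
  rw [← h]
  refine Finset.sum_congr rfl fun p _ => ?_
  rw [map_sub, smul_sub]

omit [IsScalarTower K (KLRAlg D) Y] in
theorem e_lc_lk (p : ℕ) (y : Y) :
    D.e 0 i • D.lc (p + 1) • lk D i Y y = D.lc (p + 1) • lk D i Y (D.e 0 i • y) := by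
  have h1 := D.tr_mul_shn (le_refl 1) (D.e 0 i) (D.lc p)
  rw [D.tr_e, if_pos (by omega)] at h1
  rw [← shn_smul_lk, D.shn_e, Datum.lc, mul_smul, mul_smul, ← mul_smul (D.e 0 i), h1, mul_smul,
    ← mul_smul (D.e 0 i), ← D.t_e1, mul_smul]

omit [IsScalarTower K (KLRAlg D) Y] in
theorem x_lc_lk (p : ℕ) (y : Y) (hy : D.e 0 i • y = y) :
    D.x 0 • D.lc (p + 1) • lk D i Y y =
      D.lc (p + 1) • lk D i Y (D.x 0 • y) - lk D i Y (D.lc p • y) := by
  have h1 := D.tr_mul_shn (le_refl 1) (D.x 0) (D.lc p)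
  rw [D.tr_x, if_pos (by omega)] at h1
  have h2 : D.x 0 * D.t 0 = D.t 0 * D.x 1 - D.dl 0 := by
    rw [show (1 : ℕ) = 0 + 1 by rfl, D.t_x1]
    abel
  rw [← shn_smul_lk, ← shn_smul_lk, D.shn_x, Datum.lc, mul_smul, mul_smul, ← mul_smul (D.x 0), h1,
    mul_smul, ← mul_smul (D.x 0), h2, sub_smul, smul_sub, mul_smul, dl_smul_lk, hy]

/-- the counit `L(i) ∘ Kr_i Y → Y` is injective -/
def CouInj (D : Datum K I) (i : I) (n : ℕ) (Y : Type) [AddCommGroup Y]
    [Module (KLRAlg D) Y] : Prop :=
  ∀ y : ℕ → Y, (∀ p, IsKr D i 1 (y p)) → ∑ p ∈ Finset.range n, D.lc p • y p = 0 →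
    ∀ p < n, y p = 0

/-- if the counit is injective for `Y` then `Kr_i (L(i) ∘ Y) = Y` -/
theorem exists_lk (hb : S_basis D) (hY : IsStrand D n Y) (hc : CouInj D i n Y)
    (z : Conv D 1 (Lt D i) Y) (hz : IsKr D i 1 z) : ∃ y, z = lk D i Y y := by
  obtain ⟨y, rfl⟩ := exists_sum_lc hb hY z
  obtain ⟨h1, h2⟩ := hz 0 (by omega)
  have h3 : ∑ p ∈ Finset.range (n + 1), D.lc p • lk D i Y (if p = 0 then y p else D.e 0 i • y p) =
      ∑ p ∈ Finset.range (n + 1), D.lc p • lk D i Y (y p) := by
    conv_rhs => rw [← h1, Finset.smul_sum]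
    refine Finset.sum_congr rfl fun p _ => ?_
    cases p with
    | zero => rw [if_pos rfl, Datum.lc, one_smul, e_smul_lk]
    | succ p => rw [if_neg (by omega), e_lc_lk]
  have h4 : ∀ p < n, D.e 0 i • y (p + 1) = y (p + 1) := by
    intro p hp
    have h5 := lc_unique hb hY _ _ h3 (p + 1) (by omega)
    rwa [if_neg (by omega)] at h5
  have h5 : ∑ p ∈ Finset.range (n + 1), D.lc p • lk D i Y
      (if p = 0 then - ∑ q ∈ Finset.range n, D.lc q • y (q + 1) else D.x 0 • y p) = 0 := by
    rw [← h2, Finset.smul_sum, Finset.sum_range_succ', Finset.sum_range_succ']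
    rw [if_pos rfl, Datum.lc, one_smul, one_smul, x_smul_lk, add_zero, map_neg, map_sum,
      ← sub_eq_add_neg, ← Finset.sum_sub_distrib]
    refine Finset.sum_congr rfl fun p hp => ?_
    rw [if_neg (by omega), x_lc_lk _ _ (h4 p (Finset.mem_range.1 hp))]
  have h6 := lc_indep hb hY _ h5
  have h7 : ∀ p < n, D.x 0 • y (p + 1) = 0 := by
    intro p hp
    have h8 := h6 (p + 1) (by omega)
    rwa [if_neg (by omega)] at h8
  have h8 : ∑ q ∈ Finset.range n, D.lc q • y (q + 1) = 0 := by
    have h9 := h6 0 (by omega)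
    rwa [if_pos rfl, neg_eq_zero] at h9
  have h9 : ∀ p < n, y (p + 1) = 0 := by
    have h10 := hc (fun p => if p < n then y (p + 1) else 0) ?_ ?_
    · intro p hp
      have h11 := h10 p hp
      simpa [hp] using h11
    · intro p
      by_cases hp : p < n
      · simp only [hp, if_true]
        intro k hk
        have hk' : k = 0 := by omega
        subst hk'
        exact ⟨h4 p hp, h7 p hp⟩
      · simp only [hp, if_false]
        exact isKr_zero
    · rw [← h8]
      refine Finset.sum_congr rfl fun p hp => ?_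
      rw [if_pos (Finset.mem_range.1 hp)]
  refine ⟨y 0, ?_⟩
  rw [Finset.sum_range_succ', Finset.sum_eq_zero, zero_add, Datum.lc, one_smul]
  intro p hp
  rw [h9 p (Finset.mem_range.1 hp), map_zero, smul_zero]

/-- the counit for `L(i) ∘ Y` -/
theorem couInj_conv (hb : S_basis D) (hY : IsStrand D n Y) (hc : CouInj D i n Y) :
    CouInj D i (n + 1) (Conv D 1 (Lt D i) Y) := by
  intro z hz h p hp
  choose y hy using fun p => exists_lk hb hY hc (z p) (hz p)
  simp only [hy] at h ⊢
  rw [lc_indep hb hY y h p (by omega), map_zero]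

omit [IsScalarTower K (KLRAlg D) Y] in
theorem isKr_lk {a : ℕ} {y : Y} (hy : IsKr D i a y) : IsKr D i (1 + a) (lk D i Y y) := by
  intro k hk
  by_cases h : k = 0
  · subst h
    exact ⟨e_smul_lk y, x_smul_lk y⟩
  · obtain ⟨k, rfl⟩ : ∃ l, k = 1 + l := ⟨k - 1, by omega⟩
    rw [← D.shn_e, ← D.shn_x, shn_smul_lk, shn_smul_lk, (hy k (by omega)).1, (hy k (by omega)).2,
      map_zero]
    exact ⟨rfl, rfl⟩

theorem isKr_of_lk (hb : S_basis D) (hY : IsStrand D n Y) {a : ℕ} {y : Y}
    (hy : IsKr D i (1 + a) (lk D i Y y)) : IsKr D i a y := by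
  intro k hk
  obtain ⟨h1, h2⟩ := hy (1 + k) (by omega)
  rw [← D.shn_e, shn_smul_lk] at h1
  rw [← D.shn_x, shn_smul_lk] at h2
  exact ⟨lk_injective hb hY h1, lk_injective hb hY (h2.trans (map_zero _).symm)⟩

end

end Pool.Agent.KLS

end
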