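import Pool.Agent.Work.MP_e487d8_al.Bd.B16
import Pool.Agent.Work.MP_e487d8_al.Bd.B15

/-! Bundle of small proof modules (one section per former module). -/

section

/-! MP_e487d8_al, one strand: the affinisation `Aff D M = M[z]` of a module `M` with one strand:
finitely supported sequences, `e` acts coefficientwise, `x 0` acts by `x 0 + z`. (Copy of
`Rmat/Aff.lean`; here the form of the polynomials `Q` does not matter.) -/

set_option autoImplicit false
set_option linter.unusedSectionVars false

namespace Pool.Agent.KLS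

variable {K I : Type} [Field K] [Fintype I] [DecidableEq I] {D : Datum K I}

section twz

variable {B : Type*} [Ring B] [Algebra K B]

/-- the one strand action with the dot `x 0 + z` -/
noncomputable def twz (T : KLRAlg D →ₐ[K] B) (z : B) (hz : ∀ a, z * T a = T a * z) :
    KLRAlg D →ₐ[K] B :=
  liftHom (D := D) (e := fun k i => if k = 0 then T (D.e 0 i) else 0)
    (x := fun k => if k = 0 then T (D.x 0) + z * T (D.E 0) else 0)
    (t := fun _ => 0)
    { ee := by
        intro k i j
        by_cases hk : k = 0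
        · simp only [hk, if_true]
          rw [← map_mul, D.e_mul_e]
          split_ifs
          · rfl
          · rw [map_zero]
        · simp [hk]
      ee_comm := by
        intro k l i j
        by_cases hk : k = 0
        · by_cases hl : l = 0
          · simp only [hk, hl, if_true]
            rw [← map_mul, D.e_comm, map_mul]
          · simp [hl]
        · simp [hk]
      xx := by
        intro k l
        by_cases hk : k = 0
        · by_cases hl : l = 0
          · rw [hk, hl]
          · simp [hl]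
        · simp [hk]
      xe := by
        intro k l i
        by_cases hk : k = 0
        · by_cases hl : l = 0
          · simp only [hk, hl, if_true]
            have h1 : Commute (T (D.x 0)) (T (D.e 0 i)) := by
              rw [Commute, SemiconjBy, ← map_mul, ← map_mul, D.x_e]
            have h2 : Commute z (T (D.e 0 i)) := hz _
            have h3 : Commute (T (D.E 0)) (T (D.e 0 i)) := by
              rw [Commute, SemiconjBy, ← map_mul, ← map_mul, D.E_comm]
            exact (h1.add_left (h2.mul_left h3)).eq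
          · simp [hl]
        · simp [hk]
      xE := by
        intro k
        by_cases hk : k = 0
        · simp only [hk, if_true]
          rw [← map_sum]
          change _ * T (D.E 0) = _
          rw [add_mul, mul_assoc, ← map_mul, ← map_mul, D.x_E]
          congr 3
          nth_rw 1 [Datum.E]
          rw [Finset.sum_mul]
          exact Finset.sum_congr rfl fun i _ => D.e_E 0 i
        · simp [hk]
      tE := by intro k; simp
      tE' := by intro k; simp
      te0 := by intro k i; simp
      te1 := by intro k i; simp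
      te := by intro k l i h h'; simp
      tx := by intro k l h h'; simp
      tx0 := by intro k; simp
      tx1 := by intro k; simp
      tt := by intro k; simp
      far := by intro k l h; simp
      braid := by intro k; simp }

variable (T : KLRAlg D →ₐ[K] B) (z : B) (hz : ∀ a, z * T a = T a * z)

theorem twz_e (k : ℕ) (i : I) : twz T z hz (D.e k i) = if k = 0 then T (D.e 0 i) else 0 :=
  liftHom_e _ k i
theorem twz_x (k : ℕ) : twz T z hz (D.x k) = if k = 0 then T (D.x 0) + z * T (D.E 0) else 0 :=
  liftHom_x _ k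
theorem twz_t (k : ℕ) : twz T z hz (D.t k) = 0 := liftHom_t _ k

theorem twz_comm (a : KLRAlg D) : z * twz T z hz a = twz T z hz a * z := by
  induction a using KLRAlg.induction with
  | hs r => rw [AlgHom.commutes]; exact (Algebra.commutes r _).symm
  | he k i =>
    rw [twz_e]
    split_ifs
    · exact hz _
    · rw [mul_zero, zero_mul]
  | hx k =>
    rw [twz_x]
    split_ifs
    · rw [mul_add, add_mul, hz (D.x 0), mul_assoc z _ z, ← hz (D.E 0)]
    · rw [mul_zero, zero_mul]
  | ht k => rw [twz_t, mul_zero, zero_mul]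
  | hadd a b ha hb => rw [map_add, mul_add, add_mul, ha, hb]
  | hmul a b ha hb => rw [map_mul, ← mul_assoc, ha, mul_assoc, hb, mul_assoc]

end twz

/-- the affinisation `M[z]` -/
@[nolint unusedArguments]
def Aff (_D : Datum K I) (M : Type) [AddCommGroup M] : Type := ℕ →₀ M

namespace Aff

variable (D) (M : Type) [AddCommGroup M] [Module K M] [Module (KLRAlg D) M]
  [IsScalarTower K (KLRAlg D) M]

noncomputable instance : AddCommGroup (Aff D M) := inferInstanceAs (AddCommGroup (ℕ →₀ M))
noncomputable instance : Module K (Aff D M) := inferInstanceAs (Module K (ℕ →₀ M))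

/-- multiplication by `z` -/
noncomputable def shift : Module.End K (ℕ →₀ M) := Finsupp.lmapDomain M K Nat.succ

/-- the coefficientwise action -/
noncomputable def coe : KLRAlg D →ₐ[K] Module.End K (ℕ →₀ M) := Algebra.lsmul K K (ℕ →₀ M)

theorem shift_coe (a : KLRAlg D) : shift (K := K) M * coe D M a = coe D M a * shift M := by
  ext d u
  simp [shift, coe]

/-- the action on the affinisation -/
noncomputable def act : KLRAlg D →ₐ[K] Module.End K (ℕ →₀ M) :=
  twz (coe D M) (shift M) (shift_coe D M)

noncomputable instance : Module (KLRAlg D) (Aff D M) :=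
  Module.compHom (ℕ →₀ M) (act D M).toRingHom

instance : IsScalarTower K (KLRAlg D) (Aff D M) where
  smul_assoc r a u := by
    change act D M (r • a) u = r • act D M a u
    rw [map_smul]
    rfl

variable {M}

/-- the element `u z^d` -/
noncomputable def sg (d : ℕ) : M →ₗ[K] Aff D M := Finsupp.lsingle d

variable {D}

theorem sg_apply (d : ℕ) (u : M) : sg D d u = (Finsupp.single d u : ℕ →₀ M) := rfl

theorem smul_def (a : KLRAlg D) (w : Aff D M) : a • w = act D M a w := rfl

variable [h1 : IsStrand D 1 M]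

theorem e_sg (k : ℕ) (i : I) (d : ℕ) (u : M) : D.e k i • sg D d u = sg D d (D.e k i • u) := by
  rw [smul_def, act, twz_e]
  by_cases hk : k = 0
  · subst hk
    rw [if_pos rfl]
    refine Eq.trans ?_ (Finsupp.smul_single (D.e 0 i) d u)
    rfl
  · rw [if_neg hk, h1.zero k (by omega), map_zero]
    rfl

theorem t_sg (k : ℕ) (d : ℕ) (u : M) : D.t k • sg D d u = sg D d (D.t k • u) := by
  rw [smul_def, act, twz_t, h1.t_smul_zero (by omega), map_zero]
  rfl

theorem x_sg (k : ℕ) (d : ℕ) (u : M) :
    D.x k • sg D d u = sg D d (D.x k • u) + sg D (d + 1) (D.E k • u) := by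
  rw [smul_def, act, twz_x]
  by_cases hk : k = 0
  · subst hk
    rw [if_pos rfl]
    simp [coe, shift, sg_apply]
    rfl
  · rw [if_neg hk, h1.x_smul_zero (by omega), h1.E_smul_zero (by omega), map_zero, map_zero,
      add_zero]
    rfl

theorem E_sg (k : ℕ) (d : ℕ) (u : M) : D.E k • sg D d u = sg D d (D.E k • u) := by
  rw [Datum.E, Finset.sum_smul, Finset.sum_smul, map_sum]
  exact Finset.sum_congr rfl fun i _ => e_sg k i d u

/-- induction principle -/
theorem ind {P : Aff D M → Prop} (w : Aff D M) (h0 : P 0) (hs : ∀ d u, P (sg D d u))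
    (ha : ∀ v w, P v → P w → P (v + w)) : P w := by
  have h : ∀ w : ℕ →₀ M, P w := by
    intro w
    induction w using Finsupp.induction_linear with
    | zero => exact h0
    | add f g hf hg => exact ha f g hf hg
    | single d u => exact hs d u
  exact h w

theorem isStrand {m : ℕ} (h : IsStrand D m M) : IsStrand D m (Aff D M) where
  one k hk w := by
    induction w using ind with
    | h0 => rw [smul_zero]
    | hs d u => rw [E_sg, h.one k hk]
    | ha v w hv hw => rw [smul_add, hv, hw]
  zero k hk i w := by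
    induction w using ind with
    | h0 => rw [smul_zero]
    | hs d u => rw [e_sg, h.zero k hk, map_zero]
    | ha v w hv hw => rw [smul_add, hv, hw, add_zero]

variable (D M) in
/-- multiplication by `z` -/
noncomputable def Z : Aff D M →ₗ[KLRAlg D] Aff D M where
  toFun w := shift (K := K) M w
  map_add' v w := map_add _ v w
  map_smul' a w := by
    have h := LinearMap.congr_fun (twz_comm (coe D M) (shift M) (shift_coe D M) a) w
    exact h

theorem Z_sg (d : ℕ) (u : M) : Z D M (sg D d u) = sg D (d + 1) u := by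
  change shift (K := K) M _ = _
  simp [shift, sg_apply]

variable (D M) in
/-- the constant coefficient -/
noncomputable def ev : Aff D M →ₗ[K] M := Finsupp.lapply 0

theorem ev_sg_zero (u : M) : ev D M (sg D 0 u) = u := by
  change (Finsupp.single 0 u : ℕ →₀ M) 0 = u
  simp

theorem ev_sg_succ (d : ℕ) (u : M) : ev D M (sg D (d + 1) u) = 0 := by
  change (Finsupp.single (d + 1) u : ℕ →₀ M) 0 = 0
  simp

theorem ev_smul (a : KLRAlg D) (w : Aff D M) : ev D M (a • w) = a • ev D M w := by
  induction a using KLRAlg.induction generalizing w with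
  | hs r => rw [algebraMap_smul, algebraMap_smul, map_smul]
  | he k i =>
    induction w using ind with
    | h0 => rw [smul_zero, map_zero, smul_zero]
    | ha v w hv hw => rw [smul_add, map_add, map_add, smul_add, hv, hw]
    | hs d u =>
      rw [e_sg]
      cases d with
      | zero => rw [ev_sg_zero, ev_sg_zero]
      | succ d => rw [ev_sg_succ, ev_sg_succ, smul_zero]
  | ht k =>
    induction w using ind with
    | h0 => rw [smul_zero, map_zero, smul_zero]
    | ha v w hv hw => rw [smul_add, map_add, map_add, smul_add, hv, hw]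
    | hs d u =>
      rw [t_sg]
      cases d with
      | zero => rw [ev_sg_zero, ev_sg_zero]
      | succ d => rw [ev_sg_succ, ev_sg_succ, smul_zero]
  | hx k =>
    induction w using ind with
    | h0 => rw [smul_zero, map_zero, smul_zero]
    | ha v w hv hw => rw [smul_add, map_add, map_add, smul_add, hv, hw]
    | hs d u =>
      rw [x_sg, map_add, ev_sg_succ, add_zero]
      cases d with
      | zero => rw [ev_sg_zero, ev_sg_zero]
      | succ d => rw [ev_sg_succ, ev_sg_succ, smul_zero]
  | hadd a b ha hb => rw [add_smul, add_smul, map_add, ha, hb]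
  | hmul a b ha hb => rw [mul_smul, mul_smul, ha, hb]

variable (D M) in
/-- reduction modulo `z` -/
noncomputable def P : Aff D M →ₗ[KLRAlg D] M where
  toFun w := ev D M w
  map_add' v w := map_add _ v w
  map_smul' a w := ev_smul a w

theorem P_sg_zero (u : M) : P D M (sg D 0 u) = u := ev_sg_zero u

theorem P_sg_succ (d : ℕ) (u : M) : P D M (sg D (d + 1) u) = 0 := ev_sg_succ d u

theorem isAff {m : ℕ} (h : IsStrand D m M) : IsAff D m (Z D M) (P D M) where
  strand := isStrand h
  red :=
    { inj := Finsupp.mapDomain_injective Nat.succ_injective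
      surj := fun u => ⟨sg D 0 u, P_sg_zero u⟩
      ker := by
        apply le_antisymm
        · intro w hw
          have hw0 : (show ℕ →₀ M from w) 0 = 0 := hw
          refine ⟨(Finsupp.comapDomain Nat.succ (show ℕ →₀ M from w)
            Nat.succ_injective.injOn : ℕ →₀ M), ?_⟩
          change Finsupp.mapDomain Nat.succ _ = (w : ℕ →₀ M)
          ext d
          cases d with
          | zero =>
            rw [Finsupp.mapDomain_of_notMem_range]
            · exact hw0.symm
            · rintro ⟨y, hy⟩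
              exact Nat.succ_ne_zero y hy
          | succ d =>
            have h1 := Finsupp.mapDomain_apply Nat.succ_injective
              (Finsupp.comapDomain Nat.succ (show ℕ →₀ M from w) Nat.succ_injective.injOn) d
            exact h1
        · rintro _ ⟨w, rfl⟩
          induction w using ind with
          | h0 => rw [map_zero]; exact Submodule.zero_mem _
          | hs d u => rw [Z_sg]; exact P_sg_succ d u
          | ha v w hv hw => rw [map_add]; exact Submodule.add_mem _ hv hw }

/-- the lift of a vector killed by the dots -/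
theorem x_sg_zero {m : ℕ} (h : IsStrand D m M) {u : M} (hu : ∀ k, D.x k • u = 0) (k : ℕ)
    (hk : k < m) : D.x k • sg D 0 u = Z D M (sg D 0 u) := by
  rw [x_sg, hu, map_zero, zero_add, h.one k hk, Z_sg]

end Aff

end Pool.Agent.KLS

end

section

/-! MP_e487d8_al, RMAT block: the leading term of the R-matrix for a convolution product. -/

set_option autoImplicit false

namespace Pool.Agent.KLS

variable {K I : Type} [Field K] [Fintype I] [DecidableEq I] {D : Datum K I}

namespace Conv

section

variable {m m' n n' l : ℕ} {M N L M' N' L' : Type}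
  [AddCommGroup M] [Module K M] [Module (KLRAlg D) M] [IsScalarTower K (KLRAlg D) M]
  [AddCommGroup N] [Module K N] [Module (KLRAlg D) N] [IsScalarTower K (KLRAlg D) N]
  [AddCommGroup L] [Module K L] [Module (KLRAlg D) L] [IsScalarTower K (KLRAlg D) L]
  [AddCommGroup M'] [Module K M'] [Module (KLRAlg D) M'] [IsScalarTower K (KLRAlg D) M']
  [AddCommGroup N'] [Module K N'] [Module (KLRAlg D) N'] [IsScalarTower K (KLRAlg D) N']
  [AddCommGroup L'] [Module K L'] [Module (KLRAlg D) L'] [IsScalarTower K (KLRAlg D) L']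

/-- naturality of the associativity -/
theorem assoc_map (f : M →ₗ[KLRAlg D] M') (g : N →ₗ[KLRAlg D] N') (h : L →ₗ[KLRAlg D] L') :
    (assoc D m n M' N' L').toLinearMap ∘ₗ (map (rfl : m + n = m + n) (map (rfl : m = m) f g) h) =
      (map (rfl : m = m) f (map (rfl : n = n) g h)) ∘ₗ (assoc D m n M N L).toLinearMap := by
  apply hom_ext₃
  intro u v w
  simp

theorem assoc_symm_map (f : M →ₗ[KLRAlg D] M') (g : N →ₗ[KLRAlg D] N')
    (h : L →ₗ[KLRAlg D] L') :
    (assoc D m n M' N' L').symm.toLinearMap ∘ₗ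
        (map (rfl : m = m) f (map (rfl : n = n) g h)) =
      (map (rfl : m + n = m + n) (map (rfl : m = m) f g) h) ∘ₗ
        (assoc D m n M N L).symm.toLinearMap := by
  apply hom_ext₃'
  intro u v w
  simp

theorem map_pow_left (G : M →ₗ[KLRAlg D] M) (s : ℕ) :
    map (rfl : m = m) (G ^ s) (LinearMap.id : N →ₗ[KLRAlg D] N) =
      (map (rfl : m = m) G (LinearMap.id : N →ₗ[KLRAlg D] N)) ^ s := by
  induction s with
  | zero =>
    rw [pow_zero, pow_zero]
    exact map_id
  | succ s ih =>
    rw [pow_succ, pow_succ, ← ih, Module.End.mul_eq_comp, Module.End.mul_eq_comp, map_comp,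
      LinearMap.id_comp]

theorem map_pow_right (G : N →ₗ[KLRAlg D] N) (s : ℕ) :
    map (rfl : m = m) (LinearMap.id : M →ₗ[KLRAlg D] M) (G ^ s) =
      (map (rfl : m = m) (LinearMap.id : M →ₗ[KLRAlg D] M) G) ^ s := by
  induction s with
  | zero =>
    rw [pow_zero, pow_zero]
    exact map_id
  | succ s ih =>
    rw [pow_succ, pow_succ, ← ih, Module.End.mul_eq_comp, Module.End.mul_eq_comp, map_comp,
      LinearMap.id_comp]

end

section

variable {m m' n : ℕ} {A A₀ B B₀ N : Type}
  [AddCommGroup A] [Module K A] [Module (KLRAlg D) A] [IsScalarTower K (KLRAlg D) A]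
  [AddCommGroup A₀] [Module K A₀] [Module (KLRAlg D) A₀] [IsScalarTower K (KLRAlg D) A₀]
  [AddCommGroup B] [Module K B] [Module (KLRAlg D) B] [IsScalarTower K (KLRAlg D) B]
  [AddCommGroup B₀] [Module K B₀] [Module (KLRAlg D) B₀] [IsScalarTower K (KLRAlg D) B₀]
  [AddCommGroup N] [Module K N] [Module (KLRAlg D) N] [IsScalarTower K (KLRAlg D) N]

theorem Ld_left (h : m = m') {p : A →ₗ[KLRAlg D] A₀} {G : B →ₗ[KLRAlg D] B}
    {q : B →ₗ[KLRAlg D] B₀} {T : A →ₗ[KLRAlg D] B} {s : ℕ} {r : A₀ →ₗ[KLRAlg D] B₀}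
    (hT : Ld p G q T s r) :
    Ld (map (rfl : m = m) p (LinearMap.id : N →ₗ[KLRAlg D] N))
      (map (rfl : m' = m') G (LinearMap.id : N →ₗ[KLRAlg D] N))
      (map (rfl : m' = m') q (LinearMap.id : N →ₗ[KLRAlg D] N))
      (map h T (LinearMap.id : N →ₗ[KLRAlg D] N)) s
      (map h r (LinearMap.id : N →ₗ[KLRAlg D] N)) := by
  obtain ⟨S, hS, hr⟩ := hT
  refine ⟨map h S LinearMap.id, ?_, ?_⟩
  · rw [← map_pow_left, map_comp, hS, LinearMap.id_comp]
  · rw [map_comp, map_comp, hr]

theorem Ld_right {p : A →ₗ[KLRAlg D] A₀} {G : B →ₗ[KLRAlg D] B}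
    {q : B →ₗ[KLRAlg D] B₀} {T : A →ₗ[KLRAlg D] B} {s : ℕ} {r : A₀ →ₗ[KLRAlg D] B₀}
    (hT : Ld p G q T s r) :
    Ld (map (rfl : n = n) (LinearMap.id : N →ₗ[KLRAlg D] N) p)
      (map (rfl : n = n) (LinearMap.id : N →ₗ[KLRAlg D] N) G)
      (map (rfl : n = n) (LinearMap.id : N →ₗ[KLRAlg D] N) q)
      (map (rfl : n = n) (LinearMap.id : N →ₗ[KLRAlg D] N) T) s
      (map (rfl : n = n) (LinearMap.id : N →ₗ[KLRAlg D] N) r) := by
  obtain ⟨S, hS, hr⟩ := hT
  refine ⟨map rfl LinearMap.id S, ?_, ?_⟩
  · rw [← map_pow_right, map_comp, hS, LinearMap.id_comp]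
  · rw [map_comp, map_comp, hr]

end

end Conv

section

variable {m n l : ℕ} {W C N L : Type}
  [AddCommGroup W] [Module K W] [Module (KLRAlg D) W] [IsScalarTower K (KLRAlg D) W]
  [AddCommGroup C] [Module K C] [Module (KLRAlg D) C] [IsScalarTower K (KLRAlg D) C]
  [AddCommGroup N] [Module K N] [Module (KLRAlg D) N] [IsScalarTower K (KLRAlg D) N]
  [AddCommGroup L] [Module K L] [Module (KLRAlg D) L] [IsScalarTower K (KLRAlg D) L]
  {Z : W →ₗ[KLRAlg D] W} {p : W →ₗ[KLRAlg D] C}

/-- the R-matrix of a convolution product -/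
theorem Lead.conv {hA : IsAff D m Z p} {hN : IsStrand D n N} {hL : IsStrand D l L}
    {s s' : ℕ} {r : Conv D m C N →ₗ[KLRAlg D] Conv D n N C}
    {r' : Conv D m C L →ₗ[KLRAlg D] Conv D l L C}
    (h : Lead hA hN s r) (h' : Lead hA hL s' r') :
    ∃ ρ, Lead hA (Conv.isStrand hN hL) (s + s') ρ ∧
      (Conv.assoc D n l N L C).toLinearMap ∘ₗ ρ =
        (Conv.map (rfl : n = n) (LinearMap.id : N →ₗ[KLRAlg D] N) r') ∘ₗ
          (Conv.assoc D n m N C L).toLinearMap ∘ₗ
            (Conv.map (Nat.add_comm m n) r (LinearMap.id : L →ₗ[KLRAlg D] L)) ∘ₗ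
              (Conv.assoc D m n C N L).symm.toLinearMap := by
  have i1 : Conv.map (rfl : m = m) (LinearMap.id : W →ₗ[KLRAlg D] W)
      (LinearMap.id : N →ₗ[KLRAlg D] N) = LinearMap.id := Conv.map_id
  have eNL : (LinearMap.id : Conv D n N L →ₗ[KLRAlg D] Conv D n N L) =
    Conv.map (rfl : n = n) LinearMap.id LinearMap.id := Conv.map_id.symm
  -- the five steps
  have l1 : Ld (Conv.map (rfl : m = m) p (LinearMap.id : Conv D n N L →ₗ[KLRAlg D] _))
      (Conv.map (rfl : m + n = m + n) (Conv.map (rfl : m = m) Z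
        (LinearMap.id : N →ₗ[KLRAlg D] N)) (LinearMap.id : L →ₗ[KLRAlg D] L))
      (Conv.map (rfl : m + n = m + n) (Conv.map (rfl : m = m) p
        (LinearMap.id : N →ₗ[KLRAlg D] N)) (LinearMap.id : L →ₗ[KLRAlg D] L))
      (Conv.assoc D m n W N L).symm.toLinearMap 0
      (Conv.assoc D m n C N L).symm.toLinearMap := by
    apply Ld.of_comm
    rw [eNL, Conv.assoc_symm_map]
  have l2 := Conv.Ld_left (N := L) (Nat.add_comm m n) h
  have l3 : Ld (Conv.map (rfl : n + m = n + m) (Conv.map (rfl : n = n)
        (LinearMap.id : N →ₗ[KLRAlg D] N) p) (LinearMap.id : L →ₗ[KLRAlg D] L))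
      (Conv.map (rfl : n = n) (LinearMap.id : N →ₗ[KLRAlg D] N)
        (Conv.map (rfl : m = m) Z (LinearMap.id : L →ₗ[KLRAlg D] L)))
      (Conv.map (rfl : n = n) (LinearMap.id : N →ₗ[KLRAlg D] N)
        (Conv.map (rfl : m = m) p (LinearMap.id : L →ₗ[KLRAlg D] L)))
      (Conv.assoc D n m N W L).toLinearMap 0 (Conv.assoc D n m N C L).toLinearMap := by
    apply Ld.of_comm
    rw [Conv.assoc_map]
  have l4 := Conv.Ld_right (n := n) (N := N) h'
  have l5 : Ld (Conv.map (rfl : n = n) (LinearMap.id : N →ₗ[KLRAlg D] N)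
        (Conv.map (rfl : l = l) (LinearMap.id : L →ₗ[KLRAlg D] L) p))
      (Conv.map (rfl : n + l = n + l) (LinearMap.id : Conv D n N L →ₗ[KLRAlg D] _) Z)
      (Conv.map (rfl : n + l = n + l) (LinearMap.id : Conv D n N L →ₗ[KLRAlg D] _) p)
      (Conv.assoc D n l N L W).symm.toLinearMap 0
      (Conv.assoc D n l N L C).symm.toLinearMap := by
    apply Ld.of_comm
    rw [eNL, Conv.assoc_symm_map]
  have c2 : (Conv.map (Nat.add_comm m n) (Conv.Rm hA.strand hN)
      (LinearMap.id : L →ₗ[KLRAlg D] L)) ∘ₗ (Conv.map (rfl : m + n = m + n)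
        (Conv.map (rfl : m = m) Z (LinearMap.id : N →ₗ[KLRAlg D] N))
          (LinearMap.id : L →ₗ[KLRAlg D] L)) =
      (Conv.map (rfl : n + m = n + m) (Conv.map (rfl : n = n)
        (LinearMap.id : N →ₗ[KLRAlg D] N) Z) (LinearMap.id : L →ₗ[KLRAlg D] L)) ∘ₗ
      (Conv.map (Nat.add_comm m n) (Conv.Rm hA.strand hN)
        (LinearMap.id : L →ₗ[KLRAlg D] L)) := by
    rw [Conv.map_comp, Conv.map_comp, Rm_comm hA hN]
  have c4 : (Conv.map (rfl : n = n) (LinearMap.id : N →ₗ[KLRAlg D] N)
      (Conv.Rm hA.strand hL)) ∘ₗ (Conv.map (rfl : n = n) (LinearMap.id : N →ₗ[KLRAlg D] N)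
        (Conv.map (rfl : m = m) Z (LinearMap.id : L →ₗ[KLRAlg D] L))) =
      (Conv.map (rfl : n = n) (LinearMap.id : N →ₗ[KLRAlg D] N)
        (Conv.map (rfl : l = l) (LinearMap.id : L →ₗ[KLRAlg D] L) Z)) ∘ₗ
      (Conv.map (rfl : n = n) (LinearMap.id : N →ₗ[KLRAlg D] N) (Conv.Rm hA.strand hL)) := by
    rw [Conv.map_comp, Conv.map_comp, Rm_comm hA hL]
  have c3 := Conv.assoc_map (D := D) (m := n) (n := m) (LinearMap.id : N →ₗ[KLRAlg D] N) Z
    (LinearMap.id : L →ₗ[KLRAlg D] L)
  have c5 : (Conv.assoc D n l N L W).symm.toLinearMap ∘ₗ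
      (Conv.map (rfl : n = n) (LinearMap.id : N →ₗ[KLRAlg D] N)
        (Conv.map (rfl : l = l) (LinearMap.id : L →ₗ[KLRAlg D] L) Z)) =
      (Conv.map (rfl : n + l = n + l) (LinearMap.id : Conv D n N L →ₗ[KLRAlg D] _) Z) ∘ₗ
      (Conv.assoc D n l N L W).symm.toLinearMap := by
    rw [eNL, Conv.assoc_symm_map]
  have h12 := l1.comp l2 c2
  have h13 := h12.comp l3 c3
  have h14 := h13.comp l4 c4
  have h15 := h14.comp l5 c5
  rw [show 0 + s + 0 + s' + 0 = s + s' by omega] at h15
  refine ⟨(Conv.assoc D n l N L C).symm.toLinearMap ∘ₗ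
      (Conv.map (rfl : n = n) (LinearMap.id : N →ₗ[KLRAlg D] N) r') ∘ₗ
          (Conv.assoc D n m N C L).toLinearMap ∘ₗ
            (Conv.map (Nat.add_comm m n) r (LinearMap.id : L →ₗ[KLRAlg D] L)) ∘ₗ
              (Conv.assoc D m n C N L).symm.toLinearMap, ?_, ?_⟩
  · have hx := Conv.Rm_hex hA.strand hN hL
    have hR : Conv.Rm hA.strand (Conv.isStrand hN hL) =
        (Conv.assoc D n l N L W).symm.toLinearMap ∘ₗ
        (Conv.map (rfl : n = n) (LinearMap.id : N →ₗ[KLRAlg D] N) (Conv.Rm hA.strand hL)) ∘ₗ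
        (Conv.assoc D n m N W L).toLinearMap ∘ₗ
          (Conv.map (Nat.add_comm m n) (Conv.Rm hA.strand hN)
            (LinearMap.id : L →ₗ[KLRAlg D] L)) ∘ₗ
            (Conv.assoc D m n W N L).symm.toLinearMap := by
      rw [← hx, ← LinearMap.comp_assoc]
      ext z
      simp
    rw [Lead, hR]
    simpa only [LinearMap.comp_assoc] using h15
  · ext z
    simp

end

end Pool.Agent.KLS

end

section

/-! MP_e487d8_al, block CRY: the modules `P_a X = L(i) ∘ (L(i) ∘ ... ∘ X)` for `e_i X = 0` and the
modules `L(i^a)`. -/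

set_option autoImplicit false

open scoped TensorProduct
open Pool.Agent.E487.Hopf

namespace Pool.Agent.KLS

variable {K I : Type} [Field K] [Fintype I] [DecidableEq I]

/-- `P` represents the functor `Q ↦ Hom(X, Kr i a Q)` and `Kr i a P = X` -/
structure IsInd (D : Datum K I) (i : I) (a n : ℕ) (X P : Type) [AddCommGroup X] [Module K X]
    [Module (KLRAlg D) X] [AddCommGroup P] [Module K P] [Module (KLRAlg D) P]
    (j : X →ₗ[K] P) : Prop where
  fdm : FdMod D (a + n) P
  bal : ∀ (b : KLRAlg D) (x : X), D.shn a b • j x = j (b • x)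
  kr : ∀ x, IsKr D i a (j x)
  inj : Function.Injective j
  ker : ∀ u, IsKr D i a u → ∃ x, j x = u
  gen : Submodule.span (KLRAlg D) (Set.range j) = ⊤
  univ : ∀ (Q : Type) [AddCommGroup Q] [Module K Q] [Module (KLRAlg D) Q]
    [IsScalarTower K (KLRAlg D) Q] (f : X →ₗ[K] Q),
    (∀ (b : KLRAlg D) (x : X), D.shn a b • f x = f (b • x)) → (∀ x, IsKr D i a (f x)) →
    ∃ g : P →ₗ[KLRAlg D] Q, ∀ x, g (j x) = f x
  cou : CouInj D i (a + n) P

section

variable {D : Datum K I} {i : I} {a n : ℕ} {X P P' : Type}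
  [AddCommGroup X] [Module K X] [Module (KLRAlg D) X] [IsScalarTower K (KLRAlg D) X]
  [AddCommGroup P] [Module K P] [Module (KLRAlg D) P] [IsScalarTower K (KLRAlg D) P]
  [AddCommGroup P'] [Module K P'] [Module (KLRAlg D) P'] [IsScalarTower K (KLRAlg D) P']

theorem IsInd.base (hX : FdMod D n X) (h0 : ∀ x : X, IsKr D i 1 x → x = 0) :
    IsInd D i 0 n X X LinearMap.id where
  fdm := by rwa [Nat.zero_add]
  bal b x := by rw [D.shn_zero]; rfl
  kr x := isKr_nil x
  inj := Function.injective_id
  ker u _ := ⟨u, rfl⟩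
  gen := by
    rw [eq_top_iff]
    intro x _
    exact Submodule.subset_span ⟨x, rfl⟩
  univ Q _ _ _ _ f hf _ := by
    refine ⟨{ toFun := f, map_add' := map_add f, map_smul' := fun b x => ?_ }, fun x => rfl⟩
    have h := hf b x
    rw [D.shn_zero] at h
    exact h.symm
  cou y hy _ p _ := h0 _ (hy p)

theorem FdMod.equiv {m : ℕ} (h : FdMod D m P) (φ : P ≃ₗ[KLRAlg D] P') : FdMod D m P' where
  strand := h.strand.of_surjective φ.toLinearMap φ.surjective
  fd := by
    have := h.fd
    exact Module.Finite.of_surjective (Conv.toK φ.toLinearMap) φ.surjective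
  nilp k := by
    obtain ⟨N, hN⟩ := h.nilp k
    refine ⟨N, fun u => ?_⟩
    obtain ⟨u, rfl⟩ := φ.surjective u
    rw [← map_smul, hN, map_zero]

theorem IsInd.congr {j : X →ₗ[K] P} (h : IsInd D i a n X P j) (φ : P ≃ₗ[KLRAlg D] P')
    (j' : X →ₗ[K] P') (hj : ∀ x, j' x = φ (j x)) : IsInd D i a n X P' j' where
  fdm := h.fdm.equiv φ
  bal b x := by rw [hj, hj, ← map_smul, h.bal]
  kr x := by rw [hj]; exact (h.kr x).map φ.toLinearMap
  inj x y hxy := by
    rw [hj, hj] at hxy
    exact h.inj (φ.injective hxy)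
  ker u hu := by
    obtain ⟨x, hx⟩ := h.ker (φ.symm u) (hu.map φ.symm.toLinearMap)
    exact ⟨x, by rw [hj, hx, LinearEquiv.apply_symm_apply]⟩
  gen := by
    have h1 : Set.range j' = φ.toLinearMap '' Set.range j := by
      ext z
      constructor
      · rintro ⟨x, rfl⟩
        exact ⟨j x, ⟨x, rfl⟩, (hj x).symm⟩
      · rintro ⟨_, ⟨x, rfl⟩, rfl⟩
        exact ⟨x, hj x⟩
    rw [h1, ← Submodule.map_span, h.gen, Submodule.map_top, LinearMap.range_eq_top]
    exact φ.surjective
  univ Q _ _ _ _ f hf hk := by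
    obtain ⟨g, hg⟩ := h.univ Q f hf hk
    refine ⟨g.comp φ.symm.toLinearMap, fun x => ?_⟩
    rw [hj, LinearMap.comp_apply, LinearEquiv.coe_coe, LinearEquiv.symm_apply_apply, hg]
  cou y hy hs p hp := by
    have h1 := h.cou (fun p => φ.symm (y p)) (fun p => (hy p).map φ.symm.toLinearMap) ?_ p hp
    · rwa [LinearEquiv.map_eq_zero_iff] at h1
    · apply φ.injective
      rw [map_zero, ← hs, map_sum]
      refine Finset.sum_congr rfl fun p _ => ?_
      rw [map_smul, LinearEquiv.apply_symm_apply]

omit [IsScalarTower K (KLRAlg D) X] [IsScalarTower K (KLRAlg D) P] in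
theorem lk_mem_span {j : X →ₗ[K] P} (h : Submodule.span (KLRAlg D) (Set.range j) = ⊤) (v : P) :
    lk D i P v ∈ Submodule.span (KLRAlg D) (Set.range ((lk D i P).comp j)) := by
  have hv : v ∈ Submodule.span (KLRAlg D) (Set.range j) := by rw [h]; trivial
  induction hv using Submodule.span_induction with
  | mem v hv =>
    obtain ⟨x, rfl⟩ := hv
    exact Submodule.subset_span ⟨x, rfl⟩
  | zero => rw [map_zero]; exact Submodule.zero_mem _
  | add v w _ _ hv hw =>
    rw [map_add]
    exact Submodule.add_mem _ hv hw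
  | smul b v _ hv =>
    rw [← shn_smul_lk]
    exact Submodule.smul_mem _ _ hv

theorem IsInd.step (hb : S_basis D) {j : X →ₗ[K] P}
    (h : IsInd D i a n X P j) :
    IsInd D i (1 + a) n X (Conv D 1 (Lt D i) P) ((lk D i P).comp j) where
  fdm := by
    rw [Nat.add_assoc]
    exact Conv.fdMod hb (Lt.smp D i).toFdMod h.fdm
  bal b x := by
    rw [← D.shn_shn, LinearMap.comp_apply, LinearMap.comp_apply, shn_smul_lk, h.bal]
  kr x := isKr_lk (h.kr x)
  inj x y hxy := h.inj (lk_injective hb h.fdm.strand hxy)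
  ker u hu := by
    obtain ⟨y, rfl⟩ := exists_lk hb h.fdm.strand h.cou u (hu.mono (by omega))
    obtain ⟨x, hx⟩ := h.ker y (isKr_of_lk hb h.fdm.strand hu)
    exact ⟨x, by rw [LinearMap.comp_apply, hx]⟩
  gen := by
    rw [eq_top_iff, ← Conv.span_mk, Submodule.span_le]
    rintro _ ⟨u, v, rfl⟩
    obtain ⟨c, -, hc⟩ := mk_eq_lk u v
    rw [hc, ← algebraMap_smul (KLRAlg D)]
    refine Submodule.smul_mem _ _ ?_
    exact lk_mem_span h.gen v
  univ Q _ _ _ _ f hf hk := by
    obtain ⟨g, hg⟩ := h.univ (Tw (D.shn 1) Q) ((Tw.mk (D.shn 1)).toLinearMap.comp f)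
      (fun b x => by
        rw [LinearMap.comp_apply, LinearEquiv.coe_coe, Tw.smul_mk, D.shn_shn, hf]
        rfl)
      (fun x k hk' => by
        have h1 := hk x (1 + k) (by omega)
        rw [LinearMap.comp_apply, LinearEquiv.coe_coe, Tw.smul_mk, Tw.smul_mk, D.shn_e, D.shn_x,
          h1.1, h1.2, map_zero]
        exact ⟨rfl, rfl⟩)
    have key : ∀ p : P, D.e 0 i • (Tw.mk (D.shn 1)).symm (g p) = (Tw.mk (D.shn 1)).symm (g p) ∧
        D.x 0 • (Tw.mk (D.shn 1)).symm (g p) = 0 := by
      intro p
      have hv : p ∈ Submodule.span (KLRAlg D) (Set.range j) := by rw [h.gen]; trivial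
      induction hv using Submodule.span_induction with
      | mem v hv =>
        obtain ⟨x, rfl⟩ := hv
        rw [hg, LinearMap.comp_apply, LinearEquiv.coe_coe, LinearEquiv.symm_apply_apply]
        exact hk x 0 (by omega)
      | zero =>
        rw [map_zero, map_zero, smul_zero, smul_zero]
        exact ⟨rfl, rfl⟩
      | add v w _ _ hv hw =>
        rw [map_add, map_add, smul_add, smul_add, hv.1, hw.1, hv.2, hw.2, add_zero]
        exact ⟨rfl, rfl⟩
      | smul b v _ hv =>
        have h1 := D.tr_mul_shn (le_refl 1) (D.e 0 i) b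
        have h2 := D.tr_mul_shn (le_refl 1) (D.x 0) b
        rw [D.tr_e, if_pos (by omega)] at h1
        rw [D.tr_x, if_pos (by omega)] at h2
        have h3 : (Tw.mk (D.shn 1)).symm (g (b • v)) =
            D.shn 1 b • (Tw.mk (D.shn 1)).symm (g v) := by
          rw [map_smul]
          rfl
        rw [h3]
        constructor
        · rw [← mul_smul, h1, mul_smul, hv.1]
        · rw [← mul_smul, h2, mul_smul, hv.2, smul_zero]
    refine ⟨ltLift (i := i) ((Tw.mk (D.shn 1)).symm.toLinearMap.comp (Conv.toK g))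
      (fun b y => ?_) (fun y => (key y).1) (fun y => (key y).2), fun x => ?_⟩
    · rw [LinearMap.comp_apply, LinearMap.comp_apply, Conv.toK_apply, Conv.toK_apply, map_smul]
      rfl
    · have h1 := ltLift_mk (i := i) ((Tw.mk (D.shn 1)).symm.toLinearMap.comp (Conv.toK g))
        (fun b y => by
          rw [LinearMap.comp_apply, LinearMap.comp_apply, Conv.toK_apply, Conv.toK_apply, map_smul]
          rfl) (fun y => (key y).1) (fun y => (key y).2) (j x)
      refine h1.trans ?_
      rw [LinearMap.comp_apply, Conv.toK_apply, hg]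
      rfl
  cou := by
    rw [show 1 + a + n = a + n + 1 by omega]
    exact couInj_conv hb h.fdm.strand h.cou

/-! ### the unit isomorphism -/

/-- auxiliary bilinear map -/
noncomputable def unBil (D : Datum K I) (X : Type) [AddCommGroup X] [Module K X] :
    Un D →ₗ[K] X →ₗ[K] X :=
  (LinearMap.toSpanSingleton K (X →ₗ[K] X) LinearMap.id).comp (Un.of D).symm.toLinearMap

omit [Fintype I] [DecidableEq I] [Module (KLRAlg D) X] [IsScalarTower K (KLRAlg D) X] in
theorem unBil_apply (c : K) (x : X) : unBil D X (c • Un.one D) x = c • x := by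
  unfold unBil
  rw [← Un.of_eq]
  simp

theorem tr_zero (a : KLRAlg D) : D.tr 0 a = algebraMap K _ (unHom D a) := by
  have h : D.tr 0 = (Algebra.ofId K (KLRAlg D)).comp (unHom D) := by
    apply hom_ext
    · intro k j
      rw [D.tr_e, if_neg (by omega), AlgHom.comp_apply, Un.unHom_e, map_zero]
    · intro k
      rw [D.tr_x, if_neg (by omega), AlgHom.comp_apply, Un.unHom_x, map_zero]
    · intro k
      rw [D.tr_t, if_neg (by omega), AlgHom.comp_apply, Un.unHom_t, map_zero]
  rw [h]
  rfl

theorem unBil_balanced : Balanced D 0 (unBil D X) where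
  left a u v := by
    obtain ⟨c, rfl⟩ := Un.exists_eq D u
    rw [Un.smul_eq, smul_smul, unBil_apply, unBil_apply, tr_zero, algebraMap_smul, smul_smul]
  right a u v := by
    obtain ⟨c, rfl⟩ := Un.exists_eq D u
    rw [unBil_apply, unBil_apply, D.shn_zero, smul_comm]

variable (D X) in
/-- `1 ∘ X = X` -/
noncomputable def unEquiv : Conv D 0 (Un D) X ≃ₗ[KLRAlg D] X :=
  LinearEquiv.ofLinearMap (Conv.lift (unBil D X) unBil_balanced)
    { toFun := Conv.mk D 0 (Un D) X (Un.one D)
      map_add' := map_add _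
      map_smul' := fun b x => by
        have h := Conv.shn_smul_mk (D := D) (m := 0) b (Un.one D) x
        rw [D.shn_zero] at h
        exact h.symm }
    (by
      ext x
      have h := unBil_apply (D := D) 1 x
      rw [one_smul, one_smul] at h
      change Conv.lift (unBil D X) unBil_balanced (Conv.mk D 0 (Un D) X (Un.one D) x) = x
      rw [Conv.lift_mk, h])
    (by
      apply Conv.hom_ext
      intro u x
      obtain ⟨c, rfl⟩ := Un.exists_eq D u
      rw [LinearMap.comp_apply, Conv.lift_mk, unBil_apply]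
      change Conv.mk D 0 (Un D) X (Un.one D) (c • x) = _
      rw [map_smul, map_smul, LinearMap.smul_apply]
      rfl)

theorem unEquiv_symm_apply (x : X) :
    (unEquiv D X).symm x = Conv.mk D 0 (Un D) X (Un.one D) x := rfl

end

/-! ### the modules `L(i^a)` -/

/-- the character of `L(i^a)` -/
noncomputable def chLp (i : I) (a : ℕ) : Sh I ℚ :=
  fun w => if w = List.replicate a i then (a.factorial : ℚ) else 0

theorem L_chLp_succ (i : I) (a : ℕ) : Sh.L i (chLp i (a + 1)) = ((a : ℚ) + 1) • chLp i a := by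
  apply Sh.ext'
  intro w
  rw [Sh.L_apply, Sh.smul_apply]
  unfold chLp
  rw [List.replicate_succ]
  by_cases h : w = List.replicate a i
  · rw [if_pos (by rw [h]), if_pos h, Nat.factorial_succ]
    push_cast
    ring
  · rw [if_neg (by simp [h]), if_neg h, mul_zero]

theorem L_chLp_zero (i j : I) : Sh.L j (chLp i 0) = 0 := by
  apply Sh.ext'
  intro w
  rw [Sh.L_apply]
  unfold chLp
  rw [if_neg (by simp), Sh.zero_apply]

theorem L_chLp_ne {i j : I} (h : j ≠ i) (a : ℕ) : Sh.L j (chLp i a) = 0 := by
  apply Sh.ext'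
  intro w
  rw [Sh.L_apply, Sh.zero_apply]
  unfold chLp
  cases a with
  | zero => rw [if_neg (by simp)]
  | succ a =>
    rw [List.replicate_succ, if_neg (by simp [h])]

theorem chLp_zero (i : I) : chLp i 0 = 1 := by
  apply Sh.ext'
  intro w
  unfold chLp
  cases w with
  | nil => rw [Sh.one_nil]; simp
  | cons j w => rw [Sh.one_cons, if_neg (by simp)]

theorem chLp_mul (i : I) (a : ℕ) : chLp i 1 * chLp i a = chLp i (1 + a) := by
  rw [Nat.add_comm]
  have key : ∀ (w : List I) (a : ℕ), (chLp i 1 * chLp i a) w = chLp i (a + 1) w := by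
    intro w
    induction w with
    | nil =>
      intro a
      rw [Sh.mul_nil]
      unfold chLp
      simp [List.replicate_succ]
    | cons j w ih =>
      intro a
      rw [Sh.mul_cons]
      by_cases h : j = i
      · subst h
        have h1 := congrFun (L_chLp_succ j a) w
        rw [Sh.L_apply, Sh.smul_apply] at h1
        rw [h1]
        have h2 : Sh.L j (chLp j 1) = 1 := by
          rw [L_chLp_succ j 0, chLp_zero]
          simp
        rw [h2, one_mul]
        cases a with
        | zero =>
          rw [L_chLp_zero, mul_zero, Sh.zero_apply, add_zero]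
          simp
        | succ a =>
          rw [L_chLp_succ, mul_smul_comm, Sh.smul_apply, ih a]
          push_cast
          ring
      · have h1 := congrFun (L_chLp_ne h (a + 1)) w
        rw [Sh.L_apply, Sh.zero_apply] at h1
        rw [h1, L_chLp_ne h, L_chLp_ne h, zero_mul, mul_zero, Sh.zero_apply, add_zero]
  exact Sh.ext' fun w => key w a

theorem chrQ_un (D : Datum K I) : chrQ D 0 (Un D) = 1 := by
  apply Sh.ext'
  intro w
  rw [chrQ_apply]
  unfold chr
  cases w with
  | nil =>
    rw [Sh.one_nil]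
    have h : wordSp D (Un D) [] = ⊤ := by
      rw [eq_top_iff]
      intro u _
      exact ⟨u, by
        change (D.eW []) • u = u
        rw [Datum.eW, one_smul]⟩
    rw [h, finrank_top, Un.finrank_eq]
    simp
  | cons j w =>
    rw [if_neg (by simp), Sh.one_cons]
    norm_num

theorem chrQ_lt (D : Datum K I) (i : I) : chrQ D 1 (Lt D i) = chLp i 1 := by
  apply Sh.ext'
  intro w
  rw [chrQ_apply]
  unfold chr chLp
  by_cases hw : w.length = 1
  · obtain ⟨j, rfl⟩ := List.length_eq_one_iff.1 hw
    by_cases h : j = i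
    · subst h
      have h : wordSp D (Lt D j) [j] = ⊤ := by
        rw [eq_top_iff]
        intro u _
        exact ⟨u, by
          change (D.eW [j]) • u = u
          rw [Datum.eW, Datum.eW, map_one, mul_one, Lt.e_smul]⟩
      rw [h, finrank_top, Lt.finrank_eq]
      simp
    · have h' : wordSp D (Lt D i) [j] = ⊥ := by
        rw [eq_bot_iff]
        rintro u ⟨v, rfl⟩
        change (D.eW [j]) • v = 0
        rw [Datum.eW, Datum.eW, map_one, mul_one, Lt.e_smul_ne D i h]
      rw [h', finrank_bot]
      simp [h]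
  · rw [if_neg hw, if_neg]
    · norm_num
    · rintro rfl
      simp at hw

/-- existence of the modules `L(i^a)` -/
theorem exists_Lp {D : Datum K I} (hb : S_basis D) (i : I) (a : ℕ) :
    ∃ (L : Type) (_ : AddCommGroup L) (_ : Module K L) (_ : Module (KLRAlg D) L)
      (_ : IsScalarTower K (KLRAlg D) L) (v : L), v ≠ 0 ∧ IsKr D i a v ∧ FdMod D a L ∧
      Submodule.span (KLRAlg D) {v} = ⊤ ∧ chrQ D a L = chLp i a ∧
      (CouInj D i a L ∧ ∀ u : L, IsKr D i a u → ∃ c : K, u = c • v) ∧
      ∀ (n : ℕ) (X : Type) [AddCommGroup X] [Module K X] [Module (KLRAlg D) X]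
        [IsScalarTower K (KLRAlg D) X], FdMod D n X → (∀ x : X, IsKr D i 1 x → x = 0) →
        IsInd D i a n X (Conv D a L X) (Conv.mk D a L X v) := by
  induction a with
  | zero =>
    refine ⟨Un D, inferInstance, inferInstance, inferInstance, inferInstance, Un.one D,
      Un.one_ne_zero D, isKr_nil _, (Un.smp D).toFdMod, ?_, ?_,
      ⟨fun y _ _ p hp => absurd hp (by omega), fun u _ => Un.exists_eq D u⟩, ?_⟩
    · rw [eq_top_iff]
      intro u _
      obtain ⟨c, rfl⟩ := Un.exists_eq D u
      rw [← algebraMap_smul (KLRAlg D)]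
      exact Submodule.smul_mem _ _ (Submodule.subset_span rfl)
    · rw [chrQ_un, chLp_zero]
    · intro n X _ _ _ _ hX h0
      exact (IsInd.base hX h0).congr (unEquiv D X).symm _ (fun x => rfl)
  | succ a ih =>
    obtain ⟨L, i1, i2, i3, i4, v, hv, hk, hL, hg, hc, ⟨hcou, hker⟩, hI⟩ := ih
    rw [Nat.add_comm a 1]
    refine ⟨Conv D 1 (Lt D i) L, inferInstance, inferInstance, inferInstance, inferInstance,
      lk D i L v, ?_, isKr_lk hk, Conv.fdMod hb (Lt.smp D i).toFdMod hL, ?_, ?_, ⟨?_, ?_⟩, ?_⟩
    · intro h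
      exact hv (lk_injective hb hL.strand (h.trans (map_zero _).symm))
    · rw [eq_top_iff, ← Conv.span_mk, Submodule.span_le]
      rintro _ ⟨u, w, rfl⟩
      obtain ⟨c, -, hc⟩ := mk_eq_lk u w
      rw [hc, ← algebraMap_smul (KLRAlg D)]
      refine Submodule.smul_mem _ _ ?_
      have hw : w ∈ Submodule.span (KLRAlg D) {v} := by rw [hg]; trivial
      obtain ⟨b, rfl⟩ := Submodule.mem_span_singleton.1 hw
      rw [← shn_smul_lk]
      exact Submodule.smul_mem _ _ (Submodule.subset_span rfl)
    · rw [(Conv.fdMod_chrQ hb (Lt.smp D i).toFdMod hL).2, ← chLp_mul, ← chrQ_lt D i, ← hc]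
    · rw [Nat.add_comm 1 a]
      exact couInj_conv hb hL.strand hcou
    · intro u hu
      obtain ⟨y, rfl⟩ := exists_lk hb hL.strand hcou u (hu.mono (by omega))
      obtain ⟨c, rfl⟩ := hker y (isKr_of_lk hb hL.strand hu)
      exact ⟨c, map_smul _ _ _⟩
    · intro n X _ _ _ _ hX h0
      exact ((hI n X hX h0).step hb).congr (Conv.assoc D 1 a (Lt D i) L X).symm _
        (fun x => (Conv.assoc_symm_mk _ _ _).symm)

end Pool.Agent.KLS

end
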