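import Pool.Agent.Work.MP_e487d8_al.Y.Mo.Head
import Pool.Agent.Work.MP_e487d8_al.Bd.B16
import Pool.Agent.Work.MP_e487d8_al.Y.Conv.KZ
import Pool.Agent.Work.MP_e487d8_al.Y.Cry.Main
import Pool.Agent.Work.MP_e487d8_al.Bd.B17
import Pool.Agent.Work.MP_e487d8_al.Y.Conv.K0

/-! Bundle of small proof modules (one section per former module). -/

section

/-! MP_e487d8_al, item AS: quotients of `A ∘ (B ∘ C)`. -/

set_option autoImplicit false
set_option linter.unusedSectionVars false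

open scoped TensorProduct

open Pool.Agent.E487.Hopf

namespace Pool.Agent.KLS

namespace XAS

variable {K I : Type} [Field K] [Fintype I] [DecidableEq I] {D : Datum K I}

theorem sConv (hb : S_basis D) : S_conv D := fun _ _ _ _ _ _ _ _ _ _ _ _ hM hN =>
  Conv.fdMod_chrQ hb hM hN

theorem nontriv (X : SMod D) : Nontrivial X.M := by
  have := X.smp.simple
  exact IsSimpleModule.nontrivial (KLRAlg D) X.M

/-- the number of strands of a quotient -/
theorem n_quo (hb : S_basis D) {X Y Z : SMod D} (h : Quo D Z.M (X.conv Y)) : Z.n = X.n + Y.n :=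
  quo_strand (Sm.fd_conv (sConv hb) X Y) h

end XAS

open XAS in
theorem Mo.I_AS {K I : Type} [Field K] [Fintype I] [DecidableEq I] (D : Datum K I) : StAs D := by
  intro Lp hB A B AB C W S hAB hW hS
  obtain ⟨hb, hC⟩ := hB
  have hconv := sConv hb
  obtain ⟨e⟩ := Sm.iso_conv' hC hconv hAB
  have hn : AB.n = A.n + B.n := n_quo hb ⟨e.toLinearMap, e.surjective⟩
  obtain ⟨g, hg⟩ := hW
  obtain ⟨f, hf⟩ := hS
  have s1 : Function.Surjective
      (Conv.map hn e.symm.toLinearMap (LinearMap.id : C.M →ₗ[KLRAlg D] C.M)) :=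
    Conv.map_surjective hn _ _ e.symm.surjective Function.surjective_id
  have s2 := (Conv.assoc D A.n B.n A.M B.M C.M).surjective
  have s3 : Function.Surjective
      (Conv.map (rfl : A.n = A.n) (LinearMap.id : A.M →ₗ[KLRAlg D] A.M) g) :=
    Conv.map_surjective rfl _ _ Function.surjective_id hg
  refine ⟨f ∘ₗ (Conv.map (rfl : A.n = A.n) (LinearMap.id : A.M →ₗ[KLRAlg D] A.M) g) ∘ₗ
    (Conv.assoc D A.n B.n A.M B.M C.M).toLinearMap ∘ₗ
    (Conv.map hn e.symm.toLinearMap (LinearMap.id : C.M →ₗ[KLRAlg D] C.M)), ?_⟩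
  intro z
  obtain ⟨z, rfl⟩ := hf z
  obtain ⟨z, rfl⟩ := s3 z
  obtain ⟨z, rfl⟩ := s2 z
  obtain ⟨z, rfl⟩ := s1 z
  exact ⟨z, rfl⟩

end Pool.Agent.KLS

end

section

/-! MP_e487d8_al, module side, item ASM: the mirror of AS. -/

set_option autoImplicit false
set_option linter.unusedSectionVars false

namespace Pool.Agent.KLS

variable {K I : Type} [Field K] [Fintype I] [DecidableEq I] (D : Datum K I)

namespace XASM

variable {D}

theorem sConv (hb : S_basis D) : S_conv D :=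
  fun _ _ _ _ _ _ _ _ _ _ _ _ hM hN => Conv.fdMod_chrQ hb hM hN

/-- the number of strands of a nonzero quotient -/
theorem n_eq {m n : ℕ} {M N : Type} [AddCommGroup M] [Module (KLRAlg D) M] [AddCommGroup N]
    [Module (KLRAlg D) N] [Nontrivial N] (hM : IsStrand D m M) (hN : IsStrand D n N)
    (f : M →ₗ[KLRAlg D] N) (hf : Function.Surjective f) : m = n := by
  have hM' : IsStrand D m N := IsStrand.of_surjective hM f hf
  obtain ⟨u, hu⟩ := exists_ne (0 : N)
  rcases lt_trichotomy m n with h | h | h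
  · exact absurd ((hN.one m h u).symm.trans (hM'.E_smul_zero le_rfl u)) hu
  · exact h
  · exact absurd ((hM'.one n h u).symm.trans (hN.E_smul_zero le_rfl u)) hu

end XASM

theorem Mo.I_ASM : StAsm D := by
  intro Lp hB A B AB C W S hAB hW hS
  obtain ⟨hb, hC⟩ := hB
  obtain ⟨f, hf⟩ := hW
  obtain ⟨g, hg⟩ := hS
  obtain ⟨e⟩ := Sm.iso_conv' hC (XASM.sConv hb) hAB
  have : IsSimpleModule (KLRAlg D) W.M := W.smp.simple
  have : Nontrivial W.M := IsSimpleModule.nontrivial (KLRAlg D) W.M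
  have hn : C.n + A.n = W.n :=
    XASM.n_eq (Conv.isStrand C.smp.strand A.smp.strand) W.smp.strand f hf
  have h1 : Function.Surjective (Conv.map hn f (LinearMap.id : B.M →ₗ[KLRAlg D] B.M)) :=
    Conv.map_surjective hn _ _ hf Function.surjective_id
  have h2 : Function.Surjective (Conv.map (rfl : C.n = C.n)
      (LinearMap.id : C.M →ₗ[KLRAlg D] C.M) e.symm.toLinearMap) :=
    Conv.map_surjective rfl _ _ Function.surjective_id e.symm.surjective
  refine ⟨g ∘ₗ (Conv.map hn f (LinearMap.id : B.M →ₗ[KLRAlg D] B.M)) ∘ₗ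
    (Conv.assoc D C.n A.n C.M A.M B.M).symm.toLinearMap ∘ₗ
    (Conv.map (rfl : C.n = C.n) (LinearMap.id : C.M →ₗ[KLRAlg D] C.M) e.symm.toLinearMap), ?_⟩
  exact hg.comp (h1.comp ((Conv.assoc D C.n A.n C.M A.M B.M).symm.surjective.comp h2))

end Pool.Agent.KLS

end

section

/-! MP_e487d8_al, module side: DS, a second constituent of `C ∘ S` if `C ∘ S` is not simple. -/

set_option autoImplicit false
set_option linter.unusedSectionVars false

open scoped TensorProduct

open Pool.Agent.E487.Hopf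

namespace Pool.Agent.KLS

variable {K I : Type} [Field K] [Fintype I] [DecidableEq I]

namespace XDS

variable {D : Datum K I}

/-- the map `C ∘ S → (C ∘ B) ∘ T` attached to an injective map `S → B ∘ T` is injective -/
theorem exists_emb (hb : S_basis D) (C B T S : SMod D) {ι : S.M →ₗ[KLRAlg D] B.conv T}
    (hn : S.n = B.n + T.n) (hι : Function.Injective ι) :
    ∃ g : C.conv S →ₗ[KLRAlg D] Conv D (C.n + B.n) (C.conv B) T.M, Function.Injective g := by
  have hs : IsStrand D (B.n + T.n) S.M := by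
    rw [← hn]
    exact S.smp.strand
  refine ⟨(Conv.assoc D C.n B.n C.M B.M T.M).symm.toLinearMap ∘ₗ
    Conv.map (rfl : C.n = C.n) (LinearMap.id : C.M →ₗ[KLRAlg D] C.M) ι, ?_⟩
  rw [LinearMap.coe_comp]
  refine (Conv.assoc D C.n B.n C.M B.M T.M).symm.injective.comp ?_
  exact Conv.map_injective hb rfl C.smp.strand hs C.smp.strand
    (Conv.isStrand B.smp.strand T.smp.strand) _ _ Function.injective_id hι

/-- a module which is not simple has a simple submodule in the kernel of each simple quotient -/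
theorem exists_sub {n : ℕ} {M : Type} [AddCommGroup M] [Module K M] [Module (KLRAlg D) M]
    [IsScalarTower K (KLRAlg D) M] (hM : FdMod D n M) (Z : SMod D) (p : M →ₗ[KLRAlg D] Z.M)
    (hp : Function.Surjective p) (hs : ¬ IsSimpleModule (KLRAlg D) M) :
    ∃ (Y : SMod D) (j : Y.M →ₗ[KLRAlg D] LinearMap.ker p), Function.Injective j := by
  have hne : LinearMap.ker p ≠ ⊥ := by
    intro h
    apply hs
    have e : M ≃ₗ[KLRAlg D] Z.M := LinearEquiv.ofBijective p ⟨LinearMap.ker_eq_bot.1 h, hp⟩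
    have := Z.smp.simple
    exact IsSimpleModule.congr e
  have hnt : Nontrivial (LinearMap.ker p) := (Submodule.nontrivial_iff_ne_bot).2 hne
  have hN := hM.sub (LinearMap.ker p)
  have := hN.fd
  obtain ⟨Y0, hY0⟩ := exists_simple_sub (M := LinearMap.ker p) (D := D)
  exact ⟨⟨n, Y0, ⟨hN.sub Y0, hY0⟩⟩, Y0.subtype, Y0.subtype_injective⟩

/-- a submodule is a subquotient -/
theorem subQ_of_inj {M : Type} [AddCommGroup M] [Module (KLRAlg D) M] (Y : SMod D)
    (j : Y.M →ₗ[KLRAlg D] M) (hj : Function.Injective j) : SubQ D Y.M M :=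
  ⟨LinearMap.range j, (LinearEquiv.ofInjective j hj).symm.toLinearMap,
    (LinearEquiv.ofInjective j hj).symm.surjective⟩

end XDS

theorem Mo.I_DS (D : Datum K I) (hW : StSwap D) (hS : StSsub D) (hM : StMsub D) (hQ : StMsq D) :
    StDs D := by
  classical
  intro Lp h hconv T B C S S' hSq hS'q hnc
  have _ := hM
  -- the embedding
  obtain ⟨ι, hι⟩ := (hW h.1 Lp h.2 T.rep B.rep S.rep).1 hSq
  have hn : S.rep.n = B.rep.n + T.rep.n := by
    rw [quo_strand (Sm.fd_conv hconv T.rep B.rep) hSq, Nat.add_comm]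
  obtain ⟨g, hg⟩ := XDS.exists_emb h.1 C.rep B.rep T.rep S.rep hn hι
  -- the simple submodule of the kernel
  obtain ⟨p, hp⟩ := hS'q
  have hfd := Sm.fd_conv hconv C.rep S.rep
  obtain ⟨Y, j, hj⟩ := XDS.exists_sub hfd S'.rep p hp hnc
  -- the constituent of `C ∘ B`
  have hsub : Sub D Y.M (Conv D (C.rep.n + B.rep.n) (C.rep.conv B.rep) T.rep.M) := by
    refine ⟨g ∘ₗ (LinearMap.ker p).subtype ∘ₗ j, ?_⟩
    rw [LinearMap.coe_comp, LinearMap.coe_comp]
    exact hg.comp ((LinearMap.ker p).subtype_injective.comp hj)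
  obtain ⟨V, hV1, hV2⟩ := hS Lp h (C.rep.n + B.rep.n) (C.rep.conv B.rep)
    (Sm.fd_conv hconv C.rep B.rep) T.rep Y hsub
  have hV3 : Quo D Y.M (T.rep.conv V) := (hW h.1 Lp h.2 T.rep V Y).2 hV2
  have hiV : V.Iso (Sm.cls V).rep := Sm.iso_rep h.2 (Sm.ch_rep_cls V).symm
  have hiY : Y.Iso (Sm.cls Y).rep := Sm.iso_rep h.2 (Sm.ch_rep_cls Y).symm
  -- multiplicities
  have hm : Sm.mult h.2 (hfd.sub (LinearMap.ker p)) (Sm.cls Y) ≠ 0 :=
    (hQ Lp h _ _ (hfd.sub (LinearMap.ker p)) Y).1 (XDS.subQ_of_inj Y j hj)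
  have hle : Finsupp.single (Sm.cls Y) 1 ≤ Sm.mult h.2 (hfd.sub (LinearMap.ker p)) := by
    rw [Finsupp.single_le_iff]
    exact Nat.one_le_iff_ne_zero.2 hm
  refine ⟨Sm.cls V, Sm.cls Y, Sm.mult h.2 (hfd.sub (LinearMap.ker p)) -
    Finsupp.single (Sm.cls Y) 1, ?_, ?_, ?_⟩
  · exact (hQ Lp h _ _ (Sm.fd_conv hconv C.rep B.rep) V).1 hV1
  · exact SMod.quo_congr (SMod.Iso.refl _) hiV hiY hV3
  · have h1 : Sm.co h.2 hconv C S = Sm.mult h.2 (hfd.sub (LinearMap.ker p)) +
        Finsupp.single (Sm.cls S'.rep) 1 := Sm.mult_quo h.2 hfd p hp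
    rw [h1, Sm.cls_rep, add_comm (Sm.mult h.2 (hfd.sub (LinearMap.ker p))), add_assoc]
    congr 1
    exact (add_tsub_cancel_of_le hle).symm

end Pool.Agent.KLS

end

section

/-! MP_e487d8_al, block MO, item HDC: if `C` commutes with `L(i)` then `ε_i` is additive on the
simple quotients of `C ∘ X`. -/

set_option autoImplicit false

open Pool.Agent.E487.Hopf

namespace Pool.Agent.KLS

variable {K I : Type} [Field K] [Fintype I] [DecidableEq I] (D : Datum K I)

namespace XHDC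

section

variable {D} {m m' n : ℕ} {A B M M' N N' : Type}
  [AddCommGroup A] [Module (KLRAlg D) A] [AddCommGroup B] [Module (KLRAlg D) B]
  [AddCommGroup M] [Module K M] [Module (KLRAlg D) M] [IsScalarTower K (KLRAlg D) M]
  [AddCommGroup N] [Module K N] [Module (KLRAlg D) N] [IsScalarTower K (KLRAlg D) N]
  [AddCommGroup M'] [Module K M'] [Module (KLRAlg D) M'] [IsScalarTower K (KLRAlg D) M']
  [AddCommGroup N'] [Module K N'] [Module (KLRAlg D) N'] [IsScalarTower K (KLRAlg D) N']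

theorem quo_refl : Quo D A A := ⟨LinearMap.id, Function.surjective_id⟩

theorem quo_equiv (e : A ≃ₗ[KLRAlg D] B) : Quo D B A := ⟨e.toLinearMap, e.surjective⟩

theorem quo_trans {C : Type} [AddCommGroup C] [Module (KLRAlg D) C] (h : Quo D A B)
    (h' : Quo D B C) : Quo D A C := by
  obtain ⟨f, hf⟩ := h
  obtain ⟨g, hg⟩ := h'
  exact ⟨f.comp g, hf.comp hg⟩

theorem quo_map (h : m = m') (hM : Quo D M' M) (hN : Quo D N' N) :
    Quo D (Conv D m' M' N') (Conv D m M N) := by
  obtain ⟨f, hf⟩ := hM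
  obtain ⟨g, hg⟩ := hN
  exact ⟨Conv.map h f g, Conv.map_surjective h f g hf hg⟩

end

theorem chLp_mul' (i : I) (b a : ℕ) :
    (chLp i b * chLp i a : Sh I ℚ) = chLp i (b + a) := by
  induction b with
  | zero => rw [chLp_zero, one_mul, Nat.zero_add]
  | succ b ih =>
    rw [Nat.add_comm b 1, ← chLp_mul, mul_assoc, ih, chLp_mul]
    congr 1
    omega

variable {D}

theorem chq_Lp {Lp : I → ℕ → SMod D} (hC : CFacts D Lp) (i : I) (a : ℕ) :
    (Lp i a).chq = chLp i a := by
  apply Sh.ext'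
  intro w
  show (((Lp i a).ch w : ℕ) : ℚ) = _
  rw [hC.ch_Lp]
  unfold chLp
  split_ifs
  · rfl
  · exact Nat.cast_zero

/-- `X` is a quotient of `L(i^b) ∘ X'` -/
theorem quo_of_emax {Lp : I → ℕ → SMod D} (hC : CFacts D Lp) {i : I} {b : ℕ} {X X' : SMod D}
    (h : SMod.Emax i b X X') : Quo D X.M ((Lp i b).conv X') := by
  obtain ⟨a, Y, h1, h2⟩ := hC.res i X
  obtain ⟨h3, h4⟩ := SMod.Emax.unique rfl h1 h
  subst h3
  exact SMod.quo_congr (SMod.Iso.refl _) (Sm.iso_rep hC h4) (SMod.Iso.refl _) h2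

theorem L_chq {i : I} {X : SMod D} (h : ∀ ν, X.ch (i :: ν) = 0) : Sh.L i X.chq = 0 := by
  apply Sh.ext'
  intro w
  show ((X.ch (i :: w) : ℕ) : ℚ) = 0
  rw [h, Nat.cast_zero]

end XHDC

open XHDC in
theorem Mo.I_HDC (hL : StLphd D) (hP : StLpic D) : StHdc D := by
  intro Lp hB i a b C C' X X' Z hIC hEC hEX hZ
  obtain ⟨hb, hC⟩ := id hB
  have hconv : S_conv D := fun m n M N _ _ _ _ _ _ _ _ hM hN => Conv.fdMod_chrQ hb hM hN
  have hfd : FdMod D (C'.n + X'.n) (C'.conv X') := Sm.fd_conv hconv C' X'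
  have hchr : ∀ ν, chr D (C'.n + X'.n) (C'.conv X') (i :: ν) = 0 := by
    intro ν
    have h1 : chrQ D (C'.n + X'.n) (C'.conv X') (i :: ν) = 0 := by
      rw [Sm.chrQ_conv hconv, ← Sh.L_apply i (C'.chq * X'.chq) ν, Sh.L_mul, L_chq hEC.2.2,
        L_chq hEX.2.2, zero_mul, mul_zero, add_zero, Sh.zero_apply]
    rw [chrQ_apply] at h1
    exact_mod_cast h1
  obtain ⟨e⟩ := hP Lp hB i C hIC b
  obtain ⟨e'⟩ := Sm.iso_conv' hC hconv (X := Lp i b) (Y := Lp i a) (Z := Lp i (a + b))
    (by rw [chq_Lp hC, chq_Lp hC, chq_Lp hC, chLp_mul', Nat.add_comm])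
  have hnC : C.n = (Lp i a).n + C'.n := by rw [hC.n_Lp]; exact hEC.1
  -- `Z` is a quotient of `C ∘ (L(i^b) ∘ X')`
  have h1 : Quo D Z.M (Conv D C.n C.M ((Lp i b).conv X')) :=
    quo_trans hZ (quo_map rfl quo_refl (quo_of_emax hC hEX))
  -- of `(C ∘ L(i^b)) ∘ X'`
  have h2 : Quo D Z.M (Conv D (C.n + (Lp i b).n) (C.conv (Lp i b)) X'.M) :=
    quo_trans h1 (quo_equiv (Conv.assoc D C.n (Lp i b).n C.M (Lp i b).M X'.M))
  -- of `(L(i^b) ∘ C) ∘ X'`
  have h3 : Quo D Z.M (Conv D ((Lp i b).n + C.n) ((Lp i b).conv C) X'.M) :=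
    quo_trans h2 (quo_map (Nat.add_comm _ _) (quo_equiv e) quo_refl)
  -- of `L(i^b) ∘ (C ∘ X')`
  have h4 : Quo D Z.M (Conv D (Lp i b).n (Lp i b).M (C.conv X')) :=
    quo_trans h3 (quo_equiv (Conv.assoc D (Lp i b).n C.n (Lp i b).M C.M X'.M).symm)
  -- of `L(i^b) ∘ (L(i^a) ∘ (C' ∘ X'))`
  have h5 : Quo D Z.M (Conv D (Lp i b).n (Lp i b).M
      (Conv D ((Lp i a).n + C'.n) ((Lp i a).conv C') X'.M)) :=
    quo_trans h4 (quo_map rfl quo_refl (quo_map hnC.symm (quo_of_emax hC hEC) quo_refl))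
  have h6 : Quo D Z.M (Conv D (Lp i b).n (Lp i b).M
      (Conv D (Lp i a).n (Lp i a).M (C'.conv X'))) :=
    quo_trans h5 (quo_map rfl quo_refl
      (quo_equiv (Conv.assoc D (Lp i a).n C'.n (Lp i a).M C'.M X'.M).symm))
  -- of `L(i^(a+b)) ∘ (C' ∘ X')`
  have h7 : Quo D Z.M (Conv D ((Lp i b).n + (Lp i a).n) ((Lp i b).conv (Lp i a)) (C'.conv X')) :=
    quo_trans h6 (quo_equiv (Conv.assoc D (Lp i b).n (Lp i a).n (Lp i b).M (Lp i a).M
      (C'.conv X')))
  have h8 : Quo D Z.M (Conv D (a + b) (Lp i (a + b)).M (C'.conv X')) :=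
    quo_trans h7 (quo_map (by rw [hC.n_Lp, hC.n_Lp, Nat.add_comm]) (quo_equiv e'.symm) quo_refl)
  obtain ⟨Q, hQ1, hQ2, -⟩ := hL Lp hB i (a + b) (C'.n + X'.n) (C'.conv X') hfd hchr Z h8
  exact ⟨Q, hQ2, hQ1⟩

end Pool.Agent.KLS

end

section

/-! MP_e487d8_al, block MO, item K0N: the composition `N ∘ A → N ∘ C ∘ M → E ∘ M` is not zero if
`C` is simple. -/

set_option autoImplicit false

namespace Pool.Agent.KLS

variable {K I : Type} [Field K] [Fintype I] [DecidableEq I] (D : Datum K I)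

namespace XK0N

section

variable {D} {m n : ℕ} {M N : Type}
  [AddCommGroup M] [Module K M] [Module (KLRAlg D) M] [IsScalarTower K (KLRAlg D) M]
  [AddCommGroup N] [Module K N] [Module (KLRAlg D) N] [IsScalarTower K (KLRAlg D) N]

omit [IsScalarTower K (KLRAlg D) M] in
theorem subL_bot : Conv.subL m (⊥ : Submodule (KLRAlg D) M) N = ⊥ := by
  rw [eq_bot_iff, Conv.subL, Submodule.span_le]
  rintro z ⟨⟨u, hu⟩, v, rfl⟩
  rw [Submodule.mem_bot] at hu
  subst hu
  simp

theorem subR_top : Conv.subR m M (⊤ : Submodule (KLRAlg D) N) = ⊤ := by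
  rw [eq_top_iff]
  intro z _
  induction z using Conv.induction with
  | h0 => exact Submodule.zero_mem _
  | hadd y z hy hz => exact Submodule.add_mem _ (hy trivial) (hz trivial)
  | h a u v => exact Submodule.smul_mem _ _ (Conv.mk_mem_subR u Submodule.mem_top)

end

end XK0N

theorem Mo.I_K0N : StK0n D := by
  intro hb n m l p q A M C N E _ _ _ _ _ _ _ _ _ _ _ _ _ _ _ _ _ _ _ _ hA hM hC hN hE hp hq hs
    f g hf hg h0
  subst hq
  have key : ∀ a : N, ∀ y ∈ LinearMap.range f, (Conv.assoc D n l N C M).symm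
      (Conv.mk D n N (Conv D l C M) a y) ∈ Conv.subL (n + l) (LinearMap.ker g) M := by
    rintro a _ ⟨u, rfl⟩
    rw [← Conv.ker_map_left hb hM (Conv.isStrand hN hC) hE g, LinearMap.mem_ker]
    have h1 := LinearMap.congr_fun h0 (Conv.mk D n N A a u)
    rw [LinearMap.comp_apply, LinearMap.comp_apply, Conv.map_mk, LinearMap.id_apply,
      LinearMap.zero_apply] at h1
    exact h1
  obtain ⟨P, h1, h2⟩ := Conv.K0' hb hN hC hM (LinearMap.ker g) (LinearMap.range f) key
  rcases eq_bot_or_eq_top P with hP | hP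
  · rw [hP, XK0N.subL_bot] at h1
    exact hf (LinearMap.range_eq_bot.1 (eq_bot_iff.2 h1))
  · rw [hP, XK0N.subR_top] at h2
    exact hg (LinearMap.ker_eq_top.1 (eq_top_iff.2 h2))

end Pool.Agent.KLS

end

section

/-! MP_e487d8_al, module side: K1A, the inequality for the dimensions of the homomorphism spaces. -/

set_option autoImplicit false
set_option linter.unusedSectionVars false

namespace Pool.Agent.KLS

variable {K I : Type} [Field K] [Fintype I] [DecidableEq I] (D : Datum K I)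

namespace XK1A

variable {D}

theorem fin_conv (hb : S_basis D) (X Y : SMod D) : FiniteDimensional K (X.conv Y) := by
  have := X.smp.fd
  have := Y.smp.fd
  exact Conv.finiteDimensional hb X.smp.strand Y.smp.strand

end XK1A

theorem Mo.I_K1A (h1 : StK1p D) (h2 : StK1s D) : StK1a D := by
  intro hb B S P X Q R₁ R₂ G Y Z hP hS hY hZ
  have hPf := P.smp.fd
  have hGf := G.smp.fd
  have hBR₁ := XK1A.fin_conv hb B R₁
  have hBR₂ := XK1A.fin_conv hb B R₂
  have hBZ := XK1A.fin_conv hb B Z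
  have hYG := XK1A.fin_conv hb Y G
  have hf1 : FiniteDimensional K (P.M →ₗ[KLRAlg D] B.conv R₁) := homFin
  have hf2 : FiniteDimensional K (G.M →ₗ[KLRAlg D] B.conv R₂) := homFin
  have hf3 : FiniteDimensional K (Y.conv G →ₗ[KLRAlg D] B.conv Z) := homFin
  obtain ⟨ψ, hψ⟩ := h1 hb B S P X Q R₂ G Y hP hS hY
  obtain ⟨θ, hθ⟩ := h2 hb B P R₁ R₂ Z (Module.finrank K (P.M →ₗ[KLRAlg D] B.conv R₁))
    (fun i => Module.finBasis K (P.M →ₗ[KLRAlg D] B.conv R₁) i)
    (Module.finBasis K (P.M →ₗ[KLRAlg D] B.conv R₁)).linearIndependent hZ (Y.conv G)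
  have h3 : Function.Injective (θ ∘ₗ LinearMap.compLeft ψ
      (Fin (Module.finrank K (P.M →ₗ[KLRAlg D] B.conv R₁)))) := by
    rw [LinearMap.coe_comp]
    refine hθ.comp fun a b hab => ?_
    funext i
    exact hψ (congrFun hab i)
  have h4 := LinearMap.finrank_le_finrank_of_injective h3
  rwa [Module.finrank_pi_fintype, Finset.sum_const, Finset.card_univ, Fintype.card_fin,
    smul_eq_mul] at h4

end Pool.Agent.KLS

end

section

/-! MP_e487d8_al: K1B, monotonicity of the dimensions of `Hom(P, B ∘ R)` -/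

set_option autoImplicit false

open scoped TensorProduct

namespace Pool.Agent.KLS

variable {K I : Type} [Field K] [Fintype I] [DecidableEq I] (D : Datum K I)

namespace XK1B

variable {D} {m m' n : ℕ} {M M' N : Type}
  [AddCommGroup M] [Module K M] [Module (KLRAlg D) M] [IsScalarTower K (KLRAlg D) M]
  [AddCommGroup M'] [Module K M'] [Module (KLRAlg D) M'] [IsScalarTower K (KLRAlg D) M']
  [AddCommGroup N] [Module K N] [Module (KLRAlg D) N] [IsScalarTower K (KLRAlg D) N]

theorem map_add_left (h : m = m') (f g : M →ₗ[KLRAlg D] M') :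
    Conv.map h (f + g) (LinearMap.id : N →ₗ[KLRAlg D] N) =
      Conv.map h f LinearMap.id + Conv.map h g LinearMap.id := by
  apply Conv.hom_ext
  intro u v
  rw [LinearMap.add_apply, Conv.map_mk, Conv.map_mk, Conv.map_mk, LinearMap.add_apply, map_add,
    LinearMap.add_apply]

theorem map_smul_left (h : m = m') (c : K) (f : M →ₗ[KLRAlg D] M') :
    Conv.map h (c • f) (LinearMap.id : N →ₗ[KLRAlg D] N) =
      c • Conv.map h f LinearMap.id := by
  apply Conv.hom_ext
  intro u v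
  rw [homK_smul_apply, Conv.map_mk, Conv.map_mk, homK_smul_apply, map_smul, LinearMap.smul_apply]

/-- `f ↦ f ∘ id_N` -/
noncomputable def mapL (h : m = m') :
    (M →ₗ[KLRAlg D] M') →ₗ[K] (Conv D m M N →ₗ[KLRAlg D] Conv D m' M' N) where
  toFun f := Conv.map h f LinearMap.id
  map_add' f g := map_add_left h f g
  map_smul' c f := map_smul_left h c f

theorem mapL_injective (hb : S_basis D) (h : m = m') (hM' : IsStrand D m' M')
    (hN : IsStrand D n N) [Nontrivial N] :
    Function.Injective (mapL h : (M →ₗ[KLRAlg D] M') →ₗ[K]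
      (Conv D m M N →ₗ[KLRAlg D] Conv D m' M' N)) := by
  rw [injective_iff_map_eq_zero]
  intro f hf
  obtain ⟨v, hv⟩ := exists_ne (0 : N)
  ext u
  have h1 : Conv.map h f (LinearMap.id : N →ₗ[KLRAlg D] N) (Conv.mk D m M N u v) = 0 := by
    have := LinearMap.congr_fun hf (Conv.mk D m M N u v)
    exact this
  rw [Conv.map_mk] at h1
  rcases Conv.mk_eq_zero hb hM' hN h1 with h2 | h2
  · exact h2
  · exact absurd h2 hv

/-- `id_M ∘ e` for an isomorphism `e` -/
noncomputable def congrR (m : ℕ) (M : Type) [AddCommGroup M] [Module K M] [Module (KLRAlg D) M]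
    [IsScalarTower K (KLRAlg D) M] (e : M' ≃ₗ[KLRAlg D] N) :
    Conv D m M M' ≃ₗ[KLRAlg D] Conv D m M N :=
  LinearEquiv.ofLinearMap (Conv.map (rfl : m = m) (LinearMap.id : M →ₗ[KLRAlg D] M) e.toLinearMap)
    (Conv.map (rfl : m = m) (LinearMap.id : M →ₗ[KLRAlg D] M) e.symm.toLinearMap)
    (by
      apply Conv.hom_ext
      intro u v
      rw [LinearMap.comp_apply, Conv.map_mk, Conv.map_mk, LinearMap.id_apply]
      simp)
    (by
      apply Conv.hom_ext
      intro u v
      rw [LinearMap.comp_apply, Conv.map_mk, Conv.map_mk, LinearMap.id_apply]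
      simp)

theorem strand_unique {n k : ℕ} {M : Type} [AddCommGroup M] [Module (KLRAlg D) M] [Nontrivial M]
    (h : IsStrand D n M) (h' : IsStrand D k M) : n = k := by
  obtain ⟨u, hu⟩ := exists_ne (0 : M)
  rcases lt_trichotomy n k with h1 | h1 | h1
  · exfalso
    have h2 := h'.one n h1 u
    rw [h.E_smul_zero le_rfl] at h2
    exact hu h2.symm
  · exact h1
  · exfalso
    have h2 := h.one k h1 u
    rw [h'.E_smul_zero le_rfl] at h2
    exact hu h2.symm

end XK1B

theorem Mo.I_K1B : StK1b D := by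
  intro hb B C P P' R R' h1 h2
  obtain ⟨e1⟩ := h1
  obtain ⟨e2⟩ := h2
  have : FiniteDimensional K B.M := B.smp.fd
  have : FiniteDimensional K R'.M := R'.smp.fd
  have : FiniteDimensional K P'.M := P'.smp.fd
  have hPs := P.smp.simple
  have hCs := C.smp.simple
  have : Nontrivial P.M := IsSimpleModule.nontrivial (KLRAlg D) P.M
  have : Nontrivial C.M := IsSimpleModule.nontrivial (KLRAlg D) C.M
  have hBR : IsStrand D (B.n + R.n) (B.conv R) := Conv.isStrand B.smp.strand R.smp.strand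
  by_cases hn : P.n = B.n + R.n
  · have : FiniteDimensional K (B.conv R') := Conv.finiteDimensional hb B.smp.strand R'.smp.strand
    have : FiniteDimensional K (P'.M →ₗ[KLRAlg D] B.conv R') := homFin
    let e3 : Conv D (B.n + R.n) (B.conv R) C.M ≃ₗ[KLRAlg D] B.conv R' :=
      (Conv.assoc D B.n R.n B.M R.M C.M).trans (XK1B.congrR B.n B.M e2)
    let Φ : (P.M →ₗ[KLRAlg D] B.conv R) →ₗ[K] (P'.M →ₗ[KLRAlg D] B.conv R') :=
      { toFun := fun f => e3.toLinearMap ∘ₗ
          (XK1B.mapL (N := C.M) hn f) ∘ₗ e1.symm.toLinearMap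
        map_add' := fun f g => by
          rw [map_add, LinearMap.add_comp, LinearMap.comp_add]
        map_smul' := fun c f => by
          rw [map_smul]
          ext u
          simp only [LinearMap.comp_apply, homK_smul_apply, RingHom.id_apply,
            LinearEquiv.coe_coe]
          exact (Conv.toK e3.toLinearMap).map_smul c _ }
    refine LinearMap.finrank_le_finrank_of_injective (f := Φ) ?_
    intro f g hfg
    apply XK1B.mapL_injective hb hn hBR C.smp.strand
    ext u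
    have h3 := LinearMap.congr_fun hfg (e1 u)
    simp only [Φ, LinearMap.coe_mk, AddHom.coe_mk, LinearMap.comp_apply, LinearEquiv.coe_coe,
      LinearEquiv.symm_apply_apply] at h3
    exact e3.injective h3
  · have h0 : ∀ f : P.M →ₗ[KLRAlg D] B.conv R, f = 0 := by
      intro f
      by_contra hf
      apply hn
      have hi : Function.Injective f := LinearMap.injective_of_ne_zero hf
      exact XK1B.strand_unique P.smp.strand (hBR.of_injective f hi)
    have : Subsingleton (P.M →ₗ[KLRAlg D] B.conv R) := ⟨fun f g => by rw [h0 f, h0 g]⟩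
    rw [Module.finrank_zero_of_subsingleton]
    exact Nat.zero_le _

end Pool.Agent.KLS

end

section

set_option autoImplicit false
set_option linter.unusedSectionVars false

open scoped TensorProduct

namespace Pool.Agent.KLS

variable {K I : Type} [Field K] [Fintype I] [DecidableEq I] (D : Datum K I)

namespace XK1C

variable {D} {P M : Type} [AddCommGroup P] [Module K P] [Module (KLRAlg D) P]
  [IsScalarTower K (KLRAlg D) P] [AddCommGroup M] [Module K M] [Module (KLRAlg D) M]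
  [IsScalarTower K (KLRAlg D) M]

/-- the map `u ↦ ∑ f_i (u_i)` -/
noncomputable def big {h : ℕ} (f : Fin h → (P →ₗ[KLRAlg D] M)) : (Fin h → P) →ₗ[K] M :=
  ∑ i, (homK (f i)) ∘ₗ (LinearMap.proj i : (Fin h → P) →ₗ[K] P)

theorem big_apply {h : ℕ} (f : Fin h → (P →ₗ[KLRAlg D] M)) (u : Fin h → P) :
    big f u = ∑ i, f i (u i) := by
  unfold big
  rw [LinearMap.sum_apply]
  rfl

end XK1C

theorem Mo.I_K1C (h : StInj D) : StK1c D := by
  intro hb P n M _ _ _ _ hM
  have : FiniteDimensional K M := hM.fd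
  have : FiniteDimensional K (P.M →ₗ[KLRAlg D] M) := homFin
  let b := Module.finBasis K (P.M →ₗ[KLRAlg D] M)
  have hinj : Function.Injective (XK1C.big (fun i => b i)) := by
    rw [← LinearMap.ker_eq_bot, LinearMap.ker_eq_bot']
    intro u hu
    rw [XK1C.big_apply] at hu
    exact h hb P M _ (fun i => b i) b.linearIndependent u hu
  have h1 := LinearMap.finrank_le_finrank_of_injective hinj
  rw [Module.finrank_pi_fintype] at h1
  simpa using h1

end Pool.Agent.KLS

end

section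

/-! MP_e487d8_al, module side: K4A, the diagonal argument. -/

set_option autoImplicit false
set_option linter.unusedSectionVars false

open scoped TensorProduct

namespace Pool.Agent.KLS

variable {K I : Type} [Field K] [Fintype I] [DecidableEq I] (D : Datum K I)

namespace XK4A

variable {D}

section simple

variable {R X Y : Type} [Ring R] [AddCommGroup X] [Module R X] [AddCommGroup Y] [Module R Y]
  [IsSimpleModule R X] [IsSimpleModule R Y]

/-- a submodule of `X × Y` which is not contained in `X × 0` and not in `0 × Y` is everything, or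
`X` and `Y` are isomorphic -/
theorem top_or_iso (Q : Submodule R (X × Y)) (h1 : ∃ z ∈ Q, z.1 ≠ 0) (h2 : ∃ z ∈ Q, z.2 ≠ 0) :
    Q = ⊤ ∨ Nonempty (X ≃ₗ[R] Y) := by
  rcases eq_bot_or_eq_top (Q.comap (LinearMap.inl R X Y)) with hX | hX
  · right
    -- `Q → Y` is injective
    have hinj : Function.Injective ((LinearMap.snd R X Y).comp Q.subtype) := by
      rw [← LinearMap.ker_eq_bot, LinearMap.ker_eq_bot']
      intro z hz
      have hz2 : z.1.2 = 0 := hz
      have hz1 : z.1.1 ∈ Q.comap (LinearMap.inl R X Y) := by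
        rw [Submodule.mem_comap, LinearMap.inl_apply, ← hz2]
        exact z.2
      rw [hX, Submodule.mem_bot] at hz1
      exact Subtype.ext (Prod.ext hz1 hz2)
    have hsurj : Function.Surjective ((LinearMap.snd R X Y).comp Q.subtype) := by
      rw [← LinearMap.range_eq_top]
      rcases eq_bot_or_eq_top (LinearMap.range ((LinearMap.snd R X Y).comp Q.subtype)) with h | h
      · exfalso
        obtain ⟨z, hz, hz2⟩ := h2
        apply hz2
        have : z.2 ∈ LinearMap.range ((LinearMap.snd R X Y).comp Q.subtype) := ⟨⟨z, hz⟩, rfl⟩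
        rwa [h, Submodule.mem_bot] at this
      · exact h
    let e : Q ≃ₗ[R] Y := LinearEquiv.ofBijective _ ⟨hinj, hsurj⟩
    let g : Y →ₗ[R] X := ((LinearMap.fst R X Y).comp Q.subtype).comp e.symm.toLinearMap
    have hg : g ≠ 0 := by
      intro hg
      obtain ⟨z, hz, hz1⟩ := h1
      apply hz1
      have h3 : g (e ⟨z, hz⟩) = z.1 := by
        show ((LinearMap.fst R X Y).comp Q.subtype) (e.symm (e ⟨z, hz⟩)) = z.1
        rw [LinearEquiv.symm_apply_apply]
        rfl
      rw [← h3, hg, LinearMap.zero_apply]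
    exact ⟨(LinearEquiv.ofBijective g (LinearMap.bijective_of_ne_zero hg)).symm⟩
  · left
    rcases eq_bot_or_eq_top (Q.comap (LinearMap.inr R X Y)) with hY | hY
    · exfalso
      obtain ⟨z, hz, hz2⟩ := h2
      apply hz2
      have h3 : z.1 ∈ Q.comap (LinearMap.inl R X Y) := by rw [hX]; trivial
      have h4 : z.2 ∈ Q.comap (LinearMap.inr R X Y) := by
        rw [Submodule.mem_comap] at h3 ⊢
        have h5 : (LinearMap.inr R X Y) z.2 = z - (LinearMap.inl R X Y) z.1 := by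
          ext <;> simp
        rw [h5]
        exact Q.sub_mem hz h3
      rwa [hY, Submodule.mem_bot] at h4
    · rw [eq_top_iff]
      rintro z -
      have h3 : z.1 ∈ Q.comap (LinearMap.inl R X Y) := by rw [hX]; trivial
      have h4 : z.2 ∈ Q.comap (LinearMap.inr R X Y) := by rw [hY]; trivial
      have h5 : z = (LinearMap.inl R X Y) z.1 + (LinearMap.inr R X Y) z.2 := by
        ext <;> simp
      rw [h5]
      exact Q.add_mem h3 h4

end simple

/-- strands of a product module -/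
theorem prodStrand {n : ℕ} {M N : Type} [AddCommGroup M] [Module (KLRAlg D) M]
    [AddCommGroup N] [Module (KLRAlg D) N] (hM : IsStrand D n M) (hN : IsStrand D n N) :
    IsStrand D n (M × N) where
  one k hk u := Prod.ext (hM.one k hk u.1) (hN.one k hk u.2)
  zero k hk i u := Prod.ext (hM.zero k hk i u.1) (hN.zero k hk i u.2)

section

open Conv

variable {m m' n n' l : ℕ} {M M' M'' N N' N'' L : Type}
  [AddCommGroup M] [Module K M] [Module (KLRAlg D) M] [IsScalarTower K (KLRAlg D) M]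
  [AddCommGroup N] [Module K N] [Module (KLRAlg D) N] [IsScalarTower K (KLRAlg D) N]
  [AddCommGroup M'] [Module K M'] [Module (KLRAlg D) M'] [IsScalarTower K (KLRAlg D) M']
  [AddCommGroup N'] [Module K N'] [Module (KLRAlg D) N'] [IsScalarTower K (KLRAlg D) N']
  [AddCommGroup L] [Module K L] [Module (KLRAlg D) L] [IsScalarTower K (KLRAlg D) L]

theorem ker_map_left' (hb : S_basis D) (h : m = m') (hN : IsStrand D n N) (hM : IsStrand D m M)
    (hM' : IsStrand D m' M') (g : M →ₗ[KLRAlg D] M') :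
    LinearMap.ker (Conv.map h g (LinearMap.id : N →ₗ[KLRAlg D] N)) =
      Conv.subL m (LinearMap.ker g) N := by
  subst h
  exact Conv.ker_map_left hb hN hM hM' g

/-- a map which kills `Q` kills `Q ∘ N` -/
theorem map_subL_eq_zero (h : m = m') (g : M →ₗ[KLRAlg D] M') (g' : N →ₗ[KLRAlg D] N')
    (Q : Submodule (KLRAlg D) M)
    (hQ : ∀ z ∈ Q, g z = 0) {z : Conv D m M N} (hz : z ∈ Conv.subL m Q N) :
    Conv.map h g g' z = 0 := by
  have h1 : Conv.subL m Q N ≤ LinearMap.ker (Conv.map h g g') := by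
    rw [Conv.subL, Submodule.span_le]
    rintro z ⟨u, v, rfl⟩
    show Conv.map h g g' (Conv.mk D m M N u v) = 0
    rw [Conv.map_mk, hQ u.1 u.2, map_zero, LinearMap.zero_apply]
  exact h1 hz

end

section main

variable {t x s : ℕ} {T X Y S : Type}
  [AddCommGroup T] [Module K T] [Module (KLRAlg D) T] [IsScalarTower K (KLRAlg D) T]
  [AddCommGroup X] [Module K X] [Module (KLRAlg D) X] [IsScalarTower K (KLRAlg D) X]
  [AddCommGroup Y] [Module K Y] [Module (KLRAlg D) Y] [IsScalarTower K (KLRAlg D) Y]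
  [AddCommGroup S] [Module K S] [Module (KLRAlg D) S] [IsScalarTower K (KLRAlg D) S]

/-- the composition `T ∘ S → T ∘ X ∘ T → S ∘ T` -/
noncomputable def rr (hs : t + x = s) (p : Conv D t T X →ₗ[KLRAlg D] S)
    (j : S →ₗ[KLRAlg D] Conv D x X T) : Conv D t T S →ₗ[KLRAlg D] Conv D s S T :=
  (Conv.map hs p (LinearMap.id : T →ₗ[KLRAlg D] T)) ∘ₗ
    (Conv.assoc D t x T X T).symm.toLinearMap ∘ₗ
      (Conv.map (rfl : t = t) (LinearMap.id : T →ₗ[KLRAlg D] T) j)

theorem rr_mk (hs : t + x = s) (p : Conv D t T X →ₗ[KLRAlg D] S)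
    (j : S →ₗ[KLRAlg D] Conv D x X T) (a : T) (u : S) :
    rr hs p j (Conv.mk D t T S a u) = Conv.map hs p (LinearMap.id : T →ₗ[KLRAlg D] T)
      ((Conv.assoc D t x T X T).symm (Conv.mk D t T (Conv D x X T) a (j u))) := by
  show Conv.map hs p (LinearMap.id : T →ₗ[KLRAlg D] T) ((Conv.assoc D t x T X T).symm
    (Conv.map (rfl : t = t) (LinearMap.id : T →ₗ[KLRAlg D] T) j (Conv.mk D t T S a u))) = _
  rw [Conv.map_mk]
  rfl

/-- naturality -/
theorem nat (hs : t + x = s) {B : Type} [AddCommGroup B] [Module K B] [Module (KLRAlg D) B]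
    [IsScalarTower K (KLRAlg D) B] (i : X →ₗ[KLRAlg D] B) (P : Conv D t T B →ₗ[KLRAlg D] S)
    (a : T) (z : Conv D x X T) :
    Conv.map hs P (LinearMap.id : T →ₗ[KLRAlg D] T) ((Conv.assoc D t x T B T).symm
      (Conv.mk D t T (Conv D x B T) a
        (Conv.map (rfl : x = x) i (LinearMap.id : T →ₗ[KLRAlg D] T) z))) =
    Conv.map hs (P ∘ₗ Conv.map (rfl : t = t) (LinearMap.id : T →ₗ[KLRAlg D] T) i)
      (LinearMap.id : T →ₗ[KLRAlg D] T) ((Conv.assoc D t x T X T).symm
        (Conv.mk D t T (Conv D x X T) a z)) := by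
  have h : (Conv.map hs P (LinearMap.id : T →ₗ[KLRAlg D] T)) ∘ₗ
      (Conv.assoc D t x T B T).symm.toLinearMap ∘ₗ
        (Conv.map (rfl : t = t) (LinearMap.id : T →ₗ[KLRAlg D] T)
          (Conv.map (rfl : x = x) i (LinearMap.id : T →ₗ[KLRAlg D] T))) =
      (Conv.map hs (P ∘ₗ Conv.map (rfl : t = t) (LinearMap.id : T →ₗ[KLRAlg D] T) i)
        (LinearMap.id : T →ₗ[KLRAlg D] T)) ∘ₗ (Conv.assoc D t x T X T).symm.toLinearMap := by
    apply Conv.hom_ext₃'
    intro u v w
    simp only [LinearMap.comp_apply, LinearEquiv.coe_coe, Conv.map_mk, Conv.assoc_symm_mk,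
      LinearMap.id_apply]
  have h1 := LinearMap.congr_fun h (Conv.mk D t T (Conv D x X T) a z)
  simp only [LinearMap.comp_apply, LinearEquiv.coe_coe, Conv.map_mk, LinearMap.id_apply] at h1
  exact h1

theorem map_smul_sub (hs : t + x = s) (p q : Conv D t T X →ₗ[KLRAlg D] S) (c : K)
    (z : Conv D (t + x) (Conv D t T X) T) :
    Conv.map hs (p - c • q) (LinearMap.id : T →ₗ[KLRAlg D] T) z =
      Conv.map hs p (LinearMap.id : T →ₗ[KLRAlg D] T) z -
        c • Conv.map hs q (LinearMap.id : T →ₗ[KLRAlg D] T) z := by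
  have h : Conv.map hs (p - c • q) (LinearMap.id : T →ₗ[KLRAlg D] T) =
      Conv.map hs p (LinearMap.id : T →ₗ[KLRAlg D] T) -
        c • Conv.map hs q (LinearMap.id : T →ₗ[KLRAlg D] T) := by
    apply Conv.hom_ext
    intro u v
    simp only [LinearMap.sub_apply, LinearMap.smul_apply, Conv.map_mk, map_sub, map_smul]
  rw [h]
  rfl

/-- the diagonal composition -/
theorem rr_diag (hs : t + x = s) (p : Conv D t T X →ₗ[KLRAlg D] S)
    (p' : Conv D t T Y →ₗ[KLRAlg D] S) (j : S →ₗ[KLRAlg D] Conv D x X T)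
    (j' : S →ₗ[KLRAlg D] Conv D x Y T) (c : K) (P : Conv D t T (X × Y) →ₗ[KLRAlg D] S)
    (J : S →ₗ[KLRAlg D] Conv D x (X × Y) T)
    (hP1 : P ∘ₗ Conv.map (rfl : t = t) (LinearMap.id : T →ₗ[KLRAlg D] T)
      (LinearMap.inl (KLRAlg D) X Y) = p)
    (hP2 : P ∘ₗ Conv.map (rfl : t = t) (LinearMap.id : T →ₗ[KLRAlg D] T)
      (LinearMap.inr (KLRAlg D) X Y) = 0 - c • p')
    (hJ : ∀ u, J u = Conv.map (rfl : x = x) (LinearMap.inl (KLRAlg D) X Y)
        (LinearMap.id : T →ₗ[KLRAlg D] T) (j u) +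
      Conv.map (rfl : x = x) (LinearMap.inr (KLRAlg D) X Y)
        (LinearMap.id : T →ₗ[KLRAlg D] T) (j' u)) :
    rr hs P J = rr hs p j - c • rr hs p' j' := by
  apply Conv.hom_ext
  intro a u
  rw [LinearMap.sub_apply, LinearMap.smul_apply, rr_mk, rr_mk, rr_mk, hJ, map_add, map_add,
    map_add, nat, nat, hP1, hP2, map_smul_sub]
  have h0 : Conv.map hs (0 : Conv D t T Y →ₗ[KLRAlg D] S) (LinearMap.id : T →ₗ[KLRAlg D] T) =
      0 := by
    apply Conv.hom_ext
    intro u v
    rw [Conv.map_mk, LinearMap.zero_apply, map_zero, LinearMap.zero_apply, LinearMap.zero_apply]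
  rw [h0, LinearMap.zero_apply, zero_sub, sub_eq_add_neg]

end main

section fin

variable {t x y s : ℕ} {T X Y S : Type}
  [AddCommGroup T] [Module K T] [Module (KLRAlg D) T] [IsScalarTower K (KLRAlg D) T]
  [AddCommGroup X] [Module K X] [Module (KLRAlg D) X] [IsScalarTower K (KLRAlg D) X]
  [AddCommGroup Y] [Module K Y] [Module (KLRAlg D) Y] [IsScalarTower K (KLRAlg D) Y]
  [AddCommGroup S] [Module K S] [Module (KLRAlg D) S] [IsScalarTower K (KLRAlg D) S]

theorem main (hb : S_basis D) (h0 : StK0n D) (hT : IsStrand D t T) (hX : IsStrand D x X)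
    (hY : IsStrand D y Y) (hS : IsStrand D s S) (hyx : y = x) (hs : t + x = s)
    [FiniteDimensional K T] [FiniteDimensional K S] [IsSimpleModule (KLRAlg D) X]
    [IsSimpleModule (KLRAlg D) Y] [Nontrivial S]
    (p : Conv D t T X →ₗ[KLRAlg D] S) (hp : Function.Surjective p)
    (p' : Conv D t T Y →ₗ[KLRAlg D] S) (hp' : Function.Surjective p')
    (j : S →ₗ[KLRAlg D] Conv D x X T) (hj : Function.Injective j)
    (j' : S →ₗ[KLRAlg D] Conv D y Y T) (hj' : Function.Injective j')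
    (hdim : Module.finrank K (Conv D t T S →ₗ[KLRAlg D] Conv D s S T) ≤ 1) :
    Nonempty (X ≃ₗ[KLRAlg D] Y) := by
  subst hyx
  have hp0 : p ≠ 0 := by
    rintro rfl
    obtain ⟨u, hu⟩ := exists_ne (0 : S)
    obtain ⟨z, hz⟩ := hp u
    exact hu hz.symm
  have hp0' : p' ≠ 0 := by
    rintro rfl
    obtain ⟨u, hu⟩ := exists_ne (0 : S)
    obtain ⟨z, hz⟩ := hp' u
    exact hu hz.symm
  have hj0 : j ≠ 0 := by
    rintro rfl
    obtain ⟨u, hu⟩ := exists_ne (0 : S)
    exact hu (hj (by simp))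
  have hj0' : j' ≠ 0 := by
    rintro rfl
    obtain ⟨u, hu⟩ := exists_ne (0 : S)
    exact hu (hj' (by simp))
  have hr' : rr hs p' j' ≠ 0 := h0 hb t t y s s S T Y T S hS hT hY hT hS (by omega) hs
    inferInstance j' p' hj0' hp0'
  -- proportional
  obtain ⟨c, hc⟩ : ∃ c : K, rr hs p j = c • rr hs p' j' := by
    have : FiniteDimensional K (Conv D t T S) := Conv.finiteDimensional hb hT hS
    have : FiniteDimensional K (Conv D s S T) := Conv.finiteDimensional hb hS hT
    have : FiniteDimensional K (Conv D t T S →ₗ[KLRAlg D] Conv D s S T) := homFin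
    obtain ⟨v, hv⟩ := finrank_le_one_iff.1 hdim
    obtain ⟨a, ha⟩ := hv (rr hs p j)
    obtain ⟨b, hb'⟩ := hv (rr hs p' j')
    have hb0 : b ≠ 0 := by
      rintro rfl
      rw [zero_smul] at hb'
      exact hr' hb'.symm
    refine ⟨a * b⁻¹, ?_⟩
    rw [← hb', smul_smul, mul_assoc, inv_mul_cancel₀ hb0, mul_one, ha]
  let P : Conv D t T (X × Y) →ₗ[KLRAlg D] S :=
    p ∘ₗ Conv.map (rfl : t = t) (LinearMap.id : T →ₗ[KLRAlg D] T)
      (LinearMap.fst (KLRAlg D) X Y) -
    c • (p' ∘ₗ Conv.map (rfl : t = t) (LinearMap.id : T →ₗ[KLRAlg D] T)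
      (LinearMap.snd (KLRAlg D) X Y))
  let J : S →ₗ[KLRAlg D] Conv D y (X × Y) T :=
    Conv.map (rfl : y = y) (LinearMap.inl (KLRAlg D) X Y)
        (LinearMap.id : T →ₗ[KLRAlg D] T) ∘ₗ j +
      Conv.map (rfl : y = y) (LinearMap.inr (KLRAlg D) X Y)
        (LinearMap.id : T →ₗ[KLRAlg D] T) ∘ₗ j'
  have hP1 : P ∘ₗ Conv.map (rfl : t = t) (LinearMap.id : T →ₗ[KLRAlg D] T)
      (LinearMap.inl (KLRAlg D) X Y) = p := by
    apply Conv.hom_ext
    intro a u
    simp only [P, LinearMap.comp_apply, LinearMap.sub_apply, LinearMap.smul_apply, Conv.map_mk,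
      LinearMap.id_apply, LinearMap.inl_apply, LinearMap.fst_apply, LinearMap.snd_apply, map_zero,
      smul_zero, sub_zero]
  have hP2 : P ∘ₗ Conv.map (rfl : t = t) (LinearMap.id : T →ₗ[KLRAlg D] T)
      (LinearMap.inr (KLRAlg D) X Y) = 0 - c • p' := by
    apply Conv.hom_ext
    intro a u
    simp only [P, LinearMap.comp_apply, LinearMap.sub_apply, LinearMap.smul_apply, Conv.map_mk,
      LinearMap.id_apply, LinearMap.inr_apply, LinearMap.fst_apply, LinearMap.snd_apply, map_zero,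
      LinearMap.zero_apply]
  have hrr : rr hs P J = 0 := by
    rw [rr_diag hs p p' j j' c P J hP1 hP2 (fun _ => rfl), hc, sub_self]
  have hB : IsStrand D y (X × Y) := prodStrand hX hY
  obtain ⟨Q, hQ1, hQ2⟩ := Conv.K0' hb hT hB hT (LinearMap.ker P) (LinearMap.range J) (by
    rintro a _ ⟨u, rfl⟩
    rw [← ker_map_left' hb hs hT (Conv.isStrand hT hB) hS P, LinearMap.mem_ker, ← rr_mk, hrr,
      LinearMap.zero_apply])
  obtain ⟨u0, hu0⟩ := exists_ne (0 : S)
  have hJ1 : ∀ u, Conv.map (rfl : y = y) (LinearMap.fst (KLRAlg D) X Y)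
      (LinearMap.id : T →ₗ[KLRAlg D] T) (J u) = j u := by
    intro u
    show Conv.map (rfl : y = y) (LinearMap.fst (KLRAlg D) X Y) (LinearMap.id : T →ₗ[KLRAlg D] T)
      (Conv.map (rfl : y = y) (LinearMap.inl (KLRAlg D) X Y)
        (LinearMap.id : T →ₗ[KLRAlg D] T) (j u) +
      Conv.map (rfl : y = y) (LinearMap.inr (KLRAlg D) X Y)
        (LinearMap.id : T →ₗ[KLRAlg D] T) (j' u)) = j u
    rw [map_add, Conv.map_map, Conv.map_map, LinearMap.fst_comp_inl, LinearMap.fst_comp_inr,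
      LinearMap.id_comp]
    have h1 : Conv.map (rfl : y = y) (0 : Y →ₗ[KLRAlg D] X) (LinearMap.id : T →ₗ[KLRAlg D] T) =
        0 := by
      apply Conv.hom_ext
      intro u v
      rw [Conv.map_mk, LinearMap.zero_apply, map_zero, LinearMap.zero_apply,
        LinearMap.zero_apply]
    rw [h1, Conv.map_id, LinearMap.zero_apply, add_zero, LinearMap.id_apply]
  have hJ2 : ∀ u, Conv.map (rfl : y = y) (LinearMap.snd (KLRAlg D) X Y)
      (LinearMap.id : T →ₗ[KLRAlg D] T) (J u) = j' u := by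
    intro u
    show Conv.map (rfl : y = y) (LinearMap.snd (KLRAlg D) X Y) (LinearMap.id : T →ₗ[KLRAlg D] T)
      (Conv.map (rfl : y = y) (LinearMap.inl (KLRAlg D) X Y)
        (LinearMap.id : T →ₗ[KLRAlg D] T) (j u) +
      Conv.map (rfl : y = y) (LinearMap.inr (KLRAlg D) X Y)
        (LinearMap.id : T →ₗ[KLRAlg D] T) (j' u)) = j' u
    rw [map_add, Conv.map_map, Conv.map_map, LinearMap.snd_comp_inl, LinearMap.snd_comp_inr,
      LinearMap.id_comp]
    have h1 : Conv.map (rfl : y = y) (0 : X →ₗ[KLRAlg D] Y) (LinearMap.id : T →ₗ[KLRAlg D] T) =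
        0 := by
      apply Conv.hom_ext
      intro u v
      rw [Conv.map_mk, LinearMap.zero_apply, map_zero, LinearMap.zero_apply,
        LinearMap.zero_apply]
    rw [h1, Conv.map_id, LinearMap.zero_apply, zero_add, LinearMap.id_apply]
  have hQ3 : ∃ z ∈ Q, z.1 ≠ 0 := by
    by_contra hne
    push Not at hne
    have h1 := map_subL_eq_zero (rfl : y = y) (LinearMap.fst (KLRAlg D) X Y)
      (LinearMap.id : T →ₗ[KLRAlg D] T) Q hne (hQ1 ⟨u0, rfl⟩)
    rw [hJ1] at h1
    exact hu0 (hj (h1.trans (map_zero j).symm))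
  have hQ4 : ∃ z ∈ Q, z.2 ≠ 0 := by
    by_contra hne
    push Not at hne
    have h1 := map_subL_eq_zero (rfl : y = y) (LinearMap.snd (KLRAlg D) X Y)
      (LinearMap.id : T →ₗ[KLRAlg D] T) Q hne (hQ1 ⟨u0, rfl⟩)
    rw [hJ2] at h1
    exact hu0 (hj' (h1.trans (map_zero j').symm))
  rcases top_or_iso Q hQ3 hQ4 with h | h
  · exfalso
    apply hp0
    rw [← hP1]
    apply Conv.hom_ext
    intro a u
    rw [LinearMap.comp_apply, Conv.map_mk, LinearMap.zero_apply]
    exact hQ2 (Conv.mk_mem_subR _ (by rw [h]; trivial))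
  · exact h

end fin

end XK4A

/-- K4A: the diagonal argument -/
theorem Mo.I_K4A (hW : StSwap D) (h0 : StK0n D) : StK4a D := by
  intro Lp h X Y T S hX hY hdim
  have hX' := (hW h.1 Lp h.2 T X S).1 hX
  have hY' := (hW h.1 Lp h.2 T Y S).1 hY
  obtain ⟨p, hp⟩ := hX
  obtain ⟨p', hp'⟩ := hY
  obtain ⟨j, hj⟩ := hX'
  obtain ⟨j', hj'⟩ := hY'
  have := S.smp.simple
  have := X.smp.simple
  have := Y.smp.simple
  have := S.smp.fd
  have := T.smp.fd
  have hn : Nontrivial S.M := IsSimpleModule.nontrivial (KLRAlg D) S.M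
  have e1 : T.n + X.n = S.n := strand_unique
    ((Conv.isStrand T.smp.strand X.smp.strand).of_surjective p hp) S.smp.strand
  have e2 : T.n + Y.n = S.n := strand_unique
    ((Conv.isStrand T.smp.strand Y.smp.strand).of_surjective p' hp') S.smp.strand
  exact XK4A.main h.1 h0 T.smp.strand X.smp.strand Y.smp.strand S.smp.strand (by omega) e1
    p hp p' hp' j hj j' hj' hdim

end Pool.Agent.KLS

end

section

/-! MP_e487d8_al, module side: LBF. -/

set_option autoImplicit false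
set_option linter.unusedSectionVars false

open Pool.Agent.E487.Hopf

namespace Pool.Agent.KLS

variable {K I : Type} [Field K] [Fintype I] [DecidableEq I]

namespace XLBF

section gen

variable {D : Datum K I} {M N P M' N' : Type}
  [AddCommGroup M] [Module K M] [Module (KLRAlg D) M] [IsScalarTower K (KLRAlg D) M]
  [AddCommGroup N] [Module K N] [Module (KLRAlg D) N] [IsScalarTower K (KLRAlg D) N]
  [AddCommGroup P] [Module K P] [Module (KLRAlg D) P] [IsScalarTower K (KLRAlg D) P]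
  [AddCommGroup M'] [Module K M'] [Module (KLRAlg D) M'] [IsScalarTower K (KLRAlg D) M']
  [AddCommGroup N'] [Module K N'] [Module (KLRAlg D) N'] [IsScalarTower K (KLRAlg D) N']

theorem qtrans (h : Quo D P N) (h' : Quo D N M) : Quo D P M := by
  obtain ⟨f, hf⟩ := h
  obtain ⟨g, hg⟩ := h'
  exact ⟨f.comp g, by rw [LinearMap.coe_comp]; exact hf.comp hg⟩

theorem strans (h : Sub D M N) (h' : Sub D N P) : Sub D M P := by
  obtain ⟨f, hf⟩ := h
  obtain ⟨g, hg⟩ := h'
  exact ⟨g.comp f, by rw [LinearMap.coe_comp]; exact hg.comp hf⟩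

theorem qrefl : Quo D M M := ⟨LinearMap.id, Function.surjective_id⟩

theorem srefl : Sub D M M := ⟨LinearMap.id, Function.injective_id⟩

theorem qiso (h : Nonempty (M ≃ₗ[KLRAlg D] N)) : Quo D N M := by
  obtain ⟨e⟩ := h
  exact ⟨e.toLinearMap, e.surjective⟩

theorem qiso' (h : Nonempty (M ≃ₗ[KLRAlg D] N)) : Quo D M N := by
  obtain ⟨e⟩ := h
  exact ⟨e.symm.toLinearMap, e.symm.surjective⟩

theorem siso (h : Nonempty (M ≃ₗ[KLRAlg D] N)) : Sub D M N := by
  obtain ⟨e⟩ := h
  exact ⟨e.toLinearMap, e.injective⟩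

theorem siso' (h : Nonempty (M ≃ₗ[KLRAlg D] N)) : Sub D N M := by
  obtain ⟨e⟩ := h
  exact ⟨e.symm.toLinearMap, e.symm.injective⟩

theorem qconv {m m' : ℕ} (h : m = m') (h1 : Quo D M' M) (h2 : Quo D N' N) :
    Quo D (Conv D m' M' N') (Conv D m M N) := by
  obtain ⟨f, hf⟩ := h1
  obtain ⟨g, hg⟩ := h2
  exact ⟨Conv.map h f g, Conv.map_surjective h f g hf hg⟩

theorem sconv (hb : S_basis D) {m m' n : ℕ} (h : m = m') (hM : IsStrand D m M)
    (hN : IsStrand D n N) (hM' : IsStrand D m' M') (hN' : IsStrand D n N')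
    (h1 : Sub D M M') (h2 : Sub D N N') : Sub D (Conv D m M N) (Conv D m' M' N') := by
  obtain ⟨f, hf⟩ := h1
  obtain ⟨g, hg⟩ := h2
  exact ⟨Conv.map h f g, Conv.map_injective hb h hM hN hM' hN' f g hf hg⟩

end gen

variable {D : Datum K I} {Lp : I → ℕ → SMod D}

theorem LW_Lp (i j : I) (a : ℕ) (P : ℕ → Sh I ℚ)
    (hP : ∀ a w, P a w = if w = List.replicate a i then (a.factorial : ℚ) else 0) :
    Sh.L j (P (a + 1)) = if j = i then ((a + 1 : ℕ) : ℚ) • P a else 0 := by
  apply Sh.ext'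
  intro w
  rw [Sh.L_apply, hP, List.replicate_succ]
  by_cases hj : j = i
  · subst hj
    rw [if_pos rfl, Sh.smul_apply, hP]
    by_cases hw : w = List.replicate a j
    · rw [if_pos hw, if_pos (by rw [hw]), Nat.factorial_succ]
      push_cast
      ring
    · rw [if_neg hw, if_neg (fun h => hw (List.cons.inj h).2), mul_zero]
  · rw [if_neg hj, if_neg (fun h => hj (List.cons.inj h).1)]
    rfl

theorem L_zero (i : I) (P : ℕ → Sh I ℚ)
    (hP : ∀ a w, P a w = if w = List.replicate a i then (a.factorial : ℚ) else 0) :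
    P 0 = 1 := by
  apply Sh.ext'
  intro w
  rw [hP]
  cases w with
  | nil => simp [Sh.one_nil]
  | cons k w => rw [if_neg (by simp)]; rfl

theorem P_succ (i : I) (P : ℕ → Sh I ℚ)
    (hP : ∀ a w, P a w = if w = List.replicate a i then (a.factorial : ℚ) else 0) (a : ℕ) :
    P (a + 1) = P a * P 1 := by
  induction a with
  | zero => rw [L_zero i P hP, one_mul]
  | succ a ih =>
    apply Sh.ext'
    intro w
    cases w with
    | nil =>
      rw [Sh.mul_nil, hP, hP 1, if_neg (by simp), if_neg (by simp), mul_zero]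
    | cons j w =>
      rw [Sh.mul_cons, LW_Lp i j a P hP, LW_Lp i j 0 P hP, L_zero i P hP]
      have h0 : P (a + 1 + 1) (j :: w) = (if j = i then ((a + 1 + 1 : ℕ) : ℚ) • P (a + 1)
          else 0 : Sh I ℚ) w := by
        rw [← LW_Lp i j (a + 1) P hP]
        rfl
      rw [h0]
      by_cases hj : j = i
      · rw [if_pos hj, if_pos hj, if_pos hj, ← Sh.add_apply]
        rw [smul_mul_assoc, ← ih, zero_add, Nat.cast_one, one_smul, mul_one, Nat.cast_succ,
          add_smul, one_smul]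
      · rw [if_neg hj, if_neg hj, if_neg hj, zero_mul, mul_zero]
        simp

theorem chq_Lp (hC : CFacts D Lp) (i : I) (a : ℕ) :
    (Lp i a).chq = Sm.chq (Sm.lt Lp i) ^ a := by
  have hP : ∀ a w, (Lp i a).chq w =
      if w = List.replicate a i then (a.factorial : ℚ) else 0 := by
    intro a w
    show (((Lp i a).ch w : ℕ) : ℚ) = _
    rw [hC.ch_Lp]
    split_ifs <;> simp
  induction a with
  | zero => rw [pow_zero, L_zero i (fun a => (Lp i a).chq) hP]
  | succ a ih =>
    rw [P_succ i (fun a => (Lp i a).chq) hP a, ih, pow_succ]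
    rfl

/-- quotients of `L(i^a) ∘ Y` -/
theorem q_cls (hC : CFacts D Lp) {i : I} {a : ℕ} {Y X : Sm D} {Z : SMod D}
    (hX : Sm.eps hC i X = a + Sm.eps hC i Y) (hE : Sm.E hC i X = Sm.E hC i Y)
    (h : Quo D Z.M ((Lp i a).conv Y.rep)) : Sm.cls Z = X := by
  have h1 := hC.hd_Emax i a _ Y.rep _ Z (Sm.emax hC i Y) h
  have h2 := Sm.eps_E_of_emax hC (X := Sm.cls Z) (h1.congr (Sm.ch_rep_cls Z).symm rfl)
  exact Sm.eps_inj hC (h2.1.trans hX.symm) (h2.2.trans hE.symm)

theorem q_ex (hC : CFacts D Lp) (hconv : S_conv D) {i : I} {a : ℕ} {Y X : Sm D}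
    (hX : Sm.eps hC i X = a + Sm.eps hC i Y) (hE : Sm.E hC i X = Sm.E hC i Y) :
    Quo D X.rep.M ((Lp i a).conv Y.rep) := by
  have := Sm.conv_nontrivial hconv (Lp i a) Y.rep
  obtain ⟨Z, _, hZ⟩ := Sm.exists_quo (Sm.fd_conv hconv (Lp i a) Y.rep)
  have h1 := q_cls hC hX hE hZ
  refine quo_congr' (Sm.iso_rep hC ?_) hZ
  rw [← h1, Sm.ch_rep_cls]

theorem cls_eq (hC : CFacts D Lp) {Z : SMod D} {X : Sm D} (h : Sm.cls Z = X) : Z.Iso X.rep := by
  refine Sm.iso_rep hC ?_
  rw [← h, Sm.ch_rep_cls]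

section chr

variable {n : ℕ} {U V : Type}
  [AddCommGroup U] [Module K U] [Module (KLRAlg D) U] [IsScalarTower K (KLRAlg D) U]
  [AddCommGroup V] [Module K V] [Module (KLRAlg D) V] [IsScalarTower K (KLRAlg D) V]

theorem chrQ_surj (hC : CFacts D Lp) (hU : FdMod D n U) (p : U →ₗ[KLRAlg D] V)
    (hp : Function.Surjective p) :
    chrQ D n U = Sm.comb (Sm.mult hC (hU.sub (LinearMap.ker p))) + chrQ D n V := by
  have := hU.fd
  apply Sh.ext'
  intro ν
  rw [Sh.add_apply, ← Sm.chrQ_mult, chrQ_apply, chrQ_apply, chrQ_apply,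
    chr_add (LinearMap.ker p) ν, chr_congr (LinearMap.quotKerEquivOfSurjective p hp),
    Nat.cast_add]

theorem chrQ_sub (hU : FdMod D n U) (P : Submodule (KLRAlg D) U) :
    chrQ D n U = chrQ D n P + chrQ D n (U ⧸ P) := by
  have := hU.fd
  apply Sh.ext'
  intro ν
  rw [Sh.add_apply, chrQ_apply, chrQ_apply, chrQ_apply, chr_add P ν, Nat.cast_add]

theorem chrQ_iso (e : U ≃ₗ[KLRAlg D] V) : chrQ D n U = chrQ D n V := by
  apply Sh.ext'
  intro ν
  rw [chrQ_apply, chrQ_apply, chr_congr e]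

theorem chrQ_zero [Subsingleton U] (hU : FdMod D n U) : chrQ D n U = 0 := by
  have := hU.fd
  apply Sh.ext'
  intro ν
  rw [chrQ_apply, Sh.zero_apply]
  by_contra h
  have h1 : chr D n U ν ≠ 0 := by exact_mod_cast h
  rw [chr_ne_zero_iff (chr_length h1)] at h1
  obtain ⟨u, hu⟩ := h1
  exact hu (Subsingleton.elim _ _)

/-- a nonzero module all of whose simple quotients and submodules are `Y` is `Y` if the
multiplicity of `Y` is at most one -/
theorem chrQ_soc (hC : CFacts D Lp) (hU : FdMod D n U) (Y : Sm D)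
    (hq : ∀ Z : SMod D, Quo D Z.M U → Sm.cls Z = Y) (hs : ∀ Z : SMod D, Sub D Z.M U → Sm.cls Z = Y)
    (h1 : Sm.mult hC hU Y ≤ 1) (hQ : StMsq D) (hb : S_basis D) :
    ∃ r : Sm D →₀ ℕ, Sm.chq Y = chrQ D n U + Sm.comb r := by
  by_cases hnt : Nontrivial U
  · obtain ⟨Z, hZn, f, hf⟩ := Sm.exists_quo hU
    have hZ := hq Z ⟨f, hf⟩
    have h2 := Sm.mult_quo hC hU f hf
    have h3 : Sm.mult hC (hU.sub (LinearMap.ker f)) Y = 0 := by
      have h4 := DFunLike.congr_fun h2 Y
      rw [hZ, Finsupp.add_apply, Finsupp.single_eq_same] at h4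
      omega
    have hker : LinearMap.ker f = ⊥ := by
      by_contra hne
      have hnt' : Nontrivial (LinearMap.ker f) := (Submodule.nontrivial_iff_ne_bot).2 hne
      have := (hU.sub (LinearMap.ker f)).fd
      obtain ⟨S, hS⟩ := exists_simple_sub (D := D) (K := K) (M := LinearMap.ker f)
      set Z' : SMod D := ⟨n, S, ⟨(hU.sub (LinearMap.ker f)).sub S, hS⟩⟩ with hZ'
      have h5 : Sm.cls Z' = Y := by
        refine hs Z' ⟨(LinearMap.ker f).subtype.comp S.subtype, ?_⟩
        rw [LinearMap.coe_comp]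
        exact (Submodule.injective_subtype _).comp (Submodule.injective_subtype _)
      have h6 : SubQ D Z'.M (LinearMap.ker f) := ⟨S, LinearMap.id, Function.surjective_id⟩
      have h7 := (hQ Lp ⟨hb, hC⟩ n _ (hU.sub (LinearMap.ker f)) Z').1 h6
      rw [h5] at h7
      exact h7 h3
    refine ⟨0, ?_⟩
    have h4 : Sm.comb (0 : Sm D →₀ ℕ) = 0 := by
      apply Sh.ext'
      intro ν
      rw [Sm.comb_apply, Finsupp.sum_zero_index]
      simp
    have h8 : chrQ D n U = Z.chq := by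
      rw [chrQ_iso (LinearEquiv.ofBijective f ⟨LinearMap.ker_eq_bot.1 hker, hf⟩)]
      subst hZn
      rfl
    rw [h4, add_zero, h8, ← Sm.chq_cls, hZ]
  · rw [not_nontrivial_iff_subsingleton] at hnt
    exact ⟨Finsupp.single Y 1, by rw [chrQ_zero hU, zero_add, Sm.comb_single]⟩

end chr

theorem main (hW : StSwap D) (hP : StLpic D) (hM : StMsub D) (hQ : StMsq D) : StLbf D := by
  intro Lp h i y k yk g F F₀ Y a b hy hk hyk hg hgE hgc hF0 hF0E hF hFE hY hYE
  have hb := h.1
  have hC := h.2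
  have hconv : S_conv D := fun m n M N _ _ _ _ _ _ _ _ hM hN => Conv.fdMod_chrQ hb hM hN
  have qg : Quo D g.rep.M ((Lp i a).conv y.rep) :=
    q_ex hC hconv (by rw [hg, hy, add_zero]) (by rw [hgE, Sm.E_of_eps hC hy])
  have qF : Quo D F.rep.M ((Lp i a).conv F₀.rep) :=
    q_ex hC hconv (by rw [hF, hF0]) (by rw [hFE, hF0E])
  have qF0 : Quo D F₀.rep.M ((Lp i b).conv k.rep) :=
    q_ex hC hconv (by rw [hF0, hk, add_zero]) (by rw [hF0E, Sm.E_of_eps hC hk])
  have qF' : Quo D F.rep.M ((Lp i (a + b)).conv k.rep) :=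
    q_ex hC hconv (by rw [hF, hk, add_zero]) (by rw [hFE, Sm.E_of_eps hC hk])
  have hyk0 : Sm.eps hC i yk = 0 := by
    rw [← hYE]; exact Sm.eps_E hC i Y
  have hYY : ∀ Z : SMod D, Quo D Z.M ((Lp i (a + b)).conv yk.rep) → Sm.cls Z = Y := fun Z hZ =>
    q_cls hC (by rw [hY, hyk0, add_zero]) (by rw [hYE, Sm.E_of_eps hC hyk0]) hZ
  have ng : g.rep.n = (Lp i a).n + y.rep.n := quo_strand (Sm.fd_conv hconv _ _) qg
  have nF : F.rep.n = (Lp i a).n + F₀.rep.n := quo_strand (Sm.fd_conv hconv _ _) qF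
  have nF0 : F₀.rep.n = (Lp i b).n + k.rep.n := quo_strand (Sm.fd_conv hconv _ _) qF0
  have iyk : Nonempty (y.rep.conv k.rep ≃ₗ[KLRAlg D] yk.rep.M) := Sm.iso_conv hC hconv hyk
  obtain ⟨j, hj⟩ := (hW hb Lp hC _ _ _).1 qg
  obtain ⟨f, hf⟩ := qF
  set m := y.rep.n + (Lp i a).n with hm
  have sg : IsStrand D m g.rep.M := by
    have := g.rep.smp.strand
    rwa [ng, add_comm] at this
  have dU : FdMod D m (y.rep.conv (Lp i a)) := Sm.fd_conv hconv _ _
  set A : Conv D m (y.rep.conv (Lp i a)) F₀.rep.M →ₗ[KLRAlg D] y.rep.conv F.rep :=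
    (Conv.map (rfl : y.rep.n = y.rep.n) (LinearMap.id : y.rep.M →ₗ[KLRAlg D] y.rep.M) f).comp
      (Conv.assoc D y.rep.n (Lp i a).n y.rep.M (Lp i a).M F₀.rep.M).toLinearMap with hA
  have hAs : Function.Surjective A := by
    rw [hA, LinearMap.coe_comp]
    exact (Conv.map_surjective rfl _ _ Function.surjective_id hf).comp (LinearEquiv.surjective _)
  set J : Conv D m g.rep.M F₀.rep.M →ₗ[KLRAlg D] Conv D m (y.rep.conv (Lp i a)) F₀.rep.M :=
    Conv.map rfl j LinearMap.id with hJ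
  set Im : Submodule (KLRAlg D) (y.rep.conv F.rep) := LinearMap.range (A.comp J) with hIm
  have dyF : FdMod D (y.rep.n + F.rep.n) (y.rep.conv F.rep) := Sm.fd_conv hconv _ _
  -- simple quotients of the image
  have hIq : ∀ Z : SMod D, Quo D Z.M Im → Sm.cls Z = Y := by
    intro Z hZ
    apply hYY
    have c1 : Quo D Im (Conv D m g.rep.M F₀.rep.M) :=
      ⟨(A.comp J).rangeRestrict, LinearMap.surjective_rangeRestrict _⟩
    have c2 : Quo D (Conv D m g.rep.M F₀.rep.M) (Conv D g.rep.n g.rep.M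
        ((Lp i b).conv k.rep)) := qconv (by rw [ng, hm, add_comm]) qrefl qF0
    have c3 : Quo D (Conv D g.rep.n g.rep.M ((Lp i b).conv k.rep))
        (Conv D (g.rep.n + (Lp i b).n) (g.rep.conv (Lp i b)) k.rep.M) :=
      qiso ⟨Conv.assoc D g.rep.n (Lp i b).n g.rep.M (Lp i b).M k.rep.M⟩
    have c4 : Quo D (Conv D (g.rep.n + (Lp i b).n) (g.rep.conv (Lp i b)) k.rep.M)
        (Conv D ((Lp i b).n + g.rep.n) ((Lp i b).conv g.rep) k.rep.M) :=
      qconv (add_comm _ _) (qiso (hP Lp h i g.rep hgc b)) qrefl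
    have c5 : Quo D (Conv D ((Lp i b).n + g.rep.n) ((Lp i b).conv g.rep) k.rep.M)
        (Conv D (Lp i b).n (Lp i b).M (g.rep.conv k.rep)) :=
      qiso' ⟨Conv.assoc D (Lp i b).n g.rep.n (Lp i b).M g.rep.M k.rep.M⟩
    have c6 : Quo D (Conv D (Lp i b).n (Lp i b).M (g.rep.conv k.rep))
        (Conv D (Lp i b).n (Lp i b).M (Conv D ((Lp i a).n + y.rep.n)
          ((Lp i a).conv y.rep) k.rep.M)) := qconv rfl qrefl (qconv ng.symm qg qrefl)
    have c7 : Quo D (Conv D (Lp i b).n (Lp i b).M (Conv D ((Lp i a).n + y.rep.n)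
          ((Lp i a).conv y.rep) k.rep.M)) (Conv D (Lp i b).n (Lp i b).M
            (Conv D (Lp i a).n (Lp i a).M (y.rep.conv k.rep))) :=
      qconv rfl qrefl (qiso' ⟨Conv.assoc D (Lp i a).n y.rep.n (Lp i a).M y.rep.M k.rep.M⟩)
    have c8 : Quo D (Conv D (Lp i b).n (Lp i b).M
            (Conv D (Lp i a).n (Lp i a).M (y.rep.conv k.rep)))
        (Conv D (Lp i b).n (Lp i b).M ((Lp i a).conv yk.rep)) :=
      qconv rfl qrefl (qconv rfl qrefl (qiso' iyk))
    have c9 : Quo D (Conv D (Lp i b).n (Lp i b).M ((Lp i a).conv yk.rep))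
        (Conv D ((Lp i b).n + (Lp i a).n) ((Lp i b).conv (Lp i a)) yk.rep.M) :=
      qiso ⟨Conv.assoc D (Lp i b).n (Lp i a).n (Lp i b).M (Lp i a).M yk.rep.M⟩
    have c10 : Quo D (Conv D ((Lp i b).n + (Lp i a).n) ((Lp i b).conv (Lp i a)) yk.rep.M)
        ((Lp i (a + b)).conv yk.rep) := by
      refine qconv ?_ (qiso' (Sm.iso_conv' hC hconv ?_)) qrefl
      · rw [hC.n_Lp, hC.n_Lp, hC.n_Lp, add_comm]
      · rw [chq_Lp hC, chq_Lp hC, chq_Lp hC, ← pow_add, add_comm]
    exact qtrans (qtrans (qtrans (qtrans (qtrans (qtrans (qtrans (qtrans (qtrans (qtrans hZ c1)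
      c2) c3) c4) c5) c6) c7) c8) c9) c10
  -- simple submodules of the image
  have hIs : ∀ Z : SMod D, Sub D Z.M Im → Sm.cls Z = Y := by
    intro Z hZ
    apply hYY
    rw [hW hb Lp hC]
    have c1 : Sub D Im (y.rep.conv F.rep) := ⟨Im.subtype, Submodule.injective_subtype _⟩
    have c2 : Sub D (y.rep.conv F.rep) (Conv D y.rep.n y.rep.M
        (k.rep.conv (Lp i (a + b)))) := by
      have hd := Sm.fd_conv hconv k.rep (Lp i (a + b))
      refine sconv hb rfl y.rep.smp.strand F.rep.smp.strand y.rep.smp.strand ?_ srefl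
        ((hW hb Lp hC _ _ _).1 qF')
      have h1 := quo_strand (Sm.fd_conv hconv _ _) qF'
      rw [h1, add_comm]
      exact hd.strand
    have c3 : Sub D (Conv D y.rep.n y.rep.M (k.rep.conv (Lp i (a + b))))
        (Conv D (y.rep.n + k.rep.n) (y.rep.conv k.rep) (Lp i (a + b)).M) :=
      siso' ⟨Conv.assoc D y.rep.n k.rep.n y.rep.M k.rep.M (Lp i (a + b)).M⟩
    have nyk : yk.rep.n = y.rep.n + k.rep.n := quo_strand (Sm.fd_conv hconv _ _) (qiso iyk)
    have c4 : Sub D (Conv D (y.rep.n + k.rep.n) (y.rep.conv k.rep) (Lp i (a + b)).M)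
        (yk.rep.conv (Lp i (a + b))) :=
      sconv hb nyk.symm (Sm.fd_conv hconv _ _).strand (Lp i (a + b)).smp.strand
        yk.rep.smp.strand (Lp i (a + b)).smp.strand (siso iyk) srefl
    exact strans (strans (strans (strans hZ c1) c2) c3) c4
  -- the multiplicity of `Y`
  have hco : Sm.co hC hconv y F Y = 1 := by
    rw [Sm.co_E hC hconv (i := i) (by rw [hY, hy, hF, zero_add]), Sm.E_of_eps hC hy, hFE, hYE,
      Sm.co_of_chq hC hconv hyk, Finsupp.single_eq_same]
  have hmul : Sm.mult hC (dyF.sub Im) Y ≤ 1 := by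
    have h1 : Sm.mult hC dyF Y = 1 := hco
    have h2 := hM Lp h _ _ dyF Im
    rw [h2, Finsupp.add_apply] at h1
    omega
  obtain ⟨r, hr⟩ := chrQ_soc hC (dyF.sub Im) Y hIq hIs hmul hQ hb
  -- the quotient
  set R : Submodule (KLRAlg D) (y.rep.conv (Lp i a)) := LinearMap.range j with hR
  have dG : FdMod D m ((y.rep.conv (Lp i a)) ⧸ R) := dU.quot R
  have hex : Function.Exact j R.mkQ := by
    rw [LinearMap.exact_iff, Submodule.ker_mkQ]
  have hex' := Conv.exact_left hb F₀.rep.smp.strand sg dU.strand dG.strand j R.mkQ hex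
  set p : Conv D m (y.rep.conv (Lp i a)) F₀.rep.M →ₗ[KLRAlg D]
      Conv D m ((y.rep.conv (Lp i a)) ⧸ R) F₀.rep.M :=
    Conv.map rfl R.mkQ LinearMap.id with hp
  have hps : Function.Surjective p :=
    Conv.map_surjective rfl _ _ R.mkQ_surjective Function.surjective_id
  have hle : LinearMap.ker p ≤ LinearMap.ker (Im.mkQ.comp A) := by
    intro z hz
    obtain ⟨z', hz'⟩ := (hex' z).1 (LinearMap.mem_ker.1 hz)
    rw [LinearMap.mem_ker, LinearMap.comp_apply, Submodule.mkQ_apply,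
      Submodule.Quotient.mk_eq_zero, hIm]
    refine ⟨z', ?_⟩
    rw [LinearMap.comp_apply, ← hz']
  set ψ : Conv D m ((y.rep.conv (Lp i a)) ⧸ R) F₀.rep.M →ₗ[KLRAlg D]
      (y.rep.conv F.rep) ⧸ Im := ((LinearMap.ker p).liftQ (Im.mkQ.comp A) hle).comp
        (LinearMap.quotKerEquivOfSurjective p hps).symm.toLinearMap with hψ
  have hψs : Function.Surjective ψ := by
    rw [hψ, LinearMap.coe_comp]
    refine Function.Surjective.comp ?_ (LinearEquiv.surjective _)
    intro z
    obtain ⟨u, hu⟩ : ∃ u, Im.mkQ.comp A u = z := by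
      have : Function.Surjective (Im.mkQ.comp A) := by
        rw [LinearMap.coe_comp]
        exact Im.mkQ_surjective.comp hAs
      exact this z
    exact ⟨Submodule.Quotient.mk u, hu⟩
  obtain ⟨dGF1, dGF2⟩ := hconv m F₀.rep.n _ _ dG F₀.rep.smp.toFdMod
  have hn : m + F₀.rep.n = y.rep.n + F.rep.n := by rw [hm, nF, add_assoc]
  have e4 := chrQ_surj hC dGF1 ψ hψs
  have e7 : chrQ D (m + F₀.rep.n) ((y.rep.conv F.rep) ⧸ Im) =
      chrQ D (y.rep.n + F.rep.n) ((y.rep.conv F.rep) ⧸ Im) := by rw [hn]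
  rw [dGF2, e7] at e4
  have e1 := chrQ_sub dyF Im
  rw [Sm.chrQ_conv hconv, Sm.chq_rep, Sm.chq_rep] at e1
  have e3 := chrQ_sub dU R
  rw [hm, Sm.chrQ_conv hconv, chq_Lp hC, Sm.chq_rep, ← hm] at e3
  have e5 : chrQ D m R = Sm.chq g := by
    have h1 : chrQ D m g.rep.M = Sm.chq g := by
      have h2 : m = g.rep.n := by rw [ng, hm, add_comm]
      rw [h2, ← Sm.chq_rep]
      rfl
    rw [← h1]
    exact (chrQ_iso (LinearEquiv.ofInjective j hj)).symm
  have e6 : chrQ D F₀.rep.n F₀.rep.M = Sm.chq F₀ := by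
    rw [← Sm.chq_rep]
    rfl
  refine ⟨r + Sm.mult hC (dGF1.sub (LinearMap.ker ψ)), ?_⟩
  rw [Sm.comb_add, e3, e5, hr, e1, add_mul]
  rw [e6] at e4
  rw [e4]
  ring

end XLBF

theorem Mo.I_LBF (D : Datum K I) (hW : StSwap D) (hP : StLpic D) (hM : StMsub D) (hQ : StMsq D)
    (hL : StLphd D) : StLbf D := XLBF.main hW hP hM hQ

end Pool.Agent.KLS

end

section

/-! MP_e487d8_al, module side, item LPIC: if `L(i) ∘ C ≅ C ∘ L(i)` then
`L(i^a) ∘ C ≅ C ∘ L(i^a)`. -/

set_option autoImplicit false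
set_option linter.unusedSectionVars false

open Pool.Agent.E487.Hopf

namespace Pool.Agent.KLS

variable {K I : Type} [Field K] [Fintype I] [DecidableEq I] (D : Datum K I)

namespace XLPIC

variable {D} in
theorem chq_lp {Lp : I → ℕ → SMod D} (hC : CFacts D Lp) (i : I) (a : ℕ) :
    (Lp i a).chq = chLp i a := by
  apply Sh.ext'
  intro w
  show ((Lp i a).ch w : ℚ) = chLp i a w
  rw [hC.ch_Lp]
  unfold chLp
  split_ifs <;> simp

end XLPIC

theorem Mo.I_LPIC (h : StIcm D) : StLpic D := by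
  intro Lp hB i C h1 a
  have hconv : S_conv D := fun _ _ _ _ _ _ _ _ _ _ _ _ hM hN => Conv.fdMod_chrQ hB.1 hM hN
  have sym : ∀ X Y : SMod D, X.IC Y → Y.IC X := fun X Y ⟨e⟩ => ⟨e.symm⟩
  induction a with
  | zero =>
    have h0 : (Lp i 0).chq = 1 := by rw [XLPIC.chq_lp hB.2, chLp_zero]
    obtain ⟨e⟩ := Sm.iso_conv' hB.2 hconv (X := Lp i 0) (Y := C) (Z := C) (by rw [h0, one_mul])
    obtain ⟨e'⟩ := Sm.iso_conv' hB.2 hconv (X := C) (Y := Lp i 0) (Z := C) (by rw [h0, mul_one])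
    exact ⟨e.trans e'.symm⟩
  | succ a ih =>
    refine sym _ _ (h Lp hB C (Lp i 1) (Lp i a) (Lp i (a + 1)) ?_ (sym _ _ h1) (sym _ _ ih))
    rw [XLPIC.chq_lp hB.2, XLPIC.chq_lp hB.2, XLPIC.chq_lp hB.2, chLp_mul, Nat.add_comm]

end Pool.Agent.KLS

end
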