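import Pool.Agent.Work.MP_e487d8_al.Bd.B17
import Pool.Agent.Work.MP_e487d8_al.Y.Fin.Wt

/-! Bundle of small proof modules (one section per former module). -/

section

/-! MP_e487d8_al, RMAT block: the lemmas K1 - K4 (heads and socles of `C ∘ N` and `N ∘ C`). -/

set_option autoImplicit false

namespace Pool.Agent.KLS

variable {K I : Type} [Field K] [Fintype I] [DecidableEq I] {D : Datum K I}

namespace Conv

section

variable {m m' n : ℕ} {M N M' N' : Type}
  [AddCommGroup M] [Module K M] [Module (KLRAlg D) M] [IsScalarTower K (KLRAlg D) M]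
  [AddCommGroup N] [Module K N] [Module (KLRAlg D) N] [IsScalarTower K (KLRAlg D) N]
  [AddCommGroup M'] [Module K M'] [Module (KLRAlg D) M'] [IsScalarTower K (KLRAlg D) M']
  [AddCommGroup N'] [Module K N'] [Module (KLRAlg D) N'] [IsScalarTower K (KLRAlg D) N']

theorem comap_subL' (hb : S_basis D) (h : m = m') (hN : IsStrand D n N) (hM : IsStrand D m M)
    (hM' : IsStrand D m' M') (f : M →ₗ[KLRAlg D] M') (S : Submodule (KLRAlg D) M') :
    (subL m' S N).comap (map h f (LinearMap.id : N →ₗ[KLRAlg D] N)) =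
      subL m (S.comap f) N := by
  subst h
  exact comap_subL hb hN hM hM' f S

theorem ker_map_left' (hb : S_basis D) (h : m = m') (hN : IsStrand D n N) (hM : IsStrand D m M)
    (hM' : IsStrand D m' M') (g : M →ₗ[KLRAlg D] M') :
    LinearMap.ker (map h g (LinearMap.id : N →ₗ[KLRAlg D] N)) =
      subL m (LinearMap.ker g) N := by
  subst h
  exact ker_map_left hb hN hM hM' g

omit [IsScalarTower K (KLRAlg D) M] in
theorem subL_bot : subL m (⊥ : Submodule (KLRAlg D) M) N = ⊥ := by
  rw [eq_bot_iff, subL, Submodule.span_le]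
  rintro z ⟨⟨u, hu⟩, v, rfl⟩
  rw [Submodule.mem_bot] at hu
  subst hu
  simp

omit [IsScalarTower K (KLRAlg D) N] in
theorem subR_bot : subR m M (⊥ : Submodule (KLRAlg D) N) = ⊥ := by
  rw [eq_bot_iff, subR, Submodule.span_le]
  rintro z ⟨u, ⟨v, hv⟩, rfl⟩
  rw [Submodule.mem_bot] at hv
  subst hv
  simp

theorem subL_top : subL m (⊤ : Submodule (KLRAlg D) M) N = ⊤ := by
  rw [eq_top_iff]
  intro z _
  induction z using Conv.induction with
  | h0 => exact Submodule.zero_mem _
  | hadd y z hy hz => exact Submodule.add_mem _ (hy trivial) (hz trivial)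
  | h a u v => exact Submodule.smul_mem _ _ (mk_mem_subL Submodule.mem_top v)

theorem subR_top : subR m M (⊤ : Submodule (KLRAlg D) N) = ⊤ := by
  rw [eq_top_iff]
  intro z _
  induction z using Conv.induction with
  | h0 => exact Submodule.zero_mem _
  | hadd y z hy hz => exact Submodule.add_mem _ (hy trivial) (hz trivial)
  | h a u v => exact Submodule.smul_mem _ _ (mk_mem_subR u Submodule.mem_top)

theorem map_scalar_right {f : N →ₗ[KLRAlg D] N} {lam : K} (hf : ∀ v, f v = lam • v)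
    (z : Conv D m M N) : map (rfl : m = m) (LinearMap.id : M →ₗ[KLRAlg D] M) f z = lam • z := by
  induction z using Conv.induction with
  | h0 => rw [map_zero, smul_zero]
  | hadd y z hy hz => rw [map_add, hy, hz, smul_add]
  | h a u v => rw [map_smul, map_mk, hf, map_smul, smul_comm, LinearMap.id_apply]

theorem map_scalar_left (h : m = m) {f : M →ₗ[KLRAlg D] M} {lam : K} (hf : ∀ v, f v = lam • v)
    (z : Conv D m M N) : map h f (LinearMap.id : N →ₗ[KLRAlg D] N) z = lam • z := by
  induction z using Conv.induction with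
  | h0 => rw [map_zero, smul_zero]
  | hadd y z hy hz => rw [map_add, hy, hz, smul_add]
  | h a u v =>
    rw [map_smul, map_mk, hf, map_smul, LinearMap.smul_apply, smul_comm, LinearMap.id_apply]

end

end Conv

theorem mem_of_smul {M : Type} [AddCommGroup M] [Module K M] [Module (KLRAlg D) M]
    [IsScalarTower K (KLRAlg D) M] {S : Submodule (KLRAlg D) M} {lam : K} (hl : lam ≠ 0) {x : M}
    (h : lam • x ∈ S) : x ∈ S := by
  have h1 := S.smul_of_tower_mem lam⁻¹ h
  rwa [smul_smul, inv_mul_cancel₀ hl, one_smul] at h1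

section

variable {m n l : ℕ} {W C N L N' : Type}
  [AddCommGroup W] [Module K W] [Module (KLRAlg D) W] [IsScalarTower K (KLRAlg D) W]
  [AddCommGroup C] [Module K C] [Module (KLRAlg D) C] [IsScalarTower K (KLRAlg D) C]
  [AddCommGroup N] [Module K N] [Module (KLRAlg D) N] [IsScalarTower K (KLRAlg D) N]
  [AddCommGroup L] [Module K L] [Module (KLRAlg D) L] [IsScalarTower K (KLRAlg D) L]
  [AddCommGroup N'] [Module K N'] [Module (KLRAlg D) N'] [IsScalarTower K (KLRAlg D) N']
  {Z : W →ₗ[KLRAlg D] W} {p : W →ₗ[KLRAlg D] C}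

/-- the R-matrix of `C` with itself is the scalar `lam`, of order `s₀` -/
def ScalL (hA : IsAff D m Z p) (s₀ : ℕ) (lam : K) : Prop :=
  ∃ (rC : Conv D m C C →ₗ[KLRAlg D] Conv D m C C),
    Lead hA hA.strandC s₀ rC ∧ ∀ z, rC z = lam • z

/-- the R-matrix of `C` with itself is a nonzero scalar, of order `s₀` -/
def Scal (hA : IsAff D m Z p) (s₀ : ℕ) : Prop :=
  ∃ (lam : K), lam ≠ 0 ∧ ScalL hA s₀ lam

section

variable {hA : IsAff D m Z p} {hN : IsStrand D n N} {s s₀ : ℕ}
  {r : Conv D m C N →ₗ[KLRAlg D] Conv D n N C}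

theorem ScalL.lead_NC {lam : K} (hsc : ScalL hA s₀ lam) (h : Lead hA hN s r) :
    ∃ (ρ : Conv D m C (Conv D n N C) →ₗ[KLRAlg D] Conv D (n + m) (Conv D n N C) C),
      Lead hA (Conv.isStrand hN hA.strandC) (s + s₀) ρ ∧
      ∀ z, ρ z = lam • Conv.map (Nat.add_comm m n) r (LinearMap.id : C →ₗ[KLRAlg D] C)
        ((Conv.assoc D m n C N C).symm z) := by
  obtain ⟨rC, hC, hrC⟩ := hsc
  obtain ⟨ρ, hρ, hz⟩ := h.conv hC
  refine ⟨ρ, hρ, fun z => ?_⟩
  have h1 := LinearMap.congr_fun hz z
  simp only [LinearMap.comp_apply, LinearEquiv.coe_coe] at h1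
  rw [Conv.map_scalar_right hrC] at h1
  apply (Conv.assoc D n m N C C).injective
  rw [h1, ← algebraMap_smul (KLRAlg D) lam, ← algebraMap_smul (KLRAlg D) lam, map_smul]

theorem ScalL.lead_CN {lam : K} (hsc : ScalL hA s₀ lam) (h : Lead hA hN s r) :
    ∃ (ρ : Conv D m C (Conv D m C N) →ₗ[KLRAlg D] Conv D (m + n) (Conv D m C N) C),
      Lead hA (Conv.isStrand hA.strandC hN) (s₀ + s) ρ ∧
      ∀ z, Conv.assoc D m n C N C (ρ z) =
        lam • Conv.map (rfl : m = m) (LinearMap.id : C →ₗ[KLRAlg D] C) r z := by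
  obtain ⟨rC, hC, hrC⟩ := hsc
  obtain ⟨ρ, hρ, hz⟩ := hC.conv h
  refine ⟨ρ, hρ, fun z => ?_⟩
  have h1 := LinearMap.congr_fun hz z
  simp only [LinearMap.comp_apply, LinearEquiv.coe_coe] at h1
  rw [Conv.map_scalar_left _ hrC] at h1
  rw [h1, ← algebraMap_smul (KLRAlg D) lam, ← algebraMap_smul (KLRAlg D) lam, map_smul,
    LinearEquiv.apply_symm_apply, map_smul]

/-- membership in `S ∘ C` of the values of the R-matrix -/
theorem Lead.mem_subL (hb : S_basis D) {q : ℕ} {P : Type} [AddCommGroup P] [Module K P]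
    [Module (KLRAlg D) P] [IsScalarTower K (KLRAlg D) P] {hP : IsStrand D q P} {t : ℕ}
    {ρ : Conv D m C P →ₗ[KLRAlg D] Conv D q P C} (hρ : Lead hA hP t ρ)
    (S : Submodule (KLRAlg D) P) (a : C) {y : P} (hy : y ∈ S) :
    ρ (Conv.mk D m C P a y) ∈ Conv.subL q S C := by
  obtain ⟨ρS, hρS⟩ := hρ.sub hb (hP.sub S) S.subtype S.injective_subtype
  have hnat := Lead.natural hb hρS hρ S.subtype
  rw [Conv.subL_eq_range]
  refine ⟨ρS (Conv.mk D m C S a ⟨y, hy⟩), ?_⟩
  have h1 := LinearMap.congr_fun hnat (Conv.mk D m C S a ⟨y, hy⟩)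
  simp only [LinearMap.comp_apply, Conv.map_mk, LinearMap.id_apply, Submodule.subtype_apply] at h1
  exact h1

/-- K1: the socle of `N ∘ C` -/
theorem range_le (hb : S_basis D) (hsimp : IsSimpleModule (KLRAlg D) N) (hsc : Scal hA s₀)
    (h : Lead hA hN s r) (S : Submodule (KLRAlg D) (Conv D n N C)) (hS : S ≠ ⊥) :
    LinearMap.range r ≤ S := by
  obtain ⟨lam, hlam, hsc⟩ := hsc
  obtain ⟨ρ, hρ, hρz⟩ := hsc.lead_NC h
  have key : ∀ a : C, ∀ y ∈ S, (Conv.assoc D m n C N C).symm
      (Conv.mk D m C (Conv D n N C) a y) ∈ Conv.subL (m + n) (S.comap r) C := by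
    intro a y hy
    rw [← Conv.comap_subL' hb (Nat.add_comm m n) hA.strandC (Conv.isStrand hA.strandC hN)
      (Conv.isStrand hN hA.strandC) r S, Submodule.mem_comap]
    have h1 := hρ.mem_subL hb S a hy
    rw [hρz] at h1
    exact mem_of_smul hlam h1
  obtain ⟨P, h1, h2⟩ := Conv.K0' hb hA.strandC hN hA.strandC (S.comap r) S key
  rcases eq_bot_or_eq_top P with hP | hP
  · rw [hP, Conv.subL_bot] at h1
    exact absurd (eq_bot_iff.2 h1) hS
  · rw [hP, Conv.subR_top] at h2
    rintro _ ⟨z, rfl⟩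
    exact h2 (Submodule.mem_top (x := z))

/-- K1: the head of `C ∘ N` -/
theorem le_ker (hb : S_basis D) (hsimp : IsSimpleModule (KLRAlg D) N) (hsc : Scal hA s₀)
    (h : Lead hA hN s r) (T : Submodule (KLRAlg D) (Conv D m C N)) (hT : T ≠ ⊤) :
    T ≤ LinearMap.ker r := by
  obtain ⟨lam, hlam, hsc⟩ := hsc
  obtain ⟨ρ, hρ, hρz⟩ := hsc.lead_CN h
  have key : ∀ a : C, ∀ y ∈ T.map r, (Conv.assoc D m n C N C).symm
      (Conv.mk D m C (Conv D n N C) a y) ∈ Conv.subL (m + n) T C := by
    rintro a _ ⟨y, hy, rfl⟩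
    have h1 := hρ.mem_subL hb T a hy
    have h2 := hρz (Conv.mk D m C (Conv D m C N) a y)
    rw [Conv.map_mk, LinearMap.id_apply] at h2
    have h3 : ρ (Conv.mk D m C (Conv D m C N) a y) = lam • (Conv.assoc D m n C N C).symm
        (Conv.mk D m C (Conv D n N C) a (r y)) := by
      apply (Conv.assoc D m n C N C).injective
      rw [h2, ← algebraMap_smul (KLRAlg D) lam, ← algebraMap_smul (KLRAlg D) lam, map_smul,
        LinearEquiv.apply_symm_apply]
    rw [h3] at h1
    exact mem_of_smul hlam h1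
  obtain ⟨P, h1, h2⟩ := Conv.K0' hb hA.strandC hN hA.strandC T (T.map r) key
  rcases eq_bot_or_eq_top P with hP | hP
  · rw [hP, Conv.subL_bot] at h1
    intro z hz
    exact h1 ⟨z, hz, rfl⟩
  · rw [hP, Conv.subR_top] at h2
    exact absurd (eq_top_iff.2 h2) hT

/-- the image of `r` is simple -/
theorem range_simple (hb : S_basis D) (hsimp : IsSimpleModule (KLRAlg D) N) (hsc : Scal hA s₀)
    (h : Lead hA hN s r) (hr : r ≠ 0) : IsSimpleModule (KLRAlg D) (LinearMap.range r) := by
  have hne : LinearMap.range r ≠ ⊥ := fun h0 => hr (LinearMap.range_eq_bot.1 h0)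
  have : Nontrivial (LinearMap.range r) := Submodule.nontrivial_iff_ne_bot.2 hne
  rw [isSimpleModule_iff]
  refine { toNontrivial := ?_, eq_bot_or_eq_top := fun S => ?_ }
  · exact inferInstance
  by_cases hS : S = ⊥
  · exact Or.inl hS
  · right
    have h1 : S.map (LinearMap.range r).subtype ≠ ⊥ := by
      intro h0
      apply hS
      rw [eq_bot_iff]
      intro x hx
      have h3 : (x : Conv D n N C) ∈ S.map (LinearMap.range r).subtype := ⟨x, hx, rfl⟩
      rw [h0, Submodule.mem_bot] at h3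
      rw [Submodule.mem_bot]
      exact Subtype.ext h3
    have h2 := range_le hb hsimp hsc h _ h1
    rw [eq_top_iff]
    rintro ⟨z, hz⟩ _
    obtain ⟨y, hy, hyz⟩ := h2 hz
    have h3 : y = ⟨z, hz⟩ := Subtype.ext hyz
    rwa [← h3]

/-- K3: the R-matrix is more divisible on the kernel of `r` -/
theorem lead_ker (hb : S_basis D) (hsc : Scal hA s₀) (h : Lead hA hN s r) :
    ∃ ρ, Lead hA ((Conv.isStrand hA.strandC hN).sub (LinearMap.ker r)) (s₀ + s + 1) ρ := by
  obtain ⟨lam, hlam, hsc⟩ := hsc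
  obtain ⟨ρ, hρ, hρz⟩ := hsc.lead_CN h
  obtain ⟨ρS, hρS⟩ := hρ.sub hb ((Conv.isStrand hA.strandC hN).sub (LinearMap.ker r))
    (LinearMap.ker r).subtype (LinearMap.ker r).injective_subtype
  have hnat := Lead.natural hb hρS hρ (LinearMap.ker r).subtype
  have h0 : ρS = 0 := by
    apply Conv.hom_ext
    intro a y
    have hinj := Conv.map_injective hb (rfl : m + n = m + n)
      ((Conv.isStrand hA.strandC hN).sub (LinearMap.ker r)) hA.strandC
      (Conv.isStrand hA.strandC hN) hA.strandC (LinearMap.ker r).subtype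
      (LinearMap.id : C →ₗ[KLRAlg D] C) (LinearMap.ker r).injective_subtype (fun _ _ h => h)
    apply hinj
    have h1 := LinearMap.congr_fun hnat (Conv.mk D m C (LinearMap.ker r) a y)
    simp only [LinearMap.comp_apply, Conv.map_mk, LinearMap.id_apply,
      Submodule.subtype_apply] at h1
    rw [h1, LinearMap.zero_apply, map_zero]
    apply (Conv.assoc D m n C N C).injective
    have h2 : r y = 0 := y.2
    rw [hρz, Conv.map_mk, h2, map_zero, map_zero, smul_zero]
  rw [h0] at hρS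
  exact hρS.succ hb

/-- K3: the R-matrix on the image of `r` -/
theorem lead_range (hb : S_basis D) (hsimp : IsSimpleModule (KLRAlg D) N) (hsc : Scal hA s₀)
    (h : Lead hA hN s r) (hr : r ≠ 0) {q : ℕ} {Y : Type} [AddCommGroup Y] [Module K Y]
    [Module (KLRAlg D) Y] [IsScalarTower K (KLRAlg D) Y] (hq : q = m + n) (hY : IsStrand D q Y)
    (g : Conv D m C N →ₗ[KLRAlg D] Y) (hg : Function.Surjective g)
    (hk : LinearMap.ker g ≤ LinearMap.ker r) :
    ∃ ρ, Lead hA hY (s₀ + s) ρ ∧ ρ ≠ 0 := by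
  subst hq
  obtain ⟨lam, hlam, hsc⟩ := hsc
  obtain ⟨ρ, hρ, hρz⟩ := hsc.lead_CN h
  obtain ⟨ρY, hρY⟩ := hρ.quot hb hY g hg
  refine ⟨ρY, hρY, fun h0 => ?_⟩
  have hnat := Lead.natural hb hρ hρY g
  rw [h0, LinearMap.zero_comp] at hnat
  have key : ∀ a : C, ∀ y ∈ LinearMap.range r, (Conv.assoc D m n C N C).symm
      (Conv.mk D m C (Conv D n N C) a y) ∈ Conv.subL (m + n) (LinearMap.ker g) C := by
    rintro a _ ⟨y, rfl⟩
    rw [← Conv.ker_map_left hb hA.strandC (Conv.isStrand hA.strandC hN) hY g]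
    have h1 := LinearMap.congr_fun hnat (Conv.mk D m C (Conv D m C N) a y)
    have h2 := hρz (Conv.mk D m C (Conv D m C N) a y)
    rw [Conv.map_mk, LinearMap.id_apply] at h2
    have h3 : ρ (Conv.mk D m C (Conv D m C N) a y) = lam • (Conv.assoc D m n C N C).symm
        (Conv.mk D m C (Conv D n N C) a (r y)) := by
      apply (Conv.assoc D m n C N C).injective
      rw [h2, ← algebraMap_smul (KLRAlg D) lam, ← algebraMap_smul (KLRAlg D) lam, map_smul,
        LinearEquiv.apply_symm_apply]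
    have h4 : ρ (Conv.mk D m C (Conv D m C N) a y) ∈ LinearMap.ker
        (Conv.map (rfl : m + n = m + n) g (LinearMap.id : C →ₗ[KLRAlg D] C)) := h1
    rw [h3] at h4
    exact mem_of_smul hlam h4
  obtain ⟨P, h1, h2⟩ := Conv.K0' hb hA.strandC hN hA.strandC (LinearMap.ker g)
    (LinearMap.range r) key
  rcases eq_bot_or_eq_top P with hP | hP
  · rw [hP, Conv.subL_bot] at h1
    exact hr (LinearMap.range_eq_bot.1 (eq_bot_iff.2 h1))
  · rw [hP, Conv.subR_top] at h2
    exact hr (LinearMap.ker_eq_top.1 (eq_top_iff.2 (h2.trans hk)))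

/-- K2 -/
theorem conv_ne_zero (hb : S_basis D) (hsimp : IsSimpleModule (KLRAlg D) C)
    {hL : IsStrand D l L} {s' : ℕ} {r' : Conv D m C L →ₗ[KLRAlg D] Conv D l L C}
    (h : Lead hA hN s r) (h' : Lead hA hL s' r') (hr : r ≠ 0) (hr' : r' ≠ 0) :
    ∃ ρ, Lead hA (Conv.isStrand hN hL) (s + s') ρ ∧ ρ ≠ 0 := by
  obtain ⟨ρ, hρ, hz⟩ := h.conv h'
  refine ⟨ρ, hρ, fun h0 => ?_⟩
  rw [h0, LinearMap.comp_zero] at hz
  have hLC : IsStrand D (m + l) (Conv D l L C) := by
    rw [Nat.add_comm]
    exact Conv.isStrand hL hA.strandC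
  have hCL : IsStrand D (m + l) (Conv D m C L) := Conv.isStrand hA.strandC hL
  have key : ∀ x ∈ LinearMap.range r, ∀ v : L, Conv.assoc D n m N C L
      (Conv.mk D (n + m) (Conv D n N C) L x v) ∈ Conv.subR n N (LinearMap.ker r') := by
    rintro _ ⟨x, rfl⟩ v
    rw [← Conv.ker_map_right hb hN hCL hLC r']
    have h1 := LinearMap.congr_fun hz (Conv.assoc D m n C N L
      (Conv.mk D (m + n) (Conv D m C N) L x v))
    simp only [LinearMap.comp_apply, LinearEquiv.coe_coe, LinearEquiv.symm_apply_apply,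
      Conv.map_mk, LinearMap.id_apply, LinearMap.zero_apply] at h1
    exact h1.symm
  obtain ⟨P, h1, h2⟩ := Conv.K0 hb hN hA.strandC hL (LinearMap.range r) (LinearMap.ker r') key
  rcases eq_bot_or_eq_top P with hP | hP
  · rw [hP, Conv.subR_bot] at h1
    exact hr (LinearMap.range_eq_bot.1 (eq_bot_iff.2 h1))
  · rw [hP, Conv.subL_top] at h2
    exact hr' (LinearMap.ker_eq_top.1 (eq_top_iff.2 h2))

omit [Module K N] [IsScalarTower K (KLRAlg D) N] [Module K N'] [IsScalarTower K (KLRAlg D) N'] in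
theorem IsStrand.prod (hN : IsStrand D n N) (hN' : IsStrand D n N') : IsStrand D n (N × N') where
  one k hk u := Prod.ext (hN.one k hk u.1) (hN'.one k hk u.2)
  zero k hk i u := Prod.ext (hN.zero k hk i u.1) (hN'.zero k hk i u.2)

/-- K4: `C ∘ N` and `C ∘ N'` can have isomorphic heads only if `N ≅ N'` -/
theorem equiv_of_map (hb : S_basis D) (hsimp : IsSimpleModule (KLRAlg D) N)
    (hsimp' : IsSimpleModule (KLRAlg D) N') (hsc : Scal hA s₀) {hN' : IsStrand D n N'}
    {r' : Conv D m C N' →ₗ[KLRAlg D] Conv D n N' C}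
    (h : Lead hA hN s r) (h' : Lead hA hN' s r') (hr : r ≠ 0) (hr' : r' ≠ 0)
    (g : Conv D m C N →ₗ[KLRAlg D] Conv D n N' C) (hg : g ≠ 0) :
    Nonempty (N ≃ₗ[KLRAlg D] N') := by
  obtain ⟨lam, hlam, hsc⟩ := hsc
  obtain ⟨ρ, hρ, hρz⟩ := hsc.lead_CN h
  obtain ⟨ρ', hρ', hρz'⟩ := hsc.lead_NC h'
  rw [Nat.add_comm s s₀] at hρ'
  have hnat := Lead.natural' hb (Nat.add_comm m n) hρ hρ' g
  have star : ∀ (a : C) (y : Conv D m C N),
      Conv.map (Nat.add_comm m n) g (LinearMap.id : C →ₗ[KLRAlg D] C)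
        ((Conv.assoc D m n C N C).symm (Conv.mk D m C (Conv D n N C) a (r y))) =
      Conv.map (Nat.add_comm m n) r' (LinearMap.id : C →ₗ[KLRAlg D] C)
        ((Conv.assoc D m n C N' C).symm (Conv.mk D m C (Conv D n N' C) a (g y))) := by
    intro a y
    have h1 := LinearMap.congr_fun hnat (Conv.mk D m C (Conv D m C N) a y)
    have h2 := hρz (Conv.mk D m C (Conv D m C N) a y)
    rw [Conv.map_mk, LinearMap.id_apply] at h2
    have h3 : ρ (Conv.mk D m C (Conv D m C N) a y) = lam • (Conv.assoc D m n C N C).symm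
        (Conv.mk D m C (Conv D n N C) a (r y)) := by
      apply (Conv.assoc D m n C N C).injective
      rw [h2, ← algebraMap_smul (KLRAlg D) lam, ← algebraMap_smul (KLRAlg D) lam, map_smul,
        LinearEquiv.apply_symm_apply]
    rw [LinearMap.comp_apply, LinearMap.comp_apply, h3, Conv.map_mk, LinearMap.id_apply, hρz',
      ← algebraMap_smul (KLRAlg D) lam, map_smul, algebraMap_smul] at h1
    have h4 := congrArg (fun z => lam⁻¹ • z) h1
    simpa only [smul_smul, inv_mul_cancel₀ hlam, one_smul] using h4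
  have hP : IsStrand D n (N × N') := IsStrand.prod hN hN'
  let fs : (N × N') →ₗ[KLRAlg D] N := LinearMap.fst (KLRAlg D) N N'
  let sn : (N × N') →ₗ[KLRAlg D] N' := LinearMap.snd (KLRAlg D) N N'
  let il : N →ₗ[KLRAlg D] (N × N') := LinearMap.inl (KLRAlg D) N N'
  let ir : N' →ₗ[KLRAlg D] (N × N') := LinearMap.inr (KLRAlg D) N N'
  let δ : Conv D m C (N × N') →ₗ[KLRAlg D] Conv D n N' C :=
    g ∘ₗ (Conv.map (rfl : m = m) (LinearMap.id : C →ₗ[KLRAlg D] C) fs) -
      r' ∘ₗ (Conv.map (rfl : m = m) (LinearMap.id : C →ₗ[KLRAlg D] C) sn)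
  let γ : Conv D m C N →ₗ[KLRAlg D] Conv D n (N × N') C :=
    (Conv.map (rfl : n = n) il (LinearMap.id : C →ₗ[KLRAlg D] C)) ∘ₗ r +
      (Conv.map (rfl : n = n) ir (LinearMap.id : C →ₗ[KLRAlg D] C)) ∘ₗ g
  have hγ1 : ∀ y, Conv.map (rfl : n = n) fs (LinearMap.id : C →ₗ[KLRAlg D] C) (γ y) = r y := by
    intro y
    have e1 : fs ∘ₗ il = LinearMap.id := rfl
    have e2 : fs ∘ₗ ir = 0 := rfl
    have e3 : Conv.map (rfl : n = n) (0 : N' →ₗ[KLRAlg D] N)
        (LinearMap.id : C →ₗ[KLRAlg D] C) = 0 := by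
      apply Conv.hom_ext
      intro u v
      simp
    simp only [γ, LinearMap.add_apply, LinearMap.comp_apply, map_add, Conv.map_map, e1, e2,
      LinearMap.comp_id, e3, Conv.map_id, LinearMap.id_apply, LinearMap.zero_apply, add_zero]
  have hγ2 : ∀ y, Conv.map (rfl : n = n) sn (LinearMap.id : C →ₗ[KLRAlg D] C) (γ y) = g y := by
    intro y
    have e1 : sn ∘ₗ ir = LinearMap.id := rfl
    have e2 : sn ∘ₗ il = 0 := rfl
    have e3 : Conv.map (rfl : n = n) (0 : N →ₗ[KLRAlg D] N')
        (LinearMap.id : C →ₗ[KLRAlg D] C) = 0 := by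
      apply Conv.hom_ext
      intro u v
      simp
    simp only [γ, LinearMap.add_apply, LinearMap.comp_apply, map_add, Conv.map_map, e1, e2,
      LinearMap.comp_id, e3, Conv.map_id, LinearMap.id_apply, LinearMap.zero_apply, zero_add]
  have hδ : ∀ z : Conv D (m + n) (Conv D m C (N × N')) C,
      Conv.map (Nat.add_comm m n) δ (LinearMap.id : C →ₗ[KLRAlg D] C) z =
      Conv.map (Nat.add_comm m n) g (LinearMap.id : C →ₗ[KLRAlg D] C)
        (Conv.map (rfl : m + n = m + n) (Conv.map (rfl : m = m)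
          (LinearMap.id : C →ₗ[KLRAlg D] C) fs) (LinearMap.id : C →ₗ[KLRAlg D] C) z) -
      Conv.map (Nat.add_comm m n) r' (LinearMap.id : C →ₗ[KLRAlg D] C)
        (Conv.map (rfl : m + n = m + n) (Conv.map (rfl : m = m)
          (LinearMap.id : C →ₗ[KLRAlg D] C) sn) (LinearMap.id : C →ₗ[KLRAlg D] C) z) := by
    intro z
    have h1 : Conv.map (Nat.add_comm m n) δ (LinearMap.id : C →ₗ[KLRAlg D] C) =
      (Conv.map (Nat.add_comm m n) g (LinearMap.id : C →ₗ[KLRAlg D] C)) ∘ₗ
        (Conv.map (rfl : m + n = m + n) (Conv.map (rfl : m = m)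
          (LinearMap.id : C →ₗ[KLRAlg D] C) fs) (LinearMap.id : C →ₗ[KLRAlg D] C)) -
      (Conv.map (Nat.add_comm m n) r' (LinearMap.id : C →ₗ[KLRAlg D] C)) ∘ₗ
        (Conv.map (rfl : m + n = m + n) (Conv.map (rfl : m = m)
          (LinearMap.id : C →ₗ[KLRAlg D] C) sn) (LinearMap.id : C →ₗ[KLRAlg D] C)) := by
      apply Conv.hom_ext
      intro u v
      simp [δ]
    exact LinearMap.congr_fun h1 z
  have key : ∀ a : C, ∀ y' ∈ LinearMap.range γ, (Conv.assoc D m n C (N × N') C).symm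
      (Conv.mk D m C (Conv D n (N × N') C) a y') ∈
        Conv.subL (m + n) (LinearMap.ker δ) C := by
    rintro a _ ⟨y, rfl⟩
    rw [← Conv.ker_map_left' hb (Nat.add_comm m n) hA.strandC (Conv.isStrand hA.strandC hP)
      (Conv.isStrand hN' hA.strandC) δ, LinearMap.mem_ker, hδ]
    have n1 := LinearMap.congr_fun (Conv.assoc_symm_map (D := D) (m := m) (n := n)
      (LinearMap.id : C →ₗ[KLRAlg D] C) fs (LinearMap.id : C →ₗ[KLRAlg D] C))
      (Conv.mk D m C (Conv D n (N × N') C) a (γ y))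
    have n2 := LinearMap.congr_fun (Conv.assoc_symm_map (D := D) (m := m) (n := n)
      (LinearMap.id : C →ₗ[KLRAlg D] C) sn (LinearMap.id : C →ₗ[KLRAlg D] C))
      (Conv.mk D m C (Conv D n (N × N') C) a (γ y))
    simp only [LinearMap.comp_apply, LinearEquiv.coe_coe, Conv.map_mk, LinearMap.id_apply] at n1 n2
    rw [← n1, ← n2, hγ1, hγ2, star, sub_self]
  obtain ⟨P, h1, h2⟩ := Conv.K0' hb hA.strandC hP hA.strandC (LinearMap.ker δ)
    (LinearMap.range γ) key
  have hPe : ∀ x ∈ P, ∀ a : C, g (Conv.mk D m C N a x.1) = r' (Conv.mk D m C N' a x.2) := by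
    intro x hx a
    have h3 := h2 (Conv.mk_mem_subR (m := m) a hx)
    have h4 : g (Conv.mk D m C N a x.1) - r' (Conv.mk D m C N' a x.2) = 0 := by
      have h5 : δ (Conv.mk D m C (N × N') a x) = 0 := h3
      simpa [δ, fs, sn] using h5
    exact sub_eq_zero.1 h4
  have hPne : P ≠ ⊥ := by
    intro h0
    rw [h0, Conv.subL_bot] at h1
    apply hr
    ext y
    rw [← hγ1 y]
    have h3 : γ y ∈ (⊥ : Submodule (KLRAlg D) (Conv D n (N × N') C)) := h1 ⟨y, rfl⟩
    rw [(Submodule.mem_bot _).1 h3, map_zero, LinearMap.zero_apply]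
  have i1 : Function.Injective (fs ∘ₗ P.subtype) := by
    rw [← LinearMap.ker_eq_bot, eq_bot_iff]
    rintro ⟨⟨x, x'⟩, hx⟩ h3
    have h4 : x = 0 := h3
    subst h4
    rcases eq_bot_or_eq_top (P.comap ir) with h5 | h5
    · have h6 : x' ∈ P.comap ir := hx
      rw [h5, Submodule.mem_bot] at h6
      rw [Submodule.mem_bot]
      apply Subtype.ext
      exact Prod.ext rfl h6
    · exfalso
      apply hr'
      apply Conv.hom_ext
      intro a v
      have h6 : v ∈ P.comap ir := by rw [h5]; exact Submodule.mem_top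
      have h7 := hPe _ h6 a
      have h8 : g (Conv.mk D m C N a (0 : N)) = 0 := by rw [map_zero, map_zero]
      rw [LinearMap.zero_apply]
      exact h7.symm.trans h8
  have i2 : Function.Injective (sn ∘ₗ P.subtype) := by
    rw [← LinearMap.ker_eq_bot, eq_bot_iff]
    rintro ⟨⟨x, x'⟩, hx⟩ h3
    have h4 : x' = 0 := h3
    subst h4
    rcases eq_bot_or_eq_top (P.comap il) with h5 | h5
    · have h6 : x ∈ P.comap il := hx
      rw [h5, Submodule.mem_bot] at h6
      rw [Submodule.mem_bot]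
      apply Subtype.ext
      exact Prod.ext h6 rfl
    · exfalso
      apply hg
      apply Conv.hom_ext
      intro a v
      have h6 : v ∈ P.comap il := by rw [h5]; exact Submodule.mem_top
      have h7 := hPe _ h6 a
      have h8 : r' (Conv.mk D m C N' a (0 : N')) = 0 := by rw [map_zero, map_zero]
      rw [LinearMap.zero_apply]
      exact h7.trans h8
  have s1 : Function.Surjective (fs ∘ₗ P.subtype) := by
    rw [← LinearMap.range_eq_top]
    rcases eq_bot_or_eq_top (LinearMap.range (fs ∘ₗ P.subtype)) with h5 | h5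
    · exfalso
      apply hPne
      rw [eq_bot_iff]
      intro x hx
      have h6 : (fs ∘ₗ P.subtype) ⟨x, hx⟩ = 0 := by
        rw [LinearMap.range_eq_bot.1 h5, LinearMap.zero_apply]
      have h7 := i1 (h6.trans (map_zero _).symm)
      exact (Submodule.mem_bot _).2 (congrArg Subtype.val h7)
    · exact h5
  have s2 : Function.Surjective (sn ∘ₗ P.subtype) := by
    rw [← LinearMap.range_eq_top]
    rcases eq_bot_or_eq_top (LinearMap.range (sn ∘ₗ P.subtype)) with h5 | h5
    · exfalso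
      apply hPne
      rw [eq_bot_iff]
      intro x hx
      have h6 : (sn ∘ₗ P.subtype) ⟨x, hx⟩ = 0 := by
        rw [LinearMap.range_eq_bot.1 h5, LinearMap.zero_apply]
      have h7 := i2 (h6.trans (map_zero _).symm)
      exact (Submodule.mem_bot _).2 (congrArg Subtype.val h7)
    · exact h5
  exact ⟨(LinearEquiv.ofBijective _ ⟨i1, s1⟩).symm.trans (LinearEquiv.ofBijective _ ⟨i2, s2⟩)⟩

end

end

end Pool.Agent.KLS

end

section

/-! MP_e487d8_al, RMAT block: common eigenvectors, the square of the R-matrix on them. -/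

set_option autoImplicit false

namespace Pool.Agent.KLS

variable {K I : Type} [Field K] [Fintype I] [DecidableEq I] {D : Datum K I}

section eig

variable {n : ℕ} {M : Type} [AddCommGroup M] [Module K M] [Module (KLRAlg D) M]
  [IsScalarTower K (KLRAlg D) M]

/-- `u` is a nonzero vector in the word space of `ν`, killed by all dots -/
structure Eig (D : Datum K I) {M : Type} [AddCommGroup M] [Module (KLRAlg D) M] (ν : List I)
    (u : M) : Prop where
  ne : u ≠ 0
  word : D.eW ν • u = u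
  dot : ∀ k, D.x k • u = 0

omit [Module K M] [IsScalarTower K (KLRAlg D) M] in
theorem FdMod.exists_eig_aux (hM : Nilp D M) {ν : List I} {u₀ : M} (h : D.eW ν • u₀ ≠ 0) (N : ℕ) :
    ∃ u : M, u ≠ 0 ∧ D.eW ν • u = u ∧ ∀ k < N, D.x k • u = 0 := by
  induction N with
  | zero =>
    exact ⟨D.eW ν • u₀, h, by rw [← mul_smul, D.eW_idem], fun k hk => absurd hk (Nat.not_lt_zero k)⟩
  | succ N ih =>
    obtain ⟨u, hu, hw, hx⟩ := ih
    obtain ⟨p, hp⟩ := hM N
    classical
    have hex : ∃ p, D.x N ^ p • u = 0 := ⟨p, hp u⟩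
    have h1 := Nat.find_spec hex
    have h2 : Nat.find hex ≠ 0 := by
      intro h3
      rw [h3, pow_zero, one_smul] at h1
      exact hu h1
    obtain ⟨r, hr⟩ := Nat.exists_eq_succ_of_ne_zero h2
    rw [hr] at h1
    have h3 : D.x N ^ r • u ≠ 0 := Nat.find_min hex (by omega)
    have hc : ∀ a : KLRAlg D, Commute (D.x N) a → a • D.x N ^ r • u = D.x N ^ r • a • u := by
      intro a ha
      rw [← mul_smul, ← mul_smul, (ha.pow_left r).eq]
    refine ⟨D.x N ^ r • u, h3, ?_, ?_⟩
    · rw [hc _ (D.x_eW N ν), hw]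
    · intro k hk
      rcases Nat.lt_succ_iff_lt_or_eq.1 hk with hk | rfl
      · rw [hc _ (D.x_comm N k), hx k hk, smul_zero]
      · rw [← mul_smul, ← pow_succ']
        exact h1

/-- a common eigenvector in a given word space -/
theorem FdMod.exists_eig (hM : FdMod D n M) {ν : List I} (h : chr D n M ν ≠ 0) :
    ∃ u : M, Eig D ν u := by
  have := hM.fd
  obtain ⟨u₀, hu₀⟩ := (chr_ne_zero_iff (chr_length h)).1 h
  obtain ⟨u, h1, h2, h3⟩ := FdMod.exists_eig_aux hM.nilp hu₀ n
  refine ⟨u, h1, h2, fun k => ?_⟩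
  by_cases hk : k < n
  · exact h3 k hk
  · exact hM.strand.x_smul_zero (by omega) u

end eig

/-! ### the products `QP` on eigenvectors -/

/-- the degree of `QQ` -/
def Datum.qq (D : Datum K I) (i j : I) : ℕ := if i = j then 0 else D.nq i j

/-- the degree of `QP` -/
def Datum.qL (D : Datum K I) (ν μ : List I) : ℕ :=
  (μ.map fun j => (ν.map fun i => D.qq i j).sum).sum

theorem Datum.qL_cons (D : Datum K I) (ν μ : List I) (j : I) :
    D.qL ν (j :: μ) = (ν.map fun i => D.qq i j).sum + D.qL ν μ := by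
  rw [Datum.qL, List.map_cons, List.sum_cons]
  rfl

theorem sum_map_eq_count (f : I → ℕ) (ν : List I) :
    (ν.map f).sum = ∑ i, ν.count i * f i := by
  induction ν with
  | nil => simp
  | cons a ν ih =>
    rw [List.map_cons, List.sum_cons, ih]
    have h : ∀ i, (a :: ν).count i * f i = ν.count i * f i + if i = a then f i else 0 := by
      intro i
      by_cases h : i = a
      · subst h
        rw [List.count_cons_self, if_pos rfl, add_mul, one_mul]
      · rw [List.count_cons_of_ne (fun h' => h h'.symm), if_neg h, add_zero]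
    rw [Finset.sum_congr rfl fun i _ => h i, Finset.sum_add_distrib, Finset.sum_ite_eq' _ a,
      if_pos (Finset.mem_univ a), add_comm]

theorem Datum.qL_eq (D : Datum K I) (ν μ : List I) :
    D.qL ν μ = ∑ i, ∑ j, if i = j then 0 else D.nq i j * ν.count i * μ.count j := by
  rw [Datum.qL, sum_map_eq_count, Finset.sum_comm]
  refine Finset.sum_congr rfl fun j _ => ?_
  rw [sum_map_eq_count, Finset.mul_sum]
  refine Finset.sum_congr rfl fun i _ => ?_
  rw [Datum.qq]
  split_ifs with h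
  · rw [mul_zero, mul_zero]
  · ring

section vec

variable {P : Type} [AddCommGroup P] [Module K P] [Module (KLRAlg D) P]
  [IsScalarTower K (KLRAlg D) P]

omit [Module K P] [IsScalarTower K (KLRAlg D) P] in
theorem pow_apply_smul (Z : P →ₗ[KLRAlg D] P) (s : ℕ) (a : KLRAlg D) (v : P) :
    a • (Z ^ s) v = (Z ^ s) (a • v) := (map_smul _ _ _).symm

theorem QQ_vec (Z : P →ₗ[KLRAlg D] P) {v : P} {k l : ℕ} {i j : I} (hi : Col D k i v)
    (hj : Col D l j v) (hx : D.x k • v = Z v) (hl : D.x l • v = 0) :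
    ∃ c : K, c ≠ 0 ∧ D.QQ k l • v = c • (Z ^ D.qq i j) v := by
  by_cases hij : i = j
  · subst hij
    refine ⟨1, one_ne_zero, ?_⟩
    rw [QQ_eq hi hj, Datum.qq, if_pos rfl, pow_zero, one_smul]
    rfl
  · refine ⟨D.Q i j (D.nq i j) 0, D.Q_lead i j hij, ?_⟩
    rw [QQ_ne hi hj hij, Datum.qq, if_neg hij]
    have hk : ∀ p : ℕ, D.x k ^ p • v = (Z ^ p) v := by
      intro p
      induction p with
      | zero => rw [pow_zero, pow_zero, one_smul]; rfl
      | succ p ih =>
        have h1 : D.x k • (Z ^ p) v = (Z ^ p) (Z v) := by rw [pow_apply_smul, hx]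
        rw [pow_succ', mul_smul, ih, h1, pow_succ]
        rfl
    have hl' : ∀ q : ℕ, q ≠ 0 → D.x l ^ q • v = 0 := by
      intro q hq
      obtain ⟨r, rfl⟩ := Nat.exists_eq_succ_of_ne_zero hq
      rw [pow_succ, mul_smul, hl, smul_zero]
    unfold Datum.QE
    rw [Finset.sum_smul, Finset.sum_eq_single (D.nq i j)]
    · rw [Finset.sum_smul, Finset.sum_eq_single 0]
      · rw [pow_zero, mul_one, smul_assoc, hk]
      · intro q _ hq
        rw [smul_assoc, mul_smul, hl' q hq, smul_zero, smul_zero]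
      · intro h
        exact absurd (Finset.mem_range.2 (Nat.succ_pos _)) h
    · intro p _ hp
      rw [Finset.sum_smul]
      refine Finset.sum_eq_zero fun q _ => ?_
      by_cases hq : q = 0
      · subst hq
        have h0 : D.Q i j p 0 = 0 := by
          by_contra hne
          apply hp
          have h1 := D.Q_hom i j p 0 hij hne
          have h2 := D.nonpos i j hij
          have h3 : (0 : ℤ) < D.d i := by exact_mod_cast D.d_pos i
          have h4 : (D.d i : ℤ) * p = D.d i * (- D.A i j) := by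
            push_cast at h1
            linarith
          have h5 : (p : ℤ) = - D.A i j := mul_left_cancel₀ h3.ne' h4
          unfold Datum.nq
          omega
        rw [h0, zero_smul, zero_smul]
      · rw [smul_assoc, mul_smul, hl' q hq, smul_zero, smul_zero]
    · intro h
      exact absurd (Finset.mem_range.2 (Nat.lt_succ_self _)) h

theorem QP1_vec (Z : P →ₗ[KLRAlg D] P) {v : P} {l : ℕ} {j : I} (hj : Col D l j v)
    (hl : D.x l • v = 0) (ν : List I) (hν : D.eW ν • v = v)
    (hx : ∀ k < ν.length, D.x k • v = Z v) :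
    ∃ c : K, c ≠ 0 ∧ D.QP1 l ν.length • v = c • (Z ^ (ν.map fun i => D.qq i j).sum) v := by
  induction ν using List.reverseRecOn with
  | nil =>
    refine ⟨1, one_ne_zero, ?_⟩
    rw [List.length_nil, Datum.QP1, List.map_nil, List.sum_nil, pow_zero, one_smul, one_smul]
    rfl
  | append_singleton ν i ih =>
    rw [D.eW_snoc] at hν
    have h1 : Col D ν.length i v := by
      rw [Col]
      conv_lhs => rw [← hν]
      rw [← mul_smul, ← mul_assoc, D.e_eW, mul_assoc, D.e_idem]
      exact hν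
    have h2 : D.eW ν • v = v := by
      conv_lhs => rw [← hν]
      rw [← mul_smul, ← mul_assoc, D.eW_idem]
      exact hν
    have hlen : (ν ++ [i]).length = ν.length + 1 := by
      rw [List.length_append]; rfl
    rw [hlen] at hx ⊢
    obtain ⟨c, hc, h3⟩ := ih h2 (fun k hk => hx k (by omega))
    obtain ⟨c', hc', h4⟩ := QQ_vec Z h1 hj (hx ν.length (by omega)) hl
    refine ⟨c * c', mul_ne_zero hc hc', ?_⟩
    rw [Datum.QP1, mul_smul, h3, smul_comm, pow_apply_smul, h4, ← algebraMap_smul (KLRAlg D) c',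
      map_smul, algebraMap_smul, smul_smul, List.map_append, List.sum_append, List.map_singleton,
      List.sum_singleton, pow_add]
    rfl

theorem QP_vec (Z : P →ₗ[KLRAlg D] P) {v : P} (ν : List I) (hν : D.eW ν • v = v)
    (hx : ∀ k < ν.length, D.x k • v = Z v) (μ : List I) (p : ℕ)
    (hμ : D.shn p (D.eW μ) • v = v) (hl : ∀ l, p ≤ l → D.x l • v = 0) :
    ∃ c : K, c ≠ 0 ∧ D.QP ν.length p μ.length • v = c • (Z ^ D.qL ν μ) v := by
  induction μ generalizing p with
  | nil =>
    refine ⟨1, one_ne_zero, ?_⟩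
    rw [List.length_nil, Datum.QP, Datum.qL, List.map_nil, List.sum_nil, pow_zero, one_smul,
      one_smul]
    rfl
  | cons j μ ih =>
    rw [D.eW_cons, map_mul, D.shn_e, add_zero, D.shn_shn] at hμ
    have h1 : Col D p j v := by
      rw [Col]
      conv_lhs => rw [← hμ]
      rw [← mul_smul, ← mul_assoc, D.e_idem]
      exact hμ
    have hcm : D.e p j * D.shn (p + 1) (D.eW μ) = D.shn (p + 1) (D.eW μ) * D.e p j := by
      have h := D.tr_mul_shn (le_refl (p + 1)) (D.e p j) (D.eW μ)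
      rwa [D.tr_e, if_pos (Nat.lt_succ_self p)] at h
    have h2 : D.shn (p + 1) (D.eW μ) • v = v := by
      rw [hcm] at hμ
      conv_lhs => rw [← hμ]
      rw [← mul_smul, ← mul_assoc, ← map_mul, D.eW_idem]
      exact hμ
    obtain ⟨c, hc, h3⟩ := ih (p + 1) h2 (fun l hl' => hl l (by omega))
    obtain ⟨c', hc', h4⟩ := QP1_vec Z h1 (hl p le_rfl) ν hν hx
    refine ⟨c * c', mul_ne_zero hc hc', ?_⟩
    rw [List.length_cons, Datum.QP, mul_smul, h3, smul_comm, pow_apply_smul, h4,
      ← algebraMap_smul (KLRAlg D) c', map_smul, algebraMap_smul, smul_smul, D.qL_cons,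
      add_comm, pow_add]
    rfl

end vec

/-- `dd` by words -/
theorem SMod.dd_eq (C X : SMod D) {ν μ : List I} (h : C.ch ν ≠ 0) (h' : X.ch μ ≠ 0) :
    SMod.dd C X = D.qL ν μ := by
  rw [Datum.qL_eq, SMod.dd]
  refine Finset.sum_congr rfl fun i _ => Finset.sum_congr rfl fun j _ => ?_
  rw [C.count_eq_wt h, X.count_eq_wt h']

end Pool.Agent.KLS

end
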