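import Pool.Agent.Work.MP_e487d8_al.Y.Mo.R1.Ord
import Pool.Agent.Work.MP_e487d8_al.Bd.B15
import Pool.Agent.Work.MP_e487d8_al.Y.Fin.JH
import Pool.Agent.Work.MP_e487d8_al.Y.Cry.Facts

/-! Bundle of small proof modules (one section per former module). -/

section

/-! MP_e487d8_al, RMAT block: the R-matrix of the one dimensional module `L(i)`. -/

set_option autoImplicit false

open scoped TensorProduct

namespace Pool.Agent.KLS

variable {K I : Type} [Field K] [Fintype I] [DecidableEq I] {D : Datum K I}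

/-! ### simple modules with one strand -/

/-- `C` has one strand of colour `i`, the dot acts by zero -/
structure OneM (D : Datum K I) (i : I) (C : SMod D) : Prop where
  n : C.n = 1
  e : ∀ u : C.M, D.e 0 i • u = u
  x : ∀ u : C.M, D.x 0 • u = 0

theorem OneM.of_ch {i : I} {C : SMod D} (h : C.ch [i] ≠ 0) : OneM D i C := by
  have hn : C.n = 1 := (C.ch_length h).symm
  have hst := C.smp.strand
  rw [hn] at hst
  have he0 : ∀ j, j ≠ i → ∀ u : C.M, D.e 0 j • u = 0 := by
    intro j hj u
    by_contra hu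
    have h1 : C.ch [j] ≠ 0 := by
      refine (chr_ne_zero_iff (by rw [hn]; rfl)).2 ⟨u, ?_⟩
      rw [D.eW_cons, D.eW_nil, map_one, mul_one]
      exact hu
    have h2 := C.ch_perm h1 h
    rw [List.singleton_perm_singleton] at h2
    exact hj h2
  refine ⟨hn, fun u => ?_, ?_⟩
  · have h1 := hst.one 0 (by norm_num) u
    unfold Datum.E at h1
    rw [Finset.sum_smul, Finset.sum_eq_single i (fun j _ hj => he0 j hj u)
      (fun h => absurd (Finset.mem_univ i) h)] at h1
    exact h1
  · -- the kernel of the dot is a submodule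
    have key : ∀ (a : KLRAlg D) (u : C.M), D.x 0 • u = 0 → D.x 0 • a • u = 0 := by
      intro a
      induction a using KLRAlg.induction with
      | hs r => intro u hu; rw [algebraMap_smul, smul_comm, hu, smul_zero]
      | hadd a b ha hb => intro u hu; rw [add_smul, smul_add, ha u hu, hb u hu, add_zero]
      | hmul a b ha hb => intro u hu; rw [mul_smul]; exact ha _ (hb u hu)
      | he k j => intro u hu; rw [← mul_smul, D.x_e, mul_smul, hu, smul_zero]
      | hx k => intro u hu; rw [← mul_smul, D.x_comm, mul_smul, hu, smul_zero]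
      | ht k => intro u hu; rw [hst.t_smul_zero (by omega), smul_zero]
    let P : Submodule (KLRAlg D) C.M :=
      { carrier := {u | D.x 0 • u = 0}
        add_mem' := by
          intro a b ha hb
          rw [Set.mem_ofPred_eq] at ha hb ⊢
          rw [smul_add, ha, hb, add_zero]
        zero_mem' := smul_zero _
        smul_mem' := fun a u hu => key a u hu }
    have hs := C.smp.simple
    have hP : P = ⊤ := by
      rcases eq_bot_or_eq_top P with h1 | h1
      · exfalso
        obtain ⟨u, hu⟩ := C.smp.exists_eig h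
        have h2 : u ∈ P := hu.dot 0
        rw [h1, Submodule.mem_bot] at h2
        exact hu.ne h2
      · exact h1
    intro u
    have h1 : u ∈ P := by rw [hP]; trivial
    exact h1

namespace OneM

variable {i : I} {C : SMod D} (h : OneM D i C)

include h

theorem strand : IsStrand D 1 C.M := by
  rw [← h.n]
  exact C.smp.strand

theorem scalar (a : KLRAlg D) : ∃ c : K, ∀ u : C.M, a • u = c • u := by
  induction a using KLRAlg.induction with
  | hs r => exact ⟨r, fun u => algebraMap_smul _ _ _⟩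
  | hadd a b ha hb =>
    obtain ⟨c, hc⟩ := ha
    obtain ⟨d, hd⟩ := hb
    exact ⟨c + d, fun u => by rw [add_smul, add_smul, hc, hd]⟩
  | hmul a b ha hb =>
    obtain ⟨c, hc⟩ := ha
    obtain ⟨d, hd⟩ := hb
    exact ⟨c * d, fun u => by rw [mul_smul, mul_smul, hd, hc]⟩
  | he k j =>
    rcases Nat.eq_zero_or_pos k with hk | hk
    · subst hk
      by_cases hj : j = i
      · subst hj
        exact ⟨1, fun u => by rw [h.e, one_smul]⟩
      · refine ⟨0, fun u => ?_⟩
        rw [← h.e u, ← mul_smul, D.e_mul_e_ne 0 hj, zero_smul, zero_smul]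
    · exact ⟨0, fun u => by rw [h.strand.zero k (by omega), zero_smul]⟩
  | hx k =>
    rcases Nat.eq_zero_or_pos k with hk | hk
    · subst hk
      exact ⟨0, fun u => by rw [h.x, zero_smul]⟩
    · exact ⟨0, fun u => by rw [h.strand.x_smul_zero (by omega), zero_smul]⟩
  | ht k => exact ⟨0, fun u => by rw [h.strand.t_smul_zero (by omega), zero_smul]⟩

theorem prop {u : C.M} (hu : u ≠ 0) (v : C.M) : ∃ c : K, v = c • u := by
  have := C.smp.simple
  obtain ⟨a, ha⟩ := IsSimpleModule.toSpanSingleton_surjective (KLRAlg D) hu v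
  obtain ⟨c, hc⟩ := h.scalar a
  refine ⟨c, ?_⟩
  rw [← ha]
  exact hc u

theorem mk_symm (u v : C.M) :
    Conv.mk D C.n C.M C.M u v = Conv.mk D C.n C.M C.M v u := by
  by_cases hu : u = 0
  · rw [hu, map_zero, map_zero, LinearMap.zero_apply]
  · obtain ⟨c, rfl⟩ := h.prop hu v
    rw [map_smul, map_smul, LinearMap.smul_apply]

omit h in
theorem fact (h : OneM D i C) : Fact (C.n = 1) := ⟨h.n⟩

variable [Fact (C.n = 1)]

theorem aff_e (w : Aff D C.M) : D.e 0 i • w = w := by
  induction w using Aff.ind with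
  | h0 => rw [smul_zero]
  | hs d u => rw [Aff.e_sg, h.e]
  | ha v w hv hw => rw [smul_add, hv, hw]

theorem aff_x (w : Aff D C.M) : D.x 0 • w = Aff.Z D C.M w := by
  induction w using Aff.ind with
  | h0 => rw [smul_zero, map_zero]
  | hs d u => rw [Aff.x_sg, h.x, map_zero, zero_add, h.strand.one 0 (by norm_num), Aff.Z_sg]
  | ha v w hv hw => rw [smul_add, map_add, hv, hw]

omit [Fact (C.n = 1)] in
theorem Ph_eq (n : ℕ) : D.Ph n C.n = D.Cp n := by
  rw [h.n, D.Ph_succ, D.Ph_zero, map_one, one_mul]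

/-- the R-matrix of `L(i)` with itself -/
theorem lead_self : Lead (Aff.isAff C.smp.strand) C.smp.strand 0 LinearMap.id := by
  refine ⟨Conv.Rm (Aff.isStrand C.smp.strand) C.smp.strand, ?_, ?_⟩
  · rw [pow_zero]
    rfl
  · apply Conv.hom_ext
    intro w u
    rw [LinearMap.comp_apply, LinearMap.comp_apply, LinearMap.id_apply, Conv.map_mk, Conv.Rm_mk,
      h.Ph_eq]
    have hCp : D.Cp C.n = D.phi 0 := by rw [h.n, D.Cp_succ, D.Cp_zero, one_mul]
    have h0 : Col D 0 i (Conv.mk D C.n C.M (Aff D C.M) u w) := by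
      have h1 : D.tr C.n (D.e 0 i) = D.e 0 i := by rw [D.tr_e, if_pos (by rw [h.n]; norm_num)]
      rw [Col, ← h1, Conv.tr_smul_mk, h.e]
    have hn1 : D.shn C.n (D.e 0 i) = D.e 1 i := by rw [D.shn_e, h.n]
    have hn2 : D.shn C.n (D.x 0) = D.x 1 := by rw [D.shn_x, h.n]
    have h1 : Col D (0 + 1) i (Conv.mk D C.n C.M (Aff D C.M) u w) := by
      rw [Col, zero_add, ← hn1, Conv.shn_smul_mk, h.aff_e]
    have h2 : D.x 0 • Conv.mk D C.n C.M (Aff D C.M) u w = 0 := by
      have h1 : D.tr C.n (D.x 0) = D.x 0 := by rw [D.tr_x, if_pos (by rw [h.n]; norm_num)]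
      rw [← h1, Conv.tr_smul_mk, h.x, map_zero, LinearMap.zero_apply]
    have h3 : D.x (0 + 1) • Conv.mk D C.n C.M (Aff D C.M) u w =
        Conv.map (rfl : C.n = C.n) (LinearMap.id : C.M →ₗ[KLRAlg D] C.M) (Aff.Z D C.M)
          (Conv.mk D C.n C.M (Aff D C.M) u w) := by
      rw [zero_add, ← hn2, Conv.shn_smul_mk, h.aff_x, Conv.map_mk, LinearMap.id_apply]
    rw [hCp, phi_eq h0 h1, h2, smul_zero, zero_sub, h3, map_add, map_neg, map_smul]
    have h4 : Conv.map (rfl : C.n = C.n) (LinearMap.id : C.M →ₗ[KLRAlg D] C.M) (Aff.P D C.M)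
        (Conv.map (rfl : C.n = C.n) (LinearMap.id : C.M →ₗ[KLRAlg D] C.M) (Aff.Z D C.M)
          (Conv.mk D C.n C.M (Aff D C.M) u w)) = 0 := by
      rw [Conv.map_mk, Conv.map_mk]
      have h5 := (Aff.isAff C.smp.strand).red.apply_eq w
      rw [h5, map_zero]
    rw [h4, smul_zero, neg_zero, zero_add, Conv.map_mk, LinearMap.id_apply, h.mk_symm]

theorem scal : Scal (Aff.isAff C.smp.strand) 0 :=
  ⟨1, one_ne_zero, LinearMap.id, h.lead_self, fun z => (one_smul K z).symm⟩

end OneM

/-! ### the leading coefficient on eigenvectors -/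

section vec

variable {P : Type} [AddCommGroup P] [Module K P] [Module (KLRAlg D) P]
  [IsScalarTower K (KLRAlg D) P]

omit [Module K P] [IsScalarTower K (KLRAlg D) P] in
theorem dn_smul {k n : ℕ} {i j : I} {z : P} (hk : Col D k j z) (hn : Col D n i z) :
    D.dn k n • z = if j = i then z else 0 := by
  unfold Datum.dn
  rw [Finset.sum_smul, Finset.sum_eq_single i]
  · rw [mul_smul, hn]
    split_ifs with h
    · subst h; exact hk
    · exact hk.e_ne (Ne.symm h)
  · intro a _ ha
    rw [mul_smul, hn.e_ne ha, smul_zero]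
  · intro h
    exact absurd (Finset.mem_univ i) h

theorem gg_eig (Z : P →ₗ[KLRAlg D] P) {n : ℕ} {i : I} {z : P} (hi : Col D n i z)
    (hZ : D.x n • z = Z z) (ν : List I) : ∀ k, k + ν.length = n → D.shn k (D.eW ν) • z = z →
    (∀ j, k ≤ j → j < n → D.x j • z = 0) →
    ∃ c : K, c ≠ 0 ∧ D.gg n k ν.length • z = c • (Z ^ ν.count i) z := by
  induction ν with
  | nil =>
    intro k _ _ _
    refine ⟨1, one_ne_zero, ?_⟩
    rw [List.length_nil, D.gg_zero, List.count_nil, pow_zero, one_smul, one_smul]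
    rfl
  | cons j ν ih =>
    intro k hk hw hx
    rw [List.length_cons] at hk
    rw [D.eW_cons, map_mul, D.shn_shn, D.shn_e, add_zero, mul_smul] at hw
    have h1 : Col D k j z := by
      rw [Col]
      conv_lhs => rw [← hw]
      rw [← mul_smul, D.e_idem]
      exact hw
    have h2 : D.shn (k + 1) (D.eW ν) • z = z := by
      have h3 : D.e k j • D.shn (k + 1) (D.eW ν) • z = D.shn (k + 1) (D.eW ν) • D.e k j • z := by
        rw [← mul_smul, ← mul_smul]
        congr 1
        have h4 := D.tr_mul_shn (le_refl (k + 1)) (D.e k j) (D.eW ν)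
        rwa [D.tr_e, if_pos (Nat.lt_succ_self k)] at h4
      rw [h3, h1] at hw
      exact hw
    obtain ⟨c, hc, h3⟩ := ih (k + 1) (by omega) h2 (fun r hr hr' => hx r (by omega) hr')
    have h4 := dn_smul h1 hi
    have h5 : D.gg n k (j :: ν).length • z = c • (Z ^ ν.count i) (D.g1 n k • z) := by
      rw [List.length_cons, D.gg_succ, mul_smul, h3, map_smul, smul_comm]
    have h6 : D.g1 n k • z = if j = i then - Z z else z := by
      unfold Datum.g1
      rw [add_smul, sub_smul, one_smul, mul_smul, sub_smul, h4]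
      by_cases hj : j = i
      · rw [if_pos hj, if_pos hj, sub_self, zero_add, hx k le_rfl (by omega), hZ, zero_sub]
      · rw [if_neg hj, if_neg hj, smul_zero, smul_zero, sub_zero, sub_zero, add_zero]
    rw [h5, h6]
    by_cases hj : j = i
    · subst hj
      refine ⟨-c, neg_ne_zero.2 hc, ?_⟩
      rw [if_pos rfl, map_neg, smul_neg, neg_smul, List.count_cons_self, pow_succ]
      rfl
    · refine ⟨c, hc, ?_⟩
      rw [if_neg hj, List.count_cons_of_ne hj]

end vec

/-! ### the order for modules without words beginning with `i` -/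

theorem Datum.tw_replicate (D : Datum K I) (n : ℕ) : D.tw (List.replicate n false) = 1 := by
  induction n with
  | zero => rfl
  | succ n ih => rw [List.replicate_succ, Datum.tw, ih, map_one]

/-- the longest shuffle of `n` strands with one strand -/
def Shf.top (n : ℕ) : Shf n 1 :=
  ⟨true :: List.replicate n false, by simp [List.count_replicate]⟩

theorem Datum.tw_top (D : Datum K I) (n : ℕ) : D.tw (Shf.top n).1 = D.chain n := by
  show D.tw (true :: List.replicate n false) = D.chain n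
  rw [Datum.tw, D.tw_replicate, map_one, one_mul, List.count_replicate_self]

theorem chain_mk_ne (hb : S_basis D) {n : ℕ} {M N : Type} [AddCommGroup M] [Module K M]
    [Module (KLRAlg D) M] [IsScalarTower K (KLRAlg D) M] [AddCommGroup N] [Module K N]
    [Module (KLRAlg D) N] [IsScalarTower K (KLRAlg D) N] (hM : IsStrand D n M)
    (hN : IsStrand D 1 N) {u : M} {v : N} (hu : u ≠ 0) (hv : v ≠ 0) :
    D.chain n • Conv.mk D n M N u v ≠ 0 := by
  intro h0
  have h1 : convSum D n 1 M N (Finsupp.single (Shf.top n) (u ⊗ₜ v)) = 0 := by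
    rw [convSum_single, D.tw_top, h0]
  have h2 := (hb n 1 M N hM hN).1 (h1.trans (map_zero _).symm)
  rw [Finsupp.single_eq_zero] at h2
  obtain ⟨f, hf⟩ : ∃ f : Module.Dual K M, f u ≠ 0 := by
    by_contra h4
    push Not at h4
    exact hu ((Module.forall_dual_apply_eq_zero_iff K u).1 h4)
  have h5 := congrArg (fun z => TensorProduct.lid K N (f.rTensor N z)) h2
  simp only [LinearMap.rTensor_tmul, TensorProduct.lid_tmul, map_zero] at h5
  exact hv ((smul_eq_zero.1 h5).resolve_left hf)

/-- the space of the vectors `∑ mk u v` -/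
noncomputable def Qsp (D : Datum K I) (n : ℕ) (M N : Type) [AddCommGroup M] [Module K M]
    [Module (KLRAlg D) M] [AddCommGroup N] [Module K N] [Module (KLRAlg D) N] :
    Submodule K (Conv D n M N) := Submodule.span K {y | ∃ u v, y = Conv.mk D n M N u v}

theorem Qsp.flat {n : ℕ} {M N : Type} [AddCommGroup M] [Module K M] [Module (KLRAlg D) M]
    [IsScalarTower K (KLRAlg D) M] [AddCommGroup N] [Module K N] [Module (KLRAlg D) N]
    [IsScalarTower K (KLRAlg D) N] : Flat D n (Qsp D n M N) := by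
  have key : ∀ a : KLRAlg D, (∀ u v, a • Conv.mk D n M N u v ∈ Qsp D n M N) →
      ∀ z ∈ Qsp D n M N, a • z ∈ Qsp D n M N := by
    intro a ha z hz
    induction hz using Submodule.span_induction with
    | mem z hz => obtain ⟨u, v, rfl⟩ := hz; exact ha u v
    | zero => rw [smul_zero]; exact Submodule.zero_mem _
    | add y z _ _ hy hz => rw [smul_add]; exact Submodule.add_mem _ hy hz
    | smul c y _ hy => rw [smul_comm]; exact Submodule.smul_mem _ _ hy
  refine ⟨fun j hj => key _ fun u v => ?_, fun j hj i => key _ fun u v => ?_,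
    fun j hj => key _ fun u v => ?_⟩
  · rcases Nat.lt_or_ge j n with h | h
    · have h1 : D.tr n (D.x j) = D.x j := by rw [D.tr_x, if_pos h]
      rw [← h1, Conv.tr_smul_mk]
      exact Submodule.subset_span ⟨_, _, rfl⟩
    · have h1 : D.shn n (D.x 0) = D.x j := by rw [D.shn_x]; congr 1; omega
      rw [← h1, Conv.shn_smul_mk]
      exact Submodule.subset_span ⟨_, _, rfl⟩
  · rcases Nat.lt_or_ge j n with h | h
    · have h1 : D.tr n (D.e j i) = D.e j i := by rw [D.tr_e, if_pos h]
      rw [← h1, Conv.tr_smul_mk]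
      exact Submodule.subset_span ⟨_, _, rfl⟩
    · have h1 : D.shn n (D.e 0 i) = D.e j i := by rw [D.shn_e]; congr 1; omega
      rw [← h1, Conv.shn_smul_mk]
      exact Submodule.subset_span ⟨_, _, rfl⟩
  · have h1 : D.tr n (D.t j) = D.t j := by rw [D.tr_t, if_pos hj]
    rw [← h1, Conv.tr_smul_mk]
    exact Submodule.subset_span ⟨_, _, rfl⟩

theorem e_zero_of_ch {i : I} (X : SMod D) (hn : 0 < X.n) (h0 : ∀ ν, X.ch (i :: ν) = 0)
    (v : X.M) : D.e 0 i • v = 0 := by
  by_contra hv
  obtain ⟨ν, hν, h1⟩ := exists_word X.smp.strand _ hv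
  cases ν with
  | nil => rw [List.length_nil] at hν; omega
  | cons j ν =>
    have h2 : X.ch (j :: ν) ≠ 0 := (chr_ne_zero_iff hν).2 ⟨_, h1⟩
    by_cases hj : j = i
    · subst hj; exact h2 (h0 ν)
    · apply h1
      rw [D.eW_cons, mul_smul, ← mul_smul _ (D.e 0 i), ← D.e0_shn, mul_smul, ← mul_smul,
        D.e_mul_e_ne 0 hj, zero_smul]

namespace OneM

variable {i : I} {C : SMod D} [Fact (C.n = 1)] (h : OneM D i C)

include h

theorem Cp_mk (X : SMod D) (h0 : ∀ ν, X.ch (i :: ν) = 0) {ν : List I} {v : X.M} (hv : Eig D ν v)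
    (hν : ν.length = X.n) (w : Aff D C.M) : ∃ c : K, c ≠ 0 ∧
      D.Cp X.n • Conv.mk D X.n X.M (Aff D C.M) v w =
        ((Conv.map (rfl : X.n = X.n) (LinearMap.id : X.M →ₗ[KLRAlg D] X.M) (Aff.Z D C.M)) ^
          ν.count i) (c • D.chain X.n • Conv.mk D X.n X.M (Aff D C.M) v w) := by
  rcases Nat.eq_zero_or_pos X.n with hn | hn
  · refine ⟨1, one_ne_zero, ?_⟩
    have h1 : ν = [] := List.eq_nil_of_length_eq_zero (hν.trans hn)
    have h2 : D.Cp X.n = 1 := by rw [hn, D.Cp_zero]
    have h3 : D.chain X.n = 1 := by rw [hn]; rfl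
    rw [h1, List.count_nil, pow_zero, h2, h3, one_smul, one_smul]
    rfl
  · set z := Conv.mk D X.n X.M (Aff D C.M) v w with hz
    set Zm := Conv.map (rfl : X.n = X.n) (LinearMap.id : X.M →ₗ[KLRAlg D] X.M) (Aff.Z D C.M)
      with hZm
    have hn1 : D.shn X.n (D.e 0 i) = D.e X.n i := by rw [D.shn_e, add_zero]
    have hn2 : D.shn X.n (D.x 0) = D.x X.n := by rw [D.shn_x, add_zero]
    have hi : Col D X.n i z := by
      rw [Col, hz, ← hn1, Conv.shn_smul_mk, h.aff_e]
    have hx : D.x X.n • z = Zm z := by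
      rw [hz, ← hn2, Conv.shn_smul_mk, h.aff_x, hZm, Conv.map_mk, LinearMap.id_apply]
    obtain ⟨c, hc, h1⟩ := gg_eig Zm hi hx ν 0 (by omega) (by
      rw [D.shn_zero, hz, ← D.tr_eW (m := X.n) ν hν.le, Conv.tr_smul_mk, hv.word]) (by
      intro j _ hj
      have h2 : D.tr X.n (D.x j) = D.x j := by rw [D.tr_x, if_pos hj]
      rw [hz, ← h2, Conv.tr_smul_mk, hv.dot, map_zero, LinearMap.zero_apply])
    rw [hν] at h1
    have hQ : ∀ y ∈ Qsp D X.n X.M (Aff D C.M), D.e 0 i • y = 0 := by
      intro y hy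
      have h2 : D.tr X.n (D.e 0 i) = D.e 0 i := by rw [D.tr_e, if_pos hn]
      induction hy using Submodule.span_induction with
      | mem y hy =>
        obtain ⟨u, v, rfl⟩ := hy
        rw [← h2, Conv.tr_smul_mk, e_zero_of_ch X hn h0, map_zero, LinearMap.zero_apply]
      | zero => rw [smul_zero]
      | add y z _ _ hy hz => rw [smul_add, hy, hz, add_zero]
      | smul c y _ hy => rw [smul_comm, hy, smul_zero]
    have h2 := Low.Cp_smul Qsp.flat hQ (z := z) (Submodule.subset_span ⟨v, w, rfl⟩) hi (by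
      rw [h1, smul_comm, pow_apply_smul, hi])
    refine ⟨c, hc, ?_⟩
    rw [h2, h1, smul_comm, pow_apply_smul, ← algebraMap_smul (KLRAlg D) c, pow_apply_smul,
      algebraMap_smul]

/-- the order of `s(L(i), X)` if no word of `X` begins with `i` -/
theorem ordEq_base (hb : S_basis D) (X : SMod D) (h0 : ∀ ν, X.ch (i :: ν) = 0) :
    OrdEq C X.smp.strand (X.wt i) := by
  have hs := X.smp.simple
  have hCs := C.smp.simple
  obtain ⟨ν, hνc⟩ := X.exists_ch_ne
  have hν := X.ch_length hνc
  obtain ⟨v, hv⟩ := X.smp.exists_eig hνc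
  have hcount : ν.count i = X.wt i := X.count_eq_wt hνc i
  set Zm := Conv.map (rfl : X.n = X.n) (LinearMap.id : X.M →ₗ[KLRAlg D] X.M) (Aff.Z D C.M)
    with hZm
  have hA := Aff.isAff C.smp.strand
  have hredR := hA.redR hb X.smp.strand
  have hredL := hA.redL hb X.smp.strand
  -- the submodule of the vectors with a divisible value
  let P : Submodule (KLRAlg D) X.M :=
    { carrier := {v | ∀ w, D.Cp X.n • Conv.mk D X.n X.M (Aff D C.M) v w ∈
        LinearMap.range (Zm ^ X.wt i)}
      add_mem' := by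
        intro a b ha hb w
        rw [map_add, LinearMap.add_apply, smul_add]
        exact Submodule.add_mem _ (ha w) (hb w)
      zero_mem' := by
        intro w
        rw [map_zero, LinearMap.zero_apply, smul_zero]
        exact Submodule.zero_mem _
      smul_mem' := by
        intro a b hb w
        rw [← Conv.tr_smul_mk, ← mul_smul, D.Cp_tr, mul_smul]
        exact Submodule.smul_mem _ _ (hb w) }
  have hvP : v ∈ P := by
    intro w
    obtain ⟨c, _, h1⟩ := h.Cp_mk X h0 hv hν w
    rw [hcount] at h1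
    exact ⟨_, h1.symm⟩
  have hP : P = ⊤ := by
    rcases eq_bot_or_eq_top P with h1 | h1
    · exfalso
      rw [h1, Submodule.mem_bot] at hvP
      exact hv.ne hvP
    · exact h1
  have hran : ∀ y, Conv.Rm hA.strand X.smp.strand y ∈ LinearMap.range (Zm ^ X.wt i) := by
    intro y
    induction y using Conv.induction with
    | h0 => rw [map_zero]; exact Submodule.zero_mem _
    | h a w v =>
      rw [map_smul, Conv.Rm_mk, h.Ph_eq]
      have hvP : v ∈ P := by rw [hP]; trivial
      exact Submodule.smul_mem _ _ (hvP w)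
    | hadd y z hy hz => rw [map_add]; exact Submodule.add_mem _ hy hz
  have hinj : Function.Injective (Zm ^ X.wt i) := hredR.pow_inj _
  set T := (LinearEquiv.ofInjective _ hinj).symm.toLinearMap ∘ₗ
    LinearMap.codRestrict (LinearMap.range (Zm ^ X.wt i)) (Conv.Rm hA.strand X.smp.strand) hran
    with hT
  have hTe : Conv.Rm hA.strand X.smp.strand = (Zm ^ X.wt i) ∘ₗ T := by
    ext a
    have h2 := (LinearEquiv.ofInjective _ hinj).apply_symm_apply
      (LinearMap.codRestrict (LinearMap.range (Zm ^ X.wt i)) (Conv.Rm hA.strand X.smp.strand)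
        hran a)
    have h3 := congrArg Subtype.val h2
    rw [LinearEquiv.ofInjective_apply] at h3
    exact h3.symm
  obtain ⟨r, hr⟩ := Ld.of_div hredL hredR hTe (Rm_comm hA X.smp.strand)
  refine ⟨r, hr, fun hr0 => ?_⟩
  obtain ⟨T', hT', hq⟩ := hr
  have hTT : T' = T := hredR.cancel (hT'.symm.trans hTe)
  obtain ⟨u, hu⟩ := exists_ne (0 : C.M)
  obtain ⟨c, hc, h1⟩ := h.Cp_mk X h0 hv hν (Aff.sg D 0 u)
  rw [hcount] at h1
  have h2 : T' (Conv.mk D C.n (Aff D C.M) X.M (Aff.sg D 0 u) v) =
      c • D.chain X.n • Conv.mk D X.n X.M (Aff D C.M) v (Aff.sg D 0 u) := by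
    apply hinj
    have h3 := LinearMap.congr_fun hT' (Conv.mk D C.n (Aff D C.M) X.M (Aff.sg D 0 u) v)
    rw [Conv.Rm_mk, h.Ph_eq, LinearMap.comp_apply] at h3
    rw [← h3]
    exact h1
  have h3 := LinearMap.congr_fun hq (Conv.mk D C.n (Aff D C.M) X.M (Aff.sg D 0 u) v)
  rw [LinearMap.comp_apply, LinearMap.comp_apply, h2, hr0, LinearMap.zero_apply,
    ← algebraMap_smul (KLRAlg D) c, map_smul, algebraMap_smul, map_smul, Conv.map_mk,
    LinearMap.id_apply, Aff.P_sg_zero] at h3
  exact chain_mk_ne hb X.smp.strand h.strand hv.ne hu ((smul_eq_zero.1 h3).resolve_left hc)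

end OneM

end Pool.Agent.KLS

end

section

/-! MP_e487d8_al, RMAT block: the facts about heads, socles and orders for real modules. -/

set_option autoImplicit false

namespace Pool.Agent.KLS

variable {K I : Type} [Field K] [Fintype I] [DecidableEq I] {D : Datum K I}

section

variable {n : ℕ} {N : Type}
  [AddCommGroup N] [Module K N] [Module (KLRAlg D) N] [IsScalarTower K (KLRAlg D) N]

omit [Module K N] [IsScalarTower K (KLRAlg D) N] in
theorem strand_surj {N' : Type} [AddCommGroup N'] [Module (KLRAlg D) N'] (hN : IsStrand D n N)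
    (f : N →ₗ[KLRAlg D] N') (hf : Function.Surjective f) : IsStrand D n N' where
  one k hk u := by
    obtain ⟨u, rfl⟩ := hf u
    rw [← map_smul, hN.one k hk]
  zero k hk i u := by
    obtain ⟨u, rfl⟩ := hf u
    rw [← map_smul, hN.zero k hk, map_zero]

theorem OrdGe.le_of_quo (hb : S_basis D) {C : SMod D} [Fact (C.n = 1)] {hN : IsStrand D n N} {s : ℕ}
    (h : OrdGe C hN s) {Z : SMod D} (hz : Quo D Z.M N) : s ≤ sOrd C Z := by
  obtain ⟨f, hf⟩ := hz
  have h1 := strand_surj hN f hf
  have h2 : n = Z.n := strand_unique (M := Z.M) h1 Z.smp.strand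
  exact le_sOrd hb ((h.quot hb h1 f hf).cast h2 Z.smp.strand)

theorem OrdGe.le_of_subQ (hb : S_basis D) {C : SMod D} [Fact (C.n = 1)] {hN : IsStrand D n N} {s : ℕ}
    (h : OrdGe C hN s) {Z : SMod D} (hz : SubQ D Z.M N) : s ≤ sOrd C Z := by
  obtain ⟨P, f, hf⟩ := hz
  exact (h.sub hb (hN.sub P) P.subtype P.subtype_injective).le_of_quo hb ⟨f, hf⟩

theorem OrdEq.sOrd_of_equiv (hb : S_basis D) {C : SMod D} [Fact (C.n = 1)] {hN : IsStrand D n N} {s : ℕ}
    (h : OrdEq C hN s) {Z : SMod D} (f : N ≃ₗ[KLRAlg D] Z.M) : sOrd C Z = s := by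
  have h1 := strand_surj hN f.toLinearMap f.surjective
  have h2 : n = Z.n := strand_unique (M := Z.M) h1 Z.smp.strand
  exact sOrd_eq hb ((h.congr hb h1 f).cast h2 Z.smp.strand)

end

namespace SMod

theorem sOrd_iso (hb : S_basis D) (C : SMod D) [Fact (C.n = 1)] {X Y : SMod D} (h : X.Iso Y) :
    sOrd C Y = sOrd C X := h.elim fun f => (sOrd_spec hb C X).sOrd_of_equiv hb f

theorem fdConv (hb : S_basis D) (X Y : SMod D) : FdMod D (X.n + Y.n) (X.conv Y) :=
  Conv.fdMod hb X.smp.toFdMod Y.smp.toFdMod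

theorem nontrivialConv (hb : S_basis D) (X Y : SMod D) : Nontrivial (X.conv Y) := by
  obtain ⟨u, hu⟩ := exists_ne (0 : X.M)
  obtain ⟨v, hv⟩ := exists_ne (0 : Y.M)
  refine ⟨⟨Conv.mk D X.n X.M Y.M u v, 0, fun h => ?_⟩⟩
  rcases Conv.mk_eq_zero hb X.smp.strand Y.smp.strand h with h | h
  · exact hu h
  · exact hv h

/-- K2 for the convolution product -/
theorem ordEq_conv (hb : S_basis D) (C X Y : SMod D) [Fact (C.n = 1)] :
    OrdEq C (Conv.isStrand X.smp.strand Y.smp.strand) (sOrd C X + sOrd C Y) := by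
  obtain ⟨r, hr, h0⟩ := sOrd_spec hb C X
  obtain ⟨r', hr', h0'⟩ := sOrd_spec hb C Y
  exact conv_ne_zero hb C.smp.simple hr hr' h0 h0'

theorem sOrd_sub (hb : S_basis D) (C X Y Z : SMod D) [Fact (C.n = 1)] (h : SubQ D Z.M (X.conv Y)) :
    sOrd C X + sOrd C Y ≤ sOrd C Z := (ordEq_conv hb C X Y).ge.le_of_subQ hb h

theorem sOrd_conv (hb : S_basis D) (C X Y Z : SMod D) [Fact (C.n = 1)] (f : X.conv Y ≃ₗ[KLRAlg D] Z.M) :
    sOrd C Z = sOrd C X + sOrd C Y := (ordEq_conv hb C X Y).sOrd_of_equiv hb f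

/-- `r_(C,C)` is a scalar -/
theorem Real.scal (hb : S_basis D) {C : SMod D} [Fact (C.n = 1)] (hC : C.Real) :
    Scal (Aff.isAff C.smp.strand) (sOrd C C) := by
  obtain ⟨r, hr, h0⟩ := sOrd_spec hb C C
  have hs : Smp D (C.n + C.n) (C.conv C) := { fdConv hb C C with simple := hC }
  obtain ⟨c, hc⟩ := end_scalar hb _ _ hs r
  refine ⟨c, ?_, r, hr, hc⟩
  rintro rfl
  apply h0
  ext z
  rw [hc, zero_smul, LinearMap.zero_apply]

/-- the simple modules `M` -/
def ofSmp {n : ℕ} {M : Type} [AddCommGroup M] [Module K M] [Module (KLRAlg D) M]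
    [IsScalarTower K (KLRAlg D) M] (h : Smp D n M) : SMod D where
  n := n
  M := M
  smp := h

/-- the R-matrix `r : C ∘ X → X ∘ C` for a real module `C`, its image is `H` -/
structure HD (C X : SMod D) (r : C.conv X →ₗ[KLRAlg D] X.conv C) (H : SMod D) : Prop where
  ne : r ≠ 0
  le_ker : ∀ T : Submodule (KLRAlg D) (C.conv X), T ≠ ⊤ → T ≤ LinearMap.ker r
  range_le : ∀ S : Submodule (KLRAlg D) (X.conv C), S ≠ ⊥ → LinearMap.range r ≤ S
  iso : Nonempty (H.M ≃ₗ[KLRAlg D] LinearMap.range r)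
  ord : sOrd C H = sOrd C C + sOrd C X
  big : ∀ Z : SMod D, SubQ D Z.M (LinearMap.ker r) → sOrd C C + sOrd C X < sOrd C Z
  big' : ∀ Z : SMod D, Quo D Z.M (X.conv C ⧸ LinearMap.range r) →
    sOrd C C + sOrd C X < sOrd C Z

/-- the order on the cokernel of `r` -/
theorem ordGe_coker (hb : S_basis D) {C X : SMod D} [Fact (C.n = 1)] {s₀ s : ℕ}
    (hsc : Scal (Aff.isAff C.smp.strand) s₀) {r : C.conv X →ₗ[KLRAlg D] X.conv C}
    (h : Lead (Aff.isAff C.smp.strand) X.smp.strand s r) :
    OrdGe C ((Conv.isStrand X.smp.strand C.smp.strand).quot (LinearMap.range r)) (s₀ + s + 1) := by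
  obtain ⟨lam, hlam, hsc⟩ := hsc
  obtain ⟨ρ, hρ, hρz⟩ := hsc.lead_NC h
  obtain ⟨ρQ, hρQ⟩ := hρ.quot hb
    ((Conv.isStrand X.smp.strand C.smp.strand).quot (LinearMap.range r))
    (LinearMap.range r).mkQ (LinearMap.range r).mkQ_surjective
  have hnat := Lead.natural hb hρ hρQ (LinearMap.range r).mkQ
  have h0 : ρQ = 0 := by
    have hs := Conv.map_surjective (rfl : C.n = C.n) (LinearMap.id : C.M →ₗ[KLRAlg D] C.M)
      (LinearMap.range r).mkQ (fun v => ⟨v, rfl⟩) (LinearMap.range r).mkQ_surjective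
    ext z
    obtain ⟨z, rfl⟩ := hs z
    have h1 := LinearMap.congr_fun hnat z
    rw [LinearMap.comp_apply, LinearMap.comp_apply, hρz, ← algebraMap_smul (KLRAlg D) lam,
      map_smul, Conv.map_map] at h1
    have h2 : (LinearMap.range r).mkQ ∘ₗ r = 0 := by
      ext y
      rw [LinearMap.comp_apply, Submodule.mkQ_apply, LinearMap.zero_apply,
        Submodule.Quotient.mk_eq_zero]
      exact ⟨y, rfl⟩
    have h3 : ∀ y : Conv D (C.n + X.n) (C.conv X) C.M,
        Conv.map ((Nat.add_comm C.n X.n).trans rfl) ((LinearMap.range r).mkQ ∘ₗ r)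
        (LinearMap.id ∘ₗ LinearMap.id : C.M →ₗ[KLRAlg D] C.M) y = 0 := by
      intro y
      rw [h2]
      have h4 : Conv.map ((Nat.add_comm C.n X.n).trans rfl)
          (0 : C.conv X →ₗ[KLRAlg D] (X.conv C ⧸ LinearMap.range r))
          (LinearMap.id ∘ₗ LinearMap.id : C.M →ₗ[KLRAlg D] C.M) = 0 := by
        apply Conv.hom_ext
        intro u v
        rw [Conv.map_mk, LinearMap.zero_apply, LinearMap.zero_apply, map_zero,
          LinearMap.zero_apply]
      rw [h4, LinearMap.zero_apply]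
    rw [h3, smul_zero] at h1
    rw [← h1, LinearMap.zero_apply]
  rw [h0, Nat.add_comm s s₀] at hρQ
  exact hρQ.succ hb

theorem exists_HD (hb : S_basis D) (C X : SMod D) [Fact (C.n = 1)] (hC : C.Real) : ∃ r H, HD C X r H := by
  obtain ⟨r, hr, h0⟩ := sOrd_spec hb C X
  have hsc := hC.scal hb
  have hfd : FdMod D (C.n + X.n) (X.conv C) := by
    rw [Nat.add_comm]
    exact fdConv hb X C
  have hs : Smp D (C.n + X.n) (LinearMap.range r) :=
    { hfd.sub (LinearMap.range r) with simple := range_simple hb X.smp.simple hsc hr h0 }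
  refine ⟨r, ofSmp hs, h0, fun T hT => le_ker hb X.smp.simple hsc hr T hT,
    fun S hS => range_le hb X.smp.simple hsc hr S hS, ⟨LinearEquiv.refl _ _⟩, ?_, ?_, ?_⟩
  · apply sOrd_eq hb
    exact lead_range hb X.smp.simple hsc hr h0 rfl hs.strand r.rangeRestrict
      r.surjective_rangeRestrict (by rw [LinearMap.ker_rangeRestrict])
  · intro Z hZ
    have h1 : OrdGe C ((Conv.isStrand C.smp.strand X.smp.strand).sub (LinearMap.ker r))
      (sOrd C C + sOrd C X + 1) := lead_ker hb hsc hr
    exact h1.le_of_subQ hb hZ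
  · intro Z hZ
    exact (ordGe_coker hb hsc hr).le_of_quo hb hZ

namespace HD

variable {C X : SMod D} {r : C.conv X →ₗ[KLRAlg D] X.conv C} {H : SMod D}

theorem ker_ne (h : HD C X r H) : LinearMap.ker r ≠ ⊤ := fun h0 => h.ne (LinearMap.ker_eq_top.1 h0)

theorem range_ne (h : HD C X r H) : LinearMap.range r ≠ ⊥ :=
  fun h0 => h.ne (LinearMap.range_eq_bot.1 h0)

/-- every simple quotient of `C ∘ X` is isomorphic to `H` -/
theorem ker_eq (h : HD C X r H) {Z : Type} [AddCommGroup Z] [Module (KLRAlg D) Z]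
    [IsSimpleModule (KLRAlg D) Z] (f : C.conv X →ₗ[KLRAlg D] Z) (hf : Function.Surjective f) :
    LinearMap.ker f = LinearMap.ker r := by
  have hne : Nontrivial Z := IsSimpleModule.nontrivial (KLRAlg D) Z
  have h1 : LinearMap.ker f ≠ ⊤ := by
    intro h0
    obtain ⟨z, hz⟩ := exists_ne (0 : Z)
    obtain ⟨y, rfl⟩ := hf z
    rw [LinearMap.ker_eq_top.1 h0] at hz
    exact hz rfl
  have h2 := h.le_ker _ h1
  have h3 : IsCoatom (LinearMap.ker f) := LinearMap.isCoatom_ker_of_surjective hf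
  rcases h3.le_iff.1 h2 with h4 | h4
  · exact absurd h4 h.ker_ne
  · exact h4.symm

theorem iso_of_quo (h : HD C X r H) {Z : SMod D} (hZ : Quo D Z.M (C.conv X)) : Z.Iso H := by
  obtain ⟨f, hf⟩ := hZ
  obtain ⟨g⟩ := h.iso
  have h1 := h.ker_eq f hf
  exact ⟨(LinearMap.quotKerEquivOfSurjective f hf).symm.trans
    ((Submodule.quotEquivOfEq _ _ h1).trans ((LinearMap.quotKerEquivRange r).trans g.symm))⟩

theorem quo (h : HD C X r H) : Quo D H.M (C.conv X) := by
  obtain ⟨g⟩ := h.iso
  refine ⟨g.symm.toLinearMap ∘ₗ r.rangeRestrict, ?_⟩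
  rw [LinearMap.coe_comp]
  exact g.symm.surjective.comp r.surjective_rangeRestrict

end HD

end SMod

end Pool.Agent.KLS

end
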