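import Pool.Agent.Work.MP_e487d8_al.Bd.B07
import Pool.Agent.Work.MP_e487d8_al.Bd.B15
import Pool.Agent.Work.MP_e487d8_al.Y.Mod.Word
import Pool.Agent.Work.MP_e487d8_al.Bd.B16

/-! Bundle of small proof modules (one section per former module). -/

section

/-! MP_e487d8_al: homogeneous maps, the grading of the convolution product. -/

set_option autoImplicit false
set_option linter.unusedSectionVars false

namespace Pool.Agent.KLS

variable {K I : Type} [Field K] [Fintype I] [DecidableEq I] {D : Datum K I}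

section
variable {M N P : Type} [AddCommGroup M] [Module K M] [Module (KLRAlg D) M]
  [IsScalarTower K (KLRAlg D) M] [AddCommGroup N] [Module K N] [Module (KLRAlg D) N]
  [IsScalarTower K (KLRAlg D) N] [AddCommGroup P] [Module K P] [Module (KLRAlg D) P]
  [IsScalarTower K (KLRAlg D) P]

/-! ### truncation and shift are homogeneous -/

namespace Lau

theorem tr_e_sg (m k : ℕ) (i : I) (d : ℤ) (w : P) :
    D.tr m (D.e k i) • sg D d w = sg D d (D.tr m (D.e k i) • w) := by
  rw [D.tr_e]
  split_ifs
  · rw [e_sg]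
  · simp

theorem tr_x_sg (m k : ℕ) (d : ℤ) (w : P) :
    D.tr m (D.x k) • sg D d w =
      ∑ i, sg D (d + D.xdeg i) (D.tr m (D.x k * D.e k i) • w) := by
  rw [D.tr_x]
  split_ifs with h
  · rw [x_sg]
    refine Finset.sum_congr rfl fun i _ => ?_
    rw [map_mul, D.tr_x, D.tr_e, if_pos h, if_pos h]
  · rw [zero_smul]
    symm
    refine Finset.sum_eq_zero fun i _ => ?_
    rw [map_mul, D.tr_x, if_neg h, zero_mul, zero_smul, map_zero]

theorem tr_t_sg (m k : ℕ) (d : ℤ) (w : P) : D.tr m (D.t k) • sg D d w =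
    ∑ i, ∑ j, sg D (d - D.fm i j) (D.tr m (D.t k * (D.e k i * D.e (k + 1) j)) • w) := by
  rw [D.tr_t]
  split_ifs with h
  · rw [t_sg]
    refine Finset.sum_congr rfl fun i _ => Finset.sum_congr rfl fun j _ => ?_
    rw [map_mul, map_mul, D.tr_t, D.tr_e, D.tr_e, if_pos h, if_pos h, if_pos (by omega)]
  · rw [zero_smul]
    symm
    refine Finset.sum_eq_zero fun i _ => Finset.sum_eq_zero fun j _ => ?_
    rw [map_mul, D.tr_t, if_neg h, zero_mul, zero_smul, map_zero]

theorem shn_e_sg (m k : ℕ) (i : I) (d : ℤ) (w : P) :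
    D.shn m (D.e k i) • sg D d w = sg D d (D.shn m (D.e k i) • w) := by
  rw [D.shn_e, e_sg]

theorem shn_x_sg (m k : ℕ) (d : ℤ) (w : P) :
    D.shn m (D.x k) • sg D d w =
      ∑ i, sg D (d + D.xdeg i) (D.shn m (D.x k * D.e k i) • w) := by
  rw [D.shn_x, x_sg]
  refine Finset.sum_congr rfl fun i _ => ?_
  rw [map_mul, D.shn_x, D.shn_e]

theorem shn_t_sg (m k : ℕ) (d : ℤ) (w : P) : D.shn m (D.t k) • sg D d w =
    ∑ i, ∑ j, sg D (d - D.fm i j) (D.shn m (D.t k * (D.e k i * D.e (k + 1) j)) • w) := by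
  rw [D.shn_t, t_sg]
  refine Finset.sum_congr rfl fun i _ => Finset.sum_congr rfl fun j _ => ?_
  rw [map_mul, map_mul, D.shn_t, D.shn_e, D.shn_e]
  rfl

end Lau

/-- a balanced map gives a balanced map on families -/
theorem balanced_cv {m : ℕ} {b : M →ₗ[K] N →ₗ[K] P} (hb : Balanced D m b) :
    Balanced D m (Lau.cv (D := D) b) where
  left a y z := by
    induction a using KLRAlg.induction generalizing y with
    | hs r => rw [AlgHom.commutes, algebraMap_smul, algebraMap_smul, map_smul]; rfl
    | hadd a a' ha ha' =>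
      rw [map_add, add_smul, add_smul, map_add, ha, ha']; rfl
    | hmul a a' ha ha' => rw [map_mul, mul_smul, mul_smul, ha', ha]
    | he k i =>
      refine Lau.bil_ext (D := D) (f := LinearMap.compr₂ (Lau.cv b)
        (Algebra.lsmul K K (Lau D P) (D.tr m (D.e k i))))
        (g := (Lau.cv b).comp (Algebra.lsmul K K (Lau D M) (D.e k i))) ?_ y z
      intro p q u v
      simp only [LinearMap.compr₂_apply, LinearMap.comp_apply, Algebra.lsmul_coe]
      rw [Lau.cv_sg, Lau.tr_e_sg, Lau.e_sg, Lau.cv_sg, hb.left]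
    | hx k =>
      refine Lau.bil_ext (D := D) (f := LinearMap.compr₂ (Lau.cv b)
        (Algebra.lsmul K K (Lau D P) (D.tr m (D.x k))))
        (g := (Lau.cv b).comp (Algebra.lsmul K K (Lau D M) (D.x k))) ?_ y z
      intro p q u v
      simp only [LinearMap.compr₂_apply, LinearMap.comp_apply, Algebra.lsmul_coe]
      rw [Lau.cv_sg, Lau.tr_x_sg, Lau.x_sg]
      simp only [map_sum, LinearMap.sum_apply]
      refine Finset.sum_congr rfl fun i _ => ?_
      rw [Lau.cv_sg, hb.left]
      congr 2
      ring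
    | ht k =>
      refine Lau.bil_ext (D := D) (f := LinearMap.compr₂ (Lau.cv b)
        (Algebra.lsmul K K (Lau D P) (D.tr m (D.t k))))
        (g := (Lau.cv b).comp (Algebra.lsmul K K (Lau D M) (D.t k))) ?_ y z
      intro p q u v
      simp only [LinearMap.compr₂_apply, LinearMap.comp_apply, Algebra.lsmul_coe]
      rw [Lau.cv_sg, Lau.tr_t_sg, Lau.t_sg]
      simp only [map_sum, LinearMap.sum_apply]
      refine Finset.sum_congr rfl fun i _ => Finset.sum_congr rfl fun j _ => ?_
      rw [Lau.cv_sg, hb.left]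
      congr 2
      ring
  right a y z := by
    induction a using KLRAlg.induction generalizing z with
    | hs r => rw [AlgHom.commutes, algebraMap_smul, algebraMap_smul, map_smul]
    | hadd a a' ha ha' =>
      rw [map_add, add_smul, add_smul, map_add, ha, ha']
    | hmul a a' ha ha' => rw [map_mul, mul_smul, mul_smul, ha', ha]
    | he k i =>
      refine Lau.bil_ext (D := D) (f := LinearMap.compr₂ (Lau.cv b)
        (Algebra.lsmul K K (Lau D P) (D.shn m (D.e k i))))
        (g := LinearMap.compl₂ (Lau.cv b) (Algebra.lsmul K K (Lau D N) (D.e k i))) ?_ y z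
      intro p q u v
      simp only [LinearMap.compr₂_apply, LinearMap.compl₂_apply, Algebra.lsmul_coe]
      rw [Lau.cv_sg, Lau.shn_e_sg, Lau.e_sg, Lau.cv_sg, hb.right]
    | hx k =>
      refine Lau.bil_ext (D := D) (f := LinearMap.compr₂ (Lau.cv b)
        (Algebra.lsmul K K (Lau D P) (D.shn m (D.x k))))
        (g := LinearMap.compl₂ (Lau.cv b) (Algebra.lsmul K K (Lau D N) (D.x k))) ?_ y z
      intro p q u v
      simp only [LinearMap.compr₂_apply, LinearMap.compl₂_apply, Algebra.lsmul_coe]
      rw [Lau.cv_sg, Lau.shn_x_sg, Lau.x_sg]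
      simp only [map_sum]
      refine Finset.sum_congr rfl fun i _ => ?_
      rw [Lau.cv_sg, hb.right]
      congr 2
      ring
    | ht k =>
      refine Lau.bil_ext (D := D) (f := LinearMap.compr₂ (Lau.cv b)
        (Algebra.lsmul K K (Lau D P) (D.shn m (D.t k))))
        (g := LinearMap.compl₂ (Lau.cv b) (Algebra.lsmul K K (Lau D N) (D.t k))) ?_ y z
      intro p q u v
      simp only [LinearMap.compr₂_apply, LinearMap.compl₂_apply, Algebra.lsmul_coe]
      rw [Lau.cv_sg, Lau.shn_t_sg, Lau.t_sg]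
      simp only [map_sum]
      refine Finset.sum_congr rfl fun i _ => Finset.sum_congr rfl fun j _ => ?_
      rw [Lau.cv_sg, hb.right]
      congr 2
      ring

/-! ### homogeneous maps -/

namespace HomDeg

variable {gM : Grd D M} {gN : Grd D N} {gP : Grd D P} {s s' : ℤ}

theorem hm {f : M →ₗ[KLRAlg D] N} (h : HomDeg gM gN s f) {d : ℤ} {u : M} (hu : gM.Hm d u) :
    gN.Hm (d + s) (f u) := by
  unfold Grd.Hm at *
  rw [h, hu, Lau.map_sg, Lau.shift_sg]

/-- an element is the sum of its homogeneous components -/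
theorem _root_.Pool.Agent.KLS.Grd.sum_pr (g : Grd D M) (u : M) :
    ∃ S : Finset ℤ, (∀ d, d ∉ S → g.pr d u = 0) ∧ ∑ d ∈ S, g.pr d u = u := by
  obtain ⟨S, hS⟩ := Lau.co_fin (g.rho u)
  refine ⟨S, hS, ?_⟩
  have h := congrArg (Lau.tot D M) (Lau.sum_co (g.rho u) S hS)
  rw [g.tot, map_sum] at h
  simp only [Lau.tot_sg] at h
  exact h

/-- induction over homogeneous elements -/
theorem _root_.Pool.Agent.KLS.Grd.induction (g : Grd D M) {p : M → Prop} (h0 : p 0)
    (h : ∀ d u, g.Hm d u → p u) (hadd : ∀ u v, p u → p v → p (u + v)) (u : M) : p u := by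
  obtain ⟨S, h1, hS⟩ := g.sum_pr u
  rw [← hS]
  clear hS h1
  classical
  induction S using Finset.induction_on with
  | empty => simpa using h0
  | insert a S ha ih => rw [Finset.sum_insert ha]; exact hadd _ _ (h a _ (g.hm_pr a u)) ih

theorem of_hm {f : M →ₗ[KLRAlg D] N} (h : ∀ d u, gM.Hm d u → gN.Hm (d + s) (f u)) :
    HomDeg gM gN s f := by
  intro u
  induction u using gM.induction with
  | h0 => simp
  | h d u hu =>
    have h1 := h d u hu
    unfold Grd.Hm at *
    rw [h1, hu, Lau.map_sg, Lau.shift_sg]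
  | hadd u v hu hv => rw [map_add, map_add, map_add, map_add, map_add, hu, hv]

theorem pr {f : M →ₗ[KLRAlg D] N} (h : HomDeg gM gN s f) (d : ℤ) (u : M) :
    gN.pr (d + s) (f u) = f (gM.pr d u) := by
  rw [Grd.pr_apply, Grd.pr_apply, h, Lau.co_shift, Lau.co_map]

theorem id : HomDeg gM gM 0 LinearMap.id :=
  of_hm fun _ _ hu => by simpa using hu

theorem comp {f : M →ₗ[KLRAlg D] N} {g : N →ₗ[KLRAlg D] P} (hf : HomDeg gM gN s f)
    (hg : HomDeg gN gP s' g) : HomDeg gM gP (s + s') (g.comp f) :=
  of_hm fun d u hu => by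
    have := hg.hm (hf.hm hu)
    rwa [add_assoc] at this

theorem zero : HomDeg gM gN s 0 := of_hm fun _ _ _ => by simpa using Grd.Hm.zero

theorem add {f f' : M →ₗ[KLRAlg D] N} (hf : HomDeg gM gN s f) (hf' : HomDeg gM gN s f') :
    HomDeg gM gN s (f + f') := of_hm fun d u hu => (hf.hm hu).add (hf'.hm hu)

/-- if `f` is injective and homogeneous and `f ∘ g` is homogeneous then `g` is homogeneous -/
theorem of_comp_left {f : M →ₗ[KLRAlg D] N} {g : N →ₗ[KLRAlg D] P} (hg : HomDeg gN gP s' g)
    (hi : Function.Injective g) (h : HomDeg gM gP (s + s') (g.comp f)) : HomDeg gM gN s f :=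
  of_hm fun d u hu => by
    have h1 := h.hm hu
    rw [Grd.hm_iff] at h1 ⊢
    rw [LinearMap.comp_apply, ← add_assoc, hg.pr] at h1
    exact hi h1

/-- if `f` is surjective and homogeneous and `g ∘ f` is homogeneous then `g` is homogeneous -/
theorem of_comp_right {f : M →ₗ[KLRAlg D] N} {g : N →ₗ[KLRAlg D] P} (hf : HomDeg gM gN s f)
    (hi : Function.Surjective f) (h : HomDeg gM gP (s + s') (g.comp f)) : HomDeg gN gP s' g :=
  of_hm fun d u hu => by
    obtain ⟨v, rfl⟩ := hi u
    rw [Grd.hm_iff] at hu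
    have h1 := hf.pr (d - s) v
    rw [sub_add_cancel, hu] at h1
    have h2 := h.hm (gM.hm_pr (d - s) v)
    rw [LinearMap.comp_apply, ← h1] at h2
    convert h2 using 1
    ring

end HomDeg

/-! ### the grading of the convolution product -/

/-- two bilinear maps agree if they agree on homogeneous elements -/
theorem Grd.hom_ext_hm {m : ℕ} (gM : Grd D M) (gN : Grd D N) {f g : Conv D m M N →ₗ[KLRAlg D] P}
    (h : ∀ p q u v, gM.Hm p u → gN.Hm q v → f (Conv.mk D m M N u v) = g (Conv.mk D m M N u v)) :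
    f = g := by
  apply Conv.hom_ext
  intro u v
  induction u using gM.induction with
  | h0 => simp
  | hadd u u' hu hu' => rw [map_add, LinearMap.add_apply, map_add, map_add, hu, hu']
  | h p u hu =>
    induction v using gN.induction with
    | h0 => simp
    | hadd v v' hv hv' => rw [map_add, map_add, map_add, hv, hv']
    | h q v hv => exact h p q u v hu hv

variable (m : ℕ)

/-- the family of the homogeneous components on the convolution product -/
noncomputable def convRho (gM : Grd D M) (gN : Grd D N) :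
    Conv D m M N →ₗ[KLRAlg D] Lau D (Conv D m M N) :=
  Conv.lift ((Lau.cv (Conv.mk D m M N)).compl₁₂ (Conv.toK gM.rho) (Conv.toK gN.rho))
    { left := fun a u v => by
        have h := (balanced_cv (D := D) (m := m) (Conv.balanced_mk (D := D) (m := m) (M := M)
          (N := N))).left a (gM.rho u) (gN.rho v)
        simpa using h
      right := fun a u v => by
        have h := (balanced_cv (D := D) (m := m) (Conv.balanced_mk (D := D) (m := m) (M := M)
          (N := N))).right a (gM.rho u) (gN.rho v)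
        simpa using h }

theorem convRho_mk (gM : Grd D M) (gN : Grd D N) (u : M) (v : N) :
    convRho m gM gN (Conv.mk D m M N u v) = Lau.cv (Conv.mk D m M N) (gM.rho u) (gN.rho v) := by
  unfold convRho
  rw [Conv.lift_mk]
  rfl

theorem convRho_hm (gM : Grd D M) (gN : Grd D N) {p q : ℤ} {u : M} {v : N} (hu : gM.Hm p u)
    (hv : gN.Hm q v) : convRho m gM gN (Conv.mk D m M N u v) =
      Lau.sg D (p + q) (Conv.mk D m M N u v) := by
  rw [convRho_mk, hu, hv, Lau.cv_sg]

/-- the grading of the convolution product -/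
noncomputable def Grd.conv (gM : Grd D M) (gN : Grd D N) : Grd D (Conv D m M N) where
  rho := convRho m gM gN
  tot z := by
    have h : (Lau.tot D (Conv D m M N)).comp (convRho m gM gN) = LinearMap.id := by
      apply Grd.hom_ext_hm gM gN
      intro p q u v hu hv
      rw [LinearMap.comp_apply, convRho_hm m gM gN hu hv, Lau.tot_sg]
      rfl
    exact LinearMap.congr_fun h z
  dg z := by
    have h : (Lau.map (convRho m gM gN)).comp (convRho m gM gN) =
        (Lau.dg D (Conv D m M N)).comp (convRho m gM gN) := by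
      apply Grd.hom_ext_hm gM gN
      intro p q u v hu hv
      rw [LinearMap.comp_apply, LinearMap.comp_apply, convRho_hm m gM gN hu hv, Lau.map_sg,
        convRho_hm m gM gN hu hv, Lau.dg_sg]
    exact LinearMap.congr_fun h z

theorem Grd.Hm.mk {gM : Grd D M} {gN : Grd D N} {p q : ℤ} {u : M} {v : N} (hu : gM.Hm p u)
    (hv : gN.Hm q v) : (Grd.conv m gM gN).Hm (p + q) (Conv.mk D m M N u v) :=
  convRho_hm m gM gN hu hv

/-- criterion for homogeneity of a map out of the convolution product -/
theorem HomDeg.of_mk {gM : Grd D M} {gN : Grd D N} {gP : Grd D P} {s : ℤ}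
    {f : Conv D m M N →ₗ[KLRAlg D] P}
    (h : ∀ p q u v, gM.Hm p u → gN.Hm q v → gP.Hm (p + q + s) (f (Conv.mk D m M N u v))) :
    HomDeg (Grd.conv m gM gN) gP s f := by
  have h1 : gP.rho.comp f = ((Lau.shift D P s).comp (Lau.map f)).comp (Grd.conv m gM gN).rho := by
    apply Grd.hom_ext_hm gM gN
    intro p q u v hu hv
    have h2 := h p q u v hu hv
    have h3 : (Grd.conv m gM gN).Hm (p + q) (Conv.mk D m M N u v) := hu.mk m hv
    unfold Grd.Hm at h2 h3
    rw [LinearMap.comp_apply, h2, LinearMap.comp_apply, h3, LinearMap.comp_apply, Lau.map_sg,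
      Lau.shift_sg]
  exact fun u => LinearMap.congr_fun h1 u

end

section
variable {M N M' N' : Type} [AddCommGroup M] [Module K M] [Module (KLRAlg D) M]
  [IsScalarTower K (KLRAlg D) M] [AddCommGroup N] [Module K N] [Module (KLRAlg D) N]
  [IsScalarTower K (KLRAlg D) N] [AddCommGroup M'] [Module K M'] [Module (KLRAlg D) M']
  [IsScalarTower K (KLRAlg D) M'] [AddCommGroup N'] [Module K N'] [Module (KLRAlg D) N']
  [IsScalarTower K (KLRAlg D) N']

theorem HomDeg.map {m m' : ℕ} (hm : m = m') {gM : Grd D M} {gN : Grd D N} {gM' : Grd D M'}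
    {gN' : Grd D N'} {s s' : ℤ} {f : M →ₗ[KLRAlg D] M'} {g : N →ₗ[KLRAlg D] N'}
    (hf : HomDeg gM gM' s f) (hg : HomDeg gN gN' s' g) :
    HomDeg (Grd.conv m gM gN) (Grd.conv m' gM' gN') (s + s') (Conv.map hm f g) := by
  apply HomDeg.of_mk
  intro p q u v hu hv
  rw [Conv.map_mk]
  have h := (hf.hm hu).mk m' (hg.hm hv)
  convert h using 1
  ring

end

end Pool.Agent.KLS

end

section

/-! MP_e487d8_al, GRAD: homogeneous vectors with a word; the degrees of the intertwiners. -/

set_option autoImplicit false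
set_option linter.unusedSectionVars false

namespace Pool.Agent.KLS

variable {K I : Type} [Field K] [Fintype I] [DecidableEq I] {D : Datum K I}

/-- `u` has the word `ν` at the strands `k, k + 1, ...` -/
def WdAt (D : Datum K I) {M : Type} [AddCommGroup M] [Module (KLRAlg D) M] :
    ℕ → List I → M → Prop
  | _, [], _ => True
  | k, i :: ν, u => Col D k i u ∧ WdAt D (k + 1) ν u

section word

variable {M : Type} [AddCommGroup M] [Module (KLRAlg D) M]

theorem wdAt_nil {k : ℕ} {u : M} : WdAt D k [] u := trivial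
theorem wdAt_cons {k : ℕ} {i : I} {ν : List I} {u : M} :
    WdAt D k (i :: ν) u ↔ Col D k i u ∧ WdAt D (k + 1) ν u := Iff.rfl

theorem wdAt_append {k : ℕ} {ν μ : List I} {u : M} :
    WdAt D k (ν ++ μ) u ↔ WdAt D k ν u ∧ WdAt D (k + ν.length) μ u := by
  induction ν generalizing k with
  | nil => simp [WdAt]
  | cons i ν ih =>
    rw [List.cons_append, wdAt_cons, wdAt_cons, ih, List.length_cons, and_assoc,
      show k + 1 + ν.length = k + (ν.length + 1) by omega]

/-- the word of `u` is kept by an element which commutes with the idempotents -/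
theorem WdAt.smul {k : ℕ} {ν : List I} {u : M} (h : WdAt D k ν u) {a : KLRAlg D}
    (ha : ∀ l i, k ≤ l → l < k + ν.length → a * D.e l i = D.e l i * a) :
    WdAt D k ν (a • u) := by
  induction ν generalizing k with
  | nil => exact trivial
  | cons i ν ih =>
    refine ⟨?_, ih h.2 fun l j h1 h2 => ha l j (by omega) (by
      rw [List.length_cons]; omega)⟩
    have h1 := h.1
    unfold Col at *
    rw [← mul_smul, ← ha k i le_rfl (by rw [List.length_cons]; omega), mul_smul, h1]

theorem WdAt.e {k l : ℕ} {ν : List I} {u : M} (h : WdAt D k ν u) (j : I) :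
    WdAt D k ν (D.e l j • u) := h.smul fun _ _ _ _ => D.e_comm _ _ _ _

theorem WdAt.x {k l : ℕ} {ν : List I} {u : M} (h : WdAt D k ν u) :
    WdAt D k ν (D.x l • u) := h.smul fun _ _ _ _ => D.x_e _ _ _

theorem Col.shn {k m : ℕ} {i : I} {u : M} (h : Col D k i u) (hk : k < m) (a : KLRAlg D) :
    Col D k i (D.shn m a • u) := by
  have h1 := D.tr_mul_shn (m := m) (m' := m) le_rfl (D.e k i) a
  rw [D.tr_e, if_pos hk] at h1
  unfold Col at *
  rw [← mul_smul, h1, mul_smul, h]

theorem wdAt_iff_eW {ν : List I} (k : ℕ) {u : M} : WdAt D k ν u ↔ D.shn k (D.eW ν) • u = u := by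
  induction ν generalizing k with
  | nil => simp [WdAt, D.eW_nil]
  | cons i ν ih =>
    rw [wdAt_cons, ih, D.eW_cons, map_mul, D.shn_e, D.shn_shn, add_zero, mul_smul]
    constructor
    · rintro ⟨h1, h2⟩
      rw [h2]; exact h1
    · intro h
      have h1 : Col D k i u := by
        unfold Col
        conv_lhs => rw [← h]
        rw [← mul_smul, D.e_idem, h]
      refine ⟨h1, ?_⟩
      have h3 : Col D k i (D.shn (k + 1) (D.eW ν) • u) := h1.shn (Nat.lt_succ_self k) _
      exact h3.symm.trans h

theorem wdAt_zero_iff {ν : List I} {u : M} : WdAt D 0 ν u ↔ D.eW ν • u = u := by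
  rw [wdAt_iff_eW, D.shn_zero]

theorem WdAt.zero_vec {k : ℕ} {ν : List I} : WdAt D k ν (0 : M) := by
  rw [wdAt_iff_eW, smul_zero]

theorem WdAt.add {k : ℕ} {ν : List I} {u v : M} (hu : WdAt D k ν u) (hv : WdAt D k ν v) :
    WdAt D k ν (u + v) := by
  rw [wdAt_iff_eW] at *
  rw [smul_add, hu, hv]

/-- the words have letters at the strands only -/
theorem WdAt.length_le {n : ℕ} (hM : IsStrand D n M) {ν : List I} {u : M} (h : WdAt D 0 ν u)
    (hu : u ≠ 0) : ν.length ≤ n := by
  by_contra hn
  push Not at hn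
  have h1 : WdAt D 0 (ν.take n ++ ν.drop n) u := by rwa [List.take_append_drop]
  rw [wdAt_append, List.length_take, Nat.min_eq_left hn.le] at h1
  rcases hd : ν.drop n with _ | ⟨i, μ⟩
  · have := congrArg List.length hd
    rw [List.length_drop, List.length_nil] at this
    omega
  · rw [hd] at h1
    have h2 := h1.2.1
    unfold Col at h2
    rw [hM.zero _ (by omega)] at h2
    exact hu h2.symm

end word

section hm

variable {M : Type} [AddCommGroup M] [Module K M] [Module (KLRAlg D) M]
  [IsScalarTower K (KLRAlg D) M]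

/-- induction over homogeneous vectors with a word -/
theorem Grd.word_induction {n : ℕ} (g : Grd D M) (hM : IsStrand D n M) {p : M → Prop} (h0 : p 0)
    (h : ∀ d ν u, ν.length = n → WdAt D 0 ν u → g.Hm d u → p u)
    (hadd : ∀ u v, p u → p v → p (u + v)) (u : M) : p u := by
  have key : ∀ k, k ≤ n → ∀ d ν u, ν.length = n - k → WdAt D 0 ν u → g.Hm d u → p u := by
    intro k
    induction k with
    | zero => intro _ d ν u hν hw hd; exact h d ν u (by simpa using hν) hw hd
    | succ k ih =>
      intro hk d ν u hν hw hd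
      have h1 : u = ∑ i, D.e (n - (k + 1)) i • u := by
        rw [← Finset.sum_smul]
        exact (hM.one (n - (k + 1)) (by omega) u).symm
      rw [h1]
      have h2 : ∀ S : Finset I, p (∑ i ∈ S, D.e (n - (k + 1)) i • u) := by
        intro S
        induction S using Finset.induction_on with
        | empty => simpa using h0
        | insert a S ha ihS =>
          rw [Finset.sum_insert ha]
          refine hadd _ _ ?_ ihS
          refine ih (by omega) d (ν ++ [a]) _ ?_ ?_ (hd.e _ _)
          · rw [List.length_append, hν, List.length_singleton]; omega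
          · rw [wdAt_append]
            refine ⟨hw.e _, ?_, trivial⟩
            rw [zero_add, hν]
            exact Col.mk_e _ _ _
      exact h2 _
  induction u using g.induction with
  | h0 => exact h0
  | hadd u v hu hv => exact hadd u v hu hv
  | h d u hd => exact key n le_rfl d [] u (by simp) trivial hd

theorem Grd.Hm.x_col {g : Grd D M} {d : ℤ} {u : M} (h : g.Hm d u) {k : ℕ} {i : I}
    (hi : Col D k i u) : g.Hm (d + D.xdeg i) (D.x k • u) := by
  have h1 := h.x k i
  rwa [mul_smul, hi] at h1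

theorem Grd.Hm.t_col {g : Grd D M} {d : ℤ} {u : M} (h : g.Hm d u) {k : ℕ} {i j : I}
    (hi : Col D k i u) (hj : Col D (k + 1) j u) : g.Hm (d - D.fm i j) (D.t k • u) := by
  have h1 := h.t k i j
  rwa [mul_smul, mul_smul, hj, hi] at h1

theorem Grd.Hm.sub {g : Grd D M} {d : ℤ} {u v : M} (hu : g.Hm d u) (hv : g.Hm d v) :
    g.Hm d (u - v) := by
  unfold Grd.Hm at *; rw [map_sub, map_sub, hu, hv]

theorem Grd.Hm.smulK {g : Grd D M} {d : ℤ} {u : M} (hu : g.Hm d u) (r : K) :
    g.Hm d (r • u) := by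
  unfold Grd.Hm at *
  have h1 : g.rho (r • u) = r • g.rho u := (Conv.toK g.rho).map_smul r u
  rw [h1, hu, map_smul]

/-- the degree of the intertwiner on the colours `i j` -/
def dq (D : Datum K I) (i j : I) : ℤ := if i = j then 0 else -D.fm i j

theorem Grd.Hm.phi {g : Grd D M} {d : ℤ} {u : M} (h : g.Hm d u) {k : ℕ} {i j : I}
    (hi : Col D k i u) (hj : Col D (k + 1) j u) : g.Hm (d + dq D i j) (D.phi k • u) := by
  by_cases hij : i = j
  · subst hij
    rw [phi_eq hi hj, dq, if_pos rfl, add_zero]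
    have h1 := (h.x_col hi).t_col (hi.x k) (hj.x k)
    have h2 := (h.x_col hj).t_col (hi.x (k + 1)) (hj.x (k + 1))
    rw [D.fm_diag, add_sub_cancel_right] at h1 h2
    exact (h1.sub h2).add h
  · rw [phi_ne hi hj hij, dq, if_neg hij, ← sub_eq_add_neg]
    exact h.t_col hi hj

end hm

/-- sum of `dq` over pairs -/
def dqs (D : Datum K I) (ν μ : List I) : ℤ := (ν.map fun i => (μ.map fun j => dq D i j).sum).sum

section cp

variable {M : Type} [AddCommGroup M] [Module K M] [Module (KLRAlg D) M]
  [IsScalarTower K (KLRAlg D) M]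

/-- the degree and the word of `Cp n` -/
theorem Grd.Hm.cp {g : Grd D M} (ν ρ : List I) (b : I) (o : ℕ) {d : ℤ} {u : M} (h : g.Hm d u)
    (hw : WdAt D o (ν ++ b :: ρ) u) :
    g.Hm (d + (ν.map fun i => dq D i b).sum) (D.shn o (D.Cp ν.length) • u) ∧
      WdAt D o (b :: (ν ++ ρ)) (D.shn o (D.Cp ν.length) • u) := by
  induction ν generalizing o with
  | nil =>
    rw [List.length_nil, D.Cp_zero, map_one, one_smul]
    exact ⟨by simpa using h, hw⟩
  | cons a ν ih =>
    rw [List.cons_append, wdAt_cons] at hw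
    obtain ⟨h1, h2⟩ := ih (o + 1) hw.2
    have hC : D.shn o (D.Cp (a :: ν).length) = D.phi o * D.shn (o + 1) (D.Cp ν.length) := by
      rw [List.length_cons, Nat.add_comm, D.Cp_add, D.Cp_succ, D.Cp_zero, one_mul, map_mul,
        D.shn_phi, D.shn_shn, add_zero]
    rw [hC, mul_smul]
    have h3 : Col D o a (D.shn (o + 1) (D.Cp ν.length) • u) :=
      hw.1.shn (Nat.lt_succ_self o) _
    rw [wdAt_cons] at h2
    refine ⟨?_, h3.phi1 h2.1, ?_, ?_⟩
    · have h4 := h1.phi h3 h2.1
      rw [List.map_cons, List.sum_cons]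
      convert h4 using 1
      ring
    · exact h3.phi0 h2.1
    · exact h2.2.smul fun l i hl _ => D.phi_e o l i (by omega) (by omega)

/-- the degree and the word of `Ph n m` -/
theorem Grd.Hm.ph {g : Grd D M} (ν μ ρ : List I) (o : ℕ) {d : ℤ} {u : M} (h : g.Hm d u)
    (hw : WdAt D o (ν ++ (μ ++ ρ)) u) :
    g.Hm (d + dqs D ν μ) (D.shn o (D.Ph ν.length μ.length) • u) ∧
      WdAt D o (μ ++ (ν ++ ρ)) (D.shn o (D.Ph ν.length μ.length) • u) := by
  induction μ generalizing o d u with
  | nil =>
    rw [List.length_nil, D.Ph_zero, map_one, one_smul]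
    exact ⟨by simpa [dqs] using h, hw⟩
  | cons b μ ih =>
    rw [List.length_cons, D.Ph_succ, map_mul, D.shn_shn, mul_smul]
    obtain ⟨h1, h2⟩ := h.cp ν (μ ++ ρ) b o hw
    rw [wdAt_cons] at h2
    obtain ⟨h3, h4⟩ := ih (o + 1) h1 h2.2
    refine ⟨?_, h2.1.shn (Nat.lt_succ_self o) _, h4⟩
    convert h3 using 1
    have h5 : dqs D ν (b :: μ) = (ν.map fun i => dq D i b).sum + dqs D ν μ := by
      unfold dqs
      simp only [List.map_cons, List.sum_cons]
      rw [← List.sum_map_add]
    rw [h5]
    ring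

end cp

end Pool.Agent.KLS

end

section

/-! MP_e487d8_al, GRAD: the degree of the R-matrix and of its leading term. -/

set_option autoImplicit false
set_option linter.unusedSectionVars false

namespace Pool.Agent.KLS

variable {K I : Type} [Field K] [Fintype I] [DecidableEq I] {D : Datum K I}

/-- the module has the weight `β` -/
def WtOf (D : Datum K I) (n : ℕ) (M : Type) [AddCommGroup M] [Module (KLRAlg D) M] (β : I → ℕ) :
    Prop :=
  ∀ (ν : List I) (u : M), ν.length = n → WdAt D 0 ν u → u ≠ 0 → ∀ i, ν.count i = β i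

/-- the degree of the R-matrix for the weights `β`, `γ` -/
def dqw (D : Datum K I) (β γ : I → ℕ) : ℤ := ∑ i, ∑ j, dq D i j * (β i * γ j)

theorem dq_symm (i j : I) : dq D i j = dq D j i := by
  unfold dq
  rw [D.fm_symm i j]
  simp only [eq_comm]

theorem dqw_symm (β γ : I → ℕ) : dqw D β γ = dqw D γ β := by
  unfold dqw
  rw [Finset.sum_comm]
  refine Finset.sum_congr rfl fun i _ => Finset.sum_congr rfl fun j _ => ?_
  rw [dq_symm]
  ring

theorem sum_map_count (f : I → ℤ) (ν : List I) : (ν.map f).sum = ∑ i, (ν.count i : ℤ) * f i := by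
  induction ν with
  | nil => simp
  | cons a ν ih =>
    rw [List.map_cons, List.sum_cons, ih]
    simp only [List.count_cons]
    have : ∀ i, ((ν.count i + if a == i then 1 else 0 : ℕ) : ℤ) * f i =
        (ν.count i : ℤ) * f i + if a = i then f i else 0 := by
      intro i
      by_cases h : a = i
      · simp [h]; ring
      · simp [h]
    simp only [this, Finset.sum_add_distrib, Finset.sum_ite_eq, Finset.mem_univ, if_true]
    ring

theorem dqs_eq (ν μ : List I) : dqs D ν μ = dqw D (fun i => ν.count i) (fun i => μ.count i) := by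
  unfold dqs dqw
  rw [sum_map_count]
  refine Finset.sum_congr rfl fun i _ => ?_
  rw [sum_map_count, Finset.mul_sum]
  refine Finset.sum_congr rfl fun j _ => ?_
  ring

section

variable {m n : ℕ} {M N P : Type} [AddCommGroup M] [Module K M] [Module (KLRAlg D) M]
  [IsScalarTower K (KLRAlg D) M] [AddCommGroup N] [Module K N] [Module (KLRAlg D) N]
  [IsScalarTower K (KLRAlg D) N] [AddCommGroup P] [Module K P] [Module (KLRAlg D) P]
  [IsScalarTower K (KLRAlg D) P]

theorem Grd.hom_ext_wd (hM : IsStrand D m M) (hN : IsStrand D n N) (gM : Grd D M) (gN : Grd D N)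
    {f g : Conv D m M N →ₗ[KLRAlg D] P}
    (h : ∀ p q ν μ u v, ν.length = m → WdAt D 0 ν u → gM.Hm p u → μ.length = n → WdAt D 0 μ v →
      gN.Hm q v → f (Conv.mk D m M N u v) = g (Conv.mk D m M N u v)) : f = g := by
  apply Conv.hom_ext
  intro u v
  induction u using gM.word_induction hM with
  | h0 => simp
  | hadd u u' hu hu' => rw [map_add, LinearMap.add_apply, map_add, map_add, hu, hu']
  | h p ν u hν hw hu =>
    induction v using gN.word_induction hN with
    | h0 => simp
    | hadd v v' hv hv' => rw [map_add, map_add, map_add, hv, hv']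
    | h q μ v hμ hw' hv => exact h p q ν μ u v hν hw hu hμ hw' hv

/-- criterion for homogeneity of a map out of the convolution product -/
theorem HomDeg.of_mk_wd (hM : IsStrand D m M) (hN : IsStrand D n N) {gM : Grd D M} {gN : Grd D N}
    {gP : Grd D P} {s : ℤ} {f : Conv D m M N →ₗ[KLRAlg D] P}
    (h : ∀ p q ν μ u v, ν.length = m → WdAt D 0 ν u → gM.Hm p u → μ.length = n → WdAt D 0 μ v →
      gN.Hm q v → gP.Hm (p + q + s) (f (Conv.mk D m M N u v))) :
    HomDeg (Grd.conv m gM gN) gP s f := by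
  have h1 : gP.rho.comp f = ((Lau.shift D P s).comp (Lau.map f)).comp (Grd.conv m gM gN).rho := by
    apply Grd.hom_ext_wd hM hN gM gN
    intro p q ν μ u v a1 a2 hu a3 a4 hv
    have h2 := h p q ν μ u v a1 a2 hu a3 a4 hv
    have h3 : (Grd.conv m gM gN).Hm (p + q) (Conv.mk D m M N u v) := hu.mk m hv
    unfold Grd.Hm at h2 h3
    rw [LinearMap.comp_apply, h2, LinearMap.comp_apply, h3, LinearMap.comp_apply, Lau.map_sg,
      Lau.shift_sg]
  exact fun u => LinearMap.congr_fun h1 u

theorem WdAt.mk {ν μ : List I} {u : M} {v : N} (hν : ν.length = m) (hu : WdAt D 0 ν u)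
    (hv : WdAt D 0 μ v) : WdAt D 0 (ν ++ μ) (Conv.mk D m M N u v) := by
  rw [wdAt_append, zero_add, wdAt_zero_iff, wdAt_iff_eW, hν, Conv.shn_smul_mk]
  rw [wdAt_zero_iff] at hu hv
  refine ⟨?_, by rw [hv]⟩
  have h := Conv.tr_smul_mk (D := D) (m := m) (D.eW ν) u v
  rwa [D.tr_eW ν hν.le, hu] at h

/-- the degree of the R-matrix -/
theorem HomDeg.Rm (hM : IsStrand D m M) (hN : IsStrand D n N) {gM : Grd D M} {gN : Grd D N}
    {β γ : I → ℕ} (hβ : WtOf D m M β) (hγ : WtOf D n N γ) :
    HomDeg (Grd.conv m gM gN) (Grd.conv n gN gM) (dqw D β γ) (Conv.Rm hM hN) := by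
  apply HomDeg.of_mk_wd hM hN
  intro p q ν μ u v hν hwu hu hμ hwv hv
  rw [Conv.Rm_mk]
  by_cases hu0 : u = 0
  · rw [hu0]; simpa using Grd.Hm.zero
  by_cases hv0 : v = 0
  · rw [hv0]; simpa using Grd.Hm.zero
  have h1 : (Grd.conv n gN gM).Hm (q + p) (Conv.mk D n N M v u) := hv.mk n hu
  have h2 : WdAt D 0 (μ ++ (ν ++ [])) (Conv.mk D n N M v u) := by
    rw [List.append_nil]; exact hwv.mk hμ hwu
  have h3 := (h1.ph μ ν [] 0 h2).1
  rw [D.shn_zero, hν, hμ, dqs_eq] at h3
  have h4 : (fun i => ν.count i) = β := funext (hβ ν u hν hwu hu0)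
  have h5 : (fun i => μ.count i) = γ := funext (hγ μ v hμ hwv hv0)
  rw [h4, h5, dqw_symm] at h3
  convert h3 using 1
  ring

theorem HomDeg.pow {g : Grd D P} {s : ℤ} {f : P →ₗ[KLRAlg D] P} (hf : HomDeg g g s f) (k : ℕ) :
    HomDeg g g (k * s) (f ^ k) := by
  induction k with
  | zero =>
    rw [pow_zero, Nat.cast_zero, zero_mul]
    exact HomDeg.id
  | succ k ih =>
    rw [pow_succ', Module.End.mul_eq_comp]
    convert ih.comp hf using 1
    push_cast
    ring

end

section

variable {m n : ℕ} {W C N : Type}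
  [AddCommGroup W] [Module K W] [Module (KLRAlg D) W] [IsScalarTower K (KLRAlg D) W]
  [AddCommGroup C] [Module K C] [Module (KLRAlg D) C] [IsScalarTower K (KLRAlg D) C]
  [AddCommGroup N] [Module K N] [Module (KLRAlg D) N] [IsScalarTower K (KLRAlg D) N]
  {Z : W →ₗ[KLRAlg D] W} {p : W →ₗ[KLRAlg D] C}

/-- the degree of the leading term of the R-matrix -/
theorem Lead.homDeg (hb : S_basis D) {hA : IsAff D m Z p} {hN : IsStrand D n N} {s : ℕ}
    {r : Conv D m C N →ₗ[KLRAlg D] Conv D n N C} (h : Lead hA hN s r) {gW : Grd D W} {gC : Grd D C}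
    {gN : Grd D N} (hZ : HomDeg gW gW 2 Z) (hp : HomDeg gW gC 0 p) {β γ : I → ℕ}
    (hβ : WtOf D m W β) (hγ : WtOf D n N γ) :
    HomDeg (Grd.conv m gC gN) (Grd.conv n gN gC) (dqw D β γ - 2 * s) r := by
  obtain ⟨T, hT, hr⟩ := h
  have h1 := HomDeg.Rm (gM := gW) (gN := gN) hA.strand hN hβ hγ
  have h2 : HomDeg (Grd.conv n gN gW) (Grd.conv n gN gW) 2
      (Conv.map (rfl : n = n) (LinearMap.id : N →ₗ[KLRAlg D] N) Z) := by
    have := HomDeg.map (rfl : n = n) (HomDeg.id (gM := gN)) hZ
    rwa [zero_add] at this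
  have h3 : HomDeg (Grd.conv m gW gN) (Grd.conv n gN gW) (dqw D β γ - 2 * s) T := by
    refine HomDeg.of_comp_left (h2.pow s) ((hA.redR hb hN).pow_inj s) ?_
    rw [← hT]
    convert h1 using 1
    ring
  have h4 : HomDeg (Grd.conv n gN gW) (Grd.conv n gN gC) 0
      (Conv.map (rfl : n = n) (LinearMap.id : N →ₗ[KLRAlg D] N) p) := by
    have := HomDeg.map (rfl : n = n) (HomDeg.id (gM := gN)) hp
    rwa [zero_add] at this
  have h5 : HomDeg (Grd.conv m gW gN) (Grd.conv m gC gN) 0
      (Conv.map (rfl : m = m) p (LinearMap.id : N →ₗ[KLRAlg D] N)) := by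
    have := HomDeg.map (rfl : m = m) hp (HomDeg.id (gM := gN))
    rwa [zero_add] at this
  refine HomDeg.of_comp_right h5 (hA.redL hb hN).surj ?_
  rw [← hr]
  have h6 := h3.comp h4
  convert h6 using 1
  ring

end

end Pool.Agent.KLS

end
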