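import Pool.Agent.Work.MP_e487d8_al.Bd.B21
import Pool.Agent.Work.MP_e487d8_al.Bd.B05
import Pool.Agent.Work.MP_e487d8_al.Y.Mod.Shuf

/-! Bundle of small proof modules (one section per former module). -/

section

/-! MP_e487d8_al, GRAD: gradings of submodules and quotients, uniqueness of degrees, the associated
graded submodule. -/

set_option autoImplicit false
set_option linter.unusedSectionVars false

namespace Pool.Agent.KLS

variable {K I : Type} [Field K] [Fintype I] [DecidableEq I] {D : Datum K I}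

section

variable {M N P : Type} [AddCommGroup M] [Module K M] [Module (KLRAlg D) M]
  [IsScalarTower K (KLRAlg D) M] [AddCommGroup N] [Module K N] [Module (KLRAlg D) N]
  [IsScalarTower K (KLRAlg D) N] [AddCommGroup P] [Module K P] [Module (KLRAlg D) P]
  [IsScalarTower K (KLRAlg D) P]

namespace Lau

theorem map_injective {f : M →ₗ[KLRAlg D] N} (hf : Function.Injective f) :
    Function.Injective (map f) := by
  intro y z h
  apply ext_co
  intro d
  apply hf
  rw [← co_map, ← co_map, h]

theorem map_congr {f f' : M →ₗ[KLRAlg D] N} (h : f = f') (z : Lau D M) : map f z = map f' z := by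
  rw [h]

end Lau

namespace Grd

/-- the grading induced on a module which maps injectively onto a homogeneous submodule -/
noncomputable def ofInj (g : Grd D M) (j : N →ₗ[KLRAlg D] M) (hj : Function.Injective j)
    (h : ∀ v d, g.pr d (j v) ∈ LinearMap.range j) : Grd D N := by
  have hmem : ∀ v, (g.rho.comp j) v ∈ LinearMap.range (Lau.map j) := by
    intro v
    obtain ⟨S, hS⟩ := Lau.co_fin (g.rho (j v))
    have h1 := Lau.sum_co (g.rho (j v)) S hS
    rw [LinearMap.comp_apply, ← h1]
    refine Submodule.sum_mem _ fun d _ => ?_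
    obtain ⟨w, hw⟩ := h v d
    refine ⟨Lau.sg D d w, ?_⟩
    rw [Lau.map_sg, hw]
    rfl
  let R : N →ₗ[KLRAlg D] Lau D N :=
    (LinearEquiv.ofInjective (Lau.map j) (Lau.map_injective hj)).symm.toLinearMap ∘ₗ
      LinearMap.codRestrict (LinearMap.range (Lau.map j)) (g.rho.comp j) hmem
  have hR : ∀ v, Lau.map j (R v) = g.rho (j v) := by
    intro v
    have h2 := (LinearEquiv.ofInjective (Lau.map j) (Lau.map_injective hj)).apply_symm_apply
      (LinearMap.codRestrict (LinearMap.range (Lau.map j)) (g.rho.comp j) hmem v)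
    have h3 := congrArg Subtype.val h2
    rw [LinearEquiv.ofInjective_apply] at h3
    exact h3
  exact
    { rho := R
      tot := fun v => by
        apply hj
        rw [← Lau.tot_map, hR, g.tot]
      dg := fun v => by
        apply Lau.map_injective (Lau.map_injective hj)
        rw [Lau.map_map, Lau.map_dg, hR, ← g.dg, ← hR, Lau.map_map]
        apply Lau.map_congr
        ext w
        exact hR w }

theorem ofInj_hom (g : Grd D M) (j : N →ₗ[KLRAlg D] M) (hj : Function.Injective j)
    (h : ∀ v d, g.pr d (j v) ∈ LinearMap.range j) : HomDeg (g.ofInj j hj h) g 0 j := by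
  intro v
  rw [Lau.shift_zero]
  have hmem : ∀ v, (g.rho.comp j) v ∈ LinearMap.range (Lau.map j) := by
    intro v
    obtain ⟨S, hS⟩ := Lau.co_fin (g.rho (j v))
    have h1 := Lau.sum_co (g.rho (j v)) S hS
    rw [LinearMap.comp_apply, ← h1]
    refine Submodule.sum_mem _ fun d _ => ?_
    obtain ⟨w, hw⟩ := h v d
    refine ⟨Lau.sg D d w, ?_⟩
    rw [Lau.map_sg, hw]
    rfl
  have h2 := (LinearEquiv.ofInjective (Lau.map j) (Lau.map_injective hj)).apply_symm_apply
    (LinearMap.codRestrict (LinearMap.range (Lau.map j)) (g.rho.comp j) hmem v)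
  have h3 := congrArg Subtype.val h2
  rw [LinearEquiv.ofInjective_apply] at h3
  exact h3.symm

/-- the grading induced on a quotient by a homogeneous submodule -/
noncomputable def ofSurj (g : Grd D M) (q : M →ₗ[KLRAlg D] P) (hq : Function.Surjective q)
    (h : ∀ u d, q u = 0 → q (g.pr d u) = 0) : Grd D P := by
  have hker : ∀ u, q u = 0 → ((Lau.map q).comp g.rho) u = 0 := by
    intro u hu
    apply Lau.ext_co
    intro d
    rw [LinearMap.comp_apply, Lau.co_map, map_zero]
    exact h u d hu
  let R : P →ₗ[KLRAlg D] Lau D P :=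
    (Submodule.liftQ (LinearMap.ker q) ((Lau.map q).comp g.rho) (fun u hu => hker u hu)) ∘ₗ
      (q.quotKerEquivOfSurjective hq).symm.toLinearMap
  have hR : ∀ u, R (q u) = Lau.map q (g.rho u) := by
    intro u
    have h2 : (q.quotKerEquivOfSurjective hq).symm (q u) = Submodule.Quotient.mk u := by
      rw [LinearEquiv.symm_apply_eq]
      rfl
    simp only [R, LinearMap.comp_apply, LinearEquiv.coe_coe, h2]
    rfl
  exact
    { rho := R
      tot := fun v => by
        obtain ⟨u, rfl⟩ := hq v
        rw [hR, Lau.tot_map, g.tot]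
      dg := fun v => by
        obtain ⟨u, rfl⟩ := hq v
        rw [hR, Lau.map_map, ← Lau.map_dg, ← g.dg, Lau.map_map]
        apply Lau.map_congr
        ext w
        exact hR w }

theorem ofSurj_hom (g : Grd D M) (q : M →ₗ[KLRAlg D] P) (hq : Function.Surjective q)
    (h : ∀ u d, q u = 0 → q (g.pr d u) = 0) : HomDeg g (g.ofSurj q hq h) 0 q := by
  intro u
  rw [Lau.shift_zero]
  have hker : ∀ u, q u = 0 → ((Lau.map q).comp g.rho) u = 0 := by
    intro u hu
    apply Lau.ext_co
    intro d
    rw [LinearMap.comp_apply, Lau.co_map, map_zero]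
    exact h u d hu
  have h2 : (q.quotKerEquivOfSurjective hq).symm (q u) = Submodule.Quotient.mk u := by
    rw [LinearEquiv.symm_apply_eq]
    rfl
  change (Submodule.liftQ (LinearMap.ker q) ((Lau.map q).comp g.rho) (fun u hu => hker u hu))
    ((q.quotKerEquivOfSurjective hq).symm (q u)) = _
  rw [h2]
  rfl

/-- transport of a grading along an isomorphism -/
noncomputable def ofEquiv (g : Grd D M) (φ : M ≃ₗ[KLRAlg D] P) : Grd D P :=
  g.ofSurj φ.toLinearMap φ.surjective (fun u d hu => by
    have : u = 0 := φ.injective (by simpa using hu)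
    rw [this]; simp)

theorem ofEquiv_hom (g : Grd D M) (φ : M ≃ₗ[KLRAlg D] P) :
    HomDeg g (g.ofEquiv φ) 0 φ.toLinearMap := ofSurj_hom _ _ _ _

/-- the grading shifted by `s` -/
noncomputable def shift (g : Grd D M) (s : ℤ) : Grd D M where
  rho := (Lau.shift D M s).comp g.rho
  tot u := by rw [LinearMap.comp_apply, Lau.tot_shift, g.tot]
  dg u := by
    rw [LinearMap.comp_apply]
    have h1 : ∀ z : Lau D M, Lau.map ((Lau.shift D M s).comp g.rho) z =
        Lau.map (Lau.shift D M s) (Lau.map g.rho z) := fun z => (Lau.map_map _ _ z).symm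
    have h2 : ∀ z : Lau D M, Lau.map (Lau.shift D M s) (Lau.shift D (Lau D M) s (Lau.dg D M z)) =
        Lau.dg D M (Lau.shift D M s z) := by
      intro z
      induction z using Lau.induction with
      | h0 => simp
      | h d u => simp
      | hadd y z hy hz => simp only [map_add, hy, hz]
    rw [h1, Lau.map_shift, g.dg, h2]

theorem shift_hm {g : Grd D M} {s d : ℤ} {u : M} (h : g.Hm d u) : (g.shift s).Hm (d + s) u := by
  unfold Hm at *
  change Lau.shift D M s (g.rho u) = _
  rw [h, Lau.shift_sg]

/-- uniqueness of homogeneous components: nonzero homogeneous vectors have a unique degree -/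
theorem Hm.deg_unique {g : Grd D M} {d d' : ℤ} {u : M} (h : g.Hm d u) (h' : g.Hm d' u)
    (hu : u ≠ 0) : d = d' := by
  by_contra hd
  have h1 := h.pr_eq d'
  rw [if_neg hd] at h1
  exact hu ((hm_iff.1 h').symm.trans h1)

/-- a finite dimensional graded module has finitely many degrees -/
theorem fin_degrees [FiniteDimensional K M] (g : Grd D M) :
    ∃ S : Finset ℤ, ∀ d, d ∉ S → ∀ u, g.pr d u = 0 := by
  classical
  let b := Module.finBasis K M
  choose T hT using fun i => Lau.co_fin (g.rho (b i))
  refine ⟨Finset.univ.biUnion T, fun d hd u => ?_⟩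
  have h1 : g.pr d = 0 := by
    apply b.ext
    intro i
    rw [LinearMap.zero_apply]
    exact hT i d fun h => hd (Finset.mem_biUnion.2 ⟨i, Finset.mem_univ i, h⟩)
  rw [h1, LinearMap.zero_apply]

theorem exists_hm_ne (g : Grd D M) {u : M} (hu : u ≠ 0) : ∃ d, g.pr d u ≠ 0 := by
  by_contra h
  push Not at h
  obtain ⟨S, _, hS⟩ := g.sum_pr u
  apply hu
  rw [← hS]
  exact Finset.sum_eq_zero fun d _ => h d

end Grd

/-- an injective homogeneous endomorphism of a nonzero finite dimensional graded module has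
degree `0` -/
theorem HomDeg.deg_eq_zero [FiniteDimensional K M] [Nontrivial M] {g : Grd D M} {s : ℤ}
    {f : M →ₗ[KLRAlg D] M} (hf : HomDeg g g s f) (hi : Function.Injective f) : s = 0 := by
  obtain ⟨S, hS⟩ := g.fin_degrees
  obtain ⟨u, hu⟩ := exists_ne (0 : M)
  obtain ⟨d, hd⟩ := g.exists_hm_ne hu
  have hpow : ∀ k : ℕ, f^[k] (g.pr d u) ≠ 0 ∧ g.Hm (d + k * s) (f^[k] (g.pr d u)) := by
    intro k
    induction k with
    | zero => exact ⟨hd, by simpa using g.hm_pr d u⟩
    | succ k ih =>
      rw [Function.iterate_succ_apply']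
      refine ⟨fun h => ih.1 (hi (by rw [h, map_zero])), ?_⟩
      have := hf.hm ih.2
      convert this using 1
      push_cast
      ring
  have hmem : ∀ k : ℕ, d + k * s ∈ S := by
    intro k
    by_contra h
    have h1 := Grd.hm_iff.1 (hpow k).2
    rw [hS _ h] at h1
    exact (hpow k).1 h1.symm
  by_contra hs
  have hinj : Function.Injective fun k : ℕ => d + k * s := by
    intro a b hab
    simp only [add_right_inj] at hab
    have := mul_right_cancel₀ hs hab
    exact_mod_cast this
  exact Set.infinite_of_injective_forall_mem hinj hmem (Finset.finite_toSet S)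

/-- two isomorphisms between finite dimensional graded modules which are homogeneous have the
same degree -/
theorem HomDeg.deg_unique [FiniteDimensional K M] [Nontrivial M] {gM : Grd D M} {gN : Grd D N}
    {s s' : ℤ} {f f' : M →ₗ[KLRAlg D] N} (hf : HomDeg gM gN s f) (hf' : HomDeg gM gN s' f')
    (hi : Function.Bijective f) (hi' : Function.Bijective f') : s = s' := by
  let e := LinearEquiv.ofBijective f' hi'
  have he : HomDeg gN gM (-s') e.symm.toLinearMap := by
    refine HomDeg.of_comp_right hf' hi'.2 ?_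
    have h1 : e.symm.toLinearMap.comp f' = LinearMap.id := by
      ext u
      exact e.symm_apply_apply u
    rw [h1, add_neg_cancel]
    exact HomDeg.id
  have h2 := (hf.comp he).deg_eq_zero (by
    intro u v h
    exact hi.1 (e.symm.injective h))
  omega

end

end Pool.Agent.KLS

end

section

/-! MP_e487d8_al, GRAD: the associated graded submodule (top components); graded simple modules
are simple; a unique maximal submodule is homogeneous. -/

set_option autoImplicit false
set_option linter.unusedSectionVars false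

namespace Pool.Agent.KLS

variable {K I : Type} [Field K] [Fintype I] [DecidableEq I] {D : Datum K I}

section

variable {M N P : Type} [AddCommGroup M] [Module K M] [Module (KLRAlg D) M]
  [IsScalarTower K (KLRAlg D) M]

theorem Grd.pr_e (g : Grd D M) (d : ℤ) (k : ℕ) (i : I) (u : M) :
    g.pr d (D.e k i • u) = D.e k i • g.pr d u := by
  induction u using g.induction with
  | h0 => simp
  | hadd u v hu hv => rw [smul_add, map_add, map_add, smul_add, hu, hv]
  | h d' u hu =>
    rw [(hu.e k i).pr_eq, hu.pr_eq]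
    split_ifs <;> simp

theorem Grd.pr_x (g : Grd D M) (d : ℤ) (k : ℕ) (i : I) (u : M) :
    g.pr d ((D.x k * D.e k i) • u) = (D.x k * D.e k i) • g.pr (d - D.xdeg i) u := by
  induction u using g.induction with
  | h0 => simp
  | hadd u v hu hv => rw [smul_add, map_add, map_add, smul_add, hu, hv]
  | h d' u hu =>
    rw [(hu.x k i).pr_eq, hu.pr_eq]
    by_cases h : d' + D.xdeg i = d
    · rw [if_pos h, if_pos (by omega)]
    · rw [if_neg h, if_neg (by omega), smul_zero]

theorem Grd.pr_t (g : Grd D M) (d : ℤ) (k : ℕ) (i j : I) (u : M) :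
    g.pr d ((D.t k * (D.e k i * D.e (k + 1) j)) • u) =
      (D.t k * (D.e k i * D.e (k + 1) j)) • g.pr (d + D.fm i j) u := by
  induction u using g.induction with
  | h0 => simp
  | hadd u v hu hv => rw [smul_add, map_add, map_add, smul_add, hu, hv]
  | h d' u hu =>
    rw [(hu.t k i j).pr_eq, hu.pr_eq]
    by_cases h : d' - D.fm i j = d
    · rw [if_pos h, if_pos (by omega)]
    · rw [if_neg h, if_neg (by omega), smul_zero]

/-- closure of a `K`-subspace under the KLR algebra -/
theorem smul_mem_of_gens (S : Submodule K M) (he : ∀ k i u, u ∈ S → D.e k i • u ∈ S)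
    (hx : ∀ k i u, u ∈ S → (D.x k * D.e k i) • u ∈ S)
    (ht : ∀ k i j u, u ∈ S → (D.t k * (D.e k i * D.e (k + 1) j)) • u ∈ S) (a : KLRAlg D) {u : M}
    (hu : u ∈ S) : a • u ∈ S := by
  induction a using KLRAlg.induction generalizing u with
  | hs r => rw [algebraMap_smul]; exact S.smul_mem r hu
  | he k i => exact he k i u hu
  | hx k =>
    rw [← Lau.x_smul_sum k u]
    exact S.sum_mem fun i _ => hx k i u hu
  | ht k =>
    rw [← Lau.t_smul_sum k u]
    exact Submodule.sum_mem _ fun i _ => Submodule.sum_mem _ fun j _ => ht k i j u hu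
  | hadd a b ha hb => rw [add_smul]; exact S.add_mem (ha hu) (hb hu)
  | hmul a b ha hb => rw [mul_smul]; exact ha (hb hu)

/-- `s` is an element of `S` with components in degrees `≤ d` -/
def LeDeg (g : Grd D M) (S : Submodule (KLRAlg D) M) (d : ℤ) (s : M) : Prop :=
  s ∈ S ∧ ∀ e, d < e → g.pr e s = 0

theorem LeDeg.add {g : Grd D M} {S : Submodule (KLRAlg D) M} {d : ℤ} {s s' : M}
    (h : LeDeg g S d s) (h' : LeDeg g S d s') : LeDeg g S d (s + s') :=
  ⟨S.add_mem h.1 h'.1, fun e he => by rw [map_add, h.2 e he, h'.2 e he, add_zero]⟩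

theorem LeDeg.zero {g : Grd D M} {S : Submodule (KLRAlg D) M} {d : ℤ} : LeDeg g S d 0 :=
  ⟨S.zero_mem, fun _ _ => map_zero _⟩

/-- the top components of the elements of `S` -/
noncomputable def grSub (g : Grd D M) (S : Submodule (KLRAlg D) M) : Submodule (KLRAlg D) M :=
  let T : Submodule K M :=
    { carrier := {u | ∀ d, ∃ s, LeDeg g S d s ∧ g.pr d s = g.pr d u}
      zero_mem' := fun d => ⟨0, LeDeg.zero, rfl⟩
      add_mem' := fun {u v} hu hv d => by
        obtain ⟨s, h1, h2⟩ := hu d
        obtain ⟨s', h3, h4⟩ := hv d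
        exact ⟨s + s', h1.add h3, by rw [map_add, map_add, h2, h4]⟩
      smul_mem' := fun r u hu d => by
        obtain ⟨s, h1, h2⟩ := hu d
        refine ⟨r • s, ⟨?_, fun e he => by rw [map_smul, h1.2 e he, smul_zero]⟩, by
          rw [map_smul, map_smul, h2]⟩
        rw [← algebraMap_smul (KLRAlg D) r s]
        exact S.smul_mem _ h1.1 }
  { carrier := T
    zero_mem' := T.zero_mem
    add_mem' := T.add_mem
    smul_mem' := fun a u hu => by
      refine smul_mem_of_gens T ?_ ?_ ?_ a hu
      · intro k i u hu d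
        obtain ⟨s, h1, h2⟩ := hu d
        refine ⟨D.e k i • s, ⟨S.smul_mem _ h1.1, fun e he => ?_⟩, ?_⟩
        · rw [g.pr_e, h1.2 e he, smul_zero]
        · rw [g.pr_e, g.pr_e, h2]
      · intro k i u hu d
        obtain ⟨s, h1, h2⟩ := hu (d - D.xdeg i)
        refine ⟨(D.x k * D.e k i) • s, ⟨S.smul_mem _ h1.1, fun e he => ?_⟩, ?_⟩
        · rw [g.pr_x, h1.2 _ (by omega), smul_zero]
        · rw [g.pr_x, g.pr_x, h2]
      · intro k i j u hu d
        obtain ⟨s, h1, h2⟩ := hu (d + D.fm i j)
        refine ⟨(D.t k * (D.e k i * D.e (k + 1) j)) • s, ⟨S.smul_mem _ h1.1, fun e he => ?_⟩, ?_⟩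
        · rw [g.pr_t, h1.2 _ (by omega), smul_zero]
        · rw [g.pr_t, g.pr_t, h2] }

theorem mem_grSub {g : Grd D M} {S : Submodule (KLRAlg D) M} {u : M} :
    u ∈ grSub g S ↔ ∀ d, ∃ s, LeDeg g S d s ∧ g.pr d s = g.pr d u := Iff.rfl

/-- `grSub` is homogeneous -/
theorem grSub_pr {g : Grd D M} {S : Submodule (KLRAlg D) M} {u : M} (h : u ∈ grSub g S) (d : ℤ) :
    g.pr d u ∈ grSub g S := by
  rw [mem_grSub] at *
  intro e
  by_cases hde : d = e
  · subst hde
    obtain ⟨s, h1, h2⟩ := h d
    exact ⟨s, h1, by rw [h2, g.pr_pr, if_pos rfl]⟩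
  · exact ⟨0, LeDeg.zero, by rw [g.pr_pr, if_neg hde, map_zero]⟩

/-- the top component of an element of `S` is in `grSub` -/
theorem LeDeg.top_mem {g : Grd D M} {S : Submodule (KLRAlg D) M} {d : ℤ} {s : M}
    (h : LeDeg g S d s) : g.pr d s ∈ grSub g S := by
  rw [mem_grSub]
  intro e
  by_cases hde : d = e
  · subst hde
    exact ⟨s, h, by rw [g.pr_pr, if_pos rfl]⟩
  · exact ⟨0, LeDeg.zero, by rw [g.pr_pr, if_neg hde, map_zero]⟩

theorem exists_top (g : Grd D M) {u : M} (hu : u ≠ 0) :
    ∃ d, g.pr d u ≠ 0 ∧ ∀ e, d < e → g.pr e u = 0 := by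
  classical
  obtain ⟨S, hS, _⟩ := g.sum_pr u
  obtain ⟨d₀, hd₀⟩ := g.exists_hm_ne hu
  let S' := S.filter fun d => g.pr d u ≠ 0
  have hne : S'.Nonempty := ⟨d₀, Finset.mem_filter.2 ⟨by
    by_contra h; exact hd₀ (hS _ h), hd₀⟩⟩
  refine ⟨S'.max' hne, (Finset.mem_filter.1 (S'.max'_mem hne)).2, fun e he => ?_⟩
  by_contra h
  have : e ∈ S' := Finset.mem_filter.2 ⟨by by_contra h'; exact h (hS _ h'), h⟩
  exact absurd (S'.le_max' e this) (not_le.2 he)

theorem grSub_ne_bot {g : Grd D M} {S : Submodule (KLRAlg D) M} (h : S ≠ ⊥) : grSub g S ≠ ⊥ := by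
  obtain ⟨u, hu, hu0⟩ := (Submodule.ne_bot_iff S).1 h
  obtain ⟨d, hd, hd'⟩ := exists_top g hu0
  exact (Submodule.ne_bot_iff _).2 ⟨g.pr d u, LeDeg.top_mem ⟨hu, hd'⟩, hd⟩

/-- induction from the bottom: if `grSub g S` is everything then `S` is everything -/
theorem eq_top_of_grSub [FiniteDimensional K M] {g : Grd D M} {S : Submodule (KLRAlg D) M}
    (h : grSub g S = ⊤) : S = ⊤ := by
  obtain ⟨T, hT⟩ := g.fin_degrees
  -- a lower bound for the degrees
  obtain ⟨b, hb⟩ : ∃ b : ℤ, ∀ d, d < b → ∀ u, g.pr d u = 0 := by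
    obtain ⟨b, hb⟩ := T.bddBelow
    exact ⟨b, fun d hd => hT d fun hd' => absurd (hb hd') (not_le.2 hd)⟩
  have key : ∀ k : ℕ, ∀ u : M, (∀ e, b + k ≤ e → g.pr e u = 0) → u ∈ S := by
    intro k
    induction k with
    | zero =>
      intro u hu
      have : u = 0 := by
        by_contra hu0
        obtain ⟨d, hd⟩ := g.exists_hm_ne hu0
        rcases lt_or_ge d b with h1 | h1
        · exact hd (hb d h1 u)
        · exact hd (hu d (by simpa using h1))
      rw [this]
      exact S.zero_mem
    | succ k ih =>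
      intro u hu
      have hu' : u ∈ grSub g S := by rw [h]; trivial
      obtain ⟨s, h1, h2⟩ := mem_grSub.1 hu' (b + k)
      have h3 : u - s ∈ S := by
        apply ih
        intro e he
        rw [map_sub]
        rcases eq_or_lt_of_le he with h4 | h4
        · rw [← h4, h2, sub_self]
        · rw [h1.2 e h4, sub_zero]
          exact hu e (by push_cast; omega)
      have := S.add_mem h3 h1.1
      rwa [sub_add_cancel] at this
  rw [eq_top_iff]
  intro u _
  obtain ⟨B, hB⟩ := T.bddAbove
  refine key (B + 1 - b).toNat u fun e he => hT e (fun hd' => ?_) u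
  have h5 := hB hd'
  have h6 := Int.self_le_toNat (B + 1 - b)
  omega

/-- if `grSub g S` is contained in `S` then `S` is homogeneous -/
theorem pr_mem_of_grSub_le {g : Grd D M} {S : Submodule (KLRAlg D) M} (h : grSub g S ≤ S) {u : M}
    (hu : u ∈ S) (d : ℤ) : g.pr d u ∈ S := by
  classical
  have key : ∀ k : ℕ, ∀ u ∈ S, ∀ T : Finset ℤ, T.card ≤ k → (∀ e, e ∉ T → g.pr e u = 0) →
      ∀ d, g.pr d u ∈ S := by
    intro k
    induction k with
    | zero =>
      intro u _ T hT hT' d
      have : T = ∅ := Finset.card_eq_zero.1 (by omega)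
      rw [hT' d (by rw [this]; simp)]
      exact S.zero_mem
    | succ k ih =>
      intro u hu T hT hT' d
      by_cases hu0 : u = 0
      · rw [hu0, map_zero]; exact S.zero_mem
      obtain ⟨t, ht, ht'⟩ := exists_top g hu0
      have h1 : g.pr t u ∈ S := h (LeDeg.top_mem ⟨hu, ht'⟩)
      have htT : t ∈ T := by by_contra h2; exact ht (hT' t h2)
      have h3 := ih (u - g.pr t u) (S.sub_mem hu h1) (T.erase t) (by
        rw [Finset.card_erase_of_mem htT]; omega) (by
        intro e he
        rw [map_sub, g.pr_pr]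
        by_cases h4 : t = e
        · rw [if_pos h4, h4, sub_self]
        · rw [if_neg h4, sub_zero]
          apply hT'
          intro h5
          exact he (Finset.mem_erase.2 ⟨Ne.symm h4, h5⟩)) d
      rw [map_sub, g.pr_pr] at h3
      by_cases h4 : t = d
      · rwa [← h4]
      · rwa [if_neg h4, sub_zero] at h3
  obtain ⟨T, hT, _⟩ := g.sum_pr u
  exact key T.card u hu T le_rfl hT d

/-- a unique maximal submodule is homogeneous -/
theorem pr_mem_of_unique_max [FiniteDimensional K M] (g : Grd D M) {S : Submodule (KLRAlg D) M}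
    (hS : S ≠ ⊤) (hmax : ∀ U : Submodule (KLRAlg D) M, U ≠ ⊤ → U ≤ S) {u : M} (hu : u ∈ S)
    (d : ℤ) : g.pr d u ∈ S :=
  pr_mem_of_grSub_le (hmax _ fun h => hS (eq_top_of_grSub h)) hu d

/-- a graded simple module is simple -/
theorem simple_of_graded_simple [FiniteDimensional K M] [Nontrivial M] (g : Grd D M)
    (h : ∀ S : Submodule (KLRAlg D) M, (∀ u ∈ S, ∀ d, g.pr d u ∈ S) → S = ⊥ ∨ S = ⊤) :
    IsSimpleModule (KLRAlg D) M := by
  rw [isSimpleModule_iff]
  refine { exists_pair_ne := exists_pair_ne _, eq_bot_or_eq_top := fun S => ?_ }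
  by_cases hS : S = ⊥
  · exact Or.inl hS
  · right
    rcases h (grSub g S) (fun u hu d => grSub_pr hu d) with h1 | h1
    · exact absurd h1 (grSub_ne_bot hS)
    · exact eq_top_of_grSub h1

end

end Pool.Agent.KLS

end

section

/-! MP_e487d8_al, block Gk: the graded character of a graded module. -/

set_option autoImplicit false
set_option linter.unusedSectionVars false

open scoped LaurentPolynomial TensorProduct
open Pool.Agent.E487.Hopf

namespace Pool.Agent.KLS

variable {K I : Type} [Field K] [Fintype I] [DecidableEq I] {D : Datum K I}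

section lin

variable {V W : Type} [AddCommGroup V] [Module K V] [AddCommGroup W] [Module K W]

omit [Fintype I] [DecidableEq I] in
/-- rank of a sum of two orthogonal idempotents -/
theorem finrank_range_add [FiniteDimensional K V] {p q : Module.End K V} (hp : p * p = p)
    (hq : q * q = q) (hpq : p * q = 0) (hqp : q * p = 0) :
    Module.finrank K (LinearMap.range (p + q)) =
      Module.finrank K (LinearMap.range p) + Module.finrank K (LinearMap.range q) := by
  have hp' : ∀ v, p (p v) = p v := fun v => LinearMap.congr_fun hp v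
  have hq' : ∀ v, q (q v) = q v := fun v => LinearMap.congr_fun hq v
  have hpq' : ∀ v, p (q v) = 0 := fun v => LinearMap.congr_fun hpq v
  have hqp' : ∀ v, q (p v) = 0 := fun v => LinearMap.congr_fun hqp v
  have h1 : LinearMap.range (p + q) = LinearMap.range p ⊔ LinearMap.range q := by
    apply le_antisymm
    · rintro _ ⟨v, rfl⟩
      exact Submodule.add_mem_sup ⟨v, rfl⟩ ⟨v, rfl⟩
    · refine sup_le ?_ ?_
      · rintro _ ⟨v, rfl⟩
        exact ⟨p v, by rw [LinearMap.add_apply, hp', hqp', add_zero]⟩
      · rintro _ ⟨v, rfl⟩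
        exact ⟨q v, by rw [LinearMap.add_apply, hq', hpq', zero_add]⟩
  have h2 : LinearMap.range p ⊓ LinearMap.range q = ⊥ := by
    rw [Submodule.eq_bot_iff]
    rintro _ ⟨⟨v, rfl⟩, w, hw⟩
    rw [← hp' v, ← hw, hpq']
  have h3 := Submodule.finrank_sup_add_finrank_inf_eq (LinearMap.range p) (LinearMap.range q)
  rw [h2, finrank_bot, add_zero] at h3
  rw [h1, h3]

omit [Fintype I] [DecidableEq I] in
/-- rank of a sum of orthogonal idempotents -/
theorem finrank_range_sum [FiniteDimensional K V] {ι : Type} (S : Finset ι)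
    (p : ι → Module.End K V) (hp : ∀ a ∈ S, p a * p a = p a)
    (ho : ∀ a ∈ S, ∀ b ∈ S, a ≠ b → p a * p b = 0) :
    Module.finrank K (LinearMap.range (∑ a ∈ S, p a)) =
      ∑ a ∈ S, Module.finrank K (LinearMap.range (p a)) := by
  classical
  induction S using Finset.induction_on with
  | empty =>
    rw [Finset.sum_empty, Finset.sum_empty, LinearMap.range_zero, finrank_bot]
  | insert a S ha ih =>
    have hp' : ∀ b ∈ S, p b * p b = p b := fun b hb => hp b (Finset.mem_insert_of_mem hb)
    have ho' : ∀ b ∈ S, ∀ c ∈ S, b ≠ c → p b * p c = 0 := fun b hb c hc =>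
      ho b (Finset.mem_insert_of_mem hb) c (Finset.mem_insert_of_mem hc)
    have hne : ∀ b ∈ S, a ≠ b := fun b hb h => ha (h ▸ hb)
    rw [Finset.sum_insert ha, Finset.sum_insert ha, finrank_range_add, ih hp' ho']
    · exact hp a (Finset.mem_insert_self a S)
    · rw [Finset.sum_mul_sum]
      refine Finset.sum_congr rfl fun b hb => ?_
      rw [Finset.sum_eq_single b]
      · exact hp' b hb
      · intro c hc hcb
        exact ho' b hb c hc (Ne.symm hcb)
      · intro h
        exact absurd hb h
    · rw [Finset.mul_sum]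
      exact Finset.sum_eq_zero fun b hb => ho a (Finset.mem_insert_self a S) b
        (Finset.mem_insert_of_mem hb) (hne b hb)
    · rw [Finset.sum_mul]
      exact Finset.sum_eq_zero fun b hb => ho b (Finset.mem_insert_of_mem hb) a
        (Finset.mem_insert_self a S) (Ne.symm (hne b hb))

omit [Fintype I] [DecidableEq I] in
/-- rank of a tensor product of maps -/
theorem finrank_range_tmap [FiniteDimensional K V] [FiniteDimensional K W] (p : Module.End K V)
    (q : Module.End K W) :
    Module.finrank K (LinearMap.range (TensorProduct.map p q)) =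
      Module.finrank K (LinearMap.range p) * Module.finrank K (LinearMap.range q) := by
  have h1 : LinearMap.range (TensorProduct.map p q) =
      LinearMap.range (TensorProduct.map (LinearMap.range p).subtype
        (LinearMap.range q).subtype) := by
    apply le_antisymm
    · rintro _ ⟨z, rfl⟩
      exact ⟨_, map_range_restrict p q z⟩
    · rintro _ ⟨z, rfl⟩
      have h2 : Function.Surjective (TensorProduct.map p.rangeRestrict q.rangeRestrict) :=
        TensorProduct.map_surjective p.surjective_rangeRestrict q.surjective_rangeRestrict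
      obtain ⟨y, rfl⟩ := h2 z
      exact ⟨y, (map_range_restrict p q y).symm⟩
  rw [h1, LinearMap.finrank_range_of_inj, Module.finrank_tensorProduct]
  exact TensorProduct.map_injective_of_flat_flat _ _ (Submodule.injective_subtype _)
      (Submodule.injective_subtype _)

end lin

namespace Grd

variable {M N P : Type} [AddCommGroup M] [Module K M] [Module (KLRAlg D) M]
  [IsScalarTower K (KLRAlg D) M] [AddCommGroup N] [Module K N] [Module (KLRAlg D) N]
  [IsScalarTower K (KLRAlg D) N]

/-- elements which keep the degrees commute with the projections -/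
theorem pr_shn_eW (g : Grd D M) (d : ℤ) (k : ℕ) (ν : List I) (u : M) :
    g.pr d (D.shn k (D.eW ν) • u) = D.shn k (D.eW ν) • g.pr d u := by
  induction ν generalizing k u with
  | nil => rw [D.eW_nil, map_one, one_smul, one_smul]
  | cons i ν ih =>
    rw [D.eW_cons, map_mul, D.shn_e, D.shn_shn, mul_smul, mul_smul, g.pr_e, ih]

theorem pr_eW (g : Grd D M) (d : ℤ) (ν : List I) (u : M) :
    g.pr d (D.eW ν • u) = D.eW ν • g.pr d u := by
  have h := g.pr_shn_eW d 0 ν u
  rwa [D.shn_zero] at h

variable (g : Grd D M)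

/-- the projection to the homogeneous component of degree `d` of the word space `e(ν) M` -/
noncomputable def gop (ν : List I) (d : ℤ) : Module.End K M :=
  Algebra.lsmul K K M (D.eW ν) * g.pr d

theorem gop_apply (ν : List I) (d : ℤ) (u : M) : g.gop ν d u = D.eW ν • g.pr d u := rfl

theorem gop_idem (ν : List I) (d : ℤ) : g.gop ν d * g.gop ν d = g.gop ν d := by
  ext u
  rw [Module.End.mul_apply, gop_apply, gop_apply, g.pr_eW, g.pr_pr, if_pos rfl, ← mul_smul,
    D.eW_idem]

theorem gop_deg {ν μ : List I} {d d' : ℤ} (h : d ≠ d') : g.gop ν d * g.gop μ d' = 0 := by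
  ext u
  rw [Module.End.mul_apply, gop_apply, gop_apply, g.pr_eW, g.pr_pr, if_neg (Ne.symm h), smul_zero,
    smul_zero, LinearMap.zero_apply]

theorem gop_word {ν μ : List I} (hl : ν.length = μ.length) (h : ν ≠ μ) {d d' : ℤ} :
    g.gop ν d * g.gop μ d' = 0 := by
  ext u
  rw [Module.End.mul_apply, gop_apply, gop_apply, g.pr_eW, ← mul_smul, D.eW_ne ν μ hl h, zero_smul,
    LinearMap.zero_apply]

/-- the dimension of the homogeneous component of degree `d` of the word space `e(ν) M` -/
noncomputable def gdim (ν : List I) (d : ℤ) : ℕ := Module.finrank K (LinearMap.range (g.gop ν d))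

theorem gdim_zero {ν : List I} {d : ℤ} (h : ∀ u, g.pr d u = 0) : g.gdim ν d = 0 := by
  have h1 : g.gop ν d = 0 := by
    ext u
    rw [gop_apply, h, smul_zero, LinearMap.zero_apply]
  rw [gdim, h1, LinearMap.range_zero, finrank_bot]

theorem gdim_support [FiniteDimensional K M] :
    ∃ S : Finset ℤ, (∀ d, d ∉ S → ∀ u, g.pr d u = 0) ∧ ∀ ν d, d ∉ S → g.gdim ν d = 0 := by
  obtain ⟨S, hS⟩ := g.fin_degrees
  exact ⟨S, hS, fun ν d hd => g.gdim_zero (hS d hd)⟩

/-- the sum of the homogeneous components -/
theorem sum_gop {S : Finset ℤ} (hS : ∀ d, d ∉ S → ∀ u, g.pr d u = 0) (ν : List I) :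
    ∑ d ∈ S, g.gop ν d = Algebra.lsmul K K M (D.eW ν) := by
  ext u
  rw [LinearMap.sum_apply]
  have h1 := congrArg (Lau.tot D M) (Lau.sum_co (g.rho u) S (fun d hd => hS d hd u))
  rw [g.tot, map_sum] at h1
  simp only [Lau.tot_sg] at h1
  change ∑ d ∈ S, D.eW ν • g.pr d u = D.eW ν • u
  rw [← Finset.smul_sum]
  exact congrArg _ h1

/-- the dimension of a word space is the sum of the dimensions of the homogeneous components -/
theorem sum_gdim [FiniteDimensional K M] {S : Finset ℤ} (hS : ∀ d, d ∉ S → ∀ u, g.pr d u = 0)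
    (ν : List I) : ∑ d ∈ S, g.gdim ν d = Module.finrank K (wordSp D M ν) := by
  unfold gdim wordSp
  rw [← finrank_range_sum S (g.gop ν) (fun d _ => g.gop_idem ν d) (fun d _ d' _ h => g.gop_deg h),
    g.sum_gop hS]

/-- the graded character -/
noncomputable def gchr (n : ℕ) : QSh D.fm := fun ν =>
  if ν.length = n then ∑ᶠ d : ℤ, (g.gdim ν d : ℤ[T;T⁻¹]) * LaurentPolynomial.T d else 0

theorem gchr_ne {n : ℕ} {ν : List I} (h : ν.length ≠ n) : g.gchr n ν = 0 := if_neg h

theorem gchr_eq {n : ℕ} {ν : List I} (h : ν.length = n) {S : Finset ℤ}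
    (hS : ∀ d, d ∉ S → g.gdim ν d = 0) :
    g.gchr n ν = ∑ d ∈ S, (g.gdim ν d : ℤ[T;T⁻¹]) * LaurentPolynomial.T d := by
  unfold gchr
  rw [if_pos h, finsum_eq_sum_of_support_subset]
  intro d hd
  by_contra hd'
  apply hd
  change (g.gdim ν d : ℤ[T;T⁻¹]) * LaurentPolynomial.T d = 0
  rw [hS d hd', Nat.cast_zero, zero_mul]

omit [Fintype I] [DecidableEq I] in
theorem coeff_sum_T (S : Finset ℤ) (f : ℤ → ℕ) (hS : ∀ d, d ∉ S → f d = 0)
    (d : ℤ) : (∑ e ∈ S, (f e : ℤ[T;T⁻¹]) * LaurentPolynomial.T e).coeff d = (f d : ℤ) := by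
  classical
  have h1 : ∀ e : ℤ, ((f e : ℤ[T;T⁻¹]) * LaurentPolynomial.T e).coeff d =
      if e = d then (f e : ℤ) else 0 := by
    intro e
    have h2 : ((f e : ℤ[T;T⁻¹]) * LaurentPolynomial.T e) =
        LaurentPolynomial.C (f e : ℤ) * LaurentPolynomial.T e := by
      rw [map_natCast]
    rw [h2, ← LaurentPolynomial.single_eq_C_mul_T, AddMonoidAlgebra.coeff_single,
      Finsupp.single_apply]
  rw [AddMonoidAlgebra.coeff_sum, Finsupp.finset_sum_apply]
  simp only [h1]
  rw [Finset.sum_ite_eq']
  split_ifs with h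
  · rfl
  · rw [hS d h, Nat.cast_zero]

theorem coeff_gchr [FiniteDimensional K M] {n : ℕ} {ν : List I} (h : ν.length = n) (d : ℤ) :
    (g.gchr n ν).coeff d = (g.gdim ν d : ℤ) := by
  obtain ⟨S, _, hS⟩ := g.gdim_support
  rw [g.gchr_eq h (hS ν), coeff_sum_T S _ (hS ν)]

/-- at `q = 1` the graded character is the character -/
theorem ev_gchr [FiniteDimensional K M] (n : ℕ) : QSh.ev (g.gchr n) = chrQ D n M := by
  apply Sh.ext'
  intro ν
  rw [QSh.ev_apply, chrQ_apply, chr]
  split_ifs with h
  · obtain ⟨S, hS, hS'⟩ := g.gdim_support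
    rw [g.gchr_eq h (hS' ν), map_sum, ← g.sum_gdim hS ν, Nat.cast_sum]
    refine Finset.sum_congr rfl fun d _ => ?_
    have h1 : QSh.ev1 (LaurentPolynomial.T d) = 1 := QSh.ev1_tt d
    rw [map_mul, map_natCast, h1, mul_one]
  · rw [g.gchr_ne h, map_zero, Nat.cast_zero]

end Grd

end Pool.Agent.KLS

end
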