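import Pool.Agent.Work.MP_e487d8_al.Bd.B22
import Pool.Agent.Work.MP_e487d8_al.Bd.B10
import Pool.Agent.Work.MP_e487d8_al.Bd.B21
import Pool.Agent.Work.MP_e487d8_al.Y.Grad.Able
import Pool.Agent.Work.MP_e487d8_al.Bd.B20

/-! Bundle of small proof modules (one section per former module). -/

section

/-! MP_e487d8_al, GRAD: the grading of the module `Kr i a M`. -/

set_option autoImplicit false
set_option linter.unusedSectionVars false

namespace Pool.Agent.KLS

variable {K I : Type} [Field K] [Fintype I] [DecidableEq I] {D : Datum K I}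

section

variable {M N : Type} [AddCommGroup M] [Module K M] [Module (KLRAlg D) M]
  [IsScalarTower K (KLRAlg D) M] [AddCommGroup N] [Module K N] [Module (KLRAlg D) N]
  [IsScalarTower K (KLRAlg D) N]

/-- functoriality of the twist -/
noncomputable def Tw.mapS (f : KLRAlg D →ₐ[K] KLRAlg D) (g : M →ₗ[KLRAlg D] N) : Tw f M →ₗ[KLRAlg D] Tw f N where
  toFun u := Tw.mk f (g ((Tw.mk f).symm u))
  map_add' u v := by rw [map_add, map_add, map_add]
  map_smul' a u := by
    obtain ⟨u, rfl⟩ := (Tw.mk f).surjective u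
    rw [Tw.smul_mk, LinearEquiv.symm_apply_apply, LinearEquiv.symm_apply_apply, map_smul]
    rfl

theorem Tw.mapS_mk (f : KLRAlg D →ₐ[K] KLRAlg D) (g : M →ₗ[KLRAlg D] N) (u : M) :
    Tw.mapS f g (Tw.mk f u) = Tw.mk f (g u) := rfl

namespace Lau

/-- the twist by `shn m` of the families -/
noncomputable def twS (m : ℕ) : Tw (D.shn m) (Lau D M) →ₗ[KLRAlg D] Lau D (Tw (D.shn m) M) :=
  ofGens ((lift D fun d => (sg D d).comp (Tw.mk (D.shn m) : M ≃ₗ[K] _).toLinearMap).comp
    (Tw.mk (D.shn m) : Lau D M ≃ₗ[K] _).symm.toLinearMap)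
    (fun k i z => by
      obtain ⟨z, rfl⟩ := (Tw.mk (D.shn m)).surjective z
      rw [Tw.smul_mk]
      simp only [LinearMap.comp_apply, LinearEquiv.coe_coe, LinearEquiv.symm_apply_apply]
      induction z using Lau.induction with
      | h0 => simp
      | h d u =>
        rw [shn_e_sg, lift_sg, lift_sg]
        simp only [LinearMap.comp_apply, LinearEquiv.coe_coe]
        rw [e_sg, Tw.smul_mk]
      | hadd y z hy hz => rw [smul_add, map_add, map_add, smul_add, hy, hz])
    (fun k z => by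
      obtain ⟨z, rfl⟩ := (Tw.mk (D.shn m)).surjective z
      rw [Tw.smul_mk]
      simp only [LinearMap.comp_apply, LinearEquiv.coe_coe, LinearEquiv.symm_apply_apply]
      induction z using Lau.induction with
      | h0 => simp
      | h d u =>
        rw [shn_x_sg, lift_sg]
        simp only [LinearMap.comp_apply, LinearEquiv.coe_coe]
        rw [x_sg, map_sum]
        refine Finset.sum_congr rfl fun i _ => ?_
        rw [lift_sg, Tw.smul_mk]
        rfl
      | hadd y z hy hz => rw [smul_add, map_add, map_add, smul_add, hy, hz])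
    (fun k z => by
      obtain ⟨z, rfl⟩ := (Tw.mk (D.shn m)).surjective z
      rw [Tw.smul_mk]
      simp only [LinearMap.comp_apply, LinearEquiv.coe_coe, LinearEquiv.symm_apply_apply]
      induction z using Lau.induction with
      | h0 => simp
      | h d u =>
        rw [shn_t_sg, lift_sg]
        simp only [LinearMap.comp_apply, LinearEquiv.coe_coe]
        rw [t_sg, map_sum]
        refine Finset.sum_congr rfl fun i _ => ?_
        rw [map_sum]
        refine Finset.sum_congr rfl fun j _ => ?_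
        rw [lift_sg, Tw.smul_mk]
        rfl
      | hadd y z hy hz => rw [smul_add, map_add, map_add, smul_add, hy, hz])

theorem twS_sg (m : ℕ) (d : ℤ) (u : M) :
    twS m (Tw.mk (D.shn m) (sg D d u)) = sg D d (Tw.mk (D.shn m) u) := by
  unfold twS
  rw [ofGens_apply]
  simp only [LinearMap.comp_apply, LinearEquiv.coe_coe, LinearEquiv.symm_apply_apply]
  rw [lift_sg]
  rfl

end Lau

namespace Grd

/-- the grading of the twist by `shn m` -/
noncomputable def tw (g : Grd D M) (m : ℕ) : Grd D (Tw (D.shn m) M) where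
  rho := (Lau.twS m).comp (Tw.mapS (D.shn m) g.rho)
  tot u := by
    obtain ⟨u, rfl⟩ := (Tw.mk (D.shn m)).surjective u
    induction u using g.induction with
    | h0 => simp
    | hadd u v hu hv => simp only [map_add] at hu hv ⊢; rw [hu, hv]
    | h d u hu =>
      rw [LinearMap.comp_apply, Tw.mapS_mk, hu, Lau.twS_sg, Lau.tot_sg]
  dg u := by
    obtain ⟨u, rfl⟩ := (Tw.mk (D.shn m)).surjective u
    induction u using g.induction with
    | h0 => simp
    | hadd u v hu hv => simp only [map_add] at hu hv ⊢; rw [hu, hv]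
    | h d u hu =>
      have h1 : ((Lau.twS m).comp (Tw.mapS (D.shn m) g.rho)) (Tw.mk (D.shn m) u) =
          Lau.sg D d (Tw.mk (D.shn m) u) := by
        rw [LinearMap.comp_apply, Tw.mapS_mk, hu, Lau.twS_sg]
      rw [h1, Lau.map_sg, h1, Lau.dg_sg]

theorem Hm.tw {g : Grd D M} {d : ℤ} {u : M} (h : g.Hm d u) (m : ℕ) :
    (g.tw m).Hm d (Tw.mk (D.shn m) u) := by
  change ((Lau.twS m).comp (Tw.mapS (D.shn m) g.rho)) (Tw.mk (D.shn m) u) = _
  rw [LinearMap.comp_apply, Tw.mapS_mk, h, Lau.twS_sg]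

theorem tw_pr (g : Grd D M) (m : ℕ) (d : ℤ) (u : M) :
    (g.tw m).pr d (Tw.mk (D.shn m) u) = Tw.mk (D.shn m) (g.pr d u) := by
  induction u using g.induction with
  | h0 => simp
  | hadd u v hu hv => rw [map_add, map_add, hu, hv, map_add, map_add]
  | h p u hu =>
    rw [(hu.tw m).pr_eq, hu.pr_eq]
    split_ifs
    · rfl
    · rw [map_zero]

variable {i : I} {a : ℕ}

theorem pr_isKr (g : Grd D M) {u : M} (h : IsKr D i a u) (d : ℤ) : IsKr D i a (g.pr d u) := by
  intro k hk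
  have key : ∀ (u : M), g.pr d (D.e k i • u) = D.e k i • g.pr d u ∧
      g.pr (d + D.xdeg i) ((D.x k * D.e k i) • u) = (D.x k * D.e k i) • g.pr d u := by
    intro u
    refine ⟨?_, ?_⟩
    · induction u using g.induction with
      | h0 => simp
      | hadd u v hu hv => simp only [smul_add, map_add]; rw [hu, hv]
      | h p u hu =>
        rw [(hu.e k i).pr_eq, hu.pr_eq]
        split_ifs
        · rfl
        · rw [smul_zero]
    · rw [g.pr_x, add_sub_cancel_right]
  have h1 := (key u).1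
  have h2 := (key u).2
  rw [(h k hk).1] at h1
  rw [mul_smul, (h k hk).1, (h k hk).2, map_zero, mul_smul, ← h1] at h2
  exact ⟨h1.symm, h2.symm⟩

/-- the grading of `Kr i a M` -/
noncomputable def kr (g : Grd D M) (i : I) (a : ℕ) : Grd D (Kr D i a M) :=
  (g.tw a).ofInj (Kr D i a M).subtype (Submodule.subtype_injective _) (by
    intro v d
    have h1 : IsKr D i a (Kr.val v) := Kr.val_isKr v
    refine ⟨Kr.of (g.pr d (Kr.val v)) (g.pr_isKr h1 d), ?_⟩
    exact (g.tw_pr a d (Kr.val v)).symm)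

theorem kr_hm {g : Grd D M} {d : ℤ} {u : Kr D i a M} :
    (g.kr i a).Hm d u ↔ g.Hm d (Kr.val u) := by
  have h1 : HomDeg (g.kr i a) (g.tw a) 0 (Kr D i a M).subtype := Grd.ofInj_hom _ _ _ _
  have h2 : (g.tw a).pr d ((Kr D i a M).subtype u) = (Kr D i a M).subtype ((g.kr i a).pr d u) := by
    have := h1.pr d u
    rwa [add_zero] at this
  have h3 : (g.tw a).pr d ((Kr D i a M).subtype u) = Tw.mk (D.shn a) (g.pr d (Kr.val u)) :=
    g.tw_pr a d (Kr.val u)
  rw [hm_iff, hm_iff]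
  constructor
  · intro h
    rw [h, h3] at h2
    exact h2
  · intro h
    rw [h3, h] at h2
    exact (Submodule.subtype_injective _ h2).symm

end Grd

/-! ### functoriality of `Kr` -/

section

variable {i : I} {a : ℕ}

/-- functoriality of `Kr` -/
noncomputable def Kr.map (f : M →ₗ[KLRAlg D] N) : Kr D i a M →ₗ[KLRAlg D] Kr D i a N where
  toFun u := Kr.of (f (Kr.val u)) ((Kr.val_isKr u).map f)
  map_add' u v := Kr.val_injective (by
    change f (Kr.val (u + v)) = f (Kr.val u) + f (Kr.val v)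
    rw [Kr.val_add, map_add])
  map_smul' b u := Kr.val_injective (by
    change f (Kr.val (b • u)) = D.shn a b • f (Kr.val u)
    rw [Kr.val_smul, map_smul])

theorem Kr.val_map (f : M →ₗ[KLRAlg D] N) (u : Kr D i a M) : Kr.val (Kr.map f u) = f (Kr.val u) :=
  rfl

theorem Kr.map_bijective {f : M →ₗ[KLRAlg D] N} (hf : Function.Bijective f) :
    Function.Bijective (Kr.map f : Kr D i a M →ₗ[KLRAlg D] Kr D i a N) := by
  constructor
  · intro u v h
    exact Kr.val_injective (hf.1 (congrArg Kr.val h))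
  · intro v
    obtain ⟨u, hu⟩ := hf.2 (Kr.val v)
    refine ⟨Kr.of u fun k hk => ?_, Kr.val_injective hu⟩
    have h1 := Kr.val_isKr v k hk
    rw [← hu, ← map_smul, ← map_smul] at h1
    exact ⟨hf.1 h1.1, hf.1 (h1.2.trans (map_zero f).symm)⟩

theorem HomDeg.kr {gM : Grd D M} {gN : Grd D N} {s : ℤ} {f : M →ₗ[KLRAlg D] N}
    (hf : HomDeg gM gN s f) : HomDeg (gM.kr i a) (gN.kr i a) s (Kr.map f) :=
  HomDeg.of_hm fun d u hu => by
    rw [Grd.kr_hm] at hu ⊢
    exact hf.hm hu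

end

end

end Pool.Agent.KLS

end

section

/-! MP_e487d8_al, GRAD: homogeneous components of homomorphisms; graded simple modules which are
isomorphic are isomorphic up to a shift; the contract `GrFacts`. -/

set_option autoImplicit false
set_option linter.unusedSectionVars false

namespace Pool.Agent.KLS

variable {K I : Type} [Field K] [Fintype I] [DecidableEq I] {D : Datum K I}

section

variable {M N : Type} [AddCommGroup M] [Module K M] [Module (KLRAlg D) M]
  [IsScalarTower K (KLRAlg D) M] [AddCommGroup N] [Module K N] [Module (KLRAlg D) N]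
  [IsScalarTower K (KLRAlg D) N]

/-- projection of a family to the diagonal which is shifted by `s` -/
noncomputable def Grd.dgp (g : Grd D N) (s : ℤ) : Lau D N →ₗ[KLRAlg D] N :=
  Lau.liftR (fun d => g.pr (d + s)) (fun k i d u => g.pr_e _ k i u)
    (fun k d u => by
      simp only [g.pr_x]
      have h1 : ∀ i : I, d + D.xdeg i + s - D.xdeg i = d + s := fun i => by ring
      simp only [h1]
      exact Lau.x_smul_sum k (g.pr (d + s) u))
    (fun k d u => by
      simp only [g.pr_t]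
      have h1 : ∀ i j : I, d - D.fm i j + s + D.fm i j = d + s := fun i j => by ring
      simp only [h1]
      exact Lau.t_smul_sum k (g.pr (d + s) u))

theorem Grd.dgp_sg (g : Grd D N) (s d : ℤ) (u : N) :
    g.dgp s (Lau.sg D d u) = g.pr (d + s) u := by
  unfold Grd.dgp
  rw [Lau.liftR_sg]

/-- the component of degree `s` of a homomorphism -/
noncomputable def homComp (gM : Grd D M) (gN : Grd D N) (s : ℤ) (f : M →ₗ[KLRAlg D] N) :
    M →ₗ[KLRAlg D] N :=
  (gN.dgp s).comp ((Lau.map f).comp gM.rho)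

theorem homComp_hm {gM : Grd D M} (gN : Grd D N) (s : ℤ) (f : M →ₗ[KLRAlg D] N) {d : ℤ} {u : M}
    (hu : gM.Hm d u) : homComp gM gN s f u = gN.pr (d + s) (f u) := by
  unfold homComp
  rw [LinearMap.comp_apply, LinearMap.comp_apply, hu, Lau.map_sg, Grd.dgp_sg]

theorem homComp_homDeg (gM : Grd D M) (gN : Grd D N) (s : ℤ) (f : M →ₗ[KLRAlg D] N) :
    HomDeg gM gN s (homComp gM gN s f) :=
  HomDeg.of_hm fun d u hu => by
    rw [homComp_hm gN s f hu]
    exact gN.hm_pr (d + s) (f u)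

/-- a nonzero homomorphism has a nonzero homogeneous component -/
theorem exists_homDeg (gM : Grd D M) (gN : Grd D N) {f : M →ₗ[KLRAlg D] N} (hf : f ≠ 0) :
    ∃ (s : ℤ) (f' : M →ₗ[KLRAlg D] N), f' ≠ 0 ∧ HomDeg gM gN s f' := by
  have h1 : ∃ d u, gM.Hm d u ∧ f u ≠ 0 := by
    by_contra h
    push Not at h
    apply hf
    ext u
    induction u using gM.induction with
    | h0 => simp
    | h d u hu => exact h d u hu
    | hadd u v hu hv => rw [map_add, hu, hv, map_add]
  obtain ⟨d, u, hu, hfu⟩ := h1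
  obtain ⟨d', hd'⟩ := gN.exists_hm_ne hfu
  refine ⟨d' - d, homComp gM gN (d' - d) f, fun h => hd' ?_, homComp_homDeg gM gN _ f⟩
  have h2 := homComp_hm gN (d' - d) f hu
  rw [h, LinearMap.zero_apply, show d + (d' - d) = d' by ring] at h2
  exact h2.symm

theorem exists_homDeg_equiv (gM : Grd D M) (gN : Grd D N) [IsSimpleModule (KLRAlg D) N]
    (f : M ≃ₗ[KLRAlg D] N) : ∃ (s : ℤ) (f' : M ≃ₗ[KLRAlg D] N),
      HomDeg gM gN s f'.toLinearMap := by
  have hM : IsSimpleModule (KLRAlg D) M := IsSimpleModule.congr f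
  have hN := IsSimpleModule.nontrivial (KLRAlg D) N
  have hf : f.toLinearMap ≠ 0 := by
    intro h
    obtain ⟨v, hv⟩ := exists_ne (0 : N)
    apply hv
    have h1 := LinearMap.congr_fun h (f.symm v)
    simpa using h1
  obtain ⟨s, f', h0, h1⟩ := exists_homDeg gM gN hf
  exact ⟨s, LinearEquiv.ofBijective f' (LinearMap.bijective_of_ne_zero h0), h1⟩

/-- the dots act nilpotently on finite dimensional graded modules -/
theorem Grd.nilp [FiniteDimensional K M] (g : Grd D M) : Nilp D M := by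
  intro k
  obtain ⟨S, hS⟩ := g.fin_degrees
  obtain ⟨B, hB⟩ : ∃ B : ℕ, ∀ d ∈ S, |d| ≤ B := by
    refine ⟨∑ d ∈ S, d.natAbs, fun d hd => ?_⟩
    rw [Int.abs_eq_natAbs]
    exact_mod_cast Finset.single_le_sum (f := fun d => d.natAbs) (fun _ _ => Nat.zero_le _) hd
  refine ⟨B + 1, fun u => ?_⟩
  have hpow : ∀ (i : I) (N : ℕ) (d : ℤ) (u : M), g.Hm d u →
      g.Hm (d + N * D.xdeg i) ((D.x k ^ N * D.e k i) • u) := by
    intro i N
    induction N with
    | zero => intro d u hu; simpa using hu.e k i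
    | succ N ih =>
      intro d u hu
      have h0 : D.x k ^ (N + 1) * D.e k i = (D.x k ^ N * D.e k i) * (D.x k * D.e k i) := by
        rw [mul_assoc (D.x k ^ N), ← mul_assoc (D.e k i), ← D.x_e, mul_assoc (D.x k) (D.e k i),
          D.e_idem, pow_succ, mul_assoc]
      rw [h0, mul_smul]
      have h1 := ih _ _ (hu.x k i)
      convert h1 using 1
      push_cast
      ring
  induction u using g.induction with
  | h0 => rw [smul_zero]
  | hadd u v hu hv => rw [smul_add, hu, hv, add_zero]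
  | h d u hu =>
    by_cases hd : d ∈ S
    · have hsum : ∑ i, (D.x k ^ (B + 1) * D.e k i) • u = D.x k ^ (B + 1) • u := by
        rw [pow_succ, mul_smul, ← Lau.x_smul_sum k u, Finset.smul_sum]
        exact Finset.sum_congr rfl fun i _ => by rw [mul_assoc, mul_smul]
      rw [← hsum]
      refine Finset.sum_eq_zero fun i _ => ?_
      have h1 := hpow i (B + 1) d u hu
      have h2 : d + ((B + 1 : ℕ) : ℤ) * D.xdeg i ∉ S := by
        intro h
        have h3 := hB _ h
        have h4 := hB _ hd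
        rw [abs_le] at h3 h4
        have h5 : 2 ≤ D.xdeg i := by
          rw [Datum.xdeg]; have := D.d_pos i; omega
        have h6 : ((B + 1 : ℕ) : ℤ) * 2 ≤ ((B + 1 : ℕ) : ℤ) * D.xdeg i :=
          mul_le_mul_of_nonneg_left h5 (by positivity)
        push_cast at h3 h6
        omega
      rw [← Grd.hm_iff.1 h1, hS _ h2]
    · rw [← Grd.hm_iff.1 hu, hS _ hd, smul_zero]

end

end Pool.Agent.KLS

end

section

/-! MP_e487d8_al, one strand: the grading of the affinisation of a module with one strand. -/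

set_option autoImplicit false
set_option linter.unusedSectionVars false

namespace Pool.Agent.KLS

variable {K I : Type} [Field K] [Fintype I] [DecidableEq I] {D : Datum K I}

namespace Aff

variable {M N : Type} [AddCommGroup M] [Module K M] [Module (KLRAlg D) M]
  [IsScalarTower K (KLRAlg D) M] [AddCommGroup N] [Module K N]

/-- linear maps out of the affinisation -/
noncomputable def liftA (g : ℕ → M →ₗ[K] N) : Aff D M →ₗ[K] N :=
  (Finsupp.lsum K g : (ℕ →₀ M) →ₗ[K] N)

theorem liftA_sg (g : ℕ → M →ₗ[K] N) (d : ℕ) (u : M) : liftA (D := D) g (sg D d u) = g d u := by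
  change (Finsupp.lsum K g : (ℕ →₀ M) →ₗ[K] N) (Finsupp.single d u) = _
  simp

/-- the coefficients -/
noncomputable def cf (D : Datum K I) {M : Type} [AddCommGroup M] [Module K M] (d : ℕ) :
    Aff D M →ₗ[K] M := (Finsupp.lapply d : (ℕ →₀ M) →ₗ[K] M)

theorem cf_sg (d d' : ℕ) (u : M) : cf D d (sg D d' u) = if d' = d then u else 0 := by
  change (Finsupp.single d' u : ℕ →₀ M) d = _
  rw [Finsupp.single_apply]

theorem ext_cf {y z : Aff D M} (h : ∀ d, cf D d y = cf D d z) : y = z := Finsupp.ext h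

variable [h1 : IsStrand D 1 M]

theorem cf_e (d : ℕ) (k : ℕ) (i : I) (w : Aff D M) :
    cf D d (D.e k i • w) = D.e k i • cf D d w := by
  induction w using ind with
  | h0 => rw [smul_zero, map_zero, smul_zero]
  | ha v w hv hw => rw [smul_add, map_add, map_add, smul_add, hv, hw]
  | hs d' u =>
    rw [e_sg, cf_sg, cf_sg]
    split_ifs
    · rfl
    · rw [smul_zero]

theorem cf_eW (d : ℕ) (ν : List I) (k : ℕ) (w : Aff D M) :
    cf D d (D.shn k (D.eW ν) • w) = D.shn k (D.eW ν) • cf D d w := by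
  induction ν generalizing k w with
  | nil => rw [D.eW_nil, map_one, one_smul, one_smul]
  | cons i ν ih =>
    rw [D.eW_cons, map_mul, D.shn_shn, D.shn_e, mul_smul, mul_smul, cf_e, ih]

theorem t_ee_sg (k : ℕ) (i j : I) (d : ℕ) (u : M) :
    (D.t k * (D.e k i * D.e (k + 1) j)) • sg D d u =
      sg D d ((D.t k * (D.e k i * D.e (k + 1) j)) • u) := by
  rw [mul_smul, mul_smul, e_sg, e_sg, t_sg, mul_smul, mul_smul]

/-- the weight of the affinisation -/
theorem wtOf {n : ℕ} {β : I → ℕ} (h : WtOf D n M β) : WtOf D n (Aff D M) β := by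
  intro ν w hν hw hne
  rw [wdAt_zero_iff] at hw
  obtain ⟨d, hd⟩ : ∃ d, cf D d w ≠ 0 := by
    by_contra hall
    push Not at hall
    exact hne (ext_cf fun d => by rw [hall d, map_zero])
  refine h ν (cf D d w) hν ?_ hd
  rw [wdAt_zero_iff]
  have h1 := cf_eW d ν 0 w
  rwa [D.shn_zero, hw, eq_comm] at h1

variable (j : I)

/-- the grading of the affinisation, as a linear map -/
noncomputable def rhoK (g : Grd D M) : Aff D M →ₗ[K] Lau D (Aff D M) :=
  liftA fun k => (Lau.lift D fun d => (Lau.sg D (d + D.xdeg j * k)).comp (sg D k)).comp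
    (Conv.toK g.rho)

omit h1 in
theorem rhoK_sg {g : Grd D M} {p : ℤ} {u : M} (h : g.Hm p u) (k : ℕ) :
    rhoK j g (sg D k u) = Lau.sg D (p + D.xdeg j * k) (sg D k u) := by
  unfold rhoK
  rw [liftA_sg, LinearMap.comp_apply, Conv.toK_apply, h, Lau.lift_sg]
  rfl

theorem ind_hm (g : Grd D M) {P : Aff D M → Prop} (w : Aff D M) (h0 : P 0)
    (hs : ∀ d p u, g.Hm p u → P (sg D d u)) (ha : ∀ v w, P v → P w → P (v + w)) : P w := by
  induction w using ind with
  | h0 => exact h0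
  | ha v w hv hw => exact ha v w hv hw
  | hs d u =>
    induction u using g.induction with
    | h0 => rw [map_zero]; exact h0
    | h p u hu => exact hs d p u hu
    | hadd u v hu hv => rw [map_add]; exact ha _ _ hu hv

theorem x_e_sg' (l : ℕ) (i : I) (k : ℕ) (u : M) : (D.x l * D.e l i) • sg D k u =
    sg D k ((D.x l * D.e l i) • u) + sg D (k + 1) (D.e l i • u) := by
  rw [mul_smul, e_sg, x_sg, mul_smul]
  congr 2
  rcases Nat.eq_zero_or_pos l with hl | hl
  · subst hl; exact h1.one 0 Nat.one_pos _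
  · rw [h1.zero l hl i u, smul_zero]

variable {j} (hj : ∀ u : M, D.e 0 j • u = u)

include hj in
theorem e_ne {l : ℕ} {i : I} {u : M} (h : D.e l i • u ≠ 0) : i = j := by
  by_contra hij
  apply h
  rcases Nat.eq_zero_or_pos l with hl | hl
  · subst hl
    rw [← hj u, ← mul_smul, D.e_mul_e_ne 0 hij, zero_smul]
  · exact h1.zero l hl i u

/-- the grading of the affinisation, as a homomorphism -/
noncomputable def rhoR (g : Grd D M) (_hj : ∀ u : M, D.e 0 j • u = u) :
    Aff D M →ₗ[KLRAlg D] Lau D (Aff D M) :=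
  ofGens (rhoK j g)
    (fun l i w => by
      induction w using ind_hm g with
      | h0 => simp
      | ha v w hv hw => rw [smul_add, map_add, map_add, smul_add, hv, hw]
      | hs k p u hu => rw [e_sg, rhoK_sg j (hu.e l i), rhoK_sg j hu, Lau.e_sg, e_sg])
    (fun l w => by
      induction w using ind_hm g with
      | h0 => simp
      | ha v w hv hw => rw [smul_add, map_add, map_add, smul_add, hv, hw]
      | hs k p u hu =>
        rw [rhoK_sg j hu, Lau.x_sg, ← Lau.x_smul_sum, map_sum]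
        refine Finset.sum_congr rfl fun i _ => ?_
        have h3 := x_e_sg' (D := D) l i k u
        rw [h3, map_add, rhoK_sg j (hu.x l i), rhoK_sg j (hu.e l i), map_add]
        have h2 : Lau.sg D (p + D.xdeg i + D.xdeg j * (k : ℤ)) (sg D k ((D.x l * D.e l i) • u)) =
            Lau.sg D (p + D.xdeg j * (k : ℤ) + D.xdeg i) (sg D k ((D.x l * D.e l i) • u)) := by
          rw [show p + D.xdeg i + D.xdeg j * (k : ℤ) = p + D.xdeg j * (k : ℤ) + D.xdeg i by ring]
        by_cases h0 : D.e l i • u = 0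
        · rw [h2, h0, map_zero, map_zero, map_zero]
        · have hij : i = j := e_ne _hj h0
          rw [h2, hij, show p + D.xdeg j * ((k + 1 : ℕ) : ℤ) = p + D.xdeg j * (k : ℤ) + D.xdeg j by
            push_cast; ring])
    (fun l w => by
      induction w using ind_hm g with
      | h0 => simp
      | ha v w hv hw => rw [smul_add, map_add, map_add, smul_add, hv, hw]
      | hs k p u hu =>
        rw [t_sg, rhoK_sg j hu, Lau.t_sg, ← Lau.t_smul_sum, map_sum, map_sum]
        refine Finset.sum_congr rfl fun i _ => ?_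
        rw [map_sum, map_sum]
        refine Finset.sum_congr rfl fun j' _ => ?_
        rw [rhoK_sg j (hu.t l i j'), t_ee_sg, show p - D.fm i j' + D.xdeg j * (k : ℤ) =
          p + D.xdeg j * k - D.fm i j' by ring])

theorem rhoR_sg {g : Grd D M} {p : ℤ} {u : M} (h : g.Hm p u) (k : ℕ) :
    rhoR g hj (sg D k u) = Lau.sg D (p + D.xdeg j * k) (sg D k u) := rhoK_sg j h k

/-- the grading of the affinisation of a module with one strand of colour `j` -/
noncomputable def grd (g : Grd D M) (hj : ∀ u : M, D.e 0 j • u = u) : Grd D (Aff D M) where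
  rho := rhoR g hj
  tot w := by
    induction w using ind_hm g with
    | h0 => simp
    | ha v w hv hw => rw [map_add, map_add, hv, hw]
    | hs k p u hu => rw [rhoR_sg hj hu, Lau.tot_sg]
  dg w := by
    induction w using ind_hm g with
    | h0 => simp
    | ha v w hv hw => rw [map_add, map_add, map_add, hv, hw]
    | hs k p u hu => rw [rhoR_sg hj hu, Lau.map_sg, rhoR_sg hj hu, Lau.dg_sg]

theorem hm_sg {g : Grd D M} {p : ℤ} {u : M} (h : g.Hm p u) (k : ℕ) :
    (grd g hj).Hm (p + D.xdeg j * k) (sg D k u) := rhoR_sg hj h k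

theorem homDeg_Z (g : Grd D M) : HomDeg (grd g hj) (grd g hj) (D.xdeg j) (Z D M) := by
  intro w
  induction w using ind_hm g with
  | h0 => simp
  | ha v w hv hw => rw [map_add, map_add, map_add, map_add, map_add, hv, hw]
  | hs k p u hu =>
    have h1 : (grd g hj).rho (sg D k u) = Lau.sg D (p + D.xdeg j * k) (sg D k u) := hm_sg hj hu k
    have h2 : (grd g hj).rho (sg D (k + 1) u) =
        Lau.sg D (p + D.xdeg j * (k + 1 : ℕ)) (sg D (k + 1) u) := hm_sg hj hu (k + 1)
    rw [Z_sg, h1, h2, Lau.map_sg, Lau.shift_sg, Z_sg]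
    congr 2
    push_cast
    ring

theorem homDeg_P (g : Grd D M) : HomDeg (grd g hj) g 0 (P D M) := by
  intro w
  induction w using ind_hm g with
  | h0 => simp
  | ha v w hv hw => rw [map_add, map_add, map_add, map_add, map_add, hv, hw]
  | hs k p u hu =>
    have h1 : (grd g hj).rho (sg D k u) = Lau.sg D (p + D.xdeg j * k) (sg D k u) := hm_sg hj hu k
    rw [h1, Lau.map_sg, Lau.shift_sg]
    cases k with
    | zero =>
      have h2 : g.rho u = Lau.sg D p u := hu
      rw [P_sg_zero, h2]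
      congr 2
      push_cast
      ring
    | succ k => rw [P_sg_succ, map_zero, map_zero]

end Aff

namespace SMod

theorem wtOf (X : SMod D) : WtOf D X.n X.M X.wt := by
  intro ν u hν hu hne i
  rw [wdAt_zero_iff] at hu
  refine X.count_eq_wt ?_ i
  refine (chr_ne_zero_iff hν).2 ⟨u, ?_⟩
  rwa [hu]

end SMod

end Pool.Agent.KLS

end

section

/-! MP_e487d8_al, block HD (lattices): definitions and statements.
`X ∘ b` with one maximal submodule and simple quotient `S`: the degrees of the constituents of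
`X ∘ b` compared with the degrees of the constituents of `P₀ ∘ X`, `P₀ = L(j₁) ∘ .. ∘ L(j_h) → b`. -/

set_option autoImplicit false

namespace Pool.Agent.KLS

variable {K I : Type} [Field K] [Fintype I] [DecidableEq I]

instance (D : Datum K I) (i : I) : IsStrand D 1 (Lt D i) := Lt.isStrand D i

/-- a graded module -/
structure GV (D : Datum K I) : Type 1 where
  M : Type
  [acg : AddCommGroup M]
  [modK : Module K M]
  [modR : Module (KLRAlg D) M]
  [tow : IsScalarTower K (KLRAlg D) M]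
  g : Grd D M

attribute [instance] GV.acg GV.modK GV.modR GV.tow

/-- a graded module with `n` strands -/
structure GM (D : Datum K I) : Type 1 extends GV D where
  n : ℕ
  strand : IsStrand D n M

variable {D : Datum K I}

/-- the convolution product of graded modules -/
noncomputable def GM.conv (A B : GM D) : GM D :=
  ⟨⟨Conv D A.n A.M B.M, Grd.conv A.n A.g B.g⟩, A.n + B.n, Conv.isStrand A.strand B.strand⟩

/-- a simple module with a grading -/
def SMod.gm (X : SMod D) (g : Grd D X.M) : GM D := ⟨⟨X.M, g⟩, X.n, X.smp.strand⟩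

/-- the trivial graded module -/
noncomputable def GM.un (D : Datum K I) : GM D :=
  ⟨⟨Un D, Grd.triv (fun k u => Un.x_smul D k u) (fun k u => Un.t_smul D k u)⟩, 0, Un.isStrand D⟩

/-- the graded module `L(i)` -/
noncomputable def GM.lt (D : Datum K I) (i : I) : GM D := ⟨⟨Lt D i, Lt.grd D i⟩, 1, Lt.isStrand D i⟩

/-- the graded module `L(i)` with the parameter `z` -/
noncomputable def GM.lz (D : Datum K I) (i : I) : GM D :=
  ⟨⟨Aff D (Lt D i), Aff.grd (Lt.grd D i) (Lt.e_smul D i)⟩, 1, Aff.isStrand (Lt.isStrand D i)⟩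

/-- `Z⟨d⟩` is a subquotient of `V`: an element of degree `k` of `Z` comes from an element of degree
`k + d` of `V` -/
def GV.Occ (Z V : GV D) (d : ℤ) : Prop :=
  ∃ (W : GV D) (i : W.M →ₗ[KLRAlg D] V.M) (p : W.M →ₗ[KLRAlg D] Z.M) (a b : ℤ),
    Function.Injective i ∧ Function.Surjective p ∧ HomDeg W.g V.g a i ∧ HomDeg W.g Z.g b p ∧
      d = a - b

namespace Mo

variable (D)

/-- OCCS: subquotients of quotients and of submodules -/
def StOccS : Prop := ∀ (Z V V' : GV D) (d t : ℤ),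
  (∀ p : V.M →ₗ[KLRAlg D] V'.M, Function.Surjective p → HomDeg V.g V'.g t p → Z.Occ V' d →
    Z.Occ V (d - t)) ∧
  (∀ i : V.M →ₗ[KLRAlg D] V'.M, Function.Injective i → HomDeg V.g V'.g t i → Z.Occ V d →
    Z.Occ V' (d + t))

/-- OCCX: simple subquotients and exact sequences -/
def StOccX : Prop := ∀ (Z V₁ V V₂ : GV D) (i : V₁.M →ₗ[KLRAlg D] V.M) (q : V.M →ₗ[KLRAlg D] V₂.M)
  (a b d : ℤ), IsSimpleModule (KLRAlg D) Z.M → Function.Injective i → Function.Surjective q →
    LinearMap.ker q = LinearMap.range i → HomDeg V₁.g V.g a i → HomDeg V.g V₂.g b q →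
    Z.Occ V d → Z.Occ V₁ (d - a) ∨ Z.Occ V₂ (d + b)

/-- FILT: the filtration of `G / u^m G` -/
def StFilt : Prop := ∀ (Z G G₀ G' : GV D) (u : G.M →ₗ[KLRAlg D] G.M) (p : G.M →ₗ[KLRAlg D] G₀.M)
  (q : G.M →ₗ[KLRAlg D] G'.M) (m : ℕ) (e d : ℤ), IsSimpleModule (KLRAlg D) Z.M → Red u p →
    HomDeg G.g G.g e u → HomDeg G.g G₀.g 0 p → Function.Surjective q →
    LinearMap.ker q = LinearMap.range (u ^ m) → HomDeg G.g G'.g 0 q → Z.Occ G' d →
    ∃ j : ℕ, j < m ∧ Z.Occ G₀ (d - j * e)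

/-- LAT: the lattice lemma -/
def StLat : Prop := ∀ (H G H₀ G₀ V S : GV D) (uH : H.M →ₗ[KLRAlg D] H.M)
  (uG : G.M →ₗ[KLRAlg D] G.M) (pH : H.M →ₗ[KLRAlg D] H₀.M) (pG : G.M →ₗ[KLRAlg D] G₀.M)
  (U : H.M →ₗ[KLRAlg D] G.M) (U' : G.M →ₗ[KLRAlg D] H.M) (c c' : K) (N N' : ℕ) (e δ t s : ℤ)
  (π : H₀.M →ₗ[KLRAlg D] V.M) (h : V.M →ₗ[KLRAlg D] S.M),
  Red uH pH → Red uG pG → HomDeg H.g H.g e uH → HomDeg G.g G.g e uG → HomDeg H.g H₀.g 0 pH →
  HomDeg G.g G₀.g 0 pG → 0 < e → (∀ y, U (uH y) = uG (U y)) → (∀ y, U' (uG y) = uH (U' y)) →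
  c ≠ 0 → c' ≠ 0 → (∀ y, U' (U y) = c • (uH ^ N) y) → (∀ y, U (U' y) = c' • (uG ^ N') y) →
  HomDeg H.g G.g δ U → Function.Surjective π → HomDeg H₀.g V.g t π → Function.Surjective h →
  HomDeg V.g S.g (-s) h → IsSimpleModule (KLRAlg D) S.M →
  (∀ W : Submodule (KLRAlg D) V.M, W ≠ ⊤ → W ≤ LinearMap.ker h) →
  ∃ D' : ℤ, S.Occ G₀ (s + D') ∧ ∀ (Z : GV D) (d : ℤ), IsSimpleModule (KLRAlg D) Z.M →
    Z.Occ V d → ∃ j : ℕ, Z.Occ G₀ (d + D' - j * e)

/-- REDQ: the reduction of a quotient (pure algebra) -/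
def StRedq (R : Type) [Ring R] : Prop := ∀ (A A₁ A₂ B : Type) [AddCommGroup A] [Module R A]
  [AddCommGroup A₁] [Module R A₁] [AddCommGroup A₂] [Module R A₂] [AddCommGroup B] [Module R B]
  (F u : A →ₗ[R] A) (p : A →ₗ[R] A₁) (F₁ : A₁ →ₗ[R] A₁) (p₁ : A₁ →ₗ[R] A₂) (q : A →ₗ[R] B)
  (uB : B →ₗ[R] B) (pB : B →ₗ[R] A₂), Red u p → Red F₁ p₁ → (∀ a, F (u a) = u (F a)) →
  (∀ a, p (F a) = F₁ (p a)) → Function.Surjective q → LinearMap.ker q = LinearMap.range F →
  (∀ a, uB (q a) = q (u a)) → (∀ a, pB (q a) = p₁ (p a)) → Red uB pB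

/-- ONER: `X ∘ L(j)_z → L(j)_z ∘ X → X ∘ L(j)_z` is `c z^N` -/
def StOneR : Prop := ∀ (X : SMod D) (j : I), ∃ (c : K) (N : ℕ), c ≠ 0 ∧
  ∀ y : Conv D X.n X.M (Aff D (Lt D j)),
    Conv.Rm (Aff.isStrand (Lt.isStrand D j)) X.smp.strand
      (Conv.Rm X.smp.strand (Aff.isStrand (Lt.isStrand D j)) y) =
    c • ((Conv.map (rfl : X.n = X.n) (LinearMap.id : X.M →ₗ[KLRAlg D] X.M)
      (Aff.Z D (Lt D j))) ^ N) y

/-- ONEL: `L(j)_z ∘ X → X ∘ L(j)_z → L(j)_z ∘ X` is `c z^N` -/
def StOneL : Prop := ∀ (X : SMod D) (j : I), ∃ (c : K) (N : ℕ), c ≠ 0 ∧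
  ∀ y : Conv D 1 (Aff D (Lt D j)) X.M,
    Conv.Rm X.smp.strand (Aff.isStrand (Lt.isStrand D j))
      (Conv.Rm (Aff.isStrand (Lt.isStrand D j)) X.smp.strand y) =
    c • ((Conv.map (rfl : 1 = 1) (Aff.Z D (Lt D j))
      (LinearMap.id : X.M →ₗ[KLRAlg D] X.M)) ^ N) y

end Mo

/-- the endomorphism `1 ∘ u` of `X ∘ P` -/
noncomputable def cr (X P : GM D) (u : P.M →ₗ[KLRAlg D] P.M) :
    Conv D X.n X.M P.M →ₗ[KLRAlg D] Conv D X.n X.M P.M :=
  Conv.map (rfl : X.n = X.n) (LinearMap.id : X.M →ₗ[KLRAlg D] X.M) u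

/-- the endomorphism `u ∘ 1` of `P ∘ X` -/
noncomputable def cl (X P : GM D) (u : P.M →ₗ[KLRAlg D] P.M) :
    Conv D P.n P.M X.M →ₗ[KLRAlg D] Conv D P.n P.M X.M :=
  Conv.map (rfl : P.n = P.n) u (LinearMap.id : X.M →ₗ[KLRAlg D] X.M)

/-- `P` (with the parameter `u`) almost commutes with `X` -/
def LatX (P : GM D) (u : P.M →ₗ[KLRAlg D] P.M) (X : GM D) : Prop :=
  ∃ (U : Conv D X.n X.M P.M →ₗ[KLRAlg D] Conv D P.n P.M X.M)
    (U' : Conv D P.n P.M X.M →ₗ[KLRAlg D] Conv D X.n X.M P.M) (c c' : K) (N N' : ℕ) (δ δ' : ℤ),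
    c ≠ 0 ∧ c' ≠ 0 ∧ (∀ y, U (cr X P u y) = cl X P u (U y)) ∧
    (∀ y, U' (cl X P u y) = cr X P u (U' y)) ∧
    (∀ y, U' (U y) = c • (cr X P u ^ N) y) ∧ (∀ y, U (U' y) = c' • (cl X P u ^ N') y) ∧
    HomDeg (Grd.conv X.n X.g P.g) (Grd.conv P.n P.g X.g) δ U ∧
    HomDeg (Grd.conv P.n P.g X.g) (Grd.conv X.n X.g P.g) δ' U'

/-- two commuting parameters `u`, `z` -/
def LatX2 (P : GM D) (u z : P.M →ₗ[KLRAlg D] P.M) (X : GM D) : Prop :=
  ∃ (U : Conv D X.n X.M P.M →ₗ[KLRAlg D] Conv D P.n P.M X.M)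
    (U' : Conv D P.n P.M X.M →ₗ[KLRAlg D] Conv D X.n X.M P.M) (c c' : K) (N N' M M' : ℕ)
    (δ δ' : ℤ),
    c ≠ 0 ∧ c' ≠ 0 ∧ (∀ y, U (cr X P u y) = cl X P u (U y)) ∧
    (∀ y, U' (cl X P u y) = cr X P u (U' y)) ∧ (∀ y, U (cr X P z y) = cl X P z (U y)) ∧
    (∀ y, U' (cl X P z y) = cr X P z (U' y)) ∧
    (∀ y, U' (U y) = c • (cr X P u ^ N) ((cr X P z ^ M) y)) ∧
    (∀ y, U (U' y) = c' • (cl X P u ^ N') ((cl X P z ^ M') y)) ∧
    HomDeg (Grd.conv X.n X.g P.g) (Grd.conv P.n P.g X.g) δ U ∧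
    HomDeg (Grd.conv P.n P.g X.g) (Grd.conv X.n X.g P.g) δ' U'

/-- `P₀` has a deformation over `K[u]`, `deg u = e`, which almost commutes with all simple
modules -/
def HasLat (e : ℤ) (P₀ : GM D) : Prop :=
  ∃ (P : GM D) (u : P.M →ₗ[KLRAlg D] P.M) (p : P.M →ₗ[KLRAlg D] P₀.M), P.n = P₀.n ∧ Red u p ∧
    HomDeg P.g P.g e u ∧ HomDeg P.g P₀.g 0 p ∧
    ∀ (X : SMod D) (gX : Grd D X.M), LatX P u (X.gm gX)

namespace Mo

variable (D)

/-- BIG: the maps for `L(j)_z ∘ P` -/
def StBig : Prop := ∀ (P : GM D) (u : P.M →ₗ[KLRAlg D] P.M) (X : SMod D) (gX : Grd D X.M) (j : I),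
  LatX P u (X.gm gX) →
    LatX2 ((GM.lz D j).conv P)
      (Conv.map (rfl : 1 = 1) (LinearMap.id : Aff D (Lt D j) →ₗ[KLRAlg D] Aff D (Lt D j)) u)
      (Conv.map (rfl : 1 = 1) (Aff.Z D (Lt D j)) (LinearMap.id : P.M →ₗ[KLRAlg D] P.M))
      (X.gm gX)

/-- DESC: descent of the maps to the quotient by `z - u^k` -/
def StDesc : Prop := ∀ (A B : GM D) (u z : A.M →ₗ[KLRAlg D] A.M) (q : A.M →ₗ[KLRAlg D] B.M)
  (uB : B.M →ₗ[KLRAlg D] B.M) (k : ℕ) (X : GM D), A.n = B.n → Function.Surjective q →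
  LinearMap.ker q = LinearMap.range (z - u ^ k) → (∀ a, uB (q a) = q (u a)) →
  HomDeg A.g B.g 0 q → LatX2 A u z X → LatX B uB X

/-- REC: the recursion step -/
def StRec : Prop := ∀ (e : ℤ) (k : ℕ) (P₀ : GM D) (j : I), 0 < k → (k : ℤ) * e = D.xdeg j →
  HasLat e P₀ → HasLat e ((GM.lt D j).conv P₀)

/-- BASE: the trivial module -/
def StBase : Prop := ∀ e : ℤ, HasLat e (GM.un D)

/-- PI: every simple module is a quotient of a module with a deformation -/
def StPi : Prop := ∀ (b : SMod D) (gb : Grd D b.M), ∃ (P₀ : GM D) (f : P₀.M →ₗ[KLRAlg D] b.M)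
  (t : ℤ), FdMod D P₀.n P₀.M ∧ P₀.n = b.n ∧ HasLat 2 P₀ ∧ Function.Surjective f ∧
    HomDeg P₀.g gb t f

/-- HD -/
def StHd : Prop := ∀ (b : SMod D) (gb : Grd D b.M), ∃ P₀ : GM D, FdMod D P₀.n P₀.M ∧
  P₀.n = b.n ∧ ∀ (X S : SMod D) (gX : Grd D X.M) (gS : Grd D S.M) (s : ℤ),
  (∀ h : Conv D X.n X.M b.M →ₗ[KLRAlg D] S.M, Function.Surjective h →
    HomDeg (Grd.conv X.n gX gb) gS (-s) h →
    (∀ W : Submodule (KLRAlg D) (Conv D X.n X.M b.M), W ≠ ⊤ → W ≤ LinearMap.ker h) →
    ∃ D' : ℤ, (S.gm gS).Occ (P₀.conv (X.gm gX)).toGV (s + D') ∧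
      ∀ (Z : SMod D) (gZ : Grd D Z.M) (d : ℤ), (Z.gm gZ).Occ ((X.gm gX).conv (b.gm gb)).toGV d →
        ∃ j : ℕ, (Z.gm gZ).Occ (P₀.conv (X.gm gX)).toGV (d + D' - j)) ∧
  (∀ h : Conv D b.n b.M X.M →ₗ[KLRAlg D] S.M, Function.Surjective h →
    HomDeg (Grd.conv b.n gb gX) gS (-s) h →
    (∀ W : Submodule (KLRAlg D) (Conv D b.n b.M X.M), W ≠ ⊤ → W ≤ LinearMap.ker h) →
    ∃ D' : ℤ, (S.gm gS).Occ ((X.gm gX).conv P₀).toGV (s + D') ∧
      ∀ (Z : SMod D) (gZ : Grd D Z.M) (d : ℤ), (Z.gm gZ).Occ ((b.gm gb).conv (X.gm gX)).toGV d →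
        ∃ j : ℕ, (Z.gm gZ).Occ ((X.gm gX).conv P₀).toGV (d + D' - j))

end Mo

end Pool.Agent.KLS

end
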