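import Pool.Agent.Work.MP_e487d8_al.Bd.B23
import Pool.Agent.Work.MP_e487d8_al.Bd.B16
import Pool.Agent.Work.MP_e487d8_al.Y.Mo.R1.Ord
import Pool.Agent.Work.MP_e487d8_al.Y.Grad.Able

/-! Bundle of small proof modules (one section per former module). -/

section

/-! MP_e487d8_al, block HD, item BASE: the trivial module has a deformation over `K[u]`. -/

set_option autoImplicit false

namespace Pool.Agent.KLS

variable {K I : Type} [Field K] [Fintype I] [DecidableEq I]

namespace XHBASE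

/-- the module `K[u]` (no strand) -/
@[nolint unusedArguments]
def PK (_D : Datum K I) : Type := ℕ →₀ K

section

variable (D : Datum K I)

noncomputable instance : AddCommGroup (PK D) := inferInstanceAs (AddCommGroup (ℕ →₀ K))
noncomputable instance : Module K (PK D) := inferInstanceAs (Module K (ℕ →₀ K))
noncomputable instance : Module (KLRAlg D) (PK D) :=
  Module.compHom (ℕ →₀ K) (unHom D : KLRAlg D →+* K)

theorem smul_eq (a : KLRAlg D) (w : PK D) : a • w = unHom D a • w := rfl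

instance : IsScalarTower K (KLRAlg D) (PK D) where
  smul_assoc r a w := by
    rw [smul_eq, smul_eq, map_smul, smul_eq_mul, mul_smul]

theorem e_smul (k : ℕ) (j : I) (w : PK D) : D.e k j • w = 0 := by
  rw [smul_eq, Un.unHom_e, zero_smul]

theorem x_smul (k : ℕ) (w : PK D) : D.x k • w = 0 := by
  rw [smul_eq, Un.unHom_x, zero_smul]

theorem t_smul (k : ℕ) (w : PK D) : D.t k • w = 0 := by
  rw [smul_eq, Un.unHom_t, zero_smul]

theorem isStrand : IsStrand D 0 (PK D) where
  one k hk u := by omega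
  zero k hk j u := e_smul D k j u

/-- the element `c u^k` -/
noncomputable def sg (k : ℕ) : K →ₗ[K] PK D := (Finsupp.lsingle k : K →ₗ[K] (ℕ →₀ K))

/-- the coefficients -/
noncomputable def cf (k : ℕ) : PK D →ₗ[K] K := (Finsupp.lapply k : (ℕ →₀ K) →ₗ[K] K)

end

variable {D : Datum K I} {N : Type} [AddCommGroup N] [Module K N]

/-- linear maps out of `K[u]` -/
noncomputable def liftP (g : ℕ → K →ₗ[K] N) : PK D →ₗ[K] N :=
  (Finsupp.lsum K g : (ℕ →₀ K) →ₗ[K] N)

omit [Fintype I] [DecidableEq I] in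
theorem liftP_sg (g : ℕ → K →ₗ[K] N) (k : ℕ) (c : K) : liftP (D := D) g (sg D k c) = g k c := by
  change (Finsupp.lsum K g : (ℕ →₀ K) →ₗ[K] N) (Finsupp.single k c) = _
  simp

omit [Fintype I] [DecidableEq I] in
theorem cf_sg (k k' : ℕ) (c : K) : cf D k (sg D k' c) = if k' = k then c else 0 := by
  change (Finsupp.single k' c : ℕ →₀ K) k = _
  rw [Finsupp.single_apply]

omit [Fintype I] [DecidableEq I] in
theorem ext_cf {y z : PK D} (h : ∀ k, cf D k y = cf D k z) : y = z := Finsupp.ext h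

omit [Fintype I] [DecidableEq I] in
theorem ind {P : PK D → Prop} (w : PK D) (h0 : P 0) (hs : ∀ k c, P (sg D k c))
    (ha : ∀ v w, P v → P w → P (v + w)) : P w :=
  Finsupp.induction_linear w h0 ha hs

/-- the grading, as a linear map -/
noncomputable def rhoK (D : Datum K I) (e : ℤ) : PK D →ₗ[K] Lau D (PK D) :=
  liftP fun k => (Lau.sg D (e * k)).comp (sg D k)

omit [Fintype I] [DecidableEq I] in
theorem rhoK_sg (e : ℤ) (k : ℕ) (c : K) :
    rhoK D e (sg D k c) = Lau.sg D (e * k) (sg D k c) := by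
  unfold rhoK
  rw [liftP_sg]
  rfl

/-- the grading, as a homomorphism -/
noncomputable def rhoR (D : Datum K I) (e : ℤ) : PK D →ₗ[KLRAlg D] Lau D (PK D) :=
  ofGens (rhoK D e)
    (fun l i w => by
      induction w using ind with
      | h0 => simp
      | ha v w hv hw => rw [smul_add, map_add, map_add, smul_add, hv, hw]
      | hs k c => rw [e_smul, map_zero, rhoK_sg, Lau.e_sg, e_smul, map_zero])
    (fun l w => by
      induction w using ind with
      | h0 => simp
      | ha v w hv hw => rw [smul_add, map_add, map_add, smul_add, hv, hw]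
      | hs k c =>
        rw [x_smul, map_zero, rhoK_sg, Lau.x_sg]
        symm
        refine Finset.sum_eq_zero fun i _ => ?_
        rw [mul_smul, x_smul, map_zero])
    (fun l w => by
      induction w using ind with
      | h0 => simp
      | ha v w hv hw => rw [smul_add, map_add, map_add, smul_add, hv, hw]
      | hs k c =>
        rw [t_smul, map_zero, rhoK_sg, Lau.t_sg]
        symm
        refine Finset.sum_eq_zero fun i _ => Finset.sum_eq_zero fun j _ => ?_
        rw [mul_smul, t_smul, map_zero])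

theorem rhoR_sg (e : ℤ) (k : ℕ) (c : K) :
    rhoR D e (sg D k c) = Lau.sg D (e * k) (sg D k c) := rhoK_sg e k c

/-- the grading: `u^k` has degree `k e` -/
noncomputable def grd (D : Datum K I) (e : ℤ) : Grd D (PK D) where
  rho := rhoR D e
  tot w := by
    induction w using ind with
    | h0 => simp
    | ha v w hv hw => rw [map_add, map_add, hv, hw]
    | hs k c => rw [rhoR_sg, Lau.tot_sg]
  dg w := by
    induction w using ind with
    | h0 => simp
    | ha v w hv hw => rw [map_add, map_add, map_add, hv, hw]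
    | hs k c => rw [rhoR_sg, Lau.map_sg, rhoR_sg, Lau.dg_sg]

theorem rho_sg (e : ℤ) (k : ℕ) (c : K) :
    (grd D e).rho (sg D k c) = Lau.sg D (e * k) (sg D k c) := rhoK_sg e k c

/-- multiplication by `u`, linear -/
noncomputable def uK (D : Datum K I) : PK D →ₗ[K] PK D := liftP fun k => sg D (k + 1)

/-- multiplication by `u` -/
noncomputable def uu (D : Datum K I) : PK D →ₗ[KLRAlg D] PK D :=
  ofGens (uK D)
    (fun l i w => by rw [e_smul, e_smul, map_zero])
    (fun l w => by rw [x_smul, x_smul, map_zero])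
    (fun l w => by rw [t_smul, t_smul, map_zero])

theorem uu_sg (k : ℕ) (c : K) : uu D (sg D k c) = sg D (k + 1) c := liftP_sg _ k c

/-- the constant coefficient -/
noncomputable def pp (D : Datum K I) : PK D →ₗ[KLRAlg D] Un D :=
  ofGens ((Un.of D).toLinearMap.comp (cf D 0))
    (fun l i w => by rw [e_smul, Un.e_smul, map_zero])
    (fun l w => by rw [x_smul, Un.x_smul, map_zero])
    (fun l w => by rw [t_smul, Un.t_smul, map_zero])

theorem pp_apply (w : PK D) : pp D w = Un.of D (cf D 0 w) := rfl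

theorem cf_uu_succ (k : ℕ) (w : PK D) : cf D (k + 1) (uu D w) = cf D k w := by
  induction w using ind with
  | h0 => simp
  | ha v w hv hw => rw [map_add, map_add, map_add, hv, hw]
  | hs k' c =>
    rw [uu_sg, cf_sg, cf_sg]
    simp

theorem cf_uu_zero (w : PK D) : cf D 0 (uu D w) = 0 := by
  induction w using ind with
  | h0 => simp
  | ha v w hv hw => rw [map_add, map_add, hv, hw, add_zero]
  | hs k' c =>
    rw [uu_sg, cf_sg]
    simp

/-- division by `u` -/
noncomputable def dn (w : PK D) : PK D :=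
  (Finsupp.comapDomain (fun k => k + 1) w ((add_left_injective 1).injOn) : ℕ →₀ K)

omit [Fintype I] [DecidableEq I] in
theorem cf_dn (w : PK D) (k : ℕ) : cf D k (dn w) = cf D (k + 1) w := rfl

theorem red (D : Datum K I) : Red (uu D) (pp D) where
  inj := by
    intro y z h
    apply ext_cf
    intro k
    have h2 := congrArg (cf D (k + 1)) h
    rwa [cf_uu_succ, cf_uu_succ] at h2
  surj := by
    intro c
    obtain ⟨c, rfl⟩ := (Un.of D).surjective c
    refine ⟨sg D 0 c, ?_⟩
    rw [pp_apply, cf_sg, if_pos rfl]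
  ker := by
    ext w
    rw [LinearMap.mem_ker, LinearMap.mem_range]
    constructor
    · intro h
      rw [pp_apply] at h
      have h0 : cf D 0 w = 0 := (Un.of D).injective (by rw [h, map_zero])
      refine ⟨dn w, ?_⟩
      apply ext_cf
      intro k
      cases k with
      | zero => rw [cf_uu_zero, h0]
      | succ k => rw [cf_uu_succ, cf_dn]
    · rintro ⟨v, rfl⟩
      rw [pp_apply, cf_uu_zero, map_zero]

theorem homDeg_uu (e : ℤ) : HomDeg (grd D e) (grd D e) e (uu D) := by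
  intro w
  induction w using ind with
  | h0 => simp
  | ha v w hv hw => rw [map_add, map_add, map_add, map_add, map_add, hv, hw]
  | hs k c =>
    rw [uu_sg, rho_sg, rho_sg, Lau.map_sg, Lau.shift_sg, uu_sg]
    congr 2
    push_cast
    ring

theorem homDeg_pp (e : ℤ) : HomDeg (grd D e)
    (Grd.triv (fun k u => Un.x_smul D k u) (fun k u => Un.t_smul D k u)) 0 (pp D) := by
  intro w
  induction w using ind with
  | h0 => simp
  | ha v w hv hw => rw [map_add, map_add, map_add, map_add, map_add, hv, hw]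
  | hs k c =>
    have h2 : ∀ v : Un D, (Grd.triv (fun k u => Un.x_smul D k u)
      (fun k u => Un.t_smul D k u)).rho v = Lau.sg D 0 v := fun v => rfl
    rw [rho_sg, Lau.map_sg, Lau.shift_sg, pp_apply, cf_sg]
    cases k with
    | zero =>
      rw [if_pos rfl]
      refine (h2 _).trans ?_
      congr 2
      push_cast
      ring
    | succ k =>
      rw [if_neg (by omega)]
      simp

/-- the lattice -/
noncomputable def lat (D : Datum K I) (e : ℤ) : GM D := ⟨⟨PK D, grd D e⟩, 0, isStrand D⟩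

theorem wtOf (D : Datum K I) : WtOf D 0 (PK D) (fun _ => 0) := by
  intro ν u hν _ _ i
  rw [List.length_eq_zero_iff.1 hν]
  rfl

theorem QP_zero (D : Datum K I) (p n : ℕ) : D.QP 0 p n = 1 := by
  induction n generalizing p with
  | zero => rfl
  | succ n ih =>
    change D.QP1 p 0 * D.QP 0 (p + 1) n = 1
    rw [ih]
    change (1 : KLRAlg D) * 1 = 1
    rw [one_mul]

end XHBASE

open XHBASE in
theorem Mo.I_BASE (D : Datum K I) : Mo.StBase D := by
  intro e
  refine ⟨lat D e, uu D, pp D, rfl, red D, homDeg_uu e, homDeg_pp e, fun X gX => ?_⟩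
  have hX : IsStrand D X.n X.M := X.smp.strand
  have hP : IsStrand D 0 (PK D) := isStrand D
  refine ⟨Conv.Rm hX hP, Conv.Rm hP hX, 1, 1, 0, 0, dqw D X.wt (fun _ => 0),
    dqw D (fun _ => 0) X.wt, one_ne_zero, one_ne_zero, ?_, ?_, ?_, ?_, ?_, ?_⟩
  · intro y
    exact (LinearMap.congr_fun (Conv.Rm_map hX hP hX hP LinearMap.id (uu D)) y).symm
  · intro y
    exact (LinearMap.congr_fun (Conv.Rm_map hP hX hP hX (uu D) LinearMap.id) y).symm
  · intro y
    rw [one_smul, pow_zero]
    have h : (Conv.Rm hP hX) ∘ₗ (Conv.Rm hX hP) = LinearMap.id := by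
      apply Conv.hom_ext
      intro u v
      rw [LinearMap.comp_apply, Conv.Rm_Rm_mk]
      change (1 : KLRAlg D) • _ = _
      rw [one_smul]
      rfl
    exact LinearMap.congr_fun h y
  · intro y
    rw [one_smul, pow_zero]
    have h : (Conv.Rm hX hP) ∘ₗ (Conv.Rm hP hX) = LinearMap.id := by
      apply Conv.hom_ext
      intro u v
      rw [LinearMap.comp_apply, Conv.Rm_Rm_mk, QP_zero, one_smul]
      rfl
    exact LinearMap.congr_fun h y
  · exact HomDeg.Rm hX hP X.wtOf (wtOf D)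
  · exact HomDeg.Rm hP hX (wtOf D) X.wtOf

end Pool.Agent.KLS

end

section

/-! MP_e487d8_al, block HD: BIG, the maps for `L(j)_z ∘ P`. -/

set_option autoImplicit false
set_option linter.unusedSectionVars false

open scoped TensorProduct

namespace Pool.Agent.KLS

variable {K I : Type} [Field K] [Fintype I] [DecidableEq I] (D : Datum K I)

namespace XHBIG

variable {D}

section pow

variable {R A B : Type} [Ring R] [AddCommGroup A] [Module R A] [AddCommGroup B] [Module R B]

theorem pow_semi (f : A →ₗ[R] B) (a : A →ₗ[R] A) (b : B →ₗ[R] B) (h : ∀ y, f (a y) = b (f y))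
    (N : ℕ) (y : A) : f ((a ^ N) y) = (b ^ N) (f y) := by
  induction N with
  | zero => simp
  | succ N ih =>
    rw [pow_succ', pow_succ', Module.End.mul_apply, Module.End.mul_apply, h, ih]

theorem pow_swap (a b : A →ₗ[R] A) (h : ∀ y, a (b y) = b (a y)) (N M : ℕ) (y : A) :
    (a ^ N) ((b ^ M) y) = (b ^ M) ((a ^ N) y) := by
  refine pow_semi (a ^ N) b b (fun z => ?_) M y
  exact (pow_semi b a a (fun w => (h w).symm) N z).symm

end pow

section smul

variable {A B : Type} [AddCommGroup A] [Module K A] [Module (KLRAlg D) A]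
  [IsScalarTower K (KLRAlg D) A] [AddCommGroup B] [Module K B] [Module (KLRAlg D) B]
  [IsScalarTower K (KLRAlg D) B]

theorem smulK (f : A →ₗ[KLRAlg D] B) (c : K) (y : A) : f (c • y) = c • f y :=
  (Conv.toK f).map_smul c y

theorem smulE (f : A ≃ₗ[KLRAlg D] B) (c : K) (y : A) : f (c • y) = c • f y :=
  (Conv.toK f.toLinearMap).map_smul c y

end smul

section map

open Conv

variable {m m' n n' l : ℕ} {M M' N N' L L' : Type}
  [AddCommGroup M] [Module K M] [Module (KLRAlg D) M] [IsScalarTower K (KLRAlg D) M]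
  [AddCommGroup N] [Module K N] [Module (KLRAlg D) N] [IsScalarTower K (KLRAlg D) N]
  [AddCommGroup L] [Module K L] [Module (KLRAlg D) L] [IsScalarTower K (KLRAlg D) L]
  [AddCommGroup M'] [Module K M'] [Module (KLRAlg D) M'] [IsScalarTower K (KLRAlg D) M']
  [AddCommGroup N'] [Module K N'] [Module (KLRAlg D) N'] [IsScalarTower K (KLRAlg D) N']
  [AddCommGroup L'] [Module K L'] [Module (KLRAlg D) L'] [IsScalarTower K (KLRAlg D) L']

/-- naturality of the associativity -/
theorem assoc_nat (f : M →ₗ[KLRAlg D] M') (g : N →ₗ[KLRAlg D] N') (h : L →ₗ[KLRAlg D] L')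
    (z : Conv D (m + n) (Conv D m M N) L) :
    Conv.assoc D m n M' N' L' (Conv.map (rfl : m + n = m + n) (Conv.map (rfl : m = m) f g) h z) =
      Conv.map (rfl : m = m) f (Conv.map (rfl : n = n) g h) (Conv.assoc D m n M N L z) := by
  have h1 : (Conv.assoc D m n M' N' L').toLinearMap ∘ₗ
      (Conv.map (rfl : m + n = m + n) (Conv.map (rfl : m = m) f g) h) =
      (Conv.map (rfl : m = m) f (Conv.map (rfl : n = n) g h)) ∘ₗ
        (Conv.assoc D m n M N L).toLinearMap := by
    apply Conv.hom_ext₃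
    intro u v w
    simp only [LinearMap.comp_apply, LinearEquiv.coe_coe, Conv.map_mk, Conv.assoc_mk]
  exact LinearMap.congr_fun h1 z

theorem assoc_symm_nat (f : M →ₗ[KLRAlg D] M') (g : N →ₗ[KLRAlg D] N') (h : L →ₗ[KLRAlg D] L')
    (z : Conv D m M (Conv D n N L)) :
    (Conv.assoc D m n M' N' L').symm (Conv.map (rfl : m = m) f (Conv.map (rfl : n = n) g h) z) =
      Conv.map (rfl : m + n = m + n) (Conv.map (rfl : m = m) f g) h
        ((Conv.assoc D m n M N L).symm z) := by
  rw [LinearEquiv.symm_apply_eq, assoc_nat, LinearEquiv.apply_symm_apply]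

theorem map_swap (h : m = m') (f : M →ₗ[KLRAlg D] M') (g : N →ₗ[KLRAlg D] N')
    (z : Conv D m M N) :
    Conv.map h f (LinearMap.id : N' →ₗ[KLRAlg D] N')
      (Conv.map (rfl : m = m) (LinearMap.id : M →ₗ[KLRAlg D] M) g z) =
    Conv.map (rfl : m' = m') (LinearMap.id : M' →ₗ[KLRAlg D] M') g
      (Conv.map h f (LinearMap.id : N →ₗ[KLRAlg D] N) z) := by
  rw [Conv.map_map, Conv.map_map]
  rfl

theorem map_sq_right {f : N →ₗ[KLRAlg D] N'} {a : N →ₗ[KLRAlg D] N} {b : N' →ₗ[KLRAlg D] N'}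
    (h : ∀ y, f (a y) = b (f y)) (z : Conv D m M N) :
    Conv.map (rfl : m = m) (LinearMap.id : M →ₗ[KLRAlg D] M) f
      (Conv.map (rfl : m = m) (LinearMap.id : M →ₗ[KLRAlg D] M) a z) =
    Conv.map (rfl : m = m) (LinearMap.id : M →ₗ[KLRAlg D] M) b
      (Conv.map (rfl : m = m) (LinearMap.id : M →ₗ[KLRAlg D] M) f z) := by
  have h1 : f ∘ₗ a = b ∘ₗ f := LinearMap.ext h
  rw [Conv.map_map, Conv.map_map, h1]

theorem map_sq_left (hm : m = m') {f : M →ₗ[KLRAlg D] M'} {a : M →ₗ[KLRAlg D] M}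
    {b : M' →ₗ[KLRAlg D] M'}
    (h : ∀ y, f (a y) = b (f y)) (z : Conv D m M N) :
    Conv.map hm f (LinearMap.id : N →ₗ[KLRAlg D] N)
      (Conv.map (rfl : m = m) a (LinearMap.id : N →ₗ[KLRAlg D] N) z) =
    Conv.map (rfl : m' = m') b (LinearMap.id : N →ₗ[KLRAlg D] N)
      (Conv.map hm f (LinearMap.id : N →ₗ[KLRAlg D] N) z) := by
  have h1 : f ∘ₗ a = b ∘ₗ f := LinearMap.ext h
  rw [Conv.map_map, Conv.map_map, h1]

theorem map_pow_right (g : N →ₗ[KLRAlg D] N) (k : ℕ) :
    Conv.map (rfl : m = m) (LinearMap.id : M →ₗ[KLRAlg D] M) (g ^ k) =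
      (Conv.map (rfl : m = m) (LinearMap.id : M →ₗ[KLRAlg D] M) g) ^ k := by
  induction k with
  | zero => exact Conv.map_id
  | succ k ih =>
    rw [pow_succ', pow_succ', ← ih, Module.End.mul_eq_comp, Module.End.mul_eq_comp,
      Conv.map_comp]
    rfl

theorem map_pow_left (g : M →ₗ[KLRAlg D] M) (k : ℕ) :
    Conv.map (rfl : m = m) (g ^ k) (LinearMap.id : N →ₗ[KLRAlg D] N) =
      (Conv.map (rfl : m = m) g (LinearMap.id : N →ₗ[KLRAlg D] N)) ^ k := by
  induction k with
  | zero => exact Conv.map_id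
  | succ k ih =>
    rw [pow_succ', pow_succ', ← ih, Module.End.mul_eq_comp, Module.End.mul_eq_comp,
      Conv.map_comp]
    rfl

theorem map_smul_right (g : N →ₗ[KLRAlg D] N') (c : K) :
    Conv.map (rfl : m = m) (LinearMap.id : M →ₗ[KLRAlg D] M) (c • g) =
      c • Conv.map (rfl : m = m) (LinearMap.id : M →ₗ[KLRAlg D] M) g := by
  apply Conv.hom_ext
  intro u v
  rw [LinearMap.smul_apply, Conv.map_mk, Conv.map_mk, LinearMap.smul_apply, map_smul]

theorem map_smul_left (h : m = m') (g : M →ₗ[KLRAlg D] M') (c : K) :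
    Conv.map h (c • g) (LinearMap.id : N →ₗ[KLRAlg D] N) =
      c • Conv.map h g (LinearMap.id : N →ₗ[KLRAlg D] N) := by
  apply Conv.hom_ext
  intro u v
  rw [LinearMap.smul_apply, Conv.map_mk, Conv.map_mk, LinearMap.smul_apply, map_smul,
    LinearMap.smul_apply]

theorem map_right_eq {F g : N →ₗ[KLRAlg D] N} {c : K} {k : ℕ} (h : ∀ y, F y = c • (g ^ k) y)
    (z : Conv D m M N) :
    Conv.map (rfl : m = m) (LinearMap.id : M →ₗ[KLRAlg D] M) F z =
      c • ((Conv.map (rfl : m = m) (LinearMap.id : M →ₗ[KLRAlg D] M) g) ^ k) z := by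
  have h1 : F = c • (g ^ k) := LinearMap.ext h
  rw [h1, map_smul_right, map_pow_right]
  rfl

theorem map_left_eq {F g : M →ₗ[KLRAlg D] M} {c : K} {k : ℕ} (h : ∀ y, F y = c • (g ^ k) y)
    (z : Conv D m M N) :
    Conv.map (rfl : m = m) F (LinearMap.id : N →ₗ[KLRAlg D] N) z =
      c • ((Conv.map (rfl : m = m) g (LinearMap.id : N →ₗ[KLRAlg D] N)) ^ k) z := by
  have h1 : F = c • (g ^ k) := LinearMap.ext h
  rw [h1, map_smul_left, map_pow_left]
  rfl

end map

section core

variable {n l p : ℕ} {X L P : Type}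
  [AddCommGroup X] [Module K X] [Module (KLRAlg D) X] [IsScalarTower K (KLRAlg D) X]
  [AddCommGroup L] [Module K L] [Module (KLRAlg D) L] [IsScalarTower K (KLRAlg D) L]
  [AddCommGroup P] [Module K P] [Module (KLRAlg D) P] [IsScalarTower K (KLRAlg D) P]

/-- `X ∘ (L ∘ P) → (L ∘ P) ∘ X` -/
noncomputable def UU (R : Conv D n X L →ₗ[KLRAlg D] Conv D l L X)
    (U : Conv D n X P →ₗ[KLRAlg D] Conv D p P X) :
    Conv D n X (Conv D l L P) →ₗ[KLRAlg D] Conv D (l + p) (Conv D l L P) X :=
  (Conv.assoc D l p L P X).symm.toLinearMap ∘ₗ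
    (Conv.map (rfl : l = l) (LinearMap.id : L →ₗ[KLRAlg D] L) U) ∘ₗ
      (Conv.assoc D l n L X P).toLinearMap ∘ₗ
        (Conv.map (Nat.add_comm n l) R (LinearMap.id : P →ₗ[KLRAlg D] P)) ∘ₗ
          (Conv.assoc D n l X L P).symm.toLinearMap

/-- `(L ∘ P) ∘ X → X ∘ (L ∘ P)` -/
noncomputable def UV (R : Conv D l L X →ₗ[KLRAlg D] Conv D n X L)
    (U : Conv D p P X →ₗ[KLRAlg D] Conv D n X P) :
    Conv D (l + p) (Conv D l L P) X →ₗ[KLRAlg D] Conv D n X (Conv D l L P) :=
  (Conv.assoc D n l X L P).toLinearMap ∘ₗ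
    (Conv.map (Nat.add_comm l n) R (LinearMap.id : P →ₗ[KLRAlg D] P)) ∘ₗ
      (Conv.assoc D l n L X P).symm.toLinearMap ∘ₗ
        (Conv.map (rfl : l = l) (LinearMap.id : L →ₗ[KLRAlg D] L) U) ∘ₗ
          (Conv.assoc D l p L P X).toLinearMap

theorem UU_apply (R : Conv D n X L →ₗ[KLRAlg D] Conv D l L X)
    (U : Conv D n X P →ₗ[KLRAlg D] Conv D p P X) (y : Conv D n X (Conv D l L P)) :
    UU R U y = (Conv.assoc D l p L P X).symm
      (Conv.map (rfl : l = l) (LinearMap.id : L →ₗ[KLRAlg D] L) U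
        (Conv.assoc D l n L X P (Conv.map (Nat.add_comm n l) R (LinearMap.id : P →ₗ[KLRAlg D] P)
          ((Conv.assoc D n l X L P).symm y)))) := rfl

theorem UV_apply (R : Conv D l L X →ₗ[KLRAlg D] Conv D n X L)
    (U : Conv D p P X →ₗ[KLRAlg D] Conv D n X P) (y : Conv D (l + p) (Conv D l L P) X) :
    UV R U y = Conv.assoc D n l X L P
      (Conv.map (Nat.add_comm l n) R (LinearMap.id : P →ₗ[KLRAlg D] P)
        ((Conv.assoc D l n L X P).symm
          (Conv.map (rfl : l = l) (LinearMap.id : L →ₗ[KLRAlg D] L) U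
            (Conv.assoc D l p L P X y)))) := rfl

/-- `u` on the third factor -/
theorem assoc3 {m n : ℕ} {M N L : Type}
    [AddCommGroup M] [Module K M] [Module (KLRAlg D) M] [IsScalarTower K (KLRAlg D) M]
    [AddCommGroup N] [Module K N] [Module (KLRAlg D) N] [IsScalarTower K (KLRAlg D) N]
    [AddCommGroup L] [Module K L] [Module (KLRAlg D) L] [IsScalarTower K (KLRAlg D) L]
    (h : L →ₗ[KLRAlg D] L) (z : Conv D (m + n) (Conv D m M N) L) :
    Conv.assoc D m n M N L (Conv.map (rfl : m + n = m + n)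
      (LinearMap.id : Conv D m M N →ₗ[KLRAlg D] Conv D m M N) h z) =
      Conv.map (rfl : m = m) (LinearMap.id : M →ₗ[KLRAlg D] M)
        (Conv.map (rfl : n = n) (LinearMap.id : N →ₗ[KLRAlg D] N) h)
          (Conv.assoc D m n M N L z) := by
  rw [← assoc_nat, Conv.map_id]

/-- `u` on the first factor -/
theorem assoc1 {m n : ℕ} {M N L : Type}
    [AddCommGroup M] [Module K M] [Module (KLRAlg D) M] [IsScalarTower K (KLRAlg D) M]
    [AddCommGroup N] [Module K N] [Module (KLRAlg D) N] [IsScalarTower K (KLRAlg D) N]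
    [AddCommGroup L] [Module K L] [Module (KLRAlg D) L] [IsScalarTower K (KLRAlg D) L]
    (f : M →ₗ[KLRAlg D] M) (z : Conv D (m + n) (Conv D m M N) L) :
    Conv.assoc D m n M N L (Conv.map (rfl : m + n = m + n)
      (Conv.map (rfl : m = m) f (LinearMap.id : N →ₗ[KLRAlg D] N))
        (LinearMap.id : L →ₗ[KLRAlg D] L) z) =
      Conv.map (rfl : m = m) f
        (LinearMap.id : Conv D n N L →ₗ[KLRAlg D] Conv D n N L)
          (Conv.assoc D m n M N L z) := by
  rw [assoc_nat, Conv.map_id]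

theorem assoc3s {m n : ℕ} {M N L : Type}
    [AddCommGroup M] [Module K M] [Module (KLRAlg D) M] [IsScalarTower K (KLRAlg D) M]
    [AddCommGroup N] [Module K N] [Module (KLRAlg D) N] [IsScalarTower K (KLRAlg D) N]
    [AddCommGroup L] [Module K L] [Module (KLRAlg D) L] [IsScalarTower K (KLRAlg D) L]
    (h : L →ₗ[KLRAlg D] L) (z : Conv D m M (Conv D n N L)) :
    (Conv.assoc D m n M N L).symm (Conv.map (rfl : m = m) (LinearMap.id : M →ₗ[KLRAlg D] M)
        (Conv.map (rfl : n = n) (LinearMap.id : N →ₗ[KLRAlg D] N) h) z) =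
      Conv.map (rfl : m + n = m + n)
        (LinearMap.id : Conv D m M N →ₗ[KLRAlg D] Conv D m M N) h
          ((Conv.assoc D m n M N L).symm z) := by
  rw [assoc_symm_nat, Conv.map_id]

theorem assoc1s {m n : ℕ} {M N L : Type}
    [AddCommGroup M] [Module K M] [Module (KLRAlg D) M] [IsScalarTower K (KLRAlg D) M]
    [AddCommGroup N] [Module K N] [Module (KLRAlg D) N] [IsScalarTower K (KLRAlg D) N]
    [AddCommGroup L] [Module K L] [Module (KLRAlg D) L] [IsScalarTower K (KLRAlg D) L]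
    (f : M →ₗ[KLRAlg D] M) (z : Conv D m M (Conv D n N L)) :
    (Conv.assoc D m n M N L).symm (Conv.map (rfl : m = m) f
        (LinearMap.id : Conv D n N L →ₗ[KLRAlg D] Conv D n N L) z) =
      Conv.map (rfl : m + n = m + n)
        (Conv.map (rfl : m = m) f (LinearMap.id : N →ₗ[KLRAlg D] N))
          (LinearMap.id : L →ₗ[KLRAlg D] L) ((Conv.assoc D m n M N L).symm z) := by
  rw [← assoc_symm_nat, Conv.map_id]

variable {R1 : Conv D n X L →ₗ[KLRAlg D] Conv D l L X}
  {R2 : Conv D l L X →ₗ[KLRAlg D] Conv D n X L}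
  {U0 : Conv D n X P →ₗ[KLRAlg D] Conv D p P X} {V0 : Conv D p P X →ₗ[KLRAlg D] Conv D n X P}
  {u : P →ₗ[KLRAlg D] P} {z : L →ₗ[KLRAlg D] L}

theorem UU_u (h : ∀ y, U0 (Conv.map (rfl : n = n) (LinearMap.id : X →ₗ[KLRAlg D] X) u y) =
      Conv.map (rfl : p = p) u (LinearMap.id : X →ₗ[KLRAlg D] X) (U0 y))
    (y : Conv D n X (Conv D l L P)) :
    UU R1 U0 (Conv.map (rfl : n = n) (LinearMap.id : X →ₗ[KLRAlg D] X)
      (Conv.map (rfl : l = l) (LinearMap.id : L →ₗ[KLRAlg D] L) u) y) =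
    Conv.map (rfl : l + p = l + p) (Conv.map (rfl : l = l) (LinearMap.id : L →ₗ[KLRAlg D] L) u)
      (LinearMap.id : X →ₗ[KLRAlg D] X) (UU R1 U0 y) := by
  rw [UU_apply, UU_apply, assoc3s, map_swap, assoc3, map_sq_right h, assoc_symm_nat]

theorem UU_z (h : ∀ y, R1 (Conv.map (rfl : n = n) (LinearMap.id : X →ₗ[KLRAlg D] X) z y) =
      Conv.map (rfl : l = l) z (LinearMap.id : X →ₗ[KLRAlg D] X) (R1 y))
    (y : Conv D n X (Conv D l L P)) :
    UU R1 U0 (Conv.map (rfl : n = n) (LinearMap.id : X →ₗ[KLRAlg D] X)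
      (Conv.map (rfl : l = l) z (LinearMap.id : P →ₗ[KLRAlg D] P)) y) =
    Conv.map (rfl : l + p = l + p) (Conv.map (rfl : l = l) z (LinearMap.id : P →ₗ[KLRAlg D] P))
      (LinearMap.id : X →ₗ[KLRAlg D] X) (UU R1 U0 y) := by
  rw [UU_apply, UU_apply, assoc_symm_nat, map_sq_left _ h, assoc1, ← map_swap, assoc1s]

theorem UV_u (h : ∀ y, V0 (Conv.map (rfl : p = p) u (LinearMap.id : X →ₗ[KLRAlg D] X) y) =
      Conv.map (rfl : n = n) (LinearMap.id : X →ₗ[KLRAlg D] X) u (V0 y))
    (y : Conv D (l + p) (Conv D l L P) X) :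
    UV R2 V0 (Conv.map (rfl : l + p = l + p)
      (Conv.map (rfl : l = l) (LinearMap.id : L →ₗ[KLRAlg D] L) u)
      (LinearMap.id : X →ₗ[KLRAlg D] X) y) =
    Conv.map (rfl : n = n) (LinearMap.id : X →ₗ[KLRAlg D] X)
      (Conv.map (rfl : l = l) (LinearMap.id : L →ₗ[KLRAlg D] L) u) (UV R2 V0 y) := by
  rw [UV_apply, UV_apply, assoc_nat, map_sq_right h, assoc3s, map_swap, assoc3]

theorem UV_z (h : ∀ y, R2 (Conv.map (rfl : l = l) z (LinearMap.id : X →ₗ[KLRAlg D] X) y) =
      Conv.map (rfl : n = n) (LinearMap.id : X →ₗ[KLRAlg D] X) z (R2 y))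
    (y : Conv D (l + p) (Conv D l L P) X) :
    UV R2 V0 (Conv.map (rfl : l + p = l + p)
      (Conv.map (rfl : l = l) z (LinearMap.id : P →ₗ[KLRAlg D] P))
      (LinearMap.id : X →ₗ[KLRAlg D] X) y) =
    Conv.map (rfl : n = n) (LinearMap.id : X →ₗ[KLRAlg D] X)
      (Conv.map (rfl : l = l) z (LinearMap.id : P →ₗ[KLRAlg D] P)) (UV R2 V0 y) := by
  rw [UV_apply, UV_apply, assoc1, ← map_swap, assoc1s, map_sq_left _ h, assoc_nat]

theorem UV_UU {c c1 : K} {N N1 : ℕ}
    (hU : ∀ y, V0 (U0 y) =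
      c • ((Conv.map (rfl : n = n) (LinearMap.id : X →ₗ[KLRAlg D] X) u) ^ N) y)
    (hR : ∀ y, R2 (R1 y) =
      c1 • ((Conv.map (rfl : n = n) (LinearMap.id : X →ₗ[KLRAlg D] X) z) ^ N1) y)
    (y : Conv D n X (Conv D l L P)) :
    UV R2 V0 (UU R1 U0 y) = (c * c1) •
      ((Conv.map (rfl : n = n) (LinearMap.id : X →ₗ[KLRAlg D] X)
        (Conv.map (rfl : l = l) (LinearMap.id : L →ₗ[KLRAlg D] L) u)) ^ N)
      (((Conv.map (rfl : n = n) (LinearMap.id : X →ₗ[KLRAlg D] X)
        (Conv.map (rfl : l = l) z (LinearMap.id : P →ₗ[KLRAlg D] P))) ^ N1) y) := by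
  rw [UU_apply, UV_apply, LinearEquiv.apply_symm_apply, Conv.map_map]
  have h1 := map_right_eq (m := l) (M := L) (F := V0 ∘ₗ U0) hU
  rw [LinearMap.id_comp, h1, smulE, smulK, smulE]
  -- move `u`
  have e1 : ∀ w : Conv D l L (Conv D n X P), (Conv.assoc D l n L X P).symm
      (((Conv.map (rfl : l = l) (LinearMap.id : L →ₗ[KLRAlg D] L)
        (Conv.map (rfl : n = n) (LinearMap.id : X →ₗ[KLRAlg D] X) u)) ^ N) w) =
      ((Conv.map (rfl : l + n = l + n)
        (LinearMap.id : Conv D l L X →ₗ[KLRAlg D] Conv D l L X) u) ^ N)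
          ((Conv.assoc D l n L X P).symm w) :=
    pow_semi (Conv.assoc D l n L X P).symm.toLinearMap _ _ (fun w => assoc3s u w) N
  have e2 : ∀ w : Conv D (l + n) (Conv D l L X) P, Conv.map (Nat.add_comm l n) R2
      (LinearMap.id : P →ₗ[KLRAlg D] P) (((Conv.map (rfl : l + n = l + n)
        (LinearMap.id : Conv D l L X →ₗ[KLRAlg D] Conv D l L X) u) ^ N) w) =
      ((Conv.map (rfl : n + l = n + l)
        (LinearMap.id : Conv D n X L →ₗ[KLRAlg D] Conv D n X L) u) ^ N)
          (Conv.map (Nat.add_comm l n) R2 (LinearMap.id : P →ₗ[KLRAlg D] P) w) :=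
    pow_semi (Conv.map (Nat.add_comm l n) R2 (LinearMap.id : P →ₗ[KLRAlg D] P)) _ _
      (fun w => map_swap _ R2 u w) N
  have e3 : ∀ w : Conv D (n + l) (Conv D n X L) P, Conv.assoc D n l X L P
      (((Conv.map (rfl : n + l = n + l)
        (LinearMap.id : Conv D n X L →ₗ[KLRAlg D] Conv D n X L) u) ^ N) w) =
      ((Conv.map (rfl : n = n) (LinearMap.id : X →ₗ[KLRAlg D] X)
        (Conv.map (rfl : l = l) (LinearMap.id : L →ₗ[KLRAlg D] L) u)) ^ N)
          (Conv.assoc D n l X L P w) :=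
    pow_semi (Conv.assoc D n l X L P).toLinearMap _ _ (fun w => assoc3 u w) N
  rw [e1, e2, e3, LinearEquiv.symm_apply_apply, Conv.map_map]
  have h2 := map_left_eq (m := n + l) (N := P) (F := R2 ∘ₗ R1) hR
  have h2' : ∀ w : Conv D (n + l) (Conv D n X L) P,
      Conv.map ((Nat.add_comm n l).trans (Nat.add_comm l n)) (R2 ∘ₗ R1)
        ((LinearMap.id : P →ₗ[KLRAlg D] P) ∘ₗ LinearMap.id) w =
      c1 • ((Conv.map (rfl : n + l = n + l)
        (Conv.map (rfl : n = n) (LinearMap.id : X →ₗ[KLRAlg D] X) z)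
          (LinearMap.id : P →ₗ[KLRAlg D] P)) ^ N1) w := h2
  rw [h2', smulE, smulK]
  have e4 : ∀ w : Conv D (n + l) (Conv D n X L) P, Conv.assoc D n l X L P
      (((Conv.map (rfl : n + l = n + l)
        (Conv.map (rfl : n = n) (LinearMap.id : X →ₗ[KLRAlg D] X) z)
          (LinearMap.id : P →ₗ[KLRAlg D] P)) ^ N1) w) =
      ((Conv.map (rfl : n = n) (LinearMap.id : X →ₗ[KLRAlg D] X)
        (Conv.map (rfl : l = l) z (LinearMap.id : P →ₗ[KLRAlg D] P))) ^ N1)
          (Conv.assoc D n l X L P w) :=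
    pow_semi (Conv.assoc D n l X L P).toLinearMap _ _ (fun w => assoc_nat _ _ _ w) N1
  rw [e4, LinearEquiv.apply_symm_apply, smul_smul]

theorem UU_UV {c c2 : K} {N N2 : ℕ}
    (hU : ∀ y, U0 (V0 y) =
      c • ((Conv.map (rfl : p = p) u (LinearMap.id : X →ₗ[KLRAlg D] X)) ^ N) y)
    (hR : ∀ y, R1 (R2 y) =
      c2 • ((Conv.map (rfl : l = l) z (LinearMap.id : X →ₗ[KLRAlg D] X)) ^ N2) y)
    (y : Conv D (l + p) (Conv D l L P) X) :
    UU R1 U0 (UV R2 V0 y) = (c * c2) •
      ((Conv.map (rfl : l + p = l + p)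
        (Conv.map (rfl : l = l) (LinearMap.id : L →ₗ[KLRAlg D] L) u)
          (LinearMap.id : X →ₗ[KLRAlg D] X)) ^ N)
      (((Conv.map (rfl : l + p = l + p)
        (Conv.map (rfl : l = l) z (LinearMap.id : P →ₗ[KLRAlg D] P))
          (LinearMap.id : X →ₗ[KLRAlg D] X)) ^ N2) y) := by
  rw [UV_apply, UU_apply, LinearEquiv.symm_apply_apply, Conv.map_map]
  have h2 := map_left_eq (m := l + n) (N := P) (F := R1 ∘ₗ R2) hR
  have h2' : ∀ w : Conv D (l + n) (Conv D l L X) P,
      Conv.map ((Nat.add_comm l n).trans (Nat.add_comm n l)) (R1 ∘ₗ R2)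
        ((LinearMap.id : P →ₗ[KLRAlg D] P) ∘ₗ LinearMap.id) w =
      c2 • ((Conv.map (rfl : l + n = l + n)
        (Conv.map (rfl : l = l) z (LinearMap.id : X →ₗ[KLRAlg D] X))
          (LinearMap.id : P →ₗ[KLRAlg D] P)) ^ N2) w := h2
  rw [h2', smulE, smulK, smulE]
  have e1 : ∀ w : Conv D (l + n) (Conv D l L X) P, Conv.assoc D l n L X P
      (((Conv.map (rfl : l + n = l + n)
        (Conv.map (rfl : l = l) z (LinearMap.id : X →ₗ[KLRAlg D] X))
          (LinearMap.id : P →ₗ[KLRAlg D] P)) ^ N2) w) =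
      ((Conv.map (rfl : l = l) z
        (LinearMap.id : Conv D n X P →ₗ[KLRAlg D] Conv D n X P)) ^ N2)
          (Conv.assoc D l n L X P w) :=
    pow_semi (Conv.assoc D l n L X P).toLinearMap _ _ (fun w => assoc1 z w) N2
  have e2 : ∀ w : Conv D l L (Conv D n X P),
      Conv.map (rfl : l = l) (LinearMap.id : L →ₗ[KLRAlg D] L) U0
      (((Conv.map (rfl : l = l) z
        (LinearMap.id : Conv D n X P →ₗ[KLRAlg D] Conv D n X P)) ^ N2) w) =
      ((Conv.map (rfl : l = l) z
        (LinearMap.id : Conv D p P X →ₗ[KLRAlg D] Conv D p P X)) ^ N2)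
          (Conv.map (rfl : l = l) (LinearMap.id : L →ₗ[KLRAlg D] L) U0 w) :=
    pow_semi (Conv.map (rfl : l = l) (LinearMap.id : L →ₗ[KLRAlg D] L) U0) _ _
      (fun w => (map_swap _ z U0 w).symm) N2
  have e3 : ∀ w : Conv D l L (Conv D p P X), (Conv.assoc D l p L P X).symm
      (((Conv.map (rfl : l = l) z
        (LinearMap.id : Conv D p P X →ₗ[KLRAlg D] Conv D p P X)) ^ N2) w) =
      ((Conv.map (rfl : l + p = l + p)
        (Conv.map (rfl : l = l) z (LinearMap.id : P →ₗ[KLRAlg D] P))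
          (LinearMap.id : X →ₗ[KLRAlg D] X)) ^ N2) ((Conv.assoc D l p L P X).symm w) :=
    pow_semi (Conv.assoc D l p L P X).symm.toLinearMap _ _ (fun w => assoc1s z w) N2
  rw [e1, LinearEquiv.apply_symm_apply, e2, Conv.map_map]
  have h1 := map_right_eq (m := l) (M := L) (F := U0 ∘ₗ V0) hU
  rw [LinearMap.id_comp, h1, smulK, smulE, e3]
  have e4 : ∀ w : Conv D l L (Conv D p P X), (Conv.assoc D l p L P X).symm
      (((Conv.map (rfl : l = l) (LinearMap.id : L →ₗ[KLRAlg D] L)
        (Conv.map (rfl : p = p) u (LinearMap.id : X →ₗ[KLRAlg D] X))) ^ N) w) =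
      ((Conv.map (rfl : l + p = l + p)
        (Conv.map (rfl : l = l) (LinearMap.id : L →ₗ[KLRAlg D] L) u)
          (LinearMap.id : X →ₗ[KLRAlg D] X)) ^ N) ((Conv.assoc D l p L P X).symm w) :=
    pow_semi (Conv.assoc D l p L P X).symm.toLinearMap _ _ (fun w => assoc_symm_nat _ _ _ w) N
  rw [e4, LinearEquiv.symm_apply_apply, smul_smul, mul_comm c2 c]
  congr 1
  refine pow_swap _ _ (fun w => ?_) N2 N y
  refine map_sq_left _ (fun v => ?_) w
  exact map_swap _ z u v

end core

section deg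

variable {m n : ℕ} {M N L P : Type}
  [AddCommGroup M] [Module K M] [Module (KLRAlg D) M] [IsScalarTower K (KLRAlg D) M]
  [AddCommGroup N] [Module K N] [Module (KLRAlg D) N] [IsScalarTower K (KLRAlg D) N]
  [AddCommGroup L] [Module K L] [Module (KLRAlg D) L] [IsScalarTower K (KLRAlg D) L]
  [AddCommGroup P] [Module K P] [Module (KLRAlg D) P] [IsScalarTower K (KLRAlg D) P]
  {gM : Grd D M} {gN : Grd D N} {gL : Grd D L} {gP : Grd D P}

theorem homDeg_of_mk3 {s : ℤ} {f : Conv D (m + n) (Conv D m M N) L →ₗ[KLRAlg D] P}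
    (h : ∀ p q r u v w, gM.Hm p u → gN.Hm q v → gL.Hm r w → gP.Hm (p + q + r + s)
      (f (Conv.mk D (m + n) (Conv D m M N) L (Conv.mk D m M N u v) w))) :
    HomDeg (Grd.conv (m + n) (Grd.conv m gM gN) gL) gP s f := by
  have h1 : gP.rho.comp f = ((Lau.shift D P s).comp (Lau.map f)).comp
      (Grd.conv (m + n) (Grd.conv m gM gN) gL).rho := by
    apply Conv.hom_ext₃
    intro u v w
    induction u using gM.induction with
    | h0 => simp
    | hadd u u' hu hu' =>
      rw [map_add, LinearMap.add_apply, map_add, LinearMap.add_apply, map_add, map_add, hu, hu']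
    | h p u hu =>
      induction v using gN.induction with
      | h0 => simp
      | hadd v v' hv hv' =>
        rw [map_add, map_add, LinearMap.add_apply, map_add, map_add, hv, hv']
      | h q v hv =>
        induction w using gL.induction with
        | h0 => simp
        | hadd w w' hw hw' => rw [map_add, map_add, map_add, hw, hw']
        | h r w hw =>
          have h2 := h p q r u v w hu hv hw
          have h3 : (Grd.conv (m + n) (Grd.conv m gM gN) gL).Hm (p + q + r)
              (Conv.mk D (m + n) (Conv D m M N) L (Conv.mk D m M N u v) w) :=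
            (hu.mk m hv).mk (m + n) hw
          unfold Grd.Hm at h2 h3
          rw [LinearMap.comp_apply, h2, LinearMap.comp_apply, h3, LinearMap.comp_apply,
            Lau.map_sg, Lau.shift_sg]
  exact fun u => LinearMap.congr_fun h1 u

theorem assoc_homDeg : HomDeg (Grd.conv (m + n) (Grd.conv m gM gN) gL)
    (Grd.conv m gM (Grd.conv n gN gL)) 0 (Conv.assoc D m n M N L).toLinearMap := by
  refine homDeg_of_mk3 (f := (Conv.assoc D m n M N L).toLinearMap) fun p q r u v w hu hv hw => ?_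
  have h : (Grd.conv m gM (Grd.conv n gN gL)).Hm (p + (q + r))
      (Conv.mk D m M (Conv D n N L) u (Conv.mk D n N L v w)) := hu.mk m (hv.mk n hw)
  rw [LinearEquiv.coe_coe, Conv.assoc_mk, add_zero, add_assoc]
  exact h

theorem assoc_symm_homDeg : HomDeg (Grd.conv m gM (Grd.conv n gN gL))
    (Grd.conv (m + n) (Grd.conv m gM gN) gL) 0 (Conv.assoc D m n M N L).symm.toLinearMap := by
  have h : (Conv.assoc D m n M N L).toLinearMap.comp
      (Conv.assoc D m n M N L).symm.toLinearMap = LinearMap.id := by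
    apply LinearMap.ext
    intro y
    exact (Conv.assoc D m n M N L).apply_symm_apply y
  refine HomDeg.of_comp_left (s := 0) (s' := 0)
    (f := (Conv.assoc D m n M N L).symm.toLinearMap)
    (g := (Conv.assoc D m n M N L).toLinearMap)
    (assoc_homDeg (gM := gM) (gN := gN) (gL := gL)) (Conv.assoc D m n M N L).injective ?_
  rw [h]
  exact HomDeg.id

end deg

section degU

variable {n l p : ℕ} {X L P : Type}
  [AddCommGroup X] [Module K X] [Module (KLRAlg D) X] [IsScalarTower K (KLRAlg D) X]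
  [AddCommGroup L] [Module K L] [Module (KLRAlg D) L] [IsScalarTower K (KLRAlg D) L]
  [AddCommGroup P] [Module K P] [Module (KLRAlg D) P] [IsScalarTower K (KLRAlg D) P]
  {R1 : Conv D n X L →ₗ[KLRAlg D] Conv D l L X}
  {R2 : Conv D l L X →ₗ[KLRAlg D] Conv D n X L}
  {U0 : Conv D n X P →ₗ[KLRAlg D] Conv D p P X} {V0 : Conv D p P X →ₗ[KLRAlg D] Conv D n X P}
  {gX : Grd D X} {gL : Grd D L} {gP : Grd D P} {s t : ℤ}

theorem UU_homDeg (hR : HomDeg (Grd.conv n gX gL) (Grd.conv l gL gX) s R1)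
    (hU : HomDeg (Grd.conv n gX gP) (Grd.conv p gP gX) t U0) :
    HomDeg (Grd.conv n gX (Grd.conv l gL gP)) (Grd.conv (l + p) (Grd.conv l gL gP) gX)
      (0 + (s + 0) + 0 + (0 + t) + 0) (UU R1 U0) :=
  ((((assoc_symm_homDeg (m := n) (n := l) (gM := gX) (gN := gL) (gL := gP)).comp
    (HomDeg.map (Nat.add_comm n l) hR HomDeg.id)).comp assoc_homDeg).comp
      (HomDeg.map (rfl : l = l) HomDeg.id hU)).comp assoc_symm_homDeg

theorem UV_homDeg (hR : HomDeg (Grd.conv l gL gX) (Grd.conv n gX gL) s R2)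
    (hU : HomDeg (Grd.conv p gP gX) (Grd.conv n gX gP) t V0) :
    HomDeg (Grd.conv (l + p) (Grd.conv l gL gP) gX) (Grd.conv n gX (Grd.conv l gL gP))
      (0 + (0 + t) + 0 + (s + 0) + 0) (UV R2 V0) :=
  ((((assoc_homDeg (m := l) (n := p) (gM := gL) (gN := gP) (gL := gX)).comp
    (HomDeg.map (rfl : l = l) HomDeg.id hU)).comp assoc_symm_homDeg).comp
      (HomDeg.map (Nat.add_comm l n) hR HomDeg.id)).comp assoc_homDeg

end degU

/-- the weight of `L(j)` -/
theorem lt_wtOf (j : I) : WtOf D 1 (Lt D j) (fun i => if i = j then 1 else 0) := by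
  intro ν u hν hu hne i
  obtain ⟨k, rfl⟩ := List.length_eq_one_iff.1 hν
  rw [wdAt_zero_iff] at hu
  have hk : k = j := by
    by_contra h
    apply hne
    rw [← hu, Datum.eW, Datum.eW, map_one, mul_one, Lt.e_smul_ne D j h]
  subst hk
  show List.count i [k] = if i = k then 1 else 0
  rw [List.count_singleton]
  by_cases h : i = k
  · simp [h]
  · simp [h, Ne.symm h]

end XHBIG

open XHBIG in
/-- BIG: the maps for `L(j)_z ∘ P` -/
theorem Mo.I_BIG (h1 : Mo.StOneR D) (h2 : Mo.StOneL D) : Mo.StBig D := by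
  rintro P u X gX j ⟨U0, V0, c, c', N, N', δ, δ', hc, hc', e1, e2, e3, e4, d1, d2⟩
  obtain ⟨c1, N1, hc1, hR1⟩ := h1 X j
  obtain ⟨c2, N2, hc2, hR2⟩ := h2 X j
  have hL : IsStrand D 1 (Aff D (Lt D j)) := Aff.isStrand (Lt.isStrand D j)
  have hw : WtOf D 1 (Aff D (Lt D j)) (fun i => if i = j then 1 else 0) :=
    Aff.wtOf (lt_wtOf j)
  have a1 := UU_homDeg (gX := gX) (gL := Aff.grd (Lt.grd D j) (Lt.e_smul D j)) (gP := P.g)
    (HomDeg.Rm X.smp.strand hL X.wtOf hw) d1
  have a2 := UV_homDeg (gX := gX) (gL := Aff.grd (Lt.grd D j) (Lt.e_smul D j)) (gP := P.g)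
    (HomDeg.Rm hL X.smp.strand hw X.wtOf) d2
  refine ⟨UU (n := X.n) (l := 1) (p := P.n) (Conv.Rm X.smp.strand hL) U0,
    UV (n := X.n) (l := 1) (p := P.n) (Conv.Rm hL X.smp.strand) V0, c * c1, c' * c2,
    N, N', N1, N2, _, _, mul_ne_zero hc hc1, mul_ne_zero hc' hc2, UU_u (p := P.n) e1,
    UV_u (p := P.n) e2, UU_z (p := P.n) fun y => ?_, UV_z (p := P.n) fun y => ?_,
    UV_UU (p := P.n) e3 hR1, UU_UV (p := P.n) e4 hR2, a1, a2⟩
  · exact (LinearMap.congr_fun (Conv.Rm_map X.smp.strand hL X.smp.strand hL LinearMap.id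
      (Aff.Z D (Lt D j))) y).symm
  · exact (LinearMap.congr_fun (Conv.Rm_map hL X.smp.strand hL X.smp.strand
      (Aff.Z D (Lt D j)) LinearMap.id) y).symm

end Pool.Agent.KLS

end

section

/-! MP_e487d8_al, block HD, item DESC: descent of the maps to the quotient by `z - u^k`. -/

set_option autoImplicit false
set_option linter.unusedSectionVars false

namespace Pool.Agent.KLS

variable {K I : Type} [Field K] [Fintype I] [DecidableEq I]

namespace XHDESC

/-! ### pure algebra -/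
section alg

variable {R V W V' W' : Type} [Ring R] [AddCommGroup V] [Module R V] [AddCommGroup W] [Module R W]
  [AddCommGroup V'] [Module R V'] [AddCommGroup W'] [Module R W']

theorem pow_apply_comm (u : V →ₗ[R] V) (w : W →ₗ[R] W) (f : V →ₗ[R] W)
    (h : ∀ y, f (u y) = w (f y)) (k : ℕ) (y : V) : f ((u ^ k) y) = (w ^ k) (f y) := by
  induction k generalizing y with
  | zero => simp
  | succ k ih => rw [pow_succ, Module.End.mul_apply, ih, h, pow_succ, Module.End.mul_apply]

/-- a surjection with kernel in the kernel of `g` -/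
theorem desc (p : V →ₗ[R] V') (hp : Function.Surjective p) (g : V →ₗ[R] W)
    (h : LinearMap.ker p ≤ LinearMap.ker g) : ∃ g' : V' →ₗ[R] W, ∀ y, g' (p y) = g y := by
  refine ⟨((LinearMap.ker p).liftQ g h).comp
    ((LinearMap.quotKerEquivOfSurjective p hp).symm.toLinearMap), fun y => ?_⟩
  have h1 : (LinearMap.quotKerEquivOfSurjective p hp).symm (p y) =
      Submodule.Quotient.mk y := by
    rw [LinearEquiv.symm_apply_eq]
    rfl
  rw [LinearMap.comp_apply]
  change (LinearMap.ker p).liftQ g h ((LinearMap.quotKerEquivOfSurjective p hp).symm (p y)) = _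
  rw [h1]
  rfl

/-- the map of the quotients -/
theorem desc₂ (p : V →ₗ[R] V') (hp : Function.Surjective p) (p' : W →ₗ[R] W') (u z : V →ₗ[R] V)
    (u' z' : W →ₗ[R] W) (k : ℕ) (hk : LinearMap.ker p = LinearMap.range (z - u ^ k))
    (hk' : LinearMap.ker p' = LinearMap.range (z' - u' ^ k)) (U : V →ₗ[R] W)
    (hu : ∀ y, U (u y) = u' (U y)) (hz : ∀ y, U (z y) = z' (U y)) :
    ∃ UB : V' →ₗ[R] W', ∀ y, UB (p y) = p' (U y) := by
  refine desc p hp (p'.comp U) ?_
  intro y hy
  rw [hk] at hy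
  obtain ⟨x, rfl⟩ := hy
  rw [LinearMap.mem_ker, LinearMap.comp_apply, LinearMap.sub_apply, map_sub, hz,
    pow_apply_comm u u' U hu, ← LinearMap.mem_ker, hk']
  exact ⟨U x, rfl⟩

theorem q_z (p : V →ₗ[R] V') (u z : V →ₗ[R] V) (k : ℕ)
    (hk : LinearMap.ker p = LinearMap.range (z - u ^ k)) (v : V' →ₗ[R] V')
    (hv : ∀ y, v (p y) = p (u y)) (M : ℕ) (y : V) : p ((z ^ M) y) = (v ^ (k * M)) (p y) := by
  have h1 : ∀ y, p (z y) = (v ^ k) (p y) := by
    intro y
    rw [← pow_apply_comm u v p (fun y => (hv y).symm) k y, ← sub_eq_zero, ← map_sub,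
      ← LinearMap.mem_ker, hk]
    exact ⟨y, rfl⟩
  rw [pow_apply_comm z (v ^ k) p h1 M y, pow_mul]

end alg

section mp

variable {D : Datum K I} {M N M' N' : Type} [AddCommGroup M] [Module K M] [Module (KLRAlg D) M]
  [IsScalarTower K (KLRAlg D) M] [AddCommGroup N] [Module K N] [Module (KLRAlg D) N]
  [IsScalarTower K (KLRAlg D) N] [AddCommGroup M'] [Module K M'] [Module (KLRAlg D) M']
  [IsScalarTower K (KLRAlg D) M'] [AddCommGroup N'] [Module K N'] [Module (KLRAlg D) N']
  [IsScalarTower K (KLRAlg D) N']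

theorem map_sub_right (m : ℕ) (f : M →ₗ[KLRAlg D] M') (g g' : N →ₗ[KLRAlg D] N') :
    Conv.map (rfl : m = m) f (g - g') = Conv.map (rfl : m = m) f g - Conv.map (rfl : m = m) f g' := by
  apply Conv.hom_ext
  intro u v
  rw [LinearMap.sub_apply, Conv.map_mk, Conv.map_mk, Conv.map_mk, LinearMap.sub_apply, map_sub]

theorem map_sub_left (m : ℕ) (f f' : M →ₗ[KLRAlg D] M') (g : N →ₗ[KLRAlg D] N') :
    Conv.map (rfl : m = m) (f - f') g = Conv.map (rfl : m = m) f g - Conv.map (rfl : m = m) f' g := by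
  apply Conv.hom_ext
  intro u v
  rw [LinearMap.sub_apply, Conv.map_mk, Conv.map_mk, Conv.map_mk, LinearMap.sub_apply, map_sub,
    LinearMap.sub_apply]

theorem map_pow_right (m : ℕ) (g : N →ₗ[KLRAlg D] N) (k : ℕ) :
    Conv.map (rfl : m = m) (LinearMap.id : M →ₗ[KLRAlg D] M) (g ^ k) =
      (Conv.map (rfl : m = m) (LinearMap.id : M →ₗ[KLRAlg D] M) g) ^ k := by
  induction k with
  | zero =>
    apply Conv.hom_ext
    intro u v
    rw [Conv.map_mk, pow_zero, pow_zero]
    rfl
  | succ k ih =>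
    rw [pow_succ, pow_succ, ← ih]
    apply Conv.hom_ext
    intro u v
    rw [Conv.map_mk, Module.End.mul_apply, Module.End.mul_apply, Conv.map_mk, Conv.map_mk]
    rfl

theorem map_pow_left (m : ℕ) (f : M →ₗ[KLRAlg D] M) (k : ℕ) :
    Conv.map (rfl : m = m) (f ^ k) (LinearMap.id : N →ₗ[KLRAlg D] N) =
      (Conv.map (rfl : m = m) f (LinearMap.id : N →ₗ[KLRAlg D] N)) ^ k := by
  induction k with
  | zero =>
    apply Conv.hom_ext
    intro u v
    rw [Conv.map_mk, pow_zero, pow_zero]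
    rfl
  | succ k ih =>
    rw [pow_succ, pow_succ, ← ih]
    apply Conv.hom_ext
    intro u v
    rw [Conv.map_mk, Module.End.mul_apply, Module.End.mul_apply, Conv.map_mk, Conv.map_mk]
    rfl

theorem ker_left {n m m' : ℕ} (h : m = m') (hb : S_basis D) (hN : IsStrand D n N)
    (hM : IsStrand D m M) (hM' : IsStrand D m' M') (i : M →ₗ[KLRAlg D] M)
    (g : M →ₗ[KLRAlg D] M') (he : LinearMap.ker g = LinearMap.range i) :
    LinearMap.ker (Conv.map h g (LinearMap.id : N →ₗ[KLRAlg D] N)) =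
      LinearMap.range (Conv.map (rfl : m = m) i (LinearMap.id : N →ₗ[KLRAlg D] N)) := by
  subst h
  exact LinearMap.exact_iff.1 (Conv.exact_left hb hN hM hM hM' i g (LinearMap.exact_iff.2 he))

end mp

end XHDESC

theorem Mo.I_DESC {D : Datum K I} (hb : S_basis D) : Mo.StDesc D := by
  intro A B u z q uB k X hn hq hker huB hdq hL
  obtain ⟨U, U', c, c', N, N', M, M', δ, δ', hc, hc', hUu, hUu', hUz, hUz', h1, h2, hd, hd'⟩ := hL
  -- the two surjections
  have hBs : IsStrand D A.n B.M := hn ▸ B.strand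
  set pR : Conv D X.n X.M A.M →ₗ[KLRAlg D] Conv D X.n X.M B.M :=
    Conv.map (rfl : X.n = X.n) (LinearMap.id : X.M →ₗ[KLRAlg D] X.M) q with hpR
  set pL : Conv D A.n A.M X.M →ₗ[KLRAlg D] Conv D B.n B.M X.M :=
    Conv.map hn q (LinearMap.id : X.M →ₗ[KLRAlg D] X.M) with hpL
  have sR : Function.Surjective pR := Conv.map_surjective _ _ _ (fun x => ⟨x, rfl⟩) hq
  have sL : Function.Surjective pL := Conv.map_surjective _ _ _ hq (fun x => ⟨x, rfl⟩)
  have kR : LinearMap.ker pR = LinearMap.range (cr X A z - (cr X A u) ^ k) := by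
    have := LinearMap.exact_iff.1 (Conv.exact_right hb X.strand A.strand A.strand hBs
      (z - u ^ k) q (LinearMap.exact_iff.2 hker))
    rw [XHDESC.map_sub_right, XHDESC.map_pow_right] at this
    exact this
  have kL : LinearMap.ker pL = LinearMap.range (cl X A z - (cl X A u) ^ k) := by
    have := XHDESC.ker_left hn hb X.strand A.strand B.strand (z - u ^ k) q hker
    rw [XHDESC.map_sub_left, XHDESC.map_pow_left] at this
    exact this
  have vR : ∀ y, cr X B uB (pR y) = pR (cr X A u y) := by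
    intro y
    have h : (cr X B uB).comp pR = pR.comp (cr X A u) := by
      apply Conv.hom_ext
      intro a b
      simp only [LinearMap.comp_apply, cr, hpR, Conv.map_mk, huB]
    exact LinearMap.congr_fun h y
  have vL : ∀ y, cl X B uB (pL y) = pL (cl X A u y) := by
    intro y
    have h : (cl X B uB).comp pL = pL.comp (cl X A u) := by
      apply Conv.hom_ext
      intro a b
      simp only [LinearMap.comp_apply, cl, hpL, Conv.map_mk, huB]
    exact LinearMap.congr_fun h y
  have dR : HomDeg (Grd.conv X.n X.g A.g) (Grd.conv X.n X.g B.g) 0 pR := by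
    have := HomDeg.map (rfl : X.n = X.n) (HomDeg.id (gM := X.g)) hdq
    simpa using this
  have dL : HomDeg (Grd.conv A.n A.g X.g) (Grd.conv B.n B.g X.g) 0 pL := by
    have := HomDeg.map hn hdq (HomDeg.id (gM := X.g))
    simpa using this
  obtain ⟨UB, hUB⟩ := XHDESC.desc₂ pR sR pL (cr X A u) (cr X A z) (cl X A u) (cl X A z) k kR kL U
    hUu hUz
  obtain ⟨UB', hUB'⟩ := XHDESC.desc₂ pL sL pR (cl X A u) (cl X A z) (cr X A u) (cr X A z) k kL kR
    U' hUu' hUz'
  refine ⟨UB, UB', c, c', N + k * M, N' + k * M', δ, δ', hc, hc', ?_, ?_, ?_, ?_, ?_, ?_⟩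
  · intro y
    obtain ⟨y, rfl⟩ := sR y
    rw [vR, hUB, hUu, hUB, vL]
  · intro y
    obtain ⟨y, rfl⟩ := sL y
    rw [vL, hUB', hUu', hUB', vR]
  · intro y
    obtain ⟨y, rfl⟩ := sR y
    rw [hUB, hUB', h1]
    rw [LinearMap.map_smul_of_tower]
    rw [XHDESC.pow_apply_comm (cr X A u) (cr X B uB) pR (fun y => (vR y).symm),
      XHDESC.q_z pR (cr X A u) (cr X A z) k kR (cr X B uB) vR, pow_add, Module.End.mul_apply]
  · intro y
    obtain ⟨y, rfl⟩ := sL y
    rw [hUB', hUB, h2]
    rw [LinearMap.map_smul_of_tower]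
    rw [XHDESC.pow_apply_comm (cl X A u) (cl X B uB) pL (fun y => (vL y).symm),
      XHDESC.q_z pL (cl X A u) (cl X A z) k kL (cl X B uB) vL, pow_add, Module.End.mul_apply]
  · refine HomDeg.of_comp_right dR sR (s := 0) ?_
    have : UB.comp pR = pL.comp U := LinearMap.ext fun y => hUB y
    rw [this]
    have h := hd.comp dL
    rwa [add_comm] at h
  · refine HomDeg.of_comp_right dL sL (s := 0) ?_
    have : UB'.comp pL = pR.comp U' := LinearMap.ext fun y => hUB' y
    rw [this]
    have h := hd'.comp dR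
    rwa [add_comm] at h

end Pool.Agent.KLS

end

section

/-! MP_e487d8_al, block HD, item FILT: the filtration of `G / u^m G`. -/

set_option autoImplicit false

namespace Pool.Agent.KLS

variable {K I : Type} [Field K] [Fintype I] [DecidableEq I]

namespace XHFILT

section

variable {R : Type*} [Ring R] {A B C : Type*} [AddCommGroup A] [Module R A] [AddCommGroup B]
  [Module R B] [AddCommGroup C] [Module R C]

/-- the map `B → C` induced by `f : A → C` along the surjection `p : A → B` -/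
theorem desc (p : A →ₗ[R] B) (hp : Function.Surjective p) (f : A →ₗ[R] C)
    (h : LinearMap.ker p ≤ LinearMap.ker f) : ∃ g : B →ₗ[R] C, ∀ a, g (p a) = f a := by
  refine ⟨((LinearMap.ker p).liftQ f h) ∘ₗ (p.quotKerEquivOfSurjective hp).symm.toLinearMap,
    fun a => ?_⟩
  have h2 : (p.quotKerEquivOfSurjective hp).symm (p a) = Submodule.Quotient.mk a := by
    rw [LinearEquiv.symm_apply_eq]
    rfl
  simp only [LinearMap.comp_apply, LinearEquiv.coe_coe, h2]
  rfl

end

variable {D : Datum K I}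

/-- the graded quotient by the image of a homogeneous endomorphism -/
theorem quot (G : GV D) (u : G.M →ₗ[KLRAlg D] G.M) (t : ℤ) (hu : HomDeg G.g G.g t u) :
    ∃ (G₂ : GV D) (q : G.M →ₗ[KLRAlg D] G₂.M), Function.Surjective q ∧
      LinearMap.ker q = LinearMap.range u ∧ HomDeg G.g G₂.g 0 q := by
  let Q := G.M ⧸ LinearMap.range u
  let q : G.M →ₗ[KLRAlg D] Q := (LinearMap.range u).mkQ
  have hq : Function.Surjective q := (LinearMap.range u).mkQ_surjective
  have h : ∀ v d, q v = 0 → q (G.g.pr d v) = 0 := by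
    intro v d hv
    rw [Submodule.mkQ_apply, Submodule.Quotient.mk_eq_zero] at hv
    rw [Submodule.mkQ_apply, Submodule.Quotient.mk_eq_zero]
    obtain ⟨w, rfl⟩ := hv
    refine ⟨G.g.pr (d - t) w, ?_⟩
    rw [← hu.pr, sub_add_cancel]
  exact ⟨⟨Q, G.g.ofSurj q hq h⟩, q, hq, Submodule.ker_mkQ _, G.g.ofSurj_hom q hq h⟩

end XHFILT

variable (D : Datum K I)

theorem Mo.I_FILT (hX : Mo.StOccX D) : Mo.StFilt D := by
  intro Z G G₀ G' u p q m e d hZ hR hu hp hq hk hq0 hocc
  induction m generalizing G' q d with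
  | zero =>
    exfalso
    obtain ⟨W, i, r, a, b, hi, hr, -, -, -⟩ := hocc
    have h1 : ∀ x : G'.M, x = 0 := by
      intro x
      obtain ⟨g, rfl⟩ := hq x
      have : g ∈ LinearMap.ker q := by
        rw [hk, pow_zero]
        exact ⟨g, rfl⟩
      exact this
    have hn := hZ.nontrivial
    obtain ⟨z, hz⟩ := exists_ne (0 : Z.M)
    obtain ⟨w, rfl⟩ := hr z
    apply hz
    have : w = 0 := hi ((h1 _).trans (h1 _).symm)
    rw [this, map_zero]
  | succ m ih =>
    obtain ⟨G₂, q₂, hq₂, hk₂, hd₂⟩ := XHFILT.quot G (u ^ m) _ (hu.pow m)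
    have hle : LinearMap.ker p ≤ LinearMap.ker (q ∘ₗ (u ^ m)) := by
      intro g hg
      rw [hR.ker] at hg
      obtain ⟨g', rfl⟩ := hg
      have : (u ^ m) (u g') ∈ LinearMap.ker q := by
        rw [hk]
        exact ⟨g', by rw [pow_succ, Module.End.mul_apply]⟩
      exact this
    obtain ⟨i, hi⟩ := XHFILT.desc p hR.surj (q ∘ₗ (u ^ m)) hle
    have hle' : LinearMap.ker q ≤ LinearMap.ker q₂ := by
      rw [hk, hk₂]
      rintro _ ⟨g, rfl⟩
      exact ⟨u g, by rw [pow_succ, Module.End.mul_apply]⟩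
    obtain ⟨r, hr⟩ := XHFILT.desc q hq q₂ hle'
    have hinj : Function.Injective i := by
      rw [injective_iff_map_eq_zero]
      intro x hx
      obtain ⟨g, rfl⟩ := hR.surj x
      rw [hi, LinearMap.comp_apply] at hx
      have h1 : (u ^ m) g ∈ LinearMap.ker q := hx
      rw [hk] at h1
      obtain ⟨g', hg'⟩ := h1
      rw [pow_succ, Module.End.mul_apply] at hg'
      rw [← hR.pow_inj m hg', hR.apply_eq]
    have hsur : Function.Surjective r := by
      intro x
      obtain ⟨g, rfl⟩ := hq₂ x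
      exact ⟨q g, hr g⟩
    have hker : LinearMap.ker r = LinearMap.range i := by
      ext x
      constructor
      · intro hx
        obtain ⟨g, rfl⟩ := hq x
        rw [LinearMap.mem_ker, hr] at hx
        have h1 : g ∈ LinearMap.ker q₂ := hx
        rw [hk₂] at h1
        obtain ⟨g', rfl⟩ := h1
        exact ⟨p g', by rw [hi, LinearMap.comp_apply]⟩
      · rintro ⟨y, rfl⟩
        obtain ⟨g, rfl⟩ := hR.surj y
        rw [LinearMap.mem_ker, hi, LinearMap.comp_apply, hr]
        have h1 : (u ^ m) g ∈ LinearMap.ker q₂ := by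
          rw [hk₂]
          exact ⟨g, rfl⟩
        exact h1
    have hdi : HomDeg G₀.g G'.g (m * e) i := by
      refine HomDeg.of_comp_right hp hR.surj ?_
      have h1 : i ∘ₗ p = q ∘ₗ (u ^ m) := by
        ext g
        exact hi g
      rw [h1]
      convert (hu.pow m).comp hq0 using 1
      ring
    have hdr : HomDeg G'.g G₂.g 0 r := by
      refine HomDeg.of_comp_right hq0 hq ?_
      have h1 : r ∘ₗ q = q₂ := by
        ext g
        exact hr g
      rw [h1, add_zero]
      exact hd₂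
    rcases hX Z G₀ G' G₂ i r (m * e) 0 d hZ hinj hsur hker hdi hdr hocc with h | h
    · exact ⟨m, Nat.lt_succ_self m, h⟩
    · rw [add_zero] at h
      obtain ⟨j, hj, hj'⟩ := ih G₂ q₂ d hq₂ hk₂ hd₂ h
      exact ⟨j, hj.trans (Nat.lt_succ_self m), hj'⟩

end Pool.Agent.KLS

end

section

/-! MP_e487d8_al, block HD, item HD: the degrees of the constituents of `X ∘ b` and `b ∘ X`. -/

set_option autoImplicit false

namespace Pool.Agent.KLS

variable {K I : Type} [Field K] [Fintype I] [DecidableEq I]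

namespace XHHD

section

variable {D : Datum K I} {m m' n n' : ℕ} {W C N : Type}
  [AddCommGroup W] [Module K W] [Module (KLRAlg D) W] [IsScalarTower K (KLRAlg D) W]
  [AddCommGroup C] [Module K C] [Module (KLRAlg D) C] [IsScalarTower K (KLRAlg D) C]
  [AddCommGroup N] [Module K N] [Module (KLRAlg D) N] [IsScalarTower K (KLRAlg D) N]
  {u : W →ₗ[KLRAlg D] W} {p : W →ₗ[KLRAlg D] C}

theorem redL (hb : S_basis D) (h : m = m') (hW : IsStrand D m W) (hr : Red u p)
    (hN : IsStrand D n N) :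
    Red (Conv.map (rfl : m = m) u (LinearMap.id : N →ₗ[KLRAlg D] N))
      (Conv.map h p (LinearMap.id : N →ₗ[KLRAlg D] N)) := by
  subst h
  have hA : IsAff D m u p := ⟨hW, hr⟩
  exact hA.redL hb hN

theorem redR (hb : S_basis D) (hW : IsStrand D m W) (hr : Red u p)
    (hN : IsStrand D n N) :
    Red (Conv.map (rfl : n = n) (LinearMap.id : N →ₗ[KLRAlg D] N) u)
      (Conv.map (rfl : n = n) (LinearMap.id : N →ₗ[KLRAlg D] N) p) := by
  have hA : IsAff D m u p := ⟨hW, hr⟩
  exact hA.redR hb hN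

end

end XHHD

variable (D : Datum K I)

theorem Mo.I_HD (hb : S_basis D) (hP : Mo.StPi D) (hL : Mo.StLat D) : Mo.StHd D := by
  intro b gb
  obtain ⟨P₀, f, t, hfd, hn₀, ⟨P, u, p, hn, hred, hu, hp, hlat⟩, hf, hft⟩ := hP b gb
  refine ⟨P₀, hfd, hn₀, fun X S gX gS s => ?_⟩
  obtain ⟨U, U', c, c', N, N', δ, δ', hc, hc', hU, hU', hUU, hUU', hdU, hdU'⟩ := hlat X gX
  have hS := S.smp.simple
  have hX := X.smp.strand
  -- the two lattices
  have rH : Red (cr (X.gm gX) P u) (Conv.map (rfl : X.n = X.n)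
      (LinearMap.id : X.M →ₗ[KLRAlg D] X.M) p) := XHHD.redR hb P.strand hred hX
  have rG : Red (cl (X.gm gX) P u) (Conv.map hn p (LinearMap.id : X.M →ₗ[KLRAlg D] X.M)) :=
    XHHD.redL hb hn P.strand hred hX
  have dH : HomDeg (Grd.conv X.n gX P.g) (Grd.conv X.n gX P.g) 2 (cr (X.gm gX) P u) := by
    have := HomDeg.map (rfl : X.n = X.n) (HomDeg.id (gM := gX)) hu
    rwa [zero_add] at this
  have dG : HomDeg (Grd.conv P.n P.g gX) (Grd.conv P.n P.g gX) 2 (cl (X.gm gX) P u) := by
    have := HomDeg.map (rfl : P.n = P.n) hu (HomDeg.id (gM := gX))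
    rwa [add_zero] at this
  have dpH : HomDeg (Grd.conv X.n gX P.g) (Grd.conv X.n gX P₀.g) 0 (Conv.map (rfl : X.n = X.n)
      (LinearMap.id : X.M →ₗ[KLRAlg D] X.M) p) := by
    have := HomDeg.map (rfl : X.n = X.n) (HomDeg.id (gM := gX)) hp
    rwa [zero_add] at this
  have dpG : HomDeg (Grd.conv P.n P.g gX) (Grd.conv P₀.n P₀.g gX) 0
      (Conv.map hn p (LinearMap.id : X.M →ₗ[KLRAlg D] X.M)) := by
    have := HomDeg.map hn hp (HomDeg.id (gM := gX))
    rwa [add_zero] at this
  have fin : ∀ (G₀ V : GV D) (D' : ℤ), (∀ (Z : GV D) (d : ℤ), IsSimpleModule (KLRAlg D) Z.M →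
      Z.Occ V d → ∃ j : ℕ, Z.Occ G₀ (d + D' - j * 2)) →
      ∀ (Z : SMod D) (gZ : Grd D Z.M) (d : ℤ), (Z.gm gZ).Occ V d →
        ∃ j : ℕ, (Z.gm gZ).Occ G₀ (d + D' - j) := by
    intro G₀ V D' h Z gZ d hd
    obtain ⟨j, hj⟩ := h (Z.gm gZ).toGV d Z.smp.simple hd
    refine ⟨j * 2, ?_⟩
    push_cast
    exact hj
  constructor
  · intro h hh hdh hmax
    obtain ⟨D', h1, h2⟩ := hL ((X.gm gX).conv P).toGV (P.conv (X.gm gX)).toGV
      ((X.gm gX).conv P₀).toGV (P₀.conv (X.gm gX)).toGV ((X.gm gX).conv (b.gm gb)).toGV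
      (S.gm gS).toGV (cr (X.gm gX) P u) (cl (X.gm gX) P u)
      (Conv.map (rfl : X.n = X.n) (LinearMap.id : X.M →ₗ[KLRAlg D] X.M) p)
      (Conv.map hn p (LinearMap.id : X.M →ₗ[KLRAlg D] X.M)) U U' c c' N N' 2 δ t s
      (Conv.map (rfl : X.n = X.n) (LinearMap.id : X.M →ₗ[KLRAlg D] X.M) f) h rH rG dH dG dpH dpG
      (by norm_num) hU hU' hc hc' hUU hUU' hdU
      (Conv.map_surjective rfl _ _ (fun v => ⟨v, rfl⟩) hf)
      (by
        have := HomDeg.map (rfl : X.n = X.n) (HomDeg.id (gM := gX)) hft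
        rwa [zero_add] at this) hh hdh hS hmax
    exact ⟨D', h1, fin _ _ D' h2⟩
  · intro h hh hdh hmax
    obtain ⟨D', h1, h2⟩ := hL (P.conv (X.gm gX)).toGV ((X.gm gX).conv P).toGV
      (P₀.conv (X.gm gX)).toGV ((X.gm gX).conv P₀).toGV ((b.gm gb).conv (X.gm gX)).toGV
      (S.gm gS).toGV (cl (X.gm gX) P u) (cr (X.gm gX) P u)
      (Conv.map hn p (LinearMap.id : X.M →ₗ[KLRAlg D] X.M))
      (Conv.map (rfl : X.n = X.n) (LinearMap.id : X.M →ₗ[KLRAlg D] X.M) p) U' U c' c N' N 2 δ' t s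
      (Conv.map hn₀ f (LinearMap.id : X.M →ₗ[KLRAlg D] X.M)) h rG rH dG dH dpG dpH
      (by norm_num) hU' hU hc' hc hUU' hUU hdU'
      (Conv.map_surjective hn₀ _ _ hf (fun v => ⟨v, rfl⟩))
      (by
        have := HomDeg.map hn₀ hft (HomDeg.id (gM := gX))
        rwa [add_zero] at this) hh hdh hS hmax
    exact ⟨D', h1, fin _ _ D' h2⟩

end Pool.Agent.KLS

end

section

/-! MP_e487d8_al, block HD: the lattice lemma (item LAT). -/

set_option autoImplicit false

namespace Pool.Agent.KLS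

variable {K I : Type} [Field K] [Fintype I] [DecidableEq I]

namespace XHLAT

section

variable {D : Datum K I} {M N P : Type} [AddCommGroup M] [Module K M] [Module (KLRAlg D) M]
  [IsScalarTower K (KLRAlg D) M] [AddCommGroup N] [Module K N] [Module (KLRAlg D) N]
  [IsScalarTower K (KLRAlg D) N] [AddCommGroup P] [Module K P] [Module (KLRAlg D) P]
  [IsScalarTower K (KLRAlg D) P]

/-- the range of a homogeneous map is homogeneous -/
theorem pr_range {gM : Grd D M} {gN : Grd D N} {s : ℤ} {f : M →ₗ[KLRAlg D] N}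
    (hf : HomDeg gM gN s f) (d : ℤ) {v : N} (hv : v ∈ LinearMap.range f) :
    gN.pr d v ∈ LinearMap.range f := by
  obtain ⟨u, rfl⟩ := hv
  refine ⟨gM.pr (d - s) u, ?_⟩
  rw [← hf.pr, sub_add_cancel]

/-- descent along a surjective map -/
theorem exists_desc (r : M →ₗ[KLRAlg D] N) (g : M →ₗ[KLRAlg D] P) (hr : Function.Surjective r)
    (hk : LinearMap.ker r ≤ LinearMap.ker g) : ∃ p : N →ₗ[KLRAlg D] P, p.comp r = g := by
  refine ⟨(Submodule.liftQ _ g hk) ∘ₗ (r.quotKerEquivOfSurjective hr).symm.toLinearMap, ?_⟩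
  ext a
  have h2 : (r.quotKerEquivOfSurjective hr).symm (r a) = Submodule.Quotient.mk a := by
    rw [LinearEquiv.symm_apply_eq]
    rfl
  simp only [LinearMap.comp_apply, LinearEquiv.coe_coe, h2]
  rfl

end

variable {D : Datum K I}

/-- a quotient of the image of a homogeneous map is a subquotient -/
theorem occ_of_factor (A B C : GV D) (f : A.M →ₗ[KLRAlg D] B.M) (g : A.M →ₗ[KLRAlg D] C.M)
    (α γ : ℤ) (hf : HomDeg A.g B.g α f) (hg : HomDeg A.g C.g γ g) (hs : Function.Surjective g)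
    (hk : LinearMap.ker f ≤ LinearMap.ker g) : C.Occ B (α - γ) := by
  have hmem : ∀ (v : LinearMap.range f) (d : ℤ),
      B.g.pr d ((LinearMap.range f).subtype v) ∈ LinearMap.range (LinearMap.range f).subtype := by
    intro v d
    rw [Submodule.range_subtype]
    exact pr_range hf d v.2
  have hi : Function.Injective (LinearMap.range f).subtype := Submodule.subtype_injective _
  have h1 : HomDeg (B.g.ofInj (LinearMap.range f).subtype hi hmem) B.g 0
      (LinearMap.range f).subtype := Grd.ofInj_hom _ _ _ _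
  have h2 : HomDeg A.g (B.g.ofInj (LinearMap.range f).subtype hi hmem) α f.rangeRestrict := by
    refine HomDeg.of_comp_left h1 hi ?_
    rw [add_zero]
    exact hf
  have hr : Function.Surjective f.rangeRestrict := f.surjective_rangeRestrict
  obtain ⟨p, hp⟩ := exists_desc f.rangeRestrict g hr (by rwa [LinearMap.ker_rangeRestrict])
  have h3 : HomDeg (B.g.ofInj (LinearMap.range f).subtype hi hmem) C.g (γ - α) p := by
    refine HomDeg.of_comp_right h2 hr ?_
    rw [hp, add_sub_cancel]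
    exact hg
  refine ⟨⟨LinearMap.range f, B.g.ofInj (LinearMap.range f).subtype hi hmem⟩,
    (LinearMap.range f).subtype, p, 0, γ - α, hi, ?_, h1, h3, by ring⟩
  intro c
  obtain ⟨a, rfl⟩ := hs c
  exact ⟨f.rangeRestrict a, LinearMap.congr_fun hp a⟩

end XHLAT

variable (D : Datum K I)

theorem Mo.I_LAT (hS : Mo.StOccS D) (hF : Mo.StFilt D) : Mo.StLat D := by
  intro H G H₀ G₀ V S uH uG pH pG U U' c c' N N' e δ t s π h hrH hrG huH huG hpH hpG _ hU hU' hc
    hc' hUU hUU' hdU hπ hdπ hh hdh hsS hmax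
  have hnt : Nontrivial S.M := IsSimpleModule.nontrivial (KLRAlg D) S.M
  have hUi : Function.Injective U := by
    rw [← LinearMap.ker_eq_bot, LinearMap.ker_eq_bot']
    intro y hy
    have h1 := hUU y
    rw [hy, map_zero] at h1
    have h2 : (uH ^ N) y = 0 := (smul_eq_zero.1 h1.symm).resolve_left hc
    exact hrH.pow_inj N (h2.trans (map_zero _).symm)
  have hUpow : ∀ (k : ℕ) (y : H.M), U ((uH ^ k) y) = (uG ^ k) (U y) := by
    intro k
    induction k with
    | zero => intro y; rfl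
    | succ k ih =>
      intro y
      rw [pow_succ, pow_succ, Module.End.mul_apply, Module.End.mul_apply, ih, hU]
  have hUpow' : ∀ (k : ℕ) (y : G.M), U' ((uG ^ k) y) = (uH ^ k) (U' y) := by
    intro k
    induction k with
    | zero => intro y; rfl
    | succ k ih =>
      intro y
      rw [pow_succ, pow_succ, Module.End.mul_apply, Module.End.mul_apply, ih, hU']
  -- the filtration
  let F : ℕ → Submodule (KLRAlg D) H.M := fun l => (LinearMap.range (uG ^ l)).comap U
  let π' : H.M →ₗ[KLRAlg D] V.M := π.comp pH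
  have hπ' : Function.Surjective π' := hπ.comp hrH.surj
  have hdπ' : HomDeg H.g V.g t π' := by
    have := hpH.comp hdπ
    rwa [zero_add] at this
  have hF0 : ∀ x : H.M, x ∈ F 0 := fun x => ⟨U x, rfl⟩
  -- `F (N + 1)` is killed
  have hFN : ∀ x ∈ F (N + 1), π' x = 0 := by
    rintro x ⟨g, hg⟩
    have h1 := hUU x
    rw [← hg, hUpow', pow_succ, Module.End.mul_apply, ← LinearMap.map_smul_of_tower] at h1
    have h2 : uH (U' g) = c • x := hrH.pow_inj N h1
    have h3 : x = uH (U' (c⁻¹ • g)) := by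
      rw [LinearMap.map_smul_of_tower, LinearMap.map_smul_of_tower, h2, smul_smul,
        inv_mul_cancel₀ hc, one_smul]
    change π (pH x) = 0
    rw [h3, hrH.apply_eq, map_zero]
  obtain ⟨l, ⟨x₀, hx₀, hx₀'⟩, hl⟩ : ∃ l : ℕ, (∃ x ∈ F l, h (π' x) ≠ 0) ∧
      ∀ x ∈ F (l + 1), h (π' x) = 0 := by
    by_contra hcon
    push Not at hcon
    have h1 : ∀ l : ℕ, ∃ x ∈ F l, h (π' x) ≠ 0 := by
      intro l
      induction l with
      | zero =>
        obtain ⟨s₀, hs₀⟩ := exists_ne (0 : S.M)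
        obtain ⟨v, rfl⟩ := hh s₀
        obtain ⟨x, rfl⟩ := hπ' v
        exact ⟨x, hF0 x, hs₀⟩
      | succ l ih => exact hcon l ih
    obtain ⟨x, hx, hx'⟩ := h1 (N + 1)
    rw [hFN x hx, map_zero] at hx'
    exact hx' rfl
  let j : F l →ₗ[KLRAlg D] H.M := (F l).subtype
  have hj : Function.Injective j := Submodule.subtype_injective _
  -- `F l` maps onto `V`
  have hsur : Function.Surjective (π'.comp j) := by
    have h1 : (F l).map π' = ⊤ := by
      by_contra hne
      exact hx₀' (hmax _ hne (Submodule.mem_map_of_mem hx₀))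
    intro v
    have h2 : v ∈ (F l).map π' := by rw [h1]; trivial
    obtain ⟨x, hx, rfl⟩ := h2
    exact ⟨⟨x, hx⟩, rfl⟩
  -- the grading of `F l`
  have hul : HomDeg G.g G.g (l * e) (uG ^ l) := huG.pow l
  have hmem : ∀ (v : F l) (d : ℤ), H.g.pr d (j v) ∈ LinearMap.range j := by
    intro v d
    rw [Submodule.range_subtype]
    change U (H.g.pr d v.1) ∈ LinearMap.range (uG ^ l)
    rw [← hdU.pr]
    exact XHLAT.pr_range hul _ v.2
  let A : GV D := ⟨F l, H.g.ofInj j hj hmem⟩
  have hdj : HomDeg A.g H.g 0 j := Grd.ofInj_hom H.g j hj hmem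
  have hdg : HomDeg A.g V.g t (π'.comp j) := by
    have := hdj.comp hdπ'
    rwa [zero_add] at this
  -- the map `φ`
  let φ : F l →ₗ[KLRAlg D] G.M :=
    (LinearEquiv.ofInjective (uG ^ l) (hrG.pow_inj l)).symm.toLinearMap ∘ₗ
      LinearMap.codRestrict (LinearMap.range (uG ^ l)) (U.comp j) (fun x => x.2)
  have hφ : ∀ x : F l, (uG ^ l) (φ x) = U x.1 := by
    intro x
    have h2 := (LinearEquiv.ofInjective (uG ^ l) (hrG.pow_inj l)).apply_symm_apply
      (LinearMap.codRestrict (LinearMap.range (uG ^ l)) (U.comp j) (fun x => x.2) x)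
    have h3 := congrArg Subtype.val h2
    rw [LinearEquiv.ofInjective_apply] at h3
    exact h3
  have hdφ : HomDeg A.g G.g (δ - l * e) φ := by
    refine HomDeg.of_comp_left hul (hrG.pow_inj l) ?_
    have h1 : (uG ^ l).comp φ = U.comp j := LinearMap.ext hφ
    rw [h1, sub_add_cancel]
    have := hdj.comp hdU
    rwa [zero_add] at this
  refine ⟨δ - l * e - t, ?_, ?_⟩
  · -- `S`
    have h1 : HomDeg A.g G₀.g (δ - l * e + 0) (pG.comp φ) := hdφ.comp hpG
    have h2 : HomDeg A.g S.g (t + -s) (h.comp (π'.comp j)) := hdg.comp hdh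
    have h3 := XHLAT.occ_of_factor A G₀ S _ _ _ _ h1 h2 (hh.comp hsur) (by
      intro x hx
      have hx1 : φ x ∈ LinearMap.ker pG := hx
      rw [hrG.ker] at hx1
      obtain ⟨g, hg⟩ := hx1
      refine hl x.1 ⟨g, ?_⟩
      rw [pow_succ, Module.End.mul_apply, hg, hφ])
    convert h3 using 1
    ring
  · intro Z d hZ hZV
    -- the quotient of `G` by `uG ^ m`
    have hum : HomDeg G.g G.g ((N' + 1 : ℕ) * e) (uG ^ (N' + 1)) := huG.pow (N' + 1)
    let R := LinearMap.range (uG ^ (N' + 1))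
    have hq : Function.Surjective R.mkQ := Submodule.mkQ_surjective _
    have hq0 : ∀ (u : G.M) (d : ℤ), R.mkQ u = 0 → R.mkQ (G.g.pr d u) = 0 := by
      intro u d hu
      rw [Submodule.mkQ_apply, Submodule.Quotient.mk_eq_zero] at hu ⊢
      exact XHLAT.pr_range hum d hu
    let G' : GV D := ⟨G.M ⧸ R, G.g.ofSurj R.mkQ hq hq0⟩
    have hdq : HomDeg G.g G'.g 0 R.mkQ := Grd.ofSurj_hom G.g R.mkQ hq hq0
    have h1 : HomDeg A.g G'.g (δ - l * e + 0) (R.mkQ.comp φ) := hdφ.comp hdq
    have h2 := XHLAT.occ_of_factor A G' V _ _ _ _ h1 hdg hsur (by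
      intro x hx
      have hx1 : φ x ∈ LinearMap.ker R.mkQ := hx
      rw [Submodule.ker_mkQ] at hx1
      obtain ⟨g, hg⟩ := hx1
      have hx2 : U x.1 = U ((uH ^ l) (uH (U' (c'⁻¹ • g)))) := by
        rw [← hφ, ← hg, hUpow, hU, LinearMap.map_smul_of_tower, LinearMap.map_smul_of_tower, hUU',
          smul_smul, inv_mul_cancel₀ hc', one_smul, pow_succ', Module.End.mul_apply]
      have hx3 : x.1 = uH ((uH ^ l) (U' (c'⁻¹ • g))) := by
        rw [hUi hx2, ← Module.End.mul_apply, ← pow_succ, pow_succ', Module.End.mul_apply]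
      change π (pH x.1) = 0
      rw [hx3, hrH.apply_eq, map_zero])
    obtain ⟨W, i, p, a, b, hi, hp, hdi, hdp, hab⟩ := h2
    have h3 : Z.Occ G' (d - b + a) := (hS Z W G' (d - b) a).2 i hi hdi
      ((hS Z W V d b).1 p hp hdp hZV)
    obtain ⟨k, _, hk⟩ := hF Z G G₀ G' uG pG R.mkQ (N' + 1) e (d - b + a) hZ hrG huG hpG hq
      (Submodule.ker_mkQ _) hdq h3
    refine ⟨k, ?_⟩
    convert hk using 1
    linarith

end Pool.Agent.KLS

end

section

/-! MP_e487d8_al, item OCCS: subquotients of quotients and of submodules. -/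

set_option autoImplicit false

namespace Pool.Agent.KLS

namespace XHOCCS

variable {K I : Type} [Field K] [Fintype I] [DecidableEq I] {D : Datum K I}

/-- a subquotient of a quotient is a subquotient -/
theorem quo {Z V V' : GV D} {d t : ℤ} {p : V.M →ₗ[KLRAlg D] V'.M}
    (hp : Function.Surjective p) (hpt : HomDeg V.g V'.g t p) (h : Z.Occ V' d) :
    Z.Occ V (d - t) := by
  obtain ⟨W, i, p', a, b, hi, hp', hia, hpb, rfl⟩ := h
  have hmem : ∀ (v : V.M) (k : ℤ), p v ∈ LinearMap.range i →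
      p (V.g.pr k v) ∈ LinearMap.range i := by
    rintro v k ⟨w, hw⟩
    refine ⟨W.g.pr (k + t - a) w, ?_⟩
    rw [← hpt.pr, ← hw, ← hia.pr, sub_add_cancel]
  have hrange : ∀ (v : ↥(Submodule.comap p (LinearMap.range i))) (k : ℤ),
      V.g.pr k ((Submodule.comap p (LinearMap.range i)).subtype v) ∈
        LinearMap.range (Submodule.comap p (LinearMap.range i)).subtype := by
    intro v k
    rw [Submodule.range_subtype, Submodule.mem_comap]
    exact hmem _ _ (Submodule.mem_comap.1 v.2)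
  have hinj : Function.Injective (Submodule.comap p (LinearMap.range i)).subtype :=
    Submodule.injective_subtype _
  have hcod : ∀ v : ↥(Submodule.comap p (LinearMap.range i)),
      (p ∘ₗ (Submodule.comap p (LinearMap.range i)).subtype) v ∈ LinearMap.range i :=
    fun v => Submodule.mem_comap.1 v.2
  obtain ⟨r, hr⟩ : ∃ r : ↥(Submodule.comap p (LinearMap.range i)) →ₗ[KLRAlg D] W.M,
      i ∘ₗ r = p ∘ₗ (Submodule.comap p (LinearMap.range i)).subtype := by
    refine ⟨(LinearEquiv.ofInjective i hi).symm.toLinearMap ∘ₗ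
      LinearMap.codRestrict (LinearMap.range i)
        (p ∘ₗ (Submodule.comap p (LinearMap.range i)).subtype) hcod, ?_⟩
    ext v
    have h2 := (LinearEquiv.ofInjective i hi).apply_symm_apply
      (LinearMap.codRestrict (LinearMap.range i)
        (p ∘ₗ (Submodule.comap p (LinearMap.range i)).subtype) hcod v)
    have h3 := congrArg Subtype.val h2
    rw [LinearEquiv.ofInjective_apply] at h3
    exact h3
  have hrs : Function.Surjective r := by
    intro w
    obtain ⟨v, hv⟩ := hp (i w)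
    refine ⟨⟨v, Submodule.mem_comap.2 ⟨w, hv.symm⟩⟩, hi ?_⟩
    have h4 := LinearMap.congr_fun hr ⟨v, Submodule.mem_comap.2 ⟨w, hv.symm⟩⟩
    exact h4.trans hv
  refine ⟨⟨↥(Submodule.comap p (LinearMap.range i)),
    V.g.ofInj (Submodule.comap p (LinearMap.range i)).subtype hinj hrange⟩,
    (Submodule.comap p (LinearMap.range i)).subtype, p' ∘ₗ r, 0, t - a + b, hinj,
    hp'.comp hrs, V.g.ofInj_hom _ hinj hrange, ?_, by ring⟩
  refine HomDeg.comp (s := t - a) (s' := b) (gN := W.g) ?_ hpb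
  refine HomDeg.of_comp_left (s := t - a) (s' := a) hia hi ?_
  rw [hr, sub_add_cancel]
  have h5 := HomDeg.comp (V.g.ofInj_hom _ hinj hrange) hpt
  rwa [zero_add] at h5

end XHOCCS

theorem Mo.I_OCCS {K I : Type} [Field K] [Fintype I] [DecidableEq I] (D : Datum K I) :
    Mo.StOccS D := by
  intro Z V V' d t
  refine ⟨fun p hp hpt h => XHOCCS.quo hp hpt h, fun i hi hit h => ?_⟩
  obtain ⟨W, j, p', a, b, hj, hp', hja, hpb, rfl⟩ := h
  exact ⟨W, i ∘ₗ j, p', a + t, b, hi.comp hj, hp', hja.comp hit, hpb, by ring⟩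

end Pool.Agent.KLS

end

section

/-! MP_e487d8_al, block HD, item OCCX: simple subquotients and exact sequences. -/

set_option autoImplicit false

namespace Pool.Agent.KLS

variable {K I : Type} [Field K] [Fintype I] [DecidableEq I] (D : Datum K I)

theorem Mo.I_OCCX : Mo.StOccX D := by
  intro Z V₁ V V₂ i q a b d hZ hi hq hker hia hqb hocc
  obtain ⟨W, j, p, x, y, hj, hp, hjx, hpy, hd⟩ := hocc
  set f : W.M →ₗ[KLRAlg D] V₂.M := q.comp j with hf
  have hfd : HomDeg W.g V₂.g (x + b) f := hjx.comp hqb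
  by_cases hc : p.comp (LinearMap.ker f).subtype = 0
  · -- the quotient
    right
    have hle : LinearMap.ker f ≤ LinearMap.ker p := by
      intro w hw
      have h := LinearMap.congr_fun hc ⟨w, hw⟩
      exact h
    have hmem : ∀ (v : LinearMap.range f) (e : ℤ),
        V₂.g.pr e ((LinearMap.range f).subtype v) ∈ LinearMap.range (LinearMap.range f).subtype := by
      rintro ⟨_, w, rfl⟩ e
      rw [Submodule.range_subtype]
      refine ⟨W.g.pr (e - (x + b)) w, ?_⟩
      rw [← hfd.pr, sub_add_cancel]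
      rfl
    set f' : W.M →ₗ[KLRAlg D] LinearMap.range f := f.rangeRestrict with hf'
    have hf's : Function.Surjective f' := f.surjective_rangeRestrict
    have hsub := Grd.ofInj_hom V₂.g (LinearMap.range f).subtype
      (Submodule.injective_subtype _) hmem
    have hf'd : HomDeg W.g (V₂.g.ofInj (LinearMap.range f).subtype
        (Submodule.injective_subtype _) hmem) (x + b) f' := by
      refine HomDeg.of_comp_left hsub (Submodule.injective_subtype _) ?_
      rw [add_zero]
      exact hfd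
    set p₂ : LinearMap.range f →ₗ[KLRAlg D] Z.M :=
      ((LinearMap.ker f).liftQ p hle).comp (f.quotKerEquivRange.symm).toLinearMap with hp₂
    have hp₂f : p₂.comp f' = p := by
      ext w
      show (LinearMap.ker f).liftQ p hle (f.quotKerEquivRange.symm (f' w)) = p w
      have h1 : f.quotKerEquivRange.symm (f' w) = Submodule.Quotient.mk w := by
        rw [LinearEquiv.symm_apply_eq]
        rfl
      rw [h1]
      rfl
    refine ⟨⟨LinearMap.range f, V₂.g.ofInj (LinearMap.range f).subtype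
      (Submodule.injective_subtype _) hmem⟩, (LinearMap.range f).subtype, p₂, 0, y - (x + b),
      Submodule.injective_subtype _, ?_, hsub, ?_, ?_⟩
    · intro z
      obtain ⟨w, rfl⟩ := hp z
      exact ⟨f' w, LinearMap.congr_fun hp₂f w⟩
    · refine HomDeg.of_comp_right hf'd hf's ?_
      rw [hp₂f, add_sub_cancel]
      exact hpy
    · rw [hd]
      ring
  · -- the submodule
    left
    have hmem : ∀ (v : LinearMap.ker f) (e : ℤ),
        W.g.pr e ((LinearMap.ker f).subtype v) ∈ LinearMap.range (LinearMap.ker f).subtype := by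
      rintro ⟨w, hw⟩ e
      rw [Submodule.range_subtype, LinearMap.mem_ker]
      show f (W.g.pr e w) = 0
      rw [← hfd.pr, LinearMap.mem_ker.1 hw, map_zero]
    have hsub := Grd.ofInj_hom W.g (LinearMap.ker f).subtype
      (Submodule.injective_subtype _) hmem
    have hran : ∀ w : LinearMap.ker f,
        (j.comp (LinearMap.ker f).subtype) w ∈ LinearMap.range i := by
      rintro ⟨w, hw⟩
      rw [← hker]
      exact hw
    set k : LinearMap.ker f →ₗ[KLRAlg D] V₁.M :=
      ((LinearEquiv.ofInjective i hi).symm).toLinearMap.comp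
        (LinearMap.codRestrict (LinearMap.range i) (j.comp (LinearMap.ker f).subtype) hran)
      with hk
    have hik : i.comp k = j.comp (LinearMap.ker f).subtype := by
      ext w
      have h2 := (LinearEquiv.ofInjective i hi).apply_symm_apply
        (LinearMap.codRestrict (LinearMap.range i) (j.comp (LinearMap.ker f).subtype) hran w)
      exact congrArg Subtype.val h2
    have hkinj : Function.Injective k := by
      have h : Function.Injective (i.comp k) := by
        rw [hik]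
        exact hj.comp (Submodule.injective_subtype _)
      exact Function.Injective.of_comp h
    have := hZ
    have hsurj : Function.Surjective (p.comp (LinearMap.ker f).subtype) :=
      (LinearMap.surjective_or_eq_zero _).resolve_right hc
    refine ⟨⟨LinearMap.ker f, W.g.ofInj (LinearMap.ker f).subtype
      (Submodule.injective_subtype _) hmem⟩, k, p.comp (LinearMap.ker f).subtype, x - a, 0 + y,
      hkinj, hsurj, ?_, hsub.comp hpy, ?_⟩
    · refine HomDeg.of_comp_left hia hi ?_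
      rw [hik, sub_add_cancel]
      have h := hsub.comp hjx
      rwa [zero_add] at h
    · rw [hd]
      ring

end Pool.Agent.KLS

end

section

/-! MP_e487d8_al, block HD: the square of the R-matrix on `L(j)_z ∘ X`. -/

set_option autoImplicit false
set_option linter.unusedVariables false

namespace Pool.Agent.KLS

variable {K I : Type} [Field K] [Fintype I] [DecidableEq I] (D : Datum K I)

namespace XHONEL

variable {D} (j : I) {n : ℕ} {N : Type} [AddCommGroup N] [Module K N] [Module (KLRAlg D) N]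
  [IsScalarTower K (KLRAlg D) N] (hN : IsStrand D n N)

variable (N) in
/-- `Z ∘ 1` -/
noncomputable def F : Conv D 1 (Aff D (Lt D j)) N →ₗ[KLRAlg D] Conv D 1 (Aff D (Lt D j)) N :=
  Conv.map (rfl : 1 = 1) (Aff.Z D (Lt D j)) (LinearMap.id : N →ₗ[KLRAlg D] N)

/-- the square of the R-matrix -/
noncomputable def RR : Conv D 1 (Aff D (Lt D j)) N →ₗ[KLRAlg D] Conv D 1 (Aff D (Lt D j)) N :=
  (Conv.Rm hN (Aff.isStrand (Lt.isStrand D j))) ∘ₗ (Conv.Rm (Aff.isStrand (Lt.isStrand D j)) hN)

theorem RR_F (y : Conv D 1 (Aff D (Lt D j)) N) : RR j hN (F j N y) = F j N (RR j hN y) := by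
  have h1 := LinearMap.congr_fun (Conv.Rm_map (Aff.isStrand (Lt.isStrand D j)) hN
    (Aff.isStrand (Lt.isStrand D j)) hN (Aff.Z D (Lt D j)) (LinearMap.id : N →ₗ[KLRAlg D] N)) y
  have h2 := LinearMap.congr_fun (Conv.Rm_map hN (Aff.isStrand (Lt.isStrand D j))
    hN (Aff.isStrand (Lt.isStrand D j)) (LinearMap.id : N →ₗ[KLRAlg D] N) (Aff.Z D (Lt D j)))
    (Conv.Rm (Aff.isStrand (Lt.isStrand D j)) hN y)
  rw [LinearMap.comp_apply, LinearMap.comp_apply] at h1 h2
  unfold RR F
  rw [LinearMap.comp_apply, LinearMap.comp_apply, ← h1, ← h2]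

theorem RR_smul (r : K) (y : Conv D 1 (Aff D (Lt D j)) N) : RR j hN (r • y) = r • RR j hN y := by
  rw [← algebraMap_smul (KLRAlg D) r, map_smul, algebraMap_smul]

theorem pow_smul' (r : K) (s : ℕ) (y : Conv D 1 (Aff D (Lt D j)) N) :
    (F j N ^ s) (r • y) = r • (F j N ^ s) y := by
  rw [← algebraMap_smul (KLRAlg D) r, map_smul, algebraMap_smul]

theorem pow_F (s : ℕ) (y : Conv D 1 (Aff D (Lt D j)) N) :
    (F j N ^ s) (F j N y) = F j N ((F j N ^ s) y) := by
  rw [← Module.End.mul_apply, ← Module.End.mul_apply, ← pow_succ, ← pow_succ']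

/-- the formula on the vectors `w ∘ v` for one `v` -/
theorem all_w {c : K} {s : ℕ} {v : N}
    (h : RR j hN (Conv.mk D 1 (Aff D (Lt D j)) N (Aff.sg D 0 (Lt.one D j)) v) =
      c • (F j N ^ s) (Conv.mk D 1 (Aff D (Lt D j)) N (Aff.sg D 0 (Lt.one D j)) v))
    (w : Aff D (Lt D j)) :
    RR j hN (Conv.mk D 1 (Aff D (Lt D j)) N w v) =
      c • (F j N ^ s) (Conv.mk D 1 (Aff D (Lt D j)) N w v) := by
  induction w using Aff.ind with
  | h0 => simp
  | ha v w hv hw => rw [map_add, LinearMap.add_apply, map_add, map_add, smul_add, hv, hw]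
  | hs d u =>
    obtain ⟨r, rfl⟩ := Lt.exists_eq D j u
    rw [map_smul, map_smul, LinearMap.smul_apply, RR_smul, pow_smul', smul_comm c r]
    congr 1
    induction d with
    | zero => exact h
    | succ d ih =>
      have h1 : Conv.mk D 1 (Aff D (Lt D j)) N (Aff.sg D (d + 1) (Lt.one D j)) v =
          F j N (Conv.mk D 1 (Aff D (Lt D j)) N (Aff.sg D d (Lt.one D j)) v) := by
        unfold F
        rw [Conv.map_mk, Aff.Z_sg, LinearMap.id_apply]
      have h2 : ∀ y : Conv D 1 (Aff D (Lt D j)) N, F j N (c • y) = c • F j N y := by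
        intro y
        rw [← algebraMap_smul (KLRAlg D) c, map_smul, algebraMap_smul]
      rw [h1, RR_F, ih, pow_F, h2]

/-- the vectors for which the formula holds -/
noncomputable def S (c : K) (s : ℕ) : Submodule (KLRAlg D) N where
  carrier := {v | ∀ w, RR j hN (Conv.mk D 1 (Aff D (Lt D j)) N w v) =
    c • (F j N ^ s) (Conv.mk D 1 (Aff D (Lt D j)) N w v)}
  zero_mem' w := by simp
  add_mem' {u v} hu hv w := by
    rw [map_add, map_add, map_add, smul_add, hu w, hv w]
  smul_mem' a v hv w := by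
    rw [← Conv.shn_smul_mk, map_smul, map_smul, hv w, smul_comm c]

end XHONEL

open XHONEL in
/-- ONEL -/
theorem Mo.I_ONEL (hb : S_basis D) : Mo.StOneL D := by
  intro X j
  obtain ⟨μ, hμ⟩ := X.exists_ch_ne
  obtain ⟨v, hv⟩ := FdMod.exists_eig X.smp.toFdMod hμ
  have hw : EigW D (Aff.Z D (Lt D j)) [j] (Aff.sg D 0 (Lt.one D j)) := by
    constructor
    · rw [D.eW_cons, D.eW_nil, map_one, mul_one, Aff.e_sg, Lt.e_smul]
    · intro k hk
      exact Aff.x_sg_zero (Lt.isStrand D j) (fun k => Lt.x_smul D j k _) k hk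
  obtain ⟨c, hc, h⟩ := sq_eig (Aff.isAff (Lt.isStrand D j)) X.smp.strand hw rfl hv
    (chr_length hμ)
  refine ⟨c, D.qL [j] μ, hc, ?_⟩
  have h1 : v ∈ S j X.smp.strand c (D.qL [j] μ) := all_w j X.smp.strand h
  have h2 : S j X.smp.strand c (D.qL [j] μ) = ⊤ := by
    rcases eq_bot_or_eq_top (S j X.smp.strand c (D.qL [j] μ)) with h3 | h3
    · rw [h3, Submodule.mem_bot] at h1
      exact absurd h1 hv.ne
    · exact h3
  intro y
  change RR j X.smp.strand y = c • (F j X.M ^ (D.qL [j] μ)) y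
  induction y using Conv.induction with
  | h0 => simp
  | hadd y z hy hz => rw [map_add, map_add, smul_add, hy, hz]
  | h a w u =>
    have h3 : u ∈ S j X.smp.strand c (D.qL [j] μ) := by
      rw [h2]
      exact Submodule.mem_top
    rw [map_smul, map_smul, h3 w, smul_comm c]

end Pool.Agent.KLS

end

section

/-! MP_e487d8_al, block HD: ONER, the square of the R-matrix `X ∘ L(j)_z → L(j)_z ∘ X`. -/

set_option autoImplicit false
set_option linter.unusedSectionVars false

namespace Pool.Agent.KLS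

variable {K I : Type} [Field K] [Fintype I] [DecidableEq I] (D : Datum K I)

namespace XHONER

variable {D}

section vec

variable {P : Type} [AddCommGroup P] [Module K P] [Module (KLRAlg D) P]
  [IsScalarTower K (KLRAlg D) P]

/-- `QQ k l` on vectors which are killed by the dot of the strand `k` -/
theorem QQ_vec' (Z : P →ₗ[KLRAlg D] P) (k l : ℕ) (i j : I) :
    ∃ (c : K) (N : ℕ), c ≠ 0 ∧ ∀ v : P, Col D k i v → Col D l j v → D.x k • v = 0 →
      D.x l • v = Z v → D.QQ k l • v = c • (Z ^ N) v := by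
  by_cases hij : i = j
  · subst hij
    refine ⟨1, 0, one_ne_zero, fun v hi hj _ _ => ?_⟩
    rw [QQ_eq hi hj, pow_zero, one_smul]
    rfl
  · refine ⟨D.Q i j 0 (D.nq j i), D.nq j i, by
      rw [D.Q_symm i j _ _ hij]; exact D.Q_lead j i (Ne.symm hij), fun v hi hj hx hl => ?_⟩
    rw [QQ_ne hi hj hij]
    have hk : ∀ p : ℕ, p ≠ 0 → D.x k ^ p • v = 0 := by
      intro q hq
      obtain ⟨r, rfl⟩ := Nat.exists_eq_succ_of_ne_zero hq
      rw [pow_succ, mul_smul, hx, smul_zero]
    have hl' : ∀ q : ℕ, D.x l ^ q • v = (Z ^ q) v := by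
      intro p
      induction p with
      | zero => rw [pow_zero, pow_zero, one_smul]; rfl
      | succ p ih =>
        have h1 : D.x l • (Z ^ p) v = (Z ^ p) (Z v) := by rw [pow_apply_smul, hl]
        rw [pow_succ', mul_smul, ih, h1, pow_succ]
        rfl
    unfold Datum.QE
    rw [Finset.sum_smul, Finset.sum_eq_single 0]
    · rw [Finset.sum_smul, Finset.sum_eq_single (D.nq j i)]
      · rw [pow_zero, one_mul, smul_assoc, hl']
      · intro q _ hq
        have h0 : D.Q i j 0 q = 0 := by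
          by_contra hne
          apply hq
          have h1 := D.Q_hom i j 0 q hij hne
          have h2 := D.nonpos j i (Ne.symm hij)
          have h3 : (0 : ℤ) < D.d j := by exact_mod_cast D.d_pos j
          have h4 : (D.d j : ℤ) * q = D.d j * (- D.A j i) := by
            have h5 := D.symm i j
            push_cast at h1
            linarith
          have h5 : (q : ℤ) = - D.A j i := mul_left_cancel₀ h3.ne' h4
          unfold Datum.nq
          omega
        rw [h0, zero_smul, zero_smul]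
      · intro h
        exact absurd (Finset.mem_range.2 (Nat.lt_succ_self _)) h
    · intro p _ hp
      rw [Finset.sum_smul]
      refine Finset.sum_eq_zero fun q _ => ?_
      rw [show D.x k ^ p * D.x l ^ q = D.x l ^ q * D.x k ^ p from
        ((show Commute (D.x k) (D.x l) from D.x_comm k l).pow_pow p q).eq, smul_assoc, mul_smul, hk p hp, smul_zero, smul_zero]
    · intro h
      exact absurd (Finset.mem_range.2 (Nat.succ_pos _)) h

theorem QP1_vec' (Z : P →ₗ[KLRAlg D] P) (l : ℕ) (j : I) (ν : List I) :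
    ∃ (c : K) (N : ℕ), c ≠ 0 ∧ ∀ v : P, Col D l j v → D.x l • v = Z v → D.eW ν • v = v →
      (∀ k < ν.length, D.x k • v = 0) → D.QP1 l ν.length • v = c • (Z ^ N) v := by
  induction ν using List.reverseRecOn with
  | nil =>
    refine ⟨1, 0, one_ne_zero, fun v _ _ _ _ => ?_⟩
    rw [List.length_nil, Datum.QP1, pow_zero, one_smul, one_smul]
    rfl
  | append_singleton ν i ih =>
    obtain ⟨c, N, hc, h3⟩ := ih
    obtain ⟨c', N', hc', h4⟩ := QQ_vec' Z ν.length l i j
    refine ⟨c * c', N + N', mul_ne_zero hc hc', fun v hj hl hν hx => ?_⟩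
    rw [D.eW_snoc] at hν
    have h1 : Col D ν.length i v := by
      rw [Col]
      conv_lhs => rw [← hν]
      rw [← mul_smul, ← mul_assoc, D.e_eW, mul_assoc, D.e_idem]
      exact hν
    have h2 : D.eW ν • v = v := by
      conv_lhs => rw [← hν]
      rw [← mul_smul, ← mul_assoc, D.eW_idem]
      exact hν
    have hlen : (ν ++ [i]).length = ν.length + 1 := by
      rw [List.length_append]; rfl
    rw [hlen] at hx ⊢
    rw [Datum.QP1, mul_smul, h3 v hj hl h2 (fun k hk => hx k (by omega)), smul_comm,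
      pow_apply_smul, h4 v h1 hj (hx ν.length (by omega)) hl, ← algebraMap_smul (KLRAlg D) c',
      map_smul, algebraMap_smul, smul_smul, pow_add]
    rfl

end vec

theorem aff_e (j : I) (w : Aff D (Lt D j)) : D.e 0 j • w = w := by
  induction w using Aff.ind with
  | h0 => rw [smul_zero]
  | hs d u => rw [Aff.e_sg, Lt.e_smul]
  | ha v w hv hw => rw [smul_add, hv, hw]

theorem aff_x (j : I) (w : Aff D (Lt D j)) : D.x 0 • w = Aff.Z D (Lt D j) w := by
  induction w using Aff.ind with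
  | h0 => rw [smul_zero, map_zero]
  | hs d u =>
    rw [Aff.x_sg, Lt.x_smul, map_zero, zero_add, (Lt.isStrand D j).one 0 Nat.zero_lt_one,
      Aff.Z_sg]
  | ha v w hv hw => rw [smul_add, map_add, hv, hw]

end XHONER

open XHONER in
theorem Mo.I_ONER (hb : S_basis D) : Mo.StOneR D := by
  have _ := hb
  intro X j
  obtain ⟨ν, hν⟩ := X.exists_ch_ne
  have hlen : ν.length = X.n := X.ch_length hν
  obtain ⟨u₀, hu₀⟩ := FdMod.exists_eig X.smp.toFdMod hν
  have hA : IsStrand D 1 (Aff D (Lt D j)) := Aff.isStrand (Lt.isStrand D j)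
  let Z1 : Conv D X.n X.M (Aff D (Lt D j)) →ₗ[KLRAlg D] Conv D X.n X.M (Aff D (Lt D j)) :=
    Conv.map (rfl : X.n = X.n) (LinearMap.id : X.M →ₗ[KLRAlg D] X.M) (Aff.Z D (Lt D j))
  obtain ⟨c, N, hc, hQ⟩ := QP1_vec' (D := D) Z1 X.n j ν
  refine ⟨c, N, hc, ?_⟩
  let F : Conv D X.n X.M (Aff D (Lt D j)) →ₗ[KLRAlg D] Conv D X.n X.M (Aff D (Lt D j)) :=
    (Conv.Rm hA X.smp.strand) ∘ₗ (Conv.Rm X.smp.strand hA)
  let G : Conv D X.n X.M (Aff D (Lt D j)) →ₗ[KLRAlg D] Conv D X.n X.M (Aff D (Lt D j)) :=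
    c • (Z1 ^ N)
  -- the vectors on which `F` and `G` agree
  let S : Submodule (KLRAlg D) X.M :=
    { carrier := {u | ∀ w, F (Conv.mk D X.n X.M (Aff D (Lt D j)) u w) =
        G (Conv.mk D X.n X.M (Aff D (Lt D j)) u w)}
      add_mem' := by
        intro u u' hu hu' w
        rw [map_add (Conv.mk D X.n X.M (Aff D (Lt D j))), LinearMap.add_apply, map_add, map_add,
          hu w, hu' w]
      zero_mem' := by
        intro w
        rw [map_zero (Conv.mk D X.n X.M (Aff D (Lt D j))), LinearMap.zero_apply, map_zero,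
          map_zero]
      smul_mem' := by
        intro a u hu w
        rw [← Conv.tr_smul_mk, map_smul, map_smul, hu w] }
  have h0 : u₀ ∈ S := by
    intro w
    have h1 : F (Conv.mk D X.n X.M (Aff D (Lt D j)) u₀ w) =
        D.QP X.n X.n 1 • Conv.mk D X.n X.M (Aff D (Lt D j)) u₀ w :=
      Conv.Rm_Rm_mk X.smp.strand hA u₀ w
    have h2 : D.QP X.n X.n 1 = D.QP1 X.n ν.length := by
      rw [Datum.QP, Datum.QP, mul_one, hlen]
    rw [h1, h2]
    refine hQ _ ?_ ?_ ?_ ?_
    · rw [Col]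
      have h3 := Conv.shn_smul_mk (D := D) (m := X.n) (D.e 0 j) u₀ w
      rwa [D.shn_e, add_zero, aff_e] at h3
    · have h3 := Conv.shn_smul_mk (D := D) (m := X.n) (D.x 0) u₀ w
      rw [D.shn_x, add_zero, aff_x] at h3
      rw [h3]
      change _ = Conv.map _ _ _ _
      rw [Conv.map_mk, LinearMap.id_apply]
    · have h3 := Conv.tr_smul_mk (D := D) (m := X.n) (D.eW ν) u₀ w
      rwa [D.tr_eW ν hlen.le, hu₀.word] at h3
    · intro k hk
      have h3 := Conv.tr_smul_mk (D := D) (m := X.n) (D.x k) u₀ w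
      rw [D.tr_x, if_pos (by omega), hu₀.dot k, map_zero, LinearMap.zero_apply] at h3
      exact h3
  have hS : S = ⊤ := by
    have := X.smp.simple
    refine (eq_bot_or_eq_top S).resolve_left fun h => hu₀.ne ?_
    rw [h] at h0
    exact (Submodule.mem_bot _).1 h0
  have hFG : F = G := Conv.hom_ext fun u w => by
    have h3 : u ∈ S := by rw [hS]; exact Submodule.mem_top
    exact h3 w
  intro y
  exact LinearMap.congr_fun hFG y

end Pool.Agent.KLS

end

section

/-! MP_e487d8_al, block HD, item PI: every simple module is a quotient of an iterated product of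
modules `L(j)`, which has a deformation almost commuting with all simple modules. -/

set_option autoImplicit false

namespace Pool.Agent.KLS

variable {K I : Type} [Field K] [Fintype I] [DecidableEq I]

namespace XHPI

section

variable {D : Datum K I} {M X : Type} [AddCommGroup M] [Module K M] [Module (KLRAlg D) M]
  [IsScalarTower K (KLRAlg D) M] [AddCommGroup X] [Module K X] [Module (KLRAlg D) X]
  [IsScalarTower K (KLRAlg D) X]

/-- a nonzero map from the trivial module -/
theorem exists_un (hM : IsStrand D 0 M) [Nontrivial M] : ∃ f : Un D →ₗ[KLRAlg D] M, f ≠ 0 := by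
  obtain ⟨v, hv⟩ := exists_ne (0 : M)
  refine ⟨ofGens ((LinearMap.toSpanSingleton K M v).comp (Un.of D).symm.toLinearMap)
    (fun k i u => ?_) (fun k u => ?_) (fun k u => ?_), fun h => hv ?_⟩
  · rw [Un.e_smul, map_zero, hM.zero k (Nat.zero_le _)]
  · rw [Un.x_smul, map_zero, hM.x_smul_zero (Nat.zero_le _)]
  · rw [Un.t_smul, map_zero, hM.t_smul_zero (Nat.zero_le _)]
  · have h1 := LinearMap.congr_fun h (Un.of D 1)
    rw [ofGens_apply, LinearMap.comp_apply, LinearEquiv.coe_coe, LinearEquiv.symm_apply_apply,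
      LinearMap.toSpanSingleton_apply, one_smul, LinearMap.zero_apply] at h1
    exact h1

/-- a nonzero map to a simple module may be replaced by a homogeneous surjective map -/
theorem exists_hom_surj [IsSimpleModule (KLRAlg D) M] (gX : Grd D X) (gM : Grd D M)
    {f : X →ₗ[KLRAlg D] M} (hf : f ≠ 0) : ∃ (t : ℤ) (f' : X →ₗ[KLRAlg D] M),
      Function.Surjective f' ∧ HomDeg gX gM t f' := by
  obtain ⟨t, f', h1, h2⟩ := exists_homDeg gX gM hf
  exact ⟨t, f', LinearMap.surjective_of_ne_zero h1, h2⟩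

/-- the products `L(i) ∘ (L(i) ∘ .. ∘ X)` -/
theorem step (hb : S_basis D) (hR : Mo.StRec D) {i : I} {n : ℕ} (hX : FdMod D n X)
    (h0 : ∀ x : X, IsKr D i 1 x → x = 0) (gX : Grd D X) (P₀ : GM D) (hfd : FdMod D P₀.n P₀.M)
    (hn : P₀.n = n) (hlat : HasLat 2 P₀) (f : P₀.M →ₗ[KLRAlg D] X) (hf : Function.Surjective f)
    (t : ℤ) (ht : HomDeg P₀.g gX t f) (a : ℕ) :
    ∃ (P : Type) (_ : AddCommGroup P) (_ : Module K P) (_ : Module (KLRAlg D) P)
      (_ : IsScalarTower K (KLRAlg D) P) (j : X →ₗ[K] P) (gP : Grd D P) (P₁ : GM D)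
      (f₁ : P₁.M →ₗ[KLRAlg D] P), IsInd D i a n X P j ∧ FdMod D P₁.n P₁.M ∧ P₁.n = a + n ∧
        HasLat 2 P₁ ∧ Function.Surjective f₁ ∧ HomDeg P₁.g gP t f₁ := by
  induction a with
  | zero =>
    exact ⟨X, _, _, _, inferInstance, LinearMap.id, gX, P₀, f, IsInd.base hX h0, hfd,
      by omega, hlat, hf, ht⟩
  | succ a ih =>
    obtain ⟨P, i1, i2, i3, i4, j, gP, P₁, f₁, hj, h1, h2, h3, h4, h5⟩ := ih
    refine ⟨Conv D 1 (Lt D i) P, inferInstance, inferInstance, inferInstance, inferInstance,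
      (lk D i P).comp j, Grd.conv 1 (Lt.grd D i) gP, (GM.lt D i).conv P₁,
      Conv.map (rfl : 1 = 1) LinearMap.id f₁, ?_, ?_, ?_, ?_, ?_, ?_⟩
    · have := hj.step hb
      rwa [Nat.add_comm 1 a] at this
    · exact Conv.fdMod hb (Lt.smp D i).toFdMod h1
    · change 1 + P₁.n = a + 1 + n
      omega
    · exact hR 2 (D.d i) P₁ i (D.d_pos i) (by rw [Datum.xdeg, mul_comm]) h3
    · exact Conv.map_surjective rfl _ _ (fun v => ⟨v, rfl⟩) h4
    · have := HomDeg.map (rfl : 1 = 1) (HomDeg.id (gM := Lt.grd D i)) h5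
      rwa [zero_add] at this

end

end XHPI

variable (D : Datum K I)

theorem Mo.I_PI (hb : S_basis D) (hB : Mo.StBase D) (hR : Mo.StRec D) : Mo.StPi D := by
  have key : ∀ (n : ℕ) (M : Type) [AddCommGroup M] [Module K M] [Module (KLRAlg D) M]
      [IsScalarTower K (KLRAlg D) M] (_ : Smp D n M) (gM : Grd D M),
      ∃ (P₀ : GM D) (f : P₀.M →ₗ[KLRAlg D] M) (t : ℤ), FdMod D P₀.n P₀.M ∧ P₀.n = n ∧
        HasLat 2 P₀ ∧ Function.Surjective f ∧ HomDeg P₀.g gM t f := by
    intro n
    induction n using Nat.strong_induction_on with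
    | _ n ih =>
      intro M _ _ _ _ hM gM
      have := hM.simple
      have hne : Nontrivial M := IsSimpleModule.nontrivial (KLRAlg D) M
      rcases Nat.eq_zero_or_pos n with hn | hn
      · subst hn
        obtain ⟨f, hf⟩ := XHPI.exists_un hM.strand
        obtain ⟨t, f', h1, h2⟩ := XHPI.exists_hom_surj (GM.un D).g gM hf
        exact ⟨GM.un D, f', t, (Un.smp D).toFdMod, rfl, hB 2, h1, h2⟩
      · obtain ⟨m, rfl⟩ : ∃ m, n = m + 1 := ⟨n - 1, by omega⟩
        obtain ⟨i, hi⟩ := exists_eps_pos hM.strand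
        have hle := eps_le (i := i) hM.strand
        have hK := Kr.smp hb hM i
        obtain ⟨gX⟩ := gradable hb _ _ hK
        obtain ⟨P₀, f, t, a1, a2, a3, a4, a5⟩ := ih (m + 1 - eps D i M) (by omega) _ hK gX
        obtain ⟨P, i1, i2, i3, i4, j, gP, P₁, f₁, hj, b1, b2, b3, b4, b5⟩ :=
          XHPI.step hb hR hK.toFdMod (Kr.noKr hM.strand le_rfl) gX P₀ a1 a2 a3 f a4 t a5
            (eps D i M)
        obtain ⟨q, hq, -⟩ := hj.exists_surj (Kr.isGen hM i)
        have hne : q.comp f₁ ≠ 0 := by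
          intro h
          obtain ⟨v, hv⟩ := exists_ne (0 : M)
          obtain ⟨w, rfl⟩ := hq v
          obtain ⟨w, rfl⟩ := b4 w
          exact hv (LinearMap.congr_fun h w)
        obtain ⟨t', f', h1, h2⟩ := XHPI.exists_hom_surj P₁.g gM hne
        exact ⟨P₁, f', t', b1, by omega, b3, h1, h2⟩
  intro b gb
  exact key b.n b.M b.smp gb

end Pool.Agent.KLS

end

section

/-! MP_e487d8_al, block HD, REC: the recursion step for lattices. If `P` with the parameter `u` is a
deformation of `P₀` then the quotient of `L(j)_z ∘ P` by `z - u^k` is a deformation of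
`L(j) ∘ P₀`. -/

set_option autoImplicit false
set_option linter.unusedSectionVars false

namespace Pool.Agent.KLS

variable {K I : Type} [Field K] [Fintype I] [DecidableEq I]

namespace XHREC

variable {D : Datum K I}

section

variable {M N : Type} [AddCommGroup M] [Module K M] [Module (KLRAlg D) M]
  [IsScalarTower K (KLRAlg D) M] [AddCommGroup N] [Module K N] [Module (KLRAlg D) N]
  [IsScalarTower K (KLRAlg D) N]

theorem homDeg_sub {gM : Grd D M} {gN : Grd D N} {s : ℤ} {f f' : M →ₗ[KLRAlg D] N}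
    (hf : HomDeg gM gN s f) (hf' : HomDeg gM gN s f') : HomDeg gM gN s (f - f') :=
  HomDeg.of_hm fun _ _ hu => (hf.hm hu).sub (hf'.hm hu)

theorem homDeg_congr {gM : Grd D M} {gN : Grd D N} {s s' : ℤ} {f : M →ₗ[KLRAlg D] N}
    (hf : HomDeg gM gN s f) (h : s = s') : HomDeg gM gN s' f := by
  rw [← h]; exact hf

/-- commuting endomorphisms -/
theorem pow_comm_apply {u v : M →ₗ[KLRAlg D] M} (h : ∀ a, u (v a) = v (u a)) (k : ℕ) (a : M) :
    (u ^ k) (v a) = v ((u ^ k) a) := by
  induction k generalizing a with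
  | zero => rfl
  | succ k ih =>
    rw [pow_succ, Module.End.mul_apply, Module.End.mul_apply, h, ih]

end

section

variable {A : GM D} {F : A.M →ₗ[KLRAlg D] A.M} {s : ℤ}

theorem ker_pr (hF : HomDeg A.g A.g s F) (a : A.M) (d : ℤ)
    (h : (LinearMap.range F).mkQ a = 0) : (LinearMap.range F).mkQ (A.g.pr d a) = 0 := by
  rw [Submodule.mkQ_apply, Submodule.Quotient.mk_eq_zero] at h ⊢
  obtain ⟨b, rfl⟩ := h
  refine ⟨A.g.pr (d - s) b, ?_⟩
  rw [← hF.pr (d - s) b, sub_add_cancel]

/-- the quotient of a graded module by the image of a homogeneous endomorphism -/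
noncomputable def quo (A : GM D) (F : A.M →ₗ[KLRAlg D] A.M) (s : ℤ) (hF : HomDeg A.g A.g s F) :
    GM D :=
  ⟨⟨A.M ⧸ LinearMap.range F, A.g.ofSurj (LinearMap.range F).mkQ (Submodule.mkQ_surjective _)
    (fun a d => ker_pr hF a d)⟩, A.n,
    A.strand.of_surjective (LinearMap.range F).mkQ (Submodule.mkQ_surjective _)⟩

theorem quo_hom (hF : HomDeg A.g A.g s F) : HomDeg A.g (quo A F s hF).g 0
    ((LinearMap.range F).mkQ : A.M →ₗ[KLRAlg D] (quo A F s hF).M) :=
  Grd.ofSurj_hom A.g (LinearMap.range F).mkQ (Submodule.mkQ_surjective _)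
    (fun a d => ker_pr hF a d)

end

end XHREC

theorem Mo.I_REC (D : Datum K I) (hb : S_basis D) (hQ : Mo.StRedq (KLRAlg D)) (hB : Mo.StBig D)
    (hD : Mo.StDesc D) : Mo.StRec D := by
  intro e k P₀ j hk hke hL
  obtain ⟨P, u, p, hn, hred, hu, hp, hX⟩ := hL
  -- the big module
  let A : GM D := (GM.lz D j).conv P
  let u' : A.M →ₗ[KLRAlg D] A.M := Conv.map (rfl : 1 = 1)
    (LinearMap.id : Aff D (Lt D j) →ₗ[KLRAlg D] Aff D (Lt D j)) u
  let z' : A.M →ₗ[KLRAlg D] A.M := Conv.map (rfl : 1 = 1) (Aff.Z D (Lt D j))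
    (LinearMap.id : P.M →ₗ[KLRAlg D] P.M)
  have hu' : HomDeg A.g A.g e u' := by
    have h := HomDeg.map (rfl : 1 = 1)
      (HomDeg.id (gM := Aff.grd (Lt.grd D j) (Lt.e_smul D j))) hu
    exact XHREC.homDeg_congr h (zero_add e)
  have hz' : HomDeg A.g A.g (D.xdeg j) z' := by
    have h := HomDeg.map (rfl : 1 = 1) (Aff.homDeg_Z (Lt.e_smul D j) (Lt.grd D j))
      (HomDeg.id (gM := P.g))
    exact XHREC.homDeg_congr h (add_zero _)
  have huk : HomDeg A.g A.g (D.xdeg j) (u' ^ k) := XHREC.homDeg_congr (hu'.pow k) hke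
  have hF : HomDeg A.g A.g (D.xdeg j) (z' - u' ^ k) := XHREC.homDeg_sub hz' huk
  have hzu : ∀ a, z' (u' a) = u' (z' a) := by
    intro a
    change Conv.map _ _ _ (Conv.map _ _ _ a) = Conv.map _ _ _ (Conv.map _ _ _ a)
    rw [Conv.map_map, Conv.map_map]
    rfl
  have hFu : ∀ a, (z' - u' ^ k) (u' a) = u' ((z' - u' ^ k) a) := by
    intro a
    rw [LinearMap.sub_apply, LinearMap.sub_apply, map_sub, hzu,
      XHREC.pow_comm_apply (fun _ => rfl)]
  -- the quotient
  let B : GM D := XHREC.quo A (z' - u' ^ k) (D.xdeg j) hF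
  let q : A.M →ₗ[KLRAlg D] B.M := (LinearMap.range (z' - u' ^ k)).mkQ
  have hq : Function.Surjective q := Submodule.mkQ_surjective _
  have hqk : LinearMap.ker q = LinearMap.range (z' - u' ^ k) := Submodule.ker_mkQ _
  have hqd : HomDeg A.g B.g 0 q := XHREC.quo_hom hF
  let uB : B.M →ₗ[KLRAlg D] B.M := Submodule.mapQ _ _ u' (by
    rintro _ ⟨b, rfl⟩
    exact ⟨u' b, hFu b⟩)
  have huB : ∀ a, uB (q a) = q (u' a) := fun a => rfl
  -- the reductions
  let A₁ : GM D := (GM.lz D j).conv P₀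
  let A₂ : GM D := (GM.lt D j).conv P₀
  let p' : A.M →ₗ[KLRAlg D] A₁.M := Conv.map (rfl : 1 = 1)
    (LinearMap.id : Aff D (Lt D j) →ₗ[KLRAlg D] Aff D (Lt D j)) p
  let F₁ : A₁.M →ₗ[KLRAlg D] A₁.M :=
    Conv.map (rfl : 1 = 1) (Aff.Z D (Lt D j)) (LinearMap.id : P₀.M →ₗ[KLRAlg D] P₀.M)
  let p₁ : A₁.M →ₗ[KLRAlg D] A₂.M :=
    Conv.map (rfl : 1 = 1) (Aff.P D (Lt D j)) (LinearMap.id : P₀.M →ₗ[KLRAlg D] P₀.M)
  have hr1 : Red u' p' := IsAff.redR (m := P.n) hb ⟨P.strand, hred⟩
    (Aff.isStrand (Lt.isStrand D j))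
  have hr2 : Red F₁ p₁ := (Aff.isAff (Lt.isStrand D j)).redL hb P₀.strand
  have hpz : ∀ a, p' (z' a) = F₁ (p' a) := by
    intro a
    change Conv.map _ _ _ (Conv.map _ _ _ a) = Conv.map _ _ _ (Conv.map _ _ _ a)
    rw [Conv.map_map, Conv.map_map]
    rfl
  have hpF : ∀ a, p' ((z' - u' ^ k) a) = F₁ (p' a) := by
    intro a
    obtain ⟨k', rfl⟩ : ∃ k', k = k' + 1 := ⟨k - 1, by omega⟩
    rw [LinearMap.sub_apply, map_sub, hpz, pow_succ', Module.End.mul_apply, hr1.apply_eq,
      sub_zero]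
  let pB : B.M →ₗ[KLRAlg D] A₂.M := Submodule.liftQ _ (p₁ ∘ₗ p') (by
    rintro _ ⟨b, rfl⟩
    rw [LinearMap.mem_ker, LinearMap.comp_apply, hpF, hr2.apply_eq])
  have hpB : ∀ a, pB (q a) = p₁ (p' a) := fun a => rfl
  have hrB : Red uB pB := hQ A.M _ _ B.M (z' - u' ^ k) u' p' F₁ p₁ q uB pB hr1 hr2 hFu hpF hq hqk
    huB hpB
  change HasLat e A₂
  refine ⟨B, uB, pB, ?_, hrB, ?_, ?_, ?_⟩
  · change 1 + P.n = 1 + P₀.n
    rw [hn]
  · refine HomDeg.of_comp_right hqd hq ?_
    have h1 : uB.comp q = q.comp u' := rfl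
    rw [h1, add_comm]
    exact hu'.comp hqd
  · change HomDeg B.g A₂.g 0 pB
    refine HomDeg.of_comp_right hqd hq ?_
    have h1 : pB.comp q = p₁.comp p' := rfl
    rw [h1]
    have h2 : HomDeg A.g A₁.g (0 + 0) p' :=
      HomDeg.map (rfl : 1 = 1) (HomDeg.id (gM := Aff.grd (Lt.grd D j) (Lt.e_smul D j))) hp
    have h3 : HomDeg A₁.g A₂.g (0 + 0) p₁ :=
      HomDeg.map (rfl : 1 = 1) (Aff.homDeg_P (Lt.e_smul D j) (Lt.grd D j)) (HomDeg.id (gM := P₀.g))
    exact XHREC.homDeg_congr (h2.comp h3) (by norm_num)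
  · intro X gX
    exact hD A B u' z' q uB k (X.gm gX) rfl hq hqk huB hqd (hB P u X gX j (hX X gX))

end Pool.Agent.KLS

end

section

/-! MP_e487d8_al, block HD (lattices): REDQ, the reduction of a quotient. -/

set_option autoImplicit false

namespace Pool.Agent.KLS

namespace XHREDQ

theorem ker_iff {R A B C : Type} [Ring R] [AddCommGroup A] [Module R A] [AddCommGroup B]
    [Module R B] [AddCommGroup C] [Module R C] {q : A →ₗ[R] B} {F : C →ₗ[R] A}
    (h : LinearMap.ker q = LinearMap.range F) (a : A) : q a = 0 ↔ ∃ b, F b = a := by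
  rw [← LinearMap.mem_ker, h, LinearMap.mem_range]

end XHREDQ

open XHREDQ in
theorem Mo.I_REDQ (R : Type) [Ring R] : Mo.StRedq R := by
  intro A A₁ A₂ B _ _ _ _ _ _ _ _ F u p F₁ p₁ q uB pB hu hF huF hpF hq hker huB hpB
  have hqk := ker_iff hker
  have hpk := ker_iff hu.ker
  have hp1k := ker_iff hF.ker
  refine ⟨?_, ?_, ?_⟩
  · rw [injective_iff_map_eq_zero]
    intro y hy
    obtain ⟨a, rfl⟩ := hq y
    rw [huB] at hy
    obtain ⟨b, hb⟩ := (hqk _).1 hy
    have h1 : F₁ (p b) = 0 := by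
      rw [← hpF, hb]
      exact (hpk _).2 ⟨a, rfl⟩
    have h2 : p b = 0 := (injective_iff_map_eq_zero F₁).1 hF.inj _ h1
    obtain ⟨b', rfl⟩ := (hpk _).1 h2
    rw [huF] at hb
    exact (hqk _).2 ⟨b', hu.inj hb⟩
  · intro z
    obtain ⟨a₁, rfl⟩ := hF.surj z
    obtain ⟨a, rfl⟩ := hu.surj a₁
    exact ⟨q a, hpB a⟩
  · ext y
    obtain ⟨a, rfl⟩ := hq y
    rw [LinearMap.mem_ker, LinearMap.mem_range]
    constructor
    · intro h
      rw [hpB] at h
      obtain ⟨a₁, h1⟩ := (hp1k _).1 h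
      obtain ⟨a', rfl⟩ := hu.surj a₁
      rw [← hpF] at h1
      have h2 : p (a - F a') = 0 := by rw [map_sub, h1, sub_self]
      obtain ⟨a'', h3⟩ := (hpk _).1 h2
      refine ⟨q a'', ?_⟩
      rw [huB, h3, map_sub, (hqk (F a')).2 ⟨a', rfl⟩, sub_zero]
    · rintro ⟨y, hy⟩
      obtain ⟨b, rfl⟩ := hq y
      rw [← hy, huB, hpB, (hpk (u b)).2 ⟨b, rfl⟩, map_zero]

end Pool.Agent.KLS

end
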