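import Pool.Agent.Work.MP_e487d8_al.Bd.B16
import Pool.Agent.Work.MP_e487d8_al.Bd.B12
import Pool.Agent.Work.MP_e487d8_al.Y.Mod.Shuf

/-! Bundle of small proof modules (one section per former module). -/

section

/-! MP_e487d8_al: the R-matrices and the mirror. -/

set_option autoImplicit false

namespace Pool.Agent.KLS

variable {K I : Type} [Field K] [Fintype I] [DecidableEq I] {D : Datum K I}

namespace Datum

variable (D)

theorem sgn_dl (k : ℕ) : D.sgn k * D.dl k = - D.dl k := by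
  rw [sgn, sub_mul, one_mul, mul_assoc, D.dl_idem, two_mul]
  abel

theorem sgn_one_sub_dl (k : ℕ) : D.sgn k * (1 - D.dl k) = 1 - D.dl k := by
  rw [mul_sub, mul_one, D.sgn_dl, sgn, two_mul]
  abel

theorem mir_phi (m k : ℕ) :
    D.mir m (D.phi k) = if k + 1 < m then D.phi (m - 2 - k) else 0 := by
  unfold phi
  rw [map_add, map_mul, map_mul, map_add, map_mul, map_sub, map_sub, map_one, D.mir_t, D.mir_dl,
    D.mir_x, D.mir_x]
  split_ifs with h h1
  · have e1 : m - 1 - k = m - 2 - k + 1 := by omega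
    have e2 : m - 1 - (k + 1) = m - 2 - k := by omega
    rw [e1, e2]
    congr 1
    · rw [ts, mul_assoc, D.sgn_one_sub_dl]
    · rw [add_mul, add_mul]
      congr 1
      rw [ts, mul_assoc, mul_assoc, mul_assoc, sub_mul, sub_mul, D.x_dl', D.x_dl', ← mul_sub,
        ← mul_assoc (D.sgn (m - 2 - k)), D.sgn_dl, neg_mul, ← mul_neg, neg_sub, mul_sub]
  all_goals first | omega | skip
  · rw [zero_mul, mul_zero, add_zero]
  · rw [zero_mul, mul_zero, add_zero]

theorem Ph_zero' (n : ℕ) : D.Ph 0 n = 1 := by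
  induction n with
  | zero => rfl
  | succ n ih => rw [Ph_succ, ih, map_one, Cp_zero, mul_one]

theorem mir_Cp (n : ℕ) : D.mir (n + 1) (D.Cp n) = D.Ph 1 n := by
  induction n with
  | zero => rw [Cp_zero, map_one, Ph_zero]
  | succ n ih =>
    rw [Nat.add_comm n 1, Cp_add, Cp_succ, Cp_zero, one_mul, map_mul, D.mir_phi,
      if_pos (by omega), Nat.add_comm 1 n, D.mir_shn (n + 1) 1, ih, Ph_one_succ]
    rfl

/-- the mirror of the block intertwiner -/
theorem mir_Ph (n m : ℕ) : D.mir (n + m) (D.Ph n m) = D.Ph m n := by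
  induction m with
  | zero => rw [Ph_zero, map_one, Ph_zero']
  | succ m ih =>
    have h1 : D.mir (n + (m + 1)) (D.shn 1 (D.Ph n m)) = D.Ph m n := by
      rw [← Nat.add_assoc, D.mir_shn (n + m) 1, ih]
    have h2 : D.mir (n + (m + 1)) (D.Cp n) = D.shn m (D.Ph 1 n) := by
      rw [show n + (m + 1) = m + (n + 1) by omega, ← D.tr_Cp (Nat.lt_succ_self n), D.mir_tr,
        D.mir_Cp]
    rw [Ph_succ, map_mul, h1, h2, ← Ph_add]

end Datum

namespace Mir

section

variable {m n : ℕ} {M N M' N' : Type}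
  [AddCommGroup M] [Module K M] [Module (KLRAlg D) M] [IsScalarTower K (KLRAlg D) M]
  [AddCommGroup N] [Module K N] [Module (KLRAlg D) N] [IsScalarTower K (KLRAlg D) N]
  [AddCommGroup M'] [Module K M'] [Module (KLRAlg D) M'] [IsScalarTower K (KLRAlg D) M']
  [AddCommGroup N'] [Module K N'] [Module (KLRAlg D) N'] [IsScalarTower K (KLRAlg D) N']

theorem convMir_map (hM : IsStrand D m M) (hN : IsStrand D n N) (hM' : IsStrand D m M')
    (hN' : IsStrand D n N') (f : M →ₗ[KLRAlg D] M') (g : N →ₗ[KLRAlg D] N')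
    (y : Conv D n (Mir D n N) (Mir D m M)) :
    convMir hM' hN' (Conv.map (rfl : n = n) (Tw.map (D.mir n) g) (Tw.map (D.mir m) f) y) =
      Tw.map (D.mir (m + n)) (Conv.map (rfl : m = m) f g) (convMir hM hN y) := by
  have h : (convMir hM' hN').toLinearMap ∘ₗ
      (Conv.map (rfl : n = n) (Tw.map (D.mir n) g) (Tw.map (D.mir m) f)) =
      (Tw.map (D.mir (m + n)) (Conv.map (rfl : m = m) f g)) ∘ₗ (convMir hM hN).toLinearMap := by
    apply Conv.hom_ext
    intro v u
    obtain ⟨u, rfl⟩ := (Tw.mk (D.mir m)).surjective u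
    obtain ⟨v, rfl⟩ := (Tw.mk (D.mir n)).surjective v
    simp only [LinearMap.comp_apply, LinearEquiv.coe_coe, Conv.map_mk, Tw.map_mk, convMir_mk]
  exact LinearMap.congr_fun h y

/-- transport of maps between products through the mirror -/
noncomputable def cm (hM : IsStrand D m M) (hN : IsStrand D n N) (hM' : IsStrand D m M')
    (hN' : IsStrand D n N')
    (g : Conv D m (Mir D m M) (Mir D n N) →ₗ[KLRAlg D] Conv D n (Mir D n N') (Mir D m M')) :
    Conv D n N M →ₗ[KLRAlg D] Conv D m M' N' where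
  toFun z := (Tw.mk (D.mir (m + n))).symm (convMir hM' hN'
    (g ((convMir hN hM).symm (Tw.mk (D.mir (n + m)) z))))
  map_add' y z := by simp only [map_add]
  map_smul' a z := by
    have h1 : Tw.mk (D.mir (n + m)) (a • z) = D.mir (n + m) a • Tw.mk (D.mir (n + m)) z := by
      rw [Tw.smul_mk, D.mir_mir, (Conv.isStrand hN hM).tr_smul le_rfl]
    rw [h1, map_smul, map_smul, map_smul]
    obtain ⟨w, hw⟩ := (Tw.mk (D.mir (m + n))).surjective
      (convMir hM' hN' (g ((convMir hN hM).symm (Tw.mk (D.mir (n + m)) z))))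
    rw [← hw, Tw.smul_mk, LinearEquiv.symm_apply_apply, LinearEquiv.symm_apply_apply,
      Nat.add_comm n m, D.mir_mir, (Conv.isStrand hM' hN').tr_smul le_rfl]
    rfl

theorem cm_mk (hM : IsStrand D m M) (hN : IsStrand D n N) (hM' : IsStrand D m M')
    (hN' : IsStrand D n N')
    (g : Conv D m (Mir D m M) (Mir D n N) →ₗ[KLRAlg D] Conv D n (Mir D n N') (Mir D m M'))
    (u : M) (v : N) :
    cm hM hN hM' hN' g (Conv.mk D n N M v u) = (Tw.mk (D.mir (m + n))).symm (convMir hM' hN'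
      (g (Conv.mk D m (Mir D m M) (Mir D n N) (Tw.mk (D.mir m) u) (Tw.mk (D.mir n) v)))) := by
  change (Tw.mk (D.mir (m + n))).symm (convMir hM' hN'
    (g ((convMir hN hM).symm (Tw.mk (D.mir (n + m)) _)))) = _
  rw [← convMir_mk hN hM, LinearEquiv.symm_apply_apply]

theorem convMir_apply (hM : IsStrand D m M) (hN : IsStrand D n N) (hM' : IsStrand D m M')
    (hN' : IsStrand D n N')
    (g : Conv D m (Mir D m M) (Mir D n N) →ₗ[KLRAlg D] Conv D n (Mir D n N') (Mir D m M'))
    (y : Conv D m (Mir D m M) (Mir D n N)) :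
    convMir hM' hN' (g y) = Tw.mk (D.mir (m + n)) (cm hM hN hM' hN' g
      ((Tw.mk (D.mir (n + m))).symm (convMir hN hM y))) := by
  change _ = Tw.mk (D.mir (m + n)) ((Tw.mk (D.mir (m + n))).symm (convMir hM' hN'
    (g ((convMir hN hM).symm (Tw.mk (D.mir (n + m)) ((Tw.mk (D.mir (n + m))).symm
      (convMir hN hM y)))))))
  rw [LinearEquiv.apply_symm_apply, LinearEquiv.apply_symm_apply, LinearEquiv.symm_apply_apply]

/-- the R-matrix of the mirrors -/
theorem cm_Rm (hM : IsStrand D m M) (hN : IsStrand D n N) :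
    cm hM hN hM hN (Conv.Rm (isStrand hM) (isStrand hN)) = Conv.Rm hN hM := by
  apply Conv.hom_ext
  intro v u
  rw [cm_mk, Conv.Rm_mk, map_smul, convMir_mk, Tw.smul_mk, LinearEquiv.symm_apply_apply,
    Conv.Rm_mk, Nat.add_comm m n, D.mir_Ph]

theorem cm_left (hM : IsStrand D m M) (hN : IsStrand D n N) (hM' : IsStrand D m M')
    (hN' : IsStrand D n N')
    (g : Conv D m (Mir D m M) (Mir D n N) →ₗ[KLRAlg D] Conv D n (Mir D n N) (Mir D m M))
    (a : M →ₗ[KLRAlg D] M') (b : N →ₗ[KLRAlg D] N') :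
    cm hM hN hM' hN' ((Conv.map (rfl : n = n) (Tw.map (D.mir n) b) (Tw.map (D.mir m) a)) ∘ₗ g) =
      (Conv.map (rfl : m = m) a b) ∘ₗ (cm hM hN hM hN g) := by
  apply Conv.hom_ext
  intro v u
  rw [cm_mk, LinearMap.comp_apply, convMir_map hM hN hM' hN', LinearMap.comp_apply, cm_mk]
  rfl

theorem cm_right (hM : IsStrand D m M) (hN : IsStrand D n N) (hM' : IsStrand D m M')
    (hN' : IsStrand D n N')
    (g : Conv D m (Mir D m M') (Mir D n N') →ₗ[KLRAlg D] Conv D n (Mir D n N') (Mir D m M'))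
    (a : M →ₗ[KLRAlg D] M') (b : N →ₗ[KLRAlg D] N') :
    cm hM hN hM' hN' (g ∘ₗ (Conv.map (rfl : m = m) (Tw.map (D.mir m) a) (Tw.map (D.mir n) b))) =
      (cm hM' hN' hM' hN' g) ∘ₗ (Conv.map (rfl : n = n) b a) := by
  apply Conv.hom_ext
  intro v u
  rw [cm_mk, LinearMap.comp_apply, Conv.map_mk, Tw.map_mk, Tw.map_mk, LinearMap.comp_apply,
    Conv.map_mk, cm_mk]

end

end Mir

section lead

variable {m n : ℕ} {W C N : Type}
  [AddCommGroup W] [Module K W] [Module (KLRAlg D) W] [IsScalarTower K (KLRAlg D) W]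
  [AddCommGroup C] [Module K C] [Module (KLRAlg D) C] [IsScalarTower K (KLRAlg D) C]
  [AddCommGroup N] [Module K N] [Module (KLRAlg D) N] [IsScalarTower K (KLRAlg D) N]
  {Z : W →ₗ[KLRAlg D] W} {p : W →ₗ[KLRAlg D] C}

/-- `r` is the leading term, of order `s`, of the R-matrix `N ∘ W → W ∘ N` -/
def Lead' (hA : IsAff D m Z p) (hN : IsStrand D n N) (s : ℕ)
    (r : Conv D n N C →ₗ[KLRAlg D] Conv D m C N) : Prop :=
  Ld (Conv.map (rfl : n = n) (LinearMap.id : N →ₗ[KLRAlg D] N) p)
    (Conv.map (rfl : m = m) Z (LinearMap.id : N →ₗ[KLRAlg D] N))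
    (Conv.map (rfl : m = m) p (LinearMap.id : N →ₗ[KLRAlg D] N)) (Conv.Rm hN hA.strand) s r

omit [IsScalarTower K (KLRAlg D) W] [IsScalarTower K (KLRAlg D) C] in
/-- the mirror of an affinisation -/
theorem IsAff.mir (hA : IsAff D m Z p) : IsAff D m (Tw.map (D.mir m) Z) (Tw.map (D.mir m) p) where
  strand := Mir.isStrand hA.strand
  red :=
    { inj := Tw.map_injective _ hA.red.inj
      surj := Tw.map_surjective _ hA.red.surj
      ker := by
        ext w
        obtain ⟨w, rfl⟩ := (Tw.mk (D.mir m)).surjective w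
        rw [LinearMap.mem_ker, Tw.map_mk, LinearEquiv.map_eq_zero_iff, ← LinearMap.mem_ker,
          hA.red.ker]
        constructor
        · rintro ⟨y, rfl⟩
          exact ⟨Tw.mk (D.mir m) y, rfl⟩
        · rintro ⟨y, hy⟩
          obtain ⟨y, rfl⟩ := (Tw.mk (D.mir m)).surjective y
          exact ⟨y, (Tw.mk (D.mir m)).injective hy⟩ }

theorem Tw.map_id (f : KLRAlg D →ₐ[K] KLRAlg D) {M : Type} [AddCommGroup M] [Module K M]
    [Module (KLRAlg D) M] :
    Tw.map f (LinearMap.id : M →ₗ[KLRAlg D] M) = LinearMap.id := rfl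

namespace Mir

theorem cm_pow (hW : IsStrand D m W) (hN : IsStrand D n N) (Z : W →ₗ[KLRAlg D] W) (s : ℕ)
    (g : Conv D m (Mir D m W) (Mir D n N) →ₗ[KLRAlg D] Conv D n (Mir D n N) (Mir D m W)) :
    cm hW hN hW hN (((Conv.map (rfl : n = n) (LinearMap.id : Mir D n N →ₗ[KLRAlg D] Mir D n N)
      (Tw.map (D.mir m) Z)) ^ s) ∘ₗ g) =
      ((Conv.map (rfl : m = m) Z (LinearMap.id : N →ₗ[KLRAlg D] N)) ^ s) ∘ₗ
        (cm hW hN hW hN g) := by
  induction s with
  | zero => rfl
  | succ s ih =>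
    rw [pow_succ', pow_succ', Module.End.mul_eq_comp, Module.End.mul_eq_comp,
      LinearMap.comp_assoc, LinearMap.comp_assoc, ← ih]
    exact cm_left hW hN hW hN _ Z LinearMap.id

/-- from the R-matrix of the mirrors to the R-matrix in the other direction -/
theorem lead' {hA : IsAff D m Z p} {hN : IsStrand D n N} {s : ℕ}
    {r : Conv D m (Mir D m C) (Mir D n N) →ₗ[KLRAlg D] Conv D n (Mir D n N) (Mir D m C)}
    (h : Lead hA.mir (Mir.isStrand hN) s r) :
    Lead' hA hN s (cm hA.strandC hN hA.strandC hN r) := by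
  obtain ⟨T, h1, h2⟩ := h
  refine ⟨cm hA.strand hN hA.strand hN T, ?_, ?_⟩
  · rw [← cm_pow, ← h1, cm_Rm hA.strand hN]
  · have h3 := cm_left hA.strand hN hA.strandC hN T p LinearMap.id
    have h4 := cm_right hA.strand hN hA.strandC hN r p LinearMap.id
    rw [Tw.map_id] at h3 h4
    rw [← h3, h2, h4]

theorem exists_lead' {hA : IsAff D m Z p} {hN : IsStrand D n N} {s : ℕ}
    {r : Conv D m (Mir D m C) (Mir D n N) →ₗ[KLRAlg D] Conv D n (Mir D n N) (Mir D m C)}
    (h : Lead hA.mir (Mir.isStrand hN) s r) :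
    ∃ r' : Conv D n N C →ₗ[KLRAlg D] Conv D m C N, Lead' hA hN s r' ∧
      ∀ z, convMir hA.strandC hN (r z) = Tw.mk (D.mir (m + n))
        (r' ((Tw.mk (D.mir (n + m))).symm (convMir hN hA.strandC z))) :=
  ⟨_, lead' h, convMir_apply hA.strandC hN hA.strandC hN r⟩

end Mir

end lead

end Pool.Agent.KLS

end

section

/-! MP_e487d8_al: the character of the mirror. -/

set_option autoImplicit false

namespace Pool.Agent.KLS

variable {K I : Type} [Field K] [Fintype I] [DecidableEq I] {D : Datum K I}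

theorem Datum.mir_eW (ν : List I) : D.mir ν.length (D.eW ν) = D.eW ν.reverse := by
  induction ν with
  | nil => rw [D.eW_nil, map_one, List.reverse_nil, D.eW_nil]
  | cons i ν ih =>
    rw [D.eW_cons, map_mul, D.mir_e, if_pos (by rw [List.length_cons]; omega), List.length_cons,
      D.mir_shn ν.length 1, ih, List.reverse_cons, D.eW_append, List.length_reverse, D.eW_cons,
      D.eW_nil, map_one, mul_one, D.shn_e]
    have h1 := D.tr_mul_shn (m := ν.length) (m' := ν.length) le_rfl (D.eW ν.reverse) (D.e 0 i)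
    rw [D.tr_eW _ (le_of_eq (List.length_reverse)), D.shn_e, Nat.add_zero] at h1
    rw [Nat.add_sub_cancel, Nat.sub_zero, Nat.add_zero, h1]

namespace Mir

variable {n : ℕ} {M : Type} [AddCommGroup M] [Module K M]
  [Module (KLRAlg D) M] [IsScalarTower K (KLRAlg D) M]

theorem mem_wordSp (ν : List I) (h : ν.length = n) (u : M) :
    Tw.mk (D.mir n) u ∈ wordSp D (Mir D n M) ν ↔ u ∈ wordSp D M ν.reverse := by
  subst h
  constructor
  · rintro ⟨v, hv⟩
    obtain ⟨v, rfl⟩ := (Tw.mk (D.mir ν.length)).surjective v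
    refine ⟨v, ?_⟩
    change D.eW ν • Tw.mk (D.mir ν.length) v = _ at hv
    rw [Tw.smul_mk, D.mir_eW] at hv
    exact (Tw.mk (D.mir ν.length)).injective hv
  · rintro ⟨v, hv⟩
    refine ⟨Tw.mk (D.mir ν.length) v, ?_⟩
    change D.eW ν • Tw.mk (D.mir ν.length) v = _
    rw [Tw.smul_mk, D.mir_eW]
    exact congrArg _ hv

theorem wordSp_map (ν : List I) (h : ν.length = n) :
    (wordSp D M ν.reverse).map (Tw.mk (D.mir n)).toLinearMap = wordSp D (Mir D n M) ν := by
  ext z
  obtain ⟨z, rfl⟩ := (Tw.mk (D.mir n)).surjective z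
  rw [mem_wordSp ν h]
  constructor
  · rintro ⟨y, hy, hyz⟩
    rwa [← (Tw.mk (D.mir n)).injective hyz]
  · intro hz
    exact ⟨z, hz, rfl⟩

/-- the character of the mirror -/
theorem chr_mir (ν : List I) : chr D n (Mir D n M) ν = chr D n M ν.reverse := by
  unfold chr
  rw [List.length_reverse]
  split_ifs with h
  · rw [← wordSp_map ν h]
    exact LinearEquiv.finrank_map_eq (Tw.mk (D.mir n)) _
  · rfl

end Mir

end Pool.Agent.KLS

end
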