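import Pool.Agent.Work.MP_e487d8_al.Y.Mo.Head
import Pool.Agent.Work.MP_e487d8_al.Bd.B16
import Pool.Agent.Work.MP_e487d8_al.Bd.B08
import Pool.Agent.Work.MP_e487d8_al.Y.Conv.Fin
import Pool.Agent.Work.MP_e487d8_al.Y.Cry.Facts
import Pool.Agent.Work.MP_e487d8_al.Y.Fin.Mir
import Pool.Agent.Work.MP_e487d8_al.Y.Cry.Main

/-! Bundle of small proof modules (one section per former module). -/

section

/-! MP_e487d8_al, module side, item ICC: commuting simple modules. -/

set_option autoImplicit false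

open Pool.Agent.E487.Hopf

namespace Pool.Agent.KLS

variable {K I : Type} [Field K] [Fintype I] [DecidableEq I] (D : Datum K I)

namespace XICC

theorem conv_of_basis (hb : S_basis D) : S_conv D :=
  fun _ _ _ _ _ _ _ _ _ _ _ _ hM hN => Conv.fdMod_chrQ hb hM hN

end XICC

theorem Mo.I_ICC : StIcc D := by
  intro Lp h X Y hXY
  have hconv := XICC.conv_of_basis D h.1
  obtain ⟨Z, hZ⟩ := (Sm.comm_iff h.2 hconv X Y).1 hXY
  have h1 : X.chq * Y.chq = Z.rep.chq := by rw [Sm.chq_rep, hZ]
  obtain ⟨e⟩ := Sm.iso_conv' h.2 hconv h1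
  obtain ⟨e'⟩ := Sm.iso_conv' h.2 hconv ((mul_comm Y.chq X.chq).trans h1)
  exact ⟨e.trans e'.symm⟩

end Pool.Agent.KLS

end

section

/-! MP_e487d8_al, module side, item ICM: if `X` commutes with `A` and `B` then `X` commutes with
the simple product `AB`. -/

set_option autoImplicit false
set_option linter.unusedSectionVars false

namespace Pool.Agent.KLS

variable {K I : Type} [Field K] [Fintype I] [DecidableEq I] (D : Datum K I)

namespace XICM

section

variable {D}
variable {m m' n : ℕ} {M M' N N' : Type}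
  [AddCommGroup M] [Module K M] [Module (KLRAlg D) M] [IsScalarTower K (KLRAlg D) M]
  [AddCommGroup M'] [Module K M'] [Module (KLRAlg D) M'] [IsScalarTower K (KLRAlg D) M']
  [AddCommGroup N] [Module K N] [Module (KLRAlg D) N] [IsScalarTower K (KLRAlg D) N]
  [AddCommGroup N'] [Module K N'] [Module (KLRAlg D) N'] [IsScalarTower K (KLRAlg D) N']

/-- an isomorphism in the first factor -/
noncomputable def eqL (h : m = m') (f : M ≃ₗ[KLRAlg D] M') :
    Conv D m M N ≃ₗ[KLRAlg D] Conv D m' M' N :=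
  LinearEquiv.ofLinearMap (Conv.map h f.toLinearMap LinearMap.id)
    (Conv.map h.symm f.symm.toLinearMap LinearMap.id)
    (by apply Conv.hom_ext; intro u v; simp)
    (by apply Conv.hom_ext; intro u v; simp)

/-- an isomorphism in the second factor -/
noncomputable def eqR (g : N ≃ₗ[KLRAlg D] N') :
    Conv D m M N ≃ₗ[KLRAlg D] Conv D m M N' :=
  LinearEquiv.ofLinearMap (Conv.map rfl LinearMap.id g.toLinearMap)
    (Conv.map rfl LinearMap.id g.symm.toLinearMap)
    (by apply Conv.hom_ext; intro u v; simp)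
    (by apply Conv.hom_ext; intro u v; simp)

theorem st_unique {n m : ℕ} {M : Type} [AddCommGroup M] [Module (KLRAlg D) M] [Nontrivial M]
    (h : IsStrand D n M) (h' : IsStrand D m M) : n = m := by
  obtain ⟨u, hu⟩ := exists_ne (0 : M)
  rcases lt_trichotomy n m with h1 | h1 | h1
  · exact absurd ((h'.one n h1 u).symm.trans (h.E_smul_zero le_rfl u)) hu
  · exact h1
  · exact absurd ((h.one m h1 u).symm.trans (h'.E_smul_zero le_rfl u)) hu

theorem st_surj {n : ℕ} {M N : Type} [AddCommGroup M] [Module (KLRAlg D) M]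
    [AddCommGroup N] [Module (KLRAlg D) N] (h : IsStrand D n M) (f : M →ₗ[KLRAlg D] N)
    (hf : Function.Surjective f) : IsStrand D n N where
  one k hk u := by
    obtain ⟨u, rfl⟩ := hf u
    rw [← map_smul, h.one k hk]
  zero k hk i u := by
    obtain ⟨u, rfl⟩ := hf u
    rw [← map_smul, h.zero k hk, map_zero]

theorem nontriv (X : SMod D) : Nontrivial X.M := by
  have := X.smp.simple
  exact IsSimpleModule.nontrivial (KLRAlg D) X.M

end

end XICM

open XICM in
theorem Mo.I_ICM : StIcm D := by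
  rintro Lp hB X A B AB hc ⟨e1⟩ ⟨e2⟩
  have hconv : S_conv D := fun _ _ _ _ _ _ _ _ _ _ _ _ hM hN => Conv.fdMod_chrQ hB.1 hM hN
  obtain ⟨e⟩ := Sm.iso_conv' hB.2 hconv hc
  have := nontriv AB
  have hab : A.n + B.n = AB.n :=
    st_unique (M := AB.M) (st_surj (Conv.isStrand A.smp.strand B.smp.strand) e.toLinearMap
      e.surjective) AB.smp.strand
  have s1 : X.conv AB ≃ₗ[KLRAlg D] Conv D X.n X.M (Conv D A.n A.M B.M) := (eqR e).symm
  have s2 : Conv D (X.n + A.n) (Conv D X.n X.M A.M) B.M ≃ₗ[KLRAlg D]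
      Conv D X.n X.M (Conv D A.n A.M B.M) := Conv.assoc D X.n A.n X.M A.M B.M
  have s3 : Conv D (X.n + A.n) (Conv D X.n X.M A.M) B.M ≃ₗ[KLRAlg D]
      Conv D (A.n + X.n) (Conv D A.n A.M X.M) B.M := eqL (Nat.add_comm _ _) e1
  have s4 : Conv D (A.n + X.n) (Conv D A.n A.M X.M) B.M ≃ₗ[KLRAlg D]
      Conv D A.n A.M (Conv D X.n X.M B.M) := Conv.assoc D A.n X.n A.M X.M B.M
  have s5 : Conv D A.n A.M (Conv D X.n X.M B.M) ≃ₗ[KLRAlg D]
      Conv D A.n A.M (Conv D B.n B.M X.M) := eqR e2
  have s6 : Conv D (A.n + B.n) (Conv D A.n A.M B.M) X.M ≃ₗ[KLRAlg D]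
      Conv D A.n A.M (Conv D B.n B.M X.M) := Conv.assoc D A.n B.n A.M B.M X.M
  have s7 : Conv D (A.n + B.n) (Conv D A.n A.M B.M) X.M ≃ₗ[KLRAlg D]
      AB.conv X := eqL hab e
  exact ⟨(((((s1.trans s2.symm).trans s3).trans s4).trans s5).trans s6.symm).trans s7⟩

end Pool.Agent.KLS

end

section

/-! MP_e487d8_al, module side, item INJ: linearly independent homomorphisms from a simple module. -/

set_option autoImplicit false
set_option linter.unusedSectionVars false

namespace Pool.Agent.KLS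

namespace XINJ

section abs

variable {K R P M : Type} [Field K] [Ring R] [Algebra K R]
  [AddCommGroup P] [Module K P] [Module R P] [IsScalarTower K R P]
  [AddCommGroup M] [Module K M] [Module R M] [IsScalarTower K R M]

/-- the sum of the maps of a family -/
noncomputable def tot {h : ℕ} (f : Fin h → (P →ₗ[R] M)) : (Fin h → P) →ₗ[R] M :=
  ∑ i, (f i).comp (LinearMap.proj i)

theorem tot_apply {h : ℕ} (f : Fin h → (P →ₗ[R] M)) (u : Fin h → P) :
    tot f u = ∑ i, f i (u i) := by
  simp [tot, LinearMap.sum_apply]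

theorem main [IsSimpleModule R P] (hs : ∀ φ : P →ₗ[R] P, ∃ c : K, ∀ u, φ u = c • u) :
    ∀ (h : ℕ) (f : Fin h → (P →ₗ[R] M)), LinearIndependent K f →
      ∀ u : Fin h → P, ∑ i, f i (u i) = 0 → u = 0 := by
  intro h
  induction h with
  | zero => intro f _ u _; exact Subsingleton.elim _ _
  | succ h ih =>
    intro f hf u hu
    have hf' := linearIndependent_finSucc'.1 hf
    have hinj : Function.Injective (tot (Fin.init f)) := by
      rw [← LinearMap.ker_eq_bot, LinearMap.ker_eq_bot']
      intro w hw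
      rw [tot_apply] at hw
      exact ih _ hf'.1 w hw
    rw [Fin.sum_univ_castSucc] at hu
    have hlast : u (Fin.last h) = 0 := by
      by_contra hne
      let N : Submodule R P := (LinearMap.range (tot (Fin.init f))).comap (f (Fin.last h))
      have hN : u (Fin.last h) ∈ N := by
        refine ⟨-(fun i => u (Fin.castSucc i)), ?_⟩
        rw [map_neg, tot_apply]
        exact neg_eq_of_add_eq_zero_right hu
      have hN2 : N = ⊤ := by
        rcases eq_bot_or_eq_top N with h1 | h1
        · rw [h1] at hN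
          exact absurd ((Submodule.mem_bot R).1 hN) hne
        · exact h1
      have hall : ∀ p : P, f (Fin.last h) p ∈ LinearMap.range (tot (Fin.init f)) := by
        intro p
        have : p ∈ N := by rw [hN2]; trivial
        exact this
      let g : P →ₗ[R] (Fin h → P) :=
        (LinearEquiv.ofInjective (tot (Fin.init f)) hinj).symm.toLinearMap.comp
          ((f (Fin.last h)).codRestrict _ hall)
      have hg : ∀ p, tot (Fin.init f) (g p) = f (Fin.last h) p := by
        intro p
        have h1 := (LinearEquiv.ofInjective (tot (Fin.init f)) hinj).apply_symm_apply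
          ((f (Fin.last h)).codRestrict _ hall p)
        exact congrArg Subtype.val h1
      have hc : ∀ i : Fin h, ∃ c : K, ∀ p, g p i = c • p := by
        intro i
        exact hs ((LinearMap.proj i).comp g)
      choose c hc using hc
      apply hf'.2
      have hlin : f (Fin.last h) = ∑ i, c i • (Fin.init f) i := by
        ext p
        rw [← hg p, tot_apply, LinearMap.sum_apply]
        refine Finset.sum_congr rfl fun i _ => ?_
        rw [hc i p, LinearMap.map_smul_of_tower, LinearMap.smul_apply]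
      rw [hlin]
      exact Submodule.sum_mem _ fun i _ =>
        Submodule.smul_mem _ _ (Submodule.subset_span ⟨i, rfl⟩)
    rw [hlast, map_zero, add_zero] at hu
    have hinit := ih _ hf'.1 (fun i => u (Fin.castSucc i)) hu
    funext i
    refine Fin.lastCases ?_ (fun j => ?_) i
    · exact hlast
    · exact congrFun hinit j

end abs

end XINJ

variable {K I : Type} [Field K] [Fintype I] [DecidableEq I] (D : Datum K I)

theorem Mo.I_INJ : StInj D := by
  intro hb P M _ _ _ _ h f hf u hu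
  have := P.smp.simple
  exact XINJ.main (K := K) (R := KLRAlg D) (end_scalar hb _ _ P.smp) h f hf u hu

end Pool.Agent.KLS

end

section

/-! MP_e487d8_al, module side, item K1: `C^m ∘ B` has exactly one maximal submodule. -/

set_option autoImplicit false
set_option linter.unusedSectionVars false

namespace Pool.Agent.KLS

variable {K I : Type} [Field K] [Fintype I] [DecidableEq I] (D : Datum K I)

namespace XK1

/-- two nonzero elements of a space of dimension at most one are proportional -/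
theorem prop_of_finrank {V : Type} [AddCommGroup V] [Module K V] [FiniteDimensional K V]
    (h : Module.finrank K V ≤ 1) {r r' : V} (hr : r ≠ 0) : ∃ c : K, c • r = r' := by
  have h1 : Module.finrank K V = 1 := by
    have h2 : 0 < Module.finrank K V := Module.finrank_pos_iff.2 ⟨r, 0, hr⟩
    omega
  exact (finrank_eq_one_iff_of_nonzero' r hr).1 h1 r'

end XK1

theorem Mo.I_K1 (hW : StSwap D) (hE : StK1e D) : StK1 D := by
  intro Lp hB B C T m hC hD hT
  have hb : S_basis D := hB.1
  have hconv : S_conv D := fun m n M N _ _ _ _ _ _ _ _ hM hN => Conv.fdMod_chrQ hb hM hN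
  have hfd : FdMod D (T.n + B.n) (T.conv B) := Sm.fd_conv hconv T B
  have hfd' : FdMod D (B.n + T.n) (B.conv T) := Sm.fd_conv hconv B T
  have := hfd.fd
  have := hfd'.fd
  have : Nontrivial (T.conv B) := Sm.conv_nontrivial hconv T B
  have : FiniteDimensional K (T.conv B →ₗ[KLRAlg D] B.conv T) := homFin
  obtain ⟨S, -, f, hf⟩ := Sm.exists_quo hfd
  refine ⟨S, f, hf, fun N hN => ?_⟩
  have hnoe : IsNoetherian (KLRAlg D) (T.conv B) := isNoetherian_of_tower K inferInstance
  obtain ⟨P, hP, hNP⟩ := (eq_top_or_exists_le_coatom N).resolve_left hN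
  let S' : SMod D := ⟨T.n + B.n, T.conv B ⧸ P, ⟨hfd.quot P, isSimpleModule_iff_isCoatom.2 hP⟩⟩
  obtain ⟨j, hj⟩ := (hW hb Lp hB.2 T B S).1 ⟨f, hf⟩
  obtain ⟨j', hj'⟩ := (hW hb Lp hB.2 T B S').1 ⟨P.mkQ, P.mkQ_surjective⟩
  have hk : LinearMap.ker (j ∘ₗ f) = LinearMap.ker f := by
    rw [LinearMap.ker_comp, LinearMap.ker_eq_bot.2 hj, Submodule.comap_bot]
  have hk' : LinearMap.ker (j' ∘ₗ P.mkQ) = P := by
    rw [LinearMap.ker_comp]
    erw [LinearMap.ker_eq_bot.2 hj']
    rw [Submodule.comap_bot, Submodule.ker_mkQ]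
  have hne : j' ∘ₗ P.mkQ ≠ 0 := by
    intro h0
    rw [h0, LinearMap.ker_zero] at hk'
    exact hP.1 hk'.symm
  have h1 := hE Lp hB B C T m hC hD hT
  obtain ⟨c, hc⟩ := XK1.prop_of_finrank h1 (r := j' ∘ₗ P.mkQ) (r' := j ∘ₗ f) hne
  intro u hu
  have h2 : u ∈ LinearMap.ker (j' ∘ₗ P.mkQ) := by
    rw [hk']
    exact hNP hu
  rw [← hk, LinearMap.mem_ker, ← hc]
  show c • ((j' ∘ₗ P.mkQ) u) = 0
  rw [LinearMap.mem_ker.1 h2, smul_zero]

end Pool.Agent.KLS

end

section

/-! MP_e487d8_al, module side, item K1D: `dim Hom(C^m ∘ S, B ∘ C^(m+n)) ≤ 1`. -/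

set_option autoImplicit false
set_option linter.unusedSectionVars false

open Pool.Agent.E487.Hopf

namespace Pool.Agent.KLS

variable {K I : Type} [Field K] [Fintype I] [DecidableEq I] (D : Datum K I)

namespace XK1D

variable {D}

theorem sconv (hb : S_basis D) : S_conv D :=
  fun _ _ _ _ _ _ _ _ _ _ _ _ hM hN => Conv.fdMod_chrQ hb hM hN

/-- dimension divided by the order of the symmetric group -/
noncomputable def chi (X : SMod D) : ℚ := (Module.finrank K X.M : ℚ) / (X.n.factorial : ℚ)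

theorem chi_pos (X : SMod D) : 0 < chi X := by
  have h1 := X.smp.simple
  have h2 := X.smp.fd
  have h3 : Nontrivial X.M := IsSimpleModule.nontrivial (KLRAlg D) X.M
  have h4 : 0 < Module.finrank K X.M := Module.finrank_pos
  unfold chi
  positivity

theorem n_conv (hb : S_basis D) {X Y Z : SMod D} (h : Nonempty (X.conv Y ≃ₗ[KLRAlg D] Z.M)) :
    Z.n = X.n + Y.n := by
  obtain ⟨g⟩ := h
  exact quo_strand (Sm.fd_conv (sconv hb) X Y) ⟨g.toLinearMap, g.surjective⟩

theorem finrank_equiv {M N : Type} [AddCommGroup M] [Module K M] [Module (KLRAlg D) M]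
    [IsScalarTower K (KLRAlg D) M] [AddCommGroup N] [Module K N] [Module (KLRAlg D) N]
    [IsScalarTower K (KLRAlg D) N] (g : M ≃ₗ[KLRAlg D] N) :
    Module.finrank K M = Module.finrank K N :=
  LinearEquiv.finrank_eq (LinearEquiv.ofBijective (Conv.toK g.toLinearMap) g.bijective)

theorem dim_conv (hb : S_basis D) (X Y : SMod D) : Module.finrank K (X.conv Y) =
    (X.n + Y.n).choose X.n * (Module.finrank K X.M * Module.finrank K Y.M) := by
  have := X.smp.fd
  have := Y.smp.fd
  exact Conv.finrank hb X.smp.strand Y.smp.strand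

theorem chi_dim (hb : S_basis D) (X Y : SMod D) :
    (Module.finrank K (X.conv Y) : ℚ) / ((X.n + Y.n).factorial : ℚ) = chi X * chi Y := by
  rw [dim_conv hb, chi, chi]
  have h1 : ((X.n + Y.n).choose X.n : ℚ) * X.n.factorial * Y.n.factorial =
      (X.n + Y.n).factorial := by
    exact_mod_cast Nat.choose_symm_add ▸ Nat.add_choose_mul_factorial_mul_factorial X.n Y.n
  have h2 : ((X.n + Y.n).factorial : ℚ) ≠ 0 := by exact_mod_cast Nat.factorial_ne_zero _
  have h3 : (X.n.factorial : ℚ) ≠ 0 := by exact_mod_cast Nat.factorial_ne_zero _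
  have h4 : (Y.n.factorial : ℚ) ≠ 0 := by exact_mod_cast Nat.factorial_ne_zero _
  push_cast
  field_simp
  linear_combination (Module.finrank K X.M : ℚ) * Module.finrank K Y.M * h1

theorem chi_conv (hb : S_basis D) {X Y Z : SMod D} (h : Nonempty (X.conv Y ≃ₗ[KLRAlg D] Z.M)) :
    chi Z = chi X * chi Y := by
  rw [← chi_dim hb, ← n_conv hb h]
  obtain ⟨g⟩ := h
  rw [finrank_equiv g]
  rfl

/-- transport of homomorphism spaces -/
theorem finrank_hom_le {A A' M M' : Type}
    [AddCommGroup A] [Module K A] [Module (KLRAlg D) A] [IsScalarTower K (KLRAlg D) A]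
    [AddCommGroup A'] [Module K A'] [Module (KLRAlg D) A'] [IsScalarTower K (KLRAlg D) A']
    [AddCommGroup M] [Module K M] [Module (KLRAlg D) M] [IsScalarTower K (KLRAlg D) M]
    [AddCommGroup M'] [Module K M'] [Module (KLRAlg D) M'] [IsScalarTower K (KLRAlg D) M']
    [FiniteDimensional K A'] [FiniteDimensional K M']
    (e : A' →ₗ[KLRAlg D] A) (he : Function.Surjective e) (g : M →ₗ[KLRAlg D] M')
    (hg : Function.Injective g) :
    Module.finrank K (A →ₗ[KLRAlg D] M) ≤ Module.finrank K (A' →ₗ[KLRAlg D] M') := by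
  have : FiniteDimensional K (A' →ₗ[KLRAlg D] M') := homFin
  have h0 : ∀ (r : K) (u : M), g (r • u) = r • g u := (Conv.toK g).map_smul
  let φ : (A →ₗ[KLRAlg D] M) →ₗ[K] (A' →ₗ[KLRAlg D] M') :=
    { toFun := fun f => g ∘ₗ f ∘ₗ e
      map_add' := fun f f' => by ext u; simp
      map_smul' := fun r f => by
        ext u
        change g ((r • f) (e u)) = r • g (f (e u))
        rw [homK_smul_apply, h0] }
  refine LinearMap.finrank_le_finrank_of_injective (f := φ) ?_
  intro f f' h
  ext u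
  obtain ⟨u, rfl⟩ := he u
  exact hg (LinearMap.congr_fun h u)

theorem fd_of (hb : S_basis D) (X Y : SMod D) : FiniteDimensional K (X.conv Y) :=
  (Sm.fd_conv (sconv hb) X Y).fd

theorem iso_of_chq {Lp : I → ℕ → SMod D} (hC : CFacts D Lp) {X Y : SMod D} (h : X.chq = Y.chq) :
    Nonempty (X.M ≃ₗ[KLRAlg D] Y.M) := by
  refine Sm.iso_rep hC ?_
  funext ν
  have h3 : (X.ch ν : ℚ) = (Y.ch ν : ℚ) := congrFun h ν
  exact_mod_cast h3

theorem n_eq {Lp : I → ℕ → SMod D} (hC : CFacts D Lp) {X Y : SMod D} (h : X.chq = Y.chq) :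
    X.n = Y.n := SMod.n_eq_of_iso (iso_of_chq hC h)

theorem chi_eq {Lp : I → ℕ → SMod D} (hC : CFacts D Lp) {X Y : SMod D} (h : X.chq = Y.chq) :
    chi X = chi Y := by
  rw [chi, chi, n_eq hC h]
  obtain ⟨g⟩ := iso_of_chq hC h
  rw [finrank_equiv g]

theorem chq_un (D : Datum K I) : (SMod.un D).chq = 1 := Sm.chq_one (D := D)

theorem chi_un : chi (SMod.un D) = 1 := by
  have h1 : IsStrand D 0 (SMod.un D).M := (SMod.un D).smp.strand
  have := (SMod.un D).smp.simple
  have h2 := finrank_one_of_strand h1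
  rw [chi, h2]
  have h3 : (SMod.un D).n = 0 := rfl
  rw [h3]
  simp

/-- powers: strands and dimensions -/
theorem pw {Lp : I → ℕ → SMod D} (hb : S_basis D) (hC : CFacts D Lp) {C : SMod D}
    (hSR : C.SR) : ∀ (m : ℕ) (T : SMod D), C.Pw m T → T.n = m * C.n ∧ chi T = chi C ^ m := by
  intro m
  induction m with
  | zero =>
    intro T hT
    have h1 : T.chq = (SMod.un D).chq := by rw [hT, pow_zero, chq_un]
    rw [n_eq hC h1, chi_eq hC h1, chi_un, pow_zero, zero_mul]
    exact ⟨rfl, rfl⟩
  | succ m ih =>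
    intro T hT
    obtain ⟨T', hT'⟩ := hSR m
    obtain ⟨h1, h2⟩ := ih T' hT'
    have h3 : Nonempty (T'.conv C ≃ₗ[KLRAlg D] T.M) := by
      refine Sm.iso_conv' hC (sconv hb) ?_
      rw [hT', hT, pow_succ]
    rw [n_conv hb h3, chi_conv hb h3, h1, h2, pow_succ]
    exact ⟨by ring, rfl⟩

end XK1D

open XK1D in
theorem Mo.I_K1D (hA : StK1a D) (hB : StK1b D) (hC : StK1c D) : StK1d D := by
  intro Lp hBase B C S T n hSR hT hS hSC
  obtain ⟨hb, hCF⟩ := hBase
  have _ := hB
  have hcv := sconv hb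
  have hpw := pw hb hCF hSR
  choose Tm hTm using hSR
  choose Pm hPm using hSC
  set h : ℕ → ℕ := fun m => Module.finrank K ((Pm m).M →ₗ[KLRAlg D] B.conv (Tm (m + n))) with hh
  -- the number `h m` does not depend on the choices
  have hinv : ∀ (m : ℕ) (P R : SMod D), P.chq = C.chq ^ m * S.chq → C.Pw (m + n) R →
      Module.finrank K (P.M →ₗ[KLRAlg D] B.conv R) ≤ h m := by
    intro m P R hP hR
    obtain ⟨e⟩ := iso_of_chq hCF ((hPm m).trans hP.symm)
    obtain ⟨g⟩ := iso_of_chq hCF (Eq.trans hR (hTm (m + n)).symm)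
    have := (Pm m).smp.fd
    have := fd_of hb B (Tm (m + n))
    refine finrank_hom_le e.toLinearMap e.surjective
      (Conv.map (rfl : B.n = B.n) (LinearMap.id : B.M →ₗ[KLRAlg D] B.M) g.toLinearMap) ?_
    refine Function.LeftInverse.injective (g := Conv.map (rfl : B.n = B.n)
      (LinearMap.id : B.M →ₗ[KLRAlg D] B.M) g.symm.toLinearMap) fun z => ?_
    rw [Conv.map_map, LinearMap.id_comp, LinearEquiv.symm_comp, Conv.map_id]
    rfl
  -- the inequality
  have hmul : ∀ m m' : ℕ, h m * h m' ≤ h (m + m' + n) := by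
    intro m m'
    have h1 : Nonempty ((Tm m).conv S ≃ₗ[KLRAlg D] (Pm m).M) := by
      refine Sm.iso_conv' hCF hcv ?_
      rw [hPm m, hTm m]
    have h2 : Nonempty ((Tm m).conv T ≃ₗ[KLRAlg D] (Tm (m + n)).M) := by
      refine Sm.iso_conv' hCF hcv ?_
      rw [hTm m, hTm (m + n), hT, pow_add]
    have h3 : Nonempty ((Tm (m + n)).conv (Tm (m' + n)) ≃ₗ[KLRAlg D]
        (Tm (m + m' + n + n)).M) := by
      refine Sm.iso_conv' hCF hcv ?_
      rw [hTm (m + n), hTm (m' + n), hTm (m + m' + n + n), ← pow_add]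
      congr 1
      ring
    have h4 := hA hb B S (Pm m) T (Tm m) (Tm (m + n)) (Tm (m' + n)) (Pm m') (Tm (m + n))
      (Tm (m + m' + n + n)) h1 hS h2 h3
    refine h4.trans ?_
    obtain ⟨e⟩ : Nonempty ((Tm (m + n)).conv (Pm m') ≃ₗ[KLRAlg D] (Pm (m + m' + n)).M) := by
      refine Sm.iso_conv' hCF hcv ?_
      rw [hTm (m + n), hPm m', hPm (m + m' + n), ← mul_assoc, ← pow_add]
      congr 2
      ring
    have := (Pm (m + m' + n)).smp.fd
    have := fd_of hb B (Tm (m + m' + n + n))
    exact finrank_hom_le e.symm.toLinearMap e.symm.surjective LinearMap.id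
      Function.injective_id
  -- the bound
  have hbd : ∀ m : ℕ, (h m : ℚ) ≤ chi B * chi C ^ n / chi S := by
    intro m
    have h1 : Nonempty ((Tm m).conv S ≃ₗ[KLRAlg D] (Pm m).M) := by
      refine Sm.iso_conv' hCF hcv ?_
      rw [hPm m, hTm m]
    have h2 := hC hb (Pm m) _ (B.conv (Tm (m + n))) (Sm.fd_conv hcv B (Tm (m + n)))
    obtain ⟨h3, h4⟩ := hpw m (Tm m) (hTm m)
    obtain ⟨h5, h6⟩ := hpw (m + n) (Tm (m + n)) (hTm (m + n))
    obtain ⟨h7, h8⟩ := hpw n T hT
    have h9 : S.n = T.n + B.n := quo_strand (Sm.fd_conv hcv T B) hS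
    have h10 : (Pm m).n = B.n + (Tm (m + n)).n := by
      rw [n_conv hb h1, h3, h9, h7, h5]
      ring
    have h11 : (h m : ℚ) * (chi C ^ m * chi S) ≤ chi B * chi C ^ (m + n) := by
      rw [← h4, ← chi_conv hb h1, ← h6, ← chi_dim hb, chi, h10, ← mul_div_assoc]
      have h12 : (0 : ℚ) < ((B.n + (Tm (m + n)).n).factorial : ℚ) := by
        exact_mod_cast Nat.factorial_pos _
      refine div_le_div_of_nonneg_right ?_ h12.le
      exact_mod_cast h2
    have h13 := chi_pos S
    have h14 : 0 < chi C ^ m := pow_pos (chi_pos C) m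
    rw [le_div_iff₀ h13]
    refine le_of_mul_le_mul_left ?_ h14
    calc chi C ^ m * ((h m : ℚ) * chi S) = (h m : ℚ) * (chi C ^ m * chi S) := by ring
      _ ≤ chi B * chi C ^ (m + n) := h11
      _ = chi C ^ m * (chi B * chi C ^ n) := by rw [pow_add]; ring
  -- the maximum
  obtain ⟨m₀, hm₀⟩ : ∃ m₀, ∀ m, h m ≤ h m₀ := by
    have hbdd : BddAbove (Set.range h) := by
      obtain ⟨N, hN⟩ := exists_nat_ge (chi B * chi C ^ n / chi S)
      refine ⟨N, ?_⟩
      rintro _ ⟨m, rfl⟩
      exact_mod_cast (hbd m).trans hN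
    obtain ⟨m₀, hm₀⟩ := Nat.sSup_mem (Set.range_nonempty h) hbdd
    exact ⟨m₀, fun m => hm₀ ▸ le_csSup hbdd ⟨m, rfl⟩⟩
  have h1 : h m₀ ≤ 1 := by
    have h2 := (hmul m₀ m₀).trans (hm₀ (m₀ + m₀ + n))
    by_contra h3
    push Not at h3
    nlinarith
  intro m P R hP hR
  exact (hinv m P R hP hR).trans ((hm₀ m).trans h1)

end Pool.Agent.KLS

end

section

/-! MP_e487d8_al, module side: K1M, the mirror of K1. -/

set_option autoImplicit false
set_option linter.unusedSectionVars false

open scoped TensorProduct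

open Pool.Agent.E487.Hopf

namespace Pool.Agent.KLS

variable {K I : Type} [Field K] [Fintype I] [DecidableEq I] (D : Datum K I)

namespace XK1M

variable {D}

/-- reversal of words -/
def rev (f : Sh I ℚ) : Sh I ℚ := fun w => f w.reverse

omit [Fintype I] [DecidableEq I] in
theorem rev_apply (f : Sh I ℚ) (w : List I) : rev f w = f w.reverse := rfl

omit [Fintype I] [DecidableEq I] in
theorem L_rev (i : I) (f : Sh I ℚ) : Sh.L i (rev f) = rev (Sh.R i f) := by
  apply Sh.ext'
  intro w
  rw [Sh.L_apply, rev_apply, rev_apply, Sh.R_apply, List.reverse_cons]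

omit [Fintype I] [DecidableEq I] in
theorem rev_mul (f g : Sh I ℚ) : rev (f * g) = rev f * rev g := by
  apply Sh.ext'
  intro w
  induction w generalizing f g with
  | nil => rfl
  | cons i w ih =>
    have h1 : rev (f * g) (i :: w) = rev (Sh.R i (f * g)) w := by
      rw [rev_apply, rev_apply, Sh.R_apply, List.reverse_cons]
    have h2 : rev (Sh.R i f * g + f * Sh.R i g) w
        = rev (Sh.R i f * g) w + rev (f * Sh.R i g) w := rfl
    rw [h1, Sh.R_mul, h2, ih, ih, Sh.mul_cons, L_rev, L_rev]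

omit [Fintype I] [DecidableEq I] in
theorem rev_one : rev (1 : Sh I ℚ) = 1 := by
  apply Sh.ext'
  intro w
  cases w with
  | nil => rfl
  | cons i w =>
    rw [rev_apply, Sh.one_cons, List.reverse_cons]
    cases h : w.reverse with
    | nil => rfl
    | cons j v => rfl

omit [Fintype I] [DecidableEq I] in
theorem rev_pow (f : Sh I ℚ) (n : ℕ) : rev (f ^ n) = rev f ^ n := by
  induction n with
  | zero => rw [pow_zero, pow_zero, rev_one]
  | succ n ih => rw [pow_succ, pow_succ, rev_mul, ih]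

theorem chq_mir (X : SMod D) : X.mir.chq = rev X.chq := by
  apply Sh.ext'
  intro w
  show (X.mir.ch w : ℚ) = (X.ch w.reverse : ℚ)
  rw [SMod.ch_mir]

theorem pw_mir {C T : SMod D} {n : ℕ} (h : C.Pw n T) : C.mir.Pw n T.mir := by
  show T.mir.chq = C.mir.chq ^ n
  rw [chq_mir, chq_mir, ← rev_pow]
  exact congrArg rev h

theorem sr_mir {C : SMod D} (h : C.SR) : C.mir.SR := fun n => by
  obtain ⟨T, hT⟩ := h n
  exact ⟨T.mir, pw_mir hT⟩

theorem sc_mir {C X : SMod D} (h : C.SC X) : C.mir.SC X.mir := fun n => by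
  obtain ⟨T, hT⟩ := h n
  refine ⟨T.mir, ?_⟩
  rw [chq_mir, chq_mir, chq_mir, hT, rev_mul, rev_pow]

/-- products of isomorphic modules -/
theorem conv_congr {X X' Y Y' : SMod D} (hX : X.Iso X') (hY : Y.Iso Y') :
    Nonempty (X.conv Y ≃ₗ[KLRAlg D] X'.conv Y') := by
  have hn := SMod.n_eq_of_iso hX
  obtain ⟨f⟩ := hX
  obtain ⟨g⟩ := hY
  refine ⟨LinearEquiv.ofLinearMap
      (Conv.map hn f.toLinearMap g.toLinearMap)
      (Conv.map hn.symm f.symm.toLinearMap g.symm.toLinearMap) ?_ ?_⟩
  · apply Conv.hom_ext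
    intro u v
    rw [LinearMap.comp_apply, Conv.map_mk, Conv.map_mk]
    simp
  · apply Conv.hom_ext
    intro u v
    rw [LinearMap.comp_apply, Conv.map_mk, Conv.map_mk]
    simp

theorem dag_mir {C : SMod D} (h : C.Dagm) : C.mir.Dag := fun X => by
  obtain ⟨n, T, S, hT, hq, hS⟩ := h X.mir
  refine ⟨n, T.mir, S.mir, pw_mir hT, ?_, sc_mir hS⟩
  have h1 := SMod.quo_conv_mir hq
  obtain ⟨e⟩ := conv_congr (X := T.mir) (X' := T.mir) ⟨LinearEquiv.refl _ _⟩ X.mir_mir
  exact h1.congr (LinearEquiv.refl _ _) e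

end XK1M

open XK1M in
theorem Mo.I_K1M (h : StK1 D) : StK1m D := by
  intro Lp hB B C T m hSR hD hP
  obtain ⟨S, f, hf, hmax⟩ := h Lp hB B.mir C.mir T.mir m (sr_mir hSR) (dag_mir hD) (pw_mir hP)
  have hs' : IsStrand D (B.n + T.n) (T.mir.conv B.mir) := by
    rw [Nat.add_comm]
    exact Conv.isStrand T.mir.smp.strand B.mir.smp.strand
  have hn : B.n + T.n = S.n := strand_unique (M := S.M) (Quo.strand hs' ⟨f, hf⟩) S.smp.strand
  have key : ∀ m, m = B.n + T.n → ∃ g : B.conv T →ₗ[KLRAlg D] Mir D m S.M,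
      Function.Surjective g ∧
      ∀ N : Submodule (KLRAlg D) (B.conv T), N ≠ ⊤ → N ≤ LinearMap.ker g := by
    rintro m rfl
    refine ⟨(Tw.map (D.mir (B.n + T.n)) f).comp (SMod.convE B T).toLinearMap, ?_, ?_⟩
    · rw [LinearMap.coe_comp]
      exact (Tw.map_surjective _ hf).comp (SMod.convE B T).surjective
    · intro N hN u hu
      let Φ : Submodule (KLRAlg D) (B.conv T) ≃o Submodule (KLRAlg D) (T.mir.conv B.mir) :=
        (Submodule.orderIsoMapComap (SMod.convE B T)).trans (Mir.subEquiv hs').symm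
      have h1 : Φ N ≠ ⊤ := fun h2 => hN (Φ.injective (h2.trans (OrderIso.map_top Φ).symm))
      have h3 := hmax (Φ N) h1
      have h6 : SMod.convE B T u ∈ Submodule.orderIsoMapComap (SMod.convE B T) N :=
        ⟨u, hu, rfl⟩
      have h4 : (Tw.mk (D.mir (B.n + T.n))).symm (SMod.convE B T u) ∈ Φ N := h6
      have h5 : f ((Tw.mk (D.mir (B.n + T.n))).symm (SMod.convE B T u)) = 0 := h3 h4
      rw [LinearMap.mem_ker, LinearMap.comp_apply]
      exact h5
  obtain ⟨g, hg, hk⟩ := key S.n hn.symm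
  exact ⟨S.mir, g, hg, hk⟩

end Pool.Agent.KLS

end

section

/-! MP_e487d8_al, module side: K1S. -/

set_option autoImplicit false
set_option linter.unusedSectionVars false

open scoped TensorProduct

namespace Pool.Agent.KLS

variable {K I : Type} [Field K] [Fintype I] [DecidableEq I] (D : Datum K I)

namespace XK1S

variable {D}

theorem isStrand_pi {n h : ℕ} {M : Type} [AddCommGroup M] [Module (KLRAlg D) M]
    (hM : IsStrand D n M) : IsStrand D n (Fin h → M) where
  one k hk u := funext fun i => hM.one k hk (u i)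
  zero k hk i u := funext fun j => hM.zero k hk i (u j)

section

variable {m m' n : ℕ} {M M' N : Type}
  [AddCommGroup M] [Module K M] [Module (KLRAlg D) M] [IsScalarTower K (KLRAlg D) M]
  [AddCommGroup N] [Module K N] [Module (KLRAlg D) N] [IsScalarTower K (KLRAlg D) N]
  [AddCommGroup M'] [Module K M'] [Module (KLRAlg D) M'] [IsScalarTower K (KLRAlg D) M']

theorem map_zero_left (hm : m = m') (z : Conv D m M N) :
    Conv.map hm (0 : M →ₗ[KLRAlg D] M') (LinearMap.id : N →ₗ[KLRAlg D] N) z = 0 := by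
  have h1 : Conv.map hm (0 : M →ₗ[KLRAlg D] M') (LinearMap.id : N →ₗ[KLRAlg D] N) = 0 := by
    apply Conv.hom_ext
    intro u v
    rw [Conv.map_mk, LinearMap.zero_apply, map_zero, LinearMap.zero_apply, LinearMap.zero_apply]
  rw [h1, LinearMap.zero_apply]

/-- the sum of the maps `f i ∘ id` is injective -/
theorem sum_map_injective (hb : S_basis D) (hm : m = m') (hM : IsStrand D m M)
    (hN : IsStrand D n N) (hM' : IsStrand D m' M') {h : ℕ} (f : Fin h → (M →ₗ[KLRAlg D] M'))
    (hf : ∀ u : Fin h → M, ∑ i, f i (u i) = 0 → u = 0) (y : Fin h → Conv D m M N)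
    (hy : ∑ i, Conv.map hm (f i) (LinearMap.id : N →ₗ[KLRAlg D] N) (y i) = 0) : y = 0 := by
  classical
  let F : (Fin h → M) →ₗ[KLRAlg D] M' := ∑ i, (f i).comp (LinearMap.proj i)
  have hFap : ∀ u : Fin h → M, F u = ∑ i, f i (u i) := by
    intro u
    simp [F, LinearMap.sum_apply]
  have hF : Function.Injective F := by
    rw [injective_iff_map_eq_zero]
    intro u hu
    exact hf u (by rw [← hFap]; exact hu)
  have hFs : ∀ i, F.comp (LinearMap.single (KLRAlg D) (fun _ : Fin h => M) i) = f i := by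
    intro i
    ext u
    rw [LinearMap.comp_apply, hFap, Finset.sum_eq_single i]
    · simp
    · intro j _ hj
      rw [LinearMap.coe_single, Pi.single_eq_of_ne hj, map_zero]
    · intro hi
      exact absurd (Finset.mem_univ i) hi
  have h1 : Conv.map hm F (LinearMap.id : N →ₗ[KLRAlg D] N)
      (∑ i, Conv.map (rfl : m = m) (LinearMap.single (KLRAlg D) (fun _ : Fin h => M) i)
        (LinearMap.id : N →ₗ[KLRAlg D] N) (y i)) = 0 := by
    rw [map_sum, ← hy]
    refine Finset.sum_congr rfl fun i _ => ?_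
    rw [Conv.map_map, hFs]
    rfl
  have h2 : (∑ i, Conv.map (rfl : m = m) (LinearMap.single (KLRAlg D) (fun _ : Fin h => M) i)
        (LinearMap.id : N →ₗ[KLRAlg D] N) (y i)) = 0 :=
    Conv.map_injective hb hm (isStrand_pi hM) hN hM' hN F LinearMap.id hF
      Function.injective_id (by rw [h1, map_zero])
  funext j
  have h3 := congrArg (Conv.map (rfl : m = m) (LinearMap.proj j : (Fin h → M) →ₗ[KLRAlg D] M)
    (LinearMap.id : N →ₗ[KLRAlg D] N)) h2
  rw [map_sum, map_zero, Finset.sum_eq_single j] at h3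
  · rw [Conv.map_map] at h3
    have h4 : (LinearMap.proj j : (Fin h → M) →ₗ[KLRAlg D] M).comp
        (LinearMap.single (KLRAlg D) (fun _ : Fin h => M) j) = LinearMap.id := by
      ext u
      simp
    rw [h4] at h3
    have h5 : Conv.map (rfl.trans rfl : m = m) (LinearMap.id : M →ₗ[KLRAlg D] M)
        ((LinearMap.id : N →ₗ[KLRAlg D] N).comp LinearMap.id) = LinearMap.id := Conv.map_id
    rw [h5] at h3
    exact h3
  · intro i _ hi
    rw [Conv.map_map]
    have h4 : (LinearMap.proj j : (Fin h → M) →ₗ[KLRAlg D] M).comp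
        (LinearMap.single (KLRAlg D) (fun _ : Fin h => M) i) = 0 := by
      ext u
      simp [Pi.single_eq_of_ne (Ne.symm hi)]
    rw [h4]
    exact map_zero_left _ _
  · intro hj
    exact absurd (Finset.mem_univ j) hj

end

end XK1S

open XK1S in
theorem Mo.I_K1S (h : StInj D) : StK1s D := by
  intro hb B P R₁ R₂ Z k f hf hZ A _ _ _ _
  obtain ⟨iso⟩ := hZ
  rcases Nat.eq_zero_or_pos k with rfl | hk
  · refine ⟨0, fun y z _ => funext fun i => i.elim0⟩
  · have hinj := h hb P (B.conv R₁) k f hf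
    have := P.smp.simple
    have hn : P.n = B.n + R₁.n := by
      have h0 : f ⟨0, hk⟩ ≠ 0 := hf.ne_zero _
      have h1 : Function.Injective (f ⟨0, hk⟩) := by
        rcases LinearMap.injective_or_eq_zero (f ⟨0, hk⟩) with h1 | h1
        · exact h1
        · exact absurd h1 h0
      have : Nontrivial P.M := IsSimpleModule.nontrivial (KLRAlg D) P.M
      exact strand_unique P.smp.strand
        ((Conv.isStrand B.smp.strand R₁.smp.strand).of_injective _ h1)
    let e : Conv D (B.n + R₁.n) (B.conv R₁) R₂.M →ₗ[KLRAlg D] B.conv Z :=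
      (Conv.map (rfl : B.n = B.n) (LinearMap.id : B.M →ₗ[KLRAlg D] B.M) iso.toLinearMap).comp
        (Conv.assoc D B.n R₁.n B.M R₁.M R₂.M).toLinearMap
    have he : Function.Injective e := by
      have h1 : Function.Injective (Conv.map (rfl : B.n = B.n)
          (LinearMap.id : B.M →ₗ[KLRAlg D] B.M) iso.toLinearMap) := by
        refine Function.LeftInverse.injective (g := Conv.map (rfl : B.n = B.n)
          (LinearMap.id : B.M →ₗ[KLRAlg D] B.M) iso.symm.toLinearMap) fun z => ?_
        rw [Conv.map_map]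
        have h2 : iso.symm.toLinearMap.comp iso.toLinearMap = LinearMap.id := by
          ext u
          simp
        rw [h2]
        exact LinearMap.congr_fun Conv.map_id z
      exact h1.comp (Conv.assoc D B.n R₁.n B.M R₁.M R₂.M).injective
    let θ : (Fin k → (A →ₗ[KLRAlg D] P.conv R₂)) →ₗ[K] (A →ₗ[KLRAlg D] B.conv Z) :=
      { toFun := fun y => e.comp (∑ i, (Conv.map hn (f i)
          (LinearMap.id : R₂.M →ₗ[KLRAlg D] R₂.M)).comp (y i))
        map_add' := fun y z => by
          ext a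
          simp only [LinearMap.comp_apply, LinearMap.add_apply, LinearMap.sum_apply, Pi.add_apply,
            map_add, Finset.sum_add_distrib]
        map_smul' := fun c y => by
          ext a
          have h1 : ∀ (V W : Type) [AddCommGroup V] [Module K V] [Module (KLRAlg D) V]
            [IsScalarTower K (KLRAlg D) V] [AddCommGroup W] [Module K W] [Module (KLRAlg D) W]
            [IsScalarTower K (KLRAlg D) W] (g : V →ₗ[KLRAlg D] W) (v : V), g (c • v) = c • g v :=
            fun V W _ _ _ _ _ _ _ _ g v => (Conv.toK g).map_smul c v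
          simp only [LinearMap.comp_apply, LinearMap.sum_apply, Pi.smul_apply, RingHom.id_apply,
            LinearMap.smul_apply]
          rw [← h1, Finset.smul_sum]
          congr 1
          refine Finset.sum_congr rfl fun i _ => ?_
          rw [h1] }
    refine ⟨θ, ?_⟩
    rw [injective_iff_map_eq_zero]
    intro y hy
    have h1 : ∀ a, (fun i => y i a) = 0 := by
      intro a
      refine sum_map_injective hb hn P.smp.strand R₂.smp.strand
        (Conv.isStrand B.smp.strand R₁.smp.strand) f hinj _ ?_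
      apply he
      have h2 := LinearMap.congr_fun hy a
      simp only [θ, LinearMap.coe_mk, AddHom.coe_mk, LinearMap.comp_apply, LinearMap.sum_apply] at h2
      rw [map_zero]
      exact h2
    funext i
    ext a
    exact congrFun (h1 a) i

end Pool.Agent.KLS

end

section

/-! MP_e487d8_al, block MO, item K4: injectivity of `X ↦ hd(C^n ∘ X)`. -/

set_option autoImplicit false

namespace Pool.Agent.KLS

variable {K I : Type} [Field K] [Fintype I] [DecidableEq I] (D : Datum K I)

theorem Mo.I_K4 (hE : StK1e D) (hA : StK4a D) : StK4 D :=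
  fun Lp h X Y C T H n hSR hDag hT hX hY =>
    hA Lp h X Y T H hX hY (hE Lp h H C T n hSR hDag hT)

end Pool.Agent.KLS

end

section

/-! MP_e487d8_al, block MO, item K4M: the mirror of K4. -/

set_option autoImplicit false
set_option linter.unusedSectionVars false

open Pool.Agent.E487.Hopf

namespace Pool.Agent.KLS

variable {K I : Type} [Field K] [Fintype I] [DecidableEq I] (D : Datum K I)

namespace XK4M

/-- reversal of the words -/
def rv {R : Type} [Field R] (f : Sh I R) : Sh I R := fun w => f w.reverse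

theorem rv_apply {R : Type} [Field R] (f : Sh I R) (w : List I) : rv f w = f w.reverse := rfl

theorem rv_R {R : Type} [Field R] (i : I) (f : Sh I R) : rv (Sh.R i f) = Sh.L i (rv f) := by
  apply Sh.ext'
  intro v
  rw [Sh.L_apply, rv_apply, rv_apply, Sh.R_apply, List.reverse_cons]

theorem rv_mul {R : Type} [Field R] (w : List I) : ∀ f g : Sh I R,
    (f * g) w.reverse = (rv f * rv g) w := by
  induction w with
  | nil => intro f g; rfl
  | cons i w ih =>
    intro f g
    have h1 : (f * g) (i :: w).reverse = (Sh.R i (f * g)) w.reverse := by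
      rw [Sh.R_apply, List.reverse_cons]
    have h2 : (rv f * rv g) (i :: w) = Sh.L i (rv f * rv g) w := rfl
    rw [h1, h2, Sh.R_mul, Sh.L_mul, Sh.add_apply, Sh.add_apply, ih, ih, rv_R, rv_R]

/-- reversal of the words -/
def rev : Sh I ℚ →* Sh I ℚ where
  toFun := rv
  map_one' := by
    apply Sh.ext'
    intro w
    rw [rv_apply]
    cases w with
    | nil => rfl
    | cons i w =>
      rw [Sh.one_cons]
      have h : ∃ j v, (i :: w).reverse = j :: v := by
        cases hv : (i :: w).reverse with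
        | nil => simp at hv
        | cons j v => exact ⟨j, v, rfl⟩
      obtain ⟨j, v, hv⟩ := h
      rw [hv, Sh.one_cons]
  map_mul' f g := by
    apply Sh.ext'
    intro w
    exact rv_mul w f g

theorem chq_mir (X : SMod D) : X.mir.chq = rev X.chq := by
  apply Sh.ext'
  intro w
  show ((X.mir.ch w : ℕ) : ℚ) = ((X.ch w.reverse : ℕ) : ℚ)
  rw [SMod.ch_mir]

variable {D}

theorem pw_mir {C T : SMod D} {n : ℕ} (h : C.Pw n T) : C.mir.Pw n T.mir := by
  show T.mir.chq = C.mir.chq ^ n
  have h' : T.chq = C.chq ^ n := h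
  rw [chq_mir, chq_mir, h', map_pow]

theorem sr_mir {C : SMod D} (h : C.SR) : C.mir.SR := fun n => by
  obtain ⟨T, hT⟩ := h n
  exact ⟨T.mir, pw_mir hT⟩

theorem sc_mir {C S : SMod D} (h : C.SC S) : C.mir.SC S.mir := fun n => by
  obtain ⟨T, hT⟩ := h n
  refine ⟨T.mir, ?_⟩
  rw [chq_mir, chq_mir, chq_mir, hT, map_mul, map_pow]

theorem conv_congr {X X' Y Y' : SMod D} (hX : X.Iso X') (hY : Y.Iso Y') :
    Nonempty (X.conv Y ≃ₗ[KLRAlg D] X'.conv Y') := by
  have hn := SMod.n_eq_of_iso hX
  obtain ⟨f⟩ := hX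
  obtain ⟨g⟩ := hY
  refine ⟨(LinearEquiv.ofLinearMap
      (Conv.map hn f.toLinearMap g.toLinearMap)
      (Conv.map hn.symm f.symm.toLinearMap g.symm.toLinearMap) ?_ ?_)⟩
  · apply Conv.hom_ext
    intro u v
    rw [LinearMap.comp_apply, Conv.map_mk, Conv.map_mk]
    simp
  · apply Conv.hom_ext
    intro u v
    rw [LinearMap.comp_apply, Conv.map_mk, Conv.map_mk]
    simp

theorem dag_mir {C : SMod D} (h : C.Dagm) : C.mir.Dag := fun X => by
  obtain ⟨n, T, S, hT, hS, hC⟩ := h X.mir
  refine ⟨n, T.mir, S.mir, pw_mir hT, ?_, sc_mir hC⟩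
  obtain ⟨e⟩ := conv_congr (X := T.mir) (X' := T.mir) (Y := X.mir.mir) (Y' := X)
    ⟨LinearEquiv.refl _ _⟩ X.mir_mir
  exact (SMod.quo_conv_mir hS).congr (LinearEquiv.refl _ _) e

end XK4M

theorem Mo.I_K4M (h : StK4 D) : StK4m D :=
  fun Lp hB X Y C T H n hSR hDag hT hX hY =>
    SMod.iso_mir_iff.1 (h Lp hB X.mir Y.mir C.mir T.mir H.mir n (XK4M.sr_mir hSR)
      (XK4M.dag_mir hDag) (XK4M.pw_mir hT) (SMod.quo_conv_mir hX) (SMod.quo_conv_mir hY))

end Pool.Agent.KLS

end

section

/-! MP_e487d8_al, item LPHD: the simple quotients of `L(i^a) ∘ M` if `ε_i(M) = 0`. -/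

set_option autoImplicit false
set_option linter.unusedSectionVars false

open scoped TensorProduct

open Pool.Agent.E487.Hopf

namespace Pool.Agent.KLS

namespace XLPHD

variable {K I : Type} [Field K] [Fintype I] [DecidableEq I] {D : Datum K I}

/-- no word starts with `i`: no vector of `e(i) M` -/
theorem noKr {n : ℕ} {M : Type} [AddCommGroup M] [Module K M] [Module (KLRAlg D) M]
    [IsScalarTower K (KLRAlg D) M] (hM : FdMod D n M) {i : I}
    (h : ∀ ν, chr D n M (i :: ν) = 0) (x : M) (hx : IsKr D i 1 x) : x = 0 := by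
  by_contra hx0
  have := hM.fd
  obtain ⟨ν, hl, hν⟩ := exists_word hM.strand x hx0
  have he : D.e 0 i • x = x := (hx 0 (by norm_num)).1
  cases ν with
  | nil =>
    have hn : n = 0 := by simpa using hl.symm
    subst hn
    apply hx0
    rw [← he, hM.strand.zero 0 le_rfl]
  | cons j ν =>
    by_cases hj : j = i
    · subst hj
      exact (chr_ne_zero_iff hl).2 ⟨x, hν⟩ (h ν)
    · apply hν
      have h1 := D.tr_mul_shn (le_refl 1) (D.e 0 i) (D.eW ν)
      rw [D.tr_e, if_pos (by norm_num)] at h1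
      rw [← he, D.eW_cons, ← mul_smul, mul_assoc, ← h1, ← mul_assoc, D.e_mul_e_ne 0 hj, zero_mul,
        zero_smul]

end XLPHD

open XLPHD in
theorem Mo.I_LPHD {K I : Type} [Field K] [Fintype I] [DecidableEq I] (D : Datum K I) :
    StLphd D := by
  intro Lp hB i a n M _ _ _ _ hM h0 Z hZ
  obtain ⟨hb, hC⟩ := hB
  obtain ⟨v, hL⟩ := LpS_spec hb i a
  have hiso : (LpS hb i a).Iso (Lp i a) := by
    apply Sm.iso_rep hC
    funext ν
    rw [(cFacts hb).ch_Lp, hC.ch_Lp]
  have hI := hL.ind n M hM (noKr hM h0)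
  obtain ⟨f, hf⟩ := hZ
  obtain ⟨g⟩ := id hiso
  have hn : (LpS hb i a).n = a := hL.n_eq
  set f' : Conv D (LpS hb i a).n (LpS hb i a).M M →ₗ[KLRAlg D] Z.M :=
    f ∘ₗ Conv.map hn g.toLinearMap (LinearMap.id : M →ₗ[KLRAlg D] M) with hf'
  have sf' : Function.Surjective f' := by
    rw [hf', LinearMap.coe_comp]
    exact hf.comp (Conv.map_surjective hn _ _ g.surjective Function.surjective_id)
  have hZs := Z.smp.simple
  have hZn : Nontrivial Z.M := IsSimpleModule.nontrivial (KLRAlg D) Z.M
  have hG := hI.isGen.comp f' sf'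
  -- a vector
  have hex : ∃ x : M, f' (Conv.mk D (LpS hb i a).n (LpS hb i a).M M v x) ≠ 0 := by
    by_contra hne
    push Not at hne
    obtain ⟨z, hz⟩ := exists_ne (0 : Z.M)
    have h1 : z ∈ Submodule.span (KLRAlg D)
      (Set.range ((Conv.toK f').comp (Conv.mk D (LpS hb i a).n (LpS hb i a).M M v))) := by
      rw [hG.gen]; trivial
    apply hz
    have h2 : Submodule.span (KLRAlg D)
      (Set.range ((Conv.toK f').comp (Conv.mk D (LpS hb i a).n (LpS hb i a).M M v))) ≤ ⊥ := by
      rw [Submodule.span_le]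
      rintro _ ⟨x, rfl⟩
      exact hne x
    exact (Submodule.mem_bot _).1 (h2 h1)
  obtain ⟨x₀, hx₀⟩ := hex
  have heps : eps D i Z.M = a := eps_eq Z.smp.strand hx₀ ((hI.kr x₀).isEw.map f')
    (fun w hw => hI.ew_succ_quot (noKr hM h0) f' sf' hw)
  subst heps
  refine ⟨SMod.Em hb i Z, ?_, SMod.emax_self hb i Z, ?_⟩
  · let φ : M →ₗ[KLRAlg D] Kr D i (eps D i Z.M) Z.M :=
      { toFun := fun x => Kr.of (f' (Conv.mk D _ _ M v x)) ((hI.kr x).map f')
        map_add' := fun x y => by
          apply Kr.val_injective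
          rw [Kr.val_add, Kr.val_of, Kr.val_of, Kr.val_of, map_add, map_add]
        map_smul' := fun b x => by
          apply Kr.val_injective
          rw [RingHom.id_apply, Kr.val_smul, Kr.val_of, Kr.val_of, ← hI.bal, map_smul] }
    have hs : IsSimpleModule (KLRAlg D) (Kr D i (eps D i Z.M) Z.M) := Kr.simple hb Z.smp i
    have hsur : Function.Surjective φ := by
      refine LinearMap.surjective_of_ne_zero ?_
      intro hφ
      apply hx₀
      exact congrArg Kr.val (LinearMap.congr_fun hφ x₀)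
    exact ⟨φ, hsur⟩
  · exact SMod.quo_congr hiso (SMod.Iso.refl _) (SMod.Iso.refl _) (SMod.quo_self hb Z hL)

end Pool.Agent.KLS

end

section

/-! MP_e487d8_al, block MO, item MSQ: the constituents are the simple subquotients. -/

set_option autoImplicit false
set_option linter.unusedSectionVars false

open Pool.Agent.E487.Hopf

namespace Pool.Agent.KLS

variable {K I : Type} [Field K] [Fintype I] [DecidableEq I] (D : Datum K I)

theorem Mo.I_MSQ (h : StMsub D) : StMsq D := by
  intro Lp hB n M _ _ _ _ hM Z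
  constructor
  · rintro ⟨N, f, hf⟩
    have h1 := h Lp hB n M hM N
    have h2 := Sm.mult_ne_of_quo hB.2 (hM.sub N) ⟨f, hf⟩
    rw [h1, Finsupp.add_apply]
    omega
  · intro h1
    exact subQ_congr (Sm.iso_rep hB.2 (Sm.ch_rep_cls Z)) (Sm.subQ_of_mult hB.2 hM h1)

end Pool.Agent.KLS

end

section

/-! MP_e487d8_al, block MO, item MSUB: multiplicities are additive. -/

set_option autoImplicit false
set_option linter.unusedSectionVars false

open Pool.Agent.E487.Hopf

namespace Pool.Agent.KLS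

variable {K I : Type} [Field K] [Fintype I] [DecidableEq I] (D : Datum K I)

theorem Mo.I_MSUB : StMsub D := by
  intro Lp h n M _ _ _ _ hM P
  have := hM.fd
  apply Sm.mult_unique
  rw [Sm.comb_add, ← Sm.chrQ_mult, ← Sm.chrQ_mult]
  apply Sh.ext'
  intro ν
  rw [Sh.add_apply, chrQ_apply, chrQ_apply, chrQ_apply, chr_add P ν, Nat.cast_add]

end Pool.Agent.KLS

end

section

/-! MP_e487d8_al, module side, item S2. -/

set_option autoImplicit false
set_option linter.unusedSectionVars false

namespace Pool.Agent.KLS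

variable {K I : Type} [Field K] [Fintype I] [DecidableEq I] (D : Datum K I)

theorem Mo.I_S2 (hW : StSwap D) (hM : StMsub D) (hQ : StMsq D) : StS2 D := by
  intro Lp h hconv X Y T hq hq' hco
  have hF := Sm.fd_conv hconv X.rep Y.rep
  have := hF.fd
  have : IsNoetherian (KLRAlg D) (X.rep.conv Y.rep) := isNoetherian_of_tower K inferInstance
  have : IsArtinian (KLRAlg D) (X.rep.conv Y.rep) := isArtinian_of_tower K inferInstance
  have hco' : Sm.mult h.2 hF T = 1 := hco
  have hnt : Nontrivial (X.rep.conv Y.rep) := by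
    have h1 : Sm.mult h.2 hF T ≠ 0 := by rw [hco']; exact one_ne_zero
    obtain ⟨N, f, hf⟩ := Sm.subQ_of_mult h.2 hF h1
    have := T.rep.smp.simple
    have : Nontrivial T.rep.M := IsSimpleModule.nontrivial (KLRAlg D) T.rep.M
    have : Nontrivial N := hf.nontrivial
    exact N.subtype_injective.nontrivial
  by_contra hns
  obtain ⟨P, hP⟩ := (IsCoatomic.eq_top_or_exists_le_coatom
    (⊥ : Submodule (KLRAlg D) (X.rep.conv Y.rep))).resolve_left bot_ne_top
  have hPb : P ≠ ⊥ := by
    intro hb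
    refine hns ?_
    have h1 : IsSimpleModule (KLRAlg D) (X.rep.conv Y.rep ⧸ P) :=
      isSimpleModule_iff_isCoatom.2 hP.1
    exact IsSimpleModule.congr ((Submodule.quotEquivOfEqBot P hb).symm)
  let Z : SMod D := ⟨_, X.rep.conv Y.rep ⧸ P,
    ⟨hF.quot P, isSimpleModule_iff_isCoatom.2 hP.1⟩⟩
  have hZ : Z.Iso T.rep := hq Z ⟨P.mkQ, P.mkQ_surjective⟩
  have : Nontrivial P := (Submodule.nontrivial_iff_ne_bot).2 hPb
  have : IsArtinian (KLRAlg D) P := inferInstance
  obtain ⟨S, hS⟩ := IsAtomic.exists_atom (Submodule (KLRAlg D) P)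
  let Z' : SMod D := ⟨_, S, ⟨(hF.sub P).sub S, isSimpleModule_iff_isAtom.2 hS⟩⟩
  have hZs : Sub D Z'.M (X.rep.conv Y.rep) :=
    ⟨P.subtype ∘ₗ S.subtype, P.subtype_injective.comp S.subtype_injective⟩
  have hZ' : Z'.Iso T.rep := hq' Z' ((hW h.1 Lp h.2 Y.rep X.rep Z').2 hZs)
  have hcl : ∀ {V : SMod D}, V.Iso T.rep → Sm.cls V = T := by
    intro V hV
    rw [← Sm.cls_rep T]
    exact Subtype.ext (SMod.ch_iso hV)
  have h1 := DFunLike.congr_fun (hM Lp h _ _ hF P) T
  rw [Finsupp.add_apply, hco'] at h1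
  have h2 : Sm.mult h.2 (hF.sub P) T ≠ 0 := by
    rw [← hcl hZ']
    exact (hQ Lp h _ _ (hF.sub P) Z').1 ⟨S, LinearMap.id, Function.surjective_id⟩
  have h3 : Sm.mult h.2 (hF.quot P) T ≠ 0 := by
    rw [← hcl hZ]
    refine (hQ Lp h _ _ (hF.quot P) Z).1 ?_
    exact subQ_of_quo ⟨LinearMap.id, Function.surjective_id⟩
  omega

end Pool.Agent.KLS

end

section

/-! MP_e487d8_al, module side: SSUB, a simple submodule of `U ∘ C` is a submodule of `V ∘ C` for a
constituent `V` of `U`. -/

set_option autoImplicit false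
set_option linter.unusedSectionVars false

namespace Pool.Agent.KLS

variable {K I : Type} [Field K] [Fintype I] [DecidableEq I] (D : Datum K I)

namespace XSSUB

variable {D} {m : ℕ} {M N : Type}
  [AddCommGroup M] [Module K M] [Module (KLRAlg D) M] [IsScalarTower K (KLRAlg D) M]
  [AddCommGroup N] [Module K N] [Module (KLRAlg D) N] [IsScalarTower K (KLRAlg D) N]

theorem subL_top : Conv.subL m (⊤ : Submodule (KLRAlg D) M) N = ⊤ := by
  rw [eq_top_iff]
  intro z _
  induction z using Conv.induction with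
  | h0 => exact Submodule.zero_mem _
  | hadd y z hy hz => exact Submodule.add_mem _ (hy trivial) (hz trivial)
  | h a u v => exact Submodule.smul_mem _ _ (Conv.mk_mem_subL Submodule.mem_top v)

theorem subL_bot : Conv.subL m (⊥ : Submodule (KLRAlg D) M) N = ⊥ := by
  rw [eq_bot_iff, Conv.subL, Submodule.span_le]
  rintro z ⟨⟨u, hu⟩, v, rfl⟩
  rw [Submodule.mem_bot] at hu
  subst hu
  simp

theorem map_subL (P : Submodule (KLRAlg D) M) (Q : Submodule (KLRAlg D) P) :
    (Conv.subL m Q N).map (Conv.map (rfl : m = m) P.subtype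
      (LinearMap.id : N →ₗ[KLRAlg D] N)) ≤ Conv.subL m (Q.map P.subtype) N := by
  rw [Submodule.map_le_iff_le_comap, Conv.subL, Submodule.span_le]
  rintro z ⟨u, v, rfl⟩
  change Conv.map (rfl : m = m) P.subtype (LinearMap.id : N →ₗ[KLRAlg D] N)
    (Conv.mk D m P N u v) ∈ Conv.subL m (Q.map P.subtype) N
  rw [Conv.map_mk]
  exact Conv.mk_mem_subL (Submodule.mem_map_of_mem u.2) _

end XSSUB

theorem Mo.I_SSUB : StSsub D := by
  intro Lp hB n U _ _ _ _ hU C S hS
  obtain ⟨g, hg⟩ := hS
  have hb : S_basis D := hB.1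
  have hfd := hU.fd
  have hsim := S.smp.simple
  have hnt : Nontrivial S.M := IsSimpleModule.nontrivial (KLRAlg D) S.M
  have hart : IsArtinian (KLRAlg D) U := isArtinian_of_tower K inferInstance
  obtain ⟨U1, hU1, hmin⟩ := IsArtinian.set_has_minimal
    {W : Submodule (KLRAlg D) U | LinearMap.range g ≤ Conv.subL n W C.M}
    ⟨⊤, by rw [Set.mem_ofPred_eq, XSSUB.subL_top]; exact le_top⟩
  rw [Set.mem_ofPred_eq] at hU1
  have hne : U1 ≠ ⊥ := by
    intro h
    rw [h, XSSUB.subL_bot, le_bot_iff, LinearMap.range_eq_bot] at hU1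
    obtain ⟨u, hu⟩ := exists_ne (0 : S.M)
    exact hu (hg (by rw [hU1, LinearMap.zero_apply, LinearMap.zero_apply]))
  have hnt1 : Nontrivial U1 := Submodule.nontrivial_iff_ne_bot.2 hne
  have hU1' : FdMod D n U1 := hU.sub U1
  have hfd1 := hU1'.fd
  have hnoe : IsNoetherian (KLRAlg D) U1 := isNoetherian_of_tower K inferInstance
  obtain ⟨Q, hQ⟩ := IsCoatomic.exists_coatom (Submodule (KLRAlg D) U1)
  have hinc : Function.Injective (Conv.map (rfl : n = n) U1.subtype
      (LinearMap.id : C.M →ₗ[KLRAlg D] C.M)) :=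
    Conv.map_injective hb rfl hU1'.strand C.smp.strand hU.strand C.smp.strand
      _ _ U1.subtype_injective Function.injective_id
  refine ⟨⟨n, U1 ⧸ Q, ⟨hU1'.quot Q, isSimpleModule_iff_isCoatom.2 hQ⟩⟩,
    ⟨U1, Q.mkQ, Q.mkQ_surjective⟩, ?_⟩
  have hmem : ∀ u, g u ∈ LinearMap.range (Conv.map (rfl : n = n) U1.subtype
      (LinearMap.id : C.M →ₗ[KLRAlg D] C.M)) := by
    intro u
    rw [← Conv.subL_eq_range]
    exact hU1 ⟨u, rfl⟩
  obtain ⟨g', hg'⟩ : ∃ g' : S.M →ₗ[KLRAlg D] Conv D n U1 C.M, ∀ u,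
      Conv.map (rfl : n = n) U1.subtype (LinearMap.id : C.M →ₗ[KLRAlg D] C.M) (g' u) = g u := by
    refine ⟨(LinearEquiv.ofInjective _ hinc).symm.toLinearMap.comp (g.codRestrict _ hmem),
      fun u => ?_⟩
    have h := LinearEquiv.apply_symm_apply (LinearEquiv.ofInjective _ hinc)
      (g.codRestrict _ hmem u)
    exact congrArg Subtype.val h
  refine ⟨(Conv.map (rfl : n = n) Q.mkQ (LinearMap.id : C.M →ₗ[KLRAlg D] C.M)).comp g', ?_⟩
  rcases LinearMap.injective_or_eq_zero
    ((Conv.map (rfl : n = n) Q.mkQ (LinearMap.id : C.M →ₗ[KLRAlg D] C.M)).comp g') with h | h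
  · exact h
  · exfalso
    have h1 : LinearMap.range g' ≤ Conv.subL n Q C.M := by
      rw [← Submodule.ker_mkQ Q, ← Conv.ker_map_left hb C.smp.strand hU1'.strand
        (hU1'.quot Q).strand Q.mkQ]
      rw [LinearMap.range_le_ker_iff]
      exact h
    have h2 : LinearMap.range g ≤ Conv.subL n (Q.map U1.subtype) C.M := by
      rintro _ ⟨u, rfl⟩
      rw [← hg' u]
      exact XSSUB.map_subL U1 Q (Submodule.mem_map_of_mem (h1 ⟨u, rfl⟩))
    refine hmin (Q.map U1.subtype) h2 ?_
    refine lt_of_le_of_ne (Submodule.map_subtype_le U1 Q) fun h3 => hQ.1 ?_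
    rw [eq_top_iff]
    intro x _
    have h4 : (x : U) ∈ Q.map U1.subtype := by rw [h3]; exact x.2
    obtain ⟨y, hy, hyx⟩ := h4
    have : y = x := Subtype.ext hyx
    rwa [← this]

end Pool.Agent.KLS

end
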