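import Pool.Agent.Work.MP_e487d8_al.Y.Mo.Head
import Pool.Agent.Work.MP_e487d8_al.Bd.B08
import Pool.Agent.Work.MP_e487d8_al.Y.Conv.Fin
import Pool.Agent.Work.MP_e487d8_al.Bd.B26
import Pool.Agent.Work.MP_e487d8_al.Y.Mo.R1.Facts

/-! Bundle of small proof modules (one section per former module). -/

section

/-! MP_e487d8_al, module side: K1P. -/

set_option autoImplicit false
set_option linter.unusedSectionVars false

open scoped TensorProduct

namespace Pool.Agent.KLS

variable {K I : Type} [Field K] [Fintype I] [DecidableEq I] (D : Datum K I)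

namespace XK1P

section

variable {D}
variable {m m' n : ℕ} {M M' N N' P P' : Type}
  [AddCommGroup M] [Module K M] [Module (KLRAlg D) M] [IsScalarTower K (KLRAlg D) M]
  [AddCommGroup M'] [Module K M'] [Module (KLRAlg D) M'] [IsScalarTower K (KLRAlg D) M']
  [AddCommGroup N] [Module K N] [Module (KLRAlg D) N] [IsScalarTower K (KLRAlg D) N]
  [AddCommGroup N'] [Module K N'] [Module (KLRAlg D) N'] [IsScalarTower K (KLRAlg D) N']
  [AddCommGroup P] [Module K P] [Module (KLRAlg D) P] [IsScalarTower K (KLRAlg D) P]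
  [AddCommGroup P'] [Module K P'] [Module (KLRAlg D) P'] [IsScalarTower K (KLRAlg D) P']

/-- composition on both sides -/
noncomputable def cmp (f : P →ₗ[KLRAlg D] M) (g : N →ₗ[KLRAlg D] P') :
    (M →ₗ[KLRAlg D] N) →ₗ[K] (P →ₗ[KLRAlg D] P') where
  toFun h := g ∘ₗ h ∘ₗ f
  map_add' h h' := by
    ext u
    simp
  map_smul' c h := by
    ext u
    simp only [LinearMap.comp_apply, LinearMap.smul_apply, RingHom.id_apply]
    exact (Conv.toK g).map_smul c _

theorem cmp_apply (f : P →ₗ[KLRAlg D] M) (g : N →ₗ[KLRAlg D] P') (h : M →ₗ[KLRAlg D] N) :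
    cmp f g h = g ∘ₗ h ∘ₗ f := rfl

theorem cmp_injective (f : P ≃ₗ[KLRAlg D] M) (g : N ≃ₗ[KLRAlg D] P') :
    Function.Injective (cmp f.toLinearMap g.toLinearMap) := by
  intro h h' hh
  ext u
  have h1 := LinearMap.congr_fun hh (f.symm u)
  rw [cmp_apply, cmp_apply] at h1
  simp only [LinearMap.comp_apply, LinearEquiv.coe_coe, LinearEquiv.apply_symm_apply] at h1
  exact g.injective h1

variable (N N' M) in
/-- `id ∘ g` is linear in `g` -/
noncomputable def idm (m : ℕ) :
    (N →ₗ[KLRAlg D] N') →ₗ[K] (Conv D m M N →ₗ[KLRAlg D] Conv D m M N') where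
  toFun g := Conv.map (rfl : m = m) LinearMap.id g
  map_add' g g' := by
    apply Conv.hom_ext
    intro u v
    rw [LinearMap.add_apply, Conv.map_mk, Conv.map_mk, Conv.map_mk, LinearMap.add_apply, map_add]
  map_smul' c g := by
    apply Conv.hom_ext
    intro u v
    rw [RingHom.id_apply, LinearMap.smul_apply, Conv.map_mk, Conv.map_mk, LinearMap.smul_apply,
      map_smul]

theorem idm_apply (m : ℕ) (g : N →ₗ[KLRAlg D] N') :
    idm M N N' m g = Conv.map (rfl : m = m) LinearMap.id g := rfl

theorem idm_injective (hb : S_basis D) (hM : IsStrand D m M) (hN' : IsStrand D n N')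
    [Nontrivial M] : Function.Injective (idm (D := D) M N N' m) := by
  rw [injective_iff_map_eq_zero]
  intro g hg
  ext v
  obtain ⟨u, hu⟩ := exists_ne (0 : M)
  have h1 := LinearMap.congr_fun hg (Conv.mk D m M N u v)
  rw [idm_apply, Conv.map_mk, LinearMap.zero_apply, LinearMap.id_apply] at h1
  rw [LinearMap.zero_apply]
  exact (Conv.mk_eq_zero hb hM hN' h1).resolve_left hu

/-- an isomorphism in the first factor -/
noncomputable def eqL (h : m = m') (f : M ≃ₗ[KLRAlg D] M') :
    Conv D m M N ≃ₗ[KLRAlg D] Conv D m' M' N :=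
  LinearEquiv.ofLinearMap (Conv.map h f.toLinearMap LinearMap.id)
    (Conv.map h.symm f.symm.toLinearMap LinearMap.id)
    (by apply Conv.hom_ext; intro u v; simp)
    (by apply Conv.hom_ext; intro u v; simp)

theorem st_unique {n m : ℕ} {M : Type} [AddCommGroup M] [Module (KLRAlg D) M] [Nontrivial M]
    (h : IsStrand D n M) (h' : IsStrand D m M) : n = m := by
  obtain ⟨u, hu⟩ := exists_ne (0 : M)
  rcases lt_trichotomy n m with h1 | h1 | h1
  · exact absurd ((h'.one n h1 u).symm.trans (h.E_smul_zero le_rfl u)) hu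
  · exact h1
  · exact absurd ((h.one m h1 u).symm.trans (h'.E_smul_zero le_rfl u)) hu

theorem st_surj {n : ℕ} {M N : Type} [AddCommGroup M] [Module (KLRAlg D) M]
    [AddCommGroup N] [Module (KLRAlg D) N] (h : IsStrand D n M) (f : M →ₗ[KLRAlg D] N)
    (hf : Function.Surjective f) : IsStrand D n N where
  one k hk u := by
    obtain ⟨u, rfl⟩ := hf u
    rw [← map_smul, h.one k hk]
  zero k hk i u := by
    obtain ⟨u, rfl⟩ := hf u
    rw [← map_smul, h.zero k hk, map_zero]

theorem st_inj {n : ℕ} {M N : Type} [AddCommGroup M] [Module (KLRAlg D) M]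
    [AddCommGroup N] [Module (KLRAlg D) N] (h : IsStrand D n N) (f : M →ₗ[KLRAlg D] N)
    (hf : Function.Injective f) : IsStrand D n M where
  one k hk u := by
    apply hf
    rw [map_smul, h.one k hk]
  zero k hk i u := by
    apply hf
    rw [map_smul, h.zero k hk, map_zero]

theorem nontriv (X : SMod D) : Nontrivial X.M := by
  have := X.smp.simple
  exact IsSimpleModule.nontrivial (KLRAlg D) X.M

theorem conv_nontriv (hb : S_basis D) (X Y : SMod D) : Nontrivial (X.conv Y) := by
  have := nontriv X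
  have := nontriv Y
  obtain ⟨u, hu⟩ := exists_ne (0 : X.M)
  obtain ⟨v, hv⟩ := exists_ne (0 : Y.M)
  refine ⟨⟨Conv.mk D X.n X.M Y.M u v, 0, fun h => ?_⟩⟩
  exact (Conv.mk_eq_zero hb X.smp.strand Y.smp.strand h).elim hu hv

end

end XK1P

open XK1P in
theorem Mo.I_K1P (h : StK0n D) : StK1p D := by
  rintro hb B S P X Q R G Y ⟨e1⟩ ⟨p, hp⟩ ⟨e2⟩
  have := nontriv S
  have := nontriv P
  have := nontriv Y
  have := nontriv Q
  have := nontriv G
  have hq : X.n + B.n = S.n :=
    st_unique (M := S.M) (st_surj (Conv.isStrand X.smp.strand B.smp.strand) p hp) S.smp.strand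
  have hP : Q.n + S.n = P.n :=
    st_unique (M := P.M) (st_surj (Conv.isStrand Q.smp.strand S.smp.strand) e1.toLinearMap
      e1.surjective) P.smp.strand
  have hY : Q.n + X.n = Y.n :=
    st_unique (M := Y.M) (st_surj (Conv.isStrand Q.smp.strand X.smp.strand) e2.toLinearMap
      e2.surjective) Y.smp.strand
  -- the inner composite
  let φ : (G.M →ₗ[KLRAlg D] B.conv R) →ₗ[K] (Conv D X.n X.M G.M →ₗ[KLRAlg D] Conv D S.n S.M R.M) :=
    (cmp (LinearMap.id : Conv D X.n X.M G.M →ₗ[KLRAlg D] _)
      ((Conv.map hq p (LinearMap.id : R.M →ₗ[KLRAlg D] R.M)) ∘ₗ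
        (Conv.assoc D X.n B.n X.M B.M R.M).symm.toLinearMap)).comp
      (idm (D := D) X.M G.M (B.conv R) X.n)
  have hφ : Function.Injective φ := by
    rw [injective_iff_map_eq_zero]
    intro g hg
    by_contra hg0
    have hinj : Function.Injective g := by
      have := G.smp.simple
      exact (LinearMap.injective_or_eq_zero g).resolve_right hg0
    have hG : G.n = B.n + R.n := st_unique (M := G.M) G.smp.strand
      (st_inj (Conv.isStrand B.smp.strand R.smp.strand) g hinj)
    have hp0 : p ≠ 0 := by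
      intro h0
      obtain ⟨s, hs⟩ := exists_ne (0 : S.M)
      obtain ⟨z, rfl⟩ := hp s
      exact hs (by rw [h0]; rfl)
    refine h hb X.n R.n B.n G.n S.n G.M R.M B.M X.M S.M G.smp.strand R.smp.strand B.smp.strand
      X.smp.strand S.smp.strand hG hq B.smp.simple g p hg0 hp0 ?_
    exact hg
  -- the outer composite
  let α : Conv D Y.n Y.M G.M ≃ₗ[KLRAlg D] Conv D Q.n Q.M (Conv D X.n X.M G.M) :=
    (eqL (N := G.M) hY.symm e2.symm).trans (Conv.assoc D Q.n X.n Q.M X.M G.M)
  let β : Conv D Q.n Q.M (Conv D S.n S.M R.M) ≃ₗ[KLRAlg D] Conv D P.n P.M R.M :=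
    (Conv.assoc D Q.n S.n Q.M S.M R.M).symm.trans (eqL (N := R.M) hP e1)
  refine ⟨(cmp α.toLinearMap β.toLinearMap).comp
    ((idm (D := D) Q.M (Conv D X.n X.M G.M) (Conv D S.n S.M R.M) Q.n).comp φ), ?_⟩
  rw [LinearMap.coe_comp, LinearMap.coe_comp]
  exact (cmp_injective α β).comp ((idm_injective hb Q.smp.strand
    (Conv.isStrand S.smp.strand R.smp.strand)).comp hφ)

end Pool.Agent.KLS

end

section

/-! MP_e487d8_al, RMAT block: the contract `LFacts`. -/

set_option autoImplicit false

namespace Pool.Agent.KLS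

variable {K I : Type} [Field K] [Fintype I] [DecidableEq I] {D : Datum K I}

/-- the contract `LFacts` -/
theorem lFacts (hb : S_basis D) : LFacts D (sOrd (D := D)) SMod.sOrd' where
  eps := sOrd_eps hb
  eps' i C X a μ hCi h1 h2 := by
    rw [← X.wt_mir i]
    refine sOrd_eps hb i C.mir X.mir a μ.reverse ?_ ?_ fun ν => ?_
    · rwa [SMod.ch_mir, List.reverse_singleton]
    · rwa [SMod.ch_mir, List.reverse_append, List.reverse_replicate, List.reverse_reverse]
    · rw [SMod.ch_mir, List.reverse_append, List.reverse_replicate]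
      exact h2 _

end Pool.Agent.KLS

end
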