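import Pool.Agent.Work.MP_e487d8_al.Bd.B28
import Pool.Agent.Work.MP_e487d8_al.Bd.B16
import Pool.Agent.Work.MP_e487d8_al.Y.Fin.Crys

/-! Bundle of small proof modules (one section per former module). -/

section

/-! MP_e487d8_al, module side: K1E. -/

set_option autoImplicit false
set_option linter.unusedSectionVars false

open scoped TensorProduct

open Pool.Agent.E487.Hopf

namespace Pool.Agent.KLS

variable {K I : Type} [Field K] [Fintype I] [DecidableEq I] (D : Datum K I)

namespace XK1E

section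

variable {D}
variable {m m' n : ℕ} {M M' N N' : Type}
  [AddCommGroup M] [Module K M] [Module (KLRAlg D) M] [IsScalarTower K (KLRAlg D) M]
  [AddCommGroup M'] [Module K M'] [Module (KLRAlg D) M'] [IsScalarTower K (KLRAlg D) M']
  [AddCommGroup N] [Module K N] [Module (KLRAlg D) N] [IsScalarTower K (KLRAlg D) N]
  [AddCommGroup N'] [Module K N'] [Module (KLRAlg D) N'] [IsScalarTower K (KLRAlg D) N']

variable (M M' N) in
/-- `g ∘ id` is linear in `g` -/
noncomputable def mid (h : m = m') :
    (M →ₗ[KLRAlg D] M') →ₗ[K] (Conv D m M N →ₗ[KLRAlg D] Conv D m' M' N) where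
  toFun g := Conv.map h g LinearMap.id
  map_add' g g' := by
    apply Conv.hom_ext
    intro u v
    rw [LinearMap.add_apply, Conv.map_mk, Conv.map_mk, Conv.map_mk, LinearMap.add_apply, map_add,
      LinearMap.add_apply]
  map_smul' c g := by
    apply Conv.hom_ext
    intro u v
    rw [RingHom.id_apply, LinearMap.smul_apply, Conv.map_mk, Conv.map_mk, LinearMap.smul_apply,
      map_smul, LinearMap.smul_apply]

theorem mid_apply (h : m = m') (g : M →ₗ[KLRAlg D] M') :
    mid M M' N h g = Conv.map h g LinearMap.id := rfl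

/-- an isomorphism in the second factor -/
noncomputable def eqR (f : N ≃ₗ[KLRAlg D] N') :
    Conv D m M N ≃ₗ[KLRAlg D] Conv D m M N' :=
  LinearEquiv.ofLinearMap (Conv.map (rfl : m = m) LinearMap.id f.toLinearMap)
    (Conv.map (rfl : m = m) LinearMap.id f.symm.toLinearMap)
    (by apply Conv.hom_ext; intro u v; simp)
    (by apply Conv.hom_ext; intro u v; simp)

theorem conv_of_basis (hb : S_basis D) : S_conv D :=
  fun _ _ _ _ _ _ _ _ _ _ _ _ hM hN => Conv.fdMod_chrQ hb hM hN

theorem fin_conv (hb : S_basis D) (X Y : SMod D) : FiniteDimensional K (X.conv Y) := by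
  have := X.smp.fd
  have := Y.smp.fd
  exact Conv.finiteDimensional hb X.smp.strand Y.smp.strand

end

end XK1E

open XK1P XK1E in
theorem Mo.I_K1E (hW : StSwap D) (h0 : StK0n D) (hD : StK1d D) : StK1e D := by
  intro Lp h B C T m hSR hDag hT
  have hb := h.1
  have hconv := conv_of_basis (D := D) hb
  obtain ⟨n, Tn, S, hTn, hQ, hSC⟩ := hDag B
  obtain ⟨ι, hι⟩ := (hW hb Lp h.2 Tn B S).1 hQ
  obtain ⟨P, hP⟩ := hSC m
  obtain ⟨R, hR⟩ := hSR (m + n)
  have hle := hD Lp h B C S Tn n hSR hTn hQ hSC m P R hP hR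
  obtain ⟨e1⟩ : Nonempty (T.conv S ≃ₗ[KLRAlg D] P.M) :=
    Sm.iso_conv' h.2 hconv (by rw [hP]; congr 1)
  obtain ⟨e2⟩ : Nonempty (T.conv Tn ≃ₗ[KLRAlg D] R.M) :=
    Sm.iso_conv' h.2 hconv (by
      have h1 : T.chq = C.chq ^ m := hT
      have h2 : Tn.chq = C.chq ^ n := hTn
      have h3 : R.chq = C.chq ^ (m + n) := hR
      rw [h1, h2, h3, pow_add])
  have := nontriv S
  have hSn : S.n = B.n + Tn.n := st_unique (M := S.M) S.smp.strand
    (st_inj (Conv.isStrand B.smp.strand Tn.smp.strand) ι hι)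
  have hι0 : ι ≠ 0 := by
    intro h1
    obtain ⟨s, hs⟩ := exists_ne (0 : S.M)
    exact hs (hι (by rw [map_zero, h1]; rfl))
  have hq : T.n + B.n = B.n + T.n := add_comm _ _
  -- the inner composite
  let φ : (T.conv B →ₗ[KLRAlg D] B.conv T) →ₗ[K]
      (Conv D T.n T.M S.M →ₗ[KLRAlg D] Conv D (B.n + T.n) (B.conv T) Tn.M) :=
    (cmp ((Conv.assoc D T.n B.n T.M B.M Tn.M).symm.toLinearMap ∘ₗ
      (Conv.map (rfl : T.n = T.n) (LinearMap.id : T.M →ₗ[KLRAlg D] T.M) ι))
      (LinearMap.id : Conv D (B.n + T.n) (B.conv T) Tn.M →ₗ[KLRAlg D] _)).comp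
      (mid (T.conv B) (B.conv T) Tn.M hq)
  have hφ : Function.Injective φ := by
    rw [injective_iff_map_eq_zero]
    intro g hg
    by_contra hg0
    exact h0 hb T.n Tn.n B.n S.n (B.n + T.n) S.M Tn.M B.M T.M (B.conv T) S.smp.strand
      Tn.smp.strand B.smp.strand T.smp.strand (Conv.isStrand B.smp.strand T.smp.strand) hSn hq
      B.smp.simple ι g hι0 hg0 hg
  let β : Conv D (B.n + T.n) (B.conv T) Tn.M ≃ₗ[KLRAlg D] Conv D B.n B.M R.M :=
    (Conv.assoc D B.n T.n B.M T.M Tn.M).trans (eqR (M := B.M) e2)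
  have h5 : Function.Injective ((cmp e1.symm.toLinearMap β.toLinearMap).comp φ) := by
    rw [LinearMap.coe_comp]
    exact (cmp_injective e1.symm β).comp hφ
  have := P.smp.fd
  have := fin_conv hb B R
  have hf : FiniteDimensional K (P.M →ₗ[KLRAlg D] B.conv R) := homFin
  exact (LinearMap.finrank_le_finrank_of_injective h5).trans hle

end Pool.Agent.KLS

end

section

/-! MP_e487d8_al, one strand: the crystal of the simple modules, from the R-matrices of `L(i)`. -/

set_option autoImplicit false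

open Pool.Agent.E487.Hopf Pool.Agent.Work.MP_e487d8_al

namespace Pool.Agent.KLS

variable {K I : Type} [Field K] [Fintype I] [DecidableEq I] {D : Datum K I}

namespace Sm

variable {Lp : I → ℕ → SMod D} (hC : CFacts D Lp) (hconv : S_conv D)
  {s s' : SMod D → SMod D → ℕ} (hR : RFacts1 D s s') (hL : LFacts D s s')

include hC in
theorem n_lt (i : I) : (lt Lp i).rep.n = 1 := by
  have h : (lt Lp i).rep.ch [i] ≠ 0 := by rw [ch_rep, lt_apply hC]; simp
  exact (SMod.ch_length _ h).symm

include hC in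
theorem dd_lt_self (i : I) : (SMod.dd (lt Lp i).rep (lt Lp i).rep : ℤ) = 0 := by
  rw [dd_lt hC]
  have h7 : pr i (lt Lp i) = 2 := by
    unfold pr
    have h8 : ∀ j, D.A i j * (wt (lt Lp i) j : ℤ) = if i = j then D.A i j else 0 := by
      intro j
      rw [wt_lt hC]
      split_ifs <;> simp
    rw [Finset.sum_congr rfl fun j _ => h8 j, Finset.sum_ite_eq Finset.univ i,
      if_pos (Finset.mem_univ _), D.diag]
  rw [h7, wt_lt hC, if_pos rfl]
  norm_num

include hC hR in
theorem s_lt_self (i : I) : s (lt Lp i).rep (lt Lp i).rep = 0 := by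
  have h1 := hR.le (lt Lp i).rep (lt Lp i).rep (n_lt hC i)
  have h2 := dd_lt_self hC i
  have h3 : SMod.dd (lt Lp i).rep (lt Lp i).rep = 0 := by exact_mod_cast h2
  omega

include hC hR in
theorem s'_lt_self (i : I) : s' (lt Lp i).rep (lt Lp i).rep = 0 := by
  have h1 := hR.le (lt Lp i).rep (lt Lp i).rep (n_lt hC i)
  have h2 := dd_lt_self hC i
  have h3 : SMod.dd (lt Lp i).rep (lt Lp i).rep = 0 := by exact_mod_cast h2
  omega

include hC hR hL in
/-- `d_i(X) = ε_i(X) + ε*_i(X) - ⟨h_i, wt X⟩` is nonnegative -/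
theorem d_nonneg1 (i : I) (X : Sm D) : pr i X ≤ (eps hC i X : ℤ) + epss i X := by
  have h1 := hR.le (lt Lp i).rep X.rep (n_lt hC i)
  have h2 := dd_lt hC i X
  have h3 := s_lt hC hL i X
  have h4 := s'_lt hC hL i X
  have h1' : (s (lt Lp i).rep X.rep : ℤ) + s' (lt Lp i).rep X.rep ≤
    SMod.dd (lt Lp i).rep X.rep := by exact_mod_cast h1
  have h3' : (s (lt Lp i).rep X.rep : ℤ) + eps hC i X = wt X i := by exact_mod_cast h3
  have h4' : (s' (lt Lp i).rep X.rep : ℤ) + epss i X = wt X i := by exact_mod_cast h4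
  linarith

include hR in
/-- the orders at the constituents of `X ∘ L(i)` different from the head -/
theorem s'_of_not_comm (i : I) (X : Sm D) (hnc : ¬ (lt Lp i).rep.Comm X.rep) :
    s' (lt Lp i).rep X.rep < s' (lt Lp i).rep (f hC hconv i X).rep := by
  classical
  have hr := real_lt hC hconv i
  have hn := n_lt hC i
  have hco : co hC hconv (lt Lp i) X (f hC hconv i X) ≠ 0 := by
    have h5 := mult_ne_of_quo hC (fd_conv hconv (lt Lp i).rep X.rep) (f_quo hC hconv i X)
    rw [cls_rep] at h5
    exact h5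
  obtain ⟨H, g, hg, h2, h3⟩ := hR.hd' (lt Lp i).rep X.rep hn hr
  have hfd := fd_conv hconv X.rep (lt Lp i).rep
  have hm : co hC hconv (lt Lp i) X = mult hC (hfd.sub (LinearMap.ker g)) +
      Finsupp.single (cls H) 1 := by
    rw [co_comm]
    exact mult_quo hC hfd g hg
  have hne : f hC hconv i X ≠ cls H := by
    intro he
    have h5 : Quo D (cls H).rep.M (X.rep.conv (lt Lp i).rep) :=
      quo_congr' (iso_rep hC (ch_rep_cls _)).symm ⟨g, hg⟩
    rw [← he] at h5
    exact hnc (hR.simple _ _ _ hn hr (f_quo hC hconv i X) h5)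
  have h5 : mult hC (hfd.sub (LinearMap.ker g)) (f hC hconv i X) ≠ 0 := by
    rw [hm, Finsupp.add_apply, Finsupp.single_apply, if_neg (Ne.symm hne), add_zero] at hco
    exact hco
  have h6 := h3 (f hC hconv i X).rep (subQ_of_mult hC (hfd.sub (LinearMap.ker g)) h5)
  rw [s'_lt_self hC hR, zero_add] at h6
  exact h6

include hR hL in
theorem epss_f_of_not_comm (i : I) (X : Sm D) (hnc : ¬ (lt Lp i).rep.Comm X.rep) :
    epss i (f hC hconv i X) ≤ epss i X := by
  have h5 := s'_of_not_comm hC hconv hR i X hnc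
  have h4 := s'_lt hC hL i X
  have h7 := s'_lt hC hL i (f hC hconv i X)
  have h8 : wt (f hC hconv i X) i = wt X i + 1 := by
    rw [wt_f, Finsupp.add_apply, Finsupp.single_eq_same]
  omega

include hC hconv hR hL in
/-- `L(i) ∘ X` is simple if and only if `d_i(X) = 0` -/
theorem comm_lt_iff (i : I) (X : Sm D) : (lt Lp i).rep.Comm X.rep ↔
    (eps hC i X : ℤ) + epss i X = pr i X := by
  have hr := real_lt hC hconv i
  have hn := n_lt hC i
  have h2 := dd_lt hC i X
  have h3 := s_lt hC hL i X
  have h4 := s'_lt hC hL i X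
  have h3' : (s (lt Lp i).rep X.rep : ℤ) + eps hC i X = wt X i := by exact_mod_cast h3
  have h4' : (s' (lt Lp i).rep X.rep : ℤ) + epss i X = wt X i := by exact_mod_cast h4
  constructor
  · intro hc
    have h1 := hR.comm (lt Lp i).rep X.rep hn hc
    have h1' : (s (lt Lp i).rep X.rep : ℤ) + s' (lt Lp i).rep X.rep =
      SMod.dd (lt Lp i).rep X.rep := by exact_mod_cast h1
    linarith
  · intro he
    by_contra hnc
    have h5 := s'_of_not_comm hC hconv hR i X hnc
    have hq := f_quo hC hconv i X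
    have h6 := hR.sub (lt Lp i).rep (lt Lp i).rep X.rep (f hC hconv i X).rep hn
      (subQ_of_quo hq)
    rw [s_lt_self hC hR, zero_add] at h6
    have h7 := hR.le (lt Lp i).rep (f hC hconv i X).rep hn
    have hco : co hC hconv (lt Lp i) X (f hC hconv i X) ≠ 0 := by
      have h5 := mult_ne_of_quo hC (fd_conv hconv (lt Lp i).rep X.rep) (f_quo hC hconv i X)
      rw [cls_rep] at h5
      exact h5
    have h8 := dd_co hC hconv (lt Lp i) hco
    have h9 := dd_lt_self hC i
    have h10 : SMod.dd (lt Lp i).rep (lt Lp i).rep = 0 := by exact_mod_cast h9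
    have h11 : (s (lt Lp i).rep X.rep : ℤ) + s' (lt Lp i).rep X.rep <
        SMod.dd (lt Lp i).rep X.rep := by
      have : s (lt Lp i).rep X.rep + s' (lt Lp i).rep X.rep < SMod.dd (lt Lp i).rep X.rep := by
        omega
      exact_mod_cast this
    linarith

include hR hL in
theorem epss_f_lt1 (i : I) (X : Sm D) (h : pr i X < (eps hC i X : ℤ) + epss i X) :
    epss i (f hC hconv i X) ≤ epss i X := by
  refine epss_f_of_not_comm hC hconv hR hL i X fun hc => ?_
  rw [comm_lt_iff hC hconv hR hL i X] at hc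
  omega

/-- the crystal -/
noncomputable def crys1 : Span.CrysData I D.A where
  S := Sm D
  one := one D
  wt := wtz
  eps := eps hC
  epss := epss
  f := f hC hconv
  e := e hC hconv
  wt_one := by
    ext j
    rw [wtz_apply, wt_one]
    rfl
  wt_nonneg X := by
    intro j
    rw [wtz_apply]
    exact Int.natCast_nonneg _
  epss_one := epss_one
  wt_f i X := by
    ext j
    rw [Finsupp.add_apply, wtz_apply, wtz_apply, wt_f, Finsupp.add_apply, Span.al,
      Finsupp.single_apply, Finsupp.single_apply]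
    push_cast
    rfl
  f_e i X h := f_e hC hconv h
  eps_f i X := (f_spec hC hconv i X).1
  e_f i X := e_f hC hconv i X
  epss_f i X := by
    have h := epss_f_aux hC hconv i i X
    rwa [if_pos rfl] at h
  epss_f_ne i j X h := by
    have h' := epss_f_aux hC hconv i j X
    rwa [if_neg h, add_zero] at h'
  epss_e i j X h := epss_e hC hconv j h
  d_nonneg i X := by
    rw [pair_wtz]
    exact d_nonneg1 hC hR hL i X
  epss_f_lt i X h := by
    rw [pair_wtz] at h
    exact epss_f_lt1 hC hconv hR hL i X h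

theorem crys1_emax (i : I) (X : Sm D) :
    (crys1 hC hconv hR hL).emax i X = E hC i X := emax_eq hC hconv i _ X rfl

end Sm

end Pool.Agent.KLS

end
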