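import Pool.Agent.Work.MP_e487d8_al.Y.In.Defs

/-! Bundle of small proof modules (one section per former module). -/

section

/-! MP_e487d8_al, item CHI: the character `dim M / (ht M)!` of the Grothendieck ring. -/

set_option autoImplicit false

open Pool.Agent.E487.Hopf Pool.Agent.KLSAbs

namespace Pool.Agent.KLS

namespace In

namespace XICHI

section sh

variable {I : Type} [Fintype I]

/-- the sum of the values on the words of length `n`, divided by `n!` -/
noncomputable def s : ℕ → Sh I ℚ →ₗ[ℚ] ℚ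
  | 0 => { toFun := fun f => f []
           map_add' := fun _ _ => rfl
           map_smul' := fun _ _ => rfl }
  | n + 1 => ((n : ℚ) + 1)⁻¹ • ∑ i : I, (s n).comp (Sh.L i)

theorem s_zero_apply (f : Sh I ℚ) : s 0 f = f [] := rfl

theorem s_succ_apply (n : ℕ) (f : Sh I ℚ) :
    s (n + 1) f = ((n : ℚ) + 1)⁻¹ * ∑ i : I, s n (Sh.L i f) := by
  rw [s, LinearMap.smul_apply, LinearMap.sum_apply, smul_eq_mul]
  rfl

theorem s_succ_mul (n : ℕ) (f : Sh I ℚ) :
    ((n : ℚ) + 1) * s (n + 1) f = ∑ i : I, s n (Sh.L i f) := by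
  rw [s_succ_apply, ← mul_assoc, mul_inv_cancel₀ (by positivity), one_mul]

theorem s_mul (n : ℕ) : ∀ f g : Sh I ℚ,
    s n (f * g) = ∑ p ∈ Finset.HasAntidiagonal.antidiagonal n, s p.1 f * s p.2 g := by
  induction n with
  | zero =>
    intro f g
    rw [Finset.Nat.antidiagonal_zero, Finset.sum_singleton]
    rfl
  | succ n ih =>
    intro f g
    have hn : ((n : ℚ) + 1) ≠ 0 := by positivity
    apply mul_left_cancel₀ hn
    rw [s_succ_mul]
    have h1 : ∀ i : I, s n (Sh.L i (f * g)) =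
        (∑ p ∈ Finset.HasAntidiagonal.antidiagonal n, s p.1 (Sh.L i f) * s p.2 g) +
        ∑ p ∈ Finset.HasAntidiagonal.antidiagonal n, s p.1 f * s p.2 (Sh.L i g) := by
      intro i
      rw [Sh.L_mul, map_add, ih, ih]
    rw [Finset.sum_congr rfl fun i _ => h1 i, Finset.sum_add_distrib]
    have h2 : ∑ i : I, ∑ p ∈ Finset.HasAntidiagonal.antidiagonal n, s p.1 (Sh.L i f) * s p.2 g =
        ∑ p ∈ Finset.HasAntidiagonal.antidiagonal n, ((p.1 : ℚ) + 1) * s (p.1 + 1) f * s p.2 g := by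
      rw [Finset.sum_comm]
      refine Finset.sum_congr rfl fun p _ => ?_
      rw [← Finset.sum_mul, s_succ_mul]
    have h3 : ∑ i : I, ∑ p ∈ Finset.HasAntidiagonal.antidiagonal n, s p.1 f * s p.2 (Sh.L i g) =
        ∑ p ∈ Finset.HasAntidiagonal.antidiagonal n, s p.1 f * (((p.2 : ℚ) + 1) * s (p.2 + 1) g) := by
      rw [Finset.sum_comm]
      refine Finset.sum_congr rfl fun p _ => ?_
      rw [← Finset.mul_sum, s_succ_mul]
    rw [h2, h3]
    have h4 : ((n : ℚ) + 1) * ∑ p ∈ Finset.HasAntidiagonal.antidiagonal (n + 1), s p.1 f * s p.2 g =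
        (∑ p ∈ Finset.HasAntidiagonal.antidiagonal (n + 1), (p.1 : ℚ) * s p.1 f * s p.2 g) +
        ∑ p ∈ Finset.HasAntidiagonal.antidiagonal (n + 1), s p.1 f * ((p.2 : ℚ) * s p.2 g) := by
      rw [Finset.mul_sum, ← Finset.sum_add_distrib]
      refine Finset.sum_congr rfl fun p hp => ?_
      have h5 : ((p.1 : ℚ) + (p.2 : ℚ)) = (n : ℚ) + 1 := by
        have := Finset.HasAntidiagonal.mem_antidiagonal.1 hp
        exact_mod_cast this
      rw [← h5]
      ring
    rw [h4, Finset.Nat.sum_antidiagonal_succ, Finset.Nat.sum_antidiagonal_succ']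
    simp only [Nat.cast_zero, zero_mul, mul_zero, zero_add, Nat.cast_add, Nat.cast_one]

theorem s_eq_zero (n : ℕ) : ∀ f : Sh I ℚ, (∀ w : List I, w.length = n → f w = 0) → s n f = 0 := by
  induction n with
  | zero => intro f hf; exact hf [] rfl
  | succ n ih =>
    intro f hf
    rw [s_succ_apply, Finset.sum_eq_zero, mul_zero]
    intro i _
    refine ih _ fun w hw => ?_
    rw [Sh.L_apply]
    exact hf _ (by rw [List.length_cons, hw])

theorem s_of_hom {m n : ℕ} {f : Sh I ℚ} (h : Sh.Hom m f) (hmn : n ≠ m) : s n f = 0 := by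
  refine s_eq_zero n f fun w hw => ?_
  by_contra h1
  exact hmn (hw.symm.trans (h w h1))

theorem s_nonneg (n : ℕ) : ∀ f : Sh I ℚ, (∀ w : List I, 0 ≤ f w) → 0 ≤ s n f := by
  induction n with
  | zero => intro f hf; exact hf []
  | succ n ih =>
    intro f hf
    rw [s_succ_apply]
    refine mul_nonneg (by positivity) (Finset.sum_nonneg fun i _ => ih _ fun w => ?_)
    exact hf _

theorem s_pos (n : ℕ) : ∀ f : Sh I ℚ, (∀ w : List I, 0 ≤ f w) →
    (∃ w : List I, w.length = n ∧ f w ≠ 0) → 0 < s n f := by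
  induction n with
  | zero =>
    rintro f hf ⟨w, hw, h⟩
    rw [List.length_eq_zero_iff] at hw
    subst hw
    exact lt_of_le_of_ne (hf []) (Ne.symm h)
  | succ n ih =>
    rintro f hf ⟨w, hw, h⟩
    rw [s_succ_apply]
    cases w with
    | nil => simp at hw
    | cons i w =>
      refine mul_pos (by positivity) ?_
      refine Finset.sum_pos' (fun j _ => s_nonneg n _ fun w => hf _) ⟨i, Finset.mem_univ i, ?_⟩
      refine ih _ (fun w => hf _) ⟨w, ?_, h⟩
      simpa using hw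

theorem s_hom_mul {a b : ℕ} {f g : Sh I ℚ} (hf : Sh.Hom a f) (_hg : Sh.Hom b g) :
    s (a + b) (f * g) = s a f * s b g := by
  rw [s_mul, Finset.sum_eq_single (a, b)]
  · rintro ⟨k, l⟩ hp hne
    have h1 : k + l = a + b := Finset.HasAntidiagonal.mem_antidiagonal.1 hp
    by_cases h2 : k = a
    · exfalso
      apply hne
      subst h2
      have h3 : l = b := by omega
      rw [h3]
    · show s k f * s l g = 0
      rw [s_of_hom hf h2, zero_mul]
  · intro h
    have h1 : ((a, b) : ℕ × ℕ) ∈ Finset.HasAntidiagonal.antidiagonal (a + b) :=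
      Finset.HasAntidiagonal.mem_antidiagonal.2 (show a + b = a + b from rfl)
    exact absurd h1 h

end sh

variable {K I : Type} [Field K] [Fintype I] [DecidableEq I] {D : Datum K I}

variable {Lp : I → ℕ → SMod D} (hC : CFacts D Lp) (hconv : S_conv D)

theorem len_co {X Y Z : Sm D} (h : Sm.co hC hconv X Y Z ≠ 0) : Z.len = X.len + Y.len := by
  obtain ⟨ν, hν⟩ := Z.exists_ne
  obtain ⟨u, v, h1, h2, h3⟩ := Sm.sh_of_co hC hconv h hν
  rw [← Sm.length_of_ne hν, ← Sm.length_of_ne h2, ← Sm.length_of_ne h3, h1.length]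

/-- the linear form -/
noncomputable def chiL : Sm.Gr hC hconv →ₗ[ℚ] ℚ :=
  (b hC hconv).constr ℚ fun X => s X.len (Sm.chq X)

theorem chiL_basis (X : Sm D) : chiL hC hconv (b hC hconv X) = s X.len (Sm.chq X) := by
  rw [chiL, Module.Basis.constr_basis]

theorem b_coe (X : Sm D) : ((b hC hconv X : Sm.Gr hC hconv) : Sh I ℚ) = Sm.chq X := by
  show ((Sm.bas hC hconv X : Sm.Gr hC hconv) : Sh I ℚ) = Sm.chq X
  rw [Sm.bas_apply]
  rfl

theorem b_mul (X Y : Sm D) : b hC hconv X * b hC hconv Y =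
    (Sm.co hC hconv X Y).sum fun Z k => (k : ℚ) • b hC hconv Z := by
  apply Subtype.ext
  have h1 : (((Sm.co hC hconv X Y).sum fun Z k => (k : ℚ) • b hC hconv Z : Sm.Gr hC hconv) :
      Sh I ℚ) = (Sm.co hC hconv X Y).sum fun Z k => (k : ℚ) • Sm.chq Z := by
    rw [Finsupp.sum, Finsupp.sum]
    show (Sm.Gr hC hconv).val.toLinearMap _ = _
    rw [map_sum]
    refine Finset.sum_congr rfl fun Z _ => ?_
    rw [map_smul]
    congr 1
    exact b_coe hC hconv Z
  rw [h1, ← Sm.comb_eq, ← Sm.chq_mul]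
  show (b hC hconv X : Sh I ℚ) * (b hC hconv Y : Sh I ℚ) = _
  rw [b_coe, b_coe]

theorem chiL_mul_basis (X Y : Sm D) : chiL hC hconv (b hC hconv X * b hC hconv Y) =
    chiL hC hconv (b hC hconv X) * chiL hC hconv (b hC hconv Y) := by
  rw [chiL_basis, chiL_basis, ← s_hom_mul (Sm.hom_chq X) (Sm.hom_chq Y), b_mul,
    Sm.chq_mul hC hconv, Sm.comb_eq, Finsupp.sum, Finsupp.sum, map_sum, map_sum]
  refine Finset.sum_congr rfl fun Z hZ => ?_
  rw [map_smul, map_smul, chiL_basis, len_co hC hconv (Finsupp.mem_support_iff.1 hZ)]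

theorem chiL_mul (x y : Sm.Gr hC hconv) :
    chiL hC hconv (x * y) = chiL hC hconv x * chiL hC hconv y := by
  have h1 : ∀ X : Sm D, (chiL hC hconv).comp (LinearMap.mulLeft ℚ (b hC hconv X)) =
      chiL hC hconv (b hC hconv X) • chiL hC hconv := by
    intro X
    refine (b hC hconv).ext fun Y => ?_
    exact chiL_mul_basis hC hconv X Y
  have h2 : (chiL hC hconv).comp (LinearMap.mulRight ℚ y) =
      chiL hC hconv y • chiL hC hconv := by
    refine (b hC hconv).ext fun X => ?_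
    have h3 := LinearMap.congr_fun (h1 X) y
    have h4 : chiL hC hconv (b hC hconv X * y) =
        chiL hC hconv (b hC hconv X) * chiL hC hconv y := h3
    show chiL hC hconv (b hC hconv X * y) = chiL hC hconv y * chiL hC hconv (b hC hconv X)
    rw [h4, mul_comm]
  have h3 := LinearMap.congr_fun h2 x
  have h4 : chiL hC hconv (x * y) = chiL hC hconv y * chiL hC hconv x := h3
  rw [h4, mul_comm]

theorem chiL_one : chiL hC hconv 1 = 1 := by
  have h1 : (1 : Sm.Gr hC hconv) = b hC hconv (Sm.one D) := by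
    apply Subtype.ext
    rw [b_coe, Sm.chq_one]
    rfl
  rw [h1, chiL_basis, Sm.len_one, Sm.chq_one]
  rfl

end XICHI

variable {K I : Type} [Field K] [Fintype I] [DecidableEq I] {D : Datum K I}

variable {Lp : I → ℕ → SMod D} (hC : CFacts D Lp) (hconv : S_conv D)

open XICHI in
set_option linter.unusedVariables false in
theorem I_CHI (hb : S_basis D) : StChi hC hconv := by
  refine ⟨AlgHom.ofLinearMap (chiL hC hconv) (chiL_one hC hconv) (chiL_mul hC hconv), fun X => ?_⟩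
  show 0 < chiL hC hconv (b hC hconv X)
  rw [chiL_basis]
  obtain ⟨w, hw⟩ := X.exists_ne
  refine s_pos _ _ (fun w => Nat.cast_nonneg _) ⟨w, Sm.length_of_ne hw, ?_⟩
  show (X.1 w : ℚ) ≠ 0
  exact_mod_cast hw

end In

end Pool.Agent.KLS

end

section

/-! MP_e487d8_al: block IN, item DEP: the derivations on the right side. -/

set_option autoImplicit false

open Pool.Agent.E487.Hopf Pool.Agent.KLSAbs

namespace Pool.Agent.KLS

variable {K I : Type} [Field K] [Fintype I] [DecidableEq I] {D : Datum K I}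

namespace XIDEP

variable {Lp : I → ℕ → SMod D} (hC : CFacts D Lp) (hconv : S_conv D)

theorem b_val (X : Sm D) : (In.b hC hconv X).1 = Sm.chq X := by
  show (Sm.bas hC hconv X).1 = _
  rw [Sm.bas_apply]
  rfl

theorem b_val_apply (X : Sm D) (w : List I) : (In.b hC hconv X).1 w = (X.1 w : ℚ) := by
  rw [b_val]
  rfl

theorem eq_sum_of_comb {z : Sm.Gr hC hconv} {m : Sm D →₀ ℕ} (h : z.1 = Sm.comb m) :
    z = m.sum fun X k => (k : ℚ) • In.b hC hconv X := by
  refine Subtype.ext ?_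
  rw [h, Sm.comb_eq]
  show _ = (Sm.Gr hC hconv).val.toLinearMap (m.sum fun X k => (k : ℚ) • In.b hC hconv X)
  rw [map_finsuppSum]
  refine Finsupp.sum_congr fun X _ => ?_
  rw [map_smul]
  show _ = (m X : ℚ) • (In.b hC hconv X).1
  rw [b_val]

theorem repr_nonneg_of_comb {z : Sm.Gr hC hconv} {m : Sm D →₀ ℕ} (h : z.1 = Sm.comb m)
    (Y : Sm D) : 0 ≤ (In.b hC hconv).repr z Y := by
  classical
  rw [eq_sum_of_comb hC hconv h, map_finsuppSum, Finsupp.sum, Finsupp.finsetSum_apply]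
  refine Finset.sum_nonneg fun X _ => ?_
  rw [map_smul, Finsupp.smul_apply, Module.Basis.repr_self, smul_eq_mul]
  refine mul_nonneg (Nat.cast_nonneg _) ?_
  rw [Finsupp.single_apply]
  split_ifs <;> norm_num

theorem de'_apply (i : I) (z : Sm.Gr hC hconv) (w : List I) :
    (In.de' hC hconv i z).1 w = z.1 (w ++ [i]) := rfl

theorem pow_apply (i : I) (n : ℕ) (z : Sm.Gr hC hconv) (w : List I) :
    (((In.de' hC hconv i) ^ n) z).1 w = z.1 (w ++ List.replicate n i) := by
  induction n generalizing z w with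
  | zero => rw [pow_zero, List.replicate_zero, List.append_nil]; rfl
  | succ n ih =>
    rw [pow_succ, Module.End.mul_apply, ih, de'_apply, List.replicate_succ', List.append_assoc]

variable {hC hconv}

theorem mir_val (hm : In.StMir hC hconv) (X : Sm D) (n : ℕ) (i : I) (w : List I) :
    (In.mirS X).1 (List.replicate n i ++ w.reverse) = X.1 (w ++ List.replicate n i) := by
  rw [hm.apply, List.reverse_append, List.reverse_reverse, List.reverse_replicate]

end XIDEP

open XIDEP in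
theorem In.I_DEP {Lp : I → ℕ → SMod D} (hC : CFacts D Lp) (hconv : S_conv D)
    (hb : S_basis D) (hm : In.StMir hC hconv) : In.StDep hC hconv where
  de_mul' i x y := Subtype.ext (Sh.R_mul i x.1 y.1)
  de_pos' i X Y := by
    rcases Nat.eq_zero_or_pos X.len with h | h
    · refine repr_nonneg_of_comb hC hconv (m := 0) ?_ Y
      show Sh.R i (In.b hC hconv X).1 = _
      rw [b_val, Sm.R_chq_of_zero h, Sm.comb_eq, Finsupp.sum_zero_index]
    · obtain ⟨n, hn⟩ : ∃ n, X.rep.n = n + 1 := ⟨X.len - 1, by show X.len = _; omega⟩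
      have hfd : FdMod D (n + 1) X.rep.M := by rw [← hn]; exact X.rep.smp.toFdMod
      refine repr_nonneg_of_comb hC hconv (m := Sm.mult hC (fd_resR hfd i)) ?_ Y
      show Sh.R i (In.b hC hconv X).1 = _
      rw [b_val, Sm.R_chq hn, Sm.chrQ_mult hC (fd_resR hfd i)]
  de_top' i X := by
    refine Subtype.ext (Sh.ext' fun w => ?_)
    rw [pow_apply, b_val_apply]
    show _ = (((In.eps' hC i X).factorial : ℚ) • (In.b hC hconv (In.E' hC i X)).1) w
    rw [Sh.smul_apply, b_val_apply, ← mir_val hm]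
    unfold In.eps' In.E'
    rw [Sm.ch_eps, hm.apply]
    push_cast
    rfl
  de_zero' i X h := by
    refine Subtype.ext (Sh.ext' fun w => ?_)
    rw [de'_apply, b_val_apply]
    have h1 := mir_val hm X 1 i w
    have h2 := Sm.ch_zero hC i (In.mirS X) (b := 1) (by
      have h3 : Sm.eps hC i (In.mirS X) = 0 := h
      omega) w.reverse
    rw [h2] at h1
    rw [show [i] = List.replicate 1 i from rfl, ← h1]
    exact Nat.cast_zero

end Pool.Agent.KLS

end

section

/-! MP_e487d8_al, block IN: associativity of heads. -/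

set_option autoImplicit false

open Pool.Agent.E487.Hopf Pool.Agent.KLSAbs

namespace Pool.Agent.KLS

variable {K I : Type} [Field K] [Fintype I] [DecidableEq I] {D : Datum K I}
  {Lp : I → ℕ → SMod D} (hC : CFacts D Lp) (hconv : S_conv D)

namespace XIHDA

theorem chq_of {hC : CFacts D Lp} {hconv : S_conv D} {A B AB : Sm D}
    (h : In.b hC hconv A * In.b hC hconv B = In.b hC hconv AB) :
    A.rep.chq * B.rep.chq = AB.rep.chq := by
  rw [Sm.chq_rep, Sm.chq_rep, Sm.chq_rep]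
  exact (Sm.gr_mul_iff hC hconv).1 h

end XIHDA

theorem In.I_HDA (hb : S_basis D) : StHda hC hconv where
  hd_as A B C AB W Z h h1 h2 :=
    Mo.as D Lp ⟨hb, hC⟩ A.rep B.rep AB.rep C.rep W.rep Z.rep (XIHDA.chq_of h) h1 h2
  hd_as' A B C BC W Z h h1 h2 :=
    Mo.asm D Lp ⟨hb, hC⟩ B.rep C.rep BC.rep A.rep W.rep Z.rep (XIHDA.chq_of h) h1 h2

end Pool.Agent.KLS

end

section

/-! MP_e487d8_al, block IN, item HDLP: the quotients of `W ∘ L(i^m)`. -/

set_option autoImplicit false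

open Pool.Agent.E487.Hopf Pool.Agent.KLSAbs

namespace Pool.Agent.KLS

variable {K I : Type} [Field K] [Fintype I] [DecidableEq I] {D : Datum K I}

namespace In

variable {Lp : I → ℕ → SMod D} (hC : CFacts D Lp) (hconv : S_conv D)

theorem I_HDLP (hm : StMir hC hconv) (h : StHdl hC hconv) : StHdlp hC hconv := by
  intro i m L W Z hL
  have h1 : b hC hconv (Sm.lt Lp i) ^ m = b hC hconv (mirS L) := by
    have h2 := (hm.pow (Sm.lt Lp i) L m).2 hL
    rwa [hm.lt] at h2
  have h3 : mirS (Sm.E hC i (mirS Z)) = mirS (Sm.E hC i (mirS W)) ↔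
      Sm.E hC i (mirS Z) = Sm.E hC i (mirS W) := by
    constructor
    · intro h4
      rw [← hm.mir_mir (Sm.E hC i (mirS Z)), h4, hm.mir_mir]
    · intro h4
      rw [h4]
  rw [← hm.hd L W Z, h i m (mirS L) (mirS W) (mirS Z) h1]
  exact and_congr Iff.rfl h3.symm

end In

end Pool.Agent.KLS

end

section

/-! MP_e487d8_al, item IN HDS: the criterion (S2) for the simple modules. -/

set_option autoImplicit false

open Pool.Agent.E487.Hopf Pool.Agent.KLSAbs

namespace Pool.Agent.KLS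

variable {K I : Type} [Field K] [Fintype I] [DecidableEq I] {D : Datum K I}

namespace In

variable {Lp : I → ℕ → SMod D} (hC : CFacts D Lp) (hconv : S_conv D)

namespace XIHDS

include hC in
/-- a simple module is the representative of its class -/
theorem iso_cls (Z : SMod D) : Z.Iso (Sm.cls Z).rep := Sm.iso_rep hC (Sm.ch_rep_cls Z).symm

include hC in
/-- quotients of `X ∘ Y` in terms of classes -/
theorem hd_cls {X Y : Sm D} {Z : SMod D} (h : Quo D Z.M (X.rep.conv Y.rep)) :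
    Hd X Y (Sm.cls Z) :=
  SMod.quo_congr (SMod.Iso.refl X.rep) (SMod.Iso.refl Y.rep) (iso_cls hC Z) h

end XIHDS

theorem I_HDS (hb : S_basis D) : StHds hC hconv := by
  intro X Y T h1 h2 h3
  have h4 : X.rep.Comm Y.rep := by
    refine Mo.s2 D Lp ⟨hb, hC⟩ hconv X Y T ?_ ?_ h3
    · intro Z hZ
      have h5 := h1 _ (XIHDS.hd_cls hC hZ)
      rw [← h5]
      exact XIHDS.iso_cls hC Z
    · intro Z hZ
      have h5 := h2 _ (XIHDS.hd_cls hC hZ)
      rw [← h5]
      exact XIHDS.iso_cls hC Z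
  obtain ⟨Z, hZ⟩ := (Sm.comm_rep_iff hC hconv X Y).1 h4
  exact ⟨Z, (Sm.gr_mul_iff hC hconv).2 hZ⟩

end In

end Pool.Agent.KLS

end

section

/-! MP_e487d8_al, block IN: `X ∘ Y ≅ Y ∘ X`. -/

set_option autoImplicit false

open Pool.Agent.E487.Hopf Pool.Agent.KLSAbs

namespace Pool.Agent.KLS

variable {K I : Type} [Field K] [Fintype I] [DecidableEq I] {D : Datum K I}
  {Lp : I → ℕ → SMod D} (hC : CFacts D Lp) (hconv : S_conv D)

namespace XIICB

theorem chq_of {hC : CFacts D Lp} {hconv : S_conv D} {A B AB : Sm D}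
    (h : In.b hC hconv A * In.b hC hconv B = In.b hC hconv AB) :
    A.rep.chq * B.rep.chq = AB.rep.chq := by
  rw [Sm.chq_rep, Sm.chq_rep, Sm.chq_rep]
  exact (Sm.gr_mul_iff hC hconv).1 h

theorem hd_of {X Y Z : Sm D} (h : In.IC X Y) (hZ : In.Hd X Y Z) : In.Hd Y X Z := by
  obtain ⟨e⟩ := h
  obtain ⟨g, hg⟩ := hZ
  exact ⟨g ∘ₗ e.symm.toLinearMap, hg.comp e.symm.surjective⟩

end XIICB

theorem In.I_ICB (hb : S_basis D) : StIcb hC hconv where
  ic_refl X := ⟨LinearEquiv.refl _ _⟩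
  ic_symm X Y h := by
    obtain ⟨e⟩ := h
    exact ⟨e.symm⟩
  ic_cm X Y Z h := Mo.icc D Lp ⟨hb, hC⟩ X.rep Y.rep (Sm.comm_of hC hconv h)
  ic_mul X A B AB h h1 h2 :=
    Mo.icm D Lp ⟨hb, hC⟩ X.rep A.rep B.rep AB.rep (XIICB.chq_of h) h1 h2
  ic_hd X Y Z h hZ := XIICB.hd_of h hZ

end Pool.Agent.KLS

end

section

/-! MP_e487d8_al: K1 and its mirror for the instance by simple modules. -/

set_option autoImplicit false

open Pool.Agent.E487.Hopf Pool.Agent.KLSAbs

namespace Pool.Agent.KLS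

variable {K I : Type} [Field K] [Fintype I] [DecidableEq I] {D : Datum K I}

namespace XIK1S

/-- two simple quotients of a module with exactly one maximal submodule -/
theorem iso_of_head {M : Type} [AddCommGroup M] [Module (KLRAlg D) M] {Z Z' : SMod D}
    (f : M →ₗ[KLRAlg D] Z.M) (hf : Function.Surjective f)
    (h : ∀ N : Submodule (KLRAlg D) M, N ≠ ⊤ → N ≤ LinearMap.ker f)
    (g : M →ₗ[KLRAlg D] Z'.M) (hg : Function.Surjective g) : Z'.Iso Z := by
  have := Z'.smp.simple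
  have := Z.smp.simple
  have : Nontrivial Z'.M := IsSimpleModule.nontrivial (KLRAlg D) Z'.M
  have : Nontrivial Z.M := IsSimpleModule.nontrivial (KLRAlg D) Z.M
  have hk : LinearMap.ker g ≤ LinearMap.ker f := by
    refine h _ fun e => ?_
    obtain ⟨z, hz⟩ := exists_ne (0 : Z'.M)
    obtain ⟨u, rfl⟩ := hg z
    exact hz (by rw [← LinearMap.mem_ker, e]; trivial)
  let φ : Z'.M →ₗ[KLRAlg D] Z.M := ((LinearMap.ker g).liftQ f hk).comp
    (g.quotKerEquivOfSurjective hg).symm.toLinearMap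
  have hφ : ∀ u, φ (g u) = f u := by
    intro u
    have e : (g.quotKerEquivOfSurjective hg).symm (g u) = (LinearMap.ker g).mkQ u := by
      rw [LinearEquiv.symm_apply_eq]; rfl
    change ((LinearMap.ker g).liftQ f hk) ((g.quotKerEquivOfSurjective hg).symm (g u)) = f u
    rw [e]; rfl
  rcases LinearMap.bijective_or_eq_zero φ with hb | h0
  · exact ⟨LinearEquiv.ofBijective φ hb⟩
  · exfalso
    obtain ⟨z, hz⟩ := exists_ne (0 : Z.M)
    obtain ⟨u, rfl⟩ := hf z
    apply hz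
    rw [← hφ u, h0]; rfl

/-- transport of a head map along an isomorphism of the target -/
theorem head_congr {M : Type} [AddCommGroup M] [Module (KLRAlg D) M] {S Z : SMod D}
    (e : S.Iso Z) (h : ∃ f : M →ₗ[KLRAlg D] S.M, Function.Surjective f ∧
      ∀ N : Submodule (KLRAlg D) M, N ≠ ⊤ → N ≤ LinearMap.ker f) :
    ∃ f : M →ₗ[KLRAlg D] Z.M, Function.Surjective f ∧
      ∀ N : Submodule (KLRAlg D) M, N ≠ ⊤ → N ≤ LinearMap.ker f := by
  obtain ⟨g⟩ := e
  obtain ⟨f, hf, h⟩ := h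
  refine ⟨g.toLinearMap.comp f, g.surjective.comp hf, fun N hN u hu => ?_⟩
  have h1 : f u = 0 := LinearMap.mem_ker.1 (h N hN hu)
  rw [LinearMap.mem_ker, LinearMap.comp_apply, h1, map_zero]

end XIK1S

variable {Lp : I → ℕ → SMod D} (hC : CFacts D Lp) (hconv : S_conv D)

/-- K1 and its mirror -/
theorem In.I_K1S (hb : S_basis D) (ht : In.StTr hC hconv) : In.StK1s' hC hconv where
  hd1_hd X Y Z h := by
    obtain ⟨f, hf, -⟩ := h
    exact ⟨f, hf⟩
  hd1_eq X Y Z Z' h h' := by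
    obtain ⟨f, hf, h⟩ := h
    obtain ⟨g, hg⟩ := h'
    exact Sm.eq_of_iso (XIK1S.iso_of_head f hf h g hg)
  k1 C X T n hsr hdag hp := by
    obtain ⟨S, h⟩ := Mo.k1 D Lp ⟨hb, hC⟩ X.rep C.rep T.rep n ((ht.sr C).1 hsr)
      ((ht.dag C).1 hdag) ((ht.pw C T n).1 hp)
    exact ⟨Sm.cls S, XIK1S.head_congr (Sm.iso_rep hC (Sm.ch_rep_cls S).symm) h⟩
  k1' C X T n hsr hdag hp := by
    obtain ⟨S, h⟩ := Mo.k1m D Lp ⟨hb, hC⟩ X.rep C.rep T.rep n ((ht.sr C).1 hsr)
      ((ht.dagm C).1 hdag) ((ht.pw C T n).1 hp)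
    exact ⟨Sm.cls S, XIK1S.head_congr (Sm.iso_rep hC (Sm.ch_rep_cls S).symm) h⟩

end Pool.Agent.KLS

end

section

/-! MP_e487d8_al, K4S: K4 and its mirror. -/

set_option autoImplicit false

open Pool.Agent.E487.Hopf Pool.Agent.KLSAbs

namespace Pool.Agent.KLS

variable {K I : Type} [Field K] [Fintype I] [DecidableEq I] {D : Datum K I}

namespace In

variable {Lp : I → ℕ → SMod D} (hC : CFacts D Lp) (hconv : S_conv D)

theorem I_K4S (hb : S_basis D) (ht : StTr hC hconv) : StK4s hC hconv where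
  k4 := fun C X Y T Z n hs hd hp h1 h2 =>
    Sm.eq_of_iso (Mo.k4 D Lp ⟨hb, hC⟩ X.rep Y.rep C.rep T.rep Z.rep n ((ht.sr C).1 hs)
      ((ht.dag C).1 hd) ((ht.pw C T n).1 hp) h1 h2)
  k4' := fun C X Y T Z n hs hd hp h1 h2 =>
    Sm.eq_of_iso (Mo.k4m D Lp ⟨hb, hC⟩ X.rep Y.rep C.rep T.rep Z.rep n ((ht.sr C).1 hs)
      ((ht.dagm C).1 hd) ((ht.pw C T n).1 hp) h1 h2)

end In

end Pool.Agent.KLS

end

section

/-! MP_e487d8_al: (LBF) for isomorphism classes, and its mirror. -/

set_option autoImplicit false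
set_option linter.unusedSectionVars false

open Pool.Agent.E487.Hopf Pool.Agent.KLSAbs

namespace Pool.Agent.KLS

variable {K I : Type} [Field K] [Fintype I] [DecidableEq I] {D : Datum K I}

namespace XILBS

/-- `X ∘ Y ≅ Y ∘ X` depends only on the isomorphism classes -/
theorem ic_congr {X X' Y Y' : SMod D} (hX : X.Iso X') (hY : Y.Iso Y') (h : X.IC Y) :
    X'.IC Y' := by
  obtain ⟨f⟩ := h
  obtain ⟨a⟩ := XK1M.conv_congr hX hY
  obtain ⟨c⟩ := XK1M.conv_congr hY hX
  exact ⟨(a.symm.trans f).trans c⟩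

/-- the mirror of `X ∘ Y ≅ Y ∘ X` -/
theorem ic_mir {X Y : SMod D} (h : X.IC Y) : X.mir.IC Y.mir := by
  obtain ⟨f⟩ := h
  obtain ⟨e⟩ := Mir.cast (D := D) (M := Y.conv X) (Nat.add_comm X.n Y.n)
  exact ⟨(((SMod.mirConv Y X).trans e.symm).trans
    (Mir.mapEquiv D (X.n + Y.n) f).symm).trans (SMod.mirConv X Y).symm⟩

variable {Lp : I → ℕ → SMod D} (hC : CFacts D Lp) (hconv : S_conv D)

include hC in
theorem ic_lt {i : I} {g : Sm D} (h : In.IC (Sm.lt Lp i) g) : (Lp i 1).IC g.rep :=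
  ic_congr (Sm.iso_rep hC (Sm.ch_rep_cls (Lp i 1))) ⟨LinearEquiv.refl _ _⟩ h

include hC in
theorem ic_mirS {X Y : Sm D} (h : In.IC X Y) : In.IC (In.mirS X) (In.mirS Y) :=
  ic_congr (Sm.iso_rep hC (Sm.ch_rep_cls X.rep.mir).symm)
    (Sm.iso_rep hC (Sm.ch_rep_cls Y.rep.mir).symm) (ic_mir h)

theorem val_b (X : Sm D) : (In.b hC hconv X).1 = Sm.chq X := by
  show (Sm.bas hC hconv X).1 = Sm.chq X
  rw [Sm.bas_apply]
  rfl

theorem val_sum (Q : Sm D →₀ ℕ) :
    (Q.sum fun Z n => (n : ℚ) • In.b hC hconv Z).1 = Sm.comb Q := by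
  show (Sm.Gr hC hconv).val.toLinearMap (Q.sum fun Z n => (n : ℚ) • In.b hC hconv Z) = _
  rw [map_finsuppSum, Sm.comb_eq]
  refine Finsupp.sum_congr fun Z _ => ?_
  rw [map_smul]
  congr 1
  exact val_b hC hconv Z

omit [Fintype I] [DecidableEq I] in
theorem rev_add (f g : Sh I ℚ) : XK1M.rev (f + g) = XK1M.rev f + XK1M.rev g := rfl

theorem rev_chq (hm : In.StMir hC hconv) (X : Sm D) :
    XK1M.rev (Sm.chq X) = Sm.chq (In.mirS X) := by
  apply Sh.ext'
  intro w
  show ((X.1 w.reverse : ℕ) : ℚ) = (((In.mirS X).1 w : ℕ) : ℚ)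
  rw [hm.apply]

theorem rev_comb (hm : In.StMir hC hconv) (Q : Sm D →₀ ℕ) :
    XK1M.rev (Sm.comb Q) = Sm.comb (Q.mapDomain In.mirS) := by
  apply Sh.ext'
  intro w
  rw [XK1M.rev_apply, Sm.comb_apply, Sm.comb_apply, Finsupp.sum_mapDomain_index
    (fun _ => zero_mul _) (fun _ _ _ => add_mul _ _ _)]
  congr 1
  refine Finsupp.sum_congr fun X _ => ?_
  rw [hm.apply]

end XILBS

namespace In

section

variable {Lp : I → ℕ → SMod D} (hC : CFacts D Lp) (hconv : S_conv D)

open XILBS in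
/-- **LBS** -/
theorem I_LBS (hb : S_basis D) (hm : StMir hC hconv) : StLbs hC hconv := by
  have hmul : ∀ {X Y Z : Sm D}, b hC hconv X * b hC hconv Y = b hC hconv Z →
      Sm.chq X * Sm.chq Y = Sm.chq Z := by
    intro X Y Z h
    have h1 := congrArg Subtype.val h
    rw [val_b] at h1
    rw [← h1, ← val_b hC hconv X, ← val_b hC hconv Y]
    rfl
  have key : ∀ {a : ℕ} {i : I} {y g F F₀ Y : Sm D} {Q : Sm D →₀ ℕ},
      Sm.chq Y + Sm.chq y * Sm.chq (Sm.lt Lp i) ^ a * Sm.chq F₀ =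
        Sm.chq y * Sm.chq F + Sm.chq g * Sm.chq F₀ + Sm.comb Q →
      b hC hconv Y + b hC hconv y * b hC hconv (Sm.lt Lp i) ^ a * b hC hconv F₀ =
        b hC hconv y * b hC hconv F + b hC hconv g * b hC hconv F₀ +
          Q.sum fun Z n => (n : ℚ) • b hC hconv Z := by
    intro a i y g F F₀ Y Q h
    rw [← val_sum hC hconv, ← val_b hC hconv, ← val_b hC hconv, ← val_b hC hconv,
      ← val_b hC hconv, ← val_b hC hconv, ← val_b hC hconv] at h
    exact Subtype.ext h
  constructor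
  · intro i y k yk g F F₀ Y a c h1 h2 h3 h4 h5 h6 h7 h8 h9 h10 h11 h12
    obtain ⟨Q, hQ⟩ := Mo.lbf D Lp ⟨hb, hC⟩ i y k yk g F F₀ Y a c h1 h2 (hmul h3) h4 h5
      (ic_lt hC h6) h7 h8 h9 h10 h11 h12
    exact ⟨Q, key hQ⟩
  · intro i y k yk g F F₀ Y a c h1 h2 h3 h4 h5 h6 h7 h8 h9 h10 h11 h12
    have hE : ∀ {X Z : Sm D}, E' hC i X = Z → Sm.E hC i (mirS X) = mirS Z := by
      rintro X Z rfl
      exact (hm.mir_mir _).symm
    have h6' := ic_mirS hC h6
    rw [hm.lt] at h6'
    obtain ⟨Q, hQ⟩ := Mo.lbf D Lp ⟨hb, hC⟩ i (mirS y) (mirS k) (mirS yk) (mirS g) (mirS F)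
      (mirS F₀) (mirS Y) a c h1 h2 (hmul ((hm.mul y k yk).2 h3)) h4 (hE h5)
      (ic_lt hC h6') h7 (hE h8) h9 (hE h10) h11 (hE h12)
    refine ⟨Q.mapDomain mirS, key ?_⟩
    have hQ' := congrArg XK1M.rev hQ
    simp only [rev_add, XK1M.rev_mul, XK1M.rev_pow, rev_chq hC hconv hm,
      rev_comb hC hconv hm, hm.mir_mir, hm.lt] at hQ'
    exact hQ'

end

end In

end Pool.Agent.KLS

end

section

/-! MP_e487d8_al: the instance of `Sys2`, the modules `L(i)`. -/

set_option autoImplicit false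

open Pool.Agent.E487.Hopf Pool.Agent.KLSAbs

namespace Pool.Agent.KLS

variable {K I : Type} [Field K] [Fintype I] [DecidableEq I] {D : Datum K I}

variable {Lp : I → ℕ → SMod D} (hC : CFacts D Lp) (hconv : S_conv D)

namespace XILTP

include hC in
theorem L_g (i j : I) : Sh.L j (Sm.chq (Sm.lt Lp i)) = if j = i then 1 else 0 := by
  apply Sh.ext'
  intro w
  rw [Sh.L_apply]
  show (((Sm.lt Lp i).1 (j :: w) : ℕ) : ℚ) = _
  rw [Sm.lt_apply hC]
  by_cases hj : j = i
  · subst hj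
    rw [if_pos rfl]
    cases w with
    | nil => rw [if_pos rfl, Sh.one_nil, Nat.cast_one]
    | cons k w => rw [if_neg (by simp), Sh.one_cons, Nat.cast_zero]
  · rw [if_neg hj, if_neg (by simp [hj]), Nat.cast_zero]
    rfl

include hC in
theorem L_pow (i j : I) : ∀ n : ℕ, Sh.L j (Sm.chq (Sm.lt Lp i) ^ (n + 1)) =
    if j = i then ((n : ℚ) + 1) • Sm.chq (Sm.lt Lp i) ^ n else 0 := by
  intro n
  induction n with
  | zero =>
    rw [zero_add, pow_one, L_g hC, pow_zero, Nat.cast_zero, zero_add, one_smul]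
  | succ n ih =>
    rw [pow_succ, Sh.L_mul, ih, L_g hC]
    by_cases hj : j = i
    · rw [if_pos hj, if_pos hj, if_pos hj, mul_one, smul_mul_assoc, ← pow_succ]
      push_cast
      module
    · rw [if_neg hj, if_neg hj, if_neg hj, zero_mul, mul_zero, add_zero]

include hC in
theorem pow_apply (i : I) : ∀ (n : ℕ) (w : List I), (Sm.chq (Sm.lt Lp i) ^ n) w =
    if w = List.replicate n i then (n.factorial : ℚ) else 0 := by
  intro n
  induction n with
  | zero =>
    intro w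
    rw [pow_zero, List.replicate_zero]
    cases w with
    | nil => rw [if_pos rfl, Sh.one_nil, Nat.factorial_zero, Nat.cast_one]
    | cons k w => rw [if_neg (by simp), Sh.one_cons]
  | succ n ih =>
    intro w
    cases w with
    | nil =>
      rw [if_neg (by simp [List.replicate_succ]), pow_succ, Sh.mul_nil]
      have : Sm.chq (Sm.lt Lp i) [] = 0 := by
        show (((Sm.lt Lp i).1 [] : ℕ) : ℚ) = 0
        rw [Sm.lt_apply hC, if_neg (by simp), Nat.cast_zero]
      rw [this, mul_zero]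
    | cons j w =>
      rw [← Sh.L_apply j (Sm.chq (Sm.lt Lp i) ^ (n + 1)) w, L_pow hC]
      by_cases hj : j = i
      · subst hj
        rw [if_pos rfl, Sh.smul_apply, ih, List.replicate_succ]
        by_cases hw : w = List.replicate n j
        · rw [if_pos hw, if_pos (by rw [hw]), Nat.factorial_succ]
          push_cast
          ring
        · rw [if_neg hw, if_neg (by simpa using hw), mul_zero]
      · rw [if_neg hj, if_neg (by simp [List.replicate_succ, hj])]
        rfl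

include hC in
theorem pow_chq (i : I) (n : ℕ) : Sm.chq (Sm.lt Lp i) ^ n = Sm.chq (Sm.cls (Lp i n)) := by
  apply Sh.ext'
  intro w
  rw [pow_apply hC]
  show _ = (((Sm.cls (Lp i n)).1 w : ℕ) : ℚ)
  have h : (Sm.cls (Lp i n)).1 w = if w = List.replicate n i then n.factorial else 0 :=
    hC.ch_Lp i n w
  rw [h]
  split_ifs <;> simp

theorem pow_b (i : I) (n : ℕ) :
    Sm.bas hC hconv (Sm.lt Lp i) ^ n = Sm.bas hC hconv (Sm.cls (Lp i n)) := by
  rw [Sm.bas_apply, Sm.bas_apply]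
  exact Subtype.ext (pow_chq hC i n)

end XILTP

theorem In.I_LTP (hb : S_basis D) : In.StLtp hC hconv := by
  have _ := hb
  refine ⟨fun i => ?_, fun i n => XILTP.pow_b hC hconv i n, fun i n => ?_⟩
  · ext j
    rw [Sm.wt_lt hC, Finsupp.single_apply]
  · exact ⟨Sm.cls (Lp i n), XILTP.pow_b hC hconv i n⟩

end Pool.Agent.KLS

end

section

/-! MP_e487d8_al, block IN: item TR. -/

set_option autoImplicit false

open Pool.Agent.E487.Hopf Pool.Agent.KLSAbs

namespace Pool.Agent.KLS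

variable {K I : Type} [Field K] [Fintype I] [DecidableEq I] {D : Datum K I}
  {Lp : I → ℕ → SMod D} (hC : CFacts D Lp) (hconv : S_conv D)

namespace XITR

theorem coe_b (X : Sm D) : ((In.b hC hconv X : Sm.Gr hC hconv) : Sh I ℚ) = X.rep.chq := by
  show ((Sm.bas hC hconv X : Sm.Gr hC hconv) : Sh I ℚ) = _
  rw [Sm.bas_apply, Sm.chq_rep]; rfl

theorem chq_rep_cls (X : SMod D) : (Sm.cls X).rep.chq = X.chq := by
  rw [Sm.chq_rep, Sm.chq_cls]

theorem pw_iff (C T : Sm D) (n : ℕ) :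
    In.b hC hconv C ^ n = In.b hC hconv T ↔ C.rep.Pw n T.rep := by
  rw [Subtype.ext_iff, Subalgebra.coe_pow, coe_b, coe_b]
  exact eq_comm

theorem sc_iff (C X Z : Sm D) (n : ℕ) :
    In.b hC hconv C ^ n * In.b hC hconv X = In.b hC hconv Z ↔
      Z.rep.chq = C.rep.chq ^ n * X.rep.chq := by
  rw [Subtype.ext_iff, Subalgebra.coe_mul, Subalgebra.coe_pow, coe_b, coe_b, coe_b]
  exact eq_comm

theorem sc_congr {C X Y : SMod D} (h : X.chq = Y.chq) (hX : C.SC X) : C.SC Y := by
  intro n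
  obtain ⟨T, hT⟩ := hX n
  exact ⟨T, by rw [hT, h]⟩

theorem sc (C X : Sm D) : PSC (In.b hC hconv) C X ↔ C.rep.SC X.rep := by
  constructor
  · intro h n
    obtain ⟨Z, hZ⟩ := h n
    exact ⟨Z.rep, (sc_iff hC hconv C X Z n).1 hZ⟩
  · intro h n
    obtain ⟨T, hT⟩ := h n
    exact ⟨Sm.cls T, (sc_iff hC hconv C X (Sm.cls T) n).2 (by rw [chq_rep_cls, hT])⟩

end XITR

set_option linter.unusedVariables false in
open XITR in
theorem In.I_TR (hb : S_basis D) : In.StTr hC hconv where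
  pw := pw_iff hC hconv
  sr C := by
    constructor
    · intro h n
      obtain ⟨Z, hZ⟩ := h n
      exact ⟨Z.rep, (pw_iff hC hconv C Z n).1 hZ⟩
    · intro h n
      obtain ⟨T, hT⟩ := h n
      refine ⟨Sm.cls T, (pw_iff hC hconv C (Sm.cls T) n).2 ?_⟩
      show (Sm.cls T).rep.chq = C.rep.chq ^ n
      rw [chq_rep_cls]; exact hT
  sc := sc hC hconv
  dag C := by
    constructor
    · intro h X
      obtain ⟨n, T, Z, h1, h2, h3⟩ := h (Sm.cls X)
      refine ⟨n, T.rep, Z.rep, (pw_iff hC hconv C T n).1 h1, ?_, (sc hC hconv C Z).1 h3⟩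
      exact SMod.quo_congr (SMod.Iso.refl _) (Sm.iso_rep hC (Sm.ch_rep_cls X))
        (SMod.Iso.refl _) h2
    · intro h X
      obtain ⟨n, T, S, h1, h2, h3⟩ := h X.rep
      refine ⟨n, Sm.cls T, Sm.cls S, (pw_iff hC hconv C (Sm.cls T) n).2 ?_, ?_,
        (sc hC hconv C (Sm.cls S)).2 (sc_congr (chq_rep_cls S).symm h3)⟩
      · show (Sm.cls T).rep.chq = C.rep.chq ^ n
        rw [chq_rep_cls]; exact h1
      · exact SMod.quo_congr (Sm.iso_rep hC (Sm.ch_rep_cls T).symm) (SMod.Iso.refl _)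
          (Sm.iso_rep hC (Sm.ch_rep_cls S).symm) h2
  dagm C := by
    constructor
    · intro h X
      obtain ⟨n, T, Z, h1, h2, h3⟩ := h (Sm.cls X)
      refine ⟨n, T.rep, Z.rep, (pw_iff hC hconv C T n).1 h1, ?_, (sc hC hconv C Z).1 h3⟩
      exact SMod.quo_congr (Sm.iso_rep hC (Sm.ch_rep_cls X)) (SMod.Iso.refl _)
        (SMod.Iso.refl _) h2
    · intro h X
      obtain ⟨n, T, S, h1, h2, h3⟩ := h X.rep
      refine ⟨n, Sm.cls T, Sm.cls S, (pw_iff hC hconv C (Sm.cls T) n).2 ?_, ?_,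
        (sc hC hconv C (Sm.cls S)).2 (sc_congr (chq_rep_cls S).symm h3)⟩
      · show (Sm.cls T).rep.chq = C.rep.chq ^ n
        rw [chq_rep_cls]; exact h1
      · exact SMod.quo_congr (SMod.Iso.refl _) (Sm.iso_rep hC (Sm.ch_rep_cls T).symm)
          (Sm.iso_rep hC (Sm.ch_rep_cls S).symm) h2

end Pool.Agent.KLS

end
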