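import Pool.Agent.Work.MP_e487d8_al.Y.In.Defs

/-! Bundle of small proof modules (one section per former module). -/

section

/-! MP_e487d8_al, block IN: ADM, adapted simple modules and words. -/

set_option autoImplicit false

open Pool.Agent.E487.Hopf Pool.Agent.KLSAbs

namespace Pool.Agent.KLS

variable {K I : Type} [Field K] [Fintype I] [DecidableEq I] {D : Datum K I}

namespace In

variable {Lp : I → ℕ → SMod D} (hC : CFacts D Lp) (hconv : S_conv D)

namespace XIADM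

omit [Fintype I] [DecidableEq I] in
theorem frm_snoc : ∀ {w ν : List I}, Sm.Frm w ν → ∀ (i : I) (a : ℕ),
    Sm.Frm (w ++ [i]) (ν ++ List.replicate a i) := by
  intro w
  induction w with
  | nil =>
    intro ν h i a
    rw [Sm.Frm] at h
    subst h
    exact ⟨a, [], by rw [List.append_nil, List.nil_append], rfl⟩
  | cons j w ih =>
    intro ν h i a
    obtain ⟨b, ν', rfl, h2⟩ := h
    exact ⟨b, ν' ++ List.replicate a i, List.append_assoc _ _ _, ih h2 i a⟩

omit [Fintype I] [DecidableEq I] in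
theorem frm_reverse : ∀ {w ν : List I}, Sm.Frm w ν → Sm.Frm w.reverse ν.reverse := by
  intro w
  induction w with
  | nil =>
    intro ν h
    rw [Sm.Frm] at h
    subst h
    rfl
  | cons j w ih =>
    intro ν h
    obtain ⟨b, ν', rfl, h2⟩ := h
    rw [List.reverse_cons, List.reverse_append, List.reverse_replicate]
    exact frm_snoc (ih h2) j b

theorem adp_iff (hm : StMir hC hconv) (w : List I) : ∀ X : Sm D,
    AdP (E' hC) (Sm.one D) w X ↔ AdP (Sm.E hC) (Sm.one D) w (mirS X) := by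
  induction w with
  | nil =>
    intro X
    show X = Sm.one D ↔ mirS X = Sm.one D
    constructor
    · rintro rfl
      exact hm.one
    · intro h
      rw [← hm.mir_mir X, h, hm.one]
  | cons i w ih =>
    intro X
    have h := ih (E' hC i X)
    rw [show mirS (E' hC i X) = Sm.E hC i (mirS X) from hm.mir_mir _] at h
    exact h

end XIADM

open XIADM in
theorem I_ADM (hm : StMir hC hconv) : StAdm hC hconv where
  ad_mirror w X := by
    rw [adp_iff hC hconv hm, Sm.ad_iff hC hconv, Sm.ad_iff hC hconv]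
    constructor
    · rintro ⟨ν, h1, h2⟩
      exact ⟨ν.reverse, frm_reverse h1, by rwa [hm.apply, List.reverse_reverse]⟩
    · rintro ⟨ν, h1, h2⟩
      rw [hm.apply] at h2
      have h3 := frm_reverse h1
      rw [List.reverse_reverse] at h3
      exact ⟨ν.reverse, h3, h2⟩
  ad_co w X Y Z h hZ := by
    rw [Sm.ad_iff hC hconv] at hZ ⊢
    obtain ⟨ν, h1, h2⟩ := hZ
    obtain ⟨u, v, h3, h4, _⟩ := Sm.sh_of_co hC hconv h h2
    exact ⟨u, h1.sh h3.symm, h4⟩
  Ad_E' i w X h := by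
    rw [adp_iff hC hconv hm] at h ⊢
    rw [show mirS (E' hC i X) = Sm.E hC i (mirS X) from hm.mir_mir _]
    exact Sm.ad_E hC hconv i w (mirS X) h

end In

end Pool.Agent.KLS

end

section

/-! MP_e487d8_al: block IN, item DE: the derivations `e_i` at `q = 1`. -/

set_option autoImplicit false

open Pool.Agent.E487.Hopf Pool.Agent.KLSAbs

namespace Pool.Agent.KLS

variable {K I : Type} [Field K] [Fintype I] [DecidableEq I] {D : Datum K I}

namespace XIDE

variable {Lp : I → ℕ → SMod D} (hC : CFacts D Lp) (hconv : S_conv D)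

theorem repr_comb (m : Sm D →₀ ℕ) (z : Sm.Gr hC hconv) (hz : z.1 = Sm.comb m) (Y : Sm D) :
    (Sm.bas hC hconv).repr z Y = (m Y : ℚ) := by
  have h : z = m.sum fun X k => (k : ℚ) • Sm.bas hC hconv X := by
    apply Subtype.ext
    rw [hz, Sm.comb_eq]
    change _ = (Sm.Gr hC hconv).val.toLinearMap (m.sum fun X k => (k : ℚ) • Sm.bas hC hconv X)
    rw [map_finsuppSum]
    refine Finsupp.sum_congr fun W _ => ?_
    rw [map_smul, Sm.bas_apply]
    rfl
  rw [h, map_finsuppSum, Finsupp.sum_apply, Finsupp.sum, Finset.sum_eq_single Y]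
  · rw [map_smul, Module.Basis.repr_self, Finsupp.smul_apply, Finsupp.single_eq_same, smul_eq_mul,
      mul_one]
  · intro W _ hW
    rw [map_smul, Module.Basis.repr_self, Finsupp.smul_apply,
      Finsupp.single_eq_of_ne (Ne.symm hW), smul_zero]
  · intro hY
    rw [Finsupp.notMem_support_iff] at hY
    rw [hY, Nat.cast_zero, zero_smul, map_zero, Finsupp.zero_apply]

theorem b_val (X : Sm D) : (In.b hC hconv X).1 = Sm.chq X := by
  show (Sm.bas hC hconv X).1 = _
  rw [Sm.bas_apply]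
  rfl

theorem de_val (i : I) (x : Sm.Gr hC hconv) : (In.de hC hconv i x).1 = Sh.L i x.1 := rfl

theorem de_pow (i : I) (n : ℕ) (x : Sm.Gr hC hconv) :
    (((In.de hC hconv i) ^ n) x).1 = Sh.LW (List.replicate n i) x.1 := by
  induction n generalizing x with
  | zero => rfl
  | succ n ih =>
    rw [pow_succ, Module.End.mul_apply, ih, List.replicate_succ, Sh.LW_cons, de_val]

end XIDE

namespace In

open XIDE

variable {Lp : I → ℕ → SMod D} (hC : CFacts D Lp) (hconv : S_conv D)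

theorem I_DE (hb : S_basis D) : StDe hC hconv where
  de_mul i x y := by
    apply Subtype.ext
    show Sh.L i (x.1 * y.1) = Sh.L i x.1 * y.1 + x.1 * Sh.L i y.1
    exact Sh.L_mul i x.1 y.1
  de_pos i X Y := by
    rcases Nat.eq_zero_or_pos X.len with h | h
    · have h0 : de hC hconv i (b hC hconv X) = 0 := by
        apply Subtype.ext
        rw [de_val, b_val, Sm.L_chq_of_zero h]
        rfl
      rw [h0, map_zero, Finsupp.zero_apply]
    · obtain ⟨n, hn⟩ : ∃ n, X.rep.n = n + 1 := ⟨X.len - 1, by show X.len = _; omega⟩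
      have hfd : FdMod D (n + 1) X.rep.M := by rw [← hn]; exact X.rep.smp.toFdMod
      have h1 : (de hC hconv i (b hC hconv X)).1 = Sm.comb (Sm.mult hC (fd_resL hfd i)) := by
        rw [de_val, b_val, Sm.L_chq hn, Sm.chrQ_mult hC (fd_resL hfd i)]
      show 0 ≤ (Sm.bas hC hconv).repr (de hC hconv i (b hC hconv X)) Y
      rw [repr_comb hC hconv _ _ h1]
      exact Nat.cast_nonneg _
  de_top i X := by
    apply Subtype.ext
    rw [de_pow, b_val, Sm.LW_chq_top]
    show _ = ((Sm.eps hC i X).factorial : ℚ) • (b hC hconv (Sm.E hC i X)).1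
    rw [b_val]
  de_zero i X h := by
    apply Subtype.ext
    rw [de_val, b_val]
    have h1 := Sm.LW_chq_zero hC (i := i) (X := X) (a := 1) (by omega)
    exact h1
  de_comm i j x := rfl

end In

end Pool.Agent.KLS

end

section

/-! MP_e487d8_al: the instance of the abstract interface, the `d_i` rules. -/

set_option autoImplicit false

open Pool.Agent.E487.Hopf Pool.Agent.KLSAbs

namespace Pool.Agent.KLS

variable {K I : Type} [Field K] [Fintype I] [DecidableEq I] {D : Datum K I}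

namespace XIDR

theorem pr_eq (i : I) (X : Sm D) : sumW (D.A i) (Sm.wt X) = Sm.pr i X := by
  unfold sumW Sm.pr
  rw [Finsupp.sum_fintype]
  intro j
  simp

variable {Lp : I → ℕ → SMod D} (hC : CFacts D Lp) (hconv : S_conv D)

theorem cm_iff (X Y : Sm D) : (∃ Z, In.b hC hconv X * In.b hC hconv Y = In.b hC hconv Z) ↔
    X.rep.Comm Y.rep := by
  rw [Sm.comm_rep_iff hC hconv]
  exact exists_congr fun Z => Sm.gr_mul_iff hC hconv

include hconv in
theorem d_f (hb : S_basis D) (he : In.StEpss hC) (i : I) (X Y : Sm D)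
    (h1 : Sm.eps hC i Y = Sm.eps hC i X + 1) (h2 : Sm.E hC i Y = Sm.E hC i X)
    (h3 : sumW (D.A i) (Sm.wt X) < (Sm.eps hC i X : ℤ) + In.eps' hC i X) :
    In.eps' hC i Y ≤ In.eps' hC i X := by
  obtain ⟨h4, h5⟩ := Sm.f_spec hC hconv i X
  have h6 : Y = Sm.f hC hconv i X := Sm.eps_inj hC (h1.trans h4.symm) (h2.trans h5.symm)
  rw [he i X, he i Y, h6]
  rw [he i X, pr_eq] at h3
  exact Sm.epss_f_lt1 hC hconv (rFacts1 hb) (lFacts hb) i X h3

end XIDR

open XIDR In in
theorem In.I_DR {Lp : I → ℕ → SMod D} (hC : CFacts D Lp) (hconv : S_conv D)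
    (hb : S_basis D) (hm : StMir hC hconv) (he : StEpss hC) : StDr hC hconv where
  d_nonneg i X := by
    rw [pr_eq, he i X]
    exact Sm.d_nonneg1 hC (rFacts1 hb) (lFacts hb) i X
  cm_lt i X := by
    rw [cm_iff hC hconv, pr_eq, he i X, Sm.comm_lt_iff hC hconv (rFacts1 hb) (lFacts hb) i X]
    exact eq_comm
  d_f i X Y h1 h2 h3 := d_f hC hconv hb he i X Y h1 h2 h3
  d_f' i X Y h1 h2 h3 := by
    have e : ∀ Z : Sm D, eps' hC i (mirS Z) = Sm.eps hC i Z := by
      intro Z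
      unfold eps'
      rw [hm.mir_mir]
    have h4 : Sm.E hC i (mirS Y) = Sm.E hC i (mirS X) := by
      have h5 := congrArg mirS h2
      unfold E' at h5
      rwa [hm.mir_mir, hm.mir_mir] at h5
    have h6 := d_f hC hconv hb he i (mirS X) (mirS Y) h1 h4 (by
      rw [hm.wt, e, add_comm]
      exact h3)
    rwa [e, e] at h6

end Pool.Agent.KLS

end

section

/-! MP_e487d8_al: (DS) and its mirror for classes of simple modules. -/

set_option autoImplicit false

open Pool.Agent.E487.Hopf Pool.Agent.KLSAbs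

namespace Pool.Agent.KLS

variable {K I : Type} [Field K] [Fintype I] [DecidableEq I] {D : Datum K I}

namespace XIDSS

variable {Lp : I → ℕ → SMod D} (hC : CFacts D Lp) (hconv : S_conv D)

theorem notComm {C Z : Sm D}
    (h : ¬ ∃ W, In.b hC hconv C * In.b hC hconv Z = In.b hC hconv W) :
    ¬ C.rep.Comm Z.rep := by
  intro hc
  obtain ⟨W, hW⟩ := (Sm.comm_rep_iff hC hconv C Z).1 hc
  exact h ⟨W, (Sm.gr_mul_iff hC hconv).2 hW⟩

theorem ds (hb : S_basis D) (T B C Z Z' : Sm D) (h1 : In.Hd T B Z) (h2 : In.Hd C Z Z')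
    (h : ¬ ∃ W, In.b hC hconv C * In.b hC hconv Z = In.b hC hconv W) :
    ∃ (B' Y : Sm D) (Q : Sm D →₀ ℕ), Sm.co hC hconv C B B' ≠ 0 ∧ In.Hd T B' Y ∧
      Sm.co hC hconv C Z = Finsupp.single Z' 1 + Finsupp.single Y 1 + Q :=
  Mo.ds D Lp ⟨hb, hC⟩ hconv T B C Z Z' h1 h2 (notComm hC hconv h)

theorem single_mir (hm : In.StMir hC hconv) (X A : Sm D) :
    Finsupp.single (In.mirS X) (1 : ℕ) (In.mirS A) = Finsupp.single X (1 : ℕ) A := by
  classical
  by_cases hXA : X = A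
  · subst hXA
    rw [Finsupp.single_eq_same, Finsupp.single_eq_same]
  · have h1 : In.mirS X ≠ In.mirS A := by
      intro h
      apply hXA
      rw [← hm.mir_mir X, h, hm.mir_mir]
    rw [Finsupp.single_apply, Finsupp.single_apply, if_neg h1, if_neg hXA]

theorem mir_inj (hm : In.StMir hC hconv) :
    Function.Injective (In.mirS : Sm D → Sm D) := by
  intro X Y h
  rw [← hm.mir_mir X, h, hm.mir_mir]

end XIDSS

namespace In

variable {Lp : I → ℕ → SMod D} (hC : CFacts D Lp) (hconv : S_conv D)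

include hC hconv in
theorem I_DSS (hb : S_basis D) (hm : StMir hC hconv) : StDss hC hconv := by
  refine ⟨XIDSS.ds hC hconv hb, ?_⟩
  intro T B C Z Z' h1 h2 h
  obtain ⟨B', Y, Q, hB, hY, hQ⟩ := XIDSS.ds hC hconv hb (mirS T) (mirS B) (mirS C) (mirS Z)
    (mirS Z') ((hm.hd T B Z).2 h1) ((hm.hd C Z Z').2 h2) (by
      rintro ⟨W, hW⟩
      apply h
      refine ⟨mirS W, ?_⟩
      rw [← hm.mir_mir W] at hW
      exact (hm.mul C Z (mirS W)).1 hW)
  refine ⟨mirS B', mirS Y, Q.mapDomain mirS, ?_, ?_, ?_⟩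
  · rw [← hm.co, hm.mir_mir]
    exact hB
  · rw [← hm.mir_mir B', ← hm.mir_mir Y] at hY
    exact (hm.hd T (mirS B') (mirS Y)).1 hY
  · ext A
    have h3 := DFunLike.congr_fun hQ (mirS A)
    rw [hm.co] at h3
    rw [h3, Finsupp.add_apply, Finsupp.add_apply, Finsupp.add_apply, Finsupp.add_apply,
      XIDSS.single_mir hC hconv hm]
    congr 1
    · congr 1
      rw [← XIDSS.single_mir hC hconv hm (mirS Y) A, hm.mir_mir]
    · rw [← Finsupp.mapDomain_apply (XIDSS.mir_inj hC hconv hm) Q (mirS A), hm.mir_mir]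

end In

end Pool.Agent.KLS

end

section

/-! MP_e487d8_al, block IN, item EPSS: the two definitions of the last exponent of a simple
module agree. -/

set_option autoImplicit false
set_option linter.unusedSectionVars false

open Pool.Agent.E487.Hopf Pool.Agent.KLSAbs

namespace Pool.Agent.KLS

variable {K I : Type} [Field K] [Fintype I] [DecidableEq I] {D : Datum K I}

variable {Lp : I → ℕ → SMod D} (hC : CFacts D Lp) (hconv : S_conv D)

namespace XIEPSS

variable {hC hconv}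

theorem ge (hm : In.StMir hC hconv) (i : I) (X : Sm D) : Sm.epss i X ≤ In.eps' hC i X := by
  obtain ⟨ν, hν⟩ := Sm.exists_epss i X
  refine Sm.le_eps hC (i := i) (X := In.mirS X) (a := Sm.epss i X) (ν := ν.reverse) ?_
  rw [hm.apply, List.reverse_append, List.reverse_reverse, List.reverse_replicate]
  exact hν

theorem le (hm : In.StMir hC hconv) (i : I) (X : Sm D) : In.eps' hC i X ≤ Sm.epss i X := by
  obtain ⟨ν, hν, -⟩ := Sm.exists_eps hC i (In.mirS X)
  rw [hm.apply, List.reverse_append, List.reverse_replicate] at hν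
  exact Sm.le_epss hν

end XIEPSS

namespace In

/-- **EPSS** -/
theorem I_EPSS (hm : StMir hC hconv) : StEpss hC := fun i X =>
  le_antisymm (XIEPSS.le hm i X) (XIEPSS.ge hm i X)

end In

end Pool.Agent.KLS

end

section

/-! MP_e487d8_al, block IN: simple facts on heads. -/

set_option autoImplicit false

open Pool.Agent.E487.Hopf Pool.Agent.KLSAbs

namespace Pool.Agent.KLS

variable {K I : Type} [Field K] [Fintype I] [DecidableEq I] {D : Datum K I}

namespace In

variable {Lp : I → ℕ → SMod D} (hC : CFacts D Lp) (hconv : S_conv D)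

namespace XIHDB

include hC hconv in
theorem hd_ex (X Y : Sm D) : ∃ Z, Hd X Y Z := by
  have := Sm.conv_nontrivial hconv X.rep Y.rep
  obtain ⟨Z, _, hZ⟩ := Sm.exists_quo (Sm.fd_conv hconv X.rep Y.rep)
  exact ⟨Sm.cls Z, quo_congr' (Sm.iso_rep hC (Sm.ch_rep_cls Z)).symm hZ⟩

theorem hd_co {X Y Z : Sm D} (h : Hd X Y Z) : Sm.co hC hconv X Y Z ≠ 0 := by
  have h1 := Sm.mult_ne_of_quo hC (Sm.fd_conv hconv X.rep Y.rep) h
  rwa [Sm.cls_rep] at h1

include hconv in
theorem hd_eps (i : I) {X Y Z : Sm D} (h : Hd X Y Z) : Sm.eps hC i X ≤ Sm.eps hC i Z := by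
  obtain ⟨μ, hμ, _⟩ := Sm.exists_eps hC i X
  obtain ⟨ν, hν⟩ := Y.exists_ne
  have h1 := append_of_quo hconv h (μ := List.replicate (Sm.eps hC i X) i ++ μ) (ν := ν)
    (by rw [Sm.ch_rep]; exact hμ) (by rw [Sm.ch_rep]; exact hν)
  rw [Sm.ch_rep, List.append_assoc] at h1
  exact Sm.le_eps hC h1

end XIHDB

theorem I_HDB (hb : S_basis D) (hm : StMir hC hconv) : StHdb hC hconv where
  hd_ex := XIHDB.hd_ex hC hconv
  hd_co _ _ _ h := XIHDB.hd_co hC hconv h
  hd_eps i _ _ _ h := XIHDB.hd_eps hC hconv i h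
  hd_eps' i X Y Z h := XIHDB.hd_eps hC hconv i ((hm.hd Y X Z).2 h)

end In

end Pool.Agent.KLS

end

section

/-! MP_e487d8_al, HDI: quotients of `C ∘ X` if `L(i) ∘ C ≅ C ∘ L(i)`. -/

set_option autoImplicit false

open Pool.Agent.E487.Hopf Pool.Agent.KLSAbs

namespace Pool.Agent.KLS

variable {K I : Type} [Field K] [Fintype I] [DecidableEq I] {D : Datum K I}

namespace XIHDI

/-- convolution products of isomorphic modules -/
theorem conv_iso {X X' Y Y' : SMod D} (hX : X.Iso X') (hY : Y.Iso Y') :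
    Nonempty (X.conv Y ≃ₗ[KLRAlg D] X'.conv Y') := by
  have hn := SMod.n_eq_of_iso hX
  obtain ⟨f⟩ := hX
  obtain ⟨g⟩ := hY
  refine ⟨LinearEquiv.ofLinearMap
      (Conv.map hn f.toLinearMap g.toLinearMap)
      (Conv.map hn.symm f.symm.toLinearMap g.symm.toLinearMap) ?_ ?_⟩
  · apply Conv.hom_ext
    intro u v
    rw [LinearMap.comp_apply, Conv.map_mk, Conv.map_mk]
    simp
  · apply Conv.hom_ext
    intro u v
    rw [LinearMap.comp_apply, Conv.map_mk, Conv.map_mk]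
    simp

theorem ic_congr {X X' Y Y' : SMod D} (hX : X.Iso X') (hY : Y.Iso Y') (h : X.IC Y) :
    X'.IC Y' := by
  obtain ⟨e⟩ := h
  obtain ⟨f⟩ := conv_iso hX hY
  obtain ⟨g⟩ := conv_iso hY hX
  exact ⟨(f.symm.trans e).trans g⟩

theorem ic_mir {X Y : SMod D} (h : X.IC Y) : X.mir.IC Y.mir := by
  obtain ⟨e⟩ := h
  obtain ⟨c⟩ := Mir.cast (D := D) (M := X.conv Y) (Nat.add_comm Y.n X.n)
  exact ⟨((SMod.mirConv Y X).trans (Mir.mapEquiv D (Y.n + X.n) e.symm)).trans
    (c.trans (SMod.mirConv X Y).symm)⟩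

section

variable {Lp : I → ℕ → SMod D} (hC : CFacts D Lp)

include hC in
theorem ic_mirS {X Y : Sm D} (h : In.IC X Y) : In.IC (In.mirS X) (In.mirS Y) :=
  ic_congr (Sm.iso_rep hC (Sm.ch_rep_cls _).symm) (Sm.iso_rep hC (Sm.ch_rep_cls _).symm)
    (ic_mir h)

theorem hd_ic (hb : S_basis D) (i : I) (C X Z : Sm D) (h : In.IC (Sm.lt Lp i) C)
    (hq : In.Hd C X Z) : Sm.eps hC i Z = Sm.eps hC i C + Sm.eps hC i X ∧
      In.Hd (Sm.E hC i C) (Sm.E hC i X) (Sm.E hC i Z) := by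
  have h1 : (Lp i 1).IC C.rep :=
    ic_congr (Sm.iso_rep hC (Sm.ch_rep_cls _)) (SMod.Iso.refl _) h
  obtain ⟨Z', h2, h3⟩ := Mo.hdc D Lp ⟨hb, hC⟩ i _ _ _ _ _ _ _ h1 (Sm.emax hC i C)
    (Sm.emax hC i X) hq
  obtain ⟨h4, h5⟩ := Sm.eps_E_of_emax hC (Y := Sm.cls Z')
    (h2.congr rfl (Sm.ch_rep_cls _).symm)
  refine ⟨h4, ?_⟩
  rw [h5]
  exact SMod.quo_iso (Sm.iso_rep hC (Sm.ch_rep_cls _).symm) h3

end

end XIHDI

namespace In

variable {Lp : I → ℕ → SMod D} (hC : CFacts D Lp) (hconv : S_conv D)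

theorem I_HDI (hb : S_basis D) (hm : StMir hC hconv) : StHdi hC where
  hd_ic := fun i C X Z h hq => XIHDI.hd_ic hC hb i C X Z h hq
  hd_ic' := fun i C X Z h hq => by
    have h1 : IC (Sm.lt Lp i) (mirS C) := by
      have h2 := XIHDI.ic_mirS hC h
      rwa [hm.lt] at h2
    have h2 : Hd (mirS C) (mirS X) (mirS Z) := (hm.hd _ _ _).2 hq
    obtain ⟨h3, h4⟩ := XIHDI.hd_ic hC hb i _ _ _ h1 h2
    exact ⟨h3, (hm.hd _ _ _).2 h4⟩

end In

end Pool.Agent.KLS

end

section

/-! MP_e487d8_al: the quotients of `L(i^m) ∘ W`. -/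

set_option autoImplicit false

open Pool.Agent.E487.Hopf Pool.Agent.KLSAbs

namespace Pool.Agent.KLS

variable {K I : Type} [Field K] [Fintype I] [DecidableEq I] {D : Datum K I}

namespace In

section

variable {Lp : I → ℕ → SMod D} (hC : CFacts D Lp) (hconv : S_conv D)

/-- **HDL** -/
theorem I_HDL (hb : S_basis D) (hl : StLtp hC hconv) : StHdl hC hconv := by
  have _ := hb
  intro i m L W Z hL
  rw [hl.pow i m] at hL
  have hL' : Sm.cls (Lp i m) = L := (b hC hconv).injective hL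
  subst hL'
  have hiso : (Lp i m).Iso (Sm.cls (Lp i m)).rep := Sm.iso_rep hC (Sm.ch_rep_cls _).symm
  have key : ∀ Z : Sm D, Hd (Sm.cls (Lp i m)) W Z →
      Sm.eps hC i Z = Sm.eps hC i W + m ∧ Sm.E hC i Z = Sm.E hC i W := by
    intro Z hZ
    have h1 : Quo D Z.rep.M ((Lp i m).conv W.rep) :=
      SMod.quo_congr hiso.symm (SMod.Iso.refl _) (SMod.Iso.refl _) hZ
    have h2 := hC.hd_Emax i m (Sm.eps hC i W) W.rep (Sm.E hC i W).rep Z.rep
      (Sm.emax hC i W) h1
    obtain ⟨h3, h4⟩ := Sm.eps_E_of_emax hC h2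
    exact ⟨by rw [h3]; omega, h4⟩
  constructor
  · exact key Z
  · rintro ⟨h1, h2⟩
    have := Sm.conv_nontrivial hconv (Sm.cls (Lp i m)).rep W.rep
    obtain ⟨Z', _, hZ'⟩ := Sm.exists_quo (Sm.fd_conv hconv (Sm.cls (Lp i m)).rep W.rep)
    have h3 : Hd (Sm.cls (Lp i m)) W (Sm.cls Z') :=
      quo_congr' (Sm.iso_rep hC (Sm.ch_rep_cls Z').symm) hZ'
    obtain ⟨h4, h5⟩ := key _ h3
    have h6 : Sm.cls Z' = Z := Sm.eps_inj hC (h4.trans h1.symm) (h5.trans h2.symm)
    rw [← h6]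
    exact h3

end

end In

end Pool.Agent.KLS

end

section

/-! MP_e487d8_al: the mirror of the isomorphism classes of simple modules. -/

set_option autoImplicit false
set_option linter.unusedSectionVars false

open Pool.Agent.E487.Hopf Pool.Agent.KLSAbs

namespace Pool.Agent.KLS

variable {K I : Type} [Field K] [Fintype I] [DecidableEq I] {D : Datum K I}

namespace XIMIR

theorem apply (X : Sm D) (ν : List I) : (In.mirS X).1 ν = X.1 ν.reverse := by
  show X.rep.mir.ch ν = X.1 ν.reverse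
  rw [SMod.ch_mir, X.ch_rep]

theorem mir_mir (X : Sm D) : In.mirS (In.mirS X) = X :=
  Sm.ext' fun ν => by rw [apply, apply, List.reverse_reverse]

theorem mirS_injective : Function.Injective (In.mirS : Sm D → Sm D) :=
  Function.LeftInverse.injective mir_mir

theorem wt (X : Sm D) : Sm.wt (In.mirS X) = Sm.wt X := by
  ext i
  obtain ⟨ν, hν⟩ := X.exists_ne
  have h1 : (In.mirS X).1 ν.reverse ≠ 0 := by rwa [apply, List.reverse_reverse]
  rw [← Sm.count_eq h1, ← Sm.count_eq hν, List.count_reverse]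

theorem one : In.mirS (Sm.one D) = Sm.one D :=
  Sm.ext' fun ν => by
    rw [apply, Sm.one_apply, Sm.one_apply]
    exact if_congr List.reverse_eq_nil_iff rfl rfl

theorem rev_rev (f : Sh I ℚ) : XK1M.rev (XK1M.rev f) = f := by
  apply Sh.ext'
  intro w
  rw [XK1M.rev_apply, XK1M.rev_apply, List.reverse_reverse]

theorem rev_inj {f g : Sh I ℚ} : XK1M.rev f = XK1M.rev g ↔ f = g :=
  ⟨fun h => by rw [← rev_rev f, ← rev_rev g, h], congrArg _⟩

theorem rev_chq (X : Sm D) : XK1M.rev (Sm.chq X) = Sm.chq (In.mirS X) := by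
  apply Sh.ext'
  intro w
  show ((X.1 w.reverse : ℕ) : ℚ) = (((In.mirS X).1 w : ℕ) : ℚ)
  rw [apply]

theorem rev_comb (Q : Sm D →₀ ℕ) :
    XK1M.rev (Sm.comb Q) = Sm.comb (Q.mapDomain In.mirS) := by
  apply Sh.ext'
  intro w
  rw [XK1M.rev_apply, Sm.comb_apply, Sm.comb_apply, Finsupp.sum_mapDomain_index
    (fun _ => zero_mul _) (fun _ _ _ => add_mul _ _ _)]
  congr 1
  refine Finsupp.sum_congr fun X _ => ?_
  rw [apply]

variable {Lp : I → ℕ → SMod D} (hC : CFacts D Lp) (hconv : S_conv D)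

include hC in
theorem lt (i : I) : In.mirS (Sm.lt Lp i) = Sm.lt Lp i :=
  Sm.ext' fun ν => by
    rw [apply, Sm.lt_apply hC, Sm.lt_apply hC]
    exact if_congr (by rw [List.reverse_eq_iff, List.reverse_singleton]) rfl rfl

theorem co (X Y : Sm D) : Sm.co hC hconv (In.mirS X) (In.mirS Y) =
    (Sm.co hC hconv X Y).mapDomain In.mirS := by
  apply Sm.comb_inj hC
  rw [← Sm.chq_mul, ← rev_chq, ← rev_chq, ← XK1M.rev_mul, Sm.chq_mul hC hconv, rev_comb]

theorem co_apply (X Y Z : Sm D) : Sm.co hC hconv (In.mirS X) (In.mirS Y) (In.mirS Z) =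
    Sm.co hC hconv X Y Z := by
  rw [co, Finsupp.mapDomain_apply mirS_injective]

theorem val_b (X : Sm D) : (In.b hC hconv X).1 = Sm.chq X := by
  show (Sm.bas hC hconv X).1 = Sm.chq X
  rw [Sm.bas_apply]
  rfl

theorem mul_iff {X Y Z : Sm D} : In.b hC hconv X * In.b hC hconv Y = In.b hC hconv Z ↔
    Sm.chq X * Sm.chq Y = Sm.chq Z := Sm.gr_mul_iff hC hconv

theorem pow_iff {X Z : Sm D} {n : ℕ} : In.b hC hconv X ^ n = In.b hC hconv Z ↔
    Sm.chq X ^ n = Sm.chq Z := by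
  rw [← val_b hC hconv, ← val_b hC hconv, Subtype.ext_iff]
  rfl

include hC in
theorem iso_mirS (X : Sm D) : (In.mirS X).rep.Iso X.rep.mir :=
  Sm.iso_rep hC (Sm.ch_rep_cls X.rep.mir)

include hC in
theorem hd (X Y Z : Sm D) : In.Hd (In.mirS X) (In.mirS Y) (In.mirS Z) ↔ In.Hd Y X Z := by
  refine Iff.trans ⟨fun h => ?_, fun h => ?_⟩
    (SMod.quo_conv_mir_iff (X := Y.rep) (Y := X.rep) (Z := Z.rep))
  · exact SMod.quo_congr (iso_mirS hC X) (iso_mirS hC Y) (iso_mirS hC Z) h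
  · exact SMod.quo_congr (iso_mirS hC X).symm (iso_mirS hC Y).symm (iso_mirS hC Z).symm h

end XIMIR

namespace In

variable {Lp : I → ℕ → SMod D} (hC : CFacts D Lp) (hconv : S_conv D)

open XIMIR in
/-- **MIR** -/
theorem I_MIR (hb : S_basis D) : StMir hC hconv where
  mir_mir := XIMIR.mir_mir
  apply := XIMIR.apply
  wt := XIMIR.wt
  one := XIMIR.one
  lt := XIMIR.lt hC
  co := XIMIR.co_apply hC hconv
  mul X Y Z := by
    rw [mul_iff, mul_iff, ← rev_chq, ← rev_chq, ← rev_chq, ← XK1M.rev_mul, rev_inj]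
  pow X Z n := by
    rw [pow_iff, pow_iff, ← rev_chq, ← rev_chq, ← XK1M.rev_pow, rev_inj]
  hd := XIMIR.hd hC

end In

end Pool.Agent.KLS

end

section

/-! MP_e487d8_al: the primed crystal from the mirror. -/

set_option autoImplicit false

open Pool.Agent.E487.Hopf Pool.Agent.KLSAbs

namespace Pool.Agent.KLS

variable {K I : Type} [Field K] [Fintype I] [DecidableEq I] {D : Datum K I}

namespace In

variable {Lp : I → ℕ → SMod D} (hC : CFacts D Lp) (hconv : S_conv D)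

namespace XIPRI

theorem ex_eps (X : Sm D) (h : X ≠ Sm.one D) : ∃ i, Sm.eps hC i X ≠ 0 := by
  obtain ⟨ν, hν⟩ := X.exists_ne
  cases ν with
  | nil =>
    refine absurd (Sm.eq_one_of_len ?_) h
    rw [← Sm.length_of_ne hν]
    rfl
  | cons i ν => exact ⟨i, (Sm.eps_pos_of_ne hC hν).ne'⟩

variable {hC hconv}

theorem inj (hm : StMir hC hconv) {X Y : Sm D} (h : mirS X = mirS Y) : X = Y := by
  rw [← hm.mir_mir X, h, hm.mir_mir]

theorem mirE' (hm : StMir hC hconv) (i : I) (X : Sm D) :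
    mirS (E' hC i X) = Sm.E hC i (mirS X) := hm.mir_mir _

end XIPRI

open XIPRI in
/-- the primed crystal -/
theorem I_PRI (hm : StMir hC hconv) : StPri hC hconv where
  ex_eps := ex_eps hC
  eps_E' i X := by
    unfold eps'
    rw [mirE' hm, Sm.eps_E]
  E_of_eps' i X h := by
    have h1 : Sm.eps hC i (mirS X) = 0 := h
    unfold E'
    rw [Sm.E_of_eps hC h1, hm.mir_mir]
  eps_inj' i X Y h h' := by
    have h1 : Sm.eps hC i (mirS X) = Sm.eps hC i (mirS Y) := h
    have h2 : Sm.E hC i (mirS X) = Sm.E hC i (mirS Y) := by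
      rw [← mirE' hm, ← mirE' hm, h']
    exact inj hm (Sm.eps_inj hC h1 h2)
  eps_surj' i a X h := by
    have h1 : Sm.eps hC i (mirS X) = 0 := h
    obtain ⟨Y, h2, h3⟩ := Sm.eps_surj hC hconv i a h1
    refine ⟨mirS Y, ?_, ?_⟩
    · unfold eps'
      rw [hm.mir_mir, h2]
    · unfold E'
      rw [hm.mir_mir, h3, hm.mir_mir]
  wt_E' i X := by
    have h1 := Sm.wt_E hC i (mirS X)
    rw [hm.wt] at h1
    unfold E' eps'
    rw [hm.wt, ← h1]
  eps_co' i X Y Z h := by
    rw [← hm.co] at h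
    exact Sm.eps_co hC hconv h
  co_E' i X Y Z h := by
    have h1 : Sm.eps hC i (mirS Z) = Sm.eps hC i (mirS X) + Sm.eps hC i (mirS Y) := h
    rw [← hm.co, Sm.co_E hC hconv h1]
    exact (hm.co _ _ _).symm
  ex_eps' X h := by
    refine ex_eps hC (mirS X) fun h1 => h ?_
    rw [← hm.mir_mir X, h1, hm.one]

end In

end Pool.Agent.KLS

end

section

/-! MP_e487d8_al: the instance of the abstract interface `Sys2` for the KLR algebra: assembly. -/

set_option autoImplicit false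

open Pool.Agent.E487.Hopf Pool.Agent.KLSAbs

open scoped LaurentPolynomial

namespace Pool.Agent.KLS

variable {K I : Type} [Field K] [Fintype I] [DecidableEq I] {D : Datum K I}

namespace In

variable {Lp : I → ℕ → SMod D} (hC : CFacts D Lp) (hconv : S_conv D)

/-- all statements without the graded Grothendieck ring -/
structure Facts : Prop where
  mir : StMir hC hconv
  epss : StEpss hC
  pri : StPri hC hconv
  adm : StAdm hC hconv
  ltp : StLtp hC hconv
  chi : StChi hC hconv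
  de : StDe hC hconv
  dep : StDep hC hconv
  dr : StDr hC hconv
  hdb : StHdb hC hconv
  hda : StHda hC hconv
  hds : StHds hC hconv
  hdl : StHdl hC hconv
  hdlp : StHdlp hC hconv
  icb : StIcb hC hconv
  hdi : StHdi hC
  tr : StTr hC hconv
  k1 : StK1s' hC hconv
  k4 : StK4s hC hconv
  ds : StDss hC hconv
  lbf : StLbs hC hconv

/-- the graded Grothendieck ring -/
structure GrPart (G : Type) [Ring G] [Algebra ℤ[T;T⁻¹] G] where
  gb : Module.Basis (Sm D) ℤ[T;T⁻¹] G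
  gb_one : gb (Sm.one D) = 1
  gb_pos : ∀ X Y Z n, 0 ≤ cfK gb (gb X * gb Y) Z n
  ev : G →+* Sm.Gr hC hconv
  ev_gb : ∀ X, ev (gb X) = b hC hconv X
  ev_T : ∀ (n : ℤ) (V : G), ev ((LaurentPolynomial.T n : ℤ[T;T⁻¹]) • V) = ev V
  lam_E : ∀ i C Y Z a, b hC hconv C * b hC hconv Y = b hC hconv Z →
    gb Y * gb C = (LaurentPolynomial.T a : ℤ[T;T⁻¹]) • (gb C * gb Y) →
    gb (Sm.E hC i Y) * gb (Sm.E hC i C) = (LaurentPolynomial.T (a -
      (Sm.eps hC i Y : ℤ) * sumW (fun j => D.d i * D.A i j) (Sm.wt (Sm.E hC i C)) +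
      (Sm.eps hC i C : ℤ) * sumW (fun j => D.d i * D.A i j) (Sm.wt (Sm.E hC i Y))) :
      ℤ[T;T⁻¹]) • (gb (Sm.E hC i C) * gb (Sm.E hC i Y))
  lam_E' : ∀ i C Y Z a, b hC hconv C * b hC hconv Y = b hC hconv Z →
    gb C * gb Y = (LaurentPolynomial.T a : ℤ[T;T⁻¹]) • (gb Y * gb C) →
    gb (E' hC i C) * gb (E' hC i Y) = (LaurentPolynomial.T (a -
      (eps' hC i Y : ℤ) * sumW (fun j => D.d i * D.A i j) (Sm.wt (E' hC i C)) +
      (eps' hC i C : ℤ) * sumW (fun j => D.d i * D.A i j) (Sm.wt (E' hC i Y))) :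
      ℤ[T;T⁻¹]) • (gb (E' hC i Y) * gb (E' hC i C))
  hd_deg : ∀ B, ∃ P : G, (∀ Z n, 0 ≤ cfK gb P Z n) ∧ ∀ X Z, Hd1 X B Z → ∃ s D' : ℤ,
    cfK gb (gb X * gb B) Z s ≠ 0 ∧ cfK gb (P * gb X) Z (s + D') ≠ 0 ∧
    ∀ W n, cfK gb (gb X * gb B) W n ≠ 0 → ∃ e : ℕ, cfK gb (P * gb X) W (n + D' - e) ≠ 0
  hd_deg' : ∀ B, ∃ P : G, (∀ Z n, 0 ≤ cfK gb P Z n) ∧ ∀ X Z, Hd1 B X Z → ∃ s D' : ℤ,
    cfK gb (gb B * gb X) Z s ≠ 0 ∧ cfK gb (gb X * P) Z (s + D') ≠ 0 ∧
    ∀ W n, cfK gb (gb B * gb X) W n ≠ 0 → ∃ e : ℕ, cfK gb (gb X * P) W (n + D' - e) ≠ 0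

/-- the instance of the abstract interface -/
noncomputable def sys2 (F : Facts hC hconv) {G : Type} [Ring G] [Algebra ℤ[T;T⁻¹] G]
    (g : GrPart hC hconv G) : Sys2 I (Sm D) (Sm.Gr hC hconv) G where
  A i j := D.d i * D.A i j
  car := D.A
  dg := D.d
  dg_pos := D.d_pos
  A_car _ _ := rfl
  A_symm i j := D.symm i j
  car_diag := D.diag
  car_nonpos := D.nonpos
  b := Sm.bas hC hconv
  co := Sm.co hC hconv
  b_mul X Y := by
    rw [Sm.bas_apply, Sm.bas_apply]
    refine Subtype.ext ?_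
    show Sm.chq X * Sm.chq Y = (Sm.Gr hC hconv).val.toLinearMap _
    rw [Sm.chq_mul hC hconv, Sm.comb_eq, map_finsuppSum]
    refine Finsupp.sum_congr fun Z _ => ?_
    rw [Sm.bas_apply]
    rfl
  one := Sm.one D
  b_one := by
    rw [Sm.bas_apply]
    exact Subtype.ext Sm.chq_one
  wt := Sm.wt
  wt_co _ _ _ h := Sm.wt_co hC hconv h
  wt_zero _ h := Sm.wt_zero h
  lt := Sm.lt Lp
  wt_lt := F.ltp.wt_lt
  lt_pow := F.ltp.lt_pow
  gb := g.gb
  gb_one := g.gb_one
  gb_pos := g.gb_pos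
  ev := g.ev
  ev_gb := g.ev_gb
  ev_T := g.ev_T
  chi := F.chi.choose
  chi_pos := F.chi.choose_spec
  eps := Sm.eps hC
  E := Sm.E hC
  eps_E := Sm.eps_E hC
  E_of_eps _ _ h := Sm.E_of_eps hC h
  eps_inj _ _ _ h h' := Sm.eps_inj hC h h'
  eps_surj i a _ h := Sm.eps_surj hC hconv i a h
  wt_E := Sm.wt_E hC
  eps_co _ _ _ _ h := Sm.eps_co hC hconv h
  co_E _ _ _ _ h := Sm.co_E hC hconv h
  Ad_E := Sm.ad_E hC hconv
  ex_eps := F.pri.ex_eps
  eps' := eps' hC
  E' := E' hC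
  eps_E' := F.pri.eps_E'
  E_of_eps' := F.pri.E_of_eps'
  eps_inj' := F.pri.eps_inj'
  eps_surj' := F.pri.eps_surj'
  wt_E' := F.pri.wt_E'
  eps_co' := F.pri.eps_co'
  co_E' := F.pri.co_E'
  Ad_E' := F.adm.Ad_E'
  ex_eps' := F.pri.ex_eps'
  ad_mirror := F.adm.ad_mirror
  ad_co := F.adm.ad_co
  de := de hC hconv
  de_mul := F.de.de_mul
  de_pos := F.de.de_pos
  de_top := F.de.de_top
  de_zero := F.de.de_zero
  de' := de' hC hconv
  de_mul' := F.dep.de_mul'
  de_pos' := F.dep.de_pos'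
  de_top' := F.dep.de_top'
  de_zero' := F.dep.de_zero'
  de_comm := F.de.de_comm
  lam_E := g.lam_E
  lam_E' := g.lam_E'
  d_nonneg := F.dr.d_nonneg
  cm_lt := F.dr.cm_lt
  d_f := F.dr.d_f
  d_f' := F.dr.d_f'
  Hd := Hd
  hd_ex := F.hdb.hd_ex
  hd_co := F.hdb.hd_co
  hd_eps := F.hdb.hd_eps
  hd_eps' := F.hdb.hd_eps'
  hd_as := F.hda.hd_as
  hd_as' := F.hda.hd_as'
  s2 := F.hds
  hd_lt := F.hdl
  hd_lt' := F.hdlp
  IC := IC
  ic_refl := F.icb.ic_refl
  ic_symm := F.icb.ic_symm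
  ic_cm := F.icb.ic_cm
  ic_mul := F.icb.ic_mul
  ic_hd := F.icb.ic_hd
  hd_ic := F.hdi.hd_ic
  hd_ic' := F.hdi.hd_ic'
  Hd1 := Hd1
  hd1_hd := F.k1.hd1_hd
  hd1_eq := F.k1.hd1_eq
  k1 := F.k1.k1
  k1' := F.k1.k1'
  k4 := F.k4.k4
  k4' := F.k4.k4'
  ds := F.ds.ds
  ds' := F.ds.ds'
  lbf := F.lbf.lbf
  lbf' := F.lbf.lbf'
  hd_deg := g.hd_deg
  hd_deg' := g.hd_deg'

end In

end Pool.Agent.KLS

end
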