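import Pool.Agent.Work.MP_e487d8_al.Bd.B03
import Pool.Agent.Work.MP_e487d8_al.Bd.B01

/-! Bundle of small proof modules (one section per former module). -/

section

/-! MP_e487d8_al, abstract part: products. -/

set_option autoImplicit false

namespace Pool.Agent.KLSAbs

open scoped LaurentPolynomial

variable {I S O K : Type} [DecidableEq I] [CommRing O] [Algebra ℚ O] [Ring K]
  [Algebra ℤ[T;T⁻¹] K] (D : Sys2 I S O K)

namespace Sys2

/-- `X ∘ Y` is simple -/
def Cm (X Y : S) : Prop := ∃ Z, D.b X * D.b Y = D.b Z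

/-- all powers of `X` are simple -/
def SR (X : S) : Prop := PSR D.b X

/-- `C^n ∘ X` is simple for all `n` -/
def SC (C X : S) : Prop := PSC D.b C X

/-- for every simple `X` some simple quotient of some `C^n ∘ X` strongly commutes with `C` -/
def Dag (C : S) : Prop := PDag D.b D.Hd C

/-- the mirror of `Dag` -/
def Dag' (C : S) : Prop := PDag D.b (fun X Y => D.Hd Y X) C

theorem Cm.symm {D : Sys2 I S O K} {X Y : S} (h : D.Cm X Y) : D.Cm Y X := by
  obtain ⟨Z, hZ⟩ := h
  exact ⟨Z, by rw [mul_comm]; exact hZ⟩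

theorem co_of_mul {X Y Z : S} (h : D.b X * D.b Y = D.b Z) : D.co X Y Z = 1 := by
  classical
  have h1 := D.repr_mul X Y Z
  rw [h, Module.Basis.repr_self, Finsupp.single_eq_same] at h1
  exact_mod_cast h1.symm

theorem co_of_mul' {X Y Z W : S} (h : D.b X * D.b Y = D.b Z) (hW : D.co X Y W ≠ 0) : W = Z := by
  classical
  by_contra hne
  have h1 := D.repr_mul X Y W
  rw [h, Module.Basis.repr_self, Finsupp.single_apply, if_neg (Ne.symm hne)] at h1
  exact hW (by exact_mod_cast h1.symm)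

/-- span of the basis elements with the property `p` -/
def SS (p : S → Prop) : Submodule ℚ O := Submodule.span ℚ (D.b '' {X | p X})

theorem mem_SS {p : S → Prop} {g : O} : g ∈ D.SS p ↔ ∀ Y, D.b.repr g Y ≠ 0 → p Y := by
  rw [SS, Module.Basis.mem_span_image]
  constructor
  · intro h Y hY
    exact h (by simpa using hY)
  · intro h Y hY
    exact h Y (by simpa using hY)

theorem b_mem_SS {p : S → Prop} {X : S} : D.b X ∈ D.SS p ↔ p X := by
  classical
  rw [mem_SS]
  constructor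
  · intro h
    exact h X (by simp)
  · intro h Y hY
    rw [Module.Basis.repr_self, Finsupp.single_apply] at hY
    by_cases hXY : X = Y
    · rw [← hXY]; exact h
    · rw [if_neg hXY] at hY
      exact absurd rfl hY

theorem SS_mono {p q : S → Prop} (h : ∀ X, p X → q X) : D.SS p ≤ D.SS q :=
  Submodule.span_mono (Set.image_mono h)

theorem SS_le {p : S → Prop} {P : Submodule ℚ O} (h : ∀ X, p X → D.b X ∈ P) : D.SS p ≤ P := by
  rw [SS, Submodule.span_le]
  rintro _ ⟨X, hX, rfl⟩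
  exact h X hX

theorem mul_mem_SS {p : S → Prop} {X Y : S} (h : ∀ Z, D.co X Y Z ≠ 0 → p Z) :
    D.b X * D.b Y ∈ D.SS p := by
  rw [mem_SS]
  intro Z hZ
  rw [repr_mul] at hZ
  exact h Z (by exact_mod_cast hZ)

theorem SS_mul {p q r : S → Prop} (h : ∀ X Y Z, p X → q Y → D.co X Y Z ≠ 0 → r Z) {g k : O}
    (hg : g ∈ D.SS p) (hk : k ∈ D.SS q) : g * k ∈ D.SS r := by
  have h1 : D.SS p * D.SS q ≤ D.SS r := by
    rw [SS, SS, Submodule.span_mul_span, Submodule.span_le]
    rintro _ ⟨_, ⟨X, hX, rfl⟩, _, ⟨Y, hY, rfl⟩, rfl⟩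
    exact D.mul_mem_SS fun Z hZ => h X Y Z hX hY hZ
  exact h1 (Submodule.mul_mem_mul hg hk)

theorem mem_SS_top (g : O) : g ∈ D.SS fun _ => True := by
  rw [mem_SS]; intros; trivial

end Sys2

end Pool.Agent.KLSAbs

end

section

/-! MP_e487d8_al, part 3: products, `e_i^max`, strings, leading constituents (port of
`Abs/Basic.lean`, `Abs/Str.lean`). -/

set_option autoImplicit false

namespace Pool.Agent.KLT

variable {I S O : Type} [DecidableEq I] [CommRing O] [Algebra ℚ O] (D : Pre I S O)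

namespace Pre

theorem b_inj {X Y : S} (h : D.b X = D.b Y) : X = Y := D.b.injective h

theorem Cm.symm {D : Pre I S O} {X Y : S} (h : D.Cm X Y) : D.Cm Y X := by
  obtain ⟨Z, hZ⟩ := h
  exact ⟨Z, by rw [mul_comm]; exact hZ⟩

theorem repr_mul (X Y Z : S) : D.b.repr (D.b X * D.b Y) Z = (D.co X Y Z : ℚ) := by
  classical
  rw [D.b_mul, Finsupp.sum, map_sum, Finsupp.finsetSum_apply]
  simp only [map_smul, Module.Basis.repr_self, Finsupp.smul_apply, Finsupp.single_apply,
    smul_eq_mul, mul_ite, mul_one, mul_zero]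
  rw [Finset.sum_ite_eq' (D.co X Y).support Z fun W => ((D.co X Y W : ℕ) : ℚ)]
  by_cases h : Z ∈ (D.co X Y).support
  · rw [if_pos h]
  · rw [if_neg h]
    rw [Finsupp.notMem_support_iff] at h
    rw [h]; simp

theorem co_of_mul {X Y Z : S} (h : D.b X * D.b Y = D.b Z) : D.co X Y Z = 1 := by
  classical
  have h1 := D.repr_mul X Y Z
  rw [h, Module.Basis.repr_self, Finsupp.single_eq_same] at h1
  exact_mod_cast h1.symm

theorem co_of_mul' {X Y Z W : S} (h : D.b X * D.b Y = D.b Z) (hW : D.co X Y W ≠ 0) : W = Z := by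
  classical
  by_contra hne
  have h1 := D.repr_mul X Y W
  rw [h, Module.Basis.repr_self, Finsupp.single_apply, if_neg (Ne.symm hne)] at h1
  exact hW (by exact_mod_cast h1.symm)

theorem mem_SS {p : S → Prop} {g : O} : g ∈ D.SS p ↔ ∀ Y, D.b.repr g Y ≠ 0 → p Y := by
  rw [SS, Module.Basis.mem_span_image]
  constructor
  · intro h Y hY
    exact h (by simpa using hY)
  · intro h Y hY
    exact h Y (by simpa using hY)

theorem b_mem_SS {p : S → Prop} {X : S} : D.b X ∈ D.SS p ↔ p X := by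
  classical
  rw [mem_SS]
  constructor
  · intro h
    exact h X (by simp)
  · intro h Y hY
    rw [Module.Basis.repr_self, Finsupp.single_apply] at hY
    by_cases hXY : X = Y
    · rw [← hXY]; exact h
    · rw [if_neg hXY] at hY
      exact absurd rfl hY

theorem SS_mono {p q : S → Prop} (h : ∀ X, p X → q X) : D.SS p ≤ D.SS q :=
  Submodule.span_mono (Set.image_mono h)

theorem SS_le {p : S → Prop} {P : Submodule ℚ O} (h : ∀ X, p X → D.b X ∈ P) : D.SS p ≤ P := by
  rw [SS, Submodule.span_le]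
  rintro _ ⟨X, hX, rfl⟩
  exact h X hX

theorem mul_mem_SS {p : S → Prop} {X Y : S} (h : ∀ Z, D.co X Y Z ≠ 0 → p Z) :
    D.b X * D.b Y ∈ D.SS p := by
  rw [mem_SS]
  intro Z hZ
  rw [repr_mul] at hZ
  exact h Z (by exact_mod_cast hZ)

theorem SS_mul {p q r : S → Prop} (h : ∀ X Y Z, p X → q Y → D.co X Y Z ≠ 0 → r Z) {g k : O}
    (hg : g ∈ D.SS p) (hk : k ∈ D.SS q) : g * k ∈ D.SS r := by
  have h1 : D.SS p * D.SS q ≤ D.SS r := by
    rw [SS, SS, Submodule.span_mul_span, Submodule.span_le]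
    rintro _ ⟨_, ⟨X, hX, rfl⟩, _, ⟨Y, hY, rfl⟩, rfl⟩
    exact D.mul_mem_SS fun Z hZ => h X Y Z hX hY hZ
  exact h1 (Submodule.mul_mem_mul hg hk)

theorem mem_SS_top (g : O) : g ∈ D.SS fun _ => True := by
  rw [mem_SS]; intros; trivial

theorem wt_one : D.wt D.one = 0 := by
  have h : D.b D.one * D.b D.one = D.b D.one := by rw [D.b_one, mul_one]
  have h1 := D.wt_co D.one D.one D.one (by rw [D.co_of_mul h]; exact one_ne_zero)
  have h2 : D.wt D.one + D.wt D.one = D.wt D.one + 0 := by rw [add_zero]; exact h1.symm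
  exact add_left_cancel h2

theorem eps_one (i : I) : D.eps i D.one = 0 := by
  have h := D.wt_E i D.one
  rw [D.wt_one] at h
  have h1 := DFunLike.congr_fun h i
  simp only [Finsupp.coe_zero, Pi.zero_apply, Finsupp.add_apply, Finsupp.single_eq_same] at h1
  omega

theorem E_one (i : I) : D.E i D.one = D.one := D.E_of_eps i _ (D.eps_one i)

theorem E_E (i : I) (X : S) : D.E i (D.E i X) = D.E i X := D.E_of_eps i _ (D.eps_E i X)

theorem cm_one (X : S) : D.Cm X D.one := ⟨X, by rw [D.b_one, mul_one]⟩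

theorem cm_one' (X : S) : D.Cm D.one X := ⟨X, by rw [D.b_one, one_mul]⟩

/-! ### positivity -/

/-- the sum of the coefficients -/
noncomputable def sg1 : O →ₗ[ℚ] ℚ := D.b.constr ℚ fun _ => (1 : ℚ)

theorem sg1_b (X : S) : D.sg1 (D.b X) = 1 := by
  rw [sg1, Module.Basis.constr_basis]

theorem sg1_mul (X Y : S) : D.sg1 (D.b X * D.b Y) = ((D.co X Y).sum fun _ n => n : ℕ) := by
  rw [D.b_mul, Finsupp.sum, map_sum, Finsupp.sum]
  push_cast
  refine Finset.sum_congr rfl fun Z _ => ?_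
  rw [map_smul, sg1_b, smul_eq_mul, mul_one]

variable [IsDomain O]

theorem exists_co (X Y : S) : ∃ Z, D.co X Y Z ≠ 0 := by
  by_contra h
  push Not at h
  have h1 : D.b X * D.b Y = 0 := by
    rw [D.b_mul]
    have : D.co X Y = 0 := Finsupp.ext h
    rw [this, Finsupp.sum_zero_index]
  rcases mul_eq_zero.1 h1 with h2 | h2
  · exact D.b.ne_zero X h2
  · exact D.b.ne_zero Y h2

theorem one_le_sum (X Y : S) : 1 ≤ ((D.co X Y).sum fun _ n => n) := by
  obtain ⟨Z, hZ⟩ := D.exists_co X Y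
  rw [Finsupp.sum]
  calc 1 ≤ D.co X Y Z := Nat.one_le_iff_ne_zero.2 hZ
    _ ≤ ∑ a ∈ (D.co X Y).support, D.co X Y a :=
      Finset.single_le_sum (f := fun a => D.co X Y a) (fun _ _ => Nat.zero_le _)
        (Finsupp.mem_support_iff.2 hZ)

/-- if `C ∘ (C' ∘ X)` is simple then `C' ∘ X` is simple -/
theorem cm_of_mul_mul {C C' X Z : S} (h : D.b C * (D.b C' * D.b X) = D.b Z) : D.Cm C' X := by
  classical
  have h1 : D.sg1 (D.b C * (D.b C' * D.b X)) = 1 := by rw [h, sg1_b]
  rw [D.b_mul C' X, Finsupp.sum, Finset.mul_sum, map_sum] at h1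
  have h2 : ∀ W ∈ (D.co C' X).support, (D.co C' X W : ℚ) ≤
      D.sg1 (D.b C * ((D.co C' X W : ℚ) • D.b W)) := by
    intro W _
    rw [mul_smul_comm, map_smul, sg1_mul, smul_eq_mul]
    have h3 := D.one_le_sum C W
    have h4 : (1 : ℚ) ≤ (((D.co C W).sum fun _ n => n : ℕ) : ℚ) := by exact_mod_cast h3
    nlinarith [Nat.cast_nonneg (α := ℚ) (D.co C' X W)]
  have h5 : (∑ W ∈ (D.co C' X).support, (D.co C' X W : ℚ)) ≤ 1 := by
    rw [← h1]
    exact Finset.sum_le_sum h2
  have h6 : (∑ W ∈ (D.co C' X).support, D.co C' X W) ≤ 1 := by exact_mod_cast h5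
  obtain ⟨Y, hY⟩ := D.exists_co C' X
  refine ⟨Y, ?_⟩
  have h7 : ∀ W ∈ (D.co C' X).support, W = Y := by
    intro W hW
    by_contra hne
    have hY' : Y ∈ (D.co C' X).support := Finsupp.mem_support_iff.2 hY
    have h8 : D.co C' X W + D.co C' X Y ≤ ∑ V ∈ (D.co C' X).support, D.co C' X V := by
      rw [← Finset.sum_pair hne]
      refine Finset.sum_le_sum_of_subset ?_
      intro V hV
      rw [Finset.mem_insert, Finset.mem_singleton] at hV
      rcases hV with rfl | rfl
      · exact hW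
      · exact hY'
    have h9 := Finsupp.mem_support_iff.1 hW
    omega
  have h10 : (D.co C' X).support = {Y} := by
    refine Finset.eq_singleton_iff_unique_mem.2 ⟨Finsupp.mem_support_iff.2 hY, h7⟩
  rw [D.b_mul, Finsupp.sum, h10, Finset.sum_singleton]
  rw [h10, Finset.sum_singleton] at h6
  have h11 : D.co C' X Y = 1 := by omega
  rw [h11, Nat.cast_one, one_smul]

/-! ### `e_i^max` on the level of `O` -/

/-- `e_i^(a)` on modules with `ε_i ≤ a` -/
noncomputable def tau (i : I) (a : ℕ) : O →ₗ[ℚ] O :=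
  open Classical in D.b.constr ℚ fun Y => if D.eps i Y = a then D.b (D.E i Y) else 0

omit [IsDomain O] in
theorem tau_b (i : I) (a : ℕ) (Y : S) :
    D.tau i a (D.b Y) = if D.eps i Y = a then D.b (D.E i Y) else 0 := by
  rw [tau, Module.Basis.constr_basis]

omit [IsDomain O] in
theorem tau_mul_b (i : I) (a a' : ℕ) {Y Y' : S} (h : D.eps i Y ≤ a) (h' : D.eps i Y' ≤ a') :
    D.tau i (a + a') (D.b Y * D.b Y') = D.tau i a (D.b Y) * D.tau i a' (D.b Y') := by
  classical
  rw [D.b_mul, Finsupp.sum, map_sum, tau_b, tau_b]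
  by_cases hh : D.eps i Y = a ∧ D.eps i Y' = a'
  · obtain ⟨h1, h2⟩ := hh
    rw [if_pos h1, if_pos h2, D.b_mul, Finsupp.sum]
    have h3 : ∀ Z ∈ (D.co Y Y').support, D.tau i (a + a') ((D.co Y Y' Z : ℚ) • D.b Z) =
        if D.eps i Z = a + a' then (D.co Y Y' Z : ℚ) • D.b (D.E i Z) else 0 := by
      intro Z _
      rw [map_smul, tau_b]
      split_ifs
      · rfl
      · rw [smul_zero]
    rw [Finset.sum_congr rfl h3, ← Finset.sum_filter]
    refine Finset.sum_bij (fun Z _ => D.E i Z) ?_ ?_ ?_ ?_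
    · intro Z hZ
      rw [Finset.mem_filter, Finsupp.mem_support_iff] at hZ
      rw [Finsupp.mem_support_iff, ← D.co_E i Y Y' Z (by rw [hZ.2, h1, h2])]
      exact hZ.1
    · intro Z hZ W hW hZW
      rw [Finset.mem_filter] at hZ hW
      exact D.eps_inj i Z W (hZ.2.trans hW.2.symm) hZW
    · intro W hW
      rw [Finsupp.mem_support_iff] at hW
      have h4 : D.eps i W = 0 := by
        have h5 := D.eps_co i _ _ _ hW
        rw [D.eps_E, D.eps_E] at h5
        omega
      obtain ⟨Z, hZ1, hZ2⟩ := D.eps_surj i (a + a') W h4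
      refine ⟨Z, ?_, hZ2⟩
      rw [Finset.mem_filter, Finsupp.mem_support_iff]
      refine ⟨?_, hZ1⟩
      rw [D.co_E i Y Y' Z (by rw [hZ1, h1, h2]), hZ2]
      exact hW
    · intro Z hZ
      rw [Finset.mem_filter] at hZ
      rw [D.co_E i Y Y' Z (by rw [hZ.2, h1, h2])]
  · have h1 : (if D.eps i Y = a then D.b (D.E i Y) else 0) *
        (if D.eps i Y' = a' then D.b (D.E i Y') else 0) = 0 := by
      by_cases h2 : D.eps i Y = a
      · rw [if_neg (fun h3 => hh ⟨h2, h3⟩), mul_zero]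
      · rw [if_neg h2, zero_mul]
    rw [h1]
    refine Finset.sum_eq_zero fun Z hZ => ?_
    rw [Finsupp.mem_support_iff] at hZ
    have h3 := D.eps_co i _ _ _ hZ
    rw [map_smul, tau_b, if_neg, smul_zero]
    intro h4
    exact hh ⟨by omega, by omega⟩

omit [IsDomain O] in
theorem tau_mul (i : I) (a a' : ℕ) {g g' : O} (h : g ∈ D.SS fun Y => D.eps i Y ≤ a)
    (h' : g' ∈ D.SS fun Y => D.eps i Y ≤ a') :
    D.tau i (a + a') (g * g') = D.tau i a g * D.tau i a' g' := by
  refine Submodule.span_induction (p := fun g _ =>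
    D.tau i (a + a') (g * g') = D.tau i a g * D.tau i a' g') ?_ ?_ ?_ ?_ h
  · rintro _ ⟨Y, hY, rfl⟩
    refine Submodule.span_induction (p := fun g' _ =>
      D.tau i (a + a') (D.b Y * g') = D.tau i a (D.b Y) * D.tau i a' g') ?_ ?_ ?_ ?_ h'
    · rintro _ ⟨Y', hY', rfl⟩
      exact D.tau_mul_b i a a' hY hY'
    · rw [mul_zero, map_zero, map_zero, mul_zero]
    · intro x y _ _ hx hy
      rw [mul_add, map_add, map_add, mul_add, hx, hy]
    · intro c x _ hx
      rw [mul_smul_comm, map_smul, map_smul, mul_smul_comm, hx]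
  · rw [zero_mul, map_zero, map_zero, zero_mul]
  · intro x y _ _ hx hy
    rw [add_mul, map_add, map_add, add_mul, hx, hy]
  · intro c x _ hx
    rw [smul_mul_assoc, map_smul, map_smul, smul_mul_assoc, hx]

theorem E_mul (i : I) {X Y Z : S} (h : D.b X * D.b Y = D.b Z) :
    D.eps i Z = D.eps i X + D.eps i Y ∧ D.b (D.E i X) * D.b (D.E i Y) = D.b (D.E i Z) := by
  have h1 := D.tau_mul_b i (D.eps i X) (D.eps i Y) (le_refl (D.eps i X)) (le_refl (D.eps i Y))
  rw [h, tau_b, tau_b, tau_b, if_pos rfl, if_pos rfl] at h1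
  by_cases h2 : D.eps i Z = D.eps i X + D.eps i Y
  · rw [if_pos h2] at h1
    exact ⟨h2, h1.symm⟩
  · exfalso
    rw [if_neg h2] at h1
    rcases mul_eq_zero.1 h1.symm with h3 | h3
    · exact D.b.ne_zero _ h3
    · exact D.b.ne_zero _ h3

/-! ### strings -/

/-- first entry -/
def hd (i : I) (w : List I) : V (i :: w) →ₗ[ℚ] ℚ where
  toFun v := v (0 : Fin (w.length + 1))
  map_add' _ _ := rfl
  map_smul' _ _ := rfl

/-- the other entries -/
def tl (i : I) (w : List I) : V (i :: w) →ₗ[ℚ] V w where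
  toFun v := fun k => v (Fin.succ k : Fin (w.length + 1))
  map_add' _ _ := rfl
  map_smul' _ _ := rfl

omit [DecidableEq I] in
theorem hd_cn (i : I) (w : List I) (v : ℚ × V w) : hd i w (cn i w v) = v.1 := rfl

omit [DecidableEq I] in
theorem tl_cn (i : I) (w : List I) (v : ℚ × V w) : tl i w (cn i w v) = v.2 := rfl

omit [DecidableEq I] in
theorem cn_hd_tl (i : I) (w : List I) (v : V (i :: w)) : cn i w (hd i w v, tl i w v) = v := by
  funext k
  refine Fin.cases ?_ (fun k => ?_) (k : Fin (w.length + 1)) <;> rfl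

omit [DecidableEq I] in
theorem V_ext {i : I} {w : List I} {v v' : V (i :: w)} (h1 : hd i w v = hd i w v')
    (h2 : tl i w v = tl i w v') : v = v' := by
  rw [← cn_hd_tl i w v, ← cn_hd_tl i w v', h1, h2]

omit [IsDomain O] in
theorem hd_str (i : I) (w : List I) (X : S) : hd i w (D.str (i :: w) X) = D.eps i X := rfl

omit [IsDomain O] in
theorem tl_str (i : I) (w : List I) (X : S) : tl i w (D.str (i :: w) X) = D.str w (D.E i X) := rfl

omit [IsDomain O] in
theorem str_cons (i : I) (w : List I) (X : S) :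
    D.str (i :: w) X = cn i w ((D.eps i X : ℚ), D.str w (D.E i X)) := rfl

omit [IsDomain O] in
theorem Ad_cons (i : I) (w : List I) (X : S) : D.Ad (i :: w) X ↔ D.Ad w (D.E i X) := Iff.rfl

omit [IsDomain O] in
theorem Ad_nil (X : S) : D.Ad [] X ↔ X = D.one := Iff.rfl

omit [IsDomain O] in
theorem Ad_one (w : List I) : D.Ad w D.one := by
  induction w with
  | nil => rfl
  | cons i w ih => rw [Ad_cons, E_one]; exact ih

omit [IsDomain O] in
theorem str_one (w : List I) : D.str w D.one = 0 := by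
  induction w with
  | nil => rfl
  | cons i w ih =>
    rw [str_cons, E_one, ih, eps_one, Nat.cast_zero]
    exact map_zero (cn i w)

omit [IsDomain O] in
theorem str_inj (w : List I) : ∀ {X Y : S}, D.Ad w X → D.Ad w Y → D.str w X = D.str w Y →
    X = Y := by
  induction w with
  | nil =>
    intro X Y hX hY _
    rw [Ad_nil] at hX hY
    rw [hX, hY]
  | cons i w ih =>
    intro X Y hX hY h
    have h1 : (D.eps i X : ℚ) = D.eps i Y := congrArg (hd i w) h
    have h2 : D.str w (D.E i X) = D.str w (D.E i Y) := congrArg (tl i w) h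
    exact D.eps_inj i X Y (by exact_mod_cast h1) (ih hX hY h2)

theorem str_mul (w : List I) : ∀ {X Y Z : S}, D.b X * D.b Y = D.b Z →
    D.str w Z = D.str w X + D.str w Y := by
  induction w with
  | nil => intro X Y Z _; exact (add_zero _).symm
  | cons i w ih =>
    intro X Y Z h
    obtain ⟨h1, h2⟩ := D.E_mul i h
    rw [str_cons, str_cons, str_cons, ih h2, h1, ← map_add, Nat.cast_add]
    rfl

theorem Ad_mul (w : List I) : ∀ {X Y Z : S}, D.Ad w X → D.Ad w Y → D.b X * D.b Y = D.b Z →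
    D.Ad w Z := by
  induction w with
  | nil =>
    intro X Y Z hX hY h
    rw [Ad_nil] at hX hY ⊢
    rw [hX, hY, D.b_one, mul_one, ← D.b_one] at h
    exact D.b_inj h.symm
  | cons i w ih =>
    intro X Y Z hX hY h
    exact ih hX hY (D.E_mul i h).2

omit [IsDomain O] in
/-- the leading constituent -/
theorem lead (w : List I) : ∀ {X Y : S}, D.Ad w X → D.Ad w Y →
    ∃ Z, D.Ad w Z ∧ D.str w Z = D.str w X + D.str w Y ∧ D.co X Y Z = 1 := by
  induction w with
  | nil =>
    intro X Y hX hY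
    rw [Ad_nil] at hX hY
    refine ⟨D.one, rfl, (add_zero _).symm, D.co_of_mul ?_⟩
    rw [hX, hY, D.b_one, mul_one]
  | cons i w ih =>
    intro X Y hX hY
    obtain ⟨Z', h1, h2, h3⟩ := ih hX hY
    have h4 : D.eps i Z' = 0 := by
      have h5 := D.eps_co i _ _ Z' (by rw [h3]; exact one_ne_zero)
      rw [D.eps_E, D.eps_E] at h5
      omega
    obtain ⟨Z, hZ1, hZ2⟩ := D.eps_surj i (D.eps i X + D.eps i Y) Z' h4
    refine ⟨Z, ?_, ?_, ?_⟩
    · rw [Ad_cons, hZ2]; exact h1
    · rw [str_cons, hZ2, h2, hZ1, str_cons, str_cons, ← map_add, Nat.cast_add]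
      rfl
    · rw [D.co_E i X Y Z hZ1, hZ2, h3]

omit [IsDomain O] in
/-- if all constituents are leading then the product is simple -/
theorem simple_of_lead (w : List I) {X Y : S} (hX : D.Ad w X) (hY : D.Ad w Y)
    (h : ∀ Z, D.co X Y Z ≠ 0 → D.Ad w Z ∧ D.str w Z = D.str w X + D.str w Y) :
    D.Cm X Y := by
  classical
  obtain ⟨Z, h1, h2, h3⟩ := D.lead w hX hY
  refine ⟨Z, D.b.repr.injective (Finsupp.ext fun W => ?_)⟩
  rw [repr_mul, Module.Basis.repr_self, Finsupp.single_apply]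
  by_cases hW : D.co X Y W = 0
  · rw [hW, if_neg, Nat.cast_zero]
    rintro rfl
    rw [h3] at hW
    exact one_ne_zero hW
  · obtain ⟨h4, h5⟩ := h W hW
    have h6 : Z = W := D.str_inj w h1 h4 (h2.trans h5.symm)
    rw [← h6, h3, if_pos rfl, Nat.cast_one]

end Pre

end Pool.Agent.KLT

end

section

/-! MP_e487d8_al, abstract part: positivity, `e_i^max`, strings. -/

set_option autoImplicit false

namespace Pool.Agent.KLSAbs

open scoped LaurentPolynomial

variable {I S O K : Type} [DecidableEq I] [CommRing O] [Algebra ℚ O] [Ring K]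
  [Algebra ℤ[T;T⁻¹] K] (D : Sys2 I S O K)

namespace Sys2

theorem wt_one : D.wt D.one = 0 := by
  have h : D.b D.one * D.b D.one = D.b D.one := by rw [D.b_one, mul_one]
  have h1 := D.wt_co D.one D.one D.one (by rw [D.co_of_mul h]; exact one_ne_zero)
  have h2 : D.wt D.one + D.wt D.one = D.wt D.one + 0 := by rw [add_zero]; exact h1.symm
  exact add_left_cancel h2

theorem eps_one (i : I) : D.eps i D.one = 0 := by
  have h := D.wt_E i D.one
  rw [D.wt_one] at h
  have h1 := DFunLike.congr_fun h i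
  simp only [Finsupp.coe_zero, Pi.zero_apply, Finsupp.add_apply, Finsupp.single_eq_same] at h1
  omega

theorem E_one (i : I) : D.E i D.one = D.one := D.E_of_eps i _ (D.eps_one i)

theorem E_E (i : I) (X : S) : D.E i (D.E i X) = D.E i X := D.E_of_eps i _ (D.eps_E i X)

theorem sr_one : D.SR D.one := fun n => ⟨D.one, by rw [D.b_one, one_pow]⟩

theorem cm_one (X : S) : D.Cm X D.one := ⟨X, by rw [D.b_one, mul_one]⟩

theorem cm_one' (X : S) : D.Cm D.one X := ⟨X, by rw [D.b_one, one_mul]⟩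

/-! ### positivity -/

/-- the sum of the coefficients -/
noncomputable def sg1 : O →ₗ[ℚ] ℚ := D.b.constr ℚ fun _ => (1 : ℚ)

theorem sg1_b (X : S) : D.sg1 (D.b X) = 1 := by
  rw [sg1, Module.Basis.constr_basis]

theorem sg1_mul (X Y : S) : D.sg1 (D.b X * D.b Y) = ((D.co X Y).sum fun _ n => n : ℕ) := by
  rw [D.b_mul, Finsupp.sum, map_sum, Finsupp.sum]
  push_cast
  refine Finset.sum_congr rfl fun Z _ => ?_
  rw [map_smul, sg1_b, smul_eq_mul, mul_one]

variable [IsDomain O]

theorem exists_co (X Y : S) : ∃ Z, D.co X Y Z ≠ 0 := by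
  by_contra h
  push Not at h
  have h1 : D.b X * D.b Y = 0 := by
    rw [D.b_mul]
    have : D.co X Y = 0 := Finsupp.ext h
    rw [this, Finsupp.sum_zero_index]
  rcases mul_eq_zero.1 h1 with h2 | h2
  · exact D.b.ne_zero X h2
  · exact D.b.ne_zero Y h2

theorem one_le_sum (X Y : S) : 1 ≤ ((D.co X Y).sum fun _ n => n) := by
  obtain ⟨Z, hZ⟩ := D.exists_co X Y
  rw [Finsupp.sum]
  calc 1 ≤ D.co X Y Z := Nat.one_le_iff_ne_zero.2 hZ
    _ ≤ ∑ a ∈ (D.co X Y).support, D.co X Y a :=
      Finset.single_le_sum (f := fun a => D.co X Y a) (fun _ _ => Nat.zero_le _)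
        (Finsupp.mem_support_iff.2 hZ)

/-- if `C ∘ (C' ∘ X)` is simple then `C' ∘ X` is simple -/
theorem cm_of_mul_mul {C C' X Z : S} (h : D.b C * (D.b C' * D.b X) = D.b Z) : D.Cm C' X := by
  classical
  have h1 : D.sg1 (D.b C * (D.b C' * D.b X)) = 1 := by rw [h, sg1_b]
  rw [D.b_mul C' X, Finsupp.sum, Finset.mul_sum, map_sum] at h1
  have h2 : ∀ W ∈ (D.co C' X).support, (D.co C' X W : ℚ) ≤
      D.sg1 (D.b C * ((D.co C' X W : ℚ) • D.b W)) := by
    intro W _
    rw [mul_smul_comm, map_smul, sg1_mul, smul_eq_mul]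
    have h3 := D.one_le_sum C W
    have h4 : (1 : ℚ) ≤ (((D.co C W).sum fun _ n => n : ℕ) : ℚ) := by exact_mod_cast h3
    nlinarith [Nat.cast_nonneg (α := ℚ) (D.co C' X W)]
  have h5 : (∑ W ∈ (D.co C' X).support, (D.co C' X W : ℚ)) ≤ 1 := by
    rw [← h1]
    exact Finset.sum_le_sum h2
  have h6 : (∑ W ∈ (D.co C' X).support, D.co C' X W) ≤ 1 := by exact_mod_cast h5
  obtain ⟨Y, hY⟩ := D.exists_co C' X
  refine ⟨Y, ?_⟩
  have h7 : ∀ W ∈ (D.co C' X).support, W = Y := by
    intro W hW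
    by_contra hne
    have hY' : Y ∈ (D.co C' X).support := Finsupp.mem_support_iff.2 hY
    have h8 : D.co C' X W + D.co C' X Y ≤ ∑ V ∈ (D.co C' X).support, D.co C' X V := by
      rw [← Finset.sum_pair hne]
      refine Finset.sum_le_sum_of_subset ?_
      intro V hV
      rw [Finset.mem_insert, Finset.mem_singleton] at hV
      rcases hV with rfl | rfl
      · exact hW
      · exact hY'
    have h9 := Finsupp.mem_support_iff.1 hW
    omega
  have h10 : (D.co C' X).support = {Y} := by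
    refine Finset.eq_singleton_iff_unique_mem.2 ⟨Finsupp.mem_support_iff.2 hY, h7⟩
  rw [D.b_mul, Finsupp.sum, h10, Finset.sum_singleton]
  rw [h10, Finset.sum_singleton] at h6
  have h11 : D.co C' X Y = 1 := by omega
  rw [h11, Nat.cast_one, one_smul]

omit [IsDomain O] in
/-- the length of `Pos.lean` -/
theorem len_eq (x : O) : D.len x = D.sg1 x := by
  rw [len, sg1, Module.Basis.constr_apply]
  simp

/-! ### `e_i^max` on the level of `O` -/

/-- `e_i^(a)` on modules with `ε_i ≤ a` -/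
noncomputable def tau (i : I) (a : ℕ) : O →ₗ[ℚ] O :=
  open Classical in D.b.constr ℚ fun Y => if D.eps i Y = a then D.b (D.E i Y) else 0

omit [IsDomain O] in
theorem tau_b (i : I) (a : ℕ) (Y : S) :
    D.tau i a (D.b Y) = if D.eps i Y = a then D.b (D.E i Y) else 0 := by
  rw [tau, Module.Basis.constr_basis]

omit [IsDomain O] in
theorem tau_mul_b (i : I) (a a' : ℕ) {Y Y' : S} (h : D.eps i Y ≤ a) (h' : D.eps i Y' ≤ a') :
    D.tau i (a + a') (D.b Y * D.b Y') = D.tau i a (D.b Y) * D.tau i a' (D.b Y') := by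
  classical
  rw [D.b_mul, Finsupp.sum, map_sum, tau_b, tau_b]
  by_cases hh : D.eps i Y = a ∧ D.eps i Y' = a'
  · obtain ⟨h1, h2⟩ := hh
    rw [if_pos h1, if_pos h2, D.b_mul, Finsupp.sum]
    have h3 : ∀ Z ∈ (D.co Y Y').support, D.tau i (a + a') ((D.co Y Y' Z : ℚ) • D.b Z) =
        if D.eps i Z = a + a' then (D.co Y Y' Z : ℚ) • D.b (D.E i Z) else 0 := by
      intro Z _
      rw [map_smul, tau_b]
      split_ifs
      · rfl
      · rw [smul_zero]
    rw [Finset.sum_congr rfl h3, ← Finset.sum_filter]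
    refine Finset.sum_bij (fun Z _ => D.E i Z) ?_ ?_ ?_ ?_
    · intro Z hZ
      rw [Finset.mem_filter, Finsupp.mem_support_iff] at hZ
      rw [Finsupp.mem_support_iff, ← D.co_E i Y Y' Z (by rw [hZ.2, h1, h2])]
      exact hZ.1
    · intro Z hZ W hW hZW
      rw [Finset.mem_filter] at hZ hW
      exact D.eps_inj i Z W (hZ.2.trans hW.2.symm) hZW
    · intro W hW
      rw [Finsupp.mem_support_iff] at hW
      have h4 : D.eps i W = 0 := by
        have h5 := D.eps_co i _ _ _ hW
        rw [D.eps_E, D.eps_E] at h5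
        omega
      obtain ⟨Z, hZ1, hZ2⟩ := D.eps_surj i (a + a') W h4
      refine ⟨Z, ?_, hZ2⟩
      rw [Finset.mem_filter, Finsupp.mem_support_iff]
      refine ⟨?_, hZ1⟩
      rw [D.co_E i Y Y' Z (by rw [hZ1, h1, h2]), hZ2]
      exact hW
    · intro Z hZ
      rw [Finset.mem_filter] at hZ
      rw [D.co_E i Y Y' Z (by rw [hZ.2, h1, h2])]
  · have h1 : (if D.eps i Y = a then D.b (D.E i Y) else 0) *
        (if D.eps i Y' = a' then D.b (D.E i Y') else 0) = 0 := by
      by_cases h2 : D.eps i Y = a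
      · rw [if_neg (fun h3 => hh ⟨h2, h3⟩), mul_zero]
      · rw [if_neg h2, zero_mul]
    rw [h1]
    refine Finset.sum_eq_zero fun Z hZ => ?_
    rw [Finsupp.mem_support_iff] at hZ
    have h3 := D.eps_co i _ _ _ hZ
    rw [map_smul, tau_b, if_neg, smul_zero]
    intro h4
    exact hh ⟨by omega, by omega⟩

omit [IsDomain O] in
theorem tau_mul (i : I) (a a' : ℕ) {g g' : O} (h : g ∈ D.SS fun Y => D.eps i Y ≤ a)
    (h' : g' ∈ D.SS fun Y => D.eps i Y ≤ a') :
    D.tau i (a + a') (g * g') = D.tau i a g * D.tau i a' g' := by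
  refine Submodule.span_induction (p := fun g _ =>
    D.tau i (a + a') (g * g') = D.tau i a g * D.tau i a' g') ?_ ?_ ?_ ?_ h
  · rintro _ ⟨Y, hY, rfl⟩
    refine Submodule.span_induction (p := fun g' _ =>
      D.tau i (a + a') (D.b Y * g') = D.tau i a (D.b Y) * D.tau i a' g') ?_ ?_ ?_ ?_ h'
    · rintro _ ⟨Y', hY', rfl⟩
      exact D.tau_mul_b i a a' hY hY'
    · rw [mul_zero, map_zero, map_zero, mul_zero]
    · intro x y _ _ hx hy
      rw [mul_add, map_add, map_add, mul_add, hx, hy]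
    · intro c x _ hx
      rw [mul_smul_comm, map_smul, map_smul, mul_smul_comm, hx]
  · rw [zero_mul, map_zero, map_zero, zero_mul]
  · intro x y _ _ hx hy
    rw [add_mul, map_add, map_add, add_mul, hx, hy]
  · intro c x _ hx
    rw [smul_mul_assoc, map_smul, map_smul, smul_mul_assoc, hx]

theorem Emul (i : I) {X Y Z : S} (h : D.b X * D.b Y = D.b Z) :
    D.eps i Z = D.eps i X + D.eps i Y ∧ D.b (D.E i X) * D.b (D.E i Y) = D.b (D.E i Z) := by
  have h1 := D.tau_mul_b i (D.eps i X) (D.eps i Y) (le_refl (D.eps i X)) (le_refl (D.eps i Y))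
  rw [h, tau_b, tau_b, tau_b, if_pos rfl, if_pos rfl] at h1
  by_cases h2 : D.eps i Z = D.eps i X + D.eps i Y
  · rw [if_pos h2] at h1
    exact ⟨h2, h1.symm⟩
  · exfalso
    rw [if_neg h2] at h1
    rcases mul_eq_zero.1 h1.symm with h3 | h3
    · exact D.b.ne_zero _ h3
    · exact D.b.ne_zero _ h3

theorem Epow (i : I) {C : S} (hC : D.SR C) (n : ℕ) {T : S} (hT : D.b C ^ n = D.b T) :
    D.eps i T = n * D.eps i C ∧ D.b (D.E i C) ^ n = D.b (D.E i T) := by
  induction n generalizing T with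
  | zero =>
    rw [pow_zero, ← D.b_one] at hT
    rw [← D.b_inj hT, D.eps_one, D.E_one, pow_zero, D.b_one, Nat.zero_mul]
    exact ⟨rfl, rfl⟩
  | succ n ih =>
    obtain ⟨U, hU⟩ := hC n
    obtain ⟨h1, h2⟩ := ih hU
    rw [pow_succ, hU] at hT
    obtain ⟨h3, h4⟩ := D.Emul i hT
    refine ⟨by rw [h3, h1]; ring, ?_⟩
    rw [pow_succ, h2, h4]

theorem sr_E (i : I) {C : S} (hC : D.SR C) : D.SR (D.E i C) := by
  intro n
  obtain ⟨T, hT⟩ := hC n
  exact ⟨_, (D.Epow i hC n hT).2⟩

theorem cm_E (i : I) {C X : S} (h : D.Cm C X) : D.Cm (D.E i C) (D.E i X) := by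
  obtain ⟨Z, hZ⟩ := h
  exact ⟨_, (D.Emul i hZ).2⟩

/-! ### strings -/

/-- vectors for a word -/
abbrev V (w : List I) : Type := Fin w.length → ℚ

/-- first entry -/
def hd (i : I) (w : List I) : V (i :: w) →ₗ[ℚ] ℚ where
  toFun v := v (0 : Fin (w.length + 1))
  map_add' _ _ := rfl
  map_smul' _ _ := rfl

/-- the other entries -/
def tl (i : I) (w : List I) : V (i :: w) →ₗ[ℚ] V w where
  toFun v := fun k => v (Fin.succ k : Fin (w.length + 1))
  map_add' _ _ := rfl
  map_smul' _ _ := rfl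

/-- a vector from the first entry and the others -/
def cn (i : I) (w : List I) : ℚ × V w →ₗ[ℚ] V (i :: w) where
  toFun v := (Fin.cons v.1 v.2 : Fin (w.length + 1) → ℚ)
  map_add' x y := by
    funext k
    refine Fin.cases ?_ (fun k => ?_) (k : Fin (w.length + 1)) <;> rfl
  map_smul' c x := by
    funext k
    refine Fin.cases ?_ (fun k => ?_) (k : Fin (w.length + 1)) <;> rfl

omit [DecidableEq I] in
theorem hd_cn (i : I) (w : List I) (v : ℚ × V w) : hd i w (cn i w v) = v.1 := rfl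

omit [DecidableEq I] in
theorem tl_cn (i : I) (w : List I) (v : ℚ × V w) : tl i w (cn i w v) = v.2 := rfl

omit [DecidableEq I] in
theorem cn_hd_tl (i : I) (w : List I) (v : V (i :: w)) : cn i w (hd i w v, tl i w v) = v := by
  funext k
  refine Fin.cases ?_ (fun k => ?_) (k : Fin (w.length + 1)) <;> rfl

omit [DecidableEq I] in
theorem V_ext {i : I} {w : List I} {v v' : V (i :: w)} (h1 : hd i w v = hd i w v')
    (h2 : tl i w v = tl i w v') : v = v' := by
  rw [← cn_hd_tl i w v, ← cn_hd_tl i w v', h1, h2]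

/-- the string of `X` along the word -/
def str : (w : List I) → S → V w
  | [], _ => 0
  | i :: w, X => cn i w ((D.eps i X : ℚ), str w (D.E i X))

omit [IsDomain O] in
theorem hd_str (i : I) (w : List I) (X : S) : hd i w (D.str (i :: w) X) = D.eps i X := rfl

omit [IsDomain O] in
theorem tl_str (i : I) (w : List I) (X : S) : tl i w (D.str (i :: w) X) = D.str w (D.E i X) := rfl

omit [IsDomain O] in
theorem str_cons (i : I) (w : List I) (X : S) :
    D.str (i :: w) X = cn i w ((D.eps i X : ℚ), D.str w (D.E i X)) := rfl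

/-- adapted -/
def Ad (w : List I) (X : S) : Prop := AdP D.E D.one w X

omit [IsDomain O] in
theorem Ad_cons (i : I) (w : List I) (X : S) : D.Ad (i :: w) X ↔ D.Ad w (D.E i X) := Iff.rfl

omit [IsDomain O] in
theorem Ad_nil (X : S) : D.Ad [] X ↔ X = D.one := Iff.rfl

omit [IsDomain O] in
theorem Ad_one (w : List I) : D.Ad w D.one := by
  induction w with
  | nil => rfl
  | cons i w ih => rw [Ad_cons, E_one]; exact ih

omit [IsDomain O] in
theorem str_one (w : List I) : D.str w D.one = 0 := by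
  induction w with
  | nil => rfl
  | cons i w ih =>
    rw [str_cons, E_one, ih, eps_one, Nat.cast_zero]
    exact map_zero (cn i w)

omit [IsDomain O] in
theorem str_inj (w : List I) : ∀ {X Y : S}, D.Ad w X → D.Ad w Y → D.str w X = D.str w Y →
    X = Y := by
  induction w with
  | nil =>
    intro X Y hX hY _
    rw [Ad_nil] at hX hY
    rw [hX, hY]
  | cons i w ih =>
    intro X Y hX hY h
    have h1 : (D.eps i X : ℚ) = D.eps i Y := congrArg (hd i w) h
    have h2 : D.str w (D.E i X) = D.str w (D.E i Y) := congrArg (tl i w) h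
    exact D.eps_inj i X Y (by exact_mod_cast h1) (ih hX hY h2)

theorem str_mul (w : List I) : ∀ {X Y Z : S}, D.b X * D.b Y = D.b Z →
    D.str w Z = D.str w X + D.str w Y := by
  induction w with
  | nil => intro X Y Z _; exact (add_zero _).symm
  | cons i w ih =>
    intro X Y Z h
    obtain ⟨h1, h2⟩ := D.Emul i h
    rw [str_cons, str_cons, str_cons, ih h2, h1, ← map_add, Nat.cast_add]
    rfl

theorem Ad_mul (w : List I) : ∀ {X Y Z : S}, D.Ad w X → D.Ad w Y → D.b X * D.b Y = D.b Z →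
    D.Ad w Z := by
  induction w with
  | nil =>
    intro X Y Z hX hY h
    rw [Ad_nil] at hX hY ⊢
    rw [hX, hY, D.b_one, mul_one, ← D.b_one] at h
    exact D.b_inj h.symm
  | cons i w ih =>
    intro X Y Z hX hY h
    exact ih hX hY (D.Emul i h).2

omit [IsDomain O] in
/-- the leading constituent -/
theorem lead (w : List I) : ∀ {X Y : S}, D.Ad w X → D.Ad w Y →
    ∃ Z, D.Ad w Z ∧ D.str w Z = D.str w X + D.str w Y ∧ D.co X Y Z = 1 := by
  induction w with
  | nil =>
    intro X Y hX hY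
    rw [Ad_nil] at hX hY
    refine ⟨D.one, rfl, (add_zero _).symm, D.co_of_mul ?_⟩
    rw [hX, hY, D.b_one, mul_one]
  | cons i w ih =>
    intro X Y hX hY
    obtain ⟨Z', h1, h2, h3⟩ := ih hX hY
    have h4 : D.eps i Z' = 0 := by
      have h5 := D.eps_co i _ _ Z' (by rw [h3]; exact one_ne_zero)
      rw [D.eps_E, D.eps_E] at h5
      omega
    obtain ⟨Z, hZ1, hZ2⟩ := D.eps_surj i (D.eps i X + D.eps i Y) Z' h4
    refine ⟨Z, ?_, ?_, ?_⟩
    · rw [Ad_cons, hZ2]; exact h1
    · rw [str_cons, hZ2, h2, hZ1, str_cons, str_cons, ← map_add, Nat.cast_add]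
      rfl
    · rw [D.co_E i X Y Z hZ1, hZ2, h3]

omit [IsDomain O] in
/-- if all constituents are leading then the product is simple -/
theorem simple_of_lead (w : List I) {X Y : S} (hX : D.Ad w X) (hY : D.Ad w Y)
    (h : ∀ Z, D.co X Y Z ≠ 0 → D.Ad w Z ∧ D.str w Z = D.str w X + D.str w Y) :
    D.Cm X Y := by
  classical
  obtain ⟨Z, h1, h2, h3⟩ := D.lead w hX hY
  refine ⟨Z, D.b.repr.injective (Finsupp.ext fun W => ?_)⟩
  rw [repr_mul, Module.Basis.repr_self, Finsupp.single_apply]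
  by_cases hW : D.co X Y W = 0
  · rw [hW, if_neg, Nat.cast_zero]
    rintro rfl
    rw [h3] at hW
    exact one_ne_zero hW
  · obtain ⟨h4, h5⟩ := h W hW
    have h6 : Z = W := D.str_inj w h1 h4 (h2.trans h5.symm)
    rw [← h6, h3, if_pos rfl, Nat.cast_one]

end Sys2

end Pool.Agent.KLSAbs

end

section

/-! MP_e487d8_al, abstract part: `Λ(C, Y)` as a linear function of the string of `C`. -/

set_option autoImplicit false

namespace Pool.Agent.KLT

variable {I S O : Type} [DecidableEq I] [CommRing O] [Algebra ℚ O] (D : Pre I S O)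

namespace Pre

theorem br_one (x : O) : D.br x 1 = 0 := by
  have h := D.br_mul x 1 1
  rw [mul_one, one_mul, mul_one] at h
  have h1 : D.br x 1 + 0 = D.br x 1 + D.br x 1 := by rw [add_zero]; exact h
  exact (add_left_cancel h1).symm

theorem br_one' (x : O) : D.br 1 x = 0 := by rw [D.br_anti, br_one, neg_zero]

theorem smul_b_inj {c e : ℚ} {X : S} (h : c • D.b X = e • D.b X) : c = e := by
  have h1 := congrArg (fun g => D.b.repr g X) h
  simpa using h1

theorem lam_one (Y : S) : D.lam D.one Y = 0 := by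
  have h := D.br_lam D.one Y Y (by rw [D.b_one, one_mul])
  rw [D.b_one, br_one'] at h
  have h1 : (0 : ℚ) • D.b Y = (D.lam D.one Y : ℚ) • D.b Y := by rw [zero_smul]; exact h
  exact_mod_cast (D.smul_b_inj h1).symm

/-- rational weight -/
noncomputable def wtq (X : S) : I →₀ ℚ := (D.wt X).mapRange (fun n : ℕ => (n : ℚ)) Nat.cast_zero

/-- `(α_i, v)` -/
noncomputable def pr (i : I) : (I →₀ ℚ) →ₗ[ℚ] ℚ :=
  Finsupp.linearCombination ℚ fun j => (D.A i j : ℚ)

theorem pr_wtq (i : I) (X : S) : D.pr i (D.wtq X) = (pair D.A i (D.wtz X) : ℚ) := by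
  classical
  rw [pr, wtq, pair, wtz, Finsupp.linearCombination_apply, Finsupp.sum_mapRange_index (by simp),
    Finsupp.sum_mapRange_index (by simp), Finsupp.sum, Finsupp.sum]
  push_cast
  refine Finset.sum_congr rfl fun j _ => ?_
  rw [smul_eq_mul]

theorem wtq_add {X Y Z : S} (h : D.wt Z = D.wt X + D.wt Y) : D.wtq Z = D.wtq X + D.wtq Y := by
  ext i
  simp [wtq, h]

theorem wtq_E (i : I) (X : S) :
    D.wtq X = D.wtq (D.E i X) + Finsupp.single i (D.eps i X : ℚ) := by
  classical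
  ext j
  have h := DFunLike.congr_fun (D.wt_E i X) j
  simp only [Finsupp.add_apply] at h
  simp only [wtq, Finsupp.mapRange_apply, Finsupp.add_apply, h]
  rw [Finsupp.single_apply, Finsupp.single_apply]
  push_cast
  split_ifs <;> simp

theorem wtq_one : D.wtq D.one = 0 := by
  ext i
  simp [wtq, D.wt_one]

/-- the weight of a string -/
noncomputable def Bw : (w : List I) → V w →ₗ[ℚ] (I →₀ ℚ)
  | [] => 0
  | i :: w => (hd i w).smulRight (Finsupp.single i 1) + (Bw w) ∘ₗ tl i w

/-- `C ↦ Λ(C, Y)` on strings -/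
noncomputable def LL : (w : List I) → S → V w →ₗ[ℚ] ℚ
  | [], _ => 0
  | i :: w, Y => (LL w (D.E i Y)) ∘ₗ tl i w + (D.d i : ℚ) • ((D.eps i Y : ℚ) •
      ((D.pr i) ∘ₗ (Bw w) ∘ₗ tl i w) - (D.pr i (D.wtq (D.E i Y))) • hd i w)

theorem LL_cons (i : I) (w : List I) (Y : S) (v : V (i :: w)) :
    D.LL (i :: w) Y v = D.LL w (D.E i Y) (tl i w v) + D.d i * (D.eps i Y *
      D.pr i (Bw w (tl i w v)) - D.pr i (D.wtq (D.E i Y)) * hd i w v) := by
  rw [LL]
  simp

theorem wtq_Ad (w : List I) : ∀ {X : S}, D.Ad w X → D.wtq X = Bw w (D.str w X) := by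
  induction w with
  | nil =>
    intro X hX
    rw [Ad_nil] at hX
    rw [hX, wtq_one, Bw]; rfl
  | cons i w ih =>
    intro X hX
    rw [D.wtq_E i X, ih hX, Bw]
    simp only [LinearMap.add_apply, LinearMap.smulRight_apply, LinearMap.comp_apply]
    rw [hd_str, tl_str, add_comm]
    congr 1
    rw [Finsupp.smul_single, smul_eq_mul, mul_one]

variable [IsDomain O]

theorem cm_E (i : I) {C X : S} (h : D.Cm C X) : D.Cm (D.E i C) (D.E i X) := by
  obtain ⟨Z, hZ⟩ := h
  exact ⟨_, (D.E_mul i hZ).2⟩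

theorem lam_LL (w : List I) : ∀ {C Y : S}, D.Ad w C → D.Cm C Y →
    (D.lam C Y : ℚ) = D.LL w Y (D.str w C) := by
  induction w with
  | nil =>
    intro C Y hC _
    rw [Ad_nil] at hC
    rw [hC, D.lam_one, LL]; simp
  | cons i w ih =>
    intro C Y hC hY
    obtain ⟨Z, hZ⟩ := hY
    rw [D.lam_E i C Y Z hZ, LL_cons, tl_str, hd_str]
    push_cast
    rw [ih hC (D.cm_E i ⟨Z, hZ⟩), ← D.wtq_Ad w hC, pr_wtq, pr_wtq]
    unfold wtz
    ring

omit [IsDomain O] in
theorem LL_one (w : List I) : D.LL w D.one = 0 := by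
  induction w with
  | nil => rfl
  | cons i w ih =>
    refine LinearMap.ext fun v => ?_
    rw [LL_cons, D.E_one, ih, D.eps_one, wtq_one]
    simp

omit [IsDomain O] in
theorem LL_inj (w : List I) : ∀ {Z X Y : S}, D.wt Z = D.wt X + D.wt Y →
    (∀ v, D.LL w Z v = D.LL w X v + D.LL w Y v) → D.str w Z = D.str w X + D.str w Y := by
  induction w with
  | nil => intro Z X Y _ _; exact (add_zero _).symm
  | cons i w ih =>
    intro Z X Y hwt h
    have hsg : (D.d i : ℚ) ≠ 0 := by exact_mod_cast (D.hA.pos i).ne'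
    have h1 := h (cn i w (1, 0))
    rw [LL_cons, LL_cons, LL_cons, tl_cn, hd_cn] at h1
    simp only [map_zero, mul_zero, zero_sub, mul_one, zero_add] at h1
    have h2 : D.pr i (D.wtq (D.E i Z)) = D.pr i (D.wtq (D.E i X)) +
        D.pr i (D.wtq (D.E i Y)) := by
      have h3 : (D.d i : ℚ) * (D.pr i (D.wtq (D.E i Z))) = D.d i * (D.pr i (D.wtq (D.E i X)) +
        D.pr i (D.wtq (D.E i Y))) := by linarith
      exact mul_left_cancel₀ hsg h3
    have h3 : ∀ W : S, D.pr i (D.wtq W) = D.pr i (D.wtq (D.E i W)) + 2 * D.eps i W := by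
      intro W
      rw [D.wtq_E i W, map_add]
      congr 1
      rw [pr, Finsupp.linearCombination_single, D.hA.diag, smul_eq_mul]
      push_cast; ring
    have h4 : D.pr i (D.wtq Z) = D.pr i (D.wtq X) + D.pr i (D.wtq Y) := by
      rw [D.wtq_add hwt, map_add]
    rw [h3 Z, h3 X, h3 Y] at h4
    have h5 : (D.eps i Z : ℚ) = D.eps i X + D.eps i Y := by linarith
    have h5' : D.eps i Z = D.eps i X + D.eps i Y := by exact_mod_cast h5
    have h6 : D.wt (D.E i Z) = D.wt (D.E i X) + D.wt (D.E i Y) := by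
      have h7 := D.wt_E i Z
      rw [hwt, D.wt_E i X, D.wt_E i Y, h5', Finsupp.single_add] at h7
      have h8 : D.wt (D.E i X) + D.wt (D.E i Y) + (Finsupp.single i (D.eps i X) +
          Finsupp.single i (D.eps i Y)) = D.wt (D.E i Z) + (Finsupp.single i (D.eps i X) +
          Finsupp.single i (D.eps i Y)) := by
        rw [← h7]; abel
      exact (add_right_cancel h8).symm
    have h7 := ih h6 (fun v => by
      have h8 := h (cn i w (0, v))
      rw [LL_cons, LL_cons, LL_cons, tl_cn, hd_cn] at h8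
      simp only [mul_zero, sub_zero] at h8
      rw [h5] at h8
      linarith)
    rw [str_cons, str_cons, str_cons, h7, h5, ← map_add]
    rfl

omit [IsDomain O] in
/-- adaptedness from weight and string -/
theorem Ad_of_wt (w : List I) : ∀ {Z X Y : S}, D.wt Z = D.wt X + D.wt Y → D.Ad w X → D.Ad w Y →
    D.str w Z = D.str w X + D.str w Y → D.Ad w Z := by
  induction w with
  | nil =>
    intro Z X Y h hX hY _
    rw [Ad_nil] at hX hY ⊢
    rw [hX, hY, wt_one, add_zero] at h
    exact D.wt_zero Z h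
  | cons i w ih =>
    intro Z X Y h hX hY hs
    have h5 : (D.eps i Z : ℚ) = D.eps i X + D.eps i Y := congrArg (hd i w) hs
    have h5' : D.eps i Z = D.eps i X + D.eps i Y := by exact_mod_cast h5
    have h6 : D.wt (D.E i Z) = D.wt (D.E i X) + D.wt (D.E i Y) := by
      have h7 := D.wt_E i Z
      rw [h, D.wt_E i X, D.wt_E i Y, h5', Finsupp.single_add] at h7
      have h8 : D.wt (D.E i X) + D.wt (D.E i Y) + (Finsupp.single i (D.eps i X) +
          Finsupp.single i (D.eps i Y)) = D.wt (D.E i Z) + (Finsupp.single i (D.eps i X) +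
          Finsupp.single i (D.eps i Y)) := by
        rw [← h7]; abel
      exact (add_right_cancel h8).symm
    exact ih h6 hX hY (congrArg (tl i w) hs)

/-- two modules of the same weight with the same values -/
theorem LL_inj' (w : List I) {X Y : S} (hwt : D.wt X = D.wt Y)
    (h : ∀ v, D.LL w X v = D.LL w Y v) : D.str w X = D.str w Y := by
  have h1 := D.LL_inj w (Z := X) (X := Y) (Y := D.one) (by rw [D.wt_one, add_zero, hwt])
    (fun v => by rw [h v, LL_one]; simp)
  rw [h1, D.str_one, add_zero]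

/-! ### families -/

variable {D}

omit [IsDomain O]

theorem Fam.ad {w : List I} {N : Submonoid O} (hN : D.Fam w N) {X : S} (hX : D.b X ∈ N) :
    D.Ad w X := by
  obtain ⟨Y, h1, h2⟩ := hN.spl _ hX
  rwa [← D.b_inj h1]

theorem Fam.cm {w : List I} {N : Submonoid O} (hN : D.Fam w N) {X Y : S} (hX : D.b X ∈ N)
    (hY : D.b Y ∈ N) : D.Cm X Y := by
  obtain ⟨Z, h1, _⟩ := hN.spl _ (N.mul_mem hX hY)
  exact ⟨Z, h1.symm⟩

theorem Fam.mul {w : List I} {N : Submonoid O} (hN : D.Fam w N) {X Y : S} (hX : D.b X ∈ N)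
    (hY : D.b Y ∈ N) : ∃ Z, D.b Z = D.b X * D.b Y ∧ D.b Z ∈ N ∧ D.Ad w Z := by
  obtain ⟨Z, h1, h2⟩ := hN.spl _ (N.mul_mem hX hY)
  exact ⟨Z, h1, by rw [h1]; exact N.mul_mem hX hY, h2⟩

theorem Fam.pow {w : List I} {N : Submonoid O} (hN : D.Fam w N) {X : S} (hX : D.b X ∈ N)
    (n : ℕ) : ∃ Z, D.b Z = D.b X ^ n ∧ D.b Z ∈ N ∧ D.Ad w Z := by
  obtain ⟨Z, h1, h2⟩ := hN.spl _ (N.pow_mem hX n)
  exact ⟨Z, h1, by rw [h1]; exact N.pow_mem hX n, h2⟩

theorem Fam.sr {w : List I} {N : Submonoid O} (hN : D.Fam w N) {X : S} (hX : D.b X ∈ N) :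
    D.SR X := by
  intro n
  obtain ⟨Z, h1, _⟩ := hN.pow hX n
  exact ⟨Z, h1.symm⟩

theorem Fam.sc {w : List I} {N : Submonoid O} (hN : D.Fam w N) {X Y : S} (hX : D.b X ∈ N)
    (hY : D.b Y ∈ N) : D.SC X Y := by
  intro n
  obtain ⟨Z, h1, _⟩ := hN.spl _ (N.mul_mem (N.pow_mem hX n) hY)
  exact ⟨Z, h1.symm⟩

theorem Fam.one_mem {w : List I} {N : Submonoid O} (_ : D.Fam w N) : D.b D.one ∈ N := by
  rw [D.b_one]; exact N.one_mem

theorem Fam.mono {w : List I} {N N' : Submonoid O} (hN : D.Fam w N) (h : N' ≤ N) :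
    D.Fam w N' := ⟨fun x hx => hN.spl x (h hx)⟩

theorem SC.cm {X Y : S} (h : D.SC X Y) : D.Cm X Y := by
  obtain ⟨T, hT⟩ := h 1
  exact ⟨T, by rw [← hT, pow_one]⟩

theorem SR.cm {X : S} (h : D.SR X) : D.Cm X X := by
  obtain ⟨T, hT⟩ := h 2
  exact ⟨T, by rw [← hT, pow_two]⟩

/-- `lam` on products, second argument -/
theorem lam_mul {C X Y Z W : S} (h : D.b X * D.b Y = D.b Z) (h1 : D.Cm C X) (h2 : D.Cm C Y)
    (h3 : D.b C * D.b Z = D.b W) : D.lam C Z = D.lam C X + D.lam C Y := by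
  obtain ⟨P, hP⟩ := h1
  obtain ⟨Q, hQ⟩ := h2
  have h4 := D.br_lam C Z W h3
  rw [← h, D.br_mul, D.br_lam C X P hP, D.br_lam C Y Q hQ, ← hP, ← hQ, smul_mul_assoc,
    mul_smul_comm, ← h3, ← h] at h4
  have h5 : D.b X * (D.b C * D.b Y) = D.b C * (D.b X * D.b Y) := by ring
  have h6 : D.b C * D.b X * D.b Y = D.b C * (D.b X * D.b Y) := by ring
  rw [h5, h6, ← add_smul, h, h3] at h4
  have h7 := D.smul_b_inj h4
  exact_mod_cast h7.symm

theorem lam_symm {C X : S} (h : D.Cm C X) : D.lam X C = - D.lam C X := by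
  obtain ⟨P, hP⟩ := h
  have h1 := D.br_lam C X P hP
  have h2 := D.br_lam X C P (by rw [mul_comm]; exact hP)
  rw [D.br_anti, h1, ← neg_smul] at h2
  have h3 := D.smul_b_inj h2
  exact_mod_cast h3.symm

/-- `lam` on products, first argument -/
theorem lam_mul' {C X Y Z W : S} (h : D.b X * D.b Y = D.b Z) (h1 : D.Cm X C) (h2 : D.Cm Y C)
    (h3 : D.b Z * D.b C = D.b W) : D.lam Z C = D.lam X C + D.lam Y C := by
  have e : ∀ {A B : S}, D.Cm A B → D.Cm B A := by
    rintro A B ⟨P, hP⟩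
    exact ⟨P, by rw [mul_comm]; exact hP⟩
  rw [lam_symm (e ⟨W, h3⟩), lam_symm (e h1), lam_symm (e h2),
    lam_mul h (e h1) (e h2) (W := W) (by rw [mul_comm]; exact h3)]
  ring

end Pre

end Pool.Agent.KLT

end
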