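import Pool.Agent.Work.MP_e487d8_al.Bd.B32
import Pool.Agent.Work.MP_e487d8_al.Bd.B05

/-! Bundle of small proof modules (one section per former module). -/

section

/-! MP_e487d8_al, abstract part: the graded Grothendieck ring, positive elements, `lam`. -/

set_option autoImplicit false

namespace Pool.Agent.KLSAbs

open scoped LaurentPolynomial
open LaurentPolynomial

variable {I S O K : Type} [DecidableEq I] [CommRing O] [Algebra ℚ O] [Ring K]
  [Algebra ℤ[T;T⁻¹] K] (D : Sys2 I S O K)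

namespace Sys2

/-- `q^n V` -/
noncomputable def q (_ : Sys2 I S O K) (n : ℤ) (V : K) : K := (T n : ℤ[T;T⁻¹]) • V

theorem q_zero (V : K) : D.q 0 V = V := by rw [q, T_zero, one_smul]

theorem q_q (m n : ℤ) (V : K) : D.q m (D.q n V) = D.q (m + n) V := by
  rw [q, q, q, smul_smul, ← T_add]

theorem q_mul (n : ℤ) (V W : K) : D.q n V * W = D.q n (V * W) := smul_mul_assoc _ _ _

theorem mul_q (n : ℤ) (V W : K) : V * D.q n W = D.q n (V * W) := mul_smul_comm _ _ _

theorem q_add (n : ℤ) (V W : K) : D.q n (V + W) = D.q n V + D.q n W := smul_add _ _ _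

theorem q_sub (n : ℤ) (V W : K) : D.q n (V - W) = D.q n V - D.q n W := smul_sub _ _ _

theorem q_zero' (n : ℤ) : D.q n (0 : K) = 0 := smul_zero _

theorem q_sum {ι : Type} (s : Finset ι) (n : ℤ) (f : ι → K) :
    D.q n (∑ i ∈ s, f i) = ∑ i ∈ s, D.q n (f i) := Finset.smul_sum

/-- the coefficient of `q^n Z` -/
noncomputable def cf (V : K) (Z : S) (n : ℤ) : ℤ := cfK D.gb V Z n

theorem cf_zero (Z : S) (n : ℤ) : D.cf 0 Z n = 0 := by
  rw [cf, cfK, map_zero]; rfl

theorem cf_add (V W : K) (Z : S) (n : ℤ) : D.cf (V + W) Z n = D.cf V Z n + D.cf W Z n := by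
  rw [cf, cf, cf, cfK, cfK, cfK, map_add]; rfl

theorem cf_neg (V : K) (Z : S) (n : ℤ) : D.cf (-V) Z n = - D.cf V Z n := by
  have h := D.cf_add V (-V) Z n
  rw [add_neg_cancel, cf_zero] at h
  linarith

theorem cf_sub (V W : K) (Z : S) (n : ℤ) : D.cf (V - W) Z n = D.cf V Z n - D.cf W Z n := by
  rw [sub_eq_add_neg, cf_add, cf_neg]; ring

theorem cf_sum {ι : Type} (s : Finset ι) (f : ι → K) (Z : S) (n : ℤ) :
    D.cf (∑ i ∈ s, f i) Z n = ∑ i ∈ s, D.cf (f i) Z n := by
  classical
  induction s using Finset.induction_on with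
  | empty => simp [cf_zero]
  | insert a s ha ih => rw [Finset.sum_insert ha, Finset.sum_insert ha, cf_add, ih]

theorem coeff_T_mul (p : ℤ[T;T⁻¹]) (m n : ℤ) : ((T m : ℤ[T;T⁻¹]) * p).coeff n = p.coeff (n - m) := by
  have h : (T m : ℤ[T;T⁻¹]) = AddMonoidAlgebra.single m 1 := rfl
  rw [h, AddMonoidAlgebra.coeff_single_mul_apply, one_mul]
  congr 1; ring

theorem cf_q (m : ℤ) (V : K) (Z : S) (n : ℤ) : D.cf (D.q m V) Z n = D.cf V Z (n - m) := by
  rw [cf, cf, cfK, cfK, q, map_smul, Finsupp.smul_apply, smul_eq_mul, coeff_T_mul]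

theorem cf_gb [DecidableEq S] (X Z : S) (n : ℤ) : D.cf (D.gb X) Z n =
    if X = Z ∧ n = 0 then 1 else 0 := by
  rw [cf, cfK, Module.Basis.repr_self, Finsupp.single_apply]
  by_cases h : X = Z
  · rw [if_pos h]
    by_cases h2 : n = 0
    · rw [if_pos ⟨h, h2⟩, h2, ← T_zero, T_apply, if_pos rfl]
    · rw [if_neg (fun h3 => h2 h3.2), ← T_zero, T_apply, if_neg (Ne.symm h2)]
  · rw [if_neg h, if_neg (fun h3 => h h3.1)]; rfl

theorem cf_gb_self (X : S) : D.cf (D.gb X) X 0 = 1 := by
  classical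
  rw [cf_gb, if_pos ⟨rfl, rfl⟩]

theorem cf_ext {V W : K} (h : ∀ Z n, D.cf V Z n = D.cf W Z n) : V = W := by
  apply D.gb.repr.injective
  ext Z n
  exact h Z n

theorem cf_finite (V : K) : {p : S × ℤ | D.cf V p.1 p.2 ≠ 0}.Finite := by
  refine Set.Finite.subset (((D.gb.repr V).support.finite_toSet).biUnion
    (t := fun Z => (fun n => (Z, n)) '' (((D.gb.repr V) Z).coeff.support : Set ℤ))
    fun Z _ => (Finset.finite_toSet _).image _) ?_
  rintro ⟨Z, n⟩ h
  have h1 : ((D.gb.repr V) Z).coeff n ≠ 0 := h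
  refine Set.mem_biUnion (x := Z) ?_ ⟨n, ?_, rfl⟩
  · rw [Finset.mem_coe, Finsupp.mem_support_iff]
    intro h2
    rw [h2] at h1
    exact h1 rfl
  · rw [Finset.mem_coe, Finsupp.mem_support_iff]
    exact h1

/-- the support, with degrees -/
noncomputable def sup (V : K) : Finset (S × ℤ) := (D.cf_finite V).toFinset

theorem mem_sup {V : K} {p : S × ℤ} : p ∈ D.sup V ↔ D.cf V p.1 p.2 ≠ 0 := by
  rw [sup, Set.Finite.mem_toFinset, Set.mem_setOf_eq]

theorem decomp (V : K) : V = ∑ p ∈ D.sup V, D.cf V p.1 p.2 • D.q p.2 (D.gb p.1) := by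
  classical
  apply D.cf_ext
  intro Z n
  rw [cf_sum]
  have h : ∀ p ∈ D.sup V, D.cf (D.cf V p.1 p.2 • D.q p.2 (D.gb p.1)) Z n =
      if p = (Z, n) then D.cf V Z n else 0 := by
    intro p _
    have h1 : ∀ (a : ℤ) (W : K), D.cf (a • W) Z n = a * D.cf W Z n := by
      intro a W
      rw [cf, cf, cfK, cfK, map_zsmul]
      rw [Finsupp.smul_apply, AddMonoidAlgebra.coeff_smul, Finsupp.smul_apply, smul_eq_mul]
    rw [h1, cf_q, cf_gb]
    by_cases h2 : p = (Z, n)
    · rw [if_pos h2, h2, if_pos ⟨rfl, sub_self n⟩, mul_one]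
    · rw [if_neg h2, if_neg, mul_zero]
      rintro ⟨h3, h4⟩
      exact h2 (Prod.ext h3 (by linarith))
  rw [Finset.sum_congr rfl h, Finset.sum_ite_eq' (D.sup V) (Z, n) fun _ => D.cf V Z n]
  by_cases h2 : (Z, n) ∈ D.sup V
  · rw [if_pos h2]
  · rw [if_neg h2]
    rw [mem_sup] at h2
    simpa using h2

/-! ### positive elements -/

/-- positive elements -/
def Pos (V : K) : Prop := ∀ Z n, 0 ≤ D.cf V Z n

/-- positive elements form a monoid -/
def posM : AddSubmonoid K where
  carrier := {V | D.Pos V}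
  zero_mem' := fun Z n => by rw [cf_zero]
  add_mem' := fun {V W} hV hW Z n => by
    rw [cf_add]
    exact add_nonneg (hV Z n) (hW Z n)

variable {D}

theorem Pos.zero : D.Pos 0 := D.posM.zero_mem

theorem Pos.add {V W : K} (hV : D.Pos V) (hW : D.Pos W) : D.Pos (V + W) := D.posM.add_mem hV hW

theorem Pos.sum {ι : Type} (s : Finset ι) {f : ι → K} (h : ∀ i ∈ s, D.Pos (f i)) :
    D.Pos (∑ i ∈ s, f i) := D.posM.sum_mem h

theorem Pos.q {V : K} (hV : D.Pos V) (m : ℤ) : D.Pos (D.q m V) := by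
  intro Z n
  rw [cf_q]
  exact hV Z _

theorem Pos.nsmul {V : K} (hV : D.Pos V) (a : ℕ) : D.Pos (a • V) := D.posM.nsmul_mem hV a

theorem Pos.gb (X : S) : D.Pos (D.gb X) := by
  classical
  intro Z n
  rw [cf_gb]
  split_ifs <;> norm_num

theorem Pos.one : D.Pos 1 := by
  rw [← D.gb_one]
  exact Pos.gb _

/-- induction on positive elements -/
theorem Pos.ind {V : K} (hV : D.Pos V) {p : K → Prop} (h0 : p 0)
    (h1 : ∀ n X, p (D.q n (D.gb X))) (h2 : ∀ V W, p V → p W → p (V + W)) : p V := by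
  rw [D.decomp V]
  have h3 : ∀ (a : ℕ) n X, p (a • D.q n (D.gb X)) := by
    intro a n X
    induction a with
    | zero => rwa [zero_smul]
    | succ a ih => rw [succ_nsmul]; exact h2 _ _ ih (h1 n X)
  refine Finset.sum_induction _ p h2 h0 ?_
  intro x _
  obtain ⟨a, ha⟩ := Int.eq_ofNat_of_zero_le (hV x.1 x.2)
  rw [ha, natCast_zsmul]
  exact h3 a _ _

theorem Pos.mul {V W : K} (hV : D.Pos V) (hW : D.Pos W) : D.Pos (V * W) := by
  refine hV.ind (p := fun V => D.Pos (V * W)) ?_ ?_ ?_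
  · rw [zero_mul]; exact Pos.zero
  · intro n X
    refine hW.ind (p := fun W => D.Pos (D.q n (D.gb X) * W)) ?_ ?_ ?_
    · rw [mul_zero]; exact Pos.zero
    · intro m Y
      rw [q_mul, mul_q]
      exact (Pos.q (Pos.q (fun Z n => D.gb_pos X Y Z n) m) n)
    · intro V W hV hW
      rw [mul_add]; exact hV.add hW
  · intro V V' hV hV'
    rw [add_mul]; exact hV.add hV'

theorem Pos.pow {V : K} (hV : D.Pos V) (n : ℕ) : D.Pos (V ^ n) := by
  induction n with
  | zero => rw [pow_zero]; exact Pos.one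
  | succ n ih => rw [pow_succ]; exact ih.mul hV

variable (D)

/-- comparison of elements -/
def le (V W : K) : Prop := D.Pos (W - V)

variable {D}

theorem le_cf {V W : K} : D.le V W ↔ ∀ Z n, D.cf V Z n ≤ D.cf W Z n := by
  constructor
  · intro h Z n
    have h1 := h Z n
    rw [cf_sub] at h1
    linarith
  · intro h Z n
    rw [cf_sub]
    have := h Z n
    linarith

theorem le.rfl {V : K} : D.le V V := by
  rw [le, sub_self]; exact Pos.zero

theorem le.trans {U V W : K} (h1 : D.le U V) (h2 : D.le V W) : D.le U W := by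
  rw [le_cf] at h1 h2 ⊢
  exact fun Z n => (h1 Z n).trans (h2 Z n)

theorem le.mul_left {V W U : K} (h : D.le V W) (hU : D.Pos U) : D.le (U * V) (U * W) := by
  rw [le, ← mul_sub]
  exact hU.mul h

theorem le.mul_right {V W U : K} (h : D.le V W) (hU : D.Pos U) : D.le (V * U) (W * U) := by
  rw [le, ← sub_mul]
  exact Pos.mul h hU

theorem le.q {V W : K} (h : D.le V W) (n : ℤ) : D.le (D.q n V) (D.q n W) := by
  rw [le, ← q_sub]
  exact Pos.q h n

theorem le.pos {V W : K} (h : D.le V W) (hV : D.Pos V) : D.Pos W := by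
  rw [le_cf] at h
  exact fun Z n => (hV Z n).trans (h Z n)

/-- a constituent is smaller -/
theorem le_of_cf {V : K} (hV : D.Pos V) {X : S} {n : ℤ} (h : D.cf V X n ≠ 0) :
    D.le (D.q n (D.gb X)) V := by
  classical
  rw [le_cf]
  intro Z m
  rw [cf_q, cf_gb]
  by_cases h1 : X = Z ∧ m - n = 0
  · rw [if_pos h1]
    obtain ⟨rfl, h2⟩ := h1
    have h3 : m = n := by linarith
    rw [h3]
    have := hV X n
    omega
  · rw [if_neg h1]
    exact hV Z m

/-! ### `q = 1` -/

theorem ev_q (n : ℤ) (V : K) : D.ev (D.q n V) = D.ev V := D.ev_T n V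

theorem ev_decomp (V : K) : D.ev V = ∑ p ∈ D.sup V, ((D.cf V p.1 p.2 : ℤ) : ℚ) • D.b p.1 := by
  conv_lhs => rw [D.decomp V]
  rw [map_sum]
  refine Finset.sum_congr rfl fun p _ => ?_
  rw [map_zsmul, ev_q, D.ev_gb, Int.cast_smul_eq_zsmul]

theorem Pos.ev_repr {V : K} (hV : D.Pos V) (Z : S) : 0 ≤ D.b.repr (D.ev V) Z := by
  classical
  rw [ev_decomp, map_sum, Finsupp.finsetSum_apply]
  refine Finset.sum_nonneg fun p _ => ?_
  rw [map_smul, Finsupp.smul_apply, Module.Basis.repr_self, Finsupp.single_apply, smul_eq_mul]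
  have h := hV p.1 p.2
  split_ifs
  · rw [mul_one]; exact_mod_cast h
  · rw [mul_zero]

theorem Pos.ev_ge {V : K} (hV : D.Pos V) {Z : S} {n : ℤ} (h : D.cf V Z n ≠ 0) :
    1 ≤ D.b.repr (D.ev V) Z := by
  have h1 := (le_of_cf hV h).ev_repr Z
  rw [map_sub, ev_q, D.ev_gb, map_sub, Finsupp.sub_apply, Module.Basis.repr_self,
    Finsupp.single_eq_same] at h1
  linarith

theorem Pos.ev_ne {V : K} (hV : D.Pos V) {Z : S} {n : ℤ} (h : D.cf V Z n ≠ 0) :
    D.b.repr (D.ev V) Z ≠ 0 := by
  have := hV.ev_ge h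
  intro h2
  rw [h2] at this
  norm_num at this

theorem exists_cf {V : K} {Z : S} (h : D.b.repr (D.ev V) Z ≠ 0) :
    ∃ n, D.cf V Z n ≠ 0 := by
  classical
  by_contra hne
  push Not at hne
  apply h
  rw [ev_decomp, map_sum, Finsupp.finsetSum_apply]
  refine Finset.sum_eq_zero fun p hp => ?_
  rw [map_smul, Finsupp.smul_apply, Module.Basis.repr_self, Finsupp.single_apply, smul_eq_mul]
  split_ifs with h1
  · rw [mem_sup] at hp
    rw [h1] at hp
    exact absurd (hne _) hp
  · rw [mul_zero]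

theorem Pos.eq_of_ev {V : K} (hV : D.Pos V) {Z : S} (h : D.ev V = D.b Z) :
    ∃ n, V = D.q n (D.gb Z) := by
  obtain ⟨n, hn⟩ := exists_cf (D := D) (V := V) (Z := Z) (by
    rw [h, Module.Basis.repr_self, Finsupp.single_eq_same]; norm_num)
  refine ⟨n, ?_⟩
  have h1 := le_of_cf hV hn
  have h2 : D.ev (V - D.q n (D.gb Z)) = 0 := by
    rw [map_sub, ev_q, D.ev_gb, h, sub_self]
  have h3 : V - D.q n (D.gb Z) = 0 := by
    apply D.cf_ext
    intro W m
    rw [cf_zero]
    by_contra h4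
    have h5 := Pos.ev_ne (D := D) h1 h4
    rw [h2, map_zero] at h5
    exact h5 rfl
  exact sub_eq_zero.1 h3

theorem gb_mul {X Y Z : S} (h : D.b X * D.b Y = D.b Z) :
    ∃ n, D.gb X * D.gb Y = D.q n (D.gb Z) :=
  Pos.eq_of_ev ((Pos.gb X).mul (Pos.gb Y)) (by rw [map_mul, D.ev_gb, D.ev_gb, h])

theorem cf_mul_co {X Y Z : S} {n : ℤ} (h : D.cf (D.gb X * D.gb Y) Z n ≠ 0) : D.co X Y Z ≠ 0 := by
  have h1 := ((Pos.gb X).mul (Pos.gb Y)).ev_ne (D := D) h
  rw [map_mul, D.ev_gb, D.ev_gb, repr_mul] at h1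
  exact_mod_cast h1

theorem exists_cf_mul {X Y Z : S} (h : D.co X Y Z ≠ 0) : ∃ n, D.cf (D.gb X * D.gb Y) Z n ≠ 0 := by
  refine exists_cf ?_
  rw [map_mul, D.ev_gb, D.ev_gb, repr_mul]
  exact_mod_cast h

/-! ### `lam` -/

theorem ne_zero_of_pos_le {V : K} {X : S} {n : ℤ} (hV : D.Pos V) (h : D.cf V X n ≠ 0) : V ≠ 0 := by
  rintro rfl
  exact h (D.cf_zero X n)

/-- an element which is a shift of itself -/
theorem q_eq_self {V : K} (hV : V ≠ 0) {n : ℤ} (h : D.q n V = V) : n = 0 := by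
  by_contra hn
  obtain ⟨Z, m, hm⟩ : ∃ Z m, D.cf V Z m ≠ 0 := by
    by_contra h1
    push Not at h1
    exact hV (D.cf_ext fun Z m => by rw [h1, cf_zero])
  have h1 : ∀ k : ℕ, D.cf V Z (m + k * n) ≠ 0 := by
    intro k
    induction k with
    | zero => simpa using hm
    | succ k ih =>
      rw [← h, cf_q]
      have : m + ((k + 1 : ℕ) : ℤ) * n - n = m + k * n := by push_cast; ring
      rwa [this]
  have h2 : Function.Injective fun k : ℕ => ((Z, m + k * n) : S × ℤ) := by
    intro k l hkl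
    have h3 : m + (k : ℤ) * n = m + l * n := congrArg Prod.snd hkl
    have h4 : (k : ℤ) * n = l * n := by linarith
    exact_mod_cast mul_right_cancel₀ hn h4
  have h3 : Set.range (fun k : ℕ => ((Z, m + k * n) : S × ℤ)) ⊆
      {p : S × ℤ | D.cf V p.1 p.2 ≠ 0} := by
    rintro _ ⟨k, rfl⟩
    exact h1 k
  exact (Set.infinite_range_of_injective h2) ((D.cf_finite V).subset h3)

theorem q_inj {V : K} (hV : V ≠ 0) {m n : ℤ} (h : D.q m V = D.q n V) : m = n := by
  have h1 : D.q (m - n) V = V := by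
    have h2 := congrArg (D.q (-n)) h
    rw [q_q, q_q, neg_add_cancel, q_zero] at h2
    rw [← h2]
    congr 1; ring
  have := q_eq_self hV h1
  linarith

theorem q_injective {V W : K} {n : ℤ} (h : D.q n V = D.q n W) : V = W := by
  have h2 := congrArg (D.q (-n)) h
  rwa [q_q, q_q, neg_add_cancel, q_zero, q_zero] at h2

variable (D)

/-- `a` is the degree of `C ∘ X → X ∘ C` -/
def Lm (C X : S) (a : ℤ) : Prop := D.gb X * D.gb C = D.q a (D.gb C * D.gb X)

open Classical in
/-- the degree of `C ∘ X → X ∘ C` for commuting `C`, `X` -/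
noncomputable def lam (C X : S) : ℤ := if h : ∃ a, D.Lm C X a then h.choose else 0

variable {D}

theorem gb_mul_ne [IsDomain O] (X Y : S) : D.gb X * D.gb Y ≠ 0 := by
  intro h
  have h1 := congrArg D.ev h
  rw [map_mul, D.ev_gb, D.ev_gb, map_zero] at h1
  rcases mul_eq_zero.1 h1 with h2 | h2
  · exact D.b.ne_zero X h2
  · exact D.b.ne_zero Y h2

variable [IsDomain O]

theorem Lm.lam {C X : S} {a : ℤ} (h : D.Lm C X a) : D.lam C X = a := by
  have h0 : ∃ a, D.Lm C X a := ⟨a, h⟩
  have h1 : D.lam C X = h0.choose := by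
    rw [Sys2.lam, dif_pos h0]
  have h2 := h0.choose_spec
  rw [← h1] at h2
  exact q_inj (gb_mul_ne C X) (h2.symm.trans h)

theorem Cm.lm {C X : S} (h : D.Cm C X) : D.Lm C X (D.lam C X) := by
  obtain ⟨Z, hZ⟩ := h
  obtain ⟨m, hm⟩ := gb_mul hZ
  obtain ⟨n, hn⟩ := gb_mul (D := D) (X := X) (Y := C) (Z := Z) (by rw [mul_comm]; exact hZ)
  have h1 : D.Lm C X (n - m) := by
    rw [Lm, hn, hm, q_q]
    congr 1; ring
  rwa [h1.lam]

/-- commutation with a product -/
theorem Cm.comm {C X : S} (h : D.Cm C X) :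
    D.gb X * D.gb C = D.q (D.lam C X) (D.gb C * D.gb X) := h.lm

omit [IsDomain O] in
theorem Lm.symm {C X : S} {a : ℤ} (h : D.Lm C X a) : D.Lm X C (-a) := by
  have h1 : D.gb X * D.gb C = D.q a (D.gb C * D.gb X) := h
  show D.gb C * D.gb X = D.q (-a) (D.gb X * D.gb C)
  rw [h1, q_q, neg_add_cancel, q_zero]

theorem lam_symm {C X : S} (h : D.Cm C X) : D.lam X C = - D.lam C X := h.lm.symm.lam

theorem lam_self (C : S) : D.lam C C = 0 := by
  have h : D.Lm C C 0 := by rw [Lm, q_zero]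
  exact h.lam

theorem lam_one (X : S) : D.lam D.one X = 0 := by
  have h : D.Lm D.one X 0 := by rw [Lm, q_zero, D.gb_one, one_mul, mul_one]
  exact h.lam

theorem lam_one' (X : S) : D.lam X D.one = 0 := by
  have h : D.Lm X D.one 0 := by rw [Lm, q_zero, D.gb_one, one_mul, mul_one]
  exact h.lam

omit [IsDomain O] in
theorem Lm.mul_right {C X Y Z : S} {a a' : ℤ} (h : D.Lm C X a) (h' : D.Lm C Y a')
    (hZ : D.b X * D.b Y = D.b Z) : D.Lm C Z (a + a') := by
  obtain ⟨n, hn⟩ := gb_mul hZ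
  have h1 : D.q n (D.gb Z * D.gb C) = D.q n (D.q (a + a') (D.gb C * D.gb Z)) := by
    rw [← q_mul, ← hn, mul_assoc, h', mul_q, ← mul_assoc, h, q_mul, q_q, q_q, mul_assoc, hn,
      mul_q, q_q]
    congr 1; ring
  exact q_injective h1

theorem lam_mul_right {C X Y Z : S} (h : D.Cm C X) (h' : D.Cm C Y)
    (hZ : D.b X * D.b Y = D.b Z) : D.lam C Z = D.lam C X + D.lam C Y :=
  (h.lm.mul_right h'.lm hZ).lam

omit [IsDomain O] in
theorem Lm.mul_left {C C' B X : S} {a a' : ℤ} (h : D.Lm C X a) (h' : D.Lm C' X a')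
    (hB : D.b C * D.b C' = D.b B) : D.Lm B X (a + a') := by
  have := (h.symm.mul_right h'.symm hB).symm
  rwa [neg_add, neg_neg, neg_neg] at this

theorem lam_mul_left {C C' B X : S} (h : D.Cm C X) (h' : D.Cm C' X)
    (hB : D.b C * D.b C' = D.b B) : D.lam B X = D.lam C X + D.lam C' X :=
  (h.lm.mul_left h'.lm hB).lam

/-- the string formula -/
theorem lam_string (i : I) {C X : S} (h : D.Cm C X) :
    D.lam C X = D.lam (D.E i C) (D.E i X) + (D.eps i X : ℤ) * sumW (D.A i) (D.wt (D.E i C)) -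
      (D.eps i C : ℤ) * sumW (D.A i) (D.wt (D.E i X)) := by
  obtain ⟨Z, hZ⟩ := h
  have h1 := D.lam_E i C X Z _ hZ (Cm.lm (D := D) ⟨Z, hZ⟩)
  have h2 := Lm.lam (D := D) h1
  linarith

end Sys2

end Pool.Agent.KLSAbs

end

section

/-! MP_e487d8_al, part 3 (freeness): definitions and statements. -/

set_option autoImplicit false

namespace Pool.Agent.KLT

namespace Pre

variable {I S O : Type} [DecidableEq I] [CommRing O] [Algebra ℚ O] (D : Pre I S O)

/-- `M` is the extremal module of weight `w Λ` of the crystal `B(Λ)`; `aff A Λ w 0 = Λ - w Λ` -/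
def IsDL (Λ : I → ℕ) (w : List I) (M : S) : Prop :=
  (∀ j, D.eps' j M ≤ Λ j) ∧ D.wtz M = aff D.A (fun i => (Λ i : ℤ)) w 0

/-- `(Λ + w Λ, β)` -/
noncomputable def kap (Λ : I → ℕ) (w : List I) (β : I →₀ ℤ) : ℤ :=
  2 * KLT.lam D.d (fun i => (Λ i : ℤ)) β -
    bil D.d D.A (aff D.A (fun i => (Λ i : ℤ)) w 0) β

/-- the crystal facts on extremal modules -/
structure DLF : Prop where
  sign : Sign D.A
  ex : ∀ (Λ : I → ℕ) w, Reduced D.A w → ∃ M, D.IsDL Λ w M
  step : ∀ (Λ : I → ℕ) i w M, Reduced D.A (i :: w) → D.IsDL Λ (i :: w) M →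
    D.IsDL Λ w (D.E i M) ∧ (D.eps i M : ℤ) = Λ i - pair D.A i (D.wtz (D.E i M))
  cm : ∀ (Λ : I → ℕ) i w M, Reduced D.A (i :: w) → D.IsDL Λ (i :: w) M → D.Cm (D.lt i) M
  nil : ∀ (Λ : I → ℕ) M, D.IsDL Λ [] M → M = D.one
  ad : ∀ (Λ : I → ℕ) w M, Reduced D.A w → D.IsDL Λ w M → D.Ad w M
  un : ∀ (Λ : I → ℕ) w M M', Reduced D.A w → D.IsDL Λ w M → D.IsDL Λ w M' → M = M'

/-- the simple quotients of `M ∘ X` for an extremal module `M` -/
def StC5 : Prop := ∀ (Λ : I → ℕ) w M, Reduced D.A w → D.IsDL Λ w M → ∀ X Z, D.Hd M X Z →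
  D.str w Z = D.str w M + D.str w X ∧ D.tail w Z = D.tail w X

/-- products of extremal modules -/
def StDLmul : Prop := ∀ (Λ Λ' : I → ℕ) w M M', Reduced D.A w → D.IsDL Λ w M → D.IsDL Λ' w M' →
  ∃ Z, D.b M * D.b M' = D.b Z ∧ D.IsDL (fun i => Λ i + Λ' i) w Z

def StDLpow : Prop := ∀ (Λ : I → ℕ) w M, Reduced D.A w → D.IsDL Λ w M → ∀ n : ℕ,
  ∃ T, D.b M ^ n = D.b T ∧ D.IsDL (fun i => n * Λ i) w T

def StLAM : Prop := ∀ (Λ : I → ℕ) w M Q, Reduced D.A w → D.IsDL Λ w M → D.Cm M Q →
  D.lam M Q = D.kap Λ w (D.wtz Q) -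
    2 * KLT.lam D.d (fun i => (Λ i : ℤ)) (D.wtz (D.tail w Q))

/-- exhaustion -/
def StEXH : Prop := ∀ w j X, Reduced D.A w → ¬ Reduced D.A (w ++ [j]) → D.eps j (D.tail w X) = 0

def StEXT : Prop := ∀ w, Reduced D.A w → ∀ s : Finset S, ∃ v, Reduced D.A (w ++ v) ∧
  ∀ X ∈ s, D.Ad (w ++ v) X

/-- cancellation of an adapted module modulo the ideal of the non adapted modules -/
def StCan : Prop := ∀ w M, D.Ad w M → ∀ y, D.b M * y ∈ D.Id w → y ∈ D.Id w

/-- `D_Λ(w)` is normal modulo the ideal of the non adapted modules -/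
def StNor : Prop := ∀ (Λ : I → ℕ) w M, Reduced D.A w → D.IsDL Λ w M → ∀ X,
  D.br (D.b M) (D.b X) - (D.kap Λ w (D.wtz X) : ℚ) • (D.b M * D.b X) ∈ D.Id w

def StGen : Prop := ∀ w N z, Reduced D.A w → D.Mx w N → D.Full w N z → D.Gen w N z

/-- full elements exist, with a given factor -/
def StFex : Prop := ∀ w N, Reduced D.A w → D.Mx w N → ∀ y, D.b y ∈ N →
  ∃ z z₁, D.Full w N z ∧ D.b z₁ ∈ N ∧ D.b z = D.b y * D.b z₁

def StZorn : Prop := ∀ w N, D.Fam w N → ∃ N', N ≤ N' ∧ D.Mx w N'

/-- eigenvectors of the bracket with `C`: the constituents which strongly commute with `C` -/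
def StMult : Prop := ∀ w C, Reduced D.A w → D.Ad w C → D.SR C → ∀ (V : O) (μ : ℚ),
  (∀ R, 0 ≤ D.b.repr V R) → D.br (D.b C) V = μ • (D.b C * V) →
  ∀ Q, D.b.repr V Q ≠ 0 → D.SC C Q → (D.lam C Q : ℚ) = μ

/-- D3: the only adapted constituent of `M^k ∘ x` -/
def StD3 : Prop := ∀ (Λ : I → ℕ) w M N, Reduced D.A w → D.IsDL Λ w M → D.Mx w N →
  ∀ x, D.b x ∈ N → ∀ (k : ℕ) T Z, D.b M ^ k = D.b T → D.Hd T x Z →
    D.Ad w Z ∧ D.b T * D.b x - D.b Z ∈ D.Id w

/-- the family of the `M^k ∇ x` -/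
def StHat : Prop := ∀ (Λ : I → ℕ) w M N, Reduced D.A w → D.IsDL Λ w M → D.Fam w N →
  ∃ N', D.Fam w N' ∧ D.b M ∈ N' ∧ ∀ x T Q (k : ℕ), D.b x ∈ N → D.b M ^ k = D.b T →
    D.Hd T x Q → D.SC M Q → D.b Q ∈ N'

/-- `z` is a generic member of the maximal family `N` and divisible by the extremal module `M` -/
structure TopH (Λ : I → ℕ) (w : List I) (M : S) (N : Submonoid O) (z z₁ : S) : Prop where
  red : Reduced D.A w
  reg : ∀ i, 0 < Λ i
  dl : D.IsDL Λ w M
  mx : D.Mx w N
  gen : D.Gen w N z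
  hM : D.b M ∈ N
  hz₁ : D.b z₁ ∈ N
  fac : D.b z = D.b M * D.b z₁

def StTop1 : Prop := ∀ Λ w M N z z₁, D.TopH Λ w M N z z₁ → ∀ X, D.Ad w X →
  ∃ n₀ : ℕ, ∀ n ≥ n₀, ∀ T Z, D.b z ^ n = D.b T → D.Hd T X Z → D.b Z ∈ N

def StTop2 : Prop := ∀ Λ w M N z z₁, D.TopH Λ w M N z z₁ → ∀ X (n : ℕ) T Z,
  D.b z ^ n = D.b T → D.Hd T X Z → D.b Z ∈ N → ∀ Q, D.co T X Q ≠ 0 → D.b Q ∈ N →
    D.lam z Q ≤ D.lam z Z ∧ (D.lam z Q = D.lam z Z → Q = Z)

/-- tops -/
def StTopF : Prop := ∀ Λ w M N z z₁, D.TopH Λ w M N z z₁ → ∀ g : O,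
  (∀ X, D.b.repr g X ≠ 0 → D.Ad w X) → ∃ n₀ : ℕ, ∀ n ≥ n₀, ∀ (α : ℚ) Q₀ T, α ≠ 0 → D.Ad w Q₀ →
    D.b z ^ n = D.b T → D.b T * g - α • D.b Q₀ ∈ D.Id w →
      (∀ X, D.b.repr g X ≠ 0 → ∀ Q, D.co T X Q ≠ 0 → D.Ad w Q → D.b Q ∈ N) ∧
      ∃ X₀, D.b.repr g X₀ ≠ 0 ∧ D.Hd T X₀ Q₀ ∧ ∀ X, D.b.repr g X ≠ 0 → X ≠ X₀ →
        ∀ Z, D.Hd T X Z → D.b Z ∈ N ∧ D.lam z Z < D.lam z Q₀

/-- the family `N'` contains generic elements which are products of `M^K` and of generic elements
of `N`, modulo the ideal -/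
def StHF : Prop := ∀ (Λ : I → ℕ) w M N N' z, Reduced D.A w → D.IsDL Λ w M → D.Mx w N →
  D.Fam w N' → D.b M ∈ N' → (∀ x T Q (k : ℕ), D.b x ∈ N → D.b M ^ k = D.b T → D.Hd T x Q →
    D.SC M Q → D.b Q ∈ N') → D.Full w N z → ∃ (z' z₁' : S) (K : ℕ), D.Full w N' z' ∧
      D.b z₁' ∈ N' ∧ D.b z' = D.b M * D.b z₁' ∧ D.b z' - D.b M ^ K * D.b z ∈ D.Id w

/-- comparison of the values of `lam` in two families -/
def StCmp : Prop := ∀ (Λ : I → ℕ) w M, Reduced D.A w → D.IsDL Λ w M → ∀ z Q z' Q' (K L : ℕ),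
  D.Cm z Q → D.Cm z' Q' → D.Ad w z' → D.Ad w Q' → D.b z' - D.b M ^ K * D.b z ∈ D.Id w →
    D.b Q' - D.b M ^ L * D.b Q ∈ D.Id w →
    D.lam z' Q' = D.lam z Q + K * D.kap Λ w (D.wtz Q) - L * D.kap Λ w (D.wtz z)

/-- factors of a simple are homogeneous -/
def StHom : Prop := ∀ (g h : O) c, g * h = D.b c → ∀ X Y, D.b.repr g X ≠ 0 →
  D.b.repr g Y ≠ 0 → D.wt X = D.wt Y

/-- factors of a monomial -/
def StMon : Prop := ∀ w N, D.Fam w N → ∀ g h : O, g ∈ D.SS (fun X => D.b X ∈ N) →
  h ∈ D.SS (fun X => D.b X ∈ N) → ∀ c, g * h = D.b c →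
    ∃ (α : ℚ) (X : S), α ≠ 0 ∧ D.b X ∈ N ∧ g = α • D.b X

/-- the factor theorem -/
def StF : Prop := ∀ w N, Reduced D.A w → D.Mx w N → ∀ (g h : O) c, D.b c ∈ N → g * h = D.b c →
  ∃ (α : ℚ) (P : S), D.b P ∈ N ∧ g = α • D.b P

end Pre

end Pool.Agent.KLT

end

section

/-! MP_e487d8_al, abstract part: tails, `lam C Y` as a bilinear function of the string of `C` and
the string and weight of `Y`. -/

set_option autoImplicit false

namespace Pool.Agent.KLSAbs

open scoped LaurentPolynomial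

variable {I S O K : Type} [DecidableEq I] [CommRing O] [Algebra ℚ O] [Ring K]
  [Algebra ℤ[T;T⁻¹] K] (D : Sys2 I S O K)

namespace Sys2

/-! ### tails -/

/-- what remains of `X` after taking away the letters of the word -/
def tail : List I → S → S
  | [], X => X
  | i :: w, X => tail w (D.E i X)

theorem tail_nil (X : S) : D.tail [] X = X := rfl

theorem tail_cons (i : I) (w : List I) (X : S) : D.tail (i :: w) X = D.tail w (D.E i X) := rfl

theorem Ad_iff_tail (w : List I) : ∀ X, D.Ad w X ↔ D.tail w X = D.one := by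
  induction w with
  | nil => intro X; rfl
  | cons i w ih => intro X; exact ih (D.E i X)

theorem tail_inj (w : List I) : ∀ {X Y : S}, D.str w X = D.str w Y → D.tail w X = D.tail w Y →
    X = Y := by
  induction w with
  | nil => intro X Y _ h; exact h
  | cons i w ih =>
    intro X Y h h'
    have h1 : (D.eps i X : ℚ) = D.eps i Y := congrArg (hd i w) h
    have h2 : D.str w (D.E i X) = D.str w (D.E i Y) := congrArg (tl i w) h
    exact D.eps_inj i X Y (by exact_mod_cast h1) (ih h2 h')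

theorem tail_mul [IsDomain O] (w : List I) : ∀ {X Y Z : S}, D.b X * D.b Y = D.b Z →
    D.b (D.tail w X) * D.b (D.tail w Y) = D.b (D.tail w Z) := by
  induction w with
  | nil => intro X Y Z h; exact h
  | cons i w ih => intro X Y Z h; exact ih (D.Emul i h).2

/-- string leading constituents -/
theorem co_tail (w : List I) : ∀ {X Y Z : S}, D.str w Z = D.str w X + D.str w Y →
    D.co X Y Z = D.co (D.tail w X) (D.tail w Y) (D.tail w Z) := by
  induction w with
  | nil => intro X Y Z _; rfl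
  | cons i w ih =>
    intro X Y Z h
    have h1 : (D.eps i Z : ℚ) = D.eps i X + D.eps i Y := congrArg (hd i w) h
    have h2 : D.str w (D.E i Z) = D.str w (D.E i X) + D.str w (D.E i Y) := congrArg (tl i w) h
    rw [D.co_E i X Y Z (by exact_mod_cast h1), ih h2]
    rfl

theorem exists_lead (w : List I) : ∀ {X Y T : S}, D.co (D.tail w X) (D.tail w Y) T ≠ 0 →
    ∃ Z, D.str w Z = D.str w X + D.str w Y ∧ D.tail w Z = T ∧ D.co X Y Z ≠ 0 := by
  induction w with
  | nil => intro X Y T h; exact ⟨T, (add_zero _).symm, rfl, h⟩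
  | cons i w ih =>
    intro X Y T h
    obtain ⟨Z', h1, h2, h3⟩ := ih h
    have h4 : D.eps i Z' = 0 := by
      have h5 := D.eps_co i _ _ Z' h3
      rw [D.eps_E, D.eps_E] at h5
      omega
    obtain ⟨Z, hZ1, hZ2⟩ := D.eps_surj i (D.eps i X + D.eps i Y) Z' h4
    refine ⟨Z, ?_, ?_, ?_⟩
    · rw [str_cons, hZ2, h1, hZ1, str_cons, str_cons, ← map_add, Nat.cast_add]
      rfl
    · rw [tail_cons, hZ2]; exact h2
    · rw [D.co_E i X Y Z hZ1, hZ2]; exact h3

/-! ### weights -/

/-- rational weight -/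
noncomputable def wtq (X : S) : I →₀ ℚ := (D.wt X).mapRange (fun n : ℕ => (n : ℚ)) Nat.cast_zero

/-- `(α_i, v)` -/
noncomputable def pr (i : I) : (I →₀ ℚ) →ₗ[ℚ] ℚ :=
  Finsupp.linearCombination ℚ fun j => (D.A i j : ℚ)

theorem pr_wtq (i : I) (X : S) : D.pr i (D.wtq X) = ((sumW (D.A i) (D.wt X) : ℤ) : ℚ) := by
  classical
  rw [pr, wtq, Finsupp.linearCombination_apply, Finsupp.sum_mapRange_index (by simp), sumW,
    Finsupp.sum, Finsupp.sum]
  push_cast
  refine Finset.sum_congr rfl fun j _ => ?_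
  rw [smul_eq_mul, mul_comm]

theorem pr_single (i j : I) (a : ℚ) : D.pr i (Finsupp.single j a) = a * D.A i j := by
  rw [pr, Finsupp.linearCombination_single, smul_eq_mul]

theorem A_diag (i : I) : D.A i i = 2 * D.dg i := by
  rw [D.A_car, D.car_diag, mul_comm]

theorem A_diag_ne (i : I) : (D.A i i : ℚ) ≠ 0 := by
  rw [A_diag]
  have := D.dg_pos i
  push_cast
  positivity

theorem wtq_add {X Y Z : S} (h : D.wt Z = D.wt X + D.wt Y) : D.wtq Z = D.wtq X + D.wtq Y := by
  ext i
  simp [wtq, h]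

theorem wtq_E (i : I) (X : S) :
    D.wtq X = D.wtq (D.E i X) + Finsupp.single i (D.eps i X : ℚ) := by
  classical
  ext j
  have h := DFunLike.congr_fun (D.wt_E i X) j
  simp only [Finsupp.add_apply] at h
  simp only [wtq, Finsupp.mapRange_apply, Finsupp.add_apply, h]
  rw [Finsupp.single_apply, Finsupp.single_apply]
  push_cast
  split_ifs <;> simp

theorem wtq_one : D.wtq D.one = 0 := by
  ext i
  simp [wtq, D.wt_one]

theorem wtq_inj {X Y : S} (h : D.wtq X = D.wtq Y) : D.wt X = D.wt Y := by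
  ext i
  have h1 := DFunLike.congr_fun h i
  simp only [wtq, Finsupp.mapRange_apply] at h1
  exact_mod_cast h1

/-- the weight of a string -/
noncomputable def Bw : (w : List I) → V w →ₗ[ℚ] (I →₀ ℚ)
  | [] => 0
  | i :: w => (hd i w).smulRight (Finsupp.single i 1) + (Bw w) ∘ₗ tl i w

theorem Bw_cons (i : I) (w : List I) (v : V (i :: w)) :
    Bw (i :: w) v = Finsupp.single i (hd i w v) + Bw w (tl i w v) := by
  rw [Bw]
  simp only [LinearMap.add_apply, LinearMap.smulRight_apply, LinearMap.comp_apply]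
  rw [Finsupp.smul_single, smul_eq_mul, mul_one]

theorem wtq_tail (w : List I) : ∀ X : S, D.wtq X = Bw w (D.str w X) + D.wtq (D.tail w X) := by
  induction w with
  | nil => intro X; rw [Bw, LinearMap.zero_apply, zero_add]; rfl
  | cons i w ih =>
    intro X
    rw [D.wtq_E i X, ih (D.E i X), Bw_cons, hd_str, tl_str, tail_cons]
    abel

theorem wtq_Ad (w : List I) {X : S} (hX : D.Ad w X) : D.wtq X = Bw w (D.str w X) := by
  rw [D.wtq_tail w X, (D.Ad_iff_tail w X).1 hX, wtq_one, add_zero]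

/-! ### the form -/

/-- the form `lam(C, Y)` in the string of `Y`, the weight of `Y` and the string of `C` -/
noncomputable def LB : (w : List I) → (V w × (I →₀ ℚ)) →ₗ[ℚ] (V w →ₗ[ℚ] ℚ)
  | [] => 0
  | i :: w =>
    let g : (V (i :: w) × (I →₀ ℚ)) →ₗ[ℚ] (I →₀ ℚ) := LinearMap.snd ℚ _ _ -
      ((hd i w) ∘ₗ LinearMap.fst ℚ _ _).smulRight (Finsupp.single i 1)
    (LinearMap.lcomp ℚ ℚ (tl i w)) ∘ₗ (LB w) ∘ₗ
      (((tl i w) ∘ₗ LinearMap.fst ℚ _ _).prod g) +
      ((hd i w) ∘ₗ LinearMap.fst ℚ _ _).smulRight (D.pr i ∘ₗ Bw w ∘ₗ tl i w) -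
      (D.pr i ∘ₗ g).smulRight (hd i w)

theorem LB_cons (i : I) (w : List I) (u v : V (i :: w)) (γ : I →₀ ℚ) :
    D.LB (i :: w) (u, γ) v =
      D.LB w (tl i w u, γ - Finsupp.single i (hd i w u)) (tl i w v) +
      hd i w u * D.pr i (Bw w (tl i w v)) -
      D.pr i (γ - Finsupp.single i (hd i w u)) * hd i w v := by
  rw [LB]
  simp only [LinearMap.sub_apply, LinearMap.add_apply, LinearMap.comp_apply,
    LinearMap.smulRight_apply, LinearMap.prod_apply, Function.prod_apply, LinearMap.fst_apply,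
    LinearMap.snd_apply, LinearMap.lcomp_apply, LinearMap.smul_apply, smul_eq_mul,
    Finsupp.smul_single, mul_one]

/-- the form determines the string -/
theorem LB_inj (w : List I) : ∀ {u : V w}, D.LB w (u, 0) = 0 → u = 0 := by
  induction w with
  | nil => intro u _; funext k; exact Fin.elim0 k
  | cons i w ih =>
    intro u h
    have h1 := LinearMap.congr_fun h (cn i w (1, 0))
    rw [LB_cons, tl_cn, hd_cn] at h1
    simp only [map_zero, mul_zero, add_zero, mul_one, zero_sub, LinearMap.zero_apply, map_neg,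
      pr_single, neg_neg] at h1
    have h2 : hd i w u = 0 := by
      rcases mul_eq_zero.1 h1 with h3 | h3
      · exact h3
      · exact absurd h3 (D.A_diag_ne i)
    refine V_ext (by rw [h2, map_zero]) ?_
    rw [map_zero]
    refine ih (LinearMap.ext fun v => ?_)
    have h3 := LinearMap.congr_fun h (cn i w (0, v))
    rw [LB_cons, tl_cn, hd_cn, h2] at h3
    simpa using h3

/-- `C ↦ lam(C, Y)` on strings -/
noncomputable def LL (w : List I) (Y : S) : V w →ₗ[ℚ] ℚ := D.LB w (D.str w Y, D.wtq Y)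

theorem LL_cons (i : I) (w : List I) (Y : S) (v : V (i :: w)) :
    D.LL (i :: w) Y v = D.LL w (D.E i Y) (tl i w v) + (D.eps i Y *
      D.pr i (Bw w (tl i w v)) - D.pr i (D.wtq (D.E i Y)) * hd i w v) := by
  rw [LL, LL, LB_cons, tl_str, hd_str, D.wtq_E i Y, add_sub_cancel_right]
  ring

variable [IsDomain O]

theorem lam_LL (w : List I) : ∀ {C Y : S}, D.Ad w C → D.Cm C Y →
    (D.lam C Y : ℚ) = D.LL w Y (D.str w C) := by
  induction w with
  | nil =>
    intro C Y hC _
    rw [Ad_nil] at hC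
    rw [hC, D.lam_one, LL, LB]; simp
  | cons i w ih =>
    intro C Y hC hY
    rw [D.lam_string i hY, LL_cons, tl_str, hd_str]
    push_cast
    rw [ih hC (D.cm_E i hY), ← D.wtq_Ad w hC, pr_wtq, pr_wtq]
    ring

omit [IsDomain O] in
/-- the weight and the values of `lam` determine the string -/
theorem LL_inj (w : List I) {Z X Y : S} (hwt : D.wt Z = D.wt X + D.wt Y)
    (h : D.LL w Z = D.LL w X + D.LL w Y) : D.str w Z = D.str w X + D.str w Y := by
  have h1 : D.LB w (D.str w Z - (D.str w X + D.str w Y), 0) = 0 := by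
    have h2 : ((D.str w Z - (D.str w X + D.str w Y), 0) : V w × (I →₀ ℚ)) =
        (D.str w Z, D.wtq Z) - ((D.str w X, D.wtq X) + (D.str w Y, D.wtq Y)) := by
      rw [Prod.mk_add_mk, Prod.mk_sub_mk, D.wtq_add hwt, sub_self]
    rw [h2, map_sub, map_add]
    exact sub_eq_zero.2 h
  exact sub_eq_zero.1 (D.LB_inj w h1)

omit [IsDomain O] in
/-- adaptedness from weight and string -/
theorem Ad_of_wt (w : List I) {Z X Y : S} (h : D.wt Z = D.wt X + D.wt Y) (hX : D.Ad w X)
    (hY : D.Ad w Y) (hs : D.str w Z = D.str w X + D.str w Y) : D.Ad w Z := by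
  rw [Ad_iff_tail]
  refine D.wt_zero _ ?_
  have h1 := D.wtq_tail w Z
  rw [D.wtq_add h, D.wtq_Ad w hX, D.wtq_Ad w hY, hs, map_add] at h1
  have h2 : D.wtq (D.tail w Z) = 0 := by
    have := h1.symm
    exact add_eq_left.1 this
  have h3 : D.wt (D.tail w Z) = D.wt D.one := D.wtq_inj (by rw [h2, wtq_one])
  rw [h3, D.wt_one]

end Sys2

end Pool.Agent.KLSAbs

end

section

/-! MP_e487d8_al, part 3: common lemmas (tails, weights, positivity, the ideal of the non adapted
modules, eigenvectors of the bracket). -/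

set_option autoImplicit false

namespace Pool.Agent.KLT

theorem reduced_reverse {I : Type*} {d : I → ℤ} {A : I → I → ℤ} (hA : SymGCM d A) {w : List I}
    (h : Reduced A w) : Reduced A w.reverse := by
  intro w' hw'
  have h1 := h w'.reverse (fun β => by
    have h2 := hw' (act A w β)
    rw [act_reverse hA] at h2
    rw [← h2, act_reverse hA, h2])
  simpa using h1

namespace Pre

variable {I S O : Type} [DecidableEq I] [CommRing O] [Algebra ℚ O] (D : Pre I S O)

/-! ### tails and weights -/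

theorem tail_nil (X : S) : D.tail [] X = X := rfl

theorem tail_cons (i : I) (w : List I) (X : S) : D.tail (i :: w) X = D.tail w (D.E i X) := rfl

theorem tail_append (v w : List I) (X : S) : D.tail (v ++ w) X = D.tail w (D.tail v X) := by
  induction v generalizing X with
  | nil => rfl
  | cons i v ih => exact ih (D.E i X)

theorem ad_iff_tail (w : List I) (X : S) : D.Ad w X ↔ D.tail w X = D.one := by
  induction w generalizing X with
  | nil => rfl
  | cons i w ih => exact ih (D.E i X)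

theorem tail_one (w : List I) : D.tail w D.one = D.one := (D.ad_iff_tail w _).1 (D.Ad_one w)

theorem ad_append (v w : List I) (X : S) : D.Ad (v ++ w) X ↔ D.Ad w (D.tail v X) := by
  rw [ad_iff_tail, ad_iff_tail, tail_append]

theorem ad_append' {v : List I} (w : List I) {X : S} (h : D.Ad v X) : D.Ad (v ++ w) X := by
  rw [ad_append, (D.ad_iff_tail v X).1 h]
  exact D.Ad_one w

theorem wtz_apply (X : S) (i : I) : D.wtz X i = (D.wt X i : ℤ) := by simp [wtz]

theorem wtz_co {X Y Z : S} (h : D.co X Y Z ≠ 0) : D.wtz Z = D.wtz X + D.wtz Y := by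
  ext i
  have h1 := D.wt_co X Y Z h
  simp [wtz, h1]

theorem wtz_mul {X Y Z : S} (h : D.b X * D.b Y = D.b Z) : D.wtz Z = D.wtz X + D.wtz Y :=
  D.wtz_co (by rw [D.co_of_mul h]; exact one_ne_zero)

theorem wtz_one : D.wtz D.one = 0 := by
  ext i
  simp [wtz, D.wt_one]

theorem wtz_E (i : I) (X : S) : D.wtz X = D.wtz (D.E i X) + (D.eps i X : ℤ) • al i := by
  classical
  ext j
  have h := DFunLike.congr_fun (D.wt_E i X) j
  simp only [Finsupp.add_apply] at h
  rw [Finsupp.add_apply, wtz_apply, wtz_apply, h]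
  simp only [al, Finsupp.smul_apply, Finsupp.single_apply]
  push_cast
  split_ifs <;> simp

theorem wtz_E' (i : I) (X : S) : D.wtz X = D.wtz (D.E' i X) + (D.eps' i X : ℤ) • al i := by
  classical
  ext j
  have h := DFunLike.congr_fun (D.wt_E' i X) j
  simp only [Finsupp.add_apply] at h
  rw [Finsupp.add_apply, wtz_apply, wtz_apply, h]
  simp only [al, Finsupp.smul_apply, Finsupp.single_apply]
  push_cast
  split_ifs <;> simp

theorem wtz_nonneg (X : S) : 0 ≤ D.wtz X := by
  intro i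
  rw [wtz_apply]
  exact Int.natCast_nonneg _

theorem wtz_inj {X Y : S} (h : D.wtz X = D.wtz Y) : D.wt X = D.wt Y := by
  ext i
  have := DFunLike.congr_fun h i
  rw [wtz_apply, wtz_apply] at this
  exact_mod_cast this

theorem eq_one_of_wtz {X : S} (h : D.wtz X = 0) : X = D.one := by
  refine D.wt_zero X ?_
  have h1 : D.wtz X = D.wtz D.one := by rw [h, wtz_one]
  rw [D.wtz_inj h1, D.wt_one]

theorem lam_Ez (i : I) {C Y : S} (h : D.Cm C Y) : D.lam C Y = D.lam (D.E i C) (D.E i Y) +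
    D.d i * ((D.eps i Y : ℤ) * pair D.A i (D.wtz (D.E i C)) -
      (D.eps i C : ℤ) * pair D.A i (D.wtz (D.E i Y))) := by
  obtain ⟨Z, hZ⟩ := h
  exact D.lam_E i C Y Z hZ

theorem hd_simple {X Y Z W : S} (h : D.b X * D.b Y = D.b Z) (hW : D.Hd X Y W) : W = Z :=
  D.co_of_mul' h (D.hd_co X Y W hW)

theorem hd_mul {X Y Z : S} (h : D.b X * D.b Y = D.b Z) : D.Hd X Y Z := by
  obtain ⟨W, hW⟩ := D.hd_ex X Y
  rwa [← D.hd_simple h hW]

theorem hd_one_left {X Z : S} : D.Hd D.one X Z ↔ Z = X := by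
  have h : D.b D.one * D.b X = D.b X := by rw [D.b_one, one_mul]
  exact ⟨D.hd_simple h, fun h1 => by rw [h1]; exact D.hd_mul h⟩

theorem hd_one_right {X Z : S} : D.Hd X D.one Z ↔ Z = X := by
  have h : D.b X * D.b D.one = D.b X := by rw [D.b_one, mul_one]
  exact ⟨D.hd_simple h, fun h1 => by rw [h1]; exact D.hd_mul h⟩

theorem pow_b_zero (X : S) : D.b X ^ 0 = D.b D.one := by rw [pow_zero, D.b_one]

theorem SR.sc_self {D : Pre I S O} {X : S} (h : D.SR X) : D.SC X X := by
  intro n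
  obtain ⟨T, hT⟩ := h (n + 1)
  exact ⟨T, by rw [← hT, pow_succ]⟩

theorem SR.sc_one {D : Pre I S O} {X : S} (h : D.SR X) : D.SC X D.one := by
  intro n
  obtain ⟨T, hT⟩ := h n
  exact ⟨T, by rw [← hT, D.b_one, mul_one]⟩

theorem SC.pow {D : Pre I S O} {C X Y : S} (h : D.SC C X) (k : ℕ) (hY : D.b C ^ k * D.b X = D.b Y) :
    D.SC C Y := by
  intro n
  obtain ⟨T, hT⟩ := h (n + k)
  exact ⟨T, by rw [← hT, ← hY, pow_add]; ring⟩

theorem br_self (x : O) : D.br x x = 0 := by
  have h := D.br_anti x x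
  have h1 : (2 : ℚ) • D.br x x = 0 := by
    rw [two_smul]
    nth_rewrite 1 [h]
    exact neg_add_cancel _
  rcases smul_eq_zero.1 h1 with h2 | h2
  · norm_num at h2
  · exact h2

theorem br_pow (x y : O) (n : ℕ) : D.br x (y ^ (n + 1)) = (n + 1 : ℚ) • (y ^ n * D.br x y) := by
  induction n with
  | zero => simp
  | succ n ih =>
    rw [pow_succ, D.br_mul, ih, smul_mul_assoc]
    have h : y ^ n * D.br x y * y = y ^ (n + 1) * D.br x y := by ring
    rw [h]
    push_cast
    module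

theorem br_pow_self (x : O) (n : ℕ) : D.br x (x ^ n) = 0 := by
  rcases n with _ | n
  · rw [pow_zero, br_one]
  · rw [br_pow, br_self, mul_zero, smul_zero]

/-! ### positivity -/

/-- all coefficients are nonnegative -/
def Ps (g : O) : Prop := ∀ X, 0 ≤ D.b.repr g X

variable {D}

theorem Ps.b (X : S) : D.Ps (D.b X) := by
  classical
  intro Y
  rw [Module.Basis.repr_self, Finsupp.single_apply]
  split_ifs <;> norm_num

theorem Ps.zero : D.Ps 0 := by
  intro Y
  simp

theorem Ps.add {g h : O} (hg : D.Ps g) (hh : D.Ps h) : D.Ps (g + h) := by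
  intro Y
  rw [map_add, Finsupp.add_apply]
  exact add_nonneg (hg Y) (hh Y)

theorem Ps.smul {g : O} {c : ℚ} (hc : 0 ≤ c) (hg : D.Ps g) : D.Ps (c • g) := by
  intro Y
  rw [map_smul, Finsupp.smul_apply]
  exact mul_nonneg hc (hg Y)

theorem Ps.sum {ι : Type*} (s : Finset ι) {f : ι → O} (h : ∀ i ∈ s, D.Ps (f i)) :
    D.Ps (∑ i ∈ s, f i) := by
  classical
  induction s using Finset.induction_on with
  | empty => rw [Finset.sum_empty]; exact Ps.zero
  | insert a s ha ih =>
    rw [Finset.sum_insert ha]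
    exact (h a (Finset.mem_insert_self a s)).add
      (ih fun i hi => h i (Finset.mem_insert_of_mem hi))

theorem eq_sum (D : Pre I S O) (g : O) :
    g = ∑ X ∈ (D.b.repr g).support, D.b.repr g X • D.b X := by
  conv_lhs => rw [← D.b.linearCombination_repr g]
  rw [Finsupp.linearCombination_apply, Finsupp.sum]

theorem Ps.mul {g h : O} (hg : D.Ps g) (hh : D.Ps h) : D.Ps (g * h) := by
  rw [D.eq_sum g, Finset.sum_mul]
  refine Ps.sum _ fun X _ => ?_
  rw [smul_mul_assoc]
  refine Ps.smul (hg X) ?_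
  rw [D.eq_sum h, Finset.mul_sum]
  refine Ps.sum _ fun Y _ => ?_
  rw [mul_smul_comm]
  refine Ps.smul (hh Y) ?_
  intro Z
  rw [repr_mul]
  exact Nat.cast_nonneg _

theorem Ps.pow {g : O} (hg : D.Ps g) (n : ℕ) : D.Ps (g ^ n) := by
  induction n with
  | zero => rw [pow_zero, ← D.b_one]; exact Ps.b _
  | succ n ih => rw [pow_succ]; exact ih.mul hg

/-- a summand of a positive element -/
theorem Ps.le {g : O} (hg : D.Ps g) (X : S) : D.Ps (g - D.b.repr g X • D.b X) := by
  classical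
  intro Y
  rw [map_sub, map_smul, Module.Basis.repr_self, Finsupp.sub_apply, Finsupp.smul_apply,
    Finsupp.single_apply]
  by_cases h : X = Y
  · rw [if_pos h, h]
    simp
  · rw [if_neg h]
    simpa using hg Y

/-- coefficients of products of positive elements are at least the products of coefficients -/
theorem Ps.mul_le {g h : O} (hg : D.Ps g) (hh : D.Ps h) (X Y Z : S) :
    D.b.repr g X * D.b.repr h Y * D.co X Y Z ≤ D.b.repr (g * h) Z := by
  have e : g * h = (D.b.repr g X * D.b.repr h Y) • (D.b X * D.b Y) +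
      ((D.b.repr g X • D.b X) * (h - D.b.repr h Y • D.b Y) +
        (g - D.b.repr g X • D.b X) * h) := by
    rw [← smul_mul_smul_comm]
    ring
  have h1 : D.Ps ((D.b.repr g X • D.b X) * (h - D.b.repr h Y • D.b Y) +
      (g - D.b.repr g X • D.b X) * h) :=
    ((Ps.smul (hg X) (Ps.b X)).mul (hh.le Y)).add ((hg.le X).mul hh)
  have h2 := h1 Z
  conv_rhs => rw [e]
  rw [map_add, Finsupp.add_apply, map_smul, Finsupp.smul_apply, repr_mul, smul_eq_mul]
  linarith

variable (D)

/-! ### the ideal -/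

theorem mem_Id {w : List I} {g : O} : g ∈ D.Id w ↔ ∀ X, D.Ad w X → D.b.repr g X = 0 := by
  rw [Id, mem_SS]
  constructor
  · intro h X hX
    by_contra h1
    exact h X h1 hX
  · intro h X hX hA
    exact hX (h X hA)

theorem b_mem_Id {w : List I} {X : S} : D.b X ∈ D.Id w ↔ ¬ D.Ad w X := D.b_mem_SS

theorem ad_co_right {w : List I} {X Y Z : S} (h : D.co X Y Z ≠ 0) (hZ : D.Ad w Z) : D.Ad w Y := by
  rw [D.co_symm] at h
  exact D.ad_co w Y X Z h hZ

theorem Id_mul {w : List I} {x y : O} (hy : y ∈ D.Id w) : x * y ∈ D.Id w := by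
  refine D.SS_mul (p := fun _ => True) (q := fun X => ¬ D.Ad w X) ?_ (D.mem_SS_top x) hy
  intro X Y Z _ hY hZ hA
  exact hY (D.ad_co_right hZ hA)

theorem Id_mul' {w : List I} {x y : O} (hy : y ∈ D.Id w) : y * x ∈ D.Id w := by
  rw [mul_comm]; exact D.Id_mul hy

/-- congruent products -/
theorem Id_mul_sub {w : List I} {x x' y y' : O} (hx : x - x' ∈ D.Id w) (hy : y - y' ∈ D.Id w) :
    x * y - x' * y' ∈ D.Id w := by
  have e : x * y - x' * y' = x * (y - y') + (x - x') * y' := by ring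
  rw [e]
  exact Submodule.add_mem _ (D.Id_mul hy) (D.Id_mul' hx)

theorem Id_pow_sub {w : List I} {x x' : O} (hx : x - x' ∈ D.Id w) (n : ℕ) :
    x ^ n - x' ^ n ∈ D.Id w := by
  induction n with
  | zero => rw [pow_zero, pow_zero, sub_self]; exact Submodule.zero_mem _
  | succ n ih => rw [pow_succ, pow_succ]; exact D.Id_mul_sub ih hx

theorem br_mem_Id {w : List I} {x y : O} (hy : y ∈ D.Id w) : D.br x y ∈ D.Id w := by
  have h1 : ∀ X Y, ¬ D.Ad w Y → D.br (D.b X) (D.b Y) ∈ D.Id w := by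
    intro X Y hY
    rw [mem_Id]
    intro Z hZ
    refine D.br_supp X Y Z ?_
    by_contra h
    exact hY (D.ad_co_right h hZ)
  have h2 : ∀ X, D.br (D.b X) y ∈ D.Id w := by
    intro X
    refine Submodule.span_induction (p := fun y _ => D.br (D.b X) y ∈ D.Id w) ?_ ?_ ?_ ?_ hy
    · rintro _ ⟨Y, hY, rfl⟩
      exact h1 X Y hY
    · rw [map_zero]; exact Submodule.zero_mem _
    · intro x y _ _ hx hy
      rw [map_add]; exact Submodule.add_mem _ hx hy
    · intro c x _ hx
      rw [map_smul]; exact Submodule.smul_mem _ _ hx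
  rw [D.eq_sum x, map_sum, LinearMap.sum_apply]
  refine Submodule.sum_mem _ fun X _ => ?_
  rw [map_smul, LinearMap.smul_apply]
  exact Submodule.smul_mem _ _ (h2 X)

theorem br_mem_Id' {w : List I} {x y : O} (hx : x ∈ D.Id w) : D.br x y ∈ D.Id w := by
  rw [D.br_anti]
  exact Submodule.neg_mem _ (D.br_mem_Id hx)

/-- congruent brackets -/
theorem br_sub_mem_Id {w : List I} {x x' y y' : O} (hx : x - x' ∈ D.Id w) (hy : y - y' ∈ D.Id w) :
    D.br x y - D.br x' y' ∈ D.Id w := by
  have e : D.br x y - D.br x' y' = D.br x (y - y') + D.br (x - x') y' := by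
    rw [map_sub, map_sub, LinearMap.sub_apply]; abel
  rw [e]
  exact Submodule.add_mem _ (D.br_mem_Id hy) (D.br_mem_Id' hx)

/-- the adapted part -/
theorem exists_adp (w : List I) (g : O) : ∃ g₁, g - g₁ ∈ D.Id w ∧ g₁ ∈ D.SS (D.Ad w) ∧
    ∀ X, D.Ad w X → D.b.repr g₁ X = D.b.repr g X := by
  classical
  refine ⟨D.b.repr.symm ((D.b.repr g).filter fun X => D.Ad w X), ?_, ?_, ?_⟩
  · rw [mem_Id]
    intro X hX
    rw [map_sub, LinearEquiv.apply_symm_apply, Finsupp.sub_apply, Finsupp.filter_apply,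
      if_pos hX, sub_self]
  · rw [mem_SS]
    intro X hX
    rw [LinearEquiv.apply_symm_apply, Finsupp.filter_apply] at hX
    by_contra h1
    rw [if_neg h1] at hX
    exact hX rfl
  · intro X hX
    rw [LinearEquiv.apply_symm_apply, Finsupp.filter_apply, if_pos hX]

theorem eq_zero_of_Id {w : List I} {g : O} (h1 : g ∈ D.Id w) (h2 : g ∈ D.SS (D.Ad w)) : g = 0 := by
  refine D.b.repr.injective (Finsupp.ext fun X => ?_)
  rw [map_zero, Finsupp.zero_apply]
  by_contra h
  exact h ((D.mem_Id.1 h1) X (D.mem_SS.1 h2 X h))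

/-! ### eigenvectors of the bracket -/

variable [IsDomain O]

theorem mul_left_inj' {C X Y P : S} (h : D.b C * D.b X = D.b P) (h' : D.b C * D.b Y = D.b P) :
    X = Y := D.b_inj (mul_left_cancel₀ (D.b.ne_zero C) (h.trans h'.symm))

/-- coefficients of `C W` if `C` commutes with all constituents of `W` -/
theorem repr_mul_cm {C R₀ P : S} {W : O} (hW : ∀ R, D.b.repr W R ≠ 0 → D.Cm C R)
    (hP : D.b C * D.b R₀ = D.b P) : D.b.repr (D.b C * W) P = D.b.repr W R₀ := by
  classical
  have h1 : ∀ R ∈ (D.b.repr W).support, D.b.repr (D.b C * (D.b.repr W R • D.b R)) P =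
      if R = R₀ then D.b.repr W R₀ else 0 := by
    intro R hR
    obtain ⟨Q, hQ⟩ := hW R (Finsupp.mem_support_iff.1 hR)
    rw [mul_smul_comm, map_smul, hQ, Module.Basis.repr_self, Finsupp.smul_apply,
      Finsupp.single_apply]
    by_cases h : R = R₀
    · rw [if_pos h, h]
      rw [h, hP] at hQ
      rw [D.b_inj hQ, if_pos rfl, smul_eq_mul, mul_one]
    · rw [if_neg h, if_neg, smul_zero]
      rintro rfl
      exact h (D.mul_left_inj' hQ hP)
  conv_lhs => rw [D.eq_sum W]
  rw [Finset.mul_sum, map_sum, Finsupp.finsetSum_apply, Finset.sum_congr rfl h1,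
    Finset.sum_ite_eq']
  split_ifs with h
  · rfl
  · rw [Finsupp.notMem_support_iff] at h
    exact h.symm

/-- coefficients of `{C, W}` if `C` commutes with all constituents of `W` -/
theorem repr_br_cm {C R₀ P : S} {W : O} (hW : ∀ R, D.b.repr W R ≠ 0 → D.Cm C R)
    (hP : D.b C * D.b R₀ = D.b P) :
    D.b.repr (D.br (D.b C) W) P = D.lam C R₀ * D.b.repr W R₀ := by
  classical
  have h1 : ∀ R ∈ (D.b.repr W).support, D.b.repr (D.br (D.b C) (D.b.repr W R • D.b R)) P =
      if R = R₀ then D.lam C R₀ * D.b.repr W R₀ else 0 := by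
    intro R hR
    obtain ⟨Q, hQ⟩ := hW R (Finsupp.mem_support_iff.1 hR)
    rw [map_smul, map_smul, D.br_lam C R Q hQ, map_smul, Module.Basis.repr_self,
      Finsupp.smul_apply, Finsupp.smul_apply, Finsupp.single_apply]
    by_cases h : R = R₀
    · rw [if_pos h, h]
      rw [h, hP] at hQ
      rw [D.b_inj hQ, if_pos rfl, smul_eq_mul, smul_eq_mul, mul_one]
      ring
    · rw [if_neg h, if_neg, smul_zero, smul_zero]
      rintro rfl
      exact h (D.mul_left_inj' hQ hP)
  conv_lhs => rw [D.eq_sum W]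
  rw [map_sum, map_sum, Finsupp.finsetSum_apply, Finset.sum_congr rfl h1,
    Finset.sum_ite_eq']
  split_ifs with h
  · rfl
  · rw [Finsupp.notMem_support_iff] at h
    rw [h, mul_zero]

/-- eigenvectors -/
theorem eig {C : S} {W : O} {μ : ℚ} (hW : ∀ R, D.b.repr W R ≠ 0 → D.Cm C R)
    (h : D.br (D.b C) W = μ • (D.b C * W)) {R : S} (hR : D.b.repr W R ≠ 0) :
    (D.lam C R : ℚ) = μ := by
  obtain ⟨P, hP⟩ := hW R hR
  have h1 := congrArg (fun g => D.b.repr g P) h
  simp only [map_smul, Finsupp.smul_apply] at h1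
  rw [D.repr_br_cm hW hP, D.repr_mul_cm hW hP, smul_eq_mul] at h1
  exact mul_right_cancel₀ hR h1

/-- eigenvectors modulo the ideal -/
theorem eig_Id {w : List I} {C : S} {W : O} {μ : ℚ} (hW : ∀ R, D.b.repr W R ≠ 0 → D.Cm C R)
    (hA : ∀ R P, D.b.repr W R ≠ 0 → D.b C * D.b R = D.b P → D.Ad w P)
    (h : D.br (D.b C) W - μ • (D.b C * W) ∈ D.Id w) {R : S} (hR : D.b.repr W R ≠ 0) :
    (D.lam C R : ℚ) = μ := by
  obtain ⟨P, hP⟩ := hW R hR
  have h1 := D.mem_Id.1 h P (hA R P hR hP)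
  rw [map_sub, map_smul, Finsupp.sub_apply, Finsupp.smul_apply, D.repr_br_cm hW hP,
    D.repr_mul_cm hW hP, smul_eq_mul] at h1
  exact mul_right_cancel₀ hR (sub_eq_zero.1 h1)

end Pre

end Pool.Agent.KLT

end

section

/-! MP_e487d8_al, PBW block: basic API for the operators on functions on words, and the relations
between the `e` and the `x` (`prf_rE`). -/

set_option autoImplicit false

namespace Pool.Agent.KLS

variable {K I : Type} [Field K] [Fintype I] [DecidableEq I]

namespace Pbw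

variable {D : Datum K I} {P : Type} [AddCommGroup P] [Module K P]

namespace Loc

/-! ### derived facts on `Loc` -/

section

variable (d : Loc D P)

@[simp] theorem shF_r1 (a : KLRAlg D) : d.shF.r1 a = d.r1 (D.shn 1 a) := rfl
@[simp] theorem shF_r2 (a : KLRAlg D) : d.shF.r2 a = d.r2 a := rfl
@[simp] theorem shT_r1 (a : KLRAlg D) : d.shT.r1 a = d.r1 a := rfl
@[simp] theorem shT_r2 (a : KLRAlg D) : d.shT.r2 a = d.r2 (D.shn 1 a) := rfl
theorem shF_shT : d.shF.shT = d.shT.shF := rfl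
theorem shT_shF : d.shT.shF = d.shF.shT := rfl

theorem EE_v (i j : ℕ) : d.r1 (D.E i) * d.r2 (D.E j) * d.v i j = d.v i j := by
  rw [← d.v_mul, mul_assoc, d.mul_v, d.v_E]

/-- an endomorphism which commutes with `x i - y j` and with `E i E j` commutes with `v i j` -/
theorem comm_v (i j : ℕ) {g : Module.End K P}
    (h : g * (d.r1 (D.x i) - d.r2 (D.x j)) = (d.r1 (D.x i) - d.r2 (D.x j)) * g)
    (h' : g * (d.r1 (D.E i) * d.r2 (D.E j)) = (d.r1 (D.E i) * d.r2 (D.E j)) * g) :
    g * d.v i j = d.v i j * g := by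
  calc g * d.v i j = g * (d.r1 (D.E i) * d.r2 (D.E j) * d.v i j) := by rw [d.EE_v]
    _ = d.v i j * ((d.r1 (D.x i) - d.r2 (D.x j)) * g) * d.v i j := by
      rw [← mul_assoc g, h', ← d.v_mul, mul_assoc (d.v i j)]
    _ = d.v i j * g * ((d.r1 (D.x i) - d.r2 (D.x j)) * d.v i j) := by
      rw [← h]; simp only [mul_assoc]
    _ = d.v i j * (g * (d.r1 (D.E i) * d.r2 (D.E j))) := by rw [d.mul_v, mul_assoc]
    _ = d.v i j * g := by rw [h', ← mul_assoc, d.v_E]

/-- an endomorphism commuting with both actions commutes with `v i j` -/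
theorem comm_v' (i j : ℕ) {g : Module.End K P} (h1 : ∀ a, g * d.r1 a = d.r1 a * g)
    (h2 : ∀ a, g * d.r2 a = d.r2 a * g) : g * d.v i j = d.v i j * g := by
  apply d.comm_v
  · rw [mul_sub, sub_mul, h1, h2]
  · rw [← mul_assoc, h1, mul_assoc, h2, mul_assoc]

theorem comm_dd (i j : ℕ) {g : Module.End K P}
    (h1 : ∀ c, g * d.r1 (D.e i c) = d.r1 (D.e i c) * g)
    (h2 : ∀ c, g * d.r2 (D.e j c) = d.r2 (D.e j c) * g) : g * d.dd i j = d.dd i j * g := by
  unfold dd
  rw [Finset.mul_sum, Finset.sum_mul]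
  refine Finset.sum_congr rfl fun c _ => ?_
  rw [← mul_assoc, h1, mul_assoc, h2, mul_assoc]

theorem comm_nn (i j : ℕ) {g : Module.End K P}
    (h1 : ∀ c, g * d.r1 (D.e i c) = d.r1 (D.e i c) * g)
    (h2 : ∀ c, g * d.r2 (D.e j c) = d.r2 (D.e j c) * g) : g * d.nn i j = d.nn i j * g := by
  unfold nn
  rw [Finset.mul_sum, Finset.sum_mul]
  refine Finset.sum_congr rfl fun c _ => ?_
  rw [Finset.mul_sum, Finset.sum_mul]
  refine Finset.sum_congr rfl fun c' _ => ?_
  split_ifs
  · rw [mul_zero, zero_mul]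
  · rw [← mul_assoc, h1, mul_assoc, h2, mul_assoc]

theorem comm_qq (i j : ℕ) {g : Module.End K P}
    (h1 : ∀ c, g * d.r1 (D.e i c) = d.r1 (D.e i c) * g)
    (h2 : ∀ c, g * d.r2 (D.e j c) = d.r2 (D.e j c) * g)
    (h : g * d.r1 (D.x i) = d.r1 (D.x i) * g) (h' : g * d.r2 (D.x j) = d.r2 (D.x j) * g) :
    g * d.qq i j = d.qq i j * g := by
  unfold qq
  rw [Finset.mul_sum, Finset.sum_mul]
  refine Finset.sum_congr rfl fun c _ => ?_
  rw [Finset.mul_sum, Finset.sum_mul]
  refine Finset.sum_congr rfl fun c' _ => ?_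
  split_ifs
  · rw [mul_zero, zero_mul]
  · have hp : g * D.QE c c' (d.r1 (D.x i)) (d.r2 (D.x j)) =
        D.QE c c' (d.r1 (D.x i)) (d.r2 (D.x j)) * g := Datum.QE_semi h h'
    rw [← mul_assoc, hp, mul_assoc, ← mul_assoc g, h1,
      mul_assoc (d.r1 _) g, h2]
    simp only [mul_assoc]

theorem comm_A (i j : ℕ) {g : Module.End K P}
    (h1 : ∀ c, g * d.r1 (D.e i c) = d.r1 (D.e i c) * g)
    (h2 : ∀ c, g * d.r2 (D.e j c) = d.r2 (D.e j c) * g)
    (h : g * (d.r1 (D.x i) - d.r2 (D.x j)) = (d.r1 (D.x i) - d.r2 (D.x j)) * g) :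
    g * d.A i j = d.A i j * g := by
  unfold A
  have hE1 : g * d.r1 (D.E i) = d.r1 (D.E i) * g := by
    unfold Datum.E
    rw [map_sum, Finset.mul_sum, Finset.sum_mul]
    exact Finset.sum_congr rfl fun c _ => h1 c
  have hE2 : g * d.r2 (D.E j) = d.r2 (D.E j) * g := by
    unfold Datum.E
    rw [map_sum, Finset.mul_sum, Finset.sum_mul]
    exact Finset.sum_congr rfl fun c _ => h2 c
  rw [← mul_assoc, d.comm_v i j h (by rw [← mul_assoc, hE1, mul_assoc, hE2, mul_assoc]),
    mul_assoc, d.comm_dd i j h1 h2, mul_assoc]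

end

/-! ### `glue`, `tl` and `post` -/

@[simp] theorem tl_apply (b : Bool) (f : List Bool → P) (w : List Bool) :
    tl (K := K) b f w = f (b :: w) := rfl
@[simp] theorem post_apply (g : Module.End K P) (f : List Bool → P) (w : List Bool) :
    post g f w = g (f w) := rfl
@[simp] theorem glue_nil (g h : Module.End K (List Bool → P)) (f : List Bool → P) :
    glue g h f [] = 0 := rfl
@[simp] theorem glue_false (g h : Module.End K (List Bool → P)) (f : List Bool → P)
    (w : List Bool) : glue g h f (false :: w) = g (tl (K := K) false f) w := rfl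
@[simp] theorem glue_true (g h : Module.End K (List Bool → P)) (f : List Bool → P)
    (w : List Bool) : glue g h f (true :: w) = h (tl (K := K) true f) w := rfl
@[simp] theorem tl_glue_false (g h : Module.End K (List Bool → P)) (f : List Bool → P) :
    tl (K := K) false (glue g h f) = g (tl (K := K) false f) := rfl
@[simp] theorem tl_glue_true (g h : Module.End K (List Bool → P)) (f : List Bool → P) :
    tl (K := K) true (glue g h f) = h (tl (K := K) true f) := rfl

theorem tl_post (b : Bool) (g : Module.End K P) (f : List Bool → P) :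
    tl (K := K) b (post g f) = post g (tl (K := K) b f) := rfl

theorem ext_tl {f g : List Bool → P} (h0 : f [] = g [])
    (h1 : tl (K := K) false f = tl (K := K) false g)
    (h2 : tl (K := K) true f = tl (K := K) true g) : f = g := by
  funext w
  match w with
  | [] => exact h0
  | false :: w => exact congrFun h1 w
  | true :: w => exact congrFun h2 w

theorem glue_mul (g h g' h' : Module.End K (List Bool → P)) :
    glue g h * glue g' h' = glue (g * g') (h * h') := by
  ext f w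
  match w with
  | [] => rfl
  | false :: w => rfl
  | true :: w => rfl

theorem glue_add (g h g' h' : Module.End K (List Bool → P)) :
    glue g h + glue g' h' = glue (g + g') (h + h') := by
  ext f w
  match w with
  | [] => simp
  | false :: w => rfl
  | true :: w => rfl

theorem glue_sub (g h g' h' : Module.End K (List Bool → P)) :
    glue g h - glue g' h' = glue (g - g') (h - h') := by
  ext f w
  match w with
  | [] => simp
  | false :: w => rfl
  | true :: w => rfl

theorem glue_smul (r : K) (g h : Module.End K (List Bool → P)) :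
    r • glue g h = glue (r • g) (r • h) := by
  ext f w
  match w with
  | [] => simp
  | false :: w => rfl
  | true :: w => rfl

theorem glue_zero : glue (0 : Module.End K (List Bool → P)) 0 = 0 := by
  ext f w
  match w with
  | [] => rfl
  | false :: w => rfl
  | true :: w => rfl

theorem glue_sum {ι : Type*} (s : Finset ι) (g h : ι → Module.End K (List Bool → P)) :
    ∑ i ∈ s, glue (g i) (h i) = glue (∑ i ∈ s, g i) (∑ i ∈ s, h i) := by
  classical
  induction s using Finset.induction_on with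
  | empty => simp [glue_zero]
  | insert a s ha ih => rw [Finset.sum_insert ha, Finset.sum_insert ha, Finset.sum_insert ha, ih,
      glue_add]

theorem glue_pow_mul (n : ℕ) (g h g' h' : Module.End K (List Bool → P)) :
    glue g h ^ n * glue g' h' = glue (g ^ n * g') (h ^ n * h') := by
  induction n with
  | zero => simp
  | succ n ih => rw [pow_succ', mul_assoc, ih, glue_mul, pow_succ', pow_succ', mul_assoc, mul_assoc]

theorem post_mul (g h : Module.End K P) : post g * post h = post (g * h) := rfl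
theorem post_add (g h : Module.End K P) : post g + post h = post (g + h) := rfl
theorem post_zero : post (0 : Module.End K P) = 0 := rfl
theorem post_sum {ι : Type*} (s : Finset ι) (g : ι → Module.End K P) :
    ∑ i ∈ s, post (g i) = post (∑ i ∈ s, g i) := by
  classical
  induction s using Finset.induction_on with
  | empty => simp [post_zero]
  | insert a s ha ih => rw [Finset.sum_insert ha, Finset.sum_insert ha, ih, post_add]

theorem post_glue (a : Module.End K P) (g h : Module.End K (List Bool → P)) :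
    post a * glue g h = glue (post a * g) (post a * h) := by
  ext f w
  match w with
  | [] => exact map_zero a
  | false :: w => rfl
  | true :: w => rfl

theorem glue_post (a : Module.End K P) (g h : Module.End K (List Bool → P)) :
    glue g h * post a = glue (g * post a) (h * post a) := by
  ext f w
  match w with
  | [] => rfl
  | false :: w => rfl
  | true :: w => rfl

/-! ### the operators -/

theorem opE_zero (i : I) (d : Loc D P) :
    opE 0 i d = glue (post (d.r1 (D.e 0 i))) (post (d.r2 (D.e 0 i))) := rfl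
theorem opE_succ (k : ℕ) (i : I) (d : Loc D P) :
    opE (k + 1) i d = glue (opE k i d.shF) (opE k i d.shT) := rfl
theorem opX_zero (d : Loc D P) :
    opX 0 d = glue (post (d.r1 (D.x 0))) (post (d.r2 (D.x 0))) := rfl
theorem opX_succ (k : ℕ) (d : Loc D P) :
    opX (k + 1) d = glue (opX k d.shF) (opX k d.shT) := rfl
theorem opT_zero (d : Loc D P) : opT 0 d = d.T0 := rfl
theorem opT_succ (k : ℕ) (d : Loc D P) :
    opT (k + 1) d = glue (opT k d.shF) (opT k d.shT) := rfl

@[simp] theorem opE_nil (k : ℕ) (i : I) (d : Loc D P) (f : List Bool → P) : opE k i d f [] = 0 := by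
  cases k <;> rfl
@[simp] theorem opX_nil (k : ℕ) (d : Loc D P) (f : List Bool → P) : opX k d f [] = 0 := by
  cases k <;> rfl
@[simp] theorem opT_nil (k : ℕ) (d : Loc D P) (f : List Bool → P) : opT k d f [] = 0 := by
  cases k <;> rfl

/-! values of `T0` -/

@[simp] theorem T0_nil (d : Loc D P) (f : List Bool → P) : d.T0 f [] = 0 := rfl
@[simp] theorem T0_one (d : Loc D P) (f : List Bool → P) (b : Bool) : d.T0 f [b] = 0 := by
  cases b <;> rfl
theorem T0_FF (d : Loc D P) (f : List Bool → P) (w : List Bool) :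
    d.T0 f (false :: false :: w) = d.r1 (D.t 0) (f (false :: false :: w)) := rfl
theorem T0_TT (d : Loc D P) (f : List Bool → P) (w : List Bool) :
    d.T0 f (true :: true :: w) = d.r2 (D.t 0) (f (true :: true :: w)) := rfl
theorem T0_FT (d : Loc D P) (f : List Bool → P) (w : List Bool) :
    d.T0 f (false :: true :: w) =
      (d.A 0 0 + d.qq 0 0) (f (true :: false :: w)) - d.A 0 0 (f (false :: true :: w)) := rfl
theorem T0_TF (d : Loc D P) (f : List Bool → P) (w : List Bool) :
    d.T0 f (true :: false :: w) =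
      d.A 0 0 (f (true :: false :: w)) + (d.nn 0 0 - d.A 0 0) (f (false :: true :: w)) := rfl

/-- two operators agree if they agree on the words of length 0, 1, >= 2 -/
theorem ext_two {F G : Module.End K (List Bool → P)} (h0 : ∀ f, F f [] = G f [])
    (h1 : ∀ f b, F f [b] = G f [b]) (h2 : ∀ f b b' w, F f (b :: b' :: w) = G f (b :: b' :: w)) :
    F = G := by
  ext f w
  match w with
  | [] => exact h0 f
  | [b] => exact h1 f b
  | b :: b' :: w => exact h2 f b b' w

/-! naturality: `post g` commutes with the operators if `g` commutes with both actions -/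

theorem post_opE (k : ℕ) (i : I) (d : Loc D P) {g : Module.End K P}
    (h1 : ∀ a, g * d.r1 a = d.r1 a * g) (h2 : ∀ a, g * d.r2 a = d.r2 a * g) :
    post g * opE k i d = opE k i d * post g := by
  induction k generalizing d with
  | zero => rw [opE_zero, post_glue, glue_post, post_mul, post_mul, post_mul, post_mul, h1, h2]
  | succ k ih =>
    rw [opE_succ, post_glue, glue_post, ih d.shF (fun a => h1 _) h2, ih d.shT h1 (fun a => h2 _)]

theorem post_opX (k : ℕ) (d : Loc D P) {g : Module.End K P}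
    (h1 : ∀ a, g * d.r1 a = d.r1 a * g) (h2 : ∀ a, g * d.r2 a = d.r2 a * g) :
    post g * opX k d = opX k d * post g := by
  induction k generalizing d with
  | zero => rw [opX_zero, post_glue, glue_post, post_mul, post_mul, post_mul, post_mul, h1, h2]
  | succ k ih =>
    rw [opX_succ, post_glue, glue_post, ih d.shF (fun a => h1 _) h2, ih d.shT h1 (fun a => h2 _)]

theorem post_T0 (d : Loc D P) {g : Module.End K P}
    (h1 : ∀ a, g * d.r1 a = d.r1 a * g) (h2 : ∀ a, g * d.r2 a = d.r2 a * g) :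
    post g * d.T0 = d.T0 * post g := by
  have hx : g * (d.r1 (D.x 0) - d.r2 (D.x 0)) = (d.r1 (D.x 0) - d.r2 (D.x 0)) * g := by
    rw [mul_sub, sub_mul, h1, h2]
  have hA := d.comm_A 0 0 (fun c => h1 _) (fun c => h2 _) hx
  have hq := d.comm_qq 0 0 (fun c => h1 _) (fun c => h2 _) (h1 _) (h2 _)
  have hn := d.comm_nn 0 0 (g := g) (fun c => h1 _) (fun c => h2 _)
  have hA' : ∀ p, g (d.A 0 0 p) = d.A 0 0 (g p) := fun p => LinearMap.congr_fun hA p
  have hq' : ∀ p, g (d.qq 0 0 p) = d.qq 0 0 (g p) := fun p => LinearMap.congr_fun hq p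
  have hn' : ∀ p, g (d.nn 0 0 p) = d.nn 0 0 (g p) := fun p => LinearMap.congr_fun hn p
  have h1' : ∀ p, g (d.r1 (D.t 0) p) = d.r1 (D.t 0) (g p) := fun p => LinearMap.congr_fun (h1 _) p
  have h2' : ∀ p, g (d.r2 (D.t 0) p) = d.r2 (D.t 0) (g p) := fun p => LinearMap.congr_fun (h2 _) p
  apply ext_two
  · intro f; simp [Module.End.mul_apply]
  · intro f b; simp [Module.End.mul_apply]
  · intro f b b' w
    rw [Module.End.mul_apply, Module.End.mul_apply, post_apply]
    match b, b' with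
    | false, false => rw [T0_FF, T0_FF, post_apply, h1']
    | true, true => rw [T0_TT, T0_TT, post_apply, h2']
    | false, true =>
      rw [T0_FT, T0_FT]
      simp only [post_apply, map_sub, LinearMap.add_apply, map_add, hA', hq']
    | true, false =>
      rw [T0_TF, T0_TF]
      simp only [post_apply, map_sub, LinearMap.sub_apply, map_add, hA', hn']

theorem post_opT (k : ℕ) (d : Loc D P) {g : Module.End K P}
    (h1 : ∀ a, g * d.r1 a = d.r1 a * g) (h2 : ∀ a, g * d.r2 a = d.r2 a * g) :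
    post g * opT k d = opT k d * post g := by
  induction k generalizing d with
  | zero => exact post_T0 d h1 h2
  | succ k ih =>
    rw [opT_succ, post_glue, glue_post, ih d.shF (fun a => h1 _) h2, ih d.shT h1 (fun a => h2 _)]

/-! elements of the first strand commute with `shn 1` -/

theorem e0_shn (i : I) (a : KLRAlg D) : D.e 0 i * D.shn 1 a = D.shn 1 a * D.e 0 i := by
  have h := D.tr_mul_shn (le_refl 1) (D.e 0 i) a
  rwa [D.tr_e, if_pos (by omega)] at h

theorem x0_shn (a : KLRAlg D) : D.x 0 * D.shn 1 a = D.shn 1 a * D.x 0 := by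
  have h := D.tr_mul_shn (le_refl 1) (D.x 0) a
  rwa [D.tr_x, if_pos (by omega)] at h

theorem t0_shn (a : KLRAlg D) : D.t 0 * D.shn 2 a = D.shn 2 a * D.t 0 := by
  have h := D.tr_mul_shn (le_refl 2) (D.t 0) a
  rwa [D.tr_t, if_pos (by omega)] at h

end Loc

open Loc

/-! ### the relations between `e` and `x` -/

theorem ee_aux (d : Loc D P) (k : ℕ) (i j : I) :
    opE k i d * opE k j d = if i = j then opE k i d else 0 := by
  induction k generalizing d with
  | zero =>
    rw [opE_zero, opE_zero, glue_mul, post_mul, post_mul, ← map_mul, ← map_mul, D.e_mul_e]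
    split_ifs
    · rfl
    · rw [map_zero, map_zero, post_zero, glue_zero]
  | succ k ih =>
    rw [opE_succ, opE_succ, glue_mul, ih, ih]
    split_ifs
    · rfl
    · rw [glue_zero]

/-- an element `post a` of the first strand commutes with the operators on the other strands -/
theorem comm_tail (d : Loc D P) {a : KLRAlg D} (ha : ∀ b, a * D.shn 1 b = D.shn 1 b * a) :
    (∀ b, d.r1 a * d.shF.r1 b = d.shF.r1 b * d.r1 a) ∧
    (∀ b, d.r1 a * d.shF.r2 b = d.shF.r2 b * d.r1 a) ∧
    (∀ b, d.r2 a * d.shT.r1 b = d.shT.r1 b * d.r2 a) ∧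
    (∀ b, d.r2 a * d.shT.r2 b = d.shT.r2 b * d.r2 a) := by
  refine ⟨fun b => ?_, fun b => d.comm a b, fun b => (d.comm b a).symm, fun b => ?_⟩
  · rw [shF_r1, ← map_mul, ha, map_mul]
  · rw [shT_r2, ← map_mul, ha, map_mul]

theorem ee_comm_aux (d : Loc D P) (k l : ℕ) (i j : I) :
    opE k i d * opE l j d = opE l j d * opE k i d := by
  induction k generalizing d l with
  | zero =>
    cases l with
    | zero =>
      rw [opE_zero, opE_zero, glue_mul, glue_mul, post_mul, post_mul, post_mul, post_mul,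
        ← map_mul, ← map_mul, D.e_comm, map_mul, map_mul]
    | succ l =>
      obtain ⟨h1, h2, h3, h4⟩ := comm_tail d (e0_shn i)
      rw [opE_zero, opE_succ, glue_mul, glue_mul, post_opE l j d.shF h1 h2,
        post_opE l j d.shT h3 h4]
  | succ k ih =>
    cases l with
    | zero =>
      obtain ⟨h1, h2, h3, h4⟩ := comm_tail d (e0_shn j)
      rw [opE_zero, opE_succ, glue_mul, glue_mul, post_opE k i d.shF h1 h2,
        post_opE k i d.shT h3 h4]
    | succ l => rw [opE_succ, opE_succ, glue_mul, glue_mul, ih, ih]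

theorem xx_aux (d : Loc D P) (k l : ℕ) : opX k d * opX l d = opX l d * opX k d := by
  induction k generalizing d l with
  | zero =>
    cases l with
    | zero => rfl
    | succ l =>
      obtain ⟨h1, h2, h3, h4⟩ := comm_tail d x0_shn
      rw [opX_zero, opX_succ, glue_mul, glue_mul, post_opX l d.shF h1 h2, post_opX l d.shT h3 h4]
  | succ k ih =>
    cases l with
    | zero =>
      obtain ⟨h1, h2, h3, h4⟩ := comm_tail d x0_shn
      rw [opX_zero, opX_succ, glue_mul, glue_mul, post_opX k d.shF h1 h2, post_opX k d.shT h3 h4]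
    | succ l => rw [opX_succ, opX_succ, glue_mul, glue_mul, ih, ih]

theorem xe_aux (d : Loc D P) (k l : ℕ) (i : I) : opX k d * opE l i d = opE l i d * opX k d := by
  induction k generalizing d l with
  | zero =>
    cases l with
    | zero =>
      rw [opX_zero, opE_zero, glue_mul, glue_mul, post_mul, post_mul, post_mul, post_mul,
        ← map_mul, ← map_mul, D.x_e, map_mul, map_mul]
    | succ l =>
      obtain ⟨h1, h2, h3, h4⟩ := comm_tail d x0_shn
      rw [opX_zero, opE_succ, glue_mul, glue_mul, post_opE l i d.shF h1 h2,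
        post_opE l i d.shT h3 h4]
  | succ k ih =>
    cases l with
    | zero =>
      obtain ⟨h1, h2, h3, h4⟩ := comm_tail d (e0_shn i)
      rw [opE_zero, opX_succ, glue_mul, glue_mul, post_opX k d.shF h1 h2, post_opX k d.shT h3 h4]
    | succ l => rw [opX_succ, opE_succ, glue_mul, glue_mul, ih, ih]

theorem sum_opE_zero (d : Loc D P) :
    ∑ i, opE 0 i d = glue (post (d.r1 (D.E 0))) (post (d.r2 (D.E 0))) := by
  simp only [opE_zero]
  rw [glue_sum, post_sum, post_sum, ← map_sum, ← map_sum]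
  rfl

theorem sum_opE_succ (d : Loc D P) (k : ℕ) :
    ∑ i, opE (k + 1) i d = glue (∑ i, opE k i d.shF) (∑ i, opE k i d.shT) := by
  simp only [opE_succ]
  rw [glue_sum]

theorem xE_aux (d : Loc D P) (k : ℕ) : opX k d * ∑ i, opE k i d = opX k d := by
  induction k generalizing d with
  | zero =>
    rw [sum_opE_zero, opX_zero, glue_mul, post_mul, post_mul, ← map_mul, ← map_mul, D.x_E]
  | succ k ih => rw [sum_opE_succ, opX_succ, glue_mul, ih, ih]

theorem prf_rE (D : Datum K I) : S_rE D := fun _ _ _ d =>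
  ⟨ee_aux d, ee_comm_aux d, xx_aux d, xe_aux d, xE_aux d⟩

end Pbw

end Pool.Agent.KLS

end
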