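import Pool.Agent.Work.MP_e487d8_al.Bd.B33

/-! Bundle of small proof modules (one section per former module). -/

section

/-! MP_e487d8_al, part 3: the simple quotients of `M ∘ X` for an extremal module `M`. -/

set_option autoImplicit false

namespace Pool.Agent.KLT

variable {I S O : Type} [DecidableEq I] [CommRing O] [Algebra ℚ O]

namespace XC5

theorem main (D : Pre I S O) (h : D.DLF) (w : List I) : ∀ (Λ : I → ℕ) (M : S),
    Reduced D.A w → D.IsDL Λ w M → ∀ X Z, D.Hd M X Z →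
      D.str w Z = D.str w M + D.str w X ∧ D.tail w Z = D.tail w X := by
  induction w with
  | nil =>
    intro Λ M _ hM X Z hZ
    have h1 := h.nil Λ M hM
    rw [h1] at hZ
    have h2 : Z = X := D.hd_one_left.1 hZ
    refine ⟨?_, ?_⟩
    · exact (add_zero _).symm
    · rw [h2]
  | cons i w ih =>
    intro Λ M hr hM X Z hZ
    obtain ⟨h1, h2⟩ := D.hd_ic i M X Z (h.cm Λ i w M hr hM) hZ
    obtain ⟨h3, h4⟩ := ih Λ (D.E i M) (reduced_tail hr) (h.step Λ i w M hr hM).1 _ _ h2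
    refine ⟨?_, h4⟩
    rw [Pre.str_cons, Pre.str_cons, Pre.str_cons, h3, h1, ← map_add, Nat.cast_add]
    rfl

end XC5

/-- the simple quotients of `M ∘ X` for an extremal module `M` -/
theorem I_C5 (D : Pre I S O) (h : D.DLF) : D.StC5 :=
  fun Λ w M hr hM X Z hZ => XC5.main D h w Λ M hr hM X Z hZ

end Pool.Agent.KLT

end

section

/-! MP_e487d8_al, part 3: adapted modules are not zero divisors modulo the ideal of the non adapted
modules. -/

set_option autoImplicit false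

namespace Pool.Agent.KLT

namespace XCAN

variable {I S O : Type} [DecidableEq I] [CommRing O] [Algebra ℚ O] (D : Pre I S O)

theorem tau_repr (i : I) (a : ℕ) (g : O) {Y : S} (hY : D.eps i Y = a) :
    D.b.repr (D.tau i a g) (D.E i Y) = D.b.repr g Y := by
  classical
  have h : (D.b.coord (D.E i Y)) ∘ₗ D.tau i a = D.b.coord Y := by
    refine D.b.ext fun Z => ?_
    rw [LinearMap.comp_apply, D.tau_b, Module.Basis.coord_apply, Module.Basis.coord_apply,
      Module.Basis.repr_self, Finsupp.single_apply]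
    by_cases h1 : D.eps i Z = a
    · rw [if_pos h1, Module.Basis.repr_self, Finsupp.single_apply]
      by_cases h2 : Z = Y
      · rw [if_pos h2, h2, if_pos rfl]
      · rw [if_neg h2, if_neg]
        intro h3
        exact h2 (D.eps_inj i Z Y (h1.trans hY.symm) h3)
    · rw [if_neg h1, map_zero, if_neg]
      · rfl
      · rintro rfl
        exact h1 hY
  exact LinearMap.congr_fun h g

/-- `tau` on a span of basis elements -/
theorem tau_SS (i : I) (a : ℕ) {p q : S → Prop} (h : ∀ X, p X → q (D.E i X)) {g : O}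
    (hg : g ∈ D.SS p) : D.tau i a g ∈ D.SS q := by
  refine Submodule.span_induction (p := fun g _ => D.tau i a g ∈ D.SS q) ?_ ?_ ?_ ?_ hg
  · rintro _ ⟨Y, hY, rfl⟩
    rw [D.tau_b]
    split_ifs
    · exact D.b_mem_SS.2 (h Y hY)
    · exact Submodule.zero_mem _
  · rw [map_zero]; exact Submodule.zero_mem _
  · intro x y _ _ hx hy
    rw [map_add]; exact Submodule.add_mem _ hx hy
  · intro c x _ hx
    rw [map_smul]; exact Submodule.smul_mem _ _ hx

/-- the step of the induction, for the adapted part -/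
theorem step (i : I) (w : List I) (ih : ∀ M, D.Ad w M → ∀ y, D.b M * y ∈ D.Id w → y ∈ D.Id w)
    {M : S} (hM : D.Ad (i :: w) M) {y : O} (hy : y ∈ D.SS (D.Ad (i :: w)))
    (h : D.b M * y ∈ D.Id (i :: w)) : y = 0 := by
  classical
  by_contra hne
  have h1 : (D.b.repr y).support.Nonempty := by
    rw [Finsupp.support_nonempty_iff]
    intro h
    exact hne (by simpa using h)
  obtain ⟨X₀, hX₀, hmax⟩ := Finset.exists_max_image _ (D.eps i) h1
  have h2 : D.tau i (D.eps i M + D.eps i X₀) (D.b M * y) =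
      D.tau i (D.eps i M) (D.b M) * D.tau i (D.eps i X₀) y :=
    D.tau_mul i (D.eps i M) (D.eps i X₀) (D.b_mem_SS.2 le_rfl)
      (D.mem_SS.2 fun Y hY => hmax Y (Finsupp.mem_support_iff.2 hY))
  rw [D.tau_b, if_pos rfl] at h2
  have h3 : D.tau i (D.eps i M + D.eps i X₀) (D.b M * y) ∈ D.Id w :=
    tau_SS D i _ (q := fun X => ¬ D.Ad w X) (fun X hX => hX) h
  rw [h2] at h3
  have h4 := ih (D.E i M) hM _ h3
  have h5 : D.tau i (D.eps i X₀) y ∈ D.SS (D.Ad w) :=
    tau_SS D i _ (q := D.Ad w) (fun X hX => hX) hy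
  have h6 := D.eq_zero_of_Id h4 h5
  have h7 := tau_repr D i (D.eps i X₀) y (Y := X₀) rfl
  rw [h6, map_zero, Finsupp.zero_apply] at h7
  exact Finsupp.mem_support_iff.1 hX₀ h7.symm

theorem main (w : List I) : ∀ M, D.Ad w M → ∀ y, D.b M * y ∈ D.Id w → y ∈ D.Id w := by
  induction w with
  | nil =>
    intro M hM y hy
    rw [D.Ad_nil] at hM
    rwa [hM, D.b_one, one_mul] at hy
  | cons i w ih =>
    intro M hM y hy
    obtain ⟨y₁, hy₁, hy₂, _⟩ := D.exists_adp (i :: w) y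
    have h1 : D.b M * y₁ ∈ D.Id (i :: w) := by
      have e : D.b M * y₁ = D.b M * y - D.b M * (y - y₁) := by ring
      rw [e]
      exact Submodule.sub_mem _ hy (D.Id_mul hy₁)
    have h2 := step D i w ih hM hy₂ h1
    rw [h2, sub_zero] at hy₁
    exact hy₁

end XCAN

variable {I S O : Type} [DecidableEq I] [CommRing O] [Algebra ℚ O]

theorem I_CAN (D : Pre I S O) : D.StCan := fun w => XCAN.main D w

end Pool.Agent.KLT

end

section

/-! MP_e487d8_al, part 3: comparison of the values of `lam` in two families. -/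

set_option autoImplicit false

namespace Pool.Agent.KLT

variable {I S O : Type} [DecidableEq I] [CommRing O] [Algebra ℚ O]

namespace XCMP

omit [DecidableEq I] in
theorem lam_nat (d : I → ℤ) (Λ : I → ℕ) (k : ℕ) (β : I →₀ ℤ) :
    KLT.lam d (fun i => ((k * Λ i : ℕ) : ℤ)) β = k * KLT.lam d (fun i => (Λ i : ℤ)) β := by
  unfold KLT.lam
  rw [Finsupp.mul_sum]
  refine Finsupp.sum_congr fun j _ => ?_
  push_cast
  ring

omit [DecidableEq I] in
theorem aff_nat (A : I → I → ℤ) (Λ : I → ℕ) (k : ℕ) (w : List I) :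
    aff A (fun i => ((k * Λ i : ℕ) : ℤ)) w 0 = (k : ℤ) • aff A (fun i => (Λ i : ℤ)) w 0 := by
  induction w with
  | nil => simp [aff]
  | cons i w ih =>
    simp only [aff]
    rw [ih]
    unfold sL
    rw [pair_smul, smul_add, smul_smul]
    congr 2
    push_cast
    ring

theorem kap_nat (D : Pre I S O) (Λ : I → ℕ) (k : ℕ) (w : List I) (β : I →₀ ℤ) :
    D.kap (fun i => k * Λ i) w β = k * D.kap Λ w β := by
  unfold Pre.kap
  rw [lam_nat, aff_nat, bil_smul_left]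
  ring

theorem br_pow_pow (D : Pre I S O) (x : O) (m n : ℕ) : D.br (x ^ m) (x ^ n) = 0 := by
  have h : D.br (x ^ m) x = 0 := by rw [D.br_anti, D.br_pow_self, neg_zero]
  rcases n with _ | n
  · rw [pow_zero, D.br_one]
  · rw [D.br_pow, h, mul_zero, smul_zero]

theorem br_mul' (D : Pre I S O) (x y v : O) :
    D.br (x * y) v = x * D.br y v + D.br x v * y := by
  rw [D.br_anti, D.br_mul, D.br_anti v x, D.br_anti v y]
  ring

/-- the identity behind the comparison -/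
theorem key (D : Pre I S O) (m z q : O) (K L : ℕ) (t u v : ℚ)
    (h : D.br z q = t • (z * q)) :
    D.br (m ^ K * z) (m ^ L * q) - (t + u - v) • ((m ^ K * z) * (m ^ L * q)) =
      (m ^ L * z) * (D.br (m ^ K) q - u • (m ^ K * q)) -
        (m ^ K * q) * (D.br (m ^ L) z - v • (m ^ L * z)) := by
  rw [D.br_mul, br_mul', br_mul', br_pow_pow, h, D.br_anti z (m ^ L)]
  simp only [Algebra.smul_def, map_add, map_sub]
  ring

end XCMP

theorem I_CMP (D : Pre I S O) (h : D.DLF) (hp : D.StDLpow) (hn : D.StNor) [IsDomain O] :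
    D.StCmp := by
  have _ := h
  intro Λ w M hw hM z Q z' Q' K L hzQ hzQ' hz' hQ' hcz hcQ
  have hN : ∀ (k : ℕ) X, D.br (D.b M ^ k) (D.b X) -
      ((k * D.kap Λ w (D.wtz X) : ℤ) : ℚ) • (D.b M ^ k * D.b X) ∈ D.Id w := by
    intro k X
    obtain ⟨T, hT, hTd⟩ := hp Λ w M hw hM k
    have h1 := hn (fun i => k * Λ i) w T hw hTd X
    rw [XCMP.kap_nat] at h1
    rwa [hT]
  obtain ⟨R, hR⟩ := hzQ
  obtain ⟨P, hP⟩ := hzQ'
  have h1 := D.br_lam z Q R hR
  rw [← hR] at h1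
  have h2 := D.br_lam z' Q' P hP
  have h3 := XCMP.key D (D.b M) (D.b z) (D.b Q) K L (D.lam z Q)
    ((K * D.kap Λ w (D.wtz Q) : ℤ) : ℚ) ((L * D.kap Λ w (D.wtz z) : ℤ) : ℚ) h1
  have h4 : D.br (D.b M ^ K * D.b z) (D.b M ^ L * D.b Q) -
      ((D.lam z Q : ℚ) + ((K * D.kap Λ w (D.wtz Q) : ℤ) : ℚ) -
        ((L * D.kap Λ w (D.wtz z) : ℤ) : ℚ)) •
        ((D.b M ^ K * D.b z) * (D.b M ^ L * D.b Q)) ∈ D.Id w := by
    rw [h3]
    exact Submodule.sub_mem _ (D.Id_mul (hN K Q)) (D.Id_mul (hN L z))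
  have h5 := D.br_sub_mem_Id hcz hcQ
  have h6 := D.Id_mul_sub hcz hcQ
  set μ : ℚ := (D.lam z Q : ℚ) + ((K * D.kap Λ w (D.wtz Q) : ℤ) : ℚ) -
        ((L * D.kap Λ w (D.wtz z) : ℤ) : ℚ) with hμ
  have h7 : D.br (D.b z') (D.b Q') - μ • (D.b z' * D.b Q') ∈ D.Id w := by
    have e : D.br (D.b z') (D.b Q') - μ • (D.b z' * D.b Q') =
        (D.br (D.b z') (D.b Q') - D.br (D.b M ^ K * D.b z) (D.b M ^ L * D.b Q)) +
        (D.br (D.b M ^ K * D.b z) (D.b M ^ L * D.b Q) -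
          μ • ((D.b M ^ K * D.b z) * (D.b M ^ L * D.b Q))) -
        μ • (D.b z' * D.b Q' - (D.b M ^ K * D.b z) * (D.b M ^ L * D.b Q)) := by
      rw [smul_sub]; abel
    rw [e]
    exact Submodule.sub_mem _ (Submodule.add_mem _ h5 h4) (Submodule.smul_mem _ _ h6)
  rw [h2, hP, ← sub_smul] at h7
  have h8 := D.mem_Id.1 h7 P (D.Ad_mul w hz' hQ' hP)
  rw [map_smul, Module.Basis.repr_self, Finsupp.smul_apply, Finsupp.single_eq_same, smul_eq_mul,
    mul_one, hμ] at h8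
  have h9 : (D.lam z' Q' : ℚ) = D.lam z Q + K * D.kap Λ w (D.wtz Q) -
      L * D.kap Λ w (D.wtz z) := by
    push_cast at h8
    linarith
  exact_mod_cast h9

end Pool.Agent.KLT

end

section

/-! MP_e487d8_al, part 3, item D3. -/

set_option autoImplicit false

namespace Pool.Agent.KLT

namespace XD3

open Pre

variable {I S O : Type} [DecidableEq I] [CommRing O] [Algebra ℚ O]

/-- for large `n` all constituents of `z^n V` strongly commute with `z` -/
theorem stab (D : Pre I S O) (z : S) (hz : ∀ X, ∃ n₀ : ℕ, ∀ n ≥ n₀, ∀ Z,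
    D.b.repr (D.b z ^ n * D.b X) Z ≠ 0 → D.SC z Z) (V : O) :
    ∃ n : ℕ, ∀ R, D.b.repr (D.b z ^ n * V) R ≠ 0 → D.SC z R := by
  classical
  choose f hf using hz
  refine ⟨(D.b.repr V).support.sup f, fun R hR => ?_⟩
  have e : ∀ m : ℕ, D.b.repr (D.b z ^ m * V) R =
      ∑ X ∈ (D.b.repr V).support, D.b.repr V X * D.b.repr (D.b z ^ m * D.b X) R := by
    intro m
    conv_lhs => rw [D.eq_sum V]
    rw [Finset.mul_sum, map_sum, Finsupp.finsetSum_apply]
    refine Finset.sum_congr rfl fun X _ => ?_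
    rw [mul_smul_comm, map_smul, Finsupp.smul_apply, smul_eq_mul]
  rw [e] at hR
  obtain ⟨X, hX, h1⟩ := Finset.exists_ne_zero_of_sum_ne_zero hR
  exact hf X _ (Finset.le_sup hX) R (right_ne_zero_of_mul h1)

/-- the eigenvalue equation modulo the ideal -/
theorem eigen (D : Pre I S O) {w : List I} {T u y : S} {W W₁ : O} {κ : ℚ} (hW : W = D.b u * D.b T)
    (hyu : D.Cm y u) (hn : D.br (D.b T) (D.b y) - κ • (D.b T * D.b y) ∈ D.Id w)
    (h1 : W - W₁ ∈ D.Id w) :
    D.br (D.b y) W₁ - ((D.lam y u : ℚ) - κ) • (D.b y * W₁) ∈ D.Id w := by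
  obtain ⟨P, hP⟩ := hyu
  have h2 : D.br (D.b y) W - ((D.lam y u : ℚ) - κ) • (D.b y * W) ∈ D.Id w := by
    have e : D.br (D.b y) W - ((D.lam y u : ℚ) - κ) • (D.b y * W) =
        -(D.b u * (D.br (D.b T) (D.b y) - κ • (D.b T * D.b y))) := by
      rw [hW, D.br_mul, D.br_lam y u P hP, ← hP, D.br_anti (D.b y) (D.b T), smul_mul_assoc,
        mul_sub, mul_smul_comm, sub_smul]
      have e1 : D.b y * (D.b u * D.b T) = D.b y * D.b u * D.b T := by ring
      have e2 : D.b u * (D.b T * D.b y) = D.b y * D.b u * D.b T := by ring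
      rw [e1, e2, mul_neg]
      abel
    rw [e]
    exact Submodule.neg_mem _ (D.Id_mul hn)
  have h3 : D.br (D.b y) (W - W₁) ∈ D.Id w := D.br_mem_Id h1
  have h4 : ((D.lam y u : ℚ) - κ) • (D.b y * (W - W₁)) ∈ D.Id w :=
    Submodule.smul_mem _ _ (D.Id_mul h1)
  have e : D.br (D.b y) W₁ - ((D.lam y u : ℚ) - κ) • (D.b y * W₁) =
      (D.br (D.b y) W - ((D.lam y u : ℚ) - κ) • (D.b y * W)) - D.br (D.b y) (W - W₁) +
        ((D.lam y u : ℚ) - κ) • (D.b y * (W - W₁)) := by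
    rw [map_sub, mul_sub, smul_sub]
    abel
  rw [e]
  exact Submodule.add_mem _ (Submodule.sub_mem _ h2 h3) h4

/-- equality from the values on a family of full rank -/
theorem eq_of_lam [IsDomain O] (D : Pre I S O) {w : List I} {N : Submonoid O} (hN : D.Fam w N)
    (hsp : D.sp w N = ⊤) {Q Q' : S} (hQ : D.b Q ∈ N) (hQ' : D.b Q' ∈ N)
    (hwt : D.wt Q = D.wt Q') (h : ∀ y, D.b y ∈ N → D.lam y Q = D.lam y Q') : Q = Q' := by
  have h1 : ∀ v, D.LL w Q v = D.LL w Q' v := by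
    intro v
    have hv : v ∈ D.sp w N := by rw [hsp]; trivial
    refine Submodule.span_induction (p := fun v _ => D.LL w Q v = D.LL w Q' v) ?_ ?_ ?_ ?_ hv
    · rintro _ ⟨y, hy, rfl⟩
      rw [← D.lam_LL w (hN.ad hy) (hN.cm hy hQ), ← D.lam_LL w (hN.ad hy) (hN.cm hy hQ'), h y hy]
    · rw [map_zero, map_zero]
    · intro a c _ _ ha hc
      rw [map_add, map_add, ha, hc]
    · intro c a _ ha
      rw [map_smul, map_smul, ha]
  exact D.str_inj w (hN.ad hQ) (hN.ad hQ') (D.LL_inj' w hwt h1)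

end XD3

open Pre XD3 in
theorem I_D3 {I S O : Type} [DecidableEq I] [CommRing O] [Algebra ℚ O] (D : Pre I S O)
    (hi : D.Inp) (h : D.DLF) (h5 : D.StC5) (hp : D.StDLpow) (hn : D.StNor) (hg : D.StGen)
    (hf : D.StFex) [IsDomain O] : D.StD3 := by
  classical
  intro Λ w M N hw hM hN x hx k T Z hTk hZ
  -- `T` is extremal
  have hT : D.IsDL (fun i => k * Λ i) w T := by
    obtain ⟨T', h1, h2⟩ := hp Λ w M hw hM k
    have h3 : T' = T := D.b_inj (h1.symm.trans hTk)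
    rwa [h3] at h2
  have hTad : D.Ad w T := h.ad _ w T hw hT
  have hxad : D.Ad w x := hN.1.ad hx
  obtain ⟨-, htail⟩ := h5 _ w T hw hT x Z hZ
  have hZad : D.Ad w Z := by
    rw [D.ad_iff_tail, htail, ← D.ad_iff_tail]
    exact hxad
  refine ⟨hZad, ?_⟩
  -- the generic element
  obtain ⟨z, z₁, hfull, -, -⟩ := hf w N hw hN D.one hN.1.one_mem
  have hgen := hg w N z hw hN hfull
  have hzad : D.Ad w z := hN.1.ad hgen.mem
  obtain ⟨n, hstab⟩ := stab D z (hi.ST w hw z hzad (hN.1.sr hgen.mem)) (D.b T * D.b x)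
  obtain ⟨Tn, hTn, hTnN, hTnad⟩ := hN.1.pow hgen.mem n
  obtain ⟨u, hu, huN, huad⟩ := hN.1.mul hTnN hx
  obtain ⟨W₁, hW1, hW1S, hW1c⟩ := D.exists_adp w (D.b z ^ n * (D.b T * D.b x))
  have hWu : D.b z ^ n * (D.b T * D.b x) = D.b u * D.b T := by
    rw [hu, hTn]
    ring
  have hWT : D.b z ^ n * (D.b T * D.b x) = D.b Tn * (D.b T * D.b x) := by rw [hTn]
  -- the constituents of the adapted part
  have hsup : ∀ Q, D.b.repr W₁ Q ≠ 0 → D.b Q ∈ N ∧ D.wt Q = D.wt u + D.wt T := by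
    intro Q hQ
    have h1 : D.Ad w Q := D.mem_SS.1 hW1S Q hQ
    rw [hW1c Q h1] at hQ
    refine ⟨hgen.cent Q h1 (hstab Q hQ), ?_⟩
    rw [hWu, D.repr_mul] at hQ
    exact D.wt_co u T Q (by exact_mod_cast hQ)
  have hlam : ∀ y, D.b y ∈ N → ∀ Q, D.b.repr W₁ Q ≠ 0 →
      (D.lam y Q : ℚ) = (D.lam y u : ℚ) - (D.kap (fun i => k * Λ i) w (D.wtz y) : ℚ) := by
    intro y hy Q hQ
    refine D.eig_Id (w := w) (W := W₁) (fun R hR => hN.1.cm hy (hsup R hR).1) ?_
      (eigen D hWu (hN.1.cm hy huN) (hn _ w T hw hT y) hW1) hQ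
    intro R P hR hP
    refine hN.1.ad ?_
    rw [← hP]
    exact N.mul_mem hy (hsup R hR).1
  have huniq : ∀ Q Q', D.b.repr W₁ Q ≠ 0 → D.b.repr W₁ Q' ≠ 0 → Q = Q' := by
    intro Q Q' hQ hQ'
    refine eq_of_lam D hN.1 (hi.full w hw N hN) (hsup Q hQ).1 (hsup Q' hQ').1
      ((hsup Q hQ).2.trans (hsup Q' hQ').2.symm) fun y hy => ?_
    have h1 := (hlam y hy Q hQ).trans (hlam y hy Q' hQ').symm
    exact_mod_cast h1
  -- leading constituents
  have hlead : ∀ R, D.Ad w R → D.co T x R ≠ 0 → ∃ Q, D.b.repr W₁ Q ≠ 0 ∧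
      D.str w Q = D.str w Tn + D.str w R := by
    intro R hR hco
    obtain ⟨Q, h1, h2, h3⟩ := D.lead w hTnad hR
    refine ⟨Q, ?_, h2⟩
    rw [hW1c Q h1, hWT]
    have h4 := Ps.mul_le (D := D) (g := D.b Tn) (h := D.b T * D.b x) (Ps.b Tn)
      ((Ps.b T).mul (Ps.b x)) Tn R Q
    rw [Module.Basis.repr_self, Finsupp.single_eq_same, D.repr_mul, h3, Nat.cast_one, one_mul,
      mul_one] at h4
    have h5 : (0 : ℚ) < D.co T x R := by exact_mod_cast Nat.pos_of_ne_zero hco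
    exact (lt_of_lt_of_le h5 h4).ne'
  have hone : ∀ R, D.Ad w R → D.co T x R ≠ 0 → R = Z := by
    intro R hR hco
    obtain ⟨Q, h1, h2⟩ := hlead R hR hco
    obtain ⟨Q', h3, h4⟩ := hlead Z hZad (D.hd_co T x Z hZ)
    rw [huniq Q Q' h1 h3, h4] at h2
    exact D.str_inj w hR hZad (add_left_cancel h2).symm
  have hcoZ : D.co T x Z = 1 := by
    obtain ⟨Z₀, h1, -, h3⟩ := D.lead w hTad hxad
    rw [hone Z₀ h1 (by rw [h3]; exact one_ne_zero)] at h3
    exact h3
  rw [D.mem_Id]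
  intro X hX
  rw [map_sub, Finsupp.sub_apply, D.repr_mul, Module.Basis.repr_self, Finsupp.single_apply]
  by_cases hXZ : D.co T x X = 0
  · rw [hXZ, if_neg, Nat.cast_zero, sub_zero]
    rintro rfl
    rw [hcoZ] at hXZ
    exact one_ne_zero hXZ
  · have h1 := hone X hX hXZ
    rw [h1, if_pos rfl, hcoZ, Nat.cast_one, sub_self]

end Pool.Agent.KLT

end

section

/-! MP_e487d8_al, part 3: the crystal facts on extremal modules. -/

set_option autoImplicit false

namespace Pool.Agent.KLT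

namespace XDLF

variable {I S O : Type} [DecidableEq I] [CommRing O] [Algebra ℚ O] (D : Pre I S O)

/-- the crystal `B(Λ)` -/
def BL (Λ : I → ℤ) (M : S) : Prop := ∀ j, (D.eps' j M : ℤ) ≤ Λ j

/-- the weights of `B(Λ)` -/
def WtL (Λ : I → ℤ) (β : I →₀ ℤ) : Prop := ∃ M : S, BL D Λ M ∧ D.wtz M = β

variable {D}

theorem wtz_of {i : I} {M N : S} (h : D.E i N = D.E i M) :
    D.wtz N = D.wtz M + ((D.eps i N : ℤ) - D.eps i M) • al i := by
  rw [D.wtz_E i N, D.wtz_E i M, h, sub_smul]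
  abel

theorem eps'_lt (i j : I) : D.eps' j (D.lt i) ≤ if i = j then 1 else 0 := by
  have h := DFunLike.congr_fun (D.wt_E' j (D.lt i)) j
  rw [D.wt_lt, Finsupp.add_apply, Finsupp.single_eq_same, Finsupp.single_apply] at h
  omega

theorem hd_down {i : I} {M N : S} {n : ℕ} (h1 : D.eps i M = D.eps i N + n)
    (h2 : D.E i M = D.E i N) (j : I) : D.eps' j N ≤ D.eps' j M := by
  obtain ⟨L, hL⟩ := D.lt_pow i n
  exact D.hd_eps' j _ _ _ ((D.hd_lt i n L N M hL).2 ⟨h1, h2⟩)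

/-- `e_i^n M` -/
theorem down (i : I) (M : S) {n : ℕ} (hn : n ≤ D.eps i M) : ∃ N, D.eps i N + n = D.eps i M ∧
    D.E i N = D.E i M ∧ ∀ j, D.eps' j N ≤ D.eps' j M := by
  obtain ⟨N, h1, h2⟩ := D.eps_surj i (D.eps i M - n) (D.E i M) (D.eps_E i M)
  have h3 : D.eps i N + n = D.eps i M := by omega
  exact ⟨N, h3, h2, hd_down h3.symm h2.symm⟩

theorem BL_down {Λ : I → ℤ} {M : S} (h : BL D Λ M) (i : I) {n : ℕ} (hn : n ≤ D.eps i M) :
    ∃ N, BL D Λ N ∧ D.wtz N = D.wtz M - (n : ℤ) • al i := by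
  obtain ⟨N, h1, h2, h3⟩ := down i M hn
  refine ⟨N, fun j => ?_, ?_⟩
  · have h4 : (D.eps' j N : ℤ) ≤ D.eps' j M := by exact_mod_cast h3 j
    exact h4.trans (h j)
  · have e : (D.eps i N : ℤ) - ((D.eps i N + n : ℕ) : ℤ) = -(n : ℤ) := by
      push_cast
      ring
    rw [wtz_of h2, ← h1, e, neg_smul, sub_eq_add_neg]

theorem BL_E {Λ : I → ℤ} {M : S} (h : BL D Λ M) (i : I) : BL D Λ (D.E i M) := by
  intro j
  have h1 : D.eps' j (D.E i M) ≤ D.eps' j M :=
    hd_down (i := i) (n := D.eps i M) (by rw [D.eps_E, zero_add])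
      (by rw [D.E_of_eps i (D.E i M) (D.eps_E i M)]) j
  have h4 : (D.eps' j (D.E i M) : ℤ) ≤ D.eps' j M := by exact_mod_cast h1
  exact h4.trans (h j)

theorem BL_f {Λ : I → ℤ} {M N : S} (i : I) (h : BL D Λ M)
    (hp : 0 < (D.eps i M : ℤ) + Λ i - pair D.A i (D.wtz M)) (h1 : D.eps i N = D.eps i M + 1)
    (h2 : D.E i N = D.E i M) : BL D Λ N := by
  obtain ⟨L, hL⟩ := D.lt_pow i 1
  have hL' : L = D.lt i := by
    rw [pow_one] at hL
    exact (D.b_inj hL).symm
  subst hL'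
  have hH := (D.hd_lt i 1 _ M N hL).2 ⟨h1, h2⟩
  have h3 : ∀ j, D.eps' j N ≤ (if i = j then 1 else 0) + D.eps' j M := fun j =>
    (D.eps_co' j _ _ _ (D.hd_co _ _ _ hH)).trans (Nat.add_le_add_right (eps'_lt i j) _)
  intro j
  by_cases hj : i = j
  · subst hj
    by_cases hd : pair D.A i (D.wtz M) < (D.eps i M : ℤ) + D.eps' i M
    · have h4 := D.d_f i M N h1 h2 hd
      have h5 : (D.eps' i N : ℤ) ≤ D.eps' i M := by exact_mod_cast h4
      exact h5.trans (h i)
    · have h4 := h3 i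
      rw [if_pos rfl] at h4
      have h5 : (D.eps' i N : ℤ) ≤ 1 + D.eps' i M := by exact_mod_cast h4
      push Not at hd
      linarith
  · have h4 := h3 j
    rw [if_neg hj, zero_add] at h4
    have h5 : (D.eps' j N : ℤ) ≤ D.eps' j M := by exact_mod_cast h4
    exact h5.trans (h j)

theorem phi_nonneg {Λ : I → ℤ} {M : S} (i : I) (h : BL D Λ M) :
    0 ≤ (D.eps i M : ℤ) + Λ i - pair D.A i (D.wtz M) := by
  have h1 : pair D.A i (D.wtz M) ≤ (D.eps i M : ℤ) + D.eps' i M := D.d_nonneg i M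
  have h2 := h i
  linarith

/-- iterating `f_i` -/
theorem up {Λ : I → ℤ} {M : S} (i : I) (h : BL D Λ M) (n : ℕ)
    (hn : (n : ℤ) ≤ (D.eps i M : ℤ) + Λ i - pair D.A i (D.wtz M)) :
    ∃ N, D.eps i N = D.eps i M + n ∧ D.E i N = D.E i M ∧ BL D Λ N := by
  induction n with
  | zero => exact ⟨M, rfl, rfl, h⟩
  | succ n ih =>
    obtain ⟨N, h1, h2, h3⟩ := ih (by push_cast at hn; linarith)
    obtain ⟨N', h4, h5⟩ := D.eps_surj i (D.eps i N + 1) (D.E i N) (D.eps_E i N)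
    refine ⟨N', by omega, by rw [h5, h2], BL_f i h3 ?_ h4 h5⟩
    rw [wtz_of h2, pair_add, pair_smul, pair_al, D.hA.diag, h1]
    push_cast at hn ⊢
    linarith

theorem up' {Λ : I → ℤ} {M : S} (i : I) (h : BL D Λ M) (n : ℕ)
    (hn : (n : ℤ) ≤ (D.eps i M : ℤ) + Λ i - pair D.A i (D.wtz M)) :
    ∃ N, BL D Λ N ∧ D.wtz N = D.wtz M + (n : ℤ) • al i := by
  obtain ⟨N, h1, h2, h3⟩ := up i h n hn
  refine ⟨N, h3, ?_⟩
  rw [wtz_of h2, h1]
  congr 2
  push_cast
  ring

theorem WtL_sL {Λ : I → ℤ} {β : I →₀ ℤ} (i : I) (h : WtL D Λ β) :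
    WtL D Λ (sL D.A Λ i β) := by
  obtain ⟨M, hM, rfl⟩ := h
  rcases le_total 0 (Λ i - pair D.A i (D.wtz M)) with h0 | h0
  · obtain ⟨n, hn⟩ := Int.eq_ofNat_of_zero_le h0
    obtain ⟨N, h1, h2⟩ := up' i hM n (by
      have : (0 : ℤ) ≤ D.eps i M := Int.natCast_nonneg _
      linarith)
    refine ⟨N, h1, ?_⟩
    rw [h2]
    unfold sL
    rw [hn]
  · have h0' : 0 ≤ -(Λ i - pair D.A i (D.wtz M)) := by linarith
    obtain ⟨n, hn⟩ := Int.eq_ofNat_of_zero_le h0'
    have hp := phi_nonneg i hM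
    have hn' : n ≤ D.eps i M := by
      have : (n : ℤ) ≤ D.eps i M := by linarith
      exact_mod_cast this
    obtain ⟨N, h1, h2⟩ := BL_down hM i hn'
    refine ⟨N, h1, ?_⟩
    rw [h2]
    unfold sL
    have : Λ i - pair D.A i (D.wtz M) = -(n : ℤ) := by linarith
    rw [this, neg_smul, sub_eq_add_neg]

theorem eps'_one (j : I) : D.eps' j D.one = 0 := D.op.eps_one j

theorem BL_one {Λ : I → ℤ} (hΛ : ∀ j, 0 ≤ Λ j) : BL D Λ D.one := by
  intro j
  rw [eps'_one]
  exact_mod_cast hΛ j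

theorem WtL_aff {Λ : I → ℤ} (hΛ : ∀ j, 0 ≤ Λ j) (w : List I) :
    WtL D Λ (aff D.A Λ w 0) := by
  induction w with
  | nil => exact ⟨D.one, BL_one hΛ, D.wtz_one⟩
  | cons i w ih => exact WtL_sL i ih

theorem WtL_nonneg {Λ : I → ℤ} {β : I →₀ ℤ} (h : WtL D Λ β) : 0 ≤ β := by
  obtain ⟨M, _, rfl⟩ := h
  exact D.wtz_nonneg M

variable (D) in
/-- sign coherence of real roots -/
theorem sign : Sign D.A := by
  classical
  intro v i
  set γ := act D.A v (al i) with hγ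
  by_cases h : ∃ j, 0 < γ j
  · left
    obtain ⟨j, hj⟩ := h
    set Λ : I → ℤ := fun k => if k = j then 1 else 0 with hΛ
    have h0 : ∀ k, 0 ≤ Λ k := by intro k; rw [hΛ]; simp only; split_ifs <;> norm_num
    have h1 := WtL_nonneg (WtL_aff (D := D) h0 (v ++ i :: v.reverse))
    have h1' := aff_refl (Λ := Λ) D.hA v i
    rw [← hγ] at h1'
    have h2 : KLT.lam D.d Λ γ = γ j * D.d j := by
      unfold KLT.lam
      rw [hΛ]
      simp only [mul_ite, mul_one, mul_zero]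
      rw [Finsupp.sum_ite_eq']
      split_ifs with h3
      · rfl
      · rw [Finsupp.notMem_support_iff.1 h3, zero_mul]
    rw [h2] at h1'
    intro k
    have h3 := h1 k
    have h4 := DFunLike.congr_fun h1' k
    simp only [Finsupp.coe_zero, Pi.zero_apply, Finsupp.coe_smul, Pi.smul_apply,
      smul_eq_mul] at h3 h4 ⊢
    have h5 : 0 < γ j * D.d j := mul_pos hj (D.hA.pos j)
    have h6 : 0 ≤ γ j * D.d j * γ k := by
      rw [← h4]
      exact mul_nonneg (D.hA.pos i).le h3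
    exact nonneg_of_mul_nonneg_right h6 h5
  · right
    push Not at h
    intro k
    exact h k

omit [DecidableEq I] in
theorem lam_nonneg {d Λ : I → ℤ} {β : I →₀ ℤ} (hd : ∀ j, 0 ≤ d j) (hΛ : ∀ j, 0 ≤ Λ j)
    (hβ : 0 ≤ β) : 0 ≤ KLT.lam d Λ β := by
  unfold KLT.lam
  apply Finset.sum_nonneg
  intro j _
  exact mul_nonneg (hβ j) (mul_nonneg (hd j) (hΛ j))

/-- the height -/
noncomputable def ht {I : Type} (β : I →₀ ℤ) : ℤ := KLT.lam (fun _ => 1) (fun _ => 1) β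

theorem gg_nonpos {Λ : I → ℤ} (hΛ : ∀ j, 0 ≤ Λ j) :
    ∀ (n : ℕ) (β : I →₀ ℤ), ht β ≤ n → WtL D Λ β → gg D.d D.A Λ β ≤ 0 := by
  intro n
  induction n using Nat.strong_induction_on with
  | _ n ih =>
    intro β hn hβ
    by_cases h : ∀ i, 0 ≤ Λ i - pair D.A i β
    · have hb := WtL_nonneg hβ
      have e : gg D.d D.A Λ β =
          -(β.sum fun j m => m * (D.d j * (Λ j - pair D.A j β))) - KLT.lam D.d Λ β := by
        unfold gg bil KLT.lam
        simp only [Finsupp.sum, ← Finset.sum_neg_distrib, Finset.mul_sum, ← Finset.sum_sub_distrib]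
        apply Finset.sum_congr rfl
        intro j _
        ring
      have h1 := lam_nonneg (d := D.d) (fun j => (D.hA.pos j).le) hΛ hb
      have h2 : 0 ≤ β.sum fun j m => m * (D.d j * (Λ j - pair D.A j β)) := by
        apply Finset.sum_nonneg
        intro j _
        exact mul_nonneg (hb j) (mul_nonneg (D.hA.pos j).le (h j))
      rw [e]; linarith
    · push Not at h
      obtain ⟨i, hi⟩ := h
      rw [← gg_sL D.hA i β]
      have hw := WtL_sL i hβ
      have hht : ht (sL D.A Λ i β) = ht β + (Λ i - pair D.A i β) := by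
        unfold ht sL
        rw [lam_add, lam_smul, lam_al]
        ring
      have hpos : 0 ≤ ht (sL D.A Λ i β) :=
        lam_nonneg (fun _ => by norm_num) (fun _ => by norm_num) (WtL_nonneg hw)
      have hn0 : 0 < n := by
        rcases Nat.eq_zero_or_pos n with h0 | h0
        · subst h0
          exfalso
          rw [hht] at hpos
          push_cast at hn
          linarith
        · exact h0
      apply ih (n - 1) (by omega) _ _ hw
      rw [hht]
      push_cast [Nat.cast_sub hn0]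
      linarith

theorem gg_nonpos' {Λ : I → ℤ} (hΛ : ∀ j, 0 ≤ Λ j) {β : I →₀ ℤ}
    (h : WtL D Λ β) : gg D.d D.A Λ β ≤ 0 := by
  have hpos : 0 ≤ ht β :=
    lam_nonneg (fun _ => by norm_num) (fun _ => by norm_num) (WtL_nonneg h)
  obtain ⟨n, hn⟩ := Int.eq_ofNat_of_zero_le hpos
  exact gg_nonpos hΛ n β (by rw [hn]) h

/-- the multiplicity `s` -/
theorem s_nonneg {Λ : I → ℤ} (hΛ : ∀ j, 0 ≤ Λ j) {i : I} {w : List I}
    (hr : Reduced D.A (i :: w)) : 0 ≤ Λ i - pair D.A i (aff D.A Λ w 0) := by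
  have hpos := reduced_pos D.hA (sign D) i w hr
  have hn : D.d i * (Λ i - pair D.A i (aff D.A Λ w 0)) =
      KLT.lam D.d Λ (act D.A w.reverse (al i)) := by
    have h1 := HH_word (Λ := Λ) D.hA w.reverse (al i) (aff D.A Λ w 0)
    rw [aff_reverse D.hA] at h1
    unfold HH at h1
    rw [lam_al, bil_al_left, bil_symm D.hA _ 0, bil_zero_left] at h1
    linarith
  have h2 : 0 ≤ D.d i * (Λ i - pair D.A i (aff D.A Λ w 0)) := by
    rw [hn]
    exact lam_nonneg (fun j => (D.hA.pos j).le) hΛ hpos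
  exact nonneg_of_mul_nonneg_right h2 (D.hA.pos i)

theorem step {Λ : I → ℤ} (hΛ : ∀ j, 0 ≤ Λ j) {i : I} {w : List I} {M : S}
    (hr : Reduced D.A (i :: w)) (hM : BL D Λ M) (hw : D.wtz M = aff D.A Λ (i :: w) 0) :
    (D.eps i M : ℤ) = Λ i - pair D.A i (aff D.A Λ w 0) ∧ D.wtz (D.E i M) = aff D.A Λ w 0 := by
  have hs := s_nonneg (D := D) hΛ hr
  obtain ⟨n, hn⟩ := Int.eq_ofNat_of_zero_le hs
  have hw' : D.wtz M = aff D.A Λ w 0 + (n : ℤ) • al i := by
    rw [hw, ← hn]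
    rfl
  have hp : pair D.A i (D.wtz M) = pair D.A i (aff D.A Λ w 0) + n * 2 := by
    rw [hw', pair_add, pair_smul, pair_al, D.hA.diag]
  have h1 := phi_nonneg i hM
  rw [hp] at h1
  have h2 : n ≤ D.eps i M := by
    have : (n : ℤ) ≤ D.eps i M := by linarith
    exact_mod_cast this
  have h3 : D.eps i M ≤ n := by
    by_contra h4
    push Not at h4
    obtain ⟨N, h5, h6⟩ := BL_down hM i (n := n + 1) h4
    have h7 : D.wtz N = aff D.A Λ w 0 - al i := by
      rw [h6, hw']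
      push_cast
      rw [add_smul, one_smul]
      abel
    have h8 := gg_nonpos' hΛ (D := D) ⟨N, h5, h7⟩
    rw [gg_sub_al D.hA, gg_aff D.hA] at h8
    have h9 : gg D.d D.A Λ 0 = 0 := by
      unfold gg
      rw [bil_zero_left]
      have : KLT.lam D.d Λ 0 = 0 := by simp [KLT.lam]
      rw [this]
      ring
    rw [h9] at h8
    have h10 := D.hA.pos i
    have h11 := mul_nonneg h10.le hs
    linarith
  have h4 : D.eps i M = n := le_antisymm h3 h2
  refine ⟨by rw [h4, hn], ?_⟩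
  have h5 := D.wtz_E i M
  rw [h4, hw'] at h5
  exact (add_right_cancel h5).symm

end XDLF

open XDLF in
/-- **the crystal facts on extremal modules** -/
theorem I_DLF {I S O : Type} [DecidableEq I] [CommRing O] [Algebra ℚ O] (D : Pre I S O) :
    D.DLF := by
  have hz : ∀ Λ : I → ℕ, ∀ j, (0 : ℤ) ≤ (fun i => (Λ i : ℤ)) j := fun Λ j =>
    Int.natCast_nonneg _
  have hBL : ∀ (Λ : I → ℕ) (M : S), (∀ j, D.eps' j M ≤ Λ j) ↔ BL D (fun i => (Λ i : ℤ)) M :=
    fun Λ M => ⟨fun h j => by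
      show (D.eps' j M : ℤ) ≤ (Λ j : ℤ)
      exact_mod_cast h j, fun h j => by
      have h1 : (D.eps' j M : ℤ) ≤ (Λ j : ℤ) := h j
      exact_mod_cast h1⟩
  have hstep : ∀ (Λ : I → ℕ) i w M, Reduced D.A (i :: w) → D.IsDL Λ (i :: w) M →
      D.IsDL Λ w (D.E i M) ∧ (D.eps i M : ℤ) = Λ i - pair D.A i (D.wtz (D.E i M)) := by
    intro Λ i w M hr hM
    obtain ⟨h1, h2⟩ := step (hz Λ) hr ((hBL Λ M).1 hM.1) hM.2
    refine ⟨⟨(hBL Λ _).2 (BL_E ((hBL Λ M).1 hM.1) i), h2⟩, ?_⟩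
    rw [h2]
    exact h1
  have hnil : ∀ (Λ : I → ℕ) M, D.IsDL Λ [] M → M = D.one := fun Λ M hM =>
    D.eq_one_of_wtz hM.2
  refine ⟨sign D, ?_, hstep, ?_, hnil, ?_, ?_⟩
  · intro Λ w
    induction w with
    | nil =>
      intro _
      refine ⟨D.one, fun j => ?_, D.wtz_one⟩
      rw [eps'_one]
      exact Nat.zero_le _
    | cons i w ih =>
      intro hr
      obtain ⟨M, hM1, hM2⟩ := ih (reduced_tail hr)
      have hs := s_nonneg (D := D) (hz Λ) hr
      obtain ⟨n, hn⟩ := Int.eq_ofNat_of_zero_le hs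
      obtain ⟨N, h1, h2⟩ := up' i ((hBL Λ M).1 hM1) n (by
        rw [hM2, ← hn]
        have : (0 : ℤ) ≤ D.eps i M := Int.natCast_nonneg _
        linarith)
      refine ⟨N, (hBL Λ N).2 h1, ?_⟩
      rw [h2, ← hn, hM2]
      rfl
  · intro Λ i w M hr hM
    obtain ⟨h1, h2⟩ := hstep Λ i w M hr hM
    refine (D.cm_lt i M).2 ?_
    have h3 : pair D.A i (D.wtz M) ≤ (D.eps i M : ℤ) + D.eps' i M := D.d_nonneg i M
    have h4 : (D.eps' i M : ℤ) ≤ Λ i := by exact_mod_cast hM.1 i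
    have h5 : pair D.A i (D.wtz M) = pair D.A i (D.wtz (D.E i M)) + (D.eps i M : ℤ) * 2 := by
      rw [D.wtz_E i M, pair_add, pair_smul, pair_al, D.hA.diag]
    have h6 : pair D.A i (D.wtz M) = (D.eps i M : ℤ) + D.eps' i M := by linarith
    exact h6
  · intro Λ w
    induction w with
    | nil =>
      intro M _ hM
      exact hnil Λ M hM
    | cons i w ih =>
      intro M hr hM
      exact ih _ (reduced_tail hr) (hstep Λ i w M hr hM).1
  · intro Λ w
    induction w with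
    | nil =>
      intro M M' _ hM hM'
      rw [hnil Λ M hM, hnil Λ M' hM']
    | cons i w ih =>
      intro M M' hr hM hM'
      obtain ⟨h1, h2⟩ := hstep Λ i w M hr hM
      obtain ⟨h1', h2'⟩ := hstep Λ i w M' hr hM'
      have h3 := ih _ _ (reduced_tail hr) h1 h1'
      rw [h3, ← h2'] at h2
      exact D.eps_inj i M M' (by exact_mod_cast h2) h3

end Pool.Agent.KLT

end

section

/-! MP_e487d8_al, part 3: products and powers of extremal modules. -/

set_option autoImplicit false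

namespace Pool.Agent.KLT

namespace XDLM

theorem aff_addL {I : Type*} (A : I → I → ℤ) (L L' : I → ℤ) (w : List I) :
    aff A (fun i => L i + L' i) w 0 = aff A L w 0 + aff A L' w 0 := by
  induction w with
  | nil => exact (add_zero (0 : I →₀ ℤ)).symm
  | cons i w ih =>
    simp only [aff]
    rw [ih]
    unfold sL
    rw [pair_add]
    have h : (L i + L' i - (pair A i (aff A L w 0) + pair A i (aff A L' w 0))) • al i =
        (L i - pair A i (aff A L w 0)) • al i + (L' i - pair A i (aff A L' w 0)) • al i := by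
      rw [← add_smul]
      congr 1
      ring
    rw [h]
    abel

theorem aff_zeroL {I : Type*} (A : I → I → ℤ) (w : List I) :
    aff A (fun _ => 0) w 0 = 0 := by
  induction w with
  | nil => rfl
  | cons i w ih =>
    simp only [aff]
    rw [ih]
    unfold sL
    rw [pair_zero, sub_zero, zero_smul, add_zero]

variable {I S O : Type} [DecidableEq I] [CommRing O] [Algebra ℚ O]

theorem mul (D : Pre I S O) (h : D.DLF) (h5 : D.StC5) : D.StDLmul := by
  intro Λ Λ' w M M' hr hM hM'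
  have adM := h.ad Λ w M hr hM
  have adM' := h.ad Λ' w M' hr hM'
  obtain ⟨T, hT1, hT2, hT3⟩ := D.lead w adM adM'
  obtain ⟨Z, hZ⟩ := D.s2 M M' T (fun Z hZ => by
      obtain ⟨h1, h2⟩ := h5 Λ w M hr hM M' Z hZ
      have h3 : D.Ad w Z := by
        rw [D.ad_iff_tail, h2]
        exact (D.ad_iff_tail w M').1 adM'
      exact D.str_inj w h3 hT1 (h1.trans hT2.symm))
    (fun Z hZ => by
      obtain ⟨h1, h2⟩ := h5 Λ' w M' hr hM' M Z hZ
      have h3 : D.Ad w Z := by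
        rw [D.ad_iff_tail, h2]
        exact (D.ad_iff_tail w M).1 adM
      refine D.str_inj w h3 hT1 ?_
      rw [h1, hT2, add_comm]) hT3
  refine ⟨Z, hZ, ?_, ?_⟩
  · intro j
    have h1 := D.eps_co' j M M' Z (by rw [D.co_of_mul hZ]; exact one_ne_zero)
    exact h1.trans (add_le_add (hM.1 j) (hM'.1 j))
  · rw [D.wtz_mul hZ, hM.2, hM'.2]
    have h1 := aff_addL D.A (fun i => (Λ i : ℤ)) (fun i => (Λ' i : ℤ)) w
    rw [← h1]
    simp only [Nat.cast_add]

theorem pow (D : Pre I S O) (hm : D.StDLmul) : D.StDLpow := by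
  intro Λ w M hr hM n
  induction n with
  | zero =>
    refine ⟨D.one, by rw [pow_zero, D.b_one], ?_, ?_⟩
    · intro j
      have h1 : D.eps' j D.one = 0 := D.op.eps_one j
      rw [h1]
      exact Nat.zero_le _
    · rw [D.wtz_one]
      have h1 : (fun i => ((0 * Λ i : ℕ) : ℤ)) = fun _ : I => (0 : ℤ) := by
        funext i
        rw [Nat.zero_mul, Nat.cast_zero]
      rw [h1, aff_zeroL]
  | succ n ih =>
    obtain ⟨T, hT, hT2⟩ := ih
    obtain ⟨Z, hZ, hZ2⟩ := hm (fun i => n * Λ i) Λ w T M hr hT2 hM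
    refine ⟨Z, by rw [pow_succ, hT, hZ], ?_⟩
    have h1 : (fun i => (n + 1) * Λ i) = fun i => n * Λ i + Λ i := by
      funext i
      ring
    rw [h1]
    exact hZ2

end XDLM

variable {I S O : Type} [DecidableEq I] [CommRing O] [Algebra ℚ O]

theorem I_DLM (D : Pre I S O) (h : D.DLF) (h5 : D.StC5) : D.StDLmul ∧ D.StDLpow :=
  ⟨XDLM.mul D h h5, XDLM.pow D (XDLM.mul D h h5)⟩

end Pool.Agent.KLT

end

section

/-! MP_e487d8_al, part 3 (freeness): exhaustion. -/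

set_option autoImplicit false

namespace Pool.Agent.KLT

variable {I S O : Type} [DecidableEq I] [CommRing O] [Algebra ℚ O]

namespace XEXH

theorem aux (D : Pre I S O) (hi : D.Inp) (h : D.DLF) (h5 : D.StC5)
    (hp : D.StDLpow) (hl : D.StLAM) (a j : I) (v : List I) (hr : Reduced D.A (a :: v))
    (hr' : Reduced D.A (v ++ [j]))
    (haff : ∀ (Λ : I → ℤ) (β : I →₀ ℤ), aff D.A Λ (a :: v) β = aff D.A Λ (v ++ [j]) β)
    (X : S) (hX : D.E a X = X) : D.eps j (D.tail v X) = 0 := by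
  have h0 : D.tail (a :: v) X = D.tail v X := by rw [Pre.tail_cons, hX]
  have h0' : D.tail (v ++ [j]) X = D.E j (D.tail v X) := by
    rw [Pre.tail_append, Pre.tail_cons, Pre.tail_nil]
  obtain ⟨M, hM⟩ := h.ex (fun _ => 1) (a :: v) hr
  have hdl : ∀ (Λ : I → ℕ) (N : S), D.IsDL Λ (a :: v) N → D.IsDL Λ (v ++ [j]) N := by
    intro Λ N hN
    exact ⟨hN.1, by rw [← haff]; exact hN.2⟩
  have hM' := hdl _ _ hM
  have had := h.ad _ _ _ hr hM
  have hSR : D.SR M := fun n => by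
    obtain ⟨T, hT, _⟩ := hp _ _ _ hr hM n
    exact ⟨T, hT⟩
  obtain ⟨n, hn⟩ := hi.ST _ hr M had hSR X
  obtain ⟨T, hT, hTD⟩ := hp _ _ _ hr hM n
  have hTD' := hdl _ _ hTD
  obtain ⟨Q, hQ⟩ := D.hd_ex T X
  have hSC : D.SC M Q := by
    apply hn n le_rfl Q
    rw [hT, Pre.repr_mul]
    exact_mod_cast D.hd_co T X Q hQ
  have hCm : D.Cm M Q := hSC.cm
  have e1 := (h5 _ _ _ hr hTD X Q hQ).2
  have e2 := (h5 _ _ _ hr' hTD' X Q hQ).2
  have l1 := hl _ _ _ _ hr hM hCm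
  have l2 := hl _ _ _ _ hr' hM' hCm
  have hk : D.kap (fun _ => 1) (a :: v) (D.wtz Q) = D.kap (fun _ => 1) (v ++ [j]) (D.wtz Q) := by
    unfold Pre.kap
    rw [haff]
  rw [e1, h0] at l1
  rw [e2, h0'] at l2
  have hw := D.wtz_E j (D.tail v X)
  rw [hw, KLT.lam_add, KLT.lam_smul, KLT.lam_al] at l1
  have hd := D.hA.pos j
  have h3 : (D.eps j (D.tail v X) : ℤ) * (D.d j * ((1 : ℕ) : ℤ)) = 0 := by linarith
  rcases mul_eq_zero.1 h3 with h4 | h4
  · exact_mod_cast h4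
  · exfalso
    rw [Nat.cast_one, mul_one] at h4
    exact hd.ne' h4

end XEXH

theorem I_EXH (D : Pre I S O) (hi : D.Inp) (h : D.DLF) (h5 : D.StC5)
    (hp : D.StDLpow) (hl : D.StLAM) : D.StEXH := by
  intro w j X hr hn
  obtain ⟨u, a, v, rfl, h2, h3, _, haff⟩ := exch D.hA h.sign hr hn
  rw [Pre.tail_append, Pre.tail_cons]
  exact XEXH.aux D hi h h5 hp hl a j v h2 h3 haff _ (D.E_E a _)

end Pool.Agent.KLT

end

section

set_option autoImplicit false

/-! MP_e487d8_al, block KLT, item EXT. -/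

namespace Pool.Agent.KLT

namespace XEXT

variable {I S O : Type} [DecidableEq I] [CommRing O] [Algebra ℚ O]

/-- the height of a simple module -/
def ht (D : Pre I S O) (Y : S) : ℕ := (D.wt Y).sum fun _ n => n

theorem ht_E (D : Pre I S O) (j : I) (Y : S) : ht D Y = ht D (D.E j Y) + D.eps j Y := by
  unfold ht
  rw [D.wt_E j Y, Finsupp.sum_add_index' (fun _ => rfl) (fun _ _ _ => rfl),
    Finsupp.sum_single_index rfl]

end XEXT

variable {I S O : Type} [DecidableEq I] [CommRing O] [Algebra ℚ O]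

theorem I_EXT (D : Pre I S O) (h : D.StEXH) : D.StEXT := by
  intro w hw s
  have main : ∀ (m : ℕ) (w : List I), Reduced D.A w →
      (∑ X ∈ s, XEXT.ht D (D.tail w X)) = m →
      ∃ v, Reduced D.A (w ++ v) ∧ ∀ X ∈ s, D.Ad (w ++ v) X := by
    intro m
    induction m using Nat.strong_induction_on with
    | _ m ih =>
      intro w hw hm
      by_cases hall : ∀ X ∈ s, D.tail w X = D.one
      · refine ⟨[], by rwa [List.append_nil], fun X hX => ?_⟩
        rw [List.append_nil, D.ad_iff_tail]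
        exact hall X hX
      · push Not at hall
        obtain ⟨X, hX, hne⟩ := hall
        obtain ⟨j, hj⟩ := D.ex_eps _ hne
        have hred : Reduced D.A (w ++ [j]) := by
          by_contra hc
          exact hj (h w j X hw hc)
        have htail : ∀ Y, D.tail (w ++ [j]) Y = D.E j (D.tail w Y) := by
          intro Y
          rw [D.tail_append]
          rfl
        have hlt : (∑ Y ∈ s, XEXT.ht D (D.tail (w ++ [j]) Y)) < m := by
          rw [← hm]
          refine Finset.sum_lt_sum (fun Y _ => ?_) ⟨X, hX, ?_⟩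
          · rw [htail, XEXT.ht_E D j (D.tail w Y)]
            omega
          · rw [htail, XEXT.ht_E D j (D.tail w X)]
            omega
        obtain ⟨v, hv1, hv2⟩ := ih _ hlt (w ++ [j]) hred rfl
        refine ⟨j :: v, ?_, ?_⟩
        · have e : w ++ j :: v = (w ++ [j]) ++ v := by simp
          rw [e]
          exact hv1
        · intro Y hY
          have e : w ++ j :: v = (w ++ [j]) ++ v := by simp
          rw [e]
          exact hv2 Y hY
  exact main _ w hw rfl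

end Pool.Agent.KLT

end

section

/-! MP_e487d8_al, part 3: full elements exist, with a given factor. -/

set_option autoImplicit false

namespace Pool.Agent.KLT

variable {I S O : Type} [DecidableEq I] [CommRing O] [Algebra ℚ O]

open Pre in
theorem I_FEX (D : Pre I S O) (hi : D.Inp) [IsDomain O] : D.StFex := by
  classical
  intro w N hw hN y hy
  have hfull : D.sp w N = ⊤ := hi.full w hw N hN
  obtain ⟨s, hs1, hs2⟩ := (Submodule.fg_span_iff_fg_span_finset_subset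
    {v | ∃ X, D.b X ∈ N ∧ D.str w X = v}).1 (IsNoetherian.noetherian (R := ℚ) (M := V w) _)
  have : Nonempty S := ⟨D.one⟩
  have hs1' : ∀ v ∈ s, ∃ X, D.b X ∈ N ∧ D.str w X = v := fun v hv => hs1 hv
  choose! c hc1 hc2 using hs1'
  set t : Multiset S := s.val.map c with ht
  have htN : ∀ x ∈ t.map D.b, x ∈ N := by
    intro x hx
    obtain ⟨X, hX, rfl⟩ := Multiset.mem_map.1 hx
    obtain ⟨v, hv, rfl⟩ := Multiset.mem_map.1 hX
    exact hc1 v hv
  have htp : (t.map D.b).prod ∈ N := Submonoid.multiset_prod_mem N _ htN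
  obtain ⟨z₁, h1, _⟩ := hN.1.spl _ htp
  obtain ⟨z, h2, _⟩ := hN.1.spl _ (N.mul_mem hy htp)
  refine ⟨z, z₁, ⟨y ::ₘ t, ?_, ?_, ?_⟩, by rw [h1]; exact htp, by rw [h1, h2]⟩
  · intro X hX
    rcases Multiset.mem_cons.1 hX with rfl | hX
    · exact hy
    · obtain ⟨v, hv, rfl⟩ := Multiset.mem_map.1 hX
      exact hc1 v hv
  · rw [Multiset.map_cons, Multiset.prod_cons, h2]
  · rw [eq_top_iff, ← hfull]
    unfold sp
    rw [hs2]
    refine Submodule.span_mono fun v hv => ?_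
    refine ⟨c v, Multiset.mem_cons_of_mem (Multiset.mem_map_of_mem c hv), hc2 v hv⟩

end Pool.Agent.KLT

end

section

/-! MP_e487d8_al, part 3, item GEN: a product of members of a maximal family whose strings span
is a generic member of the family. -/

set_option autoImplicit false

namespace Pool.Agent.KLT

variable {I S O : Type} [DecidableEq I] [CommRing O] [Algebra ℚ O]

namespace XGEN

/-- `v` in the span of an additive submonoid: a positive multiple of `v` is a difference -/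
theorem span_nat {W : Type} [AddCommGroup W] [Module ℚ W] (T : AddSubmonoid W) {v : W}
    (hv : v ∈ Submodule.span ℚ (T : Set W)) :
    ∃ k : ℕ, 0 < k ∧ ∃ x ∈ T, ∃ y ∈ T, k • v + x = y := by
  refine Submodule.span_induction (p := fun v _ =>
    ∃ k : ℕ, 0 < k ∧ ∃ x ∈ T, ∃ y ∈ T, k • v + x = y) ?_ ?_ ?_ ?_ hv
  · intro v hv
    exact ⟨1, one_pos, 0, T.zero_mem, v, hv, by rw [one_smul, add_zero]⟩
  · exact ⟨1, one_pos, 0, T.zero_mem, 0, T.zero_mem, by simp⟩
  · rintro v v' _ _ ⟨k, hk, x, hx, y, hy, h⟩ ⟨k', hk', x', hx', y', hy', h'⟩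
    refine ⟨k * k', Nat.mul_pos hk hk', k' • x + k • x',
      T.add_mem (T.nsmul_mem hx _) (T.nsmul_mem hx' _), k' • y + k • y',
      T.add_mem (T.nsmul_mem hy _) (T.nsmul_mem hy' _), ?_⟩
    rw [← h, ← h']
    module
  · rintro q v _ ⟨k, hk, x, hx, y, hy, h⟩
    have hq : (q.den : ℚ) ≠ 0 := by exact_mod_cast q.den_ne_zero
    have h1 : ∀ u : W, (q.den * k : ℕ) • (q • u) = (q.num * k : ℤ) • u := by
      intro u
      rw [← Nat.cast_smul_eq_nsmul ℚ, ← Int.cast_smul_eq_zsmul ℚ, smul_smul]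
      congr 1
      push_cast
      have h2 : (q.num : ℚ) = q.den * q := by
        rw [mul_comm]; exact (Rat.mul_den_eq_num q).symm
      rw [h2]; ring
    rcases le_total 0 q.num with h0 | h0
    · obtain ⟨a, ha⟩ := Int.eq_ofNat_of_zero_le h0
      refine ⟨q.den * k, Nat.mul_pos q.den_pos hk, a • x, T.nsmul_mem hx _, a • y,
        T.nsmul_mem hy _, ?_⟩
      rw [h1, ha, ← h, smul_add, ← mul_smul]
      congr 1
      rw [← Int.natCast_mul, natCast_zsmul]
    · obtain ⟨a, ha⟩ := Int.eq_ofNat_of_zero_le (neg_nonneg.2 h0)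
      refine ⟨q.den * k, Nat.mul_pos q.den_pos hk, a • y, T.nsmul_mem hy _, a • x,
        T.nsmul_mem hx _, ?_⟩
      have ha' : q.num = -(a : ℤ) := by omega
      rw [h1, ha', ← h, smul_add, ← mul_smul, neg_mul, neg_smul, ← Int.natCast_mul,
        natCast_zsmul]
      abel

variable {D : Pre I S O} [IsDomain O]

/-- the strings of a family -/
def strs {w : List I} {N : Submonoid O} (hN : D.Fam w N) : AddSubmonoid (Pre.V w) where
  carrier := {v | ∃ X, D.b X ∈ N ∧ D.str w X = v}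
  zero_mem' := ⟨D.one, hN.one_mem, D.str_one w⟩
  add_mem' := by
    rintro _ _ ⟨X, hX, rfl⟩ ⟨Y, hY, rfl⟩
    obtain ⟨Z, hZ⟩ := hN.cm hX hY
    exact ⟨Z, by rw [← hZ]; exact N.mul_mem hX hY, D.str_mul w hZ⟩

/-- powers -/
theorem str_pow (w : List I) {X : S} : ∀ (k : ℕ) {Z : S}, D.b X ^ k = D.b Z →
    (∀ j ≤ k, ∃ W, D.b X ^ j = D.b W) → D.str w Z = k • D.str w X := by
  intro k
  induction k with
  | zero =>
    intro Z h _
    rw [pow_zero, ← D.b_one] at h
    rw [← D.b_inj h, D.str_one, zero_smul]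
  | succ k ih =>
    intro Z h hj
    obtain ⟨W, hW⟩ := hj k (Nat.le_succ k)
    rw [pow_succ, hW] at h
    rw [D.str_mul w h, ih hW (fun j hj' => hj j (Nat.le_succ_of_le hj')), succ_nsmul]

theorem fam_str_pow {w : List I} {N : Submonoid O} (hN : D.Fam w N) {X Z : S} (hX : D.b X ∈ N)
    (k : ℕ) (h : D.b X ^ k = D.b Z) : D.str w Z = k • D.str w X := by
  refine str_pow w k h fun j _ => ?_
  obtain ⟨W, hW, _⟩ := hN.spl _ (N.pow_mem hX j)
  exact ⟨W, hW.symm⟩

/-- an element whose string is in the span of the strings of a subfamily -/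
theorem fam_rel {w : List I} {N N₀ : Submonoid O} (hN : D.Fam w N) (h0 : N₀ ≤ N) {X : S}
    (hX : D.b X ∈ N) (hs : D.str w X ∈ D.sp w N₀) :
    ∃ k : ℕ, 0 < k ∧ ∃ P Q, D.b P ∈ N₀ ∧ D.b Q ∈ N₀ ∧ D.b X ^ k * D.b P = D.b Q := by
  have hN₀ := hN.mono h0
  obtain ⟨k, hk, _, ⟨P, hP, rfl⟩, _, ⟨Q, hQ, rfl⟩, h⟩ := span_nat (strs hN₀) hs
  refine ⟨k, hk, P, Q, hP, hQ, ?_⟩
  obtain ⟨Xk, hXk, _⟩ := hN.spl _ (N.pow_mem hX k)
  obtain ⟨Z, hZ, hZa⟩ := hN.spl _ (N.mul_mem (N.pow_mem hX k) (h0 hP))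
  rw [← hZ]
  rw [← hXk] at hZ
  have h1 : D.str w Z = D.str w Q := by
    rw [D.str_mul w hZ.symm, fam_str_pow hN hX k hXk.symm]
    exact h
  rw [D.str_inj w hZa (hN₀.ad hQ) h1]

omit [IsDomain O] in
/-- every element of the submonoid generated by the factors of `z` divides a power of `z` -/
theorem dvd_pow (N : Submonoid O) (z : O) (s : Multiset S) (hs : ∀ X ∈ s, D.b X ∈ N)
    (hp : (s.map D.b).prod = z) {x : O}
    (hx : x ∈ Submonoid.closure {x : O | ∃ X ∈ s, D.b X = x}) :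
    ∃ (m : ℕ) (x' : O), x' ∈ N ∧ x * x' = z ^ m := by
  classical
  refine Submonoid.closure_induction (motive := fun x _ =>
    ∃ (m : ℕ) (x' : O), x' ∈ N ∧ x * x' = z ^ m) ?_ ?_ ?_ hx
  · rintro _ ⟨X, hX, rfl⟩
    refine ⟨1, ((s.erase X).map D.b).prod, ?_, ?_⟩
    · refine Submonoid.multiset_prod_mem N _ fun y hy => ?_
      obtain ⟨Y, hY, rfl⟩ := Multiset.mem_map.1 hy
      exact hs Y (Multiset.mem_of_mem_erase hY)
    · rw [pow_one, ← hp]
      conv_rhs => rw [← Multiset.cons_erase hX, Multiset.map_cons, Multiset.prod_cons]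
  · exact ⟨0, 1, N.one_mem, by rw [mul_one, pow_zero]⟩
  · rintro x y _ _ ⟨m, x', hx', h1⟩ ⟨n, y', hy', h2⟩
    refine ⟨m + n, x' * y', N.mul_mem hx' hy', ?_⟩
    rw [pow_add, ← h1, ← h2]; ring

theorem cent (hi : D.Inp) {w : List I} {N : Submonoid O} {z : S} (hr : Reduced D.A w)
    (hN : D.Mx w N) (hz : D.Full w N z) (hzN : D.b z ∈ N) {X : S} (hX : D.Ad w X)
    (hX' : D.SC z X) : D.b X ∈ N := by
  have hF := hN.1
  let N' : Submonoid O :=
    { carrier := {x | ∃ X, D.b X = x ∧ D.Ad w X ∧ D.SC z X}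
      one_mem' := ⟨D.one, D.b_one, D.Ad_one w, (hF.sr hzN).sc_one⟩
      mul_mem' := by
        rintro _ _ ⟨X, rfl, hX1, hX2⟩ ⟨Y, rfl, hY1, hY2⟩
        obtain ⟨Z, hZ, hZ'⟩ := hi.thmA w hr N hF z hz X Y hX1 hX2 hY1 hY2
        exact ⟨Z, hZ.symm, D.Ad_mul w hX1 hY1 hZ, hZ'⟩ }
  have h1 : D.Fam w N' := ⟨by
    rintro _ ⟨X, rfl, hX1, hX2⟩
    exact ⟨X, rfl, hX1⟩⟩
  have h2 : N ≤ N' := by
    intro x hx
    obtain ⟨Y, rfl, hY⟩ := hF.spl x hx
    exact ⟨Y, rfl, hY, hF.sc hzN hx⟩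
  have h3 : N' = N := hN.2 N' h1 h2
  have h4 : D.b X ∈ N' := ⟨X, rfl, hX, hX'⟩
  rw [h3] at h4
  exact h4

theorem dvd {w : List I} {N : Submonoid O} {z : S} (hF : D.Fam w N) (hz : D.Full w N z)
    {y : S} (hy : D.b y ∈ N) : ∃ (k K : ℕ) (y' : S), 0 < k ∧ D.b y' ∈ N ∧
      D.b y ^ k * D.b y' = D.b z ^ K := by
  obtain ⟨s, hs, hp, hsp⟩ := hz
  have h0 : Submonoid.closure {x : O | ∃ X ∈ s, D.b X = x} ≤ N := by
    refine Submonoid.closure_le.2 ?_
    rintro _ ⟨X, hX, rfl⟩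
    exact hs X hX
  have h1 : D.str w y ∈ D.sp w (Submonoid.closure {x : O | ∃ X ∈ s, D.b X = x}) := by
    have h2 : D.str w y ∈ Submodule.span ℚ {v | ∃ X ∈ s, D.str w X = v} := by
      rw [hsp]; exact Submodule.mem_top
    refine Submodule.span_mono ?_ h2
    rintro _ ⟨X, hX, rfl⟩
    exact ⟨X, Submonoid.subset_closure ⟨X, hX, rfl⟩, rfl⟩
  obtain ⟨k, hk, P, Q, hP, hQ, h⟩ := fam_rel hF h0 hy h1
  obtain ⟨m, x', hx', h2⟩ := dvd_pow (D := D) N (D.b z) s hs hp hQ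
  obtain ⟨y', hy', _⟩ := hF.spl _ (N.mul_mem (h0 hP) hx')
  refine ⟨k, m, y', hk, ?_, ?_⟩
  · rw [hy']; exact N.mul_mem (h0 hP) hx'
  · rw [hy', ← h2, ← h]; ring

end XGEN

theorem I_GEN (D : Pre I S O) (hi : D.Inp) [IsDomain O] : D.StGen := by
  intro w N z hr hN hz
  have hzN : D.b z ∈ N := by
    obtain ⟨s, hs, hp, _⟩ := hz
    rw [← hp]
    refine Submonoid.multiset_prod_mem N _ fun y hy => ?_
    obtain ⟨Y, hY, rfl⟩ := Multiset.mem_map.1 hy
    exact hs Y hY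
  exact ⟨hzN, fun X hX hX' => XGEN.cent hi hr hN hz hzN hX hX',
    fun y hy => XGEN.dvd hN.1 hz hy⟩

end Pool.Agent.KLT

end

section

/-! MP_e487d8_al, part 3 (freeness): the family of the heads of `M^k ∘ x` for an extremal module
`M` and the members `x` of a family. -/

set_option autoImplicit false

namespace Pool.Agent.KLT

namespace XHAT

open Pre

variable {I S O : Type} [DecidableEq I] [CommRing O] [Algebra ℚ O] (D : Pre I S O)

/-- the facts on the powers of `M` which are used -/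
structure Sit (w : List I) (M : S) : Prop where
  pw : ∀ n : ℕ, ∃ T, D.b M ^ n = D.b T
  ad : ∀ (n : ℕ) T, D.b M ^ n = D.b T → D.Ad w T
  hd : ∀ (n : ℕ) T, D.b M ^ n = D.b T → ∀ X Z, D.Hd T X Z →
    D.str w Z = D.str w T + D.str w X ∧ D.tail w Z = D.tail w X

theorem sit (h : D.DLF) (h5 : D.StC5) (hp : D.StDLpow) {Λ : I → ℕ} {w : List I} {M : S}
    (hw : Reduced D.A w) (hM : D.IsDL Λ w M) : Sit D w M := by
  have key : ∀ (n : ℕ) T, D.b M ^ n = D.b T → D.IsDL (fun i => n * Λ i) w T := by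
    intro n T hT
    obtain ⟨T', h1, h2⟩ := hp Λ w M hw hM n
    rw [D.b_inj (hT.symm.trans h1)]
    exact h2
  refine ⟨fun n => ?_, fun n T hT => h.ad _ w T hw (key n T hT),
    fun n T hT X Z hZ => h5 _ w T hw (key n T hT) X Z hZ⟩
  obtain ⟨T', h1, _⟩ := hp Λ w M hw hM n
  exact ⟨T', h1⟩

variable {D}

theorem Sit.adz {w : List I} {M : S} (s : Sit D w M) {n : ℕ} {T X Z : S}
    (hT : D.b M ^ n = D.b T) (hZ : D.Hd T X Z) (hX : D.Ad w X) : D.Ad w Z := by
  rw [ad_iff_tail] at hX ⊢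
  rw [(s.hd n T hT X Z hZ).2, hX]

theorem Sit.uniq {w : List I} {M : S} (s : Sit D w M) {n : ℕ} {T X Z Z' : S}
    (hT : D.b M ^ n = D.b T) (hZ : D.Hd T X Z) (hZ' : D.Hd T X Z') (hX : D.Ad w X) : Z = Z' :=
  D.str_inj w (s.adz hT hZ hX) (s.adz hT hZ' hX)
    ((s.hd n T hT X Z hZ).1.trans (s.hd n T hT X Z' hZ').1.symm)

theorem Sit.hpow {w : List I} {M : S} (s : Sit D w M) {k j : ℕ} {T T' x Q Q₁ : S}
    (hT : D.b M ^ k = D.b T) (hQ : D.Hd T x Q) (h1 : D.b M ^ j * D.b Q = D.b Q₁)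
    (hT' : D.b M ^ (j + k) = D.b T') : D.Hd T' x Q₁ := by
  obtain ⟨Tj, hTj⟩ := s.pw j
  refine D.hd_as Tj T x T' Q Q₁ ?_ hQ (D.hd_mul ?_)
  · rw [← hTj, ← hT, ← hT', pow_add]
  · rw [← hTj, h1]

theorem Sit.key {w : List I} {M : S} (s : Sit D w M) {k k' : ℕ} {T T' T'' x x' xx Q Q' Z : S}
    (hT : D.b M ^ k = D.b T) (hT' : D.b M ^ k' = D.b T') (hT'' : D.b M ^ (k' + k) = D.b T'')
    (hxx : D.b x * D.b x' = D.b xx) (hQ : D.Hd T x Q) (hQ' : D.Hd T' x' Q') (hs : D.SC M Q)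
    (hZ : D.Hd Q Q' Z) : D.Hd T'' xx Z := by
  obtain ⟨Q₁, h1⟩ := hs k'
  refine D.hd_as' T'' x x' xx Q₁ Z hxx (s.hpow hT hQ h1 hT'')
    (D.hd_as Q T' x' Q₁ Q' Z ?_ hQ' hZ)
  rw [← h1, hT', mul_comm]

theorem Sit.lem [IsDomain O] {w : List I} {M : S} (s : Sit D w M) {k k' : ℕ}
    {T T' T'' x x' xx Q Q' : S}
    (hT : D.b M ^ k = D.b T) (hT' : D.b M ^ k' = D.b T') (hT'' : D.b M ^ (k + k') = D.b T'')
    (hxx : D.b x * D.b x' = D.b xx) (hx : D.Ad w x) (hx' : D.Ad w x') (hxa : D.Ad w xx)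
    (hQ : D.Hd T x Q) (hQ' : D.Hd T' x' Q') (hs : D.SC M Q) (hs' : D.SC M Q') :
    ∃ P, D.b Q * D.b Q' = D.b P ∧ D.Hd T'' xx P := by
  have hT2 : D.b M ^ (k' + k) = D.b T'' := by rw [add_comm]; exact hT''
  have k1 : ∀ Z, D.Hd Q Q' Z → D.Hd T'' xx Z := fun Z hZ =>
    s.key hT hT' hT2 hxx hQ hQ' hs hZ
  have k2 : ∀ Z, D.Hd Q' Q Z → D.Hd T'' xx Z := fun Z hZ =>
    s.key hT' hT hT'' (by rw [mul_comm]; exact hxx) hQ' hQ hs' hZ
  obtain ⟨P, hP⟩ := D.hd_ex Q Q'
  have hP1 := k1 P hP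
  have u1 : ∀ Z, D.Hd Q Q' Z → Z = P := fun Z hZ => s.uniq hT'' (k1 Z hZ) hP1 hxa
  have u2 : ∀ Z, D.Hd Q' Q Z → Z = P := fun Z hZ => s.uniq hT'' (k2 Z hZ) hP1 hxa
  obtain ⟨Z₀, z1, z2, z3⟩ := D.lead w (s.adz hT hQ hx) (s.adz hT' hQ' hx')
  have hTT : D.b T * D.b T' = D.b T'' := by rw [← hT, ← hT', ← hT'', pow_add]
  have e0 : Z₀ = P := by
    refine D.str_inj w z1 (s.adz hT'' hP1 hxa) ?_
    rw [z2, (s.hd _ T'' hT'' xx P hP1).1, (s.hd _ T hT x Q hQ).1, (s.hd _ T' hT' x' Q' hQ').1,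
      D.str_mul w hTT, D.str_mul w hxx]
    abel
  rw [e0] at z3
  obtain ⟨Z, hZ⟩ := D.s2 Q Q' P u1 u2 z3
  have e1 : Z = P := u1 Z (D.hd_mul hZ)
  rw [e1] at hZ
  exact ⟨P, hZ, hP1⟩

/-- the property of the members of the new family -/
def Mem (D : Pre I S O) (M : S) (N : Submonoid O) (Q : S) : Prop :=
  ∃ (x : S) (k : ℕ) (T : S), D.b x ∈ N ∧ D.b M ^ k = D.b T ∧ D.Hd T x Q ∧ D.SC M Q

theorem Sit.mul [IsDomain O] {w : List I} {M : S} (s : Sit D w M) {N : Submonoid O}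
    (hN : D.Fam w N) {Q Q' : S} (hQ : Mem D M N Q) (hQ' : Mem D M N Q') :
    ∃ P, D.b Q * D.b Q' = D.b P ∧ Mem D M N P := by
  obtain ⟨x, k, T, hx, hT, hh, hs⟩ := hQ
  obtain ⟨x', k', T', hx', hT', hh', hs'⟩ := hQ'
  obtain ⟨xx, h1, h2, h3⟩ := hN.mul hx hx'
  obtain ⟨T'', hT''⟩ := s.pw (k + k')
  obtain ⟨P, hP, hP1⟩ := s.lem hT hT' hT'' h1.symm (hN.ad hx) (hN.ad hx') h3 hh hh' hs hs'
  refine ⟨P, hP, xx, k + k', T'', h2, hT'', hP1, fun n => ?_⟩
  obtain ⟨Qn, hn⟩ := hs n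
  obtain ⟨Tn, hTn⟩ := s.pw (n + k)
  obtain ⟨Tn', hTn'⟩ := s.pw (n + k + k')
  obtain ⟨R, hR, _⟩ := s.lem hTn hT' hTn' h1.symm (hN.ad hx) (hN.ad hx') h3
    (s.hpow hT hh hn hTn) hh' (hs.pow n hn) hs'
  refine ⟨R, ?_⟩
  rw [← hP, ← mul_assoc, hn, hR]

/-- the new family -/
def fam [IsDomain O] {w : List I} {M : S} (s : Sit D w M) {N : Submonoid O}
    (hN : D.Fam w N) (h1 : Mem D M N D.one) : Submonoid O where
  carrier := {q | ∃ Q, D.b Q = q ∧ Mem D M N Q}
  one_mem' := ⟨D.one, D.b_one, h1⟩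
  mul_mem' := by
    rintro a c ⟨Q, rfl, hQ⟩ ⟨Q', rfl, hQ'⟩
    obtain ⟨P, hP, hP1⟩ := s.mul hN hQ hQ'
    exact ⟨P, hP.symm, hP1⟩

end XHAT

open XHAT in
/-- the family of the heads of the `M^k ∘ x` -/
theorem I_HAT {I S O : Type} [DecidableEq I] [CommRing O] [Algebra ℚ O] (D : Pre I S O)
    (h : D.DLF) (h5 : D.StC5) (hp : D.StDLpow) [IsDomain O] : D.StHat := by
  intro Λ w M N hw hM hN
  have s := sit D h h5 hp hw hM
  have hr : D.SR M := s.pw
  have m1 : Mem D M N D.one := by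
    refine ⟨D.one, 0, D.one, hN.one_mem, D.pow_b_zero M, ?_, hr.sc_one⟩
    rw [D.hd_one_left]
  have mM : Mem D M N M := by
    refine ⟨D.one, 1, M, hN.one_mem, pow_one _, ?_, hr.sc_self⟩
    rw [D.hd_one_right]
  refine ⟨fam s hN m1, ⟨?_⟩, ⟨M, rfl, mM⟩, ?_⟩
  · rintro _ ⟨Q, rfl, hQ⟩
    obtain ⟨x, k, T, hx, hT, hh, _⟩ := hQ
    exact ⟨Q, rfl, s.adz hT hh (hN.ad hx)⟩
  · intro x T Q k hx hT hh hs
    exact ⟨Q, rfl, x, k, T, hx, hT, hh, hs⟩

end Pool.Agent.KLT

end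

section

/-! MP_e487d8_al, part 3: the family `N'` contains full elements which are products of `M^K` and of
full elements of `N`, modulo the ideal of the non adapted modules. -/

set_option autoImplicit false

namespace Pool.Agent.KLT

variable {I S O : Type} [DecidableEq I] [CommRing O] [Algebra ℚ O] (D : Pre I S O)

namespace XHF

open Pre

variable [IsDomain O]

/-- strings of powers -/
theorem str_pow (w : List I) {M : S} (hM : ∀ n : ℕ, ∃ T, D.b M ^ n = D.b T) (k : ℕ) :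
    ∀ T, D.b M ^ k = D.b T → D.str w T = (k : ℚ) • D.str w M := by
  induction k with
  | zero =>
    intro T hT
    rw [D.pow_b_zero] at hT
    rw [← D.b_inj hT, D.str_one, Nat.cast_zero, zero_smul]
  | succ k ih =>
    intro T hT
    obtain ⟨T', hT'⟩ := hM k
    rw [pow_succ, hT'] at hT
    rw [D.str_mul w hT, ih T' hT', Nat.cast_succ, add_smul, one_smul]

/-- one member of the family `N` -/
theorem one_mem (D : Pre I S O) (hi : D.Inp) (h : D.DLF) (h5 : D.StC5) (hp : D.StDLpow)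
    (h3 : D.StD3) {Λ : I → ℕ} {w : List I} {M : S} {N N' : Submonoid O} (hw : Reduced D.A w)
    (hM : D.IsDL Λ w M) (hN : D.Mx w N)
    (cl : ∀ x T Q (k : ℕ), D.b x ∈ N → D.b M ^ k = D.b T → D.Hd T x Q →
      D.SC M Q → D.b Q ∈ N') {y : S} (hy : D.b y ∈ N) :
    ∃ (k : ℕ) (y' : S), D.b y' ∈ N' ∧ D.str w y' = D.str w y + (k : ℚ) • D.str w M ∧
      D.b y' - D.b M ^ k * D.b y ∈ D.Id w := by
  have hsr : D.SR M := fun n => by
    obtain ⟨T, hT, _⟩ := hp Λ w M hw hM n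
    exact ⟨T, hT⟩
  obtain ⟨k, hk⟩ := hi.ST w hw M (h.ad Λ w M hw hM) hsr y
  obtain ⟨T, hT, hTd⟩ := hp Λ w M hw hM k
  obtain ⟨y', hy'⟩ := D.hd_ex T y
  have hco : D.co T y y' ≠ 0 := D.hd_co T y y' hy'
  have hSC : D.SC M y' := by
    refine hk k le_rfl y' ?_
    rw [hT, D.repr_mul]
    exact_mod_cast hco
  refine ⟨k, y', cl y T y' k hy hT hy' hSC, ?_, ?_⟩
  · rw [(h5 _ w T hw hTd y y' hy').1, str_pow D w hsr k T hT, add_comm]
  · rw [hT, ← neg_sub]
    exact Submodule.neg_mem _ (h3 Λ w M N hw hM hN y hy k T y' hT hy').2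

/-- several members of the family `N` -/
theorem many (D : Pre I S O) (hi : D.Inp) (h : D.DLF) (h5 : D.StC5) (hp : D.StDLpow)
    (h3 : D.StD3) {Λ : I → ℕ} {w : List I} {M : S} {N N' : Submonoid O} (hw : Reduced D.A w)
    (hM : D.IsDL Λ w M) (hN : D.Mx w N)
    (cl : ∀ x T Q (k : ℕ), D.b x ∈ N → D.b M ^ k = D.b T → D.Hd T x Q →
      D.SC M Q → D.b Q ∈ N') (s : Multiset S) (hs : ∀ X ∈ s, D.b X ∈ N) :
    ∃ (K : ℕ) (s' : Multiset S), (∀ X ∈ s', D.b X ∈ N') ∧
      (s'.map D.b).prod - D.b M ^ K * (s.map D.b).prod ∈ D.Id w ∧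
      ∀ y ∈ s, ∃ y' ∈ s', ∃ k : ℕ, D.str w y' = D.str w y + (k : ℚ) • D.str w M := by
  induction s using Multiset.induction_on with
  | empty =>
    refine ⟨0, 0, by simp, ?_, by simp⟩
    rw [Multiset.map_zero, Multiset.prod_zero, pow_zero, one_mul, sub_self]
    exact Submodule.zero_mem _
  | cons a s ih =>
    obtain ⟨K, s', h1, h2, h4⟩ := ih fun X hX => hs X (Multiset.mem_cons_of_mem hX)
    obtain ⟨k, y', h6, h7, h8⟩ := one_mem D hi h h5 hp h3 hw hM hN cl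
      (hs a (Multiset.mem_cons_self a s))
    refine ⟨k + K, y' ::ₘ s', ?_, ?_, ?_⟩
    · intro X hX
      rcases Multiset.mem_cons.1 hX with rfl | hX
      · exact h6
      · exact h1 X hX
    · rw [Multiset.map_cons, Multiset.prod_cons, Multiset.map_cons, Multiset.prod_cons]
      have e : D.b M ^ (k + K) * (D.b a * (s.map D.b).prod) =
          (D.b M ^ k * D.b a) * (D.b M ^ K * (s.map D.b).prod) := by
        rw [pow_add]; ring
      rw [e]
      exact D.Id_mul_sub h8 h2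
    · intro y hy
      rcases Multiset.mem_cons.1 hy with rfl | hy
      · exact ⟨y', Multiset.mem_cons_self y' s', k, h7⟩
      · obtain ⟨z, hz, m, hm⟩ := h4 y hy
        exact ⟨z, Multiset.mem_cons_of_mem hz, m, hm⟩

end XHF

open Pre

theorem I_HF (D : Pre I S O) (hi : D.Inp) (h : D.DLF) (h5 : D.StC5) (hp : D.StDLpow)
    (h3 : D.StD3) [IsDomain O] : D.StHF := by
  intro Λ w M N N' z hw hM hN hF' hMN' cl hfull
  obtain ⟨s, hs, hprod, hspan⟩ := hfull
  obtain ⟨K, s', h1, h2, h4⟩ := XHF.many D hi h h5 hp h3 hw hM hN cl s hs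
  have hmem : (s'.map D.b).prod ∈ N' := by
    refine Submonoid.multiset_prod_mem _ _ ?_
    intro x hx
    obtain ⟨X, hX, rfl⟩ := Multiset.mem_map.1 hx
    exact h1 X hX
  obtain ⟨z₁', hz₁, _⟩ := hF'.spl _ hmem
  obtain ⟨z', hz', _⟩ := hF'.spl _ (N'.mul_mem hMN' hmem)
  refine ⟨z', z₁', K + 1, ⟨M ::ₘ s', ?_, ?_, ?_⟩, ?_, ?_, ?_⟩
  · intro X hX
    rcases Multiset.mem_cons.1 hX with rfl | hX
    · exact hMN'
    · exact h1 X hX
  · rw [Multiset.map_cons, Multiset.prod_cons, hz']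
  · rw [eq_top_iff, ← hspan, Submodule.span_le]
    rintro _ ⟨y, hy, rfl⟩
    obtain ⟨y', hy', k, hk⟩ := h4 y hy
    have e : D.str w y = D.str w y' - (k : ℚ) • D.str w M := by
      rw [hk, add_sub_cancel_right]
    rw [SetLike.mem_coe, e]
    refine Submodule.sub_mem _ (Submodule.subset_span ⟨y', Multiset.mem_cons_of_mem hy', rfl⟩)
      (Submodule.smul_mem _ _ (Submodule.subset_span ⟨M, Multiset.mem_cons_self M s', rfl⟩))
  · rw [hz₁]; exact hmem
  · rw [hz', hz₁]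
  · have e : D.b z' - D.b M ^ (K + 1) * D.b z =
        D.b M * ((s'.map D.b).prod - D.b M ^ K * (s.map D.b).prod) := by
      rw [hz', hprod, pow_succ]; ring
    rw [e]
    exact D.Id_mul h2

end Pool.Agent.KLT

end

section

/-! MP_e487d8_al, part 3: factors of a simple are homogeneous, factors of a monomial. -/

set_option autoImplicit false

namespace Pool.Agent.KLT

variable {I S O : Type} [DecidableEq I] [CommRing O] [Algebra ℚ O]

namespace XHOM

variable {D : Pre I S O}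

/-- `M` is the maximum of `φ` on the support of `g` -/
def Top (D : Pre I S O) (φ : S → ℚ) (g : O) (M : ℚ) : Prop :=
  (∀ Y, D.b.repr g Y ≠ 0 → φ Y ≤ M) ∧ ∃ Y, D.b.repr g Y ≠ 0 ∧ φ Y = M

theorem Top.unique {φ : S → ℚ} {g : O} {M M' : ℚ} (h : Top D φ g M) (h' : Top D φ g M') :
    M = M' := by
  obtain ⟨h1, Y, h2, h3⟩ := h
  obtain ⟨h1', Y', h2', h3'⟩ := h'
  have h4 := h1 Y' h2'
  have h5 := h1' Y h2
  linarith

theorem exists_top (D : Pre I S O) (φ : S → ℚ) {g : O} (hg : g ≠ 0) : ∃ M, Top D φ g M := by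
  classical
  have h1 : (D.b.repr g).support.Nonempty := by
    rw [Finsupp.support_nonempty_iff]
    intro h
    exact hg (by simpa using h)
  obtain ⟨Y, hY, hmax⟩ := Finset.exists_max_image _ φ h1
  refine ⟨φ Y, fun Z hZ => hmax Z (Finsupp.mem_support_iff.2 hZ), Y,
    Finsupp.mem_support_iff.1 hY, rfl⟩

theorem top_b (D : Pre I S O) (φ : S → ℚ) (X : S) : Top D φ (D.b X) (φ X) := by
  classical
  refine ⟨fun Y hY => ?_, X, by simp, rfl⟩
  rw [Module.Basis.repr_self, Finsupp.single_apply] at hY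
  by_cases h : X = Y
  · rw [h]
  · rw [if_neg h] at hY
    exact absurd rfl hY

theorem split (D : Pre I S O) {P : S → Prop} (φ : S → ℚ) {g : O} {M : ℚ} (hg : g ∈ D.SS P)
    (h : ∀ Y, D.b.repr g Y ≠ 0 → φ Y ≤ M) : ∃ g₁ g₂, g = g₁ + g₂ ∧
      g₁ ∈ D.SS (fun X => P X ∧ φ X = M) ∧ g₂ ∈ D.SS (fun X => P X ∧ φ X < M) ∧
      ∀ Y, φ Y = M → D.b.repr g₁ Y = D.b.repr g Y := by
  classical
  rw [Pre.mem_SS] at hg
  refine ⟨D.b.repr.symm ((D.b.repr g).filter fun X => φ X = M),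
    D.b.repr.symm ((D.b.repr g).filter fun X => ¬ φ X = M), ?_, ?_, ?_, ?_⟩
  · rw [← map_add, Finsupp.filter_add_filter_not, LinearEquiv.symm_apply_apply]
  · rw [Pre.mem_SS]
    intro Y hY
    rw [LinearEquiv.apply_symm_apply, Finsupp.filter_apply] at hY
    by_cases h1 : φ Y = M
    · rw [if_pos h1] at hY
      exact ⟨hg Y hY, h1⟩
    · rw [if_neg h1] at hY
      exact absurd rfl hY
  · rw [Pre.mem_SS]
    intro Y hY
    rw [LinearEquiv.apply_symm_apply, Finsupp.filter_apply] at hY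
    by_cases h1 : φ Y = M
    · rw [if_neg (not_not.2 h1)] at hY
      exact absurd rfl hY
    · rw [if_pos h1] at hY
      exact ⟨hg Y hY, lt_of_le_of_ne (h Y hY) h1⟩
  · intro Y hY
    rw [LinearEquiv.apply_symm_apply, Finsupp.filter_apply, if_pos hY]

theorem exists_supp (D : Pre I S O) {g : O} (hg : g ≠ 0) : ∃ Y, D.b.repr g Y ≠ 0 := by
  by_contra h
  push Not at h
  have : D.b.repr g = 0 := Finsupp.ext h
  exact hg (by simpa using this)

variable [IsDomain O]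

theorem top_mul {P : S → Prop} {φ : S → ℚ}
    (hP : ∀ X Y Z, P X → P Y → D.co X Y Z ≠ 0 → P Z ∧ φ Z = φ X + φ Y) {g h : O} {M M' : ℚ}
    (hg : g ∈ D.SS P) (hh : h ∈ D.SS P) (hg' : Top D φ g M) (hh' : Top D φ h M') :
    Top D φ (g * h) (M + M') := by
  obtain ⟨g₁, g₂, e1, h1, h2, h3⟩ := split D φ hg hg'.1
  obtain ⟨k₁, k₂, e2, h4, h5, h6⟩ := split D φ hh hh'.1
  have hg1 : g₁ ≠ 0 := by
    obtain ⟨_, Y, hY, hY'⟩ := hg'
    rintro rfl
    rw [← h3 Y hY', map_zero] at hY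
    exact hY rfl
  have hk1 : k₁ ≠ 0 := by
    obtain ⟨_, Y, hY, hY'⟩ := hh'
    rintro rfl
    rw [← h6 Y hY', map_zero] at hY
    exact hY rfl
  have e3 : g * h = g₁ * k₁ + (g₁ * k₂ + g₂ * k₁ + g₂ * k₂) := by rw [e1, e2]; ring
  have h7 : g₁ * k₁ ∈ D.SS (fun X => φ X = M + M') := by
    refine D.SS_mul ?_ h1 h4
    rintro X Y Z ⟨a1, a2⟩ ⟨a3, a4⟩ hZ
    rw [(hP X Y Z a1 a3 hZ).2, a2, a4]
  have h8 : g₁ * k₂ + g₂ * k₁ + g₂ * k₂ ∈ D.SS (fun X => φ X < M + M') := by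
    refine Submodule.add_mem _ (Submodule.add_mem _ ?_ ?_) ?_
    · refine D.SS_mul ?_ h1 h5
      rintro X Y Z ⟨a1, a2⟩ ⟨a3, a4⟩ hZ
      rw [(hP X Y Z a1 a3 hZ).2]; linarith
    · refine D.SS_mul ?_ h2 h4
      rintro X Y Z ⟨a1, a2⟩ ⟨a3, a4⟩ hZ
      rw [(hP X Y Z a1 a3 hZ).2]; linarith
    · refine D.SS_mul ?_ h2 h5
      rintro X Y Z ⟨a1, a2⟩ ⟨a3, a4⟩ hZ
      rw [(hP X Y Z a1 a3 hZ).2]; linarith
  rw [Pre.mem_SS] at h7 h8
  obtain ⟨Z, hZ⟩ := exists_supp D (mul_ne_zero hg1 hk1)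
  refine ⟨fun Y hY => ?_, Z, ?_, h7 Z hZ⟩
  · rw [e3, map_add, Finsupp.add_apply] at hY
    by_cases h9 : D.b.repr (g₁ * k₁) Y = 0
    · rw [h9, zero_add] at hY
      exact (h8 Y hY).le
    · exact (h7 Y h9).le
  · rw [e3, map_add, Finsupp.add_apply]
    have h9 : D.b.repr (g₁ * k₂ + g₂ * k₁ + g₂ * k₂) Z = 0 := by
      by_contra h9
      have h10 := h8 Z h9
      have h11 := h7 Z hZ
      linarith
    rw [h9, add_zero]
    exact hZ

/-- `φ` additive on the products of elements with `P`: constant on the supports of the factors -/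
theorem top_add {P : S → Prop} {φ : S → ℚ}
    (hP : ∀ X Y Z, P X → P Y → D.co X Y Z ≠ 0 → P Z ∧ φ Z = φ X + φ Y) {g h : O} {x : S}
    (hg' : g ∈ D.SS P) (hh' : h ∈ D.SS P) (hgh : g * h = D.b x) :
    ∃ M, ∀ Y, D.b.repr g Y ≠ 0 → φ Y = M := by
  have hg : g ≠ 0 := by
    rintro rfl
    rw [zero_mul] at hgh
    exact D.b.ne_zero x hgh.symm
  have hh : h ≠ 0 := by
    rintro rfl
    rw [mul_zero] at hgh
    exact D.b.ne_zero x hgh.symm
  obtain ⟨M, hM⟩ := exists_top D φ hg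
  obtain ⟨M', hM'⟩ := exists_top D φ hh
  obtain ⟨K, hK⟩ := exists_top D (fun X => - φ X) hg
  obtain ⟨K', hK'⟩ := exists_top D (fun X => - φ X) hh
  have e1 : Top D φ (g * h) (M + M') := top_mul hP hg' hh' hM hM'
  have e2 : Top D (fun X => - φ X) (g * h) (K + K') :=
    top_mul (P := P) (fun X Y Z hX hY hZ => ⟨(hP X Y Z hX hY hZ).1, by
      rw [(hP X Y Z hX hY hZ).2]; ring⟩) hg' hh' hK hK'
  rw [hgh] at e1 e2
  have e3 := e1.unique (top_b D φ x)
  have e4 : K + K' = - φ x := e2.unique (top_b D (fun X => - φ X) x)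
  obtain ⟨Y₂, hY₂⟩ := exists_supp D hh
  have a3 := hM'.1 Y₂ hY₂
  have a4 : - φ Y₂ ≤ K' := hK'.1 Y₂ hY₂
  refine ⟨M, fun Y hY => ?_⟩
  have b1 := hM.1 Y hY
  have b2 : - φ Y ≤ K := hK.1 Y hY
  linarith

end XHOM

open XHOM in
theorem I_HOM (D : Pre I S O) [IsDomain O] : D.StHom ∧ D.StMon := by
  classical
  constructor
  · intro g h c hgh X Y hX hY
    refine Finsupp.ext fun i => ?_
    obtain ⟨M, hM⟩ := top_add (P := fun _ => True) (φ := fun X => (D.wt X i : ℚ))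
      (fun X Y Z _ _ hZ => ⟨trivial, by rw [D.wt_co X Y Z hZ]; simp⟩)
      (D.mem_SS_top g) (D.mem_SS_top h) hgh
    have h1 : (D.wt X i : ℚ) = D.wt Y i := (hM X hX).trans (hM Y hY).symm
    exact_mod_cast h1
  · intro w N hN g h hg hh c hgh
    have hg0 : g ≠ 0 := by
      rintro rfl
      rw [zero_mul] at hgh
      exact D.b.ne_zero c hgh.symm
    obtain ⟨X, hX⟩ := exists_supp D hg0
    have hXN : D.b X ∈ N := D.mem_SS.1 hg X hX
    refine ⟨D.b.repr g X, X, hX, hXN, ?_⟩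
    have hstr : ∀ Y, D.b.repr g Y ≠ 0 → D.str w X = D.str w Y := by
      intro Y hY
      funext k
      obtain ⟨M, hM⟩ := top_add (P := fun X => D.b X ∈ N) (φ := fun X => D.str w X k)
        (fun X Y Z hX hY hZ => by
          obtain ⟨W, hW, hWN, _⟩ := hN.mul hX hY
          have h1 : Z = W := D.co_of_mul' hW.symm hZ
          rw [h1]
          refine ⟨hWN, ?_⟩
          rw [D.str_mul w hW.symm]
          rfl) hg hh hgh
      exact (hM X hX).trans (hM Y hY).symm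
    refine D.b.repr.injective (Finsupp.ext fun Z => ?_)
    rw [map_smul, Module.Basis.repr_self, Finsupp.smul_apply, Finsupp.single_apply]
    by_cases hZ : X = Z
    · rw [if_pos hZ, hZ, smul_eq_mul, mul_one]
    · rw [if_neg hZ, smul_zero]
      by_contra hZ0
      exact hZ (D.str_inj w (hN.ad hXN) (hN.ad (D.mem_SS.1 hg Z hZ0)) (hstr Z hZ0))

end Pool.Agent.KLT

end

section

/-! MP_e487d8_al, part 3 (freeness), abstract part: the values of `lam` at extremal modules. -/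

set_option autoImplicit false

namespace Pool.Agent.KLT

variable {I S O : Type} [DecidableEq I] [CommRing O] [Algebra ℚ O] [IsDomain O]

theorem I_LAM (D : Pre I S O) (h : D.DLF) : D.StLAM := by
  intro Λ w
  induction w with
  | nil =>
    intro M Q _ hM _
    rw [h.nil Λ M hM, D.lam_one]
    have e1 : aff D.A (fun i => (Λ i : ℤ)) [] 0 = 0 := rfl
    have e2 : D.tail [] Q = Q := rfl
    rw [Pre.kap, e1, bil_zero_left, e2]
    ring
  | cons i w ih =>
    intro M Q hr hM hcm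
    obtain ⟨h1, h2⟩ := h.step Λ i w M hr hM
    have hr' : Reduced D.A w := reduced_tail hr
    have h3 := ih (D.E i M) (D.E i Q) hr' h1 (D.cm_E i hcm)
    rw [D.lam_Ez i hcm, h3]
    have e1 : aff D.A (fun i => (Λ i : ℤ)) (i :: w) 0 =
        aff D.A (fun i => (Λ i : ℤ)) w 0 +
          ((Λ i : ℤ) - pair D.A i (aff D.A (fun i => (Λ i : ℤ)) w 0)) • al i := rfl
    have e2 : D.tail (i :: w) Q = D.tail w (D.E i Q) := rfl
    have e3 := D.wtz_E i Q
    have hmu := h1.2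
    rw [Pre.kap, Pre.kap, e1, e2, e3, h2, hmu]
    simp only [KLT.lam_add, KLT.lam_smul, KLT.lam_al, bil_add_left, bil_smul_left,
      bil_add_right D.hA, bil_smul_right D.hA, bil_al_left, bil_al_right D.hA, pair_add,
      pair_smul, pair_al, D.hA.diag]
    ring

end Pool.Agent.KLT

end

section

/-! MP_e487d8_al, part 3: MULT, eigenvectors of the bracket with a real module. -/

set_option autoImplicit false

namespace Pool.Agent.KLT

variable {I S O : Type} [DecidableEq I] [CommRing O] [Algebra ℚ O]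

theorem I_MULT (D : Pre I S O) (hi : D.Inp) [IsDomain O] : D.StMult := by
  classical
  intro w C hw hC hSR V μ hV hbr Q hQ hSC
  choose n₀ hn₀ using fun X => hi.ST w hw C hC hSR X
  obtain ⟨n, hn⟩ : ∃ n, ∀ X, D.b.repr V X ≠ 0 → n₀ X ≤ n :=
    ⟨∑ X ∈ (D.b.repr V).support, n₀ X, fun X hX =>
      Finset.single_le_sum (f := n₀) (fun _ _ => Nat.zero_le _) (Finsupp.mem_support_iff.2 hX)⟩
  have ha : ∀ R, D.b.repr (D.b C ^ n * V) R ≠ 0 → D.SC C R := by
    intro R hR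
    rw [D.eq_sum V, Finset.mul_sum, map_sum, Finsupp.finsetSum_apply] at hR
    obtain ⟨X, hX, hX2⟩ := Finset.exists_ne_zero_of_sum_ne_zero hR
    rw [mul_smul_comm, map_smul, Finsupp.smul_apply, smul_eq_mul] at hX2
    exact hn₀ X n (hn X (Finsupp.mem_support_iff.1 hX)) R (right_ne_zero_of_mul hX2)
  have hb : D.br (D.b C) (D.b C ^ n * V) = μ • (D.b C * (D.b C ^ n * V)) := by
    rw [D.br_mul, D.br_pow_self, zero_mul, zero_add, hbr, mul_smul_comm, mul_left_comm]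
  have hc : ∀ R, D.b.repr (D.b C ^ n * V) R ≠ 0 → (D.lam C R : ℚ) = μ := fun R hR =>
    D.eig (fun R' hR' => (ha R' hR').cm) hb hR
  obtain ⟨R₀, hR₀⟩ := hSC n
  obtain ⟨T, hT⟩ := hSR n
  have h1 : D.b T * D.b Q = D.b R₀ := by rw [← hT, hR₀]
  have h2 : D.b.repr (D.b C ^ n * V) R₀ ≠ 0 := by
    have h3 := (Pre.Ps.b (D := D) T).mul_le hV T Q R₀
    rw [D.co_of_mul h1, Module.Basis.repr_self, Finsupp.single_eq_same, one_mul, Nat.cast_one,
      mul_one, ← hT] at h3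
    have h4 : 0 < D.b.repr V Q := lt_of_le_of_ne (hV Q) (Ne.symm hQ)
    exact (lt_of_lt_of_le h4 h3).ne'
  have h3 : D.Cm C T := by
    obtain ⟨T', hT'⟩ := hSR (n + 1)
    exact ⟨T', by rw [← hT, ← hT', pow_succ']⟩
  obtain ⟨P, hP⟩ := h3
  have h4 : D.lam C T = 0 := by
    have h5 := D.br_lam C T P hP
    rw [← hT, D.br_pow_self] at h5
    have h6 : (0 : ℚ) • D.b P = (D.lam C T : ℚ) • D.b P := by rw [zero_smul]; exact h5
    exact_mod_cast (D.smul_b_inj h6).symm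
  obtain ⟨W', hW'⟩ := (ha R₀ h2).cm
  have h5 := Pre.lam_mul (D := D) h1 ⟨P, hP⟩ hSC.cm hW'
  have h6 := hc R₀ h2
  rw [h5, h4, zero_add] at h6
  exact h6

end Pool.Agent.KLT

end

section

/-! MP_e487d8_al, part 3: an extremal module is normal modulo the ideal of the non adapted
modules. -/

set_option autoImplicit false

namespace Pool.Agent.KLT

variable {I S O : Type} [DecidableEq I] [CommRing O] [Algebra ℚ O]

namespace XNOR

theorem kap_add (D : Pre I S O) (Λ : I → ℕ) (w : List I) (β γ : I →₀ ℤ) :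
    D.kap Λ w (β + γ) = D.kap Λ w β + D.kap Λ w γ := by
  unfold Pre.kap
  rw [KLT.lam_add, bil_add_right D.hA]
  ring

theorem kap_self (D : Pre I S O) (Λ : I → ℕ) (w : List I) :
    D.kap Λ w (aff D.A (fun i => (Λ i : ℤ)) w 0) = 0 := by
  have h := gg_aff (Λ := fun i => (Λ i : ℤ)) D.hA w 0
  have h0 : gg D.d D.A (fun i => (Λ i : ℤ)) 0 = 0 := by
    unfold gg
    rw [bil_zero_left, KLT.lam_zero]
    rfl
  rw [h0] at h
  unfold gg at h
  unfold Pre.kap
  linarith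

/-- powers of an adapted module -/
theorem pow_ad [IsDomain O] (D : Pre I S O) {w : List I} {M : S} (hM : D.Ad w M) (hS : D.SR M)
    {n : ℕ} {T : S} (hT : D.b M ^ n = D.b T) : D.Ad w T := by
  induction n generalizing T with
  | zero =>
    rw [D.pow_b_zero] at hT
    rw [← D.b_inj hT]
    exact D.Ad_one w
  | succ n ih =>
    obtain ⟨T', hT'⟩ := hS n
    rw [pow_succ, hT'] at hT
    exact D.Ad_mul w (ih hT') hM hT

/-- weight of powers -/
theorem kap_pow (D : Pre I S O) {Λ : I → ℕ} {w : List I} {M : S} (hk : D.kap Λ w (D.wtz M) = 0)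
    (hS : D.SR M) {n : ℕ} {T : S} (hT : D.b M ^ n = D.b T) : D.kap Λ w (D.wtz T) = 0 := by
  induction n generalizing T with
  | zero =>
    rw [D.pow_b_zero] at hT
    rw [← D.b_inj hT, D.wtz_one]
    unfold Pre.kap
    rw [KLT.lam_zero, bil_symm D.hA, bil_zero_left]
    rfl
  | succ n ih =>
    obtain ⟨T', hT'⟩ := hS n
    rw [pow_succ, hT'] at hT
    rw [D.wtz_mul hT, kap_add, ih hT', hk]
    rfl

end XNOR

theorem I_NOR [IsDomain O] (D : Pre I S O) (hi : D.Inp) (h : D.DLF) (hp : D.StDLpow)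
    (hl : D.StLAM) (hc : D.StCan) : D.StNor := by
  intro Λ w M hw hM X
  have hAd : D.Ad w M := h.ad Λ w M hw hM
  have hS : D.SR M := by
    intro n
    obtain ⟨T, hT, _⟩ := hp Λ w M hw hM n
    exact ⟨T, hT⟩
  have hk : D.kap Λ w (D.wtz M) = 0 := by
    rw [hM.2]
    exact XNOR.kap_self D Λ w
  obtain ⟨n, hn⟩ := hi.ST w hw M hAd hS X
  have hn := hn n le_rfl
  obtain ⟨T, hT⟩ := hS n
  have hTA : D.Ad w T := XNOR.pow_ad D hAd hS hT
  have hTk : D.kap Λ w (D.wtz T) = 0 := XNOR.kap_pow D hk hS hT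
  set κ : ℚ := (D.kap Λ w (D.wtz X) : ℚ) with hκ
  -- the weights of the constituents
  have hwt : ∀ R, D.b.repr (D.b M ^ n * D.b X) R ≠ 0 →
      D.kap Λ w (D.wtz R) = D.kap Λ w (D.wtz X) := by
    intro R hR
    rw [hT, D.repr_mul] at hR
    have h1 : D.co T X R ≠ 0 := by exact_mod_cast hR
    rw [D.wtz_co h1, XNOR.kap_add, hTk, zero_add]
  -- the bracket with the constituents
  have h1 : ∀ R, D.b.repr (D.b M ^ n * D.b X) R ≠ 0 →
      D.br (D.b M) (D.b R) - κ • (D.b M * D.b R) ∈ D.Id w := by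
    intro R hR
    by_cases hRA : D.Ad w R
    · have hcm : D.Cm M R := (hn R hR).cm
      have h2 := hl Λ w M R hw hM hcm
      rw [(D.ad_iff_tail w R).1 hRA, D.wtz_one, KLT.lam_zero, hwt R hR] at h2
      obtain ⟨P, hP⟩ := hcm
      rw [D.br_lam M R P hP, hP, h2, hκ]
      have h3 : ((D.kap Λ w (D.wtz X) - 2 * 0 : ℤ) : ℚ) = (D.kap Λ w (D.wtz X) : ℚ) := by
        push_cast; ring
      rw [h3, sub_self]
      exact Submodule.zero_mem _
    · have h2 : D.b R ∈ D.Id w := D.b_mem_Id.2 hRA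
      exact Submodule.sub_mem _ (D.br_mem_Id h2) (Submodule.smul_mem _ _ (D.Id_mul h2))
  have h2 : D.br (D.b M) (D.b M ^ n * D.b X) - κ • (D.b M * (D.b M ^ n * D.b X)) ∈ D.Id w := by
    generalize D.b M ^ n * D.b X = W at h1
    rw [D.eq_sum W, Finset.mul_sum, map_sum, Finset.smul_sum, ← Finset.sum_sub_distrib]
    refine Submodule.sum_mem _ fun R hR => ?_
    have h3 := h1 R (Finsupp.mem_support_iff.1 hR)
    have e : D.br (D.b M) (D.b.repr W R • D.b R) - κ • (D.b M * (D.b.repr W R • D.b R)) =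
        D.b.repr W R • (D.br (D.b M) (D.b R) - κ • (D.b M * D.b R)) := by
      rw [map_smul, mul_smul_comm, smul_sub, smul_comm κ]
    rw [e]
    exact Submodule.smul_mem _ _ h3
  have h3 : D.br (D.b M) (D.b M ^ n * D.b X) - κ • (D.b M * (D.b M ^ n * D.b X)) =
      D.b T * (D.br (D.b M) (D.b X) - κ • (D.b M * D.b X)) := by
    rw [D.br_mul, D.br_pow_self, zero_mul, zero_add, hT, mul_sub, mul_smul_comm]
    congr 2
    ring
  rw [h3] at h2
  exact hc w T hTA _ h2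

end Pool.Agent.KLT

end

section

/-! MP_e487d8_al, part 3, item SPAN (helper53): the strings of the adapted modules span. -/

set_option autoImplicit false

namespace Pool.Agent.KLT

namespace XSPAN

variable {I S O : Type} [DecidableEq I] [CommRing O] [Algebra ℚ O] (D : Pre I S O)

theorem span_of_triangular {m : ℕ} (V : Submodule ℚ (Fin m → ℚ))
    (h : ∀ k : Fin m, ∃ v ∈ V, v k = 1 ∧ ∀ l, k < l → v l = 0) : V = ⊤ := by
  classical
  have key : ∀ (n : ℕ) (v : Fin m → ℚ), (∀ l : Fin m, n ≤ l.1 → v l = 0) → v ∈ V := by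
    intro n
    induction n with
    | zero =>
      intro v hv
      have : v = 0 := by
        ext l
        exact hv l (Nat.zero_le _)
      rw [this]
      exact V.zero_mem
    | succ n ih =>
      intro v hv
      by_cases hn : n < m
      · obtain ⟨u, hu, hu1, hu2⟩ := h ⟨n, hn⟩
        have h1 : v - v ⟨n, hn⟩ • u ∈ V := by
          apply ih
          intro l hl
          rcases Nat.lt_or_ge n l.1 with h3 | h3
          · have e1 := hv l h3
            have e2 := hu2 l h3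
            simp [e1, e2]
          · have e : l = ⟨n, hn⟩ := Fin.ext (by simp only; omega)
            subst e
            simp [hu1]
        have h2 : v = (v - v ⟨n, hn⟩ • u) + v ⟨n, hn⟩ • u := by abel
        rw [h2]
        exact V.add_mem h1 (V.smul_mem _ hu)
      · apply ih
        intro l hl
        have := l.2
        omega
  rw [eq_top_iff]
  intro v _
  exact key m v (fun l hl => absurd l.2 (by omega))

/-- the string of an extremal module of weight `u ρ` along `u ++ v` -/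
theorem str_ext (h : D.DLF) (v : List I) : ∀ (u : List I) (M : S), Reduced D.A u →
    D.IsDL (fun _ => 1) u M → ∀ k : Fin (u ++ v).length,
      (k.1 + 1 = u.length → D.str (u ++ v) M k = 1) ∧
      (u.length ≤ k.1 → D.str (u ++ v) M k = 0) := by
  intro u
  induction u with
  | nil =>
    intro M _ hM k
    refine ⟨fun hk => absurd hk (Nat.succ_ne_zero _), fun _ => ?_⟩
    rw [h.nil _ M hM, D.str_one]
    rfl
  | cons i u ih =>
    intro M hr hM k
    obtain ⟨h1, h2⟩ := h.step _ i u M hr hM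
    have ih' := ih (D.E i M) (reduced_tail hr) h1
    refine Fin.cases (motive := fun k => (k.1 + 1 = (i :: u).length →
      D.str (i :: (u ++ v)) M k = 1) ∧ ((i :: u).length ≤ k.1 →
      D.str (i :: (u ++ v)) M k = 0)) ?_ (fun k' => ?_) (k : Fin ((u ++ v).length + 1))
    · constructor
      · intro hk
        have hu : u = [] := by
          rw [List.length_cons] at hk
          exact List.length_eq_zero_iff.1 (Nat.succ_injective hk).symm
        subst hu
        have h3 : D.E i M = D.one := h.nil _ _ h1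
        rw [h3, D.wtz_one, pair_zero] at h2
        have h4 : D.eps i M = 1 := by
          have h5 : (D.eps i M : ℤ) = 1 := by rw [h2]; norm_num
          exact_mod_cast h5
        show (D.eps i M : ℚ) = 1
        rw [h4, Nat.cast_one]
      · intro hk
        exact absurd hk (by simp)
    · obtain ⟨a1, a2⟩ := ih' k'
      constructor
      · intro hk
        rw [List.length_cons, Fin.val_succ] at hk
        exact a1 (Nat.succ_injective hk)
      · intro hk
        rw [List.length_cons, Fin.val_succ] at hk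
        exact a2 (Nat.succ_le_succ_iff.1 hk)

end XSPAN

variable {I S O : Type} [DecidableEq I] [CommRing O] [Algebra ℚ O]

theorem I_SPAN (D : Pre I S O) (h : D.DLF) : ∀ w, Reduced D.A w →
    Submodule.span ℚ {v | ∃ X, D.Ad w X ∧ D.str w X = v} = ⊤ := by
  intro w hr
  refine XSPAN.span_of_triangular _ fun k => ?_
  obtain ⟨u, v, hw, hu⟩ : ∃ u v : List I, w = u ++ v ∧ u.length = k.1 + 1 := by
    refine ⟨w.take (k.1 + 1), w.drop (k.1 + 1), (List.take_append_drop _ _).symm, ?_⟩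
    rw [List.length_take]
    have := k.2
    omega
  subst hw
  have hr' : Reduced D.A u := reduced_prefix hr
  obtain ⟨M, hM⟩ := h.ex (fun _ => 1) u hr'
  refine ⟨D.str (u ++ v) M, Submodule.subset_span ⟨M, D.ad_append' v (h.ad _ u M hr' hM), rfl⟩,
    (XSPAN.str_ext D h v u M hr' hM k).1 hu.symm, fun l hl => ?_⟩
  refine (XSPAN.str_ext D h v u M hr' hM l).2 ?_
  have : k.1 < l.1 := hl
  omega

end Pool.Agent.KLT

end

section

/-! MP_e487d8_al, part 3: for large `n` the simple quotient of `z^n ∘ X` lies in the family. -/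

set_option autoImplicit false

namespace Pool.Agent.KLT

variable {I S O : Type} [DecidableEq I] [CommRing O] [Algebra ℚ O]

namespace XTOP1

theorem kap_add (D : Pre I S O) (Λ : I → ℕ) (w : List I) (β γ : I →₀ ℤ) :
    D.kap Λ w (β + γ) = D.kap Λ w β + D.kap Λ w γ := by
  unfold Pre.kap
  rw [KLT.lam_add, bil_add_right D.hA]
  ring

theorem eq_zero_of_lam (D : Pre I S O) {Λ : I → ℕ} (hΛ : ∀ i, 0 < Λ i) {β : I →₀ ℤ}
    (hβ : 0 ≤ β) (h : KLT.lam D.d (fun i => (Λ i : ℤ)) β = 0) : β = 0 := by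
  have hpos : ∀ j, 0 < D.d j * (Λ j : ℤ) := fun j =>
    mul_pos (D.hA.pos j) (by exact_mod_cast hΛ j)
  have hnn : ∀ j ∈ β.support, 0 ≤ β j * (D.d j * (Λ j : ℤ)) := fun j _ =>
    mul_nonneg (hβ j) (hpos j).le
  ext j
  by_contra hj
  have h1 : j ∈ β.support := Finsupp.mem_support_iff.2 hj
  have h2 := (Finset.sum_eq_zero_iff_of_nonneg hnn).1 h j h1
  rcases mul_eq_zero.1 h2 with h3 | h3
  · exact hj h3
  · exact (hpos j).ne' h3

end XTOP1

theorem I_TOP1 (D : Pre I S O) (hi : D.Inp) (h : D.DLF) (h5 : D.StC5) (hp : D.StDLpow)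
    (hl : D.StLAM) (hm : D.StMult) [IsDomain O] : D.StTop1 := by
  have _ := h
  intro Λ w M N z z₁ H X hX
  have hF := H.mx.1
  have hMad := hF.ad H.hM
  have hMsr := hF.sr H.hM
  have hzad := hF.ad H.gen.mem
  have hzsr := hF.sr H.gen.mem
  obtain ⟨n1, hn1⟩ := hi.ST w H.red M hMad hMsr X
  obtain ⟨n2, hn2⟩ := hi.ST w H.red z hzad hzsr X
  refine ⟨max n1 n2, fun n hn T Z hT hZ => ?_⟩
  obtain ⟨TM, hTM, hTMd⟩ := hp Λ w M H.red H.dl n
  obtain ⟨T1, hT1, hT1N, hT1a⟩ := hF.pow H.hz₁ n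
  have hprod : D.b T1 * D.b TM = D.b T := by
    rw [← hT, H.fac, mul_pow, hTM, hT1, mul_comm]
  obtain ⟨W, hW⟩ := D.hd_ex TM X
  obtain ⟨Z', hZ'⟩ := D.hd_ex T1 W
  have hZZ' : Z = Z' :=
    hi.K1 w H.red z hzad hzsr n T hT X Z Z' hZ (D.hd_as T1 TM X T W Z' hprod hW hZ')
  rw [← hZZ'] at hZ'
  have hWad : D.Ad w W := by
    rw [D.ad_iff_tail, (h5 _ w TM H.red hTMd X W hW).2]
    exact (D.ad_iff_tail w X).1 hX
  have hMW : D.SC M W := by
    refine hn1 n (le_trans (le_max_left _ _) hn) W ?_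
    rw [hTM, D.repr_mul]
    exact_mod_cast D.hd_co TM X W hW
  have hMT1 : D.SC M T1 := hF.sc H.hM hT1N
  have hzZ : D.SC z Z := by
    refine hn2 n (le_trans (le_max_right _ _) hn) Z ?_
    rw [hT, D.repr_mul]
    exact_mod_cast D.hd_co T X Z hZ
  have hMZ : D.SC M Z := by
    intro j
    obtain ⟨P, hP⟩ := hzZ j
    obtain ⟨A, hA, _, _⟩ := hF.pow H.hz₁ j
    obtain ⟨B, hB, _, _⟩ := hF.pow H.hM j
    have h1 : D.b A * (D.b B * D.b Z) = D.b P := by
      rw [← hP, H.fac, mul_pow, hA, hB]; ring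
    obtain ⟨Y, hY⟩ := D.cm_of_mul_mul h1
    exact ⟨Y, by rw [← hY, hB]⟩
  have hlam : (D.lam M Z : ℚ) = D.lam M T1 + D.lam M W := by
    refine hm w M H.red hMad hMsr (D.b T1 * D.b W) _ ((Pre.Ps.b T1).mul (Pre.Ps.b W)) ?_ Z ?_ hMZ
    · obtain ⟨P, hP⟩ := Pre.SC.cm hMT1
      obtain ⟨Q, hQ⟩ := Pre.SC.cm hMW
      rw [D.br_mul, D.br_lam M T1 P hP, D.br_lam M W Q hQ, ← hP, ← hQ]
      simp only [Algebra.smul_def, map_add]
      ring
    · rw [D.repr_mul]
      exact_mod_cast D.hd_co T1 W Z hZ'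
  have hlam' : D.lam M Z = D.lam M T1 + D.lam M W := by exact_mod_cast hlam
  have h1 := hl Λ w M T1 H.red H.dl (Pre.SC.cm hMT1)
  have h2 := hl Λ w M W H.red H.dl (Pre.SC.cm hMW)
  have h3 := hl Λ w M Z H.red H.dl (Pre.SC.cm hMZ)
  rw [(D.ad_iff_tail w T1).1 hT1a, D.wtz_one, KLT.lam_zero, mul_zero, sub_zero] at h1
  rw [(D.ad_iff_tail w W).1 hWad, D.wtz_one, KLT.lam_zero, mul_zero, sub_zero] at h2
  have h4 := D.wtz_co (D.hd_co T1 W Z hZ')
  rw [h4, XTOP1.kap_add] at h3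
  have h6 : KLT.lam D.d (fun i => (Λ i : ℤ)) (D.wtz (D.tail w Z)) = 0 := by linarith
  have h7 := XTOP1.eq_zero_of_lam D H.reg (D.wtz_nonneg _) h6
  exact H.gen.cent Z ((D.ad_iff_tail w Z).2 (D.eq_one_of_wtz h7)) hzZ

end Pool.Agent.KLT

end

section

/-! MP_e487d8_al, part 3: the constituents of `z^n ∘ X` in the family. -/

set_option autoImplicit false

namespace Pool.Agent.KLT

open Pre

variable {I S O : Type} [DecidableEq I] [CommRing O] [Algebra ℚ O]

namespace XTOP2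

/-- `lam` of powers, first argument -/
theorem lam_pow {D : Pre I S O} {w : List I} {N : Submonoid O} (hN : D.Fam w N) {y Q : S}
    (hy : D.b y ∈ N) (hQ : D.b Q ∈ N) :
    ∀ (k : ℕ) {P : S}, D.b P = D.b y ^ k → D.lam P Q = k * D.lam y Q := by
  intro k
  induction k with
  | zero =>
    intro P hP
    have h : P = D.one := D.b_inj (by rw [hP, pow_zero, D.b_one])
    rw [h, D.lam_one]
    simp
  | succ k ih =>
    intro P hP
    obtain ⟨P', h1, h2, _⟩ := hN.pow hy k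
    have hPN : D.b P ∈ N := by rw [hP]; exact N.pow_mem hy _
    obtain ⟨W, hW⟩ := hN.cm hPN hQ
    have hm : D.b P' * D.b y = D.b P := by rw [h1, hP, pow_succ]
    rw [lam_mul' hm (hN.cm h2 hQ) (hN.cm hy hQ) hW, ih h1]
    push_cast
    ring

/-- constituents of `Y ∘ (T ∘ X)` -/
theorem co_ne {D : Pre I S O} {Y T T' X Q Q' : S} (h : D.b Y * D.b T = D.b T')
    (hQ' : D.b Y * D.b Q = D.b Q') (hQ : D.co T X Q ≠ 0) : D.co T' X Q' ≠ 0 := by
  classical
  have h1 := Ps.mul_le (D := D) (Ps.b Y) ((Ps.b T).mul (Ps.b X)) Y Q Q'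
  rw [← mul_assoc, h, D.repr_mul, D.repr_mul, D.co_of_mul hQ', Module.Basis.repr_self,
    Finsupp.single_eq_same, one_mul, Nat.cast_one, mul_one] at h1
  have h2 : D.co T X Q ≤ D.co T' X Q' := by exact_mod_cast h1
  omega

end XTOP2

open XTOP2

theorem I_TOP2 [IsDomain O] (D : Pre I S O) (hi : D.Inp) : D.StTop2 := by
  intro Λ w M N z z₁ H X n T Z hT hZ hZN Q hQ hQN
  have hN := H.mx.1
  have hz := H.gen.mem
  have hle : D.lam z Q ≤ D.lam z Z := hi.K3 w H.red z (hN.ad hz) (hN.sr hz) n T hT X Z Q hZ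
    (hN.sc hz hZN) hQ (hN.sc hz hQN)
  refine ⟨hle, fun heq => ?_⟩
  have key : ∀ y, D.b y ∈ N → D.lam y Q ≤ D.lam y Z := by
    intro y hy
    obtain ⟨z', hz', hz'N, _⟩ := hN.mul hz hy
    obtain ⟨T', hT', hT'N, _⟩ := hN.pow hz'N n
    obtain ⟨Yn, hYn, hYnN, _⟩ := hN.pow hy n
    obtain ⟨Z', hZ', hZ'N, _⟩ := hN.mul hYnN hZN
    obtain ⟨Q', hQ', hQ'N, _⟩ := hN.mul hYnN hQN
    have hprod : D.b Yn * D.b T = D.b T' := by
      rw [hYn, hT', ← hT, hz', mul_pow, mul_comm]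
    have hd : D.Hd T' X Z' := D.hd_as Yn T X T' Z Z' hprod hZ (D.hd_mul hZ'.symm)
    have h1 := hi.K3 w H.red z' (hN.ad hz'N) (hN.sr hz'N) n T' hT'.symm X Z' Q' hd
      (hN.sc hz'N hZ'N) (co_ne hprod hQ'.symm hQ) (hN.sc hz'N hQ'N)
    obtain ⟨W1, hW1⟩ := hN.cm hz'N hQ'N
    obtain ⟨W2, hW2⟩ := hN.cm hz'N hZ'N
    rw [lam_mul hQ'.symm (hN.cm hz'N hYnN) (hN.cm hz'N hQN) hW1,
      lam_mul hZ'.symm (hN.cm hz'N hYnN) (hN.cm hz'N hZN) hW2] at h1
    obtain ⟨W3, hW3⟩ := hN.cm hz'N hQN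
    obtain ⟨W4, hW4⟩ := hN.cm hz'N hZN
    rw [lam_mul' hz'.symm (hN.cm hz hQN) (hN.cm hy hQN) hW3,
      lam_mul' hz'.symm (hN.cm hz hZN) (hN.cm hy hZN) hW4] at h1
    linarith
  have key2 : ∀ y, D.b y ∈ N → D.lam y Q = D.lam y Z := by
    intro y hy
    obtain ⟨k, K, y', hk, hy', e⟩ := H.gen.dvd y hy
    obtain ⟨Yk, hYk, hYkN, _⟩ := hN.pow hy k
    obtain ⟨ZK, hZK, hZKN, _⟩ := hN.pow hz K
    have e' : D.b Yk * D.b y' = D.b ZK := by rw [hYk, hZK, e]
    have hl : ∀ R, D.b R ∈ N → (K : ℤ) * D.lam z R = k * D.lam y R + D.lam y' R := by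
      intro R hR
      obtain ⟨W, hW⟩ := hN.cm hZKN hR
      rw [← lam_pow hN hz hR K hZK, lam_mul' e' (hN.cm hYkN hR) (hN.cm hy' hR) hW,
        lam_pow hN hy hR k hYk]
    have h1 := hl Q hQN
    have h2 := hl Z hZN
    rw [heq] at h1
    have h3 := key y hy
    have h4 := key y' hy'
    have hk' : (0 : ℤ) < k := by exact_mod_cast hk
    have h5 : (k : ℤ) * D.lam y Z ≤ k * D.lam y Q := by linarith
    exact le_antisymm h3 (le_of_mul_le_mul_left h5 hk')
  have hLL : D.LL w Q = D.LL w Z := by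
    refine LinearMap.ext_on (s := {v | ∃ X, D.b X ∈ N ∧ D.str w X = v})
      (hi.full w H.red N H.mx) ?_
    rintro _ ⟨C, hC, rfl⟩
    rw [← D.lam_LL w (hN.ad hC) (hN.cm hC hQN), ← D.lam_LL w (hN.ad hC) (hN.cm hC hZN),
      key2 C hC]
  have hwt : D.wt Q = D.wt Z := by
    rw [D.wt_co _ _ _ hQ, D.wt_co _ _ _ (D.hd_co _ _ _ hZ)]
  exact D.str_inj w (hN.ad hQN) (hN.ad hZN) (D.LL_inj' w hwt fun v => by rw [hLL])

end Pool.Agent.KLT

end

section

/-! MP_e487d8_al, part 3 (freeness): the tops of the constituents of `b z ^ n * g`. -/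

set_option autoImplicit false

namespace Pool.Agent.KLT

variable {I S O : Type} [DecidableEq I] [CommRing O] [Algebra ℚ O]

namespace XTOPF

/-- the coefficients of `b T * g` -/
theorem repr_b_mul (D : Pre I S O) (T : S) (g : O) (P : S) : D.b.repr (D.b T * g) P =
    ∑ X ∈ (D.b.repr g).support, D.b.repr g X * (D.co T X P : ℚ) := by
  have e : D.b T * g = ∑ X ∈ (D.b.repr g).support, D.b.repr g X • (D.b T * D.b X) := by
    conv_lhs => rw [Pre.eq_sum D g]
    rw [Finset.mul_sum]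
    exact Finset.sum_congr rfl fun X _ => mul_smul_comm _ _ _
  rw [e, map_sum, Finsupp.finsetSum_apply]
  refine Finset.sum_congr rfl fun X _ => ?_
  rw [map_smul, Finsupp.smul_apply, Pre.repr_mul, smul_eq_mul]

/-- if only one summand is not zero, the coefficient is not zero -/
theorem repr_ne (D : Pre I S O) (T : S) (g : O) (P X : S) (hX : D.b.repr g X ≠ 0)
    (hco : D.co T X P ≠ 0)
    (h : ∀ X', D.b.repr g X' ≠ 0 → D.co T X' P ≠ 0 → X' = X) : D.b.repr (D.b T * g) P ≠ 0 := by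
  rw [repr_b_mul, Finset.sum_eq_single X]
  · exact mul_ne_zero hX (Nat.cast_ne_zero.2 hco)
  · intro X' hX' hne
    by_cases h0 : D.co T X' P = 0
    · rw [h0, Nat.cast_zero, mul_zero]
    · exact absurd (h X' (Finsupp.mem_support_iff.1 hX') h0) hne
  · intro hn
    exact absurd (Finsupp.mem_support_iff.2 hX) hn

/-- modulo the ideal `b T * g` is a multiple of `b Q₀` -/
theorem eq_of_ne (D : Pre I S O) {w : List I} {T Q₀ P : S} {g : O} {α : ℚ}
    (h : D.b T * g - α • D.b Q₀ ∈ D.Id w) (hP : D.Ad w P) (hne : D.b.repr (D.b T * g) P ≠ 0) :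
    P = Q₀ := by
  classical
  by_contra hc
  have h1 := (D.mem_Id).1 h P hP
  rw [map_sub, Finsupp.sub_apply, map_smul, Finsupp.smul_apply, Module.Basis.repr_self,
    Finsupp.single_apply, if_neg (fun e => hc e.symm), smul_zero, sub_zero] at h1
  exact hne h1

end XTOPF

open XTOPF in
theorem I_TOPF (D : Pre I S O) (hi : D.Inp) (h1 : D.StTop1) (h2 : D.StTop2) : D.StTopF := by
  classical
  intro Λ w M N z z₁ H g hg
  have hzad : D.Ad w z := H.mx.1.ad H.gen.mem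
  have hzsr : D.SR z := H.mx.1.sr H.gen.mem
  have hex : ∀ X, ∃ n₀ : ℕ, D.b.repr g X ≠ 0 → ∀ n ≥ n₀,
      (∀ T Z, D.b z ^ n = D.b T → D.Hd T X Z → D.b Z ∈ N) ∧
      (∀ Z, D.b.repr (D.b z ^ n * D.b X) Z ≠ 0 → D.SC z Z) := by
    intro X
    by_cases hX : D.b.repr g X = 0
    · exact ⟨0, fun h => absurd hX h⟩
    · obtain ⟨n1, hn1⟩ := h1 Λ w M N z z₁ H X (hg X hX)
      obtain ⟨n2, hn2⟩ := hi.ST w H.red z hzad hzsr X
      exact ⟨max n1 n2, fun _ n hn => ⟨hn1 n (le_trans (le_max_left _ _) hn),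
        hn2 n (le_trans (le_max_right _ _) hn)⟩⟩
  choose f hf using hex
  refine ⟨(D.b.repr g).support.sup f, ?_⟩
  intro n hn α Q₀ T hα hQ₀ hT hId
  have hfn : ∀ X, D.b.repr g X ≠ 0 → n ≥ f X := fun X hX =>
    le_trans (Finset.le_sup (Finsupp.mem_support_iff.2 hX)) hn
  -- the first claim
  have c1 : ∀ X, D.b.repr g X ≠ 0 → ∀ Q, D.co T X Q ≠ 0 → D.Ad w Q → D.b Q ∈ N := by
    intro X hX Q hQ hAd
    refine H.gen.cent Q hAd ((hf X hX n (hfn X hX)).2 Q ?_)
    rw [hT, Pre.repr_mul]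
    exact Nat.cast_ne_zero.2 hQ
  have c2 : ∀ X, D.b.repr g X ≠ 0 → ∀ Z, D.Hd T X Z → D.b Z ∈ N := fun X hX Z hZ =>
    (hf X hX n (hfn X hX)).1 T Z hT hZ
  refine ⟨c1, ?_⟩
  choose s hs using fun X => D.hd_ex T X
  have hsN : ∀ X, D.b.repr g X ≠ 0 → D.b (s X) ∈ N := fun X hX => c2 X hX _ (hs X)
  have hsu : ∀ X Z, D.Hd T X Z → Z = s X := fun X Z hZ =>
    hi.K1 w H.red z hzad hzsr n T hT X Z (s X) hZ (hs X)
  -- the support is not empty
  have hne : (D.b.repr g).support.Nonempty := by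
    by_contra hc
    rw [Finset.not_nonempty_iff_eq_empty, Finsupp.support_eq_empty] at hc
    have hg0 : g = 0 := by
      rw [← map_zero D.b.repr] at hc
      exact D.b.repr.injective hc
    have h3 := (D.mem_Id).1 hId Q₀ hQ₀
    rw [hg0, mul_zero, zero_sub, map_neg, Finsupp.neg_apply, map_smul, Finsupp.smul_apply,
      Module.Basis.repr_self, Finsupp.single_eq_same, smul_eq_mul, mul_one, neg_eq_zero] at h3
    exact hα h3
  obtain ⟨X₀, hX₀, hmax⟩ := Finset.exists_max_image _ (fun X => D.lam z (s X)) hne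
  rw [Finsupp.mem_support_iff] at hX₀
  -- the claim
  have cl : ∀ X, D.b.repr g X ≠ 0 → D.lam z (s X) = D.lam z (s X₀) → s X = Q₀ := by
    intro X hX hlam
    refine eq_of_ne D hId (H.mx.1.ad (hsN X hX)) (repr_ne D T g (s X) X hX (D.hd_co _ _ _ (hs X)) ?_)
    intro X' hX' hco
    obtain ⟨h3, h4⟩ := h2 Λ w M N z z₁ H X' n T (s X') hT (hs X') (hsN X' hX') (s X) hco
      (hsN X hX)
    have h5 : D.lam z (s X') ≤ D.lam z (s X₀) := hmax X' (Finsupp.mem_support_iff.2 hX')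
    have h6 : s X = s X' := h4 (le_antisymm h3 (by rw [hlam]; exact h5))
    exact hi.K4 w H.red z hzad hzsr n T hT X' X (s X) (by rw [h6]; exact hs X') (hs X)
  have e₀ : s X₀ = Q₀ := cl X₀ hX₀ rfl
  refine ⟨X₀, hX₀, by rw [← e₀]; exact hs X₀, ?_⟩
  intro X hX hne' Z hZ
  have hZs : Z = s X := hsu X Z hZ
  subst hZs
  refine ⟨hsN X hX, ?_⟩
  rw [← e₀]
  refine lt_of_le_of_ne (hmax X (Finsupp.mem_support_iff.2 hX)) ?_
  intro heq
  have h7 : s X = Q₀ := cl X hX heq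
  exact hne' (hi.K4 w H.red z hzad hzsr n T hT X X₀ Q₀ (by rw [← h7]; exact hs X)
    (by rw [← e₀]; exact hs X₀))

end Pool.Agent.KLT

end

section

/-! MP_e487d8_al, part 3, item ZORN: every family is contained in a maximal one. -/

set_option autoImplicit false

namespace Pool.Agent.KLT

variable {I S O : Type} [DecidableEq I] [CommRing O] [Algebra ℚ O]

theorem I_ZORN (D : Pre I S O) : D.StZorn := by
  intro w N hN
  obtain ⟨M, h1, h2⟩ := zorn_le_nonempty₀ {N : Submonoid O | D.Fam w N} (by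
    intro c hc hch y hy
    refine ⟨sSup c, ⟨fun x hx => ?_⟩, fun z hz => le_sSup hz⟩
    rw [Submonoid.mem_sSup_of_directedOn ⟨y, hy⟩ hch.directedOn] at hx
    obtain ⟨z, hz, hx⟩ := hx
    exact (hc hz).spl x hx) N hN
  exact ⟨M, h1, h2.1, fun N' hN' hle => le_antisymm (h2.2 hN' hle) hle⟩

end Pool.Agent.KLT

end
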