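import Pool.Agent.Work.MP_e487d8_al.Bd.B06
import Pool.Agent.Work.MP_e487d8_al.Bd.B03
import Pool.Agent.Work.MP_e487d8_al.Bd.B33
import Pool.Agent.Work.MP_e487d8_al.Bd.B05

/-! Bundle of small proof modules (one section per former module). -/

section

/-! MP_e487d8_al, abstract part: bounded length implies `PDag`. -/

set_option autoImplicit false

namespace Pool.Agent.KLSAbs

open scoped LaurentPolynomial

variable {I S O K : Type} [DecidableEq I] [CommRing O] [Algebra ℚ O] [Ring K]
  [Algebra ℤ[T;T⁻¹] K] (s : Sys2 I S O K)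

namespace Sys2

theorem sts : s.St_STS := I_STS s

/-- bounded length for `E_i C` implies `PDag` -/
theorem dag_of_st (i : I) (C : S) (hC : PSR s.b C) (h : 0 < s.eps i C) (hst : s.ST (s.E i C)) :
    PDag s.b s.Hd C :=
  I_DAG s (I_PH s) (I_PHP s) i C hC
    (I_ULB s (I_PHP s) (I_LB1 s) (I_LBP s (I_PHP s) (I_LB1 s) (I_GI s))
      (I_YFORM s (I_DEF s) (I_STS s)) i C hC h hst)

theorem dag_of_st0 (C : S) (hC : PSR s.b C) (hst : s.ST C) : PDag s.b s.Hd C :=
  I_DAG0 s (I_STS s) C hC hst

/-- the mirror -/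
theorem dag_of_st' (i : I) (C : S) (hC : PSR s.b C) (h : 0 < s.eps' i C)
    (hst : s.ST (s.E' i C)) : PDag s.b (fun X Y => s.Hd Y X) C :=
  s.op.dag_of_st i C hC h hst

theorem dag_of_st0' (C : S) (hC : PSR s.b C) (hst : s.ST C) :
    PDag s.b (fun X Y => s.Hd Y X) C :=
  s.op.dag_of_st0 C hC hst

end Sys2

end Pool.Agent.KLSAbs

end

section

/-! MP_e487d8_al, PBW block: recursion for `rV` and balancedness of `iota`. -/

set_option autoImplicit false

namespace Pool.Agent.KLS

variable {K I : Type} [Field K] [Fintype I] [DecidableEq I]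

namespace Pbw

variable {D : Datum K I} {P : Type} [AddCommGroup P] [Module K P]

open Loc

namespace Bal

/-! ### values of `rV` -/

theorem rV_e (h : S_rels D) (d : Loc D P) (k : ℕ) (i : I) : rV h d (D.e k i) = opE k i d :=
  liftHom_e _ k i
theorem rV_x (h : S_rels D) (d : Loc D P) (k : ℕ) : rV h d (D.x k) = opX k d := liftHom_x _ k
theorem rV_t (h : S_rels D) (d : Loc D P) (k : ℕ) : rV h d (D.t k) = opT k d := liftHom_t _ k

theorem rV_tl_false (h : S_rels D) (d : Loc D P) (a : KLRAlg D) : ∀ f : List Bool → P,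
    tl (K := K) false (rV h d (D.shn 1 a) f) = rV h d.shF a (tl (K := K) false f) := by
  refine KLRAlg.induction (P := fun a => ∀ f : List Bool → P,
    tl (K := K) false (rV h d (D.shn 1 a) f) = rV h d.shF a (tl (K := K) false f))
    ?_ ?_ ?_ ?_ ?_ ?_ a
  · intro r f
    rw [AlgHom.commutes, AlgHom.commutes, AlgHom.commutes, Module.algebraMap_end_apply,
      Module.algebraMap_end_apply, map_smul]
  · intro k i f
    rw [D.shn_e, rV_e, rV_e, Nat.add_comm 1 k]
    rfl
  · intro k f
    rw [D.shn_x, rV_x, rV_x, Nat.add_comm 1 k]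
    rfl
  · intro k f
    rw [D.shn_t, rV_t, rV_t, Nat.add_comm 1 k]
    rfl
  · intro a b ha hb f
    rw [map_add, map_add, map_add, LinearMap.add_apply, LinearMap.add_apply, map_add, ha, hb]
  · intro a b ha hb f
    rw [map_mul, map_mul, map_mul, Module.End.mul_apply, Module.End.mul_apply, ha, hb]

theorem rV_tl_true (h : S_rels D) (d : Loc D P) (a : KLRAlg D) : ∀ f : List Bool → P,
    tl (K := K) true (rV h d (D.shn 1 a) f) = rV h d.shT a (tl (K := K) true f) := by
  refine KLRAlg.induction (P := fun a => ∀ f : List Bool → P,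
    tl (K := K) true (rV h d (D.shn 1 a) f) = rV h d.shT a (tl (K := K) true f))
    ?_ ?_ ?_ ?_ ?_ ?_ a
  · intro r f
    rw [AlgHom.commutes, AlgHom.commutes, AlgHom.commutes, Module.algebraMap_end_apply,
      Module.algebraMap_end_apply, map_smul]
  · intro k i f
    rw [D.shn_e, rV_e, rV_e, Nat.add_comm 1 k]
    rfl
  · intro k f
    rw [D.shn_x, rV_x, rV_x, Nat.add_comm 1 k]
    rfl
  · intro k f
    rw [D.shn_t, rV_t, rV_t, Nat.add_comm 1 k]
    rfl
  · intro a b ha hb f
    rw [map_add, map_add, map_add, LinearMap.add_apply, LinearMap.add_apply, map_add, ha, hb]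
  · intro a b ha hb f
    rw [map_mul, map_mul, map_mul, Module.End.mul_apply, Module.End.mul_apply, ha, hb]

theorem rV_nil (h : S_rels D) (d : Loc D P) (a : KLRAlg D) : ∀ f : List Bool → P, f [] = 0 →
    rV h d a f [] = 0 := by
  refine KLRAlg.induction (P := fun a => ∀ f : List Bool → P, f [] = 0 → rV h d a f [] = 0)
    ?_ ?_ ?_ ?_ ?_ ?_ a
  · intro r f hf
    rw [AlgHom.commutes, Module.algebraMap_end_apply, Pi.smul_apply, hf, smul_zero]
  · intro k i f _
    rw [rV_e, opE_nil]
  · intro k f _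
    rw [rV_x, opX_nil]
  · intro k f _
    rw [rV_t, opT_nil]
  · intro a b ha hb f hf
    rw [map_add, LinearMap.add_apply, Pi.add_apply, ha f hf, hb f hf, add_zero]
  · intro a b ha hb f hf
    rw [map_mul, Module.End.mul_apply]
    exact ha _ (hb f hf)

end Bal

theorem prf_rV (D : Datum K I) : S_rV D := by
  intro h P _ _ d a f w
  exact ⟨congrFun (Bal.rV_tl_false h d a f) w, congrFun (Bal.rV_tl_true h d a f) w,
    Bal.rV_nil h d a f⟩

namespace Bal

/-! ### `iota` -/

theorem iota_apply (m n : ℕ) (p : P) (w : List Bool) : iota (K := K) m n p w =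
    if w = List.replicate m false ++ List.replicate n true then p else 0 := rfl

theorem tlF_iota_succ (m n : ℕ) (p : P) :
    tl (K := K) false (iota (K := K) (m + 1) n p) = iota (K := K) m n p := by
  funext w
  rw [tl_apply, iota_apply, iota_apply, List.replicate_succ, List.cons_append]
  simp only [List.cons.injEq, true_and]

theorem tlT_iota_succ (m n : ℕ) (p : P) :
    tl (K := K) true (iota (K := K) (m + 1) n p) = 0 := by
  funext w
  rw [tl_apply, iota_apply, List.replicate_succ, List.cons_append, if_neg]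
  · rfl
  · simp

theorem tlT_iota_zero (n : ℕ) (p : P) :
    tl (K := K) true (iota (K := K) 0 (n + 1) p) = iota (K := K) 0 n p := by
  funext w
  rw [tl_apply, iota_apply, iota_apply, List.replicate_succ]
  simp only [List.replicate_zero, List.nil_append, List.cons.injEq, true_and]

theorem tlF_iota_zero (n : ℕ) (p : P) :
    tl (K := K) false (iota (K := K) 0 n p) = 0 := by
  funext w
  rw [tl_apply, iota_apply, if_neg]
  · rfl
  · cases n with
    | zero => simp
    | succ n => simp [List.replicate_succ]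

theorem tlT_iota_zero_zero (p : P) :
    tl (K := K) true (iota (K := K) 0 0 p) = 0 := by
  funext w
  rw [tl_apply, iota_apply, if_neg]
  · rfl
  · simp

theorem iota_nil_succ (m n : ℕ) (p : P) : iota (K := K) (m + 1) n p [] = 0 := by
  rw [iota_apply, List.replicate_succ, List.cons_append, if_neg]
  simp

theorem iota_nil_zero (n : ℕ) (p : P) : iota (K := K) 0 (n + 1) p [] = 0 := by
  rw [iota_apply, List.replicate_succ, if_neg]
  simp

theorem post_iota (g : Module.End K P) (m n : ℕ) (p : P) :
    post g (iota (K := K) m n p) = iota (K := K) m n (g p) := by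
  funext w
  rw [post_apply, iota_apply, iota_apply, apply_ite g, map_zero]

/-! ### generators, first action -/

theorem opE_iota (i : I) (n : ℕ) (p : P) (k : ℕ) : ∀ (m : ℕ) (d : Loc D P), k < m →
    opE k i d (iota (K := K) m n p) = iota (K := K) m n (d.r1 (D.e k i) p) := by
  induction k with
  | zero =>
    intro m d hm
    obtain ⟨m, rfl⟩ : ∃ m', m = m' + 1 := ⟨m - 1, by omega⟩
    apply ext_tl (K := K)
    · rw [opE_nil, iota_nil_succ]
    · rw [opE_zero, tl_glue_false, tlF_iota_succ, tlF_iota_succ, post_iota]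
    · rw [opE_zero, tl_glue_true, tlT_iota_succ, tlT_iota_succ, map_zero]
  | succ k ih =>
    intro m d hm
    obtain ⟨m, rfl⟩ : ∃ m', m = m' + 1 := ⟨m - 1, by omega⟩
    apply ext_tl (K := K)
    · rw [opE_nil, iota_nil_succ]
    · rw [opE_succ, tl_glue_false, tlF_iota_succ, tlF_iota_succ, ih m d.shF (by omega), shF_r1,
        D.shn_e, Nat.add_comm 1 k]
    · rw [opE_succ, tl_glue_true, tlT_iota_succ, tlT_iota_succ, map_zero]

theorem opX_iota (n : ℕ) (p : P) (k : ℕ) : ∀ (m : ℕ) (d : Loc D P), k < m →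
    opX k d (iota (K := K) m n p) = iota (K := K) m n (d.r1 (D.x k) p) := by
  induction k with
  | zero =>
    intro m d hm
    obtain ⟨m, rfl⟩ : ∃ m', m = m' + 1 := ⟨m - 1, by omega⟩
    apply ext_tl (K := K)
    · rw [opX_nil, iota_nil_succ]
    · rw [opX_zero, tl_glue_false, tlF_iota_succ, tlF_iota_succ, post_iota]
    · rw [opX_zero, tl_glue_true, tlT_iota_succ, tlT_iota_succ, map_zero]
  | succ k ih =>
    intro m d hm
    obtain ⟨m, rfl⟩ : ∃ m', m = m' + 1 := ⟨m - 1, by omega⟩
    apply ext_tl (K := K)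
    · rw [opX_nil, iota_nil_succ]
    · rw [opX_succ, tl_glue_false, tlF_iota_succ, tlF_iota_succ, ih m d.shF (by omega), shF_r1,
        D.shn_x, Nat.add_comm 1 k]
    · rw [opX_succ, tl_glue_true, tlT_iota_succ, tlT_iota_succ, map_zero]

theorem opT_iota (n : ℕ) (p : P) (k : ℕ) : ∀ (m : ℕ) (d : Loc D P), k + 1 < m →
    opT k d (iota (K := K) m n p) = iota (K := K) m n (d.r1 (D.t k) p) := by
  induction k with
  | zero =>
    intro m d hm
    obtain ⟨m, rfl⟩ : ∃ m', m = m' + 2 := ⟨m - 2, by omega⟩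
    have hr : List.replicate (m + 2) false ++ List.replicate n true =
        false :: false :: (List.replicate m false ++ List.replicate n true) := by
      rw [List.replicate_succ, List.replicate_succ]
      rfl
    funext w
    rw [opT_zero]
    match w with
    | [] => rw [T0_nil, iota_apply, hr, if_neg (by simp)]
    | [b] => rw [T0_one, iota_apply, hr, if_neg (by simp)]
    | false :: false :: w =>
      rw [T0_FF, iota_apply, iota_apply, apply_ite (d.r1 (D.t 0)), map_zero]
    | true :: true :: w =>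
      rw [T0_TT, iota_apply, iota_apply, hr, if_neg (by simp), if_neg (by simp), map_zero]
    | false :: true :: w =>
      rw [T0_FT, iota_apply, iota_apply, iota_apply, hr, if_neg (by simp), if_neg (by simp),
        if_neg (by simp), map_zero, map_zero, sub_zero]
    | true :: false :: w =>
      rw [T0_TF, iota_apply, iota_apply, iota_apply, hr, if_neg (by simp), if_neg (by simp),
        if_neg (by simp), map_zero, map_zero, add_zero]
  | succ k ih =>
    intro m d hm
    obtain ⟨m, rfl⟩ : ∃ m', m = m' + 1 := ⟨m - 1, by omega⟩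
    apply ext_tl (K := K)
    · rw [opT_nil, iota_nil_succ]
    · rw [opT_succ, tl_glue_false, tlF_iota_succ, tlF_iota_succ, ih m d.shF (by omega), shF_r1,
        D.shn_t, Nat.add_comm 1 k]
    · rw [opT_succ, tl_glue_true, tlT_iota_succ, tlT_iota_succ, map_zero]

/-! ### generators, second action -/

theorem opE_iota' (i : I) (p : P) (k : ℕ) : ∀ (n : ℕ) (d : Loc D P), k < n →
    opE k i d (iota (K := K) 0 n p) = iota (K := K) 0 n (d.r2 (D.e k i) p) := by
  induction k with
  | zero =>
    intro n d hn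
    obtain ⟨n, rfl⟩ : ∃ n', n = n' + 1 := ⟨n - 1, by omega⟩
    apply ext_tl (K := K)
    · rw [opE_nil, iota_nil_zero]
    · rw [opE_zero, tl_glue_false, tlF_iota_zero, tlF_iota_zero, map_zero]
    · rw [opE_zero, tl_glue_true, tlT_iota_zero, tlT_iota_zero, post_iota]
  | succ k ih =>
    intro n d hn
    obtain ⟨n, rfl⟩ : ∃ n', n = n' + 1 := ⟨n - 1, by omega⟩
    apply ext_tl (K := K)
    · rw [opE_nil, iota_nil_zero]
    · rw [opE_succ, tl_glue_false, tlF_iota_zero, tlF_iota_zero, map_zero]
    · rw [opE_succ, tl_glue_true, tlT_iota_zero, tlT_iota_zero, ih n d.shT (by omega), shT_r2,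
        D.shn_e, Nat.add_comm 1 k]

theorem opX_iota' (p : P) (k : ℕ) : ∀ (n : ℕ) (d : Loc D P), k < n →
    opX k d (iota (K := K) 0 n p) = iota (K := K) 0 n (d.r2 (D.x k) p) := by
  induction k with
  | zero =>
    intro n d hn
    obtain ⟨n, rfl⟩ : ∃ n', n = n' + 1 := ⟨n - 1, by omega⟩
    apply ext_tl (K := K)
    · rw [opX_nil, iota_nil_zero]
    · rw [opX_zero, tl_glue_false, tlF_iota_zero, tlF_iota_zero, map_zero]
    · rw [opX_zero, tl_glue_true, tlT_iota_zero, tlT_iota_zero, post_iota]
  | succ k ih =>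
    intro n d hn
    obtain ⟨n, rfl⟩ : ∃ n', n = n' + 1 := ⟨n - 1, by omega⟩
    apply ext_tl (K := K)
    · rw [opX_nil, iota_nil_zero]
    · rw [opX_succ, tl_glue_false, tlF_iota_zero, tlF_iota_zero, map_zero]
    · rw [opX_succ, tl_glue_true, tlT_iota_zero, tlT_iota_zero, ih n d.shT (by omega), shT_r2,
        D.shn_x, Nat.add_comm 1 k]

theorem opT_iota' (p : P) (k : ℕ) : ∀ (n : ℕ) (d : Loc D P), k + 1 < n →
    opT k d (iota (K := K) 0 n p) = iota (K := K) 0 n (d.r2 (D.t k) p) := by
  induction k with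
  | zero =>
    intro n d hn
    obtain ⟨n, rfl⟩ : ∃ n', n = n' + 2 := ⟨n - 2, by omega⟩
    have hr : List.replicate 0 false ++ List.replicate (n + 2) true =
        true :: true :: List.replicate n true := by
      rw [List.replicate_succ, List.replicate_succ]
      rfl
    funext w
    rw [opT_zero]
    match w with
    | [] => rw [T0_nil, iota_apply, hr, if_neg (by simp)]
    | [b] => rw [T0_one, iota_apply, hr, if_neg (by simp)]
    | true :: true :: w =>
      rw [T0_TT, iota_apply, iota_apply, apply_ite (d.r2 (D.t 0)), map_zero]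
    | false :: false :: w =>
      rw [T0_FF, iota_apply, iota_apply, hr, if_neg (by simp), if_neg (by simp), map_zero]
    | false :: true :: w =>
      rw [T0_FT, iota_apply, iota_apply, iota_apply, hr, if_neg (by simp), if_neg (by simp),
        if_neg (by simp), map_zero, map_zero, sub_zero]
    | true :: false :: w =>
      rw [T0_TF, iota_apply, iota_apply, iota_apply, hr, if_neg (by simp), if_neg (by simp),
        if_neg (by simp), map_zero, map_zero, add_zero]
  | succ k ih =>
    intro n d hn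
    obtain ⟨n, rfl⟩ : ∃ n', n = n' + 1 := ⟨n - 1, by omega⟩
    apply ext_tl (K := K)
    · rw [opT_nil, iota_nil_zero]
    · rw [opT_succ, tl_glue_false, tlF_iota_zero, tlF_iota_zero, map_zero]
    · rw [opT_succ, tl_glue_true, tlT_iota_zero, tlT_iota_zero, ih n d.shT (by omega), shT_r2,
        D.shn_t, Nat.add_comm 1 k]

/-! ### generators beyond the last strand -/

theorem opE_iota_out (i : I) (p : P) (k : ℕ) : ∀ (n : ℕ) (d : Loc D P), n ≤ k →
    opE k i d (iota (K := K) 0 n p) = 0 := by
  induction k with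
  | zero =>
    intro n d hn
    obtain rfl : n = 0 := by omega
    apply ext_tl (K := K)
    · rw [opE_nil]; rfl
    · rw [opE_zero, tl_glue_false, tlF_iota_zero, map_zero, map_zero]
    · rw [opE_zero, tl_glue_true, tlT_iota_zero_zero, map_zero, map_zero]
  | succ k ih =>
    intro n d hn
    apply ext_tl (K := K)
    · rw [opE_nil]; rfl
    · rw [opE_succ, tl_glue_false, tlF_iota_zero, map_zero, map_zero]
    · rw [opE_succ, tl_glue_true, map_zero]
      cases n with
      | zero => rw [tlT_iota_zero_zero, map_zero]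
      | succ n => rw [tlT_iota_zero]; exact ih n d.shT (by omega)

theorem opX_iota_out (p : P) (k : ℕ) : ∀ (n : ℕ) (d : Loc D P), n ≤ k →
    opX k d (iota (K := K) 0 n p) = 0 := by
  induction k with
  | zero =>
    intro n d hn
    obtain rfl : n = 0 := by omega
    apply ext_tl (K := K)
    · rw [opX_nil]; rfl
    · rw [opX_zero, tl_glue_false, tlF_iota_zero, map_zero, map_zero]
    · rw [opX_zero, tl_glue_true, tlT_iota_zero_zero, map_zero, map_zero]
  | succ k ih =>
    intro n d hn
    apply ext_tl (K := K)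
    · rw [opX_nil]; rfl
    · rw [opX_succ, tl_glue_false, tlF_iota_zero, map_zero, map_zero]
    · rw [opX_succ, tl_glue_true, map_zero]
      cases n with
      | zero => rw [tlT_iota_zero_zero, map_zero]
      | succ n => rw [tlT_iota_zero]; exact ih n d.shT (by omega)

theorem opT_iota_out (p : P) (k : ℕ) : ∀ (n : ℕ) (d : Loc D P), n ≤ k + 1 →
    opT k d (iota (K := K) 0 n p) = 0 := by
  induction k with
  | zero =>
    intro n d hn
    have key : ∀ (b b' : Bool) (w : List Bool), iota (K := K) 0 n p (b :: b' :: w) = 0 := by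
      intro b b' w
      rw [iota_apply, if_neg]
      intro h
      have := congrArg List.length h
      simp at this
      omega
    funext w
    rw [opT_zero]
    match w with
    | [] => rfl
    | [b] => rw [T0_one]; rfl
    | true :: true :: w => rw [T0_TT, key, map_zero]; rfl
    | false :: false :: w => rw [T0_FF, key, map_zero]; rfl
    | false :: true :: w => rw [T0_FT, key, key, map_zero, map_zero, sub_zero]; rfl
    | true :: false :: w => rw [T0_TF, key, key, map_zero, map_zero, add_zero]; rfl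
  | succ k ih =>
    intro n d hn
    apply ext_tl (K := K)
    · rw [opT_nil]; rfl
    · rw [opT_succ, tl_glue_false, tlF_iota_zero, map_zero, map_zero]
    · rw [opT_succ, tl_glue_true, map_zero]
      cases n with
      | zero => rw [tlT_iota_zero_zero, map_zero]
      | succ n => rw [tlT_iota_zero]; exact ih n d.shT (by omega)

/-! ### strand actions -/

theorem E_zero {n : ℕ} {r : KLRAlg D →ₐ[K] Module.End K P} (h : StrandHom D n r) {k : ℕ}
    (hk : n ≤ k) : r (D.E k) = 0 := by
  unfold Datum.E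
  rw [map_sum]
  exact Finset.sum_eq_zero fun i _ => h.zero k hk i

theorem x_zero {n : ℕ} {r : KLRAlg D →ₐ[K] Module.End K P} (h : StrandHom D n r) {k : ℕ}
    (hk : n ≤ k) : r (D.x k) = 0 := by
  rw [← D.x_E, map_mul, E_zero h hk, mul_zero]

theorem t_zero {n : ℕ} {r : KLRAlg D →ₐ[K] Module.End K P} (h : StrandHom D n r) {k : ℕ}
    (hk : n ≤ k + 1) : r (D.t k) = 0 := by
  rw [← D.t_E', map_mul, E_zero h hk, mul_zero]

theorem strand_shF {m : ℕ} {d : Loc D P} (h : StrandHom D (m + 1) d.r1) :
    StrandHom D m d.shF.r1 := by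
  refine ⟨fun k hk => ?_, fun k hk i => ?_⟩
  · rw [shF_r1, D.shn_E]
    exact h.one _ (by omega)
  · rw [shF_r1, D.shn_e]
    exact h.zero _ (by omega) i

theorem bal_first (h : S_rels D) (d : Loc D P) (m n : ℕ) (h1 : StrandHom D m d.r1)
    (a : KLRAlg D) : ∀ p : P,
      rV h d (D.tr m a) (iota (K := K) m n p) = iota (K := K) m n (d.r1 a p) := by
  refine KLRAlg.induction (P := fun a => ∀ p : P,
      rV h d (D.tr m a) (iota (K := K) m n p) = iota (K := K) m n (d.r1 a p))
    ?_ ?_ ?_ ?_ ?_ ?_ a
  · intro r p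
    rw [AlgHom.commutes, AlgHom.commutes, AlgHom.commutes, Module.algebraMap_end_apply,
      Module.algebraMap_end_apply, map_smul]
  · intro k i p
    rw [D.tr_e]
    by_cases hk : k < m
    · rw [if_pos hk, rV_e, opE_iota i n p k m d hk]
    · rw [if_neg hk, h1.zero k (by omega) i, map_zero, LinearMap.zero_apply, LinearMap.zero_apply,
        map_zero]
  · intro k p
    rw [D.tr_x]
    by_cases hk : k < m
    · rw [if_pos hk, rV_x, opX_iota n p k m d hk]
    · rw [if_neg hk, x_zero h1 (by omega), map_zero, LinearMap.zero_apply, LinearMap.zero_apply,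
        map_zero]
  · intro k p
    rw [D.tr_t]
    by_cases hk : k + 1 < m
    · rw [if_pos hk, rV_t, opT_iota n p k m d hk]
    · rw [if_neg hk, t_zero h1 (by omega), map_zero, LinearMap.zero_apply, LinearMap.zero_apply,
        map_zero]
  · intro a b ha hb p
    rw [map_add, map_add, map_add, LinearMap.add_apply, LinearMap.add_apply, map_add, ha, hb]
  · intro a b ha hb p
    rw [map_mul, map_mul, map_mul, Module.End.mul_apply, Module.End.mul_apply, hb, ha]

theorem bal_zero (h : S_rels D) (d : Loc D P) (n : ℕ) (h2 : StrandHom D n d.r2)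
    (a : KLRAlg D) : ∀ p : P,
      rV h d a (iota (K := K) 0 n p) = iota (K := K) 0 n (d.r2 a p) := by
  refine KLRAlg.induction (P := fun a => ∀ p : P,
      rV h d a (iota (K := K) 0 n p) = iota (K := K) 0 n (d.r2 a p))
    ?_ ?_ ?_ ?_ ?_ ?_ a
  · intro r p
    rw [AlgHom.commutes, AlgHom.commutes, Module.algebraMap_end_apply,
      Module.algebraMap_end_apply, map_smul]
  · intro k i p
    by_cases hk : k < n
    · rw [rV_e, opE_iota' i p k n d hk]
    · rw [rV_e, opE_iota_out i p k n d (by omega), h2.zero k (by omega) i, LinearMap.zero_apply,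
        map_zero]
  · intro k p
    by_cases hk : k < n
    · rw [rV_x, opX_iota' p k n d hk]
    · rw [rV_x, opX_iota_out p k n d (by omega), x_zero h2 (by omega), LinearMap.zero_apply,
        map_zero]
  · intro k p
    by_cases hk : k + 1 < n
    · rw [rV_t, opT_iota' p k n d hk]
    · rw [rV_t, opT_iota_out p k n d (by omega), t_zero h2 (by omega), LinearMap.zero_apply,
        map_zero]
  · intro a b ha hb p
    rw [map_add, map_add, LinearMap.add_apply, LinearMap.add_apply, map_add, ha, hb]
  · intro a b ha hb p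
    rw [map_mul, map_mul, Module.End.mul_apply, Module.End.mul_apply, hb, ha]

theorem bal_second (h : S_rels D) (n : ℕ) (p : P) (m : ℕ) : ∀ (d : Loc D P),
    StrandHom D m d.r1 → StrandHom D n d.r2 → ∀ a : KLRAlg D,
      rV h d (D.shn m a) (iota (K := K) m n p) = iota (K := K) m n (d.r2 a p) := by
  induction m with
  | zero =>
    intro d _ h2 a
    rw [D.shn_zero]
    exact bal_zero h d n h2 a p
  | succ m ih =>
    intro d h1 h2 a
    rw [Nat.add_comm m 1, ← D.shn_shn 1 m a, Nat.add_comm 1 m]
    apply ext_tl (K := K)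
    · rw [rV_nil h d _ _ (iota_nil_succ m n p), iota_nil_succ]
    · rw [rV_tl_false, tlF_iota_succ, tlF_iota_succ, ih d.shF (strand_shF h1) h2 a, shF_r2]
    · rw [rV_tl_true, tlT_iota_succ, tlT_iota_succ, map_zero]

end Bal

theorem prf_bal (D : Datum K I) (_ : S_rV D) : S_bal D := by
  intro h P _ _ d m n h1 h2 a p
  exact ⟨Bal.bal_first h d m n h1 a p, Bal.bal_second h n p m d h1 h2 a⟩

end Pbw

end Pool.Agent.KLS

end

section

/-! MP_e487d8_al, PBW block: the shuffle basis theorem for all modules from the regular modules. -/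

set_option autoImplicit false

open scoped TensorProduct

namespace Pool.Agent.KLS

variable {K I : Type} [Field K] [Fintype I] [DecidableEq I]

namespace Pbw

namespace ICoord

variable {D : Datum K I}

theorem zinj_reg (hzn : S_zn D) (m n : ℕ) : ZInj D (Reg D m) (Reg D n) m n := by
  have h := hzn m n (Reg D m) (fun i => Algebra.lsmul K K (Reg D m) (D.x i)) (by
    intro i j
    rw [← map_mul, ← map_mul, D.x_comm])
  exact h

theorem mk_eq_smul (n : ℕ) (a : KLRAlg D) : Reg.mk D n a = a • Reg.mk D n 1 := by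
  rw [← map_smul, smul_eq_mul, mul_one]

theorem mk_surj (n : ℕ) (r : Reg D n) : ∃ a, Reg.mk D n a = r :=
  Submodule.mkQ_surjective (Jn D n) r

section ev

variable {M : Type} [AddCommGroup M] [Module K M] [Module (KLRAlg D) M]
  [IsScalarTower K (KLRAlg D) M] {n : ℕ}

/-- the evaluation `Reg D n → M`, `1 ↦ u` -/
noncomputable def evA (hreg : S_reg D) (hM : IsStrand D n M) (u : M) :
    Reg D n →ₗ[KLRAlg D] M := ((hreg n).2.1 M hM u).choose

theorem evA_mk (hreg : S_reg D) (hM : IsStrand D n M) (u : M) (a : KLRAlg D) :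
    evA hreg hM u (Reg.mk D n a) = a • u := ((hreg n).2.1 M hM u).choose_spec a

/-- the evaluation as a bilinear map -/
noncomputable def ev (hreg : S_reg D) (hM : IsStrand D n M) : M →ₗ[K] Reg D n →ₗ[K] M :=
  LinearMap.mk₂ K (fun u r => evA hreg hM u r)
    (by
      intro u u' r
      obtain ⟨a, rfl⟩ := mk_surj n r
      rw [evA_mk, evA_mk, evA_mk, smul_add])
    (by
      intro c u r
      obtain ⟨a, rfl⟩ := mk_surj n r
      rw [evA_mk, evA_mk, smul_comm])
    (by
      intro u r r'
      exact map_add _ _ _)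
    (by
      intro c u r
      exact (Conv.toK (evA hreg hM u)).map_smul c r)

theorem ev_mk (hreg : S_reg D) (hM : IsStrand D n M) (u : M) (a : KLRAlg D) :
    ev hreg hM u (Reg.mk D n a) = a • u := evA_mk hreg hM u a

/-- right multiplication -/
noncomputable def rm (hreg : S_reg D) (n : ℕ) (b : KLRAlg D) :
    Reg D n →ₗ[KLRAlg D] Reg D n := ((hreg n).2.2 b).choose

theorem rm_mk (hreg : S_reg D) (n : ℕ) (a b : KLRAlg D) :
    rm hreg n b (Reg.mk D n a) = Reg.mk D n (a * b) := ((hreg n).2.2 b).choose_spec a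

theorem ev_rm (hreg : S_reg D) (hM : IsStrand D n M) (u : M) (b : KLRAlg D) :
    (ev hreg hM u) ∘ₗ (Conv.toK (rm hreg n b)) = ev hreg hM (b • u) := by
  ext r
  obtain ⟨a, rfl⟩ := mk_surj n r
  rw [LinearMap.comp_apply, Conv.toK_apply, rm_mk, ev_mk, ev_mk, mul_smul]

end ev

section coord

variable {m n : ℕ}

/-- functoriality of the coordinates -/
theorem map_convSum {M N M' N' : Type} [AddCommGroup M] [Module K M] [Module (KLRAlg D) M]
    [IsScalarTower K (KLRAlg D) M] [AddCommGroup N] [Module K N] [Module (KLRAlg D) N]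
    [IsScalarTower K (KLRAlg D) N] [AddCommGroup M'] [Module K M'] [Module (KLRAlg D) M']
    [IsScalarTower K (KLRAlg D) M'] [AddCommGroup N'] [Module K N'] [Module (KLRAlg D) N']
    [IsScalarTower K (KLRAlg D) N'] (f : M →ₗ[KLRAlg D] M') (g : N →ₗ[KLRAlg D] N')
    (F : Shf m n →₀ (M ⊗[K] N)) :
    Conv.map (rfl : m = m) f g (convSum D m n M N F) =
      convSum D m n M' N' (Finsupp.mapRange.linearMap
        (TensorProduct.map (Conv.toK f) (Conv.toK g)) F) := by
  have h : (Conv.toK (Conv.map (rfl : m = m) f g)) ∘ₗ (convSum D m n M N) =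
      (convSum D m n M' N') ∘ₗ (Finsupp.mapRange.linearMap
        (TensorProduct.map (Conv.toK f) (Conv.toK g))) := by
    apply Finsupp.lhom_ext'
    intro w
    apply TensorProduct.ext'
    intro u v
    simp only [LinearMap.comp_apply, Finsupp.lsingle_apply, Finsupp.mapRange.linearMap_apply,
      Finsupp.mapRange_single, TensorProduct.map_tmul, Conv.toK_apply]
    rw [convSum_single, convSum_single, map_smul, Conv.map_mk]
  exact LinearMap.congr_fun h F

variable (hb : Function.Bijective (convSum D m n (Reg D m) (Reg D n)))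

/-- the coordinates -/
noncomputable def co (w : Shf m n) : Conv D m (Reg D m) (Reg D n) →ₗ[K] (Reg D m ⊗[K] Reg D n) :=
  (Finsupp.lapply w).comp (LinearEquiv.ofBijective _ hb).symm.toLinearMap

theorem co_convSum (w : Shf m n) (F : Shf m n →₀ (Reg D m ⊗[K] Reg D n)) :
    co hb w (convSum D m n (Reg D m) (Reg D n) F) = F w := by
  unfold co
  rw [LinearMap.comp_apply]
  have h : (LinearEquiv.ofBijective _ hb).symm (convSum D m n (Reg D m) (Reg D n) F) = F :=
    (LinearEquiv.ofBijective _ hb).symm_apply_apply F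
  rw [LinearEquiv.coe_coe, h]
  rfl

theorem co_map (w : Shf m n) (f : Reg D m →ₗ[KLRAlg D] Reg D m)
    (g : Reg D n →ₗ[KLRAlg D] Reg D n) (z : Conv D m (Reg D m) (Reg D n)) :
    co hb w (Conv.map (rfl : m = m) f g z) =
      TensorProduct.map (Conv.toK f) (Conv.toK g) (co hb w z) := by
  obtain ⟨F, rfl⟩ := hb.2 z
  rw [map_convSum, co_convSum, co_convSum]
  rfl

variable (m n) in
/-- the generator -/
noncomputable def gen : Conv D m (Reg D m) (Reg D n) :=
  Conv.mk D m (Reg D m) (Reg D n) (Reg.mk D m 1) (Reg.mk D n 1)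

/-- the coordinates of `a` -/
noncomputable def cc (w : Shf m n) : KLRAlg D →ₗ[K] (Reg D m ⊗[K] Reg D n) :=
  (co hb w).comp ((LinearMap.toSpanSingleton (KLRAlg D) _ (gen m n)).restrictScalars K)

theorem cc_apply (w : Shf m n) (a : KLRAlg D) : cc hb w a = co hb w (a • gen m n) := rfl

theorem cc_tw [DecidableEq (Shf m n)] (w w' : Shf m n) :
    cc hb w (D.tw w'.1) = if w' = w then Reg.mk D m 1 ⊗ₜ Reg.mk D n 1 else 0 := by
  rw [cc_apply, gen, ← convSum_single, co_convSum, Finsupp.single_apply]

theorem cc_tr (hreg : S_reg D) (w : Shf m n) (b a : KLRAlg D) :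
    cc hb w (b * D.tr m a) =
      TensorProduct.map (Conv.toK (rm hreg m a)) LinearMap.id (cc hb w b) := by
  have h1 : (b * D.tr m a) • (gen m n : Conv D m (Reg D m) (Reg D n)) =
      Conv.map (rfl : m = m) (rm hreg m a) LinearMap.id (b • gen m n) := by
    rw [map_smul, gen, Conv.map_mk, mul_smul, Conv.tr_smul_mk, rm_mk, one_mul,
      ← mk_eq_smul, LinearMap.id_apply]
  rw [cc_apply, h1, co_map]
  rfl

theorem cc_shn (hreg : S_reg D) (w : Shf m n) (b a : KLRAlg D) :
    cc hb w (b * D.shn m a) =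
      TensorProduct.map LinearMap.id (Conv.toK (rm hreg n a)) (cc hb w b) := by
  have h1 : (b * D.shn m a) • (gen m n : Conv D m (Reg D m) (Reg D n)) =
      Conv.map (rfl : m = m) LinearMap.id (rm hreg n a) (b • gen m n) := by
    rw [map_smul, gen, Conv.map_mk, mul_smul, Conv.shn_smul_mk, rm_mk, one_mul,
      ← mk_eq_smul, LinearMap.id_apply]
  rw [cc_apply, h1, co_map]
  rfl

variable {M N : Type} [AddCommGroup M] [Module K M] [Module (KLRAlg D) M]
  [IsScalarTower K (KLRAlg D) M] [AddCommGroup N] [Module K N] [Module (KLRAlg D) N]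
  [IsScalarTower K (KLRAlg D) N]

/-- evaluation on both factors -/
noncomputable def ev2 (hreg : S_reg D) (hM : IsStrand D m M) (hN : IsStrand D n N) :
    (M ⊗[K] N) →ₗ[K] (Reg D m ⊗[K] Reg D n) →ₗ[K] (M ⊗[K] N) :=
  TensorProduct.lift
    ((TensorProduct.mapBilinear (RingHom.id K) (Reg D m) (Reg D n) M N).compl₁₂ (ev hreg hM)
      (ev hreg hN))

theorem ev2_tmul (hreg : S_reg D) (hM : IsStrand D m M) (hN : IsStrand D n N) (u : M) (v : N) :
    ev2 hreg hM hN (u ⊗ₜ v) = TensorProduct.map (ev hreg hM u) (ev hreg hN v) := by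
  unfold ev2
  rw [TensorProduct.lift.tmul]
  rfl

/-- the map which gives the coordinates -/
noncomputable def psi (hreg : S_reg D) (hM : IsStrand D m M) (hN : IsStrand D n N)
    (w : Shf m n) : (KLRAlg D ⊗[K] (M ⊗[K] N)) →ₗ[K] (M ⊗[K] N) :=
  TensorProduct.lift (LinearMap.mk₂ K (fun a z => ev2 hreg hM hN z (cc hb w a))
    (by intro a a' z; rw [map_add, map_add])
    (by intro c a z; rw [map_smul, map_smul])
    (by intro a z z'; rw [map_add, LinearMap.add_apply])
    (by intro c a z; rw [map_smul, LinearMap.smul_apply]))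

theorem psi_tmul (hreg : S_reg D) (hM : IsStrand D m M) (hN : IsStrand D n N)
    (w : Shf m n) (a : KLRAlg D) (z : M ⊗[K] N) :
    psi hb hreg hM hN w (a ⊗ₜ z) = ev2 hreg hM hN z (cc hb w a) := by
  unfold psi
  rw [TensorProduct.lift.tmul]
  rfl

theorem psi_rel (hreg : S_reg D) (hM : IsStrand D m M) (hN : IsStrand D n N)
    (w : Shf m n) (z : KLRAlg D ⊗[K] (M ⊗[K] N)) (hz : z ∈ convRel D m M N) :
    psi hb hreg hM hN w z = 0 := by
  have key : ∀ b : KLRAlg D, psi hb hreg hM hN w (b • z) = 0 := by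
    unfold convRel at hz
    induction hz using Submodule.span_induction with
    | zero => intro b; rw [smul_zero, map_zero]
    | add y z _ _ hy hz => intro b; rw [smul_add, map_add, hy, hz, add_zero]
    | smul a z _ hz => intro b; rw [← mul_smul]; exact hz _
    | mem z hz =>
      intro b
      rcases hz with ⟨a, u, v, rfl⟩ | ⟨a, u, v, rfl⟩
      · rw [smul_sub, TensorProduct.smul_tmul', TensorProduct.smul_tmul', smul_eq_mul,
          smul_eq_mul, mul_one, map_sub, psi_tmul, psi_tmul, cc_tr hb hreg, ev2_tmul, ev2_tmul,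
          ← LinearMap.comp_apply, ← TensorProduct.map_comp, ev_rm, LinearMap.comp_id, sub_self]
      · rw [smul_sub, TensorProduct.smul_tmul', TensorProduct.smul_tmul', smul_eq_mul,
          smul_eq_mul, mul_one, map_sub, psi_tmul, psi_tmul, cc_shn hb hreg, ev2_tmul, ev2_tmul,
          ← LinearMap.comp_apply, ← TensorProduct.map_comp, ev_rm, LinearMap.comp_id, sub_self]
  have h := key 1
  rwa [one_smul] at h

/-- the lift of `convSum` -/
noncomputable def lf (D : Datum K I) (m n : ℕ) (M N : Type) [AddCommGroup M] [Module K M]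
    [AddCommGroup N] [Module K N] :
    (Shf m n →₀ (M ⊗[K] N)) →ₗ[K] (KLRAlg D ⊗[K] (M ⊗[K] N)) :=
  Finsupp.lsum K fun w => TensorProduct.mk K (KLRAlg D) (M ⊗[K] N) (D.tw w.1)

theorem quot_lf (F : Shf m n →₀ (M ⊗[K] N)) :
    Conv.quot D m M N (lf D m n M N F) = convSum D m n M N F := by
  have h : ((Conv.quot D m M N).restrictScalars K) ∘ₗ (lf D m n M N) = convSum D m n M N := by
    apply Finsupp.lhom_ext'
    intro w
    apply TensorProduct.ext'
    intro u v
    simp only [LinearMap.comp_apply, Finsupp.lsingle_apply, LinearMap.coe_restrictScalars]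
    rw [convSum_single, lf, Finsupp.lsum_single, TensorProduct.mk_apply, Conv.quot_tmul]
  exact LinearMap.congr_fun h F

theorem psi_lf (hreg : S_reg D) (hM : IsStrand D m M) (hN : IsStrand D n N)
    (w : Shf m n) (F : Shf m n →₀ (M ⊗[K] N)) :
    psi hb hreg hM hN w (lf D m n M N F) = F w := by
  classical
  have h : (psi hb hreg hM hN w) ∘ₗ (lf D m n M N) = Finsupp.lapply w := by
    apply Finsupp.lhom_ext'
    intro w'
    apply TensorProduct.ext'
    intro u v
    simp only [LinearMap.comp_apply, Finsupp.lsingle_apply, Finsupp.lapply_apply]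
    rw [lf, Finsupp.lsum_single, TensorProduct.mk_apply, psi_tmul, cc_tw, ev2_tmul,
      Finsupp.single_apply]
    split_ifs with hw
    · rw [TensorProduct.map_tmul, ev_mk, ev_mk, one_smul, one_smul]
    · rw [map_zero]
  exact LinearMap.congr_fun h F

end coord

end ICoord

open ICoord in
/-- the shuffle basis theorem -/
theorem prf_basis (D : Datum K I) (hreg : S_reg D) (hzn : S_zn D) (hli : S_locInj D)
    (hsu : S_convSurj D) : S_basis D := by
  intro m n M N _ _ _ _ _ _ _ _ hM hN
  refine ⟨?_, hsu m n M N hM hN⟩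
  have hb : Function.Bijective (convSum D m n (Reg D m) (Reg D n)) :=
    ⟨hli m n _ _ (hreg m).1 (hreg n).1 (zinj_reg hzn m n), hsu m n _ _ (hreg m).1 (hreg n).1⟩
  rw [injective_iff_map_eq_zero]
  intro F hF
  ext1 w
  rw [← psi_lf hb hreg hM hN w F]
  apply psi_rel
  rw [← quot_lf] at hF
  exact (Submodule.Quotient.mk_eq_zero _).1 hF

end Pbw

end Pool.Agent.KLS

end

section

/-! MP_e487d8_al, PBW block: independence of the shuffles if `zz` is injective. -/

set_option autoImplicit false

open scoped TensorProduct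

namespace Pool.Agent.KLS

variable {K I : Type} [Field K] [Fintype I] [DecidableEq I]

namespace Pbw

namespace LINJ

section act

variable (D : Datum K I) (M N : Type) [AddCommGroup M] [Module K M] [Module (KLRAlg D) M]
  [IsScalarTower K (KLRAlg D) M] [AddCommGroup N] [Module K N] [Module (KLRAlg D) N]
  [IsScalarTower K (KLRAlg D) N]

theorem act1_tmul (a : KLRAlg D) (u : M) (v : N) : act1 D M N a (u ⊗ₜ v) = (a • u) ⊗ₜ v := rfl

theorem act2_tmul (a : KLRAlg D) (u : M) (v : N) : act2 D M N a (u ⊗ₜ v) = u ⊗ₜ (a • v) := rfl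

theorem act_comm (a b : KLRAlg D) : act1 D M N a * act2 D M N b = act2 D M N b * act1 D M N a := by
  apply TensorProduct.ext'
  intro u v
  rfl

theorem act1_strand {m : ℕ} (h : IsStrand D m M) : StrandHom D m (act1 D M N) where
  one k hk := by
    apply TensorProduct.ext'
    intro u v
    rw [act1_tmul, h.one k hk]
    rfl
  zero k hk i := by
    apply TensorProduct.ext'
    intro u v
    rw [act1_tmul, h.zero k hk, TensorProduct.zero_tmul]
    rfl

theorem act2_strand {n : ℕ} (h : IsStrand D n N) : StrandHom D n (act2 D M N) where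
  one k hk := by
    apply TensorProduct.ext'
    intro u v
    rw [act2_tmul, h.one k hk]
    rfl
  zero k hk i := by
    apply TensorProduct.ext'
    intro u v
    rw [act2_tmul, h.zero k hk, TensorProduct.tmul_zero]
    rfl

end act

section sum

variable {D : Datum K I} {m n : ℕ} {U U' V : Type} [AddCommGroup U] [Module K U]
  [AddCommGroup U'] [Module K U'] [AddCommGroup V] [Module K V]

/-- the sum over the shuffles -/
noncomputable def shSum (m n : ℕ) (r : KLRAlg D →ₐ[K] Module.End K V) (β : U →ₗ[K] V) :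
    (Shf m n →₀ U) →ₗ[K] V :=
  Finsupp.lsum K fun w => (r (D.tw w.1)).comp β

theorem shSum_single (r : KLRAlg D →ₐ[K] Module.End K V) (β : U →ₗ[K] V) (w : Shf m n) (p : U) :
    shSum m n r β (Finsupp.single w p) = r (D.tw w.1) (β p) := by
  simp [shSum]

theorem shSum_apply (r : KLRAlg D →ₐ[K] Module.End K V) (β : U →ₗ[K] V) (f : Shf m n →₀ U) :
    shSum m n r β f = ∑ w ∈ f.support, r (D.tw w.1) (β (f w)) := by
  simp [shSum, Finsupp.sum]

end sum

/-- universal property of the convolution product for an action given by a homomorphism -/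
theorem exists_lift {D : Datum K I} {m : ℕ} {M N W : Type} [AddCommGroup M] [Module K M]
    [Module (KLRAlg D) M] [IsScalarTower K (KLRAlg D) M] [AddCommGroup N] [Module K N]
    [Module (KLRAlg D) N] [IsScalarTower K (KLRAlg D) N] [AddCommGroup W] [Module K W]
    (r : KLRAlg D →ₐ[K] Module.End K W) (β : M →ₗ[K] N →ₗ[K] W)
    (h1 : ∀ a u v, r (D.tr m a) (β u v) = β (a • u) v)
    (h2 : ∀ a u v, r (D.shn m a) (β u v) = β u (a • v)) :
    ∃ Φ : Conv D m M N →ₗ[K] W, ∀ a u v, Φ (a • Conv.mk D m M N u v) = r a (β u v) := by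
  let _ : Module (KLRAlg D) W := Module.compHom W (r : KLRAlg D →+* Module.End K W)
  have hsm : ∀ (a : KLRAlg D) (x : W), a • x = r a x := fun a x => rfl
  have _ : IsScalarTower K (KLRAlg D) W := ⟨fun k a x => by
    rw [hsm, hsm, map_smul]
    rfl⟩
  have hB : Balanced D m β := ⟨fun a u v => h1 a u v, fun a u v => h2 a u v⟩
  refine ⟨Conv.toK (Conv.lift β hB), fun a u v => ?_⟩
  rw [Conv.toK_apply, map_smul, Conv.lift_mk, hsm]

end LINJ

open LINJ

theorem prf_locInj (D : Datum K I) (hr : S_rels D) (hb : S_bal D) (hi : S_ind D) (hl : S_loc D) :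
    S_locInj D := by
  intro m n M N _ _ _ _ _ _ _ _ hM hN hz
  rw [injective_iff_map_eq_zero]
  intro f hf
  obtain ⟨P, _, _, d, j, hj, hd1, hd2, hj1, hj2⟩ :=
    hl m n (M ⊗[K] N) (act1 D M N) (act2 D M N) (act_comm D M N) (act1_strand D M N hM)
      (act2_strand D M N hN) hz
  let β : M →ₗ[K] N →ₗ[K] (List Bool → P) :=
    TensorProduct.curry ((Loc.iota (K := K) m n).comp j)
  have hβ : ∀ u v, β u v = Loc.iota (K := K) m n (j (u ⊗ₜ v)) := fun u v => rfl
  obtain ⟨Φ, hΦ⟩ := exists_lift (D := D) (m := m) (M := M) (N := N) (rV hr d) β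
    (by
      intro a u v
      rw [hβ, hβ, (hb hr P d m n hd1 hd2 a _).1, hj1, act1_tmul])
    (by
      intro a u v
      rw [hβ, hβ, (hb hr P d m n hd1 hd2 a _).2, hj2, act2_tmul])
  have hΦ2 : ∀ g : Shf m n →₀ (M ⊗[K] N), Φ (convSum D m n M N g) =
      shSum m n (rV hr d) ((Loc.iota (K := K) m n).comp j) g := by
    intro g
    have h : Φ.comp (convSum D m n M N) =
        shSum m n (rV hr d) ((Loc.iota (K := K) m n).comp j) := by
      apply Finsupp.lhom_ext'
      intro w
      apply TensorProduct.ext'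
      intro u v
      rw [LinearMap.comp_apply, LinearMap.comp_apply, LinearMap.comp_apply,
        Finsupp.lsingle_apply, convSum_single, shSum_single, hΦ]
      rfl
    exact LinearMap.congr_fun h g
  have hF := hΦ2 f
  rw [hf, map_zero, eq_comm, shSum_apply] at hF
  classical
  let p : List Bool → P := fun w =>
    if h : w.count false = m ∧ w.count true = n then j (f ⟨w, h⟩) else 0
  have hp : ∀ w : Shf m n, p w.1 = j (f w) := by
    intro w
    have : (w.1.count false = m ∧ w.1.count true = n) := w.2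
    show (if h : w.1.count false = m ∧ w.1.count true = n then j (f ⟨w.1, h⟩) else 0) = j (f w)
    rw [dif_pos this]
    rfl
  let S : Finset (List Bool) := f.support.map ⟨fun w => w.1, Subtype.val_injective⟩
  have hS : ∀ w ∈ S, w.count false = m ∧ w.count true = n := by
    intro w hw
    obtain ⟨w', _, rfl⟩ := Finset.mem_map.1 hw
    exact w'.2
  have h0 := hi hr P d m n hd1 hd2 S hS p (by
    rw [Finset.sum_map]
    rw [← hF]
    refine Finset.sum_congr rfl fun w _ => ?_
    show rV hr d (D.tw w.1) (Loc.iota (K := K) m n (p w.1)) = _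
    rw [hp w]
    rfl)
  ext w
  rw [Finsupp.zero_apply]
  by_contra hw
  have hw2 : w.1 ∈ S := Finset.mem_map.2 ⟨w, Finsupp.mem_support_iff.2 hw, rfl⟩
  have h1 := h0 _ hw2
  rw [hp w] at h1
  exact hw (hj (by rw [h1, map_zero]))

end Pbw

end Pool.Agent.KLS

end

section

/-! MP_e487d8_al, PBW block: localisation (`prf_loc`). The localised module is the space of the
germs at infinity of sequences `f` in `U` with `f (k + 1) = z (f k)` for large `k`. -/

set_option autoImplicit false

namespace Pool.Agent.KLS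

variable {K I : Type} [Field K] [Fintype I] [DecidableEq I]

namespace Pbw

namespace ILoc

/-! ### products over ranges of commuting elements -/

section prod

variable {R : Type} [Monoid R]

/-- the product of `f 0, ..., f (m - 1)` -/
def rp (f : ℕ → R) (m : ℕ) : R := ((List.range m).map f).prod

theorem rp_zero (f : ℕ → R) : rp f 0 = 1 := rfl

theorem rp_succ (f : ℕ → R) (m : ℕ) : rp f (m + 1) = rp f m * f m := by
  unfold rp
  rw [List.range_succ, List.map_append, List.prod_append, List.map_singleton, List.prod_singleton]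

theorem rp_comm (f : ℕ → R) (m : ℕ) {g : R} (h : ∀ i, i < m → g * f i = f i * g) :
    g * rp f m = rp f m * g := by
  induction m with
  | zero => rw [rp_zero, one_mul, mul_one]
  | succ m ih =>
    rw [rp_succ, ← mul_assoc, ih (fun i hi => h i (by omega)), mul_assoc, h m (by omega),
      mul_assoc]

/-- `g` commutes with the product if it commutes with all factors apart from the factors `k` and
`k + 1`, and with their product -/
theorem rp_comm' (f : ℕ → R) (m k : ℕ) (hk : k + 1 < m) {g : R}
    (h : ∀ i, i < m → i ≠ k → i ≠ k + 1 → g * f i = f i * g)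
    (h' : g * (f k * f (k + 1)) = f k * f (k + 1) * g) :
    g * rp f m = rp f m * g := by
  induction m with
  | zero => omega
  | succ m ih =>
    by_cases hm : k + 1 < m
    · rw [rp_succ, ← mul_assoc, ih hm (fun i hi => h i (by omega)), mul_assoc,
        h m (by omega) (by omega) (by omega), mul_assoc]
    · have : m = k + 1 := by omega
      subst this
      rw [rp_succ, rp_succ, mul_assoc, ← mul_assoc,
        rp_comm f k (fun i hi => h i (by omega) (by omega) (by omega)), mul_assoc, h']
      simp only [mul_assoc]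

/-- the cofactor of `f i` -/
theorem exists_cof (f : ℕ → R) (m i : ℕ) (hi : i < m)
    (hc : ∀ i j, f i * f j = f j * f i) : ∃ c, rp f m = f i * c ∧ rp f m = c * f i ∧
      ∀ g, (∀ i, g * f i = f i * g) → g * c = c * g := by
  induction m with
  | zero => omega
  | succ m ih =>
    by_cases hm : i < m
    · obtain ⟨c, h1, h2, h3⟩ := ih hm
      refine ⟨c * f m, ?_, ?_, fun g hg => ?_⟩
      · rw [rp_succ, h1, mul_assoc]
      · rw [rp_succ, h2, mul_assoc, mul_assoc, hc i m]
      · rw [← mul_assoc, h3 g hg, mul_assoc, hg, mul_assoc]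
    · have : m = i := by omega
      subst this
      refine ⟨rp f m, ?_, ?_, fun g hg => rp_comm f m fun i _ => hg i⟩
      · rw [rp_succ, rp_comm f m fun i _ => hc m i]
      · rw [rp_succ]

end prod

theorem rp_mul_rp {R : Type} [Monoid R] (f g : ℕ → R) (m : ℕ) {t : R}
    (h : ∀ j, j < m → t * (f j * g j) = f j * g j * t) (hfg : ∀ i j, f i * g j = g j * f i) :
    t * (rp f m * rp g m) = rp f m * rp g m * t := by
  induction m with
  | zero => simp [rp_zero]
  | succ m ih =>
    have e1 : rp f (m + 1) * rp g (m + 1) = rp f m * rp g m * (f m * g m) := by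
      rw [rp_succ, rp_succ, mul_assoc, ← mul_assoc (f m),
        rp_comm g m (g := f m) (fun i _ => hfg m i)]
      simp only [mul_assoc]
    rw [e1, ← mul_assoc, ih fun j hj => h j (by omega), mul_assoc, h m (by omega)]
    simp only [mul_assoc]

/-! ### the commutation of the operator `z` -/

section comm

variable {D : Datum K I} {m n : ℕ} {U : Type} [AddCommGroup U] [Module K U]
  {r1 r2 : KLRAlg D →ₐ[K] Module.End K U}

theorem zz_eq (D : Datum K I) (m n : ℕ) {U : Type} [AddCommGroup U] [Module K U]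
    (r1 r2 : KLRAlg D →ₐ[K] Module.End K U) :
    zz D m n r1 r2 = rp (fun i => rp (fun j => r1 (D.x i) - r2 (D.x j)) n) m := rfl

/-- `t_k` commutes with `(x_k - c) (x_(k+1) - c)` -/
theorem t_sym (r : KLRAlg D →ₐ[K] Module.End K U) (c : Module.End K U)
    (hc : ∀ a, r a * c = c * r a) (k : ℕ) :
    r (D.t k) * ((r (D.x k) - c) * (r (D.x (k + 1)) - c)) =
      (r (D.x k) - c) * (r (D.x (k + 1)) - c) * r (D.t k) := by
  have h0 : r (D.t k) * r (D.x k) = r (D.x (k + 1)) * r (D.t k) - r (D.dl k) := by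
    rw [← map_mul, D.t_x0, map_sub, map_mul]
  have h1 : r (D.t k) * r (D.x (k + 1)) = r (D.x k) * r (D.t k) + r (D.dl k) := by
    rw [← map_mul, D.t_x1, map_add, map_mul]
  have hdl : D.dl k * D.x (k + 1) = D.x (k + 1) * D.dl k := by
    unfold Datum.dl
    rw [Finset.sum_mul, Finset.mul_sum]
    refine Finset.sum_congr rfl fun i _ => ?_
    rw [mul_assoc, ← D.x_e, ← mul_assoc, ← D.x_e, mul_assoc]
  have h2 : r (D.dl k) * r (D.x (k + 1)) = r (D.x (k + 1)) * r (D.dl k) := by
    rw [← map_mul, hdl, map_mul]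
  have h3 : r (D.x k) * r (D.x (k + 1)) = r (D.x (k + 1)) * r (D.x k) := by
    rw [← map_mul, D.x_comm, map_mul]
  have ct := hc (D.t k)
  have cd := hc (D.dl k)
  have cx := hc (D.x k)
  have cy := hc (D.x (k + 1))
  have e1 : r (D.t k) * (r (D.x k) - c) = (r (D.x (k + 1)) - c) * r (D.t k) - r (D.dl k) := by
    rw [mul_sub, h0, ct, sub_mul]; abel
  have e2 : r (D.t k) * (r (D.x (k + 1)) - c) = (r (D.x k) - c) * r (D.t k) + r (D.dl k) := by
    rw [mul_sub, h1, ct, sub_mul]; abel
  have e3 : r (D.dl k) * (r (D.x (k + 1)) - c) = (r (D.x (k + 1)) - c) * r (D.dl k) := by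
    rw [mul_sub, h2, cd, sub_mul]
  have e4 : (r (D.x k) - c) * (r (D.x (k + 1)) - c) = (r (D.x (k + 1)) - c) * (r (D.x k) - c) := by
    rw [mul_sub, sub_mul, sub_mul, mul_sub, sub_mul, sub_mul, h3, cx, cy]; abel
  rw [← mul_assoc, e1, sub_mul, mul_assoc, e2, mul_add, e3, ← mul_assoc, e4]
  abel

theorem t_zero {r : KLRAlg D →ₐ[K] Module.End K U} (h : StrandHom D m r) {k : ℕ}
    (hk : m ≤ k + 1) : r (D.t k) = 0 := by
  rw [← D.t_E', map_mul]
  unfold Datum.E
  rw [map_sum, Finset.sum_eq_zero fun i _ => h.zero (k + 1) hk i, mul_zero]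

theorem x_comm (hc : ∀ a b, r1 a * r2 b = r2 b * r1 a) (i j i' j' : ℕ) :
    (r1 (D.x i) - r2 (D.x j)) * (r1 (D.x i') - r2 (D.x j')) =
      (r1 (D.x i') - r2 (D.x j')) * (r1 (D.x i) - r2 (D.x j)) := by
  have h1 : r1 (D.x i) * r1 (D.x i') = r1 (D.x i') * r1 (D.x i) := by
    rw [← map_mul, D.x_comm, map_mul]
  have h2 : r2 (D.x j) * r2 (D.x j') = r2 (D.x j') * r2 (D.x j) := by
    rw [← map_mul, D.x_comm, map_mul]
  rw [mul_sub, sub_mul, sub_mul, mul_sub, sub_mul, sub_mul, h1, h2, hc, hc]
  abel

theorem z_comm1 (hc : ∀ a b, r1 a * r2 b = r2 b * r1 a) (h1 : StrandHom D m r1) (a : KLRAlg D) :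
    r1 a * zz D m n r1 r2 = zz D m n r1 r2 * r1 a := by
  rw [zz_eq]
  induction a using KLRAlg.induction with
  | hs r => rw [AlgHom.commutes]; exact Algebra.commutes r _
  | hadd a b ha hb => rw [map_add, add_mul, mul_add, ha, hb]
  | hmul a b ha hb => rw [map_mul, mul_assoc, hb, ← mul_assoc, ha, mul_assoc]
  | he k c =>
    refine rp_comm _ _ fun i _ => rp_comm _ _ fun j _ => ?_
    rw [mul_sub, sub_mul, hc, ← map_mul, ← map_mul, D.x_e]
  | hx k =>
    refine rp_comm _ _ fun i _ => rp_comm _ _ fun j _ => ?_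
    rw [mul_sub, sub_mul, hc, ← map_mul, ← map_mul, D.x_comm]
  | ht k =>
    by_cases hk : k + 1 < m
    · refine rp_comm' _ _ k hk (fun i _ hi hi' => rp_comm _ _ fun j _ => ?_) ?_
      · rw [mul_sub, sub_mul, hc, ← map_mul, ← map_mul, D.t_x k i hi hi']
      · refine rp_mul_rp _ _ n (fun j _ => ?_) fun i j => x_comm hc _ _ _ _
        exact t_sym r1 (r2 (D.x j)) (fun a => hc _ _) k
    · rw [t_zero h1 (by omega), zero_mul, mul_zero]

theorem z_comm2 (hc : ∀ a b, r1 a * r2 b = r2 b * r1 a) (h2 : StrandHom D n r2) (a : KLRAlg D) :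
    r2 a * zz D m n r1 r2 = zz D m n r1 r2 * r2 a := by
  rw [zz_eq]
  induction a using KLRAlg.induction with
  | hs r => rw [AlgHom.commutes]; exact Algebra.commutes r _
  | hadd a b ha hb => rw [map_add, add_mul, mul_add, ha, hb]
  | hmul a b ha hb => rw [map_mul, mul_assoc, hb, ← mul_assoc, ha, mul_assoc]
  | he k c =>
    refine rp_comm _ _ fun i _ => rp_comm _ _ fun j _ => ?_
    rw [mul_sub, sub_mul, hc, ← map_mul, ← map_mul, D.x_e]
  | hx k =>
    refine rp_comm _ _ fun i _ => rp_comm _ _ fun j _ => ?_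
    rw [mul_sub, sub_mul, hc, ← map_mul, ← map_mul, D.x_comm]
  | ht k =>
    by_cases hk : k + 1 < n
    · refine rp_comm _ _ fun i _ => rp_comm' _ _ k hk (fun j _ hj hj' => ?_) ?_
      · rw [mul_sub, sub_mul, hc, ← map_mul, ← map_mul, D.t_x k j hj hj']
      · have h := t_sym r2 (r1 (D.x i)) (fun a => (hc _ _).symm) k
        have e : (r1 (D.x i) - r2 (D.x k)) * (r1 (D.x i) - r2 (D.x (k + 1))) =
            (r2 (D.x k) - r1 (D.x i)) * (r2 (D.x (k + 1)) - r1 (D.x i)) := by
          rw [← neg_sub (r2 (D.x k)), ← neg_sub (r2 (D.x (k + 1))), neg_mul_neg]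
        rw [e]
        exact h
    · rw [t_zero h2 (by omega), zero_mul, mul_zero]

end comm

/-! ### germs of sequences -/

section germ

variable (K) (U : Type) [AddCommGroup U] [Module K U]

/-- sequences which vanish for large `k` -/
def Z : Submodule K (ℕ → U) where
  carrier := {f | ∃ N, ∀ k, N ≤ k → f k = 0}
  zero_mem' := ⟨0, fun _ _ => rfl⟩
  add_mem' := by
    rintro f g ⟨N, hN⟩ ⟨N', hN'⟩
    refine ⟨max N N', fun k hk => ?_⟩
    rw [Pi.add_apply, hN k (by omega), hN' k (by omega), add_zero]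
  smul_mem' := by
    rintro c f ⟨N, hN⟩
    exact ⟨N, fun k hk => by rw [Pi.smul_apply, hN k hk, smul_zero]⟩

/-- germs of sequences -/
abbrev G : Type := (ℕ → U) ⧸ Z K U

variable {K U}

/-- pointwise action -/
def psi (g : Module.End K U) : Module.End K (G K U) :=
  (Z K U).mapQ (Z K U) (g.compLeft ℕ) (by
    rintro f ⟨N, hN⟩
    exact ⟨N, fun k hk => by
      show g (f k) = 0
      rw [hN k hk, map_zero]⟩)

theorem psi_mk (g : Module.End K U) (f : ℕ → U) :
    psi g ((Z K U).mkQ f) = (Z K U).mkQ (fun k => g (f k)) := rfl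

variable (K U) in
/-- shift -/
def sh : Module.End K (G K U) :=
  (Z K U).mapQ (Z K U) (LinearMap.funLeft K U (fun k => k + 1)) (by
    rintro f ⟨N, hN⟩
    exact ⟨N, fun k hk => hN (k + 1) (by omega)⟩)

theorem sh_mk (f : ℕ → U) : sh K U ((Z K U).mkQ f) = (Z K U).mkQ (fun k => f (k + 1)) := rfl

variable (K U) in
/-- shift in the other direction -/
def sh' : Module.End K (G K U) :=
  (Z K U).mapQ (Z K U) (LinearMap.funLeft K U (fun k => k - 1)) (by
    rintro f ⟨N, hN⟩
    exact ⟨N + 1, fun k hk => hN (k - 1) (by omega)⟩)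

theorem sh'_mk (f : ℕ → U) : sh' K U ((Z K U).mkQ f) = (Z K U).mkQ (fun k => f (k - 1)) := rfl

theorem mk_eq {f g : ℕ → U} : (Z K U).mkQ f = (Z K U).mkQ g ↔ ∃ N, ∀ k, N ≤ k → f k = g k := by
  rw [← sub_eq_zero, ← map_sub, Submodule.mkQ_apply, Submodule.Quotient.mk_eq_zero]
  constructor
  · rintro ⟨N, hN⟩
    exact ⟨N, fun k hk => sub_eq_zero.1 (hN k hk)⟩
  · rintro ⟨N, hN⟩
    exact ⟨N, fun k hk => sub_eq_zero.2 (hN k hk)⟩

theorem mk_surj (p : G K U) : ∃ f, (Z K U).mkQ f = p := (Z K U).mkQ_surjective p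

theorem sh_sh' (p : G K U) : sh K U (sh' K U p) = p := by
  obtain ⟨f, rfl⟩ := mk_surj p
  rw [sh'_mk, sh_mk, mk_eq]
  exact ⟨0, fun k _ => by simp⟩

theorem sh'_sh (p : G K U) : sh' K U (sh K U p) = p := by
  obtain ⟨f, rfl⟩ := mk_surj p
  rw [sh_mk, sh'_mk, mk_eq]
  exact ⟨1, fun k hk => by rw [Nat.sub_add_cancel hk]⟩

theorem psi_sh (g : Module.End K U) (p : G K U) : psi g (sh K U p) = sh K U (psi g p) := by
  obtain ⟨f, rfl⟩ := mk_surj p
  rfl

theorem psi_sh' (g : Module.End K U) (p : G K U) : psi g (sh' K U p) = sh' K U (psi g p) := by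
  obtain ⟨f, rfl⟩ := mk_surj p
  rfl

theorem psi_mul (g h : Module.End K U) (p : G K U) : psi (g * h) p = psi g (psi h p) := by
  obtain ⟨f, rfl⟩ := mk_surj p
  rfl

theorem psi_one (p : G K U) : psi (1 : Module.End K U) p = p := by
  obtain ⟨f, rfl⟩ := mk_surj p
  rfl

theorem psi_add (g h : Module.End K U) (p : G K U) : psi (g + h) p = psi g p + psi h p := by
  obtain ⟨f, rfl⟩ := mk_surj p
  rfl

theorem psi_sub (g h : Module.End K U) (p : G K U) : psi (g - h) p = psi g p - psi h p := by
  obtain ⟨f, rfl⟩ := mk_surj p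
  rfl

theorem psi_smul (c : K) (h : Module.End K U) (p : G K U) : psi (c • h) p = c • psi h p := by
  obtain ⟨f, rfl⟩ := mk_surj p
  rfl

theorem psi_zero (p : G K U) : psi (0 : Module.End K U) p = 0 := by
  obtain ⟨f, rfl⟩ := mk_surj p
  exact mk_eq.2 ⟨0, fun _ _ => rfl⟩

variable (z : Module.End K U)

/-- the localised module -/
def P : Submodule K (G K U) := LinearMap.eqLocus (sh K U) (psi z)

theorem mem_P (p : G K U) : p ∈ P z ↔ sh K U p = psi z p := Iff.rfl

/-- the action of an endomorphism commuting with `z` -/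
def act (g : Module.End K U) (h : g * z = z * g) : Module.End K (P z) :=
  (psi g).restrict (fun p hp => by
    rw [mem_P] at hp ⊢
    rw [← psi_sh, hp, ← psi_mul, h, psi_mul])

theorem act_coe (g : Module.End K U) (h : g * z = z * g) (p : P z) :
    (act z g h p : G K U) = psi g p := rfl

/-- the inverse of `z` -/
def inv : Module.End K (P z) :=
  (sh' K U).restrict (fun p hp => by
    rw [mem_P] at hp ⊢
    rw [psi_sh', ← hp, sh_sh', sh'_sh])

theorem inv_coe (p : P z) : (inv z p : G K U) = sh' K U (p : G K U) := rfl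

/-- algebra homomorphisms to the centraliser of `z` -/
noncomputable def hom {D : Datum K I} (r : KLRAlg D →ₐ[K] Module.End K U) (h : ∀ a, r a * z = z * r a) :
    KLRAlg D →ₐ[K] Module.End K (P z) :=
  AlgHom.ofLinearMap
    { toFun := fun a => act z (r a) (h a)
      map_add' := fun a b => by
        ext p
        rw [LinearMap.add_apply, Submodule.coe_add, act_coe, act_coe, act_coe, map_add, psi_add]
      map_smul' := fun c a => by
        ext p
        rw [LinearMap.smul_apply, RingHom.id_apply, Submodule.coe_smul, act_coe, act_coe,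
          map_smul, psi_smul] }
    (by
      ext p
      show psi (r 1) p = p
      rw [map_one, psi_one])
    (fun a b => by
      ext p
      show psi (r (a * b)) p = psi (r a) (psi (r b) p)
      rw [map_mul, psi_mul])

theorem hom_coe {D : Datum K I} (r : KLRAlg D →ₐ[K] Module.End K U) (h : ∀ a, r a * z = z * r a)
    (a : KLRAlg D) (p : P z) : (hom z r h a p : G K U) = psi (r a) p := rfl

/-- the embedding of `U` -/
def emb : U →ₗ[K] P z where
  toFun u := ⟨(Z K U).mkQ (fun k => (z ^ k) u), by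
    rw [mem_P, sh_mk, psi_mk]
    congr 1
    funext k
    rw [pow_succ', Module.End.mul_apply]⟩
  map_add' u u' := by
    ext
    rw [Submodule.coe_add, ← map_add]
    refine congrArg (Z K U).mkQ ?_
    funext k
    exact map_add _ _ _
  map_smul' c u := by
    ext
    rw [Submodule.coe_smul, ← map_smul]
    refine congrArg (Z K U).mkQ ?_
    funext k
    exact map_smul _ _ _

theorem emb_coe (u : U) : (emb z u : G K U) = (Z K U).mkQ (fun k => (z ^ k) u) := rfl

theorem emb_inj (h : Function.Injective z) : Function.Injective (emb z) := by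
  intro u u' huu
  have h1 : (emb z u : G K U) = emb z u' := by rw [huu]
  rw [emb_coe, emb_coe, mk_eq] at h1
  obtain ⟨N, hN⟩ := h1
  have h2 := hN N le_rfl
  rw [Module.End.pow_apply, Module.End.pow_apply] at h2
  exact h.iterate N h2

theorem hom_emb {D : Datum K I} (r : KLRAlg D →ₐ[K] Module.End K U)
    (h : ∀ a, r a * z = z * r a) (a : KLRAlg D) (u : U) :
    hom z r h a (emb z u) = emb z (r a u) := by
  ext
  rw [hom_coe, emb_coe, emb_coe, psi_mk]
  congr 1
  funext k
  rw [← Module.End.mul_apply, ← Module.End.mul_apply, ((show Commute (r a) z from h a).pow_right k).eq]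

theorem hom_strand {D : Datum K I} {m : ℕ} (r : KLRAlg D →ₐ[K] Module.End K U)
    (h : ∀ a, r a * z = z * r a) (hs : StrandHom D m r) : StrandHom D m (hom z r h) where
  one k hk := by
    ext p
    rw [hom_coe, hs.one k hk, psi_one]
    rfl
  zero k hk i := by
    ext p
    rw [hom_coe, hs.zero k hk i, psi_zero]
    rfl

/-- inverses of the factors of `z` -/
theorem inv_mul {D : Datum K I} {r1 r2 : KLRAlg D →ₐ[K] Module.End K U}
    (h1 : ∀ a, r1 a * z = z * r1 a) (h2 : ∀ a, r2 a * z = z * r2 a) (i j : ℕ)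
    {c : Module.End K U} (hc : c * z = z * c)
    (hz : z = (r1 (D.x i) - r2 (D.x j)) * c) (hz' : z = c * (r1 (D.x i) - r2 (D.x j))) :
    inv z * act z c hc * (hom z r1 h1 (D.x i) - hom z r2 h2 (D.x j)) = 1 ∧
      (hom z r1 h1 (D.x i) - hom z r2 h2 (D.x j)) * (inv z * act z c hc) = 1 := by
  constructor
  · ext p
    show sh' K U (psi c (psi (r1 (D.x i)) p - psi (r2 (D.x j)) p)) = (p : G K U)
    rw [← psi_sub, ← psi_mul, ← hz', ← (mem_P z _).1 p.2, sh'_sh]
  · ext p
    show psi (r1 (D.x i)) (sh' K U (psi c p)) - psi (r2 (D.x j)) (sh' K U (psi c p)) = (p : G K U)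
    rw [← psi_sub, psi_sh', ← psi_mul, ← hz, ← (mem_P z _).1 p.2, sh'_sh]

end germ

/-- the cofactors -/
theorem exists_cof2 {D : Datum K I} (m n : ℕ) {U : Type} [AddCommGroup U] [Module K U]
    (r1 r2 : KLRAlg D →ₐ[K] Module.End K U) (hc : ∀ a b, r1 a * r2 b = r2 b * r1 a)
    (i j : ℕ) (hi : i < m) (hj : j < n) : ∃ c : Module.End K U,
      c * zz D m n r1 r2 = zz D m n r1 r2 * c ∧
      zz D m n r1 r2 = (r1 (D.x i) - r2 (D.x j)) * c ∧
      zz D m n r1 r2 = c * (r1 (D.x i) - r2 (D.x j)) := by
  have hcc : ∀ i j i' j', (r1 (D.x i) - r2 (D.x j)) * (r1 (D.x i') - r2 (D.x j')) =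
      (r1 (D.x i') - r2 (D.x j')) * (r1 (D.x i) - r2 (D.x j)) := x_comm hc
  obtain ⟨c2, a1, a2, a3⟩ := exists_cof (fun j => r1 (D.x i) - r2 (D.x j)) n j hj
    (fun j j' => hcc i j i j')
  obtain ⟨c1, b1, b2, b3⟩ := exists_cof (fun i => rp (fun j => r1 (D.x i) - r2 (D.x j)) n) m i hi
    (fun i i' => rp_comm _ _ fun j _ => (rp_comm _ _ fun j' _ => hcc _ _ _ _).symm)
  have hc1 : ∀ i' j', (r1 (D.x i') - r2 (D.x j')) * c1 = c1 * (r1 (D.x i') - r2 (D.x j')) :=
    fun i' j' => b3 _ fun i => rp_comm _ _ fun j _ => hcc _ _ _ _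
  have hc2 : ∀ i' j', (r1 (D.x i') - r2 (D.x j')) * c2 = c2 * (r1 (D.x i') - r2 (D.x j')) :=
    fun i' j' => a3 _ fun j => hcc _ _ _ _
  refine ⟨c2 * c1, ?_, ?_, ?_⟩
  · rw [zz_eq]
    refine rp_comm _ _ fun i' _ => rp_comm _ _ fun j' _ => ?_
    rw [mul_assoc, ← hc1, ← mul_assoc, ← hc2, mul_assoc]
  · rw [zz_eq]
    refine b1.trans ?_
    rw [← mul_assoc]
    exact congrArg (· * c1) a1
  · rw [zz_eq, mul_assoc, ← hc1, ← mul_assoc]
    refine b1.trans ?_
    exact congrArg (· * c1) a2

end ILoc

open ILoc in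
theorem prf_loc (D : Datum K I) : S_loc D := by
  classical
  intro m n U _ _ r1 r2 hc hs1 hs2 hinj
  have hz1 := z_comm1 (n := n) hc hs1
  have hz2 := z_comm2 (m := m) hc hs2
  choose! cf hcf1 hcf2 hcf3 using exists_cof2 m n r1 r2 hc
  set z := zz D m n r1 r2 with hz
  have key := fun i j (hi : i < m) (hj : j < n) => ILoc.inv_mul z hz1 hz2 i j (hcf1 i j hi hj)
    (hcf2 i j hi hj) (hcf3 i j hi hj)
  have E1 : ∀ i, i < m → hom z r1 hz1 (D.E i) = 1 := (hom_strand z r1 hz1 hs1).one
  have E2 : ∀ i, i < n → hom z r2 hz2 (D.E i) = 1 := (hom_strand z r2 hz2 hs2).one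
  have E1' : ∀ i, ¬ i < m → hom z r1 hz1 (D.E i) = 0 := fun i hi => by
    unfold Datum.E
    rw [map_sum, Finset.sum_eq_zero fun c _ => (hom_strand z r1 hz1 hs1).zero i (by omega) c]
  have E2' : ∀ i, ¬ i < n → hom z r2 hz2 (D.E i) = 0 := fun i hi => by
    unfold Datum.E
    rw [map_sum, Finset.sum_eq_zero fun c _ => (hom_strand z r2 hz2 hs2).zero i (by omega) c]
  let d : Loc D (ILoc.P z) :=
    { r1 := hom z r1 hz1
      r2 := hom z r2 hz2
      v := fun i j => if h : i < m ∧ j < n then ILoc.inv z * act z (cf i j) (hcf1 i j h.1 h.2) else 0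
      comm := fun a b => by
        ext p
        show psi (r1 a) (psi (r2 b) p) = psi (r2 b) (psi (r1 a) p)
        rw [← psi_mul, hc, psi_mul]
      v_mul := fun i j => by
        by_cases h : i < m ∧ j < n
        · rw [dif_pos h, E1 i h.1, E2 j h.2, mul_one]
          exact (key i j h.1 h.2).1
        · rw [dif_neg h, zero_mul]
          rcases not_and_or.1 h with h | h
          · rw [E1' i h, zero_mul]
          · rw [E2' j h, mul_zero]
      mul_v := fun i j => by
        by_cases h : i < m ∧ j < n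
        · rw [dif_pos h, E1 i h.1, E2 j h.2, mul_one]
          exact (key i j h.1 h.2).2
        · rw [dif_neg h, mul_zero]
          rcases not_and_or.1 h with h | h
          · rw [E1' i h, zero_mul]
          · rw [E2' j h, mul_zero]
      v_E := fun i j => by
        by_cases h : i < m ∧ j < n
        · rw [dif_pos h, E1 i h.1, E2 j h.2, mul_one, mul_one]
        · rw [dif_neg h, zero_mul] }
  exact ⟨ILoc.P z, inferInstance, inferInstance, d, emb z, emb_inj z hinj,
    hom_strand z r1 hz1 hs1, hom_strand z r2 hz2 hs2, fun a u => hom_emb z r1 hz1 a u,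
    fun a u => hom_emb z r2 hz2 a u⟩

end Pbw

end Pool.Agent.KLS

end

section

/-! MP_e487d8_al, PBW block: `∏_(i < m) ∏_(j < n) (X_i - y_j)` is injective on `V ⊗ R(n)`. -/

set_option autoImplicit false

open scoped TensorProduct

namespace Pool.Agent.KLS

variable {K I : Type} [Field K] [Fintype I] [DecidableEq I]

namespace Pbw

namespace IZn

theorem prod_semi {A B : Type} [AddCommGroup A] [Module K A] [AddCommGroup B] [Module K B]
    (μ : A → B) (F : ℕ → Module.End K B) (G : ℕ → Module.End K A) (n : ℕ)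
    (h : ∀ j, j < n → ∀ z, F j (μ z) = μ (G j z)) :
    ∀ z, ((List.range n).map F).prod (μ z) = μ (((List.range n).map G).prod z) := by
  induction n with
  | zero => intro z; rfl
  | succ n ih =>
    intro z
    rw [List.range_succ, List.map_append, List.map_append, List.prod_append, List.prod_append,
      Module.End.mul_apply, Module.End.mul_apply, List.map_singleton, List.map_singleton,
      List.prod_singleton, List.prod_singleton, h n (Nat.lt_succ_self n),
      ih (fun j hj => h j (Nat.lt_succ_of_lt hj))]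

theorem comm_prod {B : Type} [Monoid B] (a : B) (F : ℕ → B) (n : ℕ)
    (h : ∀ j, j < n → Commute a (F j)) : Commute a ((List.range n).map F).prod := by
  induction n with
  | zero => exact Commute.one_right a
  | succ n ih =>
    rw [List.range_succ, List.map_append, List.prod_append, List.map_singleton,
      List.prod_singleton]
    exact (ih (fun j hj => h j (Nat.lt_succ_of_lt hj))).mul_right (h n (Nat.lt_succ_self n))

theorem prod_mul {B : Type} [Monoid B] (F G : ℕ → B) (n : ℕ)
    (h : ∀ i j, Commute (F i) (G j)) :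
    ((List.range n).map fun i => F i * G i).prod =
      ((List.range n).map F).prod * ((List.range n).map G).prod := by
  induction n with
  | zero => simp
  | succ n ih =>
    rw [List.range_succ, List.map_append, List.map_append, List.map_append, List.prod_append,
      List.prod_append, List.prod_append, List.map_singleton, List.map_singleton,
      List.map_singleton, List.prod_singleton, List.prod_singleton, List.prod_singleton, ih]
    have h1 := (comm_prod (F n) G n (fun j _ => h n j)).eq
    rw [mul_assoc, ← mul_assoc _ (F n) (G n), ← h1]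
    simp only [mul_assoc]

/-- the product of the `g j` commutes with `t` if `t` commutes with `g k * g (k + 1)` and with
the other `g j` -/
theorem comm_prod' {B : Type} [Monoid B] (t : B) (g : ℕ → B) (k n : ℕ) (hk : k + 1 < n)
    (h : ∀ j, j ≠ k → j ≠ k + 1 → Commute t (g j)) (h' : Commute t (g k * g (k + 1))) :
    Commute t ((List.range n).map g).prod := by
  obtain ⟨r, rfl⟩ := Nat.exists_eq_add_of_le (Nat.succ_le_of_lt hk)
  induction r with
  | zero =>
    rw [Nat.add_zero, List.range_succ, List.range_succ, List.map_append, List.map_append,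
      List.prod_append, List.prod_append, List.map_singleton, List.map_singleton,
      List.prod_singleton, List.prod_singleton, mul_assoc]
    exact (comm_prod t g k (fun j hj => h j (by omega) (by omega))).mul_right h'
  | succ r ih =>
    rw [← Nat.add_assoc, List.range_succ, List.map_append, List.prod_append, List.map_singleton,
      List.prod_singleton]
    exact (ih (by omega)).mul_right (h _ (by omega) (by omega))

section

variable {D : Datum K I} {V : Type} [AddCommGroup V] [Module K V] (X : ℕ → Module.End K V)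
  (N : Type) [AddCommGroup N] [Module K N] [Module (KLRAlg D) N] [IsScalarTower K (KLRAlg D) N]

/-- the operator `X_i - y_j` on `V ⊗ N` -/
noncomputable def op (D : Datum K I) (X : ℕ → Module.End K V) (N : Type) [AddCommGroup N]
    [Module K N] [Module (KLRAlg D) N] [IsScalarTower K (KLRAlg D) N] (i j : ℕ) :
    Module.End K (V ⊗[K] N) :=
  (X i).rTensor N - (Algebra.lsmul K K N (D.x j)).lTensor V

/-- the action of `KLRAlg D` on the second factor -/
noncomputable def rho (D : Datum K I) (V : Type) [AddCommGroup V] [Module K V] (N : Type)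
    [AddCommGroup N]
    [Module K N] [Module (KLRAlg D) N] [IsScalarTower K (KLRAlg D) N] :
    KLRAlg D →ₐ[K] Module.End K (V ⊗[K] N) :=
  (Module.End.lTensorAlgHom K N V).comp (Algebra.lsmul K K N)

theorem rho_tmul (a : KLRAlg D) (v : V) (u : N) : rho D V N a (v ⊗ₜ u) = v ⊗ₜ (a • u) := rfl

theorem rho_apply (a : KLRAlg D) : rho D V N a = (Algebra.lsmul K K N a).lTensor V := rfl

theorem op_eq (i j : ℕ) : op D X N i j = (X i).rTensor N - rho D V N (D.x j) := rfl

theorem comm_X (i : ℕ) (a : KLRAlg D) : Commute ((X i).rTensor N) (rho D V N a) := by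
  refine TensorProduct.ext' fun v u => ?_
  rw [Module.End.mul_apply, Module.End.mul_apply, rho_tmul, LinearMap.rTensor_tmul,
    LinearMap.rTensor_tmul, rho_tmul]

theorem comm_op_e (i j k : ℕ) (c : I) : Commute (rho D V N (D.e k c)) (op D X N i j) := by
  rw [op_eq]
  refine ((comm_X X N i _).symm).sub_right ?_
  rw [Commute, SemiconjBy, ← map_mul, ← map_mul, D.x_e]

theorem comm_op_x (i j k : ℕ) : Commute (rho D V N (D.x k)) (op D X N i j) := by
  rw [op_eq]
  refine ((comm_X X N i _).symm).sub_right ?_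
  rw [Commute, SemiconjBy, ← map_mul, ← map_mul, D.x_comm]

theorem comm_op_t (i j k : ℕ) (h : j ≠ k) (h' : j ≠ k + 1) :
    Commute (rho D V N (D.t k)) (op D X N i j) := by
  rw [op_eq]
  refine ((comm_X X N i _).symm).sub_right ?_
  rw [Commute, SemiconjBy, ← map_mul, ← map_mul, D.t_x k j h h']

theorem comm_op_tt (i k : ℕ) :
    Commute (rho D V N (D.t k)) (op D X N i k * op D X N i (k + 1)) := by
  have hc := (comm_X (D := D) X N i (D.t k)).eq
  have hd := (comm_X (D := D) X N i (D.dl k)).eq
  have hx := (comm_X (D := D) X N i (D.x k)).eq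
  have hx1 := (comm_X (D := D) X N i (D.x (k + 1))).eq
  have h0 : rho D V N (D.t k) * rho D V N (D.x k) =
      rho D V N (D.x (k + 1)) * rho D V N (D.t k) - rho D V N (D.dl k) := by
    rw [← map_mul, D.t_x0, map_sub, map_mul]
  have h1 : rho D V N (D.t k) * rho D V N (D.x (k + 1)) =
      rho D V N (D.x k) * rho D V N (D.t k) + rho D V N (D.dl k) := by
    rw [← map_mul, D.t_x1, map_add, map_mul]
  have h2 : rho D V N (D.dl k) * rho D V N (D.x (k + 1)) =
      rho D V N (D.x (k + 1)) * rho D V N (D.dl k) := by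
    rw [← map_mul, ← map_mul]
    congr 1
    unfold Datum.dl
    rw [Finset.sum_mul, Finset.mul_sum]
    refine Finset.sum_congr rfl fun c _ => ?_
    rw [mul_assoc, ← D.x_e, ← mul_assoc, ← D.x_e, mul_assoc]
  have h3 : rho D V N (D.x k) * rho D V N (D.x (k + 1)) =
      rho D V N (D.x (k + 1)) * rho D V N (D.x k) := by
    rw [← map_mul, ← map_mul, D.x_comm]
  rw [op_eq, op_eq]
  generalize (X i).rTensor N = ξ at *
  generalize rho D V N (D.t k) = t at *
  generalize rho D V N (D.x k) = x at *
  generalize rho D V N (D.x (k + 1)) = y at *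
  generalize rho D V N (D.dl k) = d at *
  have e1 : t * (ξ - x) = (ξ - y) * t + d := by
    rw [mul_sub, sub_mul, h0, ← hc]; abel
  have e2 : t * (ξ - y) = (ξ - x) * t - d := by
    rw [mul_sub, sub_mul, h1, ← hc]; abel
  have e3 : d * (ξ - y) = (ξ - y) * d := by
    rw [mul_sub, sub_mul, h2, ← hd]
  have e4 : (ξ - y) * (ξ - x) = (ξ - x) * (ξ - y) := by
    rw [mul_sub, sub_mul, sub_mul, mul_sub, sub_mul, sub_mul, hx, hx1, h3]; abel
  rw [Commute, SemiconjBy, ← mul_assoc, e1, add_mul, mul_assoc, e2, mul_sub, e3, ← mul_assoc, e4]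
  abel

/-- `∏_(j < n) (X_i - y_j)` commutes with the action on the second factor -/
theorem comm_P {n : ℕ} (hN : IsStrand D n N) (i : ℕ) (a : KLRAlg D) :
    Commute (rho D V N a) ((List.range n).map fun j => op D X N i j).prod := by
  induction a using KLRAlg.induction with
  | hs r =>
    rw [AlgHom.commutes]
    exact Algebra.commutes r _
  | he k c => exact comm_prod _ _ _ fun j _ => comm_op_e X N i j k c
  | hx k => exact comm_prod _ _ _ fun j _ => comm_op_x X N i j k
  | ht k =>
    by_cases hk : k + 1 < n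
    · exact comm_prod' _ _ k n hk (fun j h h' => comm_op_t X N i j k h h') (comm_op_tt X N i k)
    · have h0 : rho D V N (D.t k) = 0 := by
        refine TensorProduct.ext' fun v u => ?_
        rw [rho_tmul, hN.t_smul_zero (by omega), TensorProduct.tmul_zero, LinearMap.zero_apply]
      rw [h0]
      exact Commute.zero_left _
  | hadd a b ha hb => rw [map_add]; exact ha.add_left hb
  | hmul a b ha hb => rw [map_mul]; exact ha.mul_left hb

/-- the operator `∏_(i < m) ∏_(j < n) (X_i - y_j)` -/
noncomputable def T (D : Datum K I) (X : ℕ → Module.End K V) (N : Type) [AddCommGroup N]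
    [Module K N] [Module (KLRAlg D) N] [IsScalarTower K (KLRAlg D) N] (m n : ℕ) :
    Module.End K (V ⊗[K] N) :=
  ((List.range m).map fun i => ((List.range n).map fun j => op D X N i j).prod).prod

theorem comm_T {n : ℕ} (hN : IsStrand D n N) (m : ℕ) (a : KLRAlg D) :
    Commute (rho D V N a) (T D X N m n) :=
  comm_prod _ _ _ fun i _ => comm_P X N hN i a

end

section conv

variable {D : Datum K I} {V : Type} [AddCommGroup V] [Module K V] (X : ℕ → Module.End K V)
  (n : ℕ) (M : Type) [AddCommGroup M] [Module K M] [Module (KLRAlg D) M]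
  [IsScalarTower K (KLRAlg D) M]
  (N : Type) [AddCommGroup N] [Module K N] [Module (KLRAlg D) N] [IsScalarTower K (KLRAlg D) N]

/-- the map `(v ⊗ u) ⊗ u' ↦ v ⊗ mk u u'` -/
noncomputable def mu (D : Datum K I) (V : Type) [AddCommGroup V] [Module K V]
    (n : ℕ) (M : Type) [AddCommGroup M] [Module K M] [Module (KLRAlg D) M]
    (N : Type) [AddCommGroup N] [Module K N] [Module (KLRAlg D) N] :
    (V ⊗[K] M) ⊗[K] N →ₗ[K] V ⊗[K] Conv D n M N :=
  ((TensorProduct.lift (Conv.mk D n M N)).lTensor V).comp (TensorProduct.assoc K V M N).toLinearMap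

theorem mu_tmul (v : V) (u : M) (u' : N) :
    mu D V n M N ((v ⊗ₜ u) ⊗ₜ u') = v ⊗ₜ Conv.mk D n M N u u' := rfl

/-- `X_i - y_j` on the first two factors -/
noncomputable def opA (D : Datum K I) (X : ℕ → Module.End K V) (M : Type) [AddCommGroup M]
    [Module K M] [Module (KLRAlg D) M] [IsScalarTower K (KLRAlg D) M]
    (N : Type) [AddCommGroup N] [Module K N] (i j : ℕ) :
    Module.End K ((V ⊗[K] M) ⊗[K] N) := (op D X M i j).rTensor N

/-- `X_i - y_0` on the outer factors -/
noncomputable def opB (D : Datum K I) (X : ℕ → Module.End K V) (M : Type) [AddCommGroup M]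
    [Module K M] (N : Type) [AddCommGroup N] [Module K N] [Module (KLRAlg D) N]
    [IsScalarTower K (KLRAlg D) N] (i : ℕ) :
    Module.End K ((V ⊗[K] M) ⊗[K] N) :=
  ((X i).rTensor M).rTensor N - (Algebra.lsmul K K N (D.x 0)).lTensor (V ⊗[K] M)

theorem op_mu (i j : ℕ) (hj : j < n) (z : (V ⊗[K] M) ⊗[K] N) :
    op D X (Conv D n M N) i j (mu D V n M N z) = mu D V n M N (opA D X M N i j z) := by
  have h : (op D X (Conv D n M N) i j).comp (mu D V n M N) =
      (mu D V n M N).comp (opA D X M N i j) := by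
    refine TensorProduct.ext_threefold fun v u u' => ?_
    rw [LinearMap.comp_apply, LinearMap.comp_apply, mu_tmul]
    have h1 := Conv.tr_smul_mk (D := D) (m := n) (D.x j) u u'
    rw [D.tr_x, if_pos hj] at h1
    simp only [op, opA, LinearMap.sub_apply, LinearMap.rTensor_tmul, LinearMap.lTensor_tmul,
      Algebra.lsmul_coe, h1, TensorProduct.sub_tmul, map_sub, mu_tmul]
  exact LinearMap.congr_fun h z

theorem op_mu' (i : ℕ) (z : (V ⊗[K] M) ⊗[K] N) :
    op D X (Conv D n M N) i n (mu D V n M N z) = mu D V n M N (opB D X M N i z) := by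
  have h : (op D X (Conv D n M N) i n).comp (mu D V n M N) =
      (mu D V n M N).comp (opB D X M N i) := by
    refine TensorProduct.ext_threefold fun v u u' => ?_
    rw [LinearMap.comp_apply, LinearMap.comp_apply, mu_tmul]
    have h1 := Conv.shn_smul_mk (D := D) (m := n) (D.x 0) u u'
    rw [D.shn_x, Nat.add_zero] at h1
    simp only [op, opB, LinearMap.sub_apply, LinearMap.rTensor_tmul, LinearMap.lTensor_tmul,
      Algebra.lsmul_coe, h1, map_sub, mu_tmul]
  exact LinearMap.congr_fun h z

/-- the operator on `(V ⊗ M) ⊗ N` -/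
noncomputable def T' (D : Datum K I) (X : ℕ → Module.End K V) (m n : ℕ) (M : Type)
    [AddCommGroup M] [Module K M] [Module (KLRAlg D) M] [IsScalarTower K (KLRAlg D) M]
    (N : Type) [AddCommGroup N] [Module K N] [Module (KLRAlg D) N]
    [IsScalarTower K (KLRAlg D) N] : Module.End K ((V ⊗[K] M) ⊗[K] N) :=
  ((List.range m).map fun i =>
    ((List.range n).map fun j => opA D X M N i j).prod * opB D X M N i).prod

theorem T_mu (m : ℕ) (z : (V ⊗[K] M) ⊗[K] N) :
    T D X (Conv D n M N) m (n + 1) (mu D V n M N z) = mu D V n M N (T' D X m n M N z) := by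
  refine prod_semi _ _ _ m (fun i _ z => ?_) z
  rw [List.range_succ, List.map_append, List.prod_append, List.map_singleton,
    List.prod_singleton, Module.End.mul_apply, op_mu', Module.End.mul_apply]
  exact prod_semi _ _ _ n (fun j hj z => op_mu X n M N i j hj z) _

theorem comm_AB (hX : ∀ i j, X i * X j = X j * X i) (i j k : ℕ) :
    Commute (opA D X M N i j) (opB D X M N k) := by
  have h : ∀ v, X i (X k v) = X k (X i v) := fun v => LinearMap.congr_fun (hX i k) v
  refine TensorProduct.ext_threefold fun v u u' => ?_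
  simp only [Module.End.mul_apply, op, opA, opB, LinearMap.sub_apply, LinearMap.rTensor_tmul,
    LinearMap.lTensor_tmul, Algebra.lsmul_coe, TensorProduct.sub_tmul, map_sub, h]
  abel

theorem T'_inj (hX : ∀ i j, X i * X j = X j * X i) (m : ℕ)
    (h1 : Function.Injective (T D X M m n))
    (h2 : Function.Injective (((List.range m).map fun i => opB D X M N i).prod)) :
    Function.Injective (T' D X m n M N) := by
  have h3 : T' D X m n M N = ((List.range m).map fun i =>
      ((List.range n).map fun j => opA D X M N i j).prod).prod *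
      ((List.range m).map fun i => opB D X M N i).prod :=
    prod_mul _ _ m fun i k => (comm_prod _ _ _ fun j _ => (comm_AB X M N hX i j k).symm).symm
  have h4 : ((List.range m).map fun i =>
      ((List.range n).map fun j => opA D X M N i j).prod).prod = (T D X M m n).rTensor N := by
    have h5 : (T D X M m n).rTensor N = Module.End.rTensorAlgHom K (V ⊗[K] M) N (T D X M m n) :=
      rfl
    rw [h5, T, map_list_prod, List.map_map]
    congr 1
    refine List.map_congr_left fun i _ => ?_
    rw [Function.comp_apply, map_list_prod, List.map_map]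
    rfl
  rw [h3, h4, Module.End.mul_eq_comp, LinearMap.coe_comp]
  exact (Module.Flat.rTensor_preserves_injective_linearMap (M := N) _ h1).comp h2

/-- the map `(f_w) ↦ ∑ w, tw w • mk f_w` tensored with `V` -/
noncomputable def Phi (D : Datum K I) (V : Type) [AddCommGroup V] [Module K V]
    (n : ℕ) (M : Type) [AddCommGroup M] [Module K M] [Module (KLRAlg D) M]
    (N : Type) [AddCommGroup N] [Module K N] [Module (KLRAlg D) N] :
    (Shf n 1 →₀ (V ⊗[K] M) ⊗[K] N) →ₗ[K] V ⊗[K] Conv D n M N :=
  Finsupp.lsum K fun w => (rho D V (Conv D n M N) (D.tw w.1)).comp (mu D V n M N)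

theorem Phi_single (w : Shf n 1) (z : (V ⊗[K] M) ⊗[K] N) :
    Phi D V n M N (Finsupp.single w z) = rho D V (Conv D n M N) (D.tw w.1) (mu D V n M N z) := by
  simp [Phi]

open Classical in
/-- comparison of `(V ⊗ M) ⊗ N`-valued and `V ⊗ (M ⊗ N)`-valued functions -/
noncomputable def ee (D : Datum K I) (V : Type) [AddCommGroup V] [Module K V]
    (n : ℕ) (M : Type) [AddCommGroup M] [Module K M]
    (N : Type) [AddCommGroup N] [Module K N] :
    (Shf n 1 →₀ (V ⊗[K] M) ⊗[K] N) ≃ₗ[K] V ⊗[K] (Shf n 1 →₀ M ⊗[K] N) :=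
  (Finsupp.mapRange.linearEquiv (TensorProduct.assoc K V M N)).trans
    (TensorProduct.finsuppRight K K V (M ⊗[K] N) (Shf n 1)).symm

theorem Phi_eq : Phi D V n M N =
    ((convSum D n 1 M N).lTensor V).comp (ee (K := K) (I := I) D V n M N).toLinearMap := by
  refine Finsupp.lhom_ext' fun w => TensorProduct.ext_threefold fun v u u' => ?_
  rw [LinearMap.comp_apply, LinearMap.comp_apply, LinearMap.comp_apply, Finsupp.lsingle_apply,
    Phi_single, mu_tmul, rho_tmul]
  have h : (ee (K := K) (I := I) D V n M N).toLinearMap (Finsupp.single w ((v ⊗ₜ u) ⊗ₜ u')) =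
      v ⊗ₜ Finsupp.single w (u ⊗ₜ u') := by
    simp [ee]
  rw [h, LinearMap.lTensor_tmul, convSum_single]

theorem Phi_bij (h : Function.Bijective (convSum D n 1 M N)) :
    Function.Bijective (Phi D V n M N) := by
  rw [Phi_eq, LinearMap.coe_comp]
  refine Function.Bijective.comp ?_ (ee (K := K) (I := I) D V n M N).bijective
  exact ⟨Module.Flat.lTensor_preserves_injective_linearMap (M := V) _ h.1,
    LinearMap.lTensor_surjective V h.2⟩

theorem T_Phi (hC : IsStrand D (n + 1) (Conv D n M N)) (m : ℕ)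
    (g : Shf n 1 →₀ (V ⊗[K] M) ⊗[K] N) :
    T D X (Conv D n M N) m (n + 1) (Phi D V n M N g) =
      Phi D V n M N (Finsupp.mapRange.linearMap (T' D X m n M N) g) := by
  have h : (T D X (Conv D n M N) m (n + 1)).comp (Phi D V n M N) =
      (Phi D V n M N).comp (Finsupp.mapRange.linearMap (T' D X m n M N)) := by
    refine Finsupp.lhom_ext' fun w => LinearMap.ext fun z => ?_
    rw [LinearMap.comp_apply, LinearMap.comp_apply, LinearMap.comp_apply, LinearMap.comp_apply,
      Finsupp.lsingle_apply, Phi_single, Finsupp.mapRange.linearMap_apply,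
      Finsupp.mapRange_single, Phi_single, ← T_mu]
    exact (LinearMap.congr_fun (comm_T X (Conv D n M N) hC m (D.tw w.1)).eq _).symm
  exact LinearMap.congr_fun h g

theorem T_conv_inj (hC : IsStrand D (n + 1) (Conv D n M N)) (m : ℕ)
    (hb : Function.Bijective (convSum D n 1 M N)) (hT : Function.Injective (T' D X m n M N)) :
    Function.Injective (T D X (Conv D n M N) m (n + 1)) := by
  rw [← LinearMap.ker_eq_bot, LinearMap.ker_eq_bot']
  intro y hy
  obtain ⟨g, rfl⟩ := (Phi_bij (V := V) n M N hb).2 y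
  rw [T_Phi X n M N hC] at hy
  have h1 : Finsupp.mapRange.linearMap (T' D X m n M N) g = 0 :=
    (Phi_bij (V := V) n M N hb).1 (hy.trans (map_zero _).symm)
  have h2 : g = 0 := by
    refine Finsupp.ext fun w => ?_
    have h3 := DFunLike.congr_fun h1 w
    rw [Finsupp.mapRange.linearMap_apply, Finsupp.mapRange_apply, Finsupp.zero_apply] at h3
    exact hT (h3.trans (map_zero _).symm)
  rw [h2, map_zero]

end conv

/-- transport along an isomorphism -/
theorem T_equiv {D : Datum K I} {V : Type} [AddCommGroup V] [Module K V]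
    (X : ℕ → Module.End K V) {M : Type} [AddCommGroup M] [Module K M] [Module (KLRAlg D) M]
    [IsScalarTower K (KLRAlg D) M] {N : Type} [AddCommGroup N] [Module K N]
    [Module (KLRAlg D) N] [IsScalarTower K (KLRAlg D) N] (f : M →ₗ[KLRAlg D] N) (m n : ℕ)
    (hf : Function.Injective f) (hT : Function.Injective (T D X N m n)) :
    Function.Injective (T D X M m n) := by
  have h1 : ∀ z, T D X N m n ((Conv.toK f).lTensor V z) =
      (Conv.toK f).lTensor V (T D X M m n z) := by
    refine prod_semi _ _ _ m fun i _ => prod_semi _ _ _ n fun j _ z => ?_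
    have h : (op D X N i j).comp ((Conv.toK f).lTensor V) =
        ((Conv.toK f).lTensor V).comp (op D X M i j) := by
      refine TensorProduct.ext' fun v u => ?_
      simp only [LinearMap.comp_apply, op, LinearMap.sub_apply, LinearMap.rTensor_tmul,
        LinearMap.lTensor_tmul, Algebra.lsmul_coe, map_sub, Conv.toK_apply, map_smul]
    exact LinearMap.congr_fun h z
  have h2 : Function.Injective ((Conv.toK f).lTensor V) :=
    Module.Flat.lTensor_preserves_injective_linearMap (M := V) _ hf
  intro z z' hz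
  apply h2
  apply hT
  rw [h1, h1, hz]

end IZn

theorem prf_zn (D : Datum K I) (hreg : S_reg D) (hrs : S_regSucc D) (hz1 : S_z1 D)
    (hli : S_locInj D) (hsu : S_convSurj D) : S_zn D := by
  intro m n
  induction n with
  | zero =>
    intro V _ _ X _
    have h : ((List.range m).map fun i => ((List.range 0).map fun j =>
        (X i).rTensor (Reg D 0) - (Algebra.lsmul K K (Reg D 0) (D.x j)).lTensor V).prod).prod =
        1 := by
      apply List.prod_eq_one
      intro a ha
      rw [List.mem_map] at ha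
      obtain ⟨i, _, rfl⟩ := ha
      rfl
    rw [h]
    exact Function.injective_id
  | succ n ih =>
    intro V _ _ X hX
    have hs := (hreg n).1
    have hs1 := (hreg 1).1
    have hC : IsStrand D (n + 1) (Conv D n (Reg D n) (Reg D 1)) := Conv.isStrand hs hs1
    have hz : ZInj D (Reg D n) (Reg D 1) n 1 := by
      have h := hz1 n (Reg D n) (fun i => Algebra.lsmul K K (Reg D n) (D.x i))
        (fun i j => by rw [← map_mul, ← map_mul, D.x_comm])
      unfold ZInj zz
      convert h using 3
      refine List.map_congr_left fun i _ => ?_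
      rw [show List.range 1 = [0] from rfl, List.map_singleton, List.prod_singleton]
      rfl
    have hb : Function.Bijective (convSum D n 1 (Reg D n) (Reg D 1)) :=
      ⟨hli n 1 _ _ hs hs1 hz, hsu n 1 _ _ hs hs1⟩
    obtain ⟨f, _⟩ := hrs n
    have h1 : Function.Injective (IZn.T D X (Reg D n) m n) := ih V X hX
    have h2 : Function.Injective
        (((List.range m).map fun i => IZn.opB D X (Reg D n) (Reg D 1) i).prod) :=
      hz1 m (V ⊗[K] Reg D n) (fun i => (X i).rTensor (Reg D n)) (fun i j => by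
        refine TensorProduct.ext' fun v u => ?_
        have h : X i (X j v) = X j (X i v) := LinearMap.congr_fun (hX i j) v
        simp only [Module.End.mul_apply, LinearMap.rTensor_tmul, h])
    have h3 := IZn.T'_inj X n (Reg D n) (Reg D 1) hX m h1 h2
    have h4 := IZn.T_conv_inj X n (Reg D n) (Reg D 1) hC m hb h3
    exact IZn.T_equiv X f.toLinearMap m (n + 1) f.injective h4

end Pbw

end Pool.Agent.KLS

end

section

/-! MP_e487d8_al, PBW block: triangular independence of the shuffles (`prf_ind`). -/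

set_option autoImplicit false

namespace Pool.Agent.KLS

variable {K I : Type} [Field K] [Fintype I] [DecidableEq I]

namespace Pbw

open Loc

namespace Ind

variable {D : Datum K I} {P : Type} [AddCommGroup P] [Module K P]

theorem chain_succ' (D : Datum K I) (m : ℕ) :
    D.chain (m + 1) = D.t 0 * D.shn 1 (D.chain m) := by
  induction m with
  | zero => simp [Datum.chain]
  | succ m ih =>
    have h1 : D.chain (m + 1 + 1) = D.chain (m + 1) * D.t (m + 1) := rfl
    have h2 : D.shn 1 (D.chain (m + 1)) = D.shn 1 (D.chain m) * D.t (m + 1) := by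
      have h3 : D.chain (m + 1) = D.chain m * D.t m := rfl
      rw [h3, map_mul, D.shn_t, add_comm 1 m]
    rw [h1, h2, ih, mul_assoc]

/-! ### `iota` -/

theorem tl_true_iota_zero (n : ℕ) (p : P) :
    tl (K := K) true (iota (K := K) 0 (n + 1) p) = iota (K := K) 0 n p := by
  funext w
  simp [iota, List.replicate_succ]

theorem tl_true_iota_succ (m n : ℕ) (p : P) :
    tl (K := K) true (iota (K := K) (m + 1) n p) = 0 := by
  funext w
  simp [iota, List.replicate_succ]

theorem tl_false_iota_succ (m n : ℕ) (p : P) :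
    tl (K := K) false (iota (K := K) (m + 1) n p) = iota (K := K) m n p := by
  funext w
  simp [iota, List.replicate_succ]

theorem iota_succ_nil (m n : ℕ) (p : P) : iota (K := K) (m + 1) n p [] = 0 := by
  simp [iota, List.replicate_succ]

theorem iota_succ_true (m n : ℕ) (p : P) (w : List Bool) :
    iota (K := K) (m + 1) n p (true :: w) = 0 := by
  simp [iota, List.replicate_succ]

theorem iota_succ_false (m n : ℕ) (p : P) (w : List Bool) :
    iota (K := K) (m + 1) n p (false :: w) = iota (K := K) m n p w := by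
  simp [iota, List.replicate_succ]

theorem iota_map (m n : ℕ) (g : Module.End K P) (p : P) (w : List Bool) :
    iota (K := K) m n (g p) w = g (iota (K := K) m n p w) := by
  change (if w = List.replicate m false ++ List.replicate n true then g p else 0) =
    g (if w = List.replicate m false ++ List.replicate n true then p else 0)
  split_ifs
  · rfl
  · exact (map_zero g).symm

/-! ### the coefficient of the leading term -/

/-- the coefficient of the crossing of a `true` over a `false` -/
noncomputable def C (d : Loc D P) : Module.End K P := d.nn 0 0 - d.A 0 0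

/-- the coefficient of `chain m` -/
noncomputable def Cc : ℕ → Loc D P → Module.End K P
  | 0, _ => 1
  | m + 1, d => C d * Cc m d.shF

theorem rV_t0 (h : S_rels D) (d : Loc D P) (f : List Bool → P) :
    rV h d (D.t 0) f = d.T0 f := by
  unfold rV
  rw [liftHom_t]
  rfl

theorem rV_mul (h : S_rels D) (d : Loc D P) (a b : KLRAlg D) (f : List Bool → P) :
    rV h d (a * b) f = rV h d a (rV h d b f) := by
  rw [map_mul]
  rfl

theorem rV_chain (h : S_rels D) (hV : S_rV D) (m n : ℕ) (d : Loc D P) (p : P) (w : List Bool) :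
    rV h d (D.chain m) (iota (K := K) m (n + 1) p) (true :: w) =
      iota (K := K) m n (Cc m d p) w := by
  induction m generalizing d p w with
  | zero =>
    have h1 : D.chain 0 = 1 := rfl
    rw [h1, map_one]
    exact congrFun (tl_true_iota_zero n p) w
  | succ m ih =>
    rw [chain_succ', rV_mul, rV_t0]
    match w with
    | [] => rw [T0_one, iota_succ_nil]
    | true :: w =>
      rw [T0_TT, (hV h P d _ _ _).2.1, tl_true_iota_succ, map_zero, iota_succ_true]
      exact map_zero _
    | false :: w =>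
      rw [T0_TF, (hV h P d _ _ _).2.1, (hV h P d _ _ _).1, tl_true_iota_succ, map_zero,
        tl_false_iota_succ, ih, iota_succ_false]
      have h1 : (0 : List Bool → P) (false :: w) = 0 := rfl
      rw [h1, map_zero, zero_add]
      have h2 : Cc (m + 1) d p = C d (Cc m d.shF p) := rfl
      rw [h2, iota_map m n (C d) (Cc m d.shF p) w]
      rfl

/-! ### injectivity -/

theorem dd_add_nn (d : Loc D P) (i j : ℕ) :
    d.dd i j + d.nn i j = d.r1 (D.E i) * d.r2 (D.E j) := by
  unfold dd nn Datum.E
  rw [map_sum, map_sum, Finset.sum_mul, ← Finset.sum_add_distrib]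
  refine Finset.sum_congr rfl fun c _ => ?_
  rw [Finset.mul_sum]
  have h1 : ∀ c', d.r1 (D.e i c) * d.r2 (D.e j c') =
      (if c = c' then d.r1 (D.e i c) * d.r2 (D.e j c') else 0) +
        (if c = c' then 0 else d.r1 (D.e i c) * d.r2 (D.e j c')) := by
    intro c'
    split_ifs <;> simp
  conv_rhs => rw [Finset.sum_congr rfl fun c' _ => h1 c']
  rw [Finset.sum_add_distrib, Finset.sum_ite_eq, if_pos (Finset.mem_univ _)]

theorem four (d : Loc D P) (i j : ℕ) (a b c c' : I) :
    d.r1 (D.e i a) * d.r2 (D.e j b) * (d.r1 (D.e i c) * d.r2 (D.e j c')) =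
      d.r1 (D.e i a * D.e i c) * d.r2 (D.e j b * D.e j c') := by
  rw [map_mul, map_mul, mul_assoc, ← mul_assoc (d.r2 (D.e j b)), ← d.comm]
  simp only [mul_assoc]

theorem dd_mul_nn (d : Loc D P) (i j : ℕ) : d.dd i j * d.nn i j = 0 := by
  unfold dd nn
  rw [Finset.sum_mul]
  refine Finset.sum_eq_zero fun a _ => ?_
  rw [Finset.mul_sum]
  refine Finset.sum_eq_zero fun c _ => ?_
  rw [Finset.mul_sum]
  refine Finset.sum_eq_zero fun c' _ => ?_
  split_ifs with h
  · rw [mul_zero]
  · rw [four, D.e_mul_e, D.e_mul_e]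
    by_cases h1 : a = c
    · rw [if_neg (show ¬ a = c' from fun h2 => h (h1.symm.trans h2)), map_zero, mul_zero]
    · rw [if_neg h1, map_zero, zero_mul]

theorem dd_comm_x (d : Loc D P) (i j : ℕ) :
    (d.r1 (D.x i) - d.r2 (D.x j)) * d.dd i j = d.dd i j * (d.r1 (D.x i) - d.r2 (D.x j)) := by
  apply d.comm_dd
  · intro c
    rw [sub_mul, mul_sub, ← map_mul, D.x_e, map_mul, d.comm (D.e i c) (D.x j)]
  · intro c
    rw [sub_mul, mul_sub, d.comm (D.x i) (D.e j c), ← map_mul, D.x_e, map_mul]

theorem C_injective (d : Loc D P) (h1 : d.r1 (D.E 0) = 1) (h2 : d.r2 (D.E 0) = 1) {p : P}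
    (hp : C d p = 0) : p = 0 := by
  have hs : d.dd 0 0 + d.nn 0 0 = 1 := by rw [dd_add_nn, h1, h2, mul_one]
  have hdd : d.dd 0 0 * d.dd 0 0 = d.dd 0 0 := by
    have h3 : d.dd 0 0 * (d.dd 0 0 + d.nn 0 0) = d.dd 0 0 * 1 := by rw [hs]
    rwa [mul_add, dd_mul_nn, add_zero, mul_one] at h3
  have hnn : d.nn 0 0 p = d.A 0 0 p := sub_eq_zero.1 hp
  have hx : (d.r1 (D.x 0) - d.r2 (D.x 0)) * d.A 0 0 = d.dd 0 0 := by
    unfold A
    rw [← mul_assoc, d.mul_v, h1, h2, mul_one, one_mul]
  have h3 : d.dd 0 0 p = 0 := by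
    have h4 : (d.dd 0 0 * ((d.r1 (D.x 0) - d.r2 (D.x 0)) * d.A 0 0)) p = d.dd 0 0 p := by
      rw [hx, hdd]
    rw [← h4]
    have h5 : (d.dd 0 0 * ((d.r1 (D.x 0) - d.r2 (D.x 0)) * d.A 0 0)) p =
        (d.dd 0 0 * (d.r1 (D.x 0) - d.r2 (D.x 0)) * d.nn 0 0) p := by
      rw [mul_assoc, Module.End.mul_apply, Module.End.mul_apply, ← hnn, Module.End.mul_apply,
        Module.End.mul_apply]
    rw [h5, ← dd_comm_x, mul_assoc, dd_mul_nn, mul_zero]
    rfl
  have h4 : d.A 0 0 p = 0 := by
    unfold A
    rw [Module.End.mul_apply, h3, map_zero]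
  have h5 : (d.dd 0 0 + d.nn 0 0) p = p := by rw [hs]; rfl
  rw [← h5, LinearMap.add_apply, h3, hnn, h4, add_zero]

theorem strand_shift {n : ℕ} {V : Type} [AddCommGroup V] [Module K V]
    {r : KLRAlg D →ₐ[K] Module.End K V} (h : StrandHom D (n + 1) r) :
    StrandHom D n (r.comp (D.shn 1)) where
  one k hk := by
    rw [AlgHom.comp_apply, D.shn_E]
    exact h.one (1 + k) (by omega)
  zero k hk i := by
    rw [AlgHom.comp_apply, D.shn_e]
    exact h.zero (1 + k) (by omega) i

theorem Cc_injective (m n : ℕ) (d : Loc D P) (h1 : StrandHom D m d.r1)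
    (h2 : StrandHom D (n + 1) d.r2) {p : P} (hp : Cc m d p = 0) : p = 0 := by
  induction m generalizing d with
  | zero => exact hp
  | succ m ih =>
    have h3 : Cc (m + 1) d p = C d (Cc m d.shF p) := rfl
    rw [h3] at hp
    exact ih d.shF (strand_shift h1) h2
      (C_injective d (h1.one 0 (by omega)) (h2.one 0 (by omega)) hp)

/-! ### the triangular argument -/

theorem main (h : S_rels D) (hV : S_rV D) (N : ℕ) : ∀ (d : Loc D P) (m n : ℕ), m + n = N →
    StrandHom D m d.r1 → StrandHom D n d.r2 →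
    ∀ (S : Finset (List Bool)), (∀ w ∈ S, w.count false = m ∧ w.count true = n) →
    ∀ p : List Bool → P, ∑ w ∈ S, rV h d (D.tw w) (iota (K := K) m n (p w)) = 0 →
    ∀ w ∈ S, p w = 0 := by
  induction N with
  | zero =>
    intro d m n hmn _ _ S hS p hsum w hw
    obtain rfl : m = 0 := by omega
    obtain rfl : n = 0 := by omega
    have hnil : ∀ w ∈ S, w = [] := by
      intro w hw
      obtain ⟨h1, h2⟩ := hS w hw
      rw [List.count_eq_zero] at h1 h2
      rcases w with _ | ⟨b, w⟩
      · rfl
      · cases b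
        · exact absurd List.mem_cons_self h1
        · exact absurd List.mem_cons_self h2
    have hSs : S = {[]} := by
      rw [Finset.eq_singleton_iff_unique_mem]
      exact ⟨by rw [← hnil w hw]; exact hw, hnil⟩
    rw [hSs, Finset.sum_singleton] at hsum
    have h1 : D.tw [] = 1 := rfl
    rw [h1, map_one] at hsum
    have h2 := congrFun hsum []
    rw [hnil w hw]
    simpa [iota] using h2
  | succ N ih =>
    intro d m n hmn hr1 hr2 S hS p hsum
    have hne : ∀ w ∈ S, w ≠ [] := by
      rintro w hw rfl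
      obtain ⟨h1, h2⟩ := hS _ hw
      simp only [List.count_nil] at h1 h2
      omega
    -- the words which begin with `true`
    have htrue : ∀ w, true :: w ∈ S → p (true :: w) = 0 := by
      intro w0 hw0
      obtain ⟨n', rfl⟩ : ∃ n', n = n' + 1 := by
        obtain ⟨_, h2⟩ := hS _ hw0
        rw [List.count_cons_self] at h2
        exact ⟨_, h2.symm⟩
      set S' : Finset (List Bool) := S.preimage (fun w => true :: w)
        (fun a _ b _ hab => (List.cons.inj hab).2) with hS'
      have hmem : ∀ w, w ∈ S' ↔ true :: w ∈ S := fun w => Finset.mem_preimage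
      have hsum' : ∑ w ∈ S', rV h d.shT (D.tw w)
          (iota (K := K) m n' (Cc m d (p (true :: w)))) = 0 := by
        funext w'
        have h1 := congrFun hsum (true :: w')
        rw [Finset.sum_apply] at h1 ⊢
        rw [← Finset.sum_preimage (fun w => true :: w) S
          (fun a _ b _ hab => (List.cons.inj hab).2)] at h1
        · refine Eq.trans ?_ h1
          refine Finset.sum_congr rfl fun w hw => ?_
          have hw1 := (hS _ ((hmem w).1 hw)).1
          rw [List.count_cons_of_ne (by decide)] at hw1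
          have h2 : D.tw (true :: w) = D.shn 1 (D.tw w) * D.chain (w.count false) := rfl
          rw [h2, hw1, rV_mul, (hV h P d _ _ _).2.1]
          have h3 : tl (K := K) true (rV h d (D.chain m)
              (iota (K := K) m (n' + 1) (p (true :: w)))) =
              iota (K := K) m n' (Cc m d (p (true :: w))) := by
            funext w''
            exact rV_chain h hV m n' d _ w''
          rw [h3]
        · intro w hw hnr
          rcases w with _ | ⟨b, w⟩
          · exact absurd rfl (hne _ hw)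
          cases b
          · obtain ⟨m', rfl⟩ : ∃ m', m = m' + 1 := by
              obtain ⟨h2, _⟩ := hS _ hw
              rw [List.count_cons_self] at h2
              exact ⟨_, h2.symm⟩
            have h2 : D.tw (false :: w) = D.shn 1 (D.tw w) := rfl
            rw [h2, (hV h P d _ _ _).2.1, tl_true_iota_succ, map_zero]
            rfl
          · exact absurd ⟨w, rfl⟩ hnr
      have h4 := ih d.shT m n' (by omega) hr1 (strand_shift hr2) S' (by
        intro w hw
        obtain ⟨h5, h6⟩ := hS _ ((hmem w).1 hw)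
        rw [List.count_cons_of_ne (by decide)] at h5
        rw [List.count_cons_self] at h6
        exact ⟨h5, by omega⟩) (fun w => Cc m d (p (true :: w))) hsum' w0 ((hmem w0).2 hw0)
      exact Cc_injective m n' d hr1 hr2 h4
    -- the words which begin with `false`
    have hfalse : ∀ w, false :: w ∈ S → p (false :: w) = 0 := by
      intro w0 hw0
      obtain ⟨m', rfl⟩ : ∃ m', m = m' + 1 := by
        obtain ⟨h2, _⟩ := hS _ hw0
        rw [List.count_cons_self] at h2
        exact ⟨_, h2.symm⟩
      set S' : Finset (List Bool) := S.preimage (fun w => false :: w)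
        (fun a _ b _ hab => (List.cons.inj hab).2) with hS'
      have hmem : ∀ w, w ∈ S' ↔ false :: w ∈ S := fun w => Finset.mem_preimage
      have hsum' : ∑ w ∈ S', rV h d.shF (D.tw w)
          (iota (K := K) m' n (p (false :: w))) = 0 := by
        funext w'
        have h1 := congrFun hsum (false :: w')
        rw [Finset.sum_apply] at h1 ⊢
        rw [← Finset.sum_preimage (fun w => false :: w) S
          (fun a _ b _ hab => (List.cons.inj hab).2)] at h1
        · refine Eq.trans ?_ h1
          refine Finset.sum_congr rfl fun w hw => ?_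
          have h2 : D.tw (false :: w) = D.shn 1 (D.tw w) := rfl
          rw [h2, (hV h P d _ _ _).1, tl_false_iota_succ]
        · intro w hw hnr
          rcases w with _ | ⟨b, w⟩
          · exact absurd rfl (hne _ hw)
          cases b
          · exact absurd ⟨w, rfl⟩ hnr
          · rw [htrue w hw, map_zero, map_zero]
            rfl
      exact ih d.shF m' n (by omega) (strand_shift hr1) hr2 S' (by
        intro w hw
        obtain ⟨h5, h6⟩ := hS _ ((hmem w).1 hw)
        rw [List.count_cons_self] at h5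
        rw [List.count_cons_of_ne (by decide)] at h6
        exact ⟨by omega, h6⟩) (fun w => p (false :: w)) hsum' w0 ((hmem w0).2 hw0)
    intro w hw
    rcases w with _ | ⟨b, w⟩
    · exact absurd rfl (hne _ hw)
    cases b
    · exact hfalse w hw
    · exact htrue w hw

end Ind

theorem prf_ind (D : Datum K I) (hV : S_rV D) : S_ind D := by
  intro h P _ _ d m n h1 h2 S hS p hsum
  exact Ind.main h hV (m + n) d m n rfl h1 h2 S hS p hsum

end Pbw

end Pool.Agent.KLS

end

section

/-! MP_e487d8_al, PBW block: the relations of `t` with `x` and the square of `t` for the operators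
on functions on words (`prf_rQ`). -/

set_option autoImplicit false
set_option linter.unusedSectionVars false

namespace Pool.Agent.KLS

variable {K I : Type} [Field K] [Fintype I] [DecidableEq I]

namespace Pbw

variable {D : Datum K I} {P : Type} [AddCommGroup P] [Module K P]

open Loc

namespace RQX

/-! ### operators which act diagonally at a word -/

/-- the operator `F` acts at the word `w` by `φ` -/
def At (w : List Bool) (F : Module.End K (List Bool → P)) (φ : Module.End K P) : Prop :=
  ∀ f, F f w = φ (f w)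

theorem At.mul {w : List Bool} {F G : Module.End K (List Bool → P)} {φ ψ : Module.End K P}
    (h : At w F φ) (h' : At w G ψ) : At w (F * G) (φ * ψ) := fun f => by
  rw [Module.End.mul_apply, h, h', Module.End.mul_apply]

theorem At.add {w : List Bool} {F G : Module.End K (List Bool → P)} {φ ψ : Module.End K P}
    (h : At w F φ) (h' : At w G ψ) : At w (F + G) (φ + ψ) := fun f => by
  rw [LinearMap.add_apply, Pi.add_apply, h, h', LinearMap.add_apply]

theorem At.sub {w : List Bool} {F G : Module.End K (List Bool → P)} {φ ψ : Module.End K P}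
    (h : At w F φ) (h' : At w G ψ) : At w (F - G) (φ - ψ) := fun f => by
  rw [LinearMap.sub_apply, Pi.sub_apply, h, h', LinearMap.sub_apply]

theorem At.smul {w : List Bool} {F : Module.End K (List Bool → P)} {φ : Module.End K P} (r : K)
    (h : At w F φ) : At w (r • F) (r • φ) := fun f => by
  rw [LinearMap.smul_apply, Pi.smul_apply, h, LinearMap.smul_apply]

theorem At.zero (w : List Bool) : At w (0 : Module.End K (List Bool → P)) 0 := fun _ => rfl

theorem At.one (w : List Bool) : At w (1 : Module.End K (List Bool → P)) 1 := fun _ => rfl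

theorem At.pow {w : List Bool} {F : Module.End K (List Bool → P)} {φ : Module.End K P}
    (h : At w F φ) (n : ℕ) : At w (F ^ n) (φ ^ n) := by
  induction n with
  | zero => rw [pow_zero, pow_zero]; exact At.one w
  | succ n ih => rw [pow_succ, pow_succ]; exact ih.mul h

theorem At.sum {w : List Bool} {ι : Type*} (s : Finset ι)
    {F : ι → Module.End K (List Bool → P)} {φ : ι → Module.End K P}
    (h : ∀ i, At w (F i) (φ i)) : At w (∑ i ∈ s, F i) (∑ i ∈ s, φ i) := by
  classical
  induction s using Finset.induction_on with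
  | empty => rw [Finset.sum_empty, Finset.sum_empty]; exact At.zero w
  | insert a s ha ih => rw [Finset.sum_insert ha, Finset.sum_insert ha]; exact (h a).add ih

theorem At.sumE {w : List Bool} {F G : I → Module.End K (List Bool → P)}
    {φ ψ : I → Module.End K P} (h : ∀ i, At w (F i) (φ i)) (h' : ∀ i, At w (G i) (ψ i)) :
    At w (∑ i, F i * G i) (∑ i, φ i * ψ i) := At.sum _ fun i => (h i).mul (h' i)

/-- the right side of the quadratic relation -/
noncomputable def quad (D : Datum K I) {B : Type} [Ring B] [Algebra K B] (x x' : B) (e e' : I → B) :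
    B := ∑ i, ∑ j, if i = j then 0 else D.QE i j x x' * (e i * e' j)

theorem At.QE (D : Datum K I) (i j : I) {w : List Bool} {X X' : Module.End K (List Bool → P)}
    {x x' : Module.End K P} (hx : At w X x) (hx' : At w X' x') :
    At w (D.QE i j X X') (D.QE i j x x') := by
  unfold Datum.QE
  exact At.sum _ fun p => At.sum _ fun q => ((hx.pow p).mul (hx'.pow q)).smul _

theorem At.quad (D : Datum K I) {w : List Bool} {X X' : Module.End K (List Bool → P)}
    {x x' : Module.End K P} {F G : I → Module.End K (List Bool → P)}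
    {φ ψ : I → Module.End K P} (hx : At w X x) (hx' : At w X' x')
    (h : ∀ i, At w (F i) (φ i)) (h' : ∀ i, At w (G i) (ψ i)) :
    At w (quad D X X' F G) (quad D x x' φ ψ) := by
  unfold RQX.quad
  refine At.sum _ fun i => At.sum _ fun j => ?_
  split_ifs
  · exact At.zero w
  · exact (At.QE D i j hx hx').mul ((h i).mul (h' j))

theorem quad_zero_right (D : Datum K I) {B : Type} [Ring B] [Algebra K B] (x x' : B) (e : I → B) :
    quad D x x' e (fun _ => 0) = 0 := by
  unfold quad
  refine Finset.sum_eq_zero fun i _ => Finset.sum_eq_zero fun j _ => ?_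
  split_ifs
  · rfl
  · rw [mul_zero, mul_zero]

theorem glue_QE_mul (D : Datum K I) (i j : I) (x x' y y' a b : Module.End K (List Bool → P)) :
    D.QE i j (glue x y) (glue x' y') * glue a b =
      glue (D.QE i j x x' * a) (D.QE i j y y' * b) := by
  unfold Datum.QE
  rw [Finset.sum_mul, Finset.sum_mul, Finset.sum_mul, ← glue_sum]
  refine Finset.sum_congr rfl fun p _ => ?_
  rw [Finset.sum_mul, Finset.sum_mul, Finset.sum_mul, ← glue_sum]
  refine Finset.sum_congr rfl fun q _ => ?_
  rw [smul_mul_assoc, smul_mul_assoc, smul_mul_assoc, mul_assoc, glue_pow_mul, glue_pow_mul,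
    glue_smul, mul_assoc, mul_assoc]

theorem quad_glue (D : Datum K I) (x x' y y' : Module.End K (List Bool → P))
    (e e' g g' : I → Module.End K (List Bool → P)) :
    quad D (glue x y) (glue x' y') (fun i => glue (e i) (g i)) (fun i => glue (e' i) (g' i)) =
      glue (quad D x x' e e') (quad D y y' g g') := by
  unfold quad
  rw [← glue_sum]
  refine Finset.sum_congr rfl fun i _ => ?_
  rw [← glue_sum]
  refine Finset.sum_congr rfl fun j _ => ?_
  split_ifs
  · rw [glue_zero]
  · rw [glue_mul, glue_QE_mul]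

theorem map_quad (D : Datum K I) {B B' : Type} [Ring B] [Algebra K B] [Ring B'] [Algebra K B']
    (r : B →ₐ[K] B') (x x' : B) (e e' : I → B) :
    r (quad D x x' e e') = quad D (r x) (r x') (fun i => r (e i)) (fun i => r (e' i)) := by
  unfold quad
  rw [map_sum]
  refine Finset.sum_congr rfl fun i _ => ?_
  rw [map_sum]
  refine Finset.sum_congr rfl fun j _ => ?_
  split_ifs
  · exact map_zero r
  · rw [map_mul, map_QE, map_mul]

/-! ### values of the operators -/

theorem X0_nil (d : Loc D P) : At [] (opX 0 d) 0 := fun f => opX_nil 0 d f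
theorem X1_nil (d : Loc D P) : At [] (opX 1 d) 0 := fun f => opX_nil 1 d f
theorem E0_nil (d : Loc D P) (i : I) : At [] (opE 0 i d) 0 := fun f => opE_nil 0 i d f
theorem E1_nil (d : Loc D P) (i : I) : At [] (opE 1 i d) 0 := fun f => opE_nil 1 i d f

theorem X0_F (d : Loc D P) (w : List Bool) : At (false :: w) (opX 0 d) (d.r1 (D.x 0)) :=
  fun _ => rfl
theorem X0_T (d : Loc D P) (w : List Bool) : At (true :: w) (opX 0 d) (d.r2 (D.x 0)) :=
  fun _ => rfl
theorem E0_F (d : Loc D P) (w : List Bool) (i : I) :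
    At (false :: w) (opE 0 i d) (d.r1 (D.e 0 i)) := fun _ => rfl
theorem E0_T (d : Loc D P) (w : List Bool) (i : I) :
    At (true :: w) (opE 0 i d) (d.r2 (D.e 0 i)) := fun _ => rfl

theorem X1_one (d : Loc D P) (b : Bool) : At [b] (opX 1 d) 0 := by
  cases b <;> exact fun _ => rfl
theorem E1_one (d : Loc D P) (b : Bool) (i : I) : At [b] (opE 1 i d) 0 := by
  cases b <;> exact fun _ => rfl

theorem X1_FF (d : Loc D P) (w : List Bool) :
    At (false :: false :: w) (opX 1 d) (d.r1 (D.x 1)) := by
  intro f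
  have h : D.shn 1 (D.x 0) = D.x 1 := D.shn_x 1 0
  rw [← h]
  rfl
theorem X1_FT (d : Loc D P) (w : List Bool) :
    At (false :: true :: w) (opX 1 d) (d.r2 (D.x 0)) := fun _ => rfl
theorem X1_TF (d : Loc D P) (w : List Bool) :
    At (true :: false :: w) (opX 1 d) (d.r1 (D.x 0)) := fun _ => rfl
theorem X1_TT (d : Loc D P) (w : List Bool) :
    At (true :: true :: w) (opX 1 d) (d.r2 (D.x 1)) := by
  intro f
  have h : D.shn 1 (D.x 0) = D.x 1 := D.shn_x 1 0
  rw [← h]
  rfl

theorem E1_FF (d : Loc D P) (w : List Bool) (i : I) :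
    At (false :: false :: w) (opE 1 i d) (d.r1 (D.e 1 i)) := by
  intro f
  have h : D.shn 1 (D.e 0 i) = D.e 1 i := D.shn_e 1 0 i
  rw [← h]
  rfl
theorem E1_FT (d : Loc D P) (w : List Bool) (i : I) :
    At (false :: true :: w) (opE 1 i d) (d.r2 (D.e 0 i)) := fun _ => rfl
theorem E1_TF (d : Loc D P) (w : List Bool) (i : I) :
    At (true :: false :: w) (opE 1 i d) (d.r1 (D.e 0 i)) := fun _ => rfl
theorem E1_TT (d : Loc D P) (w : List Bool) (i : I) :
    At (true :: true :: w) (opE 1 i d) (d.r2 (D.e 1 i)) := by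
  intro f
  have h : D.shn 1 (D.e 0 i) = D.e 1 i := D.shn_e 1 0 i
  rw [← h]
  rfl

/-! ### the algebra generated by the `e`, `x` and `v` -/

section alg

variable (d : Loc D P) (i j : ℕ)

theorem prod_prod (a b c c' : I) :
    (d.r1 (D.e i a) * d.r2 (D.e j b)) * (d.r1 (D.e i c) * d.r2 (D.e j c')) =
      if a = c ∧ b = c' then d.r1 (D.e i a) * d.r2 (D.e j b) else 0 := by
  have h : (d.r1 (D.e i a) * d.r2 (D.e j b)) * (d.r1 (D.e i c) * d.r2 (D.e j c')) =
      (d.r1 (D.e i a) * d.r1 (D.e i c)) * (d.r2 (D.e j b) * d.r2 (D.e j c')) := by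
    rw [mul_assoc, ← mul_assoc (d.r2 (D.e j b)), ← d.comm, mul_assoc, mul_assoc]
  rw [h, ← map_mul, ← map_mul, D.e_mul_e, D.e_mul_e]
  by_cases h1 : a = c
  · by_cases h2 : b = c'
    · rw [if_pos h1, if_pos h2, if_pos ⟨h1, h2⟩]
    · rw [if_neg h2, map_zero, mul_zero, if_neg fun h => h2 h.2]
  · rw [if_neg h1, map_zero, zero_mul, if_neg fun h => h1 h.1]

theorem dd_mul (c c' : I) : d.dd i j * (d.r1 (D.e i c) * d.r2 (D.e j c')) =
    if c = c' then d.r1 (D.e i c) * d.r2 (D.e j c') else 0 := by
  unfold dd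
  rw [Finset.sum_mul]
  simp_rw [prod_prod]
  split_ifs with h
  · subst h
    rw [Finset.sum_eq_single c]
    · rw [if_pos ⟨rfl, rfl⟩]
    · intro b _ hb
      rw [if_neg fun h => hb h.1]
    · intro h
      exact absurd (Finset.mem_univ _) h
  · refine Finset.sum_eq_zero fun b _ => ?_
    rw [if_neg]
    rintro ⟨h1, h2⟩
    exact h (h1.symm.trans h2)

theorem mul_nn {c c' : I} (h : c ≠ c') : (d.r1 (D.e i c) * d.r2 (D.e j c')) * d.nn i j =
    d.r1 (D.e i c) * d.r2 (D.e j c') := by
  unfold nn
  rw [Finset.mul_sum, Finset.sum_eq_single c]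
  · rw [Finset.mul_sum, Finset.sum_eq_single c']
    · rw [if_neg h, prod_prod, if_pos ⟨rfl, rfl⟩]
    · intro b _ hb
      split_ifs
      · rw [mul_zero]
      · rw [prod_prod, if_neg fun h => hb h.2.symm]
    · intro h
      exact absurd (Finset.mem_univ _) h
  · intro b _ hb
    rw [Finset.mul_sum]
    refine Finset.sum_eq_zero fun b' _ => ?_
    split_ifs
    · rw [mul_zero]
    · rw [prod_prod, if_neg fun h => hb h.1.symm]
  · intro h
    exact absurd (Finset.mem_univ _) h

theorem dd_nn : d.dd i j * d.nn i j = 0 := by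
  conv_lhs => rw [nn]
  rw [Finset.mul_sum]
  refine Finset.sum_eq_zero fun c _ => ?_
  rw [Finset.mul_sum]
  refine Finset.sum_eq_zero fun c' _ => ?_
  split_ifs with h
  · rw [mul_zero]
  · rw [dd_mul, if_neg h]

/-! commutation of the first action -/

theorem x_e1 (c : I) : d.r1 (D.x i) * d.r1 (D.e i c) = d.r1 (D.e i c) * d.r1 (D.x i) := by
  rw [← map_mul, D.x_e, map_mul]

theorem x_e2 (c : I) : d.r2 (D.x j) * d.r2 (D.e j c) = d.r2 (D.e j c) * d.r2 (D.x j) := by
  rw [← map_mul, D.x_e, map_mul]

theorem xy_e1 (c : I) : (d.r1 (D.x i) - d.r2 (D.x j)) * d.r1 (D.e i c) =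
    d.r1 (D.e i c) * (d.r1 (D.x i) - d.r2 (D.x j)) := by
  rw [sub_mul, mul_sub, x_e1, d.comm]

theorem xy_e2 (c : I) : (d.r1 (D.x i) - d.r2 (D.x j)) * d.r2 (D.e j c) =
    d.r2 (D.e j c) * (d.r1 (D.x i) - d.r2 (D.x j)) := by
  rw [sub_mul, mul_sub, x_e2, d.comm]

theorem x1_xy : d.r1 (D.x i) * (d.r1 (D.x i) - d.r2 (D.x j)) =
    (d.r1 (D.x i) - d.r2 (D.x j)) * d.r1 (D.x i) := by
  rw [sub_mul, mul_sub, d.comm]

theorem x2_xy : d.r2 (D.x j) * (d.r1 (D.x i) - d.r2 (D.x j)) =
    (d.r1 (D.x i) - d.r2 (D.x j)) * d.r2 (D.x j) := by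
  rw [sub_mul, mul_sub, d.comm]

theorem xy_dd : (d.r1 (D.x i) - d.r2 (D.x j)) * d.dd i j =
    d.dd i j * (d.r1 (D.x i) - d.r2 (D.x j)) := d.comm_dd i j (xy_e1 d i j) (xy_e2 d i j)

theorem x1_A : d.r1 (D.x i) * d.A i j = d.A i j * d.r1 (D.x i) :=
  d.comm_A i j (x_e1 d i) (fun _ => d.comm _ _) (x1_xy d i j)

theorem x2_A : d.r2 (D.x j) * d.A i j = d.A i j * d.r2 (D.x j) :=
  d.comm_A i j (fun _ => (d.comm _ _).symm) (x_e2 d j) (x2_xy d i j)

theorem x1_qq : d.r1 (D.x i) * d.qq i j = d.qq i j * d.r1 (D.x i) :=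
  d.comm_qq i j (x_e1 d i) (fun _ => d.comm _ _) rfl (d.comm _ _)

theorem x2_qq : d.r2 (D.x j) * d.qq i j = d.qq i j * d.r2 (D.x j) :=
  d.comm_qq i j (fun _ => (d.comm _ _).symm) (x_e2 d j) (d.comm _ _).symm rfl

theorem x1_nn : d.r1 (D.x i) * d.nn i j = d.nn i j * d.r1 (D.x i) :=
  d.comm_nn i j (x_e1 d i) (fun _ => d.comm _ _)

theorem x2_nn : d.r2 (D.x j) * d.nn i j = d.nn i j * d.r2 (D.x j) :=
  d.comm_nn i j (fun _ => (d.comm _ _).symm) (x_e2 d j)

/-! commutation of the `e` -/

theorem e1_e1 (c c' : I) : d.r1 (D.e i c) * d.r1 (D.e i c') = d.r1 (D.e i c') * d.r1 (D.e i c) := by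
  rw [← map_mul, D.e_comm, map_mul]

theorem e2_e2 (c c' : I) : d.r2 (D.e j c) * d.r2 (D.e j c') = d.r2 (D.e j c') * d.r2 (D.e j c) := by
  rw [← map_mul, D.e_comm, map_mul]

theorem e1_qq (c : I) : d.r1 (D.e i c) * d.qq i j = d.qq i j * d.r1 (D.e i c) :=
  d.comm_qq i j (e1_e1 d i c) (fun _ => d.comm _ _) (x_e1 d i c).symm (d.comm _ _)

theorem e2_qq (c : I) : d.r2 (D.e j c) * d.qq i j = d.qq i j * d.r2 (D.e j c) :=
  d.comm_qq i j (fun _ => (d.comm _ _).symm) (e2_e2 d j c) (d.comm _ _).symm (x_e2 d j c).symm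

theorem e1_nn (c : I) : d.r1 (D.e i c) * d.nn i j = d.nn i j * d.r1 (D.e i c) :=
  d.comm_nn i j (e1_e1 d i c) (fun _ => d.comm _ _)

theorem e2_nn (c : I) : d.r2 (D.e j c) * d.nn i j = d.nn i j * d.r2 (D.e j c) :=
  d.comm_nn i j (fun _ => (d.comm _ _).symm) (e2_e2 d j c)

theorem qq_A : d.qq i j * d.A i j = d.A i j * d.qq i j := by
  refine d.comm_A i j (fun c => (e1_qq d i j c).symm) (fun c => (e2_qq d i j c).symm) ?_
  rw [mul_sub, sub_mul, ← x1_qq, ← x2_qq]

theorem nn_A : d.nn i j * d.A i j = d.A i j * d.nn i j := by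
  refine d.comm_A i j (fun c => (e1_nn d i j c).symm) (fun c => (e2_nn d i j c).symm) ?_
  rw [mul_sub, sub_mul, ← x1_nn, ← x2_nn]

theorem nn_qq : d.nn i j * d.qq i j = d.qq i j * d.nn i j :=
  d.comm_qq i j (fun c => (e1_nn d i j c).symm) (fun c => (e2_nn d i j c).symm)
    (x1_nn d i j).symm (x2_nn d i j).symm

theorem x1_dd : d.dd i j * d.r1 (D.x i) = d.r1 (D.x i) * d.dd i j :=
  (d.comm_dd i j (x_e1 d i) (fun _ => d.comm _ _)).symm

theorem x2_dd : d.dd i j * d.r2 (D.x j) = d.r2 (D.x j) * d.dd i j :=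
  (d.comm_dd i j (fun _ => (d.comm _ _).symm) (x_e2 d j)).symm

theorem dd_qq : d.dd i j * d.qq i j = 0 := by
  conv_lhs => rw [qq]
  rw [Finset.mul_sum]
  refine Finset.sum_eq_zero fun c _ => ?_
  rw [Finset.mul_sum]
  refine Finset.sum_eq_zero fun c' _ => ?_
  split_ifs with h
  · rw [mul_zero]
  · have hp : d.dd i j * D.QE c c' (d.r1 (D.x i)) (d.r2 (D.x j)) =
        D.QE c c' (d.r1 (D.x i)) (d.r2 (D.x j)) * d.dd i j :=
      Datum.QE_semi (x1_dd d i j) (x2_dd d i j)
    rw [← mul_assoc, hp, mul_assoc, dd_mul, if_neg h, mul_zero]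

theorem qq_mul_nn : d.qq i j * d.nn i j = d.qq i j := by
  conv_lhs => rw [qq]
  conv_rhs => rw [qq]
  rw [Finset.sum_mul]
  refine Finset.sum_congr rfl fun c _ => ?_
  rw [Finset.sum_mul]
  refine Finset.sum_congr rfl fun c' _ => ?_
  split_ifs with h
  · rw [zero_mul]
  · rw [mul_assoc, mul_nn d i j h]

theorem A_nn : d.A i j * d.nn i j = 0 := by
  unfold A
  rw [mul_assoc, dd_nn, mul_zero]

theorem A_qq : d.A i j * d.qq i j = 0 := by
  unfold A
  rw [mul_assoc, dd_qq, mul_zero]

theorem EE_dd : d.r1 (D.E i) * d.r2 (D.E j) * d.dd i j = d.dd i j := by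
  unfold dd
  rw [Finset.mul_sum]
  refine Finset.sum_congr rfl fun c _ => ?_
  have h1 : d.r1 (D.E i) * d.r1 (D.e i c) = d.r1 (D.e i c) := by
    rw [← map_mul, D.E_comm, D.e_E]
  have h2 : d.r2 (D.E j) * d.r2 (D.e j c) = d.r2 (D.e j c) := by
    rw [← map_mul, D.E_comm, D.e_E]
  rw [mul_assoc, ← mul_assoc (d.r2 (D.E j)), ← d.comm, mul_assoc, h2, ← mul_assoc, h1]

theorem A_xy : d.A i j * (d.r1 (D.x i) - d.r2 (D.x j)) = d.dd i j := by
  unfold A
  rw [mul_assoc, ← xy_dd, ← mul_assoc, d.v_mul, EE_dd]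

theorem A_x1 : d.A i j * d.r1 (D.x i) = d.r2 (D.x j) * d.A i j + d.dd i j := by
  rw [← A_xy, mul_sub, x2_A]
  abel

theorem A_x2 : d.A i j * d.r2 (D.x j) = d.r1 (D.x i) * d.A i j - d.dd i j := by
  rw [← A_xy, mul_sub, x1_A]
  abel

/-- the square of `t` on the words `false :: true :: w` -/
theorem sq1 : (d.A i j + d.qq i j) * (d.nn i j - d.A i j) + d.A i j * d.A i j = d.qq i j := by
  rw [add_mul, mul_sub, mul_sub, A_nn, qq_mul_nn, qq_A, A_qq]
  abel

/-- the square of `t` on the words `true :: false :: w` -/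
theorem sq2 : (d.nn i j - d.A i j) * (d.A i j + d.qq i j) + d.A i j * d.A i j = d.qq i j := by
  rw [sub_mul, mul_add, mul_add, nn_A, A_nn, nn_qq, qq_mul_nn, A_qq]
  abel

/-- `qq` with the roles of the actions exchanged -/
theorem qq_swap : quad D (d.r2 (D.x j)) (d.r1 (D.x i)) (fun c => d.r2 (D.e j c))
    (fun c => d.r1 (D.e i c)) = d.qq i j := by
  unfold quad qq
  rw [Finset.sum_comm]
  refine Finset.sum_congr rfl fun c _ => Finset.sum_congr rfl fun c' _ => ?_
  by_cases h : c = c'
  · rw [if_pos h.symm, if_pos h]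
  · rw [if_neg fun h' => h h'.symm, if_neg h, d.comm,
      Datum.QE_symm (fun h' => h h'.symm) (d.comm (D.x i) (D.x j)).symm]

theorem qq_quad : quad D (d.r1 (D.x i)) (d.r2 (D.x j)) (fun c => d.r1 (D.e i c))
    (fun c => d.r2 (D.e j c)) = d.qq i j := rfl

end alg

/-! ### the relations for the first two strands -/

theorem dl_r1 (d : Loc D P) : ∑ i, d.r1 (D.e 0 i) * d.r1 (D.e 1 i) = d.r1 (D.dl 0) := by
  unfold Datum.dl
  rw [map_sum]
  exact Finset.sum_congr rfl fun i _ => (map_mul _ _ _).symm

theorem dl_r2 (d : Loc D P) : ∑ i, d.r2 (D.e 0 i) * d.r2 (D.e 1 i) = d.r2 (D.dl 0) := by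
  unfold Datum.dl
  rw [map_sum]
  exact Finset.sum_congr rfl fun i _ => (map_mul _ _ _).symm

theorem dd_swap (d : Loc D P) (i j : ℕ) :
    ∑ c, d.r2 (D.e j c) * d.r1 (D.e i c) = d.dd i j := by
  unfold dd
  exact Finset.sum_congr rfl fun c _ => (d.comm _ _).symm

theorem sum_nil (d : Loc D P) : At [] (∑ i, opE 0 i d * opE 1 i d) 0 := by
  have h := At.sumE (E0_nil d) (E1_nil d)
  simpa using h

theorem sum_one (d : Loc D P) (b : Bool) : At [b] (∑ i, opE 0 i d * opE 1 i d) 0 := by
  cases b
  · have h := At.sumE (E0_F d []) (E1_one d false)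
    simpa using h
  · have h := At.sumE (E0_T d []) (E1_one d true)
    simpa using h

theorem sum_FF (d : Loc D P) (w : List Bool) :
    At (false :: false :: w) (∑ i, opE 0 i d * opE 1 i d) (d.r1 (D.dl 0)) := by
  rw [← dl_r1]
  exact At.sumE (E0_F d _) (E1_FF d w)

theorem sum_TT (d : Loc D P) (w : List Bool) :
    At (true :: true :: w) (∑ i, opE 0 i d * opE 1 i d) (d.r2 (D.dl 0)) := by
  rw [← dl_r2]
  exact At.sumE (E0_T d _) (E1_TT d w)

theorem sum_FT (d : Loc D P) (w : List Bool) :
    At (false :: true :: w) (∑ i, opE 0 i d * opE 1 i d) (d.dd 0 0) :=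
  At.sumE (E0_F d _) (E1_FT d w)

theorem sum_TF (d : Loc D P) (w : List Bool) :
    At (true :: false :: w) (∑ i, opE 0 i d * opE 1 i d) (d.dd 0 0) := by
  rw [← dd_swap]
  exact At.sumE (E0_T d _) (E1_TF d w)

theorem app {a b c e : Module.End K P} (h : a * b = c * e) (p : P) : a (b p) = c (e p) :=
  LinearMap.congr_fun h p

theorem tx0_zero (d : Loc D P) :
    opT 0 d * opX 0 d = opX 1 d * opT 0 d - ∑ i, opE 0 i d * opE 1 i d := by
  apply ext_two
  · intro f
    rw [LinearMap.sub_apply, Pi.sub_apply, sum_nil d f, Module.End.mul_apply, Module.End.mul_apply,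
      opT_nil, opX_nil, LinearMap.zero_apply, sub_zero]
  · intro f b
    rw [LinearMap.sub_apply, Pi.sub_apply, sum_one d b f, Module.End.mul_apply,
      Module.End.mul_apply, opT_zero, T0_one, X1_one, LinearMap.zero_apply, LinearMap.zero_apply,
      sub_zero]
  · intro f b b' w
    rw [LinearMap.sub_apply, Pi.sub_apply, Module.End.mul_apply, Module.End.mul_apply, opT_zero]
    match b, b' with
    | false, false =>
      rw [T0_FF, X0_F, X1_FF, T0_FF, sum_FF]
      have h := congrArg d.r1 (D.t_x0 0)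
      rw [map_mul, map_sub, map_mul] at h
      exact LinearMap.congr_fun h _
    | true, true =>
      rw [T0_TT, X0_T, X1_TT, T0_TT, sum_TT]
      have h := congrArg d.r2 (D.t_x0 0)
      rw [map_mul, map_sub, map_mul] at h
      exact LinearMap.congr_fun h _
    | false, true =>
      rw [T0_FT, X0_F, X0_T, X1_FT, T0_FT, sum_FT, map_sub, LinearMap.add_apply,
        LinearMap.add_apply, map_add]
      have h1 := LinearMap.congr_fun (A_x1 d 0 0) (f (false :: true :: w))
      rw [Module.End.mul_apply, LinearMap.add_apply, Module.End.mul_apply] at h1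
      rw [h1, app (x2_A d 0 0), app (x2_qq d 0 0), app (x2_A d 0 0)]
      abel
    | true, false =>
      rw [T0_TF, X0_F, X0_T, X1_TF, T0_TF, sum_TF, map_add, LinearMap.sub_apply,
        LinearMap.sub_apply, map_sub]
      have h1 := LinearMap.congr_fun (A_x2 d 0 0) (f (true :: false :: w))
      rw [Module.End.mul_apply, LinearMap.sub_apply, Module.End.mul_apply] at h1
      rw [h1, app (x1_nn d 0 0), app (x1_A d 0 0) (f (false :: true :: w))]
      abel

theorem tx1_zero (d : Loc D P) :
    opT 0 d * opX 1 d = opX 0 d * opT 0 d + ∑ i, opE 0 i d * opE 1 i d := by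
  apply ext_two
  · intro f
    rw [LinearMap.add_apply, Pi.add_apply, sum_nil d f, Module.End.mul_apply, Module.End.mul_apply,
      opT_nil, opX_nil, LinearMap.zero_apply, add_zero]
  · intro f b
    rw [LinearMap.add_apply, Pi.add_apply, sum_one d b f, Module.End.mul_apply,
      Module.End.mul_apply, opT_zero, T0_one, LinearMap.zero_apply, add_zero]
    cases b
    · rw [X0_F, T0_one, map_zero]
    · rw [X0_T, T0_one, map_zero]
  · intro f b b' w
    rw [LinearMap.add_apply, Pi.add_apply, Module.End.mul_apply, Module.End.mul_apply, opT_zero]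
    match b, b' with
    | false, false =>
      rw [T0_FF, X0_F, X1_FF, T0_FF, sum_FF]
      have h := congrArg d.r1 (D.t_x1 0)
      rw [map_mul, map_add, map_mul] at h
      exact LinearMap.congr_fun h _
    | true, true =>
      rw [T0_TT, X0_T, X1_TT, T0_TT, sum_TT]
      have h := congrArg d.r2 (D.t_x1 0)
      rw [map_mul, map_add, map_mul] at h
      exact LinearMap.congr_fun h _
    | false, true =>
      rw [T0_FT, X0_F, X1_FT, X1_TF, T0_FT, sum_FT, map_sub, LinearMap.add_apply,
        LinearMap.add_apply, map_add]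
      have h1 := LinearMap.congr_fun (A_x2 d 0 0) (f (false :: true :: w))
      rw [Module.End.mul_apply, LinearMap.sub_apply, Module.End.mul_apply] at h1
      rw [h1, app (x1_A d 0 0) (f (true :: false :: w)), app (x1_qq d 0 0)]
      abel
    | true, false =>
      rw [T0_TF, X0_T, X1_FT, X1_TF, T0_TF, sum_TF, map_add, LinearMap.sub_apply,
        LinearMap.sub_apply, map_sub]
      have h1 := LinearMap.congr_fun (A_x1 d 0 0) (f (true :: false :: w))
      rw [Module.End.mul_apply, LinearMap.add_apply, Module.End.mul_apply] at h1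
      rw [h1, app (x2_nn d 0 0), app (x2_A d 0 0) (f (false :: true :: w))]
      abel

theorem tt_zero (d : Loc D P) : opT 0 d * opT 0 d =
    quad D (opX 0 d) (opX 1 d) (fun i => opE 0 i d) (fun i => opE 1 i d) := by
  apply ext_two
  · intro f
    have h := At.quad D (X0_nil d) (X1_nil d) (E0_nil d) (E1_nil d)
    rw [quad_zero_right] at h
    rw [h, Module.End.mul_apply, opT_nil, LinearMap.zero_apply]
  · intro f b
    rw [Module.End.mul_apply, opT_zero, T0_one]
    cases b
    · have h := At.quad D (X0_F d []) (X1_one d false) (E0_F d []) (E1_one d false)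
      rw [quad_zero_right] at h
      rw [h, LinearMap.zero_apply]
    · have h := At.quad D (X0_T d []) (X1_one d true) (E0_T d []) (E1_one d true)
      rw [quad_zero_right] at h
      rw [h, LinearMap.zero_apply]
  · intro f b b' w
    rw [Module.End.mul_apply, opT_zero]
    match b, b' with
    | false, false =>
      rw [T0_FF, T0_FF, At.quad D (X0_F d _) (X1_FF d w) (E0_F d _) (E1_FF d w)]
      have h := congrArg d.r1 (D.t_t 0)
      have h' := map_quad D d.r1 (D.x 0) (D.x 1) (D.e 0) (D.e 1)
      rw [← h', ← Module.End.mul_apply, ← map_mul]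
      exact LinearMap.congr_fun h _
    | true, true =>
      rw [T0_TT, T0_TT, At.quad D (X0_T d _) (X1_TT d w) (E0_T d _) (E1_TT d w)]
      have h := congrArg d.r2 (D.t_t 0)
      have h' := map_quad D d.r2 (D.x 0) (D.x 1) (D.e 0) (D.e 1)
      rw [← h', ← Module.End.mul_apply, ← map_mul]
      exact LinearMap.congr_fun h _
    | false, true =>
      rw [T0_FT, T0_FT, T0_TF, At.quad D (X0_F d _) (X1_FT d w) (E0_F d _) (E1_FT d w), qq_quad]
      have h1 := LinearMap.congr_fun (sq1 d 0 0) (f (false :: true :: w))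
      have h2 : (d.A 0 0 + d.qq 0 0) * d.A 0 0 = d.A 0 0 * (d.A 0 0 + d.qq 0 0) := by
        rw [add_mul, mul_add, qq_A]
      have h3 := app h2 (f (true :: false :: w))
      rw [LinearMap.add_apply, Module.End.mul_apply, Module.End.mul_apply] at h1
      rw [← h1, map_add, map_sub, h3]
      abel
    | true, false =>
      rw [T0_TF, T0_FT, T0_TF, At.quad D (X0_T d _) (X1_TF d w) (E0_T d _) (E1_TF d w), qq_swap]
      have h1 := LinearMap.congr_fun (sq2 d 0 0) (f (true :: false :: w))
      have h2 : (d.nn 0 0 - d.A 0 0) * d.A 0 0 = d.A 0 0 * (d.nn 0 0 - d.A 0 0) := by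
        rw [sub_mul, mul_sub, nn_A]
      have h3 := app h2 (f (false :: true :: w))
      rw [LinearMap.add_apply, Module.End.mul_apply, Module.End.mul_apply] at h1
      rw [← h1, map_add, map_sub, h3]
      abel

/-! ### all strands -/

theorem sum_succ (d : Loc D P) (k : ℕ) : ∑ i, opE (k + 1) i d * opE (k + 2) i d =
    glue (∑ i, opE k i d.shF * opE (k + 1) i d.shF) (∑ i, opE k i d.shT * opE (k + 1) i d.shT) := by
  rw [← glue_sum]
  refine Finset.sum_congr rfl fun i _ => ?_
  rw [opE_succ, opE_succ (k + 1), glue_mul]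

theorem tx0_aux (k : ℕ) (d : Loc D P) : opT k d * opX k d =
    opX (k + 1) d * opT k d - ∑ i, opE k i d * opE (k + 1) i d := by
  induction k generalizing d with
  | zero => exact tx0_zero d
  | succ k ih =>
    rw [sum_succ, opT_succ, opX_succ, opX_succ (k + 1), glue_mul, glue_mul, glue_sub, ih, ih]

theorem tx1_aux (k : ℕ) (d : Loc D P) : opT k d * opX (k + 1) d =
    opX k d * opT k d + ∑ i, opE k i d * opE (k + 1) i d := by
  induction k generalizing d with
  | zero => exact tx1_zero d
  | succ k ih =>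
    rw [sum_succ, opT_succ, opX_succ (k + 1), opX_succ k d, glue_mul, glue_mul, glue_add, ih, ih]

theorem tt_aux (k : ℕ) (d : Loc D P) : opT k d * opT k d =
    quad D (opX k d) (opX (k + 1) d) (fun i => opE k i d) (fun i => opE (k + 1) i d) := by
  induction k generalizing d with
  | zero => exact tt_zero d
  | succ k ih =>
    rw [opT_succ, glue_mul, ih, ih, ← quad_glue]
    rfl

end RQX

/-- the relations of `t` with `x` and the square of `t` -/
theorem prf_rQ (D : Datum K I) : S_rQ D := fun _ _ _ d =>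
  ⟨fun k => RQX.tx0_aux k d, fun k => RQX.tx1_aux k d, fun k => RQX.tt_aux k d⟩

end Pbw

end Pool.Agent.KLS

end

section

/-! MP_e487d8_al, PBW block: commutation of the operators `opT` with `opE`, and distant
commutation (`prf_rT`). -/

set_option autoImplicit false

namespace Pool.Agent.KLS

variable {K I : Type} [Field K] [Fintype I] [DecidableEq I]

namespace Pbw

variable {D : Datum K I} {P : Type} [AddCommGroup P] [Module K P]

open Loc

namespace RT

variable (d : Loc D P)

/-! ### the idempotents of the first strands and `dd`, `A`, `nn`, `qq` -/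

theorem r1_comm_r1e {a : KLRAlg D} (ha : ∀ c, a * D.e 0 c = D.e 0 c * a) (c : I) :
    d.r1 a * d.r1 (D.e 0 c) = d.r1 (D.e 0 c) * d.r1 a := by
  rw [← map_mul, ha, map_mul]

theorem r2_comm_r2e {a : KLRAlg D} (ha : ∀ c, a * D.e 0 c = D.e 0 c * a) (c : I) :
    d.r2 a * d.r2 (D.e 0 c) = d.r2 (D.e 0 c) * d.r2 a := by
  rw [← map_mul, ha, map_mul]

theorem r1_comm_x {a : KLRAlg D} (ha : a * D.x 0 = D.x 0 * a) :
    d.r1 a * (d.r1 (D.x 0) - d.r2 (D.x 0)) = (d.r1 (D.x 0) - d.r2 (D.x 0)) * d.r1 a := by
  rw [mul_sub, sub_mul, ← map_mul, ha, map_mul, d.comm]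

theorem r2_comm_x {a : KLRAlg D} (ha : a * D.x 0 = D.x 0 * a) :
    d.r2 a * (d.r1 (D.x 0) - d.r2 (D.x 0)) = (d.r1 (D.x 0) - d.r2 (D.x 0)) * d.r2 a := by
  rw [mul_sub, sub_mul, ← map_mul, ha, map_mul, ← d.comm]

/-- `r1 a` commutes with `A`, `qq`, `nn` if `a` commutes with `e 0 c`, `x 0` -/
theorem r1_A {a : KLRAlg D} (ha : ∀ c, a * D.e 0 c = D.e 0 c * a) (hx : a * D.x 0 = D.x 0 * a) :
    d.r1 a * d.A 0 0 = d.A 0 0 * d.r1 a :=
  d.comm_A 0 0 (r1_comm_r1e d ha) (fun _ => d.comm _ _) (r1_comm_x d hx)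

theorem r1_qq {a : KLRAlg D} (ha : ∀ c, a * D.e 0 c = D.e 0 c * a) (hx : a * D.x 0 = D.x 0 * a) :
    d.r1 a * d.qq 0 0 = d.qq 0 0 * d.r1 a :=
  d.comm_qq 0 0 (r1_comm_r1e d ha) (fun _ => d.comm _ _) (by rw [← map_mul, hx, map_mul])
    (d.comm _ _)

theorem r1_nn {a : KLRAlg D} (ha : ∀ c, a * D.e 0 c = D.e 0 c * a) :
    d.r1 a * d.nn 0 0 = d.nn 0 0 * d.r1 a :=
  d.comm_nn 0 0 (r1_comm_r1e d ha) (fun _ => d.comm _ _)

theorem r2_A {a : KLRAlg D} (ha : ∀ c, a * D.e 0 c = D.e 0 c * a) (hx : a * D.x 0 = D.x 0 * a) :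
    d.r2 a * d.A 0 0 = d.A 0 0 * d.r2 a :=
  d.comm_A 0 0 (fun _ => (d.comm _ _).symm) (r2_comm_r2e d ha) (r2_comm_x d hx)

theorem r2_qq {a : KLRAlg D} (ha : ∀ c, a * D.e 0 c = D.e 0 c * a) (hx : a * D.x 0 = D.x 0 * a) :
    d.r2 a * d.qq 0 0 = d.qq 0 0 * d.r2 a :=
  d.comm_qq 0 0 (fun _ => (d.comm _ _).symm) (r2_comm_r2e d ha) (d.comm _ _).symm
    (by rw [← map_mul, hx, map_mul])

theorem r2_nn {a : KLRAlg D} (ha : ∀ c, a * D.e 0 c = D.e 0 c * a) :
    d.r2 a * d.nn 0 0 = d.nn 0 0 * d.r2 a :=
  d.comm_nn 0 0 (fun _ => (d.comm _ _).symm) (r2_comm_r2e d ha)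

theorem e_e (i : I) : ∀ c, D.e 0 i * D.e 0 c = D.e 0 c * D.e 0 i := fun c => D.e_comm 0 0 i c

theorem e_x (i : I) : D.e 0 i * D.x 0 = D.x 0 * D.e 0 i := (D.x_e 0 0 i).symm

theorem shn_e0 (a : KLRAlg D) : ∀ c, D.shn 1 a * D.e 0 c = D.e 0 c * D.shn 1 a :=
  fun c => (e0_shn c a).symm

theorem shn_x0 (a : KLRAlg D) : D.shn 1 a * D.x 0 = D.x 0 * D.shn 1 a := (x0_shn a).symm

theorem dd_r1 (c : I) : d.dd 0 0 * d.r1 (D.e 0 c) = d.r1 (D.e 0 c) * d.r2 (D.e 0 c) := by
  unfold dd
  rw [Finset.sum_mul, Finset.sum_eq_single c]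
  · rw [mul_assoc, ← d.comm, ← mul_assoc, ← map_mul, D.e_idem]
  · intro b _ hb
    rw [mul_assoc, ← d.comm, ← mul_assoc, ← map_mul, D.e_mul_e_ne 0 hb, map_zero, zero_mul]
  · intro h
    exact absurd (Finset.mem_univ c) h

theorem dd_r2 (c : I) : d.dd 0 0 * d.r2 (D.e 0 c) = d.r1 (D.e 0 c) * d.r2 (D.e 0 c) := by
  unfold dd
  rw [Finset.sum_mul, Finset.sum_eq_single c]
  · rw [mul_assoc, ← map_mul, D.e_idem]
  · intro b _ hb
    rw [mul_assoc, ← map_mul, D.e_mul_e_ne 0 hb, map_zero, mul_zero]
  · intro h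
    exact absurd (Finset.mem_univ c) h

/-- `A` times the idempotent of the first action is `A` times that of the second action -/
theorem A_r1_r2 (c : I) : d.A 0 0 * d.r1 (D.e 0 c) = d.A 0 0 * d.r2 (D.e 0 c) := by
  unfold A
  rw [mul_assoc, mul_assoc, dd_r1, dd_r2]

theorem A_r1_E : d.A 0 0 * d.r1 (D.E 0) = d.A 0 0 := by
  unfold A
  rw [mul_assoc]
  congr 1
  unfold dd
  rw [Finset.sum_mul]
  refine Finset.sum_congr rfl fun c _ => ?_
  rw [mul_assoc, ← d.comm, ← mul_assoc, ← map_mul, D.e_E]

theorem A_r2_E : d.A 0 0 * d.r2 (D.E 0) = d.A 0 0 := by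
  unfold A
  rw [mul_assoc]
  congr 1
  unfold dd
  rw [Finset.sum_mul]
  refine Finset.sum_congr rfl fun c _ => ?_
  rw [mul_assoc, ← map_mul, D.e_E]

theorem nn_r1_E : d.nn 0 0 * d.r1 (D.E 0) = d.nn 0 0 := by
  unfold nn
  rw [Finset.sum_mul]
  refine Finset.sum_congr rfl fun c _ => ?_
  rw [Finset.sum_mul]
  refine Finset.sum_congr rfl fun c' _ => ?_
  split_ifs
  · rw [zero_mul]
  · rw [mul_assoc, ← d.comm, ← mul_assoc, ← map_mul, D.e_E]

theorem nn_r2_E : d.nn 0 0 * d.r2 (D.E 0) = d.nn 0 0 := by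
  unfold nn
  rw [Finset.sum_mul]
  refine Finset.sum_congr rfl fun c _ => ?_
  rw [Finset.sum_mul]
  refine Finset.sum_congr rfl fun c' _ => ?_
  split_ifs
  · rw [zero_mul]
  · rw [mul_assoc, ← map_mul, D.e_E]

theorem qq_r1_E : d.qq 0 0 * d.r1 (D.E 0) = d.qq 0 0 := by
  unfold qq
  rw [Finset.sum_mul]
  refine Finset.sum_congr rfl fun c _ => ?_
  rw [Finset.sum_mul]
  refine Finset.sum_congr rfl fun c' _ => ?_
  split_ifs
  · rw [zero_mul]
  · rw [mul_assoc, mul_assoc, ← d.comm, ← mul_assoc (d.r1 _), ← map_mul, D.e_E]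

theorem qq_r2_E : d.qq 0 0 * d.r2 (D.E 0) = d.qq 0 0 := by
  unfold qq
  rw [Finset.sum_mul]
  refine Finset.sum_congr rfl fun c _ => ?_
  rw [Finset.sum_mul]
  refine Finset.sum_congr rfl fun c' _ => ?_
  split_ifs
  · rw [zero_mul]
  · rw [mul_assoc, mul_assoc, ← map_mul, D.e_E]

/-! ### values of `opE 1` -/

theorem opE1_FF (i : I) (f : List Bool → P) (w : List Bool) :
    opE 1 i d f (false :: false :: w) = d.r1 (D.shn 1 (D.e 0 i)) (f (false :: false :: w)) := rfl
theorem opE1_FT (i : I) (f : List Bool → P) (w : List Bool) :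
    opE 1 i d f (false :: true :: w) = d.r2 (D.e 0 i) (f (false :: true :: w)) := rfl
theorem opE1_TF (i : I) (f : List Bool → P) (w : List Bool) :
    opE 1 i d f (true :: false :: w) = d.r1 (D.e 0 i) (f (true :: false :: w)) := rfl
theorem opE1_TT (i : I) (f : List Bool → P) (w : List Bool) :
    opE 1 i d f (true :: true :: w) = d.r2 (D.shn 1 (D.e 0 i)) (f (true :: true :: w)) := rfl
theorem opE1_one (i : I) (f : List Bool → P) (b : Bool) : opE 1 i d f [b] = 0 := by
  cases b <;> rfl
theorem opE0_F (i : I) (f : List Bool → P) (w : List Bool) :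
    opE 0 i d f (false :: w) = d.r1 (D.e 0 i) (f (false :: w)) := rfl
theorem opE0_T (i : I) (f : List Bool → P) (w : List Bool) :
    opE 0 i d f (true :: w) = d.r2 (D.e 0 i) (f (true :: w)) := rfl

/-! ### index zero -/

theorem tE_zero : d.T0 * glue (post (d.r1 (D.E 0))) (post (d.r2 (D.E 0))) = d.T0 := by
  have hA1 : ∀ p, d.A 0 0 (d.r1 (D.E 0) p) = d.A 0 0 p := fun p => LinearMap.congr_fun (A_r1_E d) p
  have hA2 : ∀ p, d.A 0 0 (d.r2 (D.E 0) p) = d.A 0 0 p := fun p => LinearMap.congr_fun (A_r2_E d) p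
  have hn1 : ∀ p, d.nn 0 0 (d.r1 (D.E 0) p) = d.nn 0 0 p :=
    fun p => LinearMap.congr_fun (nn_r1_E d) p
  have hq2 : ∀ p, d.qq 0 0 (d.r2 (D.E 0) p) = d.qq 0 0 p :=
    fun p => LinearMap.congr_fun (qq_r2_E d) p
  apply ext_two
  · intro f; rfl
  · intro f b; rw [Module.End.mul_apply, T0_one, T0_one]
  · intro f b b' w
    rw [Module.End.mul_apply]
    match b, b' with
    | false, false =>
      rw [T0_FF, T0_FF, glue_false, post_apply, tl_apply, ← Module.End.mul_apply, ← map_mul, D.t_E]
    | true, true =>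
      rw [T0_TT, T0_TT, glue_true, post_apply, tl_apply, ← Module.End.mul_apply, ← map_mul, D.t_E]
    | false, true =>
      rw [T0_FT, T0_FT, glue_true, glue_false, post_apply, post_apply, tl_apply, tl_apply, hA1,
        LinearMap.add_apply, LinearMap.add_apply, hA2, hq2]
    | true, false =>
      rw [T0_TF, T0_TF, glue_true, glue_false, post_apply, post_apply, tl_apply, tl_apply, hA2,
        LinearMap.sub_apply, LinearMap.sub_apply, hA1, hn1]

theorem tE'_zero : d.T0 * glue (glue (post (d.shF.r1 (D.E 0))) (post (d.shF.r2 (D.E 0))))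
    (glue (post (d.shT.r1 (D.E 0))) (post (d.shT.r2 (D.E 0)))) = d.T0 := by
  have hA1 : ∀ p, d.A 0 0 (d.r1 (D.E 0) p) = d.A 0 0 p := fun p => LinearMap.congr_fun (A_r1_E d) p
  have hA2 : ∀ p, d.A 0 0 (d.r2 (D.E 0) p) = d.A 0 0 p := fun p => LinearMap.congr_fun (A_r2_E d) p
  have hn2 : ∀ p, d.nn 0 0 (d.r2 (D.E 0) p) = d.nn 0 0 p :=
    fun p => LinearMap.congr_fun (nn_r2_E d) p
  have hq1 : ∀ p, d.qq 0 0 (d.r1 (D.E 0) p) = d.qq 0 0 p :=
    fun p => LinearMap.congr_fun (qq_r1_E d) p
  apply ext_two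
  · intro f; rfl
  · intro f b; rw [Module.End.mul_apply, T0_one, T0_one]
  · intro f b b' w
    rw [Module.End.mul_apply]
    match b, b' with
    | false, false =>
      rw [T0_FF, T0_FF, glue_false, glue_false, post_apply, tl_apply, tl_apply, shF_r1, D.shn_E,
        ← Module.End.mul_apply, ← map_mul, Nat.add_zero, D.t_E' 0]
    | true, true =>
      rw [T0_TT, T0_TT, glue_true, glue_true, post_apply, tl_apply, tl_apply, shT_r2, D.shn_E,
        ← Module.End.mul_apply, ← map_mul, Nat.add_zero, D.t_E' 0]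
    | false, true =>
      rw [T0_FT, T0_FT]
      simp only [glue_true, glue_false, post_apply, tl_apply, shF_r2, shT_r1, LinearMap.add_apply,
        hA1, hA2, hq1]
    | true, false =>
      rw [T0_TF, T0_TF]
      simp only [glue_true, glue_false, post_apply, tl_apply, shF_r2, shT_r1, LinearMap.sub_apply,
        hA1, hA2, hn2]

theorem te0_zero (i : I) : d.T0 * opE 0 i d = opE 1 i d * d.T0 := by
  have hA : ∀ p, d.A 0 0 (d.r1 (D.e 0 i) p) = d.A 0 0 (d.r2 (D.e 0 i) p) :=
    fun p => LinearMap.congr_fun (A_r1_r2 d i) p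
  have hA1 : ∀ p, d.r1 (D.e 0 i) (d.A 0 0 p) = d.A 0 0 (d.r1 (D.e 0 i) p) :=
    fun p => LinearMap.congr_fun (r1_A d (e_e i) (e_x i)) p
  have hA2 : ∀ p, d.r2 (D.e 0 i) (d.A 0 0 p) = d.A 0 0 (d.r2 (D.e 0 i) p) :=
    fun p => LinearMap.congr_fun (r2_A d (e_e i) (e_x i)) p
  have hq2 : ∀ p, d.r2 (D.e 0 i) (d.qq 0 0 p) = d.qq 0 0 (d.r2 (D.e 0 i) p) :=
    fun p => LinearMap.congr_fun (r2_qq d (e_e i) (e_x i)) p
  have hn1 : ∀ p, d.r1 (D.e 0 i) (d.nn 0 0 p) = d.nn 0 0 (d.r1 (D.e 0 i) p) :=
    fun p => LinearMap.congr_fun (r1_nn d (e_e i)) p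
  apply ext_two
  · intro f; rfl
  · intro f b; rw [Module.End.mul_apply, Module.End.mul_apply, T0_one, opE1_one]
  · intro f b b' w
    rw [Module.End.mul_apply, Module.End.mul_apply]
    match b, b' with
    | false, false =>
      rw [T0_FF, opE1_FF, T0_FF, opE0_F, ← Module.End.mul_apply, ← Module.End.mul_apply, ← map_mul,
        ← map_mul, D.shn_e, D.t_e0]
    | true, true =>
      rw [T0_TT, opE1_TT, T0_TT, opE0_T, ← Module.End.mul_apply, ← Module.End.mul_apply, ← map_mul,
        ← map_mul, D.shn_e, D.t_e0]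
    | false, true =>
      rw [T0_FT, opE1_FT, T0_FT, opE0_F, opE0_T]
      simp only [LinearMap.add_apply, map_add, map_sub, hA, hA2, hq2]
    | true, false =>
      rw [T0_TF, opE1_TF, T0_TF, opE0_F, opE0_T]
      simp only [LinearMap.sub_apply, map_add, map_sub, hA, hA1, hn1]

theorem te1_zero (i : I) : d.T0 * opE 1 i d = opE 0 i d * d.T0 := by
  have hA : ∀ p, d.A 0 0 (d.r1 (D.e 0 i) p) = d.A 0 0 (d.r2 (D.e 0 i) p) :=
    fun p => LinearMap.congr_fun (A_r1_r2 d i) p
  have hA1 : ∀ p, d.r1 (D.e 0 i) (d.A 0 0 p) = d.A 0 0 (d.r1 (D.e 0 i) p) :=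
    fun p => LinearMap.congr_fun (r1_A d (e_e i) (e_x i)) p
  have hA2 : ∀ p, d.r2 (D.e 0 i) (d.A 0 0 p) = d.A 0 0 (d.r2 (D.e 0 i) p) :=
    fun p => LinearMap.congr_fun (r2_A d (e_e i) (e_x i)) p
  have hq1 : ∀ p, d.r1 (D.e 0 i) (d.qq 0 0 p) = d.qq 0 0 (d.r1 (D.e 0 i) p) :=
    fun p => LinearMap.congr_fun (r1_qq d (e_e i) (e_x i)) p
  have hn2 : ∀ p, d.r2 (D.e 0 i) (d.nn 0 0 p) = d.nn 0 0 (d.r2 (D.e 0 i) p) :=
    fun p => LinearMap.congr_fun (r2_nn d (e_e i)) p
  apply ext_two
  · intro f; rfl
  · intro f b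
    rw [Module.End.mul_apply, Module.End.mul_apply, T0_one]
    cases b
    · rw [opE0_F, T0_one, map_zero]
    · rw [opE0_T, T0_one, map_zero]
  · intro f b b' w
    rw [Module.End.mul_apply, Module.End.mul_apply]
    match b, b' with
    | false, false =>
      rw [T0_FF, opE1_FF, opE0_F, T0_FF, ← Module.End.mul_apply, ← Module.End.mul_apply, ← map_mul,
        ← map_mul, D.shn_e, Nat.add_zero, D.t_e1 0]
    | true, true =>
      rw [T0_TT, opE1_TT, opE0_T, T0_TT, ← Module.End.mul_apply, ← Module.End.mul_apply, ← map_mul,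
        ← map_mul, D.shn_e, Nat.add_zero, D.t_e1 0]
    | false, true =>
      rw [T0_FT, opE1_FT, opE1_TF, opE0_F, T0_FT]
      simp only [LinearMap.add_apply, map_add, map_sub, hA, hA1, hq1]
    | true, false =>
      rw [T0_TF, opE1_FT, opE1_TF, opE0_T, T0_TF]
      simp only [LinearMap.sub_apply, map_add, map_sub, hA, hA2, hn2]

/-- `T0` commutes with operators which act on the strands `2, 3, ...` and are natural -/
theorem T0_comm (G : Loc D P → Module.End K (List Bool → P))
    (hG : ∀ (d' : Loc D P) (g : Module.End K P), (∀ a, g * d'.r1 a = d'.r1 a * g) →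
      (∀ a, g * d'.r2 a = d'.r2 a * g) → post g * G d' = G d' * post g) :
    d.T0 * glue (glue (G d.shF.shF) (G d.shF.shT)) (glue (G d.shT.shF) (G d.shT.shT)) =
      glue (glue (G d.shF.shF) (G d.shF.shT)) (glue (G d.shT.shF) (G d.shT.shT)) * d.T0 := by
  have key : ∀ (d' : Loc D P) (g : Module.End K P), (∀ a, g * d'.r1 a = d'.r1 a * g) →
      (∀ a, g * d'.r2 a = d'.r2 a * g) → ∀ f w, g (G d' f w) = G d' (post g f) w := by
    intro d' g h1 h2 f w
    exact congrFun (LinearMap.congr_fun (hG d' g h1 h2) f) w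
  have hFF := key d.shF.shF (d.r1 (D.t 0))
    (fun a => by rw [shF_r1, shF_r1, D.shn_shn, ← map_mul, t0_shn, map_mul])
    (fun a => d.comm _ _)
  have hTT := key d.shT.shT (d.r2 (D.t 0)) (fun a => (d.comm _ _).symm)
    (fun a => by rw [shT_r2, shT_r2, D.shn_shn, ← map_mul, t0_shn, map_mul])
  have hA := key d.shF.shT (d.A 0 0) (fun a => (r1_A d (shn_e0 a) (shn_x0 a)).symm)
    (fun a => (r2_A d (shn_e0 a) (shn_x0 a)).symm)
  have hq := key d.shF.shT (d.qq 0 0) (fun a => (r1_qq d (shn_e0 a) (shn_x0 a)).symm)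
    (fun a => (r2_qq d (shn_e0 a) (shn_x0 a)).symm)
  have hn := key d.shF.shT (d.nn 0 0) (fun a => (r1_nn d (shn_e0 a)).symm)
    (fun a => (r2_nn d (shn_e0 a)).symm)
  apply ext_two
  · intro f; rfl
  · intro f b
    rw [Module.End.mul_apply, Module.End.mul_apply, T0_one]
    cases b <;> rfl
  · intro f b b' w
    rw [Module.End.mul_apply, Module.End.mul_apply]
    match b, b' with
    | false, false =>
      rw [T0_FF, glue_false, glue_false, hFF]
      rfl
    | true, true =>
      rw [T0_TT, glue_true, glue_true, hTT]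
      rfl
    | false, true =>
      rw [T0_FT]
      have e1 : tl (K := K) true (tl (K := K) false (d.T0 f)) =
          post (d.A 0 0) (tl (K := K) false (tl (K := K) true f)) +
            post (d.qq 0 0) (tl (K := K) false (tl (K := K) true f)) -
            post (d.A 0 0) (tl (K := K) true (tl (K := K) false f)) := rfl
      rw [glue_true, glue_false, glue_false, glue_true, shT_shF, LinearMap.add_apply, hA, hq, hA,
        glue_false, glue_true, e1, map_sub, map_add]
      rfl
    | true, false =>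
      rw [T0_TF]
      have e1 : tl (K := K) false (tl (K := K) true (d.T0 f)) =
          post (d.A 0 0) (tl (K := K) false (tl (K := K) true f)) +
            (post (d.nn 0 0) (tl (K := K) true (tl (K := K) false f)) -
            post (d.A 0 0) (tl (K := K) true (tl (K := K) false f))) := rfl
      rw [glue_true, glue_false, glue_false, glue_true, shT_shF, LinearMap.sub_apply, hA, hn, hA,
        glue_true, glue_false, e1, map_add, map_sub]
      rfl

/-! ### all indices -/

theorem tE_aux (k : ℕ) : opT k d * ∑ i, opE k i d = opT k d := by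
  induction k generalizing d with
  | zero => rw [sum_opE_zero, opT_zero, tE_zero]
  | succ k ih => rw [sum_opE_succ, opT_succ, glue_mul, ih, ih]

theorem tE'_aux (k : ℕ) : opT k d * ∑ i, opE (k + 1) i d = opT k d := by
  induction k generalizing d with
  | zero => rw [sum_opE_succ, sum_opE_zero, sum_opE_zero, opT_zero, tE'_zero]
  | succ k ih => rw [sum_opE_succ, opT_succ, glue_mul, ih, ih]

theorem te0_aux (k : ℕ) (i : I) : opT k d * opE k i d = opE (k + 1) i d * opT k d := by
  induction k generalizing d with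
  | zero => exact te0_zero d i
  | succ k ih => rw [opE_succ, opE_succ, opT_succ, glue_mul, glue_mul, ih, ih]

theorem te1_aux (k : ℕ) (i : I) : opT k d * opE (k + 1) i d = opE k i d * opT k d := by
  induction k generalizing d with
  | zero => exact te1_zero d i
  | succ k ih => rw [opE_succ (k + 1) i d, opE_succ k i d, opT_succ, glue_mul, glue_mul, ih, ih]

theorem te_aux (k l : ℕ) (i : I) (h : l ≠ k) (h' : l ≠ k + 1) :
    opT k d * opE l i d = opE l i d * opT k d := by
  induction k generalizing d l with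
  | zero =>
    obtain ⟨l, rfl⟩ : ∃ l', l = l' + 2 := ⟨l - 2, by omega⟩
    exact T0_comm d (fun d' => opE l i d') (fun d' g h1 h2 => post_opE l i d' h1 h2)
  | succ k ih =>
    cases l with
    | zero =>
      obtain ⟨h1, h2, h3, h4⟩ := comm_tail d (e0_shn i)
      rw [opE_zero, opT_succ, glue_mul, glue_mul, post_opT k d.shF h1 h2, post_opT k d.shT h3 h4]
    | succ l =>
      rw [opT_succ, opE_succ, glue_mul, glue_mul, ih d.shF l (by omega) (by omega),
        ih d.shT l (by omega) (by omega)]

theorem tx_aux (k l : ℕ) (h : l ≠ k) (h' : l ≠ k + 1) :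
    opT k d * opX l d = opX l d * opT k d := by
  induction k generalizing d l with
  | zero =>
    obtain ⟨l, rfl⟩ : ∃ l', l = l' + 2 := ⟨l - 2, by omega⟩
    exact T0_comm d (fun d' => opX l d') (fun d' g h1 h2 => post_opX l d' h1 h2)
  | succ k ih =>
    cases l with
    | zero =>
      obtain ⟨h1, h2, h3, h4⟩ := comm_tail d x0_shn
      rw [opX_zero, opT_succ, glue_mul, glue_mul, post_opT k d.shF h1 h2, post_opT k d.shT h3 h4]
    | succ l =>
      rw [opT_succ, opX_succ, glue_mul, glue_mul, ih d.shF l (by omega) (by omega),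
        ih d.shT l (by omega) (by omega)]

theorem far_aux (k l : ℕ) (h : k + 1 < l) : opT k d * opT l d = opT l d * opT k d := by
  induction k generalizing d l with
  | zero =>
    obtain ⟨l, rfl⟩ : ∃ l', l = l' + 2 := ⟨l - 2, by omega⟩
    exact T0_comm d (fun d' => opT l d') (fun d' g h1 h2 => post_opT l d' h1 h2)
  | succ k ih =>
    obtain ⟨l, rfl⟩ : ∃ l', l = l' + 1 := ⟨l - 1, by omega⟩
    rw [opT_succ, opT_succ, glue_mul, glue_mul, ih d.shF l (by omega), ih d.shT l (by omega)]

end RT

theorem prf_rT (D : Datum K I) : S_rT D := fun _ _ _ d =>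
  ⟨RT.tE_aux d, RT.tE'_aux d, RT.te0_aux d, RT.te1_aux d, RT.te_aux d, RT.tx_aux d, RT.far_aux d⟩

end Pbw

end Pool.Agent.KLS

end
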