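import Pool.Agent.Work.MP_e487d8_al.Bd.B33
import Pool.Agent.Work.MP_e487d8_al.Bd.B11

/-! Bundle of small proof modules (one section per former module). -/

section

/-! MP_e487d8_al, abstract part: families, generic elements. -/

set_option autoImplicit false

namespace Pool.Agent.KLSAbs

open scoped LaurentPolynomial

variable {I S O K : Type} [DecidableEq I] [CommRing O] [Algebra ℚ O] [Ring K]
  [Algebra ℤ[T;T⁻¹] K] (D : Sys2 I S O K)

/-- `v` in the span of an additive submonoid: a positive multiple of `v` is a difference -/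
theorem span_nat {W : Type} [AddCommGroup W] [Module ℚ W] (T : AddSubmonoid W) {v : W}
    (hv : v ∈ Submodule.span ℚ (T : Set W)) :
    ∃ k : ℕ, 0 < k ∧ ∃ x ∈ T, ∃ y ∈ T, k • v + x = y := by
  refine Submodule.span_induction (p := fun v _ =>
    ∃ k : ℕ, 0 < k ∧ ∃ x ∈ T, ∃ y ∈ T, k • v + x = y) ?_ ?_ ?_ ?_ hv
  · intro v hv
    exact ⟨1, one_pos, 0, T.zero_mem, v, hv, by rw [one_smul, add_zero]⟩
  · exact ⟨1, one_pos, 0, T.zero_mem, 0, T.zero_mem, by simp⟩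
  · rintro v v' _ _ ⟨k, hk, x, hx, y, hy, h⟩ ⟨k', hk', x', hx', y', hy', h'⟩
    refine ⟨k * k', Nat.mul_pos hk hk', k' • x + k • x',
      T.add_mem (T.nsmul_mem hx _) (T.nsmul_mem hx' _), k' • y + k • y',
      T.add_mem (T.nsmul_mem hy _) (T.nsmul_mem hy' _), ?_⟩
    rw [← h, ← h']
    module
  · rintro q v _ ⟨k, hk, x, hx, y, hy, h⟩
    have hq : (q.den : ℚ) ≠ 0 := by exact_mod_cast q.den_ne_zero
    have h1 : ∀ u : W, (q.den * k : ℕ) • (q • u) = (q.num * k : ℤ) • u := by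
      intro u
      rw [← Nat.cast_smul_eq_nsmul ℚ, ← Int.cast_smul_eq_zsmul ℚ, smul_smul]
      congr 1
      push_cast
      have h2 : (q.num : ℚ) = q.den * q := by
        rw [mul_comm]; exact (Rat.mul_den_eq_num q).symm
      rw [h2]; ring
    rcases le_total 0 q.num with h0 | h0
    · obtain ⟨a, ha⟩ := Int.eq_ofNat_of_zero_le h0
      refine ⟨q.den * k, Nat.mul_pos q.den_pos hk, a • x, T.nsmul_mem hx _, a • y,
        T.nsmul_mem hy _, ?_⟩
      rw [h1, ha, ← h, smul_add, ← mul_smul]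
      congr 1
      rw [← Int.natCast_mul, natCast_zsmul]
    · obtain ⟨a, ha⟩ := Int.eq_ofNat_of_zero_le (neg_nonneg.2 h0)
      refine ⟨q.den * k, Nat.mul_pos q.den_pos hk, a • y, T.nsmul_mem hy _, a • x,
        T.nsmul_mem hx _, ?_⟩
      have ha' : q.num = -(a : ℤ) := by omega
      rw [h1, ha', ← h, smul_add, ← mul_smul, neg_mul, neg_smul, ← Int.natCast_mul,
        natCast_zsmul]
      abel

namespace Sys2

/-- a family of adapted simple modules closed under convolution, as a submonoid of `O` -/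
structure Fam (w : List I) (N : Submonoid O) : Prop where
  spl : ∀ x ∈ N, ∃ X, D.b X = x ∧ D.Ad w X

/-- span of the strings -/
def sp (w : List I) (N : Submonoid O) : Submodule ℚ (V w) :=
  Submodule.span ℚ {v | ∃ X, D.b X ∈ N ∧ D.str w X = v}

/-- adapted and commuting with the family -/
def CC (w : List I) (N : Submonoid O) (X : S) : Prop :=
  D.Ad w X ∧ ∀ C, D.b C ∈ N → D.Cm C X

variable {D}

theorem Fam.ad {w : List I} {N : Submonoid O} (hN : D.Fam w N) {X : S} (hX : D.b X ∈ N) :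
    D.Ad w X := by
  obtain ⟨Y, h1, h2⟩ := hN.spl _ hX
  rwa [← D.b_inj h1]

theorem Fam.cm {w : List I} {N : Submonoid O} (hN : D.Fam w N) {X Y : S} (hX : D.b X ∈ N)
    (hY : D.b Y ∈ N) : D.Cm X Y := by
  obtain ⟨Z, h1, _⟩ := hN.spl _ (N.mul_mem hX hY)
  exact ⟨Z, h1.symm⟩

theorem Fam.pow {w : List I} {N : Submonoid O} (hN : D.Fam w N) {X : S} (hX : D.b X ∈ N)
    (n : ℕ) : ∃ Z, D.b X ^ n = D.b Z ∧ D.b Z ∈ N := by
  obtain ⟨Z, h1, _⟩ := hN.spl _ (N.pow_mem hX n)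
  exact ⟨Z, h1.symm, by rw [h1]; exact N.pow_mem hX n⟩

theorem Fam.sr {w : List I} {N : Submonoid O} (hN : D.Fam w N) {X : S} (hX : D.b X ∈ N) :
    D.SR X := fun n => by
  obtain ⟨Z, h1, _⟩ := hN.pow hX n
  exact ⟨Z, h1⟩

theorem Fam.mul {w : List I} {N : Submonoid O} (hN : D.Fam w N) {X Y : S} (hX : D.b X ∈ N)
    (hY : D.b Y ∈ N) : ∃ Z, D.b X * D.b Y = D.b Z ∧ D.b Z ∈ N := by
  obtain ⟨Z, h1, _⟩ := hN.spl _ (N.mul_mem hX hY)
  exact ⟨Z, h1.symm, by rw [h1]; exact N.mul_mem hX hY⟩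

/-- an element commuting with a family strongly commutes with it -/
theorem Fam.sc {w : List I} {N : Submonoid O} (hN : D.Fam w N) {C X : S} (hC : D.b C ∈ N)
    (hX : ∀ C, D.b C ∈ N → D.Cm C X) : D.SC C X := fun n => by
  obtain ⟨Z, h1, h2⟩ := hN.pow hC n
  obtain ⟨W, hW⟩ := hX Z h2
  exact ⟨W, by rw [h1, hW]⟩

theorem Fam.cc {w : List I} {N : Submonoid O} (hN : D.Fam w N) {X : S} (hX : D.b X ∈ N) :
    D.CC w N X := ⟨hN.ad hX, fun _ hC => hN.cm hC hX⟩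

theorem Fam.one_mem {w : List I} {N : Submonoid O} (_ : D.Fam w N) : D.b D.one ∈ N := by
  rw [D.b_one]; exact N.one_mem

theorem Fam.mono {w : List I} {N N' : Submonoid O} (hN : D.Fam w N) (h : N' ≤ N) :
    D.Fam w N' := ⟨fun x hx => hN.spl x (h hx)⟩

variable [IsDomain O]

/-- the strings of a family -/
def Fam.strs {w : List I} {N : Submonoid O} (hN : D.Fam w N) : AddSubmonoid (V w) where
  carrier := {v | ∃ X, D.b X ∈ N ∧ D.str w X = v}
  zero_mem' := ⟨D.one, hN.one_mem, D.str_one w⟩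
  add_mem' := by
    rintro _ _ ⟨X, hX, rfl⟩ ⟨Y, hY, rfl⟩
    obtain ⟨Z, hZ⟩ := hN.cm hX hY
    exact ⟨Z, by rw [← hZ]; exact N.mul_mem hX hY, D.str_mul w hZ⟩

/-- powers -/
theorem str_pow (w : List I) {X : S} : ∀ (k : ℕ) {Z : S}, D.b X ^ k = D.b Z →
    (∀ j ≤ k, ∃ W, D.b X ^ j = D.b W) → D.str w Z = k • D.str w X := by
  intro k
  induction k with
  | zero =>
    intro Z h _
    rw [pow_zero, ← D.b_one] at h
    rw [← D.b_inj h, D.str_one, zero_smul]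
  | succ k ih =>
    intro Z h hj
    obtain ⟨W, hW⟩ := hj k (Nat.le_succ k)
    rw [pow_succ, hW] at h
    rw [D.str_mul w h, ih hW (fun j hj' => hj j (Nat.le_succ_of_le hj')), succ_nsmul]

theorem Fam.str_pow {w : List I} {N : Submonoid O} (hN : D.Fam w N) {X Z : S} (hX : D.b X ∈ N)
    (k : ℕ) (h : D.b X ^ k = D.b Z) : D.str w Z = k • D.str w X := by
  refine Sys2.str_pow w k h fun j _ => ?_
  obtain ⟨W, hW, _⟩ := hN.spl _ (N.pow_mem hX j)
  exact ⟨W, hW.symm⟩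

/-- an element whose string is in the span of the strings of a subfamily -/
theorem Fam.rel {w : List I} {N N₀ : Submonoid O} (hN : D.Fam w N) (h0 : N₀ ≤ N) {X : S}
    (hX : D.b X ∈ N) (hs : D.str w X ∈ D.sp w N₀) :
    ∃ k : ℕ, 0 < k ∧ ∃ P Q, D.b P ∈ N₀ ∧ D.b Q ∈ N₀ ∧ D.b X ^ k * D.b P = D.b Q := by
  have hN₀ := hN.mono h0
  obtain ⟨k, hk, _, ⟨P, hP, rfl⟩, _, ⟨Q, hQ, rfl⟩, h⟩ := span_nat hN₀.strs hs
  refine ⟨k, hk, P, Q, hP, hQ, ?_⟩
  obtain ⟨Xk, hXk, _⟩ := hN.spl _ (N.pow_mem hX k)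
  obtain ⟨Z, hZ, hZa⟩ := hN.spl _ (N.mul_mem (N.pow_mem hX k) (h0 hP))
  rw [← hZ]
  rw [← hXk] at hZ
  have h1 : D.str w Z = D.str w Q := by
    rw [D.str_mul w hZ.symm, hN.str_pow hX k hXk.symm]
    exact h
  rw [D.str_inj w hZa (hN₀.ad hQ) h1]


/-! ### generic elements -/

variable (D)

/-- some power of every element of the family divides a power of `z` -/
def Gen (N : Submonoid O) (z : S) : Prop :=
  D.b z ∈ N ∧ ∀ C, D.b C ∈ N → ∃ (k m : ℕ) (P : S), 0 < k ∧ D.b P ∈ N ∧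
    D.b C ^ k * D.b P = D.b z ^ m

variable {D}

theorem cm_left {C C' B X : S} (h : D.b C * D.b C' = D.b B) (hB : D.Cm B X) : D.Cm C' X := by
  obtain ⟨Z, hZ⟩ := hB
  refine D.cm_of_mul_mul (C := C) (Z := Z) ?_
  rw [← mul_assoc, h, hZ]

theorem Gen.cm {w : List I} {N : Submonoid O} (hN : D.Fam w N) {z : S} (hz : D.Gen N z) {X : S}
    (hX : D.SC z X) {C : S} (hC : D.b C ∈ N) : D.Cm C X := by
  obtain ⟨k, m, P, hk, hP, h⟩ := hz.2 C hC
  obtain ⟨j, rfl⟩ : ∃ j, k = j + 1 := ⟨k - 1, by omega⟩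
  obtain ⟨R, hR, _⟩ := hN.spl _ (N.mul_mem (N.pow_mem hC j) hP)
  obtain ⟨B, hB, _⟩ := hN.spl _ (N.pow_mem hz.1 m)
  obtain ⟨W, hW⟩ := hX m
  refine cm_left (C := R) (B := B) ?_ ⟨W, by rw [hB, hW]⟩
  rw [hR, hB, ← h]; ring

theorem exists_gen {w : List I} {N : Submonoid O} (hN : D.Fam w N) : ∃ z, D.Gen N z := by
  classical
  obtain ⟨s, hs1, hs2⟩ := (Submodule.fg_span_iff_fg_span_finset_subset
    {v | ∃ X, D.b X ∈ N ∧ D.str w X = v}).1 (IsNoetherian.noetherian (R := ℚ) (M := V w) _)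
  have : Nonempty S := ⟨D.one⟩
  have hs1' : ∀ v ∈ s, ∃ X, D.b X ∈ N ∧ D.str w X = v := fun v hv => hs1 hv
  choose! c hc1 hc2 using hs1'
  have hfac : ∀ t : Finset (V w), t ⊆ s → ∃ f, D.b f ∈ N ∧ ∀ v ∈ t, ∃ g, D.b g ∈ N ∧
      D.b g * D.b (c v) = D.b f := by
    intro t
    induction t using Finset.induction_on with
    | empty => exact fun _ => ⟨D.one, hN.one_mem, fun v hv => absurd hv (Finset.notMem_empty v)⟩
    | insert a t ha ih =>
      intro hts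
      obtain ⟨f, hf, hf'⟩ := ih (fun x hx => hts (Finset.mem_insert_of_mem hx))
      have hca : D.b (c a) ∈ N := hc1 a (hts (Finset.mem_insert_self a t))
      obtain ⟨F, hF, _⟩ := hN.spl _ (N.mul_mem hf hca)
      refine ⟨F, by rw [hF]; exact N.mul_mem hf hca, fun v hv => ?_⟩
      rcases Finset.mem_insert.1 hv with rfl | hv
      · exact ⟨f, hf, hF.symm⟩
      · obtain ⟨g, hg, hg'⟩ := hf' v hv
        obtain ⟨G, hG, _⟩ := hN.spl _ (N.mul_mem hg hca)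
        refine ⟨G, by rw [hG]; exact N.mul_mem hg hca, ?_⟩
        rw [hG, hF, ← hg']; ring
  obtain ⟨f, hf, hf'⟩ := hfac s (Finset.Subset.refl s)
  refine ⟨f, hf, fun C hC => ?_⟩
  set A : Set O := {x | ∃ v ∈ s, D.b (c v) = x} with hA
  have hAN : A ⊆ N := by
    rintro _ ⟨v, hv, rfl⟩
    exact hc1 v hv
  have h0 : Submonoid.closure A ≤ N := Submonoid.closure_le.2 hAN
  have h1 : D.str w C ∈ D.sp w (Submonoid.closure A) := by
    have h2 : D.str w C ∈ Submodule.span ℚ (s : Set (V w)) := by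
      rw [← hs2]
      exact Submodule.subset_span ⟨C, hC, rfl⟩
    refine Submodule.span_mono ?_ h2
    intro v hv
    exact ⟨c v, Submonoid.subset_closure ⟨v, hv, rfl⟩, hc2 v hv⟩
  obtain ⟨k, hk, P, Q, hP, hQ, h⟩ := hN.rel h0 hC h1
  have hdiv : ∀ x ∈ Submonoid.closure A, ∃ m : ℕ, ∃ r ∈ N, x * r = D.b f ^ m := by
    intro x hx
    refine Submonoid.closure_induction (motive := fun x _ => ∃ m : ℕ, ∃ r ∈ N,
      x * r = D.b f ^ m) ?_ ?_ ?_ hx
    · rintro _ ⟨v, hv, rfl⟩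
      obtain ⟨g, hg, hg'⟩ := hf' v hv
      exact ⟨1, D.b g, hg, by rw [pow_one, ← hg', mul_comm]⟩
    · exact ⟨0, 1, N.one_mem, by rw [pow_zero, mul_one]⟩
    · rintro x y _ _ ⟨m, r, hr, h⟩ ⟨m', r', hr', h'⟩
      refine ⟨m + m', r * r', N.mul_mem hr hr', ?_⟩
      rw [pow_add, ← h, ← h']; ring
  obtain ⟨m, r, hr, hm⟩ := hdiv _ hQ
  obtain ⟨R, hR, _⟩ := hN.spl _ (N.mul_mem (h0 hP) hr)
  refine ⟨k, m, R, hk, by rw [hR]; exact N.mul_mem (h0 hP) hr, ?_⟩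
  rw [hR, ← hm, ← h]; ring

/-! ### maximal families -/

/-- maximal families -/
def Mx (D : Sys2 I S O K) (w : List I) (N : Submonoid O) : Prop :=
  D.Fam w N ∧ ∀ N', D.Fam w N' → N ≤ N' → N' = N

theorem Mx.mem {w : List I} {N : Submonoid O} (hN : Mx D w N) {X : S}
    (hX : D.Fam w (N ⊔ Submonoid.powers (D.b X))) : D.b X ∈ N := by
  have h := hN.2 _ hX le_sup_left
  rw [← h]
  exact (le_sup_right : Submonoid.powers (D.b X) ≤ _) (Submonoid.mem_powers _)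

omit [IsDomain O] in
theorem exists_mx {w : List I} {N : Submonoid O} (hN : D.Fam w N) :
    ∃ M, N ≤ M ∧ Mx D w M := by
  obtain ⟨M, h1, h2⟩ := zorn_le_nonempty₀ {N : Submonoid O | D.Fam w N} (by
    intro c hc hch y hy
    refine ⟨sSup c, ⟨fun x hx => ?_⟩, fun z hz => le_sSup hz⟩
    rw [Submonoid.mem_sSup_of_directedOn ⟨y, hy⟩ hch.directedOn] at hx
    obtain ⟨z, hz, hx⟩ := hx
    exact (hc hz).spl x hx) N hN
  exact ⟨M, h1, h2.1, fun N' hN' hle => le_antisymm (h2.2 hN' hle) hle⟩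

/-- a strongly real adapted module generates a family -/
theorem fam_powers {w : List I} {X : S} (hX : D.SR X) (hA : D.Ad w X) :
    D.Fam w (Submonoid.powers (D.b X)) := by
  refine ⟨?_⟩
  rintro _ ⟨n, rfl⟩
  show ∃ Z, D.b Z = D.b X ^ n ∧ D.Ad w Z
  induction n with
  | zero => exact ⟨D.one, by rw [D.b_one, pow_zero], D.Ad_one w⟩
  | succ n ih =>
    obtain ⟨Z, h1, h2⟩ := ih
    obtain ⟨W, hW⟩ := hX (n + 1)
    refine ⟨W, hW.symm, ?_⟩
    rw [pow_succ, ← h1] at hW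
    exact D.Ad_mul w h2 hA hW

/-! ### the shifted family -/

/-- the family `e_i^max N` -/
def shift (i : I) {w : List I} {N : Submonoid O} (hN : D.Fam (i :: w) N) : Submonoid O where
  carrier := {x | ∃ C, D.b C ∈ N ∧ D.b (D.E i C) = x}
  one_mem' := ⟨D.one, hN.one_mem, by rw [D.E_one, D.b_one]⟩
  mul_mem' := by
    rintro _ _ ⟨X, hX, rfl⟩ ⟨Y, hY, rfl⟩
    obtain ⟨Z, hZ⟩ := hN.cm hX hY
    exact ⟨Z, by rw [← hZ]; exact N.mul_mem hX hY, (D.Emul i hZ).2.symm⟩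

theorem shift_fam (i : I) {w : List I} {N : Submonoid O} (hN : D.Fam (i :: w) N) :
    D.Fam w (shift i hN) := ⟨fun _ ⟨C, h1, h2⟩ => ⟨D.E i C, h2, hN.ad h1⟩⟩

theorem mem_shift (i : I) {w : List I} {N : Submonoid O} (hN : D.Fam (i :: w) N) {X : S} :
    D.b X ∈ shift i hN ↔ ∃ C, D.b C ∈ N ∧ D.E i C = X :=
  ⟨fun ⟨C, h1, h2⟩ => ⟨C, h1, D.b_inj h2⟩, fun ⟨C, h1, h2⟩ => ⟨C, h1, by rw [h2]⟩⟩

theorem eps_shift (i : I) {w : List I} {N : Submonoid O} (hN : D.Fam (i :: w) N) {X : S}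
    (hX : D.b X ∈ shift i hN) : D.eps i X = 0 := by
  obtain ⟨C, _, rfl⟩ := (mem_shift i hN).1 hX
  exact D.eps_E i C

theorem sp_shift (i : I) {w : List I} {N : Submonoid O} (hN : D.Fam (i :: w) N) :
    D.sp w (shift i hN) = (D.sp (i :: w) N).map (tl i w) := by
  rw [sp, sp, Submodule.map_span]
  congr 1
  ext v
  constructor
  · rintro ⟨X, hX, rfl⟩
    obtain ⟨C, hC, rfl⟩ := (mem_shift i hN).1 hX
    exact ⟨D.str (i :: w) C, ⟨C, hC, rfl⟩, rfl⟩
  · rintro ⟨_, ⟨C, hC, rfl⟩, rfl⟩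
    exact ⟨D.E i C, (mem_shift i hN).2 ⟨C, hC, rfl⟩, rfl⟩

/-- a generic element of the shifted family -/
theorem Gen.shift (i : I) {w : List I} {N : Submonoid O} (hN : D.Fam (i :: w) N) {z : S}
    (hz : D.Gen N z) : D.Gen (shift i hN) (D.E i z) := by
  refine ⟨(mem_shift i hN).2 ⟨z, hz.1, rfl⟩, fun C' hC' => ?_⟩
  obtain ⟨C, hC, rfl⟩ := (mem_shift i hN).1 hC'
  obtain ⟨k, m, P, hk, hP, h⟩ := hz.2 C hC
  refine ⟨k, m, D.E i P, hk, (mem_shift i hN).2 ⟨P, hP, rfl⟩, ?_⟩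
  obtain ⟨C1, h1, h1'⟩ := hN.pow hC k
  obtain ⟨z1, h2, h2'⟩ := hN.pow hz.1 m
  rw [h1, h2] at h
  rw [(D.Epow i (hN.sr hC) k h1).2, (D.Epow i (hN.sr hz.1) m h2).2]
  exact (D.Emul i h).2

end Sys2

end Pool.Agent.KLSAbs

end

section

/-! MP_e487d8_al, part 3: the factor theorem (Theorem F) from the statements of `St.lean`. -/

set_option autoImplicit false

namespace Pool.Agent.KLT

namespace Pre

variable {I S O : Type} [DecidableEq I] [CommRing O] [Algebra ℚ O] (D : Pre I S O)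

/-- the facts which are used for Theorem F -/
structure Facts : Prop where
  inp : D.Inp
  dlf : D.DLF
  dlpow : D.StDLpow
  ext : D.StEXT
  gen : D.StGen
  fex : D.StFex
  zorn : D.StZorn
  d3 : D.StD3
  hat : D.StHat
  topF : D.StTopF
  top2 : D.StTop2
  hf : D.StHF
  cmp : D.StCmp
  hom : D.StHom
  mon : D.StMon

/-! ### the opposite system -/

theorem op_Fam (w : List I) (N : Submonoid O) : D.op.Fam w.reverse N ↔ D.Fam w N := by
  constructor
  · intro h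
    refine ⟨fun x hx => ?_⟩
    obtain ⟨X, h1, h2⟩ := h.spl x hx
    exact ⟨X, h1, (D.op_Ad w X).1 h2⟩
  · intro h
    refine ⟨fun x hx => ?_⟩
    obtain ⟨X, h1, h2⟩ := h.spl x hx
    exact ⟨X, h1, (D.op_Ad w X).2 h2⟩

theorem op_Mx (w : List I) (N : Submonoid O) : D.op.Mx w.reverse N ↔ D.Mx w N := by
  unfold Mx
  rw [op_Fam]
  refine and_congr Iff.rfl (forall_congr' fun N' => ?_)
  rw [op_Fam]

theorem op_Id (w : List I) : D.op.Id w.reverse = D.Id w := by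
  have h : (fun X => ¬ D.op.Ad w.reverse X) = fun X => ¬ D.Ad w X := by
    funext X
    rw [op_Ad]
  unfold Id
  rw [h]
  rfl

theorem op_Gen (w : List I) (N : Submonoid O) (z : S) (h : D.op.Gen w.reverse N z) :
    D.Gen w N z :=
  ⟨h.mem, fun X hX hs => h.cent X ((D.op_Ad w X).2 hX) hs, h.dvd⟩

variable {D}

/-- ST for elements -/
theorem st_elem (hi : D.Inp) {w : List I} (hw : Reduced D.A w) {C : S} (hC : D.Ad w C)
    (hR : D.SR C) (g : O) : ∃ n₀ : ℕ, ∀ n ≥ n₀, ∀ R, D.b.repr (D.b C ^ n * g) R ≠ 0 →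
      D.SC C R := by
  classical
  choose f hf using hi.ST w hw C hC hR
  refine ⟨(D.b.repr g).support.sup f, fun n hn R hRR => ?_⟩
  have e : D.b.repr (D.b C ^ n * g) R =
      ∑ X ∈ (D.b.repr g).support, D.b.repr g X * D.b.repr (D.b C ^ n * D.b X) R := by
    conv_lhs => rw [D.eq_sum g]
    rw [Finset.mul_sum, map_sum, Finsupp.finsetSum_apply]
    refine Finset.sum_congr rfl fun X _ => ?_
    rw [mul_smul_comm, map_smul, Finsupp.smul_apply, smul_eq_mul]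
  rw [e] at hRR
  obtain ⟨X, hX, hX'⟩ := Finset.exists_ne_zero_of_sum_ne_zero hRR
  exact hf X n (le_trans (Finset.le_sup (f := f) hX) hn) R (right_ne_zero_of_mul hX')

theorem Fam.mul_SS {w : List I} {N : Submonoid O} (hN : D.Fam w N) {g h : O}
    (hg : g ∈ D.SS fun X => D.b X ∈ N) (hh : h ∈ D.SS fun X => D.b X ∈ N) :
    g * h ∈ D.SS fun X => D.b X ∈ N := by
  refine D.SS_mul ?_ hg hh
  intro X Y Z hX hY hZ
  obtain ⟨W, h1, h2, _⟩ := hN.mul hX hY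
  rw [D.co_of_mul' h1.symm hZ]
  exact h2

variable [IsDomain O]

/-- factors become monomials -/
theorem mono (F : D.Facts) {W : List I} (hW : Reduced D.A W) {N₁ N₂ : Submonoid O} {Λ : I → ℕ}
    {M : S} (hM : D.IsDL Λ W M) (hN₁ : D.Mx W N₁) (hN₂ : D.Mx W N₂)
    (hcl : ∀ x T Q (k : ℕ), D.b x ∈ N₁ → D.b M ^ k = D.b T → D.Hd T x Q → D.SC M Q →
      D.b Q ∈ N₂) {z : S} (hz : D.Gen W N₂ z) {g h : O} {c : S} (hc : D.b c ∈ N₁)
    (hgh : g * h = D.b c) : ∃ n₀ : ℕ, ∀ n ≥ n₀, ∃ (α : ℚ) (Q₀ : S), α ≠ 0 ∧ D.b Q₀ ∈ N₂ ∧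
      D.b z ^ n * g - α • D.b Q₀ ∈ D.Id W := by
  have hMad := F.dlf.ad Λ W M hW hM
  have hMsr : D.SR M := fun n => by
    obtain ⟨T, hT, _⟩ := F.dlpow Λ W M hW hM n
    exact ⟨T, hT⟩
  obtain ⟨k, hk⟩ := F.inp.ST W hW M hMad hMsr c
  obtain ⟨T, hT⟩ := hMsr k
  obtain ⟨X, hX⟩ := D.hd_ex T c
  have hXsc : D.SC M X := by
    refine hk k (le_refl k) X ?_
    rw [hT, repr_mul]
    exact_mod_cast D.hd_co T c X hX
  have hXN := hcl c T X k hc hT hX hXsc
  obtain ⟨_, hX3⟩ := F.d3 Λ W M N₁ hW hM hN₁ c hc k T X hT hX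
  have hzad := hN₂.1.ad hz.mem
  have hzsr := hN₂.1.sr hz.mem
  obtain ⟨n₁, hn₁⟩ := st_elem F.inp hW hzad hzsr g
  obtain ⟨n₂, hn₂⟩ := st_elem F.inp hW hzad hzsr (D.b T * h)
  refine ⟨max n₁ n₂, fun n hn => ?_⟩
  obtain ⟨G, hG1, hG2, hG3⟩ := D.exists_adp W (D.b z ^ n * g)
  obtain ⟨H, hH1, hH2, hH3⟩ := D.exists_adp W (D.b z ^ n * (D.b T * h))
  have hGN : G ∈ D.SS fun X => D.b X ∈ N₂ := by
    rw [mem_SS]
    intro R hR
    have h1 := D.mem_SS.1 hG2 R hR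
    refine hz.cent R h1 (hn₁ n (le_trans (le_max_left _ _) hn) R ?_)
    rw [← hG3 R h1]
    exact hR
  have hHN : H ∈ D.SS fun X => D.b X ∈ N₂ := by
    rw [mem_SS]
    intro R hR
    have h1 := D.mem_SS.1 hH2 R hR
    refine hz.cent R h1 (hn₂ n (le_trans (le_max_right _ _) hn) R ?_)
    rw [← hH3 R h1]
    exact hR
  obtain ⟨Z, hZ1, hZ2, _⟩ := hN₂.1.pow hz.mem (n + n)
  obtain ⟨Q, hQ1, hQ2, hQ3⟩ := hN₂.1.mul hZ2 hXN
  have hGH : G * H = D.b Q := by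
    rw [← sub_eq_zero]
    refine D.eq_zero_of_Id (w := W) ?_ ?_
    · have h1 := D.Id_mul_sub hG1 hH1
      have h2 : D.b z ^ n * g * (D.b z ^ n * (D.b T * h)) = D.b Z * (D.b T * D.b c) := by
        rw [← hgh, hZ1, pow_add]; ring
      rw [h2] at h1
      have h3 : D.b Z * (D.b T * D.b c - D.b X) ∈ D.Id W := D.Id_mul hX3
      have h4 := Submodule.sub_mem _ h3 h1
      have h5 : D.b Z * (D.b T * D.b c - D.b X) - (D.b Z * (D.b T * D.b c) - G * H) =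
          G * H - D.b Q := by
        rw [hQ1]; ring
      rwa [h5] at h4
    · refine Submodule.sub_mem _ ?_ (D.b_mem_SS.2 hQ3)
      exact D.SS_mono (fun X hX => hN₂.1.ad hX) (hN₂.1.mul_SS hGN hHN)
  obtain ⟨α, Q₀, h1, h2, h3⟩ := F.mon W N₂ hN₂.1 G H hGN hHN Q hGH
  exact ⟨α, Q₀, h1, h2, by rw [← h3]; exact hG1⟩

/-- the support of a factor has one element -/
theorem supp_one (F : D.Facts) (F' : D.op.Facts) {W : List I} (hW : Reduced D.A W) {g h : O}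
    {c : S} (hgh : g * h = D.b c) (hg : ∀ X, D.b.repr g X ≠ 0 → D.Ad W X)
    {N₁ : Submonoid O} (hN₁ : D.Mx W N₁) (hc : D.b c ∈ N₁) :
    ∃ X₀, D.b.repr g X₀ ≠ 0 ∧ ∀ X, D.b.repr g X ≠ 0 → X = X₀ := by
  classical
  have hWr : Reduced D.op.A W.reverse := reduced_reverse D.hA hW
  obtain ⟨M, hM⟩ := F.dlf.ex (fun _ => 1) W hW
  obtain ⟨N₁', h1a, h1b, h1c⟩ := F.hat (fun _ => 1) W M N₁ hW hM hN₁.1
  obtain ⟨N₂, h2a, h2b⟩ := F.zorn W N₁' h1a
  have hMN₂ : D.b M ∈ N₂ := h2a h1b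
  have h2op : D.op.Mx W.reverse N₂ := (D.op_Mx W N₂).2 h2b
  obtain ⟨M', hM'⟩ := F'.dlf.ex (fun _ => 1) W.reverse hWr
  obtain ⟨N₂', h2c, h2d, h2e⟩ := F'.hat (fun _ => 1) W.reverse M' N₂ hWr hM' h2op.1
  obtain ⟨N₃, h3a, h3b⟩ := F'.zorn W.reverse N₂' h2c
  have hM'N₃ : D.op.b M' ∈ N₃ := h3a h2d
  have hcl3 : ∀ x T Q (k : ℕ), D.op.b x ∈ N₂ → D.op.b M' ^ k = D.op.b T → D.op.Hd T x Q →
      D.op.SC M' Q → D.op.b Q ∈ N₃ := fun x T Q k a1 a2 a3 a4 => h3a (h2e x T Q k a1 a2 a3 a4)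
  obtain ⟨z, z₁, hz, hz1, hfac⟩ := F'.fex W.reverse N₂ hWr h2op M hMN₂
  have hgen : D.Gen W N₂ z := D.op_Gen W N₂ z (F'.gen W.reverse N₂ z hWr h2op hz)
  have hT : D.TopH (fun _ => 1) W M N₂ z z₁ :=
    ⟨hW, fun _ => one_pos, hM, h2b, hgen, hMN₂, hz1, hfac⟩
  obtain ⟨z', z₁', K, hz', hz1', hfac', hcong⟩ := F'.hf (fun _ => 1) W.reverse M' N₂ N₃ z hWr hM'
    h2op h3b.1 hM'N₃ hcl3 hz
  have hgen' := F'.gen W.reverse N₃ z' hWr h3b hz'
  have hT' : D.op.TopH (fun _ => 1) W.reverse M' N₃ z' z₁' :=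
    ⟨hWr, fun _ => one_pos, hM', h3b, hgen', hM'N₃, hz1', hfac'⟩
  obtain ⟨n₁, hn₁⟩ := F.topF _ W M N₂ z z₁ hT g hg
  obtain ⟨n₂, hn₂⟩ := F'.topF _ W.reverse M' N₃ z' z₁' hT' g
    (fun X hX => (D.op_Ad W X).2 (hg X hX))
  obtain ⟨n₃, hn₃⟩ := mono F hW hM hN₁ h2b
    (fun x T Q k a1 a2 a3 a4 => h2a (h1c x T Q k a1 a2 a3 a4)) hgen hc hgh
  obtain ⟨n, hn1, hn2, hn3⟩ : ∃ n, n ≥ n₁ ∧ n ≥ n₂ ∧ n ≥ n₃ :=
    ⟨max n₁ (max n₂ n₃), le_max_left _ _, le_trans (le_max_left _ _) (le_max_right _ _),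
      le_trans (le_max_right _ _) (le_max_right _ _)⟩
  obtain ⟨α, Q₀, hα, hQ₀, hmono⟩ := hn₃ n hn3
  obtain ⟨T, hTz, hTN, hTad⟩ := h2b.1.pow hgen.mem n
  obtain ⟨T', hTz', hTN', hTad'⟩ := h3b.1.pow hgen'.mem n
  obtain ⟨Mn, hMn, hMnDL⟩ := F'.dlpow _ W.reverse M' hWr hM' (K * n)
  -- the images of the members of `N₂`
  have hd3 : ∀ Q, D.b Q ∈ N₂ → ∃ Q', D.Ad W Q' ∧ D.b Q' - D.b M' ^ (K * n) * D.b Q ∈ D.Id W := by
    intro Q hQ
    obtain ⟨Q', hQ'⟩ := D.op.hd_ex Mn Q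
    obtain ⟨a1, a2⟩ := F'.d3 _ W.reverse M' N₂ hWr hM' h2op Q hQ (K * n) Mn Q' hMn hQ'
    refine ⟨Q', (D.op_Ad W Q').1 a1, ?_⟩
    rw [op_Id] at a2
    have a3 := Submodule.neg_mem _ a2
    have a4 : D.b M' ^ (K * n) = D.b Mn := hMn
    rw [a4]
    have a5 : -(D.op.b Mn * D.op.b Q - D.op.b Q') = D.b Q' - D.b Mn * D.b Q := neg_sub _ _
    rwa [a5] at a3
  have hcong1 : D.b z' - D.b M' ^ K * D.b z ∈ D.Id W := by
    rw [op_Id] at hcong
    exact hcong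
  have hT'c : D.b T' - D.b M' ^ (K * n) * D.b T ∈ D.Id W := by
    have a1 := D.Id_pow_sub hcong1 n
    have a2 : (D.b M' ^ K * D.b z) ^ n = D.b M' ^ (K * n) * D.b T := by
      rw [mul_pow, ← pow_mul, hTz]
    rw [a2] at a1
    have a3 : D.b T' = D.b z' ^ n := hTz'
    rw [a3]
    exact a1
  obtain ⟨Q₁, hQ₁ad, hQ₁⟩ := hd3 Q₀ hQ₀
  -- the product `T' g`
  have hT'g : D.b T' * g - α • D.b Q₁ ∈ D.Id W := by
    have a1 : D.b T' * g - D.b M' ^ (K * n) * D.b T * g ∈ D.Id W := by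
      rw [← sub_mul]
      exact D.Id_mul' hT'c
    have a2 : D.b M' ^ (K * n) * (D.b T * g - α • D.b Q₀) ∈ D.Id W := by
      refine D.Id_mul ?_
      rw [hTz]
      exact hmono
    have a3 : α • (D.b Q₁ - D.b M' ^ (K * n) * D.b Q₀) ∈ D.Id W := Submodule.smul_mem _ _ hQ₁
    have a4 := Submodule.sub_mem _ (Submodule.add_mem _ a1 a2) a3
    have a5 : D.b T' * g - D.b M' ^ (K * n) * D.b T * g +
        D.b M' ^ (K * n) * (D.b T * g - α • D.b Q₀) -
        α • (D.b Q₁ - D.b M' ^ (K * n) * D.b Q₀) = D.b T' * g - α • D.b Q₁ := by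
      rw [smul_sub, mul_sub, mul_smul_comm]; ring
    rwa [a5] at a4
  obtain ⟨p1, X₀, p2, p3, p4⟩ := hn₁ n hn1 α Q₀ T hα (h2b.1.ad hQ₀) hTz.symm
    (by rw [hTz]; exact hmono)
  obtain ⟨r1, X₁, r2, r3, r4⟩ := hn₂ n hn2 α Q₁ T' hα ((D.op_Ad W Q₁).2 hQ₁ad) hTz'.symm
    (by rw [op_Id]; exact hT'g)
  refine ⟨X₀, p2, fun X hX => ?_⟩
  by_contra hne
  -- a constituent of `T' X`
  have hZ' : ∃ Z', D.co T' X Z' ≠ 0 ∧ D.b Z' ∈ N₃ ∧ D.lam z' Q₁ ≤ D.lam z' Z' := by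
    by_cases hX1 : X = X₁
    · refine ⟨Q₁, ?_, ?_, le_refl _⟩
      · rw [hX1]
        exact D.op.hd_co T' X₁ Q₁ r3
      · exact r1 X₁ r2 Q₁ (D.op.hd_co T' X₁ Q₁ r3) ((D.op_Ad W Q₁).2 hQ₁ad)
    · obtain ⟨Z', hZ'⟩ := D.op.hd_ex T' X
      obtain ⟨s1, s2⟩ := r4 X hX hX1 Z' hZ'
      refine ⟨Z', D.op.hd_co T' X Z' hZ', s1, ?_⟩
      have s3 : - D.lam z' Z' < - D.lam z' Q₁ := s2
      linarith
  obtain ⟨Z', hZ'co, hZ'N, hZ'lam⟩ := hZ'
  have hZ'ad : D.Ad W Z' := (D.op_Ad W Z').1 (h3b.1.ad hZ'N)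
  -- it comes from a constituent of `T X`
  have hQ : ∃ Q, D.co T X Q ≠ 0 ∧ D.b Q ∈ N₂ ∧ D.b Z' - D.b M' ^ (K * n) * D.b Q ∈ D.Id W := by
    by_contra hcon
    push Not at hcon
    -- every constituent contributes nothing at `Z'`
    have key : ∀ Q, D.co T X Q ≠ 0 → D.b.repr (D.b M' ^ (K * n) * D.b Q) Z' = 0 := by
      intro Q hQ
      by_cases hQad : D.Ad W Q
      · have hQN := p1 X hX Q hQ hQad
        obtain ⟨Q', hQ'1, hQ'2⟩ := hd3 Q hQN
        have hne' : Q' ≠ Z' := by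
          rintro rfl
          exact hcon Q hQ hQN hQ'2
        have e1 := D.mem_Id.1 hQ'2 Z' hZ'ad
        rw [map_sub, Finsupp.sub_apply, Module.Basis.repr_self, Finsupp.single_apply,
          if_neg hne', zero_sub, neg_eq_zero] at e1
        exact e1
      · have e1 : D.b M' ^ (K * n) * D.b Q ∈ D.Id W := D.Id_mul (D.b_mem_Id.2 hQad)
        exact D.mem_Id.1 e1 Z' hZ'ad
    have e2 : D.b T' * D.b X - D.b M' ^ (K * n) * D.b T * D.b X ∈ D.Id W := by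
      rw [← sub_mul]
      exact D.Id_mul' hT'c
    have e3 := D.mem_Id.1 e2 Z' hZ'ad
    have e4 : D.b.repr (D.b M' ^ (K * n) * D.b T * D.b X) Z' = 0 := by
      rw [mul_assoc, D.b_mul T X, Finsupp.sum, Finset.mul_sum, map_sum,
        Finsupp.finsetSum_apply]
      refine Finset.sum_eq_zero fun Q hQ => ?_
      rw [mul_smul_comm, map_smul, Finsupp.smul_apply, key Q (Finsupp.mem_support_iff.1 hQ),
        smul_zero]
    rw [map_sub, Finsupp.sub_apply, e4, sub_zero, repr_mul] at e3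
    exact hZ'co (by exact_mod_cast e3)
  obtain ⟨Q, hQco, hQN, hQc⟩ := hQ
  -- comparison
  have hQ₁N : D.b Q₁ ∈ N₃ := r1 X₁ r2 Q₁ (D.op.hd_co T' X₁ Q₁ r3) ((D.op_Ad W Q₁).2 hQ₁ad)
  have hcmp : ∀ Q Q', D.b Q ∈ N₂ → D.b Q' ∈ N₃ →
      D.b Q' - D.b M' ^ (K * n) * D.b Q ∈ D.Id W →
      - D.lam z' Q' = - D.lam z Q + K * D.op.kap (fun _ => 1) W.reverse (D.wtz Q) -
        ((K * n : ℕ) : ℤ) * D.op.kap (fun _ => 1) W.reverse (D.wtz z) := by
    intro Q Q' hQ hQ' hQQ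
    exact F'.cmp (fun _ => 1) W.reverse M' hWr hM' z Q z' Q' K (K * n)
      (h2b.1.cm hgen.mem hQ) (h3b.1.cm hgen'.mem hQ') (h3b.1.ad hgen'.mem) (h3b.1.ad hQ')
      hcong (by rw [op_Id]; exact hQQ)
  have c1 := hcmp Q Z' hQN hZ'N hQc
  have c2 := hcmp Q₀ Q₁ hQ₀ hQ₁N hQ₁
  have hwt : D.wtz Q = D.wtz Q₀ := by
    rw [D.wtz_co hQco, D.wtz_co (D.hd_co T X₀ Q₀ p3)]
    have := F.hom g h c hgh X X₀ hX p2
    unfold wtz
    rw [this]
  rw [hwt] at c1
  obtain ⟨Z, hZ⟩ := D.hd_ex T X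
  obtain ⟨q1, q2⟩ := p4 X hX hne Z hZ
  obtain ⟨q3, _⟩ := F.top2 _ W M N₂ z z₁ hT X n T Z hTz.symm hZ q1 Q hQco hQN
  linarith

/-- Theorem F -/
theorem thmF (F : D.Facts) (F' : D.op.Facts) : D.StF := by
  classical
  intro w N hw hN g h c hc hgh
  obtain ⟨v, hv, hvs⟩ := F.ext w hw ((D.b.repr g).support ∪ (D.b.repr h).support)
  have hNw : D.Fam (w ++ v) N :=
    ⟨fun x hx => by
      obtain ⟨X, h1, h2⟩ := hN.1.spl x hx
      exact ⟨X, h1, D.ad_append' v h2⟩⟩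
  obtain ⟨N₁, hNN₁, hN₁⟩ := F.zorn (w ++ v) N hNw
  have hgad : ∀ X, D.b.repr g X ≠ 0 → D.Ad (w ++ v) X := fun X hX =>
    hvs X (Finset.mem_union_left _ (Finsupp.mem_support_iff.2 hX))
  have hhad : ∀ X, D.b.repr h X ≠ 0 → D.Ad (w ++ v) X := fun X hX =>
    hvs X (Finset.mem_union_right _ (Finsupp.mem_support_iff.2 hX))
  obtain ⟨X₀, hX₀, hX₀'⟩ := supp_one F F' hv hgh hgad hN₁ (hNN₁ hc)
  obtain ⟨Y₀, hY₀, hY₀'⟩ := supp_one F F' hv (by rw [mul_comm]; exact hgh) hhad hN₁ (hNN₁ hc)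
  have eg : g = D.b.repr g X₀ • D.b X₀ := by
    refine D.b.repr.injective (Finsupp.ext fun Z => ?_)
    rw [map_smul, Module.Basis.repr_self, Finsupp.smul_apply, Finsupp.single_apply]
    by_cases hZ : X₀ = Z
    · rw [if_pos hZ, hZ, smul_eq_mul, mul_one]
    · rw [if_neg hZ, smul_zero]
      by_contra h0
      exact hZ (hX₀' Z h0).symm
  have eh : h = D.b.repr h Y₀ • D.b Y₀ := by
    refine D.b.repr.injective (Finsupp.ext fun Z => ?_)
    rw [map_smul, Module.Basis.repr_self, Finsupp.smul_apply, Finsupp.single_apply]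
    by_cases hZ : Y₀ = Z
    · rw [if_pos hZ, hZ, smul_eq_mul, mul_one]
    · rw [if_neg hZ, smul_zero]
      by_contra h0
      exact hZ (hY₀' Z h0).symm
  set a := D.b.repr g X₀ with ha
  set a' := D.b.repr h Y₀ with ha'
  have e1 : (a * a') • (D.b X₀ * D.b Y₀) = D.b c := by
    rw [← hgh, eg, eh, smul_mul_smul_comm]
  -- the leading constituent
  obtain ⟨Z, z1, z2, z3⟩ := D.lead (w ++ v) (hgad X₀ hX₀) (hhad Y₀ hY₀)
  have e2 : ∀ R, (a * a') * (D.co X₀ Y₀ R : ℚ) = if c = R then 1 else 0 := by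
    intro R
    have := congrArg (fun g => D.b.repr g R) e1
    simp only [map_smul, Finsupp.smul_apply, smul_eq_mul, repr_mul, Module.Basis.repr_self,
      Finsupp.single_apply] at this
    exact this
  have e3 : c = Z := by
    by_contra hne
    have := e2 Z
    rw [z3, if_neg hne, Nat.cast_one, mul_one] at this
    rcases mul_eq_zero.1 this with h1 | h1
    · exact hX₀ h1
    · exact hY₀ h1
  have e4 : a * a' = 1 := by
    have := e2 Z
    rw [z3, if_pos e3, Nat.cast_one, mul_one] at this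
    exact this
  rw [e4, one_smul] at e1
  refine ⟨a, X₀, ?_, eg⟩
  -- membership
  obtain ⟨z, z₁, hz, _, _⟩ := F.fex w N hw hN D.one hN.1.one_mem
  have hgen := F.gen w N z hw hN hz
  refine hgen.cent X₀ ?_ ?_
  · exact D.ad_co w X₀ Y₀ c (by rw [D.co_of_mul e1]; exact one_ne_zero) (hN.1.ad hc)
  · intro n
    obtain ⟨Tn, t1, t2, _⟩ := hN.1.pow hgen.mem n
    obtain ⟨P, q1, _, _⟩ := hN.1.mul t2 hc
    have e5 : D.b Y₀ * (D.b Tn * D.b X₀) = D.b P := by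
      rw [q1, ← e1]; ring
    obtain ⟨R, hR⟩ := D.cm_of_mul_mul e5
    exact ⟨R, by rw [← t1, hR]⟩

end Pre

end Pool.Agent.KLT

end

section

/-! MP_e487d8_al, PBW block: the crossing data of a `Loc` satisfy the formal rules `Cross`. -/

set_option autoImplicit false

namespace Pool.Agent.KLS

variable {K I : Type} [Field K] [Fintype I] [DecidableEq I]

namespace Pbw

variable {D : Datum K I} {P : Type} [AddCommGroup P] [Module K P]

namespace Loc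

/-- `g` commutes with all dots and all idempotents -/
structure Dg (d : Loc D P) (g : Module.End K P) : Prop where
  e1 : ∀ k c, g * d.r1 (D.e k c) = d.r1 (D.e k c) * g
  e2 : ∀ k c, g * d.r2 (D.e k c) = d.r2 (D.e k c) * g
  x1 : ∀ k, g * d.r1 (D.x k) = d.r1 (D.x k) * g
  x2 : ∀ k, g * d.r2 (D.x k) = d.r2 (D.x k) * g

namespace Dg

variable {d : Loc D P} {g h : Module.End K P}

theorem x12 (hg : d.Dg g) (i j : ℕ) :
    g * (d.r1 (D.x i) - d.r2 (D.x j)) = (d.r1 (D.x i) - d.r2 (D.x j)) * g := by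
  rw [mul_sub, sub_mul, hg.x1, hg.x2]

theorem cA (hg : d.Dg g) (i j : ℕ) : g * d.A i j = d.A i j * g :=
  d.comm_A i j (hg.e1 i) (hg.e2 j) (hg.x12 i j)
theorem cQ (hg : d.Dg g) (i j : ℕ) : g * d.qq i j = d.qq i j * g :=
  d.comm_qq i j (hg.e1 i) (hg.e2 j) (hg.x1 i) (hg.x2 j)
theorem cQE (hg : d.Dg g) (c c' : I) (i j : ℕ) :
    g * D.QE c c' (d.r1 (D.x i)) (d.r2 (D.x j)) = D.QE c c' (d.r1 (D.x i)) (d.r2 (D.x j)) * g :=
  Datum.QE_semi (hg.x1 i) (hg.x2 j)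
theorem cN (hg : d.Dg g) (i j : ℕ) : g * d.nn i j = d.nn i j * g :=
  d.comm_nn i j (hg.e1 i) (hg.e2 j)
theorem cD (hg : d.Dg g) (i j : ℕ) : g * d.dd i j = d.dd i j * g :=
  d.comm_dd i j (hg.e1 i) (hg.e2 j)
theorem cE1 (hg : d.Dg g) (i : ℕ) : g * d.r1 (D.E i) = d.r1 (D.E i) * g := by
  unfold Datum.E
  rw [map_sum, Finset.mul_sum, Finset.sum_mul]
  exact Finset.sum_congr rfl fun c _ => hg.e1 i c
theorem cE2 (hg : d.Dg g) (i : ℕ) : g * d.r2 (D.E i) = d.r2 (D.E i) * g := by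
  unfold Datum.E
  rw [map_sum, Finset.mul_sum, Finset.sum_mul]
  exact Finset.sum_congr rfl fun c _ => hg.e2 i c
theorem cv (hg : d.Dg g) (i j : ℕ) : g * d.v i j = d.v i j * g :=
  d.comm_v i j (hg.x12 i j) (by rw [← mul_assoc, hg.cE1, mul_assoc, hg.cE2, mul_assoc])

theorem mul (hg : d.Dg g) (hh : d.Dg h) : d.Dg (g * h) where
  e1 k c := by rw [mul_assoc, hh.e1, ← mul_assoc, hg.e1, mul_assoc]
  e2 k c := by rw [mul_assoc, hh.e2, ← mul_assoc, hg.e2, mul_assoc]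
  x1 k := by rw [mul_assoc, hh.x1, ← mul_assoc, hg.x1, mul_assoc]
  x2 k := by rw [mul_assoc, hh.x2, ← mul_assoc, hg.x2, mul_assoc]

theorem add (hg : d.Dg g) (hh : d.Dg h) : d.Dg (g + h) where
  e1 k c := by rw [add_mul, mul_add, hh.e1, hg.e1]
  e2 k c := by rw [add_mul, mul_add, hh.e2, hg.e2]
  x1 k := by rw [add_mul, mul_add, hh.x1, hg.x1]
  x2 k := by rw [add_mul, mul_add, hh.x2, hg.x2]

theorem sub (hg : d.Dg g) (hh : d.Dg h) : d.Dg (g - h) where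
  e1 k c := by rw [sub_mul, mul_sub, hh.e1, hg.e1]
  e2 k c := by rw [sub_mul, mul_sub, hh.e2, hg.e2]
  x1 k := by rw [sub_mul, mul_sub, hh.x1, hg.x1]
  x2 k := by rw [sub_mul, mul_sub, hh.x2, hg.x2]

theorem smul (r : K) (hg : d.Dg g) : d.Dg (r • g) where
  e1 k c := by rw [smul_mul_assoc, mul_smul_comm, hg.e1]
  e2 k c := by rw [smul_mul_assoc, mul_smul_comm, hg.e2]
  x1 k := by rw [smul_mul_assoc, mul_smul_comm, hg.x1]
  x2 k := by rw [smul_mul_assoc, mul_smul_comm, hg.x2]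

theorem QD {x z y : Module.End K P} (hx : d.Dg x) (hz : d.Dg z) (hy : d.Dg y) (c c' : I) :
    d.Dg (D.QD c c' x z y) where
  e1 k b := (Datum.commute_QD (show Commute _ x from (hx.e1 k b).symm)
    (show Commute _ z from (hz.e1 k b).symm) (show Commute _ y from (hy.e1 k b).symm)).eq.symm
  e2 k b := (Datum.commute_QD (show Commute _ x from (hx.e2 k b).symm)
    (show Commute _ z from (hz.e2 k b).symm) (show Commute _ y from (hy.e2 k b).symm)).eq.symm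
  x1 k := (Datum.commute_QD (show Commute _ x from (hx.x1 k).symm)
    (show Commute _ z from (hz.x1 k).symm) (show Commute _ y from (hy.x1 k).symm)).eq.symm
  x2 k := (Datum.commute_QD (show Commute _ x from (hx.x2 k).symm)
    (show Commute _ z from (hz.x2 k).symm) (show Commute _ y from (hy.x2 k).symm)).eq.symm

theorem zero : d.Dg 0 where
  e1 k c := by rw [zero_mul, mul_zero]
  e2 k c := by rw [zero_mul, mul_zero]
  x1 k := by rw [zero_mul, mul_zero]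
  x2 k := by rw [zero_mul, mul_zero]

theorem one : d.Dg 1 where
  e1 k c := by rw [one_mul, mul_one]
  e2 k c := by rw [one_mul, mul_one]
  x1 k := by rw [one_mul, mul_one]
  x2 k := by rw [one_mul, mul_one]

theorem pow (hg : d.Dg g) (n : ℕ) : d.Dg (g ^ n) := by
  induction n with
  | zero => rw [pow_zero]; exact one
  | succ n ih => rw [pow_succ]; exact ih.mul hg

theorem sum {ι : Type*} (s : Finset ι) (f : ι → Module.End K P) (hf : ∀ i ∈ s, d.Dg (f i)) :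
    d.Dg (∑ i ∈ s, f i) := by
  classical
  induction s using Finset.induction_on with
  | empty => rw [Finset.sum_empty]; exact zero
  | insert a s ha ih =>
    rw [Finset.sum_insert ha]
    exact (hf a (Finset.mem_insert_self a s)).add
      (ih fun i hi => hf i (Finset.mem_insert_of_mem hi))

variable (d) in
theorem re1 (k : ℕ) (c : I) : d.Dg (d.r1 (D.e k c)) where
  e1 l c' := by rw [← map_mul, ← map_mul, D.e_comm]
  e2 l c' := d.comm _ _
  x1 l := by rw [← map_mul, ← map_mul, D.x_e]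
  x2 l := d.comm _ _

variable (d) in
theorem re2 (k : ℕ) (c : I) : d.Dg (d.r2 (D.e k c)) where
  e1 l c' := (d.comm _ _).symm
  e2 l c' := by rw [← map_mul, ← map_mul, D.e_comm]
  x1 l := (d.comm _ _).symm
  x2 l := by rw [← map_mul, ← map_mul, D.x_e]

variable (d) in
theorem rx1 (k : ℕ) : d.Dg (d.r1 (D.x k)) where
  e1 l c' := by rw [← map_mul, ← map_mul, D.x_e]
  e2 l c' := d.comm _ _
  x1 l := by rw [← map_mul, ← map_mul, D.x_comm]
  x2 l := d.comm _ _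

variable (d) in
theorem rx2 (k : ℕ) : d.Dg (d.r2 (D.x k)) where
  e1 l c' := (d.comm _ _).symm
  e2 l c' := by rw [← map_mul, ← map_mul, D.x_e]
  x1 l := (d.comm _ _).symm
  x2 l := by rw [← map_mul, ← map_mul, D.x_comm]

variable (d) in
theorem dA (i j : ℕ) : d.Dg (d.A i j) where
  e1 l c' := ((re1 d l c').cA i j).symm
  e2 l c' := ((re2 d l c').cA i j).symm
  x1 l := ((rx1 d l).cA i j).symm
  x2 l := ((rx2 d l).cA i j).symm

variable (d) in
theorem dQ (i j : ℕ) : d.Dg (d.qq i j) where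
  e1 l c' := ((re1 d l c').cQ i j).symm
  e2 l c' := ((re2 d l c').cQ i j).symm
  x1 l := ((rx1 d l).cQ i j).symm
  x2 l := ((rx2 d l).cQ i j).symm

variable (d) in
theorem dN (i j : ℕ) : d.Dg (d.nn i j) where
  e1 l c' := ((re1 d l c').cN i j).symm
  e2 l c' := ((re2 d l c').cN i j).symm
  x1 l := ((rx1 d l).cN i j).symm
  x2 l := ((rx2 d l).cN i j).symm

variable (d) in
theorem dv (i j : ℕ) : d.Dg (d.v i j) where
  e1 l c' := ((re1 d l c').cv i j).symm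
  e2 l c' := ((re2 d l c').cv i j).symm
  x1 l := ((rx1 d l).cv i j).symm
  x2 l := ((rx2 d l).cv i j).symm

variable (d) in
theorem dD (i j : ℕ) : d.Dg (d.dd i j) where
  e1 l c' := ((re1 d l c').cD i j).symm
  e2 l c' := ((re2 d l c').cD i j).symm
  x1 l := ((rx1 d l).cD i j).symm
  x2 l := ((rx2 d l).cD i j).symm

end Dg

section colours

variable (d : Loc D P)

theorem r1_ee (k : ℕ) (c c' : I) :
    d.r1 (D.e k c) * d.r1 (D.e k c') = if c = c' then d.r1 (D.e k c) else 0 := by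
  rw [← map_mul, D.e_mul_e]; split_ifs
  · rfl
  · exact map_zero _

theorem r2_ee (k : ℕ) (c c' : I) :
    d.r2 (D.e k c) * d.r2 (D.e k c') = if c = c' then d.r2 (D.e k c) else 0 := by
  rw [← map_mul, D.e_mul_e]; split_ifs
  · rfl
  · exact map_zero _

/-- `dd` on colours -/
theorem dd_ee (i j : ℕ) (c c' : I) :
    d.dd i j * (d.r1 (D.e i c) * d.r2 (D.e j c')) =
      if c = c' then d.r1 (D.e i c) * d.r2 (D.e j c') else 0 := by
  unfold dd
  rw [Finset.sum_mul]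
  have h : ∀ b, d.r1 (D.e i b) * d.r2 (D.e j b) * (d.r1 (D.e i c) * d.r2 (D.e j c')) =
      if b = c then (if c = c' then d.r1 (D.e i c) * d.r2 (D.e j c') else 0) else 0 := by
    intro b
    have h1 : d.r1 (D.e i b) * d.r2 (D.e j b) * (d.r1 (D.e i c) * d.r2 (D.e j c')) =
        (d.r1 (D.e i b) * d.r1 (D.e i c)) * (d.r2 (D.e j b) * d.r2 (D.e j c')) := by
      rw [mul_assoc, ← mul_assoc (d.r2 (D.e j b)), ← d.comm, mul_assoc (d.r1 (D.e i c)),
        ← mul_assoc]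
    rw [h1, r1_ee, r2_ee]
    split_ifs with h2 h3 h4 h4
    · rw [h2, h4]
    · exact absurd (h2.symm.trans h3) h4
    · exact absurd (h2.trans h4) h3
    · rw [mul_zero]
    · rw [zero_mul]
    · rw [zero_mul]
  simp only [h]
  rw [Finset.sum_ite_eq' Finset.univ c, if_pos (Finset.mem_univ c)]

theorem dd_e (i j : ℕ) (c : I) :
    d.dd i j * d.r1 (D.e i c) = d.dd i j * d.r2 (D.e j c) := by
  unfold dd
  rw [Finset.sum_mul, Finset.sum_mul]
  refine Finset.sum_congr rfl fun b _ => ?_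
  rw [mul_assoc, ← d.comm, ← mul_assoc, r1_ee, mul_assoc, r2_ee]
  split_ifs
  · rfl
  · rw [zero_mul, mul_zero]

theorem dd_nn (i j : ℕ) : d.dd i j * d.nn i j = 0 := by
  unfold nn
  rw [Finset.mul_sum]
  refine Finset.sum_eq_zero fun c _ => ?_
  rw [Finset.mul_sum]
  refine Finset.sum_eq_zero fun c' _ => ?_
  split_ifs with h
  · rw [mul_zero]
  · rw [dd_ee, if_neg h]

theorem dd_qq (i j : ℕ) : d.dd i j * d.qq i j = 0 := by
  unfold qq
  rw [Finset.mul_sum]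
  refine Finset.sum_eq_zero fun c _ => ?_
  rw [Finset.mul_sum]
  refine Finset.sum_eq_zero fun c' _ => ?_
  split_ifs with h
  · rw [mul_zero]
  · rw [← mul_assoc, (Dg.dD d i j).cQE, mul_assoc, dd_ee, if_neg h, mul_zero]

theorem dd_dd (i j : ℕ) : d.dd i j * d.dd i j = d.dd i j := by
  conv_lhs => rhs; unfold dd
  rw [Finset.mul_sum]
  conv_rhs => unfold dd
  refine Finset.sum_congr rfl fun c _ => ?_
  rw [dd_ee, if_pos rfl]

theorem nn_ee (i j : ℕ) (c c' : I) :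
    d.nn i j * (d.r1 (D.e i c) * d.r2 (D.e j c')) =
      if c = c' then 0 else d.r1 (D.e i c) * d.r2 (D.e j c') := by
  have h : ∀ b b', (d.r1 (D.e i b) * d.r2 (D.e j b')) * (d.r1 (D.e i c) * d.r2 (D.e j c')) =
      if b = c then (if b' = c' then d.r1 (D.e i c) * d.r2 (D.e j c') else 0) else 0 := by
    intro b b'
    have h1 : d.r1 (D.e i b) * d.r2 (D.e j b') * (d.r1 (D.e i c) * d.r2 (D.e j c')) =
        (d.r1 (D.e i b) * d.r1 (D.e i c)) * (d.r2 (D.e j b') * d.r2 (D.e j c')) := by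
      rw [mul_assoc, ← mul_assoc (d.r2 (D.e j b')), ← d.comm, mul_assoc (d.r1 (D.e i c)),
        ← mul_assoc]
    rw [h1, r1_ee, r2_ee]
    split_ifs with h2 h3
    · rw [h2, h3]
    · rw [mul_zero]
    · rw [zero_mul]
    · rw [zero_mul]
  unfold nn
  rw [Finset.sum_mul, Finset.sum_eq_single c]
  · rw [Finset.sum_mul, Finset.sum_eq_single c']
    · split_ifs with h1
      · rw [zero_mul]
      · rw [h, if_pos rfl, if_pos rfl]
    · intro b' _ hb'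
      split_ifs
      · rw [zero_mul]
      · rw [h, if_pos rfl, if_neg hb']
    · intro h1; exact absurd (Finset.mem_univ _) h1
  · intro b _ hb
    rw [Finset.sum_mul]
    refine Finset.sum_eq_zero fun b' _ => ?_
    split_ifs
    · rw [zero_mul]
    · rw [h, if_neg hb]
  · intro h1; exact absurd (Finset.mem_univ _) h1

theorem nn_qq (i j : ℕ) : d.nn i j * d.qq i j = d.qq i j := by
  conv_lhs => rhs; unfold qq
  conv_rhs => unfold qq
  rw [Finset.mul_sum]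
  refine Finset.sum_congr rfl fun c _ => ?_
  rw [Finset.mul_sum]
  refine Finset.sum_congr rfl fun c' _ => ?_
  split_ifs with h
  · rw [mul_zero]
  · rw [← mul_assoc, (Dg.dN d i j).cQE, mul_assoc, nn_ee, if_neg h]

theorem nn_nn (i j : ℕ) : d.nn i j * d.nn i j = d.nn i j := by
  conv_lhs => rhs; unfold nn
  conv_rhs => unfold nn
  rw [Finset.mul_sum]
  refine Finset.sum_congr rfl fun c _ => ?_
  rw [Finset.mul_sum]
  refine Finset.sum_congr rfl fun c' _ => ?_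
  split_ifs with h
  · rw [mul_zero]
  · rw [nn_ee, if_neg h]

theorem A_nn (i j : ℕ) : d.A i j * d.nn i j = 0 := by unfold A; rw [mul_assoc, dd_nn, mul_zero]
theorem A_qq (i j : ℕ) : d.A i j * d.qq i j = 0 := by unfold A; rw [mul_assoc, dd_qq, mul_zero]
theorem nn_A (i j : ℕ) : d.nn i j * d.A i j = 0 := by rw [(Dg.dN d i j).cA, A_nn]
theorem qq_A (i j : ℕ) : d.qq i j * d.A i j = 0 := by rw [(Dg.dQ d i j).cA, A_qq]

/-- `dd + nn` is the identity where both strands exist -/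
theorem dd_add_nn (i j : ℕ) : d.dd i j + d.nn i j = d.r1 (D.E i) * d.r2 (D.E j) := by
  have h : ∀ (c : I) (f : I → Module.End K P),
      f c + ∑ b, (if c = b then 0 else f b) = ∑ b, f b := by
    intro c f
    have h1 : f c = ∑ b, if c = b then f b else 0 := by
      rw [Finset.sum_ite_eq Finset.univ c, if_pos (Finset.mem_univ c)]
    rw [h1, ← Finset.sum_add_distrib]
    refine Finset.sum_congr rfl fun b _ => ?_
    split_ifs
    · rw [add_zero]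
    · rw [zero_add]
  unfold dd nn Datum.E
  rw [map_sum, map_sum, Finset.sum_mul, ← Finset.sum_add_distrib]
  refine Finset.sum_congr rfl fun c _ => ?_
  rw [Finset.mul_sum]
  exact h c fun b => d.r1 (D.e i c) * d.r2 (D.e j b)

theorem xy_A (i j : ℕ) : (d.r1 (D.x i) - d.r2 (D.x j)) * d.A i j = d.dd i j := by
  unfold A
  rw [← mul_assoc, d.mul_v]
  unfold dd
  rw [Finset.mul_sum]
  refine Finset.sum_congr rfl fun c _ => ?_
  rw [mul_assoc, ← mul_assoc (d.r2 (D.E j)), ← d.comm, mul_assoc (d.r1 (D.e i c)), ← mul_assoc,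
    ← map_mul, ← map_mul, D.E_e, D.E_e, D.e_E, D.e_E]

theorem A_xy (i j : ℕ) : d.A i j * (d.r1 (D.x i) - d.r2 (D.x j)) = d.dd i j := by
  rw [← ((Dg.rx1 d i).sub (Dg.rx2 d j)).cA, xy_A]

end colours

end Loc

end Pbw

end Pool.Agent.KLS

end
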