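import Pool.Agent.Work.MP_e487d8_al.Bd.B36
import Pool.Agent.Work.MP_e487d8_al.Y.Stmt
import Pool.Agent.Work.MP_e487d8_al.Y.Mod.Word
import Pool.Agent.Work.MP_e487d8_al.Bd.B01

/-! Bundle of small proof modules (one section per former module). -/

section

/-! MP_e487d8_al, abstract part 2 (ranks): statements. Notes 2394, 2395, 2412. -/

set_option autoImplicit false

namespace Pool.Agent.KLSAbs

open scoped LaurentPolynomial

variable {I S O K : Type} [DecidableEq I] [CommRing O] [Algebra ℚ O] [Ring K]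
  [Algebra ℤ[T;T⁻¹] K] (D : Sys2 I S O K)

namespace Sys2

/-! ### the opposite system -/

theorem op_Lm {C X : S} {a : ℤ} : D.op.Lm C X a ↔ D.Lm X C a := by
  constructor
  · intro h
    exact MulOpposite.op_injective h
  · intro h
    exact congrArg MulOpposite.op h

theorem op_lam [IsDomain O] (C X : S) : D.op.lam C X = D.lam X C := by
  by_cases h : ∃ a, D.Lm X C a
  · obtain ⟨a, ha⟩ := h
    rw [ha.lam, ((D.op_Lm).2 ha).lam]
  · have h' : ¬ ∃ a, D.op.Lm C X a := fun ⟨a, ha⟩ => h ⟨a, (D.op_Lm).1 ha⟩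
    rw [lam, dif_neg h', lam, dif_neg h]

theorem op_Ad (w : List I) (X : S) : D.op.Ad w X ↔ D.Ad w.reverse X :=
  AdP_rev_rev D.ad_mirror w X

/-! ### graded multiplicities -/

/-- STAB: the occurrences of `C^k ∘ Q` in `C^k V`, with degrees relative to the product
`C^k ∘ Q`, are eventually constant -/
def StStab : Prop := ∀ (C Q : S) (V : K), D.SR C → D.SC C Q → D.Pos V →
  ∃ (k₀ : ℕ) (p : ℤ → ℤ), (∀ n, D.cf V Q n ≤ p n) ∧ {n | p n ≠ 0}.Finite ∧
    ∀ k ≥ k₀, ∀ (Z : S) (a : ℤ), D.gb C ^ k * D.gb Q = D.q a (D.gb Z) →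
      ∀ n, D.cf (D.gb C ^ k * V) Z (n + a) = p n

/-- MULT (modulo an ideal `J`) -/
def StMult : Prop := ∀ (J : S → Prop), (∀ X Y Z, D.co X Y Z ≠ 0 → J X → J Z) →
  ∀ (C Q : S) (V : K) (μ : ℤ), D.SR C → D.SC C Q → D.Pos V →
  (∀ Z n, ¬ J Z → D.cf (D.gb C * V) Z n = D.cf (D.q μ (V * D.gb C)) Z n) →
  (∃ n, D.cf V Q n ≠ 0) → (∀ (k : ℕ) (Z : S), D.b C ^ k * D.b Q = D.b Z → ¬ J Z) →
  D.lam C Q = - μ

/-- MULT for constituents of a product -/
def StMult2 : Prop := ∀ C T X Y Z Q : S, D.SR C → D.Cm C T → D.Cm C X → D.Cm C Y →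
  D.co X Y Z ≠ 0 → D.co T Z Q ≠ 0 → D.SC C Q →
  D.lam C Q = D.lam C T + D.lam C X + D.lam C Y

/-- K3, not strict -/
def StK3 : Prop := ∀ (C B T T' Z Q : S) (n m : ℕ), D.SR C → D.Dag C → D.b C ^ n = D.b T →
  D.Hd T B Z → D.SC C Z → D.b C ^ m = D.b T' → D.co T' B Q ≠ 0 → D.SC C Q →
  D.lam C Q ≤ D.lam C Z

/-- BDD -/
def StBdd : Prop := ∀ C G : S, D.SR C → ∃ M : ℤ, ∀ Z Q : S, D.SC C Z → D.SC C Q →
  D.co G Z Q ≠ 0 → |D.lam C Q - D.lam C Z| ≤ M

/-! ### `Dag` from bounded length; `Sys2.ST` (Pos.lean): the length of `C^n ∘ G` is bounded -/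

/-- DGC, proved in the block DG -/
def StDgc : Prop := ∀ (i : I) (C : S), D.SR C → 0 < D.eps i C → D.ST (D.E i C) → D.Dag C

/-- words and spans of strings; used for `Good` = reduced -/
structure GoodW (Good : List I → Prop) : Prop where
  tail : ∀ i w, Good (i :: w) → Good w
  rev : ∀ w, Good w → Good w.reverse
  span : ∀ w, Good w → Submodule.span ℚ {v | ∃ X, D.Ad w X ∧ D.str w X = v} = ⊤

/-- `ST` for the modules adapted to words of length `< m` -/
def PM (Good : List I → Prop) (m : ℕ) : Prop := ∀ (w : List I) (C : S), Good w →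
  w.length < m → D.SR C → D.Ad w C → D.ST C

/-- `Dag` and `Dag'` for the modules adapted to words of length `≤ m` -/
def DG (Good : List I → Prop) (m : ℕ) : Prop := ∀ (w : List I) (C : S), Good w →
  w.length ≤ m → D.SR C → D.Ad w C → D.Dag C ∧ D.Dag' C

/-! ### heads -/

/-- HDSC: `hd(C^n ∘ X)` strongly commutes with `C` for large `n` -/
def StHdsc : Prop := ∀ C X : S, D.SR C → D.Dag C → ∃ n₀ : ℕ, ∀ n ≥ n₀, ∀ T Z : S,
  D.b C ^ n = D.b T → D.Hd T X Z → D.SC C Z

/-- POW: the induction in KEY -/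
def StPow : Prop := ∀ (f X : S) (T : ℕ → ℕ → S), D.SR f → D.SC f X →
  (∀ q, D.b f ^ q = D.b (T 0 q)) →
  (∀ p, (∀ q, D.b X ^ p * D.b f ^ q = D.b (T p q)) → ∀ q Z, D.Hd (T p q) X Z →
    D.Hd X (T p q) Z → Z = T (p + 1) q) →
  (∀ p, (∀ q, D.b X ^ p * D.b f ^ q = D.b (T p q)) → ∀ q,
    D.co (T p q) X (T (p + 1) q) = 1) →
  ∀ p q, D.b X ^ p * D.b f ^ q = D.b (T p q)

/-- KEY -/
def StKey : Prop := ∀ (i : I) (f X' : S), D.SR f → D.Dag f →
  (∀ p q, ∃ Z, D.b X' ^ p * D.b (D.E i f) ^ q = D.b Z) →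
  ∃ N₀ : ℕ, ∀ N ≥ N₀, ∃ X : S, D.eps i X = N * D.eps i f + D.eps i X' ∧
    D.b (D.E i X) = D.b (D.E i f) ^ N * D.b (D.E i X') ∧
    ∀ p q, ∃ Z, D.b X ^ p * D.b f ^ q = D.b Z

/-- KEY' -/
def StKey' : Prop := ∀ (i : I) (f : S), D.SR f → D.Dag' f →
  ∃ N₀ : ℕ, ∀ N ≥ N₀, ∃ X : S, D.eps i X = N * D.eps i f + 1 ∧
    D.b (D.E i X) = D.b (D.E i f) ^ N ∧
    ∀ p q, ∃ Z, D.b X ^ p * D.b f ^ q = D.b Z

/-- KF1: KEY' for families -/
def StKf1 : Prop := ∀ (i : I) (w : List I) (N : Submonoid O), D.Fam (i :: w) N →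
  (∀ C, D.b C ∈ N → D.Dag C ∧ D.Dag' C) →
  ∃ C X : S, D.b C ∈ N ∧ D.Fam (i :: w) (N ⊔ Submonoid.powers (D.b X)) ∧
    D.str (i :: w) X = D.str (i :: w) C + cn i w (1, 0)

/-- KF2: KEY for families -/
def StKf2 : Prop := ∀ (i : I) (w : List I) (N : Submonoid O) (X' : S) (hN : D.Fam (i :: w) N)
  [IsDomain O], (∀ C, D.b C ∈ N → D.Dag C ∧ D.Dag' C) →
  D.Fam w (shift i hN ⊔ Submonoid.powers (D.b X')) →
  ∃ C X : S, D.b C ∈ N ∧ D.Fam (i :: w) (N ⊔ Submonoid.powers (D.b X)) ∧
    D.str (i :: w) X = D.str (i :: w) C + D.str (i :: w) X'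

/-! ### Theorem A, (F), T, R -/

/-- A1: the string of `hd(f^n ∘ Z)` for a constituent `Z` of `X ∘ Y` -/
def StA1 : Prop := ∀ (w : List I) (N : Submonoid O), D.Fam w N → D.sp w N = ⊤ →
  ∀ X Y Z f : S, D.CC w N X → D.CC w N Y → D.co X Y Z ≠ 0 → D.Gen N f → D.Dag f →
  ∃ n₀ : ℕ, ∀ n ≥ n₀, ∀ T Q : S, D.b f ^ n = D.b T → D.Hd T Z Q →
  D.Ad w Q ∧ D.str w Q = D.str w T + D.str w X + D.str w Y

/-- A2: Theorem A -/
def StA2 : Prop := ∀ (w : List I) (N : Submonoid O), D.Fam w N → D.sp w N = ⊤ →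
  (∀ C, D.b C ∈ N → D.Dag C) → ∀ X Y : S, D.CC w N X → D.CC w N Y →
  ∃ Z, D.b X * D.b Y = D.b Z ∧ D.CC w N Z

/-- A3: the family of all adapted modules commuting with a family of full rank -/
def StA3 : Prop := ∀ (w : List I) (N : Submonoid O), D.Fam w N → D.sp w N = ⊤ →
  (∀ C, D.b C ∈ N → D.Dag C) →
  ∃ N' : Submonoid O, D.Fam w N' ∧ N ≤ N' ∧ ∀ X, D.b X ∈ N' ↔ D.CC w N X

/-- (F) -/
def StF (Good : List I → Prop) (m : ℕ) : Prop := ∀ w : List I, Good w → w.length ≤ m →
  ∀ N : Submonoid O, D.Fam w N → D.sp w N = ⊤ → ∀ z : S, D.Gen N z → ∀ Y : S, D.Ad w Y →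
  ∃ n₀ : ℕ, ∀ n ≥ n₀, ∃ X : S, D.CC w N X ∧ D.str w X = D.str w Y + n • D.str w z

/-- T -/
def StT (Good : List I → Prop) (m : ℕ) : Prop := ∀ w : List I, Good w → w.length ≤ m →
  ∀ N : Submonoid O, D.Fam w N → ∀ l : V w →ₗ[ℚ] ℚ, D.sp w N = LinearMap.ker l →
  ∀ Y, D.Ad w Y → 0 < l (D.str w Y) →
  ∃ X, D.Fam w (N ⊔ Submonoid.powers (D.b X)) ∧ 0 < l (D.str w X)

/-- R: maximal families have full rank -/
def StR (Good : List I → Prop) (m : ℕ) : Prop := ∀ w : List I, Good w → w.length ≤ m →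
  ∀ N, Mx D w N → D.sp w N = ⊤

/-- CLOSE -/
def StClose (Good : List I → Prop) (m : ℕ) : Prop := D.PM Good m → D.PM Good (m + 1)

/-! ### ST for modules of full rank -/

/-- FIN: finitely many simple modules of a given weight -/
def StFin : Prop := ∀ β : I →₀ ℕ, {X : S | D.wt X = β}.Finite

/-- TY: finitely many types of constituents of `G ∘ z^n` which strongly commute with `z` -/
def StTy : Prop := ∀ (w : List I) (N : Submonoid O), D.Fam w N → D.sp w N = ⊤ →
  ∀ z G : S, D.Gen N z → ∃ 𝒯 : Finset (V w × S), ∀ (n : ℕ) (Q : S),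
  D.b.repr (D.b G * D.b z ^ n) Q ≠ 0 → D.SC z Q →
  (D.str w Q - n • D.str w z, D.tail w Q) ∈ 𝒯

/-- STM: the constituents of `G ∘ z^n` which strongly commute with `z`, with multiplicities,
are bounded in number -/
def StStm : Prop := ∀ (w : List I) (N : Submonoid O), D.Fam w N → D.sp w N = ⊤ →
  ∀ z G : S, D.Gen N z → ∃ B : ℚ, ∀ (n : ℕ) (F : Finset S),
  (∀ Q ∈ F, D.SC z Q) → ∑ Q ∈ F, D.b.repr (D.b G * D.b z ^ n) Q ≤ B

/-- STZ: `ST` for generic elements of families of full rank -/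
def StStz : Prop := ∀ (w : List I) (N : Submonoid O), D.Fam w N → D.sp w N = ⊤ →
  ∀ z : S, D.Gen N z → D.Dag z → D.ST z

end Sys2

end Pool.Agent.KLSAbs

end

section

/-! MP_e487d8_al, part 3: maximal families are free on exactly `m` atoms (port of
`Abs/Main.lean`). -/

set_option autoImplicit false

namespace Pool.Agent.KLT

variable {I S O : Type} [DecidableEq I] [CommRing O] [Algebra ℚ O] {D : Pre I S O}

namespace Pre

/-- products of a multiset of members of a family -/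
theorem Fam.prod {w : List I} {N : Submonoid O} (hN : D.Fam w N) (s : Multiset S)
    (hs : ∀ X ∈ s, D.b X ∈ N) : ∃ Z, D.b Z = (s.map D.b).prod ∧ D.b Z ∈ N := by
  have h : (s.map D.b).prod ∈ N := by
    refine Submonoid.multiset_prod_mem N _ fun x hx => ?_
    obtain ⟨X, hX, rfl⟩ := Multiset.mem_map.1 hx
    exact hs X hX
  obtain ⟨Z, hZ, _⟩ := hN.spl _ h
  exact ⟨Z, hZ, by rw [hZ]; exact h⟩

variable [IsDomain O]

theorem Fam.prod_str {w : List I} {N : Submonoid O} (hN : D.Fam w N) (s : Multiset S)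
    (hs : ∀ X ∈ s, D.b X ∈ N) : ∃ Z, D.b Z = (s.map D.b).prod ∧ D.b Z ∈ N ∧
      D.str w Z = (s.map (D.str w)).sum := by
  induction s using Multiset.induction_on with
  | empty => exact ⟨D.one, by simp [D.b_one], hN.one_mem, by simp [D.str_one]⟩
  | cons X s ih =>
    obtain ⟨Z, h1, h2, h3⟩ := ih (fun Y hY => hs Y (Multiset.mem_cons_of_mem hY))
    have hX := hs X (Multiset.mem_cons_self X s)
    obtain ⟨W, hW⟩ := hN.cm hX h2
    refine ⟨W, ?_, by rw [← hW]; exact N.mul_mem hX h2, ?_⟩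
    · rw [Multiset.map_cons, Multiset.prod_cons, ← h1, hW]
    · rw [D.str_mul w hW, Multiset.map_cons, Multiset.sum_cons, h3]

/-- units are scalars -/
theorem unit_scalar (hh : D.StHom) {g h : O} (hgh : g * h = 1) : ∃ a : ℚ, g = a • (1 : O) := by
  classical
  have hgh1 : g * h = D.b D.one := by rw [hgh, D.b_one]
  have hgh2 : h * g = D.b D.one := by rw [mul_comm, hgh1]
  have hh0 : h ≠ 0 := by
    rintro rfl
    rw [mul_zero] at hgh1
    exact D.b.ne_zero _ hgh1.symm
  obtain ⟨Y, hY⟩ : ∃ Y, D.b.repr h Y ≠ 0 := by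
    by_contra hcon
    push Not at hcon
    have : D.b.repr h = 0 := Finsupp.ext hcon
    exact hh0 (by simpa using this)
  have key : ∀ X, D.b.repr g X ≠ 0 → X = D.one := by
    intro X hX
    have h1 : g * h ∈ D.SS fun Z => D.wt Z = D.wt X + D.wt Y := by
      refine D.SS_mul (p := fun Z => D.wt Z = D.wt X) (q := fun Z => D.wt Z = D.wt Y) ?_
        (D.mem_SS.2 fun Z hZ => hh g h _ hgh1 Z X hZ hX)
        (D.mem_SS.2 fun Z hZ => hh h g _ hgh2 Z Y hZ hY)
      intro A B C hA hB hC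
      rw [D.wt_co A B C hC, hA, hB]
    rw [hgh1, b_mem_SS, D.wt_one] at h1
    exact D.wt_zero X (add_eq_zero.1 h1.symm).1
  refine ⟨D.b.repr g D.one, ?_⟩
  rw [← D.b_one]
  refine D.b.repr.injective (Finsupp.ext fun Z => ?_)
  rw [map_smul, Module.Basis.repr_self, Finsupp.smul_apply, Finsupp.single_apply]
  by_cases hZ : D.one = Z
  · rw [if_pos hZ, hZ, smul_eq_mul, mul_one]
  · rw [if_neg hZ, smul_zero]
    by_contra hZ0
    exact hZ (key Z hZ0).symm

/-- the primes of a family -/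
def Pr (D : Pre I S O) (N : Submonoid O) : Set S := {X | D.b X ∈ N ∧ Prime (D.b X)}

/-- two associated basis elements are equal -/
theorem eq_of_assoc (hh : D.StHom) {X Y : S} (h : Associated (D.b X) (D.b Y)) : X = Y := by
  classical
  obtain ⟨u, hu⟩ := h
  obtain ⟨a, ha⟩ := unit_scalar hh (g := (u : O)) (h := ((u⁻¹ : Oˣ) : O)) (by simp)
  rw [ha, mul_smul_comm, mul_one] at hu
  by_contra hne
  have h1 := congrArg (fun g => D.b.repr g Y) hu
  simp only [map_smul, Module.Basis.repr_self, Finsupp.smul_apply, Finsupp.single_apply,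
    if_neg hne, smul_zero, if_true] at h1
  exact zero_ne_one h1

variable [UniqueFactorizationMonoid O]

/-- every member is a product of primes of the family -/
theorem factor (hF : D.StHom ∧ D.StF) {w : List I} (hw : Reduced D.A w) {N : Submonoid O}
    (hmx : D.Mx w N) {x : S} (hx : D.b x ∈ N) :
    ∃ s : Multiset S, (∀ X ∈ s, X ∈ Pr D N) ∧ (s.map D.b).prod = D.b x := by
  classical
  have hN := hmx.1
  obtain ⟨f, hf1, hf2⟩ := UniqueFactorizationMonoid.exists_prime_factors (D.b x) (D.b.ne_zero x)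
  have key : ∀ f : Multiset O, (∀ p ∈ f, Prime p) → f.prod ∣ D.b x →
      ∃ (a : ℚ) (s : Multiset S), (∀ X ∈ s, X ∈ Pr D N) ∧ f.prod = a • (s.map D.b).prod := by
    intro f
    induction f using Multiset.induction_on with
    | empty =>
      intro _ _
      exact ⟨1, 0, by simp, by simp⟩
    | cons p f ih =>
      intro hp hdvd
      rw [Multiset.prod_cons] at hdvd
      obtain ⟨a, s, hs1, hs2⟩ := ih (fun q hq => hp q (Multiset.mem_cons_of_mem hq))
        (dvd_trans (Dvd.intro_left _ rfl) hdvd)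
      have hpp := hp p (Multiset.mem_cons_self p f)
      obtain ⟨q, hq⟩ := dvd_trans (Dvd.intro _ rfl) hdvd
      obtain ⟨c, P, hP, hcP⟩ := hF.2 w N hw hmx p q x hx hq.symm
      have hc : c ≠ 0 := by
        rintro rfl
        rw [zero_smul] at hcP
        exact hpp.ne_zero hcP
      refine ⟨c * a, P ::ₘ s, ?_, ?_⟩
      · intro X hX
        rcases Multiset.mem_cons.1 hX with rfl | hX
        · refine ⟨hP, ?_⟩
          have h1 : Associated p (D.b X) := by
            refine ⟨Units.mk (algebraMap ℚ O c⁻¹) (algebraMap ℚ O c) ?_ ?_, ?_⟩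
            · rw [← map_mul, inv_mul_cancel₀ hc, map_one]
            · rw [← map_mul, mul_inv_cancel₀ hc, map_one]
            · show p * algebraMap ℚ O c⁻¹ = D.b X
              rw [hcP, smul_mul_assoc, mul_comm, ← Algebra.smul_def, smul_smul,
                mul_inv_cancel₀ hc, one_smul]
          exact h1.prime hpp
        · exact hs1 X hX
      · rw [Multiset.prod_cons, Multiset.map_cons, Multiset.prod_cons, hs2, hcP,
          smul_mul_smul_comm]
  obtain ⟨a, s, hs1, hs2⟩ := key f hf1 hf2.dvd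
  obtain ⟨Z, hZ, _⟩ := hN.prod s (fun X hX => (hs1 X hX).1)
  refine ⟨s, hs1, ?_⟩
  rw [← hZ] at hs2
  obtain ⟨u, hu⟩ := hf2
  obtain ⟨c, hc⟩ := unit_scalar hF.1 (g := (u : O)) (h := ((u⁻¹ : Oˣ) : O)) (by simp)
  rw [hs2, hc, mul_smul_comm, mul_one, smul_smul] at hu
  rw [← hZ]
  congr 1
  by_contra hne
  have h1 := congrArg (fun g => D.b.repr g x) hu
  simp only [map_smul, Module.Basis.repr_self, Finsupp.smul_apply, Finsupp.single_apply,
    if_neg hne, smul_zero, if_true] at h1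
  exact zero_ne_one h1

theorem span_pr (hF : D.StHom ∧ D.StF) {w : List I} (hw : Reduced D.A w) {N : Submonoid O}
    (hmx : D.Mx w N) (hfull : D.sp w N = ⊤) :
    Submodule.span ℚ (Set.range fun P : Pr D N => D.str w P) = ⊤ := by
  rw [eq_top_iff, ← hfull, sp, Submodule.span_le]
  rintro _ ⟨X, hX, rfl⟩
  obtain ⟨s, hs1, hs2⟩ := factor hF hw hmx hX
  obtain ⟨Z, h1, _, h3⟩ := hmx.1.prod_str s (fun X hX => (hs1 X hX).1)
  have h4 : X = Z := D.b_inj (hs2.symm.trans h1.symm)
  rw [h4, h3]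
  refine multiset_sum_mem _ fun v hv => ?_
  obtain ⟨Y, hY, rfl⟩ := Multiset.mem_map.1 hv
  exact Submodule.subset_span ⟨⟨Y, hs1 Y hY⟩, rfl⟩

omit [UniqueFactorizationMonoid O] in
/-- unique factorization -/
theorem uniq (hh : D.StHom) {N : Submonoid O} {s t : Multiset S} (hs : ∀ X ∈ s, X ∈ Pr D N)
    (ht : ∀ X ∈ t, X ∈ Pr D N) (h : (s.map D.b).prod = (t.map D.b).prod) : s = t := by
  have h1 := prime_factors_unique (f := s.map D.b) (g := t.map D.b)
    (fun x hx => by
      obtain ⟨X, hX, rfl⟩ := Multiset.mem_map.1 hx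
      exact (hs X hX).2)
    (fun x hx => by
      obtain ⟨X, hX, rfl⟩ := Multiset.mem_map.1 hx
      exact (ht X hX).2) (by rw [h]; exact Associated.refl _)
  rw [Multiset.rel_map] at h1
  rw [← Multiset.rel_eq]
  exact h1.mono fun X _ Y _ hXY => eq_of_assoc hh hXY

theorem li_pr (hh : D.StHom) {w : List I} {N : Submonoid O} (hN : D.Fam w N) :
    LinearIndependent ℚ (fun P : Pr D N => D.str w P) := by
  classical
  rw [← LinearIndependent.iff_fractionRing ℤ ℚ, linearIndependent_iff']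
  intro s g hg i hi
  have key : ∀ n : Pr D N → ℕ, ∃ Z, D.b Z = ((∑ j ∈ s, n j • ({j.1} : Multiset S)).map D.b).prod ∧
      D.b Z ∈ N ∧ D.str w Z = ∑ j ∈ s, n j • D.str w j := by
    intro n
    obtain ⟨Z, h1, h2, h3⟩ := hN.prod_str (∑ j ∈ s, n j • ({j.1} : Multiset S)) (by
      intro X hX
      rw [Multiset.mem_sum] at hX
      obtain ⟨j, _, hj⟩ := hX
      have := Multiset.mem_singleton.1 (Multiset.mem_of_mem_nsmul hj)
      rw [this]
      exact j.2.1)
    refine ⟨Z, h1, h2, h3.trans ?_⟩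
    rw [← Multiset.coe_mapAddMonoidHom, map_sum, ← Multiset.coe_sumAddMonoidHom, map_sum]
    refine Finset.sum_congr rfl fun j _ => ?_
    rw [map_nsmul, map_nsmul]
    simp
  obtain ⟨Z, h1, h2, h3⟩ := key (fun j => (g j).toNat)
  obtain ⟨Z', h1', h2', h3'⟩ := key (fun j => (-(g j)).toNat)
  have h4 : D.str w Z = D.str w Z' := by
    rw [h3, h3', ← sub_eq_zero, ← Finset.sum_sub_distrib, ← hg]
    refine Finset.sum_congr rfl fun j _ => ?_
    rw [← natCast_zsmul, ← natCast_zsmul, ← sub_smul]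
    congr 1
    omega
  have h5 : Z = Z' := D.str_inj w (hN.ad h2) (hN.ad h2') h4
  have hmem : ∀ n : Pr D N → ℕ, ∀ X ∈ ∑ j ∈ s, n j • ({j.1} : Multiset S), X ∈ Pr D N := by
    intro n X hX
    rw [Multiset.mem_sum] at hX
    obtain ⟨j, _, hj⟩ := hX
    have := Multiset.mem_singleton.1 (Multiset.mem_of_mem_nsmul hj)
    rw [this]
    exact j.2
  have h6 := uniq hh (hmem _) (hmem _) (h1.symm.trans ((congrArg D.b h5).trans h1'))
  have hcount : ∀ n : Pr D N → ℕ,
      Multiset.count i.1 (∑ j ∈ s, n j • ({j.1} : Multiset S)) = n i := by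
    intro n
    rw [Multiset.count_sum']
    rw [Finset.sum_eq_single i]
    · rw [Multiset.count_nsmul, Multiset.count_singleton_self, mul_one]
    · intro j _ hj
      rw [Multiset.count_nsmul, Multiset.count_singleton, if_neg, mul_zero]
      intro h
      exact hj (Subtype.ext h.symm)
    · intro h
      exact absurd hi h
  have h7 := congrArg (Multiset.count i.1) h6
  rw [hcount, hcount] at h7
  omega

/-- the primes of a family of full rank which contains everything that commutes with it: there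
are exactly `m` of them -/
theorem card_pr (hF : D.StHom ∧ D.StF) {w : List I} (hw : Reduced D.A w) {N : Submonoid O}
    (hmx : D.Mx w N) (hfull : D.sp w N = ⊤) : Finite (Pr D N) ∧ Nat.card (Pr D N) = w.length := by
  have h1 := li_pr (D := D) hF.1 hmx.1
  have h2 := span_pr hF hw hmx hfull
  have hfin : Finite (Pr D N) := h1.finite
  refine ⟨hfin, ?_⟩
  have hb := Module.finrank_eq_nat_card_basis (Module.Basis.mk h1 h2.ge)
  rw [← hb, Module.finrank_fin_fun]

/-! ### translation to families of simple modules (without the trivial module) -/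

/-- a stably irreducible family of adapted simple modules different from the trivial module -/
def IsFam (D : Pre I S O) (w : List I) (L : Set S) : Prop :=
  (∀ X ∈ L, X ≠ D.one ∧ D.Ad w X) ∧ ∀ X ∈ L, ∀ Y ∈ L, ∃ Z ∈ L, D.b X * D.b Y = D.b Z

/-- maximal among them -/
def IsMaxFam (D : Pre I S O) (w : List I) (L : Set S) : Prop :=
  IsFam D w L ∧ ∀ L', IsFam D w L' → L ⊆ L' → L' = L

/-- the atomic members -/
def Atoms (D : Pre I S O) (L : Set S) : Set S :=
  {X | X ∈ L ∧ ¬ ∃ Y ∈ L, ∃ Z ∈ L, D.b Y * D.b Z = D.b X}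

/-- every member of `L` is a nonempty product of members of `P` -/
def Generates (D : Pre I S O) (L P : Set S) : Prop :=
  ∀ X ∈ L, ∃ s : Multiset S, s ≠ 0 ∧ (∀ Y ∈ s, Y ∈ P) ∧ (s.map D.b).prod = D.b X

omit [IsDomain O] [UniqueFactorizationMonoid O] in
theorem mul_ne_one {X Y : S} (hX1 : X ≠ D.one) : D.b X * D.b Y ≠ D.b D.one := by
  intro h
  have h1 := D.wt_co X Y D.one (by rw [D.co_of_mul h]; exact one_ne_zero)
  rw [D.wt_one] at h1
  exact hX1 (D.wt_zero X (add_eq_zero.1 h1.symm).1)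

/-- the submonoid of a family -/
def mon {w : List I} {L : Set S} (hL : IsFam D w L) : Submonoid O where
  carrier := {x | ∃ X, D.b X = x ∧ (X = D.one ∨ X ∈ L)}
  one_mem' := ⟨D.one, D.b_one, Or.inl rfl⟩
  mul_mem' := by
    rintro _ _ ⟨X, rfl, hX⟩ ⟨Y, rfl, hY⟩
    rcases hX with rfl | hX
    · exact ⟨Y, by rw [D.b_one, one_mul], hY⟩
    · rcases hY with rfl | hY
      · exact ⟨X, by rw [D.b_one, mul_one], Or.inr hX⟩
      · obtain ⟨Z, hZ, h⟩ := hL.2 X hX Y hY
        exact ⟨Z, h.symm, Or.inr hZ⟩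

omit [IsDomain O] [UniqueFactorizationMonoid O] in
theorem mem_mon {w : List I} {L : Set S} (hL : IsFam D w L) {X : S} :
    D.b X ∈ mon hL ↔ X = D.one ∨ X ∈ L := by
  constructor
  · rintro ⟨Y, h1, h2⟩
    rwa [← D.b_inj h1]
  · intro h
    exact ⟨X, rfl, h⟩

omit [IsDomain O] [UniqueFactorizationMonoid O] in
theorem mon_fam {w : List I} {L : Set S} (hL : IsFam D w L) : D.Fam w (mon hL) := by
  refine ⟨?_⟩
  rintro _ ⟨X, rfl, hX⟩
  rcases hX with rfl | hX
  · exact ⟨_, rfl, D.Ad_one w⟩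
  · exact ⟨_, rfl, (hL.1 X hX).2⟩

omit [IsDomain O] [UniqueFactorizationMonoid O] in
theorem mon_mx {w : List I} {L : Set S} (hL : IsMaxFam D w L) : Mx D w (mon hL.1) := by
  refine ⟨mon_fam hL.1, fun N' hN' hle => ?_⟩
  have hfam : IsFam D w {X | D.b X ∈ N' ∧ X ≠ D.one} := by
    refine ⟨fun X hX => ⟨hX.2, hN'.ad hX.1⟩, ?_⟩
    rintro X ⟨hX, hX1⟩ Y ⟨hY, hY1⟩
    obtain ⟨Z, hZ⟩ := hN'.cm hX hY
    refine ⟨Z, ⟨by rw [← hZ]; exact N'.mul_mem hX hY, ?_⟩, hZ⟩
    rintro rfl
    exact mul_ne_one hX1 hZ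
  have h1 := hL.2 _ hfam (fun X hX => ⟨hle ((mem_mon hL.1).2 (Or.inr hX)), (hL.1.1 X hX).1⟩)
  refine le_antisymm ?_ hle
  intro x hx
  obtain ⟨X, rfl, _⟩ := hN'.spl x hx
  rw [mem_mon]
  by_cases hX : X = D.one
  · exact Or.inl hX
  · right
    rw [← h1]
    exact ⟨hx, hX⟩

theorem atoms_eq (hF : D.StHom ∧ D.StF) {w : List I} (hw : Reduced D.A w) {L : Set S}
    (hL : IsMaxFam D w L) :
    Atoms D L = Pr D (mon hL.1) := by
  classical
  have hmx := mon_mx hL
  ext X
  constructor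
  · rintro ⟨hX, hat⟩
    have hXN : D.b X ∈ mon hL.1 := (mem_mon hL.1).2 (Or.inr hX)
    refine ⟨hXN, ?_⟩
    obtain ⟨s, hs1, hs2⟩ := factor hF hw hmx hXN
    rcases Multiset.empty_or_exists_mem s with rfl | ⟨Y, hY⟩
    · exfalso
      rw [Multiset.map_zero, Multiset.prod_zero, ← D.b_one] at hs2
      exact (hL.1.1 X hX).1 (D.b_inj hs2.symm)
    · obtain ⟨t, rfl⟩ := Multiset.exists_cons_of_mem hY
      rcases Multiset.empty_or_exists_mem t with rfl | ⟨Y', hY'⟩
      · simp only [Multiset.map_cons, Multiset.map_zero, Multiset.prod_cons, Multiset.prod_zero,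
          mul_one] at hs2
        rw [← hs2]
        exact (hs1 Y hY).2
      · exfalso
        apply hat
        obtain ⟨t', rfl⟩ := Multiset.exists_cons_of_mem hY'
        have hne : ∀ Z, Z ∈ Pr D (mon hL.1) → Z ∈ L := by
          intro Z hZ
          rcases (mem_mon hL.1).1 hZ.1 with rfl | h
          · exfalso
            have := hZ.2.not_isUnit
            rw [D.b_one] at this
            exact this isUnit_one
          · exact h
        obtain ⟨W, hW1, hW2⟩ := hmx.1.prod (Y' ::ₘ t')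
          (fun Z hZ => (hs1 Z (Multiset.mem_cons_of_mem hZ)).1)
        refine ⟨Y, hne Y (hs1 Y (Multiset.mem_cons_self _ _)), W, ?_, ?_⟩
        · rcases (mem_mon hL.1).1 hW2 with rfl | h
          · exfalso
            have h1 : Y' ∈ Pr D (mon hL.1) :=
              hs1 Y' (Multiset.mem_cons_of_mem (Multiset.mem_cons_self _ _))
            refine h1.2.not_isUnit (IsUnit.of_mul_eq_one ((t'.map D.b).prod) ?_)
            rw [← D.b_one, hW1, Multiset.map_cons, Multiset.prod_cons]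
          · exact h
        · rw [hW1, ← hs2, Multiset.map_cons (f := D.b) Y, Multiset.prod_cons]
  · rintro ⟨hX, hp⟩
    have hXL : X ∈ L := by
      rcases (mem_mon hL.1).1 hX with rfl | h
      · exfalso
        have := hp.not_isUnit
        rw [D.b_one] at this
        exact this isUnit_one
      · exact h
    refine ⟨hXL, ?_⟩
    rintro ⟨Y, hY, Z, hZ, h⟩
    have hnu : ∀ Y ∈ L, ¬ IsUnit (D.b Y) := by
      intro Y hY hu
      have h1 : Associated (D.b Y) (D.b D.one) := by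
        rw [D.b_one]
        exact associated_one_iff_isUnit.2 hu
      exact (hL.1.1 Y hY).1 (eq_of_assoc hF.1 h1)
    rcases hp.irreducible.isUnit_or_isUnit h.symm with h1 | h1
    · exact hnu Y hY h1
    · exact hnu Z hZ h1

/-- the final abstract statement: a maximal family is free on exactly `m` atomic members -/
theorem final (D : Pre I S O) (hF : D.StHom ∧ D.StF)
    (hfull : ∀ w, Reduced D.A w → ∀ N, D.Mx w N → D.sp w N = ⊤) (w : List I)
    (hw : Reduced D.A w) (L : Set S) (hL : IsMaxFam D w L) :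
    (Atoms D L).Finite ∧ (Atoms D L).ncard = w.length ∧ Generates D L (Atoms D L) ∧
      (∀ P, P ⊆ L → Generates D L P → Atoms D L ⊆ P) ∧
      ∀ s t : Multiset S, (∀ X ∈ s, X ∈ Atoms D L) → (∀ X ∈ t, X ∈ Atoms D L) →
        (s.map D.b).prod = (t.map D.b).prod → s = t := by
  classical
  have hmx := mon_mx hL
  have hat := atoms_eq hF hw hL
  obtain ⟨hfin, hcard⟩ := card_pr hF hw hmx (hfull w hw _ hmx)
  refine ⟨?_, ?_, ?_, ?_, ?_⟩
  · rw [hat]; exact Set.toFinite _
  · rw [hat, Set.ncard]; exact hcard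
  · intro X hX
    obtain ⟨s, hs1, hs2⟩ := factor hF hw hmx ((mem_mon hL.1).2 (Or.inr hX))
    refine ⟨s, ?_, by rw [hat]; exact hs1, hs2⟩
    rintro rfl
    rw [Multiset.map_zero, Multiset.prod_zero, ← D.b_one] at hs2
    exact (hL.1.1 X hX).1 (D.b_inj hs2.symm)
  · intro P hP hgen X hX
    obtain ⟨s, hs0, hs1, hs2⟩ := hgen X hX.1
    obtain ⟨Y, hY⟩ := Multiset.exists_mem_of_ne_zero hs0
    obtain ⟨t, rfl⟩ := Multiset.exists_cons_of_mem hY
    rcases Multiset.empty_or_exists_mem t with rfl | ⟨Y', hY'⟩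
    · simp only [Multiset.map_cons, Multiset.map_zero, Multiset.prod_cons, Multiset.prod_zero,
        mul_one] at hs2
      rw [← D.b_inj hs2]
      exact hs1 Y hY
    · exfalso
      obtain ⟨t', rfl⟩ := Multiset.exists_cons_of_mem hY'
      have hmem : ∀ Z ∈ Y' ::ₘ t', D.b Z ∈ mon hL.1 := fun Z hZ =>
        (mem_mon hL.1).2 (Or.inr (hP (hs1 Z (Multiset.mem_cons_of_mem hZ))))
      obtain ⟨W', hW'1, hW'2⟩ := hmx.1.prod t' (fun Z hZ => hmem Z (Multiset.mem_cons_of_mem hZ))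
      obtain ⟨W, hW1, hW2⟩ := hmx.1.prod (Y' ::ₘ t') hmem
      refine hX.2 ⟨Y, hP (hs1 Y hY), W, ?_, ?_⟩
      · rcases (mem_mon hL.1).1 hW2 with rfl | h
        · exfalso
          rw [Multiset.map_cons, Multiset.prod_cons, ← hW'1] at hW1
          exact mul_ne_one (hL.1.1 Y' (hP (hs1 Y'
            (Multiset.mem_cons_of_mem (Multiset.mem_cons_self _ _))))).1 hW1.symm
        · exact h
      · rw [hW1, ← hs2, Multiset.map_cons (f := D.b) Y, Multiset.prod_cons]
  · intro s t hs ht h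
    rw [hat] at hs ht
    exact uniq hF.1 hs ht h

end Pre

end Pool.Agent.KLT

end

section

/-! MP_e487d8_al, block Fin: word idempotents on vectors; reduced words for the reflections on
`I → ℤ` and on `I →₀ ℤ`. -/

set_option autoImplicit false

namespace Pool.Agent.KLS

namespace Datum

variable {K I : Type} [Field K] [Fintype I] [DecidableEq I] (D : Datum K I)

theorem e_mul_eW (ν : List I) : ∀ (k : ℕ) (i : I), ν[k]? = some i →
    D.e k i * D.eW ν = D.eW ν := by
  induction ν with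
  | nil => intro k i h; simp at h
  | cons j ν ih =>
    intro k i h
    cases k with
    | zero =>
      simp only [List.getElem?_cons_zero, Option.some.injEq] at h
      subst h
      rw [eW_cons, ← mul_assoc, D.e_idem]
    | succ k =>
      simp only [List.getElem?_cons_succ] at h
      have h1 : D.e (k + 1) i = D.shn 1 (D.e k i) := by rw [shn_e, add_comm]
      rw [eW_cons, ← mul_assoc, D.e_comm (k + 1) 0 i j, mul_assoc, h1, ← map_mul, ih k i h]

variable {M : Type} [AddCommGroup M] [Module (KLRAlg D) M]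

theorem shn_eW_smul (ν : List I) (u : M) : ∀ m : ℕ,
    (∀ (k : ℕ) (i : I), ν[k]? = some i → D.e (m + k) i • u = u) → D.shn m (D.eW ν) • u = u := by
  induction ν with
  | nil => intro m _; rw [eW_nil, map_one, one_smul]
  | cons j ν ih =>
    intro m h
    rw [eW_cons, map_mul, D.shn_shn, mul_smul, shn_e, ih (m + 1)]
    · exact h 0 j (by simp)
    · intro k i hk
      rw [add_assoc, add_comm 1 k]
      exact h (k + 1) i (by simpa using hk)

theorem eW_smul_of (ν : List I) (u : M)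
    (h : ∀ (k : ℕ) (i : I), ν[k]? = some i → D.e k i • u = u) : D.eW ν • u = u := by
  have := D.shn_eW_smul ν u 0 (by simpa using h)
  rwa [D.shn_zero] at this

/-- the word idempotent `e(ν)` does not kill `M` iff some nonzero vector has the colours `ν` -/
theorem exists_eW_smul_ne (ν : List I) : (∃ u : M, D.eW ν • u ≠ 0) ↔
    ∃ u : M, u ≠ 0 ∧ ∀ (k : ℕ) (i : I), ν[k]? = some i → D.e k i • u = u := by
  constructor
  · rintro ⟨u, hu⟩
    refine ⟨D.eW ν • u, hu, fun k i h => ?_⟩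
    rw [← mul_smul, D.e_mul_eW ν k i h]
  · rintro ⟨u, hu, h⟩
    exact ⟨u, by rwa [D.eW_smul_of ν u h]⟩

end Datum

section red

variable {I : Type} [Fintype I] [DecidableEq I]

omit [DecidableEq I] in
theorem pair_equiv (A : I → I → ℤ) (i : I) (β : I →₀ ℤ) :
    ∑ l, A i l * Finsupp.equivFunOnFinite β l = KLT.pair A i β := by
  unfold KLT.pair
  rw [Finsupp.sum_fintype _ _ (fun _ => by ring)]
  exact Finset.sum_congr rfl fun l _ => mul_comm _ _

theorem refl_equiv (A : I → I → ℤ) (i : I) (β : I →₀ ℤ) :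
    St.refl A i (Finsupp.equivFunOnFinite β) = Finsupp.equivFunOnFinite (KLT.sr A i β) := by
  funext j
  unfold St.refl
  rw [pair_equiv]
  by_cases h : j = i
  · subst h
    simp [KLT.sr, KLT.al]
  · simp [KLT.sr, KLT.al, h]

theorem prodRefl_equiv (A : I → I → ℤ) (w : List I) (β : I →₀ ℤ) :
    St.prodRefl A w (Finsupp.equivFunOnFinite β) = Finsupp.equivFunOnFinite (KLT.act A w β) := by
  induction w with
  | nil => rfl
  | cons i w ih => rw [KLT.act, St.prodRefl, ih, refl_equiv]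

/-- the two definitions of reduced words agree -/
theorem reduced_iff (A : I → I → ℤ) (w : List I) : St.Reduced A w ↔ KLT.Reduced A w := by
  have key : ∀ w' : List I, (∀ β, St.prodRefl A w' β = St.prodRefl A w β) ↔
      (∀ β, KLT.act A w' β = KLT.act A w β) := by
    intro w'
    constructor
    · intro h β
      apply Finsupp.equivFunOnFinite.injective
      rw [← prodRefl_equiv, ← prodRefl_equiv, h]
    · intro h β
      obtain ⟨β, rfl⟩ := Finsupp.equivFunOnFinite.surjective β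
      rw [prodRefl_equiv, prodRefl_equiv, h]
  unfold St.Reduced KLT.Reduced
  simp only [key]

end red

end Pool.Agent.KLS

end
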