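import Pool.Agent.Work.MP_e487d8_al.Bd.B37
import Pool.Agent.Work.MP_e487d8_al.Bd.B12
import Pool.Agent.Work.MP_e487d8_al.Y.Conv.Api

/-! Bundle of small proof modules (one section per former module). -/

section

/-! MP_e487d8_al, abstract part, A1: the string of `hd(f^n ∘ Z)` for a constituent `Z` of
`X ∘ Y`. -/

set_option autoImplicit false

namespace Pool.Agent.KLSAbs

open scoped LaurentPolynomial

variable {I S O K : Type} [DecidableEq I] [CommRing O] [Algebra ℚ O] [Ring K]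
  [Algebra ℤ[T;T⁻¹] K] [IsDomain O] (D : Sys2 I S O K)

namespace Sys2

omit [IsDomain O] in
/-- three summands in `LL_inj` -/
theorem a1_LL_inj3 (w : List I) {Q T X Y : S} (hwt : D.wtq Q = D.wtq T + D.wtq X + D.wtq Y)
    (h : D.LL w Q = D.LL w T + D.LL w X + D.LL w Y) :
    D.str w Q = D.str w T + D.str w X + D.str w Y := by
  have h1 : D.LB w (D.str w Q - (D.str w T + D.str w X + D.str w Y), 0) = 0 := by
    have h2 : ((D.str w Q - (D.str w T + D.str w X + D.str w Y), 0) : V w × (I →₀ ℚ)) =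
        (D.str w Q, D.wtq Q) - ((D.str w T, D.wtq T) + (D.str w X, D.wtq X) +
          (D.str w Y, D.wtq Y)) := by
      rw [Prod.mk_add_mk, Prod.mk_add_mk, Prod.mk_sub_mk, hwt, sub_self]
    rw [h2, map_sub, map_add, map_add]
    exact sub_eq_zero.2 h
  exact sub_eq_zero.1 (D.LB_inj w h1)

omit [IsDomain O] in
/-- three summands in `Ad_of_wt` -/
theorem a1_Ad_of_wt3 (w : List I) {Q T X Y : S} (h : D.wtq Q = D.wtq T + D.wtq X + D.wtq Y)
    (hT : D.Ad w T) (hX : D.Ad w X) (hY : D.Ad w Y)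
    (hs : D.str w Q = D.str w T + D.str w X + D.str w Y) : D.Ad w Q := by
  rw [Ad_iff_tail]
  refine D.wt_zero _ ?_
  have h1 := D.wtq_tail w Q
  rw [h, D.wtq_Ad w hT, D.wtq_Ad w hX, D.wtq_Ad w hY, hs, map_add, map_add] at h1
  have h2 : D.wtq (D.tail w Q) = 0 := add_eq_left.1 h1.symm
  have h3 : D.wt (D.tail w Q) = D.wt D.one := D.wtq_inj (by rw [h2, wtq_one])
  rw [h3, D.wt_one]

theorem I_A1 (h : StMult2 D) (h' : StHdsc D) : StA1 D := by
  intro w N hN hsp X Y Z f hX hY hZ hgen hdag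
  obtain ⟨n₀, hn₀⟩ := h' f Z (hN.sr hgen.1) hdag
  refine ⟨n₀, fun n hn T Q hT hQ => ?_⟩
  have hSC : D.SC f Q := hn₀ n hn T Q hT hQ
  have hCQ : ∀ C, D.b C ∈ N → D.Cm C Q := fun C hC => Gen.cm hN hgen hSC hC
  obtain ⟨T', hT', hT'N⟩ := hN.pow hgen.1 n
  have hTN : D.b T ∈ N := by rw [← hT, hT']; exact hT'N
  have hco : D.co T Z Q ≠ 0 := D.hd_co T Z Q hQ
  have hwt : D.wtq Q = D.wtq T + D.wtq X + D.wtq Y := by
    rw [D.wtq_add (D.wt_co T Z Q hco), D.wtq_add (D.wt_co X Y Z hZ), add_assoc]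
  have hLL : D.LL w Q = D.LL w T + D.LL w X + D.LL w Y := by
    refine LinearMap.ext_on (s := {v | ∃ X, D.b X ∈ N ∧ D.str w X = v}) hsp ?_
    rintro _ ⟨C, hC, rfl⟩
    have hAd : D.Ad w C := hN.ad hC
    have e1 := D.lam_LL w hAd (hCQ C hC)
    have e2 := D.lam_LL w hAd (hN.cm hC hTN)
    have e3 := D.lam_LL w hAd (hX.2 C hC)
    have e4 := D.lam_LL w hAd (hY.2 C hC)
    have e5 := h C T X Y Z Q (hN.sr hC) (hN.cm hC hTN) (hX.2 C hC) (hY.2 C hC) hZ hco
      (hN.sc hC hCQ)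
    rw [LinearMap.add_apply, LinearMap.add_apply, ← e1, ← e2, ← e3, ← e4, e5]
    push_cast
    ring
  have hs := D.a1_LL_inj3 w hwt hLL
  exact ⟨D.a1_Ad_of_wt3 w hwt (hN.ad hTN) hX.1 hY.1 hs, hs⟩

end Sys2

end Pool.Agent.KLSAbs

end

section

set_option autoImplicit false
namespace Pool.Agent.KLSAbs
open scoped LaurentPolynomial
variable {I S O K : Type} [DecidableEq I] [CommRing O] [Algebra ℚ O] [Ring K] [Algebra ℤ[T;T⁻¹] K] [IsDomain O] (D : Sys2 I S O K)
namespace Sys2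

/-- the multiplicity of `Q` in `T ∘ (X ∘ Y)` -/
theorem a2_repr (T X Y Q : S) : D.b.repr (D.b T * (D.b X * D.b Y)) Q =
    ∑ Z ∈ (D.co X Y).support, (D.co X Y Z : ℚ) * (D.co T Z Q : ℚ) := by
  rw [D.b_mul X Y, Finsupp.sum, Finset.mul_sum, map_sum, Finsupp.finsetSum_apply]
  refine Finset.sum_congr rfl fun Z _ => ?_
  rw [mul_smul_comm, map_smul, Finsupp.smul_apply, repr_mul, smul_eq_mul]

/-- the product is simple -/
theorem a2_first (h : StA1 D) (w : List I) (N : Submonoid O) (hN : D.Fam w N)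
    (hsp : D.sp w N = ⊤) (hd : ∀ C, D.b C ∈ N → D.Dag C) (X Y : S) (hX : D.CC w N X)
    (hY : D.CC w N Y) : D.Cm X Y := by
  classical
  obtain ⟨f, hf⟩ := exists_gen hN
  have h1 : ∀ Z ∈ (D.co X Y).support, ∃ n₀ : ℕ, ∀ n ≥ n₀, ∀ T Q : S, D.b f ^ n = D.b T →
      D.Hd T Z Q → D.Ad w Q ∧ D.str w Q = D.str w T + D.str w X + D.str w Y := by
    intro Z hZ
    exact h w N hN hsp X Y Z f hX hY (Finsupp.mem_support_iff.1 hZ) hf (hd f hf.1)
  choose! n₀ hn₀ using h1
  set n := (D.co X Y).support.sup n₀ with hn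
  obtain ⟨T, hT, hTN⟩ := hN.pow hf.1 n
  -- the product `T ∘ X`
  obtain ⟨U, hU⟩ := hX.2 T hTN
  have hUA : D.Ad w U := D.Ad_mul w (hN.ad hTN) hX.1 hU
  obtain ⟨Q, hQA, hQs, hQ1⟩ := D.lead w hUA hY.1
  rw [D.str_mul w hU] at hQs
  have h2 : D.b.repr (D.b T * (D.b X * D.b Y)) Q = 1 := by
    rw [← mul_assoc, hU, repr_mul, hQ1, Nat.cast_one]
  rw [a2_repr] at h2
  have h3 : ∀ Z ∈ (D.co X Y).support, D.co T Z Q ≠ 0 := by
    intro Z hZ
    obtain ⟨Q', hQ'⟩ := D.hd_ex T Z
    obtain ⟨h4, h5⟩ := hn₀ Z hZ n (Finset.le_sup hZ) T Q' hT hQ'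
    have h6 : Q' = Q := D.str_inj w h4 hQA (h5.trans hQs.symm)
    rw [← h6]
    exact D.hd_co T Z Q' hQ'
  have h4 : (∑ Z ∈ (D.co X Y).support, D.co X Y Z * D.co T Z Q) = 1 := by exact_mod_cast h2
  have h5 : (∑ Z ∈ (D.co X Y).support, D.co X Y Z) ≤ 1 := by
    rw [← h4]
    refine Finset.sum_le_sum fun Z hZ => ?_
    exact Nat.le_mul_of_pos_right _ (Nat.pos_of_ne_zero (h3 Z hZ))
  obtain ⟨Z, hZ⟩ := D.exists_co X Y
  have hZ' : Z ∈ (D.co X Y).support := Finsupp.mem_support_iff.2 hZ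
  have h6 : (D.co X Y).support = {Z} := by
    refine Finset.eq_singleton_iff_unique_mem.2 ⟨hZ', fun W hW => ?_⟩
    by_contra hne
    have h7 : D.co X Y W + D.co X Y Z ≤ ∑ V ∈ (D.co X Y).support, D.co X Y V := by
      rw [← Finset.sum_pair hne]
      refine Finset.sum_le_sum_of_subset ?_
      intro V hV
      rw [Finset.mem_insert, Finset.mem_singleton] at hV
      rcases hV with rfl | rfl
      · exact hW
      · exact hZ'
    have h8 := Finsupp.mem_support_iff.1 hW
    omega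
  refine ⟨Z, ?_⟩
  rw [h6, Finset.sum_singleton] at h5
  have h7 : D.co X Y Z = 1 := by omega
  rw [D.b_mul, Finsupp.sum, h6, Finset.sum_singleton, h7, Nat.cast_one, one_smul]

/-- products of elements of the family with commuting modules -/
theorem a2_cc {w : List I} {N : Submonoid O} (hN : D.Fam w N) {C X X₁ : S} (hC : D.b C ∈ N)
    (hX : D.CC w N X) (h : D.b C * D.b X = D.b X₁) : D.CC w N X₁ := by
  refine ⟨D.Ad_mul w (hN.ad hC) hX.1 h, fun C' hC' => ?_⟩
  obtain ⟨C₂, h2, h2'⟩ := hN.mul hC' hC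
  obtain ⟨W, hW⟩ := hX.2 C₂ h2'
  exact ⟨W, by rw [← h, ← mul_assoc, h2, hW]⟩

theorem I_A2 (h : StA1 D) : StA2 D := by
  intro w N hN hsp hd X Y hX hY
  obtain ⟨Z, hZ⟩ := D.a2_first h w N hN hsp hd X Y hX hY
  refine ⟨Z, hZ, D.Ad_mul w hX.1 hY.1 hZ, fun C hC => ?_⟩
  obtain ⟨X₁, h1⟩ := hX.2 C hC
  obtain ⟨W, hW⟩ := D.a2_first h w N hN hsp hd X₁ Y (D.a2_cc hN hC hX h1) hY
  exact ⟨W, by rw [← hZ, ← mul_assoc, h1, hW]⟩

theorem I_A3 (h : StA2 D) : StA3 D := by
  intro w N hN hsp hd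
  let N' : Submonoid O :=
    { carrier := {x | ∃ X, D.b X = x ∧ D.CC w N X}
      one_mem' := ⟨D.one, D.b_one, D.Ad_one w, fun C _ => D.cm_one C⟩
      mul_mem' := by
        rintro _ _ ⟨X, rfl, hX⟩ ⟨Y, rfl, hY⟩
        obtain ⟨Z, hZ, hZ'⟩ := h w N hN hsp hd X Y hX hY
        exact ⟨Z, hZ.symm, hZ'⟩ }
  have hiff : ∀ X, D.b X ∈ N' ↔ D.CC w N X := by
    intro X
    constructor
    · rintro ⟨Y, hY, hY'⟩
      rwa [← D.b_inj hY]
    · intro hX
      exact ⟨X, rfl, hX⟩
  refine ⟨N', ⟨?_⟩, ?_, hiff⟩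
  · rintro _ ⟨X, rfl, hX⟩
    exact ⟨X, rfl, hX.1⟩
  · intro x hx
    obtain ⟨X, h1, _⟩ := hN.spl x hx
    rw [← h1] at hx ⊢
    exact (hiff X).2 (hN.cc hx)

end Sys2

end Pool.Agent.KLSAbs

end

section

/-! MP_e487d8_al, abstract part 2: item CLOSE (helper53). -/

set_option autoImplicit false

namespace Pool.Agent.KLSAbs

open scoped LaurentPolynomial

variable {I S O K : Type} [DecidableEq I] [CommRing O] [Algebra ℚ O] [Ring K]
  [Algebra ℤ[T;T⁻¹] K] [IsDomain O] (D : Sys2 I S O K)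

namespace Sys2

/-- multiplication with a simple module does not decrease the length -/
theorem close_sg1_le (X Y Z : S) :
    D.sg1 (D.b X * D.b Y) ≤ D.sg1 (D.b X * D.b Y * D.b Z) := by
  classical
  rw [D.b_mul X Y, Finsupp.sum, Finset.sum_mul, map_sum, map_sum]
  refine Finset.sum_le_sum fun W _ => ?_
  rw [smul_mul_assoc, map_smul, map_smul, sg1_mul, sg1_b, smul_eq_mul, smul_eq_mul, mul_one]
  have h3 := D.one_le_sum W Z
  have h4 : (1 : ℚ) ≤ (((D.co W Z).sum fun _ n => n : ℕ) : ℚ) := by exact_mod_cast h3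
  nlinarith [Nat.cast_nonneg (α := ℚ) (D.co X Y W)]

/-- `z ∘ C` is generic -/
theorem close_gen {w : List I} {N : Submonoid O} (hN : D.Fam w N) {z C z' : S}
    (hz : D.Gen N z) (hC : D.b C ∈ N) (h : D.b z * D.b C = D.b z') : D.Gen N z' := by
  refine ⟨by rw [← h]; exact N.mul_mem hz.1 hC, fun C₁ hC₁ => ?_⟩
  obtain ⟨k, m, P, hk, hP, hm⟩ := hz.2 C₁ hC₁
  obtain ⟨Cm, hCm, hCm'⟩ := hN.pow hC m
  obtain ⟨P', hP', hP''⟩ := hN.mul hP hCm'
  refine ⟨k, m, P', hk, hP'', ?_⟩
  rw [← hP', ← mul_assoc, hm, ← hCm, ← mul_pow, h]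

theorem I_CLOSE (Good : List I → Prop) (m : ℕ) (hD : D.DG Good m) (hR : D.StR Good m)
    (hZ : StStz D) : D.StClose Good m := by
  intro _ w C hw hlen hC hA G
  have hlen' : w.length ≤ m := Nat.lt_succ_iff.1 hlen
  obtain ⟨M, hM1, hM2⟩ := exists_mx (fam_powers hC hA)
  have hM := hM2.1
  have hCM : D.b C ∈ M := hM1 (Submonoid.mem_powers _)
  obtain ⟨z, hz⟩ := exists_gen hM
  obtain ⟨z', hz', hz'M⟩ := hM.mul hz.1 hCM
  have hgen : D.Gen M z' := D.close_gen hM hz hCM hz'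
  have hdag : D.Dag z' := (hD w z' hw hlen' (hM.sr hz'M) (hM.ad hz'M)).1
  obtain ⟨B, hB⟩ := hZ w M hM (hR w hw hlen' M hM2) z' hgen hdag G
  refine ⟨B, fun n => le_trans ?_ (hB n)⟩
  obtain ⟨Cn, hCn, _⟩ := hM.pow hCM n
  obtain ⟨zn, hzn, _⟩ := hM.pow hz.1 n
  have h1 := D.close_sg1_le Cn G zn
  have h2 : D.b z' ^ n * D.b G = D.b Cn * D.b G * D.b zn := by
    rw [← hz', mul_pow, hCn, hzn]; ring
  rw [hCn, h2, D.len_eq, D.len_eq]
  exact h1

end Sys2

end Pool.Agent.KLSAbs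

end

section

/-! MP_e487d8_al, abstract part 2, item DGM: `Dag` and `Dag'` for all modules adapted to
words of length `≤ m`. -/

set_option autoImplicit false

namespace Pool.Agent.KLSAbs

open scoped LaurentPolynomial

variable {I S O K : Type} [DecidableEq I] [CommRing O] [Algebra ℚ O] [Ring K]
  [Algebra ℤ[T;T⁻¹] K] [IsDomain O] (D : Sys2 I S O K)

namespace Sys2

omit [IsDomain O] in
theorem dgm_one : D.Dag D.one := by
  intro X
  obtain ⟨Z, hZ⟩ := D.hd_ex D.one X
  refine ⟨0, D.one, Z, ?_, hZ, fun n => ⟨Z, ?_⟩⟩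
  · rw [pow_zero, D.b_one]
  · rw [D.b_one, one_pow, one_mul]

theorem dgm_aux (Good : List I → Prop) (ht : ∀ i w, Good (i :: w) → Good w) (m : ℕ)
    (h1 : StDgc D)
    (h : ∀ (w : List I) (C : S), Good w → w.length < m → D.SR C → D.Ad w C → D.ST C) :
    ∀ (w : List I) (C : S), Good w → w.length ≤ m → D.SR C → D.Ad w C → D.Dag C := by
  intro w
  induction w with
  | nil =>
    intro C _ _ _ hA
    have hC : C = D.one := hA
    rw [hC]
    exact D.dgm_one
  | cons i w ih =>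
    intro C hg hl hS hA
    have hA' : D.Ad w (D.E i C) := hA
    have hl' : w.length < m := Nat.lt_of_succ_le hl
    rcases Nat.eq_zero_or_pos (D.eps i C) with h0 | h0
    · rw [D.E_of_eps i C h0] at hA'
      exact ih C (ht i w hg) hl'.le hS hA'
    · exact h1 i C hS h0 (h w (D.E i C) (ht i w hg) hl' (D.sr_E i hS) hA')

theorem I_DGM (Good : List I → Prop) (hG : GoodW D Good) (m : ℕ) (h1 : StDgc D)
    (h1' : StDgc D.op) (h : D.PM Good m) : D.DG Good m := by
  intro w C hg hl hS hA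
  refine ⟨D.dgm_aux Good hG.tail m h1 h w C hg hl hS hA, ?_⟩
  have h2 : D.op.Dag C := by
    refine D.op.dgm_aux Good hG.tail m h1' ?_ w.reverse C (hG.rev w hg)
      (by rw [List.length_reverse]; exact hl) hS ?_
    · intro v X hgv hlv hSX hAX
      have h3 : D.ST X := h v.reverse X (hG.rev v hgv)
        (by rw [List.length_reverse]; exact hlv) hSX ((D.op_Ad v X).1 hAX)
      exact h3
    · rw [D.op_Ad, List.reverse_reverse]
      exact hA
  exact h2

end Sys2

end Pool.Agent.KLSAbs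

end

section

/-! MP_e487d8_al, abstract part 2: statement (F). -/

set_option autoImplicit false

namespace Pool.Agent.KLSAbs

open scoped LaurentPolynomial

variable {I S O K : Type} [DecidableEq I] [CommRing O] [Algebra ℚ O] [Ring K]
  [Algebra ℤ[T;T⁻¹] K] [IsDomain O] (D : Sys2 I S O K)

namespace Sys2

theorem f_sp_shift (i : I) {w : List I} {N : Submonoid O} (hN : D.Fam (i :: w) N)
    (h : D.sp (i :: w) N = ⊤) : D.sp w (shift i hN) = ⊤ := by
  rw [sp_shift, h, Submodule.map_top, LinearMap.range_eq_top]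
  intro v
  exact ⟨cn i w (0, v), rfl⟩

theorem f_step (Good : List I → Prop) (m : ℕ) (hG : GoodW D Good) (h3 : StA3 D) (hK : StKey D)
    (hK' : StKey' D) (hD : D.DG Good m) (i : I) (w : List I) (hw : Good (i :: w))
    (hl : (i :: w).length ≤ m)
    (ih : Good w → w.length ≤ m → ∀ N : Submonoid O, D.Fam w N → D.sp w N = ⊤ →
      ∀ z : S, D.Gen N z → ∀ Y : S, D.Ad w Y →
      ∃ n₀ : ℕ, ∀ n ≥ n₀, ∃ X : S, D.CC w N X ∧ D.str w X = D.str w Y + n • D.str w z)
    (N : Submonoid O) (hN : D.Fam (i :: w) N) (hsp : D.sp (i :: w) N = ⊤) (z : S)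
    (hz : D.Gen N z) (Y : S) (hY : D.Ad (i :: w) Y) :
    ∃ n₀ : ℕ, ∀ n ≥ n₀, ∃ X : S, D.CC (i :: w) N X ∧
      D.str (i :: w) X = D.str (i :: w) Y + n • D.str (i :: w) z := by
  have hw' : Good w := hG.tail i w hw
  have hl' : w.length ≤ m := by
    rw [List.length_cons] at hl
    omega
  have hN' : D.Fam w (shift i hN) := shift_fam i hN
  have hsp' : D.sp w (shift i hN) = ⊤ := D.f_sp_shift i hN hsp
  have hz' : D.Gen (shift i hN) (D.E i z) := hz.shift i hN
  have hY' : D.Ad w (D.E i Y) := hY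
  obtain ⟨N₁, hN₁⟩ := ih hw' hl' _ hN' hsp' _ hz' _ hY'
  obtain ⟨y, hy, hys⟩ := hN₁ N₁ le_rfl
  -- `eps i y = 0`
  have hy0 : D.eps i y = 0 := by
    obtain ⟨T', hT', hT'm⟩ := hN'.pow hz'.1 N₁
    obtain ⟨Z, h1, h2, h4⟩ := D.lead w hY' (hN'.ad hT'm)
    rw [hN'.str_pow hz'.1 N₁ hT', ← hys] at h2
    have h5 : Z = y := D.str_inj w h1 hy.1 h2
    subst h5
    have h6 := D.eps_co i _ _ Z (by rw [h4]; exact one_ne_zero)
    have h7 := eps_shift i hN hT'm
    rw [D.eps_E, h7] at h6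
    omega
  have hEy : D.E i y = y := D.E_of_eps i y hy0
  -- the large family for `w`
  obtain ⟨N₂, hN₂, hN₂le, hN₂iff⟩ := h3 w _ hN' hsp'
    (fun C hC => (hD w C hw' hl' (hN'.sr hC) (hN'.ad hC)).1)
  have hyN₂ : D.b y ∈ N₂ := (hN₂iff y).2 hy
  have hzN₂ : D.b (D.E i z) ∈ N₂ := hN₂le hz'.1
  have hsz : D.SR z := hN.sr hz.1
  have hDz := hD (i :: w) z hw hl hsz (hN.ad hz.1)
  obtain ⟨M₀, hM₀⟩ := hK i z y hsz hDz.1 (fun p q => by
    obtain ⟨Z, hZ, _⟩ := hN₂.spl _ (N₂.mul_mem (N₂.pow_mem hyN₂ p) (N₂.pow_mem hzN₂ q))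
    exact ⟨Z, hZ.symm⟩)
  obtain ⟨M', hM'⟩ := hK' i z hsz hDz.2
  obtain ⟨B, hB1, hB2, hB3⟩ := hM' M' le_rfl
  -- the large family for `i :: w`
  obtain ⟨N₃, hN₃, hN₃le, hN₃iff⟩ := h3 (i :: w) N hN hsp
    (fun C hC => (hD (i :: w) C hw hl (hN.sr hC) (hN.ad hC)).1)
  have hcc : ∀ X : S, D.Ad (i :: w) X → (∀ p q, ∃ Z, D.b X ^ p * D.b z ^ q = D.b Z) →
      D.b X ∈ N₃ := by
    intro X hX hXz
    refine (hN₃iff X).2 ⟨hX, fun C hC => ?_⟩
    refine hz.cm hN (fun n => ?_) hC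
    obtain ⟨Z, hZ⟩ := hXz 1 n
    exact ⟨Z, by rw [mul_comm, ← hZ, pow_one]⟩
  have hBad : D.Ad (i :: w) B := by
    rw [Ad_cons]
    have h1 : D.b (D.E i B) ∈ shift i hN := by
      rw [hB2]; exact (shift i hN).pow_mem hz'.1 M'
    exact hN'.ad h1
  have hBN₃ : D.b B ∈ N₃ := hcc B hBad hB3
  refine ⟨M₀ + (D.eps i Y + N₁ * D.eps i z) * M' + N₁, fun n hn => ?_⟩
  obtain ⟨M, hM⟩ : ∃ M, n = M + (D.eps i Y + N₁ * D.eps i z) * M' + N₁ :=
    ⟨n - ((D.eps i Y + N₁ * D.eps i z) * M' + N₁), by omega⟩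
  have hMM : M₀ ≤ M := by omega
  obtain ⟨A, hA1, hA2, hA3⟩ := hM₀ M hMM
  rw [hEy] at hA2
  rw [hy0, add_zero] at hA1
  have hAN₂ : D.b (D.E i A) ∈ N₂ := by
    rw [hA2]; exact N₂.mul_mem (N₂.pow_mem hzN₂ M) hyN₂
  have hAad : D.Ad (i :: w) A := by
    rw [Ad_cons]
    exact hN₂.ad hAN₂
  have hAN₃ : D.b A ∈ N₃ := hcc A hAad hA3
  obtain ⟨Bk, hBk, hBkm⟩ := hN₃.pow hBN₃ (D.eps i Y + N₁ * D.eps i z)
  obtain ⟨X, hX, hXm⟩ := hN₃.mul hAN₃ hBkm
  refine ⟨X, (hN₃iff X).1 hXm, ?_⟩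
  have s1 : D.str (i :: w) X = D.str (i :: w) A + D.str (i :: w) Bk := D.str_mul _ hX
  have s2 : D.str (i :: w) Bk = (D.eps i Y + N₁ * D.eps i z) • D.str (i :: w) B :=
    hN₃.str_pow hBN₃ _ hBk
  have s3 : D.str w (D.E i A) = M • D.str w (D.E i z) + D.str w y := by
    obtain ⟨U, hU, hUm⟩ := hN₂.pow hzN₂ M
    rw [hU] at hA2
    rw [D.str_mul w hA2.symm, hN₂.str_pow hzN₂ M hU]
  have s4 : D.str w (D.E i B) = M' • D.str w (D.E i z) :=
    hN'.str_pow hz'.1 M' hB2.symm
  rw [s1, s2]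
  refine V_ext ?_ ?_
  · simp only [map_add, map_nsmul, hd_str, hA1, hB1, hM]
    push_cast
    simp only [nsmul_eq_mul]
    push_cast
    ring
  · simp only [map_add, map_nsmul, tl_str, s3, s4, hys, hM]
    module

/-- **(F)** -/
theorem I_F (Good : List I → Prop) (m : ℕ) (hG : GoodW D Good) (h3 : StA3 D) (hK : StKey D)
    (hK' : StKey' D) (hD : D.DG Good m) : D.StF Good m := by
  intro w
  induction w with
  | nil =>
    intro _ _ N _ _ z _ Y hY
    refine ⟨0, fun n _ => ⟨D.one, ⟨D.Ad_one [], fun C _ => D.cm_one C⟩, ?_⟩⟩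
    funext k
    exact Fin.elim0 k
  | cons i w ih =>
    intro hw hl N hN hsp z hz Y hY
    exact D.f_step Good m hG h3 hK hK' hD i w hw hl ih N hN hsp z hz Y hY

end Sys2

end Pool.Agent.KLSAbs

end

section

set_option autoImplicit false

/-! MP_e487d8_al, abstract part 2: heads strongly commute. -/

namespace Pool.Agent.KLSAbs

open scoped LaurentPolynomial

variable {I S O K : Type} [DecidableEq I] [CommRing O] [Algebra ℚ O] [Ring K]
  [Algebra ℤ[T;T⁻¹] K] [IsDomain O] (D : Sys2 I S O K)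

namespace Sys2

omit [IsDomain O] in
theorem I_HDSC : StHdsc D := by
  intro C X hC hDag
  obtain ⟨n₀, T₀, Z₀, hT₀, hZ₀, hSC⟩ := hDag X
  refine ⟨n₀, fun n hn T Z hT hZ => ?_⟩
  obtain ⟨k, rfl⟩ := Nat.exists_eq_add_of_le' hn
  obtain ⟨A, hA⟩ := hC k
  obtain ⟨W, hW⟩ := hSC k
  rw [hA] at hW
  have h1 : D.Hd A Z₀ W := by
    obtain ⟨Z', hZ'⟩ := D.hd_ex A Z₀
    have h2 := D.co_of_mul' hW (D.hd_co _ _ _ hZ')
    rw [← h2]; exact hZ'
  have h2 : D.b A * D.b T₀ = D.b T := by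
    rw [← hA, ← hT₀, ← pow_add, hT]
  have h3 : D.Hd T X W := D.hd_as A T₀ X T Z₀ W h2 hZ₀ h1
  obtain ⟨Z1, hZ1⟩ := D.k1 C X T (k + n₀) hC hDag hT
  have h4 : Z = W := by
    rw [D.hd1_eq T X Z1 Z hZ1 hZ, D.hd1_eq T X Z1 W hZ1 h3]
  rw [h4]
  intro m
  obtain ⟨Y, hY⟩ := hSC (m + k)
  refine ⟨Y, ?_⟩
  rw [← hW, ← hA, ← mul_assoc, ← pow_add]
  exact hY

end Sys2

end Pool.Agent.KLSAbs

end

section

/-! MP_e487d8_al, abstract part 2: K3 (not strict). -/

set_option autoImplicit false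

namespace Pool.Agent.KLSAbs

open scoped LaurentPolynomial

variable {I S O K : Type} [DecidableEq I] [CommRing O] [Algebra ℚ O] [Ring K]
  [Algebra ℤ[T;T⁻¹] K] [IsDomain O] (D : Sys2 I S O K)

namespace Sys2

omit [IsDomain O] in
theorem k3_pow {C X : S} {l : ℤ} (h : D.gb X * D.gb C = D.q l (D.gb C * D.gb X)) (k : ℕ) :
    D.gb X * D.gb C ^ k = D.q (k * l) (D.gb C ^ k * D.gb X) := by
  induction k with
  | zero => rw [pow_zero, mul_one, one_mul, Nat.cast_zero, zero_mul, q_zero]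
  | succ k ih =>
    rw [pow_succ, ← mul_assoc, ih, q_mul, mul_assoc, h, mul_q, q_q, mul_assoc]
    congr 1
    push_cast
    ring

omit [IsDomain O] in
/-- STAB on the right -/
theorem k3_stab (h' : StStab D.op) {C Q : S} {V : K} (hC : D.SR C) (hQ : D.SC C Q)
    (hV : D.Pos V) : ∃ (k₀ : ℕ) (p : ℤ → ℤ), {n | p n ≠ 0}.Finite ∧
      ∀ k ≥ k₀, ∀ (Z : S) (a : ℤ), D.gb Q * D.gb C ^ k = D.q a (D.gb Z) →
        ∀ n, D.cf (V * D.gb C ^ k) Z (n + a) = p n := by
  obtain ⟨k₀, p, -, h2, h3⟩ := h' C Q (MulOpposite.op V) hC hQ (fun Z n => hV Z n)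
  refine ⟨k₀, p, h2, fun k hk Z a hZ n => ?_⟩
  exact h3 k hk Z a (congrArg MulOpposite.op hZ) n

omit [IsDomain O] in
theorem k3_cm {C Z : S} (h : D.SC C Z) : D.Cm C Z := by
  obtain ⟨W, hW⟩ := h 1
  exact ⟨W, by rwa [pow_one] at hW⟩

omit [IsDomain O] in
/-- a finite set of integers is bounded -/
theorem k3_bd {p : ℤ → ℤ} (h : {n | p n ≠ 0}.Finite) : ∃ M : ℤ, ∀ n, p n ≠ 0 → -M ≤ n ∧ n ≤ M := by
  obtain ⟨M, hM⟩ := h.bddAbove
  obtain ⟨M', hM'⟩ := h.bddBelow
  refine ⟨max M (-M'), fun n hn => ?_⟩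
  have h1 : n ≤ M := hM hn
  have h2 : M' ≤ n := hM' hn
  have h3 := le_max_left M (-M')
  have h4 := le_max_right M (-M')
  constructor <;> linarith

theorem I_K3 (h : StStab D) (h' : StStab D.op) : StK3 D := by
  intro C B T₀ T₀' Z Q n m hC hDag hT₀ hHd hZ hT₀' hQco hQ
  have hC' : ∀ N : ℕ, ∃ T, D.b C ^ N = D.b T := hC
  choose T hT using hC'
  have e1 : T₀ = T n := D.b_inj (hT₀.symm.trans (hT n))
  have e2 : T₀' = T m := D.b_inj (hT₀'.symm.trans (hT m))
  subst e1
  subst e2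
  have hk1 : ∀ N, ∃ Z, D.Hd1 (T N) B Z := fun N => D.k1 C B (T N) N hC hDag (hT N)
  choose Zf hZf using hk1
  have ht' : ∀ N, ∃ a, D.gb C ^ N = D.q a (D.gb (T N)) := fun N =>
    Pos.eq_of_ev ((Pos.gb C).pow N) (by rw [map_pow, D.ev_gb, hT])
  choose t ht using ht'
  obtain ⟨P, hP, hdeg⟩ := D.hd_deg B
  choose s D' h1 h2 h3 using fun N => hdeg (T N) (Zf N) (hZf N)
  have H1 : ∀ N, D.cf (D.gb C ^ N * D.gb B) (Zf N) (s N + t N) ≠ 0 := by
    intro N
    rw [ht, q_mul, cf_q, add_sub_cancel_right]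
    exact h1 N
  have H2 : ∀ N, D.cf (P * D.gb C ^ N) (Zf N) (s N + t N + D' N) ≠ 0 := by
    intro N
    rw [ht, mul_q, cf_q]
    have e : s N + t N + D' N - t N = s N + D' N := by ring
    rw [e]
    exact h2 N
  have H3 : ∀ N W d, D.cf (D.gb C ^ N * D.gb B) W d ≠ 0 →
      ∃ e : ℕ, D.cf (P * D.gb C ^ N) W (d + D' N - e) ≠ 0 := by
    intro N W d hd
    rw [ht, q_mul, cf_q] at hd
    obtain ⟨e, he⟩ := h3 N W _ hd
    refine ⟨e, ?_⟩
    rw [ht, mul_q, cf_q]
    have e' : d + D' N - e - t N = d - t N + D' N - e := by ring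
    rw [e']
    exact he
  -- the quotients
  have hW : ∀ k, D.b C ^ k * D.b Z = D.b (Zf (n + k)) := by
    intro k
    obtain ⟨W, hW⟩ := hZ k
    obtain ⟨Z', hZ'⟩ := D.hd_ex (T k) Z
    have e3 : Z' = W := D.co_of_mul' (by rw [← hT]; exact hW) (D.hd_co _ _ _ hZ')
    subst e3
    have h4 : D.Hd (T (n + k)) B Z' :=
      D.hd_as (T k) (T n) B (T (n + k)) Z Z'
        (by rw [← hT, ← hT, ← hT, ← pow_add, add_comm]) hHd hZ'
    rw [← D.hd1_eq _ _ _ _ (hZf (n + k)) h4]
    exact hW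
  -- the side of `Z`
  obtain ⟨M₁, K₁, HZ⟩ : ∃ (M : ℤ) (K₀ : ℕ), ∀ k ≥ K₀, D' (n + k) ≤ k * D.lam C Z + M := by
    obtain ⟨k₀, p, -, hp2, hp3⟩ := h C Z (D.gb C ^ n * D.gb B) hC hZ
      (((Pos.gb C).pow n).mul (Pos.gb B))
    obtain ⟨k₀', p', hp2', hp3'⟩ := D.k3_stab h' (V := P * D.gb C ^ n) hC hZ
      (Pos.mul hP ((Pos.gb C).pow n))
    obtain ⟨M, hM⟩ := k3_bd hp2
    obtain ⟨M', hM'⟩ := k3_bd hp2'
    refine ⟨M + M', max k₀ k₀', fun k hk => ?_⟩
    obtain ⟨a, ha⟩ : ∃ a, D.gb C ^ k * D.gb Z = D.q a (D.gb (Zf (n + k))) :=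
      Pos.eq_of_ev (((Pos.gb C).pow k).mul (Pos.gb Z))
        (by rw [map_mul, map_pow, D.ev_gb, D.ev_gb, hW])
    have ha' : D.gb Z * D.gb C ^ k = D.q (k * D.lam C Z + a) (D.gb (Zf (n + k))) := by
      rw [D.k3_pow (D.k3_cm hZ).comm k, ha, q_q]
    have h5 := hp3 k (le_trans (le_max_left _ _) hk) _ _ ha (s (n + k) + t (n + k) - a)
    have h6 := hp3' k (le_trans (le_max_right _ _) hk) _ _ ha'
      (s (n + k) + t (n + k) + D' (n + k) - (k * D.lam C Z + a))
    rw [sub_add_cancel, ← mul_assoc, ← pow_add, add_comm k n] at h5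
    rw [sub_add_cancel, mul_assoc, ← pow_add] at h6
    have h7 := hM _ (by rw [← h5]; exact H1 (n + k))
    have h8 := hM' _ (by rw [← h6]; exact H2 (n + k))
    linarith [h7.1, h8.2]
  -- the side of `Q`
  obtain ⟨M₂, K₂, HQ⟩ : ∃ (M : ℤ) (K₀ : ℕ), ∀ k ≥ K₀, k * D.lam C Q - M ≤ D' (m + k) := by
    obtain ⟨d₀, hd₀⟩ := exists_cf_mul (D := D) hQco
    have hd : D.cf (D.gb C ^ m * D.gb B) Q (d₀ + t m) ≠ 0 := by
      rw [ht, q_mul, cf_q, add_sub_cancel_right]
      exact hd₀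
    have hpos : D.Pos (D.gb C ^ m * D.gb B) := ((Pos.gb C).pow m).mul (Pos.gb B)
    obtain ⟨k₀, p, hp1, -, hp3⟩ := h C Q (D.gb C ^ m * D.gb B) hC hQ hpos
    obtain ⟨k₀', p', hp2', hp3'⟩ := D.k3_stab h' (V := P * D.gb C ^ m) hC hQ
      (Pos.mul hP ((Pos.gb C).pow m))
    obtain ⟨M', hM'⟩ := k3_bd hp2'
    refine ⟨M' + (d₀ + t m), max k₀ k₀', fun k hk => ?_⟩
    obtain ⟨W, hW'⟩ := hQ k
    obtain ⟨a, ha⟩ : ∃ a, D.gb C ^ k * D.gb Q = D.q a (D.gb W) :=
      Pos.eq_of_ev (((Pos.gb C).pow k).mul (Pos.gb Q))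
        (by rw [map_mul, map_pow, D.ev_gb, D.ev_gb, hW'])
    have ha' : D.gb Q * D.gb C ^ k = D.q (k * D.lam C Q + a) (D.gb W) := by
      rw [D.k3_pow (D.k3_cm hQ).comm k, ha, q_q]
    have h5 := hp3 k (le_trans (le_max_left _ _) hk) _ _ ha (d₀ + t m)
    rw [← mul_assoc, ← pow_add, add_comm k m] at h5
    have h6 : p (d₀ + t m) ≠ 0 := by
      have h7 := hp1 (d₀ + t m)
      have h8 := hpos Q (d₀ + t m)
      have h9 : 0 < D.cf (D.gb C ^ m * D.gb B) Q (d₀ + t m) := lt_of_le_of_ne h8 hd.symm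
      exact (lt_of_lt_of_le h9 h7).ne'
    obtain ⟨e, he⟩ := H3 (m + k) W (d₀ + t m + a) (by rw [h5]; exact h6)
    have h10 := hp3' k (le_trans (le_max_right _ _) hk) _ _ ha'
      (d₀ + t m + a + D' (m + k) - e - (k * D.lam C Q + a))
    rw [sub_add_cancel, mul_assoc, ← pow_add] at h10
    have h11 := hM' _ (by rw [← h10]; exact he)
    have h12 : (0 : ℤ) ≤ e := Int.natCast_nonneg e
    linarith [h11.1]
  -- comparison
  by_contra hcon
  have hlt : D.lam C Z + 1 ≤ D.lam C Q := by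
    have := not_le.1 hcon
    linarith
  set R : ℤ := M₁ + M₂ + m * D.lam C Q - n * D.lam C Z with hR
  have hZN := HZ (m + K₁ + K₂ + R.toNat + 1) (by omega)
  have hQN := HQ (n + K₁ + K₂ + R.toNat + 1) (by omega)
  have e4 : m + (n + K₁ + K₂ + R.toNat + 1) = n + (m + K₁ + K₂ + R.toNat + 1) := by ring
  rw [e4] at hQN
  have h13 := hQN.trans hZN
  have h14 : R ≤ R.toNat := Int.self_le_toNat R
  push_cast at h13
  have h15 : (0 : ℤ) ≤ (m : ℤ) + n + K₁ + K₂ := by positivity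
  nlinarith [h15, h14, hlt]

end Sys2

end Pool.Agent.KLSAbs

end

section

/-! MP_e487d8_al, abstract part 2, item KEY. -/

set_option autoImplicit false

namespace Pool.Agent.KLSAbs

open scoped LaurentPolynomial

variable {I S O K : Type} [DecidableEq I] [CommRing O] [Algebra ℚ O] [Ring K]
  [Algebra ℤ[T;T⁻¹] K] [IsDomain O] (D : Sys2 I S O K)

namespace Sys2

/-- the simple modules `X'^p ∘ f'^q` -/
theorem key_G (i : I) (f X' : S) (hf : D.SR f) (G : ℕ → ℕ → S)
    (hG : ∀ p q, D.b X' ^ p * D.b (D.E i f) ^ q = D.b (G p q)) (p q : ℕ) :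
    D.eps i (G p q) = p * D.eps i X' ∧
      D.b (D.E i (G p q)) = D.b (D.E i X') ^ p * D.b (D.E i f) ^ q := by
  have hX : D.SR X' := fun p => ⟨G p 0, by rw [← hG p 0, pow_zero, mul_one]⟩
  have hf' : D.SR (D.E i f) := D.sr_E i hf
  obtain ⟨P, hP⟩ := hX p
  obtain ⟨Q, hQ⟩ := hf' q
  obtain ⟨h1, h2⟩ := D.Epow i hX p hP
  obtain ⟨h3, h4⟩ := D.Epow i hf' q hQ
  have h5 : D.b P * D.b Q = D.b (G p q) := by rw [← hP, ← hQ, hG]
  obtain ⟨h6, h7⟩ := D.Emul i h5
  rw [D.eps_E, Nat.mul_zero] at h3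
  rw [D.E_E] at h4
  refine ⟨by rw [h6, h1, h3, Nat.add_zero], ?_⟩
  rw [← h7, ← h2, ← h4]

theorem I_KEY (h1 : StPow D) (h2 : StHdsc D) : StKey D := by
  intro i f X' hf hD hG0
  choose G hG using hG0
  have hGG := D.key_G i f X' hf G hG
  obtain ⟨n₀, hn₀⟩ := h2 f X' hf hD
  refine ⟨n₀, fun N hN => ?_⟩
  -- `T p q`
  have hT0 : ∀ p q, ∃ Y, D.eps i Y = D.eps i (G p (q + p * N)) + (q + p * N) * D.eps i f ∧
      D.E i Y = D.E i (G p (q + p * N)) := fun p q =>
    D.eps_surj i _ _ (D.eps_E i _)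
  choose T hTe hTE using hT0
  -- a product with `L(i^m)` on the left
  have hL : ∀ (m : ℕ) (A B C BC W Z : S), D.b B * D.b C = D.b BC →
      D.eps i W = D.eps i B + m → D.E i W = D.E i B → D.Hd W C Z →
      D.eps i Z = D.eps i BC + m ∧ D.E i Z = D.E i BC := by
    intro m A B C BC W Z hm hW1 hW2 hH
    obtain ⟨L, hLm⟩ := D.lt_pow i m
    exact (D.hd_lt i m L BC Z hLm).1
      (D.hd_as' L B C BC W Z hm ((D.hd_lt i m L B W hLm).2 ⟨hW1, hW2⟩) hH)
  -- the powers of `f`
  choose F hF using hf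
  have hF1 : ∀ n, D.eps i (F n) = n * D.eps i f ∧
      D.b (D.E i f) ^ n = D.b (D.E i (F n)) := fun n => D.Epow i (fun n => ⟨F n, hF n⟩) n (hF n)
  have hGF : ∀ n, G 0 n = D.E i (F n) := by
    intro n
    apply D.b_inj
    rw [← hG 0 n, pow_zero, one_mul, (hF1 n).2]
  obtain ⟨X, hX⟩ := D.hd_ex (F N) X'
  have hSC : D.SC f X := hn₀ N hN (F N) X (hF N) hX
  have hXe : D.eps i X = D.eps i (G 1 N) + N * D.eps i f ∧ D.E i X = D.E i (G 1 N) := by
    refine hL (N * D.eps i f) X (G 0 N) X' (G 1 N) (F N) X ?_ ?_ ?_ hX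
    · rw [← hG 0 N, ← hG 1 N]
      ring
    · rw [hGF, D.eps_E, (hF1 N).1, Nat.zero_add]
    · rw [hGF, D.E_E]
  have hbE : ∀ p q, D.b (D.E i (T p q)) =
      D.b (D.E i X') ^ p * D.b (D.E i f) ^ (q + p * N) := by
    intro p q
    rw [hTE, (hGG p (q + p * N)).2]
  have hbX : D.b (D.E i X) = D.b (D.E i X') * D.b (D.E i f) ^ N := by
    rw [hXe.2, (hGG 1 N).2, pow_one]
  refine ⟨X, ?_, ?_, ?_⟩
  · rw [hXe.1, (hGG 1 N).1]
    ring
  · rw [hbX]
    ring
  · have hfin := h1 f X T (fun n => ⟨F n, hF n⟩) hSC ?_ ?_ ?_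
    · intro p q
      exact ⟨_, hfin p q⟩
    · intro q
      rw [hF q]
      congr 1
      apply D.eps_inj i
      · rw [hTe, (hGG 0 (q + 0 * N)).1, (hF1 q).1]
        ring
      · apply D.b_inj
        rw [hbE, ← (hF1 q).2, pow_zero, one_mul]
        congr 1
        ring
    · intro p hp q Z hZ _
      have hTN : D.b (T p q) * D.b (F N) = D.b (T p (q + N)) := by
        rw [← hp q, ← hp (q + N), ← hF N]
        ring
      have h3 : D.Hd (T p (q + N)) X' Z := D.hd_as (T p q) (F N) X' _ X Z hTN hX hZ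
      have h4 := hL ((q + N + p * N) * D.eps i f) X (G p (q + N + p * N)) X'
        (G (p + 1) (q + N + p * N)) (T p (q + N)) Z
        (by rw [← hG p _, ← hG (p + 1) _]; ring) (hTe p (q + N)) (hTE p (q + N)) h3
      have e : q + N + p * N = q + (p + 1) * N := by ring
      rw [e] at h4
      apply D.eps_inj i
      · rw [h4.1, hTe]
      · rw [h4.2, hTE]
    · intro p _ q
      rw [D.co_E i]
      · apply D.co_of_mul
        rw [hbE, hbE, hbX]
        ring
      · rw [hTe, hTe, hXe.1, (hGG _ _).1, (hGG _ _).1, (hGG _ _).1]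
        ring

end Sys2

end Pool.Agent.KLSAbs

end

section

/-! MP_e487d8_al, block AB, item KEYP. -/

set_option autoImplicit false

namespace Pool.Agent.KLSAbs

open scoped LaurentPolynomial

variable {I S O K : Type} [DecidableEq I] [CommRing O] [Algebra ℚ O] [Ring K]
  [Algebra ℤ[T;T⁻¹] K] [IsDomain O] (D : Sys2 I S O K)

namespace Sys2

theorem I_KEYP (h1 : StPow D) (h2 : StHdsc D.op) : StKey' D := by
  intro i f hf hd
  obtain ⟨n₀, hn₀⟩ := h2 f (D.lt i) hf hd
  refine ⟨n₀, fun N hN => ?_⟩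
  obtain ⟨F, hF⟩ := hf N
  obtain ⟨hF1, hF2⟩ := D.Epow i hf N hF
  obtain ⟨X, hX1, hX2⟩ := D.eps_surj i (N * D.eps i f + 1) (D.E i F) (D.eps_E i F)
  have hXE : D.b (D.E i X) = D.b (D.E i f) ^ N := by rw [hX2, hF2]
  have hHd : D.Hd (D.lt i) F X := by
    rw [D.hd_lt i 1 (D.lt i) F X (pow_one _)]
    exact ⟨by rw [hX1, hF1], hX2⟩
  have hSC : D.SC f X := hn₀ N hN F X hF hHd
  have hT : ∀ p q : ℕ, ∃ T : S, D.eps i T = p + (p * N + q) * D.eps i f ∧
      D.b (D.E i T) = D.b (D.E i f) ^ (p * N + q) := by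
    intro p q
    obtain ⟨G, hG⟩ := hf (p * N + q)
    obtain ⟨hG1, hG2⟩ := D.Epow i hf _ hG
    obtain ⟨T, hT1, hT2⟩ := D.eps_surj i (p + (p * N + q) * D.eps i f) (D.E i G) (D.eps_E i G)
    exact ⟨T, hT1, by rw [hT2, hG2]⟩
  choose T hT1 hT2 using hT
  have huniq : ∀ (p q : ℕ) (Z : S), D.eps i Z = p + (p * N + q) * D.eps i f →
      D.b (D.E i Z) = D.b (D.E i f) ^ (p * N + q) → Z = T p q := by
    intro p q Z hZ1 hZ2
    refine D.eps_inj i Z (T p q) (by rw [hZ1, hT1]) (D.b_inj ?_)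
    rw [hZ2, hT2]
  refine ⟨X, hX1, hXE, ?_⟩
  have key := h1 f X T hf hSC ?_ ?_ ?_
  · intro p q
    exact ⟨T p q, key p q⟩
  · intro q
    obtain ⟨G, hG⟩ := hf q
    obtain ⟨hG1, hG2⟩ := D.Epow i hf _ hG
    rw [hG]
    congr 1
    refine huniq 0 q G ?_ ?_
    · rw [hG1]; ring
    · rw [← hG2]; congr 1; ring
  · intro p hp q Z _ hZ
    have hBC : D.b F * D.b (T p q) = D.b (T p (q + N)) := by
      rw [← hp q, ← hp (q + N), ← hF]
      ring
    have hHd2 := D.hd_as' (D.lt i) F (T p q) (T p (q + N)) X Z hBC hHd hZ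
    rw [D.hd_lt i 1 (D.lt i) _ Z (pow_one _)] at hHd2
    refine huniq (p + 1) q Z ?_ ?_
    · rw [hHd2.1, hT1]; ring
    · rw [hHd2.2, hT2]; congr 1; ring
  · intro p _ q
    have he : D.eps i (T (p + 1) q) = D.eps i (T p q) + D.eps i X := by
      rw [hT1, hT1, hX1]; ring
    rw [D.co_E i _ _ _ he]
    apply D.co_of_mul
    rw [hT2, hT2, hXE]
    ring

end Sys2

end Pool.Agent.KLSAbs

end

section

/-! MP_e487d8_al, abstract part 2: KEY and KEY' for families. -/

set_option autoImplicit false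

namespace Pool.Agent.KLSAbs

open scoped LaurentPolynomial

variable {I S O K : Type} [DecidableEq I] [CommRing O] [Algebra ℚ O] [Ring K]
  [Algebra ℤ[T;T⁻¹] K] [IsDomain O] (D : Sys2 I S O K)

namespace Sys2

/-- an adapted module all of whose powers strongly commute with a generic element extends the
family -/
theorem kf1_ext {w : List I} {N : Submonoid O} (hN : D.Fam w N) {z X : S} (hz : D.Gen N z)
    (hX : D.Ad w X) (h : ∀ p q, ∃ Z, D.b X ^ p * D.b z ^ q = D.b Z) :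
    D.Fam w (N ⊔ Submonoid.powers (D.b X)) := by
  have hpow : ∀ p, ∃ Z, D.b X ^ p = D.b Z := by
    intro p
    obtain ⟨Z, hZ⟩ := h p 0
    exact ⟨Z, by rw [← hZ, pow_zero, mul_one]⟩
  refine ⟨fun x hx => ?_⟩
  obtain ⟨y, hy, u, hu, rfl⟩ := Submonoid.mem_sup.1 hx
  obtain ⟨C, hC, hCa⟩ := hN.spl y hy
  obtain ⟨p, rfl⟩ := hu
  obtain ⟨P, hP⟩ := hpow p
  have hPa : D.Ad w P := by
    refine (fam_powers (w := w) (X := X) hpow hX).ad ?_
    rw [← hP]
    exact Submonoid.pow_mem _ (Submonoid.mem_powers _) p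
  have hsc : D.SC z P := by
    intro q
    obtain ⟨Z, hZ⟩ := h p q
    exact ⟨Z, by rw [← hP, mul_comm, hZ]⟩
  obtain ⟨W, hW⟩ := hz.cm hN hsc (C := C) (by rw [hC]; exact hy)
  refine ⟨W, ?_, D.Ad_mul w hCa hPa hW⟩
  rw [← hW, hC, ← hP]

theorem I_KF1 (h : StKey' D) : StKf1 D := by
  intro i w N hN hdag
  obtain ⟨z, hz⟩ := exists_gen hN
  obtain ⟨n, hn⟩ := h i z (hN.sr hz.1) (hdag z hz.1).2
  obtain ⟨X, h1, h2, h3⟩ := hn n le_rfl
  obtain ⟨C, hC, hCN⟩ := hN.pow hz.1 n
  obtain ⟨h4, h5⟩ := D.Epow i (hN.sr hz.1) n hC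
  have h6 : D.E i X = D.E i C := D.b_inj (h2.trans h5)
  refine ⟨C, X, hCN, kf1_ext D hN hz ?_ h3, ?_⟩
  · rw [Ad_cons, h6]
    exact hN.ad hCN
  · rw [str_cons, str_cons, h6, h1, ← h4, ← map_add]
    congr 1
    ext
    · simp
    · simp

theorem I_KF2 (h : StKey D) : StKf2 D := by
  intro i w N X' hN _ hdag hfam
  obtain ⟨z, hz⟩ := exists_gen hN
  have hX' : D.b X' ∈ shift i hN ⊔ Submonoid.powers (D.b X') :=
    (le_sup_right : Submonoid.powers (D.b X') ≤ _) (Submonoid.mem_powers _)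
  have hEz : D.b (D.E i z) ∈ shift i hN ⊔ Submonoid.powers (D.b X') :=
    (le_sup_left : shift i hN ≤ _) ⟨z, hz.1, rfl⟩
  obtain ⟨n, hn⟩ := h i z X' (hN.sr hz.1) (hdag z hz.1).1 (by
    intro p q
    obtain ⟨Z, hZ, _⟩ := hfam.spl _
      (Submonoid.mul_mem _ (Submonoid.pow_mem _ hX' p) (Submonoid.pow_mem _ hEz q))
    exact ⟨Z, hZ.symm⟩)
  obtain ⟨X, h1, h2, h3⟩ := hn n le_rfl
  obtain ⟨C, hC, hCN⟩ := hN.pow hz.1 n
  obtain ⟨h4, h5⟩ := D.Epow i (hN.sr hz.1) n hC
  rw [h5] at h2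
  refine ⟨C, X, hCN, kf1_ext D hN hz ?_ h3, ?_⟩
  · rw [Ad_cons]
    exact D.Ad_mul w ((Ad_cons D i w C).1 (hN.ad hCN)) (D.Ad_E i w X' (hfam.ad hX')) h2.symm
  · rw [str_cons, str_cons, str_cons, D.str_mul w h2.symm, h1, ← h4, ← map_add]
    congr 1
    ext
    · simp
    · simp

end Sys2

end Pool.Agent.KLSAbs

end

section

set_option autoImplicit false
namespace Pool.Agent.KLSAbs
open scoped LaurentPolynomial
variable {I S O K : Type} [DecidableEq I] [CommRing O] [Algebra ℚ O] [Ring K]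
  [Algebra ℤ[T;T⁻¹] K] [IsDomain O] (D : Sys2 I S O K)
namespace Sys2

omit [IsDomain O] in
theorem mult_co_comm (X Y : S) : D.co X Y = D.co Y X := by
  classical
  ext Z
  have h1 := D.repr_mul X Y Z
  have h2 := D.repr_mul Y X Z
  rw [mul_comm, h2] at h1
  exact_mod_cast h1.symm

/-- the elements supported on `J` -/
def multJ (J : S → Prop) : AddSubgroup K where
  carrier := {V | ∀ Z n, ¬ J Z → D.cf V Z n = 0}
  zero_mem' := fun Z n _ => D.cf_zero Z n
  add_mem' := fun {V W} hV hW Z n h => by rw [cf_add, hV Z n h, hW Z n h, add_zero]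
  neg_mem' := fun {V} hV Z n h => by rw [cf_neg, hV Z n h, neg_zero]

omit [IsDomain O] in
theorem mult_mem {J : S → Prop} {V : K} : V ∈ D.multJ J ↔ ∀ Z n, ¬ J Z → D.cf V Z n = 0 :=
  Iff.rfl

omit [IsDomain O] in
theorem mult_mem_q {J : S → Prop} {V : K} (h : V ∈ D.multJ J) (m : ℤ) :
    D.q m V ∈ D.multJ J := by
  intro Z n hZ
  rw [cf_q]
  exact h Z _ hZ

omit [IsDomain O] in
/-- the span of `q^n X`, all `n`, is in `P` -/
theorem mult_ind (V : K) (P : AddSubgroup K)
    (h : ∀ X n, D.cf V X n ≠ 0 → D.q n (D.gb X) ∈ P) : V ∈ P := by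
  rw [D.decomp V]
  refine P.sum_mem fun p hp => P.zsmul_mem (h p.1 p.2 ?_) _
  exact D.mem_sup.1 hp

omit [IsDomain O] in
theorem mult_mem_left {J : S → Prop} (hJ : ∀ X Y Z, D.co X Y Z ≠ 0 → J X → J Z) {V : K}
    (h : V ∈ D.multJ J) (U : K) : U * V ∈ D.multJ J := by
  have h1 : V ∈ (D.multJ J).comap (AddMonoidHom.mulLeft U) := by
    refine D.mult_ind V _ fun Y n hY => ?_
    show U * D.q n (D.gb Y) ∈ D.multJ J
    have hJY : J Y := by
      by_contra h3
      exact hY (h Y n h3)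
    have h2 : U ∈ (D.multJ J).comap (AddMonoidHom.mulRight (D.q n (D.gb Y))) := by
      refine D.mult_ind U _ fun X m _ => ?_
      show D.q m (D.gb X) * D.q n (D.gb Y) ∈ D.multJ J
      rw [q_mul, mul_q]
      refine D.mult_mem_q (D.mult_mem_q ?_ _) _
      intro Z l hZ
      by_contra h3
      have h4 := cf_mul_co h3
      rw [mult_co_comm] at h4
      exact hZ (hJ _ _ _ h4 hJY)
    exact h2
  exact h1

omit [IsDomain O] in
theorem mult_mem_right {J : S → Prop} (hJ : ∀ X Y Z, D.co X Y Z ≠ 0 → J X → J Z) {V : K}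
    (h : V ∈ D.multJ J) (U : K) : V * U ∈ D.multJ J := by
  have h1 : V ∈ (D.multJ J).comap (AddMonoidHom.mulRight U) := by
    refine D.mult_ind V _ fun Y n hY => ?_
    show D.q n (D.gb Y) * U ∈ D.multJ J
    have hJY : J Y := by
      by_contra h3
      exact hY (h Y n h3)
    have h2 : U ∈ (D.multJ J).comap (AddMonoidHom.mulLeft (D.q n (D.gb Y))) := by
      refine D.mult_ind U _ fun X m _ => ?_
      show D.q n (D.gb Y) * D.q m (D.gb X) ∈ D.multJ J
      rw [q_mul, mul_q]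
      refine D.mult_mem_q (D.mult_mem_q ?_ _) _
      intro Z l hZ
      by_contra h3
      exact hZ (hJ _ _ _ (cf_mul_co h3) hJY)
    exact h2
  exact h1

omit [IsDomain O] in
/-- `C^k V` and `q^(kμ) V C^k` agree outside `J` -/
theorem mult_pow {J : S → Prop} (hJ : ∀ X Y Z, D.co X Y Z ≠ 0 → J X → J Z) {c V : K} {μ : ℤ}
    (h : c * V - D.q μ (V * c) ∈ D.multJ J) (k : ℕ) :
    c ^ k * V - D.q (k * μ) (V * c ^ k) ∈ D.multJ J := by
  induction k with
  | zero =>
    have : c ^ 0 * V - D.q ((0 : ℕ) * μ) (V * c ^ 0) = 0 := by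
      rw [pow_zero, one_mul, mul_one, Nat.cast_zero, zero_mul, q_zero, sub_self]
    rw [this]
    exact (D.multJ J).zero_mem
  | succ k ih =>
    have h1 := D.mult_mem_left hJ ih c
    have h2 := D.mult_mem_q (D.mult_mem_right hJ h (c ^ k)) (k * μ)
    have h3 := (D.multJ J).add_mem h1 h2
    have h4 : c * (c ^ k * V - D.q (k * μ) (V * c ^ k)) +
        D.q (k * μ) ((c * V - D.q μ (V * c)) * c ^ k) =
        c ^ (k + 1) * V - D.q ((k + 1 : ℕ) * μ) (V * c ^ (k + 1)) := by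
      have h5 : D.q ((k + 1 : ℕ) * μ) (V * c ^ (k + 1)) =
          D.q (k * μ) (D.q μ (V * c) * c ^ k) := by
        rw [q_mul, q_q, pow_succ', mul_assoc]
        congr 1
        push_cast; ring
      rw [h5, sub_mul, q_sub, mul_sub, mul_q, pow_succ', mul_assoc c (c ^ k) V, mul_assoc c V]
      abel
    rwa [h4] at h3

/-- `Q C^k = q^(k lam C Q) C^k Q` -/
theorem mult_comm {C Q : S} (h : D.Cm C Q) (k : ℕ) :
    D.gb Q * D.gb C ^ k = D.q (k * D.lam C Q) (D.gb C ^ k * D.gb Q) := by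
  induction k with
  | zero => rw [pow_zero, mul_one, one_mul, Nat.cast_zero, zero_mul, q_zero]
  | succ k ih =>
    have h1 : D.gb Q * D.gb C ^ (k + 1) = (D.gb Q * D.gb C ^ k) * D.gb C := by
      rw [pow_succ, mul_assoc]
    rw [h1, ih, q_mul, mul_assoc, h.comm, mul_q, q_q, ← mul_assoc, ← pow_succ]
    congr 1
    push_cast; ring

theorem I_MULT (h : D.StStab) (h' : D.op.StStab) : D.StMult := by
  intro J hJ C Q V μ hSR hSC hV hE hQ hnJ
  obtain ⟨k₀, p, hp1, hp2, hp3⟩ := h C Q V hSR hSC hV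
  obtain ⟨k₁, p', hp1', hp2', hp3'⟩ := h' C Q (MulOpposite.op V) hSR hSC hV
  have hCm : D.Cm C Q := by
    obtain ⟨Z, hZ⟩ := hSC 1
    exact ⟨Z, by rw [← hZ, pow_one]⟩
  have hE' : D.gb C * V - D.q μ (V * D.gb C) ∈ D.multJ J := by
    intro Z n hZ
    rw [cf_sub, hE Z n hZ, sub_self]
  have key : ∀ k ≥ max k₀ k₁, ∀ n, p n = p' (n - k * (μ + D.lam C Q)) := by
    intro k hk n
    obtain ⟨Z, hZ⟩ := hSC k
    obtain ⟨a, ha⟩ : ∃ a, D.gb C ^ k * D.gb Q = D.q a (D.gb Z) :=
      Pos.eq_of_ev (((Pos.gb C).pow k).mul (Pos.gb Q)) (by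
        rw [map_mul, map_pow, D.ev_gb, D.ev_gb, hZ])
    have h1 := hp3 k ((le_max_left _ _).trans hk) Z a ha n
    have h2 : D.gb Q * D.gb C ^ k = D.q (k * D.lam C Q + a) (D.gb Z) := by
      rw [D.mult_comm hCm, ha, q_q]
    have h3 := hp3' k ((le_max_right _ _).trans hk) Z (k * D.lam C Q + a)
      (congrArg MulOpposite.op h2) (n - k * (μ + D.lam C Q))
    have h4 : D.cf (V * D.gb C ^ k) Z
        (n - k * (μ + D.lam C Q) + (k * D.lam C Q + a)) = p' (n - k * (μ + D.lam C Q)) := h3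
    have h5 := D.mult_pow hJ hE' k Z (n + a) (hnJ k Z hZ)
    rw [cf_sub, cf_q, h1] at h5
    rw [← h4, ← sub_eq_zero, ← h5]
    congr 2
    ring
  by_contra hne
  have hne' : μ + D.lam C Q ≠ 0 := by
    intro h0
    apply hne
    linarith
  obtain ⟨n₀, hn₀⟩ := hQ
  have hpos : p n₀ ≠ 0 := by
    have h1 := hp1 n₀
    have h2 := hV Q n₀
    omega
  have hinj : Function.Injective fun k : ℕ =>
      n₀ - ((k + max k₀ k₁ : ℕ) : ℤ) * (μ + D.lam C Q) := by
    intro k l hkl
    have h3 : ((k + max k₀ k₁ : ℕ) : ℤ) * (μ + D.lam C Q) =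
        ((l + max k₀ k₁ : ℕ) : ℤ) * (μ + D.lam C Q) := by
      have : n₀ - ((k + max k₀ k₁ : ℕ) : ℤ) * (μ + D.lam C Q) =
        n₀ - ((l + max k₀ k₁ : ℕ) : ℤ) * (μ + D.lam C Q) := hkl
      linarith
    have h4 := mul_right_cancel₀ hne' h3
    have h5 : k + max k₀ k₁ = l + max k₀ k₁ := by exact_mod_cast h4
    omega
  refine (Set.infinite_range_of_injective hinj) (hp2'.subset ?_)
  rintro _ ⟨k, rfl⟩
  show p' _ ≠ 0
  rw [← key (k + max k₀ k₁) (by omega) n₀]
  exact hpos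

end Sys2
end Pool.Agent.KLSAbs

end

section

/-! MP_e487d8_al, abstract part 2, item MULT2. -/

set_option autoImplicit false

namespace Pool.Agent.KLSAbs

open scoped LaurentPolynomial

variable {I S O K : Type} [DecidableEq I] [CommRing O] [Algebra ℚ O] [Ring K]
  [Algebra ℤ[T;T⁻¹] K] [IsDomain O] (D : Sys2 I S O K)

namespace Sys2

theorem mult2_comm {C T X Y : S} (hT : D.Cm C T) (hX : D.Cm C X) (hY : D.Cm C Y) :
    D.gb T * (D.gb X * D.gb Y) * D.gb C =
      D.q (D.lam C T + D.lam C X + D.lam C Y) (D.gb C * (D.gb T * (D.gb X * D.gb Y))) := by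
  rw [mul_assoc, mul_assoc, hY.comm, mul_q, mul_q, ← mul_assoc (D.gb X), hX.comm, q_mul, mul_q,
    mul_assoc (D.gb C), ← mul_assoc (D.gb T), hT.comm, q_mul, q_q, q_q, mul_assoc (D.gb C)]
  congr 1
  ring

omit [IsDomain O] in
theorem mult2_cf {T X Y Z Q : S} (h1 : D.co X Y Z ≠ 0) (h2 : D.co T Z Q ≠ 0) :
    ∃ n, D.cf (D.gb T * (D.gb X * D.gb Y)) Q n ≠ 0 := by
  obtain ⟨a, ha⟩ := exists_cf_mul (D := D) h1
  obtain ⟨b, hb⟩ := exists_cf_mul (D := D) h2
  have h3 : D.le (D.q a (D.gb Z)) (D.gb X * D.gb Y) := le_of_cf ((Pos.gb X).mul (Pos.gb Y)) ha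
  have h4 : D.le (D.q b (D.gb Q)) (D.gb T * D.gb Z) := le_of_cf ((Pos.gb T).mul (Pos.gb Z)) hb
  have h5 := h3.mul_left (Pos.gb T)
  have h6 := h4.q a
  rw [mul_q] at h5
  have h7 := h6.trans h5
  rw [q_q, le_cf] at h7
  refine ⟨a + b, ?_⟩
  have h8 := h7 Q (a + b)
  rw [cf_q, sub_self, cf_gb_self] at h8
  omega

theorem I_MULT2 (h : StMult D) : StMult2 D := by
  intro C T X Y Z Q hC hT hX hY h1 h2 hQ
  have h3 := h (fun _ => False) (fun _ _ _ _ hf => hf) C Q (D.gb T * (D.gb X * D.gb Y))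
    (-(D.lam C T + D.lam C X + D.lam C Y)) hC hQ
    ((Pos.gb T).mul ((Pos.gb X).mul (Pos.gb Y))) ?_ (D.mult2_cf h1 h2) (fun _ _ _ hf => hf)
  · rw [h3, neg_neg]
  · intro W n _
    rw [D.mult2_comm hT hX hY, q_q, neg_add_cancel, q_zero]

end Sys2

end Pool.Agent.KLSAbs

end

section

/-! MP_e487d8_al, item POW: the induction in KEY. -/

set_option autoImplicit false

namespace Pool.Agent.KLSAbs

open scoped LaurentPolynomial

variable {I S O K : Type} [DecidableEq I] [CommRing O] [Algebra ℚ O] [Ring K]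
  [Algebra ℤ[T;T⁻¹] K] [IsDomain O] (D : Sys2 I S O K)

namespace Sys2

omit [IsDomain O] in
theorem pow_ic {f X : S} {T : ℕ → ℕ → S} (hSC : D.SC f X)
    (hT0 : ∀ q, D.b f ^ q = D.b (T 0 q)) (p : ℕ)
    (hp : ∀ r, r ≤ p → ∀ q, D.b X ^ r * D.b f ^ q = D.b (T r q)) (q : ℕ) :
    ∀ r, r ≤ p → D.IC X (T r q) := by
  intro r
  induction r with
  | zero =>
    intro _
    obtain ⟨Z, hZ⟩ := hSC q
    rw [hT0 q] at hZ
    exact D.ic_symm _ _ (D.ic_cm _ _ _ hZ)
  | succ r ih =>
    intro hr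
    have h1 := ih (by omega)
    have h2 : D.b X * D.b (T r q) = D.b (T (r + 1) q) := by
      rw [← hp r (by omega) q, ← hp (r + 1) hr q, pow_succ]
      ring
    exact D.ic_mul _ _ _ _ h2 (D.ic_refl X) h1

omit [IsDomain O] in
theorem I_POW : StPow D := by
  intro f X T _ hSC hT0 h1 h2
  have key : ∀ p, ∀ r, r ≤ p → ∀ q, D.b X ^ r * D.b f ^ q = D.b (T r q) := by
    intro p
    induction p with
    | zero =>
      intro r hr q
      obtain rfl : r = 0 := by omega
      rw [pow_zero, one_mul, hT0 q]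
    | succ p ih =>
      intro r hr q
      rcases Nat.lt_or_ge r (p + 1) with h | h
      · exact ih r (by omega) q
      · obtain rfl : r = p + 1 := by omega
        have hIC : D.IC X (T p q) := D.pow_ic hSC hT0 p ih q p le_rfl
        have hall := h1 p (ih p le_rfl) q
        have hco := h2 p (ih p le_rfl) q
        obtain ⟨Z, hZ⟩ := D.s2 (T p q) X (T (p + 1) q)
          (fun Z hZ => hall Z hZ (D.ic_hd _ _ _ (D.ic_symm _ _ hIC) hZ))
          (fun Z hZ => hall Z (D.ic_hd _ _ _ hIC hZ) hZ) hco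
        have hZT : T (p + 1) q = Z := D.co_of_mul' hZ (by rw [hco]; exact one_ne_zero)
        rw [hZT, ← hZ, ← ih p le_rfl q, pow_succ]
        ring
  intro p q
  exact key p p le_rfl q

end Sys2

end Pool.Agent.KLSAbs

end

section

/-! MP_e487d8_al, abstract part 2: maximal families have full rank (item R, helper10). -/

set_option autoImplicit false

namespace Pool.Agent.KLSAbs

open scoped LaurentPolynomial

variable {I S O K : Type} [DecidableEq I] [CommRing O] [Algebra ℚ O] [Ring K]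
  [Algebra ℤ[T;T⁻¹] K] [IsDomain O] (D : Sys2 I S O K)

/-- additive maps on a functional additive relation extend to linear maps -/
theorem r_lin_ext {W W' : Type} [AddCommGroup W] [Module ℚ W] [AddCommGroup W'] [Module ℚ W']
    (T : AddSubmonoid (W × W')) (hT : ∀ x y y', (x, y) ∈ T → (x, y') ∈ T → y = y') :
    ∃ e : W →ₗ[ℚ] W', ∀ x y, (x, y) ∈ T → e x = y := by
  set P := Submodule.span ℚ (T : Set (W × W')) with hP
  have hinj : Function.Injective ((LinearMap.fst ℚ W W').domRestrict P) := by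
    rw [← LinearMap.ker_eq_bot, LinearMap.ker_eq_bot']
    rintro ⟨⟨x, y⟩, hxy⟩ h
    have hx : x = 0 := h
    subst hx
    obtain ⟨k, hk, ⟨a, c⟩, hac, ⟨a', c'⟩, hac', h1⟩ := span_nat T hxy
    have h2 : a = a' := by
      have := congrArg Prod.fst h1
      simpa using this
    have h3 : k • y + c = c' := congrArg Prod.snd h1
    rw [← h2] at hac'
    have h4 := hT _ _ _ hac hac'
    rw [← h4] at h3
    have h5 : k • y = 0 := by simpa using h3
    have h6 : y = 0 := by
      rw [← Nat.cast_smul_eq_nsmul ℚ] at h5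
      rcases smul_eq_zero.1 h5 with h6 | h6
      · exfalso
        have : k = 0 := by exact_mod_cast h6
        omega
      · exact h6
    subst h6
    rfl
  obtain ⟨g, hg⟩ := LinearMap.exists_leftInverse_of_injective _ (LinearMap.ker_eq_bot.2 hinj)
  refine ⟨(LinearMap.snd ℚ W W') ∘ₗ P.subtype ∘ₗ g, fun x y hxy => ?_⟩
  have h1 := LinearMap.congr_fun hg ⟨(x, y), Submodule.subset_span hxy⟩
  have h2 : g x = ⟨(x, y), Submodule.subset_span hxy⟩ := h1
  show ((g x : P) : W × W').2 = y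
  rw [h2]

/-- two injective additive maps have images of the same rank -/
theorem r_rank_eq {W W' : Type} [AddCommGroup W] [Module ℚ W] [AddCommGroup W'] [Module ℚ W']
    (T : AddSubmonoid (W × W')) (hT : ∀ x y y', (x, y) ∈ T → (x, y') ∈ T → y = y')
    (hT' : ∀ x x' y, (x, y) ∈ T → (x', y) ∈ T → x = x') :
    Module.finrank ℚ (Submodule.span ℚ {x | ∃ y, (x, y) ∈ T}) =
      Module.finrank ℚ (Submodule.span ℚ {y | ∃ x, (x, y) ∈ T}) := by
  obtain ⟨e, he⟩ := r_lin_ext T hT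
  obtain ⟨e', he'⟩ := r_lin_ext (T.map (AddMonoidHom.prod (AddMonoidHom.snd W W')
    (AddMonoidHom.fst W W'))) (by
      rintro x y y' ⟨⟨a, c⟩, h1, h2⟩ ⟨⟨a', c'⟩, h3, h4⟩
      have e1 : c = x := congrArg Prod.fst h2
      have e2 : a = y := congrArg Prod.snd h2
      have e3 : c' = x := congrArg Prod.fst h4
      have e4 : a' = y' := congrArg Prod.snd h4
      subst e1 e2 e4
      rw [e3] at h3
      exact hT' _ _ _ h1 h3)
  have hm : ∀ x y, (x, y) ∈ T → e' y = x := fun x y h => he' y x ⟨(x, y), h, rfl⟩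
  set P := Submodule.span ℚ {x | ∃ y, (x, y) ∈ T} with hP
  set Q := Submodule.span ℚ {y | ∃ x, (x, y) ∈ T} with hQ
  have h1 : ∀ x ∈ P, e x ∈ Q ∧ e' (e x) = x := by
    intro x hx
    refine Submodule.span_induction (p := fun x _ => e x ∈ Q ∧ e' (e x) = x) ?_ ?_ ?_ ?_ hx
    · rintro x ⟨y, hxy⟩
      rw [he x y hxy]
      exact ⟨Submodule.subset_span ⟨x, hxy⟩, hm x y hxy⟩
    · rw [map_zero, map_zero]
      exact ⟨Submodule.zero_mem _, rfl⟩
    · rintro x y _ _ ⟨g1, g2⟩ ⟨g3, g4⟩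
      rw [map_add, map_add, g2, g4]
      exact ⟨Submodule.add_mem _ g1 g3, rfl⟩
    · rintro c x _ ⟨g1, g2⟩
      rw [map_smul, map_smul, g2]
      exact ⟨Submodule.smul_mem _ _ g1, rfl⟩
  have h2 : ∀ y ∈ Q, e' y ∈ P ∧ e (e' y) = y := by
    intro y hy
    refine Submodule.span_induction (p := fun y _ => e' y ∈ P ∧ e (e' y) = y) ?_ ?_ ?_ ?_ hy
    · rintro y ⟨x, hxy⟩
      rw [hm x y hxy]
      exact ⟨Submodule.subset_span ⟨y, hxy⟩, he x y hxy⟩
    · rw [map_zero, map_zero]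
      exact ⟨Submodule.zero_mem _, rfl⟩
    · rintro x y _ _ ⟨g1, g2⟩ ⟨g3, g4⟩
      rw [map_add, map_add, g2, g4]
      exact ⟨Submodule.add_mem _ g1 g3, rfl⟩
    · rintro c x _ ⟨g1, g2⟩
      rw [map_smul, map_smul, g2]
      exact ⟨Submodule.smul_mem _ _ g1, rfl⟩
  refine LinearEquiv.finrank_eq (LinearEquiv.ofLinearMap
    (e.restrict (p := P) (q := Q) fun x hx => (h1 x hx).1)
    (e'.restrict (p := Q) (q := P) fun y hy => (h2 y hy).1) ?_ ?_)
  · refine LinearMap.ext fun y => Subtype.ext ?_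
    exact (h2 y.1 y.2).2
  · refine LinearMap.ext fun x => Subtype.ext ?_
    exact (h1 x.1 x.2).2

namespace Sys2

/-- statement R -/
theorem I_R (Good : List I → Prop) (m : ℕ) (hG : GoodW D Good) (h2 : StKf2 D)
    (hT : D.StT Good m) (hD : D.DG Good m) : D.StR Good m := by
  intro w
  induction w with
  | nil =>
    intro _ _ N hN
    rw [Submodule.eq_top_iff']
    intro v
    have : v = 0 := funext fun k => Fin.elim0 (k : Fin 0)
    rw [this]
    exact Submodule.zero_mem _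
  | cons i w ih =>
    intro hgood hlen N hN
    have hlen' : w.length ≤ m := by
      rw [List.length_cons] at hlen
      omega
    have ihw := ih (hG.tail i w hgood) hlen'
    have hS := shift_fam i hN.1
    obtain ⟨M, hNM, hM⟩ := exists_mx hS
    have hfull := ihw M hM
    -- strings of `M` along `i :: w` lie in the span of `N`
    have h1 : ∀ X', D.b X' ∈ M → D.str (i :: w) X' ∈ D.sp (i :: w) N := by
      intro X' hX'
      obtain ⟨C, X, hC, hX, hs⟩ := h2 i w N X' hN.1 (fun C hC =>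
        hD (i :: w) C hgood hlen (hN.1.sr hC) (hN.1.ad hC))
        (hM.1.mono (sup_le hNM (Submonoid.powers_le.2 hX')))
      have h2 : D.b X ∈ N := hN.mem hX
      have h3 : D.str (i :: w) X ∈ D.sp (i :: w) N := Submodule.subset_span ⟨X, h2, rfl⟩
      have h4 : D.str (i :: w) C ∈ D.sp (i :: w) N := Submodule.subset_span ⟨C, hC, rfl⟩
      have h5 := Submodule.sub_mem _ h3 h4
      rw [hs, add_sub_cancel_left] at h5
      exact h5
    have hM' : D.Fam (i :: w) M := ⟨fun x hx => by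
      obtain ⟨X, rfl, hX⟩ := hM.1.spl x hx
      exact ⟨X, rfl, D.Ad_E i w X hX⟩⟩
    have hrank : Module.finrank ℚ (D.sp w M) = Module.finrank ℚ (D.sp (i :: w) M) := by
      have h2 := r_rank_eq (W := V w) (W' := V (i :: w))
        { carrier := {v | ∃ X, D.b X ∈ M ∧ (D.str w X, D.str (i :: w) X) = v}
          zero_mem' := ⟨D.one, hM.1.one_mem, by rw [D.str_one, D.str_one]; rfl⟩
          add_mem' := by
            rintro _ _ ⟨X, hX, rfl⟩ ⟨Y, hY, rfl⟩
            obtain ⟨Z, hZ⟩ := hM.1.cm hX hY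
            refine ⟨Z, by rw [← hZ]; exact M.mul_mem hX hY, ?_⟩
            rw [D.str_mul w hZ, D.str_mul (i :: w) hZ]; rfl } (by
          rintro x y y' ⟨X, hX, h1⟩ ⟨Y, hY, h2⟩
          have e1 : D.str w X = x := congrArg Prod.fst h1
          have e2 : D.str (i :: w) X = y := congrArg Prod.snd h1
          have e3 : D.str w Y = x := congrArg Prod.fst h2
          have e4 : D.str (i :: w) Y = y' := congrArg Prod.snd h2
          have e5 := D.str_inj w (hM.1.ad hX) (hM.1.ad hY) (e1.trans e3.symm)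
          rw [← e2, ← e4, e5]) (by
          rintro x x' y ⟨X, hX, h1⟩ ⟨Y, hY, h2⟩
          have e1 : D.str w X = x := congrArg Prod.fst h1
          have e2 : D.str (i :: w) X = y := congrArg Prod.snd h1
          have e3 : D.str w Y = x' := congrArg Prod.fst h2
          have e4 : D.str (i :: w) Y = y := congrArg Prod.snd h2
          have e5 := D.str_inj (i :: w) (hM'.ad hX) (hM'.ad hY) (e2.trans e4.symm)
          rw [← e1, ← e3, e5])
      have e1 : D.sp w M = Submodule.span ℚ {x : V w | ∃ y : V (i :: w), ∃ X, D.b X ∈ M ∧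
          (D.str w X, D.str (i :: w) X) = (x, y)} := by
        rw [sp]
        congr 1
        ext v
        constructor
        · rintro ⟨X, hX, rfl⟩
          exact ⟨_, X, hX, rfl⟩
        · rintro ⟨y, X, hX, h⟩
          exact ⟨X, hX, congrArg Prod.fst h⟩
      have e2 : D.sp (i :: w) M = Submodule.span ℚ {y : V (i :: w) | ∃ x : V w, ∃ X, D.b X ∈ M ∧
          (D.str w X, D.str (i :: w) X) = (x, y)} := by
        rw [sp]
        congr 1
        ext v
        constructor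
        · rintro ⟨X, hX, rfl⟩
          exact ⟨_, X, hX, rfl⟩
        · rintro ⟨y, X, hX, h⟩
          exact ⟨X, hX, congrArg Prod.snd h⟩
      rw [e1, e2]
      exact h2
    have hle : D.sp (i :: w) M ≤ D.sp (i :: w) N := by
      rw [sp, Submodule.span_le]
      rintro _ ⟨X, hX, rfl⟩
      exact h1 X hX
    have hdim : w.length ≤ Module.finrank ℚ (D.sp (i :: w) N) := by
      calc w.length = Module.finrank ℚ (D.sp w M) := by
            rw [hfull, finrank_top, Module.finrank_fin_fun]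
        _ = Module.finrank ℚ (D.sp (i :: w) M) := hrank
        _ ≤ Module.finrank ℚ (D.sp (i :: w) N) := Submodule.finrank_mono hle
    by_contra hne
    obtain ⟨l, hl0, hl⟩ := Submodule.exists_le_ker_of_lt_top _ (lt_top_iff_ne_top.2 hne)
    have hker : D.sp (i :: w) N = LinearMap.ker l := by
      refine Submodule.eq_of_le_of_finrank_le hl ?_
      have h2 := LinearMap.finrank_range_add_finrank_ker l
      have h3 : Module.finrank ℚ (V (i :: w)) = w.length + 1 := by
        rw [Module.finrank_fin_fun]; rfl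
      have h4 : 0 < Module.finrank ℚ (LinearMap.range l) := by
        rw [Module.finrank_pos_iff, Submodule.nontrivial_iff_ne_bot]
        rwa [Ne, LinearMap.range_eq_bot]
      omega
    -- a point off the hyperplane
    have hpt : ∃ Y, D.Ad (i :: w) Y ∧ l (D.str (i :: w) Y) ≠ 0 := by
      by_contra hno
      push Not at hno
      apply hl0
      refine LinearMap.ext_on (s := {v | ∃ X, D.Ad (i :: w) X ∧ D.str (i :: w) X = v})
        (hG.span _ hgood) ?_
      rintro _ ⟨X, hX, rfl⟩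
      exact hno X hX
    obtain ⟨Y, hY, hlY⟩ := hpt
    have hmain : ∀ l : V (i :: w) →ₗ[ℚ] ℚ, D.sp (i :: w) N = LinearMap.ker l →
        0 < l (D.str (i :: w) Y) → False := by
      intro l hl hpos
      obtain ⟨X, hX, hpX⟩ := hT (i :: w) hgood hlen N hN.1 l hl Y hY hpos
      have h2 : D.b X ∈ N := hN.mem hX
      have h3 : D.str (i :: w) X ∈ D.sp (i :: w) N := Submodule.subset_span ⟨X, h2, rfl⟩
      rw [hl, LinearMap.mem_ker] at h3
      rw [h3] at hpX
      exact lt_irrefl _ hpX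
    rcases lt_or_gt_of_ne hlY with h2 | h2
    · refine hmain (-l) ?_ (by rw [LinearMap.neg_apply]; linarith)
      rw [hker]
      ext v
      rw [LinearMap.mem_ker, LinearMap.mem_ker, LinearMap.neg_apply, neg_eq_zero]
    · exact hmain l hker h2

end Sys2

end Pool.Agent.KLSAbs

end

section

set_option autoImplicit false
namespace Pool.Agent.KLSAbs
open scoped LaurentPolynomial
variable {I S O K : Type} [DecidableEq I] [CommRing O] [Algebra ℚ O] [Ring K] [Algebra ℤ[T;T⁻¹] K] [IsDomain O] (D : Sys2 I S O K)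
namespace Sys2

/-- an increasing sequence of nonnegative functions with bounded sums is eventually constant -/
theorem stab_seq (f : ℕ → ℤ → ℤ) (hm : ∀ k n, f k n ≤ f (k + 1) n)
    (h0 : ∀ k n, 0 ≤ f k n) (B : ℤ) (hB : ∀ k (F : Finset ℤ), ∑ n ∈ F, f k n ≤ B) :
    ∃ k₀, ∀ k ≥ k₀, ∀ n, f k n = f k₀ n := by
  classical
  have hmono : ∀ n, Monotone fun k => f k n := fun n => monotone_nat_of_le_succ fun k => hm k n
  obtain ⟨m, ⟨⟨k₀, F₀, hk₀⟩, hmax⟩⟩ := Int.exists_greatest_of_bdd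
    (P := fun z => ∃ (k : ℕ) (F : Finset ℤ), ∑ n ∈ F, f k n = z)
    ⟨B, fun z ⟨k, F, hz⟩ => hz ▸ hB k F⟩ ⟨_, 0, ∅, rfl⟩
  refine ⟨k₀, fun k hk n => ?_⟩
  by_contra hne
  have h1 : f k₀ n < f k n := lt_of_le_of_ne (hmono n hk) (Ne.symm hne)
  have h2 : ∑ x ∈ F₀, f k₀ x ≤ ∑ x ∈ insert n F₀, f k₀ x :=
    Finset.sum_le_sum_of_subset_of_nonneg (Finset.subset_insert _ _) fun x _ _ => h0 _ _
  have h3 : ∑ x ∈ insert n F₀, f k₀ x < ∑ x ∈ insert n F₀, f k x :=
    Finset.sum_lt_sum (fun x _ => hmono x hk) ⟨n, Finset.mem_insert_self _ _, h1⟩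
  have h4 := hmax _ ⟨k, insert n F₀, rfl⟩
  omega

variable {D}

omit [IsDomain O] in
theorem stab_cf_zsmul (a : ℤ) (W : K) (Z : S) (n : ℤ) : D.cf (a • W) Z n = a * D.cf W Z n := by
  rw [cf, cf, cfK, cfK, map_zsmul]
  rw [Finsupp.smul_apply, AddMonoidAlgebra.coeff_smul, Finsupp.smul_apply, smul_eq_mul]

omit [IsDomain O] in
/-- the part of `W` at `Z` -/
theorem stab_part {W : K} (hW : D.Pos W) (Z : S) (F : Finset ℤ) :
    D.le (∑ n ∈ F, D.cf W Z n • D.q n (D.gb Z)) W := by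
  classical
  rw [le_cf]
  intro Z' m
  rw [cf_sum]
  have h : ∀ n ∈ F, D.cf (D.cf W Z n • D.q n (D.gb Z)) Z' m =
      if m = n then (if Z = Z' then D.cf W Z m else 0) else 0 := by
    intro n _
    rw [stab_cf_zsmul, cf_q, cf_gb]
    by_cases h1 : m = n
    · rw [if_pos h1, h1, sub_self]
      by_cases h2 : Z = Z'
      · rw [if_pos ⟨h2, rfl⟩, if_pos h2, mul_one]
      · rw [if_neg (fun h3 => h2 h3.1), if_neg h2, mul_zero]
    · rw [if_neg h1, if_neg, mul_zero]
      rintro ⟨_, h3⟩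
      exact h1 (by linarith)
  rw [Finset.sum_congr rfl h, Finset.sum_ite_eq F m fun _ => if Z = Z' then D.cf W Z m else 0]
  split_ifs with h1 h2
  · rw [h2]
  · exact hW Z' m
  · exact hW Z' m

omit [IsDomain O] in
theorem stab_chi_nonneg {W : K} (hW : D.Pos W) : 0 ≤ D.chi (D.ev W) := by
  refine hW.ind (p := fun W => 0 ≤ D.chi (D.ev W)) ?_ ?_ ?_
  · rw [map_zero, map_zero]
  · intro n X
    rw [ev_q, D.ev_gb]
    exact (D.chi_pos X).le
  · intro V W hV hW
    rw [map_add, map_add]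
    exact add_nonneg hV hW

omit [IsDomain O] in
theorem stab_chi {W : K} (hW : D.Pos W) (Z : S) (F : Finset ℤ) :
    ((∑ n ∈ F, D.cf W Z n : ℤ) : ℚ) * D.chi (D.b Z) ≤ D.chi (D.ev W) := by
  have h1 := stab_chi_nonneg (D := D) (stab_part hW Z F)
  have h2 : D.ev (∑ n ∈ F, D.cf W Z n • D.q n (D.gb Z)) =
      ((∑ n ∈ F, D.cf W Z n : ℤ) : ℚ) • D.b Z := by
    rw [map_sum, Int.cast_sum, Finset.sum_smul]
    refine Finset.sum_congr rfl fun n _ => ?_
    rw [map_zsmul, ev_q, D.ev_gb, Int.cast_smul_eq_zsmul]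
  rw [map_sub, h2, map_sub, map_smul, smul_eq_mul] at h1
  linarith

omit [IsDomain O] in
theorem stab_mono {W : K} (hW : D.Pos W) {C Z Z' : S} {a : ℤ}
    (h : D.gb C * D.gb Z = D.q a (D.gb Z')) (m : ℤ) :
    D.cf W Z m ≤ D.cf (D.gb C * W) Z' (m + a) := by
  have h1 := (stab_part hW Z {m}).mul_left (Pos.gb C)
  rw [Finset.sum_singleton, mul_smul_comm, mul_q, h, q_q] at h1
  rw [le_cf] at h1
  have h2 := h1 Z' (m + a)
  rwa [stab_cf_zsmul, cf_q, sub_self, cf_gb_self, mul_one] at h2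

omit [IsDomain O] in
theorem stab_gb_ne (Z : S) : D.gb Z ≠ 0 := by
  intro h
  have h1 := congrArg D.ev h
  rw [D.ev_gb, map_zero] at h1
  exact D.b.ne_zero Z h1

variable (D)

theorem I_STAB : StStab D := by
  intro C Q V _ hSC hV
  choose Qs hQs using hSC
  have hex : ∀ k, ∃ a, D.gb C ^ k * D.gb Q = D.q a (D.gb (Qs k)) := fun k =>
    Pos.eq_of_ev (((Pos.gb C).pow k).mul (Pos.gb Q)) (by
      rw [map_mul, map_pow, D.ev_gb, D.ev_gb, hQs k])
  choose as has using hex
  have hstep : ∀ k, D.gb C * D.gb (Qs k) = D.q (as (k + 1) - as k) (D.gb (Qs (k + 1))) := by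
    intro k
    refine q_injective (D := D) (n := as k) ?_
    rw [q_q, add_sub_cancel, ← has (k + 1), ← mul_q, ← has k, pow_succ', mul_assoc]
  have huniq : ∀ (k : ℕ) (Z : S) (a : ℤ), D.gb C ^ k * D.gb Q = D.q a (D.gb Z) →
      Z = Qs k ∧ a = as k := by
    intro k Z a h
    have h1 : D.b (Qs k) = D.b Z := by
      have h2 := congrArg D.ev h
      rw [map_mul, map_pow, D.ev_gb, D.ev_gb, ev_q, D.ev_gb] at h2
      rw [← hQs k, h2]
    have h3 : Z = Qs k := (D.b_inj h1).symm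
    refine ⟨h3, ?_⟩
    rw [h3, has k] at h
    exact (q_inj (stab_gb_ne _) h).symm
  have hpos : ∀ k, D.Pos (D.gb C ^ k * V) := fun k => ((Pos.gb C).pow k).mul hV
  obtain ⟨hQ0, ha0⟩ := huniq 0 Q 0 (by rw [pow_zero, one_mul, q_zero])
  have hm : ∀ k n, D.cf (D.gb C ^ k * V) (Qs k) (n + as k) ≤
      D.cf (D.gb C ^ (k + 1) * V) (Qs (k + 1)) (n + as (k + 1)) := by
    intro k n
    have h1 := stab_mono (hpos k) (hstep k) (n + as k)
    have h2 : n + as k + (as (k + 1) - as k) = n + as (k + 1) := by ring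
    rwa [h2, ← mul_assoc, ← pow_succ'] at h1
  have hchiQ := D.chi_pos Q
  have hchiC := D.chi_pos C
  have hB : ∀ k (F : Finset ℤ), ∑ n ∈ F, D.cf (D.gb C ^ k * V) (Qs k) (n + as k) ≤
      ⌊D.chi (D.ev V) / D.chi (D.b Q)⌋ := by
    intro k F
    rw [Int.le_floor, le_div_iff₀ hchiQ]
    have h1 := stab_chi (hpos k) (Qs k) (F.map (addRightEmbedding (as k)))
    rw [Finset.sum_map, map_mul, map_pow, D.ev_gb, ← hQs k, map_mul, map_mul, map_pow] at h1
    simp only [addRightEmbedding_apply] at h1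
    have h2 : 0 < D.chi (D.b C) ^ k := pow_pos hchiC k
    refine le_of_mul_le_mul_left ?_ h2
    linarith
  obtain ⟨k₀, hk₀⟩ := stab_seq (fun k n => D.cf (D.gb C ^ k * V) (Qs k) (n + as k)) hm
    (fun k n => hpos k _ _) _ hB
  refine ⟨k₀, fun n => D.cf (D.gb C ^ k₀ * V) (Qs k₀) (n + as k₀), ?_, ?_, ?_⟩
  · intro n
    have h1 : Monotone fun k => D.cf (D.gb C ^ k * V) (Qs k) (n + as k) :=
      monotone_nat_of_le_succ fun k => hm k n
    have h2 := h1 (Nat.zero_le k₀)
    simp only [pow_zero, one_mul] at h2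
    rwa [← hQ0, ← ha0, add_zero] at h2
  · have h1 := D.cf_finite (D.gb C ^ k₀ * V)
    refine Set.Finite.of_finite_image (f := fun n : ℤ => ((Qs k₀, n + as k₀) : S × ℤ))
      (h1.subset ?_) ?_
    · rintro _ ⟨n, hn, rfl⟩
      exact hn
    · intro x _ y _ hxy
      have := congrArg Prod.snd hxy
      simpa using this
  · intro k hk Z a h n
    obtain ⟨h1, h2⟩ := huniq k Z a h
    rw [h1, h2]
    exact hk₀ k hk n

end Sys2
end Pool.Agent.KLSAbs

end

section

/-! MP_e487d8_al, abstract part 2: the constituents of `G ∘ z^n` which strongly commute with `z`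
are bounded in number. -/

set_option autoImplicit false

namespace Pool.Agent.KLSAbs

open scoped LaurentPolynomial

variable {I S O K : Type} [DecidableEq I] [CommRing O] [Algebra ℚ O] [Ring K]
  [Algebra ℤ[T;T⁻¹] K] [IsDomain O] (D : Sys2 I S O K)

namespace Sys2

/-- the type of `(n, Q)` determines `Q` up to powers of `z` -/
theorem stm_step {w : List I} {z : S} (hz : D.SR z) (hza : D.Ad w z) (n k : ℕ) {Q Q' : S}
    (hQ : D.SC z Q) (hs : D.str w Q - n • D.str w z = D.str w Q' - (n + k) • D.str w z)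
    (ht : D.tail w Q = D.tail w Q') : D.b z ^ k * D.b Q = D.b Q' := by
  obtain ⟨W, hW⟩ := hQ k
  obtain ⟨U, hU⟩ := hz k
  have h1 : D.str w U = k • D.str w z := Sys2.str_pow w k hU fun j _ => hz j
  have h2 : D.Ad w U := (fam_powers hz hza).ad ⟨k, hU⟩
  have h3 : D.tail w U = D.one := (D.Ad_iff_tail w U).1 h2
  rw [hU] at hW
  have h4 := D.str_mul w hW
  have h5 := D.tail_mul w hW
  rw [h3, D.b_one, one_mul] at h5
  have h6 : D.tail w W = D.tail w Q' := (D.b_inj h5).symm.trans ht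
  have h7 : D.str w W = D.str w Q' := by
    rw [h4, h1]
    rw [add_smul, sub_eq_sub_iff_add_eq_add] at hs
    have h8 : n • D.str w z + (k • D.str w z + D.str w Q) = n • D.str w z + D.str w Q' := by
      rw [add_comm (n • D.str w z) (D.str w Q'), ← hs]
      abel
    exact add_left_cancel h8
  rw [hU, hW, D.tail_inj w h7 h6]

theorem stm_chi_le {w : List I} {z : S} (hz : D.SR z) (hza : D.Ad w z) {n m : ℕ} (hnm : n ≤ m)
    {Q Q' : S} (hQ : D.SC z Q)
    (hs : D.str w Q - n • D.str w z = D.str w Q' - m • D.str w z)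
    (ht : D.tail w Q = D.tail w Q') :
    D.chi (D.b Q) / D.chi (D.b z) ^ n = D.chi (D.b Q') / D.chi (D.b z) ^ m := by
  obtain ⟨k, rfl⟩ := Nat.exists_eq_add_of_le hnm
  have h1 := D.stm_step hz hza n k hQ hs ht
  have h2 : D.chi (D.b z) ≠ 0 := (D.chi_pos z).ne'
  rw [← h1, map_mul, map_pow, pow_add]
  field_simp

theorem stm_chi {w : List I} {z : S} (hz : D.SR z) (hza : D.Ad w z) {n m : ℕ}
    {Q Q' : S} (hQ : D.SC z Q) (hQ' : D.SC z Q')
    (h : (D.str w Q - n • D.str w z, D.tail w Q) = (D.str w Q' - m • D.str w z, D.tail w Q')) :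
    D.chi (D.b Q) / D.chi (D.b z) ^ n = D.chi (D.b Q') / D.chi (D.b z) ^ m := by
  obtain ⟨h1, h2⟩ := Prod.mk.inj h
  rcases le_total n m with hnm | hnm
  · exact D.stm_chi_le hz hza hnm hQ h1 h2
  · exact (D.stm_chi_le hz hza hnm hQ' h1.symm h2.symm).symm

/-- a positive lower bound of `chi Q / chi z ^ n` on a finite set of types -/
theorem stm_low {w : List I} {z : S} (hz : D.SR z) (hza : D.Ad w z) (Ty : Finset (V w × S)) :
    ∃ c : ℚ, 0 < c ∧ ∀ (n : ℕ) (Q : S), D.SC z Q →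
      (D.str w Q - n • D.str w z, D.tail w Q) ∈ Ty → c * D.chi (D.b z) ^ n ≤ D.chi (D.b Q) := by
  classical
  induction Ty using Finset.induction_on with
  | empty =>
    refine ⟨1, one_pos, fun n Q _ h => ?_⟩
    simp at h
  | insert t Ty _ ih =>
    obtain ⟨c, hc, h⟩ := ih
    by_cases ht : ∃ (n : ℕ) (Q : S), D.SC z Q ∧ (D.str w Q - n • D.str w z, D.tail w Q) = t
    · obtain ⟨n₀, Q₀, h1, h2⟩ := ht
      have h3 : 0 < D.chi (D.b Q₀) / D.chi (D.b z) ^ n₀ :=
        div_pos (D.chi_pos Q₀) (pow_pos (D.chi_pos z) n₀)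
      refine ⟨min c (D.chi (D.b Q₀) / D.chi (D.b z) ^ n₀), lt_min hc h3, fun n Q hQ hT => ?_⟩
      have h4 : 0 < D.chi (D.b z) ^ n := pow_pos (D.chi_pos z) n
      rcases Finset.mem_insert.1 hT with hT | hT
      · have h5 := D.stm_chi hz hza h1 hQ (h2.trans hT.symm)
        have h6 : min c (D.chi (D.b Q₀) / D.chi (D.b z) ^ n₀) ≤ D.chi (D.b Q) / D.chi (D.b z) ^ n :=
          (min_le_right _ _).trans (le_of_eq h5)
        exact (le_div_iff₀ h4).1 h6
      · exact (mul_le_mul_of_nonneg_right (min_le_left _ _) h4.le).trans (h n Q hQ hT)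
    · refine ⟨c, hc, fun n Q hQ hT => ?_⟩
      rcases Finset.mem_insert.1 hT with hT | hT
      · exact absurd ⟨n, Q, hQ, hT⟩ ht
      · exact h n Q hQ hT

omit [IsDomain O] in
theorem stm_expand (x : O) :
    D.chi x = ∑ Q ∈ (D.b.repr x).support, D.b.repr x Q * D.chi (D.b Q) := by
  conv_lhs => rw [D.expand x, map_sum]
  refine Finset.sum_congr rfl fun Q _ => ?_
  rw [map_smul, smul_eq_mul]

/-- **STM** -/
theorem I_STM (h : StTy D) : StStm D := by
  classical
  intro w N hN hsp z G hz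
  obtain ⟨Ty, hTy⟩ := h w N hN hsp z G hz
  have hsr : D.SR z := hN.sr hz.1
  have hza : D.Ad w z := hN.ad hz.1
  obtain ⟨c, hc, hlow⟩ := D.stm_low hsr hza Ty
  refine ⟨D.chi (D.b G) / c, fun n F hF => ?_⟩
  have hps : D.Ps (D.b G * D.b z ^ n) := (ps_b G).mul ((ps_b z).pow n)
  set x := D.b G * D.b z ^ n with hx
  have hz0 : 0 < D.chi (D.b z) ^ n := pow_pos (D.chi_pos z) n
  -- the sum over the support
  have h1 : ∑ Q ∈ F, D.b.repr x Q = ∑ Q ∈ F.filter (fun Q => D.b.repr x Q ≠ 0), D.b.repr x Q := by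
    rw [Finset.sum_filter_ne_zero]
  have h2 : ∀ Q ∈ F.filter (fun Q => D.b.repr x Q ≠ 0),
      c * D.chi (D.b z) ^ n * D.b.repr x Q ≤ D.b.repr x Q * D.chi (D.b Q) := by
    intro Q hQ
    rw [Finset.mem_filter] at hQ
    have h3 := hlow n Q (hF Q hQ.1) (hTy n Q hQ.2 (hF Q hQ.1))
    rw [mul_comm]
    exact mul_le_mul_of_nonneg_left h3 (hps Q)
  have h3 : c * D.chi (D.b z) ^ n * ∑ Q ∈ F, D.b.repr x Q ≤ D.chi x := by
    rw [h1, Finset.mul_sum, D.stm_expand x]
    refine (Finset.sum_le_sum h2).trans ?_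
    refine Finset.sum_le_sum_of_subset_of_nonneg ?_ fun Q _ _ =>
      mul_nonneg (hps Q) (D.chi_pos Q).le
    intro Q hQ
    rw [Finset.mem_filter] at hQ
    exact Finsupp.mem_support_iff.2 hQ.2
  have h4 : D.chi x = D.chi (D.b G) * D.chi (D.b z) ^ n := by
    rw [hx, map_mul, map_pow]
  rw [h4] at h3
  rw [le_div_iff₀ hc]
  have h5 : ((∑ Q ∈ F, D.b.repr x Q) * c) * D.chi (D.b z) ^ n ≤
      D.chi (D.b G) * D.chi (D.b z) ^ n := by
    calc _ = c * D.chi (D.b z) ^ n * ∑ Q ∈ F, D.b.repr x Q := by ring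
      _ ≤ _ := h3
  exact le_of_mul_le_mul_right h5 hz0

end Sys2

end Pool.Agent.KLSAbs

end

section

/-! MP_e487d8_al, abstract part 2: item T (extension of families of corank one). -/

set_option autoImplicit false

namespace Pool.Agent.KLSAbs

open scoped LaurentPolynomial

variable {I S O K : Type} [DecidableEq I] [CommRing O] [Algebra ℚ O] [Ring K]
  [Algebra ℤ[T;T⁻¹] K] [IsDomain O] (D : Sys2 I S O K)

/-- additive maps on a functional additive relation extend to linear maps -/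
theorem t_lin_ext {W W' : Type} [AddCommGroup W] [Module ℚ W] [AddCommGroup W'] [Module ℚ W']
    (T : AddSubmonoid (W × W')) (hT : ∀ x y y', (x, y) ∈ T → (x, y') ∈ T → y = y') :
    ∃ e : W →ₗ[ℚ] W', ∀ x y, (x, y) ∈ T → e x = y := by
  set P := Submodule.span ℚ (T : Set (W × W')) with hP
  have hinj : Function.Injective ((LinearMap.fst ℚ W W').domRestrict P) := by
    rw [← LinearMap.ker_eq_bot, LinearMap.ker_eq_bot']
    rintro ⟨⟨x, y⟩, hxy⟩ h
    have hx : x = 0 := h
    subst hx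
    obtain ⟨k, hk, ⟨a, c⟩, hac, ⟨a', c'⟩, hac', h1⟩ := span_nat T hxy
    have h2 : a = a' := by
      have := congrArg Prod.fst h1
      simpa using this
    have h3 : k • y + c = c' := congrArg Prod.snd h1
    rw [← h2] at hac'
    have h4 := hT _ _ _ hac hac'
    rw [← h4] at h3
    have h5 : k • y = 0 := by simpa using h3
    have h6 : y = 0 := by
      rw [← Nat.cast_smul_eq_nsmul ℚ] at h5
      rcases smul_eq_zero.1 h5 with h6 | h6
      · exfalso
        have : k = 0 := by exact_mod_cast h6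
        omega
      · exact h6
    subst h6
    rfl
  obtain ⟨g, hg⟩ := LinearMap.exists_leftInverse_of_injective _ (LinearMap.ker_eq_bot.2 hinj)
  refine ⟨(LinearMap.snd ℚ W W') ∘ₗ P.subtype ∘ₗ g, fun x y hxy => ?_⟩
  have h1 := LinearMap.congr_fun hg ⟨(x, y), Submodule.subset_span hxy⟩
  have h2 : g x = ⟨(x, y), Submodule.subset_span hxy⟩ := h1
  show ((g x : P) : W × W').2 = y
  rw [h2]

/-- a functional which vanishes on the kernel of another one -/
theorem t_ker {W : Type} [AddCommGroup W] [Module ℚ W] {l e : W →ₗ[ℚ] ℚ}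
    (h : ∀ v, l v = 0 → e v = 0) {x : W} (hx : l x ≠ 0) (v : W) : e v = (e x / l x) * l v := by
  have h1 := h (v - (l v / l x) • x) (by
    rw [map_sub, map_smul, smul_eq_mul, div_mul_cancel₀ _ hx, sub_self])
  rw [map_sub, map_smul, smul_eq_mul] at h1
  have h2 : e v = l v / l x * e x := by linarith
  rw [h2]; ring

namespace Sys2

variable {D}

/-- an additive function on a family is a linear function of the string -/
theorem t_lin {w : List I} {N : Submonoid O} (hN : D.Fam w N) (i : I) :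
    ∃ e : V w →ₗ[ℚ] ℚ, ∀ X, D.b X ∈ N → e (D.str w X) = D.eps i X := by
  obtain ⟨e, he⟩ := t_lin_ext (W := V w) (W' := ℚ)
    { carrier := {v | ∃ X, D.b X ∈ N ∧ (D.str w X, (D.eps i X : ℚ)) = v}
      zero_mem' := ⟨D.one, hN.one_mem, by rw [D.str_one, D.eps_one]; simp⟩
      add_mem' := by
        rintro _ _ ⟨X, hX, rfl⟩ ⟨Y, hY, rfl⟩
        obtain ⟨Z, hZ⟩ := hN.cm hX hY
        refine ⟨Z, by rw [← hZ]; exact N.mul_mem hX hY, ?_⟩
        rw [D.str_mul w hZ, (D.Emul i hZ).1, Nat.cast_add]; rfl } (by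
      rintro x y y' ⟨X, hX, h1⟩ ⟨Y, hY, h2⟩
      have e1 : D.str w X = x := congrArg Prod.fst h1
      have e2 : (D.eps i X : ℚ) = y := congrArg Prod.snd h1
      have e3 : D.str w Y = x := congrArg Prod.fst h2
      have e4 : (D.eps i Y : ℚ) = y' := congrArg Prod.snd h2
      have e5 := D.str_inj w (hN.ad hX) (hN.ad hY) (e1.trans e3.symm)
      rw [← e2, ← e4, e5])
  exact ⟨e, fun X hX => he _ _ ⟨X, hX, rfl⟩⟩

/-- (F) with the multiplicity -/
theorem t_F {w : List I} {N : Submonoid O} (hN : D.Fam w N) {Y z : S} (hY : D.Ad w Y)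
    (hz : D.Gen N z)
    (h : ∃ n₀ : ℕ, ∀ n ≥ n₀, ∃ X : S, D.CC w N X ∧ D.str w X = D.str w Y + n • D.str w z) :
    ∃ C X, D.b C ∈ N ∧ D.CC w N X ∧ D.str w X = D.str w C + D.str w Y ∧ D.co C Y X ≠ 0 := by
  obtain ⟨n₀, h⟩ := h
  obtain ⟨X, hX, hs⟩ := h n₀ le_rfl
  obtain ⟨C, hC, hC'⟩ := hN.pow hz.1 n₀
  have hsC : D.str w C = n₀ • D.str w z := hN.str_pow hz.1 n₀ hC
  refine ⟨C, X, hC', hX, by rw [hs, hsC, add_comm], ?_⟩
  obtain ⟨X', h1, h2, h3⟩ := D.lead w (hN.ad hC') hY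
  have h4 : X' = X := by
    refine D.str_inj w h1 hX.1 ?_
    rw [h2, hs, hsC, add_comm]
  rw [← h4, h3]
  exact one_ne_zero

variable (D)

theorem I_T (Good : List I → Prop) (m : ℕ) (hG : GoodW D Good) (h3 : StA3 D) (h1 : StKf1 D)
    (h2 : StKf2 D) (hF : D.StF Good m) (hD : D.DG Good m) : D.StT Good m := by
  have hDag : ∀ w, Good w → w.length ≤ m → ∀ N, D.Fam w N → ∀ C, D.b C ∈ N →
      D.Dag C ∧ D.Dag' C := fun w hw hm N hN C hC => hD w C hw hm (hN.sr hC) (hN.ad hC)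
  intro w
  induction w with
  | nil =>
    intro _ _ N hN l hl Y hY hpos
    exfalso
    have : D.str [] Y = 0 := rfl
    rw [this, map_zero] at hpos
    exact lt_irrefl _ hpos
  | cons i w ih =>
    intro hgw hlen N hN l hl Y hY hpos
    have hgw' : Good w := hG.tail i w hgw
    have hlen' : w.length ≤ m := by
      rw [List.length_cons] at hlen
      omega
    have hlN : ∀ C, D.b C ∈ N → l (D.str (i :: w) C) = 0 := by
      intro C hC
      have : D.str (i :: w) C ∈ D.sp (i :: w) N := Submodule.subset_span ⟨C, hC, rfl⟩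
      rw [hl] at this
      exact this
    set l' : V w →ₗ[ℚ] ℚ := l ∘ₗ cn i w ∘ₗ LinearMap.inr ℚ ℚ (V w) with hl'
    set a : ℚ := l (cn i w (1, 0)) with ha
    have hdec : ∀ v : V (i :: w), l v = hd i w v * a + l' (tl i w v) := by
      intro v
      conv_lhs => rw [← cn_hd_tl i w v]
      rw [ha, hl']
      simp only [LinearMap.comp_apply, LinearMap.inr_apply]
      rw [← smul_eq_mul, ← map_smul, ← map_add, ← map_smul, ← map_add]
      congr 2
      simp
    have hlY : 0 < (D.eps i Y : ℚ) * a + l' (D.str w (D.E i Y)) := by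
      rw [hdec] at hpos
      exact hpos
    rcases lt_trichotomy a 0 with h0 | h0 | h0
    · -- `ℓ(e₁) < 0`
      have hfull : D.sp w (shift i hN) = ⊤ := by
        rw [sp_shift, hl, Submodule.eq_top_iff']
        intro v
        refine ⟨cn i w (-(l' v) / a, v), ?_, rfl⟩
        show l _ = 0
        rw [hdec, hd_cn, tl_cn]
        show -(l' v) / a * a + l' v = 0
        rw [div_mul_cancel₀ _ h0.ne]
        ring
      have hS := shift_fam i hN
      obtain ⟨z, hz⟩ := exists_gen hS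
      obtain ⟨C', X', hC', hX', hstr, _⟩ := t_F hS hY hz
        (hF w hgw' hlen' _ hS hfull z hz (D.E i Y) hY)
      obtain ⟨N', hcent, hle, hmem⟩ := h3 w _ hS hfull
        (fun C hC => (hDag w hgw' hlen' _ hS C hC).1)
      have hX'c : D.b X' ∈ N' := (hmem X').2 hX'
      have heps : D.eps i X' = 0 := by
        obtain ⟨e, he⟩ := t_lin hcent i
        have h1 : e = 0 := by
          refine LinearMap.ext_on (s := {v | ∃ X, D.b X ∈ shift i hN ∧ D.str w X = v}) hfull ?_
          rintro _ ⟨Z, hZ, rfl⟩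
          rw [he Z (hle hZ), eps_shift i hN hZ]
          simp
        have h2 := he X' hX'c
        rw [h1, LinearMap.zero_apply] at h2
        exact_mod_cast h2.symm
      obtain ⟨C, X, hC, hX, hs⟩ := h2 i w N X' hN (hDag (i :: w) hgw hlen N hN)
        (hcent.mono (sup_le hle (by
          rw [Submonoid.powers_le]; exact hX'c)))
      refine ⟨X, hX, ?_⟩
      rw [hs, map_add, hlN C hC, zero_add, hdec, hd_str, tl_str, heps, D.E_of_eps i X' heps, hstr,
        map_add]
      obtain ⟨C₀, hC₀, rfl⟩ := (mem_shift i hN).1 hC'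
      have h3 := hlN C₀ hC₀
      rw [hdec, hd_str, tl_str] at h3
      have h4 : 0 ≤ (D.eps i C₀ : ℚ) := Nat.cast_nonneg _
      have h5 : 0 ≤ (D.eps i Y : ℚ) := Nat.cast_nonneg _
      rw [Nat.cast_zero, zero_mul, zero_add]
      nlinarith [mul_nonneg h4 (neg_nonneg.2 h0.le), mul_nonneg h5 (neg_nonneg.2 h0.le)]
    · -- `ℓ(e₁) = 0`
      rw [h0, mul_zero, zero_add] at hlY
      have hS := shift_fam i hN
      have hsp : D.sp w (shift i hN) = LinearMap.ker l' := by
        rw [sp_shift, hl]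
        ext v
        rw [Submodule.mem_map, LinearMap.mem_ker]
        constructor
        · rintro ⟨u, hu, rfl⟩
          rw [LinearMap.mem_ker, hdec, h0, mul_zero, zero_add] at hu
          exact hu
        · intro hv
          refine ⟨cn i w (0, v), ?_, rfl⟩
          rw [LinearMap.mem_ker, hdec, hd_cn, tl_cn]
          show 0 * a + l' v = 0
          rw [hv, zero_mul, add_zero]
      obtain ⟨X₁, hM, hpos₁⟩ := ih hgw' hlen' (shift i hN) hS l' hsp (D.E i Y) hY hlY
      set M := shift i hN ⊔ Submonoid.powers (D.b X₁) with hMdef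
      have hSM : shift i hN ≤ M := le_sup_left
      have hX₁M : D.b X₁ ∈ M :=
        (le_sup_right : Submonoid.powers (D.b X₁) ≤ M) (Submonoid.mem_powers _)
      have hfull : D.sp w M = ⊤ := by
        rw [Submodule.eq_top_iff']
        intro v
        have h1 : v - (l' v / l' (D.str w X₁)) • D.str w X₁ ∈ D.sp w M := by
          have h2 : D.sp w (shift i hN) ≤ D.sp w M :=
            Submodule.span_mono fun _ ⟨X, hX, h⟩ => ⟨X, hSM hX, h⟩
          refine h2 ?_
          rw [hsp, LinearMap.mem_ker, map_sub, map_smul, smul_eq_mul,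
            div_mul_cancel₀ _ hpos₁.ne', sub_self]
        have h2 : D.str w X₁ ∈ D.sp w M := Submodule.subset_span ⟨X₁, hX₁M, rfl⟩
        have h3 := Submodule.add_mem _ h1
          (Submodule.smul_mem (D.sp w M) (l' v / l' (D.str w X₁)) h2)
        rwa [sub_add_cancel] at h3
      obtain ⟨z, hz⟩ := exists_gen hM
      obtain ⟨C', X', hC', hX', hstr, hco⟩ := t_F hM hY hz
        (hF w hgw' hlen' _ hM hfull z hz (D.E i Y) hY)
      obtain ⟨N', hcent, hle, hmem⟩ := h3 w _ hM hfull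
        (fun C hC => (hDag w hgw' hlen' _ hM C hC).1)
      have hX'c : D.b X' ∈ N' := (hmem X').2 hX'
      obtain ⟨e, he⟩ := t_lin hcent i
      have hker : ∀ v, l' v = 0 → e v = 0 := by
        intro v hv
        have h1 : v ∈ D.sp w (shift i hN) := by rw [hsp]; exact hv
        refine Submodule.span_induction (p := fun v _ => e v = 0) ?_ ?_ ?_ ?_ h1
        · rintro _ ⟨Z, hZ, rfl⟩
          rw [he Z (hle (hSM hZ)), eps_shift i hN hZ, Nat.cast_zero]
        · exact map_zero e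
        · intro x y _ _ hx hy
          rw [map_add, hx, hy, add_zero]
        · intro c x _ hx
          rw [map_smul, hx, smul_zero]
      have heps : D.eps i X₁ = 0 := by
        have h1 := he X' hX'c
        have h2 := he C' (hle hC')
        have h3 := he X₁ (hle hX₁M)
        have h4 : (D.eps i X' : ℚ) ≤ D.eps i C' := by
          have h5 := D.eps_co i _ _ _ hco
          rw [D.eps_E, add_zero] at h5
          exact_mod_cast h5
        rw [← h1, ← h2, hstr, map_add] at h4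
        rw [t_ker hker hpos₁.ne' (D.str w (D.E i Y)), h3] at h4
        have h5 : 0 ≤ (D.eps i X₁ : ℚ) := Nat.cast_nonneg _
        have h6 : (D.eps i X₁ : ℚ) / l' (D.str w X₁) * l' (D.str w (D.E i Y)) ≤ 0 := by linarith
        have h7 : (D.eps i X₁ : ℚ) ≤ 0 := by
          by_contra h8
          push Not at h8
          have h9 : 0 < (D.eps i X₁ : ℚ) / l' (D.str w X₁) * l' (D.str w (D.E i Y)) :=
            mul_pos (div_pos h8 hpos₁) hlY
          linarith
        have h8 : (D.eps i X₁ : ℚ) = 0 := le_antisymm h7 h5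
        exact_mod_cast h8
      obtain ⟨C, X, hC, hX, hs⟩ := h2 i w N X₁ hN (hDag (i :: w) hgw hlen N hN) hM
      refine ⟨X, hX, ?_⟩
      rw [hs, map_add, hlN C hC, zero_add, hdec, hd_str, tl_str, heps, D.E_of_eps i X₁ heps,
        h0, mul_zero, zero_add]
      exact hpos₁
    · -- `ℓ(e₁) > 0`
      obtain ⟨C, X, hC, hX, hs⟩ := h1 i w N hN (hDag (i :: w) hgw hlen N hN)
      refine ⟨X, hX, ?_⟩
      rw [hs, map_add, hlN C hC, zero_add]
      exact h0

end Sys2

end Pool.Agent.KLSAbs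

end

section

/-! MP_e487d8_al, abstract part 2: finitely many types (TY). -/

set_option autoImplicit false

namespace Pool.Agent.KLSAbs

open scoped LaurentPolynomial

variable {I S O K : Type} [DecidableEq I] [CommRing O] [Algebra ℚ O] [Ring K]
  [Algebra ℤ[T;T⁻¹] K] [IsDomain O] (D : Sys2 I S O K)

/-- finitely many functionals which determine a vector, with finitely many values each -/
theorem ty_fin {W ι : Type} [AddCommGroup W] [Module ℚ W] (s : Finset ι) (f : ι → W →ₗ[ℚ] ℚ)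
    (hf : ∀ u, (∀ j ∈ s, f j u = 0) → u = 0) (F : ι → Set ℚ) (hF : ∀ j ∈ s, (F j).Finite) :
    {u : W | ∀ j ∈ s, f j u ∈ F j}.Finite := by
  have hinj : Function.Injective fun (u : W) (j : s) => f j u := by
    intro u u' h
    refine sub_eq_zero.1 (hf _ fun j hj => ?_)
    have h1 : f j u = f j u' := congrFun h ⟨j, hj⟩
    rw [map_sub, h1, sub_self]
  have h1 : (Set.pi Set.univ fun j : s => F j).Finite := Set.Finite.pi fun j => hF j j.2
  refine (h1.preimage hinj.injOn).subset ?_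
  intro u hu j _
  exact hu j j.2

namespace Sys2

omit [IsDomain O] in
/-- finitely many simple modules of a given rational weight -/
theorem ty_wtq (h' : StFin D) (γ : I →₀ ℚ) : {X : S | D.wtq X = γ}.Finite := by
  by_cases h : ∃ X, D.wtq X = γ
  · obtain ⟨X, rfl⟩ := h
    exact (h' (D.wt X)).subset fun Y hY => D.wtq_inj hY
  · have h1 : {X : S | D.wtq X = γ} = ∅ :=
      Set.eq_empty_iff_forall_notMem.2 fun X hX => h ⟨X, hX⟩
    rw [h1]
    exact Set.finite_empty

/-- **TY** -/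
theorem I_TY (h : StBdd D) (h' : StFin D) : StTy D := by
  classical
  intro w N hN hsp z G hz
  obtain ⟨s, hs1, hs2⟩ := (Submodule.fg_span_iff_fg_span_finset_subset
    {v | ∃ X, D.b X ∈ N ∧ D.str w X = v}).1 (IsNoetherian.noetherian (R := ℚ) (M := V w) _)
  have : Nonempty S := ⟨D.one⟩
  have hs1' : ∀ v ∈ s, ∃ X, D.b X ∈ N ∧ D.str w X = v := fun v hv => hs1 hv
  choose! c hc1 hc2 using hs1'
  have hB : ∀ v ∈ s, ∃ M : ℤ, ∀ Z Q : S, D.SC (c v) Z → D.SC (c v) Q →
      D.co G Z Q ≠ 0 → |D.lam (c v) Q - D.lam (c v) Z| ≤ M :=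
    fun v hv => h (c v) G (hN.sr (hc1 v hv))
  choose! M hM using hB
  have htop : Submodule.span ℚ (s : Set (V w)) = ⊤ := by
    rw [← hs2]
    exact hsp
  -- the functionals
  let f : V w → V w →ₗ[ℚ] ℚ := fun v =>
    (LinearMap.applyₗ v) ∘ₗ (D.LB w) ∘ₗ (LinearMap.inl ℚ (V w) (I →₀ ℚ))
  have hfa : ∀ v u, f v u = D.LB w (u, 0) v := fun _ _ => rfl
  have hf : ∀ u, (∀ v ∈ s, f v u = 0) → u = 0 := by
    intro u hu
    refine D.LB_inj w (LinearMap.ext_on htop fun v hv => ?_)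
    rw [LinearMap.zero_apply]
    exact hu v hv
  let F : V w → Set ℚ := fun v =>
    (fun k : ℤ => (k : ℚ) - D.LB w (0, D.wtq G) v) '' Set.Icc (-M v) (M v)
  have hU := ty_fin s f hf F (fun v _ => (Set.finite_Icc _ _).image _)
  set U : Set (V w) := {u : V w | ∀ j ∈ s, f j u ∈ F j} with hUdef
  have hT : (⋃ u ∈ U, (fun X : S => (u, X)) '' {X : S | D.wtq X = D.wtq G - Bw w u}).Finite :=
    hU.biUnion fun u _ => (D.ty_wtq h' _).image _
  refine ⟨hT.toFinset, fun n Q hQ hzQ => ?_⟩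
  rw [Set.Finite.mem_toFinset]
  obtain ⟨zn, hzn, hznm⟩ := hN.pow hz.1 n
  have hstr : D.str w zn = n • D.str w z := hN.str_pow hz.1 n hzn
  rw [hzn, D.repr_mul] at hQ
  have hco : D.co G zn Q ≠ 0 := by exact_mod_cast hQ
  have hwt : D.wtq Q = D.wtq G + D.wtq zn := D.wtq_add (D.wt_co G zn Q hco)
  have hcm : ∀ C, D.b C ∈ N → D.Cm C Q := fun C hC => hz.cm hN hzQ hC
  rw [← hstr]
  refine Set.mem_biUnion (x := D.str w Q - D.str w zn) ?_ ⟨D.tail w Q, ?_, rfl⟩
  · intro v hv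
    have hC := hc1 v hv
    have h1 := hM v hv zn Q (hN.sc hC fun C' hC' => hN.cm hC' hznm) (hN.sc hC hcm) hco
    have h2 := D.lam_LL w (hN.ad hC) (hcm _ hC)
    have h3 := D.lam_LL w (hN.ad hC) (hN.cm hC hznm)
    rw [hc2 v hv] at h2 h3
    refine ⟨D.lam (c v) Q - D.lam (c v) zn, abs_le.1 h1, ?_⟩
    show ((D.lam (c v) Q - D.lam (c v) zn : ℤ) : ℚ) - D.LB w (0, D.wtq G) v = _
    push_cast
    rw [h2, h3, hfa, LL, LL]
    have h4 : ((D.str w Q - D.str w zn, 0) : V w × (I →₀ ℚ)) =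
        (D.str w Q, D.wtq Q) - (D.str w zn, D.wtq zn) - (0, D.wtq G) := by
      rw [Prod.mk_sub_mk, Prod.mk_sub_mk, sub_zero, hwt, add_sub_cancel_right, sub_self]
    rw [h4, map_sub, map_sub, LinearMap.sub_apply, LinearMap.sub_apply]
  · show D.wtq (D.tail w Q) = D.wtq G - Bw w (D.str w Q - D.str w zn)
    have h1 := D.wtq_tail w Q
    have h2 := D.wtq_Ad w (hN.ad hznm)
    rw [hwt, h2] at h1
    rw [map_sub]
    have h3 : D.wtq (D.tail w Q) = D.wtq G + Bw w (D.str w zn) - Bw w (D.str w Q) := by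
      rw [h1]; abel
    rw [h3]; abel

end Sys2

end Pool.Agent.KLSAbs

end

section

/-! MP_e487d8_al: the transfer of the notions of `Fin/Statement.lean` (modules over the algebra
`KLRAlg D`) to the notions of `Stmt.lean` (operators of the generators), part 2: homomorphisms,
balanced maps, induced modules, graded submodules. -/

set_option autoImplicit false
set_option linter.unusedSectionVars false

namespace Pool.Agent.KLS.St

variable {K I : Type} [Field K] [Fintype I] [DecidableEq I] {D : Datum K I}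

/-- a `K`-linear map which commutes with the generators is linear over the KLR algebra -/
theorem smul_of_gens {D : Datum K I} {P Q : Type*} [AddCommGroup P] [Module K P]
    [Module (KLRAlg D) P] [IsScalarTower K (KLRAlg D) P] [AddCommGroup Q] [Module K Q]
    [Module (KLRAlg D) Q] [IsScalarTower K (KLRAlg D) Q] (f : P →ₗ[K] Q)
    (he : ∀ k i u, f (D.e k i • u) = D.e k i • f u) (hx : ∀ k u, f (D.x k • u) = D.x k • f u)
    (ht : ∀ k u, f (D.t k • u) = D.t k • f u) (a : KLRAlg D) (u : P) : f (a • u) = a • f u := by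
  induction a using KLRAlg.induction generalizing u with
  | hs r => rw [algebraMap_smul, algebraMap_smul, map_smul]
  | he k i => exact he k i u
  | hx k => exact hx k u
  | ht k => exact ht k u
  | hadd a b ha hb => rw [add_smul, add_smul, map_add, ha, hb]
  | hmul a b ha hb => rw [mul_smul, mul_smul, ha, hb]

/-- a `K`-linear map which commutes with the generators as a linear map over the KLR algebra -/
def ofGens {D : Datum K I} {P Q : Type*} [AddCommGroup P] [Module K P]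
    [Module (KLRAlg D) P] [IsScalarTower K (KLRAlg D) P] [AddCommGroup Q] [Module K Q]
    [Module (KLRAlg D) Q] [IsScalarTower K (KLRAlg D) Q] (f : P →ₗ[K] Q)
    (he : ∀ k i u, f (D.e k i • u) = D.e k i • f u) (hx : ∀ k u, f (D.x k • u) = D.x k • f u)
    (ht : ∀ k u, f (D.t k • u) = D.t k • f u) : P →ₗ[KLRAlg D] Q where
  toFun := f
  map_add' := f.map_add
  map_smul' := smul_of_gens f he hx ht

@[simp] theorem ofGens_apply {D : Datum K I} {P Q : Type*} [AddCommGroup P] [Module K P]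
    [Module (KLRAlg D) P] [IsScalarTower K (KLRAlg D) P] [AddCommGroup Q] [Module K Q]
    [Module (KLRAlg D) Q] [IsScalarTower K (KLRAlg D) Q] (f : P →ₗ[K] Q)
    (he : ∀ k i u, f (D.e k i • u) = D.e k i • f u) (hx : ∀ k u, f (D.x k • u) = D.x k • f u)
    (ht : ∀ k u, f (D.t k • u) = D.t k • f u) (u : P) : ofGens f he hx ht u = f u := rfl

/-- the KLR algebra acts on `X` through the operators of `X` -/
structure Act (X : Mod D) [Module (KLRAlg D) X.M] : Prop where
  e : ∀ k i (u : X.M), D.e k i • u = X.e k i u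
  x : ∀ k (u : X.M), D.x k • u = X.x k u
  t : ∀ k (u : X.M), D.t k • u = X.t k u

theorem Act.strand {X : Mod D} [Module (KLRAlg D) X.M] (h : Act X) : IsStrand D X.n X.M where
  one k hk u := by
    unfold Datum.E
    rw [Finset.sum_smul]
    simp only [h.e]
    exact X.sum_e k u hk
  zero k hk i u := by rw [h.e]; exact X.e_out k i u hk

section hom

variable {X Y : Mod D} [Module (KLRAlg D) X.M] [IsScalarTower K (KLRAlg D) X.M]
  [Module (KLRAlg D) Y.M] [IsScalarTower K (KLRAlg D) Y.M]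

/-- a homomorphism as a linear map over the KLR algebra -/
noncomputable def homR (hX : Act X) (hY : Act Y) {f : X.M → Y.M} (hf : IsHom X Y f) :
    X.M →ₗ[KLRAlg D] Y.M :=
  ofGens (hf.lin.mk' f) (fun k i u => by simp [hX.e, hY.e, hf.e])
    (fun k u => by simp [hX.x, hY.x, hf.x]) (fun k u => by simp [hX.t, hY.t, hf.t])

@[simp] theorem homR_apply (hX : Act X) (hY : Act Y) {f : X.M → Y.M} (hf : IsHom X Y f)
    (u : X.M) : homR hX hY hf u = f u := rfl

theorem isHom_of (hX : Act X) (hY : Act Y) (f : X.M →ₗ[KLRAlg D] Y.M) : IsHom X Y f where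
  lin := (Conv.toK f).isLinear
  e k i u := by rw [← hX.e, map_smul, hY.e]
  x k u := by rw [← hX.x, map_smul, hY.x]
  t k u := by rw [← hX.t, map_smul, hY.t]

end hom

section bal

variable {X Y W : Mod D} [Module (KLRAlg D) X.M] [IsScalarTower K (KLRAlg D) X.M]
  [Module (KLRAlg D) Y.M] [IsScalarTower K (KLRAlg D) Y.M]
  [Module (KLRAlg D) W.M] [IsScalarTower K (KLRAlg D) W.M]

/-- the bilinear map of a balanced map -/
noncomputable def bil {f : X.M → Y.M → W.M} (hf : Balanced X Y W f) : X.M →ₗ[K] Y.M →ₗ[K] W.M :=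
  LinearMap.mk₂ K f (fun u u' v => (hf.lin_left v).map_add u u')
    (fun r u v => (hf.lin_left v).map_smul r u) (fun u v v' => (hf.lin_right u).map_add v v')
    (fun r u v => (hf.lin_right u).map_smul r v)

@[simp] theorem bil_apply {f : X.M → Y.M → W.M} (hf : Balanced X Y W f) (u : X.M) (v : Y.M) :
    bil hf u v = f u v := rfl

theorem balR (hX : Act X) (hY : Act Y) (hW : Act W) {f : X.M → Y.M → W.M}
    (hf : Balanced X Y W f) : KLS.Balanced D X.n (bil hf) where
  left a u v := by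
    induction a using KLRAlg.induction generalizing u with
    | hs r =>
      rw [AlgHom.commutes, algebraMap_smul, algebraMap_smul, map_smul, LinearMap.smul_apply]
    | he k i =>
      rw [D.tr_e]
      split_ifs with h
      · rw [hW.e, hX.e, bil_apply, bil_apply, hf.e_left k i u v h]
      · rw [zero_smul, hX.e, X.e_out k i u (by omega), map_zero, LinearMap.zero_apply]
    | hx k =>
      rw [D.tr_x]
      split_ifs with h
      · rw [hW.x, hX.x, bil_apply, bil_apply, hf.x_left k u v h]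
      · rw [zero_smul, hX.x, X.x_out k u (by omega), map_zero, LinearMap.zero_apply]
    | ht k =>
      rw [D.tr_t]
      split_ifs with h
      · rw [hW.t, hX.t, bil_apply, bil_apply, hf.t_left k u v h]
      · rw [zero_smul, hX.t, X.t_out k u (by omega), map_zero, LinearMap.zero_apply]
    | hadd a b ha hb => rw [map_add, add_smul, add_smul, map_add, LinearMap.add_apply, ha, hb]
    | hmul a b ha hb => rw [map_mul, mul_smul, mul_smul, hb, ha]
  right a u v := by
    induction a using KLRAlg.induction generalizing v with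
    | hs r => rw [AlgHom.commutes, algebraMap_smul, algebraMap_smul, map_smul]
    | he k i => rw [D.shn_e, hW.e, hY.e, bil_apply, bil_apply, hf.e_right]
    | hx k => rw [D.shn_x, hW.x, hY.x, bil_apply, bil_apply, hf.x_right]
    | ht k => rw [D.shn_t, hW.t, hY.t, bil_apply, bil_apply, hf.t_right]
    | hadd a b ha hb => rw [map_add, add_smul, add_smul, map_add, ha, hb]
    | hmul a b ha hb => rw [map_mul, mul_smul, mul_smul, hb, ha]

theorem balanced_of (hX : Act X) (hY : Act Y) (hW : Act W) (β : X.M →ₗ[K] Y.M →ₗ[K] W.M)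
    (h : KLS.Balanced D X.n β) : Balanced X Y W fun u v => β u v where
  lin_left v := (β.flip v).isLinear
  lin_right u := (β u).isLinear
  e_left k i u v hk := by
    have h1 := h.left (D.e k i) u v
    rw [D.tr_e, if_pos hk, hW.e, hX.e] at h1
    exact h1
  x_left k u v hk := by
    have h1 := h.left (D.x k) u v
    rw [D.tr_x, if_pos hk, hW.x, hX.x] at h1
    exact h1
  t_left k u v hk := by
    have h1 := h.left (D.t k) u v
    rw [D.tr_t, if_pos hk, hW.t, hX.t] at h1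
    exact h1
  e_right k i u v := by
    have h1 := h.right (D.e k i) u v
    rw [D.shn_e, hW.e, hY.e] at h1
    exact h1
  x_right k u v := by
    have h1 := h.right (D.x k) u v
    rw [D.shn_x, hW.x, hY.x] at h1
    exact h1
  t_right k u v := by
    have h1 := h.right (D.t k) u v
    rw [D.shn_t, hW.t, hY.t] at h1
    exact h1

end bal


section induced

variable {X Y Z : Mod D} [Module (KLRAlg D) X.M] [IsScalarTower K (KLRAlg D) X.M]
  [Module (KLRAlg D) Y.M] [IsScalarTower K (KLRAlg D) Y.M]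
  [Module (KLRAlg D) Z.M] [IsScalarTower K (KLRAlg D) Z.M]

/-- the universal map into the convolution product is balanced -/
theorem balanced_mk (hX : Act X) (hY : Act Y) :
    Balanced X Y (ofM (Conv.isStrand hX.strand hY.strand))
      fun u v => Conv.mk D X.n X.M Y.M u v where
  lin_left v := ((Conv.mk D X.n X.M Y.M).flip v).isLinear
  lin_right u := (Conv.mk D X.n X.M Y.M u).isLinear
  e_left k i u v hk := by
    have h1 := Conv.tr_smul_mk (m := X.n) (D.e k i) u v
    rw [D.tr_e, if_pos hk, hX.e] at h1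
    exact h1
  x_left k u v hk := by
    have h1 := Conv.tr_smul_mk (m := X.n) (D.x k) u v
    rw [D.tr_x, if_pos hk, hX.x] at h1
    exact h1
  t_left k u v hk := by
    have h1 := Conv.tr_smul_mk (m := X.n) (D.t k) u v
    rw [D.tr_t, if_pos hk, hX.t] at h1
    exact h1
  e_right k i u v := by
    have h1 := Conv.shn_smul_mk (m := X.n) (D.e k i) u v
    rw [D.shn_e, hY.e] at h1
    exact h1
  x_right k u v := by
    have h1 := Conv.shn_smul_mk (m := X.n) (D.x k) u v
    rw [D.shn_x, hY.x] at h1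
    exact h1
  t_right k u v := by
    have h1 := Conv.shn_smul_mk (m := X.n) (D.t k) u v
    rw [D.shn_t, hY.t] at h1
    exact h1

/-- an induced module is isomorphic to the convolution product -/
theorem exists_iso (hX : Act X) (hY : Act Y) (hZ : Act Z) {f : X.M → Y.M → Z.M}
    (hf : IsInduced X Y Z f) : ∃ g : Conv D X.n X.M Y.M ≃ₗ[KLRAlg D] Z.M,
      ∀ u v, g (Conv.mk D X.n X.M Y.M u v) = f u v := by
  let g : Conv D X.n X.M Y.M →ₗ[KLRAlg D] Z.M :=
    Conv.lift (bil hf.balanced) (balR hX hY hZ hf.balanced)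
  have hg : ∀ u v, g (Conv.mk D X.n X.M Y.M u v) = f u v := fun u v => Conv.lift_mk _ _ u v
  obtain ⟨h, ⟨hh, hfh⟩, -⟩ := hf.universal (ofM (Conv.isStrand hX.strand hY.strand)) _ rfl
    (balanced_mk hX hY)
  let h0 : Z.M →ₗ[K] Conv D X.n X.M Y.M := hh.lin.mk' h
  let h' : Z.M →ₗ[KLRAlg D] Conv D X.n X.M Y.M :=
    ofGens h0
      (fun k i u => by rw [hZ.e]; exact hh.e k i u)
      (fun k u => by rw [hZ.x]; exact hh.x k u)
      (fun k u => by rw [hZ.t]; exact hh.t k u)
  have hh' : ∀ u v, h' (f u v) = Conv.mk D X.n X.M Y.M u v := hfh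
  have h1 : g.comp h' = LinearMap.id := by
    have h2 := (hf.universal Z f hf.strands hf.balanced).unique
      (y₁ := fun u => g (h' u)) (y₂ := fun u => u)
      ⟨isHom_of hZ hZ (g.comp h'), fun u v => by rw [hh', hg]⟩
      ⟨isHom_of hZ hZ LinearMap.id, fun u v => rfl⟩
    ext u
    exact congrFun h2 u
  have h3 : h'.comp g = LinearMap.id := by
    apply Conv.hom_ext
    intro u v
    rw [LinearMap.comp_apply, hg, hh', LinearMap.id_apply]
  exact ⟨LinearEquiv.ofLinearMap g h' h1 h3, hg⟩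

end induced

/-- the module over the KLR algebra -/
@[reducible] noncomputable def modA (X : Mod D) : Module (KLRAlg D) X.M :=
  Module.compHom X.M (X.act : KLRAlg D →+* Module.End K X.M)

theorem towA (X : Mod D) : @IsScalarTower K (KLRAlg D) X.M _ (modA X).toSMul _ :=
  letI := modA X
  { smul_assoc := fun r a u => by
      change X.act (r • a) u = r • X.act a u
      rw [map_smul]
      rfl }

theorem act (X : Mod D) : @Act K I _ _ _ D X (modA X) :=
  letI := modA X
  { e := X.act_e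
    x := X.act_x
    t := X.act_t }

section induced

variable {X Y Z : Mod D} [Module (KLRAlg D) X.M] [IsScalarTower K (KLRAlg D) X.M]
  [Module (KLRAlg D) Y.M] [IsScalarTower K (KLRAlg D) Y.M]
  [Module (KLRAlg D) Z.M] [IsScalarTower K (KLRAlg D) Z.M]

/-- the convolution product is an induced module -/
theorem isInduced_of (hX : Act X) (hY : Act Y) (hZ : Act Z) (hn : Z.n = X.n + Y.n)
    (g : Conv D X.n X.M Y.M ≃ₗ[KLRAlg D] Z.M) :
    IsInduced X Y Z fun u v => g (Conv.mk D X.n X.M Y.M u v) where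
  strands := hn
  balanced := balanced_of hX hY hZ
    ((Conv.mk D X.n X.M Y.M).compr₂ (Conv.toK (g : Conv D X.n X.M Y.M →ₗ[KLRAlg D] Z.M)))
    { left := fun a u v => by
        change D.tr X.n a • g (Conv.mk D X.n X.M Y.M u v) = g (Conv.mk D X.n X.M Y.M (a • u) v)
        rw [← Conv.tr_smul_mk, map_smul]
      right := fun a u v => by
        change D.shn X.n a • g (Conv.mk D X.n X.M Y.M u v) = g (Conv.mk D X.n X.M Y.M u (a • v))
        rw [← Conv.shn_smul_mk, map_smul] }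
  universal W g' hW hg' := by
    let _ := modA W
    let _ := towA W
    have hA : Act W := act W
    let φ : Conv D X.n X.M Y.M →ₗ[KLRAlg D] W.M := Conv.lift (bil hg') (balR hX hY hA hg')
    have hφ : ∀ u v, φ (Conv.mk D X.n X.M Y.M u v) = g' u v := fun u v => Conv.lift_mk _ _ u v
    refine ⟨fun z => φ (g.symm z), ⟨isHom_of hZ hA (φ.comp g.symm.toLinearMap), fun u v => ?_⟩, ?_⟩
    · change φ (g.symm (g (Conv.mk D X.n X.M Y.M u v))) = _
      rw [LinearEquiv.symm_apply_apply, hφ]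
    · rintro h ⟨hh, hfh⟩
      have h1 : (homR hZ hA hh).comp g.toLinearMap = φ := by
        apply Conv.hom_ext
        intro u v
        rw [hφ]
        exact hfh u v
      funext z
      rw [← h1]
      change h z = h (g (g.symm z))
      rw [LinearEquiv.apply_symm_apply]

end induced

/-- the number of strands of a nonzero module is determined by the module -/
theorem n_unique {m n : ℕ} {M N : Type} [AddCommGroup M] [Module (KLRAlg D) M] [AddCommGroup N]
    [Module (KLRAlg D) N] (h : IsStrand D m M) (h' : IsStrand D n N) (f : M ≃ₗ[KLRAlg D] N)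
    {u : M} (hu : u ≠ 0) : m = n := by
  rcases lt_trichotomy m n with hlt | heq | hlt
  · have h1 := h'.one m hlt (f u)
    rw [← map_smul, h.E_smul_zero (le_refl _), map_zero] at h1
    exact absurd ((LinearEquiv.map_eq_zero_iff f).1 h1.symm) hu
  · exact heq
  · have h1 := h.one n hlt u
    have h2 := h'.E_smul_zero (le_refl _) (f u)
    rw [← map_smul, h1] at h2
    exact absurd ((LinearEquiv.map_eq_zero_iff f).1 h2) hu

namespace GMod

variable {X Y Z : GMod D}

theorem isHom_iff (f : X.M → Y.M) :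
    IsHom X.toMod Y.toMod f ↔ ∃ g : X.toG.M →ₗ[KLRAlg D] Y.toG.M, f = g := by
  let _ := modA X.toMod
  let _ := towA X.toMod
  let _ := modA Y.toMod
  let _ := towA Y.toMod
  constructor
  · intro h
    let g : X.M →ₗ[KLRAlg D] Y.M := homR (act X.toMod) (act Y.toMod) h
    exact ⟨g, rfl⟩
  · rintro ⟨g, rfl⟩
    exact isHom_of (act X.toMod) (act Y.toMod) g

theorem shiftIso_toG (h : X.ShiftIso Y) : X.toG.ShiftIso Y.toG := by
  obtain ⟨-, s, f, hb, hf, hd⟩ := h
  obtain ⟨g, rfl⟩ := (isHom_iff f).1 hf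
  exact ⟨s, LinearEquiv.ofBijective g hb, hd⟩

theorem shiftIso_of_toG [Nontrivial X.M] (h : X.toG.ShiftIso Y.toG) : X.ShiftIso Y := by
  obtain ⟨s, f, hd⟩ := h
  obtain ⟨u, hu⟩ := exists_ne (0 : X.M)
  refine ⟨?_, s, f, f.bijective, (isHom_iff (X := X) (Y := Y) f).2 ⟨f.toLinearMap, rfl⟩, hd⟩
  exact n_unique X.toG.strand Y.toG.strand f hu

theorem shiftIso_iff (hX : Nontrivial X.M) : X.ShiftIso Y ↔ X.toG.ShiftIso Y.toG :=
  ⟨shiftIso_toG, shiftIso_of_toG⟩

theorem isConv_toG (h : X.IsConv Y Z) : X.toG.IsConv Y.toG Z.toG := by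
  obtain ⟨s, f, hf, hd⟩ := h
  let _ := modA X.toMod
  let _ := towA X.toMod
  let _ := modA Y.toMod
  let _ := towA Y.toMod
  let _ := modA Z.toMod
  let _ := towA Z.toMod
  obtain ⟨g, hg⟩ := exists_iso (act X.toMod) (act Y.toMod) (act Z.toMod) hf
  refine ⟨s, g, fun a b u v hu hv => ?_⟩
  have h1 : g (Conv.mk D X.n X.M Y.M u v) = f u v := hg u v
  have h2 : f u v ∈ Z.gr (a + b + s) := hd a b u v hu hv
  rw [← h1] at h2
  exact h2

theorem isConv_of_toG [Nontrivial Z.M] (h : X.toG.IsConv Y.toG Z.toG) : X.IsConv Y Z := by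
  obtain ⟨s, g, hd⟩ := h
  let _ := modA X.toMod
  let _ := towA X.toMod
  let _ := modA Y.toMod
  let _ := towA Y.toMod
  let _ := modA Z.toMod
  let _ := towA Z.toMod
  obtain ⟨u, hu⟩ := exists_ne (0 : Z.M)
  have hn : Z.n = X.n + Y.n := by
    refine (n_unique (Conv.isStrand X.toG.strand Y.toG.strand) Z.toG.strand g
      (u := g.symm u) ?_).symm
    intro h0
    exact hu ((LinearEquiv.map_eq_zero_iff g.symm).1 h0)
  exact ⟨s, _, isInduced_of (act X.toMod) (act Y.toMod) (act Z.toMod) hn g, hd⟩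

theorem isConv_iff (hZ : Nontrivial Z.M) : X.IsConv Y Z ↔ X.toG.IsConv Y.toG Z.toG :=
  ⟨isConv_toG, isConv_of_toG⟩

/-- a subspace which is stable under the operators is stable under the algebra -/
theorem act_mem (X : Mod D) (H : Submodule K X.M)
    (he : ∀ k i, ∀ u ∈ H, X.e k i u ∈ H) (hx : ∀ k, ∀ u ∈ H, X.x k u ∈ H)
    (ht : ∀ k, ∀ u ∈ H, X.t k u ∈ H) (a : KLRAlg D) (u : X.M) (hu : u ∈ H) : X.act a u ∈ H := by
  induction a using KLRAlg.induction generalizing u with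
  | hs r =>
    rw [AlgHom.commutes, Module.algebraMap_end_apply]
    exact H.smul_mem r hu
  | he k i => rw [X.act_e]; exact he k i u hu
  | hx k => rw [X.act_x]; exact hx k u hu
  | ht k => rw [X.act_t]; exact ht k u hu
  | hadd a b ha hb => rw [map_add, LinearMap.add_apply]; exact H.add_mem (ha u hu) (hb u hu)
  | hmul a b ha hb => rw [map_mul, Module.End.mul_apply]; exact ha _ (hb u hu)

/-- a subspace which is stable under the operators is a submodule -/
noncomputable def subR (X : GMod D) (H : Submodule K X.M)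
    (he : ∀ k i, ∀ u ∈ H, X.e k i u ∈ H) (hx : ∀ k, ∀ u ∈ H, X.x k u ∈ H)
    (ht : ∀ k, ∀ u ∈ H, X.t k u ∈ H) : Submodule (KLRAlg D) X.toG.M where
  carrier := (H : Set X.M)
  add_mem' hu hv := H.add_mem hu hv
  zero_mem' := H.zero_mem
  smul_mem' a u hu := act_mem X.toMod H he hx ht a u hu

theorem mem_subR (X : GMod D) (H : Submodule K X.M) (he hx ht) (u : X.M) :
    u ∈ (subR X H he hx ht : Set X.toG.M) ↔ u ∈ H := Iff.rfl

theorem irr_of_toG (h : X.toG.Irr) : X.Irr where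
  nontrivial := h.nontrivial
  simple N he hx ht hgr := by
    have hN : X.toG.IsGraded (subR X N he hx ht) := by
      intro u hu
      let S : Submodule (KLRAlg D) X.toG.M :=
        Submodule.span (KLRAlg D) {v | v ∈ subR X N he hx ht ∧ ∃ d, v ∈ X.toG.gr d}
      have hu' : u ∈ ⨆ d, N ⊓ X.gr d := hgr hu
      let S' : Submodule K X.M := (S.restrictScalars K : Submodule K X.toG.M)
      have hv : ∀ v : X.toG.M, v ∈ subR X N he hx ht → (∃ d, v ∈ X.toG.gr d) → v ∈ S :=
        fun v h1 h2 => Submodule.subset_span ⟨h1, h2⟩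
      have hS : (⨆ d, N ⊓ X.gr d) ≤ S' := iSup_le fun d v h1 => hv v h1.1 ⟨d, h1.2⟩
      exact hS hu'
    rcases h.simple _ hN with h0 | h1
    · left
      rw [Submodule.eq_bot_iff] at h0 ⊢
      exact h0
    · right
      rw [Submodule.eq_top_iff'] at h1 ⊢
      exact h1

theorem irr_toG (h : X.Irr) : X.toG.Irr where
  nontrivial := h.nontrivial
  simple N hN := by
    let N' : Submodule K X.M := N.restrictScalars K
    have hNe : ∀ k i, ∀ u ∈ N', X.e k i u ∈ N' := by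
      intro k i u hu
      rw [← X.toG_e]
      exact N.smul_mem _ hu
    have hNx : ∀ k, ∀ u ∈ N', X.x k u ∈ N' := by
      intro k u hu
      rw [← X.toG_x]
      exact N.smul_mem _ hu
    have hNt : ∀ k, ∀ u ∈ N', X.t k u ∈ N' := by
      intro k u hu
      rw [← X.toG_t]
      exact N.smul_mem _ hu
    let H : Submodule K X.M := ⨆ d, N' ⊓ X.gr d
    have hle : ∀ d, N' ⊓ X.gr d ≤ H := fun d => le_iSup (fun d => N' ⊓ X.gr d) d
    have hHe : ∀ k i, ∀ u ∈ H, X.e k i u ∈ H := by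
      intro k i
      have : H ≤ H.comap (X.eL k i) := by
        refine iSup_le fun d u hu => ?_
        exact hle d ⟨hNe k i u hu.1, X.e_gr k i d u hu.2⟩
      exact this
    have hHx : ∀ k, ∀ u ∈ H, X.x k u ∈ H := by
      intro k
      by_cases hk : k < X.n
      · have : H ≤ H.comap (X.xL k) := by
          refine iSup_le fun d u hu => ?_
          change X.xL k u ∈ H
          rw [← X.sum_e k u hk, map_sum]
          refine Submodule.sum_mem _ fun i _ => ?_
          exact hle (d + 2 * D.d i) ⟨hNx k _ (hNe k i u hu.1),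
            X.x_gr k i d _ (X.e_gr _ _ _ _ hu.2) (X.e_idem _ _ _)⟩
        exact this
      · intro u _
        rw [X.x_out k u (by omega)]
        exact H.zero_mem
    have hHt : ∀ k, ∀ u ∈ H, X.t k u ∈ H := by
      intro k
      by_cases hk : k + 1 < X.n
      · have : H ≤ H.comap (X.tL k) := by
          refine iSup_le fun d u hu => ?_
          change X.tL k u ∈ H
          rw [← X.sum_e (k + 1) u hk, map_sum]
          refine Submodule.sum_mem _ fun j _ => ?_
          rw [← X.sum_e k (X.e (k + 1) j u) (by omega), map_sum]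
          refine Submodule.sum_mem _ fun i _ => ?_
          refine hle (d - D.d i * D.A i j) ⟨hNt k _ (hNe k i _ (hNe (k + 1) j u hu.1)),
            X.t_gr k i j d _ (X.e_gr _ _ _ _ (X.e_gr _ _ _ _ hu.2)) (X.e_idem _ _ _) ?_⟩
          rw [X.ee_comm, X.e_idem]
        exact this
      · intro u _
        rw [X.t_out k u (by omega)]
        exact H.zero_mem
    have hgr : N' ≤ H := by
      intro u hu
      have h1 : Submodule.span (KLRAlg D) {v | v ∈ N ∧ ∃ d, v ∈ X.toG.gr d} ≤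
          subR X H hHe hHx hHt := by
        rw [Submodule.span_le]
        rintro v ⟨hv, d, hd⟩
        exact hle d ⟨hv, hd⟩
      exact h1 (hN hu)
    rcases h.simple N' hNe hNx hNt hgr with h0 | h1
    · left
      rw [Submodule.eq_bot_iff] at h0 ⊢
      exact h0
    · right
      rw [Submodule.eq_top_iff'] at h1 ⊢
      exact h1

theorem irr_iff : X.Irr ↔ X.toG.Irr := ⟨irr_toG, irr_of_toG⟩

end GMod

omit [Fintype I] [DecidableEq I] in
theorem powWord_eq (w : List I) (a : List ℕ) : St.powWord w a = KLS.powWord w a := by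
  induction w generalizing a with
  | nil => rfl
  | cons i w ih =>
    cases a with
    | nil => rfl
    | cons b a => exact congrArg _ (ih a)

namespace GMod

variable {X : GMod D}

theorem adapted_iff (w : List I) : X.Adapted w ↔ X.toG.Adapted w := by
  unfold GMod.Adapted KLS.GMod.Adapted
  refine exists_congr fun a => and_congr Iff.rfl ?_
  rw [powWord_eq]
  refine and_congr Iff.rfl ?_
  rw [Datum.exists_eW_smul_ne]
  refine exists_congr fun u => and_congr Iff.rfl ?_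
  refine forall_congr' fun k => forall_congr' fun i => forall_congr' fun _ => ?_
  rw [X.toG_e]
  exact Iff.rfl

end GMod

/-! ### the two kinds of modules correspond to each other -/

theorem mk_congr {n : ℕ} {M : Type} {acg : AddCommGroup M} {modK : Module K M}
    {m m' : Module (KLRAlg D) M} (h : m = m') {fd : FiniteDimensional K M} {gr : ℤ → Submodule K M}
    {internal : DirectSum.IsInternal gr} {tow strand e x t tow' strand' e' x' t'} :
    @KLS.GMod.mk K I _ _ _ D n M acg modK m tow strand fd gr internal e x t =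
      @KLS.GMod.mk K I _ _ _ D n M acg modK m' tow' strand' fd gr internal e' x' t' := by
  subst h
  rfl

theorem act_ofM {n : ℕ} {M : Type} [AddCommGroup M] [Module K M] [Module (KLRAlg D) M]
    [IsScalarTower K (KLRAlg D) M] (h : IsStrand D n M) (a : KLRAlg D) (u : M) :
    (ofM h).act a u = a • u := by
  induction a using KLRAlg.induction generalizing u with
  | hs r =>
    rw [AlgHom.commutes, algebraMap_smul]
    rfl
  | he k i => exact (ofM h).act_e k i u
  | hx k => exact (ofM h).act_x k u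
  | ht k => exact (ofM h).act_t k u
  | hadd a b ha hb => rw [add_smul, ← ha, ← hb, map_add]; rfl
  | hmul a b ha hb =>
    rw [mul_smul, map_mul]
    exact (ha _).trans (congrArg _ (hb u))

theorem toG_ofG (X : KLS.GMod D) : (ofG X).toG = X := by
  have h : (ofG X).toG.modR = X.modR := by
    refine Module.ext' _ _ fun a u => ?_
    exact act_ofM X.strand a u
  exact mk_congr h

theorem gmod_congr {n : ℕ} {M : Type} {acg : AddCommGroup M} {modK : Module K M}
    {e e' : ℕ → I → M → M} {x x' t t' : ℕ → M → M} (he : e = e') (hx : x = x') (ht : t = t')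
    {a1 a2 a3 a4 a5 a6 a7 a8 a9 a10 a11 a12 a13 a14 a15 a16 a17 a18 a19 a20
      b1 b2 b3 b4 b5 b6 b7 b8 b9 b10 b11 b12 b13 b14 b15 b16 b17 b18 b19 b20}
    {fin : Module.Finite K M} {gr : ℤ → Submodule K M}
    {internal : DirectSum.IsInternal gr} {c1 c2 c3 d1 d2 d3} :
    @GMod.mk K I _ _ _ D (@Mod.mk K I _ _ _ D n M acg modK e x t a1 a2 a3 a4 a5 a6 a7 a8 a9 a10
      a11 a12 a13 a14 a15 a16 a17 a18 a19 a20) fin gr internal c1 c2 c3 =
    @GMod.mk K I _ _ _ D (@Mod.mk K I _ _ _ D n M acg modK e' x' t' b1 b2 b3 b4 b5 b6 b7 b8 b9 b10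
      b11 b12 b13 b14 b15 b16 b17 b18 b19 b20) fin gr internal d1 d2 d3 := by
  subst he hx ht
  rfl

theorem ofG_toG (X : GMod D) : ofG X.toG = X := by
  have he : (ofG X.toG).e = X.e := by
    funext k i u
    exact X.act_e k i u
  have hx : (ofG X.toG).x = X.x := by
    funext k u
    exact X.act_x k u
  have ht : (ofG X.toG).t = X.t := by
    funext k u
    exact X.act_t k u
  obtain ⟨⟨⟩⟩ := X
  exact gmod_congr he hx ht

theorem toG_ofG_iso (X : KLS.GMod D) : Nonempty ((ofG X).toG.M ≃ₗ[KLRAlg D] X.M) := by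
  rw [toG_ofG]
  exact ⟨LinearEquiv.refl _ _⟩

theorem toG_injective : Function.Injective (GMod.toG : GMod D → KLS.GMod D) :=
  Function.LeftInverse.injective ofG_toG

theorem toG_surjective : Function.Surjective (GMod.toG : GMod D → KLS.GMod D) :=
  fun X => ⟨ofG X, toG_ofG X⟩

end Pool.Agent.KLS.St

end
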