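import Pool.Agent.Work.MP_e487d8_al.Bd.B37
import Pool.Agent.Work.MP_e487d8_al.Bd.B05
import Pool.Agent.Work.MP_e487d8_al.Bd.B34
import Pool.Agent.Work.MP_e487d8_al.Bd.B36
import Pool.Agent.Work.MP_e487d8_al.Bd.B11
import Pool.Agent.Work.MP_e487d8_al.Y.Fin.Need

/-! Bundle of small proof modules (one section per former module). -/

section

/-! MP_e487d8_al, part 3 (freeness), complete. -/

set_option autoImplicit false

namespace Pool.Agent.KLT

variable {I S O : Type} [DecidableEq I] [CommRing O] [Algebra ℚ O] [IsDomain O] (D : Pre I S O)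

theorem facts (hi : D.Inp) : D.Facts := by
  have h := I_DLF D
  have h5 := I_C5 D h
  obtain ⟨hm, hp⟩ := I_DLM D h h5
  have hl := I_LAM D h
  have hc := I_CAN D
  have hn := I_NOR D hi h hp hl hc
  have hg := I_GEN D hi
  have hf := I_FEX D hi
  have h3 := I_D3 D hi h h5 hp hn hg hf
  have hmu := I_MULT D hi
  have ht1 := I_TOP1 D hi h h5 hp hl hmu
  have ht2 := I_TOP2 D hi
  exact ⟨hi, h, hp, I_EXT D (I_EXH D hi h h5 hp hl), hg, hf, I_ZORN D, h3, I_HAT D h h5 hp,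
    I_TOPF D hi ht1 ht2, ht2, I_HF D hi h h5 hp h3, I_CMP D h hp hn, (I_HOM D).1, (I_HOM D).2⟩

/-- the factor theorem -/
theorem factorThm (hi : D.Inp) (hi' : D.op.Inp) : D.StF := Pre.thmF (facts D hi) (facts D.op hi')

/-- the abstract form of the result: maximal families are free on exactly `m` atoms -/
theorem freeness [UniqueFactorizationMonoid O] (hi : D.Inp) (hi' : D.op.Inp) (w : List I)
    (hw : Reduced D.A w) (L : Set S) (hL : Pre.IsMaxFam D w L) :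
    (Pre.Atoms D L).Finite ∧ (Pre.Atoms D L).ncard = w.length ∧
      Pre.Generates D L (Pre.Atoms D L) ∧
      (∀ P, P ⊆ L → Pre.Generates D L P → Pre.Atoms D L ⊆ P) ∧
      ∀ s t : Multiset S, (∀ X ∈ s, X ∈ Pre.Atoms D L) → (∀ X ∈ t, X ∈ Pre.Atoms D L) →
        (s.map D.b).prod = (t.map D.b).prod → s = t :=
  Pre.final D ⟨(I_HOM D).1, factorThm D hi hi'⟩ hi.full w hw L hL

end Pool.Agent.KLT

end

section

/-! MP_e487d8_al, PBW block: the crossing data of a `Loc` satisfy the formal rules `Cross`, and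
the error terms of the braid relation. -/

set_option autoImplicit false

namespace Pool.Agent.KLS

variable {K I : Type} [Field K] [Fintype I] [DecidableEq I]

namespace Pbw

variable {D : Datum K I} {P : Type} [AddCommGroup P] [Module K P]

/-- recursion for the geometric sum -/
theorem gs_succ {B : Type*} [Ring B] {x y : B} (h : Commute x y) (n : ℕ) :
    ∑ p ∈ Finset.range (n + 1), x ^ p * y ^ (n + 1 - 1 - p) =
      y ^ n + (∑ p ∈ Finset.range n, x ^ p * y ^ (n - 1 - p)) * x := by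
  rw [Finset.sum_range_succ', Finset.sum_mul, add_comm]
  congr 1
  · simp
  · refine Finset.sum_congr rfl fun p _ => ?_
    rw [mul_assoc, ← (h.pow_right _).eq, ← mul_assoc, ← pow_succ]
    congr 2
    omega

theorem gs_succ' {B : Type*} [Ring B] {x y : B} (n : ℕ) :
    ∑ p ∈ Finset.range (n + 1), x ^ p * y ^ (n + 1 - 1 - p) =
      x ^ n + (∑ p ∈ Finset.range n, x ^ p * y ^ (n - 1 - p)) * y := by
  rw [Finset.sum_range_succ, Finset.sum_mul, add_comm]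
  congr 1
  · simp
  · refine Finset.sum_congr rfl fun p hp => ?_
    rw [mul_assoc, ← pow_succ]
    congr 2
    have := Finset.mem_range.1 hp
    omega

namespace Loc

section

variable (d : Loc D P)

/-- the crossing of the first two strands of the first kind -/
noncomputable def tt : Module.End K P := d.r1 (D.t 0)
/-- `x i - y 0` -/
noncomputable def xy (i : ℕ) : Module.End K P := d.r1 (D.x i) - d.r2 (D.x 0)
/-- the strands 0, 1 of the first kind have the same colour -/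
noncomputable def dl : Module.End K P := ∑ c, d.r1 (D.e 0 c) * d.r1 (D.e 1 c)
/-- geometric sum -/
noncomputable def gs (n : ℕ) : Module.End K P :=
  ∑ p ∈ Finset.range n, d.r1 (D.x 0) ^ p * d.r1 (D.x 1) ^ (n - 1 - p)
/-- idempotent -/
noncomputable def ee (i : ℕ) (c c' : I) : Module.End K P := d.r1 (D.e i c) * d.r2 (D.e 0 c')
/-- the quotient of differences -/
noncomputable def qd (c c' : I) : Module.End K P :=
  D.QD c c' (d.r1 (D.x 0)) (d.r1 (D.x 1)) (d.r2 (D.x 0))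
/-- the error term -/
noncomputable def th : Module.End K P :=
  ∑ c, ∑ c', if c = c' then 0 else d.qd c c' * (d.dl * d.ee 0 c c')

theorem dg_xy (i : ℕ) : d.Dg (d.xy i) := (Dg.rx1 d i).sub (Dg.rx2 d 0)
theorem dg_dl : d.Dg d.dl := Dg.sum _ _ fun c _ => (Dg.re1 d 0 c).mul (Dg.re1 d 1 c)
theorem dg_gs (n : ℕ) : d.Dg (d.gs n) :=
  Dg.sum _ _ fun _ _ => ((Dg.rx1 d 0).pow _).mul ((Dg.rx1 d 1).pow _)
theorem dg_qd (c c' : I) : d.Dg (d.qd c c') :=
  Dg.QD (Dg.rx1 d 0) (Dg.rx1 d 1) (Dg.rx2 d 0) c c'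
theorem dg_ee (i : ℕ) (c c' : I) : d.Dg (d.ee i c c') := (Dg.re1 d i c).mul (Dg.re2 d 0 c')
theorem dg_th : d.Dg d.th :=
  Dg.sum _ _ fun c _ => Dg.sum _ _ fun c' _ => by
    split_ifs
    · exact Dg.zero
    · exact (d.dg_qd _ _).mul (d.dg_dl.mul (d.dg_ee _ _ _))

theorem Dg.cxy {g : Module.End K P} (hg : d.Dg g) (i : ℕ) : g * d.xy i = d.xy i * g := hg.x12 i 0
theorem Dg.cee {g : Module.End K P} (hg : d.Dg g) (i : ℕ) (c c' : I) :
    g * d.ee i c c' = d.ee i c c' * g := by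
  unfold ee
  rw [← mul_assoc, hg.e1, mul_assoc, hg.e2, mul_assoc]
theorem Dg.cdl {g : Module.End K P} (hg : d.Dg g) : g * d.dl = d.dl * g := by
  unfold dl
  rw [Finset.mul_sum, Finset.sum_mul]
  refine Finset.sum_congr rfl fun c _ => ?_
  rw [← mul_assoc, hg.e1, mul_assoc, hg.e1, mul_assoc]
theorem Dg.cpow {g h : Module.End K P} (hh : g * h = h * g) (n : ℕ) : g * h ^ n = h ^ n * g :=
  (show Commute g h from hh).pow_right n
theorem Dg.cqd {g : Module.End K P} (hg : d.Dg g) (c c' : I) :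
    g * d.qd c c' = d.qd c c' * g :=
  Datum.QD_semi (hg.x1 0) (hg.x1 1) (hg.x2 0)

theorem dl_eq : d.dl = d.r1 (D.dl 0) := by
  unfold dl Datum.dl
  rw [map_sum]
  exact Finset.sum_congr rfl fun c _ => (map_mul _ _ _).symm

theorem E_idem (k : ℕ) : D.E k * D.E k = D.E k := by
  conv_lhs => lhs; unfold Datum.E
  rw [Finset.sum_mul]
  conv_rhs => unfold Datum.E
  exact Finset.sum_congr rfl fun c _ => D.e_E k c

theorem t_xy0 : d.tt * d.xy 0 = d.xy 1 * d.tt - d.dl := by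
  unfold tt xy
  rw [mul_sub, sub_mul, ← map_mul, D.t_x0, map_sub, map_mul, d.comm, dl_eq]
  abel

theorem t_xy1 : d.tt * d.xy 1 = d.xy 0 * d.tt + d.dl := by
  unfold tt xy
  rw [mul_sub, sub_mul, ← map_mul, D.t_x1, map_add, map_mul, d.comm, dl_eq]
  abel

theorem tt_E (i : ℕ) (hi : i = 0 ∨ i = 1) : d.tt * d.r1 (D.E i) = d.tt := by
  unfold tt
  rw [← map_mul]
  rcases hi with rfl | rfl
  · rw [D.t_E]
  · rw [D.t_E' 0]

theorem E_tt (i : ℕ) (hi : i = 0 ∨ i = 1) : d.r1 (D.E i) * d.tt = d.tt := by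
  rw [← d.tt_E i hi]
  unfold tt
  rw [← map_mul, ← map_mul, ← mul_assoc, D.E_comm, mul_assoc, E_idem]

theorem v_E1 (i j : ℕ) : d.v i j * d.r1 (D.E i) = d.v i j := by
  conv_lhs => rw [← d.v_E]
  rw [d.comm, ← mul_assoc, mul_assoc (d.v i j * _), ← map_mul, E_idem, mul_assoc, ← d.comm, d.v_E]
theorem v_E2 (i j : ℕ) : d.v i j * d.r2 (D.E j) = d.v i j := by
  conv_lhs => rw [← d.v_E]
  rw [← mul_assoc, mul_assoc (d.v i j * _), ← map_mul, E_idem, mul_assoc, d.v_E]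
theorem E2_v (i j : ℕ) : d.r2 (D.E j) * d.v i j = d.v i j := by
  rw [← (Dg.dv d i j).cE2, v_E2]
theorem E1_v (i j : ℕ) : d.r1 (D.E i) * d.v i j = d.v i j := by
  rw [← (Dg.dv d i j).cE1, v_E1]

/-- the basic relation, multiplied by the inverses -/
theorem t_v0 : d.tt * d.v 0 0 = d.v 1 0 * d.tt + d.v 1 0 * d.v 0 0 * d.dl := by
  have h := congrArg (fun z => d.v 1 0 * z * d.v 0 0) d.t_xy0
  simp only [mul_sub, sub_mul] at h
  have h1 : d.v 1 0 * (d.tt * d.xy 0) * d.v 0 0 = d.v 1 0 * d.tt := by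
    have h2 : d.xy 0 * d.v 0 0 = d.r1 (D.E 0) * d.r2 (D.E 0) := d.mul_v 0 0
    have h3 : d.tt * d.r2 (D.E 0) = d.r2 (D.E 0) * d.tt := d.comm _ _
    rw [mul_assoc, mul_assoc, h2, ← mul_assoc d.tt, d.tt_E 0 (Or.inl rfl), h3, ← mul_assoc,
      d.v_E2]
  have h4 : d.v 1 0 * (d.xy 1 * d.tt) * d.v 0 0 = d.tt * d.v 0 0 := by
    have h2 : d.v 1 0 * d.xy 1 = d.r1 (D.E 1) * d.r2 (D.E 0) := d.v_mul 1 0
    have h3 : d.tt * d.r2 (D.E 0) = d.r2 (D.E 0) * d.tt := d.comm _ _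
    rw [← mul_assoc, h2, mul_assoc (d.r1 _), ← h3, ← mul_assoc (d.r1 _), d.E_tt 1 (Or.inr rfl),
      mul_assoc, d.E2_v]
  rw [h1, h4, mul_assoc (d.v 1 0) d.dl, ← (Dg.dv d 0 0).cdl, ← mul_assoc] at h
  rw [h]; abel

theorem t_v1 : d.tt * d.v 1 0 = d.v 0 0 * d.tt - d.v 0 0 * d.v 1 0 * d.dl := by
  have h := congrArg (fun z => d.v 0 0 * z * d.v 1 0) d.t_xy1
  simp only [mul_add, add_mul] at h
  have h1 : d.v 0 0 * (d.tt * d.xy 1) * d.v 1 0 = d.v 0 0 * d.tt := by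
    have h2 : d.xy 1 * d.v 1 0 = d.r1 (D.E 1) * d.r2 (D.E 0) := d.mul_v 1 0
    have h3 : d.tt * d.r2 (D.E 0) = d.r2 (D.E 0) * d.tt := d.comm _ _
    rw [mul_assoc, mul_assoc, h2, ← mul_assoc d.tt, d.tt_E 1 (Or.inr rfl), h3, ← mul_assoc,
      d.v_E2]
  have h4 : d.v 0 0 * (d.xy 0 * d.tt) * d.v 1 0 = d.tt * d.v 1 0 := by
    have h2 : d.v 0 0 * d.xy 0 = d.r1 (D.E 0) * d.r2 (D.E 0) := d.v_mul 0 0
    have h3 : d.tt * d.r2 (D.E 0) = d.r2 (D.E 0) * d.tt := d.comm _ _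
    rw [← mul_assoc, h2, mul_assoc (d.r1 _), ← h3, ← mul_assoc (d.r1 _), d.E_tt 0 (Or.inl rfl),
      mul_assoc, d.E2_v]
  rw [h1, h4, mul_assoc (d.v 0 0) d.dl, ← (Dg.dv d 1 0).cdl, ← mul_assoc] at h
  rw [h]; abel

theorem t_e0 (c : I) : d.tt * d.r1 (D.e 0 c) = d.r1 (D.e 1 c) * d.tt := by
  unfold tt
  rw [← map_mul, D.t_e0 0 c, map_mul]
theorem t_e1 (c : I) : d.tt * d.r1 (D.e 1 c) = d.r1 (D.e 0 c) * d.tt := by
  unfold tt
  rw [← map_mul, D.t_e1 0 c, map_mul]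
theorem t_ee0 (c c' : I) : d.tt * d.ee 0 c c' = d.ee 1 c c' * d.tt := by
  unfold ee
  rw [← mul_assoc, d.t_e0, mul_assoc, show d.tt * d.r2 (D.e 0 c') = d.r2 (D.e 0 c') * d.tt from
    d.comm _ _, mul_assoc]
theorem t_ee1 (c c' : I) : d.tt * d.ee 1 c c' = d.ee 0 c c' * d.tt := by
  unfold ee
  rw [← mul_assoc, d.t_e1, mul_assoc, show d.tt * d.r2 (D.e 0 c') = d.r2 (D.e 0 c') * d.tt from
    d.comm _ _, mul_assoc]

theorem t_dd0 : d.tt * d.dd 0 0 = d.dd 1 0 * d.tt := by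
  unfold dd
  rw [Finset.mul_sum, Finset.sum_mul]
  exact Finset.sum_congr rfl fun c _ => d.t_ee0 c c
theorem t_dd1 : d.tt * d.dd 1 0 = d.dd 0 0 * d.tt := by
  unfold dd
  rw [Finset.mul_sum, Finset.sum_mul]
  exact Finset.sum_congr rfl fun c _ => d.t_ee1 c c
theorem t_nn0 : d.tt * d.nn 0 0 = d.nn 1 0 * d.tt := by
  unfold nn
  rw [Finset.mul_sum, Finset.sum_mul]
  refine Finset.sum_congr rfl fun c _ => ?_
  rw [Finset.mul_sum, Finset.sum_mul]
  refine Finset.sum_congr rfl fun c' _ => ?_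
  split_ifs
  · rw [mul_zero, zero_mul]
  · exact d.t_ee0 c c'
theorem t_nn1 : d.tt * d.nn 1 0 = d.nn 0 0 * d.tt := by
  unfold nn
  rw [Finset.mul_sum, Finset.sum_mul]
  refine Finset.sum_congr rfl fun c _ => ?_
  rw [Finset.mul_sum, Finset.sum_mul]
  refine Finset.sum_congr rfl fun c' _ => ?_
  split_ifs
  · rw [mul_zero, zero_mul]
  · exact d.t_ee1 c c'

theorem dd0_dl : d.dd 0 0 * d.dl = d.dd 0 0 * d.dd 1 0 := by
  conv_lhs => rhs; unfold dl
  conv_rhs => rhs; unfold dd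
  rw [Finset.mul_sum, Finset.mul_sum]
  refine Finset.sum_congr rfl fun c _ => ?_
  rw [← mul_assoc, d.dd_e, mul_assoc, ← d.comm]
theorem dd1_dl : d.dd 1 0 * d.dl = d.dd 0 0 * d.dd 1 0 := by
  rw [(Dg.dD d 0 0).cD]
  conv_lhs => rhs; unfold dl
  conv_rhs => rhs; unfold dd
  rw [Finset.mul_sum, Finset.mul_sum]
  refine Finset.sum_congr rfl fun c _ => ?_
  rw [← map_mul, D.e_comm, map_mul, ← mul_assoc, d.dd_e, mul_assoc, ← d.comm]

theorem t_A0 : d.tt * d.A 0 0 = d.A 1 0 * d.tt + d.A 0 0 * d.A 1 0 := by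
  have h : d.A 0 0 * d.A 1 0 = d.v 1 0 * d.v 0 0 * d.dl * d.dd 0 0 := by
    unfold A
    rw [mul_assoc (d.v 1 0 * d.v 0 0), ← (Dg.dD d 0 0).cdl, dd0_dl, mul_assoc (d.v 0 0),
      ← mul_assoc (d.dd 0 0), (Dg.dD d 0 0).cv, mul_assoc (d.v 1 0), ← mul_assoc (d.v 0 0),
      (Dg.dv d 0 0).cv]
  rw [h]
  unfold A
  rw [← mul_assoc, t_v0, add_mul, mul_assoc (d.v 1 0) d.tt, t_dd0]
  simp only [mul_assoc]

theorem t_A1 : d.tt * d.A 1 0 = d.A 0 0 * d.tt - d.A 0 0 * d.A 1 0 := by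
  have h : d.A 0 0 * d.A 1 0 = d.v 0 0 * d.v 1 0 * d.dl * d.dd 1 0 := by
    unfold A
    rw [mul_assoc (d.v 0 0 * d.v 1 0), ← (Dg.dD d 1 0).cdl, dd1_dl, mul_assoc (d.v 0 0),
      ← mul_assoc (d.dd 0 0), (Dg.dD d 0 0).cv, mul_assoc (d.v 1 0), ← mul_assoc (d.v 0 0)]
  rw [h]
  unfold A
  rw [← mul_assoc, t_v1, sub_mul, mul_assoc (d.v 0 0) d.tt, t_dd1]
  simp only [mul_assoc]

theorem gs_zero : d.gs 0 = 0 := rfl
theorem gs_s (n : ℕ) : d.gs (n + 1) = d.r1 (D.x 1) ^ n + d.gs n * d.r1 (D.x 0) :=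
  gs_succ (x := d.r1 (D.x 0)) (y := d.r1 (D.x 1)) ((Dg.rx1 d 0).x1 1) n
theorem gs_s' (n : ℕ) : d.gs (n + 1) = d.r1 (D.x 0) ^ n + d.gs n * d.r1 (D.x 1) :=
  gs_succ' (x := d.r1 (D.x 0)) (y := d.r1 (D.x 1)) n

theorem t_X0 : d.tt * d.r1 (D.x 0) = d.r1 (D.x 1) * d.tt - d.dl := by
  unfold tt
  rw [← map_mul, D.t_x0, map_sub, map_mul, dl_eq]

theorem t_X1 : d.tt * d.r1 (D.x 1) = d.r1 (D.x 0) * d.tt + d.dl := by
  unfold tt
  rw [← map_mul, D.t_x1, map_add, map_mul, dl_eq]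

theorem t_pow0 (n : ℕ) :
    d.tt * d.r1 (D.x 0) ^ n = d.r1 (D.x 1) ^ n * d.tt - d.dl * d.gs n := by
  induction n with
  | zero => rw [gs_zero, pow_zero, pow_zero, mul_zero, mul_one, one_mul, sub_zero]
  | succ n ih =>
    rw [pow_succ, ← mul_assoc, ih, sub_mul, mul_assoc, t_X0, mul_sub, ← mul_assoc, ← pow_succ,
      gs_s, mul_add, ((Dg.rx1 d 1).pow n).cdl, mul_assoc d.dl]
    abel
theorem t_pow1 (n : ℕ) :
    d.tt * d.r1 (D.x 1) ^ n = d.r1 (D.x 0) ^ n * d.tt + d.dl * d.gs n := by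
  induction n with
  | zero => rw [gs_zero, pow_zero, pow_zero, mul_zero, mul_one, one_mul, add_zero]
  | succ n ih =>
    rw [pow_succ, ← mul_assoc, ih, add_mul, mul_assoc, t_X1, mul_add, ← mul_assoc, ← pow_succ,
      gs_s', mul_add, ((Dg.rx1 d 0).pow n).cdl, mul_assoc d.dl]
    abel

theorem qd_def (c c' : I) : d.qd c c' = ∑ p ∈ Finset.range (D.nq c c' + 1),
    ∑ q ∈ Finset.range (D.nq c' c + 1), D.Q c c' p q • (d.gs p * d.r2 (D.x 0) ^ q) := rfl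

theorem t_QE0 (c c' : I) : d.tt * D.QE c c' (d.r1 (D.x 0)) (d.r2 (D.x 0)) =
    D.QE c c' (d.r1 (D.x 1)) (d.r2 (D.x 0)) * d.tt - d.dl * d.qd c c' := by
  rw [qd_def, Datum.QE, Datum.QE, Finset.mul_sum, Finset.sum_mul, Finset.mul_sum,
    ← Finset.sum_sub_distrib]
  refine Finset.sum_congr rfl fun p _ => ?_
  rw [Finset.mul_sum, Finset.sum_mul, Finset.mul_sum, ← Finset.sum_sub_distrib]
  refine Finset.sum_congr rfl fun q _ => ?_
  have h : d.tt * d.r2 (D.x 0) ^ q = d.r2 (D.x 0) ^ q * d.tt := Dg.cpow (d.comm _ _) q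
  rw [mul_smul_comm, smul_mul_assoc, mul_smul_comm, ← smul_sub, ← mul_assoc, t_pow0, sub_mul,
    mul_assoc _ d.tt, h, mul_assoc d.dl, ← mul_assoc]

theorem t_QE1 (c c' : I) : d.tt * D.QE c c' (d.r1 (D.x 1)) (d.r2 (D.x 0)) =
    D.QE c c' (d.r1 (D.x 0)) (d.r2 (D.x 0)) * d.tt + d.dl * d.qd c c' := by
  rw [qd_def, Datum.QE, Datum.QE, Finset.mul_sum, Finset.sum_mul, Finset.mul_sum,
    ← Finset.sum_add_distrib]
  refine Finset.sum_congr rfl fun p _ => ?_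
  rw [Finset.mul_sum, Finset.sum_mul, Finset.mul_sum, ← Finset.sum_add_distrib]
  refine Finset.sum_congr rfl fun q _ => ?_
  have h : d.tt * d.r2 (D.x 0) ^ q = d.r2 (D.x 0) ^ q * d.tt := Dg.cpow (d.comm _ _) q
  rw [mul_smul_comm, smul_mul_assoc, mul_smul_comm, ← smul_add, ← mul_assoc, t_pow1, add_mul,
    mul_assoc _ d.tt, h, mul_assoc d.dl, ← mul_assoc]

theorem dl_e0 (c : I) : d.dl * d.r1 (D.e 0 c) = d.r1 (D.e 0 c) * d.r1 (D.e 1 c) := by
  unfold dl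
  rw [Finset.sum_mul, Finset.sum_eq_single c]
  · rw [← map_mul, ← map_mul, mul_assoc, D.e_comm 1 0, ← mul_assoc, D.e_idem]
  · intro b _ hb
    rw [← map_mul, ← map_mul, mul_assoc, D.e_comm 1 0, ← mul_assoc, D.e_mul_e_ne _ hb, zero_mul,
      map_zero]
  · intro h; exact absurd (Finset.mem_univ _) h

theorem dl_e1 (c : I) : d.dl * d.r1 (D.e 1 c) = d.r1 (D.e 0 c) * d.r1 (D.e 1 c) := by
  unfold dl
  rw [Finset.sum_mul, Finset.sum_eq_single c]
  · rw [← map_mul, ← map_mul, mul_assoc, D.e_idem]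
  · intro b _ hb
    rw [← map_mul, ← map_mul, mul_assoc, D.e_mul_e_ne _ hb, mul_zero, map_zero]
  · intro h; exact absurd (Finset.mem_univ _) h

theorem dl_ee (c c' : I) : d.dl * d.ee 1 c c' = d.dl * d.ee 0 c c' := by
  unfold ee
  rw [← mul_assoc, dl_e1, ← dl_e0, mul_assoc]

theorem dl_ee' (c c' : I) : d.dl * d.ee 0 c c' = d.r1 (D.e 0 c) * d.r2 (D.e 0 c') *
    d.r1 (D.e 1 c) := by
  unfold ee
  rw [← mul_assoc, dl_e0, mul_assoc, d.comm, mul_assoc]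

/-- the coefficient sums -/
theorem qq_eq (i : ℕ) : d.qq i 0 = ∑ c, ∑ c', if c = c' then 0 else
    D.QE c c' (d.r1 (D.x i)) (d.r2 (D.x 0)) * d.ee i c c' := rfl

theorem t_qq0 : d.tt * d.qq 0 0 = d.qq 1 0 * d.tt - d.th := by
  rw [qq_eq, qq_eq, th, Finset.mul_sum, Finset.sum_mul, ← Finset.sum_sub_distrib]
  refine Finset.sum_congr rfl fun c _ => ?_
  rw [Finset.mul_sum, Finset.sum_mul, ← Finset.sum_sub_distrib]
  refine Finset.sum_congr rfl fun c' _ => ?_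
  split_ifs with h
  · rw [mul_zero, zero_mul, sub_zero]
  · rw [← mul_assoc, t_QE0, sub_mul, mul_assoc, t_ee0, ← mul_assoc, ← mul_assoc (d.qd _ _),
      (d.dg_qd _ _).cdl]

theorem t_qq1 : d.tt * d.qq 1 0 = d.qq 0 0 * d.tt + d.th := by
  rw [qq_eq, qq_eq, th, Finset.mul_sum, Finset.sum_mul, ← Finset.sum_add_distrib]
  refine Finset.sum_congr rfl fun c _ => ?_
  rw [Finset.mul_sum, Finset.sum_mul, ← Finset.sum_add_distrib]
  refine Finset.sum_congr rfl fun c' _ => ?_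
  split_ifs with h
  · rw [mul_zero, zero_mul, add_zero]
  · rw [← mul_assoc, t_QE1, add_mul, mul_assoc, t_ee1, ← mul_assoc, ← (d.dg_qd _ _).cdl,
      mul_assoc (d.qd _ _), dl_ee]

theorem dd0_th : d.dd 0 0 * d.th = 0 := by
  unfold th
  rw [Finset.mul_sum]
  refine Finset.sum_eq_zero fun c _ => ?_
  rw [Finset.mul_sum]
  refine Finset.sum_eq_zero fun c' _ => ?_
  split_ifs with h
  · rw [mul_zero]
  · have h1 : d.dd 0 0 * d.ee 0 c c' = 0 := by unfold ee; rw [dd_ee, if_neg h]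
    rw [← mul_assoc, (Dg.dD d 0 0).cqd, mul_assoc, ← mul_assoc (d.dd 0 0),
      (Dg.dD d 0 0).cdl, mul_assoc d.dl, h1, mul_zero, mul_zero]
theorem dd1_th : d.dd 1 0 * d.th = 0 := by
  unfold th
  rw [Finset.mul_sum]
  refine Finset.sum_eq_zero fun c _ => ?_
  rw [Finset.mul_sum]
  refine Finset.sum_eq_zero fun c' _ => ?_
  split_ifs with h
  · rw [mul_zero]
  · have h1 : d.dd 1 0 * d.ee 1 c c' = 0 := by unfold ee; rw [dd_ee, if_neg h]
    rw [← dl_ee, ← mul_assoc, (Dg.dD d 1 0).cqd, mul_assoc,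
      ← mul_assoc (d.dd 1 0), (Dg.dD d 1 0).cdl, mul_assoc d.dl, h1, mul_zero, mul_zero]
theorem A0_th : d.A 0 0 * d.th = 0 := by unfold A; rw [mul_assoc, dd0_th, mul_zero]
theorem A1_th : d.A 1 0 * d.th = 0 := by unfold A; rw [mul_assoc, dd1_th, mul_zero]

theorem nn1_th : d.nn 1 0 * d.th = d.th := by
  conv_lhs => rhs; unfold th
  conv_rhs => unfold th
  rw [Finset.mul_sum]
  refine Finset.sum_congr rfl fun c _ => ?_
  rw [Finset.mul_sum]
  refine Finset.sum_congr rfl fun c' _ => ?_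
  split_ifs with h
  · rw [mul_zero]
  · have h1 : d.nn 1 0 * d.ee 1 c c' = d.ee 1 c c' := by unfold ee; rw [nn_ee, if_neg h]
    rw [← dl_ee, ← mul_assoc, (Dg.dN d 1 0).cqd, mul_assoc,
      ← mul_assoc (d.nn 1 0), (Dg.dN d 1 0).cdl, mul_assoc d.dl, h1]
theorem nn0_th : d.nn 0 0 * d.th = d.th := by
  conv_lhs => rhs; unfold th
  conv_rhs => unfold th
  rw [Finset.mul_sum]
  refine Finset.sum_congr rfl fun c _ => ?_
  rw [Finset.mul_sum]
  refine Finset.sum_congr rfl fun c' _ => ?_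
  split_ifs with h
  · rw [mul_zero]
  · have h1 : d.nn 0 0 * d.ee 0 c c' = d.ee 0 c c' := by unfold ee; rw [nn_ee, if_neg h]
    rw [← mul_assoc, (Dg.dN d 0 0).cqd, mul_assoc,
      ← mul_assoc (d.nn 0 0), (Dg.dN d 0 0).cdl, mul_assoc d.dl, h1]

theorem cross1 : Cross d.tt (d.A 0 0) (d.A 1 0) (d.qq 0 0) (d.qq 1 0) (d.nn 0 0) (d.nn 1 0)
    d.th 0 where
  tA0 := d.t_A0
  tA1 := d.t_A1
  AA := (Dg.dA d 1 0).cA 0 0
  tk0 := d.t_qq0
  tk1 := d.t_qq1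
  tl0 := by rw [sub_zero]; exact d.t_nn0
  tl1 := by rw [add_zero]; exact d.t_nn1
  kA0 := d.qq_A 0 0
  kA1 := d.qq_A 1 0
  lA0 := d.nn_A 0 0
  lA1 := d.nn_A 1 0
  Ak0 := d.A_qq 0 0
  Ak1 := d.A_qq 1 0
  Al0 := d.A_nn 0 0
  Al1 := d.A_nn 1 0
  kA01 := (Dg.dQ d 0 0).cA 1 0
  kA10 := (Dg.dQ d 1 0).cA 0 0
  lA01 := (Dg.dN d 0 0).cA 1 0
  lA10 := (Dg.dN d 1 0).cA 0 0
  kk := (Dg.dQ d 1 0).cQ 0 0
  ll := (Dg.dN d 1 0).cN 0 0
  lk := (Dg.dN d 1 0).cQ 0 0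
  thA0 := by rw [d.dg_th.cA]; exact d.A0_th
  thA1 := by rw [d.dg_th.cA]; exact d.A1_th
  Ath0 := d.A0_th
  Ath1 := d.A1_th
  thA0' := zero_mul _
  thA1' := zero_mul _
  Ath0' := mul_zero _
  Ath1' := mul_zero _
  thk := d.dg_th.cQ 1 0
  thl := by rw [zero_mul, mul_zero]

theorem cross2 : Cross d.tt (d.A 0 0) (d.A 1 0) (d.nn 0 0) (d.nn 1 0) (d.qq 0 0) (d.qq 1 0)
    0 d.th where
  tA0 := d.t_A0
  tA1 := d.t_A1
  AA := (Dg.dA d 1 0).cA 0 0
  tk0 := by rw [sub_zero]; exact d.t_nn0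
  tk1 := by rw [add_zero]; exact d.t_nn1
  tl0 := d.t_qq0
  tl1 := d.t_qq1
  kA0 := d.nn_A 0 0
  kA1 := d.nn_A 1 0
  lA0 := d.qq_A 0 0
  lA1 := d.qq_A 1 0
  Ak0 := d.A_nn 0 0
  Ak1 := d.A_nn 1 0
  Al0 := d.A_qq 0 0
  Al1 := d.A_qq 1 0
  kA01 := (Dg.dN d 0 0).cA 1 0
  kA10 := (Dg.dN d 1 0).cA 0 0
  lA01 := (Dg.dQ d 0 0).cA 1 0
  lA10 := (Dg.dQ d 1 0).cA 0 0
  kk := (Dg.dN d 1 0).cN 0 0
  ll := (Dg.dQ d 1 0).cQ 0 0
  lk := (Dg.dQ d 1 0).cN 0 0
  thA0 := zero_mul _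
  thA1 := zero_mul _
  Ath0 := mul_zero _
  Ath1 := mul_zero _
  thA0' := by rw [d.dg_th.cA]; exact d.A0_th
  thA1' := by rw [d.dg_th.cA]; exact d.A1_th
  Ath0' := d.A0_th
  Ath1' := d.A1_th
  thk := by rw [zero_mul, mul_zero]
  thl := d.dg_th.cQ 1 0

end

end Loc

end Pbw

end Pool.Agent.KLS

end

section

/-! MP_e487d8_al: from the abstract theorem on isomorphism classes to graded modules.
`GrFacts` is the contract of the block GRAD, `UFacts` the contract of the block Fin. -/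

set_option autoImplicit false

namespace Pool.Agent.KLS

variable {K I : Type} [Field K] [Fintype I] [DecidableEq I]

/-- the facts on gradings -/
structure GrFacts (D : Datum K I) : Prop where
  nilp : ∀ X : GMod D, Nilp D X.M
  simple : ∀ X : GMod D, X.Irr → IsSimpleModule (KLRAlg D) X.M
  exists_gr : ∀ Y : SMod D, ∃ X : GMod D, X.Irr ∧ X.n = Y.n ∧ Nonempty (X.M ≃ₗ[KLRAlg D] Y.M)
  shift : ∀ X Y : GMod D, X.Irr → Y.Irr → Nonempty (X.M ≃ₗ[KLRAlg D] Y.M) → X.ShiftIso Y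
  conv : ∀ X Y Z : GMod D, X.Irr → Y.Irr → Z.Irr →
    Nonempty (Conv D X.n X.M Y.M ≃ₗ[KLRAlg D] Z.M) → X.IsConv Y Z

/-- the facts on the abstract system `Y` and the map `cls` from simple modules to their
isomorphism classes -/
structure UFacts (D : Datum K I) {S O : Type} [CommRing O] [Algebra ℚ O]
    (Y : KLT.Pre I S O) (cls : SMod D → S) : Prop where
  surj : Function.Surjective cls
  inj : ∀ X Z, cls X = cls Z ↔ X.Iso Z
  mul : ∀ X Z W, Y.b (cls X) * Y.b (cls Z) = Y.b (cls W) ↔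
    Nonempty (X.conv Z ≃ₗ[KLRAlg D] W.M)
  ad : ∀ w X, Y.Ad w (cls X) ↔ ∃ a : List ℕ, a.length = w.length ∧ X.ch (powWord w a) ≠ 0
  one : ∀ X, cls X = Y.one ↔ X.n = 0

namespace GrFacts

variable {D : Datum K I} (hG : GrFacts D)

/-- forget the grading -/
def forget (X : GMod D) (h : X.Irr) : SMod D where
  n := X.n
  M := X.M
  smp :=
    { strand := X.strand
      fd := X.fd
      nilp := hG.nilp X
      simple := hG.simple X h }

end GrFacts

theorem GMod.irr_of_simple {D : Datum K I} (X : GMod D) (h : IsSimpleModule (KLRAlg D) X.M) :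
    X.Irr where
  nontrivial := IsSimpleModule.nontrivial (KLRAlg D) X.M
  simple N _ := by
    rw [isSimpleModule_iff] at h
    exact h.eq_bot_or_eq_top N

theorem smod_ch_ne {D : Datum K I} (X : SMod D) (ν : List I) :
    X.ch ν ≠ 0 ↔ ν.length = X.n ∧ ∃ u : X.M, D.eW ν • u ≠ 0 := by
  have := X.smp.fd
  unfold SMod.ch chr
  split_ifs with h
  · rw [Ne, Submodule.finrank_eq_zero, wordSp, LinearMap.range_eq_bot]
    constructor
    · intro h1
      refine ⟨h, ?_⟩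
      by_contra h2
      push Not at h2
      exact h1 (LinearMap.ext h2)
    · rintro ⟨-, u, hu⟩ h1
      exact hu (LinearMap.congr_fun h1 u)
  · simp [h]

namespace Bridge

open Classical in
/-- the class of a graded module -/
noncomputable def cl {D : Datum K I} (hG : GrFacts D) {S O : Type} [CommRing O] [Algebra ℚ O]
    (Y : KLT.Pre I S O) (cls : SMod D → S) (X : GMod D) : S :=
  if h : X.Irr then cls (hG.forget X h) else Y.one

variable {D : Datum K I} (hG : GrFacts D) {S O : Type} [CommRing O] [Algebra ℚ O]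
  {Y : KLT.Pre I S O} {cls : SMod D → S}

theorem cl_of {X : GMod D} (h : X.Irr) : cl hG Y cls X = cls (hG.forget X h) := by
  unfold cl
  rw [dif_pos h]

variable (hU : UFacts D Y cls)

include hU

theorem cl_eq_iff {X Z : GMod D} (hX : X.Irr) (hZ : Z.Irr) :
    cl hG Y cls X = cl hG Y cls Z ↔ X.ShiftIso Z := by
  rw [cl_of hG hX, cl_of hG hZ, hU.inj]
  constructor
  · intro h
    exact hG.shift X Z hX hZ h
  · rintro ⟨s, f, hf⟩
    exact ⟨f⟩

theorem cl_eq_of_iso {X Z : GMod D} (hX : X.Irr) (hZ : Z.Irr) (f : X.M ≃ₗ[KLRAlg D] Z.M) :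
    cl hG Y cls X = cl hG Y cls Z := by
  rw [cl_of hG hX, cl_of hG hZ, hU.inj]
  exact ⟨f⟩

theorem mul_iff {X Z W : GMod D} (hX : X.Irr) (hZ : Z.Irr) (hW : W.Irr) :
    Y.b (cl hG Y cls X) * Y.b (cl hG Y cls Z) = Y.b (cl hG Y cls W) ↔ X.IsConv Z W := by
  rw [cl_of hG hX, cl_of hG hZ, cl_of hG hW, hU.mul]
  constructor
  · intro h
    exact hG.conv X Z W hX hZ hW h
  · rintro ⟨s, f, hf⟩
    exact ⟨f⟩

theorem cl_surj (s : S) : ∃ X : GMod D, X.Irr ∧ cl hG Y cls X = s := by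
  obtain ⟨Z, rfl⟩ := hU.surj s
  obtain ⟨X, hX, hn, ⟨f⟩⟩ := hG.exists_gr Z
  refine ⟨X, hX, ?_⟩
  rw [cl_of hG hX, hU.inj]
  exact ⟨f⟩

theorem cl_one {X : GMod D} (hX : X.Irr) : cl hG Y cls X = Y.one ↔ X.n = 0 := by
  rw [cl_of hG hX, hU.one]
  rfl

theorem ad_iff {X : GMod D} (hX : X.Irr) (w : List I) :
    Y.Ad w (cl hG Y cls X) ↔ X.Adapted w := by
  rw [cl_of hG hX, hU.ad]
  unfold GMod.Adapted
  refine exists_congr fun a => and_congr_right fun _ => ?_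
  exact smod_ch_ne (hG.forget X hX) _

end Bridge

end Pool.Agent.KLS

end
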