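import Pool.Agent.Work.MP_e487d8_al.Bd.B39
import Pool.Agent.Work.MP_e487d8_al.Bd.B22

/-! Bundle of small proof modules (one section per former module). -/

section

/-! MP_e487d8_al, PBW block: the error terms of the braid relation, and exchanging the two
actions. -/

set_option autoImplicit false

namespace Pool.Agent.KLS

variable {K I : Type} [Field K] [Fintype I] [DecidableEq I]

namespace Pbw

variable {D : Datum K I} {P : Type} [AddCommGroup P] [Module K P]

namespace Loc

section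

variable (d : Loc D P)

/-- error term at the words `F F T` -/
noncomputable def erA : Module.End K P := ∑ i, ∑ j, if i = j then 0 else
  D.QD i j (d.r1 (D.x 0)) (d.r2 (D.x 0)) (d.r1 (D.x 1)) *
      (d.r1 (D.e 0 i) * d.r1 (D.e 1 j) * d.r2 (D.e 0 i))
/-- error term at the words `F T F` -/
noncomputable def erB : Module.End K P := ∑ i, ∑ j, if i = j then 0 else
  D.QD i j (d.r1 (D.x 0)) (d.r1 (D.x 1)) (d.r2 (D.x 0)) *
      (d.r1 (D.e 0 i) * d.r2 (D.e 0 j) * d.r1 (D.e 1 i))
/-- error term at the words `T F F` -/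
noncomputable def erC : Module.End K P := ∑ i, ∑ j, if i = j then 0 else
  D.QD i j (d.r2 (D.x 0)) (d.r1 (D.x 1)) (d.r1 (D.x 0)) *
      (d.r2 (D.e 0 i) * d.r1 (D.e 0 j) * d.r1 (D.e 1 i))

theorem erB_eq : d.th = d.erB := by
  unfold th erB
  refine Finset.sum_congr rfl fun c _ => Finset.sum_congr rfl fun c' _ => ?_
  split_ifs
  · rfl
  · rw [dl_ee']
    rfl

theorem tt_sq : d.tt * d.tt = ∑ i, ∑ j, if i = j then 0 else
    D.QE i j (d.r1 (D.x 0)) (d.r1 (D.x 1)) * (d.r1 (D.e 0 i) * d.r1 (D.e 1 j)) := by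
  unfold tt
  rw [← map_mul, D.t_t, map_sum]
  refine Finset.sum_congr rfl fun i _ => ?_
  rw [map_sum]
  refine Finset.sum_congr rfl fun j _ => ?_
  split_ifs
  · exact map_zero _
  · rw [map_mul, map_QE, map_mul]

theorem A_e (i : ℕ) (c : I) : d.A i 0 * d.r1 (D.e i c) = d.A i 0 * d.r2 (D.e 0 c) := by
  unfold A
  rw [mul_assoc, dd_e, mul_assoc]

theorem erA_eq : d.A 0 0 * (d.tt * d.tt - d.qq 1 0) = d.erA := by
  rw [mul_sub, tt_sq, qq_eq, Finset.sum_comm (f := fun c c' => if c = c' then (0 : Module.End K P)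
    else D.QE c c' (d.r1 (D.x 1)) (d.r2 (D.x 0)) * d.ee 1 c c'), erA, Finset.mul_sum,
    Finset.mul_sum, ← Finset.sum_sub_distrib]
  refine Finset.sum_congr rfl fun i _ => ?_
  rw [Finset.mul_sum, Finset.mul_sum, ← Finset.sum_sub_distrib]
  refine Finset.sum_congr rfl fun j _ => ?_
  by_cases h : i = j
  · rw [if_pos h, if_pos h.symm, if_pos h, mul_zero, sub_zero]
  · rw [if_neg h, if_neg (Ne.symm h), if_neg h]
    have h1 : D.QE j i (d.r1 (D.x 1)) (d.r2 (D.x 0)) =
        D.QE i j (d.r2 (D.x 0)) (d.r1 (D.x 1)) :=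
      Datum.QE_symm (Ne.symm h) (d.comm _ _)
    have c1 : d.A 0 0 * D.QE i j (d.r1 (D.x 0)) (d.r1 (D.x 1)) =
        D.QE i j (d.r1 (D.x 0)) (d.r1 (D.x 1)) * d.A 0 0 :=
      Datum.QE_semi ((Dg.dA d 0 0).x1 0) ((Dg.dA d 0 0).x1 1)
    have c2 : d.A 0 0 * D.QE i j (d.r2 (D.x 0)) (d.r1 (D.x 1)) =
        D.QE i j (d.r2 (D.x 0)) (d.r1 (D.x 1)) * d.A 0 0 :=
      Datum.QE_semi ((Dg.dA d 0 0).x2 0) ((Dg.dA d 0 0).x1 1)
    have h2 : D.QD i j (d.r1 (D.x 0)) (d.r2 (D.x 0)) (d.r1 (D.x 1)) *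
        (d.r1 (D.x 0) - d.r2 (D.x 0)) =
        D.QE i j (d.r1 (D.x 0)) (d.r1 (D.x 1)) - D.QE i j (d.r2 (D.x 0)) (d.r1 (D.x 1)) :=
      Datum.QD_mul_sub (d.comm _ _) ((Dg.rx1 d 0).x1 1) ((Dg.rx2 d 0).x1 1)
    have hA : d.A 0 0 * d.r1 (D.e 0 i) * d.r2 (D.e 0 i) = d.A 0 0 * d.r1 (D.e 0 i) := by
      rw [A_e, mul_assoc, ← map_mul, D.e_idem]
    have h3 : d.A 0 0 * (d.r1 (D.e 0 i) * d.r1 (D.e 1 j)) =
        d.A 0 0 * (d.r1 (D.e 0 i) * d.r1 (D.e 1 j) * d.r2 (D.e 0 i)) := by
      rw [mul_assoc (d.r1 (D.e 0 i)) (d.r1 (D.e 1 j)), d.comm (D.e 1 j) (D.e 0 i),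
        ← mul_assoc (d.A 0 0) (d.r1 (D.e 0 i)) (d.r2 _ * _), ← mul_assoc (d.A 0 0 * _), hA,
        mul_assoc]
    have h4 : d.A 0 0 * d.ee 1 j i =
        d.A 0 0 * (d.r1 (D.e 0 i) * d.r1 (D.e 1 j) * d.r2 (D.e 0 i)) := by
      rw [← h3, ← mul_assoc, A_e, mul_assoc]
      unfold ee
      rw [d.comm]
    rw [h1, ← mul_assoc (d.A 0 0), ← mul_assoc (d.A 0 0) (D.QE _ _ _ _) (d.ee _ _ _), c1, c2,
      mul_assoc, mul_assoc, h3, h4, ← sub_mul, ← h2, mul_assoc, ← mul_assoc (_ - _),
      show (d.r1 (D.x 0) - d.r2 (D.x 0)) * d.A 0 0 = d.dd 0 0 from d.xy_A 0 0]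
    congr 1
    rw [mul_assoc (d.r1 (D.e 0 i)), d.comm (D.e 1 j) (D.e 0 i),
      ← mul_assoc (d.r1 (D.e 0 i)) (d.r2 _), ← mul_assoc, dd_ee, if_pos rfl]

theorem erC_eq : d.A 1 0 * (d.tt * d.tt - d.qq 0 0) = d.erC := by
  rw [mul_sub, tt_sq, Finset.sum_comm (f := fun c c' => if c = c' then (0 : Module.End K P)
    else D.QE c c' (d.r1 (D.x 0)) (d.r1 (D.x 1)) *
      (d.r1 (D.e 0 c) * d.r1 (D.e 1 c'))), qq_eq, Finset.sum_comm (f := fun c c' => if c = c'
    then (0 : Module.End K P)
    else D.QE c c' (d.r1 (D.x 0)) (d.r2 (D.x 0)) * d.ee 0 c c'), erC, Finset.mul_sum,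
    Finset.mul_sum, ← Finset.sum_sub_distrib]
  refine Finset.sum_congr rfl fun i _ => ?_
  rw [Finset.mul_sum, Finset.mul_sum, ← Finset.sum_sub_distrib]
  refine Finset.sum_congr rfl fun j _ => ?_
  by_cases h : i = j
  · rw [if_pos h, if_pos h.symm, if_pos h.symm, mul_zero, sub_zero]
  · rw [if_neg h, if_neg (Ne.symm h), if_neg (Ne.symm h)]
    have h1 : D.QE j i (d.r1 (D.x 0)) (d.r2 (D.x 0)) =
        D.QE i j (d.r2 (D.x 0)) (d.r1 (D.x 0)) :=
      Datum.QE_symm (Ne.symm h) (d.comm _ _)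
    have h1' : D.QE j i (d.r1 (D.x 0)) (d.r1 (D.x 1)) =
        D.QE i j (d.r1 (D.x 1)) (d.r1 (D.x 0)) :=
      Datum.QE_symm (Ne.symm h) ((Dg.rx1 d 0).x1 1)
    have c1 : d.A 1 0 * D.QE i j (d.r1 (D.x 1)) (d.r1 (D.x 0)) =
        D.QE i j (d.r1 (D.x 1)) (d.r1 (D.x 0)) * d.A 1 0 :=
      Datum.QE_semi ((Dg.dA d 1 0).x1 1) ((Dg.dA d 1 0).x1 0)
    have c2 : d.A 1 0 * D.QE i j (d.r2 (D.x 0)) (d.r1 (D.x 0)) =
        D.QE i j (d.r2 (D.x 0)) (d.r1 (D.x 0)) * d.A 1 0 :=
      Datum.QE_semi ((Dg.dA d 1 0).x2 0) ((Dg.dA d 1 0).x1 0)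
    have h2 : D.QD i j (d.r2 (D.x 0)) (d.r1 (D.x 1)) (d.r1 (D.x 0)) *
        (d.r1 (D.x 1) - d.r2 (D.x 0)) =
        D.QE i j (d.r1 (D.x 1)) (d.r1 (D.x 0)) - D.QE i j (d.r2 (D.x 0)) (d.r1 (D.x 0)) := by
      rw [Datum.QD_swap (show Commute (d.r2 (D.x 0)) (d.r1 (D.x 1)) from (d.comm _ _).symm)]
      exact Datum.QD_mul_sub (d.comm _ _) ((Dg.rx1 d 1).x1 0) ((Dg.rx2 d 0).x1 0)
    have hA : d.A 1 0 * d.r1 (D.e 1 i) * d.r2 (D.e 0 i) = d.A 1 0 * d.r1 (D.e 1 i) := by
      rw [A_e, mul_assoc, ← map_mul, D.e_idem]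
    have hc : d.r1 (D.e 0 j) * d.r1 (D.e 1 i) = d.r1 (D.e 1 i) * d.r1 (D.e 0 j) := by
      rw [← map_mul, D.e_comm, map_mul]
    have h3 : d.A 1 0 * (d.r1 (D.e 0 j) * d.r1 (D.e 1 i)) =
        d.A 1 0 * (d.r2 (D.e 0 i) * d.r1 (D.e 0 j) * d.r1 (D.e 1 i)) := by
      rw [mul_assoc (d.r2 (D.e 0 i)), hc, ← mul_assoc (d.r2 (D.e 0 i)), ← d.comm,
        mul_assoc (d.r1 (D.e 1 i)), ← mul_assoc (d.A 1 0), ← mul_assoc (d.A 1 0),
        ← mul_assoc (d.A 1 0 * _), hA]
    have h4 : d.A 1 0 * d.ee 0 j i =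
        d.A 1 0 * (d.r2 (D.e 0 i) * d.r1 (D.e 0 j) * d.r1 (D.e 1 i)) := by
      rw [← h3, hc, ← mul_assoc, A_e, mul_assoc, ← d.comm]
      rfl
    rw [h1, h1', ← mul_assoc (d.A 1 0), ← mul_assoc (d.A 1 0) (D.QE _ _ _ _) (d.ee _ _ _), c1,
      c2, mul_assoc, mul_assoc, h3, h4, ← sub_mul, ← h2, mul_assoc, ← mul_assoc (_ - _),
      show (d.r1 (D.x 1) - d.r2 (D.x 0)) * d.A 1 0 = d.dd 1 0 from d.xy_A 1 0]
    congr 1
    rw [mul_assoc (d.r2 (D.e 0 i)), hc, ← mul_assoc (d.r2 (D.e 0 i)), ← d.comm,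
      ← mul_assoc, dd_ee, if_pos rfl]

/-! exchanging the two actions -/

theorem swap_dd (i j : ℕ) : d.swap.dd i j = d.dd j i := by
  unfold dd
  exact Finset.sum_congr rfl fun c _ => (d.comm _ _).symm

theorem swap_A (i j : ℕ) : d.swap.A i j = -d.A j i := by
  unfold A
  rw [swap_dd]
  exact neg_mul _ _

theorem swap_nn (i j : ℕ) : d.swap.nn i j = d.nn j i := by
  unfold nn
  rw [Finset.sum_comm]
  refine Finset.sum_congr rfl fun c _ => Finset.sum_congr rfl fun c' _ => ?_
  by_cases h : c = c'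
  · rw [if_pos h, if_pos h.symm]
  · rw [if_neg h, if_neg (Ne.symm h)]
    exact (d.comm _ _).symm

theorem swap_qq (i j : ℕ) : d.swap.qq i j = d.qq j i := by
  unfold qq
  rw [Finset.sum_comm]
  refine Finset.sum_congr rfl fun c _ => Finset.sum_congr rfl fun c' _ => ?_
  by_cases h : c = c'
  · rw [if_pos h, if_pos h.symm]
  · rw [if_neg h, if_neg (Ne.symm h)]
    have h1 : D.QE c' c (d.swap.r1 (D.x i)) (d.swap.r2 (D.x j)) =
        D.QE c c' (d.r1 (D.x j)) (d.r2 (D.x i)) :=
      Datum.QE_symm (Ne.symm h) (show Commute (d.r2 (D.x i)) (d.r1 (D.x j)) from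
        (d.comm _ _).symm)
    rw [h1]
    congr 1
    exact (d.comm _ _).symm

end

end Loc

end Pbw

end Pool.Agent.KLS

end

section

/-! MP_e487d8_al, PBW block: the braid relation for the operators on functions on words. -/

set_option autoImplicit false
set_option linter.unusedSimpArgs false

namespace Pool.Agent.KLS

variable {K I : Type} [Field K] [Fintype I] [DecidableEq I]

namespace Pbw

variable {D : Datum K I} {P : Type} [AddCommGroup P] [Module K P]

/-- `G` acts at the word `w` by `g` -/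
def At (G : Module.End K (List Bool → P)) (w : List Bool) (g : Module.End K P) : Prop :=
  ∀ f, G f w = g (f w)

namespace At

variable {G H : Module.End K (List Bool → P)} {w : List Bool} {g h : Module.End K P}

theorem mul (hG : At G w g) (hH : At H w h) : At (G * H) w (g * h) := fun f => by
  rw [Module.End.mul_apply, hG, hH, Module.End.mul_apply]
theorem sub (hG : At G w g) (hH : At H w h) : At (G - H) w (g - h) := fun f => by
  rw [LinearMap.sub_apply, Pi.sub_apply, hG, hH, LinearMap.sub_apply]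
theorem add (hG : At G w g) (hH : At H w h) : At (G + H) w (g + h) := fun f => by
  rw [LinearMap.add_apply, Pi.add_apply, hG, hH, LinearMap.add_apply]
theorem smul (r : K) (hG : At G w g) : At (r • G) w (r • g) := fun f => by
  rw [LinearMap.smul_apply, Pi.smul_apply, hG, LinearMap.smul_apply]
theorem zero : At (0 : Module.End K (List Bool → P)) w 0 := fun _ => rfl
theorem one : At (1 : Module.End K (List Bool → P)) w 1 := fun _ => rfl
theorem pow (hG : At G w g) (n : ℕ) : At (G ^ n) w (g ^ n) := by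
  induction n with
  | zero => rw [pow_zero, pow_zero]; exact one
  | succ n ih => rw [pow_succ, pow_succ]; exact ih.mul hG
theorem sum {ι : Type*} (s : Finset ι) {F : ι → Module.End K (List Bool → P)}
    {f : ι → Module.End K P} (hf : ∀ i ∈ s, At (F i) w (f i)) :
    At (∑ i ∈ s, F i) w (∑ i ∈ s, f i) := by
  classical
  induction s using Finset.induction_on with
  | empty => exact zero
  | insert a s ha ih =>
    rw [Finset.sum_insert ha, Finset.sum_insert ha]
    exact (hf a (Finset.mem_insert_self a s)).add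
      (ih fun i hi => hf i (Finset.mem_insert_of_mem hi))

theorem QD {D : Datum K I} (i j : I) {X Z Y : Module.End K (List Bool → P)}
    {x z y : Module.End K P} (hx : At X w x) (hz : At Z w z) (hy : At Y w y) :
    At (D.QD i j X Z Y) w (D.QD i j x z y) :=
  sum _ fun _ _ => sum _ fun _ _ => smul _ ((sum _ fun _ _ => (hx.pow _).mul (hz.pow _)).mul
    (hy.pow _))

/-- the right side of the braid relation -/
theorem rhs {D : Datum K I} {X0 X1 X2 : Module.End K (List Bool → P)}
    {E0 E1 E2 : I → Module.End K (List Bool → P)} {x0 x1 x2 : Module.End K P}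
    {e0 e1 e2 : I → Module.End K P} (hx0 : At X0 w x0) (hx1 : At X1 w x1) (hx2 : At X2 w x2)
    (he0 : ∀ i, At (E0 i) w (e0 i)) (he1 : ∀ i, At (E1 i) w (e1 i))
    (he2 : ∀ i, At (E2 i) w (e2 i)) :
    At (∑ i, ∑ j, if i = j then 0 else
      D.QD i j X0 X2 X1 * (E0 i * E1 j * E2 i)) w
    (∑ i, ∑ j, if i = j then 0 else
      D.QD i j x0 x2 x1 * (e0 i * e1 j * e2 i)) := by
  refine sum _ fun i _ => sum _ fun j _ => ?_
  split_ifs
  · exact zero
  · exact (QD i j hx0 hx2 hx1).mul (((he0 i).mul (he1 j)).mul (he2 i))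

theorem rhs0 {D : Datum K I} {X0 X1 X2 : Module.End K (List Bool → P)}
    {E0 E1 E2 : I → Module.End K (List Bool → P)} {x0 x1 x2 : Module.End K P}
    {e0 e1 : I → Module.End K P} (hx0 : At X0 w x0) (hx1 : At X1 w x1) (hx2 : At X2 w x2)
    (he0 : ∀ i, At (E0 i) w (e0 i)) (he1 : ∀ i, At (E1 i) w (e1 i))
    (he2 : ∀ i, At (E2 i) w 0) (f : List Bool → P) :
    (∑ i, ∑ j, if i = j then 0 else
      D.QD i j X0 X2 X1 * (E0 i * E1 j * E2 i)) f w = 0 := by
  rw [rhs (D := D) hx0 hx1 hx2 he0 he1 he2 f]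
  have h : (∑ i, ∑ j, if i = j then 0 else
      D.QD i j x0 x2 x1 * (e0 i * e1 j * 0) :
        Module.End K P) = 0 := by
    refine Finset.sum_eq_zero fun i _ => Finset.sum_eq_zero fun j _ => ?_
    split_ifs
    · rfl
    · rw [mul_zero, mul_zero]
  rw [h]
  rfl

end At

namespace Loc

variable (d : Loc D P)

theorem opE_one (i : I) : opE 1 i d = glue (opE 0 i d.shF) (opE 0 i d.shT) := rfl
theorem opX_one : opX 1 d = glue (opX 0 d.shF) (opX 0 d.shT) := rfl
theorem opT_one : opT 1 d = glue d.shF.T0 d.shT.T0 := rfl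

theorem shF_A : d.shF.A 0 0 = d.A 1 0 := by
  unfold A dd
  simp only [shF_r1, shF_r2, Datum.shn_e]
  rfl
theorem shT_A : d.shT.A 0 0 = d.A 0 1 := by
  unfold A dd
  simp only [shT_r1, shT_r2, Datum.shn_e]
  rfl
theorem shF_nn : d.shF.nn 0 0 = d.nn 1 0 := by
  unfold nn
  simp only [shF_r1, shF_r2, Datum.shn_e]
theorem shT_nn : d.shT.nn 0 0 = d.nn 0 1 := by
  unfold nn
  simp only [shT_r1, shT_r2, Datum.shn_e]
theorem shF_qq : d.shF.qq 0 0 = d.qq 1 0 := by
  unfold qq
  simp only [shF_r1, shF_r2, Datum.shn_e, Datum.shn_x]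
theorem shT_qq : d.shT.qq 0 0 = d.qq 0 1 := by
  unfold qq
  simp only [shT_r1, shT_r2, Datum.shn_e, Datum.shn_x]

theorem braid_F : d.r1 (D.t 1) * d.r1 (D.t 0) * d.r1 (D.t 1) -
    d.r1 (D.t 0) * d.r1 (D.t 1) * d.r1 (D.t 0) = ∑ i, ∑ j, if i = j then 0 else
      D.QD i j (d.r1 (D.x 0)) (d.r1 (D.x 2)) (d.r1 (D.x 1)) *
          (d.r1 (D.e 0 i) * d.r1 (D.e 1 j) * d.r1 (D.e 2 i)) := by
  rw [← map_mul, ← map_mul, ← map_mul, ← map_mul, ← map_sub, D.t_braid, map_sum]
  refine Finset.sum_congr rfl fun i _ => ?_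
  rw [map_sum]
  refine Finset.sum_congr rfl fun j _ => ?_
  split_ifs
  · exact map_zero _
  · simp only [map_mul, map_QD]

theorem opT_one_F (f : List Bool → P) (w : List Bool) :
    opT 1 d f (false :: w) = d.shF.T0 (tl (K := K) false f) w := rfl
theorem opT_one_T (f : List Bool → P) (w : List Bool) :
    opT 1 d f (true :: w) = d.shT.T0 (tl (K := K) true f) w := rfl

/-- the left side at a word -/
theorem lhs_apply (f : List Bool → P) (w : List Bool) :
    (opT 1 d * opT 0 d * opT 1 d - opT 0 d * opT 1 d * opT 0 d) f w =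
      opT 1 d (d.T0 (opT 1 d f)) w - d.T0 (opT 1 d (d.T0 f)) w := rfl

section values

variable (f : List Bool → P) (w : List Bool)

theorem T1_FFF : opT 1 d f (false :: false :: false :: w) =
    d.r1 (D.t 1) (f (false :: false :: false :: w)) := by
  rw [opT_one_F, T0_FF, shF_r1, Datum.shn_t]
  rfl
theorem T1_FTT : opT 1 d f (false :: true :: true :: w) =
    d.r2 (D.t 0) (f (false :: true :: true :: w)) := rfl
theorem T1_FFT : opT 1 d f (false :: false :: true :: w) =
    (d.A 1 0 + d.qq 1 0) (f (false :: true :: false :: w)) -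
      d.A 1 0 (f (false :: false :: true :: w)) := by
  rw [opT_one_F, T0_FT, shF_A, shF_qq]
  rfl
theorem T1_FTF : opT 1 d f (false :: true :: false :: w) =
    d.A 1 0 (f (false :: true :: false :: w)) +
      (d.nn 1 0 - d.A 1 0) (f (false :: false :: true :: w)) := by
  rw [opT_one_F, T0_TF, shF_A, shF_nn]
  rfl
theorem T1_TTT : opT 1 d f (true :: true :: true :: w) =
    d.r2 (D.t 1) (f (true :: true :: true :: w)) := by
  rw [opT_one_T, T0_TT, shT_r2, Datum.shn_t]
  rfl
theorem T1_TFF : opT 1 d f (true :: false :: false :: w) =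
    d.r1 (D.t 0) (f (true :: false :: false :: w)) := rfl
theorem T1_TFT : opT 1 d f (true :: false :: true :: w) =
    (d.A 0 1 + d.qq 0 1) (f (true :: true :: false :: w)) -
      d.A 0 1 (f (true :: false :: true :: w)) := by
  rw [opT_one_T, T0_FT, shT_A, shT_qq]
  rfl
theorem T1_TTF : opT 1 d f (true :: true :: false :: w) =
    d.A 0 1 (f (true :: true :: false :: w)) +
      (d.nn 0 1 - d.A 0 1) (f (true :: false :: true :: w)) := by
  rw [opT_one_T, T0_TF, shT_A, shT_nn]
  rfl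

end values

/-! the dots and idempotents at words -/

theorem atX0F (w : List Bool) : At (opX 0 d) (false :: w) (d.r1 (D.x 0)) := fun _ => rfl
theorem atX0T (w : List Bool) : At (opX 0 d) (true :: w) (d.r2 (D.x 0)) := fun _ => rfl
theorem atE0F (w : List Bool) (i : I) : At (opE 0 i d) (false :: w) (d.r1 (D.e 0 i)) :=
  fun _ => rfl
theorem atE0T (w : List Bool) (i : I) : At (opE 0 i d) (true :: w) (d.r2 (D.e 0 i)) :=
  fun _ => rfl
theorem atXnil (k : ℕ) : At (opX k d) [] 0 := fun f => opX_nil k d f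
theorem atEnil (k : ℕ) (i : I) : At (opE k i d) [] 0 := fun f => opE_nil k i d f
variable {d} in
theorem atXF {k : ℕ} {w : List Bool} {g : Module.End K P} (h : At (opX k d.shF) w g) :
    At (opX (k + 1) d) (false :: w) g := fun f => h (tl (K := K) false f)
variable {d} in
theorem atXT {k : ℕ} {w : List Bool} {g : Module.End K P} (h : At (opX k d.shT) w g) :
    At (opX (k + 1) d) (true :: w) g := fun f => h (tl (K := K) true f)
variable {d} in
theorem atEF {k : ℕ} {i : I} {w : List Bool} {g : Module.End K P} (h : At (opE k i d.shF) w g) :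
    At (opE (k + 1) i d) (false :: w) g := fun f => h (tl (K := K) false f)
variable {d} in
theorem atET {k : ℕ} {i : I} {w : List Bool} {g : Module.End K P} (h : At (opE k i d.shT) w g) :
    At (opE (k + 1) i d) (true :: w) g := fun f => h (tl (K := K) true f)

theorem atX1FF (w : List Bool) : At (opX 1 d) (false :: false :: w) (d.r1 (D.x 1)) := by
  have h := atXF (atX0F d.shF w)
  rwa [shF_r1, Datum.shn_x] at h
theorem atX1FT (w : List Bool) : At (opX 1 d) (false :: true :: w) (d.r2 (D.x 0)) :=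
  atXF (atX0T d.shF w)
theorem atX1TF (w : List Bool) : At (opX 1 d) (true :: false :: w) (d.r1 (D.x 0)) :=
  atXT (atX0F d.shT w)
theorem atX1TT (w : List Bool) : At (opX 1 d) (true :: true :: w) (d.r2 (D.x 1)) := by
  have h := atXT (atX0T d.shT w)
  rwa [shT_r2, Datum.shn_x] at h
theorem atE1FF (w : List Bool) (i : I) : At (opE 1 i d) (false :: false :: w) (d.r1 (D.e 1 i)) := by
  have h := atEF (atE0F d.shF w i)
  rwa [shF_r1, Datum.shn_e] at h
theorem atE1FT (w : List Bool) (i : I) : At (opE 1 i d) (false :: true :: w) (d.r2 (D.e 0 i)) :=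
  atEF (atE0T d.shF w i)
theorem atE1TF (w : List Bool) (i : I) : At (opE 1 i d) (true :: false :: w) (d.r1 (D.e 0 i)) :=
  atET (atE0F d.shT w i)
theorem atE1TT (w : List Bool) (i : I) : At (opE 1 i d) (true :: true :: w) (d.r2 (D.e 1 i)) := by
  have h := atET (atE0T d.shT w i)
  rwa [shT_r2, Datum.shn_e] at h

theorem atX2FFF (w : List Bool) :
    At (opX 2 d) (false :: false :: false :: w) (d.r1 (D.x 2)) := by
  have h := atXF (atX1FF d.shF w)
  rwa [shF_r1, Datum.shn_x] at h
theorem atX2FFT (w : List Bool) :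
    At (opX 2 d) (false :: false :: true :: w) (d.r2 (D.x 0)) := atXF (atX1FT d.shF w)
theorem atX2FTF (w : List Bool) :
    At (opX 2 d) (false :: true :: false :: w) (d.r1 (D.x 1)) := by
  have h := atXF (atX1TF d.shF w)
  rwa [shF_r1, Datum.shn_x] at h
theorem atX2FTT (w : List Bool) :
    At (opX 2 d) (false :: true :: true :: w) (d.r2 (D.x 1)) := atXF (atX1TT d.shF w)
theorem atX2TFF (w : List Bool) :
    At (opX 2 d) (true :: false :: false :: w) (d.r1 (D.x 1)) := atXT (atX1FF d.shT w)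
theorem atX2TFT (w : List Bool) :
    At (opX 2 d) (true :: false :: true :: w) (d.r2 (D.x 1)) := by
  have h := atXT (atX1FT d.shT w)
  rwa [shT_r2, Datum.shn_x] at h
theorem atX2TTF (w : List Bool) :
    At (opX 2 d) (true :: true :: false :: w) (d.r1 (D.x 0)) := atXT (atX1TF d.shT w)
theorem atX2TTT (w : List Bool) :
    At (opX 2 d) (true :: true :: true :: w) (d.r2 (D.x 2)) := by
  have h := atXT (atX1TT d.shT w)
  rwa [shT_r2, Datum.shn_x] at h

theorem atE2FFF (w : List Bool) (i : I) :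
    At (opE 2 i d) (false :: false :: false :: w) (d.r1 (D.e 2 i)) := by
  have h := atEF (atE1FF d.shF w i)
  rwa [shF_r1, Datum.shn_e] at h
theorem atE2FFT (w : List Bool) (i : I) :
    At (opE 2 i d) (false :: false :: true :: w) (d.r2 (D.e 0 i)) := atEF (atE1FT d.shF w i)
theorem atE2FTF (w : List Bool) (i : I) :
    At (opE 2 i d) (false :: true :: false :: w) (d.r1 (D.e 1 i)) := by
  have h := atEF (atE1TF d.shF w i)
  rwa [shF_r1, Datum.shn_e] at h
theorem atE2FTT (w : List Bool) (i : I) :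
    At (opE 2 i d) (false :: true :: true :: w) (d.r2 (D.e 1 i)) := atEF (atE1TT d.shF w i)
theorem atE2TFF (w : List Bool) (i : I) :
    At (opE 2 i d) (true :: false :: false :: w) (d.r1 (D.e 1 i)) := atET (atE1FF d.shT w i)
theorem atE2TFT (w : List Bool) (i : I) :
    At (opE 2 i d) (true :: false :: true :: w) (d.r2 (D.e 1 i)) := by
  have h := atET (atE1FT d.shT w i)
  rwa [shT_r2, Datum.shn_e] at h
theorem atE2TTF (w : List Bool) (i : I) :
    At (opE 2 i d) (true :: true :: false :: w) (d.r1 (D.e 0 i)) := atET (atE1TF d.shT w i)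
theorem atE2TTT (w : List Bool) (i : I) :
    At (opE 2 i d) (true :: true :: true :: w) (d.r2 (D.e 2 i)) := by
  have h := atET (atE1TT d.shT w i)
  rwa [shT_r2, Datum.shn_e] at h

end Loc

/-! ### the pointwise form of the formal identities -/

section pt

variable {t A0 A1 k0 k1 l0 l1 th th' : Module.End K P}
  (h : Cross t A0 A1 k0 k1 l0 l1 th th') (a b c : P)
include h

theorem pt1 : (A1 + k1) ((A0 + k0) (t c) - A0 (A1 b + (l1 - A1) a)) - A1 (t ((A1 + k1) b - A1 a)) -
    t ((A1 + k1) ((A0 + k0) c - A0 b) - A1 (t a)) = (A0 * (t * t - k1 * l1)) a := by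
  have h1 := LinearMap.congr_fun h.e11 a
  have h2 := LinearMap.congr_fun h.e12 b
  have h3 := LinearMap.congr_fun h.e13 c
  simp only [LinearMap.add_apply, LinearMap.sub_apply, LinearMap.neg_apply, Module.End.mul_apply,
    map_add, map_sub, LinearMap.zero_apply] at h1 h2 h3 ⊢
  have h4 := congr (congrArg HAdd.hAdd (congr (congrArg HAdd.hAdd h1) h2)) h3
  rw [← sub_eq_zero] at h4 ⊢
  rw [← h4]
  abel

theorem pt2 : A1 ((A0 + k0) (t c) - A0 (A1 b + (l1 - A1) a)) + (l1 - A1) (t ((A1 + k1) b - A1 a)) -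
    ((A0 + k0) (t (A0 c + (l0 - A0) b)) - A0 (A1 ((A0 + k0) c - A0 b) + (l1 - A1) (t a))) =
    (l1 * th + k0 * th') b := by
  have h1 := LinearMap.congr_fun h.e21 a
  have h2 := LinearMap.congr_fun h.e22 b
  have h3 := LinearMap.congr_fun h.e23 c
  simp only [LinearMap.add_apply, LinearMap.sub_apply, LinearMap.neg_apply, Module.End.mul_apply,
    map_add, map_sub, LinearMap.zero_apply] at h1 h2 h3 ⊢
  have h4 := congr (congrArg HAdd.hAdd (congr (congrArg HAdd.hAdd h1) h2)) h3
  rw [← sub_eq_zero] at h4 ⊢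
  rw [← h4]
  abel

theorem pt3 : t (A0 (t c) + (l0 - A0) (A1 b + (l1 - A1) a)) -
    (A0 (t (A0 c + (l0 - A0) b)) + (l0 - A0) (A1 ((A0 + k0) c - A0 b) + (l1 - A1) (t a))) =
    (A1 * (t * t - l0 * k0)) c := by
  have h1 := LinearMap.congr_fun h.e31 a
  have h2 := LinearMap.congr_fun h.e32 b
  have h3 := LinearMap.congr_fun h.e33 c
  simp only [LinearMap.add_apply, LinearMap.sub_apply, LinearMap.neg_apply, Module.End.mul_apply,
    map_add, map_sub, LinearMap.zero_apply] at h1 h2 h3 ⊢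
  have h4 := congr (congrArg HAdd.hAdd (congr (congrArg HAdd.hAdd h1) h2)) h3
  rw [← sub_eq_zero] at h4 ⊢
  rw [← h4]
  abel

end pt

namespace Loc

variable (d : Loc D P)

theorem er1 : d.A 0 0 * (d.tt * d.tt - d.qq 1 0 * d.nn 1 0) = d.erA := by
  rw [(Dg.dQ d 1 0).cN, nn_qq, erA_eq]
theorem er1' : d.A 0 0 * (d.tt * d.tt - d.nn 1 0 * d.qq 1 0) = d.erA := by
  rw [nn_qq, erA_eq]
theorem er2 : d.nn 1 0 * d.th + d.qq 0 0 * 0 = d.erB := by
  rw [nn1_th, mul_zero, add_zero, erB_eq]
theorem er2' : d.qq 1 0 * 0 + d.nn 0 0 * d.th = d.erB := by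
  rw [nn0_th, mul_zero, zero_add, erB_eq]
theorem er3 : d.A 1 0 * (d.tt * d.tt - d.nn 0 0 * d.qq 0 0) = d.erC := by
  rw [nn_qq, erC_eq]
theorem er3' : d.A 1 0 * (d.tt * d.tt - d.qq 0 0 * d.nn 0 0) = d.erC := by
  rw [(Dg.dQ d 0 0).cN, nn_qq, erC_eq]

/-! the crossings of mixed words in terms of `swap` -/

section sw

variable (f : List Bool → P) (w : List Bool)

theorem T0_TF' : d.T0 f (true :: false :: w) =
    (d.swap.A 0 0 + d.swap.nn 0 0) (f (false :: true :: w)) -
      d.swap.A 0 0 (f (true :: false :: w)) := by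
  rw [T0_TF, swap_A, swap_nn]
  simp only [LinearMap.add_apply, LinearMap.sub_apply, LinearMap.neg_apply]
  abel
theorem T0_FT' : d.T0 f (false :: true :: w) = d.swap.A 0 0 (f (false :: true :: w)) +
    (d.swap.qq 0 0 - d.swap.A 0 0) (f (true :: false :: w)) := by
  rw [T0_FT, swap_A, swap_qq]
  simp only [LinearMap.add_apply, LinearMap.sub_apply, LinearMap.neg_apply]
  abel
theorem T0_TT' : d.T0 f (true :: true :: w) = d.swap.tt (f (true :: true :: w)) := rfl
theorem T1_TTF' : opT 1 d f (true :: true :: false :: w) =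
    (d.swap.A 1 0 + d.swap.nn 1 0) (f (true :: false :: true :: w)) -
      d.swap.A 1 0 (f (true :: true :: false :: w)) := by
  rw [T1_TTF, swap_A, swap_nn]
  simp only [LinearMap.add_apply, LinearMap.sub_apply, LinearMap.neg_apply]
  abel
theorem T1_TFT' : opT 1 d f (true :: false :: true :: w) =
    d.swap.A 1 0 (f (true :: false :: true :: w)) +
      (d.swap.qq 1 0 - d.swap.A 1 0) (f (true :: true :: false :: w)) := by
  rw [T1_TFT, swap_A, swap_qq]
  simp only [LinearMap.add_apply, LinearMap.sub_apply, LinearMap.neg_apply]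
  abel
theorem T1_FTT' : opT 1 d f (false :: true :: true :: w) =
    d.swap.tt (f (false :: true :: true :: w)) := rfl
theorem T0_FF' : d.T0 f (false :: false :: w) = d.tt (f (false :: false :: w)) := rfl
theorem T1_TFF' : opT 1 d f (true :: false :: false :: w) =
    d.tt (f (true :: false :: false :: w)) := rfl

end sw

theorem rhs_at {w : List Bool} {x0 x1 x2 : Module.End K P} {e0 e1 e2 : I → Module.End K P}
    (hx0 : At (opX 0 d) w x0) (hx1 : At (opX 1 d) w x1) (hx2 : At (opX 2 d) w x2)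
    (he0 : ∀ i, At (opE 0 i d) w (e0 i)) (he1 : ∀ i, At (opE 1 i d) w (e1 i))
    (he2 : ∀ i, At (opE 2 i d) w (e2 i)) (f : List Bool → P) :
    (∑ i, ∑ j, if i = j then 0 else
      D.QD i j (opX 0 d) (opX (0 + 2) d) (opX (0 + 1) d) *
          (opE 0 i d * opE (0 + 1) j d * opE (0 + 2) i d)) f w =
    (∑ i, ∑ j, if i = j then 0 else
      D.QD i j x0 x2 x1 * (e0 i * e1 j * e2 i)) (f w) :=
  At.rhs hx0 hx1 hx2 he0 he1 he2 f

theorem braid_zero :
    opT (0 + 1) d * opT 0 d * opT (0 + 1) d - opT 0 d * opT (0 + 1) d * opT 0 d =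
    ∑ i, ∑ j, if i = j then 0 else
      D.QD i j (opX 0 d) (opX (0 + 2) d) (opX (0 + 1) d) *
          (opE 0 i d * opE (0 + 1) j d * opE (0 + 2) i d) := by
  ext f w
  rw [show (opT (0 + 1) d * opT 0 d * opT (0 + 1) d - opT 0 d * opT (0 + 1) d * opT 0 d) f w =
    opT 1 d (d.T0 (opT 1 d f)) w - d.T0 (opT 1 d (d.T0 f)) w from rfl]
  match w with
  | [] =>
    rw [At.rhs0 (D := D) (atXnil d 0) (atXnil d 1) (atXnil d 2) (atEnil d 0) (atEnil d 1)
      (atEnil d 2) f, opT_nil, T0_nil, sub_zero]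
  | [false] =>
    rw [At.rhs0 (D := D) (atX0F d _) (atXF (atXnil d.shF 0)) (atXF (atXnil d.shF 1)) (atE0F d _)
      (fun i => atEF (atEnil d.shF 0 i)) (fun i => atEF (atEnil d.shF 1 i)) f]
    rw [opT_one_F, T0_nil, T0_one, sub_zero]
  | [true] =>
    rw [At.rhs0 (D := D) (atX0T d _) (atXT (atXnil d.shT 0)) (atXT (atXnil d.shT 1)) (atE0T d _)
      (fun i => atET (atEnil d.shT 0 i)) (fun i => atET (atEnil d.shT 1 i)) f]
    rw [opT_one_T, T0_nil, T0_one, sub_zero]
  | [false, false] =>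
    rw [At.rhs0 (D := D) (atX0F d _) (atX1FF d _) (atXF (atXF (atXnil d.shF.shF 0))) (atE0F d _)
      (atE1FF d _) (fun i => atEF (atEF (atEnil d.shF.shF 0 i))) f]
    simp only [opT_one_F, T0_one, T0_FF', map_zero, sub_zero]
  | [false, true] =>
    rw [At.rhs0 (D := D) (atX0F d _) (atX1FT d _) (atXF (atXT (atXnil d.shF.shT 0))) (atE0F d _)
      (atE1FT d _) (fun i => atEF (atET (atEnil d.shF.shT 0 i))) f]
    simp only [opT_one_F, opT_one_T, T0_one, T0_FT, map_zero, sub_zero]
  | [true, false] =>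
    rw [At.rhs0 (D := D) (atX0T d _) (atX1TF d _) (atXT (atXF (atXnil d.shT.shF 0))) (atE0T d _)
      (atE1TF d _) (fun i => atET (atEF (atEnil d.shT.shF 0 i))) f]
    simp only [opT_one_F, opT_one_T, T0_one, T0_TF, map_zero, add_zero, sub_zero]
  | [true, true] =>
    rw [At.rhs0 (D := D) (atX0T d _) (atX1TT d _) (atXT (atXT (atXnil d.shT.shT 0))) (atE0T d _)
      (atE1TT d _) (fun i => atET (atET (atEnil d.shT.shT 0 i))) f]
    simp only [opT_one_F, opT_one_T, T0_one, T0_TT, map_zero, sub_zero]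
  | false :: false :: false :: w =>
    rw [rhs_at d (atX0F d _) (atX1FF d _) (atX2FFF d _) (atE0F d _) (atE1FF d _) (atE2FFF d _) f,
      ← braid_F]
    simp only [T1_FFF, T0_FF]
    rfl
  | true :: true :: true :: w =>
    rw [rhs_at d (atX0T d _) (atX1TT d _) (atX2TTT d _) (atE0T d _) (atE1TT d _) (atE2TTT d _) f]
    have h := d.swap.braid_F
    rw [show d.swap.r1 = d.r2 from rfl] at h
    rw [← h]
    simp only [T1_TTT, T0_TT]
    rfl
  | false :: false :: true :: w =>
    rw [rhs_at d (atX0F d _) (atX1FF d _) (atX2FFT d _) (atE0F d _) (atE1FF d _) (atE2FFT d _) f]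
    simp only [T1_FFT, T1_FTF, T1_TFF', T0_FF', T0_FT, T0_TF]
    rw [pt1 d.cross1, er1]
    rfl
  | false :: true :: false :: w =>
    rw [rhs_at d (atX0F d _) (atX1FT d _) (atX2FTF d _) (atE0F d _) (atE1FT d _) (atE2FTF d _) f]
    simp only [T1_FFT, T1_FTF, T1_TFF', T0_FF', T0_FT, T0_TF]
    rw [pt2 d.cross1, er2]
    rfl
  | true :: false :: false :: w =>
    rw [rhs_at d (atX0T d _) (atX1TF d _) (atX2TFF d _) (atE0T d _) (atE1TF d _) (atE2TFF d _) f]
    simp only [T1_FFT, T1_FTF, T1_TFF', T0_FF', T0_FT, T0_TF]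
    rw [pt3 d.cross1, er3]
    rfl
  | true :: true :: false :: w =>
    rw [rhs_at d (atX0T d _) (atX1TT d _) (atX2TTF d _) (atE0T d _) (atE1TT d _) (atE2TTF d _) f]
    simp only [T1_TTF', T1_TFT', T1_FTT', T0_TT', T0_FT', T0_TF']
    rw [pt1 d.swap.cross2, er1']
    rfl
  | true :: false :: true :: w =>
    rw [rhs_at d (atX0T d _) (atX1TF d _) (atX2TFT d _) (atE0T d _) (atE1TF d _) (atE2TFT d _) f]
    simp only [T1_TTF', T1_TFT', T1_FTT', T0_TT', T0_FT', T0_TF']
    rw [pt2 d.swap.cross2, er2']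
    rfl
  | false :: true :: true :: w =>
    rw [rhs_at d (atX0F d _) (atX1FT d _) (atX2FTT d _) (atE0F d _) (atE1FT d _) (atE2FTT d _) f]
    simp only [T1_TTF', T1_TFT', T1_FTT', T0_TT', T0_FT', T0_TF']
    rw [pt3 d.swap.cross2, er3']
    rfl

end Loc

namespace Loc

theorem glue_QD_mul {D : Datum K I} (i j : I)
    (x x' z z' y y' g g' : Module.End K (List Bool → P)) :
    D.QD i j (glue x x') (glue z z') (glue y y') * glue g g' =
      glue (D.QD i j x z y * g) (D.QD i j x' z' y' * g') := by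
  unfold Datum.QD
  rw [Finset.sum_mul, Finset.sum_mul, Finset.sum_mul, ← glue_sum]
  refine Finset.sum_congr rfl fun p _ => ?_
  rw [Finset.sum_mul, Finset.sum_mul, Finset.sum_mul, ← glue_sum]
  refine Finset.sum_congr rfl fun q _ => ?_
  rw [smul_mul_assoc, smul_mul_assoc, smul_mul_assoc, ← glue_smul]
  congr 1
  rw [mul_assoc, glue_pow_mul, mul_assoc, mul_assoc, Finset.sum_mul, Finset.sum_mul,
    Finset.sum_mul, ← glue_sum]
  refine Finset.sum_congr rfl fun r _ => ?_
  rw [mul_assoc, glue_pow_mul, glue_pow_mul, mul_assoc, mul_assoc]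

end Loc

open Loc in
theorem prf_rB (D : Datum K I) : S_rB D := by
  intro P _ _ d k
  induction k generalizing d with
  | zero => exact d.braid_zero
  | succ k ih =>
    have h1 := ih d.shF
    have h2 := ih d.shT
    have h3 : ∀ i j : I, (if i = j then 0 else
      D.QD i j (opX (k + 1) d) (opX (k + 1 + 2) d) (opX (k + 1 + 1) d) *
          (opE (k + 1) i d * opE (k + 1 + 1) j d * opE (k + 1 + 2) i d)) =
      glue (if i = j then 0 else
        D.QD i j (opX k d.shF) (opX (k + 2) d.shF) (opX (k + 1) d.shF) *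
            (opE k i d.shF * opE (k + 1) j d.shF * opE (k + 2) i d.shF))
        (if i = j then 0 else
        D.QD i j (opX k d.shT) (opX (k + 2) d.shT) (opX (k + 1) d.shT) *
            (opE k i d.shT * opE (k + 1) j d.shT * opE (k + 2) i d.shT)) := by
      intro i j
      split_ifs
      · exact glue_zero.symm
      · rw [show opX (k + 1 + 1) d = glue (opX (k + 1) d.shF) (opX (k + 1) d.shT) from rfl,
          show opX (k + 1 + 2) d = glue (opX (k + 2) d.shF) (opX (k + 2) d.shT) from rfl,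
          show opE (k + 1 + 1) j d = glue (opE (k + 1) j d.shF) (opE (k + 1) j d.shT) from rfl,
          show opE (k + 1 + 2) i d = glue (opE (k + 2) i d.shF) (opE (k + 2) i d.shT) from rfl,
          opX_succ, opE_succ, glue_mul, glue_mul, glue_QD_mul]
    simp only [h3, glue_sum]
    rw [← h1, ← h2, show opT (k + 1 + 1) d = glue (opT (k + 1) d.shF) (opT (k + 1) d.shT) from rfl,
      show opT (k + 1) d = glue (opT k d.shF) (opT k d.shT) from rfl, glue_mul, glue_mul, glue_mul,
      glue_mul, glue_sub]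

end Pbw

end Pool.Agent.KLS

end

section

/-! MP_e487d8_al, block Gk: graded characters and homogeneous maps. -/

set_option autoImplicit false
set_option linter.unusedSectionVars false

open scoped LaurentPolynomial TensorProduct
open Pool.Agent.E487.Hopf

namespace Pool.Agent.KLS

variable {K I : Type} [Field K] [Fintype I] [DecidableEq I] {D : Datum K I}

variable {M M₁ M₂ N : Type} [AddCommGroup M] [Module K M] [Module (KLRAlg D) M]
  [IsScalarTower K (KLRAlg D) M] [AddCommGroup N] [Module K N] [Module (KLRAlg D) N]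
  [IsScalarTower K (KLRAlg D) N] [AddCommGroup M₁] [Module K M₁] [Module (KLRAlg D) M₁]
  [IsScalarTower K (KLRAlg D) M₁] [AddCommGroup M₂] [Module K M₂] [Module (KLRAlg D) M₂]
  [IsScalarTower K (KLRAlg D) M₂]

theorem HomDeg.gop {gM : Grd D M} {gN : Grd D N} {s : ℤ} {f : M →ₗ[KLRAlg D] N}
    (hf : HomDeg gM gN s f) (ν : List I) (d : ℤ) (u : M) :
    gN.gop ν (d + s) (f u) = f (gM.gop ν d u) := by
  rw [Grd.gop_apply, Grd.gop_apply, hf.pr, map_smul]

theorem HomDeg.range_gop_of_surj {gM : Grd D M} {gN : Grd D N} {s : ℤ} {f : M →ₗ[KLRAlg D] N}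
    (hf : HomDeg gM gN s f) (hs : Function.Surjective f) (ν : List I) (d : ℤ) :
    LinearMap.range (gN.gop ν (d + s)) = (LinearMap.range (gM.gop ν d)).map (Conv.toK f) := by
  apply le_antisymm
  · rintro _ ⟨v, rfl⟩
    obtain ⟨u, rfl⟩ := hs v
    rw [hf.gop]
    exact ⟨_, ⟨u, rfl⟩, rfl⟩
  · rintro _ ⟨_, ⟨u, rfl⟩, rfl⟩
    exact ⟨f u, hf.gop ν d u⟩

/-- surjective homogeneous maps do not increase the graded dimension -/
theorem HomDeg.gdim_le [FiniteDimensional K M] {gM : Grd D M} {gN : Grd D N} {s : ℤ}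
    {f : M →ₗ[KLRAlg D] N} (hf : HomDeg gM gN s f) (hs : Function.Surjective f) (ν : List I)
    (d : ℤ) : gN.gdim ν (d + s) ≤ gM.gdim ν d := by
  unfold Grd.gdim
  rw [hf.range_gop_of_surj hs]
  exact Submodule.finrank_map_le _ _

/-- homogeneous isomorphisms -/
theorem HomDeg.gdim_eq {gM : Grd D M} {gN : Grd D N} {s : ℤ}
    {f : M →ₗ[KLRAlg D] N} (hf : HomDeg gM gN s f) (hb : Function.Bijective f) (ν : List I)
    (d : ℤ) : gN.gdim ν (d + s) = gM.gdim ν d := by
  unfold Grd.gdim
  rw [hf.range_gop_of_surj hb.2]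
  exact (Submodule.equivMapOfInjective (Conv.toK f) hb.1 _).finrank_eq.symm

/-- exact sequences -/
theorem gdim_exact [FiniteDimensional K M] {g₁ : Grd D M₁} {g : Grd D M} {g₂ : Grd D M₂} {a b : ℤ}
    {i : M₁ →ₗ[KLRAlg D] M} {q : M →ₗ[KLRAlg D] M₂} (hi : HomDeg g₁ g a i) (hq : HomDeg g g₂ b q)
    (hi' : Function.Injective i) (hq' : Function.Surjective q)
    (he : LinearMap.ker q = LinearMap.range i) (ν : List I) (d : ℤ) :
    g.gdim ν d = g₁.gdim ν (d - a) + g₂.gdim ν (d + b) := by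
  set W := LinearMap.range (g.gop ν d) with hW
  let φ : W →ₗ[K] M₂ := (Conv.toK q).comp W.subtype
  have h1 := LinearMap.finrank_range_add_finrank_ker φ
  have h2 : LinearMap.range φ = LinearMap.range (g₂.gop ν (d + b)) := by
    rw [hq.range_gop_of_surj hq']
    change LinearMap.range ((Conv.toK q).comp W.subtype) = _
    rw [LinearMap.range_comp, Submodule.range_subtype]
  have h3 : (LinearMap.ker φ).map W.subtype =
      (LinearMap.range (g₁.gop ν (d - a))).map (Conv.toK i) := by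
    apply le_antisymm
    · rintro _ ⟨⟨w, w', hw⟩, hk, rfl⟩
      have hk' : w ∈ LinearMap.ker q := hk
      rw [he] at hk'
      obtain ⟨v, hv⟩ := hk'
      refine ⟨g₁.gop ν (d - a) v, ⟨v, rfl⟩, ?_⟩
      change i (g₁.gop ν (d - a) v) = w
      rw [← hi.gop, sub_add_cancel, hv, ← hw]
      exact LinearMap.congr_fun (g.gop_idem ν d) w'
    · rintro _ ⟨_, ⟨v, rfl⟩, rfl⟩
      have h4 : i (g₁.gop ν (d - a) v) = g.gop ν d (i v) := by
        rw [← hi.gop, sub_add_cancel]
      refine ⟨⟨i (g₁.gop ν (d - a) v), ⟨i v, h4.symm⟩⟩, ?_, rfl⟩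
      change i (g₁.gop ν (d - a) v) ∈ LinearMap.ker q
      rw [he]
      exact ⟨_, rfl⟩
  have h4 : Module.finrank K (LinearMap.ker φ) = g₁.gdim ν (d - a) := by
    have h5 := (Submodule.equivMapOfInjective W.subtype (Submodule.injective_subtype W)
      (LinearMap.ker φ)).finrank_eq
    have h6 := (Submodule.equivMapOfInjective (Conv.toK i) hi'
      (LinearMap.range (g₁.gop ν (d - a)))).finrank_eq
    rw [h5, h3, ← h6]
    rfl
  rw [h2, h4] at h1
  have h5 : g.gdim ν d = Module.finrank K W := rfl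
  have h6 : g₂.gdim ν (d + b) = Module.finrank K (LinearMap.range (g₂.gop ν (d + b))) := rfl
  rw [h5, ← h1, h6, add_comm]

omit [Fintype I] [DecidableEq I] in
theorem coeff_tt_mul (s : ℤ) (p : ℤ[T;T⁻¹]) (d : ℤ) : (QSh.tt s * p).coeff d = p.coeff (d - s) := by
  have h := AddMonoidAlgebra.coeff_single_mul_eq_mul_coeff (r := (1 : ℤ)) (m := s) (x := p)
    (m₁ := d) (d - s) (fun m' _ => by constructor <;> intro h <;> omega)
  rw [one_mul] at h
  exact h

omit [Fintype I] [DecidableEq I] in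
theorem coeff_mul' {p : ℤ[T;T⁻¹]} (S : Finset ℤ) (hS : ∀ a, a ∉ S → p.coeff a = 0)
    (q : ℤ[T;T⁻¹]) (d : ℤ) : (p * q).coeff d = ∑ a ∈ S, p.coeff a * q.coeff (d - a) := by
  classical
  rw [AddMonoidAlgebra.coeff_mul]
  have h1 : ∀ a r : ℤ, (q.coeff.sum fun b r' => if a + b = d then r * r' else 0) =
      r * q.coeff (d - a) := by
    intro a r
    rw [Finsupp.sum, Finset.sum_eq_single (d - a)]
    · rw [if_pos (by ring)]
    · intro b _ hb
      rw [if_neg]
      intro h
      apply hb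
      omega
    · intro h
      rw [Finsupp.notMem_support_iff.1 h, mul_zero, ite_self]
  simp only [h1]
  rw [Finsupp.sum]
  refine Finset.sum_subset (fun a ha => ?_) fun a _ ha => ?_
  · by_contra h
    exact (Finsupp.mem_support_iff.1 ha) (hS a h)
  · rw [Finsupp.notMem_support_iff.1 ha, zero_mul]

/-- (E1) -/
theorem gchr_iso [FiniteDimensional K M] {gM : Grd D M} {gN : Grd D N} {s : ℤ}
    (f : M ≃ₗ[KLRAlg D] N) (hf : HomDeg gM gN s f.toLinearMap) (n : ℕ) :
    gN.gchr n = QSh.tt s • gM.gchr n := by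
  have hN : FiniteDimensional K N :=
    Module.Finite.of_surjective (Conv.toK f.toLinearMap) f.surjective
  apply QSh.ext'
  intro ν
  rw [QSh.smul_apply]
  by_cases h : ν.length = n
  · ext d
    rw [coeff_tt_mul, gN.coeff_gchr h, gM.coeff_gchr h, ← hf.gdim_eq f.bijective, sub_add_cancel]
  · rw [gN.gchr_ne h, gM.gchr_ne h, mul_zero]

/-- (E2) -/
theorem gchr_exact [FiniteDimensional K M] {g₁ : Grd D M₁} {g : Grd D M} {g₂ : Grd D M₂} {a b : ℤ}
    {i : M₁ →ₗ[KLRAlg D] M} {q : M →ₗ[KLRAlg D] M₂} (hi : HomDeg g₁ g a i) (hq : HomDeg g g₂ b q)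
    (hi' : Function.Injective i) (hq' : Function.Surjective q)
    (he : LinearMap.ker q = LinearMap.range i) (n : ℕ) :
    g.gchr n = QSh.tt a • g₁.gchr n + QSh.tt (-b) • g₂.gchr n := by
  have h1 : FiniteDimensional K M₁ := Module.Finite.of_injective (Conv.toK i) hi'
  have h2 : FiniteDimensional K M₂ := Module.Finite.of_surjective (Conv.toK q) hq'
  apply QSh.ext'
  intro ν
  rw [QSh.add_apply, QSh.smul_apply, QSh.smul_apply]
  by_cases h : ν.length = n
  · ext d
    rw [AddMonoidAlgebra.coeff_add, Finsupp.add_apply, coeff_tt_mul, coeff_tt_mul, g.coeff_gchr h,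
      g₁.coeff_gchr h, g₂.coeff_gchr h, gdim_exact hi hq hi' hq' he, sub_neg_eq_add, Nat.cast_add]
  · rw [g.gchr_ne h, g₁.gchr_ne h, g₂.gchr_ne h, mul_zero, mul_zero, add_zero]

end Pool.Agent.KLS

end

section

/-! MP_e487d8_al, block Gk: the degree of the shuffle elements `tw w`; the quantum shuffle product
as a sum over shuffles. -/

set_option autoImplicit false
set_option linter.unusedSectionVars false

open scoped LaurentPolynomial TensorProduct
open Pool.Agent.E487.Hopf

namespace Pool.Agent.KLS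

section comb

variable {I : Type} {B : I → I → ℤ}

/-- the degree of the shuffle `w` on the word `κ` -/
def twd (B : I → I → ℤ) : List Bool → List I → ℤ
  | [], _ => 0
  | _ :: _, [] => 0
  | false :: w, _ :: κ => twd B w κ
  | true :: w, i :: κ => twd B w κ - QSh.bw B i (sel false w κ)

theorem twd_false (w : List Bool) (i : I) (κ : List I) :
    twd B (false :: w) (i :: κ) = twd B w κ := rfl

theorem twd_true (w : List Bool) (i : I) (κ : List I) :
    twd B (true :: w) (i :: κ) = twd B w κ - QSh.bw B i (sel false w κ) := rfl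

theorem twd_replicate_true (n : ℕ) (κ : List I) : twd B (List.replicate n true) κ = 0 := by
  induction n generalizing κ with
  | zero => rfl
  | succ n ih =>
    cases κ with
    | nil => rfl
    | cons i κ =>
      rw [List.replicate_succ, twd_true, ih, sel_replicate_ne (by decide), QSh.bw_nil, sub_zero]

theorem twd_replicate_false (n : ℕ) (κ : List I) : twd B (List.replicate n false) κ = 0 := by
  induction n generalizing κ with
  | zero => rfl
  | succ n ih =>
    cases κ with
    | nil => rfl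
    | cons i κ => rw [List.replicate_succ, twd_false, ih]

theorem qsm_len_zero_left (κ : List I) (f g : QSh B) (hf : ∀ ν : List I, ν.length ≠ 0 → f ν = 0) :
    QSh.sm κ f g = f [] * g κ := by
  induction κ generalizing f g with
  | nil => rfl
  | cons i κ ih =>
    have h0 : QSh.L i f = 0 := by
      apply QSh.ext'
      intro w
      exact hf (i :: w) (by simp)
    have h1 : QSh.Kk i f [] = f [] := by
      rw [QSh.Kk_apply, QSh.bw_nil, neg_zero, QSh.tt_zero, one_mul]
    rw [QSh.sm, h0, QSh.sm_zero_left, zero_add, ih (QSh.Kk i f) _ (fun ν hν => by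
      rw [QSh.Kk_apply, hf ν hν, mul_zero]), h1]
    rfl

theorem qsm_len_zero_right (κ : List I) (f g : QSh B) (hg : ∀ ν : List I, ν.length ≠ 0 → g ν = 0) :
    QSh.sm κ f g = f κ * g [] := by
  induction κ generalizing f g with
  | nil => rfl
  | cons i κ ih =>
    have h0 : QSh.L i g = 0 := by
      apply QSh.ext'
      intro w
      exact hg (i :: w) (by simp)
    rw [QSh.sm, h0, QSh.sm_zero_right, add_zero, ih _ _ hg]
    rfl

/-- the quantum shuffle product as a sum over shuffles -/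
theorem qsm_eq_sum (κ : List I) (m n : ℕ) (f g : QSh B)
    (hf : ∀ ν : List I, ν.length ≠ m → f ν = 0) (hg : ∀ ν : List I, ν.length ≠ n → g ν = 0)
    (h : κ.length = m + n) :
    QSh.sm κ f g = ∑ w : Shf m n, QSh.tt (twd B w.1 κ) *
      (f (sel false w.1 κ) * g (sel true w.1 κ)) := by
  induction κ generalizing m n f g with
  | nil =>
    obtain ⟨rfl, rfl⟩ : m = 0 ∧ n = 0 := by
      rw [List.length_nil] at h
      omega
    rw [Shf.sum_zero_left 0 (fun w => QSh.tt (twd B w []) * (f (sel false w []) * g (sel true w [])))]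
    change f [] * g [] = QSh.tt 0 * (f [] * g [])
    rw [QSh.tt_zero, one_mul]
  | cons i κ ih =>
    rcases m with _ | m
    · rw [Nat.zero_add] at h
      rw [Shf.sum_zero_left n (fun w => QSh.tt (twd B w (i :: κ)) *
          (f (sel false w (i :: κ)) * g (sel true w (i :: κ)))),
        qsm_len_zero_left _ f g hf, ← h, sel_replicate_self, sel_replicate_ne (by decide),
        twd_replicate_true, QSh.tt_zero, one_mul]
    rcases n with _ | n
    · rw [Nat.add_zero] at h
      rw [Shf.sum_zero_right (m + 1) (fun w => QSh.tt (twd B w (i :: κ)) *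
          (f (sel false w (i :: κ)) * g (sel true w (i :: κ)))),
        qsm_len_zero_right _ f g hg, ← h, sel_replicate_self, sel_replicate_ne (by decide),
        twd_replicate_false, QSh.tt_zero, one_mul]
    rw [List.length_cons] at h
    rw [Shf.sum_cons m n (fun w => QSh.tt (twd B w (i :: κ)) *
      (f (sel false w (i :: κ)) * g (sel true w (i :: κ)))), QSh.sm]
    rw [ih m (n + 1) (QSh.L i f) g (fun ν hν => hf _ (by rw [List.length_cons]; omega)) hg
      (by omega), ih (m + 1) n (QSh.Kk i f) (QSh.L i g) (fun ν hν => by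
        rw [QSh.Kk_apply, hf ν hν, mul_zero])
      (fun ν hν => hg _ (by rw [List.length_cons]; omega)) (by omega)]
    congr 1
    refine Finset.sum_congr rfl fun w _ => ?_
    rw [twd_true, sub_eq_add_neg, QSh.tt_add, QSh.Kk_apply]
    change QSh.tt (twd B w.1 κ) * (QSh.tt (-(QSh.bw B i (sel false w.1 κ))) * f (sel false w.1 κ) *
      g (i :: sel true w.1 κ)) = QSh.tt (twd B w.1 κ) * QSh.tt (-(QSh.bw B i (sel false w.1 κ))) *
      (f (sel false w.1 κ) * g (i :: sel true w.1 κ))
    ring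

theorem qsm_eq_zero (κ : List I) (m n : ℕ) (f g : QSh B)
    (hf : ∀ ν : List I, ν.length ≠ m → f ν = 0) (hg : ∀ ν : List I, ν.length ≠ n → g ν = 0)
    (h : κ.length ≠ m + n) : QSh.sm κ f g = 0 := by
  induction κ generalizing m n f g with
  | nil =>
    rw [QSh.sm]
    by_cases hm : m = 0
    · rw [hg [] (by rw [List.length_nil] at h ⊢; omega), mul_zero]
    · rw [hf [] (by rw [List.length_nil]; omega), zero_mul]
  | cons i κ ih =>
    rw [QSh.sm]
    rw [List.length_cons] at h
    have h1 : QSh.sm κ (QSh.L i f) g = 0 := by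
      rcases m with _ | m
      · have h0 : QSh.L i f = 0 := by
          apply QSh.ext'
          intro w
          exact hf (i :: w) (by simp)
        rw [h0, QSh.sm_zero_left]
      · exact ih m n _ g (fun ν hν => hf _ (by rw [List.length_cons]; omega)) hg (by omega)
    have h2 : QSh.sm κ (QSh.Kk i f) (QSh.L i g) = 0 := by
      rcases n with _ | n
      · have h0 : QSh.L i g = 0 := by
          apply QSh.ext'
          intro w
          exact hg (i :: w) (by simp)
        rw [h0, QSh.sm_zero_right]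
      · exact ih m n _ _ (fun ν hν => by rw [QSh.Kk_apply, hf ν hν, mul_zero])
          (fun ν hν => hg _ (by rw [List.length_cons]; omega)) (by omega)
    rw [h1, h2, add_zero]

end comb

variable {K I : Type} [Field K] [Fintype I] [DecidableEq I] {D : Datum K I}

theorem Datum.chain_succ' (D : Datum K I) (m : ℕ) :
    D.chain (m + 1) = D.t 0 * D.shn 1 (D.chain m) := by
  induction m with
  | zero =>
    change 1 * D.t 0 = D.t 0 * D.shn 1 1
    rw [map_one, one_mul, mul_one]
  | succ m ih =>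
    have h1 : D.chain (m + 1 + 1) = D.chain (m + 1) * D.t (m + 1) := rfl
    have h2 : D.chain (m + 1) = D.chain m * D.t m := rfl
    rw [h1]
    conv_lhs => rw [ih]
    rw [h2, mul_assoc, map_mul, D.shn_t, Nat.add_comm 1 m]

variable {M : Type} [AddCommGroup M] [Module K M] [Module (KLRAlg D) M]
  [IsScalarTower K (KLRAlg D) M]

/-- the degree and the word of `chain n` -/
theorem Grd.Hm.chain {g : Grd D M} (ν ρ : List I) (b : I) (o : ℕ) {d : ℤ} {u : M} (h : g.Hm d u)
    (hw : WdAt D o (ν ++ b :: ρ) u) :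
    g.Hm (d - QSh.bw D.fm b ν) (D.shn o (D.chain ν.length) • u) ∧
      WdAt D o (b :: (ν ++ ρ)) (D.shn o (D.chain ν.length) • u) := by
  induction ν generalizing o with
  | nil =>
    have h1 : D.chain ([] : List I).length = 1 := rfl
    rw [h1, map_one, one_smul]
    exact ⟨by simpa using h, hw⟩
  | cons a ν ih =>
    rw [List.cons_append, wdAt_cons] at hw
    obtain ⟨h1, h2⟩ := ih (o + 1) hw.2
    have hC : D.shn o (D.chain (a :: ν).length) = D.t o * D.shn (o + 1) (D.chain ν.length) := by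
      rw [List.length_cons, D.chain_succ', map_mul, D.shn_t, D.shn_shn, add_zero]
    rw [hC, mul_smul]
    have h3 : Col D o a (D.shn (o + 1) (D.chain ν.length) • u) :=
      hw.1.shn (Nat.lt_succ_self o) _
    rw [wdAt_cons] at h2
    refine ⟨?_, h2.1.t1, ?_, ?_⟩
    · have h4 := h1.t_col h3 h2.1
      rw [QSh.bw_cons, D.fm_symm b a]
      convert h4 using 1
      ring
    · exact h3.t0
    · exact h2.2.smul fun l i hl _ => D.t_e o l i (by omega) (by omega)

/-- the degree and the word of `tw w` -/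
theorem Grd.Hm.twQ {g : Grd D M} (w : List Bool) (κ : List I) (hl : w.length = κ.length) (o : ℕ)
    {d : ℤ} {u : M} (h : g.Hm d u) (hw : WdAt D o (sel false w κ ++ sel true w κ) u) :
    g.Hm (d + twd D.fm w κ) (D.shn o (D.tw w) • u) ∧ WdAt D o κ (D.shn o (D.tw w) • u) := by
  induction w generalizing κ o d u with
  | nil =>
    cases κ with
    | nil =>
      have h1 : D.tw [] = 1 := rfl
      rw [h1, map_one, one_smul]
      exact ⟨by simpa [twd] using h, trivial⟩
    | cons i κ => simp at hl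
  | cons c w ih =>
    cases κ with
    | nil => simp at hl
    | cons i κ =>
      rw [List.length_cons, List.length_cons, add_left_inj] at hl
      cases c with
      | false =>
        have h1 : sel false (false :: w) (i :: κ) = i :: sel false w κ := rfl
        have h2 : sel true (false :: w) (i :: κ) = sel true w κ := rfl
        rw [h1, h2, List.cons_append, wdAt_cons] at hw
        obtain ⟨h3, h4⟩ := ih κ hl (o + 1) h hw.2
        have h5 : D.tw (false :: w) = D.shn 1 (D.tw w) := rfl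
        rw [h5, D.shn_shn, twd_false]
        exact ⟨h3, hw.1.shn (Nat.lt_succ_self o) _, h4⟩
      | true =>
        have h1 : sel false (true :: w) (i :: κ) = sel false w κ := rfl
        have h2 : sel true (true :: w) (i :: κ) = i :: sel true w κ := rfl
        rw [h1, h2] at hw
        obtain ⟨h3, h4⟩ := h.chain (sel false w κ) (sel true w κ) i o hw
        rw [length_sel false w κ hl] at h3 h4
        rw [wdAt_cons] at h4
        obtain ⟨h5, h6⟩ := ih κ hl (o + 1) h3 h4.2
        have h7 : D.tw (true :: w) = D.shn 1 (D.tw w) * D.chain (w.count false) := rfl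
        rw [h7, map_mul, D.shn_shn, mul_smul, twd_true]
        refine ⟨?_, h4.1.shn (Nat.lt_succ_self o) _, h6⟩
        convert h5 using 1
        ring

end Pool.Agent.KLS

end
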