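import Pool.Agent.Work.MP_e487d8_al.Bd.B40
import Pool.Agent.Work.MP_e487d8_al.Bd.B21
import Pool.Agent.Work.MP_e487d8_al.Bd.B39
import Pool.Agent.Work.MP_e487d8_al.Bd.B22
import Pool.Agent.Work.MP_e487d8_al.Y.Grad.Able

/-! Bundle of small proof modules (one section per former module). -/

section

/-! MP_e487d8_al, block Gk: the graded character of a convolution product. -/

set_option autoImplicit false
set_option linter.unusedSectionVars false

open scoped LaurentPolynomial TensorProduct
open Pool.Agent.E487.Hopf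

namespace Pool.Agent.KLS

variable {K I : Type} [Field K] [Fintype I] [DecidableEq I] {D : Datum K I}

variable {m n : ℕ} {M N : Type} [AddCommGroup M] [Module K M] [Module (KLRAlg D) M]
  [IsScalarTower K (KLRAlg D) M] [AddCommGroup N] [Module K N] [Module (KLRAlg D) N]
  [IsScalarTower K (KLRAlg D) N]

theorem Grd.Hm.eW {g : Grd D M} {d : ℤ} {u : M} (h : g.Hm d u) (ν : List I) :
    g.Hm d (D.eW ν • u) := by
  rw [Grd.hm_iff] at h ⊢
  rw [g.pr_eW, h]

theorem Grd.Hm.gop_eq {g : Grd D M} {d : ℤ} {u : M} (h : g.Hm d u) (ν : List I) (a : ℤ) :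
    g.gop ν a u = if d = a then D.eW ν • u else 0 := by
  rw [Grd.gop_apply, h.pr_eq]
  split_ifs
  · rfl
  · rw [smul_zero]

/-- the homogeneous components of a word space of the convolution product -/
theorem gop_conv_aux (gM : Grd D M) (gN : Grd D N) (w : Shf m n) (κ : List I)
    (h : κ.length = m + n) (d : ℤ) {S : Finset ℤ} (hS : ∀ a, a ∉ S → ∀ u, gM.pr a u = 0) (u : M)
    (v : N) : (Grd.conv m gM gN).gop κ d (D.tw w.1 • Conv.mk D m M N u v) =
      ∑ a ∈ S, D.tw w.1 • Conv.mk D m M N (gM.gop (sel false w.1 κ) a u)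
        (gN.gop (sel true w.1 κ) (d - twd D.fm w.1 κ - a) v) := by
  have hl : w.1.length = κ.length := by rw [w.length_eq, h]
  have hs : (sel false w.1 κ).length = m := by rw [length_sel _ _ _ hl, w.2.1]
  set s := sel false w.1 κ with hs0
  set t := sel true w.1 κ with ht0
  induction u using gM.induction with
  | h0 => simp
  | hadd u u' hu hu' =>
    simp only [map_add, LinearMap.add_apply, smul_add, Finset.sum_add_distrib]
    rw [hu, hu']
  | h p u hu =>
    induction v using gN.induction with
    | h0 => simp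
    | hadd v v' hv hv' =>
      simp only [map_add, smul_add, Finset.sum_add_distrib]
      rw [hv, hv']
    | h q v hv =>
      rw [Grd.gop_apply, ← Grd.pr_eW, Conv.eW_smul_tw_smul_mk w κ h]
      have h1 : WdAt D 0 (s ++ t) (Conv.mk D m M N (D.eW s • u) (D.eW t • v)) := by
        refine WdAt.mk hs ?_ ?_
        · rw [wdAt_zero_iff, ← mul_smul, D.eW_idem]
        · rw [wdAt_zero_iff, ← mul_smul, D.eW_idem]
      have h2 := (Grd.Hm.twQ w.1 κ hl 0 ((hu.eW s).mk m (hv.eW t)) h1).1
      rw [D.shn_zero] at h2
      rw [h2.pr_eq]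
      simp only [hu.gop_eq, hv.gop_eq]
      by_cases hp : p ∈ S
      · rw [Finset.sum_eq_single p]
        · rw [if_pos rfl]
          by_cases hd : p + q + twd D.fm w.1 κ = d
          · rw [if_pos hd, if_pos (by rw [← hd]; ring)]
          · rw [if_neg hd, if_neg (by
              intro hh
              apply hd
              rw [hh]; ring), map_zero, smul_zero]
        · intro a _ ha
          rw [if_neg (Ne.symm ha), map_zero, LinearMap.zero_apply, smul_zero]
        · intro hh
          exact absurd hp hh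
      · have hu0 : u = 0 := by
          rw [Grd.hm_iff] at hu
          rw [← hu, hS p hp]
        subst hu0
        simp

section ops

variable (hb : S_basis D) (hM : IsStrand D m M) (hN : IsStrand D n N)

/-- the isomorphism of the shuffle basis theorem -/
noncomputable def cE : (Shf m n →₀ (M ⊗[K] N)) ≃ₗ[K] Conv D m M N :=
  LinearEquiv.ofBijective (convSum D m n M N) (hb m n M N hM hN)

/-- an operator on one component -/
noncomputable def cQ (w : Shf m n) (P : Module.End K (M ⊗[K] N)) :
    Module.End K (Conv D m M N) :=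
  (cE hb hM hN).toLinearMap ∘ₗ Finsupp.lsingle w ∘ₗ P ∘ₗ Finsupp.lapply w ∘ₗ
    (cE hb hM hN).symm.toLinearMap

theorem cQ_apply (w : Shf m n) (P : Module.End K (M ⊗[K] N)) (f : Shf m n →₀ (M ⊗[K] N)) :
    cQ hb hM hN w P (cE hb hM hN f) = cE hb hM hN (Finsupp.single w (P (f w))) := by
  change cE hb hM hN (Finsupp.single w (P (((cE hb hM hN).symm (cE hb hM hN f)) w))) = _
  rw [LinearEquiv.symm_apply_apply]

theorem cQ_zero (w : Shf m n) : cQ hb hM hN w (0 : Module.End K (M ⊗[K] N)) = 0 := by
  apply LinearMap.ext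
  intro z
  obtain ⟨f, rfl⟩ := (cE hb hM hN).surjective z
  rw [cQ_apply, LinearMap.zero_apply, Finsupp.single_zero, map_zero, LinearMap.zero_apply]

theorem cQ_mul (w : Shf m n) (P P' : Module.End K (M ⊗[K] N)) :
    cQ hb hM hN w P * cQ hb hM hN w P' = cQ hb hM hN w (P * P') := by
  apply LinearMap.ext
  intro z
  obtain ⟨f, rfl⟩ := (cE hb hM hN).surjective z
  rw [Module.End.mul_apply, cQ_apply, cQ_apply, cQ_apply, Finsupp.single_eq_same,
    Module.End.mul_apply]

theorem cQ_ne {w w' : Shf m n} (h : w ≠ w') (P P' : Module.End K (M ⊗[K] N)) :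
    cQ hb hM hN w P * cQ hb hM hN w' P' = 0 := by
  apply LinearMap.ext
  intro z
  obtain ⟨f, rfl⟩ := (cE hb hM hN).surjective z
  rw [Module.End.mul_apply, cQ_apply, cQ_apply, Finsupp.single_eq_of_ne h, map_zero,
    Finsupp.single_zero, map_zero, LinearMap.zero_apply]

theorem finrank_range_cQ (w : Shf m n) (P : Module.End K (M ⊗[K] N)) :
    Module.finrank K (LinearMap.range (cQ hb hM hN w P)) =
      Module.finrank K (LinearMap.range P) := by
  have h1 : LinearMap.range (cQ hb hM hN w P) = (LinearMap.range P).map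
      ((cE hb hM hN).toLinearMap ∘ₗ Finsupp.lsingle w) := by
    apply le_antisymm
    · rintro _ ⟨z, rfl⟩
      obtain ⟨f, rfl⟩ := (cE hb hM hN).surjective z
      rw [cQ_apply]
      exact ⟨_, ⟨f w, rfl⟩, rfl⟩
    · rintro _ ⟨_, ⟨y, rfl⟩, rfl⟩
      refine ⟨cE hb hM hN (Finsupp.single w y), ?_⟩
      rw [cQ_apply, Finsupp.single_eq_same]
      rfl
  have h2 : Function.Injective ((cE hb hM hN).toLinearMap ∘ₗ
      (Finsupp.lsingle w : (M ⊗[K] N) →ₗ[K] (Shf m n →₀ (M ⊗[K] N)))) := by
    intro y y' hy
    exact Finsupp.single_injective w ((cE hb hM hN).injective hy)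
  rw [h1]
  exact (Submodule.equivMapOfInjective _ h2 _).finrank_eq.symm

/-- the homogeneous components of a word space of the convolution product -/
theorem gop_conv (gM : Grd D M) (gN : Grd D N) (κ : List I)
    (h : κ.length = m + n) (d : ℤ) {S : Finset ℤ} (hS : ∀ a, a ∉ S → ∀ u, gM.pr a u = 0) :
    (Grd.conv m gM gN).gop κ d = ∑ x ∈ (Finset.univ : Finset (Shf m n)) ×ˢ S,
      cQ hb hM hN x.1 (TensorProduct.map (gM.gop (sel false x.1.1 κ) x.2)
        (gN.gop (sel true x.1.1 κ) (d - twd D.fm x.1.1 κ - x.2))) := by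
  classical
  apply LinearMap.ext
  intro z
  obtain ⟨f, rfl⟩ := (cE hb hM hN).surjective z
  induction f using Finsupp.induction_linear with
  | zero => simp
  | add f g hf hg => rw [map_add, map_add, hf, hg, map_add]
  | single w y =>
    induction y using TensorProduct.induction_on with
    | zero => simp
    | add y y' hy hy' => rw [Finsupp.single_add, map_add, map_add, hy, hy', map_add]
    | tmul u v =>
      have h1 : cE hb hM hN (Finsupp.single w (u ⊗ₜ v)) = D.tw w.1 • Conv.mk D m M N u v :=
        convSum_single w u v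
      rw [LinearMap.sum_apply, Finset.sum_product, Finset.sum_eq_single w]
      · simp only [cQ_apply, Finsupp.single_eq_same, TensorProduct.map_tmul]
        rw [h1, gop_conv_aux gM gN w κ h d hS]
        exact Finset.sum_congr rfl fun a _ => (convSum_single w _ _).symm
      · intro w' _ hw'
        refine Finset.sum_eq_zero fun a _ => ?_
        rw [cQ_apply, Finsupp.single_eq_of_ne hw', map_zero, Finsupp.single_zero, map_zero]
      · intro hh
        exact absurd (Finset.mem_univ w) hh

include hb hM hN in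
/-- graded dimension of a word space of the convolution product -/
theorem gdim_conv [FiniteDimensional K M] [FiniteDimensional K N] (gM : Grd D M) (gN : Grd D N)
    (κ : List I) (h : κ.length = m + n) (d : ℤ) {S : Finset ℤ}
    (hS : ∀ a, a ∉ S → ∀ u, gM.pr a u = 0) :
    (Grd.conv m gM gN).gdim κ d = ∑ w : Shf m n, ∑ a ∈ S, gM.gdim (sel false w.1 κ) a *
      gN.gdim (sel true w.1 κ) (d - twd D.fm w.1 κ - a) := by
  have hfd : FiniteDimensional K (Conv D m M N) := Conv.finiteDimensional hb hM hN
  unfold Grd.gdim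
  rw [gop_conv hb hM hN gM gN κ h d hS, finrank_range_sum]
  · rw [Finset.sum_product]
    refine Finset.sum_congr rfl fun w _ => Finset.sum_congr rfl fun a _ => ?_
    rw [finrank_range_cQ, finrank_range_tmap]
  · rintro ⟨w, a⟩ _
    change cQ hb hM hN w _ * cQ hb hM hN w _ = _
    rw [cQ_mul, ← TensorProduct.map_mul, Grd.gop_idem, Grd.gop_idem]
  · rintro ⟨w, a⟩ _ ⟨w', a'⟩ _ hne
    change cQ hb hM hN w _ * cQ hb hM hN w' _ = 0
    by_cases hw : w = w'
    · subst hw
      have ha : a ≠ a' := fun ha => hne (by rw [ha])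
      rw [cQ_mul, ← TensorProduct.map_mul, Grd.gop_deg _ ha, TensorProduct.map_zero_left, cQ_zero]
    · exact cQ_ne hb hM hN hw _ _

include hb hM hN in
/-- the graded character of a convolution product is the quantum shuffle product of the graded
characters -/
theorem gchr_conv [FiniteDimensional K M] [FiniteDimensional K N] (gM : Grd D M)
    (gN : Grd D N) : (Grd.conv m gM gN).gchr (m + n) = gM.gchr m * gN.gchr n := by
  have hfd : FiniteDimensional K (Conv D m M N) := Conv.finiteDimensional hb hM hN
  apply QSh.ext'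
  intro κ
  rw [QSh.mul_apply]
  by_cases h : κ.length = m + n
  · rw [qsm_eq_sum κ m n _ _ (fun ν hν => gM.gchr_ne hν) (fun ν hν => gN.gchr_ne hν) h]
    ext d
    obtain ⟨S, hS, hS'⟩ := gM.gdim_support
    rw [Grd.coeff_gchr _ h, gdim_conv hb hM hN gM gN κ h d hS, AddMonoidAlgebra.coeff_sum,
      Finsupp.finset_sum_apply, Nat.cast_sum]
    refine Finset.sum_congr rfl fun w _ => ?_
    have hl : w.1.length = κ.length := by rw [w.length_eq, h]
    have hs : (sel false w.1 κ).length = m := by rw [length_sel _ _ _ hl, w.2.1]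
    have ht : (sel true w.1 κ).length = n := by rw [length_sel _ _ _ hl, w.2.2]
    rw [coeff_tt_mul, coeff_mul' S (fun a ha => by
      rw [gM.coeff_gchr hs, hS' _ a ha, Nat.cast_zero]), Nat.cast_sum]
    refine Finset.sum_congr rfl fun a _ => ?_
    rw [Nat.cast_mul, gM.coeff_gchr hs, gN.coeff_gchr ht]
  · rw [qsm_eq_zero κ m n _ _ (fun ν hν => gM.gchr_ne hν) (fun ν hν => gN.gchr_ne hν) h,
      Grd.gchr_ne _ h]

end ops

end Pool.Agent.KLS

end

section

/-! MP_e487d8_al, GRAD: the two descriptions of a grading, `GMod` (homogeneous subspaces) and `Grd`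
(coaction); graded simple modules are simple, simple modules have a grading. -/

set_option autoImplicit false

namespace Pool.Agent.KLS

variable {K I : Type} [Field K] [Fintype I] [DecidableEq I] {D : Datum K I}

namespace GMod

variable (X : GMod D)

/-- the decomposition into homogeneous components -/
noncomputable def dec : (DirectSum ℤ fun d => X.gr d) ≃ₗ[K] X.M :=
  LinearEquiv.ofBijective (DirectSum.coeLinearMap X.gr) X.internal

theorem dec_lof (d : ℤ) (u : X.gr d) :
    X.dec (DirectSum.lof K ℤ (fun d => X.gr d) d u) = (u : X.M) :=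
  DirectSum.coeLinearMap_lof X.gr d u

theorem ind {p : X.M → Prop} (h0 : p 0) (h : ∀ d u, u ∈ X.gr d → p u)
    (hadd : ∀ u v, p u → p v → p (u + v)) (u : X.M) : p u := by
  obtain ⟨z, rfl⟩ := X.dec.surjective u
  induction z using DirectSum.induction_on with
  | zero => rw [map_zero]; exact h0
  | of d u =>
    have h1 := X.dec_lof d u
    rw [DirectSum.lof_eq_of] at h1
    rw [h1]
    exact h d _ u.2
  | add y z hy hz => rw [map_add]; exact hadd _ _ hy hz

/-- the coaction as a `K`-linear map -/
noncomputable def rhoK : X.M →ₗ[K] Lau D X.M :=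
  (DirectSum.toModule K ℤ (Lau D X.M) fun d => (Lau.sg D d).comp (X.gr d).subtype).comp
    X.dec.symm.toLinearMap

theorem rhoK_of {d : ℤ} {u : X.M} (hu : u ∈ X.gr d) : X.rhoK u = Lau.sg D d u := by
  have h : X.dec.symm u = DirectSum.lof K ℤ (fun d => X.gr d) d ⟨u, hu⟩ := by
    rw [LinearEquiv.symm_apply_eq, dec_lof]
  unfold rhoK
  rw [LinearMap.comp_apply, LinearEquiv.coe_coe, h, DirectSum.toModule_lof]
  rfl

theorem t_mem' (k : ℕ) (i j : I) {d : ℤ} {u : X.M} (hu : u ∈ X.gr d) :
    (D.t k * (D.e k i * D.e (k + 1) j)) • u ∈ X.gr (d - D.fm i j) := by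
  rw [mul_smul, mul_smul]
  exact X.t_mem k i j d u hu

theorem x_mem' (k : ℕ) (i : I) {d : ℤ} {u : X.M} (hu : u ∈ X.gr d) :
    (D.x k * D.e k i) • u ∈ X.gr (d + D.xdeg i) := by
  rw [mul_smul]
  exact X.x_mem k i d u hu

/-- the grading as a coaction -/
noncomputable def grd : Grd D X.M where
  rho := ofGens X.rhoK
    (fun k i u => by
      induction u using X.ind with
      | h0 => simp
      | h d u hu => rw [X.rhoK_of (X.e_mem k i d u hu), X.rhoK_of hu, Lau.e_sg]
      | hadd u v hu hv => rw [smul_add, map_add, map_add, smul_add, hu, hv])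
    (fun k u => by
      induction u using X.ind with
      | h0 => simp
      | h d u hu =>
        rw [X.rhoK_of hu, Lau.x_sg, ← Lau.x_smul_sum k u, map_sum]
        exact Finset.sum_congr rfl fun i _ => X.rhoK_of (X.x_mem' k i hu)
      | hadd u v hu hv => rw [smul_add, map_add, map_add, smul_add, hu, hv])
    (fun k u => by
      induction u using X.ind with
      | h0 => simp
      | h d u hu =>
        rw [X.rhoK_of hu, Lau.t_sg, ← Lau.t_smul_sum k u, map_sum]
        refine Finset.sum_congr rfl fun i _ => ?_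
        rw [map_sum]
        exact Finset.sum_congr rfl fun j _ => X.rhoK_of (X.t_mem' k i j hu)
      | hadd u v hu hv => rw [smul_add, map_add, map_add, smul_add, hu, hv])
  tot u := by
    rw [ofGens_apply]
    induction u using X.ind with
    | h0 => simp
    | h d u hu => rw [X.rhoK_of hu, Lau.tot_sg]
    | hadd u v hu hv => rw [map_add, map_add, hu, hv]
  dg u := by
    rw [ofGens_apply]
    induction u using X.ind with
    | h0 => simp
    | h d u hu => rw [X.rhoK_of hu, Lau.map_sg, ofGens_apply, X.rhoK_of hu, Lau.dg_sg]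
    | hadd u v hu hv => rw [map_add, map_add, map_add, hu, hv]

theorem grd_rho (u : X.M) : X.grd.rho u = X.rhoK u := rfl

theorem pr_mem (d : ℤ) (u : X.M) : X.grd.pr d u ∈ X.gr d := by
  induction u using X.ind with
  | h0 => rw [map_zero]; exact Submodule.zero_mem _
  | h d' u hu =>
    have h1 : X.grd.Hm d' u := X.rhoK_of hu
    rw [h1.pr_eq]
    split_ifs with h2
    · rw [← h2]; exact hu
    · exact Submodule.zero_mem _
  | hadd u v hu hv => rw [map_add]; exact Submodule.add_mem _ hu hv

theorem hm_iff (d : ℤ) (u : X.M) : X.grd.Hm d u ↔ u ∈ X.gr d := by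
  constructor
  · intro h
    rw [Grd.hm_iff] at h
    rw [← h]
    exact X.pr_mem d u
  · intro h
    exact X.rhoK_of h

/-- a graded simple module is simple -/
theorem simple_of_irr (h : X.Irr) : IsSimpleModule (KLRAlg D) X.M := by
  have := X.fd
  have := h.nontrivial
  refine simple_of_graded_simple X.grd fun S hS => h.simple S ?_
  intro u hu
  obtain ⟨T, hT, hT'⟩ := X.grd.sum_pr u
  rw [← hT']
  exact Submodule.sum_mem _ fun d _ =>
    Submodule.subset_span ⟨hS u hu d, d, X.pr_mem d u⟩

end GMod

namespace Grd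

variable {M : Type} [AddCommGroup M] [Module K M] [Module (KLRAlg D) M]
  [IsScalarTower K (KLRAlg D) M]

/-- the homogeneous elements of degree `d` -/
noncomputable def hmSub (g : Grd D M) (d : ℤ) : Submodule K M :=
  LinearMap.eqLocus (Conv.toK g.rho) (Lau.sg D d)

theorem mem_hmSub (g : Grd D M) (d : ℤ) (u : M) : u ∈ g.hmSub d ↔ g.Hm d u := Iff.rfl

theorem internal (g : Grd D M) : DirectSum.IsInternal g.hmSub := by
  have h1 : ∀ (z : DirectSum ℤ fun d => g.hmSub d) (d : ℤ),
      g.pr d (DirectSum.coeLinearMap g.hmSub z) = (z d : M) := by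
    intro z d
    induction z using DirectSum.induction_on with
    | zero => simp
    | of d' u =>
      rw [← DirectSum.lof_eq_of K, DirectSum.coeLinearMap_lof,
        ((g.mem_hmSub d' _).1 u.2).pr_eq, DirectSum.lof_eq_of, DirectSum.of_apply]
      by_cases h : d' = d
      · subst h
        rw [if_pos rfl, dif_pos rfl]
      · rw [if_neg h, dif_neg h]
        rfl
    | add y z hy hz => rw [map_add, map_add, hy, hz]; rfl
  refine ⟨?_, ?_⟩
  · intro y z hyz
    have hyz' : DirectSum.coeLinearMap g.hmSub y = DirectSum.coeLinearMap g.hmSub z := hyz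
    refine DFinsupp.ext fun d => Subtype.ext ?_
    rw [← h1, ← h1, hyz']
  · intro u
    obtain ⟨T, hT, hT'⟩ := g.sum_pr u
    refine ⟨∑ d ∈ T, DirectSum.lof K ℤ (fun d => g.hmSub d) d ⟨g.pr d u, g.hm_pr d u⟩, ?_⟩
    change DirectSum.coeLinearMap g.hmSub _ = u
    rw [map_sum]
    simp only [DirectSum.coeLinearMap_lof]
    exact hT'

/-- a graded module from a coaction -/
noncomputable def gmod (g : Grd D M) {n : ℕ} (hM : IsStrand D n M) (hfd : FiniteDimensional K M) :
    GMod D where
  n := n
  M := M
  strand := hM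
  fd := hfd
  gr := g.hmSub
  internal := g.internal
  e_mem k i _ _ hu := Hm.e hu k i
  x_mem k i _ _ hu := by
    have h := Hm.x hu k i
    rw [mul_smul] at h
    exact h
  t_mem k i j _ _ hu := by
    have h := Hm.t hu k i j
    rw [mul_smul, mul_smul] at h
    exact h

end Grd

/-- every simple module has a grading -/
theorem exists_gmod (hb : S_basis D) (Y : SMod D) :
    ∃ X : GMod D, X.Irr ∧ X.n = Y.n ∧ Nonempty (X.M ≃ₗ[KLRAlg D] Y.M) := by
  obtain ⟨g⟩ := gradable hb Y.n Y.M Y.smp
  refine ⟨g.gmod Y.smp.strand Y.smp.fd, GMod.irr_of_simple _ Y.smp.simple, rfl,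
    ⟨LinearEquiv.refl _ _⟩⟩

end Pool.Agent.KLS

end
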