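import Pool.Agent.Work.MP_e487d8_al.Bd.B37
import Pool.Agent.Work.MP_e487d8_al.Bd.B05
import Pool.Agent.Work.MP_e487d8_al.Bd.B39
import Pool.Agent.Work.MP_e487d8_al.Bd.B38
import Pool.Agent.Work.MP_e487d8_al.Bd.B07
import Pool.Agent.Work.MP_e487d8_al.Y.Fin.JH

/-! Bundle of small proof modules (one section per former module). -/

section

set_option autoImplicit false

namespace Pool.Agent.KLSAbs

open scoped LaurentPolynomial

variable {I S O K : Type} [DecidableEq I] [CommRing O] [Algebra ℚ O] [Ring K]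
  [Algebra ℤ[T;T⁻¹] K] [IsDomain O] (D : Sys2 I S O K)

namespace Sys2

omit [IsDomain O] in
theorem bdd_cf_zsmul (a : ℤ) (W : K) (Z : S) (n : ℤ) : D.cf (a • W) Z n = a * D.cf W Z n := by
  rw [cf, cf, cfK, cfK, map_zsmul]
  rw [Finsupp.smul_apply, AddMonoidAlgebra.coeff_smul, Finsupp.smul_apply, smul_eq_mul]

omit [IsDomain O] in
/-- a constituent of a product comes from a constituent of the left factor -/
theorem bdd_left {V U : K} {Z : S} {n : ℤ} (h : D.cf (V * U) Z n ≠ 0) :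
    ∃ X m, D.cf V X m ≠ 0 ∧ D.cf (D.gb X * U) Z (n - m) ≠ 0 := by
  classical
  by_contra hne
  push Not at hne
  apply h
  rw [D.decomp V, Finset.sum_mul, cf_sum]
  refine Finset.sum_eq_zero fun p hp => ?_
  rw [smul_mul_assoc, q_mul, bdd_cf_zsmul, cf_q]
  rw [mem_sup] at hp
  rw [hne p.1 p.2 hp, mul_zero]

omit [IsDomain O] in
/-- a constituent of a product comes from a constituent of the right factor -/
theorem bdd_right {V U : K} {Z : S} {n : ℤ} (h : D.cf (U * V) Z n ≠ 0) :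
    ∃ X m, D.cf V X m ≠ 0 ∧ D.cf (U * D.gb X) Z (n - m) ≠ 0 := by
  classical
  by_contra hne
  push Not at hne
  apply h
  rw [D.decomp V, Finset.mul_sum, cf_sum]
  refine Finset.sum_eq_zero fun p hp => ?_
  rw [mul_smul_comm, mul_q, bdd_cf_zsmul, cf_q]
  rw [mem_sup] at hp
  rw [hne p.1 p.2 hp, mul_zero]

/-- every constituent of `V` is, up to a shift by at most `M`, a constituent of `W` -/
def bddN (M : ℤ) (V W : K) : Prop :=
  ∀ Z n, D.cf V Z n ≠ 0 → ∃ n', |n - n'| ≤ M ∧ D.cf W Z n' ≠ 0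

omit [IsDomain O] in
theorem bddN_trans {M M' : ℤ} {V W U : K} (h : D.bddN M V W) (h' : D.bddN M' W U) :
    D.bddN (M + M') V U := by
  intro Z n hn
  obtain ⟨n', h1, h2⟩ := h Z n hn
  obtain ⟨n'', h3, h4⟩ := h' Z n' h2
  refine ⟨n'', ?_, h4⟩
  have h5 := abs_sub_le n n' n''
  linarith

omit [IsDomain O] in
theorem bddN_mul_right {M : ℤ} {V W U : K} (h : D.bddN M V W) (hW : D.Pos W) (hU : D.Pos U) :
    D.bddN M (V * U) (W * U) := by
  intro Z n hn
  obtain ⟨X, m, h1, h2⟩ := D.bdd_left hn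
  obtain ⟨m', h3, h4⟩ := h X m h1
  have h5 : D.le (D.q m' (D.gb X) * U) (W * U) := (le_of_cf hW h4).mul_right hU
  rw [q_mul, le_cf] at h5
  have h6 := h5 Z (n - m + m')
  rw [cf_q] at h6
  have h7 : n - m + m' - m' = n - m := by ring
  rw [h7] at h6
  have h8 : 0 ≤ D.cf (D.gb X * U) Z (n - m) := (Pos.gb X).mul hU Z _
  refine ⟨n - m + m', ?_, by omega⟩
  have h9 : n - (n - m + m') = m - m' := by ring
  rw [h9]
  exact h3

omit [IsDomain O] in
theorem bddN_mul_left {M : ℤ} {V W U : K} (h : D.bddN M V W) (hW : D.Pos W) (hU : D.Pos U) :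
    D.bddN M (U * V) (U * W) := by
  intro Z n hn
  obtain ⟨X, m, h1, h2⟩ := D.bdd_right hn
  obtain ⟨m', h3, h4⟩ := h X m h1
  have h5 : D.le (U * D.q m' (D.gb X)) (U * W) := (le_of_cf hW h4).mul_left hU
  rw [mul_q, le_cf] at h5
  have h6 := h5 Z (n - m + m')
  rw [cf_q] at h6
  have h7 : n - m + m' - m' = n - m := by ring
  rw [h7] at h6
  have h8 : 0 ≤ D.cf (U * D.gb X) Z (n - m) := hU.mul (Pos.gb X) Z _
  refine ⟨n - m + m', ?_, by omega⟩
  have h9 : n - (n - m + m') = m - m' := by ring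
  rw [h9]
  exact h3

omit [IsDomain O] in
theorem bddN_comm (C G : S) : ∃ M : ℤ, 0 ≤ M ∧ D.bddN M (D.gb C * D.gb G) (D.gb G * D.gb C) := by
  classical
  have hex : ∀ p : S × ℤ, ∃ n' : ℤ, D.cf (D.gb C * D.gb G) p.1 p.2 ≠ 0 →
      D.cf (D.gb G * D.gb C) p.1 n' ≠ 0 := by
    intro p
    by_cases hp : D.cf (D.gb C * D.gb G) p.1 p.2 ≠ 0
    · have h1 := ((Pos.gb C).mul (Pos.gb G)).ev_ne (D := D) hp
      have h2 : D.ev (D.gb C * D.gb G) = D.ev (D.gb G * D.gb C) := by
        rw [map_mul, map_mul, mul_comm]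
      rw [h2] at h1
      obtain ⟨n', hn'⟩ := exists_cf h1
      exact ⟨n', fun _ => hn'⟩
    · exact ⟨0, fun h => absurd h hp⟩
  choose f hf using hex
  refine ⟨∑ p ∈ D.sup (D.gb C * D.gb G), |p.2 - f p|,
    Finset.sum_nonneg fun p _ => abs_nonneg _, ?_⟩
  intro Z n hn
  refine ⟨f (Z, n), ?_, hf (Z, n) hn⟩
  have h1 : (Z, n) ∈ D.sup (D.gb C * D.gb G) := (D.mem_sup).2 hn
  exact Finset.single_le_sum (f := fun p : S × ℤ => |p.2 - f p|) (fun p _ => abs_nonneg _) h1

omit [IsDomain O] in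
theorem bddN_pow {M : ℤ} {C G : S} (h : D.bddN M (D.gb C * D.gb G) (D.gb G * D.gb C)) (k : ℕ) :
    D.bddN (k * M) (D.gb C ^ k * D.gb G) (D.gb G * D.gb C ^ k) := by
  induction k with
  | zero =>
    intro Z n hn
    rw [pow_zero, one_mul] at hn
    refine ⟨n, by simp, ?_⟩
    rw [pow_zero, mul_one]
    exact hn
  | succ k ih =>
    have h1 := D.bddN_mul_left h ((Pos.gb G).mul (Pos.gb C)) ((Pos.gb (D := D) C).pow k)
    have h2 := D.bddN_mul_right ih ((Pos.gb G).mul ((Pos.gb C).pow k)) (Pos.gb C)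
    have e1 : D.gb C ^ (k + 1) * D.gb G = D.gb C ^ k * (D.gb C * D.gb G) := by
      rw [pow_succ, mul_assoc]
    have e2 : D.gb G * D.gb C ^ (k + 1) = D.gb G * D.gb C ^ k * D.gb C := by
      rw [pow_succ, mul_assoc]
    have e3 : D.gb C ^ k * (D.gb G * D.gb C) = D.gb C ^ k * D.gb G * D.gb C := by
      rw [mul_assoc]
    rw [e3] at h1
    have h3 := D.bddN_trans h1 h2
    rw [e1, e2]
    have e4 : M + k * M = ((k + 1 : ℕ) : ℤ) * M := by push_cast; ring
    rw [e4] at h3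
    exact h3

theorem bdd_comm_pow {C X : S} (h : D.Cm C X) (k : ℕ) :
    D.gb X * D.gb C ^ k = D.q (k * D.lam C X) (D.gb C ^ k * D.gb X) := by
  induction k with
  | zero => rw [pow_zero, mul_one, one_mul, Nat.cast_zero, zero_mul, q_zero]
  | succ k ih =>
    rw [pow_succ, ← mul_assoc, ih, q_mul, mul_assoc, h.comm, mul_q, q_q, ← mul_assoc]
    congr 1
    push_cast
    ring

theorem I_BDD (h : StStab D) (h' : StStab D.op) : StBdd D := by
  classical
  intro C G hC
  obtain ⟨M, hM0, hM⟩ := D.bddN_comm C G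
  refine ⟨M, fun Z Q hZ hQ hco => ?_⟩
  have hV : D.Pos (D.gb G * D.gb Z) := (Pos.gb G).mul (Pos.gb Z)
  obtain ⟨n0, hn0⟩ := exists_cf_mul (D := D) hco
  obtain ⟨k0, p, hp1, -, hp3⟩ := h C Q (D.gb G * D.gb Z) hC hQ hV
  obtain ⟨k0', p', -, hp2', hp3'⟩ := h' C Q (MulOpposite.op (D.gb G * D.gb Z)) hC hQ hV
  have hp0 : p n0 ≠ 0 := by
    have h1 := hp1 n0
    have h2 := hV Q n0
    omega
  obtain ⟨B', hB'⟩ : ∃ B' : ℤ, ∀ n, p' n ≠ 0 → |n| ≤ B' := by
    obtain ⟨B', hB'⟩ := (hp2'.image (fun n : ℤ => |n|)).bddAbove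
    exact ⟨B', fun n hn => hB' ⟨n, hn, rfl⟩⟩
  have hCZ : D.Cm C Z := by
    obtain ⟨W, hW⟩ := hZ 1
    exact ⟨W, by rw [pow_one] at hW; exact hW⟩
  have hCQ : D.Cm C Q := by
    obtain ⟨W, hW⟩ := hQ 1
    exact ⟨W, by rw [pow_one] at hW; exact hW⟩
  -- the estimate for one large exponent
  have key : ∀ k : ℕ, k0 ≤ k → k0' ≤ k →
      |(k : ℤ) * (D.lam C Q - D.lam C Z)| ≤ k * M + (B' + |n0|) := by
    intro k hk hk'
    obtain ⟨W, hW⟩ := hQ k
    obtain ⟨a, ha⟩ := Pos.eq_of_ev (D := D) (((Pos.gb C).pow k).mul (Pos.gb Q)) (Z := W) (by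
      rw [map_mul, map_pow, D.ev_gb, D.ev_gb, hW])
    have h1 := hp3 k hk W a ha n0
    have h2 : D.cf (D.gb C ^ k * D.gb G * D.gb Z) W (n0 + a) ≠ 0 := by
      rw [mul_assoc, h1]
      exact hp0
    have h3 := D.bddN_mul_right (D.bddN_pow hM k) ((Pos.gb G).mul ((Pos.gb C).pow k)) (Pos.gb Z)
    obtain ⟨n', h4, h5⟩ := h3 W (n0 + a) h2
    have e1 : D.gb G * D.gb C ^ k * D.gb Z =
        D.q (-(k * D.lam C Z)) (D.gb G * D.gb Z * D.gb C ^ k) := by
      rw [mul_assoc (D.gb G) (D.gb Z), D.bdd_comm_pow hCZ k, mul_q, q_q, neg_add_cancel, q_zero,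
        mul_assoc]
    rw [e1, cf_q] at h5
    have e2 : D.gb Q * D.gb C ^ k = D.q (k * D.lam C Q + a) (D.gb W) := by
      rw [D.bdd_comm_pow hCQ k, ha, q_q]
    have e3 : D.op.gb C ^ k * D.op.gb Q = D.op.q (k * D.lam C Q + a) (D.op.gb W) :=
      congrArg MulOpposite.op e2
    have h6 := hp3' k hk' W _ e3 (n' - -(k * D.lam C Z) - (k * D.lam C Q + a))
    have e4 : n' - -(k * D.lam C Z) - (k * D.lam C Q + a) + (k * D.lam C Q + a) =
        n' - -(k * D.lam C Z) := by ring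
    rw [e4] at h6
    have h7 : D.cf (D.gb G * D.gb Z * D.gb C ^ k) W (n' - -(k * D.lam C Z)) =
        p' (n' - -(k * D.lam C Z) - (k * D.lam C Q + a)) := h6
    rw [h7] at h5
    have h8 := abs_le.1 (hB' _ h5)
    have h9 := abs_le.1 h4
    have h10 := abs_le.1 (le_refl |n0|)
    rw [abs_le]
    constructor <;> linarith [h8.1, h8.2, h9.1, h9.2, h10.1, h10.2]
  by_contra hlt
  push Not at hlt
  set Δ := D.lam C Q - D.lam C Z with hΔ
  have hB0 : 0 ≤ |n0| := abs_nonneg _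
  -- choose k large
  obtain ⟨k, hk1, hk2, hk3⟩ : ∃ k : ℕ, k0 ≤ k ∧ k0' ≤ k ∧ B' + |n0| < k := by
    refine ⟨max k0 (max k0' ((B' + |n0|).toNat + 1)), le_max_left _ _,
      (le_max_left _ _).trans (le_max_right _ _), ?_⟩
    have h1 : (B' + |n0|).toNat + 1 ≤ max k0 (max k0' ((B' + |n0|).toNat + 1)) :=
      (le_max_right _ _).trans (le_max_right _ _)
    have h2 : B' + |n0| ≤ (B' + |n0|).toNat := Int.self_le_toNat _
    have h3 : (((B' + |n0|).toNat + 1 : ℕ) : ℤ) ≤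
        ((max k0 (max k0' ((B' + |n0|).toNat + 1)) : ℕ) : ℤ) := by exact_mod_cast h1
    push_cast at h3 ⊢
    linarith
  have h1 := key k hk1 hk2
  rw [abs_mul, Nat.abs_cast] at h1
  have h2 : (M + 1) ≤ |Δ| := hlt
  have h3 : (k : ℤ) * (M + 1) ≤ k * |Δ| := mul_le_mul_of_nonneg_left h2 (Nat.cast_nonneg k)
  linarith

end Sys2

end Pool.Agent.KLSAbs

end

section

set_option autoImplicit false
namespace Pool.Agent.KLSAbs
open scoped LaurentPolynomial
variable {I S O K : Type} [DecidableEq I] [CommRing O] [Algebra ℚ O] [Ring K]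
  [Algebra ℤ[T;T⁻¹] K] [IsDomain O] (D : Sys2 I S O K)
namespace Sys2

omit [IsDomain O] in
theorem fin_aux (n : ℕ) : ∀ β : I →₀ ℕ, (β.sum fun _ k => k) ≤ n → {X : S | D.wt X = β}.Finite := by
  induction n with
  | zero =>
    intro β hβ
    apply (Set.finite_singleton D.one).subset
    intro X hX
    have hX' : D.wt X = β := hX
    apply D.wt_zero
    rw [hX']
    ext i
    by_contra h
    have h1 : 0 < β i := Nat.pos_of_ne_zero h
    have h2 : β i ≤ β.sum fun _ k => k := by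
      unfold Finsupp.sum
      exact Finset.single_le_sum (f := fun j => β j) (fun _ _ => Nat.zero_le _)
        (Finsupp.mem_support_iff.2 h)
    omega
  | succ n ih =>
    intro β hβ
    have h1 : ∀ i a, 0 < a → {X : S | D.eps i X = a ∧ D.wt X = β}.Finite := by
      intro i a ha
      by_cases hne : ∃ X : S, D.eps i X = a ∧ D.wt X = β
      · obtain ⟨X₀, hX₀, hX₁⟩ := hne
        have hw := D.wt_E i X₀
        rw [hX₀, hX₁] at hw
        have hs : (β.sum fun _ k => k) = ((D.wt (D.E i X₀)).sum fun _ k => k) + a := by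
          conv_lhs => rw [hw]
          rw [Finsupp.sum_add_index' (fun _ => rfl) (fun _ _ _ => rfl),
            Finsupp.sum_single_index rfl]
        have hf := ih (D.wt (D.E i X₀)) (by omega)
        apply Set.Finite.of_injOn (f := D.E i) (t := {X : S | D.wt X = D.wt (D.E i X₀)}) _ _ hf
        · intro X hX
          have hw' := D.wt_E i X
          rw [hX.1, hX.2, hw] at hw'
          exact (add_right_cancel hw').symm
        · intro X hX Y hY hXY
          exact D.eps_inj i X Y (hX.1.trans hY.1.symm) hXY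
      · have : {X : S | D.eps i X = a ∧ D.wt X = β} = ∅ := by
          ext X
          simp only [Set.mem_ofPred_eq, Set.mem_empty_iff_false, iff_false]
          exact fun h => hne ⟨X, h⟩
        rw [this]
        exact Set.finite_empty
    have h2 : {X : S | D.wt X = β} ⊆ {D.one} ∪ ⋃ i ∈ (β.support : Set I),
        ⋃ a ∈ (Finset.Icc 1 (β i) : Set ℕ), {X : S | D.eps i X = a ∧ D.wt X = β} := by
      intro X hX
      have hX' : D.wt X = β := hX
      by_cases h : X = D.one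
      · left
        exact h
      · right
        obtain ⟨i, hi⟩ := D.ex_eps X h
        have hw := D.wt_E i X
        rw [hX'] at hw
        have hb : β i = D.wt (D.E i X) i + D.eps i X := by
          conv_lhs => rw [hw]
          rw [Finsupp.add_apply, Finsupp.single_eq_same]
        have hpos : 0 < D.eps i X := Nat.pos_of_ne_zero hi
        refine Set.mem_iUnion₂.2 ⟨i, ?_, Set.mem_iUnion₂.2 ⟨D.eps i X, ?_, rfl, hX'⟩⟩
        · rw [Finset.mem_coe, Finsupp.mem_support_iff]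
          omega
        · rw [Finset.mem_coe, Finset.mem_Icc]
          omega
    refine Set.Finite.subset ?_ h2
    apply Set.Finite.union (Set.finite_singleton _)
    apply Set.Finite.biUnion (Finset.finite_toSet _)
    intro i _
    apply Set.Finite.biUnion (Finset.finite_toSet _)
    intro a ha
    rw [Finset.mem_coe, Finset.mem_Icc] at ha
    exact h1 i a (by omega)

omit [IsDomain O] in
theorem I_FIN : StFin D := fun β => D.fin_aux _ β le_rfl

end Sys2
end Pool.Agent.KLSAbs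

end

section

/-! MP_e487d8_al, abstract part 2: `ST` for generic elements of families of full rank. -/

set_option autoImplicit false

namespace Pool.Agent.KLSAbs

open scoped LaurentPolynomial

variable {I S O K : Type} [DecidableEq I] [CommRing O] [Algebra ℚ O] [Ring K]
  [Algebra ℤ[T;T⁻¹] K] [IsDomain O] (D : Sys2 I S O K)

namespace Sys2

omit [IsDomain O] in
theorem stz_sp_b (X : S) : D.Sp (D.b X) X := by
  classical
  unfold Sp
  rw [D.repr_b, if_pos rfl]
  exact one_ne_zero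

omit [IsDomain O] in
/-- an `SC` constituent of `z^L ∘ Y` for all large `L` -/
theorem stz_ex (z : S) (hz : D.SR z) (hD : D.Dag z) (Y : S) : ∃ l : ℕ, ∀ L ≥ l, ∃ Z : S,
    D.SC z Z ∧ 1 ≤ D.b.repr (D.b z ^ L * D.b Y) Z := by
  obtain ⟨l, T, Z, hT, hH, hZ⟩ := hD Y
  refine ⟨l, fun L hL => ?_⟩
  obtain ⟨j, rfl⟩ := Nat.exists_eq_add_of_le hL
  obtain ⟨Z', hZ'⟩ := hZ j
  obtain ⟨U, hU⟩ := hz j
  obtain ⟨T', hT'⟩ := hz (l + j)
  refine ⟨Z', fun k => ?_, ?_⟩
  · obtain ⟨W, hW⟩ := hZ (k + j)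
    exact ⟨W, by rw [← hZ', ← mul_assoc, ← pow_add, hW]⟩
  · have h1 : D.Sp (D.b T * D.b Y) Z := by
      unfold Sp
      rw [D.repr_mul]
      exact_mod_cast D.hd_co _ _ _ hH
    have h2 : D.Sp (D.b U * (D.b T * D.b Y)) Z' := by
      refine Sp.mul (X := U) (Y := Z) (ps_b U) ((ps_b T).mul (ps_b Y)) (D.stz_sp_b U) h1 ?_
      rw [← hU, hZ']
      exact D.stz_sp_b Z'
    have h3 : D.b z ^ (l + j) * D.b Y = D.b U * (D.b T * D.b Y) := by
      rw [pow_add, ← hT, ← hU]; ring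
    rw [← h3, hT'] at h2
    unfold Sp at h2
    rw [hT']
    rw [D.repr_mul] at h2 ⊢
    have h4 : D.co T' Y Z' ≠ 0 := by exact_mod_cast h2
    exact_mod_cast Nat.one_le_iff_ne_zero.2 h4

/-- **STZ** -/
theorem I_STZ (h : StStm D) : StStz D := by
  classical
  intro w N hN hsp z hz hD G
  obtain ⟨B, hB⟩ := h w N hN hsp z G hz
  refine ⟨B, fun n => ?_⟩
  choose l hl using D.stz_ex z (hN.sr hz.1) hD
  have hx : D.Ps (D.b z ^ n * D.b G) := ((ps_b z).pow n).mul (ps_b G)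
  set x : O := D.b z ^ n * D.b G with hxdef
  set T : Finset S := (D.b.repr x).support with hTdef
  set L : ℕ := T.sup l with hLdef
  have h1 : ∀ Y ∈ T, ∃ Z, D.SC z Z ∧ 1 ≤ D.b.repr (D.b z ^ L * D.b Y) Z := fun Y hY =>
    hl Y L (Finset.le_sup hY)
  have : Nonempty S := ⟨G⟩
  choose! c hc1 hc2 using h1
  have h2 := hB (n + L) (T.image c) (by
    intro Q hQ
    obtain ⟨Y, hY, rfl⟩ := Finset.mem_image.1 hQ
    exact hc1 Y hY)
  have e1 : D.b G * D.b z ^ (n + L) = D.b z ^ L * x := by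
    rw [hxdef, pow_add]; ring
  have e2 : D.b z ^ L * x = ∑ Y ∈ T, D.b.repr x Y • (D.b z ^ L * D.b Y) := by
    conv_lhs => rw [D.expand x]
    rw [Finset.mul_sum]
    exact Finset.sum_congr rfl fun Y _ => by rw [mul_smul_comm]
  have e3 : ∀ Q, D.b.repr (D.b z ^ L * x) Q =
      ∑ Y ∈ T, D.b.repr x Y * D.b.repr (D.b z ^ L * D.b Y) Q := by
    intro Q
    rw [e2, map_sum, Finsupp.finsetSum_apply]
    exact Finset.sum_congr rfl fun Y _ => by rw [map_smul, Finsupp.smul_apply, smul_eq_mul]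
  have hlen : D.len x = ∑ Y ∈ T, D.b.repr x Y := rfl
  rw [e1] at h2
  refine le_trans ?_ h2
  rw [hlen, Finset.sum_congr rfl fun Q _ => e3 Q, Finset.sum_comm]
  refine Finset.sum_le_sum fun Y hY => ?_
  rw [← Finset.mul_sum]
  have h3 : D.b.repr (D.b z ^ L * D.b Y) (c Y) ≤
      ∑ Q ∈ T.image c, D.b.repr (D.b z ^ L * D.b Y) Q :=
    Finset.single_le_sum (f := fun Q => D.b.repr (D.b z ^ L * D.b Y) Q)
      (fun Q _ => (((ps_b z).pow L).mul (ps_b Y)) Q) (Finset.mem_image_of_mem c hY)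
  have h4 := hc2 Y hY
  have h5 := hx Y
  nlinarith

end Sys2

end Pool.Agent.KLSAbs

end

section

/-! MP_e487d8_al: part 3 over `Sys2`, from the results of part 2. -/

set_option autoImplicit false

namespace Pool.Agent.KLT

open Pool.Agent.KLSAbs
open scoped LaurentPolynomial

variable {I S O K : Type} [DecidableEq I] [CommRing O] [Algebra ℚ O] [Ring K]
  [Algebra ℤ[T;T⁻¹] K] (D : Sys2 I S O K)

theorem toPre_Ad (w : List I) (X : S) : (toPre D).Ad w X ↔ D.Ad w X := Iff.rfl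

theorem toPre_str (w : List I) (X : S) : (toPre D).str w X = D.str w X := by
  induction w generalizing X with
  | nil => rfl
  | cons i w ih =>
    have h1 : (toPre D).str (i :: w) X =
      Pre.cn i w ((D.eps i X : ℚ), (toPre D).str w (D.E i X)) := rfl
    have h2 : D.str (i :: w) X = Sys2.cn i w ((D.eps i X : ℚ), D.str w (D.E i X)) := rfl
    rw [h1, h2, ih]
    rfl

theorem toPre_Fam (w : List I) (N : Submonoid O) : (toPre D).Fam w N ↔ D.Fam w N :=
  ⟨fun h => ⟨h.spl⟩, fun h => ⟨h.spl⟩⟩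

theorem toPre_Mx (w : List I) (N : Submonoid O) : (toPre D).Mx w N ↔ Sys2.Mx D w N := by
  unfold Pre.Mx Sys2.Mx
  rw [toPre_Fam]
  refine and_congr Iff.rfl (forall_congr' fun N' => ?_)
  rw [toPre_Fam]

theorem toPre_sp (w : List I) (N : Submonoid O) : (toPre D).sp w N = D.sp w N := by
  unfold Pre.sp Sys2.sp
  congr 1
  ext v
  constructor
  · rintro ⟨X, h1, h2⟩
    exact ⟨X, h1, by rw [← toPre_str]; exact h2⟩
  · rintro ⟨X, h1, h2⟩
    exact ⟨X, h1, by rw [toPre_str]; exact h2⟩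

theorem toPre_lam [IsDomain O] {C X : S} (h : D.Cm C X) : (toPre D).lam C X = D.lam C X := by
  obtain ⟨Z, hZ⟩ := h
  have h1 := S2.rel_lam D hZ
  have h2 : D.Lm C X (S2.lam D C X) := h1
  rw [h2.lam]
  rfl

/-- reduced words are good -/
theorem goodW [IsDomain O] : D.GoodW (Reduced D.car) where
  tail _ _ h := reduced_tail h
  rev _ h := reduced_reverse (toPre D).hA h
  span w h := by
    have h1 := I_SPAN (toPre D) (I_DLF (toPre D)) w h
    rw [← h1]
    congr 1
    ext v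
    constructor
    · rintro ⟨X, h1, h2⟩
      exact ⟨X, h1, by rw [toPre_str]; exact h2⟩
    · rintro ⟨X, h1, h2⟩
      exact ⟨X, h1, by rw [← toPre_str]; exact h2⟩

/-- the results of part 2 -/
structure Part2 : Prop where
  pm : ∀ m, D.PM (Reduced D.car) m
  dg : ∀ m, D.DG (Reduced D.car) m
  r : ∀ m, D.StR (Reduced D.car) m
  a2 : D.StA2
  k3 : D.StK3
  sts : D.St_STS

variable {D}

theorem inp [IsDomain O] (h : Part2 D) : (toPre D).Inp := by
  have hdag : ∀ w, Reduced D.car w → ∀ C, D.Ad w C → D.SR C → D.Dag C := fun w hw C hC hS =>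
    (h.dg w.length w C hw (le_refl _) hS hC).1
  have k1 : ∀ w, Reduced D.car w → ∀ C, D.Ad w C → D.SR C → ∀ (n : ℕ) T,
      D.b C ^ n = D.b T → ∀ X, ∃ Z, D.Hd1 T X Z := fun w hw C hC hS n T hT X =>
    D.k1 C X T n hS (hdag w hw C hC hS) hT
  refine ⟨?_, ?_, ?_, ?_, ?_, ?_⟩
  · intro w hw C hC hS n T hT X Z Z' hZ hZ'
    obtain ⟨Z₀, hZ₀⟩ := k1 w hw C hC hS n T hT X
    rw [D.hd1_eq T X Z₀ Z hZ₀ hZ, D.hd1_eq T X Z₀ Z' hZ₀ hZ']
  · intro w hw C hC hS n T hT X Y Z hX hY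
    exact D.k4 C X Y T Z n hS (hdag w hw C hC hS) hT hX hY
  · intro w hw C hC hS X
    have hST : D.ST C := h.pm (w.length + 1) w C hw (Nat.lt_succ_self _) hS hC
    obtain ⟨n₀, Q, hQ, hQ'⟩ := h.sts C hS hST X
    refine ⟨n₀, fun n hn Z hZ => ?_⟩
    obtain ⟨Y, hY, hYZ⟩ := hQ' n Z hn hZ
    intro m
    obtain ⟨T, hT⟩ := hQ Y hY (m + (n - n₀))
    refine ⟨T, ?_⟩
    show D.b C ^ m * D.b Z = D.b T
    rw [← hT, ← hYZ, pow_add, mul_assoc]
  · intro w hw C hC hS n T hT X Z Q hZ hCZ hQ hCQ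
    rw [toPre_lam D (Pre.SC.cm hCQ), toPre_lam D (Pre.SC.cm hCZ)]
    exact h.k3 C X T T Z Q n n hS (hdag w hw C hC hS) hT hZ hCZ hT hQ hCQ
  · intro w hw N hN z hz X Y hX hX' hY hY'
    have hN' : D.Fam w N := (toPre_Fam D w N).1 hN
    have hzN : D.b z ∈ N := by
      obtain ⟨s, hs, hp, _⟩ := hz
      have h1 : ((s.map (toPre D).b).prod : O) ∈ N := by
        refine Submonoid.multiset_prod_mem N _ fun y hy => ?_
        obtain ⟨Y, hY, rfl⟩ := Multiset.mem_map.1 hy
        exact hs Y hY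
      rw [hp] at h1
      exact h1
    have hsp : D.sp w N = ⊤ := by
      obtain ⟨s, hs, _, hsp⟩ := hz
      rw [eq_top_iff, ← hsp]
      refine Submodule.span_mono ?_
      rintro _ ⟨X, hX, rfl⟩
      exact ⟨X, hs X hX, (toPre_str D w X).symm⟩
    have hgen : D.Gen N z := ⟨hzN, fun C hC => XGEN.dvd hN hz hC⟩
    have hcc : ∀ X, D.Ad w X → D.SC z X → D.CC w N X := fun X h1 h2 =>
      ⟨h1, fun C hC => hgen.cm hN' h2 hC⟩
    obtain ⟨Z, h1, h2⟩ := h.a2 w N hN' hsp
      (fun C hC => hdag w hw C (hN'.ad hC) (hN'.sr hC)) X Y (hcc X hX hX') (hcc Y hY hY')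
    exact ⟨Z, h1, hN'.sc hzN h2.2⟩
  · intro w hw N hN
    rw [toPre_sp]
    exact h.r w.length w hw (le_refl _) N ((toPre_Mx D w N).1 hN)

/-- the abstract form of the result over `Sys2` -/
theorem final2 [IsDomain O] [UniqueFactorizationMonoid O] (h : Part2 D) (h' : Part2 D.op)
    (w : List I) (hw : Reduced D.car w) (L : Set S) (hL : Pre.IsMaxFam (toPre D) w L) :
    (Pre.Atoms (toPre D) L).Finite ∧ (Pre.Atoms (toPre D) L).ncard = w.length ∧
      Pre.Generates (toPre D) L (Pre.Atoms (toPre D) L) ∧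
      (∀ P, P ⊆ L → Pre.Generates (toPre D) L P → Pre.Atoms (toPre D) L ⊆ P) ∧
      ∀ s t : Multiset S, (∀ X ∈ s, X ∈ Pre.Atoms (toPre D) L) →
        (∀ X ∈ t, X ∈ Pre.Atoms (toPre D) L) →
        (s.map D.b).prod = (t.map D.b).prod → s = t := by
  have h1 := inp h'
  rw [toPre_op] at h1
  exact freeness (toPre D) (inp h) h1 w hw L hL

end Pool.Agent.KLT

end

section

/-! MP_e487d8_al: from the abstract theorem on isomorphism classes to the graded modules of
`Stmt.lean`. -/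

set_option autoImplicit false

namespace Pool.Agent.KLS.St

variable {K I : Type} [Field K] [Fintype I] [DecidableEq I]

/-- the comparison of the two kinds of graded modules -/
structure TFacts (D : Datum K I) : Prop where
  irr : ∀ X : GMod D, X.Irr ↔ X.toG.Irr
  shift : ∀ X Y : GMod D, X.Irr → (X.ShiftIso Y ↔ X.toG.ShiftIso Y.toG)
  conv : ∀ X Y Z : GMod D, X.IsConv Y Z → X.toG.IsConv Y.toG Z.toG
  conv' : ∀ X Y Z : GMod D, Z.Irr → X.toG.IsConv Y.toG Z.toG → X.IsConv Y Z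
  adapted : ∀ (w : List I) (X : GMod D), X.Adapted w ↔ X.toG.Adapted w
  surj : ∀ Z : KLS.GMod D, Nonempty ((ofG Z).toG.M ≃ₗ[KLRAlg D] Z.M)

namespace Bridge2

/-- the class of a graded module -/
noncomputable def cl {D : Datum K I} (hG : GrFacts D) {S O : Type} [CommRing O] [Algebra ℚ O]
    (Y : KLT.Pre I S O) (cls : SMod D → S) (X : GMod D) : S := Bridge.cl hG Y cls X.toG

variable {D : Datum K I} (hG : GrFacts D) {S O : Type} [CommRing O] [Algebra ℚ O]
  {Y : KLT.Pre I S O} {cls : SMod D → S}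

variable (hT : TFacts D) (hU : UFacts D Y cls)

include hT hU

theorem cl_eq_iff {X Z : GMod D} (hX : X.Irr) (hZ : Z.Irr) :
    cl hG Y cls X = cl hG Y cls Z ↔ X.ShiftIso Z := by
  rw [hT.shift X Z hX]
  exact Bridge.cl_eq_iff hG hU ((hT.irr X).1 hX) ((hT.irr Z).1 hZ)

theorem cl_eq_of_iso {X Z : GMod D} (hX : X.Irr) (hZ : Z.Irr)
    (f : X.toG.M ≃ₗ[KLRAlg D] Z.toG.M) : cl hG Y cls X = cl hG Y cls Z :=
  Bridge.cl_eq_of_iso hG hU ((hT.irr X).1 hX) ((hT.irr Z).1 hZ) f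

theorem mul_iff {X Z W : GMod D} (hX : X.Irr) (hZ : Z.Irr) (hW : W.Irr) :
    Y.b (cl hG Y cls X) * Y.b (cl hG Y cls Z) = Y.b (cl hG Y cls W) ↔ X.IsConv Z W :=
  (Bridge.mul_iff hG hU ((hT.irr X).1 hX) ((hT.irr Z).1 hZ) ((hT.irr W).1 hW)).trans
    ⟨hT.conv' X Z W hW, hT.conv X Z W⟩

theorem cl_surj (s : S) : ∃ X : GMod D, X.Irr ∧ cl hG Y cls X = s := by
  obtain ⟨Z, hZ, rfl⟩ := Bridge.cl_surj hG hU s
  obtain ⟨f⟩ := hT.surj Z
  have := hG.simple Z hZ
  have h1 : (ofG Z).toG.Irr := KLS.GMod.irr_of_simple _ (IsSimpleModule.congr f)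
  exact ⟨ofG Z, (hT.irr _).2 h1, Bridge.cl_eq_of_iso hG hU h1 hZ f⟩

theorem cl_one {X : GMod D} (hX : X.Irr) : cl hG Y cls X = Y.one ↔ X.n = 0 :=
  Bridge.cl_one hG hU ((hT.irr X).1 hX)

theorem ad_iff {X : GMod D} (hX : X.Irr) (w : List I) :
    Y.Ad w (cl hG Y cls X) ↔ X.Adapted w :=
  (Bridge.ad_iff hG hU ((hT.irr X).1 hX) w).trans (hT.adapted w X).symm

include hG in
omit hU in
theorem simple_of_irr {X : GMod D} (h : X.Irr) : IsSimpleModule (KLRAlg D) X.toG.M :=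
  hG.simple X.toG ((hT.irr X).1 h)

omit hU in
theorem irr_of_simple {X : GMod D} (h : IsSimpleModule (KLRAlg D) X.toG.M) : X.Irr :=
  (hT.irr X).2 (KLS.GMod.irr_of_simple X.toG h)

omit hT hU in
theorem shift_refl (A : GMod D) : A.ShiftIso A := by
  refine ⟨rfl, 0, id, Function.bijective_id, ⟨⟨fun _ _ => rfl, fun _ _ => rfl⟩, fun _ _ _ => rfl,
    fun _ _ => rfl, fun _ _ => rfl⟩, fun d u hu => ?_⟩
  rw [add_zero]
  exact hu

section

variable {w : List I} {L : Set (GMod D)} (hL : IsMaxFamily w L)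

include hL

theorem isFam : KLT.Pre.IsFam Y w (cl hG Y cls '' L) := by
  constructor
  · rintro _ ⟨X, hX, rfl⟩
    have hi := hL.irr X hX
    refine ⟨?_, (ad_iff hG hT hU hi w).2 (hL.adapted X hX)⟩
    rw [Ne, cl_one hG hT hU hi]
    have := hL.pos X hX
    omega
  · rintro _ ⟨X, hX, rfl⟩ _ ⟨Z, hZ, rfl⟩
    obtain ⟨W, hW, h⟩ := hL.conv X hX Z hZ
    exact ⟨_, ⟨W, hW, rfl⟩, (mul_iff hG hT hU (hL.irr X hX) (hL.irr Z hZ) (hL.irr W hW)).2 h⟩

omit hL in
theorem isFamily_of {L' : Set S} (h : KLT.Pre.IsFam Y w L') :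
    IsFamily w {X : GMod D | X.Irr ∧ cl hG Y cls X ∈ L'} where
  pos X hX := by
    have h1 := (h.1 _ hX.2).1
    rw [Ne, cl_one hG hT hU hX.1] at h1
    omega
  irr X hX := hX.1
  adapted X hX := (ad_iff hG hT hU hX.1 w).1 (h.1 _ hX.2).2
  conv X hX Z hZ := by
    obtain ⟨s, hs, h1⟩ := h.2 _ hX.2 _ hZ.2
    obtain ⟨W, hW, rfl⟩ := cl_surj hG hT hU s
    exact ⟨W, ⟨hW, hs⟩, (mul_iff hG hT hU hX.1 hZ.1 hW).1 h1⟩

omit hU hT in
theorem sub_of {L' : Set S} (h : cl hG Y cls '' L ⊆ L') :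
    L ⊆ {X : GMod D | X.Irr ∧ cl hG Y cls X ∈ L'} :=
  fun X hX => ⟨hL.irr X hX, h ⟨X, hX, rfl⟩⟩

theorem mem_iff {X : GMod D} (hX : X.Irr) : X ∈ L ↔ cl hG Y cls X ∈ cl hG Y cls '' L := by
  have h1 := hL.max _ (isFamily_of hG hT hU (isFam hG hT hU hL)) (sub_of hG hL subset_rfl)
  constructor
  · intro h
    exact ⟨X, h, rfl⟩
  · intro h
    rw [← h1]
    exact ⟨hX, h⟩

theorem isMaxFam : KLT.Pre.IsMaxFam Y w (cl hG Y cls '' L) := by
  refine ⟨isFam hG hT hU hL, fun L' hL' hle => ?_⟩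
  have h1 := hL.max _ (isFamily_of hG hT hU hL') (sub_of hG hL hle)
  refine Set.Subset.antisymm ?_ hle
  intro s hs
  obtain ⟨X, hX, rfl⟩ := cl_surj hG hT hU s
  refine ⟨X, ?_, rfl⟩
  rw [← h1]
  exact ⟨hX, hs⟩

theorem mem_atoms_iff {X : GMod D} (hX : X.Irr) :
    X ∈ atoms L ↔ cl hG Y cls X ∈ KLT.Pre.Atoms Y (cl hG Y cls '' L) := by
  unfold atoms KLT.Pre.Atoms
  rw [Set.mem_ofPred_eq, Set.mem_ofPred_eq, ← mem_iff hG hT hU hL hX]
  refine and_congr_right fun _ => not_congr ?_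
  constructor
  · rintro ⟨Z, hZ, W, hW, h⟩
    exact ⟨_, ⟨Z, hZ, rfl⟩, _, ⟨W, hW, rfl⟩,
      (mul_iff hG hT hU (hL.irr Z hZ) (hL.irr W hW) hX).2 h⟩
  · rintro ⟨_, ⟨Z, hZ, rfl⟩, _, ⟨W, hW, rfl⟩, h⟩
    exact ⟨Z, hZ, W, hW, (mul_iff hG hT hU (hL.irr Z hZ) (hL.irr W hW) hX).1 h⟩

/-- products of members of `L` -/
theorem of_isProd {l : List (GMod D)} {X : GMod D} (h : GMod.IsProd l X) (hl : ∀ Z ∈ l, Z ∈ L) :
    X ∈ L ∧ Y.b (cl hG Y cls X) = (l.map fun Z => Y.b (cl hG Y cls Z)).prod := by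
  induction h with
  | single X Z h =>
    have hX := hl X (List.mem_singleton_self X)
    obtain ⟨s, f, hf⟩ := (hT.shift X Z (hL.irr X hX)).1 h
    have hs := simple_of_irr hG hT (hL.irr X hX)
    have hZ : Z.Irr := irr_of_simple hT (IsSimpleModule.congr f.symm)
    have h1 : cl hG Y cls X = cl hG Y cls Z := (cl_eq_iff hG hT hU (hL.irr X hX) hZ).2 h
    refine ⟨?_, by rw [List.map_singleton, List.prod_singleton, h1]⟩
    rw [mem_iff hG hT hU hL hZ, ← h1]
    exact ⟨X, hX, rfl⟩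
  | cons X T Z l h h' ih =>
    have hX := hl X List.mem_cons_self
    obtain ⟨hTL, ih2⟩ := ih fun Z hZ => hl Z (List.mem_cons_of_mem _ hZ)
    obtain ⟨W, hW, hW'⟩ := hL.conv X hX T hTL
    obtain ⟨s, f, hf⟩ := hT.conv X T Z h'
    obtain ⟨s', f', hf'⟩ := hT.conv X T W hW'
    have hs := simple_of_irr hG hT (hL.irr W hW)
    have hZ : Z.Irr := irr_of_simple hT (IsSimpleModule.congr (f.symm.trans f'))
    have h1 : cl hG Y cls W = cl hG Y cls Z :=
      cl_eq_of_iso hG hT hU (hL.irr W hW) hZ (f'.symm.trans f)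
    refine ⟨?_, ?_⟩
    · rw [mem_iff hG hT hU hL hZ, ← h1]
      exact ⟨W, hW, rfl⟩
    · rw [List.map_cons, List.prod_cons, ← ih2]
      exact ((mul_iff hG hT hU (hL.irr X hX) (hL.irr T hTL) hZ).2 h').symm

theorem exists_prod {l : List (GMod D)} (hl0 : l ≠ []) (hl : ∀ Z ∈ l, Z ∈ L) :
    ∃ X ∈ L, GMod.IsProd l X ∧
      Y.b (cl hG Y cls X) = (l.map fun Z => Y.b (cl hG Y cls Z)).prod := by
  induction l with
  | nil => exact absurd rfl hl0
  | cons A l ih =>
    have hA := hl A List.mem_cons_self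
    by_cases h0 : l = []
    · subst h0
      refine ⟨A, hA, GMod.IsProd.single A A (shift_refl A), ?_⟩
      rw [List.map_singleton, List.prod_singleton]
    · obtain ⟨X, hX, h1, h2⟩ := ih h0 fun Z hZ => hl Z (List.mem_cons_of_mem _ hZ)
      obtain ⟨Z, hZ, hZ'⟩ := hL.conv A hA X hX
      refine ⟨Z, hZ, GMod.IsProd.cons A X Z l h1 hZ', ?_⟩
      rw [List.map_cons, List.prod_cons, ← h2]
      exact ((mul_iff hG hT hU (hL.irr A hA) (hL.irr X hX) (hL.irr Z hZ)).2 hZ').symm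

theorem isProd_of {l : List (GMod D)} {X : GMod D} (hX : X.Irr) (hl0 : l ≠ [])
    (hl : ∀ Z ∈ l, Z ∈ L)
    (h : Y.b (cl hG Y cls X) = (l.map fun Z => Y.b (cl hG Y cls Z)).prod) :
    GMod.IsProd l X := by
  cases l with
  | nil => exact absurd rfl hl0
  | cons A l =>
    have hA := hl A List.mem_cons_self
    by_cases h0 : l = []
    · subst h0
      rw [List.map_singleton, List.prod_singleton] at h
      exact GMod.IsProd.single A X ((cl_eq_iff hG hT hU (hL.irr A hA) hX).1 (Y.b.injective h.symm))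
    · obtain ⟨Z, hZ, h1, h2⟩ := exists_prod hG hT hU hL h0
        fun Z hZ => hl Z (List.mem_cons_of_mem _ hZ)
      refine GMod.IsProd.cons A Z X l h1 ?_
      rw [List.map_cons, List.prod_cons, ← h2] at h
      exact (mul_iff hG hT hU (hL.irr A hA) (hL.irr Z hZ) hX).1 h.symm

include hG in
theorem isProd_perm {l l' : List (GMod D)} {X : GMod D} (hl : ∀ Z ∈ l, Z ∈ L) (hp : l.Perm l')
    (h : GMod.IsProd l X) : GMod.IsProd l' X := by
  obtain ⟨hX, h1⟩ := of_isProd hG hT hU hL h hl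
  have hl0 : l ≠ [] := by
    rintro rfl
    cases h
  refine isProd_of hG hT hU hL (hL.irr X hX) (fun h0 => hl0 (by subst h0; exact hp.eq_nil))
    (fun Z hZ => hl Z (hp.mem_iff.2 hZ)) ?_
  rw [h1]
  exact (hp.map _).prod_eq

end

include hG in
theorem main (w : List I) (habs : ∀ L, KLT.Pre.IsMaxFam Y w L →
      (KLT.Pre.Atoms Y L).Finite ∧ (KLT.Pre.Atoms Y L).ncard = w.length ∧
      KLT.Pre.Generates Y L (KLT.Pre.Atoms Y L) ∧
      (∀ P, P ⊆ L → KLT.Pre.Generates Y L P → KLT.Pre.Atoms Y L ⊆ P) ∧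
      ∀ s t : Multiset S, (∀ X ∈ s, X ∈ KLT.Pre.Atoms Y L) → (∀ X ∈ t, X ∈ KLT.Pre.Atoms Y L) →
        (s.map Y.b).prod = (t.map Y.b).prod → s = t)
    (L : Set (GMod D)) (hL : IsMaxFamily w L) :
    IsGenerated w.length L ∧
      ∃ P : Set (GMod D), P.Finite ∧ P.ncard = w.length ∧ IsFreeOn P L := by
  classical
  obtain ⟨hfin, hcard, hgen, hmin, huniq⟩ := habs _ (isMaxFam hG hT hU hL)
  choose sec hsec1 hsec2 using cl_surj hG hT hU
  have hinj : Function.Injective sec := fun s t h => by rw [← hsec2 s, ← hsec2 t, h]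
  set L0 := cl hG Y cls '' L with hL0
  set P : Set (GMod D) := sec '' (KLT.Pre.Atoms Y L0) with hP
  have hPfin : P.Finite := hfin.image sec
  have hPcard : P.ncard = w.length := by
    rw [hP, Set.ncard_image_of_injective _ hinj, hcard]
  have hPat : P ⊆ atoms L := by
    rintro _ ⟨s, hs, rfl⟩
    rw [mem_atoms_iff hG hT hU hL (hsec1 s), hsec2 s]
    exact hs
  have hPL : ∀ X ∈ P, X ∈ L := fun X hX => (hPat hX).1
  have hsc : ∀ X ∈ P, sec (cl hG Y cls X) = X := by
    rintro _ ⟨s, hs, rfl⟩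
    rw [hsec2]
  have hgenP : Generates P L := by
    intro X hX
    obtain ⟨s, hs0, hs1, hs2⟩ := hgen _ ⟨X, hX, rfl⟩
    have hmem : ∀ Z ∈ s.toList.map sec, Z ∈ P := by
      intro Z hZ
      obtain ⟨t, ht, rfl⟩ := List.mem_map.1 hZ
      exact ⟨t, hs1 t (Multiset.mem_toList.1 ht), rfl⟩
    refine ⟨s.toList.map sec, hmem, isProd_of hG hT hU hL (hL.irr X hX) ?_
      (fun Z hZ => hPL Z (hmem Z hZ)) ?_⟩
    · intro h
      apply hs0
      rw [List.map_eq_nil_iff] at h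
      exact Multiset.toList_eq_nil.1 h
    · rw [List.map_map, ← hs2]
      have h1 : (fun Z => Y.b (cl hG Y cls Z)) ∘ sec = Y.b := by
        funext t
        rw [Function.comp_apply, hsec2]
      rw [h1]
      conv_lhs => rw [← Multiset.coe_toList s]
      rw [Multiset.map_coe, Multiset.prod_coe]
  have hminP : ∀ Q, Q ⊆ P → Generates Q L → Q = P := by
    intro Q hQ hgQ
    refine Set.Subset.antisymm hQ ?_
    have h1 : KLT.Pre.Generates Y L0 (cl hG Y cls '' Q) := by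
      rintro _ ⟨X, hX, rfl⟩
      obtain ⟨l, hl, hp⟩ := hgQ X hX
      refine ⟨((l.map (cl hG Y cls) : List S) : Multiset S), ?_, ?_, ?_⟩
      · intro h
        rw [Multiset.coe_eq_zero, List.map_eq_nil_iff] at h
        subst h
        cases hp
      · intro s hs
        rw [Multiset.mem_coe, List.mem_map] at hs
        obtain ⟨Z, hZ, rfl⟩ := hs
        exact ⟨Z, hl Z hZ, rfl⟩
      · rw [(of_isProd hG hT hU hL hp fun Z hZ => hPL Z (hQ (hl Z hZ))).2, Multiset.map_coe,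
          Multiset.prod_coe, List.map_map]
        rfl
    have h2 := hmin _ (fun s hs => by
      obtain ⟨Z, hZ, rfl⟩ := hs
      exact ⟨Z, hPL Z (hQ hZ), rfl⟩) h1
    rintro _ ⟨s, hs, rfl⟩
    obtain ⟨Z, hZ, rfl⟩ := h2 hs
    rw [hsc Z (hQ hZ)]
    exact hZ
  refine ⟨⟨P, hPfin, hPcard, hPat, hgenP, hminP⟩, P, hPfin, hPcard, ?_⟩
  refine ⟨hPat, ?_, hgenP,
    fun X l l' hl hp h => isProd_perm hG hT hU hL (fun Z hZ => hPL Z (hl Z hZ)) hp h, ?_, ?_⟩
  · intro X hX
    have hXi := hL.irr X hX.1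
    have h1 := (mem_atoms_iff hG hT hU hL hXi).1 hX
    refine ⟨sec (cl hG Y cls X), ⟨⟨_, h1, rfl⟩, ?_⟩, ?_⟩
    · rw [← cl_eq_iff hG hT hU hXi (hsec1 _), hsec2]
    · rintro Z ⟨⟨s, hs, rfl⟩, h2⟩
      rw [← cl_eq_iff hG hT hU hXi (hsec1 _), hsec2] at h2
      rw [h2]
  · intro X l l' hl hl' hp hp'
    have h1 := (of_isProd hG hT hU hL hp fun Z hZ => hPL Z (hl Z hZ)).2
    have h2 := (of_isProd hG hT hU hL hp' fun Z hZ => hPL Z (hl' Z hZ)).2
    have h3 := huniq ((l.map (cl hG Y cls) : List S) : Multiset S)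
      ((l'.map (cl hG Y cls) : List S) : Multiset S) ?_ ?_ ?_
    · rw [Multiset.coe_eq_coe] at h3
      have h4 := h3.map sec
      rw [List.map_map, List.map_map] at h4
      have h5 : ∀ l : List (GMod D), (∀ Z ∈ l, Z ∈ P) → l.map (sec ∘ cl hG Y cls) = l := by
        intro l hl
        conv_rhs => rw [← List.map_id l]
        exact List.map_congr_left fun Z hZ => hsc Z (hl Z hZ)
      rwa [h5 l hl, h5 l' hl'] at h4
    · intro s hs
      rw [Multiset.mem_coe, List.mem_map] at hs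
      obtain ⟨Z, hZ, rfl⟩ := hs
      exact (mem_atoms_iff hG hT hU hL (hL.irr Z (hPL Z (hl Z hZ)))).1 (hPat (hl Z hZ))
    · intro s hs
      rw [Multiset.mem_coe, List.mem_map] at hs
      obtain ⟨Z, hZ, rfl⟩ := hs
      exact (mem_atoms_iff hG hT hU hL (hL.irr Z (hPL Z (hl' Z hZ)))).1 (hPat (hl' Z hZ))
    · rw [Multiset.map_coe, Multiset.map_coe, Multiset.prod_coe, Multiset.prod_coe, List.map_map,
        List.map_map]
      exact h1.symm.trans h2
  · intro l hl0 hl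
    obtain ⟨X, hX, h1, _⟩ := exists_prod hG hT hU hL hl0 fun Z hZ => hPL Z (hl Z hZ)
    exact ⟨X, hX, h1⟩

end Bridge2

/-- the two kinds of graded modules are the same -/
theorem tFacts (D : Datum K I) : TFacts D where
  irr _ := GMod.irr_iff
  shift _ _ h := GMod.shiftIso_iff h.nontrivial
  conv _ _ _ h := GMod.isConv_toG h
  conv' _ _ _ h h' := (GMod.isConv_iff h.nontrivial).2 h'
  adapted w _ := GMod.adapted_iff w
  surj Z := toG_ofG_iso Z

end Pool.Agent.KLS.St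

end

section

/-! MP_e487d8_al: graded characters of the simple modules are linearly independent over the
Laurent polynomials, because the characters are linearly independent. -/

set_option autoImplicit false

open Pool.Agent.E487.Hopf

open scoped LaurentPolynomial

namespace Pool.Agent.KLS

variable {K I : Type} [Field K] [Fintype I] [DecidableEq I] {D : Datum K I}

namespace Gk

variable {Lp : I → ℕ → SMod D} (hC : CFacts D Lp) (gch : Sm D → QSh D.fm)
  (hev : ∀ X : Sm D, QSh.ev (gch X) = Sm.chq X)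

/-! ### independence -/

open Polynomial in
theorem ev1_toLaurent (f : ℤ[X]) : QSh.ev1 (toLaurent f) = ((f.eval 1 : ℤ) : ℚ) := by
  have h : (QSh.ev1.comp (toLaurent : ℤ[X] →+* ℤ[T;T⁻¹])) =
      (Int.castRingHom ℚ).comp (Polynomial.evalRingHom 1) := by
    refine Polynomial.ringHom_ext (fun a => ?_) ?_
    · simp
    · have h1 : (toLaurent (X : ℤ[X])) = QSh.tt 1 := toLaurent_X
      rw [RingHom.comp_apply, h1, QSh.ev1_tt]
      simp
  exact RingHom.congr_fun h f

open Polynomial in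
include hC hev in
theorem desc_eval (s : Finset (Sm D)) (p : Sm D → ℤ[X])
    (h : ∀ ν, ∑ X ∈ s, toLaurent (p X) * gch X ν = 0) : ∀ X ∈ s, (p X).eval 1 = 0 := by
  intro X hX
  have h2 : ∑ X ∈ s, (((p X).eval 1 : ℤ) : ℚ) • Sm.chq X = 0 := by
    apply Sh.ext'
    intro ν
    have h3 := congrArg QSh.ev1 (h ν)
    rw [map_sum, map_zero] at h3
    have h5 : ∀ t : Finset (Sm D), (∑ X ∈ t, (((p X).eval 1 : ℤ) : ℚ) • Sm.chq X) ν =
        ∑ X ∈ t, (((p X).eval 1 : ℤ) : ℚ) * Sm.chq X ν := by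
      classical
      intro t
      induction t using Finset.induction_on with
      | empty => rfl
      | insert a t ha ih => rw [Finset.sum_insert ha, Finset.sum_insert ha, Sh.add_apply, ih,
          Sh.smul_apply]
    rw [h5, Sh.zero_apply, ← h3]
    refine Finset.sum_congr rfl fun Y _ => ?_
    rw [map_mul, ev1_toLaurent, ← hev Y]
    rfl
  have h4 := (linearIndependent_iff'.1 (Sm.indep hC (D := D))) s _ h2 X hX
  exact_mod_cast h4

open Polynomial in
include hC hev in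
theorem desc (N : ℕ) : ∀ (s : Finset (Sm D)) (p : Sm D → ℤ[X]),
    ∑ X ∈ s, (p X).natDegree ≤ N →
    (∀ ν, ∑ X ∈ s, toLaurent (p X) * gch X ν = 0) → ∀ X ∈ s, p X = 0 := by
  induction N with
  | zero =>
    intro s p hN h X hX
    have h1 := desc_eval hC gch hev s p h X hX
    have h2 : (p X).natDegree = 0 :=
      (Finset.sum_eq_zero_iff.1 (Nat.le_zero.1 hN)) X hX
    rw [Polynomial.eq_C_of_natDegree_eq_zero h2] at h1 ⊢
    rw [eval_C] at h1
    rw [h1, map_zero]
  | succ N ih =>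
    intro s p hN h X hX
    have h1 := desc_eval hC gch hev s p h
    have h2 : ∀ Y, ∃ q : ℤ[X], Y ∈ s → p Y = (Polynomial.X - C 1) * q := by
      intro Y
      by_cases hY : Y ∈ s
      · obtain ⟨q, hq⟩ := (dvd_iff_isRoot (p := p Y) (a := 1)).2 (h1 Y hY)
        exact ⟨q, fun _ => hq⟩
      · exact ⟨0, fun h => absurd h hY⟩
    choose q hq using h2
    have h3 : ∀ ν, ∑ Y ∈ s, toLaurent (q Y) * gch Y ν = 0 := by
      intro ν
      have h4 := h ν
      have h5 : ∑ Y ∈ s, toLaurent (p Y) * gch Y ν =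
          toLaurent (Polynomial.X - C 1 : ℤ[X]) * ∑ Y ∈ s, toLaurent (q Y) * gch Y ν := by
        rw [Finset.mul_sum]
        refine Finset.sum_congr rfl fun Y hY => ?_
        rw [hq Y hY, map_mul]; ring
      rw [h5] at h4
      refine (mul_eq_zero.1 h4).resolve_left fun h0 => ?_
      have h6 : (Polynomial.X - C 1 : ℤ[X]) = 0 :=
        toLaurent_injective (by rw [h0, map_zero])
      exact X_sub_C_ne_zero 1 h6
    by_cases hall : ∀ Y ∈ s, p Y = 0
    · exact hall X hX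
    · push Not at hall
      obtain ⟨Y₀, hY₀, hne⟩ := hall
      have h7 : ∑ Y ∈ s, (q Y).natDegree ≤ N := by
        have h8 : ∑ Y ∈ s, (q Y).natDegree < ∑ Y ∈ s, (p Y).natDegree := by
          refine Finset.sum_lt_sum (fun Y hY => ?_) ⟨Y₀, hY₀, ?_⟩
          · by_cases h0 : q Y = 0
            · rw [h0, natDegree_zero]; exact Nat.zero_le _
            · rw [hq Y hY, natDegree_mul (X_sub_C_ne_zero 1) h0]
              exact Nat.le_add_left _ _
          · have h0 : q Y₀ ≠ 0 := by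
              intro h0
              apply hne
              rw [hq Y₀ hY₀, h0, mul_zero]
            rw [hq Y₀ hY₀, natDegree_mul (X_sub_C_ne_zero 1) h0, natDegree_X_sub_C]
            omega
        omega
      have h9 := ih s q h7 h3 X hX
      rw [hq X hX, h9, mul_zero]

include hC hev in
theorem indep : LinearIndependent ℤ[T;T⁻¹] gch := by
  classical
  rw [linearIndependent_iff']
  intro s g hg X hX
  -- clear the denominators
  have h1 : ∀ Y, ∃ (n : ℕ) (f : Polynomial ℤ), Polynomial.toLaurent f = g Y * QSh.tt n :=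
    fun Y => LaurentPolynomial.exists_T_pow (g Y)
  choose n f hf using h1
  set N := ∑ Y ∈ s, n Y with hN
  set p : Sm D → Polynomial ℤ := fun Y => f Y * Polynomial.X ^ (N - n Y) with hp
  have h2 : ∀ Y ∈ s, Polynomial.toLaurent (p Y) = g Y * QSh.tt N := by
    intro Y hY
    have h3 : n Y ≤ N := Finset.single_le_sum (fun _ _ => Nat.zero_le _) hY
    have h4 : (Polynomial.toLaurent (Polynomial.X ^ (N - n Y) : Polynomial ℤ)) =
        QSh.tt ((N - n Y : ℕ) : ℤ) := by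
      rw [Polynomial.toLaurent_X_pow]
    rw [hp]
    dsimp only
    rw [map_mul, hf, h4, mul_assoc, ← QSh.tt_add]
    congr 2
    push_cast [h3]
    ring
  have h5 := desc hC gch hev _ s p le_rfl (fun ν => by
    have h6 := congrFun hg ν
    have h7 : (∑ Y ∈ s, g Y • gch Y) ν = ∑ Y ∈ s, g Y * gch Y ν := by
      have : ∀ t : Finset (Sm D), (∑ Y ∈ t, g Y • gch Y) ν = ∑ Y ∈ t, g Y * gch Y ν := by
        intro t
        induction t using Finset.induction_on with
        | empty => rfl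
        | insert a t ha ih => rw [Finset.sum_insert ha, Finset.sum_insert ha, QSh.add_apply, ih,
            QSh.smul_apply]
      exact this s
    rw [h7] at h6
    have h8 : ∑ Y ∈ s, Polynomial.toLaurent (p Y) * gch Y ν =
        (∑ Y ∈ s, g Y * gch Y ν) * QSh.tt N := by
      rw [Finset.sum_mul]
      refine Finset.sum_congr rfl fun Y hY => ?_
      rw [h2 Y hY]; ring
    rw [h8, h6]
    exact zero_mul _) X hX
  have h9 := h2 X hX
  rw [h5, map_zero] at h9
  refine (mul_eq_zero.1 h9.symm).resolve_right fun h0 => ?_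
  have h10 := congrArg QSh.ev1 h0
  rw [QSh.ev1_tt, map_zero] at h10
  exact one_ne_zero h10

end Gk

end Pool.Agent.KLS

end
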