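import Pool.Agent.Work.MP_e487d8_al.Bd.B24
import Pool.Agent.Work.MP_e487d8_al.Bd.B42
import Pool.Agent.Work.MP_e487d8_al.Bd.B40
import Pool.Agent.Work.MP_e487d8_al.Y.Fin.Ring
import Pool.Agent.Work.MP_e487d8_al.Y.Fin.Mir

/-! Bundle of small proof modules (one section per former module). -/

section

/-! MP_e487d8_al, block HD: the degrees of the constituents of `X ∘ b` -/

set_option autoImplicit false

namespace Pool.Agent.KLS

variable {K I : Type} [Field K] [Fintype I] [DecidableEq I] {D : Datum K I}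

theorem Mo.hd (hb : S_basis D) : Mo.StHd D := by
  have h1 : Mo.StOneR D := by apply Mo.I_ONER; exact hb
  have h2 : Mo.StOneL D := by apply Mo.I_ONEL; exact hb
  have h3 : Mo.StBig D := by apply Mo.I_BIG <;> assumption
  have h4 : Mo.StDesc D := by apply Mo.I_DESC; exact hb
  have h5 : Mo.StRec D := Mo.I_REC D hb (Mo.I_REDQ _) h3 h4
  have h6 : Mo.StPi D := by
    apply Mo.I_PI
    · exact hb
    · exact Mo.I_BASE D
    · exact h5
  have h7 : Mo.StOccX D := by apply Mo.I_OCCX
  have h8 : Mo.StFilt D := by apply Mo.I_FILT; exact h7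
  have h9 : Mo.StLat D := by
    apply Mo.I_LAT
    · exact Mo.I_OCCS D
    · exact h8
  apply Mo.I_HD
  · exact hb
  · exact h6
  · exact h9

end Pool.Agent.KLS

end

section

/-! MP_e487d8_al, block Gk: graded Jordan-Hölder multiplicities. -/

set_option autoImplicit false
set_option linter.unusedSectionVars false

open Pool.Agent.E487.Hopf

open scoped LaurentPolynomial

namespace Pool.Agent.KLS

variable {K I : Type} [Field K] [Fintype I] [DecidableEq I] {D : Datum K I}

namespace Gk

theorem exists_gsel (hb : S_basis D) (X : Sm D) :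
    ∃ g : Grd D X.rep.M, X = Sm.one D → g.gchr X.rep.n = 1 := by
  by_cases h : X = Sm.one D
  · have hn : X.rep.n = 0 := by rw [h]; exact Sm.len_one
    have hs : IsStrand D 0 X.rep.M := hn ▸ X.rep.smp.strand
    have hx : ∀ k (u : X.rep.M), D.x k • u = 0 := fun k u => hs.x_smul_zero (Nat.zero_le k) u
    have ht : ∀ k (u : X.rep.M), D.t k • u = 0 := fun k u => hs.t_smul_zero (Nat.zero_le _) u
    refine ⟨Grd.triv hx ht, fun _ => ?_⟩
    apply QSh.ext'
    intro ν
    rw [hn]
    cases ν with
    | cons j ν => rw [QSh.one_cons, (Grd.triv hx ht).gchr_ne (by simp)]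
    | nil =>
      rw [QSh.one_nil]
      have hpr : ∀ (d : ℤ) (u : X.rep.M), (Grd.triv hx ht).pr d u = if 0 = d then u else 0 :=
        fun d u => (Grd.triv_hm hx ht u).pr_eq d
      have h1 : ∀ d, d ∉ ({0} : Finset ℤ) → (Grd.triv hx ht).gdim [] d = 0 := fun d hd =>
        (Grd.triv hx ht).gdim_zero fun u => by
          rw [hpr, if_neg]
          rintro rfl
          exact hd (Finset.mem_singleton_self _)
      have e := (Grd.triv hx ht).gchr_eq (n := 0) (ν := []) rfl h1
      refine e.trans ?_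
      rw [Finset.sum_singleton]
      have h2 : (Grd.triv hx ht).gop [] 0 = LinearMap.id := by
        ext u
        rw [Grd.gop_apply, hpr, if_pos rfl, D.eW_nil, one_smul]
        rfl
      have h3 : Module.finrank K X.rep.M = 1 := finrank_one_of_strand hs
      rw [Grd.gdim, h2, LinearMap.range_id, finrank_top, h3, Nat.cast_one, one_mul]
      exact LaurentPolynomial.T_zero
  · obtain ⟨g⟩ := gradable hb X.rep.n X.rep.M X.rep.smp
    exact ⟨g, fun h' => absurd h' h⟩

/-- a grading of the representative of a simple module -/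
noncomputable def gsel (hb : S_basis D) (X : Sm D) : Grd D X.rep.M := (exists_gsel hb X).choose

/-- the graded character of a simple module -/
noncomputable def gch (hb : S_basis D) (X : Sm D) : QSh D.fm := (gsel hb X).gchr X.rep.n

theorem gch_one (hb : S_basis D) : gch hb (Sm.one D) = 1 :=
  (exists_gsel hb (Sm.one D)).choose_spec rfl

theorem ev_gch (hb : S_basis D) (X : Sm D) : QSh.ev (gch hb X) = Sm.chq X := by
  unfold gch
  rw [Grd.ev_gchr]
  exact Sm.chq_rep X

theorem supp_gch (hb : S_basis D) (X : Sm D) (ν : List I) (h : gch hb X ν ≠ 0) : X.1 ν ≠ 0 := by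
  intro h0
  apply h
  unfold gch
  have h1 : X.rep.ch ν = 0 := by rw [X.ch_rep]; exact h0
  by_cases hl : ν.length = X.rep.n
  · obtain ⟨S, hS, hS'⟩ := (gsel hb X).gdim_support
    rw [(gsel hb X).gchr_eq hl (hS' ν)]
    have h2 := (gsel hb X).sum_gdim hS ν
    have h3 : Module.finrank K (wordSp D X.rep.M ν) = 0 := by
      have h4 : chr D X.rep.n X.rep.M ν = 0 := h1
      unfold chr at h4
      rwa [if_pos hl] at h4
    rw [h3] at h2
    refine Finset.sum_eq_zero fun d hd => ?_
    rw [Finset.sum_eq_zero_iff.1 h2 d hd, Nat.cast_zero, zero_mul]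
  · exact (gsel hb X).gchr_ne hl

variable {Lp : I → ℕ → SMod D} (hC : CFacts D Lp)

include hC in
theorem indepG (hb : S_basis D) : LinearIndependent ℤ[T;T⁻¹] (gch (D := D) hb) :=
  indep hC (gch hb) (ev_gch hb)

/-- the graded object of a simple module -/
noncomputable def gS (hb : S_basis D) (X : Sm D) : GM D := X.rep.gm (gsel hb X)

/-- a graded object of a graded module -/
def gv {M : Type} [AddCommGroup M] [Module K M] [Module (KLRAlg D) M]
    [IsScalarTower K (KLRAlg D) M] (g : Grd D M) : GV D := ⟨M, g⟩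

theorem coeff_add (a b : ℤ[T;T⁻¹]) (k : ℤ) : (a + b).coeff k = a.coeff k + b.coeff k := by
  rw [AddMonoidAlgebra.coeff_add]; rfl

theorem coeff_tt (s k : ℤ) : (QSh.tt s).coeff k = if s = k then 1 else 0 := by
  classical
  show (LaurentPolynomial.T s : ℤ[T;T⁻¹]).coeff k = _
  rw [LaurentPolynomial.T, AddMonoidAlgebra.coeff_single, Finsupp.single_apply]

theorem sum_single (hb : S_basis D) (Z : Sm D) (a : ℤ[T;T⁻¹]) :
    ((Finsupp.single Z a).sum fun Z a => a • gch hb Z) = a • gch hb Z :=
  Finsupp.sum_single_index (zero_smul _ _)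

theorem sum_add (hb : S_basis D) (m m' : Sm D →₀ ℤ[T;T⁻¹]) :
    ((m + m').sum fun Z a => a • gch hb Z) =
      (m.sum fun Z a => a • gch hb Z) + m'.sum fun Z a => a • gch hb Z :=
  Finsupp.sum_add_index' (fun _ => zero_smul _ _) (fun _ _ _ => add_smul _ _ _)

include hC in
theorem sum_inj (hb : S_basis D) {m m' : Sm D →₀ ℤ[T;T⁻¹]}
    (h : (m.sum fun Z a => a • gch hb Z) = m'.sum fun Z a => a • gch hb Z) : m = m' :=
  (indepG hC hb) h

/-- the kernel of a homogeneous homomorphism is graded -/
theorem ker_pr {M N : Type} [AddCommGroup M] [Module K M] [Module (KLRAlg D) M]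
    [IsScalarTower K (KLRAlg D) M] [AddCommGroup N] [Module K N] [Module (KLRAlg D) N]
    [IsScalarTower K (KLRAlg D) N] {g : Grd D M} {g' : Grd D N} {s : ℤ} {p : M →ₗ[KLRAlg D] N}
    (hp : HomDeg g g' s p) (v : LinearMap.ker p) (d : ℤ) :
    g.pr d ((LinearMap.ker p).subtype v) ∈ LinearMap.range (LinearMap.ker p).subtype := by
  rw [Submodule.range_subtype, LinearMap.mem_ker]
  have h := hp.pr d ((LinearMap.ker p).subtype v)
  rw [← h]
  have h1 : p ((LinearMap.ker p).subtype v) = 0 := v.2
  rw [h1, map_zero]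

/-- graded Jordan-Hölder multiplicities: existence -/
theorem exists_jh_aux (hb : S_basis D) {Lp : I → ℕ → SMod D} (hC : CFacts D Lp) : ∀ (N n : ℕ)
    (M : Type) [AddCommGroup M]
    [Module K M] [Module (KLRAlg D) M] [IsScalarTower K (KLRAlg D) M] (g : Grd D M),
    FdMod D n M → Module.finrank K M ≤ N →
    ∃ m : Sm D →₀ ℤ[T;T⁻¹], (∀ Z k, 0 ≤ (m Z).coeff k) ∧
      g.gchr n = (m.sum fun Z a => a • gch hb Z) ∧
      ∀ Z k, (m Z).coeff k ≠ 0 → (gS hb Z).toGV.Occ (gv g) k := by
  classical
  intro N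
  induction N with
  | zero =>
    intro n M _ _ _ _ g hM hN
    have hfd := hM.fd
    have hsub : Subsingleton M := Module.finrank_zero_iff.1 (Nat.le_zero.1 hN)
    refine ⟨0, fun Z k => le_refl _, ?_, fun Z k h => absurd rfl h⟩
    rw [Finsupp.sum_zero_index]
    apply QSh.ext'
    intro ν
    rw [QSh.zero_apply]
    by_cases hl : ν.length = n
    · rw [g.gchr_eq hl (S := ∅) (fun d _ => g.gdim_zero fun u => Subsingleton.elim _ _),
        Finset.sum_empty]
    · exact g.gchr_ne hl
  | succ N ih =>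
    intro n M _ _ _ _ g hM hN
    have hfd := hM.fd
    by_cases hnt : Nontrivial M
    · obtain ⟨Z₀, hZn, f, hf⟩ := Sm.exists_quo hM
      obtain ⟨φ⟩ := Sm.iso_rep hC (Sm.ch_rep_cls Z₀)
      -- a homogeneous surjection onto the representative
      set Z := Sm.cls Z₀ with hZ
      have hZs := Z.rep.smp.simple
      have hZnt : Nontrivial Z.rep.M := IsSimpleModule.nontrivial (KLRAlg D) Z.rep.M
      have hf1 : (φ.symm.toLinearMap ∘ₗ f : M →ₗ[KLRAlg D] Z.rep.M) ≠ 0 := by
        intro h0
        obtain ⟨v, hv⟩ := exists_ne (0 : Z.rep.M)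
        obtain ⟨u, hu⟩ := hf (φ v)
        apply hv
        have h1 := LinearMap.congr_fun h0 u
        rw [LinearMap.comp_apply, hu] at h1
        simpa using h1
      obtain ⟨s, p, hp0, hp⟩ := exists_homDeg g (gsel hb Z) hf1
      have hps : Function.Surjective p := LinearMap.surjective_of_ne_zero hp0
      have hZn' : Z.rep.n = n := by
        have h1 : Quo D Z.rep.M M := ⟨p, hps⟩
        exact quo_strand hM h1
      set g₁ := g.ofInj (LinearMap.ker p).subtype (Submodule.injective_subtype _) (ker_pr hp)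
        with hg₁
      have hi : HomDeg g₁ g 0 (LinearMap.ker p).subtype :=
        g.ofInj_hom (LinearMap.ker p).subtype (Submodule.injective_subtype _) (ker_pr hp)
      have hk : LinearMap.ker p = LinearMap.range (LinearMap.ker p).subtype :=
        (Submodule.range_subtype _).symm
      have hex := gchr_exact hi hp (Submodule.injective_subtype _) hps hk n
      have hM₁ : FdMod D n (LinearMap.ker p) := hM.sub _
      have hlt : Module.finrank K (LinearMap.ker p) ≤ N := by
        have h1 := LinearMap.finrank_range_add_finrank_ker (Conv.toK p)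
        have h2 : LinearMap.range (Conv.toK p) = ⊤ := LinearMap.range_eq_top.2 hps
        have h3 : 0 < Module.finrank K Z.rep.M := Module.finrank_pos
        rw [h2, finrank_top] at h1
        have h4 : Module.finrank K (LinearMap.ker (Conv.toK p)) =
            Module.finrank K (LinearMap.ker p) := rfl
        omega
      obtain ⟨m, h1, h2, h3⟩ := ih n _ g₁ hM₁ hlt
      refine ⟨m + Finsupp.single Z (QSh.tt (-s)), fun W k => ?_, ?_, fun W k hW => ?_⟩
      · rw [Finsupp.add_apply, coeff_add]
        refine add_nonneg (h1 W k) ?_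
        rw [Finsupp.single_apply]
        split_ifs
        · rw [coeff_tt]; split_ifs <;> norm_num
        · exact le_refl _
      · rw [hex, h2, sum_add, sum_single, QSh.tt_zero, one_smul]
        unfold gch
        rw [hZn']
      · rw [Finsupp.add_apply, coeff_add, Finsupp.single_apply] at hW
        by_cases h4 : (m W).coeff k = 0
        · rw [h4, zero_add] at hW
          by_cases h5 : Z = W
          · subst h5
            rw [if_pos rfl, coeff_tt] at hW
            by_cases h6 : -s = k
            · refine ⟨gv g, LinearMap.id, p, 0, s, fun _ _ h => h, hps, HomDeg.id, hp, ?_⟩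
              rw [← h6]; ring
            · rw [if_neg h6] at hW; exact absurd rfl hW
          · rw [if_neg h5] at hW; exact absurd rfl hW
        · have h5 := h3 W k h4
          have h6 := (Mo.I_OCCS D (gS hb W).toGV (gv g₁) (gv g) k 0).2 (LinearMap.ker p).subtype
            (Submodule.injective_subtype _) hi h5
          rwa [add_zero] at h6
    · rw [not_nontrivial_iff_subsingleton] at hnt
      exact ih n M g hM (by rw [Module.finrank_zero_of_subsingleton]; exact Nat.zero_le _)

theorem sum_smul (hb : S_basis D) (a : ℤ[T;T⁻¹]) (m : Sm D →₀ ℤ[T;T⁻¹]) :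
    ((a • m).sum fun Z c => c • gch hb Z) = a • m.sum fun Z c => c • gch hb Z := by
  rw [Finsupp.sum_smul_index (h := fun Z c => c • gch hb Z) fun _ => zero_smul _ _,
    Finsupp.smul_sum]
  refine Finsupp.sum_congr fun Z _ => ?_
  rw [mul_smul]

theorem coeff_pos (hb : S_basis D) {Lp : I → ℕ → SMod D} (hC : CFacts D Lp) {n : ℕ} {M W : Type}
    [AddCommGroup M] [Module K M] [Module (KLRAlg D) M] [IsScalarTower K (KLRAlg D) M]
    [AddCommGroup W] [Module K W] [Module (KLRAlg D) W] [IsScalarTower K (KLRAlg D) W]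
    (g : Grd D M) (gW : Grd D W) (hM : FdMod D n M) (m : Sm D →₀ ℤ[T;T⁻¹])
    (h2 : g.gchr n = (m.sum fun Z a => a • gch hb Z)) (Z : Sm D) (i : W →ₗ[KLRAlg D] M)
    (p : W →ₗ[KLRAlg D] Z.rep.M) (a b : ℤ) (hi : Function.Injective i)
    (hp : Function.Surjective p) (hia : HomDeg gW g a i) (hpb : HomDeg gW (gsel hb Z) b p) :
    (m Z).coeff (a - b) ≠ 0 := by
  classical
  have hfd := hM.fd
  have hWfd : FiniteDimensional K W := Module.Finite.of_injective (Conv.toK i) hi
  have hW : FdMod D n W :=
    ⟨SubQ.strand hM.strand (SubQ.of_injective i hi ⟨⊤, Submodule.topEquiv.toLinearMap,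
      Submodule.topEquiv.surjective⟩), hWfd, gW.nilp⟩
  have hZn : Z.rep.n = n := quo_strand hW ⟨p, hp⟩
  -- the kernel of `p`
  set g₁ := gW.ofInj (LinearMap.ker p).subtype (Submodule.injective_subtype _) (ker_pr hpb)
    with hg₁
  have hi₁ : HomDeg g₁ gW 0 (LinearMap.ker p).subtype :=
    gW.ofInj_hom (LinearMap.ker p).subtype (Submodule.injective_subtype _) (ker_pr hpb)
  have e1 := gchr_exact hi₁ hpb (Submodule.injective_subtype _) hp
    (Submodule.range_subtype _).symm n
  obtain ⟨m₁, h11, h12, -⟩ := exists_jh_aux hb hC _ n _ g₁ (hW.sub _) le_rfl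
  -- the quotient by the image of `i`
  have hq : ∀ (u : M) (d : ℤ), (LinearMap.range i).mkQ u = 0 →
      (LinearMap.range i).mkQ (g.pr d u) = 0 := by
    intro u d hu
    rw [Submodule.mkQ_apply, Submodule.Quotient.mk_eq_zero] at hu ⊢
    obtain ⟨w, rfl⟩ := hu
    have h := hia.pr (d - a) w
    rw [sub_add_cancel] at h
    exact ⟨_, h.symm⟩
  set g₂ := g.ofSurj (LinearMap.range i).mkQ (Submodule.mkQ_surjective _) hq with hg₂
  have hi₂ : HomDeg g g₂ 0 (LinearMap.range i).mkQ :=
    g.ofSurj_hom (LinearMap.range i).mkQ (Submodule.mkQ_surjective _) hq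
  have e2 := gchr_exact hia hi₂ hi (Submodule.mkQ_surjective _) (Submodule.ker_mkQ _) n
  obtain ⟨m₂, h21, h22, -⟩ := exists_jh_aux hb hC _ n _ g₂ (hM.quot _) le_rfl
  have e3 : (m.sum fun Z a => a • gch hb Z) =
      ((QSh.tt a • (m₁ + Finsupp.single Z (QSh.tt (-b))) + m₂).sum fun Z a => a • gch hb Z) := by
    rw [← h2, e2, sum_add, sum_smul, sum_add, sum_single, ← h12, ← h22, e1, neg_zero,
      QSh.tt_zero, one_smul, one_smul]
    unfold gch
    rw [hZn]
  have e4 := sum_inj hC hb e3
  rw [e4, Finsupp.add_apply, Finsupp.smul_apply, Finsupp.add_apply, Finsupp.single_eq_same,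
    smul_eq_mul, coeff_add, coeff_tt_mul, coeff_add, coeff_tt]
  have h5 := h11 Z (a - b - a)
  have h6 := h21 Z (a - b)
  have h7 : -b = a - b - a := by ring
  rw [if_pos h7]
  omega

/-- graded Jordan-Hölder multiplicities -/
theorem exists_jh (hb : S_basis D) {Lp : I → ℕ → SMod D} (hC : CFacts D Lp) {n : ℕ} {M : Type}
    [AddCommGroup M] [Module K M] [Module (KLRAlg D) M] [IsScalarTower K (KLRAlg D) M]
    (g : Grd D M) (hM : FdMod D n M) :
    ∃ m : Sm D →₀ ℤ[T;T⁻¹], (∀ Z k, 0 ≤ (m Z).coeff k) ∧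
      g.gchr n = (m.sum fun Z a => a • gch hb Z) ∧
      ∀ Z k, (m Z).coeff k ≠ 0 ↔ (gS hb Z).toGV.Occ (gv g) k := by
  obtain ⟨m, h1, h2, h3⟩ := exists_jh_aux hb hC _ n M g hM le_rfl
  refine ⟨m, h1, h2, fun Z k => ⟨h3 Z k, ?_⟩⟩
  rintro ⟨W, i, p, a, b, hi, hp, hia, hpb, rfl⟩
  exact coeff_pos hb hC g W.g hM m h2 Z i p a b hi hp hia hpb

end Gk

end Pool.Agent.KLS

end
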