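import Pool.Agent.Work.MP_e487d8_al.Bd.B43
import Pool.Agent.Work.MP_e487d8_al.Bd.B31
import Pool.Agent.Work.MP_e487d8_al.Bd.B30

/-! Bundle of small proof modules (one section per former module). -/

section

/-! MP_e487d8_al, block Gk: the grading of the mirror of a graded module. -/

set_option autoImplicit false
set_option linter.unusedSectionVars false

open Pool.Agent.E487.Hopf

open scoped LaurentPolynomial

namespace Pool.Agent.KLS

variable {K I : Type} [Field K] [Fintype I] [DecidableEq I] {D : Datum K I}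

namespace Gk

variable {n : ℕ} {M N : Type} [AddCommGroup M] [Module K M] [Module (KLRAlg D) M]
  [IsScalarTower K (KLRAlg D) M]

/-- exchange of the mirror and the families -/
noncomputable def sw (n : ℕ) : Lau D M →ₗ[K] Lau D (Mir D n M) :=
  Lau.lift D fun d => (Lau.sg D d).comp (Tw.mk (D.mir n) : M ≃ₗ[K] Mir D n M).toLinearMap

theorem sw_sg (d : ℤ) (u : M) : sw n (Lau.sg D d u) = Lau.sg D d (Tw.mk (D.mir n) u) :=
  Lau.lift_sg _ _ _

theorem mk_add (u v : M) : (Tw.mk (D.mir n) (u + v) : Mir D n M) =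
    Tw.mk (D.mir n) u + Tw.mk (D.mir n) v := rfl

theorem smul_mk' (a : KLRAlg D) (u : M) :
    a • (Tw.mk (D.mir n) u : Mir D n M) = Tw.mk (D.mir n) (D.mir n a • u) := Tw.smul_mk _ _ _

theorem sw_e (k : ℕ) (i : I) (z : Lau D M) : sw n (D.mir n (D.e k i) • z) = D.e k i • sw n z := by
  induction z using Lau.induction with
  | h0 => simp
  | h d u =>
    rw [sw_sg, Lau.e_sg, smul_mk', D.mir_e]
    split_ifs
    · rw [Lau.e_sg, sw_sg]
    · rw [zero_smul, zero_smul, map_zero, map_zero, map_zero]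
  | hadd y z hy hz => rw [smul_add, map_add, map_add, smul_add, hy, hz]

theorem sw_x (k : ℕ) (z : Lau D M) : sw n (D.mir n (D.x k) • z) = D.x k • sw n z := by
  induction z using Lau.induction with
  | h0 => simp
  | h d u =>
    rw [sw_sg, Lau.x_sg]
    by_cases hk : k < n
    · rw [D.mir_x, if_pos hk, Lau.x_sg, map_sum]
      refine Finset.sum_congr rfl fun i _ => ?_
      rw [sw_sg, smul_mk', map_mul, D.mir_x, if_pos hk, D.mir_e, if_pos hk]
    · rw [D.mir_x, if_neg hk, zero_smul, map_zero]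
      symm
      refine Finset.sum_eq_zero fun i _ => ?_
      rw [smul_mk', map_mul, D.mir_x, if_neg hk, zero_mul, zero_smul, map_zero, map_zero]
  | hadd y z hy hz => rw [smul_add, map_add, map_add, smul_add, hy, hz]

theorem ts_smul_sum (k : ℕ) (u : M) :
    ∑ i, ∑ j, (D.ts k * (D.e k i * D.e (k + 1) j)) • u = D.ts k • u := by
  have h1 : ∑ i, ∑ j, D.ts k * (D.e k i * D.e (k + 1) j) = D.ts k := by
    simp only [← Finset.mul_sum]
    have h2 : ∑ i, D.e k i * ∑ j, D.e (k + 1) j = D.E k * D.E (k + 1) := by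
      unfold Datum.E; rw [Finset.sum_mul]
    rw [h2, ← mul_assoc, D.ts_E, D.ts_E']
  calc _ = (∑ i, ∑ j, D.ts k * (D.e k i * D.e (k + 1) j)) • u := by
        rw [Finset.sum_smul]
        refine Finset.sum_congr rfl fun i _ => ?_
        rw [Finset.sum_smul]
    _ = _ := by rw [h1]

theorem ts_ee_sg (k : ℕ) (i j : I) (d : ℤ) (u : M) :
    (D.ts k * (D.e k i * D.e (k + 1) j)) • Lau.sg D d u =
      Lau.sg D (d - D.fm i j) ((D.ts k * (D.e k i * D.e (k + 1) j)) • u) := by
  rw [D.ts_mul_ee, smul_assoc, Lau.t_ee_sg, smul_assoc, map_zsmul]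

theorem sw_t (k : ℕ) (z : Lau D M) : sw n (D.mir n (D.t k) • z) = D.t k • sw n z := by
  induction z using Lau.induction with
  | h0 => simp
  | h d u =>
    rw [sw_sg, Lau.t_sg]
    by_cases hk : k + 1 < n
    · obtain ⟨m, hm⟩ : ∃ m, n = m + 2 + k := ⟨n - 2 - k, by omega⟩
      have e1 : n - 2 - k = m := by omega
      have e2 : n - 1 - k = m + 1 := by omega
      have e3 : n - 1 - (k + 1) = m := by omega
      rw [D.mir_t, if_pos hk, e1, ← ts_smul_sum, map_sum]
      rw [Finset.sum_comm]
      refine Finset.sum_congr rfl fun i _ => ?_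
      rw [map_sum]
      refine Finset.sum_congr rfl fun j _ => ?_
      rw [ts_ee_sg, sw_sg, smul_mk', map_mul, map_mul, D.mir_t, if_pos hk, D.mir_e,
        if_pos (by omega), D.mir_e, if_pos hk, e1, e2, e3, D.fm_symm j i]
      rw [D.e_comm m (m + 1) i j]
    · rw [D.mir_t, if_neg hk, zero_smul, map_zero]
      symm
      refine Finset.sum_eq_zero fun i _ => Finset.sum_eq_zero fun j _ => ?_
      rw [smul_mk', map_mul, D.mir_t, if_neg hk, zero_mul, zero_smul, map_zero, map_zero]
  | hadd y z hy hz => rw [smul_add, map_add, map_add, smul_add, hy, hz]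

/-- the coaction of the mirror -/
noncomputable def rhoM (n : ℕ) (g : Grd D M) : Mir D n M →ₗ[KLRAlg D] Lau D (Mir D n M) :=
  ofGens ((sw n).comp ((Conv.toK g.rho).comp (Tw.mk (D.mir n) : M ≃ₗ[K] Mir D n M).symm.toLinearMap))
    (fun k i u => by
      obtain ⟨u, rfl⟩ := (Tw.mk (D.mir n)).surjective u
      show sw n (g.rho (D.mir n (D.e k i) • u)) = D.e k i • sw n (g.rho u)
      rw [map_smul, sw_e])
    (fun k u => by
      obtain ⟨u, rfl⟩ := (Tw.mk (D.mir n)).surjective u
      show sw n (g.rho (D.mir n (D.x k) • u)) = D.x k • sw n (g.rho u)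
      rw [map_smul, sw_x])
    (fun k u => by
      obtain ⟨u, rfl⟩ := (Tw.mk (D.mir n)).surjective u
      show sw n (g.rho (D.mir n (D.t k) • u)) = D.t k • sw n (g.rho u)
      rw [map_smul, sw_t])

theorem rhoM_mk (g : Grd D M) (u : M) : rhoM n g (Tw.mk (D.mir n) u) = sw n (g.rho u) := rfl

theorem tot_sw (z : Lau D M) : Lau.tot D (Mir D n M) (sw n z) = Tw.mk (D.mir n) (Lau.tot D M z) := by
  induction z using Lau.induction with
  | h0 => simp
  | h d u => rw [sw_sg, Lau.tot_sg, Lau.tot_sg]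
  | hadd y z hy hz => rw [map_add, map_add, hy, hz, map_add, map_add]

/-- `sw` for families of families -/
noncomputable def sw2 (n : ℕ) : Lau D (Lau D M) →ₗ[K] Lau D (Lau D (Mir D n M)) :=
  Lau.lift D fun d => (Lau.sg D d).comp (sw n)

theorem sw2_sg (d : ℤ) (z : Lau D M) : sw2 n (Lau.sg D d z) = Lau.sg D d (sw n z) :=
  Lau.lift_sg _ _ _

theorem sw2_map (g : Grd D M) (z : Lau D M) :
    sw2 n (Lau.map g.rho z) = Lau.map (rhoM n g) (sw n z) := by
  induction z using Lau.induction with
  | h0 => simp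
  | h d u => rw [Lau.map_sg, sw2_sg, sw_sg, Lau.map_sg, rhoM_mk]
  | hadd y z hy hz => rw [map_add, map_add, hy, hz, map_add, map_add]

theorem sw2_dg (z : Lau D M) :
    sw2 n (Lau.dg D M z) = Lau.dg D (Mir D n M) (sw n z) := by
  induction z using Lau.induction with
  | h0 => simp
  | h d u => rw [Lau.dg_sg, sw2_sg, sw_sg, Lau.dg_sg]
  | hadd y z hy hz => rw [map_add, map_add, hy, hz, map_add, map_add]

/-- the grading of the mirror -/
noncomputable def mirG (n : ℕ) (g : Grd D M) : Grd D (Mir D n M) where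
  rho := rhoM n g
  tot u := by
    obtain ⟨u, rfl⟩ := (Tw.mk (D.mir n)).surjective u
    rw [rhoM_mk, tot_sw, g.tot]
  dg u := by
    obtain ⟨u, rfl⟩ := (Tw.mk (D.mir n)).surjective u
    rw [rhoM_mk, ← sw2_map, g.dg, sw2_dg]

theorem co_sw (d : ℤ) (z : Lau D M) : Lau.co D d (sw n z) = Tw.mk (D.mir n) (Lau.co D d z) := by
  induction z using Lau.induction with
  | h0 => simp
  | h d' u =>
    rw [sw_sg, Lau.co_sg, Lau.co_sg]
    split_ifs
    · rfl
    · rw [map_zero]
  | hadd y z hy hz => rw [map_add, map_add, hy, hz, map_add, map_add]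

theorem mirG_pr (g : Grd D M) (d : ℤ) (u : M) :
    (mirG n g).pr d (Tw.mk (D.mir n) u) = Tw.mk (D.mir n) (g.pr d u) := by
  rw [Grd.pr_apply, Grd.pr_apply, ← co_sw]
  rfl

theorem mirG_gdim (g : Grd D M) {ν : List I} (h : ν.length = n) (d : ℤ) :
    (mirG n g).gdim ν d = g.gdim ν.reverse d := by
  have h1 : LinearMap.range ((mirG n g).gop ν d) =
      (LinearMap.range (g.gop ν.reverse d)).map
        (Tw.mk (D.mir n) : M ≃ₗ[K] Mir D n M).toLinearMap := by
    have h2 : ∀ u : M, (mirG n g).gop ν d (Tw.mk (D.mir n) u) =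
        Tw.mk (D.mir n) (g.gop ν.reverse d u) := by
      intro u
      rw [Grd.gop_apply, Grd.gop_apply, mirG_pr, smul_mk', ← h, Datum.mir_eW]
    apply le_antisymm
    · rintro _ ⟨u, rfl⟩
      obtain ⟨u, rfl⟩ := (Tw.mk (D.mir n)).surjective u
      rw [h2]
      exact ⟨_, ⟨u, rfl⟩, rfl⟩
    · rintro _ ⟨_, ⟨u, rfl⟩, rfl⟩
      exact ⟨_, h2 u⟩
  unfold Grd.gdim
  rw [h1]
  exact (Tw.mk (D.mir n) : M ≃ₗ[K] Mir D n M).finrank_map_eq _

theorem mirG_gchr [FiniteDimensional K M] (g : Grd D M) :
    (mirG n g).gchr n = QSh.rv (g.gchr n) := by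
  apply QSh.ext'
  intro ν
  rw [QSh.rv_apply]
  by_cases h : ν.length = n
  · have h' : ν.reverse.length = n := by rw [List.length_reverse, h]
    obtain ⟨S, _, hS⟩ := g.gdim_support
    rw [g.gchr_eq h' (hS ν.reverse), (mirG n g).gchr_eq h (S := S) fun d hd => by
      rw [mirG_gdim g h, hS _ d hd]]
    exact Finset.sum_congr rfl fun d _ => by rw [mirG_gdim g h]
  · have h' : ν.reverse.length ≠ n := by rw [List.length_reverse]; exact h
    rw [g.gchr_ne h', (mirG n g).gchr_ne h]

/-- the mirror of the graded character of a simple module -/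
theorem rv_gch (hb : S_basis D) {Lp : I → ℕ → SMod D} (hC : CFacts D Lp) (X : Sm D) :
    ∃ s : ℤ, QSh.rv (gch hb X) = QSh.tt s • gch hb (In.mirS X) := by
  obtain ⟨φ⟩ := Sm.iso_rep hC (Sm.ch_rep_cls X.rep.mir)
  have hs := (In.mirS X).rep.smp.simple
  have hm : IsSimpleModule (KLRAlg D) (Mir D X.rep.n X.rep.M) := X.rep.mir.smp.simple
  obtain ⟨s, f, hf⟩ := exists_homDeg_equiv (gsel hb (In.mirS X)) (mirG X.rep.n (gsel hb X)) φ
  have hfd : FiniteDimensional K (In.mirS X).rep.M := (In.mirS X).rep.smp.fd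
  have hfd' : FiniteDimensional K X.rep.M := X.rep.smp.fd
  have hn : (In.mirS X).rep.n = X.rep.n := by
    obtain ⟨φ'⟩ := Sm.iso_rep hC (Sm.ch_rep_cls X.rep.mir)
    exact SMod.n_eq_of_iso (Y := X.rep.mir) ⟨φ'⟩
  have h1 := gchr_iso f hf X.rep.n
  rw [mirG_gchr] at h1
  refine ⟨s, ?_⟩
  unfold gch
  rw [h1, hn]

end Gk

end Pool.Agent.KLS

end

section

/-! MP_e487d8_al: all statements without the graded Grothendieck ring. -/

set_option autoImplicit false

namespace Pool.Agent.KLS

variable {K I : Type} [Field K] [Fintype I] [DecidableEq I] {D : Datum K I}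

theorem In.facts (hb : S_basis D) {Lp : I → ℕ → SMod D} (hC : CFacts D Lp) (hconv : S_conv D) :
    In.Facts hC hconv := by
  have mir : In.StMir hC hconv := by apply In.I_MIR <;> assumption
  have epss : In.StEpss hC := by apply In.I_EPSS <;> assumption
  have pri : In.StPri hC hconv := by apply In.I_PRI <;> assumption
  have adm : In.StAdm hC hconv := by apply In.I_ADM <;> assumption
  have ltp : In.StLtp hC hconv := by apply In.I_LTP <;> assumption
  have chi : In.StChi hC hconv := by apply In.I_CHI <;> assumption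
  have de : In.StDe hC hconv := by apply In.I_DE <;> assumption
  have dep : In.StDep hC hconv := by apply In.I_DEP <;> assumption
  have dr : In.StDr hC hconv := by apply In.I_DR <;> assumption
  have hdb : In.StHdb hC hconv := by apply In.I_HDB <;> assumption
  have hda : In.StHda hC hconv := by apply In.I_HDA <;> assumption
  have hds : In.StHds hC hconv := by apply In.I_HDS <;> assumption
  have hdl : In.StHdl hC hconv := by apply In.I_HDL <;> assumption
  have hdlp : In.StHdlp hC hconv := by apply In.I_HDLP <;> assumption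
  have icb : In.StIcb hC hconv := by apply In.I_ICB <;> assumption
  have hdi : In.StHdi hC := by apply In.I_HDI <;> assumption
  have tr : In.StTr hC hconv := by apply In.I_TR <;> assumption
  have k1 : In.StK1s' hC hconv := by apply In.I_K1S <;> assumption
  have k4 : In.StK4s hC hconv := by apply In.I_K4S <;> assumption
  have ds : In.StDss hC hconv := by apply In.I_DSS <;> assumption
  have lbf : In.StLbs hC hconv := by apply In.I_LBS <;> assumption
  exact ⟨mir, epss, pri, adm, ltp, chi, de, dep, dr, hdb, hda, hds, hdl, hdlp, icb, hdi, tr, k1, k4,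
    ds, lbf⟩

end Pool.Agent.KLS

end
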