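import Pool.Agent.Work.MP_e487d8_al.Bd.B38
import Pool.Agent.Work.MP_e487d8_al.Bd.B42
import Pool.Agent.Work.MP_e487d8_al.Bd.B35
import Pool.Agent.Work.MP_e487d8_al.Bd.B06
import Pool.Agent.Work.MP_e487d8_al.Bd.B40
import Pool.Agent.Work.MP_e487d8_al.Bd.B41
import Pool.Agent.Work.MP_e487d8_al.Bd.B23
import Pool.Agent.Work.MP_e487d8_al.Y.Grad.Able
import Pool.Agent.Work.MP_e487d8_al.Y.Fin.Eps
import Pool.Agent.Work.MP_e487d8_al.Y.Fin.Inst
import Pool.Agent.Work.MP_e487d8_al.Bd.B39
import Pool.Agent.Work.MP_e487d8_al.Bd.B16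

/-! Bundle of small proof modules (one section per former module). -/

section

/-! MP_e487d8_al, abstract part 2: assembly. -/

set_option autoImplicit false

namespace Pool.Agent.KLSAbs

open scoped LaurentPolynomial

open Pool.Agent.KLT (Reduced goodW Part2)

variable {I S O K : Type} [DecidableEq I] [CommRing O] [Algebra ℚ O] [Ring K]
  [Algebra ℤ[T;T⁻¹] K] (D : Sys2 I S O K)

namespace Sys2

theorem dgc : D.StDgc := fun i C hC h hst => D.dag_of_st i C hC h hst

variable [IsDomain O]

theorem mult2 : D.StMult2 := I_MULT2 D (I_MULT D (I_STAB D) (I_STAB D.op))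

theorem key : D.StKey := I_KEY D (I_POW D) (I_HDSC D)

theorem key' : D.StKey' := I_KEYP D (I_POW D) (I_HDSC D.op)

theorem a2 : D.StA2 := I_A2 D (I_A1 D D.mult2 (I_HDSC D))

theorem a3 : D.StA3 := I_A3 D D.a2

theorem stz : D.StStz :=
  I_STZ D (I_STM D (I_TY D (I_BDD D (I_STAB D) (I_STAB D.op)) (I_FIN D)))

theorem dg_of_pm (m : ℕ) (h : D.PM (Reduced D.car) m) : D.DG (Reduced D.car) m :=
  I_DGM D _ (goodW D) m D.dgc D.op.dgc h

theorem r_of_dg (m : ℕ) (h : D.DG (Reduced D.car) m) : D.StR (Reduced D.car) m :=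
  I_R D _ m (goodW D) (I_KF2 D D.key)
    (I_T D _ m (goodW D) D.a3 (I_KF1 D D.key') (I_KF2 D D.key)
      (I_F D _ m (goodW D) D.a3 D.key D.key' h) h) h

theorem pm (m : ℕ) : D.PM (Reduced D.car) m := by
  induction m with
  | zero => intro w C _ h; exact absurd h (Nat.not_lt_zero _)
  | succ m ih =>
    exact I_CLOSE D _ m (D.dg_of_pm m ih) (D.r_of_dg m (D.dg_of_pm m ih)) D.stz ih

/-- the results of part 2 -/
theorem part2 : Part2 D where
  pm := D.pm
  dg m := D.dg_of_pm m (D.pm m)
  r m := D.r_of_dg m (D.dg_of_pm m (D.pm m))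
  a2 := D.a2
  k3 := I_K3 D (I_STAB D) (I_STAB D.op)
  sts := D.sts

end Sys2

end Pool.Agent.KLSAbs

end

section

/-! MP_e487d8_al: the shuffle basis theorem for all symmetrizable types. -/

set_option autoImplicit false

namespace Pool.Agent.KLS

variable {K I : Type} [Field K] [Fintype I] [DecidableEq I]

/-- the shuffle basis theorem: `M ∘ N` has the basis `tw w • mk (u ⊗ v)` over the shuffles `w` -/
theorem basis (D : Datum K I) : S_basis D := by
  have h1 := Pbw.rels_of (Pbw.prf_rE D) (Pbw.prf_rT D) (Pbw.prf_rQ D) (Pbw.prf_rB D)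
  have h2 := Pbw.prf_bal D (Pbw.prf_rV D)
  have h3 := Pbw.prf_ind D (Pbw.prf_rV D)
  have hli := Pbw.prf_locInj D h1 h2 h3 (Pbw.prf_loc D)
  have hsu := Pbw.prf_convSurj D
    (Pbw.prf_stable D (Pbw.prf_W1 D) (Pbw.prf_W2 D) (Pbw.prf_W3 D))
  have hreg := Pbw.prf_reg D
  have hrs := Pbw.prf_regSucc D hreg
  have hz1 := Pbw.prf_z1 D hreg
  have hzn := Pbw.prf_zn D hreg hrs hz1 hli hsu
  exact Pbw.prf_basis D hreg hzn hli hsu

end Pool.Agent.KLS

end

section

/-! MP_e487d8_al, block Gk: the top part of the graded character for the letter `i`. -/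

set_option autoImplicit false
set_option linter.unusedSectionVars false

open scoped LaurentPolynomial TensorProduct
open Pool.Agent.E487.Hopf

namespace Pool.Agent.KLS

variable {K I : Type} [Field K] [Fintype I] [DecidableEq I] {D : Datum K I}

section

variable {M N : Type} [AddCommGroup M] [Module K M] [Module (KLRAlg D) M]
  [IsScalarTower K (KLRAlg D) M] [AddCommGroup N] [Module K N] [Module (KLRAlg D) N]
  [IsScalarTower K (KLRAlg D) N]

/-- a surjection between word spaces of the same dimension keeps the graded dimensions -/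
theorem HomDeg.gdim_eq_of_finrank [FiniteDimensional K M] {gM : Grd D M} {gN : Grd D N} {s : ℤ}
    {f : M →ₗ[KLRAlg D] N} (hf : HomDeg gM gN s f) (hs : Function.Surjective f) {ν : List I}
    (h : Module.finrank K (wordSp D M ν) = Module.finrank K (wordSp D N ν)) (d : ℤ) :
    gN.gdim ν (d + s) = gM.gdim ν d := by
  have hN : FiniteDimensional K N := Module.Finite.of_surjective (Conv.toK f) hs
  obtain ⟨S, hS, hS'⟩ := gM.gdim_support
  let T : Finset ℤ := S.map (addRightEmbedding s)
  have hT : ∀ e, e ∉ T → ∀ u, gN.pr e u = 0 := by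
    intro e he u
    obtain ⟨v, rfl⟩ := hs u
    have h1 := hf.pr (e - s) v
    rw [sub_add_cancel] at h1
    rw [h1, hS, map_zero]
    intro h2
    apply he
    rw [Finset.mem_map]
    exact ⟨e - s, h2, sub_add_cancel e s⟩
  have h1 := gM.sum_gdim hS ν
  have h2 := gN.sum_gdim hT ν
  have h3 : ∑ e ∈ T, gN.gdim ν e = ∑ d ∈ S, gN.gdim ν (d + s) := Finset.sum_map _ _ _
  rw [h3, ← h, ← h1] at h2
  by_cases hd : d ∈ S
  · exact ((Finset.sum_eq_sum_iff_of_le fun d _ => hf.gdim_le hs ν d).1 h2) d hd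
  · rw [hS' ν d hd]
    exact gN.gdim_zero fun u => by
      obtain ⟨v, rfl⟩ := hs u
      rw [hf.pr, hS d hd, map_zero]

/-- the grading exists -/
theorem SMod.exists_grd (hb : S_basis D) (X : SMod D) : Nonempty (Grd D X.M) :=
  gradable hb X.n X.M X.smp

end

namespace QSh

variable {I : Type} {B : I → I → ℤ}

theorem L_pow_apply (i : I) (a : ℕ) (f : QSh B) (ν : List I) :
    (L i ^ a) f ν = f (List.replicate a i ++ ν) := by
  induction a generalizing ν with
  | zero => rfl
  | succ a ih =>
    rw [pow_succ', Module.End.mul_apply, L_apply, ih, List.replicate_succ', List.append_assoc]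
    rfl

end QSh

namespace Sm

variable {Lp : I → ℕ → SMod D} (hC : CFacts D Lp)

include hC in
theorem gchr_top_aux (hb : S_basis D) {i : I} {a : ℕ} {X Y : SMod D} (hem : SMod.Emax i a X Y)
    (hq : Quo D X.M ((Lp i a).conv Y)) (g : Grd D X.M) (g' : Grd D Y.M) :
    ∃ c : ℤ[T;T⁻¹], c ≠ 0 ∧ (QSh.L i ^ a) (g.gchr X.n) = c • g'.gchr Y.n := by
  obtain ⟨gL⟩ := (Lp i a).exists_grd hb
  obtain ⟨f, hf⟩ := hq
  have hsX : IsSimpleModule (KLRAlg D) X.M := X.smp.simple
  have hXn := IsSimpleModule.nontrivial (KLRAlg D) X.M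
  have hLfd := (Lp i a).smp.fd
  have hYfd := Y.smp.fd
  have hXfd := X.smp.fd
  have hLs := (Lp i a).smp.strand
  have hYs := Y.smp.strand
  have hcfd : FiniteDimensional K ((Lp i a).conv Y) := Conv.finiteDimensional hb hLs hYs
  let gc := Grd.conv (Lp i a).n gL g'
  have hf0 : f ≠ 0 := by
    intro h0
    obtain ⟨v, hv⟩ := _root_.exists_ne (0 : X.M)
    obtain ⟨u, hu⟩ := hf v
    apply hv
    rw [← hu, h0, LinearMap.zero_apply]
  obtain ⟨s, f', hf'0, hf'⟩ := exists_homDeg gc g hf0
  have hf's : Function.Surjective f' := by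
    rw [← LinearMap.range_eq_top]
    rcases eq_bot_or_eq_top (LinearMap.range f') with h1 | h1
    · exact absurd (LinearMap.range_eq_bot.1 h1) hf'0
    · exact h1
  have hn : (Lp i a).n = a := hC.n_Lp i a
  -- the graded character of `L(i^a) ∘ Y`
  have hconv : gc.gchr ((Lp i a).n + Y.n) = gL.gchr (Lp i a).n * g'.gchr Y.n :=
    gchr_conv hb hLs hYs gL g'
  set c₀ : ℤ[T;T⁻¹] := gL.gchr (Lp i a).n (List.replicate a i) with hc₀
  have hL1 : (QSh.L i ^ a) (gL.gchr (Lp i a).n) = c₀ • (1 : QSh D.fm) := by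
    apply QSh.ext'
    intro ν
    rw [QSh.L_pow_apply, QSh.smul_apply, QSh.one_apply]
    cases ν with
    | nil => simp [hc₀]
    | cons j ν =>
      rw [gL.gchr_ne (by rw [hn, List.length_append, List.length_replicate, List.length_cons]; omega)]
      simp
  have hL2 : ∀ n, a < n → (QSh.L i ^ n) (gL.gchr (Lp i a).n) = 0 := by
    intro n h
    apply QSh.ext'
    intro ν
    rw [QSh.L_pow_apply, gL.gchr_ne (by
      rw [hn, List.length_append, List.length_replicate]; omega)]
    rfl
  have hY2 : ∀ n, 0 < n → (QSh.L i ^ n) (g'.gchr Y.n) = 0 := by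
    intro n h
    apply QSh.ext'
    intro ν
    rw [QSh.L_pow_apply]
    change g'.gchr Y.n (List.replicate n i ++ ν) = 0
    by_cases hl : (List.replicate n i ++ ν).length = Y.n
    · have h1 : Y.ch (List.replicate n i ++ ν) = 0 := by
        obtain ⟨n, rfl⟩ : ∃ k, n = k + 1 := ⟨n - 1, by omega⟩
        rw [List.replicate_succ]
        exact hem.2.2 _
      have h2 : Module.finrank K (wordSp D Y.M (List.replicate n i ++ ν)) = 0 := by
        have h3 : Y.ch (List.replicate n i ++ ν) =
            Module.finrank K (wordSp D Y.M (List.replicate n i ++ ν)) := if_pos hl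
        rw [← h3, h1]
      obtain ⟨S, hS, hS'⟩ := g'.gdim_support
      rw [← g'.sum_gdim hS] at h2
      rw [g'.gchr_eq hl (hS' _)]
      refine Finset.sum_eq_zero fun d hd => ?_
      rw [(Finset.sum_eq_zero_iff.1 h2) d hd, Nat.cast_zero, zero_mul]
    · exact g'.gchr_ne hl
  have htop : (QSh.L i ^ a) (gc.gchr ((Lp i a).n + Y.n)) = c₀ • g'.gchr Y.n := by
    have h1 := QSh.L_pow_mul_top i hL2 hY2
    rw [add_zero, QSh.gc_zero_right, pow_zero, pow_zero, one_smul, Module.End.one_apply,
      Module.End.one_apply, hL1, smul_mul_assoc, one_mul] at h1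
    rw [hconv, h1]
  have hev : QSh.ev1 c₀ = (a.factorial : ℚ) := by
    have h1 : QSh.ev (gL.gchr (Lp i a).n) (List.replicate a i) = _ :=
      congrFun (gL.ev_gchr (Lp i a).n) (List.replicate a i)
    have h2 : (Lp i a).ch (List.replicate a i) = a.factorial := by
      rw [hC.ch_Lp, if_pos rfl]
    rw [QSh.ev_apply, chrQ_apply] at h1
    rw [hc₀, h1]
    exact_mod_cast h2
  have hc0 : c₀ ≠ 0 := by
    intro h0
    rw [h0, map_zero] at hev
    exact Nat.cast_ne_zero.2 (Nat.factorial_ne_zero a) hev.symm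
  have hlen : X.n = (Lp i a).n + Y.n := by
    rw [hn]
    exact hem.1
  refine ⟨QSh.tt s * c₀, mul_ne_zero (fun h0 => ?_) hc0, ?_⟩
  · have h1 := QSh.ev1_tt s
    rw [h0, map_zero] at h1
    exact zero_ne_one h1
  · rw [mul_smul, ← htop]
    apply QSh.ext'
    intro ν
    rw [QSh.L_pow_apply, QSh.smul_apply, QSh.L_pow_apply]
    by_cases hl : (List.replicate a i ++ ν).length = X.n
    · have hl' : (List.replicate a i ++ ν).length = (Lp i a).n + Y.n := by rw [hl, hlen]
      have hνl : ν.length = Y.n := by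
        rw [List.length_append, List.length_replicate, hn] at hl'
        omega
      have h1 : Module.finrank K (wordSp D ((Lp i a).conv Y) (List.replicate a i ++ ν)) =
          Module.finrank K (wordSp D X.M (List.replicate a i ++ ν)) := by
        have h2 : X.ch (List.replicate a i ++ ν) =
            Module.finrank K (wordSp D X.M (List.replicate a i ++ ν)) := if_pos hl
        have h3 : chrQ D ((Lp i a).n + Y.n) ((Lp i a).conv Y)
            (List.replicate a i ++ ν) = (Module.finrank K
              (wordSp D ((Lp i a).conv Y) (List.replicate a i ++ ν)) : ℚ) := by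
          rw [chrQ_apply, chr, if_pos hl']
        have h4 : QSh.ev (gc.gchr ((Lp i a).n + Y.n)) (List.replicate a i ++ ν) = _ :=
          congrFun (gc.ev_gchr ((Lp i a).n + Y.n)) (List.replicate a i ++ ν)
        have h5 := congrArg (fun F : QSh D.fm => QSh.ev1 (F ν)) htop
        simp only [QSh.smul_apply, map_mul] at h5
        rw [QSh.L_pow_apply, hev] at h5
        have h6 : QSh.ev (g'.gchr Y.n) ν = _ := congrFun (g'.ev_gchr Y.n) ν
        rw [QSh.ev_apply] at h4 h6
        rw [h4, h3, h6] at h5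
        have h7 : (chrQ D Y.n Y.M ν : ℚ) = (Y.ch ν : ℚ) := rfl
        have h8 : X.ch (List.replicate a i ++ ν) = a.factorial * Y.ch ν :=
          hem.2.1 ν
        rw [h7] at h5
        rw [← h2, h8]
        exact_mod_cast h5
      ext d
      rw [coeff_tt_mul, g.coeff_gchr hl, gc.coeff_gchr hl']
      have h9 := hf'.gdim_eq_of_finrank hf's h1 (d - s)
      rw [sub_add_cancel] at h9
      rw [h9]
    · rw [g.gchr_ne hl, gc.gchr_ne (by rw [← hlen]; exact hl), mul_zero]

include hC in
/-- the top part of the graded character -/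
theorem gchr_top (hb : S_basis D) (i : I) (X : Sm D) (g : Grd D X.rep.M)
    (g' : Grd D (E hC i X).rep.M) : ∃ a : ℤ[T;T⁻¹], a ≠ 0 ∧
      (QSh.L i ^ eps hC i X) (g.gchr X.rep.n) = a • g'.gchr (E hC i X).rep.n :=
  gchr_top_aux hC hb (emax hC i X) (quo_rep hC i X) g g'

end Sm

end Pool.Agent.KLS

end

section

/-! MP_e487d8_al, block Fin: the contract `UFacts` of `Fin/Bridge.lean`. -/

set_option autoImplicit false

open Pool.Agent.E487.Hopf

namespace Pool.Agent.KLS

variable {K I : Type} [Field K] [Fintype I] [DecidableEq I] {D : Datum K I}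

namespace Sm

omit [Fintype I] [DecidableEq I] in
theorem frm_iff : ∀ (w ν : List I), Frm w ν ↔ ∃ a : List ℕ, a.length = w.length ∧
    ν = powWord w a := by
  intro w
  induction w with
  | nil =>
    intro ν
    constructor
    · intro h
      exact ⟨[], rfl, h⟩
    · rintro ⟨a, ha, rfl⟩
      rfl
  | cons i w ih =>
    intro ν
    constructor
    · rintro ⟨b, ν', rfl, h⟩
      obtain ⟨a, ha, rfl⟩ := (ih ν').1 h
      exact ⟨b :: a, by rw [List.length_cons, List.length_cons, ha], rfl⟩
    · rintro ⟨a, ha, rfl⟩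
      cases a with
      | nil => simp at ha
      | cons b a =>
        rw [List.length_cons, List.length_cons] at ha
        exact ⟨b, powWord w a, rfl, (ih _).2 ⟨a, by omega, rfl⟩⟩

theorem chq_of_iso' (hconv : S_conv D) {X Y Z : SMod D}
    (h : Nonempty (X.conv Y ≃ₗ[KLRAlg D] Z.M)) : X.chq * Y.chq = Z.chq := by
  obtain ⟨g⟩ := h
  rw [← chrQ_conv hconv]
  have hn : Z.n = X.n + Y.n := quo_strand (fd_conv hconv X Y) ⟨g.toLinearMap, g.surjective⟩
  have := (fd_conv hconv X Y).fd
  apply Sh.ext'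
  intro w
  rw [chrQ_apply, chr_congr g, ← hn]
  rfl

variable {Lp : I → ℕ → SMod D} (hC : CFacts D Lp) (hconv : S_conv D)

theorem uFacts (Y : KLT.Pre I (Sm D) (Gr hC hconv)) (hb : Y.b = bas hC hconv)
    (ho : Y.one = one D) (hE : Y.E = E hC) : UFacts D Y cls where
  surj X := ⟨X.rep, cls_rep X⟩
  inj X Z := by
    constructor
    · intro h
      exact iso_rep hC (congrArg Subtype.val h)
    · intro h
      exact Subtype.ext (SMod.ch_iso h)
  mul X Z W := by
    rw [hb, gr_mul_iff]
    exact ⟨fun h => iso_conv' hC hconv h, fun h => chq_of_iso' hconv h⟩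
  ad w X := by
    have h0 : Y.Ad w (cls X) ↔ KLSAbs.AdP (E hC) (one D) w (cls X) := by
      unfold KLT.Pre.Ad
      rw [ho, hE]
    have h1 := ad_iff hC hconv w (cls X)
    refine h0.trans (h1.trans ?_)
    constructor
    · rintro ⟨ν, h2, h3⟩
      obtain ⟨a, ha, rfl⟩ := (frm_iff w ν).1 h2
      exact ⟨a, ha, h3⟩
    · rintro ⟨a, ha, h3⟩
      exact ⟨powWord w a, (frm_iff w _).2 ⟨a, ha, rfl⟩, h3⟩
  one X := by
    rw [ho]
    have h2 : X.n = (cls X).len := SMod.n_eq_of_ch (ch_rep_cls X).symm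
    rw [h2]
    constructor
    · intro h
      rw [h]
      exact len_one
    · intro h
      exact eq_one_of_len h

end Sm

end Pool.Agent.KLS

end

section

/-! MP_e487d8_al, GRAD: graded simple modules which are isomorphic are isomorphic up to a shift; the
contract `GrFacts`. -/

set_option autoImplicit false
set_option linter.unusedSectionVars false

namespace Pool.Agent.KLS

variable {K I : Type} [Field K] [Fintype I] [DecidableEq I] {D : Datum K I}

/-- the facts on gradings -/
theorem grFacts (hb : S_basis D) : GrFacts D where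
  nilp X := by
    have := X.fd
    exact X.grd.nilp
  simple X h := X.simple_of_irr h
  exists_gr Y := exists_gmod hb Y
  shift X Y hX hY := by
    rintro ⟨f⟩
    have := Y.simple_of_irr hY
    obtain ⟨s, f', h⟩ := exists_homDeg_equiv X.grd Y.grd f
    refine ⟨s, f', fun d u hu => ?_⟩
    rw [← Y.hm_iff]
    exact h.hm ((X.hm_iff d u).2 hu)
  conv X Y Z hX hY hZ := by
    rintro ⟨f⟩
    have := Z.simple_of_irr hZ
    obtain ⟨s, f', h⟩ := exists_homDeg_equiv (Grd.conv X.n X.grd Y.grd) Z.grd f
    refine ⟨s, f', fun a b u v hu hv => ?_⟩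
    rw [← Z.hm_iff]
    exact h.hm (Grd.Hm.mk X.n ((X.hm_iff a u).2 hu) ((Y.hm_iff b v).2 hv))

end Pool.Agent.KLS

end

section

/-! MP_e487d8_al: the final theorem from an instance of the abstract interface. -/

set_option autoImplicit false

open Pool.Agent.E487.Hopf Pool.Agent.KLSAbs
open scoped LaurentPolynomial

namespace Pool.Agent.KLS

variable {K I : Type} [Field K] [Fintype I] [DecidableEq I] {D : Datum K I}

/-- the final theorem from an instance of the interface -/
theorem final_of_sys {Lp : I → ℕ → SMod D} (hb : S_basis D) (hC : CFacts D Lp) (hconv : S_conv D)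
    {G : Type} [Ring G] [Algebra ℤ[T;T⁻¹] G] (Z : Sys2 I (Sm D) (Sm.Gr hC hconv) G)
    (h1 : Z.b = Sm.bas hC hconv) (h2 : Z.one = Sm.one D) (h3 : Z.E = Sm.E hC) (h4 : Z.car = D.A)
    (hp : KLT.Part2 Z) (hp' : KLT.Part2 Z.op)
    (w : List I) (hw : St.Reduced D.A w) (L : Set (St.GMod D)) (hL : St.IsMaxFamily w L) :
    St.IsGenerated w.length L ∧
      ∃ P : Set (St.GMod D), P.Finite ∧ P.ncard = w.length ∧ St.IsFreeOn P L := by
  have := Sm.isDomain_Gr hC hconv
  have := Sm.ufd_Gr hC hconv
  have hU : UFacts D (KLT.toPre Z) Sm.cls := Sm.uFacts hC hconv (KLT.toPre Z) h1 h2 h3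
  refine St.Bridge2.main (grFacts hb) (St.tFacts D) hU w (fun L' hL' => ?_) L hL
  refine KLT.final2 hp hp' w ?_ L' hL'
  rw [h4]
  exact (reduced_iff D.A w).1 hw

end Pool.Agent.KLS

end
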