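import Pool.Agent.Work.MP_e487d8_al.Bd.B45
import Pool.Agent.Work.MP_e487d8_al.Bd.B44
import Pool.Agent.Work.MP_e487d8_al.Y.Gk.Alg

/-! Bundle of small proof modules (one section per former module). -/

section

/-! MP_e487d8_al: the final theorem from the graded Grothendieck ring. -/

set_option autoImplicit false

open Pool.Agent.E487.Hopf Pool.Agent.KLSAbs
open scoped LaurentPolynomial

namespace Pool.Agent.KLS

variable {K I : Type} [Field K] [Fintype I] [DecidableEq I] {D : Datum K I}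

/-- the final theorem from the graded part of the interface -/
theorem final_of_gr {Lp : I → ℕ → SMod D} (hb : S_basis D) (hC : CFacts D Lp) (hconv : S_conv D)
    {G : Type} [Ring G] [Algebra ℤ[T;T⁻¹] G] (g : In.GrPart hC hconv G)
    (w : List I) (hw : St.Reduced D.A w) (L : Set (St.GMod D)) (hL : St.IsMaxFamily w L) :
    St.IsGenerated w.length L ∧
      ∃ P : Set (St.GMod D), P.Finite ∧ P.ncard = w.length ∧ St.IsFreeOn P L := by
  have := Sm.isDomain_Gr hC hconv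
  exact final_of_sys hb hC hconv (In.sys2 hC hconv (In.facts hb hC hconv) g) rfl rfl rfl rfl
    (Sys2.part2 _) (Sys2.part2 _) w hw L hL

end Pool.Agent.KLS

end

section

/-! MP_e487d8_al, block Gk: the graded part of the instance. -/

set_option autoImplicit false
set_option linter.unusedSectionVars false

open Pool.Agent.E487.Hopf

open scoped LaurentPolynomial

namespace Pool.Agent.KLS

variable {K I : Type} [Field K] [Fintype I] [DecidableEq I] {D : Datum K I}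

namespace Gk

/-- a homogeneous surjection with the same kernel -/
theorem exists_hom {M N : Type} [AddCommGroup M] [Module K M] [Module (KLRAlg D) M]
    [IsScalarTower K (KLRAlg D) M] [AddCommGroup N] [Module K N] [Module (KLRAlg D) N]
    [IsScalarTower K (KLRAlg D) N] (gM : Grd D M) (gN : Grd D N) [IsSimpleModule (KLRAlg D) N]
    (f : M →ₗ[KLRAlg D] N) (hf : Function.Surjective f)
    (hm : ∀ W : Submodule (KLRAlg D) M, W ≠ ⊤ → W ≤ LinearMap.ker f) :
    ∃ (s : ℤ) (h : M →ₗ[KLRAlg D] N), Function.Surjective h ∧ HomDeg gM gN (-s) h ∧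
      ∀ W : Submodule (KLRAlg D) M, W ≠ ⊤ → W ≤ LinearMap.ker h := by
  have hN := IsSimpleModule.nontrivial (KLRAlg D) N
  have hf0 : f ≠ 0 := by
    intro e
    obtain ⟨v, hv⟩ := exists_ne (0 : N)
    obtain ⟨u, hu⟩ := hf v
    exact hv (by rw [← hu, e]; rfl)
  obtain ⟨s, h, h0, h1⟩ := exists_homDeg gM gN hf0
  have hs : Function.Surjective h := LinearMap.surjective_of_ne_zero h0
  have hk : LinearMap.ker h ≠ ⊤ := fun e => h0 (LinearMap.ker_eq_top.mp e)
  have hkf : LinearMap.ker f ≠ ⊤ := fun e => hf0 (LinearMap.ker_eq_top.mp e)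
  have hc : IsCoatom (LinearMap.ker h) := LinearMap.isCoatom_ker_of_surjective hs
  have he : LinearMap.ker f = LinearMap.ker h := by
    rcases hc.le_iff.mp (hm _ hk) with h3 | h3
    · exact absurd h3 hkf
    · exact h3
  refine ⟨-s, h, hs, by rwa [neg_neg], fun W hW => ?_⟩
  rw [← he]
  exact hm W hW

/-- the quotient occurs -/
theorem occ_quo {Z V : GV D} {s : ℤ} {h : V.M →ₗ[KLRAlg D] Z.M} (hs : Function.Surjective h)
    (hd : HomDeg V.g Z.g (-s) h) : Z.Occ V s :=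
  ⟨V, LinearMap.id, h, 0, -s, Function.injective_id, hs, HomDeg.id, hd, by ring⟩

variable (hb : S_basis D) {Lp : I → ℕ → SMod D} (hC : CFacts D Lp)

include hC in
/-- graded multiplicities -/
theorem jhG (V : GM D) (hV : FdMod D V.n V.M) : ∃ m : Sm D →₀ ℤ[T;T⁻¹],
    (∀ Z k, 0 ≤ (m Z).coeff k) ∧ V.g.gchr V.n = (m.sum fun Z a => a • gch hb Z) ∧
      ∀ Z k, (m Z).coeff k ≠ 0 ↔ (gS hb Z).toGV.Occ V.toGV k :=
  exists_jh hb hC V.g hV

theorem fdS (X : Sm D) : FdMod D (gS hb X).n (gS hb X).M := X.rep.smp.toFdMod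

include hb in
theorem fdC {A B : GM D} (hA : FdMod D A.n A.M) (hB : FdMod D B.n B.M) :
    FdMod D (A.conv B).n (A.conv B).M := Conv.fdMod hb hA hB

include hb in
theorem conv_gchr {A B : GM D} (hA : FdMod D A.n A.M) (hB : FdMod D B.n B.M) :
    (A.conv B).g.gchr (A.conv B).n = A.g.gchr A.n * B.g.gchr B.n := by
  have h1 := hA.fd
  have h2 := hB.fd
  exact gchr_conv hb hA.strand hB.strand A.g B.g

/-- graded multiplicities in `X ∘ Y` -/
noncomputable def cc (X Y : Sm D) : Sm D →₀ ℤ[T;T⁻¹] :=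
  (jhG hb hC ((gS hb X).conv (gS hb Y)) (fdC hb (fdS hb X) (fdS hb Y))).choose

theorem cc_pos (X Y Z : Sm D) (k : ℤ) : 0 ≤ (cc hb hC X Y Z).coeff k :=
  (jhG hb hC ((gS hb X).conv (gS hb Y)) (fdC hb (fdS hb X) (fdS hb Y))).choose_spec.1 Z k

theorem cc_mul (X Y : Sm D) :
    gch hb X * gch hb Y = (cc hb hC X Y).sum fun Z a => a • gch hb Z := by
  refine Eq.trans ?_
    (jhG hb hC ((gS hb X).conv (gS hb Y)) (fdC hb (fdS hb X) (fdS hb Y))).choose_spec.2.1
  rw [conv_gchr hb (fdS hb X) (fdS hb Y)]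
  rfl

theorem cc_occ (X Y Z : Sm D) (k : ℤ) : (cc hb hC X Y Z).coeff k ≠ 0 ↔
    (gS hb Z).toGV.Occ ((gS hb X).conv (gS hb Y)).toGV k :=
  (jhG hb hC ((gS hb X).conv (gS hb Y)) (fdC hb (fdS hb X) (fdS hb Y))).choose_spec.2.2 Z k

theorem sum_eq_lc (m : Sm D →₀ ℤ[T;T⁻¹]) : (m.sum fun Z a => a • gch hb Z) =
    Finsupp.linearCombination ℤ[T;T⁻¹] (gch hb) m := rfl

/-- multiplicities in `P ∘ X` -/
theorem occ_left {P : GM D} (hP : FdMod D P.n P.M) {p : Sm D →₀ ℤ[T;T⁻¹]}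
    (hp : P.g.gchr P.n = (p.sum fun Z a => a • gch hb Z)) (X W : Sm D) (k : ℤ) :
    (p.sum fun Q a => a * cc hb hC Q X W).coeff k ≠ 0 ↔
      (gS hb W).toGV.Occ (P.conv (gS hb X)).toGV k := by
  obtain ⟨m, h1, h2, h3⟩ := jhG hb hC (P.conv (gS hb X)) (fdC hb hP (fdS hb X))
  rw [← h3]
  have h4 : m = p.sum fun Q a => a • cc hb hC Q X := by
    refine sum_inj hC hb ?_
    rw [← h2, conv_gchr hb hP (fdS hb X), hp, sum_eq_lc hb (p.sum _), map_finsuppSum]
    unfold Finsupp.sum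
    rw [Finset.sum_mul]
    refine Finset.sum_congr rfl fun Q _ => ?_
    show p Q • gch hb Q * gch hb X = Finsupp.linearCombination ℤ[T;T⁻¹] (gch hb)
      (p Q • cc hb hC Q X)
    rw [smul_mul_assoc, map_smul, ← sum_eq_lc, ← cc_mul]
  have h5 : m W = p.sum fun Q a => a * cc hb hC Q X W := by
    rw [h4]
    unfold Finsupp.sum
    rw [Finsupp.finset_sum_apply]
    rfl
  rw [h5]

/-- multiplicities in `X ∘ P` -/
theorem occ_right {P : GM D} (hP : FdMod D P.n P.M) {p : Sm D →₀ ℤ[T;T⁻¹]}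
    (hp : P.g.gchr P.n = (p.sum fun Z a => a • gch hb Z)) (X W : Sm D) (k : ℤ) :
    (p.sum fun Q a => a * cc hb hC X Q W).coeff k ≠ 0 ↔
      (gS hb W).toGV.Occ ((gS hb X).conv P).toGV k := by
  obtain ⟨m, h1, h2, h3⟩ := jhG hb hC ((gS hb X).conv P) (fdC hb (fdS hb X) hP)
  rw [← h3]
  have h4 : m = p.sum fun Q a => a • cc hb hC X Q := by
    refine sum_inj hC hb ?_
    rw [← h2, conv_gchr hb (fdS hb X) hP, hp, sum_eq_lc hb (p.sum _), map_finsuppSum]
    unfold Finsupp.sum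
    rw [Finset.mul_sum]
    refine Finset.sum_congr rfl fun Q _ => ?_
    show gch hb X * p Q • gch hb Q = Finsupp.linearCombination ℤ[T;T⁻¹] (gch hb)
      (p Q • cc hb hC X Q)
    rw [mul_smul_comm, map_smul, ← sum_eq_lc, ← cc_mul]
  have h5 : m W = p.sum fun Q a => a * cc hb hC X Q W := by
    rw [h4]
    unfold Finsupp.sum
    rw [Finsupp.finset_sum_apply]
    rfl
  rw [h5]

/-- the input of the graded Grothendieck ring -/
noncomputable def gkIn : In.GkIn hC where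
  gch := gch hb
  gch_one := gch_one hb
  supp := supp_gch hb
  ev := ev_gch hb
  c := cc hb hC
  c_pos := cc_pos hb hC
  mul := cc_mul hb hC
  top i X := Sm.gchr_top hC hb i X (gsel hb X) (gsel hb (Sm.E hC i X))
  mir := rv_gch hb hC
  hd B := by
    obtain ⟨P, hP, -, h⟩ := Mo.hd hb B.rep (gsel hb B)
    obtain ⟨p, hp1, hp2, -⟩ := jhG hb hC P hP
    refine ⟨p, hp1, fun X Z hXZ => ?_⟩
    obtain ⟨f, hf, hm⟩ := hXZ
    have hZ : IsSimpleModule (KLRAlg D) Z.rep.M := Z.rep.smp.simple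
    obtain ⟨s, q, hs, hd, hk⟩ :=
      exists_hom (Grd.conv X.rep.n (gsel hb X) (gsel hb B)) (gsel hb Z) f hf hm
    obtain ⟨D', h1, h2⟩ := (h X.rep Z.rep (gsel hb X) (gsel hb Z) s).1 q hs hd hk
    refine ⟨s, D', ?_, ?_, fun W n hW => ?_⟩
    · rw [cc_occ]
      exact occ_quo (Z := (gS hb Z).toGV) (V := ((gS hb X).conv (gS hb B)).toGV) hs hd
    · rw [occ_left hb hC hP hp2]
      exact h1
    · rw [cc_occ] at hW
      obtain ⟨e, he⟩ := h2 W.rep (gsel hb W) n hW
      exact ⟨e, (occ_left hb hC hP hp2 X W _).2 he⟩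
  hd' B := by
    obtain ⟨P, hP, -, h⟩ := Mo.hd hb B.rep (gsel hb B)
    obtain ⟨p, hp1, hp2, -⟩ := jhG hb hC P hP
    refine ⟨p, hp1, fun X Z hXZ => ?_⟩
    obtain ⟨f, hf, hm⟩ := hXZ
    have hZ : IsSimpleModule (KLRAlg D) Z.rep.M := Z.rep.smp.simple
    obtain ⟨s, q, hs, hd, hk⟩ :=
      exists_hom (Grd.conv B.rep.n (gsel hb B) (gsel hb X)) (gsel hb Z) f hf hm
    obtain ⟨D', h1, h2⟩ := (h X.rep Z.rep (gsel hb X) (gsel hb Z) s).2 q hs hd hk
    refine ⟨s, D', ?_, ?_, fun W n hW => ?_⟩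
    · rw [cc_occ]
      exact occ_quo (Z := (gS hb Z).toGV) (V := ((gS hb B).conv (gS hb X)).toGV) hs hd
    · rw [occ_right hb hC hP hp2]
      exact h1
    · rw [cc_occ] at hW
      obtain ⟨e, he⟩ := h2 W.rep (gsel hb W) n hW
      exact ⟨e, (occ_right hb hC hP hp2 X W _).2 he⟩

end Gk

end Pool.Agent.KLS

end
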